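import Pool.Agent.Lib.MP_a25055_ag.Glue1

/-! Block A1: cubics all of whose singular points are ordinary nodes are irreducible and stable. -/

open MvPolynomial Module

noncomputable section

namespace Pool.Agent.Lib.MP_a25055_ag

namespace BA1

lemma root (a b c : ℂ) (ha : a ≠ 0) : ∃ t, a * t ^ 2 + b * t + c = 0 := by
  obtain ⟨s, hs⟩ := IsAlgClosed.exists_eq_mul_self (b ^ 2 - 4 * a * c)
  refine ⟨(-b + s) / (2 * a), ?_⟩
  field_simp
  linear_combination -hs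

lemma bin_root (a b c : ℂ) : ∃ s t : ℂ, (s ≠ 0 ∨ t ≠ 0) ∧ a * s ^ 2 + b * s * t + c * t ^ 2 = 0 := by
  by_cases ha : a = 0
  · exact ⟨1, 0, Or.inl one_ne_zero, by simp [ha]⟩
  · obtain ⟨t, ht⟩ := root a b c ha
    exact ⟨t, 1, Or.inr one_ne_zero, by linear_combination ht⟩

lemma bin_fac (a b c : ℂ) : ∃ p q p' q' : ℂ, a = p * p' ∧ b = p * q' + q * p' ∧ c = q * q' := by
  by_cases ha : a = 0
  · exact ⟨0, 1, b, c, by simp [ha], by simp, by simp⟩
  · obtain ⟨t, ht⟩ := root a b c ha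
    exact ⟨1, -t, a, b + a * t, by ring, by ring, by linear_combination ht⟩

/-- a linear form from its coefficients -/
def lf (a b c d : ℂ) : (Fin 4 → ℂ) →ₗ[ℂ] ℂ :=
  a • LinearMap.proj 0 + b • LinearMap.proj 1 + c • LinearMap.proj 2 + d • LinearMap.proj 3

lemma lf_apply (a b c d : ℂ) (v : Fin 4 → ℂ) :
    lf a b c d v = a * v 0 + b * v 1 + c * v 2 + d * v 3 := by
  simp [lf]

/-- exponent vectors -/
def m4 (i j k l : ℕ) : Fin 4 →₀ ℕ := Finsupp.equivFunOnFinite.symm ![i, j, k, l]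

lemma m4_0 (i j k l : ℕ) : m4 i j k l 0 = i := rfl
lemma m4_1 (i j k l : ℕ) : m4 i j k l 1 = j := rfl
lemma m4_2 (i j k l : ℕ) : m4 i j k l 2 = k := rfl
lemma m4_3 (i j k l : ℕ) : m4 i j k l 3 = l := rfl

lemma eval_cubic {f : P4} (hf : f.IsHomogeneous 3) (x : Fin 4 → ℂ) :
    eval x f = ∑ i ∈ Finset.range 4, ∑ j ∈ Finset.range 4, ∑ k ∈ Finset.range 4,
      if i + j + k ≤ 3 then coeff (m4 i j k (3 - i - j - k)) f *
        (x 0 ^ i * x 1 ^ j * x 2 ^ k * x 3 ^ (3 - i - j - k)) else 0 := by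
  classical
  let T : Finset (ℕ × ℕ × ℕ) := (Finset.range 4 ×ˢ Finset.range 4 ×ˢ Finset.range 4).filter
    fun t => t.1 + t.2.1 + t.2.2 ≤ 3
  let φ : ℕ × ℕ × ℕ → (Fin 4 →₀ ℕ) := fun t => m4 t.1 t.2.1 t.2.2 (3 - t.1 - t.2.1 - t.2.2)
  have hinj : Set.InjOn φ T := by
    intro t _ t' _ h
    have h0 : φ t 0 = φ t' 0 := by rw [h]
    have h1 : φ t 1 = φ t' 1 := by rw [h]
    have h2 : φ t 2 = φ t' 2 := by rw [h]
    exact Prod.ext h0 (Prod.ext h1 h2)
  have hsub : f.support ⊆ T.image φ := by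
    intro a ha
    have h3 : a 0 + a 1 + a 2 + a 3 = 3 := by
      have := hf (mem_support_iff.1 ha)
      rw [Finsupp.weight_apply, Finsupp.sum_fintype _ _ (by simp)] at this
      simpa [Fin.sum_univ_four] using this
    refine Finset.mem_image.2 ⟨(a 0, a 1, a 2), ?_, ?_⟩
    · simp only [T, Finset.mem_filter, Finset.mem_product, Finset.mem_range]
      omega
    · ext i
      fin_cases i
      · rfl
      · rfl
      · rfl
      · show 3 - a 0 - a 1 - a 2 = a 3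
        omega
  rw [eval_eq', Finset.sum_subset hsub (fun a _ ha => by
    rw [notMem_support_iff.1 ha, zero_mul]), Finset.sum_image hinj, Finset.sum_filter,
    Finset.sum_product]
  refine Finset.sum_congr rfl fun i _ => ?_
  rw [Finset.sum_product]
  refine Finset.sum_congr rfl fun j _ => Finset.sum_congr rfl fun k _ => ?_
  simp only [φ, Fin.prod_univ_four, m4_0, m4_1, m4_2, m4_3]

lemma eval_cubic' {f : P4} (hf : f.IsHomogeneous 3) (x : Fin 4 → ℂ) :
    eval x f = coeff (m4 3 0 0 0) f * x 0 ^ 3 + coeff (m4 2 1 0 0) f * (x 0 ^ 2 * x 1) +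
      coeff (m4 2 0 1 0) f * (x 0 ^ 2 * x 2) + coeff (m4 2 0 0 1) f * (x 0 ^ 2 * x 3) +
      coeff (m4 1 2 0 0) f * (x 0 * x 1 ^ 2) + coeff (m4 1 1 1 0) f * (x 0 * x 1 * x 2) +
      coeff (m4 1 1 0 1) f * (x 0 * x 1 * x 3) + coeff (m4 1 0 2 0) f * (x 0 * x 2 ^ 2) +
      coeff (m4 1 0 1 1) f * (x 0 * x 2 * x 3) + coeff (m4 1 0 0 2) f * (x 0 * x 3 ^ 2) +
      coeff (m4 0 3 0 0) f * x 1 ^ 3 + coeff (m4 0 2 1 0) f * (x 1 ^ 2 * x 2) +
      coeff (m4 0 2 0 1) f * (x 1 ^ 2 * x 3) + coeff (m4 0 1 2 0) f * (x 1 * x 2 ^ 2) +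
      coeff (m4 0 1 1 1) f * (x 1 * x 2 * x 3) + coeff (m4 0 1 0 2) f * (x 1 * x 3 ^ 2) +
      coeff (m4 0 0 3 0) f * x 2 ^ 3 + coeff (m4 0 0 2 1) f * (x 2 ^ 2 * x 3) +
      coeff (m4 0 0 1 2) f * (x 2 * x 3 ^ 2) + coeff (m4 0 0 0 3) f * x 3 ^ 3 := by
  rw [eval_cubic hf]
  simp only [Finset.sum_range_succ, Finset.sum_range_zero]
  norm_num
  ring

lemma core {f : P4} (hf : f.IsHomogeneous 3) (r : Fin 4 → ℤ) (hs : ∑ j, r j = 0) (hr : r ≠ 0)
    (h01 : r 1 ≤ r 0) (h12 : r 2 ≤ r 1) (h23 : r 3 ≤ r 2)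
    (hw : ∀ a ∈ f.support, ∑ j, (a j : ℤ) * r j ≤ 0) : Deg2 f := by
  rw [Fin.sum_univ_four] at hs
  have hz : ∀ i j k l : ℕ, 0 < (i : ℤ) * r 0 + j * r 1 + k * r 2 + l * r 3 →
      coeff (m4 i j k l) f = 0 := by
    intro i j k l h
    by_contra hne
    have := hw _ (mem_support_iff.2 hne)
    rw [Fin.sum_univ_four, m4_0, m4_1, m4_2, m4_3] at this
    omega
  have h3 : r 3 < 0 := by
    by_contra h
    apply hr
    funext i
    fin_cases i <;> simp <;> omega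
  have h0 : 0 < r 0 := by omega
  by_cases hc : r 1 + r 2 < r 0
  · have z1 := hz 3 0 0 0 (by push_cast; omega)
    have z2 := hz 2 1 0 0 (by push_cast; omega)
    have z3 := hz 2 0 1 0 (by push_cast; omega)
    have z4 := hz 2 0 0 1 (by push_cast; omega)
    have z5 := hz 1 2 0 0 (by push_cast; omega)
    have z6 := hz 1 1 1 0 (by push_cast; omega)
    have hx : (![1, 0, 0, 0] : Fin 4 → ℂ) ≠ 0 := fun h => by simpa using congrFun h 0
    by_cases h2 : 0 ≤ r 2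
    · have z7 := hz 1 0 2 0 (by push_cast; omega)
      refine ⟨![1, 0, 0, 0], hx, lf 0 0 0 1,
        lf 0 (coeff (m4 1 1 0 1) f) (coeff (m4 1 0 1 1) f) (coeff (m4 1 0 0 2) f), fun s v => ?_⟩
      rw [eval_cubic' hf, eval_cubic' hf, lf_apply, lf_apply, z1, z2, z3, z4, z5, z6, z7]
      simp
      ring
    · have z7 := hz 1 1 0 1 (by push_cast; omega)
      obtain ⟨p, q, p', q', e1, e2, e3⟩ :=
        bin_fac (coeff (m4 1 0 2 0) f) (coeff (m4 1 0 1 1) f) (coeff (m4 1 0 0 2) f)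
      refine ⟨![1, 0, 0, 0], hx, lf 0 0 p q, lf 0 0 p' q', fun s v => ?_⟩
      rw [eval_cubic' hf, eval_cubic' hf, lf_apply, lf_apply, z1, z2, z3, z4, z5, z6, z7, e1, e2,
        e3]
      simp
      ring
  · have z1 := hz 3 0 0 0 (by push_cast; omega)
    have z2 := hz 2 1 0 0 (by push_cast; omega)
    have z3 := hz 2 0 1 0 (by push_cast; omega)
    have z4 := hz 1 2 0 0 (by push_cast; omega)
    have z5 := hz 1 1 1 0 (by push_cast; omega)
    have z6 := hz 1 0 2 0 (by push_cast; omega)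
    have z7 := hz 0 3 0 0 (by push_cast; omega)
    have z8 := hz 0 2 1 0 (by push_cast; omega)
    have z9 := hz 0 1 2 0 (by push_cast; omega)
    obtain ⟨x, y, hxy, e⟩ :=
      bin_root (coeff (m4 2 0 0 1) f) (coeff (m4 1 1 0 1) f) (coeff (m4 0 2 0 1) f)
    have hx : (![x, y, 0, 0] : Fin 4 → ℂ) ≠ 0 := fun h => by
      have a0 : x = 0 := by simpa using congrFun h 0
      have a1 : y = 0 := by simpa using congrFun h 1
      rcases hxy with h | h
      exacts [h a0, h a1]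
    refine ⟨![x, y, 0, 0], hx, lf 0 0 0 1,
      lf (2 * coeff (m4 2 0 0 1) f * x + coeff (m4 1 1 0 1) f * y)
        (coeff (m4 1 1 0 1) f * x + 2 * coeff (m4 0 2 0 1) f * y)
        (coeff (m4 1 0 1 1) f * x + coeff (m4 0 1 1 1) f * y)
        (coeff (m4 1 0 0 2) f * x + coeff (m4 0 1 0 2) f * y), fun s v => ?_⟩
    rw [eval_cubic' hf, eval_cubic' hf, lf_apply, lf_apply, z1, z2, z3, z4, z5, z6, z7, z8, z9]
    simp
    linear_combination (s ^ 2 * v 3) * e

lemma deg2_rename (f : P4) (σ : Equiv.Perm (Fin 4)) (h : Deg2 (rename σ.symm f)) : Deg2 f := by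
  obtain ⟨x, hx, l, l', h⟩ := h
  refine ⟨x ∘ σ.symm, fun h0 => hx ?_, l ∘ₗ LinearMap.funLeft ℂ ℂ σ, l' ∘ₗ LinearMap.funLeft ℂ ℂ σ,
    fun s v => ?_⟩
  · funext i
    simpa using congrFun h0 (σ i)
  · have := h s (v ∘ σ)
    rw [eval_rename, eval_rename] at this
    have e1 : (s • x + v ∘ σ) ∘ σ.symm = s • (x ∘ σ.symm) + v := by
      funext i; simp
    have e2 : (v ∘ σ) ∘ σ.symm = v := by
      funext i; simp
    rw [e1, e2] at this
    exact this

lemma core' {f : P4} (hf : f.IsHomogeneous 3) (r : Fin 4 → ℤ) (hs : ∑ j, r j = 0) (hr : r ≠ 0)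
    (hw : ∀ a ∈ f.support, ∑ j, (a j : ℤ) * r j ≤ 0) : Deg2 f := by
  let σ := Tuple.sort (fun j => -r j)
  have hm : Monotone ((fun j => -r j) ∘ σ) := Tuple.monotone_sort _
  have h01 := hm (show (0 : Fin 4) ≤ 1 by decide)
  have h12 := hm (show (1 : Fin 4) ≤ 2 by decide)
  have h23 := hm (show (2 : Fin 4) ≤ 3 by decide)
  simp only [Function.comp, neg_le_neg_iff] at h01 h12 h23
  refine deg2_rename f σ (core (hf.rename_isHomogeneous) (r ∘ σ) ?_ ?_ h01 h12 h23 ?_)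
  · rw [← hs]; exact Equiv.sum_comp σ r
  · intro h
    apply hr
    funext i
    simpa using congrFun h (σ.symm i)
  · intro a ha
    obtain ⟨u, rfl, hu⟩ := coeff_rename_ne_zero _ _ _ (mem_support_iff.1 ha)
    have := hw u (mem_support_iff.2 hu)
    rw [← Equiv.sum_comp σ] at this
    simpa [Finsupp.mapDomain_equiv_apply] using this

lemma deg2_zero : Deg2 (0 : P4) :=
  ⟨![1, 0, 0, 0], fun h => by simpa using congrFun h 0, 0, 0, fun s v => by simp⟩

lemma deg2_sub (f : P4) (M : Mat 4) (hM : M.det ≠ 0) (h : Deg2 (sub4 M f)) : Deg2 f := by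
  obtain ⟨x, hx, l, l', h⟩ := h
  have hu : IsUnit M.det := isUnit_iff_ne_zero.2 hM
  refine ⟨Matrix.vecMul x M, fun h0 => hx ?_, l ∘ₗ M⁻¹.vecMulLinear, l' ∘ₗ M⁻¹.vecMulLinear,
    fun s v => ?_⟩
  · have := congrArg (fun y => Matrix.vecMul y M⁻¹) h0
    simpa [Matrix.vecMul_vecMul, Matrix.mul_nonsing_inv _ hu] using this
  · have := h s (Matrix.vecMul v M⁻¹)
    rw [eval_sub4, eval_sub4, Matrix.add_vecMul, Matrix.smul_vecMul, Matrix.vecMul_vecMul,
      Matrix.nonsing_inv_mul _ hu, Matrix.vecMul_one] at this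
    exact this

lemma deg2_iff (f : P4) (M : Mat 4) (hM : M.det ≠ 0) : Deg2 (sub4 M f) ↔ Deg2 f := by
  refine ⟨deg2_sub f M hM, fun h => ?_⟩
  have hu : IsUnit M.det := isUnit_iff_ne_zero.2 hM
  refine deg2_sub _ M⁻¹ (M.isUnit_nonsing_inv_det hu).ne_zero ?_
  rwa [sub4_sub4, Matrix.nonsing_inv_mul _ hu, sub4_one]

lemma lin_form {p : P4} (hp : p ∈ homogeneousSubmodule (Fin 4) ℂ 1) :
    ∃ l : (Fin 4 → ℂ) →ₗ[ℂ] ℂ, ∀ v, eval v p = l v := by
  rw [homogeneousSubmodule_one_eq_span_X] at hp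
  induction hp using Submodule.span_induction with
  | mem x hx =>
    obtain ⟨i, rfl⟩ := hx
    exact ⟨LinearMap.proj i, fun v => by simp⟩
  | zero => exact ⟨0, fun v => by simp⟩
  | add x y _ _ hx hy =>
    obtain ⟨l, hl⟩ := hx
    obtain ⟨l', hl'⟩ := hy
    exact ⟨l + l', fun v => by simp [hl, hl']⟩
  | smul a x _ hx =>
    obtain ⟨l, hl⟩ := hx
    exact ⟨a • l, fun v => by simp [hl]⟩

lemma quad_form {q : P4} (hq : q ∈ homogeneousSubmodule (Fin 4) ℂ 2) :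
    ∃ B : (Fin 4 → ℂ) →ₗ[ℂ] (Fin 4 → ℂ) →ₗ[ℂ] ℂ, ∀ v, eval v q = B v v := by
  rw [← homogeneousSubmodule_one_pow, pow_two] at hq
  refine Submodule.mul_induction_on hq (fun x hx y hy => ?_) fun x y hx hy => ?_
  · obtain ⟨l, hl⟩ := lin_form hx
    obtain ⟨l', hl'⟩ := lin_form hy
    exact ⟨l.smulRight l', fun v => by simp [hl, hl']⟩
  · obtain ⟨l, hl⟩ := hx
    obtain ⟨l', hl'⟩ := hy
    exact ⟨l + l', fun v => by simp [hl, hl']⟩

lemma deg2_mul {p q : P4} (hp : p.IsHomogeneous 1) (hq : q.IsHomogeneous 2) : Deg2 (p * q) := by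
  obtain ⟨l, hl⟩ := lin_form hp
  obtain ⟨B, hB⟩ := quad_form hq
  have h1 : 2 ≤ finrank ℂ (LinearMap.ker l) := by
    have h2 := l.finrank_range_add_finrank_ker
    have h3 : finrank ℂ (LinearMap.range l) ≤ 1 := by
      simpa using (LinearMap.range l).finrank_le
    simp at h2
    omega
  obtain ⟨e, he⟩ := exists_linearIndependent_of_le_finrank h1
  have he' := he.map' (LinearMap.ker l).subtype (Submodule.ker_subtype _)
  set y : Fin 4 → ℂ := (e 0 : Fin 4 → ℂ) with hy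
  set z : Fin 4 → ℂ := (e 1 : Fin 4 → ℂ) with hz
  have ly : l y = 0 := (e 0).2
  have lz : l z = 0 := (e 1).2
  obtain ⟨s0, t0, hst, hroot⟩ := bin_root (B y y) (B y z + B z y) (B z z)
  have hx : s0 • y + t0 • z ≠ 0 := by
    intro h0
    have := Fintype.linearIndependent_iff.1 he' ![s0, t0] (by
      simpa [Fin.sum_univ_two] using h0)
    rcases hst with h | h
    · exact h (this 0)
    · exact h (this 1)
  have lx : l (s0 • y + t0 • z) = 0 := by simp [ly, lz]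
  have Bx : B (s0 • y + t0 • z) (s0 • y + t0 • z) = 0 := by
    simp only [map_add, map_smul, LinearMap.add_apply, LinearMap.smul_apply, smul_eq_mul]
    linear_combination hroot
  generalize s0 • y + t0 • z = x at hx lx Bx
  refine ⟨x, hx, l, B x + B.flip x, fun s v => ?_⟩
  simp only [map_mul, hl, hB, map_add, map_smul, LinearMap.add_apply, LinearMap.smul_apply,
    smul_eq_mul, lx, Bx, LinearMap.flip_apply]
  ring

lemma unit_of_hom_zero {p : P4} (hp : p.IsHomogeneous 0) (h0 : p ≠ 0) : IsUnit p := by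
  have h1 : p = C (coeff 0 p) := totalDegree_eq_zero_iff_eq_C.1 (hp.totalDegree h0)
  have h2 : coeff 0 p ≠ 0 := fun h => h0 (by rw [h1, h, map_zero])
  rw [h1]
  exact (isUnit_iff_ne_zero.2 h2).map C

lemma irr (hF : St_HF) (f : P4) (hf : f.IsHomogeneous 3) (hn : ¬ Deg2 f) : Irreducible f := by
  have h0 : f ≠ 0 := fun h => hn (h ▸ deg2_zero)
  refine ⟨fun hu => ?_, fun p q hpq => ?_⟩
  · have h1 := hf.totalDegree h0
    have h2 := (isUnit_iff_totalDegree_of_isReduced.1 hu).2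
    omega
  · obtain ⟨e, he⟩ := hF.fac f p 3 h0 hf ⟨q, hpq⟩
    obtain ⟨e', he'⟩ := hF.fac f q 3 h0 hf ⟨p, by rw [hpq, mul_comm]⟩
    have hp0 : p ≠ 0 := fun h => h0 (by rw [hpq, h, zero_mul])
    have hq0 : q ≠ 0 := fun h => h0 (by rw [hpq, h, mul_zero])
    have h3 : e + e' = 3 := by
      have := he.mul he'
      rw [← hpq] at this
      exact this.inj_right hf h0
    rcases Nat.eq_zero_or_pos e with rfl | hpos
    · exact Or.inl (unit_of_hom_zero he hp0)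
    rcases Nat.eq_zero_or_pos e' with rfl | hpos'
    · exact Or.inr (unit_of_hom_zero he' hq0)
    exfalso
    apply hn
    rcases (show (e = 1 ∧ e' = 2) ∨ (e = 2 ∧ e' = 1) by omega) with ⟨rfl, rfl⟩ | ⟨rfl, rfl⟩
    · rw [hpq]; exact deg2_mul he he'
    · rw [hpq, mul_comm]; exact deg2_mul he' he

lemma stab (hH : St_HM) (f : P4) (hf : f.IsHomogeneous 3) (hn : ¬ Deg2 f) : Stab (lift4 f) := by
  have h0 : f ≠ 0 := fun h => hn (h ▸ deg2_zero)
  have hinj : Function.Injective (Prod.mk (0 : Fin 1) : Fin 4 → Fin 1 × Fin 4) :=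
    fun a b h => (Prod.mk.inj h).2
  refine hH (lift4 f) (fun h => h0 (rename_injective _ hinj (by simpa [lift4] using h))) ?_
  intro g r hs hr
  by_contra hcon
  push Not at hcon
  rw [← lift4_sub4] at hcon
  apply hn
  rw [← deg2_iff f (g : Mat 4) (by simp)]
  refine core' (hom_sub4 hf _) r hs hr fun a ha => ?_
  have h1 := hcon (a.mapDomain (Prod.mk (0 : Fin 1))) (by
    rw [MvPolynomial.mem_support_iff, lift4, coeff_rename_mapDomain _ hinj]
    exact mem_support_iff.1 ha)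
  have h2 : wt (fun j => (r j : ℝ)) (a.mapDomain (Prod.mk (0 : Fin 1))) =
      ((∑ j, (a j : ℤ) * r j : ℤ) : ℝ) := by
    rw [wt, Fintype.sum_prod_type, Fin.sum_univ_one]
    push_cast
    exact Finset.sum_congr rfl fun j _ => by rw [Finsupp.mapDomain_apply hinj]
  rw [h2] at h1
  exact_mod_cast h1

end BA1

theorem a1_of (hH : St_HM) (hF : St_HF) : St_A1 :=
  ⟨BA1.irr hF, BA1.deg2_iff, BA1.stab hH⟩

end Pool.Agent.Lib.MP_a25055_ag
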