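import Pool.Agent.Lib.MP_a25055_ag.Glue1

/-! Block BC: existence of Chow forms and independence of the choices. -/

open MvPolynomial Filter Topology Module

noncomputable section

namespace Pool.Agent.Lib.MP_a25055_ag

namespace BBC

lemma exists_fac {A : Type} [CommRing A] [IsDomain A] [WfDvdMonoid A] (a : A) :
    a ≠ 0 → ¬ IsUnit a → ∃ (n : ℕ) (g : Fin n → A), a = ∏ i, g i ∧ ∀ i, Irreducible (g i) := by
  induction a using WfDvdMonoid.induction_on_irreducible with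
  | zero => exact fun h => absurd rfl h
  | unit u hu => exact fun _ h => absurd hu h
  | mul a i ha hi ih =>
    intro _ _
    by_cases h : IsUnit a
    · exact ⟨1, fun _ => i * a, by simp, fun _ => (irreducible_mul_isUnit h).2 hi⟩
    · obtain ⟨n, g, h1, h2⟩ := ih ha h
      refine ⟨n + 1, Fin.cons i g, by rw [Fin.prod_univ_succ, h1]; simp, fun j => ?_⟩
      refine Fin.cases ?_ (fun j => ?_) j
      · simpa using hi
      · simpa using h2 j

lemma irr_of_inv {A : Type} [CommRing A] [Algebra ℂ A] (φ ψ : A →ₐ[ℂ] A) (h1 : ∀ p, φ (ψ p) = p)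
    (h2 : ∀ p, ψ (φ p) = p) {p : A} (hp : Irreducible p) : Irreducible (φ p) :=
  (MulEquiv.irreducible_iff (f := AlgEquiv.ofAlgHom φ ψ (AlgHom.ext h1) (AlgHom.ext h2))).2 hp

lemma irr_act {m N : ℕ} {g : Mat N} (hg : g.det ≠ 0) {p : PP m N} (hp : Irreducible p) :
    Irreducible (act g p) :=
  irr_of_inv (act g) (act g⁻¹)
    (fun p => by rw [act_act, Matrix.mul_nonsing_inv _ (isUnit_iff_ne_zero.2 hg), act_one])
    (fun p => by rw [act_act, Matrix.nonsing_inv_mul _ (isUnit_iff_ne_zero.2 hg), act_one]) hp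

lemma sub4_inv {M : Mat 4} (hM : M.det ≠ 0) (p : P4) : sub4 M (sub4 M⁻¹ p) = p := by
  rw [sub4_sub4, Matrix.mul_nonsing_inv _ (isUnit_iff_ne_zero.2 hM), sub4_one]

lemma inv_sub4 {M : Mat 4} (hM : M.det ≠ 0) (p : P4) : sub4 M⁻¹ (sub4 M p) = p := by
  rw [sub4_sub4, Matrix.nonsing_inv_mul _ (isUnit_iff_ne_zero.2 hM), sub4_one]

lemma irr_sub4 {M : Mat 4} (hM : M.det ≠ 0) {p : P4} (hp : Irreducible p) :
    Irreducible (sub4 M p) := irr_of_inv (sub4 M) (sub4 M⁻¹) (sub4_inv hM) (inv_sub4 hM) hp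

lemma det_inv_ne {N : ℕ} {M : Mat N} (hM : M.det ≠ 0) : M⁻¹.det ≠ 0 :=
  (Matrix.isUnit_nonsing_inv_det M (isUnit_iff_ne_zero.2 hM)).ne_zero

lemma sum_comb {N : ℕ} (b : Fin N → P4) (g : Mat N) (c : Fin N → ℂ) :
    ∑ l, c l • ∑ j, g l j • b j = ∑ j, Matrix.vecMul c g j • b j := by
  simp only [Finset.smul_sum, smul_smul, Matrix.vecMul, dotProduct, Finset.sum_smul]
  exact Finset.sum_comm

lemma basis_act {f : P4} {k N : ℕ} {b : Fin N → P4} {g : Mat N} (hg : g.det ≠ 0)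
    (h : IsBasisMod f k b) : IsBasisMod f k fun l => ∑ j, g l j • b j := by
  refine ⟨fun l => ?_, fun c hc => ?_, fun p hp => ?_⟩
  · exact (homogeneousSubmodule (Fin 4) ℂ k).sum_mem fun j _ =>
      (homogeneousSubmodule (Fin 4) ℂ k).smul_mem _ (h.1 j)
  · rw [sum_comb] at hc
    exact Matrix.eq_zero_of_vecMul_eq_zero hg (h.2.1 _ hc)
  · obtain ⟨c, hc⟩ := h.2.2 p hp
    refine ⟨Matrix.vecMul c g⁻¹, ?_⟩
    rwa [sum_comb, Matrix.vecMul_vecMul, Matrix.nonsing_inv_mul _ (isUnit_iff_ne_zero.2 hg),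
      Matrix.vecMul_one]

lemma chow_act {f : P4} {N : ℕ} {b : Fin N → P4} {R : PP 3 N} {g : Mat N} (hg : g.det ≠ 0)
    (h : IsChowIrr f b R) : IsChowIrr f (fun l => ∑ j, g l j • b j) (act g R) := by
  refine ⟨irr_act hg h.1, fun H => ?_⟩
  rw [eval_act, moved, h.2]
  refine exists_congr fun x => and_congr_right fun _ => and_congr_right fun _ =>
    forall_congr' fun i => Eq.congr_left ?_
  simp only [map_sum, smul_eval, Finset.sum_mul, Finset.mul_sum, mul_assoc]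
  exact Finset.sum_comm

lemma chow_congr {g g' : P4} {N : ℕ} {b b' : Fin N → P4} {R : PP 3 N} (h : IsChowIrr g b R)
    (h1 : Associated g g') (h2 : ∀ j, g ∣ b' j - b j) : IsChowIrr g' b' R := by
  refine ⟨h.1, fun H => (h.2 H).trans (exists_congr fun x => and_congr_right fun _ => ?_)⟩
  have e1 : eval x g = 0 ↔ eval x g' = 0 :=
    ⟨fun e => zero_dvd_iff.1 (e ▸ map_dvd (eval x) h1.dvd),
      fun e => zero_dvd_iff.1 (e ▸ map_dvd (eval x) h1.symm.dvd)⟩
  rw [← e1]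
  refine and_congr_right fun e => ?_
  have e2 : ∀ j, eval x (b' j) = eval x (b j) := fun j => by
    have := map_dvd (eval x) (h2 j)
    rwa [e, zero_dvd_iff, map_sub, sub_eq_zero] at this
  simp only [e2]

lemma mk4_eq_zero {f p : P4} : mk4 f p = 0 ↔ f ∣ p :=
  Ideal.Quotient.eq_zero_iff_mem.trans Ideal.mem_span_singleton

lemma exb (f : P4) (k : ℕ) : ∃ (N : ℕ) (b : Fin N → P4), IsBasisMod f k b := by
  have : Module.Finite ℂ (degQ f k) :=
    Module.Finite.iff_fg.2 ((homogeneousSubmodule_fg (Fin 4) ℂ k).map _)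
  let e := Module.finBasis ℂ (degQ f k)
  choose b hb1 hb2 using fun j => Submodule.mem_map.1 (e j).2
  have key : ∀ c : Fin (finrank ℂ (degQ f k)) → ℂ,
      mk4 f (∑ j, c j • b j) = ((∑ j, c j • e j : degQ f k) : Q4 f) := fun c => by
    rw [map_sum, Submodule.coe_sum]
    exact Finset.sum_congr rfl fun j _ => by rw [map_smul, Submodule.coe_smul, ← hb2]; rfl
  refine ⟨_, b, hb1, fun c hc => ?_, fun p hp => ?_⟩
  · rw [← mk4_eq_zero, key, Submodule.coe_eq_zero] at hc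
    exact funext (Fintype.linearIndependent_iff.1 e.linearIndependent c hc)
  · refine ⟨e.repr ⟨mk4 f p, Submodule.mem_map.2 ⟨p, hp, rfl⟩⟩, ?_⟩
    rw [← mk4_eq_zero, map_sub, key, e.sum_repr, sub_self]

lemma ex (hF : St_HF) (hT : St_CT) (f : P4) (k N : ℕ) (b : Fin N → P4) (h0 : f ≠ 0)
    (hf : f.IsHomogeneous 3) (hk : 1 ≤ k) (hb : IsBasisMod f k b) : ∃ R, IsChow f b R := by
  have hu : ¬ IsUnit f := fun h => by
    have h1 := (h.map constantCoeff).ne_zero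
    rw [constantCoeff_eq] at h1
    exact h1 (hf.coeff_eq_zero (by simp))
  obtain ⟨n, g, h1, h2⟩ := exists_fac f h0 hu
  have : ∀ i, ∃ R, IsChowIrr (g i) b R := fun i => by
    have hd : g i ∣ f := h1 ▸ Finset.dvd_prod_of_mem g (Finset.mem_univ i)
    obtain ⟨d, h3⟩ := hF.fac f (g i) 3 h0 hf hd
    obtain ⟨R, hR, -⟩ := hT (g i) d k N b (h2 i) h3 hk
      ⟨hb.1, fun p hp => (hb.2.2 p hp).imp fun c hc => hd.trans hc⟩
    exact ⟨R, hR⟩
  choose Q hQ using this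
  exact ⟨_, n, g, Q, h1, rfl, fun i => ⟨h2 i, hQ i⟩⟩

lemma rel_prod {N : ℕ} {s t : Multiset (PP 3 N)}
    (h : Multiset.Rel (fun p q => ∃ c : ℂ, c ≠ 0 ∧ q = C c * p) s t) :
    ∃ c : ℂ, c ≠ 0 ∧ t.prod = C c * s.prod := by
  induction h with
  | zero => exact ⟨1, one_ne_zero, by simp⟩
  | cons h1 _ ih =>
    obtain ⟨c, hc, rfl⟩ := h1
    obtain ⟨c', hc', e⟩ := ih
    refine ⟨c * c', mul_ne_zero hc hc', ?_⟩
    rw [Multiset.prod_cons, Multiset.prod_cons, e, map_mul]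
    ring

lemma uniq (hD : St_DEG) {f : P4} {k N : ℕ} {b b' : Fin N → P4} {R R' : PP 3 N}
    (hb : IsBasisMod f k b) (hb' : IsBasisMod f k b') (hR : IsChow f b R) (hR' : IsChow f b' R') :
    ∃ (g : Mat N) (c : ℂ), g.det ≠ 0 ∧ c ≠ 0 ∧ R' = C c * act g R := by
  classical
  choose g hg using fun l => hb.2.2 (b' l) (hb'.1 l)
  have hdet : (Matrix.of g).det ≠ 0 := fun h => by
    obtain ⟨c, hc, e⟩ := Matrix.exists_vecMul_eq_zero_iff.2 h
    refine hc (hb'.2.1 c ?_)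
    have h1 : f ∣ ∑ l, c l • (b' l - ∑ j, g l j • b j) :=
      Finset.dvd_sum fun l _ => by rw [smul_eq_C_mul]; exact (hg l).mul_left _
    have h2 := sum_comb b (Matrix.of g) c
    simp only [e, Matrix.of_apply, Pi.zero_apply, zero_smul, Finset.sum_const_zero] at h2
    simpa only [smul_sub, Finset.sum_sub_distrib, h2, sub_zero] using h1
  obtain ⟨n, u, Q, e1, rfl, h1⟩ := hR
  obtain ⟨n', u', Q', e1', rfl, h1'⟩ := hR'
  have rel := UniqueFactorizationMonoid.factors_unique (f := Finset.univ.val.map u)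
    (g := Finset.univ.val.map u')
    (fun x hx => by obtain ⟨i, -, rfl⟩ := Multiset.mem_map.1 hx; exact (h1 i).1)
    (fun x hx => by obtain ⟨i, -, rfl⟩ := Multiset.mem_map.1 hx; exact (h1' i).1)
    (Associated.of_eq (e1.symm.trans e1'))
  rw [Multiset.rel_map] at rel
  have rel2 : Multiset.Rel (fun p q => ∃ c : ℂ, c ≠ 0 ∧ q = C c * p)
      (Finset.univ.val.map fun i => act (Matrix.of g) (Q i)) (Finset.univ.val.map Q') := by
    rw [Multiset.rel_map]
    refine rel.mono fun i _ j _ hij => hD.uniq (u' j) N b' _ _ ?_ (h1' j).2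
    exact chow_congr (chow_act hdet (h1 i).2) hij fun l =>
      (e1 ▸ Finset.dvd_prod_of_mem u (Finset.mem_univ i) : u i ∣ f).trans (hg l)
  obtain ⟨c, hc, e⟩ := rel_prod rel2
  exact ⟨_, c, hdet, hc, by rw [map_prod]; exact e⟩

lemma irr (f : P4) (N : ℕ) (b : Fin N → P4) (R : PP 3 N) (hf : Irreducible f) :
    IsChow f b R ↔ IsChowIrr f b R := by
  refine ⟨?_, fun h => ⟨1, fun _ => f, fun _ => R, by simp, by simp, fun _ => ⟨hf, h⟩⟩⟩
  rintro ⟨n, g, Q, rfl, rfl, h⟩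
  rcases n with _ | _ | n
  · simp at hf
  · simpa using (h 0).2
  · rw [Fin.prod_univ_succ, Fin.prod_univ_succ] at hf
    rcases hf.isUnit_or_isUnit rfl with h1 | h1
    · exact absurd h1 (h _).1.not_isUnit
    · exact absurd (isUnit_of_mul_isUnit_left h1) (h _).1.not_isUnit

lemma gl4 {s : Fin 3} {f : P4} {k : ℕ} {M : Mat 4} (hM : M.det ≠ 0) (h : ChowAt s f k) :
    ChowAt s (sub4 M f) k := by
  obtain ⟨N, b, R, hb, ⟨n, g, Q, e1, e2, h1⟩, hG⟩ := h
  have key : ∀ c : Fin N → ℂ, ∑ j, c j • sub4 M (b j) = sub4 M (∑ j, c j • b j) := fun c => by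
    simp only [map_sum, map_smul]
  refine ⟨N, fun j => sub4 M (b j), R, ⟨fun j => hom_sub4 (hb.1 j) M, fun c hc => ?_,
    fun p hp => ?_⟩, ⟨n, fun i => sub4 M (g i), Q, by rw [e1, map_prod], e2,
      fun i => ⟨irr_sub4 hM (h1 i).1, (h1 i).2.1, fun H => ((h1 i).2.2 H).trans ?_⟩⟩, hG⟩
  · have := map_dvd (sub4 M⁻¹) hc
    rw [key, inv_sub4 hM, inv_sub4 hM] at this
    exact hb.2.1 c this
  · obtain ⟨c, hc⟩ := hb.2.2 _ (hom_sub4 hp M⁻¹)
    have := map_dvd (sub4 M) hc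
    rw [map_sub, sub4_inv hM, ← key] at this
    exact ⟨c, this⟩
  · simp only [eval_sub4]
    constructor
    · rintro ⟨x, h0, h2⟩
      have e : Matrix.vecMul (Matrix.vecMul x M⁻¹) M = x := by
        rw [Matrix.vecMul_vecMul, Matrix.nonsing_inv_mul _ (isUnit_iff_ne_zero.2 hM),
          Matrix.vecMul_one]
      exact ⟨Matrix.vecMul x M⁻¹, fun h3 => h0 (Matrix.eq_zero_of_vecMul_eq_zero (det_inv_ne hM) h3),
        by rw [e]; exact h2⟩
    · rintro ⟨x, h0, h2⟩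
      exact ⟨Matrix.vecMul x M, fun h3 => h0 (Matrix.eq_zero_of_vecMul_eq_zero hM h3), h2⟩

end BBC

theorem bc_of (hI : St_INV) (hF : St_HF) (hD : St_DEG) (hT : St_CT) : St_BC where
  ex := BBC.ex hF hT
  exb := BBC.exb
  all := fun s f k h0 hf hk => by
    constructor
    · rintro ⟨N, b, R, hb, hR, hG⟩ N' b' R' hb' hR'
      have h1 := hF.card f k N b h0 hf hk hb
      have h2 := hF.card f k N' b' h0 hf hk hb'
      obtain rfl : N = N' := by omega
      obtain ⟨g, c, hg, hc, rfl⟩ := BBC.uniq hD hb hb' hR hR'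
      exact (hI.smul s _ c hc).2 ((hI.act s R g hg).2 hG)
    · intro h
      obtain ⟨N, b, hb⟩ := BBC.exb f k
      obtain ⟨R, hR⟩ := BBC.ex hF hT f k N b h0 hf hk hb
      exact ⟨N, b, R, hb, hR, h N b R hb hR⟩
  irr := BBC.irr
  gl4 := fun s f k M hM => ⟨fun h => by
    have := BBC.gl4 (BBC.det_inv_ne hM) h
    rwa [BBC.inv_sub4 hM] at this, BBC.gl4 hM⟩
  glN := fun _ _ _ _ _ _ hg hb hR => ⟨BBC.basis_act hg hb, BBC.chow_act hg hR⟩

end Pool.Agent.Lib.MP_a25055_ag
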