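import Pool.Agent.Lib.MP_a25055_ag.Inv

/-! Block CL: classification of cubic forms with a point whose tangent cone is a product. -/

open MvPolynomial Module

noncomputable section

namespace Pool.Agent.Lib.MP_a25055_ag

namespace BCL

lemma sub4_hom (M : Mat 4) {f : P4} (hf : f.IsHomogeneous 3) : (sub4 M f).IsHomogeneous 3 := by
  have h := hf.aeval (fun j => (∑ l, C (M l j) * X l : P4)) (n := 1) fun j =>
    IsHomogeneous.sum _ _ _ fun l _ => isHomogeneous_C_mul_X _ _
  simpa [sub4] using h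

lemma deg_sum {f : P4} (hf : f.IsHomogeneous 3) {a : Fin 4 →₀ ℕ} (ha : a ∈ f.support) :
    a 0 + a 1 + a 2 + a 3 = 3 := by
  have h := hf (MvPolynomial.mem_support_iff.1 ha)
  rw [Finsupp.weight_apply, Finsupp.sum_fintype _ _ (by simp)] at h
  simpa [Fin.sum_univ_four] using h

lemma eval_e2 {c : P4} (hc : c.IsHomogeneous 3) :
    eval ![0, 0, 1, 0] c = coeff (Finsupp.single 2 3) c := by
  rw [eval_eq', Finset.sum_eq_single (Finsupp.single 2 3)]
  · simp [Fin.prod_univ_four]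
  · intro a ha hne
    have hs := deg_sum hc ha
    rw [Fin.prod_univ_four]
    by_cases h0 : a 0 = 0
    · by_cases h1 : a 1 = 0
      · by_cases h3 : a 3 = 0
        · exfalso
          refine hne (Finsupp.ext fun i => ?_)
          fin_cases i <;> simp <;> omega
        · simp [h3]
      · simp [h1]
    · simp [h0]
  · intro h
    rw [MvPolynomial.notMem_support_iff.1 h, zero_mul]

lemma eval_smul {f : P4} (hf : f.IsHomogeneous 3) (t : ℂ) (v : Fin 4 → ℂ) :
    eval (t • v) f = t ^ 3 * eval v f := by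
  rw [eval_eq', eval_eq', Finset.mul_sum]
  refine Finset.sum_congr rfl fun a ha => ?_
  rw [← deg_sum hf ha]
  simp only [Fin.prod_univ_four, Pi.smul_apply, smul_eq_mul, mul_pow]
  ring

/-- The normal form in a basis whose last vector is the special point. -/
lemma normal {f : P4} (hf : f.IsHomogeneous 3) (e0 e1 e2 x : Fin 4 → ℂ)
    (l l' : (Fin 4 → ℂ) →ₗ[ℂ] ℂ)
    (h : ∀ (s : ℂ) (v : Fin 4 → ℂ), eval (s • x + v) f = s * l v * l' v + eval v f) :
    ∃ c : P4, c.IsHomogeneous 3 ∧ (∀ a ∈ c.support, a 3 = 0) ∧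
      coeff (Finsupp.single 2 3) c = eval e2 f ∧
      sub4 (Matrix.of ![e0, e1, e2, x]) f =
        X 3 * (C (l e0) * X 0 + C (l e1) * X 1 + C (l e2) * X 2) *
          (C (l' e0) * X 0 + C (l' e1) * X 1 + C (l' e2) * X 2) + c := by
  have hv : ∀ (y z : Fin 4 → ℂ), Matrix.vecMul y (Matrix.of ![e0, e1, e2, z]) =
      y 3 • z + (y 0 • e0 + y 1 • e1 + y 2 • e2) := fun y z => by
    funext j
    simp [Matrix.vecMul, dotProduct, Fin.sum_univ_four]
    ring
  refine ⟨sub4 (Matrix.of ![e0, e1, e2, 0]) f, sub4_hom _ hf, ?_, ?_, ?_⟩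
  · have h1 : sub4 (Matrix.of ![e0, e1, e2, 0]) f = rename Fin.castSucc
        (aeval (fun j => (C (e0 j) * X 0 + C (e1 j) * X 1 + C (e2 j) * X 2 :
          MvPolynomial (Fin 3) ℂ)) f) := by
      rw [← AlgHom.comp_apply]
      congr 1
      refine MvPolynomial.algHom_ext fun j => ?_
      simp [sub4, Fin.sum_univ_four]
    intro a ha
    rw [h1, support_rename_of_injective (Fin.castSucc_injective 3), Finset.mem_image] at ha
    obtain ⟨b, -, rfl⟩ := ha
    refine Finsupp.mapDomain_of_notMem_range _ _ ?_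
    rintro ⟨i, hi⟩
    exact (Fin.castSucc_lt_last i).ne hi
  · rw [← eval_e2 (sub4_hom _ hf), eval_sub4, hv]
    simp
  · refine MvPolynomial.funext fun y => ?_
    rw [map_add (eval y), eval_sub4, eval_sub4, hv, hv, h]
    simp [mul_comm]

lemma det_ne {e : Fin 4 → Fin 4 → ℂ} (he : LinearIndependent ℂ e) : (Matrix.of e).det ≠ 0 := by
  have h : IsUnit (Matrix.of e) := Matrix.linearIndependent_rows_iff_isUnit.1 he
  exact ((Matrix.isUnit_iff_isUnit_det _).1 h).ne_zero

lemma kill {f : P4} {x : Fin 4 → ℂ} (l l' : (Fin 4 → ℂ) →ₗ[ℂ] ℂ)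
    (h : ∀ (s : ℂ) (v : Fin 4 → ℂ), eval (s • x + v) f = s * l v * l' v + eval v f) :
    ∃ m m' : (Fin 4 → ℂ) →ₗ[ℂ] ℂ, m x = 0 ∧ m' x = 0 ∧
      ∀ (s : ℂ) (v : Fin 4 → ℂ), eval (s • x + v) f = s * m v * m' v + eval v f := by
  have h1 : ∀ (t : ℂ) (v : Fin 4 → ℂ), (t * l x + l v) * (t * l' x + l' v) = l v * l' v :=
    fun t v => by
      have a1 := h 1 (t • x + v)
      have a2 := h (1 + t) v
      rw [h t v, ← add_assoc, ← add_smul, a2] at a1
      simp only [map_add, map_smul, smul_eq_mul] at a1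
      linear_combination -a1
  have h2 : l x * l' x = 0 := by simpa using h1 1 0
  have h3 : ∀ v, l x * l' v + l v * l' x = 0 := fun v => by
    linear_combination h1 1 v - h2
  by_cases a : l x = 0
  · by_cases b : l' x = 0
    · exact ⟨l, l', a, b, h⟩
    · refine ⟨0, 0, rfl, rfl, fun s v => ?_⟩
      have : l v = 0 := by simpa [a, b] using h3 v
      simp [h, this]
  · have b : l' x = 0 := (mul_eq_zero.1 h2).resolve_left a
    refine ⟨0, 0, rfl, rfl, fun s v => ?_⟩
    have : l' v = 0 := by simpa [a, b] using h3 v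
    simp [h, this]

lemma supp_add {p c : P4} {s a : Fin 4 →₀ ℕ} {z : ℂ} (hp : p = monomial s z)
    (ha : a ∈ (p + c).support) : a = s ∨ a ∈ c.support := by
  classical
  rcases Finset.mem_union.1 (support_add ha) with h | h
  · left
    rw [hp] at h
    exact Finset.mem_singleton.1 (support_monomial_subset h)
  · exact Or.inr h

lemma ne_e2 {c : P4} (hc : c.IsHomogeneous 3) {a : Fin 4 →₀ ℕ} (ha : a ∈ c.support)
    (h3 : a 3 = 0) (hne : a ≠ Finsupp.single 2 3) : 1 ≤ a 0 + a 1 := by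
  have hs := deg_sum hc ha
  by_contra hlt
  refine hne (Finsupp.ext fun i => ?_)
  fin_cases i <;> simp <;> omega

lemma mono3 (i j k : Fin 4) (z : ℂ) : (C z * (X i * X j * X k) : P4) =
    monomial (Finsupp.single i 1 + Finsupp.single j 1 + Finsupp.single k 1) z := by
  simp only [X, monomial_mul, C_mul_monomial, mul_one]

lemma caseA {f : P4} (hf : f.IsHomogeneous 3) (e0 e1 e2 x : Fin 4 → ℂ)
    (l l' : (Fin 4 → ℂ) →ₗ[ℂ] ℂ)
    (h : ∀ (s : ℂ) (v : Fin 4 → ℂ), eval (s • x + v) f = s * l v * l' v + eval v f)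
    (a1 : l e1 = 0) (a2 : l e2 = 0) (b1 : l' e1 = 0) (b2 : l' e2 = 0) :
    Unst (sub4 (Matrix.of ![e0, e1, e2, x]) f) := by
  obtain ⟨c, hc, h3, -, hg⟩ := normal hf e0 e1 e2 x l l' h
  refine ⟨![3, 2, 2, 0], fun a ha => ?_⟩
  rw [hg] at ha
  have hp : (X 3 * (C (l e0) * X 0 + C (l e1) * X 1 + C (l e2) * X 2) *
      (C (l' e0) * X 0 + C (l' e1) * X 1 + C (l' e2) * X 2) : P4) =
      monomial (Finsupp.single 0 1 + Finsupp.single 0 1 + Finsupp.single 3 1) (l e0 * l' e0) := by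
    rw [← mono3, a1, a2, b1, b2, map_zero, map_mul]
    ring
  rcases supp_add hp ha with rfl | ha
  · simp [Fin.sum_univ_four]
  · have := deg_sum hc ha
    have := h3 a ha
    simp [Fin.sum_univ_four]
    omega

lemma caseB {f : P4} (hf : f.IsHomogeneous 3) (e0 e1 e2 x : Fin 4 → ℂ)
    (l l' : (Fin 4 → ℂ) →ₗ[ℂ] ℂ)
    (h : ∀ (s : ℂ) (v : Fin 4 → ℂ), eval (s • x + v) f = s * l v * l' v + eval v f)
    (a0 : l e0 = 1) (a1 : l e1 = 0) (a2 : l e2 = 0) (b0 : l' e0 = 0) (b1 : l' e1 = 1)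
    (b2 : l' e2 = 0) :
    (eval e2 f = 0 → Unst (sub4 (Matrix.of ![e0, e1, e2, x]) f)) ∧
      (eval e2 f = 1 → NF2 (sub4 (Matrix.of ![e0, e1, e2, x]) f)) := by
  obtain ⟨c, hc, h3, h2, hg⟩ := normal hf e0 e1 e2 x l l' h
  have hp : (X 3 * (C (l e0) * X 0 + C (l e1) * X 1 + C (l e2) * X 2) *
      (C (l' e0) * X 0 + C (l' e1) * X 1 + C (l' e2) * X 2) : P4) = X 0 * X 1 * X 3 := by
    rw [a0, a1, a2, b0, b1, b2, map_zero, map_one]
    ring
  rw [hp] at hg
  refine ⟨fun hz => ⟨![2, 2, 1, 0], fun a ha => ?_⟩, fun ho => ⟨sub4_hom _ hf, fun a ha => ?_⟩⟩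
  · rw [hg] at ha
    have hq : (X 0 * X 1 * X 3 : P4) =
        monomial (Finsupp.single 0 1 + Finsupp.single 1 1 + Finsupp.single 3 1) 1 := by
      rw [← mono3, map_one, one_mul]
    rcases supp_add hq ha with rfl | ha
    · simp [Fin.sum_univ_four]
    · have := deg_sum hc ha
      have := h3 a ha
      have := ne_e2 hc ha (h3 a ha) (by
        rintro rfl
        exact MvPolynomial.mem_support_iff.1 ha (h2.trans hz))
      simp [Fin.sum_univ_four]
      omega
  · have hq : sub4 (Matrix.of ![e0, e1, e2, x]) f - f0 = c - monomial (Finsupp.single 2 3) 1 := by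
      rw [hg, f0, X_pow_eq_monomial]
      ring
    rw [hq, MvPolynomial.mem_support_iff, coeff_sub, coeff_monomial] at ha
    have hne : a ≠ Finsupp.single 2 3 := by
      rintro rfl
      exact ha (by rw [h2, ho, if_pos rfl, sub_self])
    rw [if_neg hne.symm, sub_zero, ← MvPolynomial.mem_support_iff] at ha
    have := deg_sum hc ha
    have := h3 a ha
    have := ne_e2 hc ha (h3 a ha) hne
    omega

lemma indepB {e0 e1 e2 x : Fin 4 → ℂ} (l l' : (Fin 4 → ℂ) →ₗ[ℂ] ℂ)
    (hi : LinearIndependent ℂ ![e2, x]) (a0 : l e0 = 1) (a1 : l e1 = 0) (a2 : l e2 = 0)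
    (a3 : l x = 0) (b0 : l' e0 = 0) (b1 : l' e1 = 1) (b2 : l' e2 = 0) (b3 : l' x = 0) :
    LinearIndependent ℂ ![e0, e1, e2, x] := by
  rw [Fintype.linearIndependent_iff]
  intro g hg
  have hg' : g 0 • e0 + g 1 • e1 + g 2 • e2 + g 3 • x = 0 := by
    simpa [Fin.sum_univ_four] using hg
  have c0 : g 0 = 0 := by simpa [a0, a1, a2, a3] using congrArg l hg'
  have c1 : g 1 = 0 := by simpa [b0, b1, b2, b3] using congrArg l' hg'
  rw [c0, c1, zero_smul, zero_smul, zero_add, zero_add] at hg'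
  obtain ⟨c2, c3⟩ := LinearIndependent.pair_iff.1 hi _ _ hg'
  intro i
  fin_cases i <;> assumption

end BCL

open BCL in
theorem cl_of : St_CL := by
  rintro f hf ⟨x, hx, l0, l0', h0⟩
  obtain ⟨l, l', hl, hl', h⟩ := kill l0 l0' h0
  set φ : (Fin 4 → ℂ) →ₗ[ℂ] ℂ × ℂ := l.prod l' with hφ
  have hK : ∀ v : LinearMap.ker φ, l v = 0 ∧ l' v = 0 := fun v => by
    have := LinearMap.mem_ker.1 v.2
    exact ⟨congrArg Prod.fst this, congrArg Prod.snd this⟩
  have hxK : x ∈ LinearMap.ker φ := by simp [hφ, hl, hl']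
  have hr := LinearMap.finrank_range_add_finrank_ker φ
  have hle : finrank ℂ (LinearMap.range φ) ≤ 2 := by
    simpa using Submodule.finrank_le (LinearMap.range φ)
  have h4 : finrank ℂ (Fin 4 → ℂ) = 4 := by simp
  have i1 : LinearIndependent ℂ ![(⟨x, hxK⟩ : LinearMap.ker φ)] := by
    rw [linearIndependent_unique_iff]
    simpa [Subtype.ext_iff] using hx
  obtain ⟨e2, i2⟩ := exists_linearIndependent_cons_of_lt_finrank i1 (by omega)
  by_cases htop : LinearMap.range φ = ⊤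
  · obtain ⟨e0, he0⟩ := LinearMap.range_eq_top.1 htop (1, 0)
    obtain ⟨e1, he1⟩ := LinearMap.range_eq_top.1 htop (0, 1)
    have a0 : l e0 = 1 := congrArg Prod.fst he0
    have b0 : l' e0 = 0 := congrArg Prod.snd he0
    have a1 : l e1 = 0 := congrArg Prod.fst he1
    have b1 : l' e1 = 1 := congrArg Prod.snd he1
    have j2 : LinearIndependent ℂ ![(e2 : Fin 4 → ℂ), x] := by
      have := i2.map' (LinearMap.ker φ).subtype (Submodule.ker_subtype _)
      have he : ![(e2 : Fin 4 → ℂ), x] =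
          (LinearMap.ker φ).subtype ∘ Fin.cons e2 ![(⟨x, hxK⟩ : LinearMap.ker φ)] := by
        funext i
        fin_cases i <;> rfl
      rw [he]
      exact this
    by_cases hz : eval (e2 : Fin 4 → ℂ) f = 0
    · exact ⟨_, det_ne (indepB l l' j2 a0 a1 (hK e2).1 hl b0 b1 (hK e2).2 hl'), Or.inl
        ((caseB hf e0 e1 e2 x l l' h a0 a1 (hK e2).1 b0 b1 (hK e2).2).1 hz)⟩
    · obtain ⟨t, ht⟩ := IsAlgClosed.exists_pow_nat_eq (eval (e2 : Fin 4 → ℂ) f)⁻¹ (n := 3)
        (by norm_num)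
      have ht0 : t ≠ 0 := by
        rintro rfl
        exact inv_ne_zero hz (by simpa using ht.symm)
      have j3 : LinearIndependent ℂ ![t • (e2 : Fin 4 → ℂ), x] := by
        rw [LinearIndependent.pair_iff] at j2 ⊢
        intro a b hab
        rw [smul_smul] at hab
        obtain ⟨c1, c2⟩ := j2 _ _ hab
        exact ⟨(mul_eq_zero.1 c1).resolve_right ht0, c2⟩
      have a2 : l (t • (e2 : Fin 4 → ℂ)) = 0 := by rw [map_smul, (hK e2).1, smul_zero]
      have b2 : l' (t • (e2 : Fin 4 → ℂ)) = 0 := by rw [map_smul, (hK e2).2, smul_zero]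
      refine ⟨_, det_ne (indepB l l' j3 a0 a1 a2 hl b0 b1 b2 hl'), Or.inr
        ((caseB hf e0 e1 _ x l l' h a0 a1 a2 b0 b1 b2).2 ?_)⟩
      rw [eval_smul hf, ht, inv_mul_cancel₀ hz]
  · have hlt : finrank ℂ (LinearMap.range φ) < 2 := by
      simpa using Submodule.finrank_lt htop
    obtain ⟨e1, i3⟩ := exists_linearIndependent_cons_of_lt_finrank i2 (by omega)
    have j3 : LinearIndependent ℂ ![(e1 : Fin 4 → ℂ), e2, x] := by
      have := i3.map' (LinearMap.ker φ).subtype (Submodule.ker_subtype _)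
      have he : ![(e1 : Fin 4 → ℂ), e2, x] = (LinearMap.ker φ).subtype ∘
          Fin.cons e1 (Fin.cons e2 ![(⟨x, hxK⟩ : LinearMap.ker φ)]) := by
        funext i
        fin_cases i <;> rfl
      rw [he]
      exact this
    obtain ⟨e0, j4⟩ := exists_linearIndependent_cons_of_lt_finrank j3 (by omega)
    exact ⟨_, det_ne (e := ![e0, e1, e2, x]) j4, Or.inl
      (caseA hf e0 e1 e2 x l l' h (hK e1).1 (hK e2).1 (hK e1).2 (hK e2).2)⟩

end Pool.Agent.Lib.MP_a25055_ag
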