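import Pool.Agent.Lib.MP_a25055_ag.BCT1

/-! The Chow form is the Koszul torsion. -/

open MvPolynomial Module TensorProduct

noncomputable section

namespace Pool.Agent.Lib.MP_a25055_ag

namespace BCT

section bc

variable (O : Type) [CommRing O] [Algebra ℂ O] {Q : Type} [CommRing Q] [Algebra ℂ Q]

lemma bc_mul (V W : Submodule ℂ Q) :
    (V * W).baseChange O = V.baseChange O * W.baseChange O := by
  conv_lhs => rw [← V.span_eq, ← W.span_eq, Submodule.span_mul_span]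
  conv_rhs => rw [← V.span_eq, ← W.span_eq]
  simp only [Submodule.baseChange_span, Submodule.span_mul_span]
  congr 1
  have : ⇑(TensorProduct.mk ℂ O Q 1) = (Algebra.TensorProduct.includeRight : Q →ₐ[ℂ] O ⊗[ℂ] Q) :=
    rfl
  rw [this, Set.image_mul]

lemma bc_pow (V : Submodule ℂ Q) (n : ℕ) : (V ^ n).baseChange O = V.baseChange O ^ n := by
  induction n with
  | zero =>
    rw [pow_zero, pow_zero, Submodule.one_eq_span, Submodule.one_eq_span,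
      Submodule.baseChange_span, Set.image_singleton]
    rfl
  | succ n ih => rw [pow_succ, pow_succ, bc_mul, ih]

lemma bc_basis {I : Type} {e : I → Q} {W : Submodule ℂ Q} (h : BasisOf ℂ e W) :
    BasisOf O (fun a => (1 : O) ⊗ₜ[ℂ] e a) (W.baseChange O) :=
  ⟨Module.Flat.linearIndependent_one_tmul h.1, by
    rw [← h.2, Submodule.baseChange_span, ← Set.range_comp]; rfl⟩

variable {O}

lemma bc_mat {N : ℕ} {I J : Type} [Fintype I] {b : Fin N → Q} {e' : I → Q} {e : J → Q}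
    {μ : Fin N → Matrix I J ℂ} (hμ : ∀ j, MulMat (b j) e' e (μ j)) (h : Fin 3 × Fin N → O)
    (i : Fin 3) : MulMat (∑ j, h (i, j) ⊗ₜ[ℂ] b j) (fun a => (1 : O) ⊗ₜ[ℂ] e' a)
      (fun a => (1 : O) ⊗ₜ[ℂ] e a) (mulM μ h i) := fun a => by
  simp only [Finset.sum_mul, Algebra.TensorProduct.tmul_mul_tmul, mul_one, hμ _ a, mulM,
    tmul_sum, Finset.sum_smul, smul_tmul', smul_eq_mul, tmul_smul]
  exact Finset.sum_comm

end bc

lemma surj_of {O C I J : Type} [CommRing O] [CommRing C] [Algebra O C] [Fintype I] [Fintype J]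
    [DecidableEq I] {e' : I → C} {e : J → C} {W' W : Submodule O C} (h' : BasisOf O e' W')
    (h : BasisOf O e W) {H : Fin 3 → C} {M : Fin 3 → Matrix I J O} (hM : ∀ i, MulMat (H i) e' e (M i))
    {δ : O} {s : Matrix (Fin 3 × J) I O} (hs : kos1 M * s = δ • (1 : Matrix I I O)) :
    ∀ y ∈ W', ∃ x : Fin 3 → C, (∀ i, x i ∈ W) ∧ δ • y = ∑ i, H i * x i := by
  intro y hy
  rw [← h'.2, Submodule.mem_span_range_iff_exists_fun] at hy
  obtain ⟨c, rfl⟩ := hy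
  refine ⟨fun i => ∑ a, s.mulVec c (i, a) • e a, fun i => ?_, ?_⟩
  · rw [← h.2]
    exact Submodule.sum_mem _ fun a _ => Submodule.smul_mem _ _ (Submodule.subset_span ⟨a, rfl⟩)
  · have : ∀ d, δ * c d = ∑ i, ∑ a, M i d a * s.mulVec c (i, a) := fun d => by
      have := congrFun (congrArg (fun A => A.mulVec c) hs) d
      simp only [← Matrix.mulVec_mulVec, Matrix.smul_mulVec, Matrix.one_mulVec] at this
      rw [← Fintype.sum_prod_type']
      exact this.symm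
    simp only [Finset.smul_sum, smul_smul, this, Finset.mul_sum, mul_smul_comm, hM _ _,
      Finset.sum_smul]
    rw [Finset.sum_comm]
    refine Finset.sum_congr rfl fun i _ => ?_
    rw [Finset.sum_comm]
    simp only [mul_comm]

lemma exists_basis {Q : Type} [AddCommGroup Q] [Module ℂ Q] (W : Submodule ℂ Q) (h : W.FG) :
    ∃ (r : ℕ) (e : Fin r → Q), BasisOf ℂ e W := by
  have : Module.Finite ℂ W := Module.Finite.iff_fg.2 h
  let B := Module.finBasis ℂ W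
  refine ⟨_, fun a => B a, B.linearIndependent.map' W.subtype W.ker_subtype, ?_⟩
  have : (Set.range fun a => (B a : Q)) = W.subtype '' Set.range B := by
    rw [← Set.range_comp]; rfl
  rw [this, ← Submodule.map_span, B.span_eq, Submodule.map_subtype_top]

lemma card_basis {Q I : Type} [AddCommGroup Q] [Module ℂ Q] [Fintype I] {e : I → Q}
    {W : Submodule ℂ Q} (h : BasisOf ℂ e W) : Fintype.card I = finrank ℂ W := by
  rw [← h.2, finrank_span_eq_card h.1]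

lemma exists_mat {Q I J : Type} [CommRing Q] [Algebra ℂ Q] [Fintype I] {e' : I → Q} {e : J → Q}
    {V : Submodule ℂ Q} {n : ℕ} (h' : BasisOf ℂ e' (V ^ (n + 1))) (h : BasisOf ℂ e (V ^ n))
    {N : ℕ} {b : Fin N → Q} (hb : ∀ j, b j ∈ V) :
    ∃ μ : Fin N → Matrix I J ℂ, ∀ j, MulMat (b j) e' e (μ j) := by
  have : ∀ j a, ∃ c : I → ℂ, ∑ d, c d • e' d = b j * e a := fun j a => by
    rw [← Submodule.mem_span_range_iff_exists_fun, h'.2, pow_succ']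
    exact Submodule.mul_mem_mul (hb j) (h.2 ▸ Submodule.subset_span ⟨a, rfl⟩)
  choose c hc using this
  exact ⟨fun j d a => c j a d, fun j a => (hc j a).symm⟩

lemma killed (k2 : St_K2) {Q : Type} [CommRing Q] [Algebra ℂ Q] {N : ℕ} (b : Fin N → Q)
    {V : Submodule ℂ Q} (hV : V = Submodule.span ℂ (Set.range b)) {n0 : ℕ} {I J : Type}
    [Fintype I] [Fintype J] [DecidableEq I] {e' : I → Q} {e : J → Q}
    (he' : BasisOf ℂ e' (V ^ (n0 + 1))) (he : BasisOf ℂ e (V ^ n0)) {μ : Fin N → Matrix I J ℂ}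
    (hμ : ∀ j, MulMat (b j) e' e (μ j)) {δ : PP 3 N} {s : Matrix (Fin 3 × J) I (PP 3 N)}
    (hs : kos1 (mulM μ X) * s = δ • (1 : Matrix I I (PP 3 N))) :
    ∃ n1, ∀ n ≥ n1, ∀ {I0 I1 I2 I3 : Type} [Fintype I0] [Fintype I1] [Fintype I2] [Fintype I3]
      {e0 : I0 → Q} {e1 : I1 → Q} {e2 : I2 → Q} {e3 : I3 → Q}, BasisOf ℂ e0 (V ^ (n + 3)) →
      BasisOf ℂ e1 (V ^ (n + 2)) → BasisOf ℂ e2 (V ^ (n + 1)) → BasisOf ℂ e3 (V ^ n) →
      ∀ {μ0 : Fin N → Matrix I0 I1 ℂ} {μ1 : Fin N → Matrix I1 I2 ℂ} {μ2 : Fin N → Matrix I2 I3 ℂ},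
      (∀ j, MulMat (b j) e0 e1 (μ0 j)) → (∀ j, MulMat (b j) e1 e2 (μ1 j)) →
      (∀ j, MulMat (b j) e2 e3 (μ2 j)) →
      Killed δ (kos1 (mulM μ0 X)) (kos2 (mulM μ1 X)) (kos3 (mulM μ2 X)) := by
  let H : Fin 3 → PP 3 N ⊗[ℂ] Q := fun i => ∑ j, X (i, j) ⊗ₜ[ℂ] b j
  have hΛ : (V.baseChange (PP 3 N)).FG := by
    rw [hV, Submodule.baseChange_span]
    exact Submodule.fg_span ((Set.finite_range _).image _)
  have hH : ∀ i, H i ∈ V.baseChange (PP 3 N) := fun i =>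
    Submodule.sum_mem _ fun j _ => Submodule.tmul_mem_baseChange_of_mem _
      (hV ▸ Submodule.subset_span ⟨j, rfl⟩)
  have bb : ∀ {I : Type} {n : ℕ} {e : I → Q}, BasisOf ℂ e (V ^ n) →
      BasisOf (PP 3 N) (fun a => (1 : PP 3 N) ⊗ₜ[ℂ] e a) (V.baseChange (PP 3 N) ^ n) :=
    fun h => bc_pow (PP 3 N) V _ ▸ bc_basis _ h
  obtain ⟨n1, hn1⟩ := k2 (PP 3 N) _ _ hΛ H hH δ n0 (surj_of (bb he') (bb he) (bc_mat hμ X) hs)
  exact ⟨n1, fun n hn _ _ _ _ _ _ _ _ _ _ _ _ h0 h1 h2 h3 _ _ _ m0 m1 m2 =>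
    hn1 n hn _ _ _ _ _ _ _ _ (bb h0) (bb h1) (bb h2) (bb h3) _ _ _ (bc_mat m0 X) (bc_mat m1 X)
      (bc_mat m2 X)⟩

lemma six_choose (m : ℕ) : 6 * (m + 3).choose 3 = (m + 3) * (m + 2) * (m + 1) := by
  induction m with
  | zero => rfl
  | succ m ih =>
    have h2 : 2 * (m + 3).choose 2 = (m + 3) * (m + 2) := by
      rw [Nat.choose_two_right, Nat.mul_div_cancel' (Nat.even_mul_pred_self _).two_dvd]; rfl
    rw [show m + 1 + 3 = m + 3 + 1 by ring, Nat.choose_succ_succ' (m + 3) 2]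
    nlinarith

lemma rank_eq (hf : St_HF) {g : P4} {d : ℕ} (h0 : g ≠ 0) (hg : g.IsHomogeneous d) {M : ℕ}
    (hM : d ≤ M) : 6 * (finrank ℂ (degQ g M) : ℤ) =
      (M + 3) * (M + 2) * (M + 1) - (M - d + 3) * (M - d + 2) * (M - d + 1) := by
  obtain ⟨m, rfl⟩ := Nat.exists_eq_add_of_le' hM
  have h1 := hf.rank g d m h0 hg
  have h2 := six_choose m
  have h3 := six_choose (m + d)
  zify at h1 h2 h3
  push_cast
  linear_combination 6 * h1 + h3 - h2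

lemma rank_le (hf : St_HF) {g : P4} {d : ℕ} (h0 : g ≠ 0) (hg : g.IsHomogeneous d) (k : ℕ) :
    ∃ c : ℕ, ∀ n, finrank ℂ (degQ g (n * k)) ≤ c * (n + 1) ^ 2 := by
  refine ⟨(d + 3).choose 3 + d * (k + 3) ^ 2, fun n => ?_⟩
  have h1 : 1 ≤ (n + 1) ^ 2 := Nat.one_le_pow _ _ n.succ_pos
  rcases lt_or_ge (n * k) d with h | h
  · rw [hf.small g d _ h0 hg h]
    have := Nat.choose_le_choose 3 (show n * k + 3 ≤ d + 3 by omega)
    nlinarith [Nat.zero_le (d * (k + 3) ^ 2 * (n + 1) ^ 2)]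
  · have h2 := rank_eq hf h0 hg h
    obtain ⟨m, hm⟩ := Nat.exists_eq_add_of_le' h
    have h3 : finrank ℂ (degQ g (n * k)) ≤ d * (m + d + 3) ^ 2 := by
      rw [hm] at h2 ⊢
      push_cast at h2
      zify
      have : (0 : ℤ) ≤ d * (3 * m ^ 2 + 9 * m * d + 5 * d ^ 2 + 24 * m + 30 * d + 43) := by
        positivity
      nlinarith
    have h4 : m + d + 3 ≤ (k + 3) * (n + 1) := by nlinarith
    have h5 := Nat.mul_le_mul_left d (Nat.pow_le_pow_left h4 2)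
    rw [mul_pow] at h5
    nlinarith [Nat.zero_le ((d + 3).choose 3 * (n + 1) ^ 2)]

end BCT

open BCT

theorem ct_of (k1 : St_K1) (k2 : St_K2) (hs : St_HS) (hf : St_HF) (zp : St_ZP) (dg : St_DEG) :
    St_CT := by
  classical
  intro g d k N b hg hd hk hb
  let V : Submodule ℂ (Q4 g) := Submodule.span ℂ (Set.range fun j => mk4 g (b j))
  have hV : ∀ n, degQ g (n * k) = V ^ n := fun n => (hf.pow g k N b hb n).1.symm
  have hVf : V.FG := Submodule.fg_span (Set.finite_range _)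
  have hbV : ∀ j, mk4 g (b j) ∈ V := fun j => Submodule.subset_span ⟨j, rfl⟩
  have hd0 : 0 < d := Nat.pos_of_ne_zero fun e => by
    subst e
    have := totalDegree_eq_zero_iff_eq_C.1 (hd.totalDegree hg.ne_zero)
    refine hg.not_isUnit (isUnit_iff_eq_C_of_isReduced.2 ⟨coeff 0 g, Ne.isUnit fun h => ?_, this⟩)
    exact hg.ne_zero (by rw [this, h, map_zero])
  have hne : ∃ H, H ∉ Inc g b := by
    obtain ⟨c, hc⟩ := rank_le hf hg.ne_zero hd k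
    obtain ⟨H, hH, n, hn⟩ := hs (Q4 g) V V hVf le_rfl ⟨c, fun n => hV n ▸ hc n⟩
      ⟨0, (pow_succ' V 0).le⟩
    choose h hh using fun i => (Submodule.mem_span_range_iff_exists_fun ℂ).1 (hH i)
    refine ⟨fun a => h a.1 a.2, (zp.surj g d k N b hd hk hb _).2 ⟨n, ?_⟩⟩
    rw [hV, hV]
    simpa only [map_sum, map_smul, hh] using hn
  obtain ⟨n0, hn0⟩ := zp.minors g d k N b hd hk hb
  obtain ⟨r', e', he'⟩ := exists_basis _ (hVf.pow (n0 + 1))
  obtain ⟨r, e, he⟩ := exists_basis _ (hVf.pow n0)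
  obtain ⟨μ, hμ⟩ := exists_mat he' he hbV
  obtain ⟨S, hS, hS'⟩ := hn0 _ _ e' e (hV _ ▸ he') (hV _ ▸ he) μ hμ
  have := fun δ : S => killed k2 _ (V := V) rfl he' he hμ (hS δ δ.2).2.choose_spec
  choose n1 hn1 using this
  have main : ∀ n ≥ Finset.univ.sup n1 + d, ∀ (I0 I1 I2 I3 : Type) [Fintype I0] [Fintype I1]
      [Fintype I2] [Fintype I3] [DecidableEq I0] [DecidableEq I1] [DecidableEq I2]
      [DecidableEq I3] (e0 : I0 → Q4 g) (e1 : I1 → Q4 g) (e2 : I2 → Q4 g) (e3 : I3 → Q4 g),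
      BasisOf ℂ e0 (degQ g ((n + 3) * k)) → BasisOf ℂ e1 (degQ g ((n + 2) * k)) →
      BasisOf ℂ e2 (degQ g ((n + 1) * k)) → BasisOf ℂ e3 (degQ g (n * k)) →
      ∀ (μ0 : Fin N → Matrix I0 I1 ℂ) (μ1 : Fin N → Matrix I1 I2 ℂ) (μ2 : Fin N → Matrix I2 I3 ℂ),
      (∀ j, MulMat (mk4 g (b j)) e0 e1 (μ0 j)) → (∀ j, MulMat (mk4 g (b j)) e1 e2 (μ1 j)) →
      (∀ j, MulMat (mk4 g (b j)) e2 e3 (μ2 j)) →
      ∃ (σ : (Fin 3 × I1) ⊕ I3 ≃ I0 ⊕ (Fin 3 × I2)) (R : PP 3 N) (c : ℂ), IsChowIrr g b R ∧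
        R.IsHomogeneous (3 * d * k ^ 2) ∧ c ≠ 0 ∧
        ∀ (F : Type) [Field F] [Algebra ℂ F] (h : Fin 3 × Fin N → F), aeval h R ≠ 0 →
          TorAt σ μ0 μ1 μ2 h (c • aeval h R) := by
    intro n hn I0 I1 I2 I3 _ _ _ _ _ _ _ _ e0 e1 e2 e3 h0 h1 h2 h3 μ0 μ1 μ2 m0 m1 m2
    have le : ∀ i, d ≤ (n + i) * k := fun i => by nlinarith [Nat.zero_le (Finset.univ.sup n1)]
    have c0 := rank_eq hf hg.ne_zero hd (le 3)
    have c1 := rank_eq hf hg.ne_zero hd (le 2)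
    have c2 := rank_eq hf hg.ne_zero hd (le 1)
    have c3 := rank_eq hf hg.ne_zero hd (le 0)
    rw [add_zero, ← card_basis h3] at c3
    rw [← card_basis h0] at c0
    rw [← card_basis h1] at c1
    rw [← card_basis h2] at c2
    push_cast at c0 c1 c2 c3
    rw [hV] at h0 h1 h2 h3
    obtain ⟨σ⟩ : Nonempty ((Fin 3 × I1) ⊕ I3 ≃ I0 ⊕ (Fin 3 × I2)) := Fintype.card_eq.1 (by
      simp only [Fintype.card_sum, Fintype.card_prod, Fintype.card_fin]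
      zify
      linarith)
    obtain ⟨R, c, hR, hRZ, hRE, hc, hT⟩ := tor_eq (σ := σ) (μ0 := μ0) (μ1 := μ1) (μ2 := μ2) k1
      (zp.prime g d k N b hg hd hk hb) (S := S) (fun δ hδ => ⟨(hS δ hδ).1,
        hn1 ⟨δ, hδ⟩ n (le_trans (Finset.le_sup (Finset.mem_univ _)) (le_trans le_self_add hn))
          h0 h1 h2 h3 m0 m1 m2⟩) hS' hne (E := 3 * d * k ^ 2)
      (by positivity) (by zify; linarith)
      fun R hR hZ => dg.deg g d k N b R hg hd hk hb ⟨hR, hZ⟩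
    exact ⟨σ, R, c, ⟨hR, hRZ⟩, hRE, hc, hT⟩
  obtain ⟨_, e0, h0⟩ := exists_basis _ (hVf.pow (Finset.univ.sup n1 + d + 3))
  obtain ⟨_, e1, h1⟩ := exists_basis _ (hVf.pow (Finset.univ.sup n1 + d + 2))
  obtain ⟨_, e2, h2⟩ := exists_basis _ (hVf.pow (Finset.univ.sup n1 + d + 1))
  obtain ⟨_, e3, h3⟩ := exists_basis _ (hVf.pow (Finset.univ.sup n1 + d))
  obtain ⟨μ0, m0⟩ := exists_mat h0 h1 hbV
  obtain ⟨μ1, m1⟩ := exists_mat h1 h2 hbV
  obtain ⟨μ2, m2⟩ := exists_mat h2 h3 hbV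
  obtain ⟨-, R, -, hR, hRE, -⟩ := main _ le_rfl _ _ _ _ e0 e1 e2 e3 (hV _ ▸ h0) (hV _ ▸ h1)
    (hV _ ▸ h2) (hV _ ▸ h3) μ0 μ1 μ2 m0 m1 m2
  refine ⟨R, hR, hRE, Finset.univ.sup n1 + d, ?_⟩
  intro n hn I0 I1 I2 I3 _ _ _ _ _ _ _ _ e0 e1 e2 e3 h0 h1 h2 h3 μ0 μ1 μ2 m0 m1 m2
  obtain ⟨σ, R', c, hR', -, hc, hT⟩ := main n hn _ _ _ _ e0 e1 e2 e3 h0 h1 h2 h3 μ0 μ1 μ2 m0 m1 m2
  obtain ⟨c', hc', rfl⟩ := dg.uniq g N b R R' hR hR'
  refine ⟨σ, c * c', mul_ne_zero hc hc', fun F _ _ h hh => ?_⟩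
  have := hT F h (by simpa [hc'] using hh)
  rwa [← smul_eq_C_mul, map_smul, smul_smul] at this

end Pool.Agent.Lib.MP_a25055_ag
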