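import Pool.Agent.Lib.MP_a25055_ag.BCW3

/-! Block CW: the top weight of the Chow form is the leading coefficient of the total weight. -/

open MvPolynomial Module TensorProduct

noncomputable section

namespace Pool.Agent.Lib.MP_a25055_ag

namespace BCW

abbrev O : Type := PowerSeries ℂ

lemma ps_split (x : PowerSeries ℂ) : ∃ (c : ℂ) (u : PowerSeries ℂ),
    x = algebraMap ℂ (PowerSeries ℂ) c + PowerSeries.X * u :=
  ⟨PowerSeries.constantCoeff x, PowerSeries.mk fun p => PowerSeries.coeff (p + 1) x, by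
    rw [add_comm]; exact PowerSeries.eq_X_mul_shift_add_const x⟩

lemma avoid {σ : Type} (P : MvPolynomial σ ℂ) (hP : P ≠ 0) (h0 : σ → ℂ) :
    ∃ h1 : σ → ℂ, {s : ℂ | eval (fun c => h0 c + s * h1 c) P = 0}.Finite := by
  obtain ⟨h2, hh2⟩ : ∃ h2, eval h2 P ≠ 0 := by
    by_contra hc
    push Not at hc
    exact hP (MvPolynomial.funext fun x => by rw [hc x, map_zero])
  let q : Polynomial ℂ :=
    aeval (fun c => Polynomial.C (h0 c) + Polynomial.X * Polynomial.C (h2 c - h0 c)) P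
  have hq : ∀ s, q.eval s = eval (fun c => h0 c + s * (h2 c - h0 c)) P := fun s => by
    rw [← Polynomial.coe_aeval_eq_eval, comp_aeval_apply]
    simp [aeval_eq_eval]
  have hq0 : q ≠ 0 := fun h => hh2 (by
    have := hq 1
    rw [h, Polynomial.eval_zero] at this
    simpa using this.symm)
  refine ⟨fun c => h2 c - h0 c, (Polynomial.finite_setOfPred_isRoot hq0).subset fun s hs => ?_⟩
  exact (hq s).trans hs

lemma mul_mem_succ {R A : Type} [CommRing R] [CommRing A] [Algebra R A] {W : Submodule R A} {n : ℕ}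
    {x y : A} (hx : x ∈ W) (hy : y ∈ W ^ n) : x * y ∈ W ^ (n + 1) := by
  rw [pow_succ']
  exact Submodule.mul_mem_mul hx hy

lemma mulM_map {O F I J : Type} [CommRing O] [CommRing F] [Algebra ℂ O] [Algebra ℂ F]
    (φ : O →ₐ[ℂ] F) {N : ℕ} (μ : Fin N → Matrix I J ℂ) (h : Fin 3 × Fin N → O) (i : Fin 3) (c : I)
    (a : J) : mulM μ (fun z => φ (h z)) i c a = φ (mulM μ h i c a) := by
  simp only [mulM, map_sum, map_smul]

/-- The comparison of orders for one choice of the shift `T`. -/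
lemma core (h1 : St_K1) (h2 : St_K2) (hS : St_HS) (hF : St_HF) (g : P4) (d k N : ℕ)
    (b : Fin N → P4) (R : PP 3 N) (r : Fin N → ℕ) (hg0 : g ≠ 0) (hg : g.IsHomogeneous d)
    (hb : Spans g k b) (hR0 : R ≠ 0) (D : ℕ) (hR : R.IsHomogeneous D) (n1 : ℕ)
    (hCT : ∀ n ≥ n1, ∀ (I0 I1 I2 I3 : Type) [Fintype I0] [Fintype I1] [Fintype I2] [Fintype I3]
      [DecidableEq I0] [DecidableEq I1] [DecidableEq I2] [DecidableEq I3]
      (e0 : I0 → Q4 g) (e1 : I1 → Q4 g) (e2 : I2 → Q4 g) (e3 : I3 → Q4 g),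
      BasisOf ℂ e0 (degQ g ((n + 3) * k)) → BasisOf ℂ e1 (degQ g ((n + 2) * k)) →
      BasisOf ℂ e2 (degQ g ((n + 1) * k)) → BasisOf ℂ e3 (degQ g (n * k)) →
      ∀ (μ0 : Fin N → Matrix I0 I1 ℂ) (μ1 : Fin N → Matrix I1 I2 ℂ) (μ2 : Fin N → Matrix I2 I3 ℂ),
      (∀ j, MulMat (mk4 g (b j)) e0 e1 (μ0 j)) → (∀ j, MulMat (mk4 g (b j)) e1 e2 (μ1 j)) →
      (∀ j, MulMat (mk4 g (b j)) e2 e3 (μ2 j)) →
      ∃ (σ : (Fin 3 × I1) ⊕ I3 ≃ I0 ⊕ (Fin 3 × I2)) (c : ℂ), c ≠ 0 ∧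
        ∀ (F : Type) [Field F] [Algebra ℂ F] (h : Fin 3 × Fin N → F), aeval h R ≠ 0 →
          IsTor σ (kos1 (mulM μ0 h)) (kos2 (mulM μ1 h)) (kos3 (mulM μ2 h)) (c • aeval h R))
    (m : ℕ → ℕ) (e : ∀ n, Fin (m n) → Q4 g) (ω : ∀ n, Fin (m n) → ℕ)
    (hli : ∀ n, LinearIndependent ℂ (e n))
    (hfil : ∀ n s, Fil (fun j => mk4 g (b j)) r n s = Submodule.span ℂ (e n '' {a | s ≤ ω n a}))
    (T : ℕ) (hT : ∀ j, r j ≤ T) (hω : ∀ n a, ω n a ≤ n * T)
    (A' : Type) [CommRing A'] [Algebra O A'] [Algebra ℂ A'] [IsScalarTower ℂ O A']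
    (ι : Q4 g →ₐ[ℂ] A') (hιli : ∀ n, LinearIndependent O fun a => ι (e n a))
    (F : Type) [Field F] [Algebra ℂ F] (φ : O →ₐ[ℂ] F) (hφ : Function.Injective φ) :
    ∃ n2, ∀ n ≥ n2, (T * D - weightedTotalDegree (fun c : Fin 3 × Fin N => r c.2) R) +
      3 * ∑ a, ((n + 2) * T - ω (n + 2) a) + ∑ a, (n * T - ω n a) =
      ∑ a, ((n + 3) * T - ω (n + 3) a) + 3 * ∑ a, ((n + 1) * T - ω (n + 1) a) := by
  let t : O := PowerSeries.X
  have ht : t ≠ 0 := PowerSeries.X_ne_zero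
  let B : Fin N → Q4 g := fun j => mk4 g (b j)
  let lam : Fin N → A' := fun j => t ^ (T - r j) • ι (B j)
  let f : ∀ n, Fin (m n) → A' := fun n a => t ^ (n * T - ω n a) • ι (e n a)
  have hbas : ∀ n, BasisOf ℂ (e n) (degQ g (n * k)) := fun n => ⟨hli n, by
    rw [← (hF.pow g k N b hb n).1, ← fil_zero _ r, hfil]
    simp⟩
  have hfb : ∀ n, BasisOf O (f n) (lat O lam ^ n) := fun n =>
    ⟨li_smul _ _ (fun a => pow_ne_zero _ ht) (hιli n),
      lat_basis ι t B r T hT n (e n) (ω n) (hω n) (hfil n)⟩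
  obtain ⟨c0, hc0⟩ := growth hF g d k hg0 hg
  have hm : ∀ n, m n ≤ c0 * (n + 1) ^ 2 := fun n => by
    have := finrank_span_eq_card (hli n)
    rw [(hbas n).2, Fintype.card_fin] at this
    exact this ▸ hc0 n
  obtain ⟨n0, h0, hfib⟩ := fib hS t ps_split lam c0 fun n => ⟨m n, f n, hm n, (hfb n).2⟩
  obtain ⟨-, Rt, hRt, hord⟩ := ord_aeval R D T (fun c => r c.2) hR0 hR fun c => hT c.2
  obtain ⟨h1', hav⟩ := avoid Rt hRt h0
  obtain ⟨s, hs⟩ := ((hfib h1').union hav).infinite_compl.nonempty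
  simp only [Set.mem_compl_iff, Set.mem_union, Set.mem_ofPred_eq, not_or, not_not] at hs
  obtain ⟨hs1, hs2⟩ := hs
  set h : Fin 3 × Fin N → ℂ := fun c => h0 c + s * h1' c with hh
  let H : Fin 3 → A' := fun i => ∑ j, h (i, j) • lam j
  have hH : ∀ i, H i ∈ lat O lam := fun i => Submodule.sum_mem _ fun j _ =>
    Submodule.smul_of_tower_mem _ _ (Submodule.subset_span ⟨j, rfl⟩)
  have hfg : (lat O lam).FG := Submodule.fg_span (Set.finite_range _)
  obtain ⟨δ, hδ1, hδ⟩ := Submodule.exists_sub_one_mem_and_smul_le_of_fg_of_le_sup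
    (hfg.pow (n0 + 1)) le_rfl hs1
  have hδu : IsUnit δ := by
    rw [PowerSeries.isUnit_iff_constantCoeff]
    obtain ⟨z, hz⟩ := Ideal.mem_span_singleton'.1 hδ1
    have : δ = z * t + 1 := by rw [hz]; ring
    rw [this]
    simp [t]
  obtain ⟨n2, hK⟩ := h2 O A' (lat O lam) hfg H hH δ n0 fun y hy =>
    (mem_span_mul _ _ _).1 (hδ (Submodule.smul_mem_pointwise_smul y δ _ hy))
  refine ⟨max n1 n2, fun n hn => ?_⟩
  have hμ : ∀ n j, ∃ μ : Matrix (Fin (m (n + 1))) (Fin (m n)) ℂ,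
      MulMat (B j) (e (n + 1)) (e n) μ := fun n j => ex_mulMat _ _ _ fun a => by
    rw [(hbas (n + 1)).2, ← (hF.pow g k N b hb (n + 1)).1]
    refine mul_mem_succ (Submodule.subset_span ⟨j, rfl⟩) ?_
    rw [(hF.pow g k N b hb n).1, ← (hbas n).2]
    exact Submodule.subset_span ⟨a, rfl⟩
  choose μ hμ using hμ
  have hM : ∀ n i, ∃ M : Matrix (Fin (m (n + 1))) (Fin (m n)) O,
      MulMat (H i) (f (n + 1)) (f n) M := fun n i => ex_mulMat _ _ _ fun a => by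
    rw [(hfb (n + 1)).2, pow_succ']
    exact Submodule.mul_mem_mul (hH i) ((hfb n).2 ▸ Submodule.subset_span ⟨a, rfl⟩)
  choose M hM using hM
  have hkill := hK n (le_of_max_le_right hn) _ _ _ _ _ _ _ _ (hfb (n + 3)) (hfb (n + 2))
    (hfb (n + 1)) (hfb n) (M (n + 2)) (M (n + 1)) (M n) (hM (n + 2)) (hM (n + 1)) (hM n)
  obtain ⟨σ, c, hc, htor⟩ := hCT n (le_of_max_le_left hn) _ _ _ _ _ _ _ _ (hbas (n + 3))
    (hbas (n + 2)) (hbas (n + 1)) (hbas n) (μ (n + 2)) (μ (n + 1)) (μ n) (hμ (n + 2)) (hμ (n + 1))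
    (hμ n)
  obtain ⟨τ, hτ⟩ := h1.ex (RingHom.id O) σ _ _ _ δ hkill hδu
  simp only [RingHom.coe_id, Matrix.map_id] at hτ
  have hτu := (h1.uniq σ _ _ _ τ hτ).1
  have hτ' := h1.map (φ : O →+* F) σ _ _ _ τ hτ
  let h' : Fin 3 × Fin N → O := fun z => algebraMap ℂ O (h z) * t ^ (T - r z.2)
  obtain ⟨u, hu, hu'⟩ := hord h
  have hu0 : PowerSeries.constantCoeff u ≠ 0 := hu ▸ hs2
  have hev : aeval (fun z => φ (h' z)) R =
      φ (t ^ (T * D - weightedTotalDegree (fun c : Fin 3 × Fin N => r c.2) R) * u) := by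
    rw [← comp_aeval_apply]
    exact congrArg φ hu'
  have hne : aeval (fun z => φ (h' z)) R ≠ 0 := by
    rw [hev, map_ne_zero_iff φ hφ]
    refine mul_ne_zero (pow_ne_zero _ ht) fun h0 => hu0 ?_
    rw [h0, map_zero]
  have hint : ∀ n i c a, mulM (μ n) (fun z => φ (h' z)) i c a * φ t ^ (n * T - ω n a) =
      φ t ^ ((n + 1) * T - ω (n + 1) c) * (φ : O →+* F) (M n i c a) := fun n i c a => by
    have := intertwine ι B (fun j => t ^ (T - r j)) h (e (n + 1)) (e n) _ _ (hιli (n + 1)) (μ n)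
      (hμ n) i (M n i) (hM n i) c a
    rw [mulM_map, ← map_pow, ← map_pow, ← map_mul, this, map_mul]
    rfl
  have htF : IsUnit (φ t) := isUnit_iff_ne_zero.2 ((map_ne_zero_iff φ hφ).2 ht)
  have d0 := det_diag (φ t) fun a => (n + 3) * T - ω (n + 3) a
  have d1 := det_diag3 (φ t) fun a => (n + 2) * T - ω (n + 2) a
  have d2 := det_diag3 (φ t) fun a => (n + 1) * T - ω (n + 1) a
  have d3 := det_diag (φ t) fun a => n * T - ω n a
  have hch := h1.change σ _ _ _ _ _ _ _ _ _ _ _ _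
    (d0 ▸ htF.pow _) (d1 ▸ htF.pow _) (d2 ▸ htF.pow _) (d3 ▸ htF.pow _)
    (kos1_diag (φ : O →+* F) _ _ _ _ (hint (n + 2))) (kos2_diag (φ : O →+* F) _ _ _ _ (hint (n + 1)))
    (kos3_diag (φ : O →+* F) _ _ _ _ (hint n)) (htor F _ hne) hτ'
  rw [d0, d1, d2, d3, hev, ← map_smul, ← map_pow, ← map_pow, ← map_pow,
    ← map_pow, ← map_mul, ← map_mul, RingHom.coe_coe, ← map_mul, ← map_mul] at hch
  have hO := hφ hch
  refine ord_eq (u := c • u) (v := τ) ?_ ?_ ?_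
  · rw [PowerSeries.constantCoeff_smul]
    exact smul_ne_zero hc hu0
  · exact (PowerSeries.isUnit_iff_constantCoeff.1 hτu).ne_zero
  · rw [pow_add, pow_add, pow_add]
    simp only [Algebra.smul_def] at hO ⊢
    linear_combination hO

lemma sum_sub {m : ℕ} (ω : Fin m → ℕ) (M : ℕ) (h : ∀ a, ω a ≤ M) :
    ((∑ a, (M - ω a) : ℕ) : ℤ) = m * M - (∑ a, ω a : ℕ) := by
  have : ∑ a, (M - ω a) + ∑ a, ω a = m * M := by
    rw [← Finset.sum_add_distrib]
    simp only [Nat.sub_add_cancel (h _)]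
    simp
  have h2 := congrArg (Nat.cast : ℕ → ℤ) this
  push_cast at h2 ⊢
  linarith

end BCW

open BCW in
theorem cw_of (h1 : St_K1) (h2 : St_K2) (hS : St_HS) (hF : St_HF) (hD : St_DEG) (hC : St_CT) :
    St_CW := by
  intro g d k N b R r hirr hg hk hb hR
  obtain ⟨R', hR', hhom, n1, hCT⟩ := hC g d k N b hirr hg hk hb
  obtain ⟨c, hc, rfl⟩ := hD.uniq g N b R' R hR' hR
  refine ⟨hhom.C_mul c, ?_⟩
  have hw : weightedTotalDegree (fun c : Fin 3 × Fin N => r c.2) (C c * R') =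
      weightedTotalDegree (fun c : Fin 3 × Fin N => r c.2) R' := by
    unfold weightedTotalDegree
    rw [C_mul', support_smul_eq hc]
  rw [hw]
  have hfg : ∀ n, (Fil (fun j => mk4 g (b j)) r n 0).FG := fun n => by
    rw [fil_zero]; exact (Submodule.fg_span (Set.finite_range _)).pow n
  choose m e ω hli hω hfil hsum using fun n => adapted (n * ∑ j, r j) _ (fil_anti _ r n)
    (fil_bot (fun j => mk4 g (b j)) r n) (hfg n)
  have key : ∀ T, ∑ j, r j ≤ T → ∃ n2, ∀ n ≥ n2,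
      ((wsum (fun j => mk4 g (b j)) r (n + 3) : ℤ) - 3 * wsum (fun j => mk4 g (b j)) r (n + 2) +
        3 * wsum (fun j => mk4 g (b j)) r (n + 1) - wsum (fun j => mk4 g (b j)) r n) -
        (weightedTotalDegree (fun c : Fin 3 × Fin N => r c.2) R' : ℕ) =
      T * ((m (n + 3) * (n + 3) - 3 * (m (n + 2) * (n + 2)) + 3 * (m (n + 1) * (n + 1)) -
        m n * n : ℤ) - (3 * d * k ^ 2 : ℕ)) := by
    intro T hT
    have hT' : ∀ j, r j ≤ T := fun j =>
      (Finset.single_le_sum (f := r) (fun _ _ => Nat.zero_le _) (Finset.mem_univ j)).trans hT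
    have hω' : ∀ n a, ω n a ≤ n * T := fun n a => (hω n a).trans (Nat.mul_le_mul_left n hT)
    obtain ⟨n2, hn2⟩ := core h1 h2 hS hF g d k N b R' r hirr.ne_zero hg hb hR'.1.ne_zero _ hhom n1
      hCT m e ω hli hfil T hT' hω' (O ⊗[ℂ] Q4 g) Algebra.TensorProduct.includeRight
      (fun n => Module.Flat.linearIndependent_one_tmul (hli n)) (FractionRing O)
      (IsScalarTower.toAlgHom ℂ O _) (IsFractionRing.injective O _)
    refine ⟨n2, fun n hn => ?_⟩
    have h3 := congrArg (Nat.cast : ℕ → ℤ) (hn2 n hn)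
    have h4 := (ord_aeval R' _ T (fun c => r c.2) hR'.1.ne_zero hhom fun c => hT' c.2).1
    rw [Nat.cast_add, Nat.cast_add, Nat.cast_add, Nat.cast_mul 3, Nat.cast_mul 3,
      sum_sub _ _ (hω' _), sum_sub _ _ (hω' _), sum_sub _ _ (hω' _), sum_sub _ _ (hω' _),
      Nat.cast_sub h4, ← hsum, ← hsum, ← hsum, ← hsum] at h3
    unfold wsum
    push_cast at h3 ⊢
    linear_combination h3
  obtain ⟨n2, hn2⟩ := key _ le_rfl
  obtain ⟨n3, hn3⟩ := key _ (Nat.le_succ _)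
  refine ⟨max n2 n3, fun n hn => ?_⟩
  have e2 := hn2 n (le_of_max_le_left hn)
  have e3 := hn3 n (le_of_max_le_right hn)
  rw [Nat.cast_succ, add_mul, one_mul, ← e2] at e3
  have e4 := left_eq_add.1 e3
  rw [e4, mul_zero] at e2
  linarith

end Pool.Agent.Lib.MP_a25055_ag
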