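import Pool.Agent.Lib.MP_a25055_ag.Inv

/-! Block SVD: singular value decomposition in the special linear group. -/

open Matrix
open scoped ComplexOrder

namespace Pool.Agent.Lib.MP_a25055_ag

namespace BSVD

lemma dg_mul {N : ℕ} (r s : Fin N → ℝ) : dg r * dg s = dg (r + s) := by
  simp [dg, Matrix.diagonal_mul_diagonal, Real.exp_add]

lemma dg_zero {N : ℕ} : dg (0 : Fin N → ℝ) = 1 := by simp [dg]

lemma dg_star {N : ℕ} (r : Fin N → ℝ) : star (dg r) = dg r := by
  rw [dg, Matrix.star_eq_conjTranspose, Matrix.diagonal_conjTranspose]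
  congr 1
  funext j
  exact Complex.conj_ofReal _

lemma dg_det {N : ℕ} (r : Fin N → ℝ) : (dg r).det = (Real.exp (∑ j, r j) : ℂ) := by
  rw [dg, Matrix.det_diagonal, Real.exp_sum, Complex.ofReal_prod]

lemma svd_gl {N : ℕ} (g : Mat N) (hg : IsUnit g) : ∃ (U V : Mat N) (r : Fin N → ℝ),
    U ∈ Matrix.unitaryGroup (Fin N) ℂ ∧ V ∈ Matrix.unitaryGroup (Fin N) ℂ ∧ g = U * dg r * V := by
  have hA : (gᴴ * g).PosDef :=
    Matrix.PosDef.conjTranspose_mul_self g (Matrix.mulVec_injective_iff_isUnit.2 hg)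
  set V : Mat N := (hA.1.eigenvectorUnitary : Mat N) with hV
  have hVu : V ∈ Matrix.unitaryGroup (Fin N) ℂ := hA.1.eigenvectorUnitary.2
  set r : Fin N → ℝ := fun j => Real.log (hA.1.eigenvalues j) / 2 with hr
  have h1 : star V * (gᴴ * g) * V = dg (r + r) := by
    have := hA.1.conjStarAlgAut_star_eigenvectorUnitary
    rw [Unitary.conjStarAlgAut_star_apply] at this
    rw [hV, this, dg]
    congr 1
    funext j
    simp only [hr, Pi.add_apply, add_halves, Function.comp, Real.exp_log (hA.eigenvalues_pos j)]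
    rfl
  refine ⟨g * V * dg (-r), star V, r, ?_, Unitary.star_mem hVu, ?_⟩
  · rw [Matrix.mem_unitaryGroup_iff', star_mul, star_mul, dg_star]
    calc dg (-r) * (star V * star g) * (g * V * dg (-r))
        = dg (-r) * (star V * (gᴴ * g) * V) * dg (-r) := by
          rw [Matrix.star_eq_conjTranspose g]
          simp only [Matrix.mul_assoc]
      _ = 1 := by
          rw [h1, dg_mul, dg_mul, ← dg_zero]
          congr 1
          abel
  · rw [Matrix.mul_assoc (g * V), dg_mul, neg_add_cancel, dg_zero, Matrix.mul_one,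
      Matrix.mul_assoc, Matrix.mem_unitaryGroup_iff.1 hVu, Matrix.mul_one]

lemma smul_mem {N : ℕ} {U : Mat N} (hU : U ∈ Matrix.unitaryGroup (Fin N) ℂ) {z : ℂ}
    (hz : ‖z‖ = 1) : z • U ∈ Matrix.unitaryGroup (Fin N) ℂ := by
  rw [Matrix.mem_unitaryGroup_iff, star_smul, smul_mul_smul_comm, Matrix.mem_unitaryGroup_iff.1 hU,
    Complex.star_def, Complex.mul_conj, Complex.normSq_eq_norm_sq, hz]
  simp

end BSVD

open BSVD in
theorem svd_of : St_SVD := by
  intro N g
  rcases Nat.eq_zero_or_pos N with rfl | hN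
  · exact ⟨1, 1, 0, by simp, by simp, by simp, Subsingleton.elim _ _⟩
  obtain ⟨U, V, r, hU, hV, e⟩ := svd_gl (g : Mat N)
    ((Matrix.isUnit_iff_isUnit_det _).2 (by rw [g.det_coe]; exact isUnit_one))
  have nU : ‖U.det‖ = 1 := CStarRing.norm_of_mem_unitary (Matrix.det_of_mem_unitary hU)
  have nV : ‖V.det‖ = 1 := CStarRing.norm_of_mem_unitary (Matrix.det_of_mem_unitary hV)
  have hd : U.det * (Real.exp (∑ j, r j) : ℂ) * V.det = 1 := by
    rw [← dg_det, ← Matrix.det_mul, ← Matrix.det_mul, ← e, g.det_coe]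
  have hr : ∑ j, r j = 0 := by
    have := congrArg norm hd
    rw [norm_mul, norm_mul, nU, nV, one_mul, mul_one, norm_one, Complex.norm_real,
      Real.norm_of_nonneg (Real.exp_pos _).le] at this
    exact Real.exp_eq_one_iff _ |>.1 this
  rw [hr, Real.exp_zero, Complex.ofReal_one, mul_one] at hd
  obtain ⟨z, hz⟩ := IsAlgClosed.exists_pow_nat_eq V.det hN
  have nz : ‖z‖ = 1 := by
    have := congrArg norm hz
    rw [norm_pow, nV] at this
    exact (pow_eq_one_iff_of_nonneg (norm_nonneg z) hN.ne').1 this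
  have z0 : z ≠ 0 := by
    rintro rfl
    simp at nz
  have V0 : V.det ≠ 0 := by
    intro h
    simp [h] at nV
  refine ⟨⟨z • U, ?_⟩, ⟨z⁻¹ • V, ?_⟩, r, smul_mem hU nz, smul_mem hV (by rw [norm_inv, nz, inv_one]),
    hr, ?_⟩
  · rw [Matrix.det_smul, Fintype.card_fin, hz, mul_comm, hd]
  · rw [Matrix.det_smul, Fintype.card_fin, inv_pow, hz, inv_mul_cancel₀ V0]
  · change (g : Mat N) = z • U * dg r * z⁻¹ • V
    rw [Matrix.smul_mul, Matrix.smul_mul, Matrix.mul_smul, smul_smul, mul_inv_cancel₀ z0, one_smul]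
    exact e

end Pool.Agent.Lib.MP_a25055_ag
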