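import Pool.Agent.Lib.MP_a25055_ag.Glue1
import Pool.Agent.Lib.MP_a25055_ag.BSVD

/-! Block D1: degeneration of the Chow form to that of the cubic with three cusps. -/

open MvPolynomial Filter Topology

noncomputable section

namespace Pool.Agent.Lib.MP_a25055_ag

namespace BD1

lemma hurw (p : ℂ → ℂ → ℂ) (hc : Continuous fun x : ℂ × ℂ => p x.1 x.2)
    (hd : ∀ t, Differentiable ℂ (p t)) (h0 : p 0 0 = 0) (h1 : p 0 1 ≠ 0) (U : Set (ℂ × ℂ))
    (hU : U ∈ 𝓝 ((0, 0) : ℂ × ℂ)) : ∃ t z, t ≠ 0 ∧ (t, z) ∈ U ∧ p t z = 0 := by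
  have ev : ∀ᶠ z in 𝓝[≠] (0 : ℂ), p 0 z ≠ 0 := by
    by_contra hne
    have hf : ∃ᶠ z in 𝓝[≠] (0 : ℂ), p 0 z = 0 := hne
    exact h1 (((hd 0).differentiableOn.analyticOnNhd
      isOpen_univ).eqOn_zero_of_preconnected_of_frequently_eq_zero isPreconnected_univ
        (Set.mem_univ 0) hf (Set.mem_univ 1))
  obtain ⟨ε, hε, hεU⟩ := Metric.mem_nhds_iff.1 hU
  obtain ⟨ε', hε', hz⟩ := Metric.eventually_nhds_iff.1 (eventually_nhdsWithin_iff.1 ev)
  obtain ⟨δ, hδ, hδ1, hδ2⟩ : ∃ δ : ℝ, 0 < δ ∧ δ < ε ∧ δ < ε' :=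
    ⟨min ε ε' / 2, by positivity, by linarith [min_le_left ε ε', lt_min hε hε'],
      by linarith [min_le_right ε ε', lt_min hε hε']⟩
  obtain ⟨z0, hz0, hmin⟩ := (isCompact_sphere (0 : ℂ) δ).exists_isMinOn
    (NormedSpace.sphere_nonempty.2 hδ.le) (hd 0).continuous.norm.continuousOn
  have hm : 0 < ‖p 0 z0‖ := by
    rw [mem_sphere_zero_iff_norm] at hz0
    refine norm_pos_iff.2 (hz (by rw [dist_zero_right, hz0]; exact hδ2) ?_)
    rintro rfl
    simp at hz0
    linarith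
  have e1 : ∀ᶠ t in 𝓝 (0 : ℂ), ∀ z ∈ Metric.sphere (0 : ℂ) δ, ‖p 0 z0‖ / 2 < ‖p t z‖ := by
    refine (isCompact_sphere (0 : ℂ) δ).eventually_forall_of_forall_eventually fun y hy => ?_
    refine continuousAt_const.eventually_lt hc.norm.continuousAt ?_
    have : ‖p 0 z0‖ ≤ ‖p 0 y‖ := hmin hy
    change ‖p 0 z0‖ / 2 < ‖p 0 y‖
    linarith
  have e2 : ∀ᶠ t in 𝓝 (0 : ℂ), ‖p t 0‖ < ‖p 0 z0‖ / 2 := by
    have hc' : Continuous fun t : ℂ => p t 0 := hc.comp (Continuous.prodMk_left (0 : ℂ))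
    refine hc'.norm.continuousAt.eventually_lt continuousAt_const ?_
    simp only [h0, norm_zero]
    linarith
  have e3 : ∀ᶠ t in 𝓝 (0 : ℂ), ‖t‖ < ε :=
    continuous_norm.continuousAt.eventually_lt continuousAt_const (by simpa using hε)
  obtain ⟨t, ⟨t1, t2, t3⟩, t0⟩ := (((e1.and (e2.and e3)).filter_mono
    (nhdsWithin_le_nhds (s := {0}ᶜ))).and self_mem_nhdsWithin).exists
  by_contra hno
  have hnz : ∀ z ∈ Metric.closedBall (0 : ℂ) δ, p t z ≠ 0 := fun z hz' e => hno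
    ⟨t, z, t0, hεU (by
      rw [mem_closedBall_zero_iff] at hz'
      rw [Metric.mem_ball, Prod.dist_eq, dist_zero_right, dist_zero_right]
      exact max_lt t3 (hz'.trans_lt hδ1)), e⟩
  have hdc : DiffContOnCl ℂ (fun z => (p t z)⁻¹) (Metric.ball 0 δ) := by
    apply DifferentiableOn.diffContOnCl
    rw [closure_ball _ hδ.ne']
    exact (hd t).differentiableOn.inv hnz
  have := Complex.norm_le_of_forall_mem_frontier_norm_le Metric.isBounded_ball hdc
    (C := (‖p 0 z0‖ / 2)⁻¹) (fun z hz' => by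
      rw [frontier_ball _ hδ.ne'] at hz'
      rw [norm_inv]
      exact inv_anti₀ (by linarith) (t1 z hz').le) (z := 0)
    (subset_closure (Metric.mem_ball_self hδ))
  rw [norm_inv, inv_le_inv₀ (norm_pos_iff.2 (hnz 0 (Metric.mem_closedBall_self hδ.le)))
    (by linarith)] at this
  linarith

variable {σ : Type} [Fintype σ]

/-- a polynomial with rescaled coefficients -/
def sc (p : MvPolynomial σ ℂ) (n : (σ →₀ ℕ) → ℕ) (t : ℂ) (y : σ → ℂ) : ℂ :=
  ∑ a ∈ p.support, coeff a p * t ^ n a * ∏ c, y c ^ a c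

lemma sc_cont (p : MvPolynomial σ ℂ) (n : (σ →₀ ℕ) → ℕ) :
    Continuous fun x : ℂ × (σ → ℂ) => sc p n x.1 x.2 := by
  unfold sc
  fun_prop

lemma prod_scale (w : σ → ℕ) (t : ℂ) (y : σ → ℂ) (a : σ →₀ ℕ) :
    ∏ c, (t ^ w c * y c) ^ a c = t ^ Finsupp.weight w a * ∏ c, y c ^ a c := by
  simp only [mul_pow, Finset.prod_mul_distrib, ← pow_mul, Finset.prod_pow_eq_pow_sum,
    Finsupp.weight_eq_sum, smul_eq_mul, mul_comm]

lemma sc_down (p : MvPolynomial σ ℂ) (w : σ → ℕ) (E : ℕ)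
    (hE : ∀ a ∈ p.support, Finsupp.weight w a ≤ E) (t : ℂ) (y : σ → ℂ) :
    sc p (fun a => E - Finsupp.weight w a) t (fun c => t ^ w c * y c) = t ^ E * eval y p := by
  rw [sc, eval_eq', Finset.mul_sum]
  refine Finset.sum_congr rfl fun a ha => ?_
  rw [prod_scale]
  conv_rhs => rw [← Nat.sub_add_cancel (hE a ha), pow_add]
  ring

lemma sc_up (p : MvPolynomial σ ℂ) (w : σ → ℕ) (E : ℕ)
    (hE : ∀ a ∈ p.support, E ≤ Finsupp.weight w a) (t : ℂ) (y : σ → ℂ) :
    t ^ E * sc p (fun a => Finsupp.weight w a - E) t y = eval (fun c => t ^ w c * y c) p := by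
  rw [sc, eval_eq', Finset.mul_sum]
  refine Finset.sum_congr rfl fun a ha => ?_
  rw [prod_scale]
  conv_rhs => rw [← Nat.sub_add_cancel (hE a ha), pow_add]
  ring

lemma sc_zero_down (p : MvPolynomial σ ℂ) (w : σ → ℕ) (E : ℕ)
    (hE : ∀ a ∈ p.support, Finsupp.weight w a ≤ E) (y : σ → ℂ) :
    sc p (fun a => E - Finsupp.weight w a) 0 y = eval y (weightedHomogeneousComponent w E p) := by
  classical
  rw [sc, eval_eq', Finset.sum_subset (s₁ := (weightedHomogeneousComponent w E p).support)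
    (s₂ := p.support) (fun a ha => by
    rw [mem_support_iff, coeff_weightedHomogeneousComponent] at ha
    rw [mem_support_iff]
    intro h
    simp [h] at ha) (fun a _ ha => by rw [notMem_support_iff.1 ha, zero_mul])]
  refine Finset.sum_congr rfl fun a ha => ?_
  rw [coeff_weightedHomogeneousComponent]
  split_ifs with h
  · simp [h]
  · have := hE a ha
    rw [zero_pow (by omega), mul_zero]

lemma eval_smul_hom {p : MvPolynomial σ ℂ} {d : ℕ} (hp : p.IsHomogeneous d) (s : ℂ) (y : σ → ℂ) :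
    eval (fun c => s * y c) p = s ^ d * eval y p := by
  rw [eval_eq', eval_eq', Finset.mul_sum]
  refine Finset.sum_congr rfl fun a ha => ?_
  have := prod_scale 1 s y a
  simp only [Pi.one_apply, pow_one] at this
  rw [this, hp (mem_support_iff.1 ha)]
  ring

lemma dvd_pow_of_zero {p q : MvPolynomial σ ℂ} (h : ∀ x, eval x p = 0 → eval x q = 0) :
    ∃ m, p ∣ q ^ m := by
  have : q ∈ (Ideal.span {p}).radical := by
    rw [← vanishingIdeal_zeroLocus_eq_radical (K := ℂ), mem_vanishingIdeal_iff]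
    intro x hx
    exact h x (mem_zeroLocus_iff.1 hx p (Ideal.mem_span_singleton_self p))
  obtain ⟨m, hm⟩ := this
  exact ⟨m, Ideal.mem_span_singleton.1 hm⟩

/-- the weights of the degeneration -/
def w4 : Fin 4 → ℕ := ![3, 3, 2, 0]

lemma w4_eq (a : Fin 4 →₀ ℕ) : Finsupp.weight w4 a = 3 * a 0 + 3 * a 1 + 2 * a 2 := by
  simp [Finsupp.weight_eq_sum, Fin.sum_univ_four, w4, mul_comm]

lemma eval_mono (a : Fin 4 →₀ ℕ) (y : Fin 4 → ℂ) :
    eval y (monomial a (1 : ℂ)) = ∏ c, y c ^ a c := by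
  rw [eval_monomial, one_mul, Finsupp.prod_fintype _ _ (by simp)]

/-- zeros of the top component lie in the incidence set of `f0` -/
lemma zero_top {k N : ℕ} {e : Fin N → Fin 4 →₀ ℕ} {f : P4} {R : PP 3 N} (he : Enum k e)
    (hf : NF2 f) (hR : IsChowIrr f (fun j => monomial (e j) 1) R) (E : ℕ)
    (hE : ∀ a ∈ R.support, Finsupp.weight (fun c : Fin 3 × Fin N => Finsupp.weight w4 (e c.2)) a ≤ E)
    (h0 : weightedHomogeneousComponent (fun c : Fin 3 × Fin N => Finsupp.weight w4 (e c.2)) E R ≠ 0)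
    (h : Fin 3 × Fin N → ℂ)
    (hh : eval h (weightedHomogeneousComponent
      (fun c : Fin 3 × Fin N => Finsupp.weight w4 (e c.2)) E R) = 0) :
    ∃ x : Fin 4 → ℂ, x ≠ 0 ∧ eval x f0 = 0 ∧
      ∀ i, ∑ j, h (i, j) * eval x (monomial (e j) (1 : ℂ)) = 0 := by
  set ρ : Fin 3 × Fin N → ℕ := fun c => Finsupp.weight w4 (e c.2) with hρ
  obtain ⟨h1, hh1⟩ : ∃ h1, eval h1 (weightedHomogeneousComponent ρ E R) ≠ 0 := by
    by_contra hc
    push Not at hc
    exact h0 (MvPolynomial.funext fun x => by rw [hc, map_zero])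
  have hup : ∀ a ∈ (f - f0).support, 6 < Finsupp.weight w4 a := fun a ha => by
    rw [w4_eq]; exact hf.2 a ha
  let F : ℂ → (Fin 4 → ℂ) → ℂ := fun t y =>
    eval y f0 + sc (f - f0) (fun a => Finsupp.weight w4 a - 6) t y
  have hF : ∀ t y, t ^ 6 * F t y = eval (fun c => t ^ w4 c * y c) f := fun t y => by
    have e1 : eval (fun c => t ^ w4 c * y c) f0 = t ^ 6 * eval y f0 := by
      simp [f0, w4]
      ring
    have e2 := sc_up (f - f0) w4 6 (fun a ha => (hup a ha).le) t y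
    rw [map_sub, e1] at e2
    simp only [F]
    linear_combination e2
  have hF0 : ∀ y, F 0 y = eval y f0 := fun y => by
    simp only [F, sc]
    rw [Finset.sum_eq_zero, add_zero]
    intro a ha
    have := hup a ha
    rw [zero_pow (by omega), mul_zero, zero_mul]
  let Z : Set ((ℂ × ℂ) × Metric.sphere (0 : Fin 4 → ℂ) 1) := {x | F x.1.1 x.2 = 0 ∧
    ∀ i, ∑ j, (h (i, j) + x.1.2 * (h1 (i, j) - h (i, j))) * ∏ c, (x.2 : Fin 4 → ℂ) c ^ e j c = 0}
  have hZ : IsClosed Z := by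
    refine IsClosed.inter (isClosed_eq ?_ continuous_const) ?_
    · refine Continuous.add ((MvPolynomial.continuous_eval f0).comp (by fun_prop)) ?_
      exact (sc_cont _ _).comp (f := fun x : (ℂ × ℂ) × Metric.sphere (0 : Fin 4 → ℂ) 1 =>
        (x.1.1, (x.2 : Fin 4 → ℂ))) (by fun_prop)
    · change IsClosed {x : (ℂ × ℂ) × Metric.sphere (0 : Fin 4 → ℂ) 1 | ∀ i, _}
      rw [Set.ofPred_forall]
      refine isClosed_iInter fun i => isClosed_eq (continuous_finsetSum _ fun j _ => ?_)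
        continuous_const
      refine Continuous.mul (by fun_prop) (continuous_finsetProd _ fun c _ => Continuous.pow ?_ _)
      exact (continuous_apply c).comp (continuous_subtype_val.comp continuous_snd)
  have hZ' := isClosedMap_fst_of_compactSpace _ hZ
  have mem : ((0, 0) : ℂ × ℂ) ∈ Prod.fst '' Z := by
    by_contra hn
    obtain ⟨t, z, t0, hU, hp⟩ := hurw
      (fun t z => sc R (fun a => E - Finsupp.weight ρ a) t fun c => h c + z * (h1 c - h c))
      ((sc_cont _ _).comp (f := fun x : ℂ × ℂ => (x.1, fun c => h c + x.2 * (h1 c - h c)))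
        (by fun_prop))
      (fun t => by unfold sc; fun_prop)
      (by simp only [zero_mul, add_zero]; rw [sc_zero_down _ _ _ hE]; exact hh)
      (by simp only [one_mul, add_sub_cancel]; rw [sc_zero_down _ _ _ hE]; exact hh1)
      _ (hZ'.isOpen_compl.mem_nhds hn)
    apply hU
    set H : Fin 3 × Fin N → ℂ := fun c => h c + z * (h1 c - h c) with hH
    have e1 : H = fun c => t ^ ρ c * (H c / t ^ ρ c) := by
      funext c
      field_simp
    rw [e1, sc_down _ _ _ hE, mul_eq_zero, or_iff_right (pow_ne_zero _ t0)] at hp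
    obtain ⟨x, x0, hx, hx'⟩ := (hR.2 _).1 hp
    set y : Fin 4 → ℂ := fun c => x c / t ^ w4 c with hy
    have e2 : x = fun c => t ^ w4 c * y c := by
      funext c
      simp only [hy]
      field_simp
    have y0 : y ≠ 0 := fun h => x0 (by rw [e2, h]; funext c; simp)
    have ny : ‖y‖ ≠ 0 := norm_ne_zero_iff.2 y0
    refine ⟨((t, z), ⟨((‖y‖⁻¹ : ℝ) : ℂ) • y, ?_⟩), ⟨?_, fun i => ?_⟩, rfl⟩
    · rw [mem_sphere_zero_iff_norm, norm_smul, Complex.norm_real, norm_inv, norm_norm,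
        inv_mul_cancel₀ ny]
    · have e3 := hF t (((‖y‖⁻¹ : ℝ) : ℂ) • y)
      have e4 : (fun c => t ^ w4 c * (((‖y‖⁻¹ : ℝ) : ℂ) • y) c) =
          fun c => ((‖y‖⁻¹ : ℝ) : ℂ) * x c := by
        funext c
        rw [congrFun e2 c, Pi.smul_apply, smul_eq_mul]
        ring
      rw [e4, eval_smul_hom hf.1, hx, mul_zero, mul_eq_zero, or_iff_right (pow_ne_zero _ t0)] at e3
      exact e3
    · have e3 := hx' i
      change ∑ j, H (i, j) * ∏ c, ((((‖y‖⁻¹ : ℝ) : ℂ) • y) c) ^ e j c = 0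
      rw [← mul_zero (((‖y‖⁻¹ : ℝ) : ℂ) ^ k), ← e3, Finset.mul_sum]
      refine Finset.sum_congr rfl fun j _ => ?_
      have e5 : ∑ c, e j c = k := ((he.2 _).1 ⟨j, rfl⟩).1
      rw [eval_mono, e2, prod_scale]
      simp only [Pi.smul_apply, smul_eq_mul, mul_pow, Finset.prod_mul_distrib,
        Finset.prod_pow_eq_pow_sum, e5, hρ]
      field_simp
  obtain ⟨⟨_, y⟩, ⟨hy1, hy2⟩, rfl⟩ := mem
  refine ⟨y, ne_zero_of_mem_unit_sphere y, ?_, fun i => ?_⟩
  · rw [← hF0]; exact hy1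
  · simpa only [zero_mul, add_zero, eval_mono] using hy2 i

end BD1

open BD1 BSVD in
theorem d1_of (hI : St_INV) (hN : St_NULL) (hW : St_CW) (hB : St_BC) (hG : St_G2) (hS : St_SB)
    (hT : St_T2) : St_D1 := by
  classical
  intro k N e f R hk he hf hR
  have hirr := hG.irr f hf
  have hirr0 := hG.irr f0 nf2_f0
  have b1 := (hS k).2 N e f he hf
  have b0 := (hS k).2 N e f0 he nf2_f0
  obtain ⟨R', hR'⟩ := hB.ex f0 k N _ hirr0.ne_zero nf2_f0.1 (by omega) b0
  have hR0' := (hB.irr f0 N _ R' hirr0).1 hR'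
  have hom := (hW f 3 k N _ R 0 hirr hf.1 (by omega) ⟨b1.1, b1.2.2⟩ hR).1
  have hom' := (hW f0 3 k N _ R' 0 hirr0 nf2_f0.1 (by omega) ⟨b0.1, b0.2.2⟩ hR0').1
  set ρ : Fin 3 × Fin N → ℕ := fun c => Finsupp.weight w4 (e c.2) with hρ
  obtain ⟨a0, ha0, hE⟩ := R.support.exists_max_image (Finsupp.weight ρ)
    (support_nonempty.2 hR.1.ne_zero)
  set E := Finsupp.weight ρ a0 with hEd
  set R0 := weightedHomogeneousComponent ρ E R with hR0
  have hco : ∀ a, coeff a R0 = if Finsupp.weight ρ a = E then coeff a R else 0 := fun a =>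
    coeff_weightedHomogeneousComponent _ _ a
  have hc0 : coeff a0 R0 ≠ 0 := by
    rw [hco, if_pos rfl]
    exact mem_support_iff.1 ha0
  have R00 : R0 ≠ 0 := fun h => hc0 (by rw [h, coeff_zero])
  have hsup : ∀ a, coeff a R0 ≠ 0 → Finsupp.weight ρ a = E ∧ coeff a R ≠ 0 := fun a ha => by
    rw [hco] at ha
    split_ifs at ha with h
    · exact ⟨h, ha⟩
    · exact absurd rfl ha
  have hom0 : R0.IsHomogeneous (3 * 3 * k ^ 2) := fun a ha => hom (hsup a ha).2
  obtain ⟨m, hm⟩ := dvd_pow_of_zero (p := R0) (q := R') fun h hh =>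
    (hR0'.2 h).2 (zero_top he hf hR E hE R00 h hh)
  obtain ⟨i, -, hi⟩ := (dvd_prime_pow hR0'.1.prime m).1 hm
  have hi1 : i = 1 := by
    have d1 := totalDegree_le_of_dvd_of_isDomain hi.dvd (pow_ne_zero _ hR0'.1.ne_zero)
    have d2 := totalDegree_le_of_dvd_of_isDomain hi.symm.dvd R00
    rw [hom0.totalDegree R00, (hom'.pow i).totalDegree (pow_ne_zero _ hR0'.1.ne_zero)] at d1 d2
    have hp : 0 < 3 * 3 * k ^ 2 := by positivity
    exact Nat.eq_of_mul_eq_mul_left hp (by omega)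
  rw [hi1, pow_one] at hi
  have hC0 : IsChowIrr f0 (fun j => monomial (e j) 1) R0 := by
    refine ⟨hi.symm.irreducible hR0'.1, fun H => ?_⟩
    rw [← hR0'.2 H]
    obtain ⟨c1, h1⟩ := hi.dvd
    obtain ⟨c2, h2⟩ := hi.symm.dvd
    constructor
    · intro h
      rw [h1, map_mul, h, zero_mul]
    · intro h
      rw [h2, map_mul, h, zero_mul]
  have hp0 : Poly R0 := (hB.all 1 f0 k hirr0.ne_zero nf2_f0.1 (by omega)).1 (hT k hk)
    N _ R0 b0 ((hB.irr f0 N _ R0 hirr0).2 hC0)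
  have hs0 := hI.semi _ hp0
  obtain ⟨j0, hj0⟩ := (he.2 (Finsupp.single 0 k)).2 ⟨by simp, by simp⟩
  obtain ⟨j3, hj3⟩ := (he.2 (Finsupp.single 3 k)).2 ⟨by simp, by simp⟩
  have hN0 : (N : ℝ) ≠ 0 := by
    have := j0.pos
    positivity
  set μ : ℝ := (∑ j, (Finsupp.weight w4 (e j) : ℝ)) / N with hμ
  set r : Fin N → ℝ := fun j => (Finsupp.weight w4 (e j) : ℝ) - μ with hr
  have hr0 : ∑ j, r j = 0 := by
    simp only [hr, Finset.sum_sub_distrib, Finset.sum_const, Finset.card_univ, Fintype.card_fin,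
      nsmul_eq_mul, hμ]
    field_simp
    ring
  have hwt : ∀ (s : ℝ) a, coeff a R ≠ 0 → wt (s • r) a =
      s * ((Finsupp.weight ρ a : ℝ) - (3 * 3 * k ^ 2 : ℕ) * μ) := fun s a ha => by
    rw [← hom ha]
    simp only [wt, hr, hρ, Finsupp.weight_eq_sum (f := a), Pi.smul_apply, smul_eq_mul,
      Pi.one_apply, mul_one]
    push_cast
    rw [Finset.sum_mul, ← Finset.sum_sub_distrib, Finset.mul_sum]
    exact Finset.sum_congr rfl fun c _ => by ring
  have hsr : ∀ s : ℝ, ∑ j, (s • r) j = 0 := fun s => by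
    simp only [Pi.smul_apply, smul_eq_mul, ← Finset.mul_sum, hr0, mul_zero]
  have hκ : ((3 * 3 * k ^ 2 : ℕ) : ℝ) * μ = E := by
    by_contra hne
    refine hN.neg R0 ((((3 * 3 * k ^ 2 : ℕ) : ℝ) * μ - E) • r) (hsr _) (fun a ha => ?_) hs0
    obtain ⟨h1, h2⟩ := hsup a (mem_support_iff.1 ha)
    rw [hwt _ a h2, h1]
    have := sq_pos_of_ne_zero (sub_ne_zero.2 hne)
    nlinarith
  rw [hκ] at hwt
  let G : ℝ → SL N := fun s => ⟨dg (s • r), by rw [dg_det, hsr, Real.exp_zero, Complex.ofReal_one]⟩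
  refine ⟨R0, hC0, (hI.clos R _).2 ⟨R0, rfl, fun n => G n, fun a => ?_⟩, fun hst => ?_⟩
  · simp only [G, coeff_act_dg]
    by_cases ha : coeff a R = 0
    · simp [ha, hco]
    simp only [hwt _ a ha]
    rw [hco]
    split_ifs with h
    · simp [h]
    · have hlt : (Finsupp.weight ρ a : ℝ) - E < 0 := by
        have h1 := hE a (mem_support_iff.2 ha)
        have h2 : Finsupp.weight ρ a < E := lt_of_le_of_ne h1 h
        have h3 : (Finsupp.weight ρ a : ℝ) < E := by exact_mod_cast h2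
        linarith
      have t1 := Real.tendsto_exp_atBot.comp
        (tendsto_natCast_atTop_atTop.atTop_mul_const_of_neg hlt)
      have t2 := ((Complex.continuous_ofReal.tendsto 0).comp t1).mul_const (coeff a R)
      simpa using t2
  · refine Set.infinite_of_injective_forall_mem (f := G) (fun s s' h => ?_) (fun s => ?_) hst.2
    · have key : ∀ j, s * r j = s' * r j := fun j => by
        have := congrFun (congrFun (congrArg Subtype.val h) j) j
        simpa [G, dg, -Complex.ofReal_exp] using this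
      have k0 := key j0
      have k3 := key j3
      simp only [hr, hj0, hj3, w4_eq] at k0 k3
      simp at k0 k3
      have hk' : (k : ℝ) ≠ 0 := by positivity
      have : (s - s') * (3 * k) = 0 := by
        rcases k0 with k0 | k0
        · simp [k0]
        · rcases k3 with k3 | k3
          · simp [k3]
          · rw [k3, sub_zero] at k0
            rw [k0, mul_zero]
      exact sub_eq_zero.1 ((mul_eq_zero.1 this).resolve_right (by positivity))
    · change moved R0 (dg (s • r)) = moved R0 1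
      rw [moved_eq]
      congr 1
      ext a
      rw [coeff_act_dg]
      by_cases ha : coeff a R0 = 0
      · rw [ha, mul_zero]
      · obtain ⟨h1, h2⟩ := hsup a ha
        rw [hwt _ a h2, h1]
        simp

end Pool.Agent.Lib.MP_a25055_ag
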