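import Pool.Agent.Lib.MP_a25055_ag.Inv

/-! Uniqueness and degree of Chow forms. -/

open MvPolynomial Filter Topology Module

noncomputable section

namespace Pool.Agent.Lib.MP_a25055_ag

namespace BDEG

theorem ex_ne {σ : Type} {f : MvPolynomial σ ℂ} (h : f ≠ 0) : ∃ x, eval x f ≠ 0 := by
  by_contra h1
  push Not at h1
  exact h (MvPolynomial.funext fun x => by rw [h1, map_zero])

theorem eval_aeval {σ τ : Type} (x : τ → ℂ) (u : σ → MvPolynomial τ ℂ) (f : MvPolynomial σ ℂ) :
    eval x (aeval u f) = eval (fun i => eval x (u i)) f := by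
  induction f using MvPolynomial.induction_on with
  | C c => simp
  | add p q hp hq => simp only [map_add, hp, hq]
  | mul_X p a hp => rw [map_mul, map_mul, map_mul, hp, aeval_X, eval_X]

theorem dvd_of_zero {σ : Type} [Finite σ] {R R' : MvPolynomial σ ℂ} (hR : Irreducible R)
    (h : ∀ x, eval x R = 0 → eval x R' = 0) : R ∣ R' := by
  have hp : (Ideal.span {R}).IsPrime := (Ideal.span_singleton_prime hR.ne_zero).mpr hR.prime
  rw [← Ideal.mem_span_singleton, ← IsPrime.vanishingIdeal_zeroLocus (K := ℂ) (Ideal.span {R})]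
  exact fun x hx => h x (hx R (Ideal.mem_span_singleton_self R))

theorem uniq {g : P4} {N : ℕ} {b : Fin N → P4} {R R' : PP 3 N} (h : IsChowIrr g b R)
    (h' : IsChowIrr g b R') : ∃ c : ℂ, c ≠ 0 ∧ R' = C c * R := by
  obtain ⟨Q, hQ⟩ := dvd_of_zero (R' := R') h.1 fun x hx => (h'.2 x).mpr ((h.2 x).mp hx)
  obtain ⟨c, hc, rfl⟩ := isUnit_iff_eq_C_of_isReduced.mp
    ((h'.1.isUnit_or_isUnit hQ).resolve_left h.1.not_isUnit)
  exact ⟨c, hc.ne_zero, by rw [hQ, mul_comm]⟩

/-- Rescaling of the variables. -/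
def scale {σ : Type} (t : σ → ℂ) : MvPolynomial σ ℂ →ₐ[ℂ] MvPolynomial σ ℂ :=
  aeval fun c => C (t c) * X c

theorem eval_scale {σ : Type} (t x : σ → ℂ) (p : MvPolynomial σ ℂ) :
    eval x (scale t p) = eval (fun c => t c * x c) p := by
  rw [scale, eval_aeval]
  simp

theorem coeff_scale {σ : Type} [Fintype σ] (t : σ → ℂ) (p : MvPolynomial σ ℂ) (a : σ →₀ ℕ) :
    coeff a (scale t p) = (∏ c, t c ^ a c) * coeff a p := by
  classical
  induction p using MvPolynomial.induction_on' with
  | monomial s z =>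
    have h : scale t (monomial s z) = monomial s ((∏ c, t c ^ s c) * z) := by
      unfold scale
      rw [aeval_monomial, monomial_eq, Finsupp.prod_fintype _ _ (by simp),
        Finsupp.prod_fintype _ _ (by simp)]
      simp only [mul_pow, Finset.prod_mul_distrib, ← map_pow, ← map_prod, algebraMap_eq, map_mul]
      ring
    rw [h, coeff_monomial, coeff_monomial]
    split_ifs with h
    · rw [h]
    · simp
  | add p q hp hq => rw [map_add, coeff_add, coeff_add, hp, hq, mul_add]

theorem irr_scale {σ : Type} {t : σ → ℂ} (ht : ∀ c, t c ≠ 0) {p : MvPolynomial σ ℂ}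
    (hp : Irreducible p) : Irreducible (scale t p) :=
  hp.map (AlgEquiv.ofAlgHom (scale t) (scale fun c => (t c)⁻¹)
    (AlgHom.ext fun f => MvPolynomial.funext fun x => by simp [eval_scale, ht])
    (AlgHom.ext fun f => MvPolynomial.funext fun x => by simp [eval_scale, ht]))

theorem eval_hom {g : P4} {d : ℕ} (hd : g.IsHomogeneous d) (s : ℂ) (x : Fin 4 → ℂ) :
    eval (fun i => s * x i) g = s ^ d * eval x g := by
  rw [eval_eq', eval_eq', Finset.mul_sum]
  refine Finset.sum_congr rfl fun a ha => ?_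
  have h : ∑ i, a i = d := by
    rw [← Finsupp.degree_eq_sum]
    by_contra h
    exact MvPolynomial.mem_support_iff.mp ha (hd.coeff_eq_zero h)
  simp only [mul_pow, Finset.prod_mul_distrib, Finset.prod_pow_eq_pow_sum, h]
  ring

theorem chow_scale {g : P4} {N : ℕ} {b : Fin N → P4} {R : PP 3 N} (h : IsChowIrr g b R)
    {t : Fin 3 → ℂ} (ht : ∀ i, t i ≠ 0) :
    IsChowIrr g b (scale (fun c : Fin 3 × Fin N => t c.1) R) := by
  have h0 : Irreducible (scale (fun c : Fin 3 × Fin N => t c.1) R) :=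
    irr_scale (t := fun c : Fin 3 × Fin N => t c.1) (p := R) (fun c => ht c.1) h.1
  unfold IsChowIrr
  refine And.intro h0 fun H => ?_
  rw [eval_scale, h.2]
  refine exists_congr fun x => and_congr_right fun _ => and_congr_right fun _ =>
    forall_congr' fun l => ?_
  have e : ∑ j, t l * H (l, j) * eval x (b j) = t l * ∑ j, H (l, j) * eval x (b j) := by
    rw [Finset.mul_sum]
    exact Finset.sum_congr rfl fun j _ => mul_assoc _ _ _
  exact (iff_of_eq (congrArg (· = 0) e)).trans (mul_eq_zero_iff_left (ht l))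

theorem multi {g : P4} {N : ℕ} {b : Fin N → P4} {R : PP 3 N} (h : IsChowIrr g b R) (i : Fin 3) :
    ∃ e, ∀ a ∈ R.support, ∑ j, a (i, j) = e := by
  obtain ⟨t, ht, ht'⟩ : ∃ t : Fin 3 → ℂ, t i = 2 ∧ ∀ l, l ≠ i → t l = 1 :=
    ⟨fun l => if l = i then 2 else 1, if_pos rfl, fun l hl => if_neg hl⟩
  obtain ⟨c, -, hc⟩ := uniq h (chow_scale h (t := t) fun l => by
    rcases eq_or_ne l i with rfl | hl
    · rw [ht]; exact two_ne_zero
    · rw [ht' l hl]; exact one_ne_zero)
  have h1 : ∀ a ∈ R.support, (2 : ℂ) ^ (∑ j, a (i, j)) = c := fun a ha => by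
    have h2 := congrArg (coeff a) hc
    rw [coeff_scale, coeff_C_mul] at h2
    have h3 := mul_right_cancel₀ (MvPolynomial.mem_support_iff.mp ha) h2
    rw [Fintype.prod_prod_type, Finset.prod_eq_single i (fun l _ hl => by simp [ht' l hl])
      (by simp)] at h3
    simpa only [ht, Finset.prod_pow_eq_pow_sum] using h3
  obtain ⟨a₀, ha₀⟩ := MvPolynomial.support_nonempty.mpr h.1.ne_zero
  refine ⟨∑ j, a₀ (i, j), fun a ha => ?_⟩
  have h2 := (h1 a ha).trans (h1 a₀ ha₀).symm
  generalize ∑ j, a (i, j) = m at h2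
  generalize ∑ j, a₀ (i, j) = n at h2
  have h3 : 2 ^ m = 2 ^ n := by exact_mod_cast h2
  exact Nat.pow_right_injective (le_refl 2) h3

/-- Restriction to a line. -/
def lp {σ : Type} (u v : σ → ℂ) : MvPolynomial σ ℂ →ₐ[ℂ] Polynomial ℂ :=
  aeval fun c => Polynomial.C (u c) + Polynomial.C (v c) * Polynomial.X

theorem eval_lp {σ : Type} (u v : σ → ℂ) (f : MvPolynomial σ ℂ) (s : ℂ) :
    (lp u v f).eval s = eval (fun c => u c + v c * s) f := by
  unfold lp
  induction f using MvPolynomial.induction_on <;> simp [*]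

theorem fin_line {σ : Type} (u v : σ → ℂ) (f : MvPolynomial σ ℂ) (s₀ : ℂ)
    (h : eval (fun c => u c + v c * s₀) f ≠ 0) :
    {s : ℂ | eval (fun c => u c + v c * s) f = 0}.Finite := by
  have h1 : lp u v f ≠ 0 := fun h1 => h (by rw [← eval_lp, h1, Polynomial.eval_zero])
  refine (lp u v f).roots.toFinset.finite_toSet.subset fun s hs => ?_
  simpa [h1, eval_lp] using hs

theorem natDegree_lp {N : ℕ} (u v : Fin 3 × Fin N → ℂ) (R : PP 3 N) (i : Fin 3) (e : ℕ)
    (hv : ∀ c, c.1 ≠ i → v c = 0) (he : ∀ a ∈ R.support, ∑ j, a (i, j) = e) :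
    (lp u v R).natDegree ≤ e := by
  rw [lp, aeval_def, eval₂_eq']
  refine Polynomial.natDegree_sum_le_of_forall_le _ _ fun a ha => ?_
  refine (Polynomial.natDegree_C_mul_le _ _).trans ((Polynomial.natDegree_prod_le _ _).trans ?_)
  rw [← he a ha, Fintype.sum_prod_type, Finset.sum_eq_single i (fun l _ hl => ?_) (by simp)]
  · refine Finset.sum_le_sum fun j _ => Polynomial.natDegree_pow_le.trans ?_
    refine mul_le_of_le_one_right (Nat.zero_le _) ?_
    rw [add_comm]
    exact Polynomial.natDegree_linear_le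
  · refine Finset.sum_eq_zero fun j _ => ?_
    rw [hv (l, j) hl, map_zero, zero_mul, add_zero, ← map_pow, Polynomial.natDegree_C]

theorem ex_sep (Z : Finset (Fin 4 → ℂ)) :
    ∃ l : Fin 4 → ℂ, Set.InjOn (fun x : Fin 4 → ℂ => ∑ i, l i * x i) Z := by
  classical
  obtain ⟨l, hl⟩ := ex_ne (f := ∏ z ∈ Z.offDiag, ∑ i, C (z.1 i - z.2 i) * X i)
    (Finset.prod_ne_zero_iff.mpr fun z hz h => (Finset.mem_offDiag.mp hz).2.2 (funext fun i => by
      have := congrArg (eval (Pi.single i (1 : ℂ))) h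
      simpa [Pi.single_apply, sub_eq_zero] using this))
  refine ⟨l, fun x hx y hy e => by_contra fun h => ?_⟩
  rw [map_prod, Finset.prod_ne_zero_iff] at hl
  refine hl (x, y) (Finset.mem_offDiag.mpr ⟨hx, hy, h⟩) ?_
  simp only [map_sum, map_mul, eval_C, eval_X, sub_mul, Finset.sum_sub_distrib, sub_eq_zero]
  simpa only [mul_comm] using e

/-- A shear. -/
def sh (α : Fin 3 → ℂ) : P4 →ₐ[ℂ] P4 :=
  aeval (Fin.cons (X 0) fun i => X i.succ + C (α i) * X 0 : Fin 4 → P4)

theorem eval_sh (α : Fin 3 → ℂ) (f : P4) (s : ℂ) (y : Fin 3 → ℂ) :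
    eval (Fin.cons s y) (sh α f) = eval (Fin.cons s fun i => y i + α i * s) f := by
  rw [sh, eval_aeval]
  congr 2
  funext j
  refine Fin.cases ?_ (fun i => ?_) j <;> simp

theorem sh_sh {α β : Fin 3 → ℂ} (h : ∀ i, α i + β i = 0) : (sh α).comp (sh β) = AlgHom.id ℂ P4 :=
  AlgHom.ext fun f => MvPolynomial.funext fun x => by
    rw [← Fin.cons_self_tail x, AlgHom.comp_apply, eval_sh, eval_sh, AlgHom.id_apply]
    simp only [add_assoc, ← add_mul, h, zero_mul, add_zero]

/-- A general line through a point off the surface meets it in `d` points. -/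
theorem sep {g : P4} {d : ℕ} (hg : Irreducible g) (hd : g.IsHomogeneous d) :
    ∃ (α : Fin 3 → ℂ) (Δ : MvPolynomial (Fin 3) ℂ) (Z : (Fin 3 → ℂ) → Finset ℂ), Δ ≠ 0 ∧
      eval (Fin.cons 1 α) g ≠ 0 ∧ ∀ y, (eval y Δ ≠ 0 → (Z y).card = d) ∧
        ∀ s, s ∈ Z y ↔ eval (Fin.cons s fun i => y i + α i * s) g = 0 := by
  classical
  have hd0 : d ≠ 0 := by
    rintro rfl
    have h1 := totalDegree_eq_zero_iff_eq_C.mp ((totalDegree_zero_iff_isHomogeneous _).mpr hd)
    refine hg.not_isUnit (isUnit_iff_eq_C_of_isReduced.mpr ⟨_, Ne.isUnit fun h => ?_, h1⟩)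
    rw [h, map_zero] at h1
    exact hg.ne_zero h1
  obtain ⟨x, hx⟩ := ex_ne (mul_ne_zero hg.ne_zero (X_ne_zero (0 : Fin 4)))
  rw [map_mul, eval_X, mul_ne_zero_iff] at hx
  obtain ⟨α, hα⟩ : ∃ α : Fin 3 → ℂ, eval (Fin.cons 1 α) g ≠ 0 := by
    refine ⟨fun i => (x 0)⁻¹ * x i.succ, ?_⟩
    rw [show (Fin.cons 1 fun i => (x 0)⁻¹ * x i.succ : Fin 4 → ℂ) = fun i => (x 0)⁻¹ * x i from
      funext fun j => Fin.cases (by simp [hx.2]) (fun i => by simp) j, eval_hom hd]
    exact mul_ne_zero (pow_ne_zero _ (inv_ne_zero hx.2)) hx.1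
  have h1 : Irreducible (sh α g) := hg.map (AlgEquiv.ofAlgHom (sh α) (sh fun i => -α i)
    (sh_sh fun i => add_neg_cancel _) (sh_sh fun i => neg_add_cancel _))
  have h2 : (sh α g).IsHomogeneous d := by
    have := hd.aeval (Fin.cons (X 0) fun i => X i.succ + C (α i) * X 0 : Fin 4 → P4) (n := 1)
      fun j => Fin.cases (isHomogeneous_X _ _)
        (fun i => (isHomogeneous_X _ _).add (isHomogeneous_C_mul_X _ _)) j
    rwa [one_mul] at this
  set G := finSuccEquiv ℂ 3 (sh α g) with hG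
  have h3 : Irreducible G := h1.map (finSuccEquiv ℂ 3)
  have h4 : ∀ y s, (G.map (eval y)).eval s = eval (Fin.cons s fun i => y i + α i * s) g :=
    fun y s => by rw [← eval_eq_eval_mv_eval', eval_sh]
  have h5 : G.natDegree ≤ d := by
    rw [hG, natDegree_finSuccEquiv]
    exact (degreeOf_le_totalDegree _ _).trans h2.totalDegree_le
  have h6 : ∀ y, (G.map (eval y)).coeff d = eval (Fin.cons 1 α) g := fun y => by
    obtain ⟨c, h7⟩ : ∃ c, G.coeff d = C c := ⟨_, totalDegree_eq_zero_iff_eq_C.mp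
      ((totalDegree_zero_iff_isHomogeneous _).mpr (h2.finSuccEquiv_coeff_isHomogeneous d 0 rfl))⟩
    have h8 : G.map (eval 0) = Polynomial.C (eval (Fin.cons 1 α) g) * Polynomial.X ^ d :=
      Polynomial.funext fun s => by
        rw [h4, show (Fin.cons s fun i => (0 : Fin 3 → ℂ) i + α i * s : Fin 4 → ℂ) =
          fun i => s * (Fin.cons 1 α : Fin 4 → ℂ) i from
          funext fun j => Fin.cases (by simp) (fun i => by simp [mul_comm]) j, eval_hom hd]
        rw [Polynomial.eval_mul, Polynomial.eval_C, Polynomial.eval_pow, Polynomial.eval_X, mul_comm]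
    have h9 := congrArg (Polynomial.coeff · d) h8
    simp only [Polynomial.coeff_map, Polynomial.coeff_C_mul, Polynomial.coeff_X_pow_self,
      mul_one] at h9
    rw [Polynomial.coeff_map, ← h9, h7, eval_C, eval_C]
  have h7 : ∀ y, (G.map (eval y)).natDegree = d := fun y =>
    Polynomial.natDegree_eq_of_le_of_coeff_ne_zero (Polynomial.natDegree_map_le.trans h5)
      (by rw [h6]; exact hα)
  have h8 : G.natDegree ≠ 0 := fun h => hd0 (by
    have := Polynomial.natDegree_map_le (f := eval (0 : Fin 3 → ℂ)) (p := G)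
    rw [h7, h] at this
    omega)
  have hinj := IsFractionRing.injective (MvPolynomial (Fin 3) ℂ)
    (FractionRing (MvPolynomial (Fin 3) ℂ))
  have h9 := Polynomial.resultant_ne_zero _ _ (((h3.isPrimitive h8).irreducible_iff_irreducible_map_fraction_map
    (K := FractionRing (MvPolynomial (Fin 3) ℂ))).mp h3).separable
  rw [Polynomial.derivative_map, Polynomial.natDegree_map_eq_of_injective hinj,
    Polynomial.natDegree_map_eq_of_injective hinj, Polynomial.resultant_map_map] at h9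
  obtain ⟨p, q, -, -, e⟩ := Polynomial.exists_mul_add_mul_eq_C_resultant G G.derivative le_rfl
    le_rfl (Or.inl h8)
  have h10 : ∀ y, G.map (eval y) ≠ 0 := fun y h => hα (by rw [← h6 y, h, Polynomial.coeff_zero])
  refine ⟨α, G.resultant G.derivative, fun y => (G.map (eval y)).roots.toFinset,
    fun h => h9 (by rw [h, map_zero]), hα, fun y => ⟨fun hy => ?_, fun s => ?_⟩⟩
  · have h11 : (G.map (eval y)).Separable := by
      have h12 := congrArg (Polynomial.map (eval y)) e
      rw [Polynomial.map_add, Polynomial.map_mul, Polynomial.map_mul, Polynomial.map_C,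
        ← Polynomial.derivative_map] at h12
      refine ⟨Polynomial.C (eval y (G.resultant G.derivative))⁻¹ * p.map (eval y),
        Polynomial.C (eval y (G.resultant G.derivative))⁻¹ * q.map (eval y), ?_⟩
      rw [mul_assoc, mul_assoc, ← mul_add, mul_comm (p.map _), mul_comm (q.map _), h12, ← map_mul,
        inv_mul_cancel₀ hy, map_one]
    rw [Multiset.toFinset_card_of_nodup (Polynomial.nodup_roots h11),
      IsAlgClosed.card_roots_eq_natDegree, h7]
  · rw [Multiset.mem_toFinset, Polynomial.mem_roots (h10 y), Polynomial.IsRoot, h4]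

theorem grid {Δ : MvPolynomial (Fin 3) ℂ} (h : Δ ≠ 0) (k : ℕ) : ∃ (t : ℂ) (A B : Finset ℂ),
    t ≠ 0 ∧ A.card = k ∧ B.card = k ∧ ∀ a ∈ A, ∀ b ∈ B, eval ![t, a, b] Δ ≠ 0 := by
  obtain ⟨y, hy⟩ := ex_ne (mul_ne_zero h (X_ne_zero (0 : Fin 3)))
  rw [map_mul, eval_X, mul_ne_zero_iff] at hy
  have e1 : ∀ s, (fun c => ![y 0, 0, y 2] c + ![0, 1, 0] c * s) = ![y 0, s, y 2] := fun s => by
    funext c; fin_cases c <;> simp
  have e2 : ∀ a s, (fun c => ![y 0, a, 0] c + ![0, 0, 1] c * s) = ![y 0, a, s] := fun a s => by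
    funext c; fin_cases c <;> simp
  have e3 : ![y 0, y 1, y 2] = y := by funext c; fin_cases c <;> rfl
  obtain ⟨A, hA, hA'⟩ := (fin_line ![y 0, 0, y 2] ![0, 1, 0] Δ (y 1)
    (by rw [e1, e3]; exact hy.1)).infinite_compl.exists_subset_card_eq k
  obtain ⟨B, hB, hB'⟩ := (A.finite_toSet.biUnion fun a ha => fin_line ![y 0, a, 0] ![0, 0, 1] Δ
    (y 2) (by
      have := hA ha
      rw [e2]
      simpa only [Set.mem_compl_iff, Set.mem_ofPred_eq, e1] using this)).infinite_compl.exists_subset_card_eq k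
  refine ⟨y 0, A, B, hy.2, hA', hB', fun a ha b hb h0 => hB hb ?_⟩
  exact Set.mem_biUnion ha (by simpa only [Set.mem_ofPred_eq, e2] using h0)

theorem spans_eval {g : P4} {k N : ℕ} {b : Fin N → P4} (hb : Spans g k b) {p : P4}
    (hp : p.IsHomogeneous k) : ∃ c : Fin N → ℂ, ∀ x, eval x g = 0 →
      ∑ j, c j * eval x (b j) = eval x p := by
  obtain ⟨c, q, hq⟩ := hb.2 p hp
  refine ⟨c, fun x hx => ?_⟩
  have h := congrArg (eval x) hq
  rw [map_mul, hx, zero_mul, map_sub, sub_eq_zero, map_sum] at h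
  simp only [h, smul_eval]

theorem lower {g : P4} {d k N : ℕ} {b : Fin N → P4} {R : PP 3 N} (hg : Irreducible g)
    (hd : g.IsHomogeneous d) (hk : 1 ≤ k) (hb : Spans g k b) (h : IsChowIrr g b R) (i : Fin 3)
    {e : ℕ} (he : ∀ a ∈ R.support, ∑ j, a (i, j) = e) : d * k ^ 2 ≤ e := by
  classical
  obtain ⟨k, rfl⟩ := Nat.exists_eq_add_of_le' hk
  obtain ⟨α, Δ, Z, hΔ, hα, hZ⟩ := sep hg hd
  obtain ⟨t, A, B, ht, hA, hB, hAB⟩ := grid hΔ (k + 1)
  let pt : (Σ _ : ℂ × ℂ, ℂ) → Fin 4 → ℂ := fun z =>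
    Fin.cons z.2 fun i => ![t, z.1.1, z.1.2] i + α i * z.2
  have hpt : Function.Injective pt := by
    rintro ⟨⟨a, b⟩, s⟩ ⟨⟨a', b'⟩, s'⟩ e
    obtain rfl : s = s' := congrFun e 0
    obtain rfl : a = a' := add_right_cancel (congrFun e 2)
    obtain rfl : b = b' := add_right_cancel (congrFun e 3)
    rfl
  let S : Finset (Fin 4 → ℂ) := ((A ×ˢ B).sigma fun ab => Z ![t, ab.1, ab.2]).image pt
  have hS : S.card = d * (k + 1) ^ 2 := by
    rw [Finset.card_image_of_injective _ hpt, Finset.card_sigma, Finset.sum_congr rfl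
      fun ab hab => (hZ _).1 (hAB _ (Finset.mem_product.mp hab).1 _ (Finset.mem_product.mp hab).2),
      Finset.sum_const, Finset.card_product, hA, hB, smul_eq_mul]
    ring
  obtain ⟨l, hl⟩ := ex_sep S
  let Y : Fin 3 → P4 := fun i => X i.succ - C (α i) * X 0
  have hY : ∀ i, (Y i).IsHomogeneous 1 := fun i =>
    (isHomogeneous_X _ _).sub (isHomogeneous_C_mul_X _ _)
  have hY' : ∀ i x, eval x (Y i) = x i.succ - α i * x 0 := fun i x => by simp [Y]
  have hP : ∀ (T : Finset ℂ) (i : Fin 3), T.card = k + 1 →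
      (∏ a ∈ T, (C t * Y i - C a * Y 0)).IsHomogeneous (k + 1) := fun T i hT => by
    have := IsHomogeneous.prod T (fun a => C t * Y i - C a * Y 0) (fun _ => 1)
      fun a _ => ((hY i).C_mul t).sub ((hY 0).C_mul a)
    rwa [Finset.sum_const, hT, smul_eq_mul, mul_one] at this
  obtain ⟨c1, hc1⟩ := spans_eval hb (hP A 1 hA)
  obtain ⟨c2, hc2⟩ := spans_eval hb (hP B 2 hB)
  obtain ⟨c3, hc3⟩ := spans_eval hb (p := Y 0 ^ k * Y 0)
    (by simpa only [one_mul] using ((hY 0).pow k).mul (hY 0))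
  obtain ⟨c0, hc0⟩ := spans_eval hb (p := Y 0 ^ k * ∑ i, C (l i) * X i)
    (by simpa only [one_mul] using ((hY 0).pow k).mul (IsHomogeneous.sum Finset.univ _ 1
      fun i _ => isHomogeneous_C_mul_X (l i) i))
  set P := lp (fun c : Fin 3 × Fin N => ![c0, c1, c2] (Equiv.swap 0 i c.1) c.2)
    (fun c => ![-c3, 0, 0] (Equiv.swap 0 i c.1) c.2) R with hPd
  have hdeg : P.natDegree ≤ e := natDegree_lp _ _ R i e (fun c hc => by
    have h1 : Equiv.swap 0 i c.1 ≠ 0 := fun h1 => hc (by
      rwa [← Equiv.eq_symm_apply, Equiv.symm_swap, Equiv.swap_apply_left] at h1)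
    generalize Equiv.swap 0 i c.1 = m at h1
    fin_cases m
    · exact absurd rfl h1
    · rfl
    · rfl) he
  have hroot : ∀ s, P.eval s = 0 ↔ ∃ x : Fin 4 → ℂ, x ≠ 0 ∧ eval x g = 0 ∧
      eval x (Y 0) ^ k * (∑ i, l i * x i - eval x (Y 0) * s) = 0 ∧
      (∃ a ∈ A, t * eval x (Y 1) = a * eval x (Y 0)) ∧
        ∃ b ∈ B, t * eval x (Y 2) = b * eval x (Y 0) := fun s => by
    rw [hPd, eval_lp, h.2]
    refine exists_congr fun x => and_congr_right fun _ => and_congr_right fun hx => ?_
    refine ((Equiv.swap 0 i).forall_congr_right (q := fun m => ∑ j,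
      (![c0, c1, c2] m j + ![-c3, 0, 0] m j * s) * eval x (b j) = 0)).trans ?_
    rw [Fin.forall_fin_succ, Fin.forall_fin_two]
    refine and_congr (iff_of_eq (congrArg (· = 0) ?_)) (and_congr ?_ ?_)
    · have e0 := hc0 x hx
      have e3 := hc3 x hx
      simp only [map_mul, map_pow, map_sum, eval_C, eval_X] at e0 e3
      rw [mul_sub, ← mul_assoc, ← e0, ← e3, Finset.sum_mul, ← Finset.sum_sub_distrib]
      refine Finset.sum_congr rfl fun j _ => ?_
      simp only [Matrix.cons_val_zero, Pi.neg_apply]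
      ring
    · have e1 := hc1 x hx
      simp only [map_prod, map_sub, map_mul, eval_C] at e1
      simp only [Fin.succ_zero_eq_one, Matrix.cons_val_one, Matrix.cons_val_zero, Pi.zero_apply,
        zero_mul, add_zero, e1, Finset.prod_eq_zero_iff, sub_eq_zero]
    · have e2 := hc2 x hx
      simp only [map_prod, map_sub, map_mul, eval_C] at e2
      simp only [Fin.succ_one_eq_two, Matrix.cons_val_two, Matrix.tail_cons, Matrix.head_cons,
        Pi.zero_apply, zero_mul, add_zero, e2, Finset.prod_eq_zero_iff, sub_eq_zero]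
  have hiff : ∀ s, P.eval s = 0 ↔ s ∈ S.image fun x => (∑ i, l i * x i) / t := fun s => by
    rw [hroot, Finset.mem_image]
    constructor
    · rintro ⟨x, hx0, hx, h1, ⟨a, ha, h2⟩, b, hb, h3⟩
      have h4 : eval x (Y 0) ≠ 0 := fun h4 => by
        rw [h4, mul_zero, mul_eq_zero_iff_left ht] at h2 h3
        have h5 : x = fun i => x 0 * (Fin.cons 1 α : Fin 4 → ℂ) i := by
          rw [hY', sub_eq_zero] at h2 h3 h4
          funext j
          fin_cases j
          · simp
          · exact h4.trans (mul_comm _ _)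
          · exact h2.trans (mul_comm _ _)
          · exact h3.trans (mul_comm _ _)
        rw [h5, eval_hom hd, mul_eq_zero_iff_right hα] at hx
        refine hx0 (h5.trans (funext fun i => ?_))
        rw [pow_eq_zero_iff'.mp hx |>.1, zero_mul, Pi.zero_apply]
      have h5 : pt ⟨(a, b), t / eval x (Y 0) * x 0⟩ = fun i => t / eval x (Y 0) * x i := by
        have h6 := hY' 0 x
        rw [hY' 1] at h2
        rw [hY' 2] at h3
        generalize eval x (Y 0) = w at h2 h3 h4 h6
        funext j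
        fin_cases j
        · rfl
        · change t + α 0 * (t / w * x 0) = t / w * x (Fin.succ 0)
          field_simp
          linear_combination h6
        · change a + α 1 * (t / w * x 0) = t / w * x (Fin.succ 1)
          field_simp
          linear_combination -h2
        · change b + α 2 * (t / w * x 0) = t / w * x (Fin.succ 2)
          field_simp
          linear_combination -h3
      refine ⟨_, Finset.mem_image.mpr ⟨⟨(a, b), t / eval x (Y 0) * x 0⟩, Finset.mem_sigma.mpr
        ⟨Finset.mem_product.mpr ⟨ha, hb⟩, ((hZ _).2 _).mpr ?_⟩, rfl⟩, ?_⟩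
      · exact (congrArg (eval · g) h5).trans (by rw [eval_hom hd, hx, mul_zero])
      · rw [mul_eq_zero_iff_left (pow_ne_zero _ h4), sub_eq_zero] at h1
        rw [h5]
        simp only [mul_left_comm (l _), ← Finset.mul_sum, h1]
        field_simp
    · rintro ⟨_, hx, rfl⟩
      obtain ⟨⟨⟨a, b⟩, s⟩, hz, rfl⟩ := Finset.mem_image.mp hx
      obtain ⟨hab, hs⟩ := Finset.mem_sigma.mp hz
      have h1 : ∀ i, eval (pt ⟨(a, b), s⟩) (Y i) = ![t, a, b] i := fun i => by
        rw [hY']
        exact add_sub_cancel_right _ _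
      refine ⟨pt ⟨(a, b), s⟩, fun h0 => ht ?_, ((hZ _).2 _).mp hs, ?_,
        ⟨a, (Finset.mem_product.mp hab).1, ?_⟩, b, (Finset.mem_product.mp hab).2, ?_⟩
      · have h2 := h1 0
        rw [h0, hY'] at h2
        simpa using h2.symm
      · rw [h1 0, Matrix.cons_val_zero, mul_div_cancel₀ _ ht, sub_self, mul_zero]
      · rw [h1, h1]
        exact mul_comm _ _
      · rw [h1, h1]
        exact mul_comm _ _
  have hP0 : P ≠ 0 := fun h0 => by
    obtain ⟨s, hs⟩ := Infinite.exists_notMem_finset (S.image fun x => (∑ i, l i * x i) / t)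
    exact hs ((hiff s).mp (by rw [h0, Polynomial.eval_zero]))
  rw [← hS, ← Finset.card_image_of_injOn (f := fun x => (∑ i, l i * x i) / t)
    fun x hx y hy e => hl hx hy ((div_left_inj' ht).mp e)]
  exact (Polynomial.card_le_degree_of_subset_roots fun s hs =>
    (Polynomial.mem_roots hP0).mpr ((hiff s).mpr hs)).trans hdeg

end BDEG

open BDEG in
theorem deg_of : St_DEG where
  uniq _ _ _ _ _ h h' := uniq h h'
  deg g d k N b R hg hd hk hb h := by
    choose e he using multi h
    refine ⟨∑ i, e i, ?_, fun a ha => ?_⟩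
    · have h1 := fun i => lower hg hd hk hb h i (he i)
      rw [Fin.sum_univ_three, mul_assoc]
      linarith [h1 0, h1 1, h1 2]
    · change (Finsupp.weight fun _ => 1) a = _
      rw [← Finsupp.degree_eq_weight_one, Finsupp.degree_eq_sum, Fintype.sum_prod_type]
      exact Finset.sum_congr rfl fun i _ => he i a (MvPolynomial.mem_support_iff.mpr ha)

end Pool.Agent.Lib.MP_a25055_ag
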