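import Pool.Agent.Lib.MP_a25055_ag.Inv

/-! A bounded complex algebraic set is finite. -/

open MvPolynomial

namespace Pool.Agent.Lib.MP_a25055_ag

namespace BFIN

variable {ι : Type} [Fintype ι]

omit [Fintype ι] in
lemma fin_of_finite (S : Set (MvPolynomial ι ℂ))
    [Module.Finite ℂ (MvPolynomial ι ℂ ⧸ Ideal.span S)] :
    {x : ι → ℂ | ∀ p ∈ S, eval x p = 0}.Finite := by
  have h : ∀ x : {x : ι → ℂ | ∀ p ∈ S, eval x p = 0}, ∀ a ∈ Ideal.span S, aeval x.1 a = 0 := by
    intro x a ha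
    have : Ideal.span S ≤ RingHom.ker (eval x.1) := Ideal.span_le.mpr fun p hp => x.2 p hp
    exact this ha
  refine Set.finite_coe_iff.mp (Finite.of_injective
    (fun x => Ideal.Quotient.liftₐ (Ideal.span S) (aeval x.1) (h x)) fun x y hxy => ?_)
  ext i
  have := DFunLike.congr_fun hxy (Ideal.Quotient.mk _ (X i))
  simpa using this

lemma exists_pt (S : Set (MvPolynomial ι ℂ)) {s : ℕ}
    (g : MvPolynomial (Fin s) ℂ →ₐ[ℂ] (MvPolynomial ι ℂ ⧸ Ideal.span S))
    (hg : Function.Injective g) (hf : g.Finite) (j : Fin s) (p : MvPolynomial ι ℂ)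
    (hp : Ideal.Quotient.mk _ p = g (X j)) (t : ℂ) :
    ∃ x : ι → ℂ, (∀ q ∈ S, eval x q = 0) ∧ eval x p = t := by
  algebraize [g.toRingHom]
  have : Module.Finite (MvPolynomial (Fin s) ℂ) (MvPolynomial ι ℂ ⧸ Ideal.span S) := hf
  have hg' : Function.Injective
    (algebraMap (MvPolynomial (Fin s) ℂ) (MvPolynomial ι ℂ ⧸ Ideal.span S)) := hg
  obtain ⟨Q, hQ, hc⟩ := Ideal.exists_ideal_over_maximal_of_isIntegral
    (S := MvPolynomial ι ℂ ⧸ Ideal.span S) (vanishingIdeal ℂ {fun _ : Fin s => t})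
    (by rw [(RingHom.injective_iff_ker_eq_bot _).mp hg']; exact bot_le)
  have hm : (Q.comap (Ideal.Quotient.mk (Ideal.span S))).IsMaximal :=
    Ideal.comap_isMaximal_of_surjective _ Ideal.Quotient.mk_surjective
  obtain ⟨x, hx⟩ := isMaximal_iff_eq_vanishingIdeal_singleton.mp hm
  refine ⟨x, fun q hq => ?_, ?_⟩
  · have : q ∈ Q.comap (Ideal.Quotient.mk (Ideal.span S)) := by
      rw [Ideal.mem_comap, Ideal.Quotient.eq_zero_iff_mem.mpr (Ideal.subset_span hq)]
      exact Q.zero_mem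
    rw [hx, mem_vanishingIdeal_singleton_iff] at this
    exact this
  · have h1 : X j - C t ∈ Q.comap (algebraMap (MvPolynomial (Fin s) ℂ) _) := by
      rw [hc, mem_vanishingIdeal_singleton_iff]; simp
    have h2 : p - C t ∈ Q.comap (Ideal.Quotient.mk (Ideal.span S)) := by
      rw [Ideal.mem_comap] at h1 ⊢
      rw [map_sub, hp]
      have : Ideal.Quotient.mk (Ideal.span S) (C t) = g (C t) := (g.commutes t).symm
      rw [this, ← map_sub]
      exact h1
    rw [hx, mem_vanishingIdeal_singleton_iff, map_sub, aeval_C, sub_eq_zero] at h2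
    exact h2

end BFIN

theorem fin_of : St_FIN := by
  intro ι _ S hb
  rcases subsingleton_or_nontrivial (MvPolynomial ι ℂ ⧸ Ideal.span S) with h | h
  · exact BFIN.fin_of_finite S
  obtain ⟨s, g, hg, hf⟩ := exists_finite_inj_algHom_of_fg ℂ (MvPolynomial ι ℂ ⧸ Ideal.span S)
  rcases s with _ | s
  · have h0 : (algebraMap ℂ (MvPolynomial (Fin 0) ℂ)).Finite :=
      RingHom.finite_algebraMap.mpr (Module.Finite.equiv (isEmptyAlgEquiv ℂ (Fin 0)).symm.toLinearEquiv)
    have h1 : (algebraMap ℂ (MvPolynomial ι ℂ ⧸ Ideal.span S)).Finite := by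
      rw [← g.comp_algebraMap]
      exact RingHom.Finite.comp hf h0
    have := RingHom.finite_algebraMap.mp h1
    exact BFIN.fin_of_finite S
  · exfalso
    obtain ⟨p, hp⟩ := Ideal.Quotient.mk_surjective (g (X 0))
    have hc := (hb.isCompact_closure.image (continuous_eval p)).isBounded
    obtain ⟨R, hR⟩ := hc.exists_norm_le
    obtain ⟨x, hx, ht⟩ := BFIN.exists_pt S g hg hf 0 p hp ((|R| + 1 : ℝ) : ℂ)
    have := hR _ ⟨x, subset_closure hx, ht⟩
    rw [Complex.norm_real, Real.norm_of_nonneg (by positivity)] at this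
    linarith [le_abs_self R]

end Pool.Agent.Lib.MP_a25055_ag
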