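import Pool.Agent.Lib.MP_a25055_ag.Glue1

open MvPolynomial Filter Topology Module

noncomputable section

namespace Pool.Agent.Lib.MP_a25055_ag

namespace BG2

lemma inj0 : Function.Injective (Prod.mk (0 : Fin 1) : Fin 4 → Fin 1 × Fin 4) :=
  fun _ _ h => (Prod.mk.inj h).2

lemma mem_lift {f : P4} {a : Fin 1 × Fin 4 →₀ ℕ} :
    a ∈ (lift4 f).support ↔ ∃ b ∈ f.support, b.mapDomain (Prod.mk 0) = a := by
  classical
  rw [lift4, support_rename_of_injective inj0, Finset.mem_image]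

lemma wt_lift (r : Fin 4 → ℝ) (b : Fin 4 →₀ ℕ) :
    wt r (b.mapDomain (Prod.mk (0 : Fin 1))) = b 0 * r 0 + b 1 * r 1 + b 2 * r 2 + b 3 * r 3 := by
  rw [wt, Fintype.sum_prod_type, Fin.sum_univ_one, Fin.sum_univ_four]
  simp only [Finsupp.mapDomain_apply inj0]

lemma deg3 {f : P4} (hf : f.IsHomogeneous 3) {a : Fin 4 →₀ ℕ} (ha : a ∈ f.support) :
    a 0 + a 1 + a 2 + a 3 = 3 := by
  by_contra h
  refine mem_support_iff.mp ha (hf.coeff_eq_zero ?_)
  rwa [Finsupp.degree_eq_sum, Fin.sum_univ_four]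

lemma det_dg {N : ℕ} {r : Fin N → ℝ} (h : ∑ j, r j = 0) : (dg r).det = 1 := by
  rw [dg, Matrix.det_diagonal, ← Complex.ofReal_prod, ← Real.exp_sum, h, Real.exp_zero,
    Complex.ofReal_one]

/-- exponent of `X0 X1 X3` -/
def m1 : Fin 4 →₀ ℕ := Finsupp.single 0 1 + Finsupp.single 1 1 + Finsupp.single 3 1

/-- exponent of `X2 ^ 3` -/
def m2 : Fin 4 →₀ ℕ := Finsupp.single 2 3

lemma f0_eq : f0 = monomial m1 1 + monomial m2 1 := by
  simp only [f0, m1, m2, X, monomial_mul, monomial_pow, mul_one, one_pow, Finsupp.smul_single,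
    smul_eq_mul]

lemma m_ne : m1 ≠ m2 := fun h => by simpa [m1, m2] using DFunLike.congr_fun h 0

lemma mem_f0 {a : Fin 4 →₀ ℕ} : a ∈ f0.support ↔ a = m1 ∨ a = m2 := by
  classical
  rw [MvPolynomial.mem_support_iff, f0_eq, coeff_add, coeff_monomial, coeff_monomial]
  by_cases h1 : m1 = a
  · subst h1; simp [m_ne.symm]
  · by_cases h2 : m2 = a
    · subst h2; simp [m_ne]
    · simp [h1, h2, Ne.symm h1, Ne.symm h2]

lemma wt_f0 {r : Fin 4 → ℝ} (h1 : r 0 + r 1 + r 3 = 0) (h2 : r 2 = 0) :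
    ∀ a ∈ (lift4 f0).support, wt r a = 0 := fun a ha => by
  obtain ⟨b, hb, rfl⟩ := mem_lift.mp ha
  rw [wt_lift]
  rcases mem_f0.mp hb with rfl | rfl
  · simpa [m1] using h1
  · simp [m2, h2]

lemma act_f0 {r : Fin 4 → ℝ} (h1 : r 0 + r 1 + r 3 = 0) (h2 : r 2 = 0) :
    act (dg r) (lift4 f0) = lift4 f0 := by
  ext a
  rw [coeff_act_dg]
  by_cases ha : a ∈ (lift4 f0).support
  · rw [wt_f0 h1 h2 a ha]; simp
  · rw [notMem_support_iff.mp ha, mul_zero]

lemma nf2_supp {f : P4} (hf : NF2 f) {a : Fin 4 →₀ ℕ} (ha : a ∈ (f - f0).support) :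
    a 3 = 0 ∧ 1 ≤ a 0 + a 1 := by
  have h1 := deg3 (hf.1.sub nf2_f0.1) ha
  have h2 := hf.2 a ha
  omega

lemma irr (f : P4) (hf : NF2 f) : Irreducible f := by
  classical
  have e : f = X 0 * X 1 * X 3 + (X 2 ^ 3 + (f - f0)) := by rw [f0]; ring
  have hc : coeff m2 (X 2 ^ 3 + (f - f0)) = 1 := by
    have : coeff m2 (f - f0) = 0 := by
      by_contra h
      have := (nf2_supp hf (mem_support_iff.mpr h)).2
      simp [m2] at this
    rw [coeff_add, this, X_pow_eq_monomial, m2, coeff_monomial, if_pos rfl, add_zero]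
  have hX : ∀ i : Fin 4, i ≠ 2 → IsRelPrime (X i : P4) (X 2 ^ 3 + (f - f0)) := fun i hi =>
    X_prime.irreducible.isRelPrime_iff_not_dvd.mpr fun ⟨q, hq⟩ => by
      rw [hq, coeff_X_mul', if_neg (by simp [m2, hi])] at hc
      exact zero_ne_one hc
  rw [e]
  refine irreducible_mul_X_add _ _ _ (mul_ne_zero (X_ne_zero _) (X_ne_zero _)) (fun h => ?_)
    (fun h => ?_) ((hX 0 (by decide)).mul_left (hX 1 (by decide)))
  · have := vars_mul _ _ h
    simp [vars_X] at this
  · rcases Finset.mem_union.mp (vars_add_subset _ _ h) with h | h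
    · have := vars_pow _ _ h
      simp [vars_X] at this
    · obtain ⟨d, hd, h⟩ := (mem_vars_iff_mem_support _).mp h
      exact Finsupp.mem_support_iff.mp h (nf2_supp hf hd).1

lemma poly0 (hP : St_POLY) : Poly (lift4 f0) := by
  refine hP (lift4 f0) ![1, 2, 0, -3] 0 (fun h => ?_) (fun i j h => ?_)
    (wt_f0 (by simp; norm_num) (by simp)) fun r hr h => ?_
  · have := mem_lift.mpr ⟨m2, mem_f0.mpr (Or.inr rfl), rfl⟩
    simp [h] at this
  · fin_cases i <;> fin_cases j <;> simp at h ⊢ <;> norm_num at h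
  · have h1 := h _ (mem_lift.mpr ⟨m1, mem_f0.mpr (Or.inl rfl), rfl⟩)
    have h2 := h _ (mem_lift.mpr ⟨m2, mem_f0.mpr (Or.inr rfl), rfl⟩)
    rw [wt_lift] at h1 h2
    rw [Fin.sum_univ_four] at hr
    have h3 : (r 0 : ℝ) + r 1 + r 2 + r 3 = 0 := by exact_mod_cast hr
    simp [m1, m2] at h1 h2
    exact wt_f0 (by linarith) (by linarith)

lemma clos0 (hI : St_INV) {f : P4} (hf : NF2 f) :
    moved (lift4 f0) 1 ∈ closure (orb (lift4 f)) := by
  refine (hI.clos _ _).mpr ⟨_, rfl, fun n => ⟨dg ![-n, -n, 0, 2 * n], det_dg (by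
    rw [Fin.sum_univ_four]; simp; ring)⟩, fun a => ?_⟩
  have e : lift4 f = lift4 f0 + lift4 (f - f0) := by
    simp only [lift4, map_sub]; ring
  have h1 : Tendsto (fun n : ℕ => coeff a (act (dg ![-n, -n, 0, 2 * n]) (lift4 (f - f0)))) atTop
      (𝓝 0) := by
    simp only [coeff_act_dg]
    by_cases ha : a ∈ (lift4 (f - f0)).support
    swap
    · simp only [notMem_support_iff.mp ha, mul_zero, tendsto_const_nhds]
    obtain ⟨b, hb, rfl⟩ := mem_lift.mp ha
    obtain ⟨h2, h3⟩ := nf2_supp hf hb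
    have h4 : (0 : ℝ) < b 0 + b 1 := by exact_mod_cast h3
    have h5 := ((Complex.continuous_ofReal.tendsto 0).comp (Real.tendsto_exp_neg_atTop_nhds_zero.comp
      (tendsto_natCast_atTop_atTop.atTop_mul_const h4))).mul_const
        (coeff (b.mapDomain (Prod.mk 0)) (lift4 (f - f0)))
    rw [Complex.ofReal_zero, zero_mul] at h5
    refine h5.congr fun n => ?_
    rw [wt_lift, h2]
    simp only [Function.comp]
    congr 3
    simp
    ring
  have h2 := (tendsto_const_nhds (x := coeff a (lift4 f0))).add h1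
  rw [add_zero] at h2
  refine h2.congr fun n => ?_
  rw [e, map_add, coeff_add, act_f0 (by simp; ring) (by simp)]

end BG2

open BG2 in
theorem g2_of (hI : St_INV) (hN : St_NULL) (hP : St_POLY) : St_G2 where
  unst f hf := fun ⟨w, hw⟩ => by
    refine hN.neg _ (fun j => (w 0 + w 1 + w 2 + w 3 : ℝ) - 4 * w j)
      (by rw [Fin.sum_univ_four]; ring) fun a ha => ?_
    obtain ⟨b, hb, rfl⟩ := mem_lift.mp ha
    have h1 := hw b hb
    rw [Fin.sum_univ_four, Fin.sum_univ_four] at h1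
    have h2 : (3 : ℝ) * (w 0 + w 1 + w 2 + w 3) <
        4 * (b 0 * w 0 + b 1 * w 1 + b 2 * w 2 + b 3 * w 3) := by exact_mod_cast h1
    have h3 : (b 0 : ℝ) + b 1 + b 2 + b 3 = 3 := by exact_mod_cast deg3 hf hb
    rw [wt_lift]
    linear_combination h2 + (w 0 + w 1 + w 2 + w 3 : ℝ) * h3
  irr := irr
  poly0 := poly0 hP
  nstab0 h := by
    refine Set.infinite_of_injective_forall_mem (f := fun t : ℝ =>
      (⟨dg ![t, -t, 0, 0], det_dg (by rw [Fin.sum_univ_four]; simp)⟩ : SL 4))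
      (fun s t e => ?_) (fun t => ?_) h.2
    · have := congrArg (fun g : SL 4 => (g : Mat 4) 0 0) e
      simpa [dg, -Complex.ofReal_exp] using this
    · change moved _ (dg _) = _
      rw [moved_eq, act_f0 (by simp) (by simp)]
  semi f hf := hN.lim _ _ (clos0 hI hf) (hI.semi _ (poly0 hP))
  eq0 f hf hp := by
    have h := clos0 hI hf
    rw [hp.2.closure_eq] at h
    obtain ⟨g, hg⟩ := h
    refine ⟨g, by simp, rename_injective _ inj0 ?_⟩
    change lift4 _ = lift4 _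
    rw [lift4_sub4]
    exact moved_inj (by rw [← moved_eq]; exact hg)

end Pool.Agent.Lib.MP_a25055_ag
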