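import Pool.Agent.Lib.MP_a25055_ag.BZP

/-! Block HF: Hilbert functions of surfaces in projective three-space. -/

open MvPolynomial Filter Topology Module

noncomputable section

namespace Pool.Agent.Lib.MP_a25055_ag

namespace BHF

lemma rank_hom (m : ℕ) : finrank ℂ (homogeneousSubmodule (Fin 4) ℂ m) = (m + 3).choose 3 := by
  have h1 : finrank ℂ (homogeneousSubmodule (Fin 4) ℂ m) =
      Nat.card {d : Fin 4 →₀ ℕ | d.degree = m} := by
    rw [homogeneousSubmodule_eq_finsupp_supported]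
    exact finrank_eq_nat_card_basis (basisRestrictSupport ℂ {d : Fin 4 →₀ ℕ | d.degree = m})
  have h2 : {d : Fin 4 →₀ ℕ | d.degree = m} =
      ↑(Finset.finsuppAntidiag (Finset.univ : Finset (Fin 4)) m) := by
    ext d
    simp [Finsupp.degree_eq_sum]
  rw [h1, h2, Nat.card_coe_set_eq, Set.ncard_coe_finset, Finset.card_finsuppAntidiag_nat_eq_choose,
    Finset.card_univ, Fintype.card_fin, show 4 + m - 1 = m + 3 by omega, Nat.choose_symm_add]

lemma rank_add (g : P4) (D : ℕ) : finrank ℂ (degQ g D) +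
    finrank ℂ ↥(homogeneousSubmodule (Fin 4) ℂ D ⊓ LinearMap.ker (mk4 g).toLinearMap) =
      (D + 3).choose 3 := by
  have : Module.Finite ℂ (homogeneousSubmodule (Fin 4) ℂ D) :=
    Module.Finite.iff_fg.2 (homogeneousSubmodule_fg (Fin 4) ℂ D)
  have h := LinearMap.finrank_range_add_finrank_ker
    ((mk4 g).toLinearMap.domRestrict (homogeneousSubmodule (Fin 4) ℂ D))
  rw [LinearMap.range_domRestrict, LinearMap.ker_domRestrict, rank_hom,
    ← Submodule.finrank_map_subtype_eq (homogeneousSubmodule (Fin 4) ℂ D),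
    Submodule.map_comap_subtype] at h
  exact h

lemma mk_eq_zero {g p : P4} : mk4 g p = 0 ↔ g ∣ p := by
  rw [← Ideal.mem_span_singleton]
  exact Ideal.Quotient.eq_zero_iff_mem

lemma inf_elem {g p : P4} {d D : ℕ} (hg : g.IsHomogeneous d)
    (hp : p ∈ homogeneousSubmodule (Fin 4) ℂ D ⊓ LinearMap.ker (mk4 g).toLinearMap) :
    ∃ a, p = if d ≤ D then homogeneousComponent (D - d) a * g else 0 := by
  obtain ⟨a, ha⟩ := mk_eq_zero.1 hp.2
  refine ⟨a, ?_⟩
  rw [← BZP.comp_mul a g hg D, mul_comm, ← ha, homogeneousComponent_of_mem hp.1, if_pos rfl]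

lemma rank (g : P4) (d m : ℕ) (h0 : g ≠ 0) (hg : g.IsHomogeneous d) :
    finrank ℂ (degQ g (m + d)) + (m + 3).choose 3 = (m + d + 3).choose 3 := by
  have e : homogeneousSubmodule (Fin 4) ℂ (m + d) ⊓ LinearMap.ker (mk4 g).toLinearMap =
      (homogeneousSubmodule (Fin 4) ℂ m).map (LinearMap.mulRight ℂ g) := by
    apply le_antisymm
    · intro p hp
      obtain ⟨a, ha⟩ := inf_elem hg hp
      rw [if_pos (by omega), Nat.add_sub_cancel] at ha
      exact ⟨_, homogeneousComponent_mem m a, ha.symm⟩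
    · rintro _ ⟨a, ha, rfl⟩
      exact ⟨IsHomogeneous.mul ha hg, mk_eq_zero.2 (dvd_mul_left g a)⟩
  rw [← rank_add g (m + d), e, ← rank_hom m]
  congr 1
  exact (Submodule.equivMapOfInjective (LinearMap.mulRight ℂ g)
    (fun a b h => mul_right_cancel₀ h0 h) _).finrank_eq

lemma small (g : P4) (d m : ℕ) (hg : g.IsHomogeneous d) (h : m < d) :
    finrank ℂ (degQ g m) = (m + 3).choose 3 := by
  have e : homogeneousSubmodule (Fin 4) ℂ m ⊓ LinearMap.ker (mk4 g).toLinearMap = ⊥ := by
    rw [eq_bot_iff]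
    intro p hp
    obtain ⟨a, ha⟩ := inf_elem hg hp
    rwa [if_neg (by omega)] at ha
  rw [← rank_add g m, e, finrank_bot, add_zero]

lemma span_eq {g : P4} {k N : ℕ} {b : Fin N → P4} (hb : Spans g k b) :
    Submodule.span ℂ (Set.range fun j => mk4 g (b j)) = degQ g k := by
  apply le_antisymm
  · rw [Submodule.span_le]
    rintro _ ⟨j, rfl⟩
    exact BZP.mk_mem (hb.1 j)
  · rintro _ ⟨p, hp, rfl⟩
    obtain ⟨c, hc⟩ := hb.2 p hp
    have := mk_eq_zero.2 hc
    rw [map_sub, sub_eq_zero, map_sum] at this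
    change mk4 g p ∈ _
    rw [this]
    refine Submodule.sum_mem _ fun j _ => ?_
    rw [map_smul]
    exact Submodule.smul_mem _ _ (Submodule.subset_span ⟨j, rfl⟩)

lemma fil_zero {A : Type} [CommRing A] [Algebra ℂ A] {N : ℕ} (b : Fin N → A) (n : ℕ) :
    Fil b 0 n 0 = Submodule.span ℂ (Set.range b) ^ n := by
  rw [Submodule.span_pow, Fil]
  congr 1
  ext y
  rw [Set.mem_pow]
  constructor
  · rintro ⟨j, -, rfl⟩
    exact ⟨fun l => ⟨b (j l), j l, rfl⟩, List.prod_ofFn⟩
  · rintro ⟨f, rfl⟩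
    choose j hj using fun l => (f l).2
    exact ⟨j, Nat.zero_le _, by simp only [List.prod_ofFn, hj]⟩

lemma pow {g : P4} {k N : ℕ} {b : Fin N → P4} (hb : Spans g k b) (n : ℕ) :
    Submodule.span ℂ (Set.range fun j => mk4 g (b j)) ^ n = degQ g (n * k) := by
  rw [span_eq hb, BZP.degQ_pow g k, BZP.degQ_pow g (n * k)]
  exact (pow_mul' (degQ g 1) n k).symm

lemma rank_basis {f : P4} {k N : ℕ} {b : Fin N → P4} (hb : IsBasisMod f k b) :
    finrank ℂ (degQ f k) = N := by
  rw [← span_eq ⟨hb.1, hb.2.2⟩, finrank_span_eq_card, Fintype.card_fin]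
  rw [Fintype.linearIndependent_iff]
  intro c hc j
  refine congrFun (hb.2.1 c (mk_eq_zero.1 ?_)) j
  rw [← hc, map_sum]
  exact Finset.sum_congr rfl fun j _ => map_smul _ _ _

lemma six_choose (n : ℕ) : 6 * (n + 3).choose 3 = (n + 1) * (n + 2) * (n + 3) := by
  have := Nat.descFactorial_eq_factorial_mul_choose (n + 3) 3
  simp only [Nat.descFactorial_succ, Nat.descFactorial_zero, Nat.factorial] at this
  rw [show n + 3 - 2 = n + 1 by omega, show n + 3 - 1 = n + 2 by omega, Nat.sub_zero] at this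
  linarith

lemma asym (w : ℕ → ℕ) (e : ℤ) (h : Dif3 w e) :
    Tendsto (fun n : ℕ => (w n : ℝ) / n ^ 3) atTop (𝓝 (e / 6)) := by
  obtain ⟨n0, h⟩ := h
  let Q : ℝ → ℝ := fun x => (w n0 : ℝ) + ((w (n0 + 1) : ℝ) - w n0) * x +
    ((w (n0 + 2) : ℝ) - 2 * w (n0 + 1) + w n0) * (x * (x - 1)) / 2 +
      e * (x * (x - 1) * (x - 2)) / 6
  have key : ∀ m : ℕ, (w (n0 + m) : ℝ) = Q m ∧ (w (n0 + m + 1) : ℝ) = Q (m + 1) ∧
      (w (n0 + m + 2) : ℝ) = Q (m + 2) := by
    intro m
    induction m with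
    | zero =>
      simp only [Q, add_zero, Nat.cast_zero, zero_add]
      refine ⟨by ring, by ring, by ring⟩
    | succ m ih =>
      obtain ⟨i0, i1, i2⟩ := ih
      have h3 : (w (n0 + m + 3) : ℝ) - 3 * w (n0 + m + 2) + 3 * w (n0 + m + 1) - w (n0 + m) = e := by
        exact_mod_cast h (n0 + m) (by omega)
      push_cast
      refine ⟨i1, by rw [add_assoc (m : ℝ), one_add_one_eq_two]; exact i2, ?_⟩
      rw [i0, i1, i2] at h3
      change (w (n0 + m + 3) : ℝ) = _
      simp only [Q] at h3 ⊢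
      linear_combination h3
  let G : ℝ → ℝ := fun u => (w n0 : ℝ) * u ^ 3 + ((w (n0 + 1) : ℝ) - w n0) * (1 - n0 * u) * u ^ 2 +
    ((w (n0 + 2) : ℝ) - 2 * w (n0 + 1) + w n0) * ((1 - n0 * u) * (1 - (n0 + 1) * u)) * u / 2 +
      e * ((1 - n0 * u) * (1 - (n0 + 1) * u) * (1 - (n0 + 2) * u)) / 6
  have hG : Continuous G := by fun_prop
  have t := (hG.tendsto 0).comp tendsto_inv_atTop_nhds_zero_nat
  have e0 : G 0 = e / 6 := by simp [G]
  rw [e0] at t
  refine t.congr' ?_
  filter_upwards [eventually_ge_atTop (n0 + 1)] with n hn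
  obtain ⟨m, rfl⟩ := Nat.exists_eq_add_of_le (show n0 ≤ n by omega)
  have hn0 : ((n0 + m : ℕ) : ℝ) ≠ 0 := by
    have : 0 < n0 + m := by omega
    positivity
  rw [(key m).1]
  simp only [Function.comp, G, Q]
  push_cast at hn0 ⊢
  field_simp
  ring

/-- the grading as a polynomial -/
def gr : P4 →ₐ[ℂ] Polynomial P4 := aeval fun i => Polynomial.C (X i) * Polynomial.X

lemma gr_mono (s : Fin 4 →₀ ℕ) (c : ℂ) :
    gr (monomial s c) = Polynomial.monomial s.degree (monomial s c) := by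
  rw [gr, aeval_monomial, monomial_eq, Finsupp.prod_fintype _ _ (by simp),
    Finsupp.prod_fintype _ _ (by simp), ← Polynomial.C_mul_X_pow_eq_monomial,
    Finsupp.degree_eq_sum]
  simp only [mul_pow, Finset.prod_mul_distrib, Finset.prod_pow_eq_pow_sum, map_mul, map_prod,
    map_pow, Polynomial.algebraMap_apply, algebraMap_eq, mul_assoc]

lemma gr_coeff (p : P4) (n : ℕ) : (gr p).coeff n = homogeneousComponent n p := by
  induction p using MvPolynomial.induction_on' with
  | monomial s c =>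
    rw [gr_mono, Polynomial.coeff_monomial,
      homogeneousComponent_of_mem (isHomogeneous_monomial c rfl)]
    simp only [eq_comm]
  | add p q hp hq => rw [map_add, Polynomial.coeff_add, hp, hq, map_add]

lemma gr_ne {p : P4} {a : Fin 4 →₀ ℕ} (h : coeff a p ≠ 0) : (gr p).coeff a.degree ≠ 0 := by
  intro e
  rw [gr_coeff] at e
  have := congrArg (coeff a) e
  rw [coeff_homogeneousComponent, if_pos rfl, coeff_zero] at this
  exact h this

lemma fac (f g : P4) (d : ℕ) (h0 : f ≠ 0) (hf : f.IsHomogeneous d) (hg : g ∣ f) :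
    ∃ e, g.IsHomogeneous e := by
  obtain ⟨h, rfl⟩ := hg
  have e : gr g * gr h = Polynomial.monomial d (g * h) := by
    rw [← map_mul]
    ext1 n
    rw [gr_coeff, homogeneousComponent_of_mem hf, Polynomial.coeff_monomial]
    simp only [eq_comm]
  have n0 : gr g * gr h ≠ 0 := by
    rw [e]
    exact fun h => h0 ((Polynomial.monomial_eq_zero_iff _ _).1 h)
  have d1 := Polynomial.natDegree_mul (left_ne_zero_of_mul n0) (right_ne_zero_of_mul n0)
  have d2 := Polynomial.natTrailingDegree_mul (left_ne_zero_of_mul n0) (right_ne_zero_of_mul n0)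
  rw [e, Polynomial.natDegree_monomial_eq _ h0] at d1
  rw [e, Polynomial.natTrailingDegree_monomial h0] at d2
  have l1 := Polynomial.natTrailingDegree_le_natDegree (gr g)
  have l2 := Polynomial.natTrailingDegree_le_natDegree (gr h)
  refine ⟨(gr g).natDegree, fun a ha => ?_⟩
  have l3 := Polynomial.le_natDegree_of_ne_zero (gr_ne ha)
  have l4 := Polynomial.natTrailingDegree_le_of_ne_zero (gr_ne ha)
  have l5 : Finsupp.degree a = Finsupp.weight 1 a := by
    rw [Finsupp.degree_eq_weight_one]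
    rfl
  omega

end BHF

theorem hf_of : St_HF where
  rank := BHF.rank
  small g d m _ := BHF.small g d m
  pow _ _ _ _ hb n := ⟨BHF.pow hb n, (BHF.fil_zero _ n).trans (BHF.pow hb n)⟩
  card f k N b h0 hf hk hb := by
    have h := BHF.rank_basis hb
    rcases lt_or_ge k 3 with h3 | h3
    · rw [BHF.small f 3 k hf h3] at h
      subst h
      interval_cases k <;> decide
    · obtain ⟨m, rfl⟩ := Nat.exists_eq_add_of_le' h3
      have h1 := BHF.rank f 3 m h0 hf
      have h2 := BHF.six_choose m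
      have h4 := BHF.six_choose (m + 3)
      rw [h] at h1
      nlinarith
  asym := BHF.asym
  fac := BHF.fac

end Pool.Agent.Lib.MP_a25055_ag
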