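import Pool.Agent.Lib.MP_a25055_ag.BINV

/-! Block HM: the Hilbert-Mumford criterion for stability. -/

open MvPolynomial Filter Topology

noncomputable section

namespace Pool.Agent.Lib.MP_a25055_ag

namespace BHM

variable {m N : ℕ}

lemma cont_coeff (p : PP m N) : ∀ a, Continuous fun g : Mat N => coeff a (act g p) := by
  classical
  induction p using MvPolynomial.induction_on with
  | C c => intro a; simp only [act, aeval_C]; exact continuous_const
  | add p q hp hq => intro a; simp only [map_add, coeff_add]; exact (hp a).add (hq a)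
  | mul_X p c hp =>
    intro a
    have : ∀ g : Mat N, coeff a (act g (p * X c)) =
        ∑ l, g l c.2 * coeff a (act g p * X (c.1, l)) := fun g => by
      rw [map_mul]
      conv_lhs => rw [act, aeval_X, ← act, Finset.mul_sum, coeff_sum]
      exact Finset.sum_congr rfl fun l _ => by rw [mul_left_comm, coeff_C_mul]
    simp only [this, coeff_mul_X']
    refine continuous_finsetSum _ fun l _ => (continuous_apply_apply l c.2).mul ?_
    split_ifs
    · exact hp _
    · exact continuous_const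

lemma tendsto_act {d : ℕ} {g : ℕ → Mat N} {g0 : Mat N} {q : ℕ → PP m N} {q0 : PP m N}
    (hg : Tendsto g atTop (𝓝 g0)) (hd : ∀ n, (q n).totalDegree ≤ d)
    (hq : ∀ a, Tendsto (fun n => coeff a (q n)) atTop (𝓝 (coeff a q0))) (a : Fin m × Fin N →₀ ℕ) :
    Tendsto (fun n => coeff a (act (g n) (q n))) atTop (𝓝 (coeff a (act g0 q0))) := by
  classical
  let S := (Finsupp.finite_of_degree_le (σ := Fin m × Fin N) d).toFinset
  have hS : ∀ n, ∀ b ∉ S, coeff b (q n) = 0 := fun n b hb => by
    apply coeff_eq_zero_of_totalDegree_lt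
    refine lt_of_le_of_lt (hd n) ?_
    simpa [S, Finsupp.degree_apply] using hb
  have h0 : ∀ b ∉ S, coeff b q0 = 0 := fun b hb => by
    have := hq b
    simp only [hS _ b hb] at this
    exact tendsto_nhds_unique this tendsto_const_nhds
  have key : ∀ (M : Mat N) (r : PP m N), (∀ b ∉ S, coeff b r = 0) →
      coeff a (act M r) = ∑ b ∈ S, coeff b r * coeff a (act M (monomial b 1)) := by
    intro M r hr
    have e : r = ∑ b ∈ S, coeff b r • monomial b (1 : ℂ) := by
      conv_lhs => rw [r.as_sum]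
      simp only [smul_monomial, smul_eq_mul, mul_one]
      refine Finset.sum_subset (fun b hb => ?_) fun b _ hb => ?_
      · by_contra h; exact mem_support_iff.1 hb (hr b h)
      · rw [notMem_support_iff.1 hb, map_zero]
    conv_lhs => rw [e]
    simp only [map_sum, map_smul, coeff_sum, coeff_smul, smul_eq_mul]
  simp only [key _ _ (hS _), key _ _ h0]
  exact tendsto_finsetSum _ fun b _ => (hq b).mul (((cont_coeff _ a).tendsto g0).comp hg)

lemma wt_eq (r : Fin N → ℝ) (a : Fin m × Fin N →₀ ℕ) :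
    wt r a = ∑ j, (((∑ i, (a (i, j) : ℤ) : ℤ)) : ℝ) * r j := by
  rw [wt, Fintype.sum_prod_type_right]
  refine Finset.sum_congr rfl fun j _ => ?_
  push_cast
  rw [Finset.sum_mul]

lemma real_wt (hR : St_RAT) (q : PP m N)
    (h : ∀ r : Fin N → ℤ, ∑ j, r j = 0 → r ≠ 0 → ∃ a ∈ q.support, 0 < wt (fun j => (r j : ℝ)) a)
    (r : Fin N → ℝ) (h0 : ∑ j, r j = 0) (h1 : r ≠ 0) : ∃ a ∈ q.support, 0 < wt r a := by
  classical
  obtain ⟨j0, hj⟩ := Function.ne_iff.1 h1
  obtain ⟨r', hr⟩ := hR N (insert (fun _ => 1) (insert (Pi.single j0 1)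
    (q.support.image fun a j => ∑ i, (a (i, j) : ℤ)))) r
  have e1 := hr (fun _ => 1) (by simp)
  have e2 := hr (Pi.single j0 1) (by simp)
  simp only [one_mul, Int.cast_one, h0, sign_zero, sign_eq_zero_iff] at e1
  have e3 : r' j0 ≠ 0 := by
    intro h2
    simp only [Pi.single_apply, ite_mul, one_mul, zero_mul, Finset.sum_ite_eq', Finset.mem_univ,
      if_true, h2, sign_zero, Int.cast_ite, Int.cast_one, Int.cast_zero] at e2
    exact hj (sign_eq_zero_iff.1 e2.symm)
  obtain ⟨a, ha, h2⟩ := h r' e1 fun h3 => e3 (congrFun h3 j0)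
  refine ⟨a, ha, ?_⟩
  have e4 := hr _ (Finset.mem_insert_of_mem (Finset.mem_insert_of_mem (Finset.mem_image_of_mem _ ha)))
  rw [wt_eq] at h2 ⊢
  rw [← sign_eq_one_iff, ← e4, sign_eq_one_iff]
  exact_mod_cast h2

/-- Matrices with entries in the unit disc. -/
def K (N : ℕ) : Set (Mat N) := Set.univ.pi fun _ => Set.univ.pi fun _ => Metric.closedBall 0 1

lemma K_compact : IsCompact (K N) :=
  isCompact_univ_pi fun _ => isCompact_univ_pi fun _ => isCompact_closedBall 0 1

lemma mem_K {u : Mat N} (h : u ∈ Matrix.unitaryGroup (Fin N) ℂ) : u ∈ K N := fun i _ j _ => by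
  simpa using entry_norm_bound_of_unitary h i j

lemma det_lim {g : ℕ → SL N} {g0 : Mat N} (h : Tendsto (fun n => (g n : Mat N)) atTop (𝓝 g0)) :
    g0.det = 1 := by
  have := ((continuous_id.matrix_det).tendsto g0).comp h
  simp only [Function.comp_def, id, Matrix.SpecialLinearGroup.det_coe] at this
  exact tendsto_nhds_unique this tendsto_const_nhds

lemma cont_dg : Continuous (dg : (Fin N → ℝ) → Mat N) :=
  Continuous.matrix_diagonal (continuous_pi fun j =>
    Complex.continuous_ofReal.comp (Real.continuous_exp.comp (continuous_apply j)))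

lemma cont_wt (a : Fin m × Fin N →₀ ℕ) : Continuous fun r : Fin N → ℝ => wt r a :=
  continuous_finsetSum _ fun c _ => continuous_const.mul (continuous_apply c.2)

lemma wt_smul (t : ℝ) (r : Fin N → ℝ) (a : Fin m × Fin N →₀ ℕ) : wt (t • r) a = t * wt r a := by
  simp only [wt, Pi.smul_apply, smul_eq_mul, Finset.mul_sum]
  exact Finset.sum_congr rfl fun c _ => by ring

lemma proper (hS : St_SVD) (p q : PP m N)
    (h : ∀ (g : SL N) (r : Fin N → ℝ), ∑ j, r j = 0 → r ≠ 0 →
      ∃ a ∈ (act (g : Mat N) p).support, 0 < wt r a) (g : ℕ → SL N)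
    (hg : ∀ a, Tendsto (fun n => coeff a (act (g n : Mat N) p)) atTop (𝓝 (coeff a q))) :
    ∃ (g0 : Mat N) (φ : ℕ → ℕ), StrictMono φ ∧
      Tendsto (fun n => (g (φ n) : Mat N)) atTop (𝓝 g0) := by
  have : FirstCountableTopology (Mat N) :=
    inferInstanceAs (FirstCountableTopology (Fin N → Fin N → ℂ))
  choose u v r hu hv hr e using fun n => hS N (g n)
  by_cases hb : ∃ C : ℝ, ∃ᶠ n in atTop, ‖r n‖ ≤ C
  · obtain ⟨C, hC⟩ := hb
    obtain ⟨⟨u0, v0, r0⟩, -, φ, hφ, t⟩ := (K_compact.prod (K_compact.prod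
      (isCompact_closedBall (0 : Fin N → ℝ) C))).tendsto_subseq'
      (x := fun n => ((u n : Mat N), (v n : Mat N), r n))
      (hC.mono fun n hn => ⟨mem_K (hu n), mem_K (hv n), by simpa using hn⟩)
    refine ⟨u0 * dg r0 * v0, φ, hφ, ?_⟩
    simp only [e]
    exact (t.fst_nhds.mul ((cont_dg.tendsto r0).comp t.snd_nhds.snd_nhds)).mul t.snd_nhds.fst_nhds
  exfalso
  have t0 : Tendsto (fun n => ‖r n‖) atTop atTop := by
    rw [tendsto_atTop]
    intro C
    by_contra hC
    exact hb ⟨C, (not_eventually.1 hC).mono fun n hn => (not_le.1 hn).le⟩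
  have hne : ∀ᶠ n in atTop, 0 < ‖r n‖ := t0.eventually_gt_atTop 0
  obtain ⟨⟨u0, v0, r0⟩, ⟨-, -, h1⟩, φ, hφ, t⟩ := (K_compact.prod (K_compact.prod
    (isCompact_sphere (0 : Fin N → ℝ) 1))).tendsto_subseq'
    (x := fun n => ((u n : Mat N), (v n : Mat N), ‖r n‖⁻¹ • r n))
    (hne.mono fun n hn => ⟨mem_K (hu n), mem_K (hv n), by
      simp [norm_smul, inv_mul_cancel₀ hn.ne']⟩).frequently
  have tu : Tendsto (fun n => (u (φ n) : Mat N)) atTop (𝓝 u0) := t.fst_nhds
  have tv : Tendsto (fun n => (v (φ n) : Mat N)) atTop (𝓝 v0) := t.snd_nhds.fst_nhds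
  have tr : Tendsto (fun n => ‖r (φ n)‖⁻¹ • r (φ n)) atTop (𝓝 r0) := t.snd_nhds.snd_nhds
  have s0 : ∑ j, r0 j = 0 := by
    have := ((continuous_finsetSum Finset.univ fun j _ =>
      continuous_apply (A := fun _ : Fin N => ℝ) j).tendsto r0).comp tr
    simp only [Function.comp_def, Pi.smul_apply, smul_eq_mul, ← Finset.mul_sum, hr, mul_zero] at this
    exact tendsto_nhds_unique this tendsto_const_nhds
  have n0 : r0 ≠ 0 := by rintro rfl; simp at h1
  obtain ⟨a, ha, hw⟩ := h ⟨v0, det_lim tv⟩ r0 s0 n0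
  have c0 : coeff a (act v0 p) ≠ 0 := mem_support_iff.1 ha
  have t1 := tendsto_act (continuous_star.tendsto u0 |>.comp tu)
    (fun n => BINV.totalDegree_act (g (φ n) : Mat N) p) (fun b => (hg b).comp hφ.tendsto_atTop) a
  have e1 : ∀ n, coeff a (act (star (u n : Mat N)) (act (g n : Mat N) p)) =
      (Real.exp (wt (r n) a) : ℂ) * coeff a (act (v n : Mat N) p) := fun n => by
    rw [act_act, e, ← mul_assoc, ← mul_assoc, Matrix.mem_unitaryGroup_iff'.1 (hu n), one_mul,
      ← act_act, coeff_act_dg]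
  simp only [Function.comp_def, e1] at t1
  have t2 := ((cont_coeff p a).tendsto v0).comp tv
  have t3 := (t1.div t2 c0).norm
  have t4 : Tendsto (fun n => wt (r (φ n)) a) atTop atTop := by
    have := (t0.comp hφ.tendsto_atTop).atTop_mul_pos hw (((cont_wt a).tendsto r0).comp tr)
    refine this.congr' ?_
    filter_upwards [hφ.tendsto_atTop.eventually hne] with n hn
    simp only [Function.comp_def, wt_smul]
    rw [← mul_assoc, mul_inv_cancel₀ hn.ne', one_mul]
  refine not_tendsto_atTop_of_tendsto_nhds t3 ((Real.tendsto_exp_atTop.comp t4).congr' ?_)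
  filter_upwards [t2.eventually_ne c0] with n hn
  simp only [Function.comp_def, Pi.div_apply] at hn ⊢
  rw [mul_div_cancel_right₀ _ hn, Complex.norm_real, Real.norm_of_nonneg (Real.exp_pos _).le]

end BHM

theorem hm_of (hI : St_INV) (hS : St_SVD) (hR : St_RAT) (hF : St_FIN) : St_HM := by
  intro m N p hp h
  have hP := fun q => BHM.proper hS p q fun g => BHM.real_wt hR _ (h g)
  refine ⟨⟨hp, ?_⟩, ?_⟩
  · refine isClosed_of_closure_subset fun F hF => ?_
    obtain ⟨q, rfl, g, hg⟩ := (hI.clos p F).1 hF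
    obtain ⟨g0, φ, hφ, t⟩ := hP q g hg
    refine ⟨⟨g0, BHM.det_lim t⟩, ?_⟩
    have : act g0 p = q := by
      ext a
      exact tendsto_nhds_unique (((BHM.cont_coeff p a).tendsto g0).comp t)
        ((hg a).comp hφ.tendsto_atTop)
    change moved p g0 = _
    rw [moved_eq, this]
  · let S : Set (MvPolynomial (Fin N × Fin N) ℂ) :=
      insert ((Matrix.of fun i j => X (i, j)).det - 1) (Set.range fun H : Fin m × Fin N → ℂ =>
        aeval (fun a : Fin m × Fin N => ∑ l, C (H (a.1, l)) * X (l, a.2)) p - C (eval H p))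
    have hZ : ∀ x : Fin N × Fin N → ℂ, (∀ f ∈ S, eval x f = 0) ↔
        (Matrix.of fun i j => x (i, j)).det = 1 ∧
          moved p (Matrix.of fun i j => x (i, j)) = moved p 1 := by
      intro x
      have e1 : eval x (Matrix.of fun i j => X (i, j)).det = (Matrix.of fun i j => x (i, j)).det := by
        rw [RingHom.map_det]; congr 1; ext i j; simp
      have e2 : ∀ H : Fin m × Fin N → ℂ,
          eval x (aeval (fun a : Fin m × Fin N => ∑ l, C (H (a.1, l)) * X (l, a.2)) p) =
            moved p (Matrix.of fun i j => x (i, j)) H := fun H => by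
        rw [moved, ← aeval_eq_eval, ← aeval_eq_eval, ← AlgHom.comp_apply, comp_aeval]
        simp
      simp only [S, Set.forall_mem_insert, Set.forall_mem_range, map_sub, map_one, e1, e2, eval_C,
        sub_eq_zero, moved_one, funext_iff]
    have hB : Bornology.IsBounded {x : Fin N × Fin N → ℂ | ∀ f ∈ S, eval x f = 0} := by
      rw [isBounded_iff_forall_norm_le]
      by_contra hc
      push Not at hc
      choose x hx hn using fun n : ℕ => hc n
      let g : ℕ → SL N := fun n => ⟨Matrix.of fun i j => x n (i, j), ((hZ _).1 (hx n)).1⟩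
      have hg : ∀ n, act (g n : Mat N) p = p := fun n =>
        moved_inj ((moved_eq p _).symm.trans ((hZ _).1 (hx n)).2)
      obtain ⟨g0, φ, hφ, t⟩ := hP p g fun a => by simp only [hg]; exact tendsto_const_nhds
      have t1 : Tendsto (fun n => x (φ n)) atTop (𝓝 fun c => g0 c.1 c.2) :=
        tendsto_pi_nhds.2 fun c => ((continuous_apply_apply c.1 c.2).tendsto g0).comp t
      refine not_tendsto_atTop_of_tendsto_nhds t1.norm ?_
      exact tendsto_atTop_mono (fun n => (hn (φ n)).le)
        (tendsto_natCast_atTop_atTop.comp hφ.tendsto_atTop)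
    refine Set.Finite.of_finite_image (f := fun (g : SL N) (c : Fin N × Fin N) => (g : Mat N) c.1 c.2)
      ((hF _ S hB).subset ?_) fun g _ g' _ e => ?_
    · rintro _ ⟨g, hg, rfl⟩
      exact (hZ _).2 ⟨g.det_coe, hg⟩
    · exact Subtype.ext (Matrix.ext fun i j => congrFun e (i, j))

end Pool.Agent.Lib.MP_a25055_ag
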