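import Pool.Agent.Lib.MP_a25055_ag.Inv

/-! Block HS: three elements suffice when the growth is quadratic. -/

open MvPolynomial Module Submodule

noncomputable section

namespace Pool.Agent.Lib.MP_a25055_ag

namespace BHS

lemma exists_ne {t : ℕ} (g : (Fin 3 → Fin (t + 1)) → ℂ) (x0 : Fin 3 → Fin (t + 1))
    (h : g x0 ≠ 0) : ∃ a : Fin 3 → ℂ, ∑ x, g x * ∏ i, a i ^ (x i : ℕ) ≠ 0 := by
  classical
  by_contra hc
  push Not at hc
  let f : (Fin 3 → Fin (t + 1)) → Fin 3 →₀ ℕ := fun x =>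
    Finsupp.equivFunOnFinite.symm fun i => (x i : ℕ)
  have hf : Function.Injective f := fun x y hxy => funext fun i =>
    Fin.ext (DFunLike.congr_fun hxy i)
  have h1 : (∑ x, monomial (f x) (g x) : MvPolynomial (Fin 3) ℂ) = 0 :=
    MvPolynomial.funext fun a => by
      rw [map_sum, map_zero, ← hc a]
      refine Finset.sum_congr rfl fun x _ => ?_
      rw [eval_monomial, Finsupp.prod_fintype _ _ (by simp)]
      rfl
  have h2 := congrArg (coeff (f x0)) h1
  simp only [coeff_sum, coeff_monomial, hf.eq_iff, Finset.sum_ite_eq', Finset.mem_univ, if_true,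
    coeff_zero] at h2
  exact h h2

variable {C : Type} [CommRing C] [Algebra ℂ C]

lemma sup_pow_le (A B : Submodule ℂ C) (n : ℕ) :
    (A ⊔ B) ^ (n + 1) ≤ A * (A ⊔ B) ^ n ⊔ B ^ (n + 1) := by
  induction n with
  | zero => simp
  | succ n ih =>
    rw [pow_succ]
    refine (mul_le_mul' ih le_rfl).trans ?_
    rw [Submodule.sup_mul, mul_assoc, ← pow_succ, Submodule.mul_sup, ← pow_succ]
    refine sup_le le_sup_left (sup_le (le_sup_of_le_left ?_) le_sup_right)
    rw [mul_comm]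
    exact mul_le_mul' le_rfl (pow_le_pow_left' le_sup_right _)

/-- `x` is congruent to a multiple of a power of `u`. -/
def Rel (A W : Submodule ℂ C) (u : C) (n : ℕ) (x : C) (c : ℂ) : Prop :=
  x ∈ W ^ n ∧ u * x - c • u ^ (n + 1) ∈ A * W ^ n

lemma Rel.mul {A W : Submodule ℂ C} {u : C} (hu : u ∈ W) {n n' : ℕ} {x x' : C} {c c' : ℂ}
    (h : Rel A W u n x c) (h' : Rel A W u n' x' c') : Rel A W u (n + n') (x * x') (c * c') := by
  refine ⟨pow_add W n n' ▸ mul_mem_mul h.1 h'.1, ?_⟩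
  have a1 : (u * x - c • u ^ (n + 1)) * x' ∈ A * W ^ (n + n') := by
    rw [pow_add W, ← mul_assoc]; exact mul_mem_mul h.2 h'.1
  have a2 : (u * x' - c' • u ^ (n' + 1)) * u ^ n ∈ A * W ^ (n + n') := by
    rw [add_comm n, pow_add W, ← mul_assoc]; exact mul_mem_mul h'.2 (pow_mem_pow W hu n)
  convert add_mem a1 (smul_mem _ c a2) using 1
  simp only [Algebra.smul_def, map_mul]
  ring

lemma Rel.pow {A W : Submodule ℂ C} {u : C} (hu : u ∈ W) {x : C} {c : ℂ}
    (h : Rel A W u 1 x c) (n : ℕ) : Rel A W u n (x ^ n) (c ^ n) := by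
  induction n with
  | zero => exact ⟨pow_mem_pow W (zero_mem W) 0 |> fun h => by simpa using h, by simp⟩
  | succ n ih => rw [pow_succ, pow_succ]; exact ih.mul hu h

lemma step {V : Submodule ℂ C} (hV : V.FG) {c : ℕ}
    (hc : ∀ n, finrank ℂ ↥(V ^ n) ≤ c * (n + 1) ^ 2) {m : ℕ} (w : Fin (m + 3) → C) (u : C)
    (hW : span ℂ (Set.range w) ⊔ span ℂ {u} ≤ V) :
    ∃ (y : Fin (m + 3) → C) (e : ℕ), span ℂ (Set.range y) ≤ span ℂ (Set.range w) ⊔ span ℂ {u} ∧
      (span ℂ (Set.range w) ⊔ span ℂ {u}) ^ (e + 1) ≤ span ℂ (Set.range y) * V ^ e := by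
  classical
  set W := span ℂ (Set.range w) ⊔ span ℂ {u} with hWd
  have hu : u ∈ W := mem_sup_right (mem_span_singleton_self u)
  have hw : ∀ j, w j ∈ W := fun j => mem_sup_left (subset_span ⟨j, rfl⟩)
  let t := 9 * c
  let ι : Fin 3 → Fin (m + 3) := Fin.castLE (by omega)
  let v : (Fin 3 → Fin (t + 1)) → C := fun x =>
    (∏ i, w (ι i) ^ (x i : ℕ)) * u ^ (3 * t - (x 0 + x 1 + x 2))
  have hrel : ∀ (A : Submodule ℂ C) (a : Fin 3 → ℂ), (∀ i, Rel A W u 1 (w (ι i)) (a i)) →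
      ∀ x, Rel A W u (3 * t) (v x) (∏ i, a i ^ (x i : ℕ)) := fun A a ha x => by
    have h1 : Rel A W u 1 u 1 := ⟨by simpa using hu, by simp [pow_two]⟩
    have := (((((ha 0).pow hu (x 0)).mul hu ((ha 1).pow hu (x 1))).mul hu
      ((ha 2).pow hu (x 2))).mul hu (h1.pow hu (3 * t - (x 0 + x 1 + x 2))))
    have h0 := (x 0).2
    have h1 := (x 1).2
    have h2 := (x 2).2
    rw [Nat.add_sub_cancel' (by omega), one_pow, mul_one] at this
    simpa only [v, Fin.prod_univ_three] using this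
  have hv : ∀ x, v x ∈ V ^ (3 * t) := fun x =>
    pow_le_pow_left' hW _ (hrel W 0 (fun i => ⟨by simpa using hw _, by
      simpa using mul_mem_mul hu (hw _)⟩) x).1
  have : Module.Finite ℂ ↥(V ^ (3 * t)) := Module.Finite.iff_fg.2 (hV.pow _)
  have hli : ¬ LinearIndependent ℂ fun x => (⟨v x, hv x⟩ : ↥(V ^ (3 * t))) := fun h => by
    have h1 := h.fintype_card_le_finrank.trans (hc _)
    simp only [Fintype.card_pi, Fintype.card_fin, Finset.prod_const, Finset.card_univ] at h1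
    have h2 : c * (3 * t + 1) ^ 2 ≤ c * (3 * (t + 1)) ^ 2 := by gcongr; omega
    have h3 : c * (3 * (t + 1)) ^ 2 = t * (t + 1) ^ 2 := by simp only [t]; ring
    have h4 : t * (t + 1) ^ 2 < (t + 1) ^ 3 := by
      rw [pow_succ' (t + 1) 2]; gcongr; omega
    omega
  obtain ⟨g, hg, x0, hx0⟩ := Fintype.not_linearIndependent_iff.1 hli
  have hg' : ∑ x, g x • v x = 0 := by simpa using congrArg Subtype.val hg
  obtain ⟨a, ha⟩ := exists_ne g x0 hx0
  let a' : Fin (m + 3) → ℂ := fun j => if h : (j : ℕ) < 3 then a ⟨j, h⟩ else 0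
  let y : Fin (m + 3) → C := fun j => w j - a' j • u
  set A := span ℂ (Set.range y) with hA
  have hAW : A ≤ W := span_le.2 (by rintro _ ⟨j, rfl⟩; exact sub_mem (hw j) (smul_mem _ _ hu))
  have hy : ∀ j, y j ∈ A := fun j => subset_span ⟨j, rfl⟩
  have hWA : W = A ⊔ span ℂ {u} := by
    refine le_antisymm (sup_le (span_le.2 ?_) le_sup_right) (sup_le hAW le_sup_right)
    rintro _ ⟨j, rfl⟩
    have : w j = y j + a' j • u := by simp [y]
    rw [this]
    exact add_mem (mem_sup_left (hy j)) (mem_sup_right (smul_mem _ _ (mem_span_singleton_self u)))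
  have h1 := hrel A a fun i => ⟨by simpa using hw _, by
    have h2 : a' (ι i) = a i := by simp [a', ι]
    have := mul_mem_mul (hy (ι i)) hu
    rw [pow_one]
    convert this using 1
    simp only [y, h2, Algebra.smul_def]
    ring⟩
  have h2 : u ^ (3 * t + 1) ∈ A * W ^ (3 * t) := by
    have h3 := sum_mem fun x (_ : x ∈ Finset.univ) => smul_mem _ (g x) (h1 x).2
    simp only [smul_sub, Finset.sum_sub_distrib, ← mul_smul_comm, ← Finset.mul_sum, hg', mul_zero,
      zero_sub, neg_mem_iff, smul_smul, ← Finset.sum_smul] at h3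
    exact (smul_mem_iff _ ha).1 h3
  refine ⟨y, 3 * t, hAW, le_trans ?_ (mul_le_mul' le_rfl (pow_le_pow_left' hW _))⟩
  conv_lhs => rw [hWA]
  refine (sup_pow_le _ _ _).trans (sup_le (hWA ▸ le_rfl) ?_)
  rw [span_pow, Set.singleton_pow, span_singleton_le_iff_mem]
  exact h2

lemma main {V : Submodule ℂ C} (hV : V.FG) {c : ℕ}
    (hc : ∀ n, finrank ℂ ↥(V ^ n) ≤ c * (n + 1) ^ 2) (m : ℕ) : ∀ (w : Fin (m + 3) → C),
    span ℂ (Set.range w) ≤ V → (∃ n0, V ^ (n0 + 1) ≤ span ℂ (Set.range w) * V ^ n0) →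
    ∃ H : Fin 3 → C, span ℂ (Set.range H) ≤ span ℂ (Set.range w) ∧
      ∃ n1, V ^ (n1 + 1) ≤ span ℂ (Set.range H) * V ^ n1 := by
  induction m with
  | zero => exact fun w _ h => ⟨w, le_rfl, h⟩
  | succ m ih =>
    rintro w hW ⟨n0, h0⟩
    have hw : span ℂ (Set.range w) = span ℂ (Set.range (Fin.tail w)) ⊔ span ℂ {w 0} := by
      rw [Fin.range_fin_succ, span_insert, sup_comm]
    obtain ⟨y, e, h1, h2⟩ := step hV hc (Fin.tail w) (w 0) (hw ▸ hW)
    rw [← hw] at h1 h2
    have h3 : ∀ d, V ^ (n0 + d) ≤ span ℂ (Set.range w) ^ d * V ^ n0 := fun d => by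
      induction d with
      | zero => simp
      | succ d ihd =>
        rw [← add_assoc, pow_succ V, pow_succ, mul_assoc]
        refine (mul_le_mul' ihd le_rfl).trans ?_
        rw [mul_assoc, ← pow_succ]
        exact mul_le_mul' le_rfl h0
    obtain ⟨H, h4, h5⟩ := ih y (h1.trans hW) ⟨n0 + e, by
      rw [add_assoc]
      refine (h3 _).trans ((mul_le_mul' h2 le_rfl).trans ?_)
      rw [mul_assoc, ← pow_add, add_comm e]⟩
    exact ⟨H, h4.trans h1, h5⟩

end BHS

theorem hs_of : St_HS := by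
  rintro C _ _ V W hV hW ⟨c, hc⟩ h0
  have : Module.Finite ℂ V := Module.Finite.iff_fg.2 hV
  have : Module.Finite ℂ W := Submodule.finiteDimensional_of_le hW
  obtain ⟨m, w, hw⟩ := fg_iff_exists_fin_generating_family.1 (Module.Finite.iff_fg.1 this)
  have h1 : span ℂ (Set.range (Fin.append w fun _ : Fin 3 => 0)) = W := by
    refine le_antisymm (span_le.2 ?_) (hw ▸ span_mono ?_)
    · rintro _ ⟨j, rfl⟩
      induction j using Fin.addCases with
      | left j => rw [Fin.append_left, ← hw]; exact subset_span ⟨j, rfl⟩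
      | right j => rw [Fin.append_right]; exact zero_mem _
    · rintro _ ⟨j, rfl⟩
      exact ⟨Fin.castAdd 3 j, Fin.append_left _ _ _⟩
  obtain ⟨H, h2, h3⟩ := BHS.main hV hc m _ (h1 ▸ hW) (h1 ▸ h0)
  exact ⟨H, fun i => h1 ▸ h2 (subset_span ⟨i, rfl⟩), h3⟩

end Pool.Agent.Lib.MP_a25055_ag
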