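import Pool.Agent.Lib.MP_a25055_ag.Inv

/-! Block K1: torsion of contractible four-term complexes. -/

open Matrix

noncomputable section

namespace Pool.Agent.Lib.MP_a25055_ag

namespace BK1

variable {A : Type} [CommRing A]

section det
variable {I J : Type} [Fintype I] [Fintype J] [DecidableEq I] [DecidableEq J]

omit [Fintype J] [DecidableEq J] in
theorem det_left (σ : J ≃ I) (U : Matrix I I A) (Φ : Matrix I J A) :
    ((U * Φ).submatrix id σ.symm).det = U.det * (Φ.submatrix id σ.symm).det := by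
  rw [← det_mul]
  rfl

theorem det_right (σ : J ≃ I) (Φ : Matrix I J A) (W : Matrix J J A) :
    ((Φ * W).submatrix id σ.symm).det = (Φ.submatrix id σ.symm).det * W.det := by
  rw [← submatrix_mul_equiv Φ W id σ.symm σ.symm, det_mul, det_submatrix_equiv_self]

theorem swap {d d' : Matrix I J A} {Q : Matrix I I A} {P : Matrix J J A} (hQ : IsUnit Q.det)
    (hP : IsUnit P.det) (h : d * P = Q * d') : Q⁻¹ * d = d' * P⁻¹ := by
  rw [← mul_nonsing_inv_cancel_right P d hP, h, Matrix.mul_assoc,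
    nonsing_inv_mul_cancel_left _ _ hQ]

end det

theorem solve {I J L : Type} [Fintype J] (d : Matrix I J A) (B : Matrix I L A)
    (h : ∀ l, ∃ x, d *ᵥ x = fun i => B i l) : ∃ t : Matrix J L A, d * t = B := by
  choose x hx using h
  exact ⟨of fun j l => x l j, by ext i l; exact congrFun (hx l) i⟩

theorem colz {I J L : Type} [Fintype J] {d : Matrix I J A} {B : Matrix J L A} (h : d * B = 0)
    (l : L) : (d *ᵥ fun j => B j l) = 0 :=
  funext fun i => congrFun (congrFun h i) l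

variable {K0 K1 K2 K3 : Type} [Fintype K0] [Fintype K1] [Fintype K2]
  [Fintype K3] [DecidableEq K0] [DecidableEq K1] [DecidableEq K2] [DecidableEq K3]
  {σ : K1 ⊕ K3 ≃ K0 ⊕ K2} {d1 d1' : Matrix K0 K1 A} {d2 d2' : Matrix K1 K2 A}
  {d3 d3' : Matrix K2 K3 A} {τ τ' : A}

theorem unit (h : IsTor σ d1 d2 d3 τ) : IsUnit τ := by
  obtain ⟨h1, -, s0, s1, s2, e0, -, e2, -, rfl⟩ := h
  refine IsUnit.of_mul_eq_one ((fromBlocks s0 d2 0 s2).submatrix σ.symm id).det ?_
  rw [← det_mul, submatrix_mul_equiv, submatrix_id_id, fromBlocks_multiply]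
  simp only [Matrix.zero_mul, Matrix.mul_zero, add_zero, e0, h1, add_comm (s1 * d2), e2,
    det_fromBlocks_zero₁₂, det_one, mul_one]

theorem uniq (h : IsTor σ d1 d2 d3 τ) (h' : IsTor σ d1 d2 d3 τ') : τ' = τ := by
  obtain ⟨-, -, s0, s1, s2, e0, e1, e2, -, rfl⟩ := h
  obtain ⟨-, -, s0', s1', -, e0', e1', -, -, rfl⟩ := h'
  have h1 : d2 * (s1 * (s0 - s0')) = s0 - s0' := by
    rw [← Matrix.mul_assoc, eq_sub_of_add_eq e1, Matrix.sub_mul, Matrix.one_mul, Matrix.mul_assoc,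
      Matrix.mul_sub d1, e0, e0', sub_self, Matrix.mul_zero, sub_zero]
  generalize s1 * (s0 - s0') = u at h1
  have h2 : d2 * (s1' - s1 - u * d1) = 0 := by
    rw [Matrix.mul_sub, Matrix.mul_sub, ← Matrix.mul_assoc, h1, eq_sub_of_add_eq e1,
      eq_sub_of_add_eq e1', Matrix.sub_mul]
    abel
  have h3 : d3 * (s2 * (s1' - s1 - u * d1)) = s1' - s1 - u * d1 := by
    rw [← Matrix.mul_assoc, eq_sub_of_add_eq e2, Matrix.sub_mul, Matrix.one_mul, Matrix.mul_assoc,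
      h2, Matrix.mul_zero, sub_zero]
  have h4 : fromBlocks d1 0 s1' d3 = fromBlocks (1 : Matrix K0 K0 A) 0 u (1 : Matrix K2 K2 A) *
      (fromBlocks d1 0 s1 d3 * fromBlocks (1 : Matrix K1 K1 A) 0 (s2 * (s1' - s1 - u * d1))
        (1 : Matrix K3 K3 A)) := by
    simp only [fromBlocks_multiply, Matrix.zero_mul, Matrix.mul_zero, add_zero, zero_add,
      Matrix.one_mul, Matrix.mul_one, h3]
    congr 1
    abel
  rw [h4, det_left, det_right]
  simp only [det_fromBlocks_zero₁₂, det_one, mul_one, one_mul]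

theorem map {F : Type} [CommRing F] (φ : A →+* F) (h : IsTor σ d1 d2 d3 τ) :
    IsTor σ (d1.map φ) (d2.map φ) (d3.map φ) (φ τ) := by
  obtain ⟨h1, h2, s0, s1, s2, e0, e1, e2, e3, rfl⟩ := h
  refine ⟨?_, ?_, s0.map φ, s1.map φ, s2.map φ, ?_, ?_, ?_, ?_, ?_⟩
  · rw [← Matrix.map_mul, h1, Matrix.map_zero _ (map_zero φ)]
  · rw [← Matrix.map_mul, h2, Matrix.map_zero _ (map_zero φ)]
  · rw [← Matrix.map_mul, e0, Matrix.map_one _ (map_zero φ) (map_one φ)]
  · rw [← Matrix.map_mul, ← Matrix.map_mul, ← Matrix.map_add _ (map_add φ), e1,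
      Matrix.map_one _ (map_zero φ) (map_one φ)]
  · rw [← Matrix.map_mul, ← Matrix.map_mul, ← Matrix.map_add _ (map_add φ), e2,
      Matrix.map_one _ (map_zero φ) (map_one φ)]
  · rw [← Matrix.map_mul, e3, Matrix.map_one _ (map_zero φ) (map_one φ)]
  · rw [RingHom.map_det, RingHom.mapMatrix_apply, ← submatrix_map, fromBlocks_map,
      Matrix.map_zero _ (map_zero φ)]

theorem change {P0 : Matrix K0 K0 A} {P1 : Matrix K1 K1 A} {P2 : Matrix K2 K2 A}
    {P3 : Matrix K3 K3 A} (u0 : IsUnit P0.det) (u1 : IsUnit P1.det) (u2 : IsUnit P2.det)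
    (u3 : IsUnit P3.det) (c1 : d1 * P1 = P0 * d1') (c2 : d2 * P2 = P1 * d2')
    (c3 : d3 * P3 = P2 * d3') (h : IsTor σ d1 d2 d3 τ) (h' : IsTor σ d1' d2' d3' τ') :
    τ * P1.det * P3.det = τ' * P0.det * P2.det := by
  obtain ⟨-, -, s0, s1, s2, e0, e1, e2, e3, rfl⟩ := h'
  have m1 : ∀ {L : Type} (B : Matrix K1 L A), d1 * (P1 * B) = P0 * (d1' * B) := fun B => by
    rw [← Matrix.mul_assoc, c1, Matrix.mul_assoc]
  have m2 : ∀ {L : Type} (B : Matrix K2 L A), d2 * (P2 * B) = P1 * (d2' * B) := fun B => by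
    rw [← Matrix.mul_assoc, c2, Matrix.mul_assoc]
  have m3 : ∀ {L : Type} (B : Matrix K3 L A), d3 * (P3 * B) = P2 * (d3' * B) := fun B => by
    rw [← Matrix.mul_assoc, c3, Matrix.mul_assoc]
  have h1 := uniq ⟨h.1, h.2.1, P1 * (s0 * P0⁻¹), P2 * (s1 * P1⁻¹), P3 * (s2 * P2⁻¹), by
      rw [m1, ← Matrix.mul_assoc d1', e0, Matrix.one_mul, mul_nonsing_inv _ u0], by
      rw [m2, Matrix.mul_assoc, Matrix.mul_assoc, swap u0 u1 c1, ← Matrix.mul_add,
        ← Matrix.mul_assoc d2', ← Matrix.mul_assoc s0, ← Matrix.add_mul, e1, Matrix.one_mul,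
        mul_nonsing_inv _ u1], by
      rw [m3, Matrix.mul_assoc, Matrix.mul_assoc, swap u1 u2 c2, ← Matrix.mul_add,
        ← Matrix.mul_assoc d3', ← Matrix.mul_assoc s1, ← Matrix.add_mul, e2, Matrix.one_mul,
        mul_nonsing_inv _ u2], by
      rw [Matrix.mul_assoc, Matrix.mul_assoc, swap u2 u3 c3, ← Matrix.mul_assoc s2, e3,
        Matrix.one_mul, mul_nonsing_inv _ u3], rfl⟩ h
  have h2 : fromBlocks d1 0 (P2 * (s1 * P1⁻¹)) d3 * fromBlocks P1 0 0 P3 =
      fromBlocks P0 0 0 P2 * fromBlocks d1' 0 s1 d3' := by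
    simp only [fromBlocks_multiply, Matrix.zero_mul, Matrix.mul_zero, add_zero, zero_add, c1, c3,
      Matrix.mul_assoc, nonsing_inv_mul _ u1, Matrix.mul_one]
  have h3 := congrArg (fun M => (M.submatrix id σ.symm).det) h2
  simp only [det_left, det_right, det_fromBlocks_zero₁₂] at h3
  rw [h1, mul_assoc, h3]
  ring

theorem ex {F : Type} [CommRing F] (φ : A →+* F) {δ : A} (h : Killed δ d1 d2 d3)
    (hδ : IsUnit (φ δ)) : ∃ τ, IsTor σ (d1.map φ) (d2.map φ) (d3.map φ) τ := by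
  obtain ⟨h1, h2, k0, k1, k2, k3⟩ := h
  obtain ⟨t0, e0⟩ := solve d1 (δ • (1 : Matrix K0 K0 A)) fun l => k0 fun i => (1 : Matrix K0 K0 A) i l
  obtain ⟨t1, e1⟩ := solve d2 (δ • (δ • 1 - t0 * d1)) fun l => k1 _ (colz (by
    rw [Matrix.mul_sub, ← Matrix.mul_assoc, e0, Matrix.mul_smul, Matrix.smul_mul, Matrix.mul_one,
      Matrix.one_mul, sub_self]) l)
  obtain ⟨t2, e2⟩ := solve d3 (δ • (δ • δ • 1 - t1 * d2)) fun l => k2 _ (colz (by
    simp only [Matrix.mul_sub, ← Matrix.mul_assoc, e1, Matrix.mul_smul, Matrix.smul_mul,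
      Matrix.sub_mul, Matrix.mul_one, Matrix.one_mul]
    rw [Matrix.mul_assoc, h1, Matrix.mul_zero, sub_zero, sub_self]) l)
  have e3 : δ • (t2 * d3 - δ • δ • δ • 1) = 0 := by
    ext i l
    refine congrFun (k3 _ (colz (B := t2 * d3 - δ • δ • δ • 1) ?_ l)) i
    simp only [Matrix.mul_sub, ← Matrix.mul_assoc, e2, Matrix.mul_smul, Matrix.smul_mul,
      Matrix.sub_mul, Matrix.mul_one, Matrix.one_mul]
    rw [Matrix.mul_assoc, h2, Matrix.mul_zero, sub_zero, sub_self]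
  obtain ⟨ε, hε⟩ := hδ.exists_left_inv
  have hs : ∀ {I J : Type} (B : Matrix I J A), ε • (δ • B).map φ = B.map φ := fun B => by
    ext i j
    simp [← mul_assoc, hε]
  have h3 : ∀ {I : Type} [DecidableEq I], (1 : Matrix I I A).map φ = 1 :=
    Matrix.map_one _ (map_zero φ) (map_one φ)
  refine ⟨_, ?_, ?_, ε • t0.map φ, ε • ε • t1.map φ, ε • ε • ε • t2.map φ, ?_, ?_, ?_, ?_, rfl⟩
  · rw [← Matrix.map_mul, h1, Matrix.map_zero _ (map_zero φ)]
  · rw [← Matrix.map_mul, h2, Matrix.map_zero _ (map_zero φ)]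
  · rw [Matrix.mul_smul, ← Matrix.map_mul, e0, hs, h3]
  · simp only [Matrix.mul_smul, Matrix.smul_mul, ← Matrix.map_mul, e1, hs]
    rw [← smul_add, ← Matrix.map_add _ (map_add φ), sub_add_cancel, hs, h3]
  · simp only [Matrix.mul_smul, Matrix.smul_mul, ← Matrix.map_mul, e2, hs]
    rw [← smul_add, ← smul_add, ← Matrix.map_add _ (map_add φ), sub_add_cancel, hs, hs, h3]
  · rw [smul_sub, sub_eq_zero] at e3
    simp only [Matrix.smul_mul, ← Matrix.map_mul]
    rw [← hs (t2 * d3), e3, hs, hs, hs, hs, h3]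

end BK1

theorem k1_of : St_K1 where
  uniq _ _ _ _ _ h := ⟨BK1.unit h, fun _ h' => BK1.uniq h h'⟩
  map φ := fun _ _ _ _ _ h => BK1.map φ h
  change _ _ _ _ _ _ _ _ _ _ _ _ _ := BK1.change
  ex φ := fun _ _ _ _ _ => BK1.ex φ

end Pool.Agent.Lib.MP_a25055_ag
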