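import Pool.Agent.Lib.MP_a25055_ag.Inv

/-! The Fischer inner product is invariant under the unitary group. -/

open MvPolynomial

noncomputable section

namespace Pool.Agent.Lib.MP_a25055_ag

namespace BKN1

variable {m N : ℕ}

lemma fis_eq (p q : PP m N) {S : Finset (Fin m × Fin N →₀ ℕ)} (hS : p.support ⊆ S) :
    fis p q = ∑ a ∈ S, (∏ c, ((a c).factorial : ℂ)) * coeff a p * (starRingEnd ℂ) (coeff a q) :=
  Finset.sum_subset hS fun a _ ha => by rw [notMem_support_iff.mp ha, mul_zero, zero_mul]

lemma fis_add_left (p p' q : PP m N) : fis (p + p') q = fis p q + fis p' q := by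
  classical
  rw [fis_eq (p + p') q support_add, fis_eq p q (S := p.support ∪ p'.support)
    Finset.subset_union_left, fis_eq p' q (S := p.support ∪ p'.support) Finset.subset_union_right,
    ← Finset.sum_add_distrib]
  exact Finset.sum_congr rfl fun a _ => by rw [coeff_add]; ring

lemma fis_zero_left (q : PP m N) : fis 0 q = 0 := by simp [fis]

lemma fis_C_mul_left (z : ℂ) (p q : PP m N) : fis (C z * p) q = z * fis p q := by
  rw [fis_eq (C z * p) q (S := p.support) (by rw [C_mul']; exact support_smul), fis,
    Finset.mul_sum]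
  exact Finset.sum_congr rfl fun a _ => by rw [coeff_C_mul]; ring

lemma fis_sum_left {ι : Type*} (s : Finset ι) (f : ι → PP m N) (q : PP m N) :
    fis (∑ i ∈ s, f i) q = ∑ i ∈ s, fis (f i) q := by
  classical
  induction s using Finset.induction_on with
  | empty => simpa using fis_zero_left q
  | insert i s hi ih => rw [Finset.sum_insert hi, Finset.sum_insert hi, fis_add_left, ih]

lemma fis_add_right (p q q' : PP m N) : fis p (q + q') = fis p q + fis p q' := by
  rw [fis, fis, fis, ← Finset.sum_add_distrib]
  exact Finset.sum_congr rfl fun a _ => by rw [coeff_add, map_add]; ring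

lemma fis_zero_right (p : PP m N) : fis p 0 = 0 := by simp [fis]

lemma fis_C_mul_right (z : ℂ) (p q : PP m N) :
    fis p (C z * q) = (starRingEnd ℂ) z * fis p q := by
  rw [fis, fis, Finset.mul_sum]
  exact Finset.sum_congr rfl fun a _ => by rw [coeff_C_mul, map_mul]; ring

lemma fis_sum_right {ι : Type*} (s : Finset ι) (p : PP m N) (f : ι → PP m N) :
    fis p (∑ i ∈ s, f i) = ∑ i ∈ s, fis p (f i) := by
  classical
  induction s using Finset.induction_on with
  | empty => simpa using fis_zero_right p
  | insert i s hi ih => rw [Finset.sum_insert hi, Finset.sum_insert hi, fis_add_right, ih]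

lemma fis_monomial (s : Fin m × Fin N →₀ ℕ) (z : ℂ) (q : PP m N) :
    fis (monomial s z) q = (∏ c, ((s c).factorial : ℂ)) * z * (starRingEnd ℂ) (coeff s q) := by
  classical
  rw [fis_eq _ q (S := {s}) support_monomial_subset, Finset.sum_singleton, coeff_monomial,
    if_pos rfl]

lemma fis_C (z : ℂ) (q : PP m N) : fis (C z) q = z * (starRingEnd ℂ) (coeff 0 q) := by
  rw [C_apply, fis_monomial]; simp

lemma nrm_eq (p : PP m N) : nrm p = (fis p p).re := by
  rw [nrm, fis, Complex.re_sum]
  refine Finset.sum_congr rfl fun a _ => ?_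
  rw [mul_assoc, Complex.mul_conj, Complex.normSq_eq_norm_sq, ← Complex.ofReal_re (_ * _)]
  push_cast
  rfl

lemma coeff_pderiv' (c : Fin m × Fin N) (s : Fin m × Fin N →₀ ℕ) (q : PP m N) :
    coeff s (pderiv c q) = ((s c : ℂ) + 1) * coeff (Finsupp.single c 1 + s) q := by
  classical
  induction q using MvPolynomial.induction_on' with
  | monomial t z =>
    rw [pderiv_monomial, coeff_monomial, coeff_monomial]
    by_cases h : t = Finsupp.single c 1 + s
    · subst h
      rw [if_pos (by simp), if_pos rfl]
      simp
      ring
    · rw [if_neg h, mul_zero]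
      split_ifs with h2
      · rcases Nat.eq_zero_or_pos (t c) with h3 | h3
        · simp [h3]
        · refine absurd ?_ h
          rw [← h2, add_tsub_cancel_of_le]
          exact Finsupp.single_le_iff.mpr h3
      · rfl
  | add p q hp hq => rw [map_add, coeff_add, coeff_add, hp, hq, mul_add]

lemma fis_X_mul (c : Fin m × Fin N) (p q : PP m N) : fis (X c * p) q = fis p (pderiv c q) := by
  classical
  induction p using MvPolynomial.induction_on' with
  | monomial s z =>
    rw [X, monomial_mul, one_mul, fis_monomial, fis_monomial, coeff_pderiv', map_mul]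
    have : (∏ d, ((((Finsupp.single c 1 + s : Fin m × Fin N →₀ ℕ)) d).factorial : ℂ)) =
        ((s c : ℂ) + 1) * ∏ d, ((s d).factorial : ℂ) := by
      rw [← Finset.mul_prod_erase _ _ (Finset.mem_univ c),
        ← Finset.mul_prod_erase _ _ (Finset.mem_univ c), ← mul_assoc]
      congr 1
      · simp [add_comm 1, Nat.factorial_succ]
      · refine Finset.prod_congr rfl fun d hd => ?_
        simp [Finsupp.single_eq_of_ne (Finset.ne_of_mem_erase hd)]
    rw [this]
    simp only [map_add, map_natCast, map_one]
    ring
  | add p p' hp hp' => rw [mul_add, fis_add_left, fis_add_left, hp, hp']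

lemma act_X (u : Mat N) (a : Fin m × Fin N) :
    act u (X a : PP m N) = ∑ l, C (u l a.2) * X (a.1, l) := by simp [act]

lemma act_C (u : Mat N) (z : ℂ) : act u (C z : PP m N) = C z := by simp [act]

/-- Chain rule. -/
lemma pderiv_act (u : Mat N) (i : Fin m) (l : Fin N) (q : PP m N) :
    pderiv (i, l) (act u q) = ∑ k, C (u l k) * act u (pderiv (i, k) q) := by
  classical
  induction q using MvPolynomial.induction_on with
  | C z => simp [act_C]
  | add p q hp hq => simp only [map_add, hp, hq, mul_add, Finset.sum_add_distrib]
  | mul_X p a hp =>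
    obtain ⟨i', j⟩ := a
    have h1 : pderiv (i, l) (act u (X (i', j) : PP m N)) =
        ∑ k, C (u l k) * act u (pderiv (i, k) (X (i', j) : PP m N)) := by
      rw [act_X, map_sum]
      by_cases h : i' = i
      · subst h
        simp [pderiv_X, Pi.single_apply, apply_ite]
      · simp [pderiv_X, h]
    simp only [map_mul, pderiv_mul, map_add, hp, h1, mul_add, Finset.sum_add_distrib,
      Finset.sum_mul, Finset.mul_sum]
    congr 1 <;> exact Finset.sum_congr rfl fun k _ => by ring

lemma coeff_zero_act (u : Mat N) (q : PP m N) : coeff 0 (act u q) = coeff 0 q := by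
  have h := eval_act u q 0
  simp only [moved, Pi.zero_apply, zero_mul, Finset.sum_const_zero] at h
  rw [← constantCoeff_eq, ← eval_zero, h]
  rfl

end BKN1

open BKN1 in
theorem kn1_of : St_KN1 := by
  intro m N u hu p
  have hu' : star u * u = 1 := Matrix.mem_unitaryGroup_iff'.mp hu
  induction p using MvPolynomial.induction_on with
  | C z => intro q; rw [act_C, fis_C, fis_C, coeff_zero_act]
  | add p p' hp hp' => intro q; rw [map_add, fis_add_left, fis_add_left, hp, hp']
  | mul_X p a hp =>
    intro q
    obtain ⟨i, j⟩ := a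
    have h1 : act u (p * X (i, j)) = ∑ l, C (u l j) * (X (i, l) * act u p) := by
      rw [map_mul, act_X, Finset.mul_sum]
      exact Finset.sum_congr rfl fun l _ => by ring
    have h2 : ∀ k, ∑ l, (starRingEnd ℂ) (u l k) * u l j = if k = j then 1 else 0 := fun k => by
      have := congrFun (congrFun hu' k) j
      rwa [Matrix.mul_apply, Matrix.one_apply] at this
    rw [h1, fis_sum_left, mul_comm p, fis_X_mul]
    simp only [fis_C_mul_left, fis_X_mul, pderiv_act, fis_sum_right, fis_C_mul_right, hp,
      Finset.mul_sum]
    rw [Finset.sum_comm]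
    calc _ = ∑ k, (∑ l, (starRingEnd ℂ) (u l k) * u l j) * fis p (pderiv (i, k) q) :=
          Finset.sum_congr rfl fun k _ => by
            rw [Finset.sum_mul]
            exact Finset.sum_congr rfl fun l _ => by ring
      _ = _ := by simp [h2]

end Pool.Agent.Lib.MP_a25055_ag
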