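import Pool.Agent.Lib.MP_a25055_ag.BINV

/-! Block KN2: the orbit of a minimal vector is closed (Kempf-Ness). -/

open MvPolynomial Filter Topology
open scoped Matrix ComplexConjugate

noncomputable section

namespace Pool.Agent.Lib.MP_a25055_ag

namespace BKN2

variable {m N : ℕ}

/-- coefficientwise continuity -/
def Cont (F : Mat N → PP m N) : Prop := ∀ a, Continuous fun g => coeff a (F g)

lemma Cont.const (p : PP m N) : Cont fun _ : Mat N => p := fun _ => continuous_const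

lemma Cont.add {F G : Mat N → PP m N} (hF : Cont F) (hG : Cont G) : Cont fun g => F g + G g :=
  fun a => by simp only [coeff_add]; exact (hF a).add (hG a)

lemma Cont.mul {F G : Mat N → PP m N} (hF : Cont F) (hG : Cont G) : Cont fun g => F g * G g :=
  fun a => by
    classical
    simp only [coeff_mul]
    exact continuous_finsetSum _ fun x _ => (hF _).mul (hG _)

lemma cont_act (p : PP m N) : Cont fun g : Mat N => act g p := by
  induction p using MvPolynomial.induction_on with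
  | C c => simpa [act] using Cont.const (C c)
  | add p q hp hq => simpa only [map_add] using hp.add hq
  | mul_X p c hp =>
    simp only [map_mul]
    refine hp.mul fun a => ?_
    simp only [act, aeval_X, coeff_sum, coeff_C_mul]
    exact continuous_finsetSum _ fun l _ => (continuous_apply_apply l c.2).mul continuous_const

/-- Frobenius norm squared -/
def Fr (g : Mat N) : ℝ := ∑ i, ∑ j, ‖g i j‖ ^ 2

lemma Fr_eq (g : Mat N) : (Fr g : ℂ) = (g * star g).trace := by
  simp [Fr, Matrix.trace, Matrix.mul_apply, Complex.mul_conj']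

lemma Fr_left {u : Mat N} (hu : u ∈ Matrix.unitaryGroup (Fin N) ℂ) (g : Mat N) :
    Fr (u * g) = Fr g := by
  apply Complex.ofReal_injective
  rw [Fr_eq, Fr_eq, star_mul, mul_assoc, Matrix.trace_mul_comm, mul_assoc, mul_assoc,
    Matrix.mem_unitaryGroup_iff'.mp hu, mul_one]

lemma Fr_right {u : Mat N} (hu : u ∈ Matrix.unitaryGroup (Fin N) ℂ) (g : Mat N) :
    Fr (g * u) = Fr g := by
  apply Complex.ofReal_injective
  rw [Fr_eq, Fr_eq, star_mul, mul_assoc, ← mul_assoc u, Matrix.mem_unitaryGroup_iff.mp hu, one_mul]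

lemma cont_Fr : Continuous (Fr : Mat N → ℝ) := by
  unfold Fr
  exact continuous_finsetSum _ fun i _ => continuous_finsetSum _ fun j _ =>
    (continuous_apply_apply i j).norm.pow 2

lemma compact_Fr (R : ℝ) : IsCompact {g : Mat N | Fr g ≤ R} := by
  refine (IsCompact.matrix (isCompact_closedBall (0 : ℂ) √R)).of_isClosed_subset
    (isClosed_le cont_Fr continuous_const) fun g hg i j => ?_
  rw [mem_closedBall_zero_iff]
  apply Real.le_sqrt_of_sq_le
  refine le_trans ?_ hg
  refine le_trans ?_ (Finset.single_le_sum (f := fun i => ∑ j, ‖g i j‖ ^ 2)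
    (fun i _ => by positivity) (Finset.mem_univ i))
  exact Finset.single_le_sum (f := fun j => ‖g i j‖ ^ 2) (fun i _ => by positivity)
    (Finset.mem_univ j)

lemma Fr_dg (r s : Fin N → ℝ) (w : Mat N) :
    Fr (dg r * w * dg s) = ∑ i, Real.exp (2 * r i) * ∑ j, ‖w i j‖ ^ 2 * Real.exp (2 * s j) := by
  simp only [Fr, dg, Matrix.mul_diagonal, Matrix.diagonal_mul, Finset.mul_sum, norm_mul,
    Complex.norm_real, Real.norm_eq_abs, mul_pow, sq_abs, ← Real.exp_nat_mul]
  refine Finset.sum_congr rfl fun i _ => Finset.sum_congr rfl fun j _ => ?_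
  push_cast
  ring

lemma dg_zero : dg (0 : Fin N → ℝ) = 1 := by simp [dg]

lemma one_sum (f : Fin N → ℝ) (i : Fin N) : ∑ j, ‖(1 : Mat N) i j‖ ^ 2 * f j = f i := by
  rw [Finset.sum_eq_single i]
  · simp
  · intro j _ hj; simp [Matrix.one_apply_ne hj.symm]
  · simp

lemma Fr_dg' (r : Fin N → ℝ) : Fr (dg r) = ∑ i, Real.exp (2 * r i) := by
  have := Fr_dg r 0 1
  simp only [dg_zero, mul_one, one_sum] at this
  simpa using this

lemma det_dg {r : Fin N → ℝ} (h : ∑ j, r j = 0) : (dg r).det = 1 := by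
  rw [dg, Matrix.det_diagonal, ← Complex.ofReal_prod, ← Real.exp_sum, h]; simp

lemma exists_min (p : PP m N) (g0 : SL N) : ∃ g : SL N, act (g : Mat N) p = act (g0 : Mat N) p ∧
    ∀ g' : Mat N, g'.det = 1 → act g' p = act (g : Mat N) p → Fr (g : Mat N) ≤ Fr g' := by
  have hc : IsClosed {g : Mat N | g.det = 1 ∧ ∀ a, coeff a (act g p) = coeff a (act (g0 : Mat N) p)} := by
    rw [Set.ofPred_and, Set.ofPred_forall]
    exact (isClosed_eq continuous_id.matrix_det continuous_const).inter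
      (isClosed_iInter fun a => isClosed_eq (cont_act p a) continuous_const)
  obtain ⟨g, ⟨h1, h2, h3⟩, h4⟩ := ((compact_Fr (Fr (g0 : Mat N))).inter_right hc).exists_isMinOn
    ⟨g0, le_refl (Fr (g0 : Mat N)), g0.2, fun _ => rfl⟩ cont_Fr.continuousOn
  have e : act g p = act (g0 : Mat N) p := MvPolynomial.ext _ _ h3
  refine ⟨⟨g, h2⟩, e, fun g' h5 h6 => ?_⟩
  by_cases h7 : Fr g' ≤ Fr (g0 : Mat N)
  · exact h4 ⟨h7, h5, fun a => by rw [h6]; exact h3 a⟩
  · exact le_trans h1 (not_le.mp h7).le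

lemma ulim {X : Type} [TopologicalSpace X] {s : Set X} (hs : IsCompact s) (𝒰 : Ultrafilter ℕ)
    (x : ℕ → X) (h : ∀ᶠ n in 𝒰, x n ∈ s) : ∃ a ∈ s, Tendsto x 𝒰 (𝓝 a) :=
  hs.ultrafilter_le_nhds (𝒰.map x) (le_principal_iff.mpr h)

/-- weights of the Fischer norm -/
def fac (a : Fin m × Fin N →₀ ℕ) : ℝ := ∏ c, ((a c).factorial : ℝ)

lemma fac_pos (a : Fin m × Fin N →₀ ℕ) : 0 < fac a :=
  Finset.prod_pos fun c _ => by exact_mod_cast (a c).factorial_pos

lemma nrm_eq {S : Finset (Fin m × Fin N →₀ ℕ)} {p : PP m N} (h : ∀ a ∉ S, coeff a p = 0) :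
    nrm p = ∑ a ∈ S, fac a * ‖coeff a p‖ ^ 2 := by
  refine Finset.sum_subset (fun a ha => ?_) fun a _ ha => ?_
  · by_contra h1
    exact mem_support_iff.mp ha (h a h1)
  · rw [notMem_support_iff.mp ha]; simp

lemma nrm_dg {S : Finset (Fin m × Fin N →₀ ℕ)} {p : PP m N} (h : ∀ a ∉ S, coeff a p = 0)
    (r : Fin N → ℝ) :
    nrm (act (dg r) p) = ∑ a ∈ S, fac a * ‖coeff a p‖ ^ 2 * Real.exp (2 * wt r a) := by
  rw [nrm_eq (S := S) fun a ha => by rw [coeff_act_dg, h a ha, mul_zero]]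
  refine Finset.sum_congr rfl fun a _ => ?_
  rw [coeff_act_dg, norm_mul, mul_pow, Complex.norm_real, Real.norm_eq_abs, sq_abs,
    ← Real.exp_nat_mul]
  push_cast
  ring

lemma nrm_unit (hK : St_KN1) {u : Mat N} (hu : u ∈ Matrix.unitaryGroup (Fin N) ℂ) (p : PP m N) :
    nrm (act u p) = nrm p := by
  have h : ∀ p : PP m N, (nrm p : ℂ) = fis p p := fun p => by
    simp only [nrm, fis, mul_assoc, Complex.mul_conj']
    push_cast
    rfl
  apply Complex.ofReal_injective
  rw [h, h, hK u hu]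

lemma wt_smul (t : ℝ) (r : Fin N → ℝ) (a : Fin m × Fin N →₀ ℕ) : wt (t • r) a = t * wt r a := by
  simp only [wt, Finset.mul_sum, Pi.smul_apply, smul_eq_mul]
  exact Finset.sum_congr rfl fun c _ => by ring

lemma cont_wt (a : Fin m × Fin N →₀ ℕ) : Continuous fun r : Fin N → ℝ => wt r a := by
  unfold wt; fun_prop

/-- Step A: the limit direction fixes the limit vector. -/
lemma stepA (hK : St_KN1) {p : PP m N} (hp : Minimal p) {S : Finset (Fin m × Fin N →₀ ℕ)}
    (hS : ∀ g : Mat N, ∀ a ∉ S, coeff a (act g p) = 0) {l : Filter ℕ} [l.NeBot]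
    {v : ℕ → Mat N} {v0 : Mat N} {ρ : ℕ → Fin N → ℝ} {ρ0 : Fin N → ℝ} {T : ℕ → ℝ} {C : ℝ}
    (hv : ∀ n, v n ∈ Matrix.unitaryGroup (Fin N) ℂ) (hv0 : v0 ∈ Matrix.unitaryGroup (Fin N) ℂ)
    (hd : v0.det = 1) (hs : ∑ j, ρ0 j = 0) (lv : Tendsto v l (𝓝 v0)) (lρ : Tendsto ρ l (𝓝 ρ0))
    (lT : Tendsto T l atTop)
    (lC : Tendsto (fun n => nrm (act (dg (T n • ρ n)) (act (v n) p))) l (𝓝 C)) (s : ℝ) :
    act (dg (s • ρ0)) (act v0 p) = act v0 p := by
  have up : nrm (act (dg ρ0) (act v0 p)) ≤ nrm p := by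
    have l1 : Tendsto (fun n => nrm (act (dg (ρ n)) (act (v n) p))) l
        (𝓝 (nrm (act (dg ρ0) (act v0 p)))) := by
      simp only [nrm_dg (hS _)]
      refine tendsto_finsetSum _ fun a _ => Tendsto.mul (Tendsto.const_mul _ ?_) ?_
      · exact (((cont_act p a).tendsto v0).comp lv).norm.pow 2
      · exact ((((cont_wt a).tendsto ρ0).comp lρ).const_mul 2).rexp
    have l0 := tendsto_inv_atTop_zero.comp lT
    have l2 := ((l0.const_sub 1).mul_const (nrm p)).add (l0.mul lC)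
    rw [sub_zero, one_mul, zero_mul, add_zero] at l2
    refine le_of_tendsto_of_tendsto l1 l2 ?_
    filter_upwards [lT.eventually_ge_atTop 1] with n hn
    rw [← nrm_unit hK (hv n) p, nrm_eq (hS (v n)), nrm_dg (hS _), nrm_dg (hS _), Finset.mul_sum,
      Finset.mul_sum, ← Finset.sum_add_distrib]
    refine Finset.sum_le_sum fun a _ => ?_
    have h0 : 0 < T n := by linarith
    have h1 : 0 ≤ (T n)⁻¹ := by positivity
    have h2 : 0 ≤ 1 - (T n)⁻¹ := sub_nonneg.mpr (inv_le_one_of_one_le₀ hn)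
    have h3 := convexOn_exp.2 (Set.mem_univ 0) (Set.mem_univ (2 * wt (T n • ρ n) a)) h2 h1
      (by ring)
    have h4 : (1 - (T n)⁻¹) • (0 : ℝ) + (T n)⁻¹ • (2 * wt (T n • ρ n) a) = 2 * wt (ρ n) a := by
      rw [wt_smul, smul_eq_mul, smul_eq_mul]; field_simp; ring
    rw [h4, Real.exp_zero, smul_eq_mul, smul_eq_mul] at h3
    have h5 : 0 ≤ fac a * ‖coeff a (act (v n) p)‖ ^ 2 := by have := fac_pos a; positivity
    have := mul_le_mul_of_nonneg_left h3 h5
    simp only [Function.comp]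
    linarith
  have lo : nrm p ≤ nrm (act (dg ((1 / 2 : ℝ) • ρ0)) (act v0 p)) := by
    have := hp ⟨dg ((1 / 2 : ℝ) • ρ0) * v0, by
      rw [Matrix.det_mul, hd, det_dg, one_mul]
      simp only [Pi.smul_apply, smul_eq_mul, ← Finset.mul_sum, hs, mul_zero]⟩
    rwa [act_act]
  have e0 := nrm_unit hK hv0 p
  rw [nrm_dg (hS _)] at up lo
  rw [nrm_eq (hS _)] at e0
  have h1 : ∑ a ∈ S, fac a * ‖coeff a (act v0 p)‖ ^ 2 * (Real.exp (wt ρ0 a) - 1) ^ 2 ≤ 0 := by
    have : ∀ a, fac a * ‖coeff a (act v0 p)‖ ^ 2 * (Real.exp (wt ρ0 a) - 1) ^ 2 =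
        fac a * ‖coeff a (act v0 p)‖ ^ 2 * Real.exp (2 * wt ρ0 a) -
        2 * (fac a * ‖coeff a (act v0 p)‖ ^ 2 * Real.exp (2 * wt ((1 / 2 : ℝ) • ρ0) a)) +
        fac a * ‖coeff a (act v0 p)‖ ^ 2 := fun a => by
      rw [wt_smul, show 2 * (1 / 2 * wt ρ0 a) = wt ρ0 a by ring, two_mul (wt ρ0 a), Real.exp_add]
      ring
    simp only [this, Finset.sum_add_distrib, Finset.sum_sub_distrib, ← Finset.mul_sum]
    linarith
  have h2 := (Finset.sum_eq_zero_iff_of_nonneg fun a _ => by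
    have := fac_pos a; positivity).mp (le_antisymm h1 (Finset.sum_nonneg fun a _ => by
      have := fac_pos a; positivity))
  ext a
  rw [coeff_act_dg]
  by_cases ha : coeff a (act v0 p) = 0
  · rw [ha, mul_zero]
  · have h3 : a ∈ S := by
      by_contra h
      exact ha (hS _ a h)
    have h4 := (mul_eq_zero.mp (h2 a h3)).resolve_left
      (mul_ne_zero (fac_pos a).ne' (pow_ne_zero 2 (norm_ne_zero_iff.mpr ha)))
    rw [pow_eq_zero_iff two_ne_zero, sub_eq_zero, Real.exp_eq_one_iff] at h4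
    rw [wt_smul, h4]
    simp

/-- Step B: the Frobenius norm can be decreased. -/
lemma stepB {l : Filter ℕ} [l.NeBot] {w : ℕ → Mat N} {ρ : ℕ → Fin N → ℝ} {ρ0 : Fin N → ℝ}
    {T : ℕ → ℝ} (h0 : ρ0 ≠ 0) (hs : ∑ j, ρ0 j = 0) (lw : Tendsto w l (𝓝 1))
    (lρ : Tendsto ρ l (𝓝 ρ0)) (lT : Tendsto T l atTop)
    (h : ∀ᶠ n in l, Fr (dg (T n • ρ n)) ≤ Fr (dg (T n • ρ n) * w n * dg ((-1 : ℝ) • ρ0))) :
    False := by
  classical
  obtain ⟨i0, hi⟩ : ∃ i, 0 < ρ0 i := by
    by_contra hh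
    push Not at hh
    exact h0 (funext fun i => (Finset.sum_eq_zero_iff_of_nonpos fun j _ => hh j).mp hs i
      (Finset.mem_univ i))
  let t : ℕ → Fin N → ℝ := fun n i => ∑ j, ‖w n i j‖ ^ 2 * Real.exp (2 * ((-1 : ℝ) • ρ0) j) - 1
  have lt : ∀ i, Tendsto (fun n => t n i) l (𝓝 (Real.exp (2 * ((-1 : ℝ) • ρ0) i) - 1)) := by
    intro i
    rw [← one_sum (fun j => Real.exp (2 * ((-1 : ℝ) • ρ0) j)) i]
    refine Tendsto.sub_const (tendsto_finsetSum _ fun j _ => Tendsto.mul_const _ ?_) 1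
    exact (((continuous_apply_apply i j).tendsto (1 : Mat N)).comp lw).norm.pow 2
  have neg : ∀ i, 0 < ρ0 i → Real.exp (2 * ((-1 : ℝ) • ρ0) i) - 1 < 0 := fun i hi => by
    rw [sub_neg, Real.exp_lt_one_iff]
    simp only [Pi.smul_apply, smul_eq_mul]
    linarith
  let e : ℕ → Fin N → ℝ := fun n i => Real.exp (2 * (T n * (ρ n i - ρ n i0))) * t n i
  let f : ℕ → Fin N → ℝ := fun n i => if i = i0 then t n i else if 0 < ρ0 i then 0 else e n i
  have lf : ∀ i, Tendsto (fun n => f n i) l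
      (𝓝 (if i = i0 then Real.exp (2 * ((-1 : ℝ) • ρ0) i) - 1 else 0)) := by
    intro i
    simp only [f]
    split_ifs with h1 h2
    · exact lt i
    · exact tendsto_const_nhds
    · have a1 : Tendsto (fun n => ρ n i - ρ n i0) l (𝓝 (ρ0 i - ρ0 i0)) :=
        (tendsto_pi_nhds.mp lρ i).sub (tendsto_pi_nhds.mp lρ i0)
      have a2 := (lT.atTop_mul_neg (by linarith [not_lt.mp h2]) a1).const_mul_atBot two_pos
      simpa using (Real.tendsto_exp_atBot.comp a2).mul (lt i)
  have l1 := tendsto_finsetSum Finset.univ fun i _ => lf i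
  rw [Finset.sum_ite_eq', if_pos (Finset.mem_univ _)] at l1
  have l2 : ∀ᶠ n in l, ∀ i, 0 < ρ0 i → t n i < 0 := eventually_all.mpr fun i => by
    by_cases h1 : 0 < ρ0 i
    · exact ((lt i).eventually_lt_const (neg i h1)).mono fun n hn _ => hn
    · exact Eventually.of_forall fun n h2 => absurd h2 h1
  obtain ⟨n, a1, a2, a3⟩ := (h.and ((l1.eventually_lt_const (neg i0 hi)).and l2)).exists
  rw [Fr_dg, Fr_dg'] at a1
  have b1 : ∑ i, e n i ≤ ∑ i, f n i := Finset.sum_le_sum fun i _ => by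
    simp only [f]
    split_ifs with h1 h2
    · simp [e, h1]
    · exact mul_nonpos_of_nonneg_of_nonpos (Real.exp_pos _).le (a3 i h2).le
    · exact le_rfl
  have b2 : ∑ i, e n i = Real.exp (-(2 * (T n * ρ n i0))) *
      (∑ i, Real.exp (2 * (T n • ρ n) i) * ∑ j, ‖w n i j‖ ^ 2 * Real.exp (2 * ((-1 : ℝ) • ρ0) j) -
        ∑ i, Real.exp (2 * (T n • ρ n) i)) := by
    rw [← Finset.sum_sub_distrib, Finset.mul_sum]
    refine Finset.sum_congr rfl fun i _ => ?_
    rw [← mul_sub_one, ← mul_assoc, ← Real.exp_add]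
    simp only [e, t, Pi.smul_apply, smul_eq_mul]
    congr 2
    ring
  have b3 := mul_nonneg (Real.exp_pos (-(2 * (T n * ρ n i0)))).le (sub_nonneg.mpr a1)
  linarith

end BKN2

open BKN2 in
theorem kn2_of (hSVD : St_SVD) (hK : St_KN1) : St_KN2 := by
  intro m N p hp
  refine isClosed_of_closure_subset fun F hF => ?_
  obtain ⟨q, rfl, g0, hg0⟩ := (BINV.clos p F).mp hF
  choose g hg hmin using fun n => exists_min p (g0 n)
  choose u v r hu hv hr he using fun n => hSVD N (g n)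
  let 𝒰 : Ultrafilter ℕ := Ultrafilter.of atTop
  have lq : ∀ a, Tendsto (fun n => coeff a (act (g n : Mat N) p)) 𝒰 (𝓝 (coeff a q)) := fun a => by
    simp only [hg]
    exact (hg0 a).mono_left (Ultrafilter.of_le atTop)
  have hF : ∀ n, Fr (g n : Mat N) = Fr (dg (r n)) := fun n => by
    rw [he, Fr_right (hv n), Fr_left (hu n)]
  by_cases hb : ∃ R, ∀ᶠ n in 𝒰, ‖r n‖ ≤ R
  · obtain ⟨R, hR⟩ := hb
    obtain ⟨g1, -, l1⟩ := ulim (compact_Fr (∑ _i : Fin N, Real.exp (2 * R))) 𝒰
      (fun n => (g n : Mat N)) (hR.mono fun n hn => by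
        rw [Set.mem_ofPred_eq, hF, Fr_dg']
        refine Finset.sum_le_sum fun i _ => Real.exp_le_exp.mpr ?_
        have := (le_abs_self _).trans ((norm_le_pi_norm (r n) i).trans hn)
        linarith)
    have d1 : g1.det = 1 := by
      have := (continuous_id.matrix_det.tendsto g1).comp l1
      simp only [Function.comp_def, id, Matrix.SpecialLinearGroup.det_coe] at this
      exact tendsto_nhds_unique this tendsto_const_nhds
    have e1 : act g1 p = q := MvPolynomial.ext _ _ fun a =>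
      tendsto_nhds_unique (((cont_act p a).tendsto g1).comp l1) (lq a)
    exact ⟨⟨g1, d1⟩, by rw [← e1]; exact moved_eq p g1⟩
  · exfalso
    have lT : Tendsto (fun n => ‖r n‖) 𝒰 atTop := tendsto_atTop.mpr fun R => by
      have : ¬∀ᶠ n in 𝒰, ‖r n‖ ≤ R := fun h => hb ⟨R, h⟩
      exact (Ultrafilter.eventually_not.mpr this).mono fun n hn => (not_le.mp hn).le
    have hpos : ∀ᶠ n in 𝒰, 0 < ‖r n‖ := lT.eventually_gt_atTop 0
    have hre : ∀ᶠ n in 𝒰, ‖r n‖ • ‖r n‖⁻¹ • r n = r n := hpos.mono fun n hn => by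
      rw [smul_smul, mul_inv_cancel₀ hn.ne', one_smul]
    obtain ⟨ρ0, h1, lρ⟩ := ulim (isCompact_sphere (0 : Fin N → ℝ) 1) 𝒰
      (fun n => ‖r n‖⁻¹ • r n) (hpos.mono fun n hn => by
        rw [mem_sphere_zero_iff_norm, norm_smul, norm_inv, norm_norm, inv_mul_cancel₀ hn.ne'])
    obtain ⟨v0, -, lv⟩ := ulim (compact_Fr (Fr (1 : Mat N))) 𝒰 (fun n => (v n : Mat N))
      (Eventually.of_forall fun n => by
        rw [Set.mem_ofPred_eq, ← Fr_left (hv n) 1, mul_one])
    have h0 : ρ0 ≠ 0 := by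
      rintro rfl
      simp at h1
    have hs : ∑ j, ρ0 j = 0 := by
      have := tendsto_finsetSum Finset.univ fun j _ => tendsto_pi_nhds.mp lρ j
      simp only [Pi.smul_apply, smul_eq_mul, ← Finset.mul_sum, hr, mul_zero] at this
      exact tendsto_nhds_unique this tendsto_const_nhds
    have d0 : v0.det = 1 := by
      have := (continuous_id.matrix_det.tendsto v0).comp lv
      simp only [Function.comp_def, id, Matrix.SpecialLinearGroup.det_coe] at this
      exact tendsto_nhds_unique this tendsto_const_nhds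
    have hv0 : v0 ∈ Matrix.unitaryGroup (Fin N) ℂ := by
      rw [Matrix.mem_unitaryGroup_iff]
      have := lv.mul lv.star
      simp only [Matrix.mem_unitaryGroup_iff.mp (hv _)] at this
      exact tendsto_nhds_unique this tendsto_const_nhds
    let S := (Finsupp.finite_of_degree_le (σ := Fin m × Fin N) p.totalDegree).toFinset
    have hS : ∀ (g : Mat N), ∀ a ∉ S, coeff a (act g p) = 0 := fun g a ha => by
      apply coeff_eq_zero_of_totalDegree_lt
      refine lt_of_le_of_lt (BINV.totalDegree_act g p) ?_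
      simpa [S, Finsupp.degree_apply] using ha
    have lC : Tendsto (fun n => nrm (act (dg (‖r n‖ • ‖r n‖⁻¹ • r n)) (act (v n : Mat N) p))) 𝒰
        (𝓝 (∑ a ∈ S, fac a * ‖coeff a q‖ ^ 2)) := by
      refine (tendsto_finsetSum S fun a _ => ((lq a).norm.pow 2).const_mul (fac a)).congr' ?_
      filter_upwards [hre] with n hn
      rw [← nrm_eq (hS _), hn, he, ← act_act, ← act_act, act_act (u n : Mat N), ← act_act,
        nrm_unit hK (hu n)]
    have hA := stepA hK hp hS hv hv0 d0 hs lv lρ lT lC (-1)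
    have u1 := Matrix.mem_unitaryGroup_iff.mp hv0
    have u2 := Matrix.mem_unitaryGroup_iff'.mp hv0
    refine stepB (w := fun n => (v n : Mat N) * star v0) h0 hs
      (by simpa [u1] using lv.mul_const (star v0)) lρ lT ?_
    filter_upwards [hre] with n hn
    have ds : (star v0).det = 1 := by
      have := congrArg Matrix.det u2
      rwa [Matrix.det_mul, d0, mul_one, Matrix.det_one] at this
    have := hmin n ((g n : Mat N) * (star v0 * dg ((-1 : ℝ) • ρ0) * v0)) (by
      rw [Matrix.det_mul, Matrix.det_mul, Matrix.det_mul, ds, d0, det_dg, (g n).det_coe]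
      · simp
      · simp only [Pi.smul_apply, smul_eq_mul, ← Finset.mul_sum, hs, mul_zero]) (by
      rw [← act_act, ← act_act, ← act_act, act_act (star v0), ← act_act (star v0), hA, act_act (star v0),
        u2, act_one])
    rw [hn, ← hF]
    refine this.trans_eq ?_
    rw [he, ← mul_assoc, Fr_right hv0, mul_assoc, mul_assoc, Fr_left (hu n)]
    simp only [mul_assoc]

end Pool.Agent.Lib.MP_a25055_ag
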