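import Pool.Agent.Lib.MP_a25055_ag.Inv

/-! Existence of minimal vectors in torus orbits. -/

open MvPolynomial Filter Topology Module

noncomputable section

namespace Pool.Agent.Lib.MP_a25055_ag

namespace BKN3

/-- A positive combination of exponentials has a critical point on a subspace that meets the
negative orthant only in zero. -/
theorem exists_crit {ι : Type} [Fintype ι] (K : Submodule ℝ (ι → ℝ)) (c : ι → ℝ)
    (hc : ∀ a, 0 < c a) (hK : ∀ y ∈ K, (∀ a, y a ≤ 0) → y = 0) :
    ∃ y ∈ K, ∀ z ∈ K, ∑ a, c a * Real.exp (2 * y a) * z a = 0 := by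
  have hcl : IsClosed (K : Set (ι → ℝ)) := K.closed_of_finiteDimensional
  have hΨ : Continuous fun y : ι → ℝ => ∑ a, c a * Real.exp (2 * y a) := by fun_prop
  obtain ⟨δ, hδ, h1⟩ := ((isCompact_sphere (0 : ι → ℝ) 1).inter_left hcl).exists_forall_le'
    (f := fun y => ∑ a, c a * max (y a) 0) (by fun_prop) (a := 0) fun y hy => by
      refine lt_of_le_of_ne (Finset.sum_nonneg fun a _ => mul_nonneg (hc a).le (le_max_right _ _))
        fun h => ?_
      have h2 := (Finset.sum_eq_zero_iff_of_nonneg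
        fun a _ => mul_nonneg (hc a).le (le_max_right (y a) 0)).mp h.symm
      have h3 := hK y hy.1 fun a => by
        have := (mul_eq_zero.mp (h2 a (Finset.mem_univ a))).resolve_left (hc a).ne'
        exact max_eq_right_iff.mp this
      have h4 := hy.2
      simp [h3] at h4
  have h2 : ∀ y ∈ K, δ * ‖y‖ ≤ ∑ a, c a * Real.exp (2 * y a) := fun y hy => by
    rcases eq_or_ne y 0 with rfl | h0
    · rw [norm_zero, mul_zero]
      exact Finset.sum_nonneg fun a _ => mul_nonneg (hc a).le (Real.exp_pos _).le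
    have hn := norm_pos_iff.mpr h0
    have h3 := h1 (‖y‖⁻¹ • y) ⟨K.smul_mem _ hy, by
      simp [norm_smul, inv_mul_cancel₀ hn.ne']⟩
    calc δ * ‖y‖ ≤ (∑ a, c a * max ((‖y‖⁻¹ • y) a) 0) * ‖y‖ := by gcongr
      _ = ∑ a, c a * max (y a) 0 := by
        rw [Finset.sum_mul]
        refine Finset.sum_congr rfl fun a _ => ?_
        rw [mul_assoc, max_mul_of_nonneg _ _ hn.le, zero_mul, Pi.smul_apply, smul_eq_mul,
          mul_comm _ (y a), inv_mul_cancel_right₀ hn.ne']
      _ ≤ _ := Finset.sum_le_sum fun a _ => mul_le_mul_of_nonneg_left (max_le ?_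
        (Real.exp_pos _).le) (hc a).le
    rcases le_total (y a) 0 with h | h
    · exact h.trans (Real.exp_pos _).le
    · linarith [Real.add_one_le_exp (2 * y a)]
  set M := ∑ a, c a * Real.exp (2 * (0 : ι → ℝ) a) with hM
  have hS : IsCompact ((K : Set (ι → ℝ)) ∩ {y | ∑ a, c a * Real.exp (2 * y a) ≤ M}) :=
    (isCompact_closedBall (0 : ι → ℝ) (M / δ)).of_isClosed_subset
      (hcl.inter (isClosed_le hΨ continuous_const)) fun y hy => by
        rw [mem_closedBall_zero_iff, le_div_iff₀' hδ]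
        exact (h2 y hy.1).trans hy.2
  obtain ⟨y, hy, hmin⟩ := hS.exists_isMinOn ⟨0, K.zero_mem, hM.ge⟩ hΨ.continuousOn
  have h3 : ∀ w ∈ K, ∑ a, c a * Real.exp (2 * y a) ≤ ∑ a, c a * Real.exp (2 * w a) := fun w hw => by
    rcases le_total (∑ a, c a * Real.exp (2 * w a)) M with h | h
    · exact hmin ⟨hw, h⟩
    · exact le_trans hy.2 h
  refine ⟨y, hy.1, fun z hz => ?_⟩
  have h4 : HasDerivAt (fun s : ℝ => ∑ a, c a * Real.exp (2 * (y a + s * z a)))
      (∑ a, c a * (Real.exp (2 * (y a + 0 * z a)) * (2 * (1 * z a)))) 0 :=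
    HasDerivAt.fun_sum fun a _ =>
      (((((hasDerivAt_id (0 : ℝ)).mul_const (z a)).const_add (y a)).const_mul 2).exp).const_mul _
  have h5 := IsLocalMin.hasDerivAt_eq_zero (Eventually.of_forall fun s => by
    simpa using h3 (y + s • z) (K.add_mem hy.1 (K.smul_mem s hz))) h4
  have h6 : 2 * ∑ a, c a * Real.exp (2 * y a) * z a = 0 := by
    rw [← h5, Finset.mul_sum]
    exact Finset.sum_congr rfl fun a _ => by rw [zero_mul, add_zero]; ring
  linarith

variable {m N : ℕ}

/-- The product of factorials. -/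
def fac (a : Fin m × Fin N →₀ ℕ) : ℝ := ∏ c, ((a c).factorial : ℝ)

theorem fac_pos (a : Fin m × Fin N →₀ ℕ) : 0 < fac a :=
  Finset.prod_pos fun c _ => by exact_mod_cast (a c).factorial_pos

/-- The Fischer product as a linear functional. -/
def phi (q : PP m N) : PP m N →ₗ[ℂ] ℂ :=
  ∑ a ∈ q.support, ((fac a : ℂ) * (starRingEnd ℂ) (coeff a q)) • lcoeff ℂ a

theorem phi_apply (p q : PP m N) :
    phi q p = ∑ a ∈ q.support, (fac a : ℂ) * (starRingEnd ℂ) (coeff a q) * coeff a p := by
  simp [phi, LinearMap.sum_apply]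

theorem fis_eq (p q : PP m N) : fis p q = phi q p := by
  classical
  rw [phi_apply, fis, Finset.sum_subset (s₁ := p.support)
    (Finset.subset_union_left (s₂ := q.support))
    fun a _ h => by rw [MvPolynomial.notMem_support_iff.mp h]; simp,
    Finset.sum_subset (s₁ := q.support) (Finset.subset_union_right (s₁ := p.support))
    fun a _ h => by rw [MvPolynomial.notMem_support_iff.mp h]; simp]
  refine Finset.sum_congr rfl fun a _ => ?_
  simp only [fac, Complex.ofReal_prod, Complex.ofReal_natCast]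
  ring

theorem phi_monomial (q : PP m N) (b : Fin m × Fin N →₀ ℕ) (w : ℂ) :
    phi q (monomial b w) = (fac b : ℂ) * (starRingEnd ℂ) (coeff b q) * w := by
  classical
  rw [phi_apply, Finset.sum_eq_single b]
  · simp
  · intro a _ h
    simp [coeff_monomial, h.symm]
  · intro h
    rw [MvPolynomial.notMem_support_iff.mp h]; simp

theorem fis_self (p : PP m N) : fis p p = (nrm p : ℝ) := by
  unfold fis nrm
  push_cast
  exact Finset.sum_congr rfl fun a _ => by rw [mul_assoc, Complex.mul_conj']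

/-- The infinitesimal action. -/
def der (A : Mat N) : Derivation ℂ (PP m N) (PP m N) := mkDerivation ℂ fun c => act A (X c)

theorem act_X (g : Mat N) (c : Fin m × Fin N) :
    act g (X c : PP m N) = ∑ l, C (g l c.2) * X (c.1, l) := aeval_X _ _

theorem der_act_X (A g : Mat N) (c : Fin m × Fin N) :
    der A (act g (X c : PP m N)) = act (A * g) (X c) := by
  rw [← act_act, act_X g, map_sum, map_sum]
  refine Finset.sum_congr rfl fun l _ => ?_
  rw [← smul_eq_C_mul, Derivation.map_smul, map_smul, der, mkDerivation_X]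

theorem der_act {A B v : Mat N} (h : A * v = v * B) (p : PP m N) :
    der A (act v p) = act v (der B p) := by
  induction p using MvPolynomial.induction_on with
  | C c => rw [show act v (C c : PP m N) = C c from (act v).commutes c]; simp
  | add p q hp hq => simp only [map_add, hp, hq]
  | mul_X p c hp =>
    rw [map_mul, Derivation.leibniz, Derivation.leibniz, hp, der_act_X, h, ← act_act]
    simp only [smul_eq_mul, map_add, map_mul, der, mkDerivation_X]

theorem der_monomial (B : Mat N) (a : Fin m × Fin N →₀ ℕ) (z : ℂ) :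
    der B (monomial a z : PP m N) = ∑ c, ∑ l, monomial
      (a - Finsupp.single c 1 + Finsupp.single (c.1, l) 1) (z * (a c * B l c.2)) := by
  rw [der, mkDerivation_monomial, Finsupp.sum_fintype _ _ (by simp), Finset.smul_sum]
  refine Finset.sum_congr rfl fun c _ => ?_
  rw [act_X, smul_eq_mul, Finset.mul_sum, Finset.smul_sum]
  refine Finset.sum_congr rfl fun l _ => ?_
  rw [X, C_mul_monomial, monomial_mul, smul_monomial, smul_eq_mul, mul_one]

theorem fis_der (B : Mat N) (q : PP m N) (h : ∀ a ∈ q.support, ∀ c l, l ≠ c.2 → a c ≠ 0 →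
    B l c.2 * coeff (a - Finsupp.single c 1 + Finsupp.single (c.1, l) 1) q = 0) :
    (fis (der B q) q).re =
      ∑ a ∈ q.support, fac a * ‖coeff a q‖ ^ 2 * wt (fun j => (B j j).re) a := by
  have h1 : der B q = ∑ a ∈ q.support, der B (monomial a (coeff a q)) := by
    rw [← map_sum, ← as_sum]
  rw [fis_eq, h1, map_sum, Complex.re_sum]
  refine Finset.sum_congr rfl fun a ha => ?_
  rw [der_monomial, map_sum, Complex.re_sum, wt, Finset.mul_sum]
  refine Finset.sum_congr rfl fun c _ => ?_
  rcases eq_or_ne (a c) 0 with h0 | h0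
  · simp [h0]
  rw [map_sum, Finset.sum_eq_single c.2 (fun l _ hl => ?_) (by simp), phi_monomial,
    tsub_add_cancel_of_le (Finsupp.single_le_iff.mpr (Nat.one_le_iff_ne_zero.mpr h0)),
    show (fac a : ℂ) * (starRingEnd ℂ) (coeff a q) * (coeff a q * (a c * B c.2 c.2)) =
      ((fac a * ‖coeff a q‖ ^ 2 * a c : ℝ) : ℂ) * B c.2 c.2 by
      push_cast
      rw [← Complex.mul_conj']
      ring, Complex.re_ofReal_mul, mul_assoc]
  rw [phi_monomial]
  rcases mul_eq_zero.mp (h a ha c l hl h0) with h2 | h2 <;> simp [h2]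

theorem wt_add (r : Fin N → ℝ) (a b : Fin m × Fin N →₀ ℕ) : wt r (a + b) = wt r a + wt r b := by
  simp [wt, add_mul, Finset.sum_add_distrib]

theorem wt_single (r : Fin N → ℝ) (c : Fin m × Fin N) : wt r (Finsupp.single c 1) = r c.2 := by
  rw [wt, Finset.sum_eq_single c]
  · simp
  · intro b _ hb
    simp [hb.symm]
  · simp

theorem support_dg (r : Fin N → ℝ) (q : PP m N) : (act (dg r) q).support = q.support := by
  ext a
  simp [coeff_act_dg]

theorem nrm_dg (r : Fin N → ℝ) (q : PP m N) (f : (Fin m × Fin N →₀ ℕ) → ℝ) :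
    ∑ a ∈ (act (dg r) q).support, fac a * ‖coeff a (act (dg r) q)‖ ^ 2 * f a =
      ∑ a ∈ q.support, fac a * ‖coeff a q‖ ^ 2 * Real.exp (2 * wt r a) * f a := by
  rw [support_dg]
  refine Finset.sum_congr rfl fun a _ => ?_
  rw [coeff_act_dg, norm_mul, Complex.norm_real, Real.norm_of_nonneg (Real.exp_pos _).le, mul_pow,
    two_mul, Real.exp_add]
  ring

theorem nrm_eq (q : PP m N) : nrm q = ∑ a ∈ q.support, fac a * ‖coeff a q‖ ^ 2 * 1 := by
  simp [nrm, fac]

/-- The criterion of Kempf and Ness. -/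
theorem minimal_of (hS : St_SVD) (hK : St_KN1) (p : PP m N) (χ : Fin N → ℝ) (c : ℝ)
    (hχ : Function.Injective χ) (hc : ∀ a ∈ p.support, wt χ a = c)
    (h : ∀ r : Fin N → ℝ, ∑ j, r j = 0 → ∑ a ∈ p.support, fac a * ‖coeff a p‖ ^ 2 * wt r a = 0) :
    Minimal p := fun g => by
  obtain ⟨u, v, r, hu, hv, hr, e⟩ := hS N g
  have hn : ∀ (u : Mat N), u ∈ Matrix.unitaryGroup (Fin N) ℂ → ∀ q : PP m N,
      nrm (act u q) = nrm q := fun u hu q => by
    have := hK u hu q q
    rw [fis_self, fis_self] at this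
    exact_mod_cast this
  set D : Mat N := Matrix.diagonal fun j => (r j : ℂ) with hD
  have hv1 : (v : Mat N) * star (v : Mat N) = 1 := Matrix.mem_unitaryGroup_iff.mp hv
  have h1 : D * (v : Mat N) = (v : Mat N) * (star (v : Mat N) * D * (v : Mat N)) := by
    rw [← mul_assoc, ← mul_assoc, hv1, one_mul]
  have h2 := fis_der D (act (v : Mat N) p) fun a _ c l hl _ => by
    rw [hD, Matrix.diagonal_apply_ne _ hl, zero_mul]
  have h3 := fis_der (star (v : Mat N) * D * (v : Mat N)) p fun a ha b l hl h0 => by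
    refine mul_eq_zero_of_right _ (MvPolynomial.notMem_support_iff.mp fun h4 => hl (hχ ?_))
    have h5 := hc _ h4
    have h6 := hc _ ha
    rw [← tsub_add_cancel_of_le (Finsupp.single_le_iff.mpr (Nat.one_le_iff_ne_zero.mpr h0)),
      wt_add, wt_single] at h6
    rw [wt_add, wt_single] at h5
    exact add_left_cancel (h5.trans h6.symm)
  rw [h _ (by
    rw [← Complex.re_sum]
    change (Matrix.trace (star (v : Mat N) * D * (v : Mat N))).re = 0
    rw [Matrix.trace_mul_comm, ← mul_assoc, hv1, one_mul, hD, Matrix.trace_diagonal,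
      ← Complex.ofReal_sum, hr, Complex.ofReal_re])] at h3
  rw [der_act h1, hK _ hv, h3] at h2
  simp only [hD, Matrix.diagonal_apply_eq, Complex.ofReal_re] at h2
  rw [e, ← act_act, ← act_act, hn _ hu, ← hn _ hv p, nrm_eq, nrm_eq, nrm_dg]
  generalize act (v : Mat N) p = q at h2
  calc ∑ a ∈ q.support, fac a * ‖coeff a q‖ ^ 2 * 1
      = ∑ a ∈ q.support, fac a * ‖coeff a q‖ ^ 2 * (2 * wt r a + 1) * 1 := by
        simp only [mul_one, mul_add, Finset.sum_add_distrib, mul_left_comm _ (2 : ℝ),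
          ← Finset.mul_sum]
        rw [← h2, mul_zero, zero_add]
    _ ≤ _ := Finset.sum_le_sum fun a _ => by
        have := fac_pos a
        gcongr
        exact Real.add_one_le_exp _

/-- Weights as a linear map. -/
def wtL (p : PP m N) : (Fin N → ℝ) →ₗ[ℝ] (p.support → ℝ) where
  toFun r a := wt r a.1
  map_add' r s := by
    funext a
    simp [wt, mul_add, Finset.sum_add_distrib]
  map_smul' t r := by
    funext a
    simp [wt, Finset.mul_sum, mul_left_comm]

end BKN3

open BKN3 in
theorem kn3_of (hS : St_SVD) (hK : St_KN1) : St_KN3 := by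
  intro m N p χ c hχ hc h
  obtain ⟨_, ⟨r, hr, rfl⟩, h1⟩ := exists_crit
    ((LinearMap.ker (∑ j, LinearMap.proj j : (Fin N → ℝ) →ₗ[ℝ] ℝ)).map (wtL p))
    (fun a => fac a.1 * ‖coeff a.1 p‖ ^ 2)
    (fun a => mul_pos (fac_pos _) (pow_pos (norm_pos_iff.mpr (MvPolynomial.mem_support_iff.mp a.2)) _))
    (by
      rintro _ ⟨r, hr, rfl⟩ h0
      funext a
      exact h r (by simpa using hr) (fun b hb => h0 ⟨b, hb⟩) a a.2)
  refine ⟨r, by simpa using hr, minimal_of hS hK _ χ c hχ (by rwa [support_dg]) fun s hs => ?_⟩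
  rw [nrm_dg, ← Finset.sum_coe_sort]
  exact h1 (wtL p s) ⟨s, by simpa using hs, rfl⟩

end Pool.Agent.Lib.MP_a25055_ag
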