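import Pool.Agent.Lib.MP_a25055_ag.Inv

/-! Block L1: every cubic surface contains a line. -/

open MvPolynomial Filter Topology Module

noncomputable section

namespace Pool.Agent.Lib.MP_a25055_ag

namespace BL1

theorem dich {R : Type*} [CommRing R] [IsDomain R] {S : Set (PrimeSpectrum R)}
    (hS : IsConstructible S) : ∃ h : R, h ≠ 0 ∧
      ((∀ p : PrimeSpectrum R, h ∉ p.asIdeal → p ∈ S) ∨
        (∀ p : PrimeSpectrum R, h ∉ p.asIdeal → p ∉ S)) := by
  induction hS using IsConstructible.empty_union_induction with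
  | open_retrocompact U hU _ =>
    rcases U.eq_empty_or_nonempty with rfl | ⟨p, hp⟩
    · exact ⟨1, one_ne_zero, Or.inr fun p _ h => h⟩
    · obtain ⟨_, ⟨h, rfl⟩, hph, hsub⟩ :=
        PrimeSpectrum.isTopologicalBasis_basic_opens.exists_subset_of_mem_open hp hU
      refine ⟨h, ?_, Or.inl fun q hq => hsub hq⟩
      rintro rfl
      exact hph p.asIdeal.zero_mem
  | union s _ t _ ihs iht =>
    obtain ⟨a, ha, hs⟩ := ihs
    obtain ⟨b, hb, ht⟩ := iht
    rcases hs with hs | hs
    · exact ⟨a, ha, Or.inl fun p hp => Or.inl (hs p hp)⟩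
    rcases ht with ht | ht
    · exact ⟨b, hb, Or.inl fun p hp => Or.inr (ht p hp)⟩
    refine ⟨a * b, mul_ne_zero ha hb, Or.inr fun p hp h => ?_⟩
    rcases h with h | h
    · exact hs p (fun h' => hp (p.asIdeal.mul_mem_right _ h')) h
    · exact ht p (fun h' => hp (p.asIdeal.mul_mem_left _ h')) h
  | compl s _ ih =>
    obtain ⟨a, ha, hs⟩ := ih
    rcases hs with hs | hs
    · exact ⟨a, ha, Or.inr fun p hp h => h (hs p hp)⟩
    · exact ⟨a, ha, Or.inl fun p hp => hs p hp⟩

theorem chev {R S : Type*} [CommRing R] [IsDomain R] [IsNoetherianRing R] [CommRing S]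
    [Algebra R S] [Algebra.FiniteType R S] (hinj : Function.Injective (algebraMap R S)) :
    ∃ h : R, h ≠ 0 ∧ ∀ p : PrimeSpectrum R, h ∉ p.asIdeal →
      p ∈ Set.range (PrimeSpectrum.comap (algebraMap R S)) := by
  have hfp : (algebraMap R S).FinitePresentation := by
    rw [RingHom.finitePresentation_algebraMap]
    exact Algebra.FinitePresentation.of_finiteType.1 inferInstance
  obtain ⟨h, h0, hh⟩ := dich (PrimeSpectrum.isConstructible_range_comap hfp)
  obtain ⟨q0, hq0, hq0'⟩ := Ideal.exists_comap_eq_of_mem_minimalPrimes_of_injective hinj ⊥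
    (by rw [IsDomain.minimalPrimes_eq_singleton_bot]; rfl)
  refine ⟨h, h0, ?_⟩
  rcases hh with hh | hh
  · exact hh
  · exact absurd ⟨⟨q0, hq0⟩, PrimeSpectrum.ext hq0'⟩
      (hh ⟨⊥, Ideal.isPrime_bot⟩ (by simpa using h0))

theorem dvd_eval_sub {R σ : Type*} [CommRing R] (d : R) (a b : σ → R)
    (h : ∀ k, d ∣ a k - b k) (g : MvPolynomial σ R) : d ∣ eval a g - eval b g := by
  induction g using MvPolynomial.induction_on with
  | C c => simp
  | add p q hp hq =>
    have : eval a (p + q) - eval b (p + q) = (eval a p - eval b p) + (eval a q - eval b q) := by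
      simp only [map_add]; ring
    rw [this]; exact dvd_add hp hq
  | mul_X p k hp =>
    have : eval a (p * X k) - eval b (p * X k) =
        (eval a p - eval b p) * a k + eval b p * (a k - b k) := by
      simp only [map_mul, eval_X]; ring
    rw [this]; exact dvd_add (hp.mul_right _) ((h k).mul_left _)

/-- Successive approximations. -/
def it {n : ℕ} (g : Fin n → MvPolynomial (Fin n) (Polynomial ℂ)) : ℕ → Fin n → Polynomial ℂ
  | 0 => fun _ => 0
  | m + 1 => fun k => -(Polynomial.X * eval (it g m) (g k))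

theorem it_dvd {n : ℕ} (g : Fin n → MvPolynomial (Fin n) (Polynomial ℂ)) (m : ℕ) :
    ∀ k, Polynomial.X ^ m ∣ it g m k - it g (m + 1) k := by
  induction m with
  | zero => simp
  | succ m ih =>
    intro k
    have : it g (m + 1) k - it g (m + 1 + 1) k =
        Polynomial.X * -(eval (it g m) (g k) - eval (it g (m + 1)) (g k)) := by
      conv_lhs => rw [it, it]
      ring
    rw [this, pow_succ']
    exact mul_dvd_mul_left _ ((dvd_neg).2 (dvd_eval_sub _ _ _ ih _))

theorem elim {n : ℕ} (G : Fin n → MvPolynomial (Fin n) ℂ) :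
    ∃ h : Polynomial ℂ, h ≠ 0 ∧ ∀ t : ℂ, h.eval t ≠ 0 →
      ∃ A : Fin n → ℂ, ∀ k, A k + t * eval A (G k) = 0 := by
  set g : Fin n → MvPolynomial (Fin n) (Polynomial ℂ) := fun k => map Polynomial.C (G k) with hg
  set F : Fin n → MvPolynomial (Fin n) (Polynomial ℂ) :=
    fun k => X k + C Polynomial.X * g k with hF
  set I : Ideal (MvPolynomial (Fin n) (Polynomial ℂ)) := Ideal.span (Set.range F) with hI
  set φ : Polynomial ℂ →+* MvPolynomial (Fin n) (Polynomial ℂ) ⧸ I :=
    algebraMap _ _ with hφ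
  have hφ' : ∀ p, φ p = Ideal.Quotient.mk I (C p) := fun p => rfl
  have hinj : Function.Injective φ := by
    rw [injective_iff_map_eq_zero]
    intro p hp
    rw [hφ', Ideal.Quotient.eq_zero_iff_mem] at hp
    have key : ∀ m : ℕ, Polynomial.X ^ m ∣ p := fun m => by
      have h1 : I ≤ Ideal.comap (eval (it g m)) (Ideal.span {Polynomial.X ^ m}) := by
        rw [hI, Ideal.span_le]
        rintro _ ⟨k, rfl⟩
        rw [SetLike.mem_coe, Ideal.mem_comap, Ideal.mem_span_singleton]
        have := it_dvd g m k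
        rw [it] at this
        simpa [hF] using this
      have h2 := h1 hp
      rwa [Ideal.mem_comap, Ideal.mem_span_singleton, eval_C] at h2
    refine Polynomial.eq_zero_of_dvd_of_natDegree_lt (key (p.natDegree + 1)) ?_
    simp
  obtain ⟨h, h0, hh'⟩ := chev (R := Polynomial ℂ) (S := MvPolynomial (Fin n) (Polynomial ℂ) ⧸ I)
    hinj
  refine ⟨h, h0, fun t ht => ?_⟩
  obtain ⟨q, hq⟩ := hh' ⟨RingHom.ker (Polynomial.evalRingHom t), RingHom.ker_isPrime _⟩
    (by simpa [RingHom.mem_ker] using ht)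
  have hq1 : Ideal.comap φ q.asIdeal = RingHom.ker (Polynomial.evalRingHom t) :=
    congrArg PrimeSpectrum.asIdeal hq
  set ψ : MvPolynomial (Fin n) (Polynomial ℂ) →+* MvPolynomial (Fin n) ℂ :=
    map (Polynomial.evalRingHom t) with hψ
  have hsurj : Function.Surjective ψ :=
    map_surjective _ fun c => ⟨Polynomial.C c, by simp⟩
  have hker : RingHom.ker ψ ≤ Ideal.comap (Ideal.Quotient.mk I) q.asIdeal := by
    rw [hψ, ker_map, Ideal.map_le_iff_le_comap, ← hq1]
    intro p hp
    exact hp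
  have hne : Ideal.map ψ I ≠ ⊤ := by
    intro htop
    have h1 : (1 : MvPolynomial (Fin n) ℂ) ∈ Ideal.map ψ I := by rw [htop]; trivial
    obtain ⟨x, hx, hx1⟩ := (Ideal.mem_map_iff_of_surjective ψ hsurj).1 h1
    have h2 : 1 - x ∈ RingHom.ker ψ := by
      rw [RingHom.mem_ker, map_sub, hx1, map_one, sub_self]
    have h3 := hker h2
    rw [Ideal.mem_comap, map_sub, Ideal.Quotient.eq_zero_iff_mem.2 hx, sub_zero, map_one] at h3
    exact q.isPrime.ne_top ((Ideal.eq_top_iff_one _).2 h3)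
  obtain ⟨M, hM, hle⟩ := Ideal.exists_le_maximal _ hne
  obtain ⟨A, rfl⟩ := isMaximal_iff_eq_vanishingIdeal_singleton.1 hM
  refine ⟨A, fun k => ?_⟩
  have h4 := hle (Ideal.mem_map_of_mem ψ (Ideal.subset_span ⟨k, rfl⟩ : F k ∈ I))
  rw [mem_vanishingIdeal_singleton_iff] at h4
  have h5 : ψ (F k) = X k + C t * G k := by
    have : (Polynomial.evalRingHom t).comp Polynomial.C = RingHom.id ℂ := by
      ext c; simp
    have h6 : ψ (g k) = G k := by
      rw [hψ, hg, MvPolynomial.map_map, this, MvPolynomial.map_id]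
    simp only [hF, map_add, map_mul, h6]
    simp [hψ]
  rw [h5] at h4
  simpa [aeval_eq_eval] using h4

theorem eval_smul_hom {σ : Type*} {g : MvPolynomial σ ℂ} {d : ℕ} (hg : g.IsHomogeneous d)
    (c : ℂ) (x : σ → ℂ) : eval (c • x) g = c ^ d * eval x g := by
  classical
  rw [eval_eq, eval_eq, Finset.mul_sum]
  refine Finset.sum_congr rfl fun a ha => ?_
  have h1 : ∑ i ∈ a.support, a i = d := by
    have := hg (mem_support_iff.1 ha)
    rw [← this]
    simp [Finsupp.weight_apply, Finsupp.sum]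
  simp only [Pi.smul_apply, smul_eq_mul, mul_pow, Finset.prod_mul_distrib,
    Finset.prod_pow_eq_pow_sum, h1]
  ring

theorem onLine_of {f : P4} (hf : f.IsHomogeneous 3) {x y : Fin 4 → ℂ}
    (h : ∀ u : ℂ, eval (x + u • y) f = 0) : OnLine f x y := by
  intro s t
  have hc : Continuous fun s : ℂ => eval (s • x + t • y) f :=
    (MvPolynomial.continuous_eval f).comp (by fun_prop)
  have := Continuous.ext_on (dense_compl_singleton (0 : ℂ)) hc continuous_const (f := fun s : ℂ =>
    eval (s • x + t • y) f) (g := fun _ => (0 : ℂ)) (fun s hs => by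
      have hs0 : s ≠ 0 := hs
      have : s • x + t • y = s • (x + (t / s) • y) := by
        rw [smul_add, smul_smul, mul_div_cancel₀ _ hs0]
      simp only [this, eval_smul_hom hf, h, mul_zero])
  exact congrFun this s

/-- The model cubic. -/
def f0 : P4 := X 0 ^ 2 * X 2 + X 1 ^ 2 * X 3

theorem f0_hom : f0.IsHomogeneous 3 :=
  (((isHomogeneous_X ℂ 0).pow 2).mul (isHomogeneous_X ℂ 2)).add
    (((isHomogeneous_X ℂ 1).pow 2).mul (isHomogeneous_X ℂ 3))

theorem expand {g : P4} (hg : g.IsHomogeneous 3) : ∃ G : Fin 4 → P4, ∀ (A : Fin 4 → ℂ) (u : ℂ),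
    eval (![1, 0, A 0, A 2] + u • ![0, 1, A 1, A 3]) g = ∑ k : Fin 4, eval A (G k) * u ^ (k : ℕ) := by
  set l : Fin 4 → Polynomial P4 := ![1, Polynomial.X,
    Polynomial.C (X 1) * Polynomial.X + Polynomial.C (X 0),
    Polynomial.C (X 3) * Polynomial.X + Polynomial.C (X 2)] with hl
  set Q : Polynomial P4 := aeval l (map (C : ℂ →+* P4) g) with hQ
  have hdeg : Q.natDegree ≤ 3 * 1 := by
    refine aeval_natDegree_le _ (hg.map _).totalDegree_le _ fun i => ?_
    fin_cases i
    · simp [hl]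
    · simp [hl]
    · exact Polynomial.natDegree_linear_le
    · exact Polynomial.natDegree_linear_le
  refine ⟨fun k => Q.coeff k, fun A u => ?_⟩
  have h1 : Polynomial.eval₂ (eval A) u Q = ∑ k ∈ Finset.range 4, eval A (Q.coeff k) * u ^ k :=
    Polynomial.eval₂_eq_sum_range' _ (by omega) u
  rw [Finset.sum_range] at h1
  rw [← h1, hQ]
  clear h1 hdeg hQ Q hg
  induction g using MvPolynomial.induction_on with
  | C c => simp
  | add p q hp hq => simp only [map_add, Polynomial.eval₂_add, hp, hq]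
  | mul_X p k hp =>
    rw [map_mul, map_mul, map_mul, Polynomial.eval₂_mul, hp, map_X, aeval_X, eval_X]
    congr 1
    fin_cases k <;> simp [hl, Polynomial.eval₂_add, Polynomial.eval₂_mul] <;> ring

theorem norm1 {z : Fin 4 → ℂ} (hz : z ≠ 0) : ∃ (c : ℂ) (i : Fin 4), (c • z) i = 1 ∧ ‖c • z‖ ≤ 1 := by
  obtain ⟨i, -, hi⟩ := Finset.exists_max_image Finset.univ (fun i => ‖z i‖) Finset.univ_nonempty
  have hzi : z i ≠ 0 := by
    intro h0
    apply hz
    funext j
    have := hi j (Finset.mem_univ _)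
    rw [h0, norm_zero] at this
    exact norm_le_zero_iff.1 this
  refine ⟨(z i)⁻¹, i, by simp [hzi], (pi_norm_le_iff_of_nonneg zero_le_one).2 fun j => ?_⟩
  rw [Pi.smul_apply, norm_smul, norm_inv, inv_mul_le_iff₀ (norm_pos_iff.2 hzi), mul_one]
  exact hi j (Finset.mem_univ _)

theorem normal {f : P4} {x y : Fin 4 → ℂ} (h : LinearIndependent ℂ ![x, y]) (hl : OnLine f x y) :
    ∃ x' y' : Fin 4 → ℂ, ‖x'‖ ≤ 1 ∧ ‖y'‖ ≤ 1 ∧ (∃ i j, x' i = 1 ∧ y' i = 0 ∧ y' j = 1) ∧
      OnLine f x' y' := by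
  rw [LinearIndependent.pair_iff] at h
  have hx : x ≠ 0 := fun h0 => one_ne_zero (h 1 0 (by simp [h0])).1
  obtain ⟨c, i, hi, hn⟩ := norm1 hx
  have hy : y - y i • c • x ≠ 0 := fun h0 =>
    one_ne_zero (h (-(y i * c)) 1 (by rw [← h0, smul_smul, neg_smul, one_smul]; abel)).2
  obtain ⟨e, j, hj, hn'⟩ := norm1 hy
  refine ⟨c • x, e • (y - y i • c • x), hn, hn', ⟨i, j, hi, ?_, hj⟩, fun s t => ?_⟩
  · rw [Pi.smul_apply, Pi.sub_apply, Pi.smul_apply, hi]; simp
  · have : s • c • x + t • e • (y - y i • c • x) = (s * c - t * e * y i * c) • x + (t * e) • y := by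
      funext k; simp; ring
    rw [this]; exact hl _ _

theorem closed (g : P4) : IsClosed {t : ℂ | ‖t‖ ≤ 2 ∧ ∃ x y : Fin 4 → ℂ, ‖x‖ ≤ 1 ∧ ‖y‖ ≤ 1 ∧
    (∃ i j, x i = 1 ∧ y i = 0 ∧ y j = 1) ∧ OnLine (f0 + C t * g) x y} := by
  set Z : Set (ℂ × (Fin 4 → ℂ) × (Fin 4 → ℂ)) := {p | ‖p.1‖ ≤ 2 ∧ ‖p.2.1‖ ≤ 1 ∧ ‖p.2.2‖ ≤ 1 ∧
    (∃ i j, p.2.1 i = 1 ∧ p.2.2 i = 0 ∧ p.2.2 j = 1) ∧
    ∀ s u : ℂ, eval (s • p.2.1 + u • p.2.2) f0 + p.1 * eval (s • p.2.1 + u • p.2.2) g = 0} with hZ
  have hcl : IsClosed Z := by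
    refine IsClosed.and (isClosed_le (by fun_prop) continuous_const)
      (IsClosed.and (isClosed_le (by fun_prop) continuous_const)
        (IsClosed.and (isClosed_le (by fun_prop) continuous_const) (IsClosed.and ?_ ?_)))
    · simp only [Set.ofPred_exists]
      refine isClosed_iUnion_of_finite fun i => isClosed_iUnion_of_finite fun j => ?_
      exact IsClosed.and (isClosed_eq (by fun_prop) continuous_const)
        (IsClosed.and (isClosed_eq (by fun_prop) continuous_const)
          (isClosed_eq (by fun_prop) continuous_const))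
    · simp only [Set.ofPred_forall]
      refine isClosed_iInter fun s => isClosed_iInter fun u => isClosed_eq ?_ continuous_const
      exact ((MvPolynomial.continuous_eval f0).comp (by fun_prop)).add
        (continuous_fst.mul ((MvPolynomial.continuous_eval g).comp (by fun_prop)))
  have hb : Bornology.IsBounded Z := by
    refine (Metric.isBounded_closedBall (x := 0) (r := 2)).subset fun p hp => ?_
    rw [mem_closedBall_zero_iff, Prod.norm_def, Prod.norm_def]
    exact max_le hp.1 (max_le (hp.2.1.trans one_le_two) (hp.2.2.1.trans one_le_two))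
  have := ((Metric.isCompact_of_isClosed_isBounded hcl hb).image continuous_fst).isClosed
  convert this using 1
  ext t
  simp only [Set.mem_ofPred_eq, Set.mem_image, hZ, OnLine, map_add, map_mul, eval_C]
  constructor
  · rintro ⟨h1, x, y, h2, h3, h4, h5⟩
    exact ⟨(t, x, y), ⟨h1, h2, h3, h4, h5⟩, rfl⟩
  · rintro ⟨⟨t', x, y⟩, ⟨h1, h2, h3, h4, h5⟩, rfl⟩
    exact ⟨h1, x, y, h2, h3, h4, h5⟩

theorem line (f : P4) (hf : f.IsHomogeneous 3) :
    ∃ x y, LinearIndependent ℂ ![x, y] ∧ OnLine f x y := by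
  have hg : (f - f0).IsHomogeneous 3 := hf.sub f0_hom
  obtain ⟨G, hG⟩ := expand hg
  obtain ⟨h, h0, hh⟩ := elim G
  have hd : Dense {t : ℂ | h.eval t ≠ 0} := by
    have := (Polynomial.finite_setOfPred_isRoot h0).countable.dense_compl ℂ
    exact this
  have h1 : (1 : ℂ) ∈ closure (Metric.ball (0 : ℂ) 2 ∩ {t : ℂ | h.eval t ≠ 0}) :=
    hd.open_subset_closure_inter Metric.isOpen_ball (by simp)
  have h2 := closure_minimal (fun t ht => ?_) (closed (f - f0)) h1
  · obtain ⟨-, x, y, -, -, ⟨i, j, hi, hi', hj⟩, hl⟩ := h2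
    refine ⟨x, y, LinearIndependent.pair_iff.2 fun s t hst => ?_, by simpa using hl⟩
    have e1 := congrFun hst i
    have e2 := congrFun hst j
    simp only [Pi.add_apply, Pi.smul_apply, hi, hi', hj, smul_eq_mul, mul_one, mul_zero,
      add_zero, Pi.zero_apply] at e1 e2
    refine ⟨e1, ?_⟩
    simpa [e1] using e2
  · obtain ⟨A, hA⟩ := hh t ht.2
    refine ⟨(mem_ball_zero_iff.1 ht.1).le, normal (x := ![1, 0, A 0, A 2])
      (y := ![0, 1, A 1, A 3]) (LinearIndependent.pair_iff.2 fun s u hsu => ?_)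
      (onLine_of (f0_hom.add (hg.C_mul t)) fun u => ?_)⟩
    · have e1 := congrFun hsu 0
      have e2 := congrFun hsu 1
      simp at e1 e2
      exact ⟨e1, e2⟩
    · rw [map_add, map_mul, eval_C, hG, Fin.sum_univ_four]
      simp [f0]
      linear_combination hA 0 + u * hA 1 + u ^ 2 * hA 2 + u ^ 3 * hA 3

end BL1

theorem l1_of : St_L1 := fun f hf _ => BL1.line f hf

end Pool.Agent.Lib.MP_a25055_ag
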