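import Pool.Agent.Lib.MP_a25055_ag.Inv

/-! Block L2: a smooth cubic surface with a line contains two skew lines. -/

open MvPolynomial

noncomputable section

namespace Pool.Agent.Lib.MP_a25055_ag

namespace BL2

abbrev V : Type := Fin 4 → ℂ

abbrev Tr : Type := V →ₗ[ℂ] V →ₗ[ℂ] V →ₗ[ℂ] ℂ

lemma pderiv_comm (i j : Fin 4) (f : P4) : pderiv i (pderiv j f) = pderiv j (pderiv i f) := by
  induction f using MvPolynomial.induction_on with
  | C c => simp
  | add p q hp hq => simp only [map_add, hp, hq]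
  | mul_X p k hp =>
    have h : ∀ a b : Fin 4, pderiv a (pderiv b (X k : P4)) = 0 := fun a b => by
      rw [pderiv_X]
      by_cases h : k = b
      · subst h; simp
      · simp [Pi.single_eq_of_ne h]
    simp only [pderiv_mul, map_add, hp, h]
    ring

lemma euler {f : P4} {n : ℕ} (hf : f.IsHomogeneous n) (p : V) :
    ∑ i, p i * eval p (pderiv i f) = n * eval p f := by
  have := congrArg (eval p) hf.sum_X_mul_pderiv
  simpa using this

lemma exists_tr {f : P4} (hf : f.IsHomogeneous 3) : ∃ T : Tr, (∀ a b c, T a b c = T b a c) ∧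
    (∀ a b c, T a b c = T a c b) ∧ (∀ p, T p p p = 6 * eval p f) ∧
    ∀ p i, T p p (Pi.single i 1) = 2 * eval p (pderiv i f) := by
  let c : Fin 4 → Fin 4 → Fin 4 → ℂ := fun i j k => eval 0 (pderiv i (pderiv j (pderiv k f)))
  let T : Tr := ∑ i, ∑ j, ∑ k, c i j k • (LinearMap.proj i : V →ₗ[ℂ] ℂ).smulRight
    ((LinearMap.proj j : V →ₗ[ℂ] ℂ).smulRight (LinearMap.proj k : V →ₗ[ℂ] ℂ))
  have hT : ∀ a b d, T a b d = ∑ i, ∑ j, ∑ k, c i j k * (a i * (b j * d k)) := fun a b d => by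
    simp [T, LinearMap.sum_apply]
  have h0 : ∀ p i j k, eval p (pderiv i (pderiv j (pderiv k f))) = c i j k := fun p i j k => by
    have h : (pderiv i (pderiv j (pderiv k f))).IsHomogeneous 0 :=
      ((hf.pderiv (i := k)).pderiv (i := j)).pderiv (i := i)
    rw [← totalDegree_zero_iff_isHomogeneous, totalDegree_eq_zero_iff_eq_C] at h
    simp only [c]
    rw [h, eval_C, eval_C]
  have h1 : ∀ (p : V) j k, ∑ i, p i * c i j k = eval p (pderiv j (pderiv k f)) := fun p j k => by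
    have := euler (n := 1) ((hf.pderiv (i := k)).pderiv (i := j)) p
    simpa only [h0, Nat.cast_one, one_mul] using this
  have h2 : ∀ (p d : V), T p p d = ∑ k, d k * (2 * eval p (pderiv k f)) := fun p d => by
    have e : ∀ k, 2 * eval p (pderiv k f) = ∑ j, p j * ∑ i, p i * c i j k := fun k => by
      have := euler (n := 2) (hf.pderiv (i := k)) p
      simp only [h1]
      rw [this]; norm_num
    simp only [hT, e, Fin.sum_univ_four]
    ring
  refine ⟨T, fun a b d => ?_, fun a b d => ?_, fun p => ?_, fun p i => ?_⟩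
  · rw [hT, hT, Finset.sum_comm]
    refine Finset.sum_congr rfl fun i _ => Finset.sum_congr rfl fun j _ =>
      Finset.sum_congr rfl fun k _ => ?_
    simp only [c]
    rw [pderiv_comm j i]; ring
  · rw [hT, hT]
    refine Finset.sum_congr rfl fun i _ => ?_
    rw [Finset.sum_comm]
    refine Finset.sum_congr rfl fun j _ => Finset.sum_congr rfl fun k _ => ?_
    simp only [c]
    rw [pderiv_comm k j]; ring
  · have := euler hf p
    rw [h2]
    simp only [Fin.sum_univ_four] at this ⊢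
    push_cast at this
    linear_combination 2 * this
  · rw [h2, Finset.sum_eq_single i]
    · simp
    · intro b _ hb; simp [Pi.single_eq_of_ne hb]
    · simp

/-! ### Roots -/

lemma root5 (c0 c1 c2 c3 c4 c5 : ℂ) (h : c5 ≠ 0 ∨ c4 ≠ 0 ∨ c2 ≠ 0) :
    ∃ t : ℂ, c5 * t ^ 5 + c4 * t ^ 4 + c3 * t ^ 3 + c2 * t ^ 2 + c1 * t + c0 = 0 := by
  let p : Polynomial ℂ := Polynomial.C c5 * Polynomial.X ^ 5 + Polynomial.C c4 * Polynomial.X ^ 4 +
    Polynomial.C c3 * Polynomial.X ^ 3 + Polynomial.C c2 * Polynomial.X ^ 2 +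
    Polynomial.C c1 * Polynomial.X + Polynomial.C c0
  have hd : 0 < p.degree := by
    rcases h with h | h | h
    · refine lt_of_lt_of_le (by norm_num) (Polynomial.le_degree_of_ne_zero (n := 5) ?_)
      simpa [p, Polynomial.coeff_X, Polynomial.coeff_C] using h
    · refine lt_of_lt_of_le (by norm_num) (Polynomial.le_degree_of_ne_zero (n := 4) ?_)
      simpa [p, Polynomial.coeff_X, Polynomial.coeff_C] using h
    · refine lt_of_lt_of_le (by norm_num) (Polynomial.le_degree_of_ne_zero (n := 2) ?_)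
      simpa [p, Polynomial.coeff_X, Polynomial.coeff_C] using h
  obtain ⟨t, ht⟩ := Complex.exists_root hd
  exact ⟨t, by simpa [p] using ht⟩

lemma root2 (a b c : ℂ) (h : a ≠ 0) : ∃ t : ℂ, a * t ^ 2 + b * t + c = 0 := by
  obtain ⟨t, ht⟩ := root5 c b a 0 0 0 (Or.inr (Or.inr h))
  exact ⟨t, by linear_combination ht⟩

lemma bq (a b c : ℂ) : ∃ s t : ℂ, (s ≠ 0 ∨ t ≠ 0) ∧ a * s ^ 2 + b * s * t + c * t ^ 2 = 0 := by
  by_cases h : a = 0
  · exact ⟨1, 0, Or.inl one_ne_zero, by simp [h]⟩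
  · obtain ⟨t, ht⟩ := root2 a b c h
    exact ⟨t, 1, Or.inr one_ne_zero, by linear_combination ht⟩

/-- The discriminant of the residual conic. -/
def dl (A B C D E G : ℂ) : ℂ :=
  4 * A * C * G + 6 * B * D * E - 3 * A * E ^ 2 - 3 * C * D ^ 2 - 4 * B ^ 2 * G

lemma quint (a0 a1 b0 b1 c0 c1 d0 d1 d2 e0 e1 e2 g0 g1 g2 g3 : ℂ)
    (h : dl a0 b0 c0 d0 e0 g0 ≠ 0 ∨ (a0 = 0 ∧ d0 = 0 ∧ g0 = 0 ∧
      a1 * e0 ^ 2 - 4 * b0 * d1 * e0 + 4 * b0 ^ 2 * g1 ≠ 0)) :
    ∃ t : ℂ, dl (a0 * t + a1) (b0 * t + b1) (c0 * t + c1) (d0 * t ^ 2 + 2 * d1 * t + d2)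
      (e0 * t ^ 2 + 2 * e1 * t + e2) (g0 * t ^ 3 + 3 * g1 * t ^ 2 + 3 * g2 * t + g3) = 0 := by
  obtain ⟨t, ht⟩ := root5 (dl a1 b1 c1 d2 e2 g3)
    (4 * a0 * c1 * g3 - 3 * a0 * e2 * e2 + 4 * a1 * c0 * g3 + 12 * a1 * c1 * g2 -
      12 * a1 * e1 * e2 - 8 * b0 * b1 * g3 + 6 * b0 * d2 * e2 - 12 * b1 * b1 * g2 +
      12 * b1 * d1 * e2 + 12 * b1 * d2 * e1 - 3 * c0 * d2 * d2 - 12 * c1 * d1 * d2)
    (4 * a0 * c0 * g3 + 12 * a0 * c1 * g2 - 12 * a0 * e1 * e2 + 12 * a1 * c0 * g2 +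
      12 * a1 * c1 * g1 - 6 * a1 * e0 * e2 - 12 * a1 * e1 * e1 - 4 * b0 * b0 * g3 -
      24 * b0 * b1 * g2 + 12 * b0 * d1 * e2 + 12 * b0 * d2 * e1 - 12 * b1 * b1 * g1 +
      6 * b1 * d0 * e2 + 24 * b1 * d1 * e1 + 6 * b1 * d2 * e0 - 12 * c0 * d1 * d2 -
      6 * c1 * d0 * d2 - 12 * c1 * d1 * d1)
    (12 * a0 * c0 * g2 + 12 * a0 * c1 * g1 - 6 * a0 * e0 * e2 - 12 * a0 * e1 * e1 +
      12 * a1 * c0 * g1 + 4 * a1 * c1 * g0 - 12 * a1 * e0 * e1 - 12 * b0 * b0 * g2 -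
      24 * b0 * b1 * g1 + 6 * b0 * d0 * e2 + 24 * b0 * d1 * e1 + 6 * b0 * d2 * e0 -
      4 * b1 * b1 * g0 + 12 * b1 * d0 * e1 + 12 * b1 * d1 * e0 - 6 * c0 * d0 * d2 -
      12 * c0 * d1 * d1 - 12 * c1 * d0 * d1)
    (12 * a0 * c0 * g1 + 4 * a0 * c1 * g0 - 12 * a0 * e0 * e1 + 4 * a1 * c0 * g0 -
      3 * a1 * e0 * e0 - 12 * b0 * b0 * g1 - 8 * b0 * b1 * g0 + 12 * b0 * d0 * e1 +
      12 * b0 * d1 * e0 + 6 * b1 * d0 * e0 - 12 * c0 * d0 * d1 - 3 * c1 * d0 * d0)
    (dl a0 b0 c0 d0 e0 g0) (by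
      rcases h with h | ⟨rfl, rfl, rfl, h⟩
      · exact Or.inl h
      · exact Or.inr (Or.inl fun h' => h (by linear_combination (-1 / 3) * h')))
  exact ⟨t, by unfold dl at ht ⊢; linear_combination ht⟩

lemma conic (A B C D E G : ℂ) (h : dl A B C D E G = 0) (h0 : ¬ (A = 0 ∧ B = 0 ∧ C = 0)) :
    ∃ s t a b : ℂ, (s ≠ 0 ∨ t ≠ 0) ∧ A * s ^ 2 + 2 * B * s * t + C * t ^ 2 = 0 ∧
      s * (D + 2 * a * A + 2 * b * B) + t * (E + 2 * a * B + 2 * b * C) = 0 ∧
      G + 3 * a * D + 3 * b * E + 3 * a ^ 2 * A + 6 * a * b * B + 3 * b ^ 2 * C = 0 := by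
  unfold dl at h
  by_cases hd : A * C - B ^ 2 = 0
  · by_cases hA : A = 0
    · have hB : B = 0 := by
        rw [hA] at hd
        exact pow_eq_zero_iff (two_ne_zero) |>.mp (by linear_combination -hd)
      have hC : C ≠ 0 := fun hC => h0 ⟨hA, hB, hC⟩
      have hD : D = 0 := by
        rw [hA, hB] at h
        exact pow_eq_zero_iff (two_ne_zero) |>.mp
          (mul_left_cancel₀ hC (by linear_combination (-1 / 3) * h))
      obtain ⟨b, hb⟩ := root2 (3 * C) (3 * E) G (mul_ne_zero three_ne_zero hC)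
      exact ⟨1, 0, 0, b, Or.inl one_ne_zero, by simp [hA], by simp [hB, hD],
        by linear_combination hb⟩
    · have h1 : A * E - B * D = 0 := pow_eq_zero_iff (two_ne_zero) |>.mp
        (by linear_combination (-A / 3) * h + (4 / 3 * A * G - D ^ 2) * hd)
      obtain ⟨a, ha⟩ := root2 (3 * A) (3 * D) G (mul_ne_zero three_ne_zero hA)
      exact ⟨-B, A, a, 0, Or.inr hA, by linear_combination A * hd, by linear_combination h1,
        by linear_combination ha⟩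
  · obtain ⟨s, t, hst, e⟩ := bq A (2 * B) C
    obtain ⟨k, hk⟩ : ∃ k, k * (A * C - B ^ 2) = 1 := ⟨_, inv_mul_cancel₀ hd⟩
    obtain ⟨a, ha⟩ : ∃ a, a = k * (B * E - C * D) / 2 := ⟨_, rfl⟩
    obtain ⟨b, hb⟩ : ∃ b, b = k * (B * D - A * E) / 2 := ⟨_, rfl⟩
    have e1 : D + 2 * a * A + 2 * b * B = 0 := by rw [ha, hb]; linear_combination -D * hk
    have e2 : E + 2 * a * B + 2 * b * C = 0 := by rw [ha, hb]; linear_combination -E * hk
    have e3 : G + 3 / 2 * a * D + 3 / 2 * b * E = 0 := by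
      rw [ha, hb]; linear_combination k / 4 * h - G * hk
    exact ⟨s, t, a, b, hst, e, by rw [e1, e2]; ring,
      by linear_combination e3 + 3 / 2 * a * e1 + 3 / 2 * b * e2⟩

/-! ### Geometry -/

def Ind (x y z w : V) : Prop :=
  ∀ a b c d : ℂ, a • x + b • y + c • z + d • w = 0 → a = 0 ∧ b = 0 ∧ c = 0 ∧ d = 0

lemma ind_iff {x y z w : V} : LinearIndependent ℂ ![x, y, z, w] ↔ Ind x y z w := by
  rw [Fintype.linearIndependent_iff]
  constructor
  · intro h a b c d e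
    have := h ![a, b, c, d] (by simpa [Fin.sum_univ_four] using e)
    exact ⟨this 0, this 1, this 2, this 3⟩
  · intro h g e i
    obtain ⟨h0, h1, h2, h3⟩ := h (g 0) (g 1) (g 2) (g 3) (by simpa [Fin.sum_univ_four] using e)
    fin_cases i <;> assumption

def Ln (T : Tr) (x y : V) : Prop := T x x x = 0 ∧ T x x y = 0 ∧ T x y y = 0 ∧ T y y y = 0

structure Good (T : Tr) : Prop where
  s1 : ∀ a b c, T a b c = T b a c
  s2 : ∀ a b c, T a b c = T a c b
  sm : ∀ p, p ≠ 0 → T p p ≠ 0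

variable {T : Tr} {x y z w : V}

lemma Good.sing (h : Good T) (hi : Ind x y z w) {p : V} (hp : p ≠ 0) (h0 : T p p x = 0)
    (h1 : T p p y = 0) (h2 : T p p z = 0) (h3 : T p p w = 0) : False := by
  refine h.sm p hp (LinearMap.ext_on_range
    ((ind_iff.mpr hi).span_eq_top_of_card_eq_finrank (by simp)) fun i => ?_)
  fin_cases i <;> assumption

lemma Ind.ne (hi : Ind x y z w) {s t : ℂ} (h : s ≠ 0 ∨ t ≠ 0) : s • x + t • y ≠ 0 := fun e => by
  obtain ⟨h0, h1, -⟩ := hi s t 0 0 (by simpa using e)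
  tauto

lemma Good.nodouble (h : Good T) (hi : Ind x y z w) (hl : Ln T x y) :
    ¬ (T x x z = 0 ∧ T x y z = 0 ∧ T y y z = 0) := by
  rintro ⟨a, b, c⟩
  obtain ⟨l1, l2, l3, l4⟩ := hl
  obtain ⟨s, t, hst, e⟩ := bq (T x x w) (2 * T x y w) (T y y w)
  refine h.sing hi (hi.ne hst) ?_ ?_ ?_ ?_ <;>
    simp only [map_add, map_smul, LinearMap.add_apply, LinearMap.smul_apply, smul_eq_mul,
      fun c => h.s1 y x c, fun c => h.s2 c y x, l1, l2, l3, l4, a, b, c]
  exacts [by ring, by ring, by ring, by linear_combination e]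

lemma Good.step (h : Good T) (hi : Ind x y z w) (hl : Ln T x y)
    (hd : dl (T x x z) (T x y z) (T y y z) (T x z z) (T y z z) (T z z z) = 0) :
    ∃ s t a b : ℂ, (s ≠ 0 ∨ t ≠ 0) ∧ Ln T (s • x + t • y) (z + a • x + b • y) := by
  obtain ⟨s, t, a, b, hst, e1, e2, e3⟩ := conic _ _ _ _ _ _ hd (h.nodouble hi hl)
  obtain ⟨l1, l2, l3, l4⟩ := hl
  refine ⟨s, t, a, b, hst, ?_, ?_, ?_, ?_⟩ <;>
    simp only [map_add, map_smul, LinearMap.add_apply, LinearMap.smul_apply, smul_eq_mul,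
      fun c => h.s1 y x c, fun c => h.s2 c y x, fun c => h.s1 z x c, fun c => h.s2 c z x,
      fun c => h.s1 z y c, fun c => h.s2 c z y, l1, l2, l3, l4]
  · ring
  · linear_combination e1
  · linear_combination e2
  · linear_combination e3

lemma Good.root (h : Good T) (hd : dl (T x x z) (T x y z) (T y y z) (T x z z) (T y z z)
    (T z z z) ≠ 0 ∨ (T x x z = 0 ∧ T x z z = 0 ∧ T z z z = 0 ∧
      T x x w * T y z z ^ 2 - 4 * T x y z * T x z w * T y z z + 4 * T x y z ^ 2 * T z z w ≠ 0)) :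
    ∃ (t : ℂ) (u : V), u = t • z + w ∧
      dl (T x x u) (T x y u) (T y y u) (T x u u) (T y u u) (T u u u) = 0 := by
  obtain ⟨t, ht⟩ := quint (T x x z) (T x x w) (T x y z) (T x y w) (T y y z) (T y y w) (T x z z)
    (T x z w) (T x w w) (T y z z) (T y z w) (T y w w) (T z z z) (T z z w) (T z w w) (T w w w) hd
  refine ⟨t, _, rfl, ?_⟩
  rw [← ht]
  simp only [map_add, map_smul, LinearMap.add_apply, LinearMap.smul_apply, smul_eq_mul,
    fun c => h.s1 w z c, fun c => h.s2 c w z]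
  congr 1 <;> ring

lemma Good.first (h : Good T) (hi : Ind x y z w) (hl : Ln T x y)
    (hd : dl (T x x z) (T x y z) (T y y z) (T x z z) (T y z z) (T z z z) = 0) :
    ∃ x y z w, Ind x y z w ∧ Ln T x y ∧ Ln T x z := by
  obtain ⟨s, t, a, b, hst, hL⟩ := h.step hi hl hd
  obtain ⟨l1, l2, l3, l4⟩ := hl
  rcases hst with hs | ht
  · refine ⟨_, y, _, w, fun c0 c1 c2 c3 e => ?_, ⟨hL.1, ?_, ?_, l4⟩, hL⟩
    · obtain ⟨e0, e1, e2, e3⟩ := hi (c0 * s + c2 * a) (c0 * t + c1 + c2 * b) c2 c3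
        (by rw [← e]; module)
      have e4 : c0 = 0 := by simpa [e2, hs] using e0
      exact ⟨e4, by simpa [e2, e4] using e1, e2, e3⟩
    all_goals
      simp [fun c => h.s1 y x c, l2, l3, l4]
  · refine ⟨_, x, _, w, fun c0 c1 c2 c3 e => ?_, ⟨hL.1, ?_, ?_, l1⟩, hL⟩
    · obtain ⟨e0, e1, e2, e3⟩ := hi (c0 * s + c1 + c2 * a) (c0 * t + c2 * b) c2 c3
        (by rw [← e]; module)
      have e4 : c0 = 0 := by simpa [e2, ht] using e1
      exact ⟨e4, by simpa [e2, e4] using e0, e2, e3⟩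
    all_goals
      simp [fun c => h.s1 y x c, fun c => h.s2 c y x, l1, l2, l3]

lemma Ind.shear (hi : Ind x y z w) (t : ℂ) : Ind x y (t • z + w) z := fun c0 c1 c2 c3 e => by
  obtain ⟨e0, e1, e2, e3⟩ := hi c0 c1 (c2 * t + c3) c2 (by rw [← e]; module)
  exact ⟨e0, e1, e3, by simpa [e3] using e2⟩

lemma Good.two (h : Good T) (hi : Ind x y z w) (hl : Ln T x y) :
    ∃ x y z w, Ind x y z w ∧ Ln T x y ∧ Ln T x z := by
  by_cases hd : dl (T x x z) (T x y z) (T y y z) (T x z z) (T y z z) (T z z z) = 0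
  · exact h.first hi hl hd
  · obtain ⟨t, u, rfl, hu⟩ := h.root (w := w) (Or.inl hd)
    exact h.first (hi.shear t) hl hu

lemma Good.skew (h : Good T) (hi : Ind x y z w) (hl : Ln T x y) (hm : Ln T x z) :
    ∃ a b c d, Ind a b c d ∧ Ln T a b ∧ Ln T c d := by
  have hi' : Ind x z y w := fun c0 c1 c2 c3 e => by
    obtain ⟨e0, e1, e2, e3⟩ := hi c0 c2 c1 c3 (by rw [← e]; module)
    exact ⟨e0, e2, e1, e3⟩
  have key : T x x w * T y z z ^ 2 - 4 * T x y z * T x z w * T y z z +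
      4 * T x y z ^ 2 * T z z w ≠ 0 := by
    intro e
    obtain ⟨l1, l2, -, -⟩ := hl
    by_cases h0 : T y z z ≠ 0 ∨ -2 * T x y z ≠ 0
    · obtain ⟨-, m2, m3, m4⟩ := hm
      refine h.sing hi (hi'.ne h0) ?_ ?_ ?_ ?_ <;>
        simp only [map_add, map_smul, LinearMap.add_apply, LinearMap.smul_apply, smul_eq_mul,
          fun c => h.s1 z x c, fun c => h.s2 c z x,
          fun c => h.s1 z y c, fun c => h.s2 c z y, l1, l2, m2, m3, m4]
      exacts [by ring, by ring, by ring, by linear_combination e]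
    · push Not at h0
      refine h.nodouble hi' hm ⟨l2, ?_, ?_⟩
      · rw [h.s2]; linear_combination (-1 / 2) * h0.2
      · rw [h.s2, h.s1, h0.1]
  obtain ⟨r, u, rfl, hu⟩ := h.root (x := x) (y := y) (z := z) (w := w)
    (Or.inr ⟨hm.2.1, hm.2.2.1, hm.2.2.2, key⟩)
  obtain ⟨s, t, a, b, hst, hL⟩ := h.step (hi.shear r) hl hu
  have ht : t ≠ 0 := by
    rintro rfl
    have hs : s ≠ 0 := by simpa using hst
    have e := hL.2.1
    simp only [map_add, map_smul, LinearMap.smul_apply, smul_eq_mul,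
      zero_smul, add_zero, hl.1, hl.2.1, hm.2.1, mul_zero, zero_add, mul_eq_zero, hs,
      false_or] at e
    exact h.sing hi (by simpa using hi.ne (s := 1) (t := 0) (Or.inl one_ne_zero)) hl.1 hl.2.1
      hm.2.1 e
  refine ⟨x, z, _, _, fun c0 c1 c2 c3 e => ?_, hm, hL⟩
  obtain ⟨e0, e1, e2, e3⟩ := hi (c0 + c2 * s + c3 * a) (c2 * t + c3 * b) (c1 + c3 * r) c3
    (by rw [← e]; module)
  have e4 : c2 = 0 := by simpa [e3, ht] using e1
  exact ⟨by simpa [e3, e4] using e0, by simpa [e3] using e2, e4, e3⟩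

end BL2

open BL2 in
theorem l2_of : St_L2 := by
  intro f x y hf hs hxy hl
  obtain ⟨T, s1, s2, h3, h2⟩ := exists_tr hf
  have hG : Good T := ⟨s1, s2, fun p hp e => by
    obtain ⟨i, hi⟩ := hs p hp
    have := h2 p i
    rw [e] at this
    exact hi (by simpa using this)⟩
  have hL : ∀ a b, OnLine f a b ↔ Ln T a b := fun a b => by
    have e : ∀ s t : ℂ, 6 * eval (s • a + t • b) f =
        s ^ 3 * T a a a + 3 * s ^ 2 * t * T a a b + 3 * s * t ^ 2 * T a b b + t ^ 3 * T b b b := by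
      intro s t
      rw [← h3]
      simp only [map_add, map_smul, LinearMap.add_apply, LinearMap.smul_apply, smul_eq_mul,
        fun c => s1 b a c, fun c => s2 c b a]
      ring
    constructor
    · intro h
      have e1 := e 1 0
      have e2 := e 0 1
      have e3 := e 1 1
      have e4 := e 1 (-1)
      rw [h] at e1 e2 e3 e4
      exact ⟨by linear_combination -e1, by linear_combination (e4 - e3) / 6 + e2 / 3,
        by linear_combination -(e4 + e3) / 6 + e1 / 3, by linear_combination -e2⟩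
    · rintro ⟨l1, l2, l3, l4⟩ s t
      have := e s t
      rw [l1, l2, l3, l4] at this
      linear_combination this / 6
  obtain ⟨z, hz⟩ := exists_linearIndependent_cons_of_lt_finrank hxy (by simp)
  obtain ⟨w, hw⟩ := exists_linearIndependent_cons_of_lt_finrank hz (by simp)
  have hi : Ind w z x y := ind_iff.mp hw
  have hi' : Ind x y z w := fun c0 c1 c2 c3 e => by
    obtain ⟨e0, e1, e2, e3⟩ := hi c3 c2 c0 c1 (by rw [← e]; module)
    exact ⟨e2, e3, e1, e0⟩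
  obtain ⟨x', y', z', w', j, l1, l2⟩ := hG.two hi' ((hL x y).mp hl)
  obtain ⟨a, b, c, d, k, m1, m2⟩ := hG.skew j l1 l2
  exact ⟨a, b, c, d, ind_iff.mpr k, (hL a b).mpr m1, (hL c d).mpr m2⟩

end Pool.Agent.Lib.MP_a25055_ag
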