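import Pool.Agent.Lib.MP_a25055_ag.BL2

/-! Block L3: normal form of a smooth cubic surface with two skew lines. -/

open MvPolynomial

noncomputable section

namespace Pool.Agent.Lib.MP_a25055_ag

namespace BL3

open BL2

theorem chain (M : Mat 4) (f : P4) (v : Fin 4 → ℂ) (i : Fin 4) :
    eval v (pderiv i (sub4 M f)) = ∑ j, M i j * eval (Matrix.vecMul v M) (pderiv j f) := by
  induction f using MvPolynomial.induction_on with
  | C c => simp [sub4]
  | add p q hp hq => simp only [map_add, hp, hq, mul_add, Finset.sum_add_distrib]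
  | mul_X p k hp =>
    have h1 : eval v (pderiv i (sub4 M (X k))) = M i k := by
      simp only [sub4, aeval_X, map_sum, pderiv_C_mul, pderiv_X, map_mul, eval_C]
      rw [Finset.sum_eq_single i]
      · simp
      · intro b _ hb; simp [Pi.single_eq_of_ne hb]
      · simp
    have h2 : ∑ j, M i j * (eval (Matrix.vecMul v M) p *
        eval (Matrix.vecMul v M) (pderiv j (X k : P4))) = M i k * eval (Matrix.vecMul v M) p := by
      rw [Finset.sum_eq_single k]
      · simp
      · intro b _ hb; simp [pderiv_X, Pi.single_eq_of_ne hb.symm]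
      · simp
    simp only [map_mul, pderiv_mul, map_add, hp, h1, eval_sub4, mul_add, Finset.sum_add_distrib,
      h2, Finset.sum_mul, mul_assoc]
    ring

theorem smooth_sub {M : Mat 4} (hM : M.det ≠ 0) {f : P4} (hf : Smooth4 f) :
    Smooth4 (sub4 M f) := by
  intro v hv
  by_contra hc
  push Not at hc
  have h1 : Matrix.vecMul v M ≠ 0 := fun h => hv (Matrix.eq_zero_of_vecMul_eq_zero hM h)
  obtain ⟨j, hj⟩ := hf _ h1
  have h2 : M.mulVec (fun j => eval (Matrix.vecMul v M) (pderiv j f)) = 0 := by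
    funext i
    exact (chain M f v i).symm.trans (hc i)
  exact hj (congrFun (Matrix.eq_zero_of_mulVec_eq_zero hM h2) j)

theorem quintic (a0 a1 a2 b0 b1 b2 l0 l1 m0 m1 n0 n1 : ℂ) : ∃ s t : ℂ, (s ≠ 0 ∨ t ≠ 0) ∧
    (b0 * s ^ 2 + 2 * b1 * s * t + b2 * t ^ 2) ^ 2 * (l0 * s + l1 * t) -
      2 * (a0 * s ^ 2 + 2 * a1 * s * t + a2 * t ^ 2) * (b0 * s ^ 2 + 2 * b1 * s * t + b2 * t ^ 2) *
        (m0 * s + m1 * t) +
      (a0 * s ^ 2 + 2 * a1 * s * t + a2 * t ^ 2) ^ 2 * (n0 * s + n1 * t) = 0 := by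
  by_cases h : b0 * b0 * l0 + (-2) * a0 * b0 * m0 + a0 * a0 * n0 = 0
  · exact ⟨1, 0, Or.inl one_ne_zero, by linear_combination h⟩
  · obtain ⟨s, hs⟩ := root5 (b2 * b2 * l1 + (-2) * a2 * b2 * m1 + a2 * a2 * n1)
      (4 * b1 * b2 * l1 + b2 * b2 * l0 + (-4) * a1 * b2 * m1 + (-4) * a2 * b1 * m1 +
        (-2) * a2 * b2 * m0 + 4 * a1 * a2 * n1 + a2 * a2 * n0)
      (2 * b0 * b2 * l1 + 4 * b1 * b1 * l1 + 4 * b1 * b2 * l0 + (-2) * a0 * b2 * m1 +
        (-8) * a1 * b1 * m1 + (-2) * a2 * b0 * m1 + (-4) * a1 * b2 * m0 + (-4) * a2 * b1 * m0 +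
        2 * a0 * a2 * n1 + 4 * a1 * a1 * n1 + 4 * a1 * a2 * n0)
      (4 * b0 * b1 * l1 + 2 * b0 * b2 * l0 + 4 * b1 * b1 * l0 + (-4) * a0 * b1 * m1 +
        (-4) * a1 * b0 * m1 + (-2) * a0 * b2 * m0 + (-8) * a1 * b1 * m0 + (-2) * a2 * b0 * m0 +
        4 * a0 * a1 * n1 + 2 * a0 * a2 * n0 + 4 * a1 * a1 * n0)
      (b0 * b0 * l1 + 4 * b0 * b1 * l0 + (-2) * a0 * b0 * m1 + (-4) * a0 * b1 * m0 +
        (-4) * a1 * b0 * m0 + a0 * a0 * n1 + 4 * a0 * a1 * n0) _ (Or.inl h)
    exact ⟨s, 1, Or.inr one_ne_zero, by linear_combination hs⟩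

theorem pair (T : Tr) (h1 : ∀ a b c, T a b c = T b a c) (h2 : ∀ a b c, T a b c = T a c b)
    (x y z w : V) : ∃ s t c d : ℂ, (s ≠ 0 ∨ t ≠ 0) ∧ (c ≠ 0 ∨ d ≠ 0) ∧
      T (s • x + t • y) (s • x + t • y) (c • z + d • w) = 0 ∧
      T (s • x + t • y) (c • z + d • w) (c • z + d • w) = 0 := by
  obtain ⟨s, t, hst, h⟩ := quintic (T x x z) (T x y z) (T y y z) (T x x w) (T x y w) (T y y w)
    (T x z z) (T y z z) (T x z w) (T y z w) (T x w w) (T y w w)
  set p := s • x + t • y with hp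
  have e1 : ∀ u, T p p u = T x x u * s ^ 2 + 2 * T x y u * s * t + T y y u * t ^ 2 := fun u => by
    simp only [hp, map_add, map_smul, LinearMap.add_apply, LinearMap.smul_apply, smul_eq_mul,
      h1 y x]
    ring
  have e2 : ∀ u v, T p u v = T x u v * s + T y u v * t := fun u v => by
    simp only [hp, map_add, map_smul, LinearMap.add_apply, LinearMap.smul_apply, smul_eq_mul]
    ring
  rw [← e1, ← e1, ← e2, ← e2, ← e2] at h
  have e3 : ∀ c d : ℂ, T p p (c • z + d • w) = c * T p p z + d * T p p w := fun c d => by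
    simp only [map_add, map_smul, smul_eq_mul]
  have e4 : ∀ c d : ℂ, T p (c • z + d • w) (c • z + d • w) =
      T p z z * c ^ 2 + 2 * T p z w * c * d + T p w w * d ^ 2 := fun c d => by
    simp only [map_add, map_smul, LinearMap.add_apply, LinearMap.smul_apply, smul_eq_mul,
      h2 p w z]
    ring
  by_cases h0 : T p p w = 0 ∧ T p p z = 0
  · obtain ⟨c, d, hcd, h'⟩ := bq (T p z z) (2 * T p z w) (T p w w)
    exact ⟨s, t, c, d, hst, hcd, by rw [e3, h0.1, h0.2]; ring, by rw [e4]; exact h'⟩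
  · refine ⟨s, t, T p p w, -T p p z, hst, ?_, by rw [e3]; ring, by rw [e4]; linear_combination h⟩
    rw [neg_ne_zero]
    exact not_and_or.1 h0

theorem compl {s t : ℂ} (h : s ≠ 0 ∨ t ≠ 0) : ∃ s' t' : ℂ, s * t' - t * s' = 1 := by
  rcases h with h | h
  · exact ⟨0, s⁻¹, by simp [h]⟩
  · exact ⟨-t⁻¹, 0, by simp [h]⟩

end BL3

open BL2 BL3 in
theorem l3_of : St_L3 := by
  intro f x y z w hf hs hli hxy hzw
  obtain ⟨T, h1, h2, h3, -⟩ := exists_tr hf
  obtain ⟨s, t, c, d, hst, hcd, e1, e2⟩ := pair T h1 h2 x y z w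
  obtain ⟨s', t', hs'⟩ := compl hst
  obtain ⟨c', d', hc'⟩ := compl hcd
  set p := s • x + t • y with hp
  set p' := s' • x + t' • y with hp'
  set q := c • z + d • w with hq
  set q' := c' • z + d' • w with hq'
  set M : Mat 4 := Matrix.of ![p, p', q, q'] with hM
  have hv : ∀ v : V, Matrix.vecMul v M = (v 0 • p + v 1 • p') + (v 2 • q + v 3 • q') := fun v => by
    funext j
    simp [hM, Matrix.vecMul, dotProduct, Fin.sum_univ_four]
    ring
  have hdet : M.det ≠ 0 := by
    intro h0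
    obtain ⟨v, hv0, hv1⟩ := Matrix.exists_vecMul_eq_zero_iff.2 h0
    rw [hv] at hv1
    have := Fintype.linearIndependent_iff.1 hli
      ![v 0 * s + v 1 * s', v 0 * t + v 1 * t', v 2 * c + v 3 * c', v 2 * d + v 3 * d'] (by
        rw [← hv1, Fin.sum_univ_four]
        funext j
        simp [hp, hp', hq, hq']
        ring)
    have a0 : v 0 * s + v 1 * s' = 0 := this 0
    have a1 : v 0 * t + v 1 * t' = 0 := this 1
    have a2 : v 2 * c + v 3 * c' = 0 := this 2
    have a3 : v 2 * d + v 3 * d' = 0 := this 3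
    apply hv0
    funext j
    fin_cases j
    · change v 0 = 0
      linear_combination t' * a0 - s' * a1 - v 0 * hs'
    · change v 1 = 0
      linear_combination s * a1 - t * a0 - v 1 * hs'
    · change v 2 = 0
      linear_combination d' * a2 - c' * a3 - v 2 * hc'
    · change v 3 = 0
      linear_combination c * a3 - d * a2 - v 3 * hc'
  have key : sub4 M f = skew
      ![T p p q' / 2, T p p' q, T p p' q', T p' p' q / 2, T p' p' q' / 2]
      ![T p q q', T p q' q' / 2, T p' q q / 2, T p' q q', T p' q' q' / 2] := by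
    refine MvPolynomial.funext fun v => ?_
    rw [eval_sub4, hv]
    set u := v 0 • p + v 1 • p' with hu
    set u' := v 2 • q + v 3 • q' with hu'
    have z1 : T u u u = 0 := by
      have : u = (v 0 * s + v 1 * s') • x + (v 0 * t + v 1 * t') • y := by
        funext j; simp [hu, hp, hp']; ring
      rw [h3, this, hxy, mul_zero]
    have z2 : T u' u' u' = 0 := by
      have : u' = (v 2 * c + v 3 * c') • z + (v 2 * d + v 3 * d') • w := by
        funext j; simp [hu', hq, hq']; ring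
      rw [h3, this, hzw, mul_zero]
    have z3 : 6 * eval (u + u') f = 3 * T u u u' + 3 * T u u' u' := by
      rw [← h3]
      simp only [map_add, LinearMap.add_apply, z1, z2, h1 u' u, h2 u u' u, ← h2 u' u u']
      ring
    have z4 : T u u u' = v 0 ^ 2 * v 3 * T p p q' + 2 * v 0 * v 1 * v 2 * T p p' q +
        2 * v 0 * v 1 * v 3 * T p p' q' + v 1 ^ 2 * v 2 * T p' p' q +
        v 1 ^ 2 * v 3 * T p' p' q' := by
      simp only [hu, hu', map_add, map_smul, LinearMap.add_apply, LinearMap.smul_apply,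
        smul_eq_mul, h1 p' p, e1]
      ring
    have z5 : T u u' u' = 2 * v 0 * v 2 * v 3 * T p q q' + v 0 * v 3 ^ 2 * T p q' q' +
        v 1 * v 2 ^ 2 * T p' q q + 2 * v 1 * v 2 * v 3 * T p' q q' +
        v 1 * v 3 ^ 2 * T p' q' q' := by
      simp only [hu, hu', map_add, map_smul, LinearMap.add_apply, LinearMap.smul_apply,
        smul_eq_mul, h2 _ q' q, e2]
      ring
    simp only [skew, map_add, map_mul, map_pow, eval_C, eval_X, Matrix.cons_val]
    linear_combination (1 / 6) * z3 + (1 / 2) * z4 + (1 / 2) * z5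
  exact ⟨M, _, _, hdet, key, key ▸ smooth_sub hdet hs⟩

end Pool.Agent.Lib.MP_a25055_ag
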