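import Pool.Agent.Lib.MP_a25055_ag.BA1
import Pool.Agent.Lib.MP_a25055_ag.BL2

/-! Block N1: the normal form at a node. -/

open MvPolynomial

noncomputable section

namespace Pool.Agent.Lib.MP_a25055_ag

namespace BN1

abbrev V : Type := Fin 4 → ℂ

lemma scale (B : V →ₗ[ℂ] V →ₗ[ℂ] ℂ) {u : V} (h : B u u ≠ 0) : ∃ c : ℂ, B (c • u) (c • u) = 2 := by
  obtain ⟨c, hc⟩ := IsAlgClosed.exists_eq_mul_self (2 / B u u)
  refine ⟨c, ?_⟩
  simp only [map_smul, LinearMap.smul_apply, smul_eq_mul]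
  rw [← mul_assoc, ← hc, div_mul_cancel₀ _ h]

/-- A quadratic form that is not a product has three orthogonal anisotropic vectors. -/
lemma frame (B : V →ₗ[ℂ] V →ₗ[ℂ] ℂ) (hs : ∀ a b, B a b = B b a)
    (hn : ∀ l l' : V →ₗ[ℂ] ℂ, ¬ ∀ v, B v v = 2 * (l v * l' v)) :
    ∃ e0 e1 e2 : V, B e0 e0 = 0 ∧ B e0 e1 = 0 ∧ B e0 e2 = -1 ∧ B e1 e1 = 2 ∧ B e1 e2 = 0 ∧
      B e2 e2 = 0 := by
  obtain ⟨u, hu⟩ : ∃ u, B u u ≠ 0 := by
    by_contra! h
    exact hn 0 0 fun v => by simp [h]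
  obtain ⟨c, h1⟩ := scale B hu
  generalize c • u = u1 at h1
  obtain ⟨u, hu⟩ : ∃ u, B (u - (B u1 u / 2) • u1) (u - (B u1 u / 2) • u1) ≠ 0 := by
    by_contra! h
    refine hn ((1 / 2 : ℂ) • B u1) ((1 / 2 : ℂ) • B u1) fun v => ?_
    have := h v
    simp only [map_sub, map_smul, LinearMap.sub_apply, LinearMap.smul_apply, smul_eq_mul, h1,
      hs v u1] at this ⊢
    linear_combination this
  obtain ⟨c, h2⟩ := scale B hu
  have h12 : B u1 (c • (u - (B u1 u / 2) • u1)) = 0 := by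
    simp only [map_sub, map_smul, smul_eq_mul, h1]
    ring
  generalize c • (u - (B u1 u / 2) • u1) = u2 at h2 h12
  have h21 := (hs u2 u1).trans h12
  obtain ⟨u, hu⟩ : ∃ u, B (u - (B u1 u / 2) • u1 - (B u2 u / 2) • u2)
      (u - (B u1 u / 2) • u1 - (B u2 u / 2) • u2) ≠ 0 := by
    by_contra! h
    refine hn ((1 / 2 : ℂ) • B u1 + (Complex.I / 2) • B u2)
      ((1 / 2 : ℂ) • B u1 - (Complex.I / 2) • B u2) fun v => ?_
    have := h v
    simp only [map_sub, map_smul, LinearMap.sub_apply, LinearMap.add_apply, LinearMap.smul_apply,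
      smul_eq_mul, h1, h2, h12, h21, hs v u1, hs v u2] at this ⊢
    linear_combination this + (B u2 v ^ 2 / 2) * Complex.I_sq
  obtain ⟨c, h3⟩ := scale B hu
  have h13 : B u1 (c • (u - (B u1 u / 2) • u1 - (B u2 u / 2) • u2)) = 0 := by
    simp only [map_sub, map_smul, smul_eq_mul, h1, h12]
    ring
  have h23 : B u2 (c • (u - (B u1 u / 2) • u1 - (B u2 u / 2) • u2)) = 0 := by
    simp only [map_sub, map_smul, smul_eq_mul, h2, h21]
    ring
  generalize c • (u - (B u1 u / 2) • u1 - (B u2 u / 2) • u2) = u3 at h3 h13 h23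
  have h31 := (hs u3 u1).trans h13
  have h32 := (hs u3 u2).trans h23
  refine ⟨(-1 / 4 : ℂ) • (u2 + Complex.I • u3), u1, u2 - Complex.I • u3, ?_, ?_, ?_, h1, ?_, ?_⟩ <;>
    simp only [map_sub, map_add, map_smul, LinearMap.sub_apply, LinearMap.add_apply,
      LinearMap.smul_apply, smul_eq_mul, h2, h3, h12, h21, h13, h31, h23, h32]
  · linear_combination (1 / 8 : ℂ) * Complex.I_sq
  · ring
  · linear_combination (1 / 2 : ℂ) * Complex.I_sq
  · ring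
  · linear_combination (2 : ℂ) * Complex.I_sq

lemma sextic {a0 a1 a2 a3 a4 a5 a6 : ℂ} (h : ∀ b : ℂ,
    a6 * b ^ 6 + a5 * b ^ 5 + a4 * b ^ 4 + a3 * b ^ 3 + a2 * b ^ 2 + a1 * b + a0 = 0) :
    a0 = 0 ∧ a1 = 0 ∧ a2 = 0 ∧ a3 = 0 ∧ a4 = 0 ∧ a5 = 0 ∧ a6 = 0 := by
  have h0 := h 0
  have h1 := h 1
  have h2 := h 2
  have h3 := h 3
  have k1 := h (-1)
  have k2 := h (-2)
  have k3 := h (-3)
  refine ⟨?_, ?_, ?_, ?_, ?_, ?_, ?_⟩
  · linear_combination h0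
  · linear_combination 3 / 4 * (h1 - k1) - 3 / 20 * (h2 - k2) + 1 / 60 * (h3 - k3)
  · linear_combination -49 / 36 * h0 + 3 / 4 * (h1 + k1) - 3 / 40 * (h2 + k2) +
      1 / 180 * (h3 + k3)
  · linear_combination -13 / 48 * (h1 - k1) + 1 / 6 * (h2 - k2) - 1 / 48 * (h3 - k3)
  · linear_combination 7 / 18 * h0 - 13 / 48 * (h1 + k1) + 1 / 12 * (h2 + k2) -
      1 / 144 * (h3 + k3)
  · linear_combination 1 / 48 * (h1 - k1) - 1 / 60 * (h2 - k2) + 1 / 240 * (h3 - k3)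
  · linear_combination -1 / 36 * h0 + 1 / 48 * (h1 + k1) - 1 / 120 * (h2 + k2) +
      1 / 720 * (h3 + k3)

lemma vec (e0 e1 e2 x v : V) : Matrix.vecMul v (Matrix.of ![e0, e1, e2, x]) =
    v 3 • x + (v 0 • e0 + v 1 • e1 + v 2 • e2) := by
  funext j
  simp [Matrix.vecMul, dotProduct, Fin.sum_univ_four]
  ring

lemma det_ne (B : V →ₗ[ℂ] V →ₗ[ℂ] ℂ) (hs : ∀ a b, B a b = B b a) {e0 e1 e2 x : V} (hx : x ≠ 0)
    (hB : ∀ v, B v x = 0) (h00 : B e0 e0 = 0) (h01 : B e0 e1 = 0) (h02 : B e0 e2 = -1)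
    (h11 : B e1 e1 = 2) (h12 : B e1 e2 = 0) (h22 : B e2 e2 = 0) :
    (Matrix.of ![e0, e1, e2, x]).det ≠ 0 := by
  intro h
  obtain ⟨v, hv, e⟩ := Matrix.exists_vecMul_eq_zero_iff.2 h
  rw [vec] at e
  have a0 := congrArg (B e0) e
  have a1 := congrArg (B e1) e
  have a2 := congrArg (B e2) e
  simp only [map_add, map_smul, smul_eq_mul, map_zero, hB, h00, h01, h02, h11, h12, h22,
    hs e1 e0, hs e2 e0, hs e2 e1] at a0 a1 a2
  have b0 : v 0 = 0 := by linear_combination -a2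
  have b1 : v 1 = 0 := by linear_combination 1 / 2 * a1
  have b2 : v 2 = 0 := by linear_combination -a0
  have b3 : v 3 = 0 := by simpa [b0, b1, b2, hx] using e
  exact hv (funext fun j => by fin_cases j <;> assumption)

/-- Restriction to the span of three vectors. -/
lemma restrict {f : P4} (hf : f.IsHomogeneous 3) (e0 e1 e2 : V) :
    ∃ c : MvPolynomial (Fin 3) ℂ, c.IsHomogeneous 3 ∧
      ∀ w : Fin 3 → ℂ, eval w c = eval (w 0 • e0 + w 1 • e1 + w 2 • e2) f := by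
  refine ⟨aeval (fun j => C (e0 j) * X 0 + C (e1 j) * X 1 + C (e2 j) * X 2) f, ?_, fun w => ?_⟩
  · simpa using hf.aeval (fun j => C (e0 j) * X 0 + C (e1 j) * X 1 + C (e2 j) * X 2) (n := 1)
      fun j => ((isHomogeneous_C_mul_X _ _).add (isHomogeneous_C_mul_X _ _)).add
        (isHomogeneous_C_mul_X _ _)
  · clear hf
    induction f using MvPolynomial.induction_on with
    | C c => simp
    | add p q hp hq => simp only [map_add, hp, hq]
    | mul_X p a hp => rw [map_mul, map_mul, map_mul, hp]; simp [mul_comm]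

end BN1

open BN1 in
theorem n1_of : St_N1 := by
  intro f hf hd hsm
  simp only [Smooth4, not_forall, not_exists, not_not] at hsm
  obtain ⟨x, hx, hsing⟩ := hsm
  obtain ⟨T, s1, s2, hT, hT'⟩ := BL2.exists_tr hf
  have hxx : ∀ v, T x x v = 0 := fun v => by
    rw [pi_eq_sum_univ v, map_sum]
    refine Finset.sum_eq_zero fun i _ => ?_
    have : (fun j => if i = j then (1 : ℂ) else 0) = Pi.single i 1 := by
      funext j
      simp [Pi.single_apply, eq_comm]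
    rw [map_smul, this, hT', hsing, mul_zero, smul_zero]
  have hxx' : ∀ v, T x v x = 0 := fun v => (s2 x v x).trans (hxx v)
  have tay : ∀ (s : ℂ) (v : V), eval (s • x + v) f = s * (T x v v / 2) + eval v f := fun s v => by
    have h1 := hT (s • x + v)
    simp only [map_add, map_smul, LinearMap.add_apply, LinearMap.smul_apply, smul_eq_mul, hxx,
      hxx', hT, s1 v x, s2 v v x] at h1
    linear_combination -1 / 6 * h1
  obtain ⟨e0, e1, e2, h00, h01, h02, h11, h12, h22⟩ := frame (T x) (s2 x) fun l l' h =>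
    hd ⟨x, hx, l, l', fun s v => by rw [tay, h]; ring⟩
  have key : ∀ e0 e1 e2 : V, T x e0 e0 = 0 → T x e0 e1 = 0 → T x e0 e2 = -1 → T x e1 e1 = 2 →
      T x e1 e2 = 0 → T x e2 e2 = 0 → ∀ v : V, eval v (sub4 (Matrix.of ![e0, e1, e2, x]) f) =
        v 3 * (v 1 ^ 2 - v 0 * v 2) + eval (v 0 • e0 + v 1 • e1 + v 2 • e2) f := by
    intro e0 e1 e2 h00 h01 h02 h11 h12 h22 v
    rw [eval_sub4, vec, tay]
    simp only [map_add, map_smul, LinearMap.add_apply, LinearMap.smul_apply, smul_eq_mul, h00, h01,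
      h02, h11, h12, h22, s2 x e1 e0, s2 x e2 e0, s2 x e2 e1]
    ring
  have cub : ∀ a b c : ℂ, 6 * eval (a • e0 + b • e1 + c • e2) f =
      T e0 e0 e0 * a ^ 3 + 3 * T e0 e0 e1 * a ^ 2 * b + 3 * T e0 e0 e2 * a ^ 2 * c +
      3 * T e0 e1 e1 * a * b ^ 2 + 6 * T e0 e1 e2 * a * b * c + 3 * T e0 e2 e2 * a * c ^ 2 +
      T e1 e1 e1 * b ^ 3 + 3 * T e1 e1 e2 * b ^ 2 * c + 3 * T e1 e2 e2 * b * c ^ 2 +
      T e2 e2 e2 * c ^ 3 := fun a b c => by
    rw [← hT]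
    simp only [map_add, map_smul, LinearMap.add_apply, LinearMap.smul_apply, smul_eq_mul,
      s1 e1 e0, s1 e2 e0, s1 e2 e1, s2 e0 e1 e0, s2 e0 e2 e0, s2 e0 e2 e1, s2 e1 e1 e0,
      s2 e1 e2 e0, s2 e1 e2 e1, s2 e2 e2 e0, s2 e2 e2 e1]
    ring
  obtain ⟨b, hb⟩ : ∃ b : ℂ, eval (b ^ 2 • e0 + b • e1 + (1 : ℂ) • e2) f ≠ 0 := by
    by_contra! h
    obtain ⟨a0, a1, a2, a3, a4, a5, a6⟩ := sextic (a0 := T e2 e2 e2) (a1 := 3 * T e1 e2 e2)
      (a2 := 3 * T e0 e2 e2 + 3 * T e1 e1 e2) (a3 := 6 * T e0 e1 e2 + T e1 e1 e1)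
      (a4 := 3 * T e0 e0 e2 + 3 * T e0 e1 e1) (a5 := 3 * T e0 e0 e1) (a6 := T e0 e0 e0)
      fun b => by linear_combination 6 * h b - cub (b ^ 2) b 1
    refine hd (BA1.deg2_sub f _ (det_ne (T x) (s2 x) hx hxx' h00 h01 h02 h11 h12 h22) ?_)
    have e : sub4 (Matrix.of ![e0, e1, e2, x]) f = (X 3 + C (T e0 e1 e1 / 2) * X 0 +
        C (T e1 e1 e1 / 6) * X 1 + C (T e1 e1 e2 / 2) * X 2) * (X 1 * X 1 - X 0 * X 2) := by
      refine MvPolynomial.funext fun v => ?_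
      rw [key e0 e1 e2 h00 h01 h02 h11 h12 h22]
      simp only [map_add, map_mul, map_sub, eval_C, eval_X]
      linear_combination 1 / 6 * (cub (v 0) (v 1) (v 2) + v 0 ^ 3 * a6 + v 0 ^ 2 * v 1 * a5 +
        v 0 ^ 2 * v 2 * a4 + v 0 * v 1 * v 2 * a3 + v 0 * v 2 ^ 2 * a2 + v 1 * v 2 ^ 2 * a1 +
        v 2 ^ 3 * a0)
    rw [e]
    exact BA1.deg2_mul ((((isHomogeneous_X ℂ 3).add (isHomogeneous_C_mul_X _ _)).add
      (isHomogeneous_C_mul_X _ _)).add (isHomogeneous_C_mul_X _ _))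
      (((isHomogeneous_X ℂ 1).mul (isHomogeneous_X ℂ 1)).sub
        ((isHomogeneous_X ℂ 0).mul (isHomogeneous_X ℂ 2)))
  have g : T x e0 (e1 + (2 * b) • e0) = 0 ∧ T x e0 (b ^ 2 • e0 + b • e1 + (1 : ℂ) • e2) = -1 ∧
      T x (e1 + (2 * b) • e0) (e1 + (2 * b) • e0) = 2 ∧
      T x (e1 + (2 * b) • e0) (b ^ 2 • e0 + b • e1 + (1 : ℂ) • e2) = 0 ∧
      T x (b ^ 2 • e0 + b • e1 + (1 : ℂ) • e2) (b ^ 2 • e0 + b • e1 + (1 : ℂ) • e2) = 0 := by
    refine ⟨?_, ?_, ?_, ?_, ?_⟩ <;>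
      simp only [map_add, map_smul, LinearMap.add_apply, LinearMap.smul_apply, smul_eq_mul, h00,
        h01, h02, h11, h12, h22, s2 x e1 e0, s2 x e2 e0, s2 x e2 e1] <;> ring
  generalize e1 + (2 * b) • e0 = d1 at g
  generalize b ^ 2 • e0 + b • e1 + (1 : ℂ) • e2 = d2 at g hb
  obtain ⟨g01, g02, g11, g12, g22⟩ := g
  obtain ⟨c, hc, hce⟩ := restrict hf e0 d1 d2
  refine ⟨Matrix.of ![e0, d1, d2, x], c, det_ne (T x) (s2 x) hx hxx' h00 g01 g02 g11 g12 g22, hc,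
    MvPolynomial.funext fun v => ?_, by simpa [hce] using hb⟩
  rw [key e0 d1 d2 h00 g01 g02 g11 g12 g22, nodal, map_add, eval_rename, hce]
  simp

end Pool.Agent.Lib.MP_a25055_ag
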