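import Pool.Agent.Lib.MP_a25055_ag.BINV
import Pool.Agent.Lib.MP_a25055_ag.BSVD

/-! Block NULL: the null cone. -/

open MvPolynomial Filter Topology

noncomputable section

namespace Pool.Agent.Lib.MP_a25055_ag

namespace BNULL

variable {m N : ℕ}

/-- coefficients of `act u r` depend continuously on `u` -/
lemma cont (r : PP m N) : ∀ a, Continuous fun u : Mat N => coeff a (act u r) := by
  classical
  induction r using MvPolynomial.induction_on with
  | C c => intro a; simpa [act] using continuous_const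
  | add p q hp hq => intro a; simp only [map_add, coeff_add]; exact (hp a).add (hq a)
  | mul_X p c hp =>
    intro a
    have : ∀ u : Mat N, coeff a (act u (p * X c)) = ∑ l, u l c.2 *
        if (c.1, l) ∈ a.support then coeff (a - Finsupp.single (c.1, l) 1) (act u p) else 0 :=
      fun u => by
        have e : act u (X c : PP m N) = ∑ l, C (u l c.2) * X (c.1, l) := aeval_X _ _
        rw [map_mul, e, Finset.mul_sum, coeff_sum]
        refine Finset.sum_congr rfl fun l _ => ?_
        rw [mul_left_comm, coeff_C_mul, coeff_mul_X']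
    simp only [this]
    refine continuous_finsetSum _ fun l _ => (continuous_apply_apply l c.2).mul ?_
    split_ifs
    exacts [hp _, continuous_const]

lemma coeff_act (S : Finset (Fin m × Fin N →₀ ℕ)) (u : Mat N) (p : PP m N) (hp : p.support ⊆ S)
    (a : Fin m × Fin N →₀ ℕ) :
    coeff a (act u p) = ∑ b ∈ S, coeff b p * coeff a (act u (monomial b 1)) := by
  conv_lhs => rw [p.as_sum, map_sum, coeff_sum]
  refine (Finset.sum_congr rfl fun b _ => ?_).trans (Finset.sum_subset hp fun b _ hb => ?_)
  · rw [← coeff_C_mul, ← mul_one (coeff b p), ← C_mul_monomial, map_mul, mul_one]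
    simp [act]
  · rw [notMem_support_iff.1 hb, zero_mul]

/-- joint continuity in bounded degree -/
lemma joint (d : ℕ) (u : ℕ → Mat N) (u0 : Mat N) (hu : Tendsto u atTop (𝓝 u0)) (p : ℕ → PP m N)
    (q : PP m N) (hd : ∀ n, (p n).totalDegree ≤ d)
    (hp : ∀ a, Tendsto (fun n => coeff a (p n)) atTop (𝓝 (coeff a q))) (a : Fin m × Fin N →₀ ℕ) :
    Tendsto (fun n => coeff a (act (u n) (p n))) atTop (𝓝 (coeff a (act u0 q))) := by
  classical
  have hf := Finsupp.finite_of_degree_le (σ := Fin m × Fin N) d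
  have hS : ∀ n, (p n).support ⊆ hf.toFinset ∪ q.support := fun n b hb =>
    Finset.mem_union_left _ (hf.mem_toFinset.2 ((le_totalDegree hb).trans (hd n)))
  rw [coeff_act _ u0 q (Finset.subset_union_right (s₁ := hf.toFinset))]
  simp only [fun n => coeff_act _ (u n) (p n) (hS n) a]
  exact tendsto_finsetSum _ fun b _ => (hp b).mul (((cont _ a).tendsto u0).comp hu)

instance fc : FirstCountableTopology (Mat N) :=
  (inferInstance : FirstCountableTopology (Fin N → Fin N → ℂ))

/-- matrices with entries in the unit disc -/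
def K (N : ℕ) : Set (Mat N) := {M | ∀ i j, ‖M i j‖ ≤ 1}

lemma compact_K : IsCompact (K N) := by
  have : K N = Set.pi Set.univ fun _ : Fin N => Set.pi Set.univ fun _ : Fin N =>
      Metric.closedBall (0 : ℂ) 1 := by
    ext M
    exact ⟨fun h i _ j _ => mem_closedBall_zero_iff.2 (h i j),
      fun h i j => mem_closedBall_zero_iff.1 (h i trivial j trivial)⟩
  rw [this]
  exact isCompact_univ_pi fun _ => isCompact_univ_pi fun _ => isCompact_closedBall _ _

lemma mem_K {U : Mat N} (h : U ∈ Matrix.unitaryGroup (Fin N) ℂ) : U ∈ K N :=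
  fun i j => entry_norm_bound_of_unitary h i j

lemma det_lim {u : ℕ → Mat N} {u0 : Mat N} (hu : Tendsto u atTop (𝓝 u0))
    (h : ∀ n, (u n).det = 1) : u0.det = 1 := by
  have := ((continuous_id.matrix_det).tendsto u0).comp hu
  simp only [Function.comp_def, id, h] at this
  exact (tendsto_nhds_unique tendsto_const_nhds this).symm

lemma neg (hI : St_INV) (p : PP m N) (r : Fin N → ℝ) (hr : ∑ j, r j = 0)
    (h : ∀ a ∈ p.support, wt r a < 0) : ¬ Semi p := by
  refine fun hs => hs ((hI.clos p 0).2 ⟨0, (BINV.moved_zero 1).symm,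
    fun n => ⟨dg ((n : ℝ) • r), ?_⟩, fun a => ?_⟩)
  · rw [BSVD.dg_det]
    simp [← Finset.mul_sum, hr]
  · have e : ∀ n : ℕ, wt ((n : ℝ) • r) a = n * wt r a := fun n => by
      simp only [wt, Pi.smul_apply, smul_eq_mul, Finset.mul_sum]
      exact Finset.sum_congr rfl fun c _ => by ring
    simp only [coeff_act_dg, coeff_zero, e]
    by_cases ha : a ∈ p.support
    · have h1 : Tendsto (fun n : ℕ => Real.exp (n * wt r a)) atTop (𝓝 0) :=
        Real.tendsto_exp_atBot.comp (tendsto_natCast_atTop_atTop.atTop_mul_const_of_neg (h a ha))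
      simpa using ((Complex.continuous_ofReal.tendsto 0).comp h1).mul_const (coeff a p)
    · simp [notMem_support_iff.1 ha]

lemma key (hI : St_INV) (hS : St_SVD) (p : PP m N) (h : ¬ Semi p) :
    ∃ u ∈ K N, u.det = 1 ∧ ∃ r : Fin N → ℝ, ∑ j, r j = 0 ∧
      ∀ a ∈ (act u p).support, wt r a < 0 := by
  obtain ⟨q, hq, g, hg⟩ := (hI.clos p 0).1 (not_not.1 h)
  obtain rfl : q = 0 := (BINV.eq_zero_iff q).2 hq.symm
  choose u u' r hu hu' hr e using fun n => hS N (g n)
  obtain ⟨⟨v, w⟩, hvw, φ, hφ, hl⟩ := (compact_K.prod compact_K).tendsto_subseq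
    (x := fun n => (star (u n : Mat N), (u' n : Mat N)))
    fun n => ⟨mem_K (Unitary.star_mem (hu n)), mem_K (hu' n)⟩
  have hv : Tendsto (fun n => star (u (φ n) : Mat N)) atTop (𝓝 v) :=
    (continuous_fst.tendsto _).comp hl
  have hw : Tendsto (fun n => (u' (φ n) : Mat N)) atTop (𝓝 w) := (continuous_snd.tendsto _).comp hl
  have h1 := joint p.totalDegree _ v hv (fun n => act (g (φ n) : Mat N) p) 0
    (fun n => BINV.totalDegree_act _ p) fun a => (hg a).comp hφ.tendsto_atTop
  have h2 : ∀ n, act (star (u n : Mat N)) (act (g n : Mat N) p) =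
      act (dg (r n)) (act (u' n : Mat N) p) := fun n => by
    rw [act_act, act_act, e n, ← mul_assoc, ← mul_assoc, Matrix.mem_unitaryGroup_iff'.1 (hu n),
      one_mul]
  simp only [h2, map_zero, coeff_zero, coeff_act_dg] at h1
  have h3 : ∀ a ∈ (act w p).support, ∀ᶠ n in atTop, wt (r (φ n)) a < 0 := fun a ha => by
    have h4 := ((cont p a).tendsto w).comp hw
    have h5 := mem_support_iff.1 ha
    have h6 := (h1 a).div h4 h5
    have h7 : Tendsto (fun n => (Real.exp (wt (r (φ n)) a) : ℂ)) atTop (𝓝 0) := by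
      rw [zero_div] at h6
      refine h6.congr' ?_
      filter_upwards [h4.eventually_ne h5] with n hn
      exact mul_div_cancel_right₀ _ hn
    have h8 := (Complex.continuous_re.tendsto 0).comp h7
    filter_upwards [h8.eventually_lt_const (show (0 : ℂ).re < 1 by simp)] with n hn
    simpa only [Function.comp_def, Complex.ofReal_re, Real.exp_lt_one_iff] using hn
  obtain ⟨n, hn⟩ := ((Finset.eventually_all _).2 h3).exists
  exact ⟨w, hvw.2, det_lim hw fun n => (u' (φ n)).det_coe, r (φ n), hr _, hn⟩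

lemma lim (hI : St_INV) (hS : St_SVD) (p q : PP m N) (h : moved q 1 ∈ closure (orb p))
    (hq : Semi q) : Semi p := by
  by_contra hp
  obtain ⟨q', e, g, hg⟩ := (hI.clos p _).1 h
  obtain rfl := moved_inj e
  choose u hu hd r hr hw using fun n => key hI hS (act (g n : Mat N) p) fun hs =>
    hp ((hI.act 2 p (g n : Mat N) (by rw [(g n).det_coe]; exact one_ne_zero)).1 hs)
  obtain ⟨w, -, φ, hφ, hl⟩ := compact_K.tendsto_subseq hu
  have h1 := joint p.totalDegree _ w hl (fun n => act (g (φ n) : Mat N) p) q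
    (fun n => BINV.totalDegree_act _ p) fun a => (hg a).comp hφ.tendsto_atTop
  have h3 : ∀ a ∈ (act w q).support, ∀ᶠ n in atTop, wt (r (φ n)) a < 0 := fun a ha => by
    filter_upwards [(h1 a).eventually_ne (mem_support_iff.1 ha)] with n hn
    exact hw (φ n) a (mem_support_iff.2 hn)
  obtain ⟨n, hn⟩ := ((Finset.eventually_all _).2 h3).exists
  refine neg hI (act w q) _ (hr _) hn ((hI.act 2 q w ?_).2 hq)
  rw [det_lim hl fun n => hd (φ n)]
  exact one_ne_zero

end BNULL

theorem null_of (hI : St_INV) (hS : St_SVD) : St_NULL :=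
  ⟨fun p r => BNULL.neg hI p r, fun p q => BNULL.lim hI hS p q⟩

end Pool.Agent.Lib.MP_a25055_ag
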