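import Pool.Agent.Lib.MP_a25055_ag.Inv

/-! A criterion for polystability of torus eigenvectors. -/

open MvPolynomial

noncomputable section

namespace Pool.Agent.Lib.MP_a25055_ag

namespace BPOLY

lemma wt_eq {m N : ℕ} (r : Fin N → ℝ) (a : Fin m × Fin N →₀ ℕ) :
    wt r a = ∑ j, ((∑ i, (a (i, j) : ℤ) : ℤ) : ℝ) * r j := by
  rw [wt, Fintype.sum_prod_type_right]
  push_cast
  simp only [Finset.sum_mul]

lemma det_dg {N : ℕ} (r : Fin N → ℝ) : (dg r).det ≠ 0 := by
  rw [dg, Matrix.det_diagonal]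
  exact Finset.prod_ne_zero_iff.mpr fun j _ => Complex.ofReal_ne_zero.mpr (Real.exp_ne_zero _)

end BPOLY

open BPOLY in
theorem poly_of (hI : St_INV) (hR : St_RAT) (h2 : St_KN2) (h3 : St_KN3) : St_POLY := by
  classical
  intro m N p χ c hp hχ hc h
  obtain ⟨r, -, hr⟩ := h3 p χ c hχ hc fun r hr0 hr a ha => by
    obtain ⟨r', hr'⟩ := hR N
      (insert (fun _ => 1) (p.support.image fun a j => ∑ i, (a (i, j) : ℤ))) r
    have h1 : ∀ a ∈ p.support,
        SignType.sign (wt (fun j => (r' j : ℝ)) a) = SignType.sign (wt r a) := fun a ha => by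
      rw [wt_eq, wt_eq, ← hr' _ (Finset.mem_insert_of_mem (Finset.mem_image_of_mem _ ha)),
        ← sign_intCast (α := ℝ)]
      push_cast
      rfl
    have h0 := hr' _ (Finset.mem_insert_self _ _)
    simp only [one_mul, Int.cast_one, hr0, sign_zero, sign_eq_zero_iff] at h0
    have h4 := h r' h0 (fun b hb => by
      rw [← sign_nonpos_iff, h1 b hb, sign_nonpos_iff]; exact hr b hb) a ha
    rw [← sign_eq_zero_iff, ← h1 a ha, h4, sign_zero]
  refine (hI.act 1 p (dg r) (det_dg r)).1 ⟨fun h0 => hp ?_, h2 _ hr⟩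
  have := congrArg (act (dg r)⁻¹) h0
  rwa [act_act, Matrix.nonsing_inv_mul _ (isUnit_iff_ne_zero.2 (det_dg r)), act_one,
    map_zero] at this

end Pool.Agent.Lib.MP_a25055_ag
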