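import Pool.Agent.Lib.MP_a25055_ag.Inv

/-! Block RAT: integral weights with prescribed signs. -/

open Filter Topology

namespace Pool.Agent.Lib.MP_a25055_ag

namespace BRAT

/-- Simultaneous approximation. -/
lemma approx {N : ℕ} (r : Fin N → ℝ) {ε : ℝ} (hε : 0 < ε) :
    ∃ (q : ℝ) (m : Fin N → ℤ), 1 ≤ q ∧ ∀ j, |(m j : ℝ) - q * r j| < ε := by
  obtain ⟨x, -, φ, hφ, hx⟩ := (isCompact_Icc (a := (0 : Fin N → ℝ)) (b := 1)).tendsto_subseq
    (x := fun n : ℕ => fun j => Int.fract ((n : ℝ) * r j))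
    fun n => ⟨fun j => Int.fract_nonneg _, fun j => (Int.fract_lt_one _).le⟩
  obtain ⟨n, hn⟩ := Metric.cauchySeq_iff'.1 hx.cauchySeq ε hε
  have h1 := hn (n + 1) (Nat.le_succ n)
  have h2 : (φ n : ℝ) + 1 ≤ φ (n + 1) := by exact_mod_cast hφ (Nat.lt_succ_self n)
  refine ⟨φ (n + 1) - φ n, fun j => ⌊(φ (n + 1) : ℝ) * r j⌋ - ⌊(φ n : ℝ) * r j⌋, by linarith,
    fun j => ?_⟩
  have h3 := (dist_le_pi_dist _ _ j).trans_lt h1
  simp only [Function.comp, Real.dist_eq, Int.fract] at h3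
  rw [abs_sub_comm] at h3
  refine lt_of_eq_of_lt (congrArg _ ?_) h3
  push_cast
  ring

end BRAT

theorem rat_of : St_RAT := by
  intro N A r
  have h1 : ∀ a ∈ A, ∀ᶠ ε in 𝓝[>] (0 : ℝ), ε * ∑ j, |(a j : ℝ)| < 1 ∧
      (∑ j, (a j : ℝ) * r j ≠ 0 → ε * ∑ j, |(a j : ℝ)| < |∑ j, (a j : ℝ) * r j|) := fun a _ => by
    have h0 : Tendsto (fun ε : ℝ => ε * ∑ j, |(a j : ℝ)|) (𝓝[>] 0) (𝓝 0) := by
      have : Tendsto (fun ε : ℝ => ε * ∑ j, |(a j : ℝ)|) (𝓝 0) (𝓝 (0 * ∑ j, |(a j : ℝ)|)) :=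
        tendsto_id.mul_const _
      rw [zero_mul] at this
      exact this.mono_left nhdsWithin_le_nhds
    refine (h0.eventually_lt_const one_pos).and ?_
    by_cases h : ∑ j, (a j : ℝ) * r j = 0
    · exact Eventually.of_forall fun _ h' => absurd h h'
    · exact (h0.eventually_lt_const (abs_pos.2 h)).mono fun _ h' _ => h'
  obtain ⟨ε, hε, hp⟩ := (((eventually_all_finset A).2 h1).and self_mem_nhdsWithin).exists
  obtain ⟨q, m, hq, hm⟩ := BRAT.approx r hp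
  refine ⟨m, fun a ha => ?_⟩
  obtain ⟨h2, h3⟩ := hε a ha
  have h4 : |((∑ j, a j * m j : ℤ) : ℝ) - q * ∑ j, (a j : ℝ) * r j| ≤ ε * ∑ j, |(a j : ℝ)| := by
    push_cast
    rw [Finset.mul_sum, Finset.mul_sum, ← Finset.sum_sub_distrib]
    refine (Finset.abs_sum_le_sum_abs _ _).trans (Finset.sum_le_sum fun j _ => ?_)
    rw [show (a j : ℝ) * m j - q * (a j * r j) = (m j - q * r j) * a j by ring, abs_mul]
    exact mul_le_mul_of_nonneg_right (hm j).le (abs_nonneg _)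
  generalize ∑ j, a j * m j = z at h4
  generalize ∑ j, (a j : ℝ) * r j = s at h3 h4
  obtain ⟨h5, h6⟩ := abs_le.1 h4
  rcases lt_trichotomy s 0 with h | h | h
  · have h7 := h3 h.ne
    rw [abs_of_neg h] at h7
    have h8 : (z : ℝ) < 0 := by nlinarith
    rw [sign_neg h, sign_neg (by exact_mod_cast h8)]
  · rw [h, mul_zero, sub_zero] at h4
    have h8 : |z| < 1 := by exact_mod_cast h4.trans_lt h2
    rw [h, Int.abs_lt_one_iff.1 h8, sign_zero, sign_zero]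
  · have h7 := h3 h.ne'
    rw [abs_of_pos h] at h7
    have h8 : (0 : ℝ) < z := by nlinarith
    rw [sign_pos h, sign_pos (by exact_mod_cast h8)]

end Pool.Agent.Lib.MP_a25055_ag
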