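import Pool.Agent.Lib.MP_a25055_ag.Glue1

open MvPolynomial Filter Topology Module

noncomputable section

namespace Pool.Agent.Lib.MP_a25055_ag

namespace BS3a

attribute [local instance] MvPolynomial.gradedAlgebra

lemma sum_deg {σ : Type} [Fintype σ] {p : MvPolynomial σ ℂ} {e : ℕ} (hp : p.IsHomogeneous e)
    {d : σ →₀ ℕ} (hd : d ∈ p.support) : ∑ i, d i = e := by
  have := hp (mem_support_iff.1 hd)
  rw [← this, ← Finsupp.degree_eq_sum, Finsupp.degree_eq_weight_one]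
  rfl

lemma dec_eq (p : P4) (m : ℕ) :
    ((DirectSum.decompose (homogeneousSubmodule (Fin 4) ℂ) p m : homogeneousSubmodule (Fin 4) ℂ m) :
      P4) = homogeneousComponent m p :=
  decomposition.decompose'_apply p m

lemma eval_smul_hom {σ : Type} [Fintype σ] {p : MvPolynomial σ ℂ} {e : ℕ} (hp : p.IsHomogeneous e)
    (a : ℂ) (x : σ → ℂ) : eval (a • x) p = a ^ e * eval x p := by
  classical
  rw [eval_eq', eval_eq', Finset.mul_sum]
  refine Finset.sum_congr rfl fun d hd => ?_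
  have h1 : ∑ i, d i = e := sum_deg hp hd
  simp only [Pi.smul_apply, smul_eq_mul, mul_pow, Finset.prod_mul_distrib,
    Finset.prod_pow_eq_pow_sum, h1]
  ring

lemma mk4_eq_zero {g p : P4} : mk4 g p = 0 ↔ g ∣ p := by
  unfold mk4
  rw [Ideal.Quotient.mkₐ_eq_mk, Ideal.Quotient.eq_zero_iff_mem, Ideal.mem_span_singleton]

lemma hc_mul {a w : P4} {k : ℕ} (hw : w.IsHomogeneous k) (m : ℕ) :
    homogeneousComponent (m + k) (a * w) = homogeneousComponent m a * w := by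
  have := DirectSum.coe_decompose_mul_add_of_right_mem (homogeneousSubmodule (Fin 4) ℂ)
    (a := a) (b := w) (i := m) (j := k) hw
  rwa [dec_eq, dec_eq] at this

lemma hc_dvd {a g : P4} {d : ℕ} (hg : g.IsHomogeneous d) (m : ℕ) :
    g ∣ homogeneousComponent m (a * g) := by
  by_cases h : d ≤ m
  · obtain ⟨m, rfl⟩ := Nat.exists_eq_add_of_le' h
    rw [hc_mul hg]
    exact Dvd.intro_left _ rfl
  · have := DirectSum.coe_decompose_mul_of_right_mem_of_not_le (homogeneousSubmodule (Fin 4) ℂ)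
      (a := a) (b := g) (n := m) (i := d) hg h
    rw [dec_eq] at this
    rw [this]
    exact dvd_zero _

/-- Nullstellensatz for a linear system without base points. -/
lemma nsz {g : P4} {d k : ℕ} (hg : g.IsHomogeneous d) (hk : 1 ≤ k) (W : Submodule ℂ P4)
    (hW : W ≤ homogeneousSubmodule (Fin 4) ℂ k)
    (h0 : ∀ x : Fin 4 → ℂ, eval x g = 0 → (∀ w ∈ W, eval x w = 0) → x = 0) :
    ∃ n, degQ g ((n + 1) * k) ≤ W.map (mk4 g).toLinearMap * degQ g (n * k) := by
  classical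
  set I : Ideal P4 := Ideal.span (insert g (W : Set P4)) with hI
  have h1 : ∀ i : Fin 4, ∃ M, (X i : P4) ^ M ∈ I := fun i => by
    have : (X i : P4) ∈ I.radical := by
      rw [← vanishingIdeal_zeroLocus_eq_radical (K := ℂ), mem_vanishingIdeal_iff]
      intro x hx
      rw [hI, zeroLocus_span] at hx
      have hx0 : x = 0 := h0 x (by simpa using hx g (Set.mem_insert _ _))
        fun w hw => by simpa using hx w (Set.mem_insert_of_mem _ hw)
      simp [hx0]
    exact this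
  choose M hM using h1
  have h2 : ∀ q ∈ I, ∀ (a : P4) (m : ℕ), mk4 g (homogeneousComponent (m + k) (a * q)) ∈
      W.map (mk4 g).toLinearMap * degQ g m := by
    intro q hq
    induction hq using Submodule.span_induction with
    | mem q hq =>
      intro a m
      rcases hq with rfl | hq
      · rw [mk4_eq_zero.2 (hc_dvd hg _)]
        exact zero_mem _
      · rw [hc_mul (hW hq), mul_comm, map_mul]
        exact Submodule.mul_mem_mul ⟨q, hq, rfl⟩
          ⟨_, homogeneousComponent_mem m a, rfl⟩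
    | zero => intro a m; simp
    | add p q _ _ hp hq =>
      intro a m
      rw [mul_add, map_add, map_add]
      exact add_mem (hp a m) (hq a m)
    | smul r q _ hq =>
      intro a m
      rw [smul_eq_mul, ← mul_assoc]
      exact hq _ m
  refine ⟨∑ i, M i, ?_⟩
  rintro _ ⟨p, hp, rfl⟩
  have hp' : p.IsHomogeneous ((∑ i, M i) * k + k) := by
    rw [← Nat.succ_mul]; exact hp
  have hpI : p ∈ I := by
    rw [p.as_sum]
    refine Ideal.sum_mem _ fun a ha => ?_
    have h1 : ∑ i, a i = (∑ i, M i) * k + k := sum_deg hp' ha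
    have h3 : ∃ i, M i ≤ a i := by
      by_contra hc
      push Not at hc
      have h4 : ∑ i, a i ≤ ∑ i, M i := Finset.sum_le_sum fun i _ => (hc i).le
      have h5 : ∑ i, M i ≤ (∑ i, M i) * k := Nat.le_mul_of_pos_right _ hk
      omega
    obtain ⟨i, hi⟩ := h3
    have h5 : (X i : P4) ^ M i ∣ monomial a (coeff a p) := by
      rw [X_pow_eq_monomial]
      refine ⟨monomial (a - Finsupp.single i (M i)) (coeff a p), ?_⟩
      rw [monomial_mul, one_mul, add_tsub_cancel_of_le]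
      rwa [Finsupp.single_le_iff]
    exact Ideal.mem_of_dvd _ h5 (hM i)
  have := h2 p hpI 1 ((∑ i, M i) * k)
  rwa [one_mul, homogeneousComponent_eq_self hp'] at this

lemma rank_le (hF : St_HF) {g : P4} (h0 : g ≠ 0) (hg : g.IsHomogeneous 3) (m : ℕ) :
    finrank ℂ (degQ g m) ≤ 3 * (m + 1) ^ 2 := by
  by_cases h : m < 3
  · rw [hF.small g 3 m h0 hg h]
    interval_cases m <;> simp [Nat.choose]
  · obtain ⟨m, rfl⟩ := Nat.exists_eq_add_of_le' (not_lt.1 h)
    have h1 := hF.rank g 3 m h0 hg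
    have h2 : (m + 3 + 3).choose 3 = (m + 5).choose 2 + (m + 4).choose 2 + (m + 3).choose 2 +
        (m + 3).choose 3 := by
      rw [show m + 3 + 3 = (m + 5) + 1 by ring, Nat.choose_succ_succ' (m + 5) 2,
        show m + 5 = (m + 4) + 1 by ring, Nat.choose_succ_succ' (m + 4) 2,
        show m + 4 = (m + 3) + 1 by ring, Nat.choose_succ_succ' (m + 3) 2]
      ring
    have h3 : ∀ n : ℕ, 2 * (n + 1).choose 2 = (n + 1) * n := fun n => by
      rw [Nat.choose_two_right, Nat.add_sub_cancel]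
      exact Nat.mul_div_cancel' (by rw [mul_comm]; exact (Nat.even_mul_succ_self n).two_dvd)
    have h4 := h3 (m + 4)
    have h5 := h3 (m + 3)
    have h6 := h3 (m + 2)
    simp only [add_assoc, Nat.reduceAdd] at *
    nlinarith

/-- The linear system of hyperplanes through a point. -/
def sys {N : ℕ} (b : Fin N → P4) (β : Fin N → ℂ) : Submodule ℂ P4 where
  carrier := {p | ∃ c : Fin N → ℂ, ∑ j, c j * β j = 0 ∧ p = ∑ j, c j • b j}
  add_mem' := by
    rintro _ _ ⟨c, hc, rfl⟩ ⟨c', hc', rfl⟩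
    exact ⟨c + c', by simp [add_mul, Finset.sum_add_distrib, hc, hc'],
      by simp [add_smul, Finset.sum_add_distrib]⟩
  zero_mem' := ⟨0, by simp, by simp⟩
  smul_mem' := by
    rintro a _ ⟨c, hc, rfl⟩
    exact ⟨a • c, by simp [mul_assoc, ← Finset.mul_sum, hc], by simp [Finset.smul_sum, mul_smul]⟩

lemma eval_comb {N : ℕ} (b : Fin N → P4) (c : Fin N → ℂ) (x : Fin 4 → ℂ) :
    eval x (∑ j, c j • b j) = ∑ j, c j * eval x (b j) := by
  simp [smul_eval]

lemma point (hH : St_HS) (hF : St_HF) (hZ : St_ZP) {g : P4} (h0 : g ≠ 0) (hg : g.IsHomogeneous 3)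
    {k N : ℕ} (hk : 1 ≤ k) {b : Fin N → P4} (hb : Spans g k b) (β : Fin N → ℂ)
    (hβ : ∀ H : Fin 3 × Fin N → ℂ, (∀ i, ∑ j, H (i, j) * β j = 0) → H ∈ Inc g b) :
    ∃ x : Fin 4 → ℂ, x ≠ 0 ∧ eval x g = 0 ∧
      ∀ c : Fin N → ℂ, ∑ j, c j * β j = 0 → ∑ j, c j * eval x (b j) = 0 := by
  by_contra hc
  push Not at hc
  have hW : sys b β ≤ homogeneousSubmodule (Fin 4) ℂ k := by
    rintro _ ⟨c, -, rfl⟩
    exact Submodule.sum_mem _ fun j _ => Submodule.smul_mem _ _ (hb.1 j)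
  obtain ⟨n0, hn0⟩ := nsz hg hk (sys b β) hW fun x hx hw => by
    by_contra hx0
    obtain ⟨c, h1, h2⟩ := hc x hx0 hx
    exact h2 (by rw [← eval_comb]; exact hw _ ⟨c, h1, rfl⟩)
  have hV := fun n => (hF.pow g k N b hb n).1
  set V := Submodule.span ℂ (Set.range fun j => mk4 g (b j)) with hVd
  obtain ⟨H, hHW, n1, hn1⟩ := hH (Q4 g) V ((sys b β).map (mk4 g).toLinearMap)
    (Submodule.fg_span (Set.finite_range _))
    (by
      rintro _ ⟨_, ⟨c, -, rfl⟩, rfl⟩
      rw [map_sum]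
      refine Submodule.sum_mem _ fun j _ => ?_
      rw [map_smul]
      exact Submodule.smul_mem _ _ (Submodule.subset_span ⟨j, rfl⟩))
    ⟨3 * k ^ 2, fun n => by
      rw [hV n]
      refine (rank_le hF h0 hg _).trans ?_
      have : n * k + 1 ≤ k * (n + 1) := by nlinarith
      calc 3 * (n * k + 1) ^ 2 ≤ 3 * (k * (n + 1)) ^ 2 := by gcongr
        _ = _ := by ring⟩
    ⟨n0, by rw [hV, hV]; exact hn0⟩
  have : ∀ i, ∃ c : Fin N → ℂ, ∑ j, c j * β j = 0 ∧ H i = mk4 g (∑ j, c j • b j) := fun i => by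
    obtain ⟨_, ⟨c, h1, rfl⟩, h2⟩ := hHW i
    exact ⟨c, h1, h2.symm⟩
  choose c hc1 hc2 using this
  refine (hZ.surj g 3 k N b hg hk hb fun a => c a.1 a.2).2 ⟨n1, ?_⟩ (hβ _ hc1)
  rw [hV, hV] at hn1
  have : H = fun i => mk4 g (∑ j, c i j • b j) := funext hc2
  rwa [this] at hn1

lemma prop_of {N : ℕ} {p q : Fin N → ℂ}
    (h : ∀ c : Fin N → ℂ, ∑ j, c j * p j = 0 → ∑ j, c j * q j = 0) : ∃ a : ℂ, q = a • p := by
  classical
  by_cases hp : p = 0
  · refine ⟨0, funext fun j => ?_⟩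
    simpa [Pi.single_apply] using h (Pi.single j 1) (by simp [hp])
  · obtain ⟨i, hi⟩ := Function.ne_iff.1 hp
    have hi : p i ≠ 0 := hi
    refine ⟨q i / p i, funext fun j => ?_⟩
    have := h (Pi.single j (p i) - Pi.single i (p j)) (by
      simp only [Pi.sub_apply, sub_mul, Finset.sum_sub_distrib, Pi.single_apply, ite_mul,
        zero_mul, Finset.sum_ite_eq', Finset.mem_univ, if_true]
      ring)
    simp only [Pi.sub_apply, sub_mul, Finset.sum_sub_distrib, Pi.single_apply, ite_mul,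
      zero_mul, Finset.sum_ite_eq', Finset.mem_univ, if_true] at this
    simp only [Pi.smul_apply, smul_eq_mul]
    field_simp
    linear_combination this

lemma sep {g : P4} {k N : ℕ} {b : Fin N → P4} (hb : Spans g k b) (i : Fin 4) :
    ∃ c : Fin N → ℂ, ∀ x : Fin 4 → ℂ, eval x g = 0 → ∑ j, c j * eval x (b j) = x i ^ k := by
  obtain ⟨c, t, ht⟩ := hb.2 (X i ^ k) (isHomogeneous_X_pow i k)
  refine ⟨c, fun x hx => ?_⟩
  have := congrArg (eval x) ht
  rw [map_sub, map_mul, hx, zero_mul, eval_comb, map_pow, eval_X] at this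
  linear_combination -this

lemma point' (hH : St_HS) (hF : St_HF) (hZ : St_ZP) {g g' : P4} (h0 : g ≠ 0)
    (hg : g.IsHomogeneous 3) {k N : ℕ} (hk : 1 ≤ k) {b b' : Fin N → P4} (hb : Spans g k b)
    (hI : Inc g' b' ⊆ Inc g b) (y : Fin 4 → ℂ) (hy : y ≠ 0) (hy' : eval y g' = 0) :
    ∃ x : Fin 4 → ℂ, x ≠ 0 ∧ eval x g = 0 ∧ ∃ a : ℂ, a ≠ 0 ∧
      (fun j => eval x (b j)) = a • fun j => eval y (b' j) := by
  obtain ⟨x, hx, hx', h⟩ := point hH hF hZ h0 hg hk hb (fun j => eval y (b' j))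
    fun H hH => hI ⟨y, hy, hy', hH⟩
  obtain ⟨a, ha⟩ := prop_of h
  refine ⟨x, hx, hx', a, fun h0 => ?_, ha⟩
  obtain ⟨i, hi⟩ := Function.ne_iff.1 hx
  obtain ⟨c, hc⟩ := sep hb i
  have h1 := hc x hx'
  have h2 : ∀ j, eval x (b j) = 0 := fun j => by simpa [h0] using congrFun ha j
  simp only [h2, mul_zero, Finset.sum_const_zero] at h1
  exact hi (pow_eq_zero_iff (by omega) |>.1 h1.symm)

lemma eval_aeval' {N : ℕ} (b : Fin N → P4) (P : MvPolynomial (Fin N) ℂ) (x : Fin 4 → ℂ) :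
    eval x (aeval b P) = eval (fun j => eval x (b j)) P := by
  induction P using MvPolynomial.induction_on with
  | C c => simp
  | add p q hp hq => simp only [map_add, hp, hq]
  | mul_X p a hp => simp only [map_mul, hp, aeval_X, eval_X]

lemma ker_le (hH : St_HS) (hF : St_HF) (hZ : St_ZP) {g g' : P4} (hirr : Irreducible g)
    (h0 : g' ≠ 0) (hg' : g'.IsHomogeneous 3) {k N : ℕ} (hk : 1 ≤ k) {b b' : Fin N → P4}
    (hb : Spans g k b) (hb' : Spans g' k b') (hI : Inc g b ⊆ Inc g' b')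
    {P : MvPolynomial (Fin N) ℂ} {e : ℕ} (he : 1 ≤ e) (hP : P.IsHomogeneous e)
    (h : g' ∣ aeval b' P) : g ∣ aeval b P := by
  have hpr : (Ideal.span {g}).IsPrime :=
    (Ideal.span_singleton_prime hirr.ne_zero).2 hirr.prime
  rw [← Ideal.mem_span_singleton, ← hpr.radical, ← vanishingIdeal_zeroLocus_eq_radical (K := ℂ),
    mem_vanishingIdeal_iff]
  intro x hx
  rw [zeroLocus_span] at hx
  have hx' : eval x g = 0 := by simpa using hx g rfl
  change eval x (aeval b P) = 0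
  rw [eval_aeval']
  by_cases hx0 : x = 0
  · have : (fun j => eval x (b j)) = (0 : ℂ) • fun j => eval x (b j) := by
      funext j
      have := eval_smul_hom (hb.1 j) 0 x
      rw [zero_smul, zero_pow (by omega), zero_mul] at this
      rw [hx0, this]
      simp
    rw [this, eval_smul_hom hP, zero_pow (by omega), zero_mul]
  · obtain ⟨y, -, hy', a, ha, hxy⟩ := point' hH hF hZ h0 hg' hk hb' hI x hx0 hx'
    obtain ⟨t, ht⟩ := h
    have := congrArg (eval y) ht
    rw [eval_aeval', map_mul, hy', zero_mul, hxy, eval_smul_hom hP] at this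
    exact (mul_eq_zero.1 this).resolve_left (pow_ne_zero _ ha)

/-- The substitution map. -/
def phi (g : P4) {N : ℕ} (b : Fin N → P4) : MvPolynomial (Fin N) ℂ →ₐ[ℂ] Q4 g :=
  (mk4 g).comp (aeval b)

/-- Linear forms vanishing at `β`. -/
def lin {N : ℕ} (β : Fin N → ℂ) : Submodule ℂ (MvPolynomial (Fin N) ℂ) :=
  homogeneousSubmodule (Fin N) ℂ 1 ⊓
    LinearMap.ker (aeval β : MvPolynomial (Fin N) ℂ →ₐ[ℂ] ℂ).toLinearMap

lemma lin_smul {N : ℕ} (β : Fin N → ℂ) {a : ℂ} (ha : a ≠ 0) : lin (a • β) = lin β := by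
  ext p
  simp only [lin, Submodule.mem_inf, LinearMap.mem_ker, AlgHom.toLinearMap_apply,
    mem_homogeneousSubmodule, coe_aeval_eq_eval, and_congr_right_iff]
  intro hp
  change eval (a • β) p = 0 ↔ eval β p = 0
  rw [eval_smul_hom hp, pow_one, mul_eq_zero, or_iff_right ha]

lemma hom_aeval {k N : ℕ} {b : Fin N → P4} (hb : ∀ j, (b j).IsHomogeneous k)
    {P : MvPolynomial (Fin N) ℂ} (hP : P.IsHomogeneous 1) : (aeval b P : P4).IsHomogeneous k := by
  have := hP.aeval b hb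
  rwa [mul_one] at this

lemma lift_lin {g : P4} {k N : ℕ} {b : Fin N → P4} (hb : Spans g k b) {p : P4}
    (hp : p.IsHomogeneous k) :
    ∃ P : MvPolynomial (Fin N) ℂ, P.IsHomogeneous 1 ∧ g ∣ p - aeval b P := by
  obtain ⟨c, hc⟩ := hb.2 p hp
  refine ⟨∑ j, C (c j) * X j, IsHomogeneous.sum _ _ _ fun j _ => isHomogeneous_C_mul_X _ _, ?_⟩
  simpa [map_sum, smul_eq_C_mul] using hc

lemma degQ_eq {g : P4} {k N : ℕ} {b : Fin N → P4} (hb : Spans g k b) :
    degQ g k = (homogeneousSubmodule (Fin N) ℂ 1).map (phi g b).toLinearMap := by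
  apply le_antisymm
  · rintro _ ⟨p, hp, rfl⟩
    obtain ⟨P, hP, h⟩ := lift_lin hb hp
    refine ⟨P, hP, ?_⟩
    have := mk4_eq_zero.2 h
    rw [map_sub, sub_eq_zero] at this
    exact this.symm
  · rintro _ ⟨P, hP, rfl⟩
    exact ⟨_, hom_aeval hb.1 hP, rfl⟩

lemma V_eq {g : P4} {k N : ℕ} {b : Fin N → P4} (hb : Spans g k b) {x : Fin 4 → ℂ}
    (hx : eval x g = 0) :
    (homogeneousSubmodule (Fin 4) ℂ k ⊓
      LinearMap.ker (aeval x : P4 →ₐ[ℂ] ℂ).toLinearMap).map (mk4 g).toLinearMap =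
      (lin fun j => eval x (b j)).map (phi g b).toLinearMap := by
  apply le_antisymm
  · rintro _ ⟨p, ⟨hp, hp0⟩, rfl⟩
    obtain ⟨P, hP, h⟩ := lift_lin hb hp
    refine ⟨P, ⟨hP, ?_⟩, ?_⟩
    · obtain ⟨t, ht⟩ := h
      have := congrArg (eval x) ht
      have h2 : eval x p = 0 := hp0
      rw [map_sub, map_mul, hx, zero_mul, h2, eval_aeval', zero_sub, neg_eq_zero] at this
      exact this
    · have := mk4_eq_zero.2 h
      rw [map_sub, sub_eq_zero] at this
      exact this.symm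
  · rintro _ ⟨P, ⟨hP, hP0⟩, rfl⟩
    refine ⟨_, ⟨hom_aeval hb.1 hP, ?_⟩, rfl⟩
    change eval x (aeval b P) = 0
    rw [eval_aeval']
    exact hP0

lemma cone_transport {g g' : P4} {k N : ℕ} {b b' : Fin N → P4} (hb : Spans g k b)
    (hb' : Spans g' k b') {x y : Fin 4 → ℂ} (hx : eval x g = 0) (hy : eval y g' = 0)
    {a : ℂ} (ha : a ≠ 0) (hxy : (fun j => eval x (b j)) = a • fun j => eval y (b' j))
    (hker : ∀ (P : MvPolynomial (Fin N) ℂ) (e : ℕ), 1 ≤ e → P.IsHomogeneous e →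
      (g ∣ aeval b P ↔ g' ∣ aeval b' P)) (hc : Cone g' k y) : Cone g k x := by
  have key : ∀ (e : ℕ), 1 ≤ e → ∀ T : Submodule ℂ (MvPolynomial (Fin N) ℂ),
      T ≤ homogeneousSubmodule (Fin N) ℂ e → ∀ P : MvPolynomial (Fin N) ℂ, P.IsHomogeneous e →
      (phi g b P ∈ T.map (phi g b).toLinearMap ↔ phi g' b' P ∈ T.map (phi g' b').toLinearMap) := by
    intro e he T hT P hP
    have : ∀ t ∈ T, (phi g b t = phi g b P ↔ phi g' b' t = phi g' b' P) := fun t ht => by
      rw [← sub_eq_zero, ← map_sub, ← sub_eq_zero (a := phi g' b' t), ← map_sub]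
      exact mk4_eq_zero.trans ((hker _ e he (IsHomogeneous.sub (hT ht) hP)).trans
        mk4_eq_zero.symm)
    exact ⟨fun ⟨t, ht, h⟩ => ⟨t, ht, (this t ht).1 h⟩, fun ⟨t, ht, h⟩ => ⟨t, ht, (this t ht).2 h⟩⟩
  unfold Cone at hc ⊢
  simp only [V_eq hb hx, V_eq hb' hy, degQ_eq hb, degQ_eq hb', ← Submodule.map_mul, hxy,
    lin_smul _ ha] at hc ⊢
  set U := lin fun j => eval y (b' j) with hU
  have hU1 : U ≤ homogeneousSubmodule (Fin N) ℂ 1 := inf_le_left
  have hU2 : U * U ≤ homogeneousSubmodule (Fin N) ℂ 2 :=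
    (mul_le_mul' hU1 hU1).trans (homogeneousSubmodule_mul 1 1)
  have hU3 : U * U * U ≤ homogeneousSubmodule (Fin N) ℂ 3 :=
    (mul_le_mul' hU2 hU1).trans (homogeneousSubmodule_mul 2 1)
  obtain ⟨_, ⟨u, hu, rfl⟩, _, ⟨v, hv, rfl⟩, _, ⟨s, hs, rfl⟩, h1, h2, h3, h4⟩ := hc
  have hu1 : u.IsHomogeneous 1 := hU1 hu
  have hv1 : v.IsHomogeneous 1 := hU1 hv
  have hs1 : s.IsHomogeneous 1 := hs
  simp only [AlgHom.toLinearMap_apply, ← map_mul] at h1 h2 h3 h4
  refine ⟨_, ⟨u, hu, rfl⟩, _, ⟨v, hv, rfl⟩, _, ⟨s, hs, rfl⟩, ?_, ?_, ?_, ?_⟩ <;>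
    simp only [AlgHom.toLinearMap_apply, ← map_mul]
  · exact fun h => h1 ((key 1 le_rfl U hU1 s hs1).1 h)
  · exact fun h => h2 ((key 2 (by omega) _ hU2 _ (hu1.mul hs1)).1 h)
  · exact fun h => h3 ((key 2 (by omega) _ hU2 _ (hv1.mul hs1)).1 h)
  · exact (key 3 (by omega) _ hU3 _ ((hu1.mul hv1).mul hs1)).2 h4

lemma not_mem_sq {k : ℕ} {i l : Fin 4} (hil : i ≠ l) (h0 : eval (Pi.single l 1) f0 = 0)
    (h1 : eval (Pi.single l 1) (pderiv i f0) = 0) :
    mk4 f0 (X i * X l ^ k) * mk4 f0 (X l ^ (k + 1)) ∉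
      (homogeneousSubmodule (Fin 4) ℂ (k + 1) ⊓ LinearMap.ker
        (aeval (Pi.single l (1 : ℂ)) : P4 →ₐ[ℂ] ℂ).toLinearMap).map (mk4 f0).toLinearMap *
      (homogeneousSubmodule (Fin 4) ℂ (k + 1) ⊓ LinearMap.ker
        (aeval (Pi.single l (1 : ℂ)) : P4 →ₐ[ℂ] ℂ).toLinearMap).map (mk4 f0).toLinearMap := by
  rw [← Submodule.map_mul, ← map_mul]
  rintro ⟨t, ht, h⟩
  have h2 : eval (Pi.single l 1) (pderiv i t) = 0 := by
    refine Submodule.mul_induction_on ht (fun p hp q hq => ?_) fun p q hp hq => ?_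
    · have hp0 : eval (Pi.single l 1) p = 0 := hp.2
      have hq0 : eval (Pi.single l 1) q = 0 := hq.2
      simp [hp0, hq0]
    · simp [hp, hq]
  have h3 : mk4 f0 (t - X i * X l ^ k * X l ^ (k + 1)) = 0 := by
    rw [map_sub, sub_eq_zero]; exact h
  obtain ⟨r, hr⟩ := mk4_eq_zero.1 h3
  have := congrArg (fun p => eval (Pi.single l (1 : ℂ)) (pderiv i p)) hr
  simp [h0, h1, h2, hil.symm, Pi.single_apply] at this

lemma cone_f0 {k : ℕ} (hk : 1 ≤ k) {i j l : Fin 4} (hil : i ≠ l) (hjl : j ≠ l) (h2 : 2 ≠ l)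
    (hf : f0 = X i * X j * X l + X 2 ^ 3) (h0 : eval (Pi.single l 1) f0 = 0)
    (h1 : ∀ i, eval (Pi.single l 1) (pderiv i f0) = 0) : Cone f0 k (Pi.single l 1) := by
  obtain ⟨k, rfl⟩ := Nat.exists_eq_add_of_le' hk
  have hm : ∀ i : Fin 4, i ≠ l → mk4 f0 (X i * X l ^ k) ∈
      (homogeneousSubmodule (Fin 4) ℂ (k + 1) ⊓ LinearMap.ker
        (aeval (Pi.single l (1 : ℂ)) : P4 →ₐ[ℂ] ℂ).toLinearMap).map (mk4 f0).toLinearMap :=
    fun i hi => ⟨_, ⟨by
      have := (isHomogeneous_X ℂ i).mul (isHomogeneous_X_pow (R := ℂ) l k)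
      rwa [add_comm] at this, by simp [hi]⟩, rfl⟩
  refine ⟨_, hm i hil, _, hm j hjl, mk4 f0 (X l ^ (k + 1)),
    ⟨_, isHomogeneous_X_pow l (k + 1), rfl⟩, ?_, not_mem_sq hil h0 (h1 i),
    not_mem_sq hjl h0 (h1 j), ?_⟩
  · rintro ⟨t, ht, h⟩
    have h3 : mk4 f0 (t - X l ^ (k + 1)) = 0 := by
      rw [map_sub, sub_eq_zero]; exact h
    obtain ⟨r, hr⟩ := mk4_eq_zero.1 h3
    have ht0 : eval (Pi.single l 1) t = 0 := ht.2
    have := congrArg (eval (Pi.single l (1 : ℂ))) hr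
    simp [h0, ht0] at this
  · have h3 : mk4 f0 (X i * X l ^ k) * mk4 f0 (X j * X l ^ k) * mk4 f0 (X l ^ (k + 1)) =
        -(mk4 f0 (X 2 * X l ^ k) * mk4 f0 (X 2 * X l ^ k) * mk4 f0 (X 2 * X l ^ k)) := by
      rw [eq_neg_iff_add_eq_zero, ← map_mul, ← map_mul, ← map_mul, ← map_mul, ← map_add,
        mk4_eq_zero]
      refine ⟨X l ^ (3 * k), ?_⟩
      rw [hf]
      ring
    rw [h3]
    exact neg_mem (Submodule.mul_mem_mul (Submodule.mul_mem_mul (hm 2 h2) (hm 2 h2)) (hm 2 h2))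

end BS3a

open BS3a in
theorem s3a_of (hH : St_HS) (hF : St_HF) (hZ : St_ZP) (hG : St_G2) : St_S3a := by
  intro k N f b b0 R hk hirr hf hb hb0 hR hR0
  have hirr0 := hG.irr f0 nf2_f0
  have hs : Spans f k b := ⟨hb.1, hb.2.2⟩
  have hs0 : Spans f0 k b0 := ⟨hb0.1, hb0.2.2⟩
  have hI : Inc f b = Inc f0 b0 := Set.ext fun H => (hR.2 H).symm.trans (hR0.2 H)
  let l : Fin 3 → Fin 4 := ![0, 1, 3]
  have hl : Function.Injective l := by decide
  have h0 : ∀ i, eval (Pi.single (l i) (1 : ℂ)) f0 = 0 := fun i => by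
    fin_cases i <;> simp [l, f0]
  have h1 : ∀ i j, eval (Pi.single (l i) (1 : ℂ)) (pderiv j f0) = 0 := fun i j => by
    fin_cases i <;> fin_cases j <;> simp [l, f0, Pi.single_apply]
  have hc : ∀ i, Cone f0 k (Pi.single (l i) 1) := fun i => by
    fin_cases i
    · exact cone_f0 hk (i := 1) (j := 3) (l := 0) (by decide) (by decide) (by decide)
        (by unfold f0; ring) (h0 0) (h1 0)
    · exact cone_f0 hk (i := 0) (j := 3) (l := 1) (by decide) (by decide) (by decide)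
        (by unfold f0; ring) (h0 1) (h1 1)
    · exact cone_f0 hk (i := 0) (j := 1) (l := 3) (by decide) (by decide) (by decide)
        rfl (h0 2) (h1 2)
  have hp := fun i => point' hH hF hZ hirr.ne_zero hf hk hs hI.symm.le (Pi.single (l i) 1)
    (by simp) (h0 i)
  choose x hx hx' a ha hxa using hp
  refine ⟨x, fun i => ⟨hx' i, cone_transport hs hs0 (hx' i) (h0 i) (ha i) (hxa i)
    (fun P e he hP => ⟨ker_le hH hF hZ hirr0 hirr.ne_zero hf hk hs0 hs hI.symm.le he hP,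
      ker_le hH hF hZ hirr hirr0.ne_zero nf2_f0.1 hk hs hs0 hI.le he hP⟩) (hc i)⟩,
    fun i j hij => ?_⟩
  rw [LinearIndependent.pair_iff' (hx i)]
  intro t ht
  obtain ⟨c, hc⟩ := sep hs0 (l j)
  have e1 := hc _ (h0 i)
  have e2 := hc _ (h0 j)
  have e3 : ∀ i, ∑ m, c m * eval (x i) (b m) =
      a i * ∑ m, c m * eval (Pi.single (l i) (1 : ℂ)) (b0 m) := fun i => by
    rw [Finset.mul_sum]
    refine Finset.sum_congr rfl fun m _ => ?_
    rw [congrFun (hxa i) m]
    simp only [Pi.smul_apply, smul_eq_mul]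
    ring
  have e4 : ∑ m, c m * eval (x j) (b m) = t ^ k * ∑ m, c m * eval (x i) (b m) := by
    rw [Finset.mul_sum]
    refine Finset.sum_congr rfl fun m _ => ?_
    rw [← ht, eval_smul_hom (hb.1 m)]
    ring
  rw [e3, e3, e1, e2, Pi.single_eq_same, Pi.single_eq_of_ne (hl.ne hij.symm),
    zero_pow (by omega)] at e4
  exact ha j (by simpa using e4)

end Pool.Agent.Lib.MP_a25055_ag
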