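import Pool.Agent.Lib.MP_a25055_ag.Inv

/-! Block S3b: the intrinsic condition forces a reducible tangent cone. -/

open MvPolynomial

noncomputable section

namespace Pool.Agent.Lib.MP_a25055_ag

namespace BS3b

/-- Forms of degree `n`. -/
abbrev H (n : ℕ) : Submodule ℂ P4 := homogeneousSubmodule (Fin 4) ℂ n

/-- Forms of degree `n` vanishing at `x`. -/
abbrev K (x : Fin 4 → ℂ) (n : ℕ) : Submodule ℂ P4 :=
  H n ⊓ LinearMap.ker (aeval x : P4 →ₐ[ℂ] ℂ).toLinearMap

lemma mem_K {x : Fin 4 → ℂ} {n : ℕ} {p : P4} : p ∈ K x n ↔ p.IsHomogeneous n ∧ eval x p = 0 := by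
  simp [K, aeval_eq_eval]

lemma H_add (a b : ℕ) : H (a + b) = H a * H b := by
  rw [H, H, H, ← homogeneousSubmodule_one_pow _ a, ← homogeneousSubmodule_one_pow _ b,
    ← homogeneousSubmodule_one_pow _ (a + b), pow_add]

/-- Restriction to the line `x + t v`. -/
def ph (x v : Fin 4 → ℂ) : P4 →ₐ[ℂ] Polynomial ℂ :=
  aeval fun i => Polynomial.C (x i) + Polynomial.C (v i) * Polynomial.X

/-- The differential at `x`. -/
def D (x : Fin 4 → ℂ) (p : P4) : (Fin 4 → ℂ) →ₗ[ℂ] ℂ :=
  ∑ i, eval x (pderiv i p) • LinearMap.proj i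

lemma D_apply (x v : Fin 4 → ℂ) (p : P4) : D x p v = ∑ i, eval x (pderiv i p) * v i := by
  simp [D]

lemma D_add (x v : Fin 4 → ℂ) (p q : P4) : D x (p + q) v = D x p v + D x q v := by
  simp only [D_apply, map_add, add_mul, Finset.sum_add_distrib]

lemma D_sub (x v : Fin 4 → ℂ) (p q : P4) : D x (p - q) v = D x p v - D x q v := by
  simp only [D_apply, map_sub, sub_mul, Finset.sum_sub_distrib]

lemma D_mul (x v : Fin 4 → ℂ) (p q : P4) :
    D x (p * q) v = eval x p * D x q v + D x p v * eval x q := by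
  simp only [D_apply, Derivation.leibniz, smul_eq_mul, map_add, map_mul, Finset.mul_sum,
    Finset.sum_mul, ← Finset.sum_add_distrib]
  exact Finset.sum_congr rfl fun i _ => by ring

lemma D_X (x v : Fin 4 → ℂ) (i : Fin 4) : D x (X i) v = v i := by
  rw [D_apply, Finset.sum_eq_single i] <;> simp +contextual [pderiv_X, eq_comm]

lemma eval_ph (x v : Fin 4 → ℂ) (p : P4) (t : ℂ) : (ph x v p).eval t = eval (x + t • v) p := by
  induction p using MvPolynomial.induction_on with
  | C c => simp [ph]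
  | add p q hp hq => simp only [map_add, Polynomial.eval_add, hp, hq]
  | mul_X p i hp => rw [map_mul, map_mul, Polynomial.eval_mul, hp, ph]; simp [mul_comm t]

lemma coeff0 (x v : Fin 4 → ℂ) (p : P4) : (ph x v p).coeff 0 = eval x p := by
  rw [Polynomial.coeff_zero_eq_eval_zero, eval_ph]; simp

lemma coeff_mul1 (a b : Polynomial ℂ) :
    (a * b).coeff 1 = a.coeff 0 * b.coeff 1 + a.coeff 1 * b.coeff 0 := by
  rw [Polynomial.coeff_mul, Finset.Nat.antidiagonal_succ]; simp

lemma coeff_mul2 (a b : Polynomial ℂ) :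
    (a * b).coeff 2 = a.coeff 0 * b.coeff 2 + a.coeff 1 * b.coeff 1 + a.coeff 2 * b.coeff 0 := by
  rw [Polynomial.coeff_mul, Finset.Nat.sum_antidiagonal_eq_sum_range_succ_mk]
  simp [Finset.sum_range_succ]

lemma coeff1 (x v : Fin 4 → ℂ) (p : P4) : (ph x v p).coeff 1 = D x p v := by
  induction p using MvPolynomial.induction_on with
  | C c => simp [ph, D_apply]
  | add p q hp hq => rw [map_add, Polynomial.coeff_add, hp, hq, D_add]
  | mul_X p i hp =>
    rw [map_mul, coeff_mul1, D_mul, hp, coeff0, coeff0, D_X]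
    simp [ph, Polynomial.coeff_C]

lemma lin_eq (x : Fin 4 → ℂ) {y : P4} (hy : y ∈ H 1) (v : Fin 4 → ℂ) : D x y v = eval v y := by
  rw [H, homogeneousSubmodule_one_eq_span_X] at hy
  induction hy using Submodule.span_induction with
  | mem p hp => obtain ⟨i, rfl⟩ := hp; rw [D_X, eval_X]
  | zero => simp [D_apply]
  | add p q _ _ hp hq => rw [D_add, hp, hq, map_add]
  | smul c p _ hp => rw [smul_eq_C_mul, D_mul, hp]; simp [D_apply]

lemma eval_smul {p : P4} {n : ℕ} (hp : p ∈ H n) (t : ℂ) (v : Fin 4 → ℂ) :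
    eval (t • v) p = t ^ n * eval v p := by
  rw [eval_eq', eval_eq', Finset.mul_sum]
  refine Finset.sum_congr rfl fun d hd => ?_
  have h : ∑ i, d i = n := by
    rw [← Finsupp.degree_eq_sum]
    by_contra h
    exact mem_support_iff.mp hd (IsHomogeneous.coeff_eq_zero hp h)
  simp only [Pi.smul_apply, smul_eq_mul, mul_pow, Finset.prod_mul_distrib,
    Finset.prod_pow_eq_pow_sum, h]
  ring

/-- Forms of degree `e + 1` that visibly vanish to order two. -/
def W (x : Fin 4 → ℂ) : ℕ → Submodule ℂ P4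
  | 0 => ⊥
  | e + 1 => K x 1 * K x 1 * H e

lemma decomp {x : Fin 4 → ℂ} {z : P4} (hz : z ∈ H 1) (hz1 : eval x z = 1) (e : ℕ) :
    ∀ p ∈ H (e + 1), ∃ c : ℂ, ∃ y ∈ K x 1, ∃ w ∈ W x e, p = C c * z ^ (e + 1) + z ^ e * y + w := by
  have h1 : ∀ a ∈ H 1, a - C (eval x a) * z ∈ K x 1 := fun a ha =>
    mem_K.mpr ⟨IsHomogeneous.sub ha (IsHomogeneous.C_mul hz _), by simp [hz1]⟩
  induction e with
  | zero => exact fun p hp => ⟨eval x p, _, h1 p hp, 0, Submodule.zero_mem _, by ring⟩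
  | succ e ih =>
    intro p hp
    rw [add_comm, H_add] at hp
    refine Submodule.mul_induction_on hp (fun a ha b hb => ?_) ?_
    · obtain ⟨c, y, hy, w, hw, rfl⟩ := ih b hb
      have h2 := h1 a ha
      refine ⟨eval x a * c, C (eval x a) * y + C c * (a - C (eval x a) * z), ?_,
        (a - C (eval x a) * z) * y * z ^ e + a * w, Submodule.add_mem _ ?_ ?_, ?_⟩
      · rw [← smul_eq_C_mul, ← smul_eq_C_mul]
        exact Submodule.add_mem _ (Submodule.smul_mem _ _ hy) (Submodule.smul_mem _ _ h2)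
      · refine Submodule.mul_mem_mul (Submodule.mul_mem_mul h2 hy) ?_
        simpa using IsHomogeneous.pow hz e
      · cases e with
        | zero => rw [(Submodule.mem_bot ℂ).mp hw, mul_zero]; exact Submodule.zero_mem _
        | succ e =>
          show _ ∈ K x 1 * K x 1 * H (e + 1)
          rw [H_add, ← mul_assoc, mul_comm a]
          exact Submodule.mul_mem_mul hw ha
      · rw [map_mul]; ring
    · rintro _ _ ⟨c, y, hy, w, hw, rfl⟩ ⟨c', y', hy', w', hw', rfl⟩
      exact ⟨c + c', y + y', Submodule.add_mem _ hy hy', w + w', Submodule.add_mem _ hw hw', by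
        rw [map_add]; ring⟩

lemma K_mul (x : Fin 4 → ℂ) (e : ℕ) : K x 1 * H e ≤ K x (e + 1) :=
  Submodule.mul_le.mpr fun a ha b hb => mem_K.mpr
    ⟨add_comm 1 e ▸ IsHomogeneous.mul (mem_K.mp ha).1 hb, by rw [map_mul, (mem_K.mp ha).2, zero_mul]⟩

lemma dvd_K {x : Fin 4 → ℂ} {n : ℕ} {p : P4} (hp : p ∈ K x n) (v : Fin 4 → ℂ) :
    Polynomial.X ∣ ph x v p := by
  rw [Polynomial.X_dvd_iff, coeff0, (mem_K.mp hp).2]

lemma dvd_mul {x : Fin 4 → ℂ} (v : Fin 4 → ℂ) {A B : Submodule ℂ P4} {a b : Polynomial ℂ}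
    (hA : ∀ p ∈ A, a ∣ ph x v p) (hB : ∀ p ∈ B, b ∣ ph x v p) : ∀ p ∈ A * B, a * b ∣ ph x v p :=
  fun _ hp => Submodule.mul_induction_on hp
    (fun p hp q hq => by rw [map_mul]; exact mul_dvd_mul (hA p hp) (hB q hq))
    fun p q hp hq => by rw [map_add]; exact dvd_add hp hq

/-- Forms of degree `2 k` vanishing to order two are sums of products. -/
lemma order_two {x : Fin 4 → ℂ} {z : P4} (hz : z ∈ H 1) (hz1 : eval x z = 1) {e : ℕ} {p : P4}
    (hp : p ∈ H (e + e + 1 + 1)) (h0 : eval x p = 0) (h1 : ∀ v, D x p v = 0) :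
    p ∈ K x (e + 1) * K x (e + 1) := by
  obtain ⟨c, y, hy, w, hw, rfl⟩ := decomp hz hz1 _ p hp
  have hw2 : ∀ v, Polynomial.X ^ 2 ∣ ph x v w := fun v => by
    have := dvd_mul v (dvd_mul v (fun p hp => dvd_K (n := 1) hp v) fun p hp => dvd_K (n := 1) hp v)
      (fun p _ => one_dvd (ph x v p)) w hw
    rwa [mul_one, ← sq] at this
  have hw0 : eval x w = 0 := by
    rw [← coeff0 x 0]; exact Polynomial.X_pow_dvd_iff.mp (hw2 0) 0 (by norm_num)
  have hw1 : ∀ v, D x w v = 0 := fun v => by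
    rw [← coeff1]; exact Polynomial.X_pow_dvd_iff.mp (hw2 v) 1 (by norm_num)
  have hy0 := (mem_K.mp hy).2
  have hc : c = 0 := by simpa [hz1, hy0, hw0] using h0
  subst hc
  have hy1 : y = 0 := MvPolynomial.funext fun v => by
    have := h1 v
    rw [map_zero, zero_mul, zero_add, D_add, hw1, D_mul, hy0, lin_eq x (mem_K.mp hy).1] at this
    simpa [hz1] using this
  rw [hy1, map_zero, zero_mul, mul_zero, zero_add, zero_add]
  have h2 : W x (e + e + 1) = (K x 1 * H e) * (K x 1 * H e) := by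
    show K x 1 * K x 1 * H (e + e) = _
    rw [H_add, mul_mul_mul_comm]
  exact mul_le_mul' (K_mul x e) (K_mul x e) (h2 ▸ hw)

lemma prop_of_ker {L u : (Fin 4 → ℂ) →ₗ[ℂ] ℂ} (h : ∀ v, L v = 0 → u v = 0) :
    ∃ a : ℂ, ∀ v, u v = a * L v := by
  by_cases hL : ∃ w, L w ≠ 0
  · obtain ⟨w, hw⟩ := hL
    refine ⟨u w / L w, fun v => ?_⟩
    have := h (L w • v - L v • w) (by simp [mul_comm])
    rw [map_sub, map_smul, map_smul, smul_eq_mul, smul_eq_mul] at this
    field_simp
    linear_combination this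
  · push Not at hL
    exact ⟨0, fun v => by rw [h v (hL v), zero_mul]⟩

lemma ker_or {L u u' : (Fin 4 → ℂ) →ₗ[ℂ] ℂ} (h : ∀ v, L v = 0 → u v * u' v = 0) :
    (∀ v, L v = 0 → u v = 0) ∨ ∀ v, L v = 0 → u' v = 0 := by
  by_contra hn
  push Not at hn
  obtain ⟨⟨a, ha, ha'⟩, b, hb, hb'⟩ := hn
  have h1 := (mul_eq_zero.mp (h a ha)).resolve_left ha'
  have h2 := (mul_eq_zero.mp (h b hb)).resolve_right hb'
  have h3 := h (a + b) (by rw [map_add, ha, hb, add_zero])
  rw [map_add, map_add, h1, h2, add_zero, zero_add] at h3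
  exact mul_ne_zero ha' hb' h3

/-- Taylor expansion of a cubic at a singular point. -/
lemma taylor {f : P4} (hf : f.IsHomogeneous 3) {x v : Fin 4 → ℂ} (h0 : eval x f = 0)
    (h1 : D x f v = 0) (s : ℂ) : eval (s • x + v) f = s * (ph x v f).coeff 2 + eval v f := by
  have hd : (ph x v f).natDegree < 4 := by
    refine Nat.lt_succ_of_le (MvPolynomial.aeval_natDegree_le (n := 1) f hf.totalDegree_le _
      fun i => ?_)
    compute_degree
  have key : ∀ s : ℂ, s ≠ 0 →
      eval (s • x + v) f - s * (ph x v f).coeff 2 = (ph x v f).coeff 3 := fun s hs => by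
    have e : s • x + v = s • (x + s⁻¹ • v) := by rw [smul_add, smul_inv_smul₀ hs]
    rw [e, eval_smul hf, ← eval_ph, Polynomial.eval_eq_sum_range' hd]
    simp only [Finset.sum_range_succ, Finset.range_zero, Finset.sum_empty, coeff0, coeff1, h0, h1]
    field_simp
    ring
  have hc : Continuous fun s : ℂ => eval (s • x + v) f - s * (ph x v f).coeff 2 := by
    simp only [add_comm _ v, ← eval_ph]
    fun_prop
  have h2 := congrFun (hc.ext_on (dense_compl_singleton 0) continuous_const key)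
  have h3 := h2 0
  have h4 := h2 s
  simp only [zero_smul, zero_add, zero_mul, sub_zero] at h3
  linear_combination h4 - h3

end BS3b

open BS3b in
theorem s3b_of : St_S3b := by
  intro k f x hk hf hx hfx hC
  obtain ⟨e, rfl⟩ : ∃ e, k = e + 3 := ⟨k - 3, by omega⟩
  obtain ⟨_, ⟨u, hu, rfl⟩, _, ⟨w, hw, rfl⟩, _, ⟨s, hs, rfl⟩, h1, h2, h3, h4⟩ := hC
  simp only [AlgHom.toLinearMap_apply, ← map_mul, ← Submodule.map_mul] at h1 h2 h3 h4
  obtain ⟨i, hi⟩ := Function.ne_iff.mp hx
  have hi' : x i ≠ 0 := hi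
  have hz : (C (x i)⁻¹ * X i : P4) ∈ H 1 := isHomogeneous_C_mul_X _ _
  have hz1 : eval x (C (x i)⁻¹ * X i : P4) = 1 := by simp [hi']
  generalize (C (x i)⁻¹ * X i : P4) = z at hz hz1
  have hs0 : eval x s ≠ 0 := fun h => h1 ⟨s, mem_K.mpr ⟨hs, h⟩, rfl⟩
  have hmk : mk4 f f = 0 := Ideal.Quotient.eq_zero_iff_mem.mpr (Ideal.mem_span_singleton_self f)
  have key : ∀ u ∈ K x (e + 3), (∀ v, D x f v = 0 → D x u v = 0) →
      mk4 f (u * s) ∈ (K x (e + 3) * K x (e + 3)).map (mk4 f).toLinearMap := fun u hu h => by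
    obtain ⟨a, ha⟩ := prop_of_ker h
    obtain ⟨hu1, hu2⟩ := mem_K.mp hu
    refine ⟨u * s - C (a * eval x s) * z ^ (e + e + 3) * f,
      order_two hz hz1 (e := e + 2) (IsHomogeneous.sub ?_ ?_) ?_ fun v => ?_, ?_⟩
    · exact (by omega : e + 3 + (e + 3) = e + 2 + (e + 2) + 1 + 1) ▸ IsHomogeneous.mul hu1 hs
    · exact (by omega : 1 * (e + e + 3) + 3 = e + 2 + (e + 2) + 1 + 1) ▸
        IsHomogeneous.mul (IsHomogeneous.C_mul (IsHomogeneous.pow hz (e + e + 3)) _) hf
    · simp [hu2, hfx]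
    · rw [D_sub, D_mul, D_mul, hu2, hfx, ha]
      simp only [map_mul, map_pow, hz1, eval_C]
      ring
    · rw [AlgHom.toLinearMap_apply, map_sub, map_mul _ _ f, hmk, mul_zero, sub_zero]
  obtain ⟨r, hr, hr'⟩ := h4
  obtain ⟨G, hG⟩ := Ideal.mem_span_singleton.mp (Ideal.Quotient.eq.mp hr')
  have hu0 := (mem_K.mp hu).2
  have hw0 := (mem_K.mp hw).2
  have hco : ∀ v, D x f v * eval x G = 0 ∧ -(D x u v * D x w v * eval x s) =
      D x f v * D x G v + (ph x v f).coeff 2 * eval x G := fun v => by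
    have h5 := dvd_mul v (dvd_mul v (fun p hp => dvd_K (n := e + 3) hp v)
      fun p hp => dvd_K (n := e + 3) hp v) (fun p hp => dvd_K (n := e + 3) hp v) r hr
    rw [← pow_three'] at h5
    have h6 := congrArg (ph x v) hG
    rw [map_sub, map_mul, map_mul, map_mul] at h6
    have h7 := congrArg (Polynomial.coeff · 1) h6
    have h8 := congrArg (Polynomial.coeff · 2) h6
    simp only [Polynomial.coeff_sub, coeff_mul1, coeff_mul2, Polynomial.mul_coeff_zero, coeff0, coeff1,
      hu0, hw0, hfx, Polynomial.X_pow_dvd_iff.mp h5 2 (by norm_num)] at h7 h8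
    rw [← coeff1 x v r, Polynomial.X_pow_dvd_iff.mp h5 1 (by norm_num)] at h7
    exact ⟨by linear_combination -h7, by linear_combination h8⟩
  have hG0 : eval x G ≠ 0 := fun h => by
    have h5 : ∀ v, D x f v = 0 → D x u v * D x w v = 0 := fun v hv => by
      have := (hco v).2
      rw [h, hv] at this
      exact (mul_eq_zero.mp (by linear_combination -this)).resolve_right hs0
    exact (ker_or h5).elim (fun h => h2 (key u hu h)) fun h => h3 (key w hw h)
  refine ⟨(-(eval x s / eval x G)) • D x u, D x w, fun t v => ?_⟩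
  have h5 := (mul_eq_zero.mp (hco v).1).resolve_right hG0
  have h6 := (hco v).2
  rw [h5] at h6
  rw [taylor hf hfx h5, LinearMap.smul_apply, smul_eq_mul]
  field_simp
  linear_combination (-t) * h6

end Pool.Agent.Lib.MP_a25055_ag
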