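import Pool.Agent.Lib.MP_a25055_ag.BL2

/-! Block S3c: a semistable irreducible cubic surface with three points whose tangent cones are
products of two linear forms is projectively equivalent to `f0`. -/

open MvPolynomial Filter Topology

noncomputable section

namespace Pool.Agent.Lib.MP_a25055_ag

namespace BS3c

open BL2

/-- The matrix with the given rows. -/
def rows (a b c d : V) : Mat 4 := Matrix.of ![a, b, c, d]

lemma vecMul_rows (a b c d t : V) :
    Matrix.vecMul t (rows a b c d) = t 0 • a + t 1 • b + t 2 • c + t 3 • d := by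
  funext j
  simp [rows, Matrix.vecMul, dotProduct, Fin.sum_univ_four]

lemma det_rows {a b c d : V} (h : Ind a b c d) : (rows a b c d).det ≠ 0 := by
  intro h0
  obtain ⟨v, hv, e⟩ := Matrix.exists_vecMul_eq_zero_iff.2 h0
  rw [vecMul_rows] at e
  obtain ⟨h0, h1, h2, h3⟩ := h _ _ _ _ e
  exact hv (funext fun i => by fin_cases i <;> assumption)

lemma not_irr {f p q : P4} {M : Mat 4} (hM : M.det ≠ 0) (h : sub4 M f = p * q)
    (hp : eval 0 p = 0) (hq : eval 0 q = 0) : ¬ Irreducible f := by
  intro hf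
  have e : f = sub4 M⁻¹ p * sub4 M⁻¹ q := by
    rw [← map_mul, ← h, sub4_sub4, Matrix.nonsing_inv_mul _ (isUnit_iff_ne_zero.2 hM), sub4_one]
  rcases hf.isUnit_or_isUnit e with u | u
  · have := u.map (eval (0 : V))
    rw [eval_sub4, Matrix.zero_vecMul, hp] at this
    exact not_isUnit_zero this
  · have := u.map (eval (0 : V))
    rw [eval_sub4, Matrix.zero_vecMul, hq] at this
    exact not_isUnit_zero this

/-- A symmetric trilinear form representing the cubic `f`. -/
structure Rep (f : P4) (T : Tr) : Prop where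
  s1 : ∀ a b c, T a b c = T b a c
  s2 : ∀ a b c, T a b c = T a c b
  ev : ∀ p, T p p p = 6 * eval p f

/-- A singular point with reducible tangent cone, in terms of the trilinear form. -/
def Pt (T : Tr) (x : V) : Prop :=
  (∀ v, T x x v = 0) ∧ ∃ l l' : V →ₗ[ℂ] ℂ, ∀ v w, T x v w = l v * l' w + l w * l' v

variable {f : P4} {T : Tr}

lemma Rep.two (h : Rep f T) (x v : V) (s t : ℂ) : 6 * eval (s • x + t • v) f =
    s ^ 3 * T x x x + 3 * s ^ 2 * t * T x x v + 3 * s * t ^ 2 * T x v v + t ^ 3 * T v v v := by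
  rw [← h.ev]
  simp only [map_add, map_smul, LinearMap.add_apply, LinearMap.smul_apply, smul_eq_mul,
    fun c => h.s1 v x c, fun c => h.s2 c v x]
  ring

lemma Rep.pt (h : Rep f T) {x : V} (l l' : V →ₗ[ℂ] ℂ)
    (hx : ∀ (s : ℂ) (v : V), eval (s • x + v) f = s * l v * l' v + eval v f) : Pt T x := by
  have e : ∀ (s : ℂ) (v : V), s ^ 3 * T x x x + 3 * s ^ 2 * T x x v + 3 * s * T x v v =
      6 * s * l v * l' v := fun s v => by
    have e1 := h.two x v s 1
    rw [one_smul, hx, h.ev v] at e1
    linear_combination -e1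
  have h3 : T x x x = 0 := by simpa using e 1 0
  have h1 : ∀ v, T x v v = 2 * l v * l' v := fun v => by
    linear_combination (e 1 v - e (-1) v) / 6 - h3 / 3
  refine ⟨fun v => by linear_combination (e 1 v + e (-1) v) / 6, l, l', fun v w => ?_⟩
  have e1 := h1 (v + w)
  simp only [map_add, LinearMap.add_apply, h.s2 x w v] at e1
  linear_combination (e1 - h1 v - h1 w) / 2

lemma Rep.disc (h : Rep f T) {a b c y : V} (ha : Pt T a) (hb : Pt T b) (hc : Pt T c)
    (hA : T a b c ≠ 0) (h1 : T a b y = 0) : T a y y = 0 := by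
  obtain ⟨-, l, l', e⟩ := ha
  have eb : l b * l' b = 0 := by
    have := e b b
    rw [h.s1, h.s2, hb.1] at this
    linear_combination -this / 2
  have ec : l c * l' c = 0 := by
    have := e c c
    rw [h.s1, h.s2, hc.1] at this
    linear_combination -this / 2
  rw [e] at hA h1 ⊢
  have k1 : l b * l c = 0 := (mul_eq_zero.1
    (by linear_combination l b * l b * ec + l c * l c * eb)).resolve_left hA
  have k2 : l' b * l' c = 0 := (mul_eq_zero.1
    (by linear_combination l' c * l' c * eb + l' b * l' b * ec)).resolve_left hA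
  refine (mul_eq_zero.1 (?_ : (l b * l' c + l c * l' b) * _ = 0)).resolve_left hA
  linear_combination 2 * (l c * l' y + l y * l' c) * h1 - 2 * l' y ^ 2 * k1 - 2 * l y ^ 2 * k2

/-- A cubic singular along a line is unstable. -/
lemma Rep.unst (h : Rep f T) {a b y z : V} (hi : Ind a b y z) (ha : ∀ v, T a a v = 0)
    (hb : ∀ v, T b b v = 0) (hab : ∀ v, T a b v = 0) : ¬ Semi (lift4 f) := by
  intro hs
  apply hs
  have hd := det_rows hi
  set d := (rows a b y z).det with hd'
  let e : ℕ → ℂ := fun n => ((1 / ((n : ℝ) + 1) : ℝ) : ℂ)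
  have he0 : ∀ n, e n ≠ 0 := fun n => by
    simp only [e, Complex.ofReal_ne_zero]
    positivity
  have he : Tendsto e atTop (𝓝 0) := by
    have := (Complex.continuous_ofReal.tendsto 0).comp tendsto_one_div_add_atTop_nhds_zero_nat
    simpa [e, Function.comp_def] using this
  let g : ℕ → SL 4 := fun n =>
    ⟨Matrix.diagonal ![(e n)⁻¹, (e n)⁻¹, e n, e n * d⁻¹] * rows a b y z, by
      rw [Matrix.det_mul, Matrix.det_diagonal, Fin.prod_univ_four, ← hd']
      have := he0 n
      simp only [Matrix.cons_val_zero, Matrix.cons_val_one, Matrix.cons_val]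
      field_simp⟩
  refine mem_closure_of_tendsto (f := fun n => moved (lift4 f) (g n : Mat 4)) (b := atTop) ?_
    (Eventually.of_forall fun n => ⟨g n, rfl⟩)
  rw [tendsto_pi_nhds]
  intro H
  set p : V := H (0, 0) • a + H (0, 1) • b with hp
  set w : V := H (0, 2) • y + (H (0, 3) * d⁻¹) • z with hw
  have hpp : ∀ v, T p p v = 0 := fun v => by
    simp only [hp, map_add, map_smul, LinearMap.add_apply, LinearMap.smul_apply, smul_eq_mul,
      ha, hb, hab, h.s1 b a v]
    ring
  have key : ∀ n, moved (lift4 f) (g n : Mat 4) H =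
      e n * (T p w w / 2 + e n ^ 2 * T w w w / 6) := fun n => by
    have e1 : moved (lift4 f) (g n : Mat 4) H = eval ((e n)⁻¹ • p + e n • w) f := by
      rw [← eval_act, ← lift4_sub4, lift4, eval_rename, eval_sub4]
      congr 2
      change Matrix.vecMul _ (Matrix.diagonal _ * rows a b y z) = _
      rw [← Matrix.vecMul_vecMul, vecMul_rows]
      simp only [Matrix.vecMul_diagonal, Function.comp, hp, hw, Matrix.cons_val_zero,
        Matrix.cons_val_one, Matrix.cons_val]
      module
    have e2 := h.two p w (e n)⁻¹ (e n)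
    rw [hpp, hpp] at e2
    have e3 : (e n)⁻¹ * e n = 1 := inv_mul_cancel₀ (he0 n)
    rw [e1]
    linear_combination e2 / 6 + e n * T p w w / 2 * e3
  simp only [key]
  have := he.mul ((((he.pow 2).mul_const (T w w w)).div_const 6).const_add (T p w w / 2))
  simpa using this

/-- The expansion in a basis containing three singular points. -/
lemma Rep.four (h : Rep f T) {a b c : V} (y : V) (ha : ∀ v, T a a v = 0) (hb : ∀ v, T b b v = 0)
    (hc : ∀ v, T c c v = 0) (t : V) : 6 * eval t (sub4 (rows a b y c) f) =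
      6 * T a b c * t 0 * t 1 * t 3 + t 2 * (6 * T a b y * t 0 * t 1 + 6 * T a c y * t 0 * t 3 +
        6 * T b c y * t 1 * t 3 + 3 * T a y y * t 0 * t 2 + 3 * T b y y * t 1 * t 2 +
        3 * T c y y * t 3 * t 2 + T y y y * t 2 * t 2) := by
  rw [eval_sub4, vecMul_rows, ← h.ev]
  have r1 : ∀ u v, T u v u = T u u v := fun u v => h.s2 u v u
  have r2 : ∀ u v, T v u u = T u u v := fun u v => by rw [h.s1, h.s2]
  have aa : ∀ v, T a v a = 0 := fun v => by rw [r1, ha]
  have bb : ∀ v, T b v b = 0 := fun v => by rw [r1, hb]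
  have cc : ∀ v, T c v c = 0 := fun v => by rw [r1, hc]
  have aa' : ∀ v, T v a a = 0 := fun v => by rw [r2, ha]
  have bb' : ∀ v, T v b b = 0 := fun v => by rw [r2, hb]
  have cc' : ∀ v, T v c c = 0 := fun v => by rw [r2, hc]
  simp only [map_add, map_smul, LinearMap.add_apply, LinearMap.smul_apply, smul_eq_mul,
    ha, hb, hc, aa, bb, cc, aa', bb', cc', fun v => h.s1 b a v, fun v => h.s1 c a v,
    fun v => h.s1 c b v, fun v => h.s1 y a v, fun v => h.s1 y b v, fun v => h.s1 y c v,
    fun v => h.s2 v c a, fun v => h.s2 v c b, fun v => h.s2 v y a,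
    fun v => h.s2 v y b, fun v => h.s2 v y c]
  ring

lemma Rep.gen (h : Rep f T) (hf : Irreducible f) {a b c y : V} (hi : Ind a b y c) (ha : Pt T a)
    (hb : Pt T b) (hc : Pt T c) : Eq0 f := by
  have hA : T a b c ≠ 0 := fun hA => by
    refine not_irr (det_rows hi) (p := X 2) (q := C (T a b y) * X 0 * X 1 + C (T a c y) * X 0 * X 3 +
      C (T b c y) * X 1 * X 3 + C (T a y y / 2) * X 0 * X 2 + C (T b y y / 2) * X 1 * X 2 +
      C (T c y y / 2) * X 3 * X 2 + C (T y y y / 6) * X 2 * X 2) ?_ (by simp) (by simp) hf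
    refine MvPolynomial.funext fun t => ?_
    have := h.four y ha.1 hb.1 hc.1 t
    rw [hA] at this
    simp only [map_mul, map_add, eval_C, eval_X]
    linear_combination this / 6
  obtain ⟨k, hk⟩ : ∃ k, k * T a b c = 1 := ⟨_, inv_mul_cancel₀ hA⟩
  obtain ⟨u, hu⟩ : ∃ u : V, u = y - (k * T b c y) • a - (k * T a c y) • b - (k * T a b y) • c :=
    ⟨_, rfl⟩
  have r1 : ∀ u v, T u v u = T u u v := fun u v => h.s2 u v u
  have r2 : ∀ u v, T v u u = T u u v := fun u v => by rw [h.s1, h.s2]
  have u1 : T a b u = 0 := by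
    simp only [hu, map_sub, map_smul, smul_eq_mul, r1 a b, r2 b a, ha.1, hb.1]
    linear_combination -T a b y * hk
  have u2 : T a c u = 0 := by
    simp only [hu, map_sub, map_smul, smul_eq_mul, r1 a c, r2 c a, ha.1, hc.1, h.s2 a c b]
    linear_combination -T a c y * hk
  have u3 : T b c u = 0 := by
    simp only [hu, map_sub, map_smul, smul_eq_mul, r1 b c, r2 c b, hb.1, hc.1, h.s2 b c a,
      h.s1 b a c]
    linear_combination -T b c y * hk
  have v1 : T a u u = 0 := h.disc ha hb hc hA u1
  have v2 : T b u u = 0 := h.disc hb ha hc (by rwa [h.s1]) (by rwa [h.s1])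
  have v3 : T c u u = 0 := h.disc hc ha hb (by rwa [h.s1, h.s2]) (by rwa [h.s1])
  have hiu : Ind a b u c := fun c0 c1 c2 c3 e => by
    obtain ⟨e0, e1, e2, e3⟩ := hi (c0 - c2 * (k * T b c y)) (c1 - c2 * (k * T a c y)) c2
      (c3 - c2 * (k * T a b y)) (by rw [← e, hu]; module)
    rw [e2] at e0 e1 e3
    exact ⟨by simpa using e0, by simpa using e1, e2, by simpa using e3⟩
  have hD : T u u u ≠ 0 := fun hD => by
    refine not_irr (det_rows hiu) (p := X 0) (q := C (T a b c) * X 1 * X 3) ?_ (by simp) (by simp) hf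
    refine MvPolynomial.funext fun t => ?_
    have := h.four u ha.1 hb.1 hc.1 t
    rw [u1, u2, u3, v1, v2, v3, hD] at this
    simp only [map_mul, eval_C, eval_X]
    linear_combination this / 6
  obtain ⟨m, hm⟩ := IsAlgClosed.exists_pow_nat_eq (6 / T u u u) (n := 3) (by norm_num)
  have hm' : m ^ 3 * T u u u = 6 := by rw [hm]; field_simp
  have hm0 : m ≠ 0 := by
    rintro rfl
    norm_num at hm'
  have hk0 : k ≠ 0 := by
    rintro rfl
    norm_num at hk
  refine ⟨Matrix.diagonal ![k, 1, m, 1] * rows a b u c, ?_, ?_⟩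
  · rw [Matrix.det_mul, Matrix.det_diagonal, Fin.prod_univ_four]
    have := det_rows hiu
    simp only [Matrix.cons_val_zero, Matrix.cons_val_one, Matrix.cons_val]
    simp [hk0, hm0, this]
  · refine MvPolynomial.funext fun t => ?_
    rw [← sub4_sub4, eval_sub4]
    have := h.four u ha.1 hb.1 hc.1 (Matrix.vecMul t (Matrix.diagonal ![k, 1, m, 1]))
    rw [u1, u2, u3, v1, v2, v3] at this
    simp only [Matrix.vecMul_diagonal, Matrix.cons_val_zero, Matrix.cons_val_one,
      Matrix.cons_val] at this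
    simp only [f0, map_mul, map_add, map_pow, eval_X]
    linear_combination this / 6 + t 0 * t 1 * t 3 * hk + t 2 ^ 3 / 6 * hm'

end BS3c

open BL2 BS3c in
theorem s3c_of : St_S3c := by
  intro f x hf hirr hs hli hx
  obtain ⟨T, s1, s2, h3, -⟩ := exists_tr hf
  have h : Rep f T := ⟨s1, s2, h3⟩
  have hp : ∀ i, Pt T (x i) := fun i => by
    obtain ⟨l, l', e⟩ := hx i
    exact h.pt l l' e
  have h01 := hli 0 1 (by decide)
  by_cases hc : x 2 ∈ Submodule.span ℂ (Set.range ![x 0, x 1])
  · exfalso
    obtain ⟨c, hc⟩ := (Submodule.mem_span_range_iff_exists_fun ℂ).1 hc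
    simp only [Fin.sum_univ_two, Matrix.cons_val_zero, Matrix.cons_val_one] at hc
    have c0 : c 0 ≠ 0 := fun e => by
      have := LinearIndependent.pair_iff.1 (hli 1 2 (by decide)) (c 1) (-1)
        (by rw [← hc, e]; module)
      simp at this
    have c1 : c 1 ≠ 0 := fun e => by
      have := LinearIndependent.pair_iff.1 (hli 0 2 (by decide)) (c 0) (-1)
        (by rw [← hc, e]; module)
      simp at this
    have hab : ∀ v, T (x 0) (x 1) v = 0 := fun v => by
      have := (hp 2).1 v
      rw [← hc] at this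
      simp only [map_add, map_smul, LinearMap.add_apply, LinearMap.smul_apply, smul_eq_mul,
        (hp 0).1, (hp 1).1, s1 (x 1) (x 0) v] at this
      refine (mul_eq_zero.1 (?_ : (2 * c 0 * c 1) * _ = 0)).resolve_left (by simp [c0, c1])
      linear_combination this
    obtain ⟨z, hz⟩ := exists_linearIndependent_cons_of_lt_finrank h01 (by simp)
    obtain ⟨w, hw⟩ := exists_linearIndependent_cons_of_lt_finrank hz (by simp)
    have hi : Ind w z (x 0) (x 1) := ind_iff.mp hw
    have hi' : Ind (x 0) (x 1) z w := fun c0 c1 c2 c3 e => by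
      obtain ⟨e0, e1, e2, e3⟩ := hi c3 c2 c0 c1 (by rw [← e]; module)
      exact ⟨e2, e3, e1, e0⟩
    exact h.unst hi' (hp 0).1 (hp 1).1 hab hs
  · have h2 : LinearIndependent ℂ (Fin.cons (x 2) ![x 0, x 1] : Fin 3 → V) :=
      linearIndependent_finCons.2 ⟨h01, hc⟩
    obtain ⟨w, hw⟩ := exists_linearIndependent_cons_of_lt_finrank h2 (by simp)
    have hi : Ind w (x 2) (x 0) (x 1) := ind_iff.mp hw
    have hi' : Ind (x 0) (x 1) w (x 2) := fun c0 c1 c2 c3 e => by
      obtain ⟨e0, e1, e2, e3⟩ := hi c2 c3 c0 c1 (by rw [← e]; module)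
      exact ⟨e2, e3, e0, e1⟩
    exact h.gen hirr hi' (hp 0) (hp 1) (hp 2)

end Pool.Agent.Lib.MP_a25055_ag
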