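import Pool.Agent.Lib.MP_a25055_ag.BT12

/-! Block T1: the weight inequality for the toric cubic. -/

open MvPolynomial Filter Topology Module Finset

noncomputable section

namespace Pool.Agent.Lib.MP_a25055_ag

namespace BT1

/-- An exponent vector. -/
def ex (a b c d : ℕ) : Fin 4 →₀ ℕ := Finsupp.equivFunOnFinite.symm ![a, b, c, d]

lemma ex_apply (a b c d : ℕ) (i : Fin 4) : ex a b c d i = ![a, b, c, d] i := rfl

lemma ex_eta (a : Fin 4 →₀ ℕ) : a = ex (a 0) (a 1) (a 2) (a 3) := by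
  ext i; fin_cases i <;> rfl

lemma ex_cyc (a b c d : ℕ) : (ex a b c d).mapDomain cyc = ex d a c b := by
  ext i
  rw [Finsupp.mapDomain_equiv_apply]
  fin_cases i <;> rfl

lemma std_ex {k a b c d : ℕ} : Std k (ex a b c d) ↔ a + b + c + d = k ∧ (a = 0 ∨ b = 0 ∨ d = 0) := by
  simp [Std, Fin.sum_univ_four, ex_apply]

lemma f0_ne : f0 ≠ 0 := fun h => by
  have := congrArg (eval ![(0 : ℂ), 0, 1, 0]) h
  simp [f0] at this

lemma sum_le {N k : ℕ} {e : Fin N → Fin 4 →₀ ℕ} (he : Enum k e) (F : (Fin 4 →₀ ℕ) → ℤ)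
    (h0 : ∀ a, 0 ≤ F a) (hF : ∀ a b c d, Std k (ex a b c d) → F (ex d a c b) = F (ex a b c d)) :
    ∑ j, F (e j) ≤ F (ex 0 0 k 0) +
      3 * ∑ l ∈ range (k + 1), ∑ i ∈ range l, F (ex i (l - i) (k - l) 0) := by
  classical
  let Q := (range (k + 1)).sigma fun l => range l
  have key : ∀ (s : Finset (Fin N)) (g : (Σ _ : ℕ, ℕ) → Fin 4 →₀ ℕ),
      (∀ x ∈ Q, F (g x) = F (ex x.2 (x.1 - x.2) (k - x.1) 0)) → (∀ j ∈ s, ∃ x ∈ Q, e j = g x) →
      ∑ j ∈ s, F (e j) ≤ ∑ l ∈ range (k + 1), ∑ i ∈ range l, F (ex i (l - i) (k - l) 0) := by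
    intro s g h1 h2
    rw [sum_sigma', ← sum_congr rfl h1, ← sum_image (f := F) (he.1.injOn (s := s))]
    refine (sum_le_sum_of_subset_of_nonneg (t := Q.image g) ?_ fun _ _ _ => h0 _).trans
      (sum_image_le_of_nonneg fun _ _ => h0 _)
    intro a ha
    obtain ⟨j, hj, rfl⟩ := mem_image.1 ha
    obtain ⟨x, hx, h⟩ := h2 j hj
    exact mem_image.2 ⟨x, hx, h.symm⟩
  have hs : ∀ j, e j 0 + e j 1 + e j 2 + e j 3 = k ∧ (e j 0 = 0 ∨ e j 1 = 0 ∨ e j 3 = 0) :=
    fun j => std_ex.1 (ex_eta (e j) ▸ (he.2 _).1 ⟨j, rfl⟩)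
  have hQ : ∀ {x}, x ∈ Q ↔ x.1 < k + 1 ∧ x.2 < x.1 := by simp [Q]
  have a1 := key (univ.filter fun j => e j 3 = 0 ∧ 0 < e j 1) _ (fun _ _ => rfl) fun j hj => by
    have := hs j
    simp only [mem_filter, mem_univ, true_and] at hj
    refine ⟨⟨e j 0 + e j 1, e j 0⟩, hQ.2 (by simp only; omega), ?_⟩
    rw [ex_eta (e j)]
    simp only [ex_apply, Matrix.cons_val]
    congr 1 <;> omega
  have a2 := key (univ.filter fun j => e j 0 = 0 ∧ 0 < e j 3)
    (fun x => ex 0 x.2 (k - x.1) (x.1 - x.2))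
    (fun x hx => hF _ _ _ _ (std_ex.2 (by have := hQ.1 hx; omega))) fun j hj => by
    have := hs j
    simp only [mem_filter, mem_univ, true_and] at hj
    refine ⟨⟨e j 1 + e j 3, e j 1⟩, hQ.2 (by simp only; omega), ?_⟩
    rw [ex_eta (e j)]
    simp only [ex_apply, Matrix.cons_val]
    congr 1 <;> omega
  have a3 := key (univ.filter fun j => e j 1 = 0 ∧ 0 < e j 0)
    (fun x => ex (x.1 - x.2) 0 (k - x.1) x.2)
    (fun x hx => (hF _ _ _ _ (std_ex.2 (by have := hQ.1 hx; omega))).trans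
      (hF _ _ _ _ (std_ex.2 (by have := hQ.1 hx; omega)))) fun j hj => by
    have := hs j
    simp only [mem_filter, mem_univ, true_and] at hj
    refine ⟨⟨e j 3 + e j 0, e j 3⟩, hQ.2 (by simp only; omega), ?_⟩
    rw [ex_eta (e j)]
    simp only [ex_apply, Matrix.cons_val]
    congr 1 <;> omega
  have a4 : ∑ j ∈ univ.filter fun j => e j = ex 0 0 k 0, F (e j) ≤ F (ex 0 0 k 0) := by
    rw [← sum_image (f := F) (he.1.injOn (s := _)), ← sum_singleton F (ex 0 0 k 0)]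
    refine sum_le_sum_of_subset_of_nonneg ?_ fun _ _ _ => h0 _
    intro a ha
    obtain ⟨j, hj, rfl⟩ := mem_image.1 ha
    exact mem_singleton.2 (mem_filter.1 hj).2
  rw [sum_filter] at a1 a2 a3 a4
  have a5 := add_le_add (add_le_add (add_le_add a1 a2) a3) a4
  rw [← sum_add_distrib, ← sum_add_distrib, ← sum_add_distrib] at a5
  refine (sum_le_sum fun j _ => ?_).trans (a5.trans (le_of_eq (by ring)))
  have b := hs j
  have c := h0 (e j)
  have d : e j 0 = 0 → e j 1 = 0 → e j 3 = 0 → e j = ex 0 0 k 0 := fun h1 h2 h3 => by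
    rw [ex_eta (e j)]; congr 1; omega
  split_ifs <;> first | linarith | exact absurd (d (by omega) (by omega) (by omega)) ‹_›

end BT1

open BT1 in
theorem t1_of (hH : St_HF) (hS : St_SB) : St_T1 := by
  intro k N e r E hk he hr hne hD
  have hN := hH.card f0 k N _ f0_ne nf2_f0.1 (by omega) ((hS k).2 N e f0 he nf2_f0)
  have hw := hH.asym _ _ hD
  set F : (Fin 4 →₀ ℕ) → ℤ := fun a => (Function.extend e r 0 a : ℕ) with hFd
  have hF : ∀ j, F (e j) = r j := fun j => by simp only [hFd, he.1.extend_apply]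
  have hcyc : ∀ a b c d, Std k (ex a b c d) → ∃ j l, e j = ex a b c d ∧ e l = ex d a c b ∧
      r l = r j := fun a b c d h => by
    obtain ⟨j, hj⟩ := (he.2 _).2 h
    obtain ⟨l, hl⟩ := (he.2 (ex d a c b)).2 (std_ex.2 (by have := std_ex.1 h; omega))
    exact ⟨j, l, hj, hl, hr j l (by rw [hj, hl, ex_cyc])⟩
  have hinv : ∀ a b c d, Std k (ex a b c d) → F (ex d a c b) = F (ex a b c d) :=
    fun a b c d h => by
      obtain ⟨j, l, hj, hl, h⟩ := hcyc a b c d h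
      rw [← hj, ← hl, hF, hF, h]
  have hπ : ∀ j, ∃ l, pos (e l) = σ (pos (e j)) ∧ r l = r j := fun j => by
    obtain ⟨j', l, hj, hl, h⟩ := hcyc _ _ _ _ (ex_eta (e j) ▸ (he.2 _).1 ⟨j, rfl⟩)
    rw [← ex_eta, he.1.eq_iff] at hj
    subst hj
    refine ⟨l, ?_, h⟩
    rw [hl]
    ext <;> simp [pos, σ_apply, ex_apply] <;> ring
  obtain ⟨j1, j2, hne⟩ := hne
  obtain ⟨j0, -, hj0⟩ := exists_max_image univ r ⟨j1, mem_univ _⟩
  have hm : R e r 3 0 (3 * (r j0 : ℤ)) := by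
    have h := R.one (e := e) (r := r) j0
    convert (h.add (h.rot hπ)).add ((h.rot hπ).rot hπ) using 1
    · ext <;> simp [σ_apply] <;> ring
    · ring
  set ρ : ℕ → ℕ → ℤ := fun l i => F (ex i (l - i) (k - l) 0) with hρd
  have h0 : ∀ l i, 0 ≤ ρ l i := fun l i => Nat.cast_nonneg _
  have hρ : ∀ l i : ℕ, i ≤ l → l ≤ k → R e r 1 (i, l) (ρ l i) ∧ ρ l i ≤ r j0 := fun l i h1 h2 => by
    obtain ⟨j, hj⟩ := (he.2 (ex i (l - i) (k - l) 0)).2 (std_ex.2 (by omega))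
    have a : ρ l i = r j := by simp only [hρd, ← hj, hF]
    have b : pos (e j) = ((i : ℤ), (l : ℤ)) := by
      rw [hj]
      ext <;> simp [pos, ex_apply, h1]
    rw [a, ← b]
    exact ⟨R.one j, Nat.cast_le.2 (hj0 j (mem_univ _))⟩
  have hsym : ∀ l ≤ k, ρ l l = ρ l 0 := fun l hl => by
    simp only [hρd, Nat.sub_self, Nat.sub_zero]
    exact (hinv _ _ _ _ (std_ex.2 (by omega))).symm
  have e1 := asym 0 hw (fam1 hπ h0 fun l i h1 h2 => (hρ l i h1 h2).1)
  have e2 := asym 3 hw (fam2 hπ h0 (fun l i h1 h2 => (hρ l i h1 h2).1) (Nat.cast_nonneg _) hm)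
  rw [ident k hsym] at e1
  simp only [sum_add_distrib, shift (hsym k le_rfl), sum_const, card_range, nsmul_eq_mul] at e2
  have s1 := sum_le he F (fun _ => Nat.cast_nonneg _) hinv
  simp only [hF] at s1
  change _ ≤ _ + 3 * ∑ l ∈ range (k + 1), ∑ i ∈ range l, ρ l i at s1
  have s0 : F (ex 0 0 k 0) = ρ 0 0 := by simp [hρd]
  rw [s0] at s1
  have s2 : ∑ j, (r j : ℤ) < N * r j0 := by
    have : ∑ j, (r j : ℤ) < ∑ _j : Fin N, (r j0 : ℤ) := by
      refine sum_lt_sum (fun j _ => Nat.cast_le.2 (hj0 j (mem_univ _))) ?_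
      have a := hj0 j1 (mem_univ _)
      have b := hj0 j2 (mem_univ _)
      by_cases h : r j1 < r j0
      · exact ⟨j1, mem_univ _, Nat.cast_lt.2 h⟩
      · exact ⟨j2, mem_univ _, Nat.cast_lt.2 (by omega)⟩
    simpa using this
  have s3 : ∑ i ∈ range k, ρ k i ≤ k * r j0 := by
    have := sum_le_card_nsmul (range k) (ρ k) (r j0 : ℤ)
      fun i hi => (hρ k i (mem_range.1 hi).le le_rfl).2
    simpa using this
  have s4 := (hρ 0 0 le_rfl (by omega)).2
  have s5 := (hρ k 0 (by omega) le_rfl).2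
  have hN' : (2 * N : ℤ) = 3 * k ^ 2 + 3 * k + 2 := by exact_mod_cast hN
  have hk' : (2 : ℤ) ≤ k := by exact_mod_cast hk
  generalize ∑ i ∈ range k, ρ k i = b at *
  generalize ∑ l ∈ range (k + 1), ∑ i ∈ range l, ρ l i = A at *
  generalize ∑ j, (r j : ℤ) = S at *
  generalize (r j0 : ℤ) = m at *
  generalize (k : ℤ) = K at *
  have hK : 0 < K ^ 2 := by positivity
  rcases s3.eq_or_lt with h | h
  · subst h
    have a := mul_le_mul_of_nonneg_left e2 (Nat.cast_nonneg (α := ℤ) N)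
    have b := mul_lt_mul_of_pos_left s2 hK
    nlinarith
  · have a1 := mul_le_mul_of_nonneg_left e1 hK.le
    have a2 := mul_le_mul_of_nonneg_left e2 (show 0 ≤ 3 * K + 2 by omega)
    have a3 := mul_le_mul_of_nonneg_left s1 hK.le
    have a4 := mul_le_mul_of_nonneg_left s4 hK.le
    have a5 := mul_le_mul_of_nonneg_left s5 hK.le
    have a6 := mul_lt_mul_of_pos_left h (show 0 < 9 * K ^ 2 - 12 * K by nlinarith)
    have a7 : 2 * (N * E) = (3 * K ^ 2 + 3 * K + 2) * E := by rw [← hN']; ring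
    nlinarith

end Pool.Agent.Lib.MP_a25055_ag
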