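import Pool.Agent.Lib.MP_a25055_ag.Glue1

/-! Block T2: the cubic with three `A₂` points is Chow polystable at every level `k ≥ 2`. -/

open MvPolynomial

noncomputable section

namespace Pool.Agent.Lib.MP_a25055_ag

namespace BT2

lemma cyc0 : cyc 0 = 1 := by decide
lemma cyc1 : cyc 1 = 3 := by decide
lemma cyc2 : cyc 2 = 2 := by decide
lemma cyc3 : cyc 3 = 0 := by decide

lemma md_apply (a : Fin 4 →₀ ℕ) (i : Fin 4) : a.mapDomain cyc (cyc i) = a i :=
  Finsupp.mapDomain_apply cyc.injective a i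

lemma std_cyc {k : ℕ} {a : Fin 4 →₀ ℕ} (h : Std k a) : Std k (a.mapDomain cyc) := by
  have h0 := md_apply a 0
  have h1 := md_apply a 1
  have h2 := md_apply a 2
  have h3 := md_apply a 3
  rw [cyc0] at h0
  rw [cyc1] at h1
  rw [cyc2] at h2
  rw [cyc3] at h3
  simp only [Std, Fin.sum_univ_four, h0, h1, h2, h3] at h ⊢
  omega

lemma md3 (a : Fin 4 →₀ ℕ) : ((a.mapDomain cyc).mapDomain cyc).mapDomain cyc = a := by
  rw [← Finsupp.mapDomain_comp, ← Finsupp.mapDomain_comp]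
  have : (cyc ∘ cyc) ∘ cyc = id := by funext i; fin_cases i <;> decide
  rw [this, Finsupp.mapDomain_id]

lemma exists_perm {k N : ℕ} {e : Fin N → Fin 4 →₀ ℕ} (he : Enum k e) :
    ∃ π : Equiv.Perm (Fin N), ∀ j, e (π j) = (e j).mapDomain cyc := by
  have h : ∀ j, ∃ l, e l = (e j).mapDomain cyc := fun j =>
    (he.2 _).2 (std_cyc ((he.2 _).1 ⟨j, rfl⟩))
  choose p hp using h
  have hi : Function.Injective p := fun j l hjl =>
    he.1 (Finsupp.mapDomain_injective cyc.injective (by rw [← hp, ← hp, hjl]))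
  exact ⟨Equiv.ofBijective p (Finite.injective_iff_bijective.mp hi), hp⟩

lemma eval_f0 (x : Fin 4 → ℂ) : eval x f0 = x 0 * x 1 * x 3 + x 2 ^ 3 := by simp [f0]

lemma chow_perm {N : ℕ} {e : Fin N → Fin 4 →₀ ℕ} {π : Equiv.Perm (Fin N)}
    (hπ : ∀ j, e (π j) = (e j).mapDomain cyc) {R : PP 3 N}
    (hR : IsChowIrr f0 (fun j => monomial (e j) 1) R) :
    IsChowIrr f0 (fun j => monomial (e j) 1) (rename (Prod.map id π) R) := by
  refine ⟨(MulEquiv.irreducible_iff
    (renameEquiv ℂ ((Equiv.refl (Fin 3)).prodCongr π))).mpr hR.1, fun H => ?_⟩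
  have key : ∀ (x : Fin 4 → ℂ) i, ∑ j, H (i, j) * eval x (monomial (e j) 1) =
      ∑ j, H (i, π j) * eval (x ∘ cyc) (monomial (e j) 1) := fun x i => by
    rw [← Equiv.sum_comp π]
    refine Finset.sum_congr rfl fun j _ => ?_
    rw [hπ, ← rename_monomial, eval_rename]
  have hf : ∀ x : Fin 4 → ℂ, eval (x ∘ cyc) f0 = eval x f0 := fun x => by
    simp only [eval_f0, Function.comp, cyc0, cyc1, cyc2, cyc3]; ring
  rw [eval_rename, hR.2]
  constructor
  · rintro ⟨x, h0, h1, h2⟩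
    have e1 : (x ∘ cyc.symm) ∘ cyc = x := by funext i; simp
    refine ⟨x ∘ cyc.symm, fun h => h0 ?_, by rw [← hf, e1, h1], fun i => ?_⟩
    · rw [← e1, h]; rfl
    · rw [key, e1]; exact h2 i
  · rintro ⟨x, h0, h1, h2⟩
    refine ⟨x ∘ cyc, fun h => h0 ?_, by rw [hf, h1], fun i => ?_⟩
    · funext i; simpa using congrFun h (cyc.symm i)
    · have := h2 i
      rwa [key] at this

lemma wt_md {N : ℕ} (π : Equiv.Perm (Fin N)) (r : Fin N → ℝ) (a : Fin 3 × Fin N →₀ ℕ) :
    wt r (a.mapDomain (Prod.map id π)) = wt (fun j => r (π j)) a := by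
  unfold wt
  rw [← ((Equiv.refl (Fin 3)).prodCongr π).sum_comp]
  refine Finset.sum_congr rfl fun c _ => ?_
  have := Finsupp.mapDomain_apply ((Equiv.refl (Fin 3)).prodCongr π).injective a c
  exact congrArg (fun n : ℕ => (n : ℝ) * r (π c.2)) this

lemma chow_torus (hB : St_BC) {k N : ℕ} {e : Fin N → Fin 4 →₀ ℕ}
    (hb : IsBasisMod f0 k fun j => monomial (e j) 1) {R : PP 3 N}
    (hR : IsChowIrr f0 (fun j => monomial (e j) 1) R) (w : Fin 4 → ℝ) (h2 : w 2 = 0)
    (hw : w 0 + w 1 + w 3 = 0) :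
    IsChowIrr f0 (fun j => monomial (e j) 1) (act (dg fun j => ∑ i, e j i * w i) R) := by
  have hdet : (dg fun j => ∑ i, e j i * w i).det ≠ 0 := by
    rw [dg, Matrix.det_diagonal]
    exact Finset.prod_ne_zero_iff.mpr fun j _ => Complex.ofReal_ne_zero.mpr (Real.exp_ne_zero _)
  obtain ⟨h1, h3⟩ := (hB.glN f0 k N _ R _ hdet hb hR).2
  refine ⟨h1, fun H => ?_⟩
  let t : Fin 4 → ℂ := fun i => Real.exp (w i)
  have ht : ∀ i, t i ≠ 0 := fun i => Complex.ofReal_ne_zero.mpr (Real.exp_ne_zero _)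
  have key : ∀ (x : Fin 4 → ℂ) l,
      eval x (∑ j, (dg fun j => ∑ i, e j i * w i) l j • (monomial (e j) 1 : P4)) =
        eval (t * x) (monomial (e l) 1) := fun x l => by
    rw [Finset.sum_eq_single l]
    · simp only [dg, Matrix.diagonal_apply_eq, smul_eval, eval_monomial, one_mul, Real.exp_sum,
        Real.exp_nat_mul, Complex.ofReal_prod, Complex.ofReal_pow]
      rw [Finsupp.prod_fintype _ _ (by simp), Finsupp.prod_fintype _ _ (by simp),
        ← Finset.prod_mul_distrib]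
      exact Finset.prod_congr rfl fun i _ => by rw [Pi.mul_apply, mul_pow]
    · intro j _ hj
      simp [dg, Matrix.diagonal_apply_ne _ hj.symm]
    · simp
  have hf : ∀ x : Fin 4 → ℂ, eval (t * x) f0 = eval x f0 := fun x => by
    have e1 : t 0 * t 1 * t 3 = 1 := by
      simp only [t, ← Complex.ofReal_mul, ← Real.exp_add, hw, Real.exp_zero, Complex.ofReal_one]
    have e2 : t 2 = 1 := by simp only [t, h2, Real.exp_zero, Complex.ofReal_one]
    simp only [eval_f0, Pi.mul_apply, e2]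
    linear_combination x 0 * x 1 * x 3 * e1
  rw [h3]
  simp only [key]
  constructor
  · rintro ⟨x, h0, h1, h2⟩
    refine ⟨t * x, fun h => h0 ?_, by rw [hf, h1], h2⟩
    funext i
    exact (mul_eq_zero.mp (congrFun h i)).resolve_left (ht i)
  · rintro ⟨x, h0, h1, h2⟩
    have e1 : t * (t⁻¹ * x) = x := by
      funext i; simp [ht i]
    refine ⟨t⁻¹ * x, fun h => h0 ?_, by rw [← hf, e1, h1], by rw [e1]; exact h2⟩
    rw [← e1, h, mul_zero]

/-- A generic one-parameter subgroup of the torus. -/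
def wv (k : ℕ) : Fin 4 → ℝ := ![1, 2 * k + 1, 0, -(2 * k + 2)]

lemma chi_inj {k : ℕ} {a b : Fin 4 →₀ ℕ} (ha : Std k a) (hb : Std k b)
    (h : ∑ i, (a i : ℝ) * wv k i =
      ∑ i, (b i : ℝ) * wv k i) : a = b := by
  simp only [Std, Fin.sum_univ_four, wv] at ha hb h
  simp only [Matrix.cons_val_zero, Matrix.cons_val_one, Matrix.cons_val] at h
  have h1 : ((a 0 : ℤ) - a 3 - b 0 + b 3) + (2 * k + 1) * ((a 1 : ℤ) - a 3 - b 1 + b 3) = 0 := by
    have : ((a 0 : ℝ) - a 3 - b 0 + b 3) + (2 * k + 1) * ((a 1 : ℝ) - a 3 - b 1 + b 3) = 0 := by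
      linear_combination h
    exact_mod_cast this
  have h2 : -(2 * k : ℤ) ≤ (a 0 : ℤ) - a 3 - b 0 + b 3 ∧ (a 0 : ℤ) - a 3 - b 0 + b 3 ≤ 2 * k := by
    omega
  have h3 : (a 1 : ℤ) - a 3 - b 1 + b 3 = 0 := by
    have hk : (0 : ℤ) ≤ k := Int.natCast_nonneg k
    rcases lt_trichotomy ((a 1 : ℤ) - a 3 - b 1 + b 3) 0 with h | h | h
    · nlinarith [h2.1, h2.2]
    · exact h
    · nlinarith [h2.1, h2.2]
  rw [h3] at h1
  ext i
  fin_cases i <;> simp only [Fin.zero_eta, Fin.mk_one, Fin.reduceFinMk, Fin.isValue] <;> omega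

end BT2

open BT2 in
theorem t2_of (hP : St_POLY) (hD : St_DEG) (hW : St_CW) (hB : St_BC) (hG : St_G2) (hS : St_SB)
    (hT : St_T1) : St_T2 := by
  classical
  intro k hk
  obtain ⟨⟨N, e, he⟩, hbas⟩ := hS k
  have hirr := hG.irr f0 nf2_f0
  have b0 := hbas N e f0 he nf2_f0
  obtain ⟨R, hR'⟩ := hB.ex f0 k N _ hirr.ne_zero nf2_f0.1 (by omega) b0
  have hR := (hB.irr f0 N _ R hirr).1 hR'
  refine ⟨N, _, R, b0, hR', ?_⟩
  change Poly R
  have hCW := fun r => hW f0 3 k N _ R r hirr nf2_f0.1 (by omega) ⟨b0.1, b0.2.2⟩ hR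
  have hom := (hCW 0).1
  obtain ⟨a0, ha0⟩ := support_nonempty.2 hR.1.ne_zero
  obtain ⟨π, hπ⟩ := exists_perm he
  obtain ⟨c, -, hc⟩ := hD.uniq f0 N _ R _ hR (chow_torus hB b0 hR
    (wv k) (by simp [wv]) (by simp [wv]; ring))
  obtain ⟨c', -, hc'⟩ := hD.uniq f0 N _ R _ hR (chow_perm hπ hR)
  have hsup : ∀ a ∈ R.support, a.mapDomain (Prod.map id π) ∈ R.support := fun a ha => by
    have := coeff_rename_mapDomain (Prod.map id π)
      ((Equiv.refl (Fin 3)).prodCongr π).injective R a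
    rw [hc', coeff_C_mul] at this
    rw [mem_support_iff] at ha ⊢
    intro h
    rw [h, mul_zero] at this
    exact ha this.symm
  have hexp : ∀ a ∈ R.support, (Real.exp (wt (fun j => ∑ i, (e j i : ℝ) *
      wv k i) a) : ℂ) = c := fun a ha => by
    have := congrArg (coeff a) hc
    rw [coeff_act_dg, coeff_C_mul] at this
    exact mul_right_cancel₀ (mem_support_iff.1 ha) this
  refine hP R _ _ hR.1.ne_zero
    (fun j l h => he.1 (chi_inj ((he.2 _).1 ⟨j, rfl⟩) ((he.2 _).1 ⟨l, rfl⟩) h))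
    (fun a ha => Real.exp_injective (Complex.ofReal_injective
      ((hexp a ha).trans (hexp a0 ha0).symm))) fun r hr0 hr => ?_
  have h1 : ∀ a ∈ R.support, wt (fun j => (r (π j) : ℝ)) a ≤ 0 := fun a ha => by
    rw [← wt_md π fun j => (r j : ℝ)]; exact hr _ (hsup a ha)
  have h2 : ∀ a ∈ R.support, wt (fun j => (r (π (π j)) : ℝ)) a ≤ 0 := fun a ha => by
    rw [← wt_md π fun j => (r (π j) : ℝ)]; exact h1 _ (hsup a ha)
  have h3 : ∀ j, π (π (π j)) = j := fun j => he.1 (by rw [hπ, hπ, hπ, md3])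
  let s : Fin N → ℤ := fun j => r j + r (π j) + r (π (π j))
  have hs0 : ∑ j, s j = 0 := by
    simp only [s, Finset.sum_add_distrib]
    rw [Equiv.sum_comp π fun j => r (π j), Equiv.sum_comp π r, hr0]; rfl
  have hsw : ∀ a : Fin 3 × Fin N →₀ ℕ, wt (fun j => (s j : ℝ)) a = wt (fun j => (r j : ℝ)) a +
      wt (fun j => (r (π j) : ℝ)) a + wt (fun j => (r (π (π j)) : ℝ)) a := fun a => by
    simp only [wt, s, ← Finset.sum_add_distrib]
    exact Finset.sum_congr rfl fun c _ => by push_cast; ring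
  obtain ⟨m, hm⟩ := Finite.exists_ge s
  have hz : ∀ j, (((s j - m).toNat : ℕ) : ℤ) = s j - m := fun j =>
    Int.toNat_of_nonneg (sub_nonneg.2 (hm j))
  have hconst : ∀ j l, s j = s l := by
    by_contra hne
    push Not at hne
    obtain ⟨j, l, hjl⟩ := hne
    have := hT k N e (fun j => (s j - m).toNat) _ hk he (fun j l h => by
      have : l = π j := he.1 (by rw [h, hπ])
      have e1 : s l = s j := by simp only [s, this, h3]; ring
      simp only [e1]) ⟨j, l, fun h => hjl (by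
        have := congrArg (Nat.cast : ℕ → ℤ) h
        rw [hz, hz] at this
        linarith)⟩ (hCW _).2
    obtain ⟨a, ha, hE⟩ := R.support.exists_mem_eq_sup ⟨a0, ha0⟩
      (Finsupp.weight fun c : Fin 3 × Fin N => (s c.2 - m).toNat)
    simp only [hz, Finset.sum_sub_distrib, hs0, Finset.sum_const, Finset.card_univ,
      Fintype.card_fin, nsmul_eq_mul, weightedTotalDegree] at this
    rw [hE, Finsupp.weight_eq_sum] at this
    have hd := hom (mem_support_iff.1 ha)
    rw [Finsupp.weight_eq_sum] at hd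
    simp only [Pi.one_apply, smul_eq_mul, mul_one] at hd
    have hd' : ∑ c, (a c : ℤ) = 9 * (k : ℤ) ^ 2 := by exact_mod_cast hd
    have hw : ∑ c, (a c : ℤ) * s c.2 ≤ 0 := by
      have : wt (fun j => (s j : ℝ)) a ≤ 0 := by
        rw [hsw]; linarith [hr a ha, h1 a ha, h2 a ha]
      simp only [wt] at this
      exact_mod_cast this
    simp only [smul_eq_mul, Nat.cast_sum, Nat.cast_mul, hz, mul_sub, Finset.sum_sub_distrib,
      ← Finset.sum_mul, hd'] at this
    nlinarith [mul_nonneg (Int.natCast_nonneg N) (neg_nonneg.2 hw)]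
  have hs : ∀ j, s j = 0 := fun j => by
    rw [Finset.sum_congr rfl fun l _ => hconst l j] at hs0
    have := j.pos
    simp only [Finset.sum_const, Finset.card_univ, Fintype.card_fin, nsmul_eq_mul] at hs0
    exact (mul_eq_zero.1 hs0).resolve_left (by positivity)
  intro a ha
  have h4 := hsw a
  have h5 : wt (fun j => (s j : ℝ)) a = 0 := by simp [wt, hs]
  linarith [hr a ha, h1 a ha, h2 a ha]

end Pool.Agent.Lib.MP_a25055_ag
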