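import Pool.Agent.Lib.MP_a25055_ag.Inv

/-! Unstable cubic forms are Chow unstable at every level. -/

open MvPolynomial Filter Topology

noncomputable section

namespace Pool.Agent.Lib.MP_a25055_ag

namespace BUN

abbrev Ex : Type := Fin 4 →₀ ℕ

variable {w : Fin 4 → ℕ} {p q g : P4} {a b : Ex} {d m : ℕ}

/-- A total order on exponents refining the weight. -/
def key (w : Fin 4 → ℕ) (a : Ex) : ℕ ×ₗ Lex Ex := toLex (Finsupp.weight w a, toLex a)

lemma key_add (w : Fin 4 → ℕ) (a b : Ex) : key w (a + b) = key w a + key w b := by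
  simp only [key, map_add]; rfl

lemma key_inj (h : key w a = key w b) : a = b :=
  toLex.injective (congrArg (fun x => (ofLex x).2) h)

lemma wt_le (h : key w a ≤ key w b) : Finsupp.weight w a ≤ Finsupp.weight w b :=
  Prod.Lex.monotone_fst _ _ h

/-- The least exponent. -/
def Lead (w : Fin 4 → ℕ) (p : P4) (a : Ex) : Prop :=
  a ∈ p.support ∧ ∀ b ∈ p.support, key w a ≤ key w b

lemma exists_lead (w : Fin 4 → ℕ) (hp : p ≠ 0) : ∃ a, Lead w p a :=
  Finset.exists_min_image _ _ (support_nonempty.mpr hp)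

lemma Lead.mul (hp : Lead w p a) (hq : Lead w q b) : Lead w (p * q) (a + b) := by
  classical
  constructor
  · rw [mem_support_iff, coeff_mul, Finset.sum_eq_single (a, b)]
    · exact mul_ne_zero (mem_support_iff.mp hp.1) (mem_support_iff.mp hq.1)
    · rintro ⟨x, y⟩ hxy hne
      by_contra h
      have h1 := hp.2 x (mem_support_iff.mpr (left_ne_zero_of_mul h))
      have h2 := hq.2 y (mem_support_iff.mpr (right_ne_zero_of_mul h))
      have h3 : x + y = a + b := by simpa using hxy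
      have h4 := congrArg (key w) h3
      rw [key_add, key_add] at h4
      have h5 : x = a := by
        by_contra h5
        exact (add_lt_add_of_lt_of_le (lt_of_le_of_ne h1 fun e => h5 (key_inj e).symm) h2).ne' h4
      subst h5
      exact hne (by rw [add_left_cancel h3])
    · simp
  · intro c hc
    obtain ⟨x, hx, y, hy, rfl⟩ := Finset.mem_add.mp (support_mul p q hc)
    rw [key_add, key_add]
    exact add_le_add (hp.2 x hx) (hq.2 y hy)

lemma lead_prod {ι : Type} (s : Finset ι) (g : ι → P4) (a : ι → Ex) (h : ∀ i, Lead w (g i) (a i)) :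
    Lead w (∏ i ∈ s, g i) (∑ i ∈ s, a i) := by
  classical
  induction s using Finset.induction_on with
  | empty => simp [Lead]
  | insert i s hi ih => rw [Finset.prod_insert hi, Finset.sum_insert hi]; exact (h i).mul ih

lemma deg_eq (hp : p.IsHomogeneous d) (ha : a ∈ p.support) : ∑ i, a i = d := by
  simpa [Finsupp.weight_eq_sum] using hp (mem_support_iff.mp ha)

/-- Exponents of degree `m`. -/
def Mon (m : ℕ) : Finset Ex := Finset.finsuppAntidiag Finset.univ m

lemma mem_Mon : a ∈ Mon m ↔ ∑ i, a i = m := by simp [Mon]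

/-- Standard exponents. -/
def Sd (a : Ex) (m : ℕ) : Finset Ex := (Mon m).filter fun e => ¬ a ≤ e

/-- Division by the least monomial. -/
lemma mem_of_std (hg : g.IsHomogeneous d) (ha : Lead w g a) (s : ℕ) (U : Submodule ℂ (Q4 g))
    (hU : ∀ e ∈ Sd a m, s ≤ Finsupp.weight w e → mk4 g (monomial e 1) ∈ U) :
    ∀ e ∈ Mon m, s ≤ Finsupp.weight w e → mk4 g (monomial e 1) ∈ U := by
  classical
  by_contra! hne
  obtain ⟨e, he, hmax⟩ := Finset.exists_max_image ((Mon m).filter fun e =>
    s ≤ Finsupp.weight w e ∧ mk4 g (monomial e 1) ∉ U) (key w)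
    (by obtain ⟨e, h1, h2⟩ := hne; exact ⟨e, Finset.mem_filter.mpr ⟨h1, h2⟩⟩)
  obtain ⟨he, hs, heU⟩ := Finset.mem_filter.mp he
  have h1 : a ≤ e := by
    by_contra h1
    exact heU (hU e (Finset.mem_filter.mpr ⟨he, h1⟩) hs)
  obtain ⟨c, rfl⟩ := exists_add_of_le h1
  have h2 : ∑ b ∈ g.support, coeff b g • mk4 g (monomial (b + c) 1) = 0 := by
    have h3 : mk4 g (g * monomial c 1) = 0 :=
      Ideal.Quotient.eq_zero_iff_mem.mpr (Ideal.mem_span_singleton.mpr (dvd_mul_right _ _))
    rw [← h3, congrArg (· * monomial c 1) g.as_sum, Finset.sum_mul, map_sum]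
    refine Finset.sum_congr rfl fun b _ => ?_
    rw [← map_smul, smul_monomial, monomial_mul, smul_eq_mul]
  rw [← Finset.add_sum_erase _ _ ha.1, add_eq_zero_iff_eq_neg] at h2
  refine heU ((U.smul_mem_iff (mem_support_iff.mp ha.1)).mp (h2 ▸ U.neg_mem
    (U.sum_mem fun b hb => U.smul_mem _ ?_)))
  obtain ⟨hb, hb'⟩ := Finset.mem_erase.mp hb
  have h3 : key w (a + c) < key w (b + c) := by
    rw [key_add, key_add]
    exact add_lt_add_left (lt_of_le_of_ne (ha.2 b hb') fun e => hb (key_inj e).symm) _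
  by_contra h4
  refine (hmax _ (Finset.mem_filter.mpr ⟨?_, hs.trans (wt_le h3.le), h4⟩)).not_gt h3
  rw [mem_Mon] at he ⊢
  simp only [Finsupp.add_apply, Finset.sum_add_distrib] at he ⊢
  rw [deg_eq hg hb', ← he, deg_eq hg ha.1]

lemma card_Mon (m : ℕ) : 6 * ((Mon m).card : ℤ) = (m + 1) * (m + 2) * (m + 3) := by
  have h : (Mon m).card = (m + 3).choose 3 := by
    rw [Mon, Finset.card_finsuppAntidiag_nat_eq_choose, Finset.card_univ, Fintype.card_fin,
      show 4 + m - 1 = m + 3 by omega, Nat.choose_symm_add]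
  have h2 := Nat.descFactorial_eq_factorial_mul_choose (m + 3) 3
  rw [← h] at h2
  simp only [Nat.descFactorial_succ, Nat.descFactorial_zero, Nat.factorial] at h2
  rw [show m + 3 - 2 = m + 1 by omega, show m + 3 - 1 = m + 2 by omega] at h2
  zify at h2
  push_cast at h2
  linarith

lemma sum_coord (m : ℕ) (i j : Fin 4) : ∑ e ∈ Mon m, e i = ∑ e ∈ Mon m, e j := by
  refine Finset.sum_equiv (Finsupp.equivCongrLeft (Equiv.swap i j)) (fun e => ?_) fun e _ => by simp
  simp only [mem_Mon, Finsupp.equivCongrLeft_apply, Finsupp.equivMapDomain_apply]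
  rw [Equiv.sum_comp (Equiv.swap i j).symm fun k => e k]

lemma sum_wt (w : Fin 4 → ℕ) (m : ℕ) : 24 * ((∑ e ∈ Mon m, Finsupp.weight w e : ℕ) : ℤ) =
    (∑ i, w i : ℕ) * (m * ((m + 1) * (m + 2) * (m + 3))) := by
  have h1 : ∀ i, 4 * ∑ e ∈ Mon m, e i = (Mon m).card * m := fun i => by
    rw [← smul_eq_mul (Mon m).card, ← Finset.sum_const,
      Finset.sum_congr rfl fun e he => (mem_Mon.mp he).symm, Finset.sum_comm,
      Finset.sum_congr rfl fun j _ => sum_coord m j i]
    simp
  have h2 : 4 * ∑ e ∈ Mon m, Finsupp.weight w e = (∑ i, w i) * ((Mon m).card * m) := by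
    simp only [Finsupp.weight_eq_sum, smul_eq_mul]
    rw [Finset.sum_comm, Finset.mul_sum, Finset.sum_mul]
    refine Finset.sum_congr rfl fun i _ => ?_
    rw [← Finset.sum_mul, ← h1 i]
    ring
  rw [← card_Mon]
  zify at h2 ⊢
  linear_combination 6 * h2

/-- The total weight of the standard exponents. -/
def tot (w : Fin 4 → ℕ) (a : Ex) (m : ℕ) : ℕ := ∑ e ∈ Sd a m, Finsupp.weight w e

lemma tot_eq (w : Fin 4 → ℕ) (ha : ∑ i, a i = d) (h : d ≤ m + 3) : 24 * (tot w a m : ℤ) =
    (∑ i, w i : ℕ) * (m * ((m + 1) * (m + 2) * (m + 3)) -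
      (m - d) * ((m - d + 1) * (m - d + 2) * (m - d + 3))) -
      4 * Finsupp.weight w a * ((m - d + 1) * (m - d + 2) * (m - d + 3)) := by
  classical
  have h0 := Finset.sum_filter_add_sum_filter_not (Mon m) (fun e => a ≤ e) (Finsupp.weight w)
  have h1 := sum_wt w m
  rw [← h0] at h1
  rcases le_or_gt d m with hd | hd
  · obtain ⟨c, rfl⟩ := exists_add_of_le hd
    have h2 : ∑ e ∈ (Mon (d + c)).filter (fun e => a ≤ e), Finsupp.weight w e =
        ∑ e ∈ Mon c, (Finsupp.weight w a + Finsupp.weight w e) := by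
      refine (Finset.sum_nbij (fun e => a + e) (fun e he => ?_) (fun x _ y _ => add_left_cancel)
        (fun e he => ?_) fun e _ => (map_add _ _ _).symm).symm
      · refine Finset.mem_filter.mpr ⟨mem_Mon.mpr ?_, le_self_add⟩
        simp only [Finsupp.add_apply, Finset.sum_add_distrib, ha, mem_Mon.mp he]
      · obtain ⟨h2, h3⟩ := Finset.mem_filter.mp he
        obtain ⟨x, rfl⟩ := exists_add_of_le h3
        refine ⟨x, mem_Mon.mpr ?_, rfl⟩
        simpa only [mem_Mon, Finsupp.add_apply, Finset.sum_add_distrib, ha, add_right_inj] using h2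
    have h3 := sum_wt w c
    have h4 := card_Mon c
    rw [h2, Finset.sum_add_distrib, Finset.sum_const, smul_eq_mul] at h1
    unfold tot Sd
    push_cast at h1 h3 ⊢
    simp only [add_sub_cancel_left]
    linear_combination h1 - h3 - 4 * (Finsupp.weight w a : ℤ) * h4
  · rw [Finset.filter_eq_empty_iff.mpr, Finset.sum_empty, zero_add] at h1
    · have h2 : ((m : ℤ) - d + 1) * (m - d + 2) * (m - d + 3) = 0 := by
        simp only [mul_eq_zero]
        omega
      rw [h2]
      unfold tot Sd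
      linear_combination h1
    · intro e he hle
      have := Finset.sum_le_sum fun i (_ : i ∈ Finset.univ) => hle i
      rw [ha, mem_Mon.mp he] at this
      omega

lemma finrank_le {V ι : Type} [AddCommGroup V] [Module ℂ V] {U : Submodule ℂ V} (s : Finset ι)
    (v : ι → V) (h : U ≤ Submodule.span ℂ (v '' s)) : Module.finrank ℂ U ≤ s.card := by
  classical
  rw [← Finset.coe_image] at h
  exact (Submodule.finrank_mono h).trans
    ((finrank_span_finset_le_card _).trans Finset.card_image_le)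

lemma wsum_le (hg : g.IsHomogeneous d) (ha : Lead w g a) {k N : ℕ} (e : Fin N → Ex)
    (he : ∀ j, e j ∈ Mon k) (n : ℕ) :
    wsum (fun j => mk4 g (monomial (e j) 1)) (fun j => Finsupp.weight w (e j)) n ≤
      tot w a (n * k) := by
  classical
  have h1 : ∀ s, Module.finrank ℂ (Fil (fun j => mk4 g (monomial (e j) 1))
      (fun j => Finsupp.weight w (e j)) n s) ≤
        ((Sd a (n * k)).filter fun x => s ≤ Finsupp.weight w x).card := fun s => by
    refine finrank_le _ (fun x => mk4 g (monomial x 1)) (Submodule.span_le.mpr ?_)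
    rintro _ ⟨j, hj, rfl⟩
    rw [← map_prod, ← monomial_sum_one]
    refine mem_of_std (m := n * k) hg ha s _ (fun x hx hs => ?_) _ (mem_Mon.mpr ?_)
      (by rwa [map_sum])
    · exact Submodule.subset_span ⟨x, Finset.mem_filter.mpr ⟨hx, hs⟩, rfl⟩
    simp only [Finsupp.finsetSum_apply]
    rw [Finset.sum_comm, Finset.sum_congr rfl fun l _ => mem_Mon.mp (he (j l))]
    simp
  refine (Finset.sum_le_sum fun s _ => h1 s).trans ?_
  simp only [Finset.card_filter]
  rw [Finset.sum_comm]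
  refine Finset.sum_le_sum fun x _ => ?_
  rw [← Finset.card_filter]
  refine (Finset.card_le_card (t := Finset.Icc 1 (Finsupp.weight w x)) fun s hs => ?_).trans
    (by simp)
  simp only [Finset.mem_filter, Finset.mem_Icc] at hs ⊢
  exact ⟨hs.1.1, hs.2⟩

lemma dif3_tot (w : Fin 4 → ℕ) (ha : ∑ i, a i = d) {k : ℕ} (hk : 1 ≤ k) :
    Dif3 (fun n => tot w a (n * k)) (k ^ 3 * (d * (∑ i, w i : ℕ) - Finsupp.weight w a)) := by
  refine ⟨d, fun n hn => ?_⟩
  have h : ∀ j, d ≤ (n + j) * k + 3 := fun j => by nlinarith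
  have h0 := tot_eq w ha (h 0)
  have h1 := tot_eq w ha (h 1)
  have h2 := tot_eq w ha (h 2)
  have h3 := tot_eq w ha (h 3)
  rw [add_zero] at h0
  apply mul_left_cancel₀ (show (24 : ℤ) ≠ 0 by norm_num)
  simp only [Nat.cast_mul, Nat.cast_add, Nat.cast_ofNat, Nat.cast_one] at h0 h1 h2 h3
  linear_combination h3 - 3 * h2 + 3 * h1 - h0

lemma basis {f : P4} (hf : f.IsHomogeneous d) (ha : Lead w f a) {k N : ℕ} (e : Fin N → Ex)
    (hi : Function.Injective e) (he : ∀ x, x ∈ Sd a k ↔ ∃ j, e j = x) :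
    IsBasisMod f k fun j => monomial (e j) 1 := by
  classical
  have h0 := fun j => Finset.mem_filter.mp ((he _).mpr ⟨j, rfl⟩)
  refine ⟨fun j => isHomogeneous_monomial _ ?_, fun c ⟨h, hc⟩ => ?_, fun p hp => ?_⟩
  · rw [Finsupp.degree_eq_sum, mem_Mon.mp (h0 j).1]
  · rcases eq_or_ne h 0 with rfl | hh
    · funext j
      have h1 := congrArg (coeff (e j)) hc
      simpa [coeff_sum, coeff_monomial, hi.eq_iff] using h1
    · obtain ⟨b, hb⟩ := exists_lead w hh
      have h1 := mem_support_iff.mp (ha.mul hb).1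
      rw [← hc, coeff_sum] at h1
      obtain ⟨j, -, hj⟩ := Finset.exists_ne_zero_of_sum_ne_zero h1
      rw [coeff_smul, coeff_monomial] at hj
      refine absurd ?_ (h0 j).2
      rw [show e j = a + b by by_contra h2; simp [h2] at hj]
      exact le_self_add
  · have h1 : mk4 f p ∈ Submodule.span ℂ (Set.range fun j => mk4 f (monomial (e j) 1)) := by
      rw [p.as_sum, map_sum]
      refine Submodule.sum_mem _ fun x hx => ?_
      rw [← mul_one (coeff x p), ← smul_eq_mul, ← smul_monomial, map_smul]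
      refine Submodule.smul_mem _ _ (mem_of_std (m := k) hf ha 0 _ (fun y hy _ => ?_) x
        (mem_Mon.mpr (deg_eq hp hx)) (Nat.zero_le _))
      obtain ⟨j, rfl⟩ := (he y).mp hy
      exact Submodule.subset_span ⟨j, rfl⟩
    obtain ⟨c, hc⟩ := (Submodule.mem_span_range_iff_exists_fun ℂ).mp h1
    refine ⟨c, Ideal.mem_span_singleton.mp (Ideal.Quotient.eq.mp ?_)⟩
    change mk4 f p = mk4 f _
    rw [← hc, map_sum]
    simp only [map_smul]

lemma wt_prod_le {σ ι : Type} (r : σ → ℕ) (s : Finset ι) (Q : ι → MvPolynomial σ ℂ) :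
    ∀ x ∈ (∏ i ∈ s, Q i).support, Finsupp.weight r x ≤ ∑ i ∈ s, weightedTotalDegree r (Q i) := by
  classical
  induction s using Finset.induction_on with
  | empty => simp
  | insert i s hi ih =>
    intro x hx
    rw [Finset.prod_insert hi] at hx
    obtain ⟨y, hy, z, hz, rfl⟩ := Finset.mem_add.mp (support_mul _ _ hx)
    rw [Finset.sum_insert hi, map_add]
    exact add_le_add (le_weightedTotalDegree r hy) (ih z hz)

end BUN

open BUN in
theorem un_of (hF : St_HF) (hW : St_CW) (hB : St_BC) (hN : St_NULL) : St_UN := by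
  classical
  rintro f k hf0 hf ⟨w, hw⟩ hk hc
  obtain ⟨a, ha⟩ := exists_lead w hf0
  set N := (Sd a k).card
  let e : Fin N → Ex := fun j => (Sd a k).equivFin.symm j
  have hi : Function.Injective e := Subtype.val_injective.comp (Equiv.injective _)
  have he : ∀ x, x ∈ Sd a k ↔ ∃ j, e j = x := fun x =>
    ⟨fun hx => ⟨(Sd a k).equivFin ⟨x, hx⟩, by simp [e]⟩, by rintro ⟨j, rfl⟩; exact Subtype.prop _⟩
  have hb := basis hf ha e hi he
  obtain ⟨R, hR⟩ := hB.ex f k N _ hf0 hf hk hb
  have hS : Semi R := (hB.all 2 f k hf0 hf hk).1 hc N _ R hb hR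
  obtain ⟨n, g, Q, hfg, rfl, hQ⟩ := hR
  have hdv : ∀ i, g i ∣ f := fun i => hfg ▸ Finset.dvd_prod_of_mem g (Finset.mem_univ i)
  choose d hd using fun i => hF.fac f (g i) 3 hf0 hf (hdv i)
  choose l hl using fun i => exists_lead w (hQ i).1.ne_zero
  set r : Fin N → ℕ := fun j => Finsupp.weight w (e j) with hr
  have hC := fun i => hW (g i) (d i) k N _ (Q i) r (hQ i).1 (hd i) hk
    ⟨hb.1, fun p hp => (hb.2.2 p hp).imp fun c hc => (hdv i).trans hc⟩ (hQ i).2
  have h1 : ∀ i, ((weightedTotalDegree (fun c : Fin 3 × Fin N => r c.2) (Q i) : ℕ) : ℤ) ≤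
      k ^ 3 * (d i * (∑ i, w i : ℕ) - Finsupp.weight w (l i)) := fun i => by
    have h2 := le_of_tendsto_of_tendsto' (hF.asym _ _ (hC i).2)
      (hF.asym _ _ (dif3_tot w (deg_eq (hd i) (hl i).1) hk)) fun n => div_le_div_of_nonneg_right
        (Nat.cast_le.mpr (wsum_le (hd i) (hl i) e
          (fun j => (Finset.mem_filter.mp ((he _).mpr ⟨j, rfl⟩)).1) n)) (by positivity)
    exact_mod_cast (div_le_div_iff_of_pos_right (by norm_num : (0 : ℝ) < 6)).mp h2
  have h2 := hfg ▸ lead_prod Finset.univ g l hl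
  have h3 : ∑ i, d i = 3 := by
    rw [← deg_eq hf h2.1]
    simp only [Finsupp.finsetSum_apply]
    rw [Finset.sum_comm]
    exact Finset.sum_congr rfl fun i _ => (deg_eq (hd i) (hl i).1).symm
  have h4 := wt_le (ha.2 _ h2.1)
  rw [map_sum] at h4
  have h5 : 3 * ∑ i, w i < 4 * Finsupp.weight w a := by
    simpa [Finsupp.weight_eq_sum] using hw a ha.1
  have h6 := tot_eq w (deg_eq hf ha.1) (m := k) (by omega)
  have h7 : tot w a k = ∑ j, r j := by
    rw [tot, ← Finset.sum_coe_sort, ← Equiv.sum_comp (Sd a k).equivFin.symm]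
  have h8 := hF.card f k N _ hf0 hf hk hb
  have h9 : (∏ i, Q i).IsHomogeneous (9 * k ^ 2) := by
    convert IsHomogeneous.prod Finset.univ Q _ fun i _ => (hC i).1 using 1
    rw [← Finset.sum_mul, ← Finset.mul_sum, h3]
    rfl
  have hN0 : (0 : ℝ) < N := by exact_mod_cast (by omega : 0 < N)
  refine hN.neg _ (fun j => r j - (∑ j, r j : ℕ) / N) ?_ (fun x hx => ?_) hS
  · rw [Finset.sum_sub_distrib, Finset.sum_const, Finset.card_univ, Fintype.card_fin, nsmul_eq_mul,
      mul_div_cancel₀ _ hN0.ne', Nat.cast_sum, sub_self]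
  have h10 := wt_prod_le (fun c : Fin 3 × Fin N => r c.2) Finset.univ Q x hx
  have h11 : ∑ c, x c = 9 * k ^ 2 := by
    simpa [Finsupp.weight_eq_sum] using h9 (mem_support_iff.mp hx)
  have h12 : (Finsupp.weight (fun c : Fin 3 × Fin N => r c.2) x : ℤ) ≤
      k ^ 3 * (3 * (∑ i, w i : ℕ) - Finsupp.weight w a) := by
    refine (Int.ofNat_le.mpr h10).trans ?_
    rw [Nat.cast_sum]
    refine (Finset.sum_le_sum fun i _ => h1 i).trans ?_
    rw [← Finset.mul_sum, Finset.sum_sub_distrib, ← Finset.sum_mul, ← Nat.cast_sum, h3,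
      ← Nat.cast_sum]
    gcongr
    rfl
  have h13 : (N : ℤ) * Finsupp.weight (fun c : Fin 3 × Fin N => r c.2) x <
      9 * k ^ 2 * (∑ j, r j : ℕ) := by
    rw [← h7]
    have h14 := mul_le_mul_of_nonneg_left h12 (Nat.cast_nonneg N)
    have h15 : (0 : ℤ) < (4 * Finsupp.weight w a - 3 * (∑ i, w i : ℕ)) * (k ^ 3 * (6 * k - 2)) :=
      mul_pos (by omega) (mul_pos (by positivity) (by omega))
    have h16 : 2 * (N : ℤ) = 3 * k ^ 2 + 3 * k + 2 := by exact_mod_cast h8
    generalize (∑ i, w i : ℕ) = σ at *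
    have h17 : 48 * (9 * (k : ℤ) ^ 2 * tot w a k - N * (k ^ 3 * (3 * σ - Finsupp.weight w a))) =
        12 * ((4 * Finsupp.weight w a - 3 * σ) * (k ^ 3 * (6 * k - 2))) := by
      push_cast at h6
      linear_combination 18 * k ^ 2 * h6 - 24 * k ^ 3 * (3 * σ - Finsupp.weight w a) * h16
    linarith
  have h14 : wt (fun j => (r j : ℝ) - (∑ j, r j : ℕ) / N) x =
      (Finsupp.weight (fun c : Fin 3 × Fin N => r c.2) x : ℕ) -
        (9 * k ^ 2 : ℕ) * ((∑ j, r j : ℕ) / N) := by
    simp only [wt, mul_sub, Finset.sum_sub_distrib, Finsupp.weight_eq_sum, ← h11, ← Finset.sum_mul]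
    push_cast
    simp
  rw [h14, sub_neg, ← mul_div_assoc, lt_div_iff₀' hN0]
  exact_mod_cast h13

end Pool.Agent.Lib.MP_a25055_ag
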