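import Pool.Agent.Lib.MP_a25055_ag.Inv

/-! Block ZP: the incidence set is irreducible and cut out by maximal minors. -/

open MvPolynomial Filter Topology Module

noncomputable section

namespace Pool.Agent.Lib.MP_a25055_ag

namespace BZP

lemma eval_aeval' {σ τ : Type} (f : σ → MvPolynomial τ ℂ) (x : τ → ℂ) (p : MvPolynomial σ ℂ) :
    eval x (aeval f p) = eval (fun a => eval x (f a)) p := by
  induction p using MvPolynomial.induction_on with
  | C c => simp
  | add p q hp hq => simp only [map_add, hp, hq]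
  | mul_X p a hp => simp only [map_mul, hp, aeval_X, eval_X]

/-- Nullstellensatz in elementary form. -/
lemma null {σ : Type} [Finite σ] (T : Set (MvPolynomial σ ℂ)) (p : MvPolynomial σ ℂ)
    (h : ∀ x : σ → ℂ, (∀ q ∈ T, eval x q = 0) → eval x p = 0) : p ∈ (Ideal.span T).radical := by
  rw [← vanishingIdeal_zeroLocus_eq_radical (K := ℂ), mem_vanishingIdeal_iff]
  intro x hx
  rw [mem_zeroLocus_iff] at hx
  exact h x fun q hq => hx q (Ideal.subset_span hq)

/-- A product vanishing on a line. -/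
lemma line {σ : Type} (p q : MvPolynomial σ ℂ) (A B : σ → ℂ)
    (h : ∀ t : ℂ, eval (fun a => A a + t * (B a - A a)) (p * q) = 0) :
    eval A p = 0 ∨ eval B q = 0 := by
  let f : σ → MvPolynomial Unit ℂ := fun a => C (A a) + X () * C (B a - A a)
  have key : ∀ (t : Unit → ℂ) (r : MvPolynomial σ ℂ),
      eval t (aeval f r) = eval (fun a => A a + t () * (B a - A a)) r := fun t r => by
    rw [eval_aeval']
    simp only [f, map_add, map_mul, eval_C, eval_X]
  have h1 : aeval f p * aeval f q = 0 := by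
    rw [← map_mul]
    exact MvPolynomial.funext fun t => by rw [key, h, map_zero]
  rcases mul_eq_zero.1 h1 with h2 | h2
  · left
    have := key (fun _ => 0) p
    rw [h2, map_zero] at this
    simpa using this.symm
  · right
    have := key (fun _ => 1) q
    rw [h2, map_zero] at this
    simpa using this.symm

/-- A polynomial family of triples through the moving point of the cone. -/
lemma family {g : P4} {k N : ℕ} {b : Fin N → P4} (hb : Spans g k b) (x₁ : Fin 4 → ℂ) (i₁ : Fin 4)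
    (h₁ : x₁ i₁ ≠ 0) (H : Fin 3 × Fin N → ℂ) (hH : ∀ i, ∑ j, H (i, j) * eval x₁ (b j) = 0) :
    ∃ F : Fin 3 × Fin N → P4, (fun a => eval x₁ (F a)) = H ∧
      ∀ x, eval x g = 0 → ∀ i, ∑ j, eval x (F (i, j)) * eval x (b j) = 0 := by
  obtain ⟨c, hc⟩ := hb.2 (X i₁ ^ k) (by simpa using (isHomogeneous_X ℂ i₁).pow k)
  refine ⟨fun a => C (x₁ i₁ ^ k)⁻¹ *
    (X i₁ ^ k * C (H a) - (∑ j, C (H (a.1, j)) * b j) * C (c a.2)), ?_, fun x hx i => ?_⟩
  · funext a
    simp only [map_mul, map_sub, map_pow, map_sum, eval_C, eval_X, hH a.1]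
    have := pow_ne_zero k h₁
    field_simp
    ring
  · have h2 : ∑ j, c j * eval x (b j) = x i₁ ^ k := by
      obtain ⟨r, hr⟩ := hc
      have := congrArg (eval x) hr
      simp only [map_sub, map_pow, map_sum, map_mul, eval_X, hx, zero_mul, smul_eval] at this
      exact (sub_eq_zero.1 this).symm
    simp only [map_mul, map_sub, map_pow, map_sum, eval_C, eval_X]
    have e : ∀ j, (x₁ i₁ ^ k)⁻¹ * (x i₁ ^ k * H (i, j) - (∑ j', H (i, j') * eval x (b j')) * c j) *
        eval x (b j) = (x₁ i₁ ^ k)⁻¹ * x i₁ ^ k * (H (i, j) * eval x (b j)) -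
          (x₁ i₁ ^ k)⁻¹ * (∑ j', H (i, j') * eval x (b j')) * (c j * eval x (b j)) :=
      fun j => by ring
    simp only [e, Finset.sum_sub_distrib, ← Finset.mul_sum, h2]
    ring

theorem prime {g : P4} {k N : ℕ} {b : Fin N → P4} (hg : Irreducible g) (hb : Spans g k b)
    (p q : PP 3 N) (h : ∀ H ∈ Inc g b, eval H (p * q) = 0) :
    (∀ H ∈ Inc g b, eval H p = 0) ∨ ∀ H ∈ Inc g b, eval H q = 0 := by
  by_contra hc
  push Not at hc
  obtain ⟨⟨H₁, ⟨x₁, a1, a2, a3⟩, a4⟩, H₂, ⟨x₂, b1, b2, b3⟩, b4⟩ := hc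
  obtain ⟨i₁, c1⟩ := Function.ne_iff.1 a1
  obtain ⟨i₂, c2⟩ := Function.ne_iff.1 b1
  obtain ⟨F₁, d1, d2⟩ := family hb x₁ i₁ c1 H₁ a3
  obtain ⟨F₂, e1, e2⟩ := family hb x₂ i₂ c2 H₂ b3
  have h1 : X i₁ * aeval F₁ p * aeval F₂ q ∈ (Ideal.span {g}).radical := by
    refine null _ _ fun x hx => ?_
    have hx' : eval x g = 0 := hx g rfl
    rw [map_mul, map_mul, eval_aeval', eval_aeval', eval_X, mul_assoc]
    by_cases h0 : x = 0
    · rw [h0]; simp
    · refine mul_eq_zero_of_right _ (mul_eq_zero.2 (line p q _ _ fun t => h _ ⟨x, h0, hx', ?_⟩))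
      intro i
      have e : ∀ j, (eval x (F₁ (i, j)) + t * (eval x (F₂ (i, j)) - eval x (F₁ (i, j)))) *
          eval x (b j) = (1 - t) * (eval x (F₁ (i, j)) * eval x (b j)) +
            t * (eval x (F₂ (i, j)) * eval x (b j)) := fun j => by ring
      simp only [e, Finset.sum_add_distrib, ← Finset.mul_sum, d2 x hx' i, e2 x hx' i]
      simp
  have hp : Prime g := hg.prime
  rw [((Ideal.span_singleton_prime hp.ne_zero).2 hp).radical, Ideal.mem_span_singleton] at h1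
  have z : ∀ (x : Fin 4 → ℂ) (r : P4), eval x g = 0 → g ∣ r → eval x r = 0 := by
    rintro x _ hx ⟨r, rfl⟩
    rw [map_mul, hx, zero_mul]
  rcases hp.dvd_or_dvd h1 with h2 | h2
  · rcases hp.dvd_or_dvd h2 with h3 | h3
    · exact c1 (by simpa using z x₁ _ a2 h3)
    · exact a4 (by have := z x₁ _ a2 h3; rwa [eval_aeval', d1] at this)
  · exact b4 (by have := z x₂ _ b2 h2; rwa [eval_aeval', e1] at this)

attribute [local instance] MvPolynomial.gradedAlgebra in
lemma comp_mul (a h : P4) {e : ℕ} (hh : h.IsHomogeneous e) (D : ℕ) :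
    homogeneousComponent D (a * h) =
      if e ≤ D then homogeneousComponent (D - e) a * h else 0 := by
  have := DirectSum.coe_decompose_mul_of_right_mem (homogeneousSubmodule (Fin 4) ℂ) (a := a)
    (b := h) (i := e) D hh
  rw [← decomposition.decompose'_apply, ← decomposition.decompose'_apply]
  exact this

lemma degQ_pow (g : P4) (m : ℕ) : degQ g m = degQ g 1 ^ m := by
  rw [degQ, degQ, ← Submodule.map_pow, homogeneousSubmodule_one_pow]

lemma degQ_add (g : P4) (m n : ℕ) : degQ g (m + n) = degQ g m * degQ g n := by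
  rw [degQ_pow g (m + n), degQ_pow g m, degQ_pow g n]
  exact pow_add (degQ g 1) m n

lemma mk_mem {g p : P4} {m : ℕ} (h : p.IsHomogeneous m) : mk4 g p ∈ degQ g m := ⟨p, h, rfl⟩

/-- Surjectivity of the first Koszul differential in degree `n`. -/
def Surj (g : P4) (k : ℕ) {N : ℕ} (b : Fin N → P4) (n : ℕ) (H : Fin 3 × Fin N → ℂ) : Prop :=
  degQ g ((n + 1) * k) ≤
    Submodule.span ℂ (Set.range fun i => mk4 g (∑ j, H (i, j) • b j)) * degQ g (n * k)

lemma Surj.succ {g : P4} {k N : ℕ} {b : Fin N → P4} {n : ℕ} {H : Fin 3 × Fin N → ℂ}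
    (h : Surj g k b n H) : Surj g k b (n + 1) H := by
  unfold Surj at h ⊢
  rw [add_mul (n + 1), one_mul, degQ_add]
  refine (mul_le_mul_left h _).trans ?_
  rw [add_mul, one_mul, degQ_add]
  exact (mul_assoc _ (degQ g (n * k)) (degQ g k)).le

lemma Surj.mono {g : P4} {k N : ℕ} {b : Fin N → P4} {n m : ℕ} {H : Fin 3 × Fin N → ℂ}
    (h : Surj g k b n H) (hm : n ≤ m) : Surj g k b m H := by
  induction hm with
  | refl => exact h
  | step _ ih => exact ih.succ

lemma Surj.not_inc {g : P4} {k N : ℕ} {b : Fin N → P4} (hk : 1 ≤ k) {n : ℕ}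
    {H : Fin 3 × Fin N → ℂ} (h : Surj g k b n H) : H ∉ Inc g b := by
  rintro ⟨x, h0, hx, hH⟩
  let ev : Q4 g →ₐ[ℂ] ℂ := Ideal.Quotient.liftₐ _ (aeval x) (fun a ha => by
    obtain ⟨r, rfl⟩ := Ideal.mem_span_singleton.1 ha
    have : aeval x g = 0 := hx
    rw [map_mul, this, zero_mul])
  have hev : ∀ p, ev (mk4 g p) = eval x p := fun p => rfl
  have h1 : Submodule.span ℂ (Set.range fun i => mk4 g (∑ j, H (i, j) • b j)) ≤
      LinearMap.ker ev.toLinearMap := by
    rw [Submodule.span_le]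
    rintro _ ⟨i, rfl⟩
    change ev (mk4 g _) = 0
    rw [hev, map_sum]
    simpa only [smul_eval] using hH i
  have h2 : Submodule.span ℂ (Set.range fun i => mk4 g (∑ j, H (i, j) • b j)) * degQ g (n * k) ≤
      LinearMap.ker ev.toLinearMap := by
    rw [Submodule.mul_le]
    intro u hu v _
    have : ev u = 0 := h1 hu
    change ev (u * v) = 0
    rw [map_mul, this, zero_mul]
  refine h0 (_root_.funext fun i => ?_)
  have h3 : ev (mk4 g (X i ^ ((n + 1) * k))) = 0 :=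
    h2 (h (mk_mem (by simpa using (isHomogeneous_X ℂ i).pow ((n + 1) * k))))
  rw [hev, map_pow, eval_X] at h3
  exact pow_eq_zero_iff (by positivity) |>.1 h3

lemma surj_of {g : P4} {d k N : ℕ} {b : Fin N → P4} (hg : g.IsHomogeneous d) (hk : 1 ≤ k)
    (hb : Spans g k b) {H : Fin 3 × Fin N → ℂ} (h : H ∉ Inc g b) : ∃ n, Surj g k b n H := by
  set u : Fin 3 → P4 := fun i => ∑ j, H (i, j) • b j with hu
  have hh : ∀ i, (u i).IsHomogeneous k := fun i =>
    (homogeneousSubmodule (Fin 4) ℂ k).sum_mem fun j _ => Submodule.smul_mem _ _ (hb.1 j)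
  have h1 : idealOfVars (Fin 4) ℂ ≤ (Ideal.span (insert g (Set.range u))).radical := by
    rw [Ideal.span_le]
    rintro _ ⟨i, rfl⟩
    refine null _ _ fun x hx => ?_
    by_contra hc
    refine h ⟨x, fun h0 => hc (by simp [h0]), hx g (Set.mem_insert _ _), fun l => ?_⟩
    have := hx (u l) (Set.mem_insert_of_mem _ ⟨l, rfl⟩)
    rw [hu, map_sum] at this
    simpa only [smul_eval] using this
  obtain ⟨M, hM⟩ := Ideal.exists_pow_le_of_le_radical_of_fg h1 (idealOfVars_fg _ _)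
  refine ⟨M, ?_⟩
  rintro _ ⟨p, hp, rfl⟩
  have hp' : p.IsHomogeneous ((M + 1) * k) := hp
  have h2 : p ∈ idealOfVars (Fin 4) ℂ ^ M := by
    rw [mem_pow_idealOfVars_iff']
    intro x hx
    exact hp'.coeff_eq_zero (by nlinarith)
  obtain ⟨a, z, hz, e⟩ := Ideal.mem_span_insert.1 (hM h2)
  obtain ⟨c, rfl⟩ := (Submodule.mem_span_range_iff_exists_fun P4).1 hz
  have e2 := congrArg (homogeneousComponent ((M + 1) * k)) e
  rw [homogeneousComponent_eq_self hp', map_add, map_sum, comp_mul a g hg] at e2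
  have h3 : mk4 g (if d ≤ (M + 1) * k then homogeneousComponent ((M + 1) * k - d) a * g else 0)
      = 0 := by
    split_ifs
    · exact Ideal.Quotient.eq_zero_iff_mem.2 (Ideal.mem_span_singleton.2 (dvd_mul_left _ _))
    · exact map_zero _
  change mk4 g p ∈ _
  rw [e2, map_add, h3, zero_add, map_sum]
  refine Submodule.sum_mem _ fun i _ => ?_
  rw [smul_eq_mul, comp_mul _ _ (hh i), if_pos (by nlinarith), map_mul, mul_comm (mk4 g _),
    show (M + 1) * k - k = M * k by rw [add_mul, one_mul, Nat.add_sub_cancel]]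
  exact Submodule.mul_mem_mul (Submodule.subset_span ⟨i, rfl⟩)
    (mk_mem (homogeneousComponent_isHomogeneous _ _))

section mat
variable {g : P4} {k N n : ℕ} {b : Fin N → P4} {I J : Type} [Fintype I] [Fintype J]
  [DecidableEq I] {e' : I → Q4 g} {e : J → Q4 g} {μ : Fin N → Matrix I J ℂ}

omit [Fintype J] [DecidableEq I] in
lemma col (hμ : ∀ j, MulMat (mk4 g (b j)) e' e (μ j)) (H : Fin 3 × Fin N → ℂ) (a : Fin 3 × J) :
    mk4 g (∑ j, H (a.1, j) • b j) * e a.2 = ∑ c, kos1 (mulM μ H) c a • e' c := by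
  simp only [map_sum, map_smul, Finset.sum_mul, smul_mul_assoc, hμ _ a.2, kos1, mulM,
    Finset.smul_sum, Finset.sum_smul, smul_smul, smul_eq_mul]
  rw [Finset.sum_comm]
  simp only [mul_comm]

omit [Fintype I] [Fintype J] [DecidableEq I] in
lemma map_kos (H : Fin 3 × Fin N → ℂ) :
    (kos1 (mulM μ (X : Fin 3 × Fin N → PP 3 N))).map (eval H) = kos1 (mulM μ H) := by
  ext c a
  simp [kos1, mulM, smul_eval]

lemma surj_iff (he' : BasisOf ℂ e' (degQ g ((n + 1) * k))) (he : BasisOf ℂ e (degQ g (n * k)))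
    (hμ : ∀ j, MulMat (mk4 g (b j)) e' e (μ j)) (H : Fin 3 × Fin N → ℂ) :
    Surj g k b n H ↔ ∃ B : Matrix (Fin 3 × J) I ℂ, (kos1 (mulM μ H) * B).det ≠ 0 := by
  have hs : Submodule.span ℂ (Set.range fun i => mk4 g (∑ j, H (i, j) • b j)) * degQ g (n * k) =
      Submodule.span ℂ (Set.range fun a : Fin 3 × J => ∑ c, kos1 (mulM μ H) c a • e' c) := by
    rw [← he.2, Submodule.span_mul_span]
    congr 1
    ext y
    constructor
    · rintro ⟨_, ⟨i, rfl⟩, _, ⟨a, rfl⟩, rfl⟩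
      exact ⟨(i, a), (col hμ H (i, a)).symm⟩
    · rintro ⟨a, rfl⟩
      exact ⟨_, ⟨a.1, rfl⟩, _, ⟨a.2, rfl⟩, col hμ H a⟩
  have hsum : ∀ x : Fin 3 × J → ℂ, ∑ a, x a • ∑ c, kos1 (mulM μ H) c a • e' c =
      ∑ c, (∑ a, kos1 (mulM μ H) c a * x a) • e' c := fun x => by
    simp only [Finset.smul_sum, Finset.sum_smul, smul_smul]
    rw [Finset.sum_comm]
    simp only [mul_comm]
  rw [Surj, hs, ← he'.2, Submodule.span_le]
  constructor
  · intro h
    choose x hx using fun c => (Submodule.mem_span_range_iff_exists_fun ℂ).1 (h ⟨c, rfl⟩)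
    refine ⟨Matrix.of fun a c => x c a, ?_⟩
    have : kos1 (mulM μ H) * (Matrix.of fun a c => x c a) = (1 : Matrix I I ℂ) := by
      ext c' c
      have h1 := hx c
      rw [hsum] at h1
      have h2 : ∑ c', (1 : Matrix I I ℂ) c' c • e' c' = e' c := by simp [Matrix.one_apply]
      exact Fintype.linearIndependent_iffₛ.1 he'.1 _ _ (h1.trans h2.symm) c'
    rw [this, Matrix.det_one]
    exact one_ne_zero
  · rintro ⟨B, hB⟩ _ ⟨c, rfl⟩
    have h1 : kos1 (mulM μ H) * (B * (kos1 (mulM μ H) * B)⁻¹) = 1 := by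
      rw [← Matrix.mul_assoc, Matrix.mul_nonsing_inv _ (isUnit_iff_ne_zero.2 hB)]
    refine (Submodule.mem_span_range_iff_exists_fun ℂ).2
      ⟨fun a => (B * (kos1 (mulM μ H) * B)⁻¹) a c, ?_⟩
    rw [hsum]
    simp only [← Matrix.mul_apply, h1]
    simp [Matrix.one_apply]

/-- The generic matrix multiplied by a constant matrix. -/
def genM (μ : Fin N → Matrix I J ℂ) (B : Matrix (Fin 3 × J) I ℂ) : Matrix I I (PP 3 N) :=
  kos1 (mulM μ (X : Fin 3 × Fin N → PP 3 N)) * B.map (C : ℂ → PP 3 N)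

lemma eval_gen (H : Fin 3 × Fin N → ℂ) (B : Matrix (Fin 3 × J) I ℂ) :
    eval H (genM μ B).det = (kos1 (mulM μ H) * B).det := by
  rw [genM, RingHom.map_det, RingHom.mapMatrix_apply, Matrix.map_mul, map_kos, Matrix.map_map]
  congr 2
  ext a c
  simp

end mat

lemma fin_sub {σ : Type} [Finite σ] (T : Set (MvPolynomial σ ℂ)) :
    ∃ S : Finset (MvPolynomial σ ℂ), ↑S ⊆ T ∧
      ∀ H : σ → ℂ, (∃ δ ∈ T, eval H δ ≠ 0) → ∃ δ ∈ S, eval H δ ≠ 0 := by
  obtain ⟨S, h1, h2⟩ := (Submodule.fg_span_iff_fg_span_finset_subset T).1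
    (IsNoetherian.noetherian (Ideal.span T))
  refine ⟨S, h1, fun H ⟨δ, hδ, h0⟩ => ?_⟩
  by_contra hc
  push Not at hc
  have h3 : Submodule.span (MvPolynomial σ ℂ) (S : Set _) ≤ RingHom.ker (eval H) :=
    Submodule.span_le.2 fun p hp => hc p hp
  exact h0 (h3 (h2 ▸ Submodule.subset_span hδ))

lemma exists_basisOf (g : P4) (m : ℕ) :
    ∃ (r : ℕ) (e : Fin r → Q4 g), BasisOf ℂ e (degQ g m) := by
  have : Module.Finite ℂ (degQ g m) :=
    Module.Finite.iff_fg.2 ((homogeneousSubmodule_fg (Fin 4) ℂ m).map _)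
  let B := Module.finBasis ℂ (degQ g m)
  refine ⟨_, (degQ g m).subtype ∘ B, B.linearIndependent.map' _ (Submodule.ker_subtype _), ?_⟩
  rw [Set.range_comp, ← Submodule.map_span, B.span_eq, Submodule.map_subtype_top]

lemma closed {g : P4} {k N : ℕ} {b : Fin N → P4} (hb : Spans g k b) (n : ℕ) :
    ∃ T : Set (PP 3 N), ∀ H, Surj g k b n H ↔ ∃ δ ∈ T, eval H δ ≠ 0 := by
  obtain ⟨r', e', he'⟩ := exists_basisOf g ((n + 1) * k)
  obtain ⟨r, e, he⟩ := exists_basisOf g (n * k)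
  have h1 : ∀ j a, ∃ c : Fin r' → ℂ, ∑ l, c l • e' l = mk4 g (b j) * e a := fun j a => by
    rw [← Submodule.mem_span_range_iff_exists_fun, he'.2, add_mul, one_mul, add_comm, degQ_add]
    exact Submodule.mul_mem_mul (mk_mem (hb.1 j)) (he.2 ▸ Submodule.subset_span ⟨a, rfl⟩)
  choose μ hμ using h1
  refine ⟨Set.range fun B : Matrix (Fin 3 × Fin r) (Fin r') ℂ =>
    (genM (fun j => Matrix.of fun c a => μ j a c) B).det, fun H => ?_⟩
  rw [surj_iff (μ := fun j => Matrix.of fun c a => μ j a c) he' he (fun j a => (hμ j a).symm),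
    Set.exists_range_iff]
  simp only [eval_gen]

lemma uniform {g : P4} {d k N : ℕ} {b : Fin N → P4} (hg : g.IsHomogeneous d) (hk : 1 ≤ k)
    (hb : Spans g k b) : ∃ n0, ∀ H ∉ Inc g b, Surj g k b n0 H := by
  choose T hT using closed hb
  obtain ⟨S, h1, h2⟩ := fin_sub (⋃ n, T n)
  choose! m hm using fun δ (h : δ ∈ S) => Set.mem_iUnion.1 (h1 h)
  refine ⟨S.sup m, fun H hH => ?_⟩
  obtain ⟨n, hn⟩ := surj_of hg hk hb hH
  obtain ⟨δ, a1, a2⟩ := (hT n H).1 hn
  obtain ⟨δ', b1, b2⟩ := h2 H ⟨δ, Set.mem_iUnion.2 ⟨n, a1⟩, a2⟩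
  exact ((hT _ H).2 ⟨δ', hm δ' b1, b2⟩).mono (Finset.le_sup b1)

end BZP

open BZP in
theorem zp_of : St_ZP where
  prime := fun _ _ _ _ _ hg _ _ hb p q h => BZP.prime hg hb p q h
  surj := fun _ _ _ _ _ hg hk hb _ =>
    ⟨fun h => surj_of hg hk hb h, fun ⟨_, h⟩ => Surj.not_inc hk h⟩
  minors := by
    intro g d k N b hg hk hb
    obtain ⟨n0, h0⟩ := uniform hg hk hb
    refine ⟨n0, fun I J _ _ _ e' e he' he μ hμ => ?_⟩
    obtain ⟨S, h1, h2⟩ := fin_sub (Set.range fun B : Matrix (Fin 3 × J) I ℂ =>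
      (genM μ B).det)
    refine ⟨S, fun δ hδ => ?_, fun H hH => h2 H ?_⟩
    · obtain ⟨B, rfl⟩ := h1 hδ
      refine ⟨fun H hH => ?_, (B.map C : Matrix (Fin 3 × J) I (PP 3 N)) * (genM μ B).adjugate, ?_⟩
      · by_contra hc
        rw [eval_gen] at hc
        exact ((surj_iff he' he hμ H).2 ⟨B, hc⟩).not_inc hk hH
      · exact (Matrix.mul_assoc _ _ _).symm.trans (Matrix.mul_adjugate (genM μ B))
    · obtain ⟨B, hB⟩ := (surj_iff he' he hμ H).1 (h0 H hH)
      exact ⟨_, ⟨B, rfl⟩, by rwa [eval_gen]⟩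

end Pool.Agent.Lib.MP_a25055_ag
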