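import Pool.Agent.Lib.MP_a25055_ag.BINV
import Pool.Agent.Lib.MP_a25055_ag.BSVD
import Pool.Agent.Lib.MP_a25055_ag.BRAT
import Pool.Agent.Lib.MP_a25055_ag.BFIN
import Pool.Agent.Lib.MP_a25055_ag.BHM
import Pool.Agent.Lib.MP_a25055_ag.BNULL
import Pool.Agent.Lib.MP_a25055_ag.BKN1
import Pool.Agent.Lib.MP_a25055_ag.BKN2
import Pool.Agent.Lib.MP_a25055_ag.BKN3
import Pool.Agent.Lib.MP_a25055_ag.BPOLY
import Pool.Agent.Lib.MP_a25055_ag.BK1
import Pool.Agent.Lib.MP_a25055_ag.BK2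
import Pool.Agent.Lib.MP_a25055_ag.BHS
import Pool.Agent.Lib.MP_a25055_ag.BHF
import Pool.Agent.Lib.MP_a25055_ag.BZP
import Pool.Agent.Lib.MP_a25055_ag.BDEG
import Pool.Agent.Lib.MP_a25055_ag.BCT
import Pool.Agent.Lib.MP_a25055_ag.BCW
import Pool.Agent.Lib.MP_a25055_ag.BBC
import Pool.Agent.Lib.MP_a25055_ag.BCL
import Pool.Agent.Lib.MP_a25055_ag.BA1
import Pool.Agent.Lib.MP_a25055_ag.BG2
import Pool.Agent.Lib.MP_a25055_ag.BUN
import Pool.Agent.Lib.MP_a25055_ag.BSB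
import Pool.Agent.Lib.MP_a25055_ag.BT1
import Pool.Agent.Lib.MP_a25055_ag.BT2
import Pool.Agent.Lib.MP_a25055_ag.BD1
import Pool.Agent.Lib.MP_a25055_ag.BS3a
import Pool.Agent.Lib.MP_a25055_ag.BS3b
import Pool.Agent.Lib.MP_a25055_ag.BS3c
import Pool.Agent.Lib.MP_a25055_ag.BL1
import Pool.Agent.Lib.MP_a25055_ag.BL2
import Pool.Agent.Lib.MP_a25055_ag.BL3
import Pool.Agent.Lib.MP_a25055_ag.BN1

namespace Pool.Agent.Lib.MP_a25055_ag

theorem st_inv : St_INV := inv_of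

theorem st_svd : St_SVD := svd_of

theorem st_rat : St_RAT := rat_of

theorem st_fin : St_FIN := fin_of

theorem st_hm : St_HM := hm_of st_inv st_svd st_rat st_fin

theorem st_null : St_NULL := null_of st_inv st_svd

theorem st_kn1 : St_KN1 := kn1_of

theorem st_kn2 : St_KN2 := kn2_of st_svd st_kn1

theorem st_kn3 : St_KN3 := kn3_of st_svd st_kn1

theorem st_poly : St_POLY := poly_of st_inv st_rat st_kn2 st_kn3

theorem st_k1 : St_K1 := k1_of

theorem st_k2 : St_K2 := k2_of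

theorem st_hs : St_HS := hs_of

theorem st_hf : St_HF := hf_of

theorem st_zp : St_ZP := zp_of

theorem st_deg : St_DEG := deg_of

theorem st_ct : St_CT := ct_of st_k1 st_k2 st_hs st_hf st_zp st_deg

theorem st_cw : St_CW := cw_of st_k1 st_k2 st_hs st_hf st_deg st_ct

theorem st_bc : St_BC := bc_of st_inv st_hf st_deg st_ct

theorem st_cl : St_CL := cl_of

theorem st_a1 : St_A1 := a1_of st_hm st_hf

theorem st_g2 : St_G2 := g2_of st_inv st_null st_poly

theorem st_un : St_UN := un_of st_hf st_cw st_bc st_null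

theorem st_sb : St_SB := sb_of

theorem st_t1 : St_T1 := t1_of st_hf st_sb

theorem st_t2 : St_T2 := t2_of st_poly st_deg st_cw st_bc st_g2 st_sb st_t1

theorem st_d1 : St_D1 := d1_of st_inv st_null st_cw st_bc st_g2 st_sb st_t2

theorem st_s3a : St_S3a := s3a_of st_hs st_hf st_zp st_g2

theorem st_s3b : St_S3b := s3b_of

theorem st_s3c : St_S3c := s3c_of

theorem st_l1 : St_L1 := l1_of

theorem st_l2 : St_L2 := l2_of

theorem st_l3 : St_L3 := l3_of

theorem st_n1 : St_N1 := n1_of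

end Pool.Agent.Lib.MP_a25055_ag
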