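import Mathlib

/-! Internal definitions and block statements, part II: the numerical core. -/

open Module Finset

noncomputable section

namespace Pool.Agent.Lib.MP_a25055_ag

/-- A finite forest of infinitely near points of the plane together with plane curves.
`p ∈ prox q` means that `q` is proximate to `p`. -/
structure Tree where
  T : Type
  [fin : Fintype T]
  [dec : DecidableEq T]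
  dep : T → ℕ
  prox : T → Finset T
  prox_dep : ∀ q, ∀ p ∈ prox q, dep p < dep q
  Pl : Type
  [decP : DecidableEq Pl]
  deg : Pl → ℕ
  mu : Pl → T → ℕ
  T0 : Finset T

attribute [instance] Tree.fin Tree.dec Tree.decP

/-- Real coefficients. -/
def toR {ι : Type} (B : ι →₀ ℕ) : ι →₀ ℝ := B.mapRange (fun n : ℕ => (n : ℝ)) Nat.cast_zero

@[simp] lemma toR_apply {ι : Type} (B : ι →₀ ℕ) (i : ι) : toR B i = B i := rfl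

namespace Tree

variable (Y : Tree)

/-- Prime divisors. -/
abbrev I : Type := Y.Pl ⊕ Y.T

/-- Classes `d h - ∑ m q e q`. -/
abbrev Cl : Type := ℝ × (Y.T → ℝ)

/-- The intersection form. -/
def ip (x y : Y.Cl) : ℝ := x.1 * y.1 - ∑ q, x.2 q * y.2 q

/-- The class of a prime divisor. -/
def gam : Y.I → Y.Cl
  | .inl Γ => (Y.deg Γ, fun q => Y.mu Γ q)
  | .inr p => (0, fun q => (if p ∈ Y.prox q then 1 else 0) - if q = p then 1 else 0)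

/-- The class of a divisor. -/
def cl : (Y.I →₀ ℝ) →ₗ[ℝ] Y.Cl := Finsupp.linearCombination ℝ Y.gam

def Nef (D : Y.Cl) : Prop := ∀ i, 0 ≤ Y.ip D (Y.gam i)

/-- The hyperplane class of the cubic surface. -/
def L : Y.Cl := (3, fun q => if q ∈ Y.T0 then 1 else 0)

/-- The anticanonical class. -/
def aK : Y.Cl := (3, fun _ => 1)

def kap (D : Y.Cl) : ℝ := ∑ q ∈ Y.T0ᶜ, D.2 q

/-- Discrepancy over the blow-up of `T0`. -/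
def disc (q : Y.T) : ℕ :=
  if q ∈ Y.T0 then 0 else 1 + ∑ p ∈ (Y.prox q).attach, disc p.1
termination_by Y.dep q
decreasing_by exact Y.prox_dep _ _ p.2

lemma disc_eq (q : Y.T) :
    Y.disc q = if q ∈ Y.T0 then 0 else 1 + ∑ p ∈ Y.prox q, Y.disc p := by
  rw [disc, Finset.sum_attach (Y.prox q) Y.disc]

/-- Log discrepancy. -/
def A : Y.I → ℝ
  | .inl _ => 1
  | .inr q => Y.disc q + 1

/-- Size of a prime divisor. -/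
def sz : Y.I → ℝ
  | .inl Γ => Y.deg Γ
  | .inr _ => 1

def Closed (Q : Finset Y.T) : Prop := ∀ q ∈ Q, Y.prox q ⊆ Q

/-- Primes that are curves on the blow-up of `Q`. -/
def On (Q : Finset Y.T) : Y.I → Prop
  | .inl _ => True
  | .inr q => q ∈ Q

/-- Push forward to the blow-up of `Q` and pull back. -/
def pr (Q : Finset Y.T) (x : Y.Cl) : Y.Cl := (x.1, fun q => if q ∈ Q then x.2 q else 0)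

def ip0 (x y : Y.Cl) : ℝ := Y.ip (Y.pr Y.T0 x) y

def IsInt (x : Y.Cl) : Prop := (∃ d : ℤ, x.1 = d) ∧ ∀ q, ∃ m : ℤ, x.2 q = m

/-- `(-1)`-curves. -/
def Line (i : Y.I) : Prop :=
  Y.On Y.T0 i ∧ Y.ip0 (Y.gam i) (Y.gam i) = -1 ∧ Y.ip Y.L (Y.gam i) = 1

/-- `(-2)`-curves. -/
def Root (i : Y.I) : Prop :=
  Y.On Y.T0 i ∧ Y.ip0 (Y.gam i) (Y.gam i) = -2 ∧ Y.ip Y.L (Y.gam i) = 0

/-- `p` is the point of the blow-up of `T0` below `q`. -/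
def Base (q p : Y.T) : Prop :=
  Relation.ReflTransGen (fun a b => b ∈ Y.prox a) q p ∧ p ∉ Y.T0 ∧ Y.prox p ⊆ Y.T0

structure Plane : Prop where
  chain : ∀ q, (Y.prox q).Nonempty → ∃ p ∈ Y.prox q, ∀ p' ∈ Y.prox q, p' = p ∨ p' ∈ Y.prox p
  two : ∀ q, (Y.prox q).card ≤ 2
  deg_pos : ∀ Γ, 1 ≤ Y.deg Γ
  inter : ∀ i j, i ≠ j → 0 ≤ Y.ip (Y.gam i) (Y.gam j)
  genus : ∀ Γ, ∑ q, (Y.mu Γ q : ℝ) * (Y.mu Γ q - 1) ≤ (Y.deg Γ - 1) * (Y.deg Γ - 2)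
  eff : ∀ (d : ℕ) (M : Y.T → ℕ), ∑ q, M q * (M q + 1) < (d + 1) * (d + 2) →
    ∃ B : Y.I →₀ ℕ, Y.cl (toR B) = ((d : ℝ), fun q => (M q : ℝ))

structure DP : Prop extends Y.Plane where
  card : Y.T0.card = 6
  closed : Y.Closed Y.T0
  nefL : Y.Nef Y.L
  orth : ∀ i j, i ≠ j → Y.On Y.T0 i → Y.On Y.T0 j → Y.ip Y.L (Y.gam i) = 0 →
    Y.ip Y.L (Y.gam j) = 0 → Y.ip0 (Y.gam i) (Y.gam j) = 0

/-! ### Zariski decompositions -/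

def Feas (D0 : Y.Cl) (B0 : Y.I →₀ ℝ) : Prop := ∃ B, B0 ≤ B ∧ Y.Nef (D0 - Y.cl B)

open Classical in
def bmin (D0 : Y.Cl) (B0 : Y.I →₀ ℝ) : Y.I →₀ ℝ :=
  if h : ∃ B, IsLeast {B | B0 ≤ B ∧ Y.Nef (D0 - Y.cl B)} B then h.choose else 0

open Classical in
def dmin (D0 : Y.Cl) (B0 : Y.I →₀ ℝ) : Y.Cl :=
  if Y.Feas D0 B0 then D0 - Y.cl (Y.bmin D0 B0) else 0

/-- Restricted volume. -/
def hf (D0 : Y.Cl) (B0 : Y.I →₀ ℝ) (F : Y.I) (x : ℝ) : ℝ :=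
  Y.ip (Y.dmin D0 (B0 ⊔ Finsupp.single F x)) (Y.gam F)

def sq (D : Y.Cl) : ℝ := Y.ip D D

/-- Volume of `L - x G`. -/
def volf (G : Y.I) (x : ℝ) : ℝ := Y.sq (Y.dmin Y.L (0 ⊔ Finsupp.single G x))

/-- The divisor `∑ j ∈ S, x j • j`. -/
def dv (S : Finset Y.I) (x : Y.I → ℝ) : Y.I →₀ ℝ := ∑ j ∈ S, Finsupp.single j (x j)

/-- The bound that enters inversion of adjunction. -/
def brk (C : Y.I) (Φ : Finset Y.I) (B : Y.I →₀ ℝ) : ℝ :=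
  Y.ip0 (Y.L - B C • Y.gam C) (Y.gam C) - ∑ F ∈ Φ, B F * Y.ip0 (Y.gam F) (Y.gam C)

def FlagOK (C : Y.I) (Φ : Finset Y.I) : Prop := ∃ (U : ℝ) (η : ℝ → ℝ), 0 ≤ U ∧ Continuous η ∧
  (∀ B : Y.I →₀ ℝ, 0 ≤ B → Y.Nef (Y.L - Y.cl B) → B C ≤ U ∧ Y.brk C Φ B ≤ η (B C)) ∧
  ∫ u in (0 : ℝ)..U, u * Y.hf Y.L 0 C u ≤ 17 / 12 ∧
  ∫ u in (0 : ℝ)..U, Y.hf Y.L 0 C u * (η u - Y.hf Y.L 0 C u / 2) ≤ 17 / 12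

variable {Y}

lemma ip_comm (x y : Y.Cl) : Y.ip x y = Y.ip y x := by simp only [ip, mul_comm]

lemma ip_add_left (x y z : Y.Cl) : Y.ip (x + y) z = Y.ip x z + Y.ip y z := by
  simp only [ip, Prod.fst_add, Prod.snd_add, Pi.add_apply, add_mul, Finset.sum_add_distrib]; ring

lemma ip_smul_left (c : ℝ) (x z : Y.Cl) : Y.ip (c • x) z = c * Y.ip x z := by
  simp only [ip, Prod.smul_fst, Prod.smul_snd, Pi.smul_apply, smul_eq_mul, mul_assoc, mul_sub,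
    Finset.mul_sum]

/-- The intersection form as a bilinear map. -/
def ipL : Y.Cl →ₗ[ℝ] Y.Cl →ₗ[ℝ] ℝ :=
  LinearMap.mk₂ ℝ Y.ip ip_add_left ip_smul_left
    (fun x y z => by rw [ip_comm, ip_add_left, ip_comm y, ip_comm z])
    (fun c x y => by rw [ip_comm, ip_smul_left, ip_comm y, smul_eq_mul])

lemma ipL_apply (x y : Y.Cl) : ipL x y = Y.ip x y := rfl

lemma ip_add_right (x y z : Y.Cl) : Y.ip x (y + z) = Y.ip x y + Y.ip x z := (ipL x).map_add y z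

lemma ip_sub_left (x y z : Y.Cl) : Y.ip (x - y) z = Y.ip x z - Y.ip y z :=
  (ipL.flip z).map_sub x y

lemma ip_sub_right (x y z : Y.Cl) : Y.ip x (y - z) = Y.ip x y - Y.ip x z := (ipL x).map_sub y z

lemma ip_smul_right (c : ℝ) (x z : Y.Cl) : Y.ip x (c • z) = c * Y.ip x z := (ipL x).map_smul c z

@[simp] lemma ip_zero_left (x : Y.Cl) : Y.ip 0 x = 0 := (ipL.flip x).map_zero

@[simp] lemma ip_zero_right (x : Y.Cl) : Y.ip x 0 = 0 := (ipL x).map_zero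

lemma ip_pr (Q : Finset Y.T) (x y : Y.Cl) : Y.ip (Y.pr Q x) y = Y.ip x (Y.pr Q y) := by
  simp only [ip, pr, ite_mul, mul_ite, zero_mul, mul_zero]

@[simp] lemma cl_single (i : Y.I) (c : ℝ) : Y.cl (Finsupp.single i c) = c • Y.gam i := by
  simp [cl]

lemma cl_eq_sum (B : Y.I →₀ ℝ) {s : Finset Y.I} (h : B.support ⊆ s) :
    Y.cl B = ∑ i ∈ s, B i • Y.gam i := by
  rw [cl, Finsupp.linearCombination_apply, Finsupp.sum_of_support_subset _ h _ (by simp)]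

lemma ip_cl (D : Y.Cl) (B : Y.I →₀ ℝ) {s : Finset Y.I} (h : B.support ⊆ s) :
    Y.ip D (Y.cl B) = ∑ i ∈ s, B i * Y.ip D (Y.gam i) := by
  rw [cl_eq_sum B h, ← ipL_apply, map_sum]
  simp only [map_smul, ipL_apply, smul_eq_mul]

lemma Nef.ip_cl {D : Y.Cl} (h : Y.Nef D) {E : Y.I →₀ ℝ} (hE : 0 ≤ E) : 0 ≤ Y.ip D (Y.cl E) := by
  rw [Tree.ip_cl D E subset_rfl]
  exact Finset.sum_nonneg fun i _ => mul_nonneg (hE i) (h i)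

lemma Plane.cl_ip (h : Y.Plane) {E : Y.I →₀ ℝ} (hE : 0 ≤ E) {i : Y.I} (hi : E i = 0) :
    0 ≤ Y.ip (Y.cl E) (Y.gam i) := by
  rw [ip_comm, Tree.ip_cl _ E subset_rfl]
  refine Finset.sum_nonneg fun j hj => mul_nonneg (hE j) (h.inter _ _ ?_)
  rintro rfl
  exact Finsupp.mem_support_iff.1 hj hi

lemma dv_apply (S : Finset Y.I) (x : Y.I → ℝ) (i : Y.I) :
    Y.dv S x i = if i ∈ S then x i else 0 := by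
  simp [dv, Finsupp.finsetSum_apply, Finsupp.single_apply]

end Tree

/-! ### Systems of sections -/

/-- A space of sections of `k L` with their divisors. -/
structure Sec (Y : Tree) (k : ℕ) where
  V : Type
  [grp : AddCommGroup V]
  [mod : Module ℂ V]
  [fd : FiniteDimensional ℂ V]
  ord : V → Y.I →₀ ℕ
  ord_add : ∀ s t i, s ≠ 0 → t ≠ 0 → s + t ≠ 0 → min (ord s i) (ord t i) ≤ ord (s + t) i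
  ord_smul : ∀ (c : ℂ) s, c ≠ 0 → ord (c • s) = ord s
  cl_ord : ∀ s, s ≠ 0 → Y.cl (toR (ord s)) = (k : ℝ) • Y.L

attribute [instance] Sec.grp Sec.mod Sec.fd

namespace Sec

variable {Y : Tree} {k : ℕ} (S : Sec Y k)

/-- Sections vanishing to order at least `n` along `i`. -/
def vge (i : Y.I) (n : ℕ) : Submodule ℂ S.V where
  carrier := {s | s = 0 ∨ n ≤ S.ord s i}
  zero_mem' := Or.inl rfl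
  add_mem' := by
    intro s t hs ht
    by_cases h1 : s = 0
    · simpa [h1] using ht
    by_cases h2 : t = 0
    · simpa [h2] using hs
    by_cases h3 : s + t = 0
    · exact Or.inl h3
    exact Or.inr ((le_min (hs.resolve_left h1) (ht.resolve_left h2)).trans
      (S.ord_add s t i h1 h2 h3))
  smul_mem' := by
    intro c s hs
    by_cases h : c = 0
    · exact Or.inl (by rw [h, zero_smul])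
    rcases hs with rfl | hs
    · exact Or.inl (smul_zero c)
    · exact Or.inr (by rw [S.ord_smul c s h]; exact hs)

lemma mem_vge {i : Y.I} {n : ℕ} {s : S.V} : s ∈ S.vge i n ↔ s = 0 ∨ n ≤ S.ord s i := Iff.rfl

/-- The fixed divisor of a subspace. -/
def base (U : Submodule ℂ S.V) : Y.I →₀ ℕ :=
  Finsupp.ofSupportFinite (fun i => sInf {n | ∃ s ∈ U, s ≠ 0 ∧ n = S.ord s i}) (by
    by_cases h : ∃ s ∈ U, s ≠ 0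
    · obtain ⟨s, hs, h0⟩ := h
      refine (S.ord s).hasFiniteSupport.subset fun i hi h1 => hi ?_
      exact Nat.eq_zero_of_le_zero (Nat.sInf_le ⟨s, hs, h0, h1.symm⟩)
    · refine Set.finite_empty.subset fun i hi => hi ?_
      exact Nat.sInf_eq_zero.2 (Or.inr (Set.eq_empty_of_forall_notMem
        fun n ⟨s, hs, h0, _⟩ => h ⟨s, hs, h0⟩)))

lemma base_le {U : Submodule ℂ S.V} {s : S.V} (hs : s ∈ U) (h0 : s ≠ 0) : S.base U ≤ S.ord s :=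
  fun _ => Nat.sInf_le ⟨s, hs, h0, rfl⟩

lemma exists_base {U : Submodule ℂ S.V} (h : U ≠ ⊥) (i : Y.I) :
    ∃ s ∈ U, s ≠ 0 ∧ S.base U i = S.ord s i := by
  obtain ⟨s, hs, h0⟩ := Submodule.exists_mem_ne_zero_of_ne_bot h
  exact Nat.sInf_mem (s := {n | ∃ s ∈ U, s ≠ 0 ∧ n = S.ord s i}) ⟨_, s, hs, h0, rfl⟩

lemma base_mono {U U' : Submodule ℂ S.V} (h : U' ≤ U) (h0 : U' ≠ ⊥) : S.base U ≤ S.base U' :=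
  fun i => by
    obtain ⟨s, hs, h1, h2⟩ := S.exists_base h0 i
    rw [h2]; exact S.base_le (h hs) h1 i

lemma le_base {U : Submodule ℂ S.V} (h0 : U ≠ ⊥) {i : Y.I} {n : ℕ} :
    n ≤ S.base U i ↔ U ≤ S.vge i n := by
  refine ⟨fun h s hs => ?_, fun h => ?_⟩
  · by_cases h1 : s = 0
    · exact Or.inl h1
    · exact Or.inr (h.trans (S.base_le hs h1 i))
  · obtain ⟨s, hs, h1, h2⟩ := S.exists_base h0 i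
    rw [h2]; exact (h hs).resolve_left h1

/-- The moving part. -/
def mov (U : Submodule ℂ S.V) : Y.Cl := (k : ℝ) • Y.L - Y.cl (toR (S.base U))

lemma nef_mov (hY : Y.Plane) {U : Submodule ℂ S.V} (h0 : U ≠ ⊥) : Y.Nef (S.mov U) := fun i => by
  obtain ⟨s, hs, h1, h2⟩ := S.exists_base h0 i
  rw [mov, ← S.cl_ord s h1, ← map_sub]
  refine hY.cl_ip (fun j => ?_) (by simp [h2])
  simpa using S.base_le hs h1 j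

/-- The column inequality. -/
def Col : Prop := ∀ U : Submodule ℂ S.V, U ≠ ⊥ → ∀ i, (finrank ℂ U : ℝ) ≤
  finrank ℂ ↥(U ⊓ S.vge i (S.base U i + 1)) + Y.ip (S.mov U) (Y.gam i) + 1

/-- The Riemann-Roch and Clifford bound. -/
def RR : Prop := ∀ U : Submodule ℂ S.V, U ≠ ⊥ → (finrank ℂ U : ℝ) ≤
  max (3 * (k : ℝ) + 1) (Y.sq (S.mov U) / 2 + max 2 (1 + Y.ip (S.mov U) Y.aK / 2))

structure Good : Prop where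
  rank : 2 * finrank ℂ S.V = 3 * k ^ 2 + 3 * k + 2
  col : S.Col
  rr : S.RR

/-- Volume defect. -/
def fM (U : Submodule ℂ S.V) : ℝ := 1 - Y.sq (S.mov U) / (3 * k ^ 2)

def mu (U : Submodule ℂ S.V) : ℝ := min (Y.kap (S.mov U)) k + k * S.fM U

end Sec

/-! ### Envelopes -/

/-- `θ` is a probability vector on the integers of `[a, b]` with barycentre `t`. -/
def Prob (a b : ℕ) (θ : ℕ → ℝ) (t : ℝ) : Prop :=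
  (∀ i, 0 ≤ θ i) ∧ ∑ i ∈ Icc a b, θ i = 1 ∧ ∑ i ∈ Icc a b, θ i * i = t

def envN (o : ℕ → ℕ) (a b n : ℕ) : ℝ :=
  sInf {v | ∃ θ, Prob a b θ n ∧ v = ∑ i ∈ Icc a b, θ i * o i}

/-- The lower convex envelope of `o` on `[a, b]`. -/
def env (o : ℕ → ℕ) (a b : ℕ) (t : ℝ) : ℝ :=
  (1 - Int.fract t) * envN o a b ⌊t⌋₊ + Int.fract t * envN o a b (⌊t⌋₊ + 1)

/-- Affine on the unit intervals of `[a, b]`. -/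
def PL (e : ℝ → ℝ) (a b : ℕ) : Prop := ∀ n : ℕ, a ≤ n → n < b → ∀ t ∈ Set.Icc (n : ℝ) (n + 1),
  e t = (n + 1 - t) * e n + (t - n) * e (n + 1)

/-- The integrand of the column lemma. -/
def colV (h : ℝ → ℝ) (b : ℝ) (i0 R n : ℕ) : ℝ :=
  (∑ m ∈ Ioc ⌊n * b⌋₊ (n * (⌈b⌉₊ + R)), h (m / n)) / n - ∑ i ∈ Ico ⌈b⌉₊ (⌈b⌉₊ + R), h i -
    h (⌈b⌉₊ + R : ℕ) / 2 + if b = i0 then h i0 / 2 else h (⌈b⌉₊ + R : ℕ) / (3 * (R + 1))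

/-- The threshold of the first zone. -/
def eta : ℝ := 1 / 10 ^ 10

/-- The ratio of `h⁰` and the volume. -/
def rat (k : ℕ) : ℝ := (3 * k ^ 2 + 3 * k + 2) / (6 * k ^ 2)

namespace Sec

variable {Y : Tree} {k : ℕ} (S : Sec Y k)

def Filt (U : ℕ → Submodule ℂ S.V) (T : ℕ) : Prop := Antitone U ∧ U T ≠ ⊥

/-- The envelope divisor. -/
def Bh (U : ℕ → Submodule ℂ S.V) (a b : ℕ) (t : ℝ) : Y.I →₀ ℝ :=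
  Y.dv (S.base (U b)).support fun i => env (fun n => S.base (U n) i) a b t

def Pt (U : ℕ → Submodule ℂ S.V) (a b : ℕ) (t : ℝ) : Y.Cl := (k : ℝ) • Y.L - Y.cl (S.Bh U a b t)

open Classical in
/-- `Bc` on the primes that have moved, the fixed divisor of `U0` on the others. -/
def Bo (U0 : Submodule ℂ S.V) (Bt Bc : Y.I →₀ ℝ) : Y.I →₀ ℝ :=
  Y.dv Bc.support fun i => if Bt i = S.base U0 i then S.base U0 i else Bc i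

end Sec

open Classical in
/-- The primes that are treated by columns. -/
def Tree.SS (Y : Tree) (k : ℕ) (Bc : Y.I →₀ ℝ) (Q : Finset Y.T) : Finset Y.I :=
  Q.image Sum.inr ∪ Bc.support.filter fun i => i.isLeft ∧ (k : ℝ) / 4 < Bc i

/-- The properties of the exceptional set `Q`. -/
structure Tree.QOK (Y : Tree) (κ : ℝ) (c0 : ℕ) (Bc : Y.I →₀ ℝ) (Q : Finset Y.T) : Prop where
  closed : Y.Closed Q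
  sub : Y.T0 ⊆ Q
  card : Q.card ≤ c0
  disc : ∀ q ∈ Q, Y.disc q ≤ 48
  out : ∀ q ∉ Q, Bc (.inr q) ≤ 49 / 50 * κ * Y.disc q

namespace Sec

variable {Y : Tree} {k : ℕ} (S : Sec Y k)

/-- The subspace above the columns. -/
def Up (U1 : Submodule ℂ S.V) (Bt : Y.I →₀ ℝ) (SS : Finset Y.I) : Submodule ℂ S.V :=
  U1 ⊓ ⨅ j ∈ SS, S.vge j (⌈Bt j⌉₊ + 48)

open Classical in
/-- The Chebyshev term. -/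
def Psi (U0 U' : Submodule ℂ S.V) (Bt Bc Bb : Y.I →₀ ℝ) (SS : Finset Y.I) : ℝ :=
  if U' = ⊥ then 0 else ∑ i ∈ Bb.support.filter (fun i => i.isLeft ∧ i ∉ SS),
    if S.base U0 i < S.base U' i then 3 / 8 * min 1 ((4 * Bc i + Bb i) / k) *
      ((min (S.base U' i - Bt i) 1 - 1 / 2) * Y.ip (S.mov U') (Y.gam i)) else 0

/-- The situation at one time. -/
structure Ctx (c0 : ℕ) (ε : ℝ) (U0 U1 : Submodule ℂ S.V) (Bt Bc : Y.I →₀ ℝ) (Q : Finset Y.T) :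
    Prop where
  le : U1 ≤ U0
  ne : U1 ≠ ⊥
  lo : toR (S.base U0) ≤ Bt
  hi : Bt ≤ toR (S.base U1)
  nef : Y.Nef ((k : ℝ) • Y.L - Y.cl Bt)
  big : ε * k ^ 2 ≤ Y.sq ((k : ℝ) • Y.L - Y.cl Bt)
  loc : toR (S.base U0) ≤ Bc
  nefc : Y.Nef ((k : ℝ) • Y.L - Y.cl Bc)
  bigc : (k : ℝ) ^ 2 / 3 ≤ Y.sq ((k : ℝ) • Y.L - Y.cl Bc)
  lam : ∀ i, Bc i ≤ 24 / 25 * k * Y.A i
  qok : Y.QOK k c0 Bc Q

end Sec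

/-- The constraint divisor at the tops of the columns. -/
def Tree.Xs (Y : Tree) (Bt : Y.I →₀ ℝ) (SS : Finset Y.I) : Y.I →₀ ℝ :=
  Bt ⊔ Y.dv SS fun j => (⌈Bt j⌉₊ + 48 : ℕ)

/-! ### Block statements -/

open MeasureTheory

/-- Lorentzian geometry, effectivity, nef classes. -/
structure St_NA : Prop where
  cone : ∀ (Y : Tree) (x y : Y.Cl), 0 ≤ Y.sq x → 0 ≤ Y.sq y → 0 ≤ x.1 → 0 ≤ y.1 → 0 ≤ Y.ip x y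
  hodge : ∀ (Y : Tree) (x y : Y.Cl), 0 ≤ Y.sq x → Y.sq x * Y.sq y ≤ Y.ip x y ^ 2
  hodge0 : ∀ (Y : Tree) (x y : Y.Cl), 0 < Y.sq x → Y.ip x y = 0 → 0 ≤ Y.sq y → y = 0
  effZ : ∀ (Y : Tree), Y.Plane → ∀ x : Y.Cl, Y.IsInt x → 0 ≤ x.1 →
    0 ≤ Y.sq x + Y.ip x Y.aK → ∃ B : Y.I →₀ ℕ, Y.cl (toR B) = x
  effR : ∀ (Y : Tree), Y.Plane → ∀ D : Y.Cl, 0 < Y.sq D → 0 < D.1 → ∃ E, 0 ≤ E ∧ Y.cl E = D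
  nef : ∀ (Y : Tree), Y.Plane → ∀ D : Y.Cl, Y.Nef D →
    0 ≤ D.1 ∧ (∀ q, 0 ≤ D.2 q ∧ D.2 q ≤ D.1) ∧ 0 ≤ Y.sq D
  nef_nef : ∀ (Y : Tree), Y.Plane → ∀ D D' : Y.Cl, Y.Nef D → Y.Nef D' → 0 ≤ Y.ip D D'
  mono : ∀ (Y : Tree) (D0 : Y.Cl) (B B' : Y.I →₀ ℝ), Y.Nef (D0 - Y.cl B) → Y.Nef (D0 - Y.cl B') →
    B ≤ B' → Y.sq (D0 - Y.cl B') ≤ Y.sq (D0 - Y.cl B)
  cl_zero : ∀ (Y : Tree), Y.Plane → ∀ E : Y.I →₀ ℝ, 0 ≤ E → Y.cl E = 0 → E = 0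

/-- Orders of vanishing, discrepancies, integrality, push forward. -/
structure St_NB : Prop where
  LL : ∀ (Y : Tree), Y.DP → Y.sq Y.L = 3
  mu_le : ∀ (Y : Tree), Y.Plane → ∀ Γ q, Y.mu Γ q ≤ Y.deg Γ
  maxord : ∀ (Y : Tree), Y.DP → ∀ (κ : ℝ) (B : Y.I →₀ ℝ), 0 ≤ B → Y.Nef (κ • Y.L - Y.cl B) →
    (∀ i, B i ≤ 381 * κ * Y.A i) ∧
      (∀ s : Finset Y.I, (∀ i ∈ s, i.isLeft) → ∑ i ∈ s, B i * Y.sz i ≤ 3 * κ) ∧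
      (∀ i, Y.ip (κ • Y.L - Y.cl B) (Y.gam i) ≤ 3 * κ * Y.sz i) ∧
      Y.sq (κ • Y.L - Y.cl B) ≤ 3 * κ ^ 2 ∧ Y.ip (κ • Y.L - Y.cl B) Y.L ≤ 3 * κ
  kapf : ∀ (Y : Tree), Y.DP → ∀ D : Y.Cl, Y.ip D Y.aK = Y.ip D Y.L - Y.kap D ∧
    Y.kap D = ∑ q, Y.disc q * Y.ip D (Y.gam (.inr q))
  int : ∀ (Y : Tree), (∀ i, Y.IsInt (Y.gam i)) ∧ Y.IsInt Y.L ∧
    (∀ B : Y.I →₀ ℕ, Y.IsInt (Y.cl (toR B))) ∧ (∀ x y, Y.IsInt x → Y.IsInt y →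
      Y.IsInt (x + y) ∧ Y.IsInt (x - y) ∧ ∃ z : ℤ, Y.ip x y = z) ∧
    (∀ (n : ℕ) x, Y.IsInt x → Y.IsInt ((n : ℝ) • x)) ∧ ∀ Q x, Y.IsInt x → Y.IsInt (Y.pr Q x)
  prE : ∀ (Y : Tree), Y.Plane → ∀ Q, Y.Closed Q → ∀ i, (¬ Y.On Q i → Y.pr Q (Y.gam i) = 0) ∧
    (Y.On Q i → (∀ q ∉ Q, 0 ≤ (Y.gam i).2 q ∧ (Y.gam i).2 q ≤ Y.sz i) ∧
      ∃ E : Y.I →₀ ℝ, 0 ≤ E ∧ Y.cl E = Y.pr Q (Y.gam i) - Y.gam i ∧ ∀ j, Y.On Q j → E j = 0)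
  prN : ∀ (Y : Tree), Y.Plane → ∀ Q, Y.Closed Q → ∀ D, Y.Nef D → Y.Nef (Y.pr Q D)

/-- Curves on the weak del Pezzo surface. -/
structure St_NC : Prop where
  adj : ∀ (Y : Tree), Y.DP → ∀ i, Y.On Y.T0 i → -2 + Y.ip Y.L (Y.gam i) +
    ∑ q ∈ Y.T0ᶜ, (Y.gam i).2 q * ((Y.gam i).2 q - 1) ≤ Y.ip0 (Y.gam i) (Y.gam i)
  neg : ∀ (Y : Tree), Y.DP → ∀ i, Y.On Y.T0 i → Y.ip0 (Y.gam i) (Y.gam i) < 0 →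
    Y.Line i ∨ Y.Root i
  triv : ∀ (Y : Tree), Y.DP → ∀ i, Y.On Y.T0 i → (Y.ip Y.L (Y.gam i) = 0 → Y.Root i) ∧
    (Y.ip Y.L (Y.gam i) = 1 → Y.Line i)
  smooth : ∀ (Y : Tree), Y.DP → ∀ i, Y.On Y.T0 i →
    Y.ip0 (Y.gam i) (Y.gam i) = -2 + Y.ip Y.L (Y.gam i) → ∀ q ∉ Y.T0, (Y.gam i).2 q ≤ 1
  inter0 : ∀ (Y : Tree), Y.DP → ∀ i j, Y.On Y.T0 i → Y.On Y.T0 j → i ≠ j →
    0 ≤ Y.ip0 (Y.gam i) (Y.gam j) ∧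
      ∑ q ∈ Y.T0ᶜ, (Y.gam i).2 q * (Y.gam j).2 q ≤ Y.ip0 (Y.gam i) (Y.gam j)
  exc : ∀ (Y : Tree), Y.DP → ∀ x y : Y.Cl, Y.sq x = -1 → Y.sq y = -1 → Y.ip Y.L x = 1 →
    Y.ip Y.L y = 1 → Y.ip x y ≤ 5 / 3
  nef0 : ∀ (Y : Tree), Y.DP → ∀ H : Y.Cl, Y.pr Y.T0 H = H → 0 ≤ Y.sq H → 0 ≤ Y.ip Y.L H →
    (∀ i, Y.Line i ∨ Y.Root i → 0 ≤ Y.ip H (Y.gam i)) → Y.Nef H
  lr : ∀ (Y : Tree), Y.DP → ∀ C R, Y.Line C → Y.Root R →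
    Y.ip0 (Y.gam C) (Y.gam R) = 0 ∨ Y.ip0 (Y.gam C) (Y.gam R) = 1
  dec : ∀ (Y : Tree), Y.DP → ∀ x : Y.Cl, Y.IsInt x → Y.pr Y.T0 x = x → Y.sq x = -1 →
    Y.ip Y.L x = 1 → ∃ (l : Y.I) (J : Finset Y.I), Y.Line l ∧ J.card ≤ 2 ∧
      (∀ R ∈ J, Y.Root R ∧ Y.ip0 (Y.gam l) (Y.gam R) = 1) ∧
      x = Y.pr Y.T0 (Y.gam l + ∑ R ∈ J, Y.gam R)
  push : ∀ (Y : Tree), Y.DP → ∀ (B : Y.I →₀ ℝ) (C : Y.I) (Φ : Finset Y.I), 0 ≤ B →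
    Y.Nef (Y.L - Y.cl B) → Y.On Y.T0 C → (∀ F ∈ Φ, Y.On Y.T0 F ∧ F ≠ C) →
    Y.ip (Y.L - Y.cl B) (Y.gam C) ≤ Y.brk C Φ B

/-- Zariski decompositions. -/
structure St_ZAR : Prop where
  least : ∀ (Y : Tree), Y.Plane → ∀ D0 B0, Y.Feas D0 B0 → B0 ≤ Y.bmin D0 B0 ∧
    Y.dmin D0 B0 = D0 - Y.cl (Y.bmin D0 B0) ∧ Y.Nef (Y.dmin D0 B0) ∧
    (∀ B, B0 ≤ B → Y.Nef (D0 - Y.cl B) → Y.bmin D0 B0 ≤ B) ∧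
    ∀ i, B0 i < Y.bmin D0 B0 i → Y.ip (Y.dmin D0 B0) (Y.gam i) = 0
  nef : ∀ (Y : Tree), Y.Plane → ∀ D0 B0, Y.Nef (Y.dmin D0 B0)
  absorb : ∀ (Y : Tree), Y.Plane → ∀ D0 B0 B1 B2, Y.Feas D0 B2 → B0 ≤ Y.bmin D0 B2 →
    B1 ≤ Y.bmin D0 B2 → B2 ≤ B0 ⊔ B1 → Y.Feas D0 B0 ∧ Y.Feas D0 (Y.bmin D0 B0 ⊔ B1) ∧
      Y.bmin D0 (Y.bmin D0 B0 ⊔ B1) = Y.bmin D0 B2
  tight : ∀ (Y : Tree), Y.Plane → ∀ D0 B1 F x, 0 ≤ B1 → Y.Nef (D0 - Y.cl B1) → B1 F ≤ x →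
    Y.Feas D0 (B1 ⊔ Finsupp.single F x) → Y.bmin D0 (B1 ⊔ Finsupp.single F x) F = x
  self : ∀ (Y : Tree), Y.Plane → ∀ D0 B1 F, 0 ≤ B1 → Y.Nef (D0 - Y.cl B1) →
    Y.hf D0 B1 F (B1 F) = Y.ip (D0 - Y.cl B1) (Y.gam F)
  bound : ∀ (Y : Tree), Y.Plane → ∀ D0 B1 B F, 0 ≤ B1 → B1 ≤ B → Y.Nef (D0 - Y.cl B) →
    Y.ip (D0 - Y.cl B) (Y.gam F) ≤ Y.hf D0 B1 F (B F)
  anti : ∀ (Y : Tree), Y.Plane → ∀ D0 B1 B2 F x, 0 ≤ B1 → B1 ≤ B2 → Y.Nef (D0 - Y.cl B2) →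
    B2 F ≤ x → Y.hf D0 B2 F x ≤ Y.hf D0 B1 F x
  conc : ∀ (Y : Tree), Y.Plane → ∀ D0 B B1 B2 F (x1 x2 a b : ℝ), 0 ≤ a → 0 ≤ b → a + b = 1 →
    0 ≤ B → 0 ≤ B1 → 0 ≤ B2 → B ≤ a • B1 + b • B2 → Y.Nef (D0 - Y.cl B1) → Y.Nef (D0 - Y.cl B2) →
    B1 F ≤ x1 → B2 F ≤ x2 → Y.Feas D0 (B1 ⊔ Finsupp.single F x1) →
    Y.Feas D0 (B2 ⊔ Finsupp.single F x2) → Y.Feas D0 (B ⊔ Finsupp.single F (a * x1 + b * x2)) ∧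
      a * Y.hf D0 B1 F x1 + b * Y.hf D0 B2 F x2 ≤ Y.hf D0 B F (a * x1 + b * x2)
  intg : ∀ (Y : Tree), Y.Plane → ∀ D0 B1 F (u v : ℝ), 0 ≤ B1 → Y.Nef (D0 - Y.cl B1) → B1 F ≤ u →
    B1 F ≤ v → IntervalIntegrable (Y.hf D0 B1 F) volume u v
  vol : ∀ (Y : Tree), Y.DP → ∀ G, Antitone (Y.volf G) ∧ (∀ x, 0 ≤ Y.volf G x) ∧
    ∀ B x, 0 ≤ B → Y.Nef (Y.L - Y.cl B) → x ≤ B G → Y.sq (Y.L - Y.cl B) ≤ Y.volf G x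

/-- The volume decreases at least by the restricted volumes. -/
structure St_PF : Prop where
  multi : ∀ (Y : Tree), Y.Plane → ∀ D0 B1 (S : Finset Y.I) (x : Y.I → ℝ) (c : ℝ), 0 ≤ B1 →
    Y.Nef (D0 - Y.cl B1) → (∀ j ∈ S, B1 j ≤ x j) → Y.Feas D0 (B1 ⊔ Y.dv S x) →
    (∀ s ∈ Set.Icc (0 : ℝ) 1, ∀ j ∈ S, Y.hf D0 B1 j (B1 j + s * (x j - B1 j)) ≤
      Y.ip (Y.dmin D0 (B1 ⊔ Y.dv S fun i => B1 i + s * (x i - B1 i))) (Y.gam j) + c) →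
    ∑ j ∈ S, ∫ u in B1 j..x j, Y.hf D0 B1 j u ≤
      (Y.sq (D0 - Y.cl B1) - Y.sq (Y.dmin D0 (B1 ⊔ Y.dv S x))) / 2 + c * ∑ j ∈ S, (x j - B1 j)
  one : ∀ (Y : Tree), Y.Plane → ∀ D0 B1 F (u v : ℝ), 0 ≤ B1 → Y.Nef (D0 - Y.cl B1) → B1 F ≤ u →
    u ≤ v → 2 * ∫ w in u..v, Y.hf D0 B1 F w ≤ Y.sq (Y.dmin D0 (B1 ⊔ Finsupp.single F u))

/-- The volume is at most twice the integral of the restricted volume. -/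
def St_PR : Prop := ∀ (Y : Tree), Y.Plane → ∀ D0 B1 F (U : ℝ), 0 ≤ B1 → Y.Nef (D0 - Y.cl B1) →
  (∀ B, B1 ≤ B → Y.Nef (D0 - Y.cl B) → B F ≤ U) →
  Y.sq (D0 - Y.cl B1) ≤ 2 * ∫ w in B1 F..U, Y.hf D0 B1 F w

/-- Bounded perturbations of big classes. -/
def St_LIP : Prop := ∀ (c0 : ℕ) (ε : ℝ), 0 < ε → ∃ C : ℝ, 0 < C ∧ ∀ (Y : Tree), Y.DP →
  ∀ (Q : Finset Y.T) (S : Finset Y.I) (κ : ℝ) (B1 : Y.I →₀ ℝ) (x : Y.I → ℝ), Y.Closed Q →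
  Q.card ≤ c0 → (∀ q ∈ Q, Y.disc q ≤ 48) → S.card ≤ c0 → (∀ j ∈ S, Y.On Q j ∧ Y.sz j ≤ 12) →
  C ≤ κ → 0 ≤ B1 → Y.Nef (κ • Y.L - Y.cl B1) → ε * κ ^ 2 ≤ Y.sq (κ • Y.L - Y.cl B1) →
  (∀ j ∈ S, x j ≤ B1 j + 49) → Y.Feas (κ • Y.L) (B1 ⊔ Y.dv S x) ∧
    Y.sq (κ • Y.L - Y.cl B1) ≤ 4 * Y.sq (Y.dmin (κ • Y.L) (B1 ⊔ Y.dv S x)) ∧
    ∀ i, Y.On Q i → Y.bmin (κ • Y.L) (B1 ⊔ Y.dv S x) i ≤ B1 i + C ∧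
      Y.ip (κ • Y.L - Y.cl B1) (Y.gam i) ≤
        Y.ip (Y.dmin (κ • Y.L) (B1 ⊔ Y.dv S x)) (Y.gam i) + C * Y.sz i ∧
      Y.ip (Y.dmin (κ • Y.L) (B1 ⊔ Y.dv S x)) (Y.pr Q (Y.gam i)) ≤
        Y.ip (κ • Y.L - Y.cl B1) (Y.pr Q (Y.gam i)) + C * Y.sz i

/-- Only boundedly many exceptional curves have large normalised order. -/
def St_BQ : Prop := ∃ c0 : ℕ, ∀ (Y : Tree), Y.DP → ∀ (κ : ℝ) (B : Y.I →₀ ℝ), 0 < κ → 0 ≤ B →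
  Y.Nef (κ • Y.L - Y.cl B) → (∀ i, B i ≤ 24 / 25 * κ * Y.A i) → ∃ Q, Y.QOK κ c0 B Q

structure St_ENV : Prop where
  prob : ∀ (o : ℕ → ℕ) (a b : ℕ) (t : ℝ), t ∈ Set.Icc (a : ℝ) b →
    ∃ θ, Prob a b θ t ∧ env o a b t = ∑ i ∈ Icc a b, θ i * o i
  le : ∀ (o : ℕ → ℕ) (a b : ℕ) (t : ℝ) (θ : ℕ → ℝ), Prob a b θ t →
    env o a b t ≤ ∑ i ∈ Icc a b, θ i * o i
  conv : ∀ (o : ℕ → ℕ) (a b : ℕ), a ≤ b → ConvexOn ℝ (Set.Icc (a : ℝ) b) (env o a b) ∧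
    ContinuousOn (env o a b) (Set.Icc (a : ℝ) b) ∧ PL (env o a b) a b ∧ env o a b a = o a ∧
    ∀ a' : ℕ, a ≤ a' → ∀ t ∈ Set.Icc (a' : ℝ) b, env o a b t ≤ env o a' b t
  mono : ∀ (o : ℕ → ℕ) (a b : ℕ), MonotoneOn o (Set.Icc a b) →
    MonotoneOn (env o a b) (Set.Icc (a : ℝ) b) ∧ ∀ t ∈ Set.Icc (a : ℝ) b, env o a b t ≤ o ⌈t⌉₊
  round : ∀ (o : ℕ → ℕ) (b m s : ℕ), MonotoneOn o (Set.Icc 0 b) → 0 < m → s ≤ m * b →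
    ∃ n : Fin m → ℕ, (∀ l, n l ≤ b) ∧ s ≤ ∑ l, n l ∧
      ∑ l, (o (n l) : ℝ) ≤ m * env o 0 b (s / m) + (b + 1) * o b

/-- The envelope classes. -/
def St_PT : Prop := ∀ (Y : Tree), Y.Plane → ∀ (k : ℕ) (S : Sec Y k) (U : ℕ → Submodule ℂ S.V)
  (a b : ℕ), S.Filt U b → a ≤ b →
  (∀ i, MonotoneOn (fun n => S.base (U n) i) (Set.Icc a b)) ∧
  (∀ t ∈ Set.Icc (a : ℝ) b, (∀ i, S.Bh U a b t i = env (fun n => S.base (U n) i) a b t) ∧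
    toR (S.base (U a)) ≤ S.Bh U a b t ∧ S.Bh U a b t ≤ toR (S.base (U ⌈t⌉₊)) ∧
    Y.Nef (S.Pt U a b t) ∧ Y.sq (S.mov (U ⌈t⌉₊)) ≤ Y.sq (S.Pt U a b t)) ∧
  S.Bh U a b a = toR (S.base (U a)) ∧ MonotoneOn (S.Bh U a b) (Set.Icc (a : ℝ) b) ∧
  (∀ D, ContinuousOn (fun t => Y.ip D (S.Pt U a b t)) (Set.Icc (a : ℝ) b)) ∧
  ContinuousOn (fun t => Y.sq (S.Pt U a b t)) (Set.Icc (a : ℝ) b) ∧
  AntitoneOn (fun t => Y.sq (S.Pt U a b t)) (Set.Icc (a : ℝ) b) ∧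
  ConcaveOn ℝ (Set.Icc (a : ℝ) b) (fun t => Real.sqrt (Y.sq (S.Pt U a b t))) ∧
  (∀ s ∈ Set.Icc (a : ℝ) b, ∀ t ∈ Set.Icc s b,
    (b - t) ^ 2 * Y.sq (S.Pt U a b s) ≤ (b - s) ^ 2 * Y.sq (S.Pt U a b t)) ∧
  ∀ a' : ℕ, a ≤ a' → ∀ t ∈ Set.Icc (a' : ℝ) b, Y.sq (S.Pt U a' b t) ≤ Y.sq (S.Pt U a b t)

/-- Real analysis. -/
structure St_RA : Prop where
  cheb : ∀ (α β H : ℝ) (a : ℝ → ℕ) (a0 : ℕ) (b m : ℝ → ℝ), α ≤ β → MonotoneOn a (Set.Ioc α β) →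
    ConvexOn ℝ (Set.Icc α β) b → ContinuousOn b (Set.Icc α β) → MonotoneOn b (Set.Icc α β) →
    b α ≤ a0 → (∀ t ∈ Set.Ioc α β, b t ≤ a t ∧ 0 ≤ m t ∧ m t ≤ H) →
    (∀ s ∈ Set.Ioc α β, ∀ t ∈ Set.Ioc α β, s ≤ t → a s = a t → m t ≤ m s) →
    IntervalIntegrable (fun t => if a0 < a t then (min (a t - b t) 1 - 1 / 2) * m t else 0)
      volume α β ∧ 0 ≤ ∫ t in α..β, if a0 < a t then (min (a t - b t) 1 - 1 / 2) * m t else 0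
  jen : ∀ (a b : ℕ) (e p φ : ℝ → ℝ), a ≤ b → ConvexOn ℝ (Set.Icc (a : ℝ) b) e →
    MonotoneOn e (Set.Icc (a : ℝ) b) → PL e a b → AntitoneOn p (Set.Icc (a : ℝ) b) → Antitone φ →
    (∀ t ∈ Set.Icc (a : ℝ) b, 0 ≤ p t ∧ p t ≤ 1 ∧ p t ≤ φ (e t)) →
    e (a + ∫ t in (a : ℝ)..b, p t) ≤ e a + ∫ x in e a..e b, φ x
  riem : ∀ (h : ℝ → ℝ) (b H : ℝ) (c n : ℕ), 0 ≤ b → b ≤ c → 0 < n → ConcaveOn ℝ (Set.Icc b c) h →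
    (∀ x ∈ Set.Icc b c, 0 ≤ h x ∧ h x ≤ H) →
    (∑ m ∈ Ioc ⌊n * b⌋₊ (n * c), h (m / n)) / n ≤ (∫ x in b..c, h x) + 3 * H / n
  conc : ∀ (a b : ℝ) (g : ℝ → ℝ), a ≤ b → ConcaveOn ℝ (Set.Icc a b) g →
    ContinuousOn g (Set.Icc a b) → AntitoneOn g (Set.Icc a b) →
    (∀ t ∈ Set.Icc a b, 0 ≤ g t ∧ g t ≤ 1) → 3 / 4 ≤ g a → 3 / 8 ≤ g (a + ∫ t in a..b, g t ^ 2)
  abel : ∀ (a b : ℝ) (z φ : ℝ → ℝ), a ≤ b → IntervalIntegrable z volume a b →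
    ContinuousOn φ (Set.Icc a b) → (∀ u ∈ Set.Icc a b, ∫ w in u..b, z w ≤ φ u) →
    ∫ u in a..b, (u - a) * z u ≤ ∫ u in a..b, φ u

/-- The column lemma. -/
def St_COL : Prop := ∀ (α β H : ℝ) (b : ℝ → ℝ) (h : ℝ × ℝ → ℝ) (D : Set (ℝ × ℝ)) (i0 R n : ℕ),
  α ≤ β → 0 < R → 0 < n → ConvexOn ℝ (Set.Icc α β) b → ContinuousOn b (Set.Icc α β) →
  MonotoneOn b (Set.Icc α β) → b α = i0 → ConcaveOn ℝ D h →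
  (∀ t ∈ Set.Icc α β, ∀ x ∈ Set.Icc (b t) (b t + R + 1), (x, t) ∈ D) →
  (∀ p ∈ D, 0 ≤ h p ∧ h p ≤ H) →
  (∀ x s t, (x, s) ∈ D → (x, t) ∈ D → s ≤ t → h (x, t) ≤ h (x, s)) →
  IntervalIntegrable (fun t => colV (fun x => h (x, t)) (b t) i0 R n) volume α β ∧
    -((β - α) * (max 0 (h (i0 + 1, α) - h (i0, α)) / 6 + (R + 2) * H / n)) ≤
      ∫ t in α..β, colV (fun x => h (x, t)) (b t) i0 R n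

/-- The tangent inequality. -/
def St_TAN : Prop := ∀ (Y : Tree), Y.Plane → ∀ (k : ℕ) (S : Sec Y k) (U : ℕ → Submodule ℂ S.V)
  (a b : ℕ) (c : ℝ), S.Filt U b → c ∈ Set.Icc (a : ℝ) b →
  IntervalIntegrable (fun t => Y.ip (S.Pt U a b t)
    (Y.cl (S.Bo (U a) (S.Bh U a b t) (S.Bh U a b c)))) volume a b ∧
  ∫ t in (a : ℝ)..b, Y.ip (S.Pt U a b t)
      (Y.cl (S.Bh U a b t - S.Bo (U a) (S.Bh U a b t) (S.Bh U a b c))) ≤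
    ((∫ t in (a : ℝ)..b, Y.sq (S.Pt U a b t)) - (c - a) * Y.sq (S.mov (U a))) / 2

/-- Inversion of adjunction. -/
structure St_INVL : Prop where
  pt : ∀ (Y : Tree), Y.DP → ∀ C q p, Y.On Y.T0 C → (∀ q' ∉ Y.T0, (Y.gam C).2 q' ≤ 1) → Y.Base q p →
    0 < (Y.gam C).2 p → ∃ o : ℝ, 0 ≤ o ∧ o ≤ Y.A (.inr q) ∧ ∀ (Φ : Finset Y.I) (B : Y.I →₀ ℝ),
      (∀ F ∈ Φ, Y.On Y.T0 F ∧ F ≠ C ∧ (Y.gam F).2 p = 0) → 0 ≤ B → Y.Nef (Y.L - Y.cl B) →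
      B (.inr q) ≤ B C * o + (Y.A (.inr q) - o) * (Y.brk C Φ B - Y.ip (Y.L - Y.cl B) (Y.gam C))
  base : ∀ (Y : Tree), Y.DP → ∀ q ∉ Y.T0, ∃ p, Y.Base q p

/-- The estimate of Abban and Zhuang for a given flag. -/
def St_AZR : Prop := ∀ (Y : Tree), Y.DP → ∀ (G C : Y.I) (Φ : Finset Y.I) (o a X : ℝ), 0 ≤ o →
  0 ≤ a → 0 ≤ X → Y.On Y.T0 C → (∀ F ∈ Φ, Y.On Y.T0 F ∧ F ≠ C) → Y.FlagOK C Φ →
  (∀ B : Y.I →₀ ℝ, 0 ≤ B → Y.Nef (Y.L - Y.cl B) →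
    B G ≤ B C * o + a * (Y.brk C Φ B - Y.ip (Y.L - Y.cl B) (Y.gam C))) →
  ∫ x in (0 : ℝ)..X, Y.volf G x ≤ 17 / 6 * (o + a)

def St_FA : Prop := ∀ (Y : Tree), Y.DP → ∀ C, Y.Root C → ∃ l l', l ≠ l' ∧ Y.Line l ∧ Y.Line l' ∧
  Y.ip0 (Y.gam l) (Y.gam l') = 0 ∧ Y.FlagOK C {l} ∧ Y.FlagOK C {l'}

def St_FB : Prop := ∀ (Y : Tree), Y.DP → ∀ C, Y.Line C →
  ∃ Φ : Finset Y.I, (∀ F ∈ Φ, Y.Root F) ∧ Y.FlagOK C Φ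

def St_FC : Prop := ∀ (Y : Tree), Y.DP → ∀ C, Y.On Y.T0 C → Y.ip0 (Y.gam C) (Y.gam C) = 0 →
  Y.ip Y.L (Y.gam C) = 2 → ∃ Φ : Finset Y.I, (∀ F ∈ Φ, Y.Line F ∨ Y.Root F) ∧ Y.FlagOK C Φ

def St_AZ : Prop := ∀ (Y : Tree), Y.DP → ∀ (G : Y.I) (X : ℝ), 0 ≤ X →
  ∫ x in (0 : ℝ)..X, Y.volf G x ≤ 17 / 6 * Y.A G

/-- Small volume defect. -/
structure St_LOW : Prop where
  fM : ∀ (Y : Tree), Y.DP → ∀ (k : ℕ) (S : Sec Y k) (U : Submodule ℂ S.V), 1 ≤ k → U ≠ ⊥ →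
    0 ≤ S.fM U ∧ S.fM U ≤ 1 ∧ 0 ≤ Y.kap (S.mov U) ∧
    Y.ip (S.mov U) (Y.cl (toR (S.base U))) ≤ 3 * k ^ 2 * S.fM U ∧
    (S.fM U ≤ eta → (∀ i, (S.base U i : ℝ) ≤ k * Y.A i / 100) ∧
      k ^ 2 * S.fM U ≤ Y.ip (S.mov U) (Y.cl (toR (S.base U))) ∧
      (S.base U = 0 ∨ 1 ≤ 3 * k ^ 2 * S.fM U))
  top : ∀ (Y : Tree), Y.DP → ∀ (k : ℕ) (S : Sec Y k), 3 ≤ k → S.Good → S.base ⊤ = 0
  crude : ∀ (Y : Tree), Y.DP → ∀ (k : ℕ) (S : Sec Y k) (U : Submodule ℂ S.V), 1 ≤ k → S.RR →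
    (finrank ℂ U : ℝ) ≤ Y.sq (S.mov U) / 2 + 4 * k
  pen : ∀ (Y : Tree), Y.DP → ∀ (k : ℕ) (S : Sec Y k) (U : Submodule ℂ S.V) (Γ : Y.Pl), S.Col →
    U ≠ ⊥ → Y.ip (S.mov U) (Y.gam (.inl Γ)) = 0 → 0 ≤ Y.sq (Y.gam (.inl Γ)) →
    finrank ℂ U ≤ 3 * k + 1

/-- The envelope at the barycentre. -/
def St_LAM : Prop := ∀ (Y : Tree), Y.DP → ∀ (k : ℕ) (S : Sec Y k) (U : ℕ → Submodule ℂ S.V)
  (a b : ℕ) (c : ℝ), 1 ≤ k → S.Filt U b → a ≤ b → S.fM (U a) ≤ eta →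
  c = a + (∫ t in (a : ℝ)..b, Y.sq (S.Pt U a b t)) / (3 * k ^ 2) → c ∈ Set.Icc (a : ℝ) b ∧
    (∀ i, S.Bh U a b c i ≤ 24 / 25 * k * Y.A i) ∧ (k : ℝ) ^ 2 / 3 ≤ Y.sq (S.Pt U a b c)

/-- The zone of small defect. -/
def St_W1 : Prop := ∃ (k1 : ℕ) (ρ : ℝ), 0 < ρ ∧ ∀ k ≥ k1, ∀ (Y : Tree), Y.DP → ∀ (S : Sec Y k)
  (U : ℕ → Submodule ℂ S.V) (T a : ℕ), S.Good → S.Filt U T → U 0 = ⊤ → U 1 ≠ ⊤ → a ≤ T →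
  S.fM (U a) ≤ eta → ρ * ∑ n ∈ Ioc 0 a, (S.mu (U n) + 1 / k) ≤
    (∫ t in (0 : ℝ)..a, rat k * Y.sq (S.Pt U 0 T t)) - ∑ n ∈ Ioc 0 a, (finrank ℂ (U n) : ℝ)

/-- Counting dimensions column by column. -/
def St_PW1 : Prop := ∀ (Y : Tree), Y.Plane → ∀ (k : ℕ) (S : Sec Y k) (U1 : Submodule ℂ S.V)
  (Bt : Y.I →₀ ℝ) (SS : Finset Y.I), S.Col → 0 ≤ Bt → Bt ≤ toR (S.base U1) →
  (finrank ℂ U1 : ℝ) ≤ finrank ℂ (S.Up U1 Bt SS) +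
    ∑ j ∈ SS, ∑ i ∈ Ico ⌈Bt j⌉₊ (⌈Bt j⌉₊ + 48), (Y.hf ((k : ℝ) • Y.L) Bt j i + 1)

/-- The volume drop along the columns. -/
def St_PW2 : Prop := ∀ (c0 : ℕ) (ε : ℝ), 0 < ε → ∃ C : ℝ, 0 < C ∧ ∀ (k : ℕ) (Y : Tree), Y.DP →
  ∀ (S : Sec Y k) U0 U1 Bt Bc Q, C ≤ k → S.Ctx c0 ε U0 U1 Bt Bc Q →
  (Y.SS k Bc Q).card ≤ c0 + 12 ∧ (∀ j ∈ Y.SS k Bc Q, Y.On Q j ∧ Y.sz j ≤ 12 ∧ Y.A j ≤ 49 ∧
    (∀ x ∈ Set.Icc (Bt j) (Bt j + 49), Y.Feas ((k : ℝ) • Y.L) (Bt ⊔ Finsupp.single j x) ∧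
      0 ≤ Y.hf ((k : ℝ) • Y.L) Bt j x ∧ Y.hf ((k : ℝ) • Y.L) Bt j x ≤ 36 * k ∧
      Y.hf ((k : ℝ) • Y.L) Bt j (Bt j) ≤ Y.hf ((k : ℝ) • Y.L) Bt j x + C)) ∧
  Y.Feas ((k : ℝ) • Y.L) (Y.Xs Bt (Y.SS k Bc Q)) ∧
  ∑ j ∈ Y.SS k Bc Q, (∑ m ∈ Ioc ⌊k * Bt j⌋₊ (k * (⌈Bt j⌉₊ + 48)),
      Y.hf ((k : ℝ) • Y.L) Bt j (m / k)) / k ≤
    (Y.sq ((k : ℝ) • Y.L - Y.cl Bt) - Y.sq (Y.dmin ((k : ℝ) • Y.L) (Y.Xs Bt (Y.SS k Bc Q)))) / 2 + C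

/-- The local alternatives. -/
def St_PW3 : Prop := ∀ (c0 : ℕ) (ε : ℝ), 0 < ε → ∃ C : ℝ, 0 < C ∧ ∀ (k : ℕ) (Y : Tree), Y.DP →
  ∀ (S : Sec Y k) U0 U1 Bt Bc Q, C ≤ k → S.Ctx c0 ε U0 U1 Bt Bc Q →
  ∀ U', U' = S.Up U1 Bt (Y.SS k Bc Q) → U' ≠ ⊥ →
  ∀ BW, BW = Y.bmin ((k : ℝ) • Y.L) (Y.Xs Bt (Y.SS k Bc Q)) → BW ≤ toR (S.base U') ∧
    (∀ j ∈ Y.SS k Bc Q, 1 ≤ S.base U' j - BW j ∨ Y.ip (S.mov U') (Y.gam j) ≤ C ∨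
      (S.base U' j = ⌈Bt j⌉₊ + 48 ∧
        Y.ip (S.mov U') (Y.gam j) ≤ Y.hf ((k : ℝ) • Y.L) Bt j (⌈Bt j⌉₊ + 48 : ℕ))) ∧
    ∀ i ∉ Y.SS k Bc Q, i.isLeft → 3 / 4 * min (S.base U' i - Bt i) 1 * Y.ip (S.mov U') (Y.gam i) ≤
      (S.base U' i - BW i) * Y.ip (S.mov U') (Y.gam i) + C * Y.sz i

/-- The pointwise estimate. -/
def St_PW : Prop := ∃ ρ : ℝ, 0 < ρ ∧ ∀ (c0 : ℕ) (ε : ℝ), 0 < ε → ∃ C : ℝ, 0 < C ∧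
  ∀ (k : ℕ) (Y : Tree), Y.DP → ∀ (S : Sec Y k) U0 U1 Bt Bc Bb Q, C ≤ k → S.Good →
  S.Ctx c0 ε U0 U1 Bt Bc Q → 0 ≤ Bb → Y.Nef ((k : ℝ) • Y.L - Y.cl Bb) →
  (S.Up U1 Bt (Y.SS k Bc Q) ≠ ⊥ → toR (S.base (S.Up U1 Bt (Y.SS k Bc Q))) ≤ Bb) →
  ∀ z : ℝ, (z = 0 ∨ z = 1 ∧ 3 / 5 * k ^ 2 ≤ Y.sq ((k : ℝ) • Y.L - Y.cl Bt) ∧
    S.fM U0 ≤ eta / 2 ∧ eta < S.fM U1) →
  ∑ j ∈ Y.SS k Bc Q, colV (Y.hf ((k : ℝ) • Y.L) Bt j) (Bt j) (S.base U0 j) 48 k +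
      S.Psi U0 (S.Up U1 Bt (Y.SS k Bc Q)) Bt Bc Bb (Y.SS k Bc Q) + z * (ρ * k) -
      C * (1 + S.mu U0) ≤
    Y.sq ((k : ℝ) • Y.L - Y.cl Bt) / 2 + Y.ip ((k : ℝ) • Y.L - Y.cl Bt)
      ((k : ℝ) • Y.L - Y.cl (S.Bo U0 Bt Bc)) / (2 * k) - finrank ℂ U1

/-- The column terms have almost nonnegative integral. -/
def St_COLS : Prop := ∀ (c0 : ℕ) (ε : ℝ), 0 < ε → ∃ C : ℝ, 0 < C ∧ ∀ (k : ℕ) (Y : Tree), Y.DP →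
  ∀ (S : Sec Y k) (U : ℕ → Submodule ℂ S.V) (a T : ℕ) (β : ℝ) Bc Q, C ≤ k → S.Filt U T →
  β ∈ Set.Icc (a : ℝ) T → (∀ t ∈ Set.Icc (a : ℝ) β, S.Ctx c0 ε (U a) (U ⌈t⌉₊) (S.Bh U a T t) Bc Q) →
  IntervalIntegrable (fun t => ∑ j ∈ Y.SS k Bc Q, colV (Y.hf ((k : ℝ) • Y.L) (S.Bh U a T t) j)
    (S.Bh U a T t j) (S.base (U a) j) 48 k) volume a β ∧
  -(C * (1 + S.mu (U a)) * (β - a)) ≤ ∫ t in (a : ℝ)..β, ∑ j ∈ Y.SS k Bc Q,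
    colV (Y.hf ((k : ℝ) • Y.L) (S.Bh U a T t) j) (S.Bh U a T t j) (S.base (U a) j) 48 k

/-- The Chebyshev terms have nonnegative integral. -/
def St_PSI : Prop := ∀ (k : ℕ) (Y : Tree), Y.DP → ∀ (S : Sec Y k) (U : ℕ → Submodule ℂ S.V)
  (a T : ℕ) (β : ℝ) (Bc : Y.I →₀ ℝ) (SS : Finset Y.I), S.Filt U T → β ∈ Set.Icc (a : ℝ) T →
  0 ≤ Bc → ∃ Bb : Y.I →₀ ℝ, 0 ≤ Bb ∧ Y.Nef ((k : ℝ) • Y.L - Y.cl Bb) ∧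
    (∀ t ∈ Set.Icc (a : ℝ) β, S.Up (U ⌈t⌉₊) (S.Bh U a T t) SS ≠ ⊥ →
      toR (S.base (S.Up (U ⌈t⌉₊) (S.Bh U a T t) SS)) ≤ Bb) ∧
    IntervalIntegrable (fun t => S.Psi (U a) (S.Up (U ⌈t⌉₊) (S.Bh U a T t) SS) (S.Bh U a T t)
      Bc Bb SS) volume a β ∧
    0 ≤ ∫ t in (a : ℝ)..β, S.Psi (U a) (S.Up (U ⌈t⌉₊) (S.Bh U a T t) SS) (S.Bh U a T t) Bc Bb SS

/-- The zone of large defect. -/
def St_W2 : Prop := ∃ (ρ C : ℝ), 0 < ρ ∧ 0 < C ∧ ∀ (k : ℕ) (Y : Tree), Y.DP → ∀ (S : Sec Y k)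
  (U : ℕ → Submodule ℂ S.V) (T a T1 : ℕ), C ≤ k → S.Good → S.Filt U T → a ≤ T1 → T1 ≤ T →
  S.fM (U a) ≤ eta / 2 → S.fM (U T1) ≤ eta → (∀ n, T1 < n → n ≤ T → eta < S.fM (U n)) →
  ρ * k * (T - T1) - C * (1 + S.mu (U a)) * (T - a) ≤
    (∫ t in (a : ℝ)..T, rat k * Y.sq (S.Pt U a T t)) - ∑ n ∈ Ioc a T, (finrank ℂ (U n) : ℝ)

/-- The numerical core. -/
def St_CORE : Prop := ∃ k0 : ℕ, ∀ k ≥ k0, ∃ c : ℝ, 0 < c ∧ ∀ (Y : Tree), Y.DP → ∀ (S : Sec Y k)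
  (U : ℕ → Submodule ℂ S.V) (T : ℕ), S.Good → S.Filt U T → U 0 = ⊤ → U 1 ≠ ⊤ → 1 ≤ T →
  c + ∑ n ∈ Ioc 0 T, (finrank ℂ (U n) : ℝ) ≤ rat k * ∫ t in (0 : ℝ)..T, Y.sq (S.Pt U 0 T t)

/-- From high powers of the filtration to the envelope. -/
def St_G3N : Prop := ∀ (Y : Tree), Y.DP → ∀ (k : ℕ) (S : Sec Y k) (U : ℕ → Submodule ℂ S.V)
  (T m : ℕ) (B : ℕ → Y.I →₀ ℝ), S.Filt U T → 0 < m →
  (∀ s ≤ m * T, 0 ≤ B s ∧ Y.Nef (((m * k : ℕ) : ℝ) • Y.L - Y.cl (B s)) ∧ ∀ i (n : Fin m → ℕ),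
    (∀ l, n l ≤ T) → s ≤ ∑ l, n l → B s i ≤ ∑ l, (S.base (U (n l)) i : ℝ)) →
  (m : ℝ) ^ 3 * ∫ t in (0 : ℝ)..T, Y.sq (S.Pt U 0 T t) ≤ 12 * (T + 1) ^ 2 * k ^ 2 * m ^ 2 +
    ∑ s ∈ Ioc 0 ((m - 1) * T), Y.sq (((m * k : ℕ) : ℝ) • Y.L - Y.cl (B s))

end Pool.Agent.Lib.MP_a25055_ag
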