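import Mathlib
import Pool.Agent.Lib.MP_a25055_ag.Num

open Module Finset

noncomputable section

namespace Pool.Agent.Lib.MP_a25055_ag

namespace NAZ

open _root_.Pool.Agent.Lib.MP_a25055_ag.Tree MeasureTheory

variable {Y : Tree}

lemma ip0_eq (x y : Y.Cl) : Y.ip0 x y = Y.ip x (Y.pr Y.T0 y) := ip_pr _ _ _

lemma ip0_comm (x y : Y.Cl) : Y.ip0 x y = Y.ip0 y x := by
  rw [ip0_eq, ip_comm]; rfl

lemma ip0_sum (x y : Y.Cl) :
    Y.ip0 x y = x.1 * y.1 - ∑ q ∈ Y.T0, x.2 q * y.2 q := by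
  simp only [ip0, ip, pr, ite_mul, zero_mul]
  rw [Finset.sum_ite_mem, Finset.univ_inter]

lemma ipL_sum (y : Y.Cl) : Y.ip Y.L y = 3 * y.1 - ∑ q ∈ Y.T0, y.2 q := by
  simp only [ip, L, ite_mul, zero_mul, one_mul]
  rw [Finset.sum_ite_mem, Finset.univ_inter]

lemma line_ne_root {i j : Y.I} (hi : Y.Line i) (hj : Y.Root j) : i ≠ j := by
  rintro rfl
  have := hi.2.2; rw [hj.2.2] at this; norm_num at this

lemma ip0_int (hB : St_NB) (i j : Y.I) : ∃ z : ℤ, Y.ip0 (Y.gam i) (Y.gam j) = z := by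
  obtain ⟨h1, -, -, h4, -, h6⟩ := hB.int Y
  exact (h4 _ _ (h6 _ _ (h1 i)) (h1 j)).2.2

/-- every negative curve has a flag consisting of negative curves -/
lemma flag_neg (hFA : St_FA) (hFB : St_FB) (hY : Y.DP) {C : Y.I} (h : Y.Line C ∨ Y.Root C) :
    ∃ Φ : Finset Y.I, (∀ F ∈ Φ, (Y.Line F ∨ Y.Root F) ∧ F ≠ C) ∧ Y.FlagOK C Φ := by
  rcases h with h | h
  · obtain ⟨Φ, h1, h2⟩ := hFB Y hY C h
    exact ⟨Φ, fun F hF => ⟨Or.inr (h1 F hF), (line_ne_root h (h1 F hF)).symm⟩, h2⟩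
  · obtain ⟨l, l', -, h1, -, -, h2, -⟩ := hFA Y hY C h
    refine ⟨{l}, fun F hF => ?_, h2⟩
    rw [Finset.mem_singleton.1 hF]
    exact ⟨Or.inl h1, line_ne_root h1 h⟩

lemma on_of_neg {C : Y.I} (h : Y.Line C ∨ Y.Root C) : Y.On Y.T0 C := h.elim (·.1) (·.1)

/-- an exceptional class that is positive on `G` gives a negative curve that meets `G` -/
lemma meet_of_exc (hB : St_NB) (hC : St_NC) (hY : Y.DP) (G : Y.I) {x : Y.Cl} (h1 : Y.IsInt x)
    (h2 : Y.pr Y.T0 x = x) (h3 : Y.sq x = -1) (h4 : Y.ip Y.L x = 1) (h5 : 0 < Y.ip x (Y.gam G)) :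
    ∃ C, (Y.Line C ∨ Y.Root C) ∧ 1 ≤ Y.ip0 (Y.gam G) (Y.gam C) := by
  obtain ⟨l, J, hl, -, hJ, e⟩ := hC.dec Y hY x h1 h2 h3 h4
  have e2 : Y.ip x (Y.gam G) =
      Y.ip0 (Y.gam l) (Y.gam G) + ∑ R ∈ J, Y.ip0 (Y.gam R) (Y.gam G) := by
    rw [e, ip_pr, ip_add_left, ip0_eq]
    congr 1
    rw [ip_comm, ← ipL_apply, map_sum]
    exact Finset.sum_congr rfl fun R _ => by rw [ipL_apply, ip0_eq, ip_comm]
  have key : ∃ C, (Y.Line C ∨ Y.Root C) ∧ 0 < Y.ip0 (Y.gam C) (Y.gam G) := by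
    by_contra hc
    push Not at hc
    have a1 := hc l (Or.inl hl)
    have a2 : ∑ R ∈ J, Y.ip0 (Y.gam R) (Y.gam G) ≤ 0 :=
      Finset.sum_nonpos fun R hR => hc R (Or.inr (hJ R hR).1)
    linarith
  obtain ⟨C, hC1, hC2⟩ := key
  refine ⟨C, hC1, ?_⟩
  rw [ip0_comm]
  obtain ⟨z, hz⟩ := ip0_int hB C G
  rw [hz] at hC2 ⊢
  exact_mod_cast (show (0 : ℤ) < z by exact_mod_cast hC2)

lemma meet (hB : St_NB) (hC : St_NC) (hY : Y.DP) (G : Y.I) (h : 0 < Y.ip Y.L (Y.gam G)) :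
    ∃ C, (Y.Line C ∨ Y.Root C) ∧ 1 ≤ Y.ip0 (Y.gam G) (Y.gam C) := by
  obtain ⟨q1, h1, q2, h2, h12⟩ := Finset.one_lt_card.1 (show 1 < Y.T0.card by rw [hY.card]; omega)
  set x1 : Y.Cl := (1, fun q => if q ∈ ({q1, q2} : Finset Y.T) then 1 else 0) with hx1
  set x2 : Y.Cl := (0, fun q => if q = q2 then -1 else 0) with hx2
  set x3 : Y.Cl := (2, fun q => if q ∈ Y.T0.erase q1 then 1 else 0) with hx3
  have hs : ({q1, q2} : Finset Y.T) ⊆ Y.T0 := by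
    intro q hq
    rcases Finset.mem_insert.1 hq with rfl | hq
    · exact h1
    · rw [Finset.mem_singleton.1 hq]; exact h2
  have c2 : ({q1, q2} : Finset Y.T).card = 2 := Finset.card_pair h12
  have c5 : (Y.T0.erase q1).card = 5 := by rw [Finset.card_erase_of_mem h1, hY.card]
  have e : Y.L = x1 + x2 + x3 := by
    refine Prod.ext (by simp only [L, hx1, hx2, hx3, Prod.fst_add]; norm_num) ?_
    funext q
    simp only [L, hx1, hx2, hx3, Prod.snd_add, Pi.add_apply, Finset.mem_insert,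
      Finset.mem_singleton, Finset.mem_erase]
    by_cases a1 : q = q1
    · subst a1; simp [h1, h12]
    · by_cases a2 : q = q2
      · subst a2; simp [h2, a1]
      · simp [a1, a2]
  have ind : ∀ (d : ℤ) (s : Finset Y.T), s ⊆ Y.T0 → ∀ x : Y.Cl,
      x = ((d : ℝ), fun q => if q ∈ s then 1 else 0) → Y.IsInt x ∧ Y.pr Y.T0 x = x ∧
        Y.sq x = d * d - s.card ∧ Y.ip Y.L x = 3 * d - s.card := by
    rintro d s hs x rfl
    refine ⟨⟨⟨d, rfl⟩, fun q => ⟨if q ∈ s then 1 else 0, by simp⟩⟩, ?_, ?_, ?_⟩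
    · refine Prod.ext rfl ?_
      funext q
      by_cases a : q ∈ s
      · simp [pr, a, hs a]
      · simp [pr, a]
    · simp [Tree.sq, ip]
    · rw [ipL_sum]
      simp [Finset.inter_eq_right.2 hs]
  rw [e, ip_add_left, ip_add_left] at h
  by_cases p1 : 0 < Y.ip x1 (Y.gam G)
  · obtain ⟨a1, a2, a3, a4⟩ := ind 1 _ hs x1 (by simp [hx1])
    refine meet_of_exc hB hC hY G a1 a2 ?_ ?_ p1
    · rw [a3, c2]; norm_num
    · rw [a4, c2]; norm_num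
  by_cases p3 : 0 < Y.ip x3 (Y.gam G)
  · obtain ⟨a1, a2, a3, a4⟩ := ind 2 _ (Finset.erase_subset q1 _) x3 (by simp [hx3])
    refine meet_of_exc hB hC hY G a1 a2 ?_ ?_ p3
    · rw [a3, c5]; norm_num
    · rw [a4, c5]; norm_num
  refine meet_of_exc hB hC hY G (x := x2) ⟨⟨0, by simp [hx2]⟩,
    fun q => ⟨if q = q2 then -1 else 0, by by_cases a : q = q2 <;> simp [hx2, a]⟩⟩ ?_ ?_ ?_
    (by linarith)
  · refine Prod.ext rfl ?_
    funext q
    by_cases a : q = q2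
    · simp [pr, hx2, a, h2]
    · simp [pr, hx2, a]
  · simp [Tree.sq, ip, hx2]
  · rw [ipL_sum]; simp [hx2, h2]

lemma on_case (hB : St_NB) (hC : St_NC) (hR : St_AZR) (hFA : St_FA) (hFB : St_FB) (hY : Y.DP)
    {G : Y.I} (hG : Y.On Y.T0 G) {X : ℝ} (hX : 0 ≤ X) :
    ∫ x in (0 : ℝ)..X, Y.volf G x ≤ 17 / 6 := by
  classical
  by_cases h : Y.Line G ∨ Y.Root G
  · obtain ⟨Φ, h1, h2⟩ := flag_neg hFA hFB hY h
    have := hR Y hY G G Φ 1 0 X zero_le_one le_rfl hX hG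
      (fun F hF => ⟨on_of_neg (h1 F hF).1, (h1 F hF).2⟩) h2 (fun B _ _ => by simp)
    simpa using this
  have hL : 0 < Y.ip Y.L (Y.gam G) :=
    lt_of_le_of_ne (hY.nefL G) fun e => h (Or.inr ((hC.triv Y hY G hG).1 e.symm))
  obtain ⟨C, c1, c2⟩ := meet hB hC hY G hL
  obtain ⟨Φ, h1, h2⟩ := flag_neg hFA hFB hY c1
  have hn : G ∉ Φ := fun a => h (h1 G a).1
  have := hR Y hY G C Φ 0 1 X le_rfl zero_le_one hX (on_of_neg c1)
    (fun F hF => ⟨on_of_neg (h1 F hF).1, (h1 F hF).2⟩) h2 (fun B b1 b2 => by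
      have p := hC.push Y hY B C (insert G Φ) b1 b2 (on_of_neg c1) (fun F hF => by
        rcases Finset.mem_insert.1 hF with rfl | hF
        · exact ⟨hG, fun e => h (e ▸ c1)⟩
        · exact ⟨on_of_neg (h1 F hF).1, (h1 F hF).2⟩)
      simp only [brk, Finset.sum_insert hn] at p ⊢
      have b3 : 0 ≤ B G := b1 G
      nlinarith [mul_le_mul_of_nonneg_left c2 b3])
  simpa using this

lemma exc_neg {p : Y.T} (hp : p ∈ Y.T0) : Y.ip0 (Y.gam (.inr p)) (Y.gam (.inr p)) < 0 := by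
  rw [ip0_sum]
  have h0 : p ∉ Y.prox p := fun a => lt_irrefl _ (Y.prox_dep _ _ a)
  have h1 := Finset.single_le_sum (f := fun q => (Y.gam (.inr p)).2 q * (Y.gam (.inr p)).2 q)
    (fun q _ => mul_self_nonneg _) hp
  have h2 : (Y.gam (.inr p)).2 p = -1 := by simp [gam, h0]
  have h3 : (Y.gam (.inr p)).1 = 0 := rfl
  rw [h2] at h1
  rw [h3]; linarith

/-- the line of the plane through two proper points -/
lemma exists_line (hA : St_NA) (hY : Y.Plane) {p q : Y.T} (hpq : p ≠ q) (hp : Y.prox p = ∅)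
    (hq : Y.prox q = ∅) : ∃ Γ, Y.deg Γ = 1 ∧ 1 ≤ Y.mu Γ p ∧ 1 ≤ Y.mu Γ q := by
  classical
  set x : Y.Cl := (1, fun r => if r ∈ ({p, q} : Finset Y.T) then 1 else 0) with hx
  have c2 : ({p, q} : Finset Y.T).card = 2 := Finset.card_pair hpq
  obtain ⟨B, hB⟩ := hA.effZ Y hY x ⟨⟨1, by simp [hx]⟩,
    fun r => ⟨if r ∈ ({p, q} : Finset Y.T) then 1 else 0, by simp [hx]⟩⟩ (by simp [hx]) (by
      simp only [Tree.sq, ip, aK, hx, mul_one, one_mul, mul_ite, mul_zero,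
        Finset.sum_ite_mem, Finset.univ_inter, Finset.inter_self, Finset.sum_const, c2]
      norm_num)
  rw [cl_eq_sum _ (subset_refl _)] at hB
  set s := (toR B).support with hs
  have e1 : ∑ i ∈ s, (B i : ℝ) * (Y.gam i).1 = 1 := by
    have := congrArg Prod.fst hB
    simpa [Prod.fst_sum, hx] using this
  have e2 : ∀ r ∈ ({p, q} : Finset Y.T), Y.prox r = ∅ →
      ∃ Γ, Sum.inl Γ ∈ s ∧ 1 ≤ B (.inl Γ) ∧ 1 ≤ Y.mu Γ r := by
    intro r hr h0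
    have e : ∑ i ∈ s, (B i : ℝ) * (Y.gam i).2 r = 1 := by
      have := congrFun (congrArg Prod.snd hB) r
      simpa only [Prod.snd_sum, Finset.sum_apply, Prod.smul_snd, Pi.smul_apply, smul_eq_mul,
        toR_apply, hx, hr, if_true] using this
    by_contra hc
    push Not at hc
    have : ∑ i ∈ s, (B i : ℝ) * (Y.gam i).2 r ≤ 0 := by
      refine Finset.sum_nonpos fun i hi => ?_
      rcases i with Γ | r'
      · rcases Nat.eq_zero_or_pos (B (.inl Γ)) with a | a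
        · simp [a]
        · have := hc Γ hi a
          have m : Y.mu Γ r = 0 := by omega
          simp [gam, m]
      · refine mul_nonpos_of_nonneg_of_nonpos (Nat.cast_nonneg _) ?_
        simp only [gam, h0, Finset.notMem_empty, if_false]
        split_ifs <;> norm_num
    linarith
  have nn : ∀ i, 0 ≤ (B i : ℝ) * (Y.gam i).1 := fun i => by
    refine mul_nonneg (Nat.cast_nonneg _) ?_
    rcases i with Γ | r'
    · exact Nat.cast_nonneg _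
    · exact le_rfl
  have one : ∀ Γ, 1 ≤ B (.inl Γ) → (Y.deg Γ : ℝ) ≤ (B (.inl Γ) : ℝ) * (Y.gam (.inl Γ)).1 := by
    intro Γ h
    have : (1 : ℝ) ≤ B (.inl Γ) := by exact_mod_cast h
    exact le_mul_of_one_le_left (Nat.cast_nonneg _) this
  obtain ⟨Γ, a1, a2, a3⟩ := e2 p (by simp) hp
  obtain ⟨Γ', b1, b2, b3⟩ := e2 q (by simp) hq
  have d1 : (1 : ℝ) ≤ Y.deg Γ := by exact_mod_cast hY.deg_pos Γ
  have d2 : (1 : ℝ) ≤ Y.deg Γ' := by exact_mod_cast hY.deg_pos Γ'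
  have same : Γ = Γ' := by
    by_contra hne
    have hsub : ({Sum.inl Γ, Sum.inl Γ'} : Finset Y.I) ⊆ s := by
      intro i hi
      rcases Finset.mem_insert.1 hi with rfl | hi
      · exact a1
      · rw [Finset.mem_singleton.1 hi]; exact b1
    have := Finset.sum_le_sum_of_subset_of_nonneg
      (f := fun i => (B i : ℝ) * (Y.gam i).1) hsub fun i _ _ => nn i
    rw [Finset.sum_pair (fun a => hne (Sum.inl.inj a)), e1] at this
    linarith [one Γ a2, one Γ' b2]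
  subst same
  refine ⟨Γ, ?_, a3, b3⟩
  have := Finset.single_le_sum (f := fun i => (B i : ℝ) * (Y.gam i).1) (fun i _ => nn i) a1
  rw [e1] at this
  have d3 : (Y.deg Γ : ℝ) ≤ 1 := (one Γ a2).trans this
  exact_mod_cast le_antisymm d3 d1

/-- a curve through the point together with a flag away from the point -/
lemma flag_pt (hA : St_NA) (hB : St_NB) (hC : St_NC) (hFA : St_FA) (hFB : St_FB) (hFC : St_FC)
    (hY : Y.DP) {p : Y.T} (h1 : p ∉ Y.T0) (h2 : Y.prox p ⊆ Y.T0) :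
    ∃ (C : Y.I) (Φ : Finset Y.I), Y.On Y.T0 C ∧ (∀ q' ∉ Y.T0, (Y.gam C).2 q' ≤ 1) ∧
      0 < (Y.gam C).2 p ∧ (∀ F ∈ Φ, Y.On Y.T0 F ∧ F ≠ C ∧ (Y.gam F).2 p = 0) ∧ Y.FlagOK C Φ := by
  have nn : ∀ i, Y.On Y.T0 i → ∀ q ∉ Y.T0, 0 ≤ (Y.gam i).2 q := fun i hi q hq =>
    (((hB.prE Y hY.toPlane _ hY.closed i).2 hi).1 q hq).1
  by_cases a : ∃ C, Y.Root C ∧ 0 < (Y.gam C).2 p
  · obtain ⟨C, c1, c2⟩ := a
    have sm := hC.smooth Y hY C c1.1 (by rw [c1.2.1, c1.2.2]; norm_num)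
    obtain ⟨l, l', hne, l1, l2, l3, l4, l5⟩ := hFA Y hY C c1
    have i0 := (hC.inter0 Y hY l l' l1.1 l2.1 hne).2
    rw [l3] at i0
    have i1 := Finset.single_le_sum (f := fun q => (Y.gam l).2 q * (Y.gam l').2 q)
      (s := Y.T0ᶜ) (fun q hq => mul_nonneg (nn l l1.1 q (Finset.mem_compl.1 hq))
        (nn l' l2.1 q (Finset.mem_compl.1 hq))) (Finset.mem_compl.2 h1)
    have i2 : (Y.gam l).2 p * (Y.gam l').2 p = 0 :=
      le_antisymm (i1.trans i0) (mul_nonneg (nn l l1.1 p h1) (nn l' l2.1 p h1))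
    rcases mul_eq_zero.1 i2 with i3 | i3
    · refine ⟨C, {l}, c1.1, sm, c2, fun F hF => ?_, l4⟩
      rw [Finset.mem_singleton.1 hF]; exact ⟨l1.1, line_ne_root l1 c1, i3⟩
    · refine ⟨C, {l'}, c1.1, sm, c2, fun F hF => ?_, l5⟩
      rw [Finset.mem_singleton.1 hF]; exact ⟨l2.1, line_ne_root l2 c1, i3⟩
  push Not at a
  have a' : ∀ C, Y.Root C → (Y.gam C).2 p = 0 := fun C c => le_antisymm (a C c) (nn C c.1 p h1)
  by_cases b : ∃ C, Y.Line C ∧ 0 < (Y.gam C).2 p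
  · obtain ⟨C, c1, c2⟩ := b
    have sm := hC.smooth Y hY C c1.1 (by rw [c1.2.1, c1.2.2]; norm_num)
    obtain ⟨Φ, f1, f2⟩ := hFB Y hY C c1
    exact ⟨C, Φ, c1.1, sm, c2,
      fun F hF => ⟨(f1 F hF).1, (line_ne_root c1 (f1 F hF)).symm, a' F (f1 F hF)⟩, f2⟩
  push Not at b
  have b' : ∀ C, Y.Line C ∨ Y.Root C → (Y.gam C).2 p = 0 := fun C c =>
    c.elim (fun c => le_antisymm (b C c) (nn C c.1 p h1)) (a' C)
  have hp : Y.prox p = ∅ := by
    refine Finset.eq_empty_of_forall_notMem fun p' hp' => ?_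
    have e := b' (.inr p') (hC.neg Y hY _ (h2 hp') (exc_neg (h2 hp')))
    have ne : p ≠ p' := fun e => h1 (e ▸ h2 hp')
    simp [gam, hp', ne] at e
  obtain ⟨q1, hq1, hmin⟩ := Finset.exists_min_image Y.T0 Y.dep
    (Finset.card_pos.1 (by rw [hY.card]; omega))
  have hq : Y.prox q1 = ∅ := Finset.eq_empty_of_forall_notMem fun p' hp' =>
    absurd (hmin p' (hY.closed q1 hq1 hp')) (not_le.2 (Y.prox_dep _ _ hp'))
  obtain ⟨Γ, g1, g2, g3⟩ := exists_line hA hY.toPlane (fun e : p = q1 => h1 (e ▸ hq1)) hp hq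
  have m1 : ∀ q, Y.mu Γ q ≤ 1 := fun q => g1 ▸ hB.mu_le Y hY.toPlane Γ q
  have pos : 0 < (Y.gam (.inl Γ)).2 p := by
    change (0 : ℝ) < Y.mu Γ p
    exact_mod_cast g2
  have s1 : (1 : ℝ) ≤ ∑ q ∈ Y.T0, (Y.mu Γ q : ℝ) := by
    have := Finset.single_le_sum (f := fun q => (Y.mu Γ q : ℝ)) (fun q _ => Nat.cast_nonneg _) hq1
    have h3 : (1 : ℝ) ≤ Y.mu Γ q1 := by exact_mod_cast g3
    exact h3.trans this
  have e1 : Y.ip0 (Y.gam (.inl Γ)) (Y.gam (.inl Γ)) = 1 - ∑ q ∈ Y.T0, (Y.mu Γ q : ℝ) := by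
    rw [ip0_sum]
    simp only [gam, g1, Nat.cast_one, mul_one]
    congr 1
    refine Finset.sum_congr rfl fun q _ => ?_
    rcases Nat.le_one_iff_eq_zero_or_eq_one.1 (m1 q) with e | e <;> simp [e]
  have e2 : Y.ip Y.L (Y.gam (.inl Γ)) = 3 - ∑ q ∈ Y.T0, (Y.mu Γ q : ℝ) := by
    rw [ipL_sum]; simp only [gam, g1, Nat.cast_one, mul_one]
  have e3 : 0 ≤ Y.ip0 (Y.gam (.inl Γ)) (Y.gam (.inl Γ)) := by
    by_contra hc
    exact pos.ne' (b' _ (hC.neg Y hY (.inl Γ) trivial (not_le.1 hc)))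
  have e4 : Y.ip0 (Y.gam (.inl Γ)) (Y.gam (.inl Γ)) = 0 := by linarith
  obtain ⟨Φ, f1, f2⟩ := hFC Y hY (.inl Γ) trivial e4 (by linarith)
  refine ⟨.inl Γ, Φ, trivial, fun q' _ => ?_, pos,
    fun F hF => ⟨on_of_neg (f1 F hF), fun e => pos.ne' (e ▸ b' F (f1 F hF)), b' F (f1 F hF)⟩, f2⟩
  change (Y.mu Γ q' : ℝ) ≤ 1
  exact_mod_cast m1 q'

end NAZ

theorem az_of (hA : St_NA) (hB : St_NB) (hC : St_NC) (hI : St_INVL) (hR : St_AZR) (hFA : St_FA)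
    (hFB : St_FB) (hFC : St_FC) : St_AZ := by
  intro Y hY G X hX
  by_cases hG : Y.On Y.T0 G
  · have e : Y.A G = 1 := by
      rcases G with Γ | q
      · rfl
      · have hq : q ∈ Y.T0 := hG
        simp [Tree.A, Tree.disc_eq Y q, hq]
    rw [e, mul_one]
    exact NAZ.on_case hB hC hR hFA hFB hY hG hX
  rcases G with Γ | q
  · exact absurd trivial hG
  obtain ⟨p, hp⟩ := hI.base Y hY q hG
  obtain ⟨C, Φ, c1, c2, c3, c4, c5⟩ := NAZ.flag_pt hA hB hC hFA hFB hFC hY hp.2.1 hp.2.2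
  obtain ⟨o, o1, o2, o3⟩ := hI.pt Y hY C q p c1 c2 hp c3
  have := hR Y hY (.inr q) C Φ o (Y.A (.inr q) - o) X o1 (sub_nonneg.2 o2) hX c1
    (fun F hF => ⟨(c4 F hF).1, (c4 F hF).2.1⟩) c5 (fun B b1 b2 => o3 Φ B c4 b1 b2)
  simpa using this

end Pool.Agent.Lib.MP_a25055_ag
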