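import Pool.Agent.Lib.MP_a25055_ag.Num

/-! The estimate of Abban and Zhuang for a given flag. -/

open MeasureTheory

noncomputable section

namespace Pool.Agent.Lib.MP_a25055_ag

namespace NAZR

/-- The truncated profile. -/
def gg (z e p a x : ℝ) : ℝ := max 0 (min z (e - (x - p) / a))

lemma gg_nonneg (z e p a x : ℝ) : 0 ≤ gg z e p a x := le_max_left _ _

lemma gg_le {z : ℝ} (hz : 0 ≤ z) (e p a x : ℝ) : gg z e p a x ≤ z :=
  max_le hz (min_le_left _ _)

lemma gg_cont (z e p a : ℝ) : Continuous (gg z e p a) := by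
  unfold gg; fun_prop

lemma gg_int {z e p a X : ℝ} (ha : 0 < a) (hp : 0 ≤ p) (hz : 0 ≤ z) (hze : z = 0 ∨ z ≤ e)
    (_hX : 0 ≤ X) : ∫ x in (0 : ℝ)..X, gg z e p a x ≤ p * z + a * (z * (e - z / 2)) := by
  have hi : ∀ s t : ℝ, IntervalIntegrable (gg z e p a) volume s t := fun s t =>
    (gg_cont z e p a).intervalIntegrable s t
  rcases hze with rfl | hze
  · have : ∀ x, gg 0 e p a x = 0 := fun x => le_antisymm (gg_le le_rfl _ _ _ _) (gg_nonneg _ _ _ _ _)
    simp [this]
  set s := p + a * (e - z) with hs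
  set t := p + a * e with ht
  have hs0 : 0 ≤ s := add_nonneg hp (mul_nonneg ha.le (sub_nonneg.2 hze))
  have hst : s ≤ t := by rw [hs, ht]; nlinarith
  have h1 : ∫ x in (0 : ℝ)..X, gg z e p a x ≤ ∫ x in (0 : ℝ)..max X t, gg z e p a x := by
    rw [← intervalIntegral.integral_add_adjacent_intervals (hi 0 X) (hi X (max X t))]
    have := intervalIntegral.integral_nonneg (f := gg z e p a) (μ := volume) (le_max_left X t)
      fun x _ => gg_nonneg z e p a x
    linarith
  have h2 : ∫ x in (0 : ℝ)..s, gg z e p a x ≤ s * z := by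
    have := intervalIntegral.integral_mono_on hs0 (hi 0 s)
      (intervalIntegrable_const (c := z)) fun x _ => gg_le hz e p a x
    simpa using this
  have h3 : ∫ x in s..t, gg z e p a x ≤ a * (z ^ 2 / 2) := by
    have hc : Continuous fun x : ℝ => e - (x - p) / a := by fun_prop
    have h := intervalIntegral.integral_mono_on hst (hi s t) (hc.intervalIntegrable s t)
      fun x hx => by
        refine max_le ?_ (min_le_right _ _)
        rw [sub_nonneg, div_le_iff₀ ha]
        have := hx.2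
        rw [ht] at this
        linarith
    refine h.trans (le_of_eq ?_)
    have hd : ∀ x ∈ Set.uIcc s t,
        HasDerivAt (fun x : ℝ => e * x - (x - p) ^ 2 / (2 * a)) (e - (x - p) / a) x := by
      intro x _
      have h1 := ((hasDerivAt_id' x).const_mul e).fun_sub
        ((((hasDerivAt_id' x).sub_const p).fun_pow 2).div_const (2 * a))
      refine h1.congr_deriv ?_
      simp only [Nat.cast_ofNat, Nat.add_one_sub_one, pow_one, mul_one]
      field_simp
    rw [intervalIntegral.integral_eq_sub_of_hasDerivAt hd (hc.intervalIntegrable s t), hs, ht]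
    field_simp
    ring
  have h4 : ∫ x in t..max X t, gg z e p a x ≤ 0 := by
    have := intervalIntegral.integral_mono_on (le_max_right X t) (hi t (max X t))
      (intervalIntegrable_const (c := (0 : ℝ))) fun x hx => by
        refine max_le le_rfl ((min_le_right _ _).trans ?_)
        rw [sub_nonpos, le_div_iff₀ ha]
        have := hx.1
        rw [ht] at this
        linarith
    simpa using this
  have h5 := intervalIntegral.integral_add_adjacent_intervals (hi 0 s) (hi s t)
  have h6 := intervalIntegral.integral_add_adjacent_intervals (hi 0 t) (hi t (max X t))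
  have h7 : s * z + a * (z ^ 2 / 2) = p * z + a * (z * (e - z / 2)) := by rw [hs]; ring
  linarith

/-- The analytic part. -/
lemma swap {z η φ : ℝ → ℝ} {o a X U : ℝ} (ho : 0 ≤ o) (ha : 0 < a) (hX : 0 ≤ X) (hU : 0 ≤ U)
    (hη : Continuous η) (hz : IntervalIntegrable z volume 0 U) (hz0 : ∀ u, 0 ≤ z u)
    (hze : ∀ u ∈ Set.Icc 0 U, z u = 0 ∨ z u ≤ η u) (hφ : IntervalIntegrable φ volume 0 X)
    (h : ∀ x, φ x ≤ 2 * ∫ u in (0 : ℝ)..U, gg (z u) (η u) (u * o) a x) :
    ∫ x in (0 : ℝ)..X, φ x ≤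
      2 * (o * (∫ u in (0 : ℝ)..U, u * z u) + a * ∫ u in (0 : ℝ)..U, z u * (η u - z u / 2)) := by
  have hz1 : IntegrableOn z (Set.Ioc 0 U) volume :=
    (intervalIntegrable_iff_integrableOn_Ioc_of_le hU).1 hz
  have hI : Integrable (Function.uncurry fun x u => gg (z u) (η u) (u * o) a x)
      ((volume.restrict (Set.Ioc 0 X)).prod (volume.restrict (Set.Ioc 0 U))) := by
    have h1 : Integrable (fun p : ℝ × ℝ => z p.2)
        ((volume.restrict (Set.Ioc 0 X)).prod (volume.restrict (Set.Ioc 0 U))) :=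
      Integrable.comp_snd hz1 _
    have h2 : Continuous fun p : ℝ × ℝ => η p.2 - (p.1 - p.2 * o) / a := by fun_prop
    refine h1.mono' ?_ (Filter.Eventually.of_forall fun p => ?_)
    · exact aestronglyMeasurable_const.sup (h1.aestronglyMeasurable.inf h2.aestronglyMeasurable)
    · rw [Function.uncurry, Real.norm_of_nonneg (gg_nonneg _ _ _ _ _)]
      exact gg_le (hz0 _) _ _ _ _
  have hA : IntervalIntegrable (fun u => u * z u) volume 0 U :=
    hz.continuousOn_mul continuousOn_id
  have hB : IntervalIntegrable (fun u => z u * (η u - z u / 2)) volume 0 U := by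
    rw [intervalIntegrable_iff_integrableOn_Ioc_of_le hU]
    have h1 : IntegrableOn (fun u => η u ^ 2) (Set.Ioc 0 U) volume :=
      (intervalIntegrable_iff_integrableOn_Ioc_of_le hU).1 ((hη.pow 2).intervalIntegrable 0 U)
    refine Integrable.mono' h1 ?_ ?_
    · exact hz1.aestronglyMeasurable.mul (hη.aestronglyMeasurable.sub
        (hz1.div_const 2).aestronglyMeasurable)
    · refine (ae_restrict_iff' measurableSet_Ioc).2 (Filter.Eventually.of_forall fun u hu => ?_)
      rcases hze u (Set.Ioc_subset_Icc_self hu) with h1 | h1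
      · rw [h1]; simpa using sq_nonneg (η u)
      · have := hz0 u
        rw [Real.norm_of_nonneg (mul_nonneg this (by linarith))]
        nlinarith
  have h1 : ∫ x in (0 : ℝ)..X, φ x ≤
      ∫ x in (0 : ℝ)..X, 2 * ∫ u in (0 : ℝ)..U, gg (z u) (η u) (u * o) a x := by
    refine intervalIntegral.integral_mono_on hX hφ ?_ fun x _ => h x
    refine IntervalIntegrable.const_mul ?_ 2
    rw [intervalIntegrable_iff_integrableOn_Ioc_of_le hX]
    simp only [intervalIntegral.integral_of_le hU]
    exact hI.integral_prod_left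
  refine h1.trans ?_
  rw [intervalIntegral.integral_const_mul]
  refine mul_le_mul_of_nonneg_left ?_ zero_le_two
  have h2 : ∫ x in (0 : ℝ)..X, ∫ u in (0 : ℝ)..U, gg (z u) (η u) (u * o) a x =
      ∫ u in (0 : ℝ)..U, ∫ x in (0 : ℝ)..X, gg (z u) (η u) (u * o) a x := by
    simp only [intervalIntegral.integral_of_le hU, intervalIntegral.integral_of_le hX]
    exact integral_integral_swap hI
  rw [h2, ← intervalIntegral.integral_const_mul, ← intervalIntegral.integral_const_mul,
    ← intervalIntegral.integral_add (hA.const_mul o) (hB.const_mul a)]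
  refine intervalIntegral.integral_mono_on hU ?_ ((hA.const_mul o).add (hB.const_mul a))
    fun u hu => ?_
  · rw [intervalIntegrable_iff_integrableOn_Ioc_of_le hU]
    simp only [intervalIntegral.integral_of_le hX]
    exact hI.integral_prod_right
  · have := gg_int (e := η u) ha (mul_nonneg hu.1 ho) (hz0 u) (hze u hu) hX
    refine this.trans (le_of_eq ?_)
    ring

lemma hf_infeas {Y : Tree} {D0 : Y.Cl} {B1 : Y.I →₀ ℝ} {F : Y.I} {x : ℝ}
    (h : ¬ Y.Feas D0 (B1 ⊔ Finsupp.single F x)) : Y.hf D0 B1 F x = 0 := by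
  simp [Tree.hf, Tree.dmin, h]

lemma pos_case (hC : St_NC) (hZ : St_ZAR) (hP : St_PR) (Y : Tree) (hY : Y.DP) (G C : Y.I)
    (Φ : Finset Y.I) (o a X : ℝ) (ho : 0 ≤ o) (ha : 0 < a) (hX : 0 ≤ X) (hOn : Y.On Y.T0 C)
    (hΦ : ∀ F ∈ Φ, Y.On Y.T0 F ∧ F ≠ C) (hF : Y.FlagOK C Φ)
    (h : ∀ B : Y.I →₀ ℝ, 0 ≤ B → Y.Nef (Y.L - Y.cl B) →
      B G ≤ B C * o + a * (Y.brk C Φ B - Y.ip (Y.L - Y.cl B) (Y.gam C))) :
    ∫ x in (0 : ℝ)..X, Y.volf G x ≤ 17 / 6 * (o + a) := by
  obtain ⟨U, η, hU, hη, hB, h1, h2⟩ := hF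
  have hp := hY.toPlane
  have hL : Y.Nef (Y.L - Y.cl 0) := by simpa using hY.nefL
  have hz : ∀ s t : ℝ, 0 ≤ s → 0 ≤ t → IntervalIntegrable (Y.hf Y.L 0 C) volume s t :=
    fun s t hs ht => hZ.intg Y hp Y.L 0 C s t le_rfl hL hs ht
  have hz0 : ∀ u, 0 ≤ Y.hf Y.L 0 C u := fun u => hZ.nef Y hp _ _ C
  have hze : ∀ u ∈ Set.Icc 0 U, Y.hf Y.L 0 C u = 0 ∨ Y.hf Y.L 0 C u ≤ η u := by
    intro u hu
    by_cases hf : Y.Feas Y.L (0 ⊔ Finsupp.single C u)
    · right
      obtain ⟨a1, a2, a3, -, -⟩ := hZ.least Y hp _ _ hf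
      have a4 := hZ.tight Y hp Y.L 0 C u le_rfl hL hu.1 hf
      have a0 : 0 ≤ Y.bmin Y.L (0 ⊔ Finsupp.single C u) := le_sup_left.trans a1
      rw [a2] at a3
      have a5 := (hB _ a0 a3).2
      have a6 := hC.push Y hY _ C Φ a0 a3 hOn hΦ
      rw [a4] at a5
      rw [Tree.hf, a2]
      exact a6.trans a5
    · exact Or.inl (hf_infeas hf)
  have hg : ∀ x s t : ℝ, 0 ≤ s → 0 ≤ t →
      IntervalIntegrable (fun u => gg (Y.hf Y.L 0 C u) (η u) (u * o) a x) volume s t := by
    intro x s t hs ht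
    have hc : Continuous fun u : ℝ => η u - (x - u * o) / a := by fun_prop
    have h3 := hz s t hs ht
    have h4 := hc.intervalIntegrable (μ := volume) s t
    exact ⟨(integrable_zero _ _ _).sup (h3.1.inf h4.1), (integrable_zero _ _ _).sup (h3.2.inf h4.2)⟩
  have key : ∀ x, Y.volf G x ≤
      2 * ∫ u in (0 : ℝ)..U, gg (Y.hf Y.L 0 C u) (η u) (u * o) a x := by
    intro x
    by_cases hf : Y.Feas Y.L (0 ⊔ Finsupp.single G x)
    · obtain ⟨a1, a2, a3, -, -⟩ := hZ.least Y hp _ _ hf
      set B1 := Y.bmin Y.L (0 ⊔ Finsupp.single G x) with hB1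
      have a0 : 0 ≤ B1 := le_sup_left.trans a1
      have aG : x ≤ B1 G := by
        have := (le_sup_right.trans a1) G
        simpa using this
      rw [a2] at a3
      have b0 : 0 ≤ B1 C := a0 C
      have bU : B1 C ≤ U := (hB B1 a0 a3).1
      have b1 := hP Y hp Y.L B1 C U a0 a3 fun B h3 h4 => (hB B (a0.trans h3) h4).1
      rw [Tree.volf, a2]
      refine b1.trans (mul_le_mul_of_nonneg_left ?_ zero_le_two)
      rw [← intervalIntegral.integral_add_adjacent_intervals (hg x 0 (B1 C) le_rfl b0)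
        (hg x (B1 C) U b0 hU)]
      have b2 := intervalIntegral.integral_nonneg (μ := volume)
        (f := fun u => gg (Y.hf Y.L 0 C u) (η u) (u * o) a x) b0 fun u _ => gg_nonneg _ _ _ _ _
      have b3 : ∫ w in B1 C..U, Y.hf Y.L B1 C w ≤
          ∫ u in B1 C..U, gg (Y.hf Y.L 0 C u) (η u) (u * o) a x := by
        refine intervalIntegral.integral_mono_on bU (hZ.intg Y hp Y.L B1 C _ _ a0 a3 le_rfl bU)
          (hg x _ _ b0 hU) fun w hw => ?_
        by_cases hf' : Y.Feas Y.L (B1 ⊔ Finsupp.single C w)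
        · refine le_max_of_le_right (le_min (hZ.anti Y hp Y.L 0 B1 C w le_rfl a0 a3 hw.1) ?_)
          obtain ⟨c1, c2, c3, -, -⟩ := hZ.least Y hp _ _ hf'
          have c4 := hZ.tight Y hp Y.L B1 C w a0 a3 hw.1 hf'
          have c5 : B1 ≤ Y.bmin Y.L (B1 ⊔ Finsupp.single C w) := le_sup_left.trans c1
          rw [c2] at c3
          have c6 := (hB _ (a0.trans c5) c3).2
          have c7 := h _ (a0.trans c5) c3
          have c8 := c5 G
          rw [c4] at c6 c7
          rw [Tree.hf, c2, le_sub_comm, div_le_iff₀ ha]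
          nlinarith
        · rw [hf_infeas hf']
          exact gg_nonneg _ _ _ _ _
      linarith
    · have : Y.volf G x = 0 := by simp [Tree.volf, Tree.dmin, hf, Tree.sq]
      rw [this]
      exact mul_nonneg zero_le_two
        (intervalIntegral.integral_nonneg hU fun u _ => gg_nonneg _ _ _ _ _)
  have h3 := swap ho ha hX hU hη (hz 0 U le_rfl hU) hz0 hze
    ((hZ.vol Y hY G).1.intervalIntegrable) key
  have h4 := mul_le_mul_of_nonneg_left h1 ho
  have h5 := mul_le_mul_of_nonneg_left h2 ha.le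
  linarith

end NAZR

theorem azr_of (hC : St_NC) (hZ : St_ZAR) (hP : St_PR) : St_AZR := by
  intro Y hY G C Φ o a X ho ha hX hOn hΦ hF h
  refine le_of_forall_pos_le_add fun ε hε => ?_
  have := NAZR.pos_case hC hZ hP Y hY G C Φ o (a + 6 / 17 * ε) X ho (by positivity) hX hOn hΦ hF
    fun B h1 h2 => by
      have h3 := h B h1 h2
      have h4 := sub_nonneg.2 (hC.push Y hY B C Φ h1 h2 hOn hΦ)
      have h5 := mul_nonneg (by positivity : 0 ≤ 6 / 17 * ε) h4
      linarith
  linarith

end Pool.Agent.Lib.MP_a25055_ag
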