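import Pool.Agent.Lib.MP_a25055_ag.Num

/-! Block BQ: only boundedly many exceptional curves have large normalised order. -/

open Finset

noncomputable section

namespace Pool.Agent.Lib.MP_a25055_ag

namespace NBQ

variable {Y : Tree}

lemma ip_E (y : Y.Cl) (p : Y.T) :
    Y.ip y (Y.gam (.inr p)) = y.2 p - ∑ q with p ∈ Y.prox q, y.2 q := by
  simp [Tree.ip, Tree.gam, mul_sub, Finset.sum_sub_distrib, Finset.sum_filter]

lemma pair (h : Y.Plane) {p p' : Y.T} (hne : p ≠ p') :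
    #{q | p ∈ Y.prox q ∧ p' ∈ Y.prox q} ≤ 1 := by
  have h1 := h.inter (.inr p') (.inr p) (by simpa using hne.symm)
  rw [ip_E] at h1
  simp only [Tree.gam, Finset.sum_sub_distrib, Finset.sum_boole, Finset.filter_filter, if_neg hne,
    sub_zero] at h1
  have h2 : (#{q | p ∈ Y.prox q ∧ q = p'} : ℝ) = if p ∈ Y.prox p' then 1 else 0 := by
    split_ifs with h3
    · rw [show ({q | p ∈ Y.prox q ∧ q = p'} : Finset Y.T) = {p'} by ext q; aesop]; simp
    · rw [show ({q | p ∈ Y.prox q ∧ q = p'} : Finset Y.T) = ∅ by ext q; aesop]; simp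
  rw [h2] at h1
  have h4 : (#{q | p ∈ Y.prox q ∧ p' ∈ Y.prox q} : ℝ) ≤ 1 := by
    split_ifs at h1 with h5 h6 h6
    · have := Y.prox_dep _ _ h5
      have := Y.prox_dep _ _ h6
      omega
    all_goals linarith
  exact_mod_cast h4

/-- Descendants. -/
abbrev Ds (q a : Y.T) : Prop := Relation.ReflTransGen (fun a b => b ∈ Y.prox a) q a

lemma disc_off {q : Y.T} (hq : q ∉ Y.T0) :
    (Y.disc q : ℝ) = 1 + ∑ p ∈ Y.prox q \ Y.T0, (Y.disc p : ℝ) := by
  rw [Y.disc_eq, if_neg hq]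
  push_cast
  congr 1
  refine (Finset.sum_subset Finset.sdiff_subset fun p hp hp' => ?_).symm
  have : p ∈ Y.T0 := by
    by_contra h
    exact hp' (Finset.mem_sdiff.2 ⟨hp, h⟩)
  rw [Y.disc_eq, if_pos this, Nat.cast_zero]

lemma disc_lt {q p : Y.T} (hq : q ∉ Y.T0) (hp : p ∈ Y.prox q) : Y.disc p < Y.disc q := by
  rw [Y.disc_eq q, if_neg hq]
  have := Finset.single_le_sum (f := Y.disc) (fun _ _ => Nat.zero_le _) hp
  omega

lemma ds_off (hc : Y.Closed Y.T0) {q a : Y.T} (h : Ds q a) (ha : a ∉ Y.T0) : q ∉ Y.T0 := by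
  induction h using Relation.ReflTransGen.head_induction_on with
  | refl => exact ha
  | head h1 _ ih => exact fun h2 => ih (hc _ h2 h1)

lemma ds_prox (h : Y.Plane) (a : Y.T) : ∀ n q, Y.dep q = n → Ds q a → ∀ r ∈ Y.prox q,
    Ds r a ∨ r ∈ Y.prox a := by
  intro n
  induction n using Nat.strong_induction_on with
  | _ n ih =>
    intro q hn hq r hr
    rcases hq.cases_head with rfl | ⟨c, hc, hca⟩
    · exact Or.inr hr
    obtain ⟨π, hπ, hall⟩ := h.chain q ⟨r, hr⟩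
    have hπa : Ds π a := by
      rcases hall c hc with rfl | h1
      · exact hca
      · exact hca.head h1
    rcases hall r hr with rfl | h1
    · exact Or.inl hπa
    · exact ih _ (hn ▸ Y.prox_dep _ _ hπ) π rfl hπa r h1

/-- The data of the combinatorial argument. -/
structure Dat (Y : Tree) (κ : ℝ) (b nu : Y.T → ℝ) : Prop where
  pos : 0 < κ
  b0 : ∀ q, 0 ≤ b q
  rc : ∀ q ∉ Y.T0, b q = nu q + ∑ p ∈ Y.prox q \ Y.T0, b p
  nu0 : ∀ q ∉ Y.T0, 0 ≤ nu q
  prx : ∀ p ∉ Y.T0, ∑ q with p ∈ Y.prox q, nu q ≤ nu p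
  top : ∀ q, b q ≤ 24 / 25 * κ * (Y.disc q + 1)
  few : #{p | p ∉ Y.T0 ∧ 49 / 50 * κ < nu p} ≤ 360000

/-- Bad points. -/
def Bad (κ : ℝ) (nu : Y.T → ℝ) (q : Y.T) : Prop :=
  q ∉ Y.T0 ∧ nu q + 24 / 25 * κ * #(Y.prox q \ Y.T0) ≤ 49 / 50 * κ

variable {κ : ℝ} {b nu : Y.T → ℝ}

lemma nu_ds (hY : Y.DP) (h : Dat Y κ b nu) {q a : Y.T} (hq : Ds q a) (ha : a ∉ Y.T0) :
    nu q ≤ nu a := by
  induction hq using Relation.ReflTransGen.head_induction_on with
  | refl => exact le_rfl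
  | @head c d h1 h2 ih =>
    have hd := ds_off hY.closed h2 ha
    refine le_trans ?_ ((h.prx d hd).trans ih)
    refine Finset.single_le_sum (f := nu) (fun r hr => h.nu0 r fun h3 => hd ?_) (by simpa using h1)
    exact hY.closed _ h3 (by simpa using hr)

lemma out_bad (hY : Y.DP) (h : Dat Y κ b nu) {a : Y.T} (ha : Bad κ nu a) :
    ∀ n q, Y.dep q = n → Ds q a → b q ≤ 49 / 50 * κ * Y.disc q := by
  intro n
  induction n using Nat.strong_induction_on with
  | _ n ih =>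
    intro q hn hq
    have hκ := h.pos
    have hq0 := ds_off hY.closed hq ha.1
    have h1 : ∀ r ∈ Y.prox q \ Y.T0, b r ≤ 49 / 50 * κ * Y.disc r +
        if r ∈ Y.prox a \ Y.T0 then 24 / 25 * κ else 0 := by
      intro r hr
      obtain ⟨hr1, hr2⟩ := Finset.mem_sdiff.1 hr
      split_ifs with h2
      · have := h.top r
        have h3 : (0 : ℝ) ≤ κ * Y.disc r := by positivity
        nlinarith
      · rcases ds_prox hY.toPlane a _ q rfl hq r hr1 with h3 | h3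
        · simpa using ih _ (hn ▸ Y.prox_dep _ _ hr1) r rfl h3
        · exact absurd (Finset.mem_sdiff.2 ⟨h3, hr2⟩) h2
    have h2 := Finset.sum_le_sum h1
    rw [Finset.sum_add_distrib, ← Finset.mul_sum, ← Finset.sum_filter, Finset.sum_const,
      nsmul_eq_mul] at h2
    have h3 : (#{r ∈ Y.prox q \ Y.T0 | r ∈ Y.prox a \ Y.T0} : ℝ) ≤ #(Y.prox a \ Y.T0) := by
      exact_mod_cast Finset.card_le_card fun r hr => (Finset.mem_filter.1 hr).2
    have h4 := mul_le_mul_of_nonneg_right h3 (show 0 ≤ 24 / 25 * κ by positivity)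
    have h5 := nu_ds hY h hq ha.1
    have h6 := ha.2
    rw [h.rc q hq0, disc_off hq0]
    nlinarith

/-- The recursive bound. -/
def bd : ℕ → ℕ
  | 0 => 0
  | n + 1 => 360000 + bd n * (48 * (n + 1)) + bd n * bd n

open Classical in
/-- The good points of bounded discrepancy. -/
def Qn (κ : ℝ) (nu : Y.T → ℝ) (n : ℕ) : Finset Y.T :=
  {q | q ∉ Y.T0 ∧ Y.disc q ≤ n ∧ ∀ a, Ds q a → ¬ Bad κ nu a}

lemma mem_Qn {n : ℕ} {q : Y.T} :
    q ∈ Qn κ nu n ↔ q ∉ Y.T0 ∧ Y.disc q ≤ n ∧ ∀ a, Ds q a → ¬ Bad κ nu a := by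
  simp [Qn]

lemma Qn_prox {n : ℕ} {q p : Y.T} (hq : q ∈ Qn κ nu (n + 1)) (hp : p ∈ Y.prox q \ Y.T0) :
    p ∈ Qn κ nu n := by
  obtain ⟨h1, h2, h3⟩ := mem_Qn.1 hq
  obtain ⟨h4, h5⟩ := Finset.mem_sdiff.1 hp
  have := disc_lt h1 h4
  exact mem_Qn.2 ⟨h5, by omega, fun a ha => h3 a (ha.head h4)⟩

lemma card_one (hY : Y.DP) (h : Dat Y κ b nu) {n : ℕ} {p : Y.T} (hp : p ∈ Qn κ nu n) :
    #{q | p ∈ Y.prox q ∧ κ / 50 < nu q} ≤ 48 * (n + 1) := by
  obtain ⟨h1, h2, -⟩ := mem_Qn.1 hp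
  have hκ := h.pos
  have h3 : (#{q | p ∈ Y.prox q ∧ κ / 50 < nu q} : ℝ) * (κ / 50) ≤ nu p := by
    rw [← nsmul_eq_mul]
    refine (Finset.card_nsmul_le_sum _ nu _ fun q hq => (Finset.mem_filter.1 hq).2.2.le).trans
      (le_trans ?_ (h.prx p h1))
    refine Finset.sum_le_sum_of_subset_of_nonneg (fun q hq => ?_) fun q hq _ => ?_
    · simpa using (Finset.mem_filter.1 hq).2.1
    · exact h.nu0 q fun h4 => h1 (hY.closed _ h4 (by simpa using hq))
  have h4 : nu p ≤ b p := by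
    rw [h.rc p h1]
    exact le_add_of_nonneg_right (Finset.sum_nonneg fun r _ => h.b0 r)
  have h5 := h.top p
  have h6 : (Y.disc p : ℝ) ≤ n := by exact_mod_cast h2
  have h7 : (#{q | p ∈ Y.prox q ∧ κ / 50 < nu q} : ℝ) ≤ 48 * (n + 1) := by
    refine le_of_mul_le_mul_right ?_ (show 0 < κ / 50 by positivity)
    nlinarith
  exact_mod_cast h7

lemma card_Qn (hY : Y.DP) (h : Dat Y κ b nu) (n : ℕ) : #(Qn κ nu n) ≤ bd n := by
  induction n with
  | zero =>
    rw [bd, Nat.le_zero, Finset.card_eq_zero, Finset.eq_empty_iff_forall_notMem]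
    intro q hq
    obtain ⟨h1, h2, -⟩ := mem_Qn.1 hq
    rw [Y.disc_eq, if_neg h1] at h2
    omega
  | succ n ih =>
    have hκ := h.pos
    have hsub : Qn κ nu (n + 1) ⊆ (({p | p ∉ Y.T0 ∧ 49 / 50 * κ < nu p} : Finset Y.T) ∪
        (Qn κ nu n).biUnion fun p => {q | p ∈ Y.prox q ∧ κ / 50 < nu q}) ∪
        (Qn κ nu n).offDiag.biUnion fun x => {q | x.1 ∈ Y.prox q ∧ x.2 ∈ Y.prox q} := by
      intro q hq
      obtain ⟨h1, -, h3⟩ := mem_Qn.1 hq
      have h4 : ¬ (nu q + 24 / 25 * κ * #(Y.prox q \ Y.T0) ≤ 49 / 50 * κ) :=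
        fun h4 => h3 q .refl ⟨h1, h4⟩
      simp only [Finset.mem_union, Finset.mem_filter, Finset.mem_univ, true_and,
        Finset.mem_biUnion, Finset.mem_offDiag]
      rcases lt_trichotomy #(Y.prox q \ Y.T0) 1 with h5 | h5 | h5
      · rw [Nat.lt_one_iff.1 h5] at h4
        exact Or.inl (Or.inl ⟨h1, by simpa using h4⟩)
      · obtain ⟨p, hp⟩ := Finset.card_eq_one.1 h5
        have hp' : p ∈ Y.prox q \ Y.T0 := hp ▸ Finset.mem_singleton_self p
        rw [h5] at h4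
        refine Or.inl (Or.inr ⟨p, Qn_prox hq hp', (Finset.mem_sdiff.1 hp').1, ?_⟩)
        push_cast at h4
        linarith
      · obtain ⟨p, hp, p', hp', hne⟩ := Finset.one_lt_card.1 h5
        exact Or.inr ⟨(p, p'), ⟨Qn_prox hq hp, Qn_prox hq hp', hne⟩, (Finset.mem_sdiff.1 hp).1,
          (Finset.mem_sdiff.1 hp').1⟩
    refine (Finset.card_le_card hsub).trans ((Finset.card_union_le _ _).trans ?_)
    rw [bd]
    refine Nat.add_le_add ((Finset.card_union_le _ _).trans (Nat.add_le_add h.few ?_)) ?_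
    · refine (Finset.card_biUnion_le_card_mul _ _ _ fun p hp => card_one hY h hp).trans ?_
      exact Nat.mul_le_mul_right _ ih
    · refine (Finset.card_biUnion_le_card_mul _ _ 1 fun x hx =>
        pair hY.toPlane (Finset.mem_offDiag.1 hx).2.2).trans ?_
      rw [mul_one, Finset.offDiag_card]
      exact (Nat.sub_le _ _).trans (Nat.mul_le_mul ih ih)

lemma qok (hY : Y.DP) {B : Y.I →₀ ℝ} (h : Dat Y κ (fun q => B (.inr q)) nu) :
    Y.QOK κ (6 + bd 48) B (Y.T0 ∪ Qn κ nu 48) where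
  closed q hq p hp := by
    rw [Finset.mem_union] at hq ⊢
    rcases hq with hq | hq
    · exact Or.inl (hY.closed q hq hp)
    by_cases h1 : p ∈ Y.T0
    · exact Or.inl h1
    have := mem_Qn.1 (Qn_prox hq (Finset.mem_sdiff.2 ⟨hp, h1⟩))
    exact Or.inr (mem_Qn.2 ⟨h1, by omega, this.2.2⟩)
  sub := Finset.subset_union_left
  card := (Finset.card_union_le _ _).trans (Nat.add_le_add hY.card.le (card_Qn hY h 48))
  disc q hq := by
    rcases Finset.mem_union.1 hq with hq | hq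
    · rw [Y.disc_eq, if_pos hq]; omega
    · exact (mem_Qn.1 hq).2.1
  out q hq := by
    rw [Finset.mem_union, not_or, mem_Qn] at hq
    by_cases h1 : Y.disc q ≤ 48
    · have : ∃ a, Ds q a ∧ Bad κ nu a := by
        by_contra h2
        exact hq.2 ⟨hq.1, h1, fun a ha hb => h2 ⟨a, ha, hb⟩⟩
      obtain ⟨a, ha, hb⟩ := this
      exact out_bad hY h hb _ q rfl ha
    · have h2 : (48 : ℝ) ≤ Y.disc q := by exact_mod_cast (not_le.1 h1).le
      have := h.top q
      have := h.pos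
      nlinarith

lemma cl_snd (E : Y.I →₀ ℝ) {s : Finset Y.I} (h : E.support ⊆ s) (q : Y.T) :
    (Y.cl E).2 q = ∑ i ∈ s, E i * (Y.gam i).2 q := by
  rw [Tree.cl_eq_sum E h, Prod.snd_sum, Finset.sum_apply]
  rfl

lemma cl_fst (E : Y.I →₀ ℝ) {s : Finset Y.I} (h : E.support ⊆ s) :
    (Y.cl E).1 = ∑ i ∈ s, E i * (Y.gam i).1 := by
  rw [Tree.cl_eq_sum E h, Prod.fst_sum]
  rfl

lemma gam_fst (i : Y.I) : 0 ≤ (Y.gam i).1 := by
  cases i <;> simp [Tree.gam]

lemma ip0_cl (E : Y.I →₀ ℝ) : Y.ip0 (Y.cl E) (Y.cl E) =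
    ∑ i ∈ E.support, ∑ j ∈ E.support, E i * E j * Y.ip0 (Y.gam j) (Y.gam i) := by
  rw [Tree.ip0, Tree.ip_cl _ E subset_rfl]
  refine Finset.sum_congr rfl fun i _ => ?_
  rw [Tree.ip_pr, Tree.ip_comm, Tree.ip_cl _ E subset_rfl, Finset.mul_sum]
  refine Finset.sum_congr rfl fun j _ => ?_
  rw [Tree.ip0, Tree.ip_pr, Tree.ip_comm, mul_assoc, Tree.ip_pr, Tree.ip_comm, Tree.ip_pr]

lemma ip0_le (y : Y.Cl) : Y.ip0 y y ≤ y.1 ^ 2 := by
  rw [Tree.ip0, Tree.ip, Tree.pr, sq]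
  refine sub_le_self _ (Finset.sum_nonneg fun q _ => ?_)
  dsimp only
  split_ifs
  · exact mul_self_nonneg _
  · simp

/-- The adjunction estimate for a divisor on the blow-up of `T0`. -/
lemma adj_sum (hC : St_NC) (hY : Y.DP) (E : Y.I →₀ ℝ) (hE : 0 ≤ E)
    (hon : ∀ i ∈ E.support, Y.On Y.T0 i) :
    ∑ q ∈ Y.T0ᶜ, ((Y.cl E).2 q ^ 2 - ∑ i ∈ E.support, E i ^ 2 * (Y.gam i).2 q) ≤
      (Y.cl E).1 ^ 2 + 2 * ∑ i ∈ E.support, E i ^ 2 := by
  classical
  have h1 : ∀ i ∈ E.support, ∀ j ∈ E.support,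
      E i * E j * ∑ q ∈ Y.T0ᶜ, (Y.gam i).2 q * (Y.gam j).2 q -
        (if i = j then E i ^ 2 * (2 + ∑ q ∈ Y.T0ᶜ, (Y.gam i).2 q) else 0) ≤
      E i * E j * Y.ip0 (Y.gam j) (Y.gam i) := by
    intro i hi j hj
    split_ifs with h
    · subst h
      have h2 := hC.adj Y hY i (hon i hi)
      have h3 := hY.nefL i
      simp only [mul_sub, mul_one, Finset.sum_sub_distrib] at h2
      have h4 := mul_le_mul_of_nonneg_left (show ∑ q ∈ Y.T0ᶜ, (Y.gam i).2 q * (Y.gam i).2 q -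
        (2 + ∑ q ∈ Y.T0ᶜ, (Y.gam i).2 q) ≤ Y.ip0 (Y.gam i) (Y.gam i) by linarith)
        (mul_self_nonneg (E i))
      nlinarith
    · rw [sub_zero]
      refine mul_le_mul_of_nonneg_left ?_ (mul_nonneg (hE i) (hE j))
      simpa only [mul_comm] using (hC.inter0 Y hY j i (hon j hj) (hon i hi) (Ne.symm h)).2
  have h2 := Finset.sum_le_sum fun i hi => Finset.sum_le_sum (h1 i hi)
  rw [← ip0_cl] at h2
  have h3 := ip0_le (Y.cl E)
  have h4 : ∑ i ∈ E.support, ∑ j ∈ E.support,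
      E i * E j * ∑ q ∈ Y.T0ᶜ, (Y.gam i).2 q * (Y.gam j).2 q = ∑ q ∈ Y.T0ᶜ, (Y.cl E).2 q ^ 2 := by
    simp only [cl_snd E subset_rfl, sq, Finset.sum_mul_sum]
    simp only [Finset.mul_sum]
    rw [Finset.sum_comm (s := Y.T0ᶜ)]
    refine Finset.sum_congr rfl fun i _ => ?_
    rw [Finset.sum_comm (s := Y.T0ᶜ)]
    exact Finset.sum_congr rfl fun j _ => Finset.sum_congr rfl fun q _ => by ring
  have h5 : ∑ i ∈ E.support, ∑ j ∈ E.support,
      (if i = j then E i ^ 2 * (2 + ∑ q ∈ Y.T0ᶜ, (Y.gam i).2 q) else 0) =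
      2 * ∑ i ∈ E.support, E i ^ 2 + ∑ q ∈ Y.T0ᶜ, ∑ i ∈ E.support, E i ^ 2 * (Y.gam i).2 q := by
    rw [Finset.sum_comm (s := Y.T0ᶜ), Finset.mul_sum, ← Finset.sum_add_distrib]
    refine Finset.sum_congr rfl fun i hi => ?_
    rw [Finset.sum_ite_eq, if_pos hi, ← Finset.mul_sum]
    ring
  simp only [Finset.sum_sub_distrib] at h2 ⊢
  linarith

lemma dat (hA : St_NA) (hB : St_NB) (hC : St_NC) (hY : Y.DP) {B : Y.I →₀ ℝ} (hκ : 0 < κ)
    (hB0 : 0 ≤ B) (hn : Y.Nef (κ • Y.L - Y.cl B)) (ht : ∀ i, B i ≤ 24 / 25 * κ * Y.A i) :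
    ∃ nu, Dat Y κ (fun q => B (.inr q)) nu := by
  classical
  set D := κ • Y.L - Y.cl B with hD
  set E := B.filter (Y.On Y.T0) with hE
  have hEa : ∀ i, E i = if Y.On Y.T0 i then B i else 0 := fun i => Finsupp.filter_apply _ _ _
  have hE0 : 0 ≤ E := fun i => by
    rw [hEa]
    split_ifs
    exacts [hB0 i, le_rfl]
  have hon : ∀ i ∈ E.support, Y.On Y.T0 i := fun i hi => by
    by_contra h
    exact Finsupp.mem_support_iff.1 hi (by rw [hEa, if_neg h])
  have hg : ∀ i ∈ E.support, ∀ q ∉ Y.T0, 0 ≤ (Y.gam i).2 q := fun i hi q hq =>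
    (((hB.prE Y hY.toPlane _ hY.closed i).2 (hon i hi)).1 q hq).1
  have hn0 : ∀ q ∉ Y.T0, 0 ≤ (Y.cl E).2 q := fun q hq => by
    rw [cl_snd E subset_rfl]
    exact Finset.sum_nonneg fun i hi => mul_nonneg (hE0 i) (hg i hi q hq)
  obtain ⟨hD1, hD2, hD3⟩ := hA.nef Y hY.toPlane D hn
  have hsupp : (B - E).support ⊆ Y.T0ᶜ.map ⟨Sum.inr, Sum.inr_injective⟩ := by
    intro i hi
    rw [Finsupp.mem_support_iff, Finsupp.sub_apply, hEa] at hi
    cases i with
    | inl Γ => simp [Tree.On] at hi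
    | inr p =>
      by_cases h : p ∈ Y.T0
      · simp [Tree.On, h] at hi
      · simpa using h
  have hEt : ∀ i ∈ E.support, E i ≤ 24 / 25 * κ := fun i hi => by
    have h1 := ht i
    have h2 := hon i hi
    rw [hEa, if_pos h2]
    cases i with
    | inl Γ => simpa [Tree.A] using h1
    | inr p =>
      have h3 : Y.disc p = 0 := by rw [Y.disc_eq, if_pos (show p ∈ Y.T0 from h2)]
      simpa [Tree.A, h3] using h1
  refine ⟨(D + Y.cl E).2, hκ, fun q => hB0 _, fun q hq => ?_,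
    fun q hq => add_nonneg (hD2 q).1 (hn0 q hq), fun p hp => ?_, fun q => ht _, ?_⟩
  · have h1 : D + Y.cl E = κ • Y.L - Y.cl (B - E) := by rw [map_sub, hD]; abel
    have h2 : ∀ p ∈ Y.T0ᶜ, (B - E) (.inr p) * (Y.gam (.inr p)).2 q =
        (if p ∈ Y.prox q then B (.inr p) else 0) - if q = p then B (.inr p) else 0 := by
      intro p hp
      rw [Finsupp.sub_apply, hEa, if_neg (show ¬ Y.On Y.T0 (.inr p) from Finset.mem_compl.1 hp),
        sub_zero]
      simp [Tree.gam, mul_sub]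
    rw [h1, Prod.snd_sub, Pi.sub_apply, cl_snd _ hsupp, Finset.sum_map]
    simp only [Function.Embedding.coeFn_mk]
    rw [Finset.sum_congr rfl h2, Finset.sum_sub_distrib, Finset.sum_ite_eq,
      if_pos (Finset.mem_compl.2 hq), ← Finset.sum_filter,
      show {p ∈ Y.T0ᶜ | p ∈ Y.prox q} = Y.prox q \ Y.T0 by ext p; simp [and_comm]]
    simp [Tree.L, hq]
  · have h1 := hn (.inr p)
    have h2 := hY.toPlane.cl_ip hE0 (i := .inr p) (by rw [hEa]; exact if_neg hp)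
    have h3 := add_nonneg h1 h2
    rw [← Tree.ip_add_left, ip_E] at h3
    linarith
  · have h1 := adj_sum hC hY E hE0 hon
    have h2 : (Y.cl E).1 + D.1 ≤ 3 * κ := by
      have h3 : 0 ≤ (Y.cl (B - E)).1 := by
        rw [cl_fst _ subset_rfl]
        refine Finset.sum_nonneg fun i _ => mul_nonneg ?_ (gam_fst i)
        rw [Finsupp.sub_apply, hEa]
        split_ifs
        · simp
        · simpa using hB0 i
      rw [map_sub, Prod.fst_sub] at h3
      have h4 : D.1 = 3 * κ - (Y.cl B).1 := by simp [hD, Tree.L, mul_comm]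
      linarith
    have h3 : 0 ≤ (Y.cl E).1 := by
      rw [cl_fst _ subset_rfl]
      exact Finset.sum_nonneg fun i _ => mul_nonneg (hE0 i) (gam_fst i)
    have h4 : ∑ i ∈ E.support, E i ≤ 9 * κ := by
      rw [← Finset.sum_filter_add_sum_filter_not _ fun i : Y.I => i.isLeft = true]
      have h5 := (hB.maxord Y hY κ B hB0 hn).2.1 (E.support.filter fun i => i.isLeft = true)
        fun i hi => (Finset.mem_filter.1 hi).2
      have h6 : ∑ i ∈ E.support with i.isLeft = true, E i ≤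
          ∑ i ∈ E.support with i.isLeft = true, B i * Y.sz i := by
        refine Finset.sum_le_sum fun i hi => ?_
        obtain ⟨hi1, hi2⟩ := Finset.mem_filter.1 hi
        rw [hEa, if_pos (hon i hi1)]
        refine le_mul_of_one_le_right (hB0 i) ?_
        cases i with
        | inl Γ => exact (show (1 : ℝ) ≤ Y.deg Γ by exact_mod_cast hY.deg_pos Γ)
        | inr p => exact le_rfl
      have h7 : #{i ∈ E.support | ¬ i.isLeft = true} ≤ 6 := by
        rw [← hY.card, ← Finset.card_map (s := Y.T0) ⟨Sum.inr, Sum.inr_injective (α := Y.Pl)⟩]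
        refine Finset.card_le_card fun i hi => ?_
        obtain ⟨hi1, hi2⟩ := Finset.mem_filter.1 hi
        cases i with
        | inl Γ => simp at hi2
        | inr p => simpa [Tree.On] using hon _ hi1
      have h8 := Finset.sum_le_card_nsmul {i ∈ E.support | ¬ i.isLeft = true} E _
        fun i hi => hEt i (Finset.mem_filter.1 hi).1
      rw [nsmul_eq_mul] at h8
      have h9 : (#{i ∈ E.support | ¬ i.isLeft = true} : ℝ) ≤ 6 := by exact_mod_cast h7
      nlinarith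
    have h5 : ∑ i ∈ E.support, E i ^ 2 ≤ 9 * κ ^ 2 := by
      have h6 : ∑ i ∈ E.support, E i ^ 2 ≤ ∑ i ∈ E.support, κ * E i :=
        Finset.sum_le_sum fun i hi => by nlinarith [hEt i hi, hE0 i, show (0 : ℝ) ≤ E i from hE0 i]
      rw [← Finset.mul_sum] at h6
      nlinarith
    have h6 : ∑ q ∈ Y.T0ᶜ, D.2 q ^ 2 ≤ D.1 ^ 2 := by
      have h7 : ∑ q ∈ Y.T0ᶜ, D.2 q ^ 2 ≤ ∑ q, D.2 q * D.2 q := by
        simp only [← sq]
        exact Finset.sum_le_sum_of_subset_of_nonneg (Finset.subset_univ _)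
          fun q _ _ => sq_nonneg _
      rw [Tree.sq, Tree.ip] at hD3
      nlinarith
    set br : Y.T → ℝ := fun q => (Y.cl E).2 q ^ 2 - ∑ i ∈ E.support, E i ^ 2 * (Y.gam i).2 q
      with hbr
    have hb0 : ∀ q ∉ Y.T0, 0 ≤ br q := fun q hq => by
      rw [hbr]
      dsimp only
      rw [cl_snd E subset_rfl, sub_nonneg]
      refine le_trans (Finset.sum_le_sum fun i hi => ?_) (Finset.sum_sq_le_sq_sum_of_nonneg
        fun i hi => mul_nonneg (hE0 i) (hg i hi q hq))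
      rw [mul_pow]
      refine mul_le_mul_of_nonneg_left ?_ (sq_nonneg _)
      obtain ⟨m, hm⟩ := ((hB.int Y).1 i).2 q
      rw [hm]
      exact_mod_cast Int.le_self_sq m
    have hb1 : ∀ q ∉ Y.T0, (Y.cl E).2 q * ((Y.cl E).2 q - 24 / 25 * κ) ≤ br q := fun q hq => by
      have h7 : ∑ i ∈ E.support, E i ^ 2 * (Y.gam i).2 q ≤ 24 / 25 * κ * (Y.cl E).2 q := by
        rw [cl_snd E subset_rfl, Finset.mul_sum]
        refine Finset.sum_le_sum fun i hi => ?_
        rw [sq, mul_assoc]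
        exact mul_le_mul_of_nonneg_right (hEt i hi) (mul_nonneg (hE0 i) (hg i hi q hq))
      rw [hbr]
      dsimp only
      nlinarith
    have h7 : ∑ q ∈ Y.T0ᶜ, (D.2 q ^ 2 + br q) ≤ 36 * κ ^ 2 := by
      rw [Finset.sum_add_distrib]
      nlinarith
    have h8 : (#{p | p ∉ Y.T0 ∧ 49 / 50 * κ < (D + Y.cl E).2 p} : ℝ) * (κ ^ 2 / 10000) ≤
        36 * κ ^ 2 := by
      rw [← nsmul_eq_mul]
      refine (Finset.card_nsmul_le_sum _ (fun q => D.2 q ^ 2 + br q) _ fun q hq => ?_).trans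
        (le_trans (Finset.sum_le_sum_of_subset_of_nonneg (fun q hq => ?_) fun q hq _ =>
          add_nonneg (sq_nonneg _) (hb0 q (Finset.mem_compl.1 hq))) h7)
      · obtain ⟨hq1, hq2⟩ := (Finset.mem_filter.1 hq).2
        rw [Prod.snd_add, Pi.add_apply] at hq2
        have := hb0 q hq1
        have := hb1 q hq1
        by_cases h9 : κ / 100 ≤ D.2 q
        · nlinarith
        · nlinarith [sq_nonneg (D.2 q)]
      · exact Finset.mem_compl.2 (Finset.mem_filter.1 hq).2.1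
    have h9 : (#{p | p ∉ Y.T0 ∧ 49 / 50 * κ < (D + Y.cl E).2 p} : ℝ) ≤ 360000 := by
      refine le_of_mul_le_mul_right ?_ (show 0 < κ ^ 2 / 10000 by positivity)
      linarith
    exact_mod_cast h9

end NBQ

theorem bq_of (hA : St_NA) (hB : St_NB) (hC : St_NC) : St_BQ :=
  ⟨6 + NBQ.bd 48, fun _ hY _ _ hκ hB0 hn ht =>
    (NBQ.dat hA hB hC hY hκ hB0 hn ht).elim fun _ h => ⟨_, NBQ.qok hY h⟩⟩

end Pool.Agent.Lib.MP_a25055_ag
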