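import Pool.Agent.Lib.MP_a25055_ag.NCOL2

/-! The column lemma. -/

open Set MeasureTheory intervalIntegral

noncomputable section

namespace Pool.Agent.Lib.MP_a25055_ag

namespace NCOL

variable {α β H : ℝ} {b : ℝ → ℝ} {h : ℝ × ℝ → ℝ} {D : Set (ℝ × ℝ)} {i0 R : ℕ}

lemma meas_idx {ι : Type} [Countable ι] [MeasurableSpace ι] [MeasurableSingletonClass ι]
    (F : ι → ℝ → ℝ) (hF : ∀ k, Measurable (F k)) (k : ℝ → ι) (hk : Measurable k) :
    Measurable fun t => F (k t) t :=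
  (measurable_from_prod_countable_left (f := fun p : ℝ × ι => F p.2 p.1) hF).comp
    (measurable_id.prodMk hk)

lemma fun_sum (s : Finset ℕ) {f : ℕ → ℝ → ℝ}
    (hf : ∀ i ∈ s, IntervalIntegrable (f i) volume α β) :
    IntervalIntegrable (fun t => ∑ i ∈ s, f i t) volume α β := by
  have := IntervalIntegrable.sum s hf
  rwa [Finset.sum_fn] at this

lemma reidx (F : ℕ → ℝ) (n a N : ℕ) (haN : a ≤ N) :
    ∑ i ∈ Finset.Ico a N, ∑ r ∈ Finset.Ioc 0 n, F (n * i + r) =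
      ∑ m ∈ Finset.Ioc (n * a) (n * N), F m := by
  induction N, haN using Nat.le_induction with
  | base => simp
  | succ N hN ih =>
    rw [Finset.sum_Ico_succ_top hN, ih, ← Finset.sum_Ioc_consecutive F (Nat.mul_le_mul_left n hN)
      (Nat.mul_le_mul_left n (Nat.le_succ N))]
    congr 1
    have e := Finset.map_add_left_Ioc 0 n (n * N)
    rw [add_zero] at e
    rw [Nat.mul_succ, ← e, Finset.sum_map]
    rfl

lemma tele (f : ℝ → ℝ) (a N : ℕ) (haN : a ≤ N) (c : ℝ) :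
    ∑ i ∈ Finset.Ico a N, (f (i + 1 - c) - f (i - c)) = f (N - c) - f (a - c) := by
  induction N, haN using Nat.le_induction with
  | base => simp
  | succ N hN ih => rw [Finset.sum_Ico_succ_top hN, ih]; push_cast; ring

lemma int_Ioc (f : ℝ → ℝ) {u v : ℝ} (h1 : α ≤ u) (h2 : u ≤ v) (h3 : v ≤ β) :
    ∫ t in α..β, (Ioc u v).indicator f t = ∫ t in u..v, f t := by
  rw [integral_of_le (h1.trans (h2.trans h3)), integral_of_le h2,
    setIntegral_indicator measurableSet_Ioc, inter_eq_right.2 (Ioc_subset_Ioc h1 h3)]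

lemma int_Ioo (f : ℝ → ℝ) {u v : ℝ} (h1 : α ≤ u) (h2 : u ≤ v) (h3 : v ≤ β) :
    ∫ t in α..β, (Ioo u v).indicator f t = ∫ t in u..v, f t := by
  rw [integral_of_le (h1.trans (h2.trans h3)), integral_of_le h2,
    setIntegral_indicator measurableSet_Ioo,
    inter_eq_right.2 (Ioo_subset_Ioc_self.trans (Ioc_subset_Ioc h1 h3)),
    integral_Ioc_eq_integral_Ioo]

namespace Hyp

variable (P : Hyp α β H b h D i0 R)
include P

lemma ind_int {s : Set ℝ} (hs : MeasurableSet s) (x : ℝ) :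
    IntervalIntegrable (s.indicator (G h D x)) volume α β :=
  P.int_of_bd ((P.G_meas x).indicator hs) H (fun t => by
    by_cases ht : t ∈ s
    · rw [indicator_of_mem ht]; exact P.G_abs x t
    · rw [indicator_of_notMem ht, abs_zero]; exact P.H_nonneg) α β

lemma b_nonneg {t : ℝ} (ht : t ∈ Icc α β) : 0 ≤ b t := (Nat.cast_nonneg i0).trans (P.b_ge ht)

lemma colV_eq {n : ℕ} (hn : 0 < n) {t : ℝ} (ht : t ∈ Icc α β) :
    colV (fun x => h (x, t)) (b t) i0 R n = colV (fun x => G h D x t) (b t) i0 R n := by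
  have hn' : (0 : ℝ) < n := Nat.cast_pos.2 hn
  have hR : (0 : ℝ) ≤ R := Nat.cast_nonneg R
  have h0 := P.b_nonneg ht
  have c1 : b t ≤ ⌈b t⌉₊ := Nat.le_ceil _
  have c2 : (⌈b t⌉₊ : ℝ) < b t + 1 := Nat.ceil_lt_add_one h0
  have top : ((((⌈b t⌉₊ + R : ℕ) : ℝ)), t) ∈ D :=
    P.mem t ht _ ⟨by push_cast; linarith, by push_cast; linarith⟩
  unfold colV
  have e1 : ∑ m ∈ Finset.Ioc ⌊n * b t⌋₊ (n * (⌈b t⌉₊ + R)), h ((m : ℝ) / n, t) =
      ∑ m ∈ Finset.Ioc ⌊n * b t⌋₊ (n * (⌈b t⌉₊ + R)), G h D ((m : ℝ) / n) t := by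
    refine Finset.sum_congr rfl fun m hm => (G_of_mem (P.mem t ht _ ⟨?_, ?_⟩)).symm
    · rw [le_div_iff₀ hn', mul_comm]
      exact ((Nat.floor_lt (by positivity)).1 (Finset.mem_Ioc.1 hm).1).le
    · rw [div_le_iff₀ hn']
      have : (m : ℝ) ≤ n * (⌈b t⌉₊ + R) := by exact_mod_cast (Finset.mem_Ioc.1 hm).2
      nlinarith
  have e2 : ∑ i ∈ Finset.Ico ⌈b t⌉₊ (⌈b t⌉₊ + R), h ((i : ℝ), t) =
      ∑ i ∈ Finset.Ico ⌈b t⌉₊ (⌈b t⌉₊ + R), G h D (i : ℝ) t := by
    refine Finset.sum_congr rfl fun i hi => (G_of_mem (P.mem t ht _ ⟨?_, ?_⟩)).symm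
    · exact c1.trans (by exact_mod_cast (Finset.mem_Ico.1 hi).1)
    · have : (i : ℝ) < ⌈b t⌉₊ + R := by exact_mod_cast (Finset.mem_Ico.1 hi).2
      linarith
  simp only [e1, e2, G_of_mem top]
  split_ifs with hb
  · rw [G_of_mem (P.mem t ht i0 ⟨hb.le, by linarith⟩)]
  · rfl

lemma colV_int {n : ℕ} (hn : 0 < n) :
    IntervalIntegrable (fun t => colV (fun x => h (x, t)) (b t) i0 R n) volume α β := by
  have hn' : (0 : ℝ) < n := Nat.cast_pos.2 hn
  have hR : (0 : ℝ) ≤ R := Nat.cast_nonneg R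
  have hH := P.H_nonneg
  let b' : ℝ → ℝ := fun t => b (max α (min t β))
  have hm : ∀ t, max α (min t β) ∈ Icc α β := fun t =>
    ⟨le_max_left _ _, max_le P.ab (min_le_right _ _)⟩
  have hb' : Measurable b' := Monotone.measurable fun s t hst =>
    P.mono (hm s) (hm t) (max_le_max le_rfl (min_le_min hst le_rfl))
  have hc : Measurable fun t => ⌈b' t⌉₊ := hb'.nat_ceil
  have hf : Measurable fun t => ⌊(n : ℝ) * b' t⌋₊ := (hb'.const_mul _).nat_floor
  have m1 := meas_idx (fun (k : ℕ × ℕ) t => ∑ m ∈ Finset.Ioc k.1 (n * (k.2 + R)), G h D (m / n) t)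
    (fun k => Finset.measurable_sum _ fun m _ => P.G_meas _) _ (hf.prodMk hc)
  have m2 := meas_idx (fun (k : ℕ) t => ∑ i ∈ Finset.Ico k (k + R), G h D i t)
    (fun k => Finset.measurable_sum _ fun m _ => P.G_meas _) _ hc
  have m3 := meas_idx (fun (k : ℕ) t => G h D (k + R : ℕ) t) (fun k => P.G_meas _) _ hc
  have hM : Measurable fun t => colV (fun x => G h D x t) (b' t) i0 R n :=
    (((m1.div_const _).sub m2).sub (m3.div_const _)).add
      (Measurable.ite (hb' (measurableSet_singleton (i0 : ℝ))) ((P.G_meas _).div_const _)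
        (m3.div_const _))
  have hI := P.int_of_bd hM ((⌈b β⌉₊ + R) * H + R * H + H + H) (fun t => by
    have c1 : ⌈b' t⌉₊ ≤ ⌈b β⌉₊ := Nat.ceil_mono (P.mono (hm t) ⟨P.ab, le_rfl⟩ (hm t).2)
    have c2 : (⌈b' t⌉₊ : ℝ) ≤ ⌈b β⌉₊ := by exact_mod_cast c1
    have a1 : 0 ≤ (∑ m ∈ Finset.Ioc ⌊n * b' t⌋₊ (n * (⌈b' t⌉₊ + R)), G h D (m / n) t) / n :=
      div_nonneg (Finset.sum_nonneg fun _ _ => P.G_nonneg _ _) hn'.le
    have a2 : (∑ m ∈ Finset.Ioc ⌊n * b' t⌋₊ (n * (⌈b' t⌉₊ + R)), G h D (m / n) t) / n ≤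
        (⌈b β⌉₊ + R) * H := by
      rw [div_le_iff₀ hn']
      refine (Finset.sum_le_card_nsmul _ _ H fun _ _ => P.G_le _ _).trans ?_
      rw [Nat.card_Ioc, nsmul_eq_mul]
      have : ((n * (⌈b' t⌉₊ + R) - ⌊n * b' t⌋₊ : ℕ) : ℝ) ≤ n * (⌈b β⌉₊ + R) := by
        exact_mod_cast (Nat.sub_le _ _).trans (Nat.mul_le_mul_left n (Nat.add_le_add_right c1 R))
      nlinarith
    have a3 : 0 ≤ ∑ i ∈ Finset.Ico ⌈b' t⌉₊ (⌈b' t⌉₊ + R), G h D i t :=
      Finset.sum_nonneg fun _ _ => P.G_nonneg _ _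
    have a4 : ∑ i ∈ Finset.Ico ⌈b' t⌉₊ (⌈b' t⌉₊ + R), G h D i t ≤ R * H := by
      refine (Finset.sum_le_card_nsmul _ _ H fun _ _ => P.G_le _ _).trans ?_
      rw [Nat.card_Ico, nsmul_eq_mul, Nat.add_sub_cancel_left]
    have a5 := P.G_nonneg (⌈b' t⌉₊ + R : ℕ) t
    have a6 := P.G_le (⌈b' t⌉₊ + R : ℕ) t
    have a7 := P.G_nonneg i0 t
    have a8 := P.G_le i0 t
    have a9 : 0 ≤ G h D (⌈b' t⌉₊ + R : ℕ) t / (3 * (R + 1)) := by positivity
    have a10 : G h D (⌈b' t⌉₊ + R : ℕ) t / (3 * (R + 1)) ≤ H :=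
      (div_le_self a5 (by linarith)).trans a6
    have a11 : 0 ≤ ((⌈b β⌉₊ : ℝ) + R) * H := by positivity
    have a12 : 0 ≤ (R : ℝ) * H := by positivity
    unfold colV
    rw [abs_le]
    split_ifs <;> constructor <;> linarith) α β
  refine (intervalIntegrable_congr fun t ht => ?_).1 hI
  rw [uIoc_of_le P.ab] at ht
  have e : b' t = b t := by
    simp only [b', min_eq_left ht.2, max_eq_right ht.1.le]
  show colV _ (b' t) i0 R n = _
  rw [e, P.colV_eq hn ⟨ht.1.le, ht.2⟩]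

lemma win_iff {t : ℝ} (ht : t ∈ Ioc α β) (i j : ℕ) :
    t ∈ Ioc (TT α β b ((i : ℝ) - R)) (TT α β b ((j : ℝ) - R)) ↔
      i < ⌈b t⌉₊ + R ∧ ⌈b t⌉₊ + R ≤ j := by
  have h0 := P.b_nonneg ⟨ht.1.le, ht.2⟩
  rw [mem_Ioc, P.T_lt_iff ht, P.le_T_iff ht]
  have e : ⌈b t⌉₊ + R = ⌈b t + R⌉₊ := (Nat.ceil_add_natCast h0 R).symm
  rw [e, Nat.lt_ceil, Nat.ceil_le, sub_lt_iff_lt_add, le_sub_iff_add_le]

lemma pt_mesh {n : ℕ} (hn : 0 < n) {t : ℝ} (ht : t ∈ Ioc α β) {N : ℕ} (hN : i0 ≤ N) :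
    ∑ i ∈ Finset.Ico i0 N, ∑ r ∈ Finset.Ioc 0 n,
      (Ioo (TT α β b ((i : ℝ) - R)) (TT α β b i + (r : ℝ) / n *
        (TT α β b (i + 1) - TT α β b i))).indicator (G h D (i + (r : ℝ) / n)) t ≤
      ∑ m ∈ Finset.Ioc ⌊n * b t⌋₊ (n * (⌈b t⌉₊ + R)), G h D ((m : ℝ) / n) t := by
  have hn' : (0 : ℝ) < n := Nat.cast_pos.2 hn
  have ht' : t ∈ Icc α β := ⟨ht.1.le, ht.2⟩
  have h0 := P.b_nonneg ht'
  let F : ℕ → ℝ := fun m =>
    if m ∈ Finset.Ioc ⌊n * b t⌋₊ (n * (⌈b t⌉₊ + R)) then G h D ((m : ℝ) / n) t else 0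
  have hF : ∀ m, 0 ≤ F m := fun m => by
    simp only [F]; split_ifs
    · exact P.G_nonneg _ _
    · exact le_rfl
  calc _ ≤ ∑ i ∈ Finset.Ico i0 N, ∑ r ∈ Finset.Ioc 0 n, F (n * i + r) := by
        refine Finset.sum_le_sum fun i hi => Finset.sum_le_sum fun r hr => ?_
        by_cases hm : t ∈ Ioo (TT α β b ((i : ℝ) - R)) (TT α β b i + (r : ℝ) / n *
          (TT α β b (i + 1) - TT α β b i))
        swap
        · rw [indicator_of_notMem hm]; exact hF _
        rw [indicator_of_mem hm]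
        have hi0 : (i0 : ℝ) ≤ i := by exact_mod_cast (Finset.mem_Ico.1 hi).1
        have r0 : (0 : ℝ) < r := by exact_mod_cast (Finset.mem_Ioc.1 hr).1
        have r1 : (r : ℝ) ≤ n := by exact_mod_cast (Finset.mem_Ioc.1 hr).2
        have s0 : 0 < (r : ℝ) / n := by positivity
        have s1 : (r : ℝ) / n ≤ 1 := (div_le_one hn').2 r1
        have k1 : b t < i + (r : ℝ) / n := by
          by_cases h1 : t ≤ TT α β b i
          · linarith [(P.le_T_iff ht).1 h1]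
          have h2 := not_le.1 h1
          set u := TT α β b i with hu
          set v := TT α β b (i + 1) with hv
          have h3 : 0 < (r : ℝ) / n * (v - u) := by linarith [hm.2]
          have hl : 0 < v - u := (pos_iff_pos_of_mul_pos h3).1 s0
          have h4 : (t - u) / (v - u) < (r : ℝ) / n := by
            rw [div_lt_iff₀ hl]; linarith [hm.2]
          have h5 : 0 ≤ (t - u) / (v - u) := div_nonneg (by linarith) hl.le
          have h6 := (P.b_conv (P.T_mem i) (P.T_mem (i + 1)) (a := 1 - (t - u) / (v - u))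
            (c := (t - u) / (v - u)) (by linarith) h5 (by ring)).2
          have e : (1 - (t - u) / (v - u)) * u + (t - u) / (v - u) * v = t := by
            field_simp; ring
          rw [← hu, ← hv, e] at h6
          have h7 := P.b_T_le hi0
          have h8 := P.b_T_le (y := i + 1) (by linarith)
          rw [← hu] at h7
          rw [← hv] at h8
          have h9 := mul_le_mul_of_nonneg_left h7 (by linarith : 0 ≤ 1 - (t - u) / (v - u))
          have h10 := mul_le_mul_of_nonneg_left h8 h5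
          nlinarith
        have k2 : i < ⌈b t⌉₊ + R := by
          have h1 := (P.T_lt_iff ht).1 hm.1
          rw [← Nat.ceil_add_natCast h0 R, Nat.lt_ceil]
          linarith
        have k3 : n * i + r ∈ Finset.Ioc ⌊n * b t⌋₊ (n * (⌈b t⌉₊ + R)) := by
          rw [Finset.mem_Ioc, Nat.floor_lt (by positivity)]
          constructor
          · push_cast
            have := mul_lt_mul_of_pos_left k1 hn'
            rwa [mul_add, mul_div_cancel₀ _ hn'.ne'] at this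
          · have := Nat.mul_le_mul_left n (Nat.succ_le_of_lt k2)
            rw [Nat.mul_succ] at this
            linarith [(Finset.mem_Ioc.1 hr).2]
        simp only [F, if_pos k3]
        refine le_of_eq ?_
        congr 1
        push_cast
        field_simp
    _ = ∑ m ∈ Finset.Ioc (n * i0) (n * N), F m := reidx F n i0 N hN
    _ ≤ _ := by
        simp only [F]
        rw [← Finset.sum_filter]
        exact Finset.sum_le_sum_of_subset_of_nonneg (fun m hm => (Finset.mem_filter.1 hm).2)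
          fun _ _ _ => P.G_nonneg _ _

lemma ceil_ge {t : ℝ} (ht : t ∈ Icc α β) : i0 ≤ ⌈b t⌉₊ := by
  have := Nat.ceil_mono (P.b_ge ht)
  rwa [Nat.ceil_natCast] at this

lemma ceil_le {t : ℝ} (ht : t ∈ Icc α β) : ⌈b t⌉₊ ≤ ⌈b β⌉₊ :=
  Nat.ceil_mono (P.mono ht ⟨P.ab, le_rfl⟩ ht.2)

lemma pt_col {t : ℝ} (ht : t ∈ Ioc α β) :
    ∑ i ∈ Finset.Ico i0 (⌈b β⌉₊ + R),
      (Ioc (TT α β b ((i : ℝ) - R)) (TT α β b i)).indicator (G h D i) t =
      ∑ i ∈ Finset.Ico ⌈b t⌉₊ (⌈b t⌉₊ + R), G h D i t := by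
  have ht' : t ∈ Icc α β := ⟨ht.1.le, ht.2⟩
  have c1 := P.ceil_ge ht'
  have c2 := P.ceil_le ht'
  have key : ∀ i : ℕ, t ∈ Ioc (TT α β b ((i : ℝ) - R)) (TT α β b i) ↔
      i ∈ Finset.Ico ⌈b t⌉₊ (⌈b t⌉₊ + R) := fun i => by
    have := P.win_iff ht i (i + R)
    rw [show ((i + R : ℕ) : ℝ) - R = i by push_cast; ring] at this
    rw [this, Finset.mem_Ico]
    omega
  symm
  refine (Finset.sum_congr rfl fun i hi => ?_).trans (Finset.sum_subset
    (Finset.Ico_subset_Ico c1 (by omega)) fun i _ hi => ?_)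
  · rw [indicator_of_mem ((key i).2 hi)]
  · rw [indicator_of_notMem (mt (key i).1 hi)]

lemma pt_top (hR : 0 < R) {t : ℝ} (ht : t ∈ Ioc α β) (c : ℕ → ℝ) :
    ∑ i ∈ Finset.Ico i0 (⌈b β⌉₊ + R),
      c i * (Ioc (TT α β b ((i : ℝ) - R)) (TT α β b (i + 1 - R))).indicator (G h D (i + 1)) t =
      c (⌈b t⌉₊ + R - 1) * G h D (⌈b t⌉₊ + R : ℕ) t := by
  have ht' : t ∈ Icc α β := ⟨ht.1.le, ht.2⟩
  have c1 := P.ceil_ge ht'
  have c2 := P.ceil_le ht'
  have key : ∀ i : ℕ, t ∈ Ioc (TT α β b ((i : ℝ) - R)) (TT α β b (i + 1 - R)) ↔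
      i = ⌈b t⌉₊ + R - 1 := fun i => by
    have := P.win_iff ht i (i + 1)
    push_cast at this
    rw [this]
    omega
  rw [Finset.sum_eq_single (⌈b t⌉₊ + R - 1)]
  · rw [indicator_of_mem ((key _).2 rfl)]
    congr 2
    rw [← Nat.cast_succ]
    congr 1
    omega
  · intro i _ hi
    rw [indicator_of_notMem (mt (key i).1 hi), mul_zero]
  · intro hi
    exact absurd (Finset.mem_Ico.2 ⟨by omega, by omega⟩) hi

end Hyp

/-- The lower bound for the integrand. -/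
def Low (α β : ℝ) (b : ℝ → ℝ) (h : ℝ × ℝ → ℝ) (D : Set (ℝ × ℝ)) (i0 R n : ℕ) (t : ℝ) : ℝ :=
  (∑ i ∈ Finset.Ico i0 (⌈b β⌉₊ + R), ∑ r ∈ Finset.Ioc 0 n,
      (Ioo (TT α β b ((i : ℝ) - R)) (TT α β b i + (r : ℝ) / n *
        (TT α β b (i + 1) - TT α β b i))).indicator (G h D (i + (r : ℝ) / n)) t) / n -
    ∑ i ∈ Finset.Ico i0 (⌈b β⌉₊ + R),
      (Ioc (TT α β b ((i : ℝ) - R)) (TT α β b i)).indicator (G h D i) t +
    ∑ i ∈ Finset.Ico i0 (⌈b β⌉₊ + R), ((if i0 + R ≤ i then 1 / (3 * ((R : ℝ) + 1)) else 0) - 1 / 2) *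
      (Ioc (TT α β b ((i : ℝ) - R)) (TT α β b (i + 1 - R))).indicator (G h D (i + 1)) t +
    (Ioc α (TT α β b i0)).indicator (G h D i0) t / 2

namespace Hyp

variable (P : Hyp α β H b h D i0 R)
include P

lemma low_le (hR : 0 < R) {n : ℕ} (hn : 0 < n) {t : ℝ} (ht : t ∈ Ioc α β) :
    Low α β b h D i0 R n t ≤ colV (fun x => h (x, t)) (b t) i0 R n := by
  have hn' : (0 : ℝ) < n := Nat.cast_pos.2 hn
  have ht' : t ∈ Icc α β := ⟨ht.1.le, ht.2⟩
  have c1 := P.ceil_ge ht'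
  have c2 := P.ceil_le ht'
  rw [P.colV_eq hn ht', Low, P.pt_col ht, P.pt_top hR ht
    fun i => (if i0 + R ≤ i then 1 / (3 * ((R : ℝ) + 1)) else 0) - 1 / 2, colV]
  have h1 := div_le_div_of_nonneg_right (P.pt_mesh hn ht (N := ⌈b β⌉₊ + R) (by omega)) hn'.le
  by_cases hb : b t = i0
  · have e : ⌈b t⌉₊ = i0 := by rw [hb, Nat.ceil_natCast]
    rw [if_pos hb, if_neg (by omega), indicator_of_mem (mem_Ioc.2 ⟨ht.1, (P.le_T_iff ht).2 hb.le⟩)]
    linarith
  · have h2 : (i0 : ℝ) < b t := (P.b_ge ht').lt_of_ne' hb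
    have h3 : i0 < ⌈b t⌉₊ := Nat.lt_ceil.2 h2
    rw [if_neg hb, if_pos (by omega),
      indicator_of_notMem fun hm => absurd ((P.le_T_iff ht).1 hm.2) (not_le.2 h2)]
    have e : G h D (⌈b t⌉₊ + R : ℕ) t / (3 * (R + 1)) =
        1 / (3 * ((R : ℝ) + 1)) * G h D (⌈b t⌉₊ + R : ℕ) t := by ring
    linarith

lemma low_int {n : ℕ} (hn : 0 < n) : IntervalIntegrable (Low α β b h D i0 R n) volume α β ∧
    ∫ t in α..β, Low α β b h D i0 R n t =
      (∑ i ∈ Finset.Ico i0 (⌈b β⌉₊ + R), ∑ r ∈ Finset.Ioc 0 n,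
        ∫ t in TT α β b ((i : ℝ) - R)..TT α β b i + (r : ℝ) / n * (TT α β b (i + 1) - TT α β b i),
          G h D (i + (r : ℝ) / n) t) / n -
      (∑ i ∈ Finset.Ico i0 (⌈b β⌉₊ + R), ∫ t in TT α β b ((i : ℝ) - R)..TT α β b i, G h D i t) +
      (∑ i ∈ Finset.Ico i0 (⌈b β⌉₊ + R),
        ((if i0 + R ≤ i then 1 / (3 * ((R : ℝ) + 1)) else 0) - 1 / 2) *
          ∫ t in TT α β b ((i : ℝ) - R)..TT α β b (i + 1 - R), G h D (i + 1) t) +
      (∫ t in α..TT α β b i0, G h D i0 t) / 2 := by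
  have hn' : (0 : ℝ) < n := Nat.cast_pos.2 hn
  have hR : (0 : ℝ) ≤ R := Nat.cast_nonneg R
  have j1 : ∀ i : ℕ, IntervalIntegrable (fun t => ∑ r ∈ Finset.Ioc 0 n,
      (Ioo (TT α β b ((i : ℝ) - R)) (TT α β b i + (r : ℝ) / n *
        (TT α β b (i + 1) - TT α β b i))).indicator (G h D (i + (r : ℝ) / n)) t) volume α β :=
    fun i => fun_sum _ fun r _ => P.ind_int measurableSet_Ioo _
  have i1 := fun_sum (Finset.Ico i0 (⌈b β⌉₊ + R)) fun i _ => j1 i
  have j2 : ∀ i : ℕ, IntervalIntegrable (fun t =>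
      (Ioc (TT α β b ((i : ℝ) - R)) (TT α β b i)).indicator (G h D i) t) volume α β :=
    fun i => P.ind_int measurableSet_Ioc _
  have i2 := fun_sum (Finset.Ico i0 (⌈b β⌉₊ + R)) fun i _ => j2 i
  have j3 : ∀ i : ℕ, IntervalIntegrable (fun t =>
      ((if i0 + R ≤ i then 1 / (3 * ((R : ℝ) + 1)) else 0) - 1 / 2) *
      (Ioc (TT α β b ((i : ℝ) - R)) (TT α β b (i + 1 - R))).indicator (G h D (i + 1)) t)
      volume α β := fun i => (P.ind_int measurableSet_Ioc _).const_mul _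
  have i3 := fun_sum (Finset.Ico i0 (⌈b β⌉₊ + R)) fun i _ => j3 i
  have i4 : IntervalIntegrable (fun t => (Ioc α (TT α β b i0)).indicator (G h D i0) t / 2)
      volume α β := (P.ind_int measurableSet_Ioc _).div_const _
  refine ⟨(((i1.div_const _).sub i2).add i3).add i4, ?_⟩
  unfold Low
  rw [intervalIntegral.integral_add (((i1.div_const _).sub i2).add i3) i4,
    intervalIntegral.integral_add ((i1.div_const _).sub i2) i3,
    intervalIntegral.integral_sub (i1.div_const _) i2, intervalIntegral.integral_div,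
    intervalIntegral.integral_div, intervalIntegral.integral_finsetSum fun i _ => j1 i,
    intervalIntegral.integral_finsetSum fun i _ => j2 i,
    intervalIntegral.integral_finsetSum fun i _ => j3 i,
    int_Ioc _ le_rfl (P.T_mem _).1 (P.T_mem _).2]
  congr 2
  · congr 2
    · refine Finset.sum_congr rfl fun i _ => ?_
      rw [intervalIntegral.integral_finsetSum fun r _ => P.ind_int measurableSet_Ioo _]
      refine Finset.sum_congr rfl fun r hr => ?_
      have r1 : (r : ℝ) ≤ n := by exact_mod_cast (Finset.mem_Ioc.1 hr).2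
      have s0 : 0 ≤ (r : ℝ) / n := by positivity
      have s1 : (r : ℝ) / n ≤ 1 := (div_le_one hn').2 r1
      have h1 : TT α β b ((i : ℝ) - R) ≤ TT α β b i := P.T_mono (by linarith)
      have h2 : TT α β b i ≤ TT α β b (i + 1) := P.T_mono (by linarith)
      have h3 := (P.T_mem ((i : ℝ) + 1)).2
      exact int_Ioo _ (P.T_mem _).1 (by nlinarith) (by nlinarith)
    · funext i
      exact int_Ioc _ (P.T_mem _).1 (P.T_mono (by linarith)) (P.T_mem _).2
  · refine Finset.sum_congr rfl fun i _ => ?_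
    rw [intervalIntegral.integral_const_mul,
      int_Ioc _ (P.T_mem _).1 (P.T_mono (by linarith)) (P.T_mem _).2]

lemma sum_win (a N : ℕ) (haN : a ≤ N) (k : ℕ) :
    ∑ i ∈ Finset.Ico a N, (TT α β b i - TT α β b ((i : ℝ) - k)) ≤ k * (β - α) := by
  induction k with
  | zero => simp
  | succ k ih =>
    have h1 := tele (TT α β b) a N haN (k + 1)
    have h2 := (P.T_mem ((N : ℝ) - (k + 1))).2
    have h3 := (P.T_mem ((a : ℝ) - (k + 1))).1
    have e : ∀ i : ℕ, TT α β b i - TT α β b ((i : ℝ) - (k + 1 : ℕ)) =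
        (TT α β b i - TT α β b ((i : ℝ) - k)) +
          (TT α β b (i + 1 - (k + 1)) - TT α β b (i - (k + 1))) := fun i => by
      push_cast
      rw [show (i : ℝ) + 1 - (k + 1) = i - k by ring]
      ring
    simp only [e]
    rw [Finset.sum_add_distrib, h1]
    push_cast
    linarith

lemma main (hR : 0 < R) {n : ℕ} (hn : 0 < n) :
    -((β - α) * (max 0 (h (i0 + 1, α) - h (i0, α)) / 6 + (R + 2) * H / n)) ≤
      ∫ t in α..β, Low α β b h D i0 R n t := by
  have hn' : (0 : ℝ) < n := Nat.cast_pos.2 hn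
  have hR' : (0 : ℝ) < R := Nat.cast_pos.2 hR
  have hH := P.H_nonneg
  have hN : i0 ≤ ⌈b β⌉₊ + R := (P.ceil_ge ⟨P.ab, le_rfl⟩).trans (Nat.le_add_right _ _)
  rw [(P.low_int hn).2, Finset.sum_div]
  set N := ⌈b β⌉₊ + R
  set M := max 0 (h (i0 + 1, α) - h (i0, α))
  have hM : 0 ≤ M := le_max_left _ _
  let A : ℝ → ℝ := fun y => ∫ t in TT α β b (y - R)..TT α β b y, G h D y t
  have key : ∀ i ∈ Finset.Ico i0 N, (A (i + 1 - 0) - A (i - 0)) / 2 -
      (TT α β b (i + 1 - 0) - TT α β b (i - 0)) * (M / 6 + H / (6 * n)) -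
      (TT α β b i - TT α β b ((i : ℝ) - R)) * (H / (2 * n)) ≤
      (∑ r ∈ Finset.Ioc 0 n,
        ∫ t in TT α β b ((i : ℝ) - R)..TT α β b i + (r : ℝ) / n * (TT α β b (i + 1) - TT α β b i),
          G h D (i + (r : ℝ) / n) t) / n -
      (∫ t in TT α β b ((i : ℝ) - R)..TT α β b i, G h D i t) +
      ((if i0 + R ≤ i then 1 / (3 * ((R : ℝ) + 1)) else 0) - 1 / 2) *
          ∫ t in TT α β b ((i : ℝ) - R)..TT α β b (i + 1 - R), G h D (i + 1) t := by
    intro i hi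
    have hi0 : (i0 : ℝ) ≤ i := by exact_mod_cast (Finset.mem_Ico.1 hi).1
    have h1 := P.strip hi0 hn rfl rfl rfl rfl
    rw [← integral_add_adjacent_intervals (P.G_int (i + 1) _ (TT α β b (i + 1 - R)))
      (P.G_int _ _ _)] at h1
    have hl : 0 ≤ TT α β b (i + 1) - TT α β b i := sub_nonneg.2 (P.T_mono (by linarith))
    simp only [A, sub_zero]
    set l := TT α β b (i + 1) - TT α β b i with hl'
    have e1 : H * l / (6 * n) = l * (H / (6 * n)) := by ring
    have e2 : H * (TT α β b i - TT α β b ((i : ℝ) - R)) / (2 * n) =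
        (TT α β b i - TT α β b ((i : ℝ) - R)) * (H / (2 * n)) := by ring
    have hlM : 0 ≤ l * M := mul_nonneg hl hM
    split_ifs with hc
    · have h2 := P.def_high (y := i) (by exact_mod_cast hc) rfl hl'
      rw [div_eq_mul_one_div _ (3 * ((R : ℝ) + 1))] at h2
      nlinarith
    · have hc' : (i : ℝ) < i0 + R := by exact_mod_cast not_le.1 hc
      have h2 := P.def_low hi0 hc'.le
      have e3 : TT α β b ((i : ℝ) - R) = α := P.T_low (by linarith)
      have h3 : l / 6 * (G h D (i + 1) (TT α β b ((i : ℝ) - R)) -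
          G h D i (TT α β b ((i : ℝ) - R))) ≤ l / 6 * M := by
        rw [e3]; exact mul_le_mul_of_nonneg_left h2 (by positivity)
      nlinarith
  have h1 := Finset.sum_le_sum key
  rw [Finset.sum_add_distrib, Finset.sum_sub_distrib, Finset.sum_sub_distrib,
    Finset.sum_sub_distrib, ← Finset.sum_div, ← Finset.sum_mul, ← Finset.sum_mul, tele A i0 N hN 0,
    tele (TT α β b) i0 N hN 0] at h1
  have h2 := P.sum_win i0 N hN R
  have h3 : 0 ≤ A (N - 0) := P.int_nonneg _ (P.T_mono (by linarith))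
  have h4 : A (i0 - 0) = ∫ t in α..TT α β b i0, G h D i0 t := by
    simp only [A, sub_zero]
    rw [P.T_low (by linarith)]
  have h5 : TT α β b (N - 0) - TT α β b (i0 - 0) ≤ β - α :=
    sub_le_sub (P.T_mem _).2 (P.T_mem _).1
  have h6 := mul_le_mul_of_nonneg_right h5 (by positivity : 0 ≤ M / 6 + H / (6 * n))
  have h7 := mul_le_mul_of_nonneg_right h2 (by positivity : 0 ≤ H / (2 * n))
  have h8 : 0 ≤ (β - α) * (H / n) := mul_nonneg (sub_nonneg.2 P.ab) (by positivity)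
  have h9 : 0 ≤ R * ((β - α) * (H / n)) := by positivity
  have e1 : (β - α) * (M / 6 + (R + 2) * H / n) =
      (β - α) * M / 6 + R * ((β - α) * (H / n)) + 2 * ((β - α) * (H / n)) := by ring
  have e2 : (β - α) * (M / 6 + H / (6 * n)) = (β - α) * M / 6 + (β - α) * (H / n) / 6 := by ring
  have e3 : R * (β - α) * (H / (2 * n)) = R * ((β - α) * (H / n)) / 2 := by ring
  linarith

end Hyp

end NCOL

theorem col_of : St_COL := by
  intro α β H b h D i0 R n h1 hR hn h2 h3 h4 h5 h6 h7 h8 h9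
  have P : NCOL.Hyp α β H b h D i0 R := ⟨h1, h2, h3, h4, h5, h6, h7, h8, h9⟩
  refine ⟨P.colV_int hn, (P.main hR hn).trans ?_⟩
  exact integral_mono_on_of_le_Ioo h1 (P.low_int hn).1 (P.colV_int hn) fun t ht =>
    P.low_le hR hn ⟨ht.1, ht.2.le⟩

end Pool.Agent.Lib.MP_a25055_ag
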