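import Pool.Agent.Lib.MP_a25055_ag.Num

/-! The column terms have almost nonnegative integral. -/

open Module Finset MeasureTheory

noncomputable section

namespace Pool.Agent.Lib.MP_a25055_ag

namespace NCOLS

lemma toR_nonneg {ι : Type} (B : ι →₀ ℕ) : 0 ≤ toR B := fun i => by simp

/-- The restricted volume is bounded on feasible points. -/
lemma hf_bd (hB : St_NB) (hZ : St_ZAR) {Y : Tree} (hY : Y.DP) {κ : ℝ} (hκ : 0 ≤ κ)
    {B : Y.I →₀ ℝ} (h0 : 0 ≤ B) {j : Y.I} (hj : Y.sz j ≤ 12) {x : ℝ}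
    (hF : Y.Feas (κ • Y.L) (B ⊔ Finsupp.single j x)) :
    0 ≤ Y.hf (κ • Y.L) B j x ∧ Y.hf (κ • Y.L) B j x ≤ 36 * κ := by
  refine ⟨hZ.nef Y hY.toPlane _ _ j, ?_⟩
  obtain ⟨h1, h2, h3, -, -⟩ := hZ.least Y hY.toPlane _ _ hF
  have h4 := (hB.maxord Y hY κ _ ((h0.trans le_sup_left).trans h1) (h2 ▸ h3)).2.2.1 j
  rw [Tree.hf, h2]
  nlinarith

lemma pr_le (hA : St_NA) (hB : St_NB) {Y : Tree} (hY : Y.DP) {Q : Finset Y.T} (hQ : Y.Closed Q)
    (hs : Y.T0 ⊆ Q) {j : Y.I} (hj : Y.On Q j) (hj' : Y.sz j ≤ 12) {M : Y.Cl} (hM : Y.Nef M) :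
    Y.ip M (Y.pr Q (Y.gam j)) ≤ Y.ip M (Y.gam j) + 12 * Y.kap M := by
  obtain ⟨h1, -⟩ := (hB.prE Y hY.toPlane Q hQ j).2 hj
  have h2 := (hA.nef Y hY.toPlane M hM).2.1
  have h3 : Y.kap M = ∑ q, if q ∈ Y.T0 then 0 else M.2 q := by
    rw [Tree.kap, ← Finset.sum_filter_add_sum_filter_not Finset.univ (fun q => q ∈ Y.T0)]
    rw [Finset.sum_congr rfl (g := fun _ => (0 : ℝ)) (s₁ := Finset.univ.filter fun q => q ∈ Y.T0)
      (fun q hq => by rw [if_pos (Finset.mem_filter.1 hq).2]), Finset.sum_const_zero, zero_add]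
    refine Finset.sum_congr (by ext q; simp) fun q hq => ?_
    rw [if_neg (Finset.mem_filter.1 hq).2]
  have h4 : ∑ q, M.2 q * (Y.gam j).2 q ≤ ∑ q, (M.2 q * (if q ∈ Q then (Y.gam j).2 q else 0) +
      12 * if q ∈ Y.T0 then 0 else M.2 q) := by
    refine Finset.sum_le_sum fun q _ => ?_
    by_cases hq : q ∈ Q
    · rw [if_pos hq]
      split_ifs
      · simp
      · nlinarith [(h2 q).1]
    · rw [if_neg hq, if_neg fun h => hq (hs h)]
      nlinarith [(h2 q).1, (h1 q hq).2]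
  rw [Finset.sum_add_distrib, ← Finset.mul_sum, ← h3] at h4
  simp only [Tree.ip, Tree.pr]
  linarith

lemma le_pr (hB : St_NB) {Y : Tree} (hY : Y.DP) {Q : Finset Y.T} (hQ : Y.Closed Q)
    {j : Y.I} (hj : Y.On Q j) {M : Y.Cl} (hM : Y.Nef M) :
    Y.ip M (Y.gam j) ≤ Y.ip M (Y.pr Q (Y.gam j)) := by
  obtain ⟨-, E, hE, h1, -⟩ := (hB.prE Y hY.toPlane Q hQ j).2 hj
  have h2 := hM.ip_cl hE
  rw [h1, Tree.ip_sub_right] at h2
  linarith

end NCOLS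

open NCOLS in
theorem cols_of (hA : St_NA) (hB : St_NB) (hZ : St_ZAR) (hL : St_LIP) (hE : St_ENV) (hP : St_PT)
    (hC : St_COL) (hW : St_LOW) (h2 : St_PW2) : St_COLS := by
  intro c0 ε hε
  obtain ⟨C2, hC2, h2⟩ := h2 c0 ε hε
  obtain ⟨CL, hCL, hL⟩ := hL (c0 + 1) ε hε
  have hK : (0 : ℝ) < ((c0 : ℝ) + 12) * (1806 + 2 * CL) := by positivity
  refine ⟨C2 + CL + 1 + (c0 + 12) * (1806 + 2 * CL), by positivity, ?_⟩
  intro k Y hY S U a T β Bc Q hk hU hβ hctx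
  have hk1 : (1 : ℝ) ≤ k := by linarith
  have hk1' : 1 ≤ k := by exact_mod_cast hk1
  have haβ : (a : ℝ) ≤ β := hβ.1
  have haT : a ≤ T := by exact_mod_cast hβ.1.trans hβ.2
  have hsub : Set.Icc (a : ℝ) β ⊆ Set.Icc (a : ℝ) T := Set.Icc_subset_Icc_right hβ.2
  obtain ⟨hmono, hpt, hBa, hBm, -⟩ := hP Y hY.toPlane k S U a T hU haT
  have hpw := fun t ht => h2 k Y hY S _ _ _ _ _ (by linarith) (hctx t ht)
  have ha : (a : ℝ) ∈ Set.Icc (a : ℝ) β := ⟨le_rfl, haβ⟩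
  have hc := hctx a ha
  have h0 : ∀ t ∈ Set.Icc (a : ℝ) β, 0 ≤ S.Bh U a T t := fun t ht =>
    (toR_nonneg _).trans (hctx t ht).lo
  have hUa : U a ≠ ⊥ := fun h => hU.2 (eq_bot_iff.2 (h ▸ hU.1 haT))
  obtain ⟨hf0, -, hkap, -⟩ := hW.fM Y hY k S (U a) hk1' hUa
  have hmu : min (Y.kap (S.mov (U a))) k ≤ S.mu (U a) := by
    rw [Sec.mu]; nlinarith
  have hmu0 : 0 ≤ S.mu (U a) := (le_min hkap (by linarith)).trans hmu
  have hconv : ∀ i, ConvexOn ℝ (Set.Icc (a : ℝ) β) (fun t => S.Bh U a T t i) := fun i =>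
    ((hE.conv (fun n => S.base (U n) i) a T haT).1.subset hsub (convex_Icc _ _)).congr
      fun t ht => ((hpt t (hsub ht)).1 i).symm
  have hcont : ∀ i, ContinuousOn (fun t => S.Bh U a T t i) (Set.Icc (a : ℝ) β) := fun i =>
    ((hE.conv (fun n => S.base (U n) i) a T haT).2.1.mono hsub).congr
      fun t ht => (hpt t (hsub ht)).1 i
  have key : ∀ j ∈ Y.SS k Bc Q, IntervalIntegrable (fun t => colV (Y.hf ((k : ℝ) • Y.L)
      (S.Bh U a T t) j) (S.Bh U a T t j) (S.base (U a) j) 48 k) volume a β ∧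
      -((1806 + 2 * CL) * (1 + S.mu (U a)) * (β - a)) ≤ ∫ t in (a : ℝ)..β,
        colV (Y.hf ((k : ℝ) • Y.L) (S.Bh U a T t) j) (S.Bh U a T t j) (S.base (U a) j) 48 k := by
    intro j hj
    obtain ⟨hjQ, hjs, -, -⟩ := (hpw a ha).2.1 j hj
    have hcc : ∀ p q : ℝ × ℝ, p.2 ∈ Set.Icc (a : ℝ) β → S.Bh U a T p.2 j ≤ p.1 →
        Y.Feas ((k : ℝ) • Y.L) (S.Bh U a T p.2 ⊔ Finsupp.single j p.1) →
        q.2 ∈ Set.Icc (a : ℝ) β → S.Bh U a T q.2 j ≤ q.1 →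
        Y.Feas ((k : ℝ) • Y.L) (S.Bh U a T q.2 ⊔ Finsupp.single j q.1) → ∀ u v : ℝ, 0 ≤ u →
        0 ≤ v → u + v = 1 → (u * p.2 + v * q.2 ∈ Set.Icc (a : ℝ) β ∧
          S.Bh U a T (u * p.2 + v * q.2) j ≤ u * p.1 + v * q.1 ∧
          Y.Feas ((k : ℝ) • Y.L) (S.Bh U a T (u * p.2 + v * q.2) ⊔
            Finsupp.single j (u * p.1 + v * q.1))) ∧
          u * Y.hf ((k : ℝ) • Y.L) (S.Bh U a T p.2) j p.1 +
            v * Y.hf ((k : ℝ) • Y.L) (S.Bh U a T q.2) j q.1 ≤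
            Y.hf ((k : ℝ) • Y.L) (S.Bh U a T (u * p.2 + v * q.2)) j (u * p.1 + v * q.1) := by
      intro p q hp1 hp2 hp3 hq1 hq2 hq3 u v hu hv huv
      have hm : u * p.2 + v * q.2 ∈ Set.Icc (a : ℝ) β := convex_Icc _ _ hp1 hq1 hu hv huv
      have hle : S.Bh U a T (u * p.2 + v * q.2) ≤ u • S.Bh U a T p.2 + v • S.Bh U a T q.2 :=
        fun i => (hconv i).2 hp1 hq1 hu hv huv
      have h3 := hZ.conc Y hY.toPlane _ _ _ _ j p.1 q.1 u v hu hv huv (h0 _ hm) (h0 _ hp1)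
        (h0 _ hq1) hle (hctx _ hp1).nef (hctx _ hq1).nef hp2 hq2 hp3 hq3
      refine ⟨⟨hm, (hle j).trans ?_, h3.1⟩, h3.2⟩
      simp only [Finsupp.coe_add, Finsupp.coe_smul, Pi.add_apply, Pi.smul_apply, smul_eq_mul]
      gcongr
    obtain ⟨h3, h4⟩ := hC a β (36 * k) (fun t => S.Bh U a T t j)
      (fun p => Y.hf ((k : ℝ) • Y.L) (S.Bh U a T p.2) j p.1)
      {p | p.2 ∈ Set.Icc (a : ℝ) β ∧ S.Bh U a T p.2 j ≤ p.1 ∧
        Y.Feas ((k : ℝ) • Y.L) (S.Bh U a T p.2 ⊔ Finsupp.single j p.1)}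
      (S.base (U a) j) 48 k haβ (by norm_num) hk1' (hconv j) (hcont j)
      (fun s hs t ht hst => hBm (hsub hs) (hsub ht) hst j) (by rw [hBa]; rfl)
      ⟨fun p hp q hq u v hu hv huv => (hcc p q hp.1 hp.2.1 hp.2.2 hq.1 hq.2.1 hq.2.2 u v hu hv huv).1,
        fun p hp q hq u v hu hv huv =>
          (hcc p q hp.1 hp.2.1 hp.2.2 hq.1 hq.2.1 hq.2.2 u v hu hv huv).2⟩
      (fun t ht x hx => ⟨ht, hx.1, (((hpw t ht).2.1 j hj).2.2.2 x
        ⟨hx.1, hx.2.trans (by push_cast; linarith)⟩).1⟩)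
      (fun p hp => hf_bd hB hZ hY (by linarith) (h0 _ hp.1) hjs hp.2.2)
      (fun x s t hs ht hst => hZ.anti Y hY.toPlane _ _ _ j x (h0 _ hs.1)
        (hBm (hsub hs.1) (hsub ht.1) hst) (hctx _ ht.1).nef ht.2.1)
    refine ⟨h3, le_trans ?_ h4⟩
    have hnef : Y.Nef (S.mov (U a)) := S.nef_mov hY.toPlane hUa
    have e0 : Y.hf ((k : ℝ) • Y.L) (S.Bh U a T a) j (S.base (U a) j : ℕ) =
        Y.ip (S.mov (U a)) (Y.gam j) := by
      rw [hBa]
      exact hZ.self Y hY.toPlane _ _ j (toR_nonneg _) hnef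
    have hdv : Y.dv {j} (fun _ => ((S.base (U a) j : ℕ) : ℝ) + 1) =
        Finsupp.single j (((S.base (U a) j : ℕ) : ℝ) + 1) := by simp [Tree.dv]
    have h5 := hL Y hY Q {j} k (S.Bh U a T a) (fun _ => ((S.base (U a) j : ℕ) : ℝ) + 1)
      hc.qok.closed (hc.qok.card.trans (Nat.le_succ _)) hc.qok.disc (by simp)
      (fun i hi => by rw [Finset.mem_singleton.1 hi]; exact ⟨hjQ, hjs⟩) (by linarith) (h0 _ ha)
      hc.nef hc.big (fun i hi => by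
        rw [Finset.mem_singleton.1 hi, hBa, toR_apply]; linarith)
    rw [hdv] at h5
    have h6 := (h5.2.2 j hjQ).2.2
    have h7 := le_pr hB hY hc.qok.closed hjQ (hZ.nef Y hY.toPlane ((k : ℝ) • Y.L)
      (S.Bh U a T a ⊔ Finsupp.single j (((S.base (U a) j : ℕ) : ℝ) + 1)))
    have h8 := pr_le hA hB hY hc.qok.closed hc.qok.sub hjQ hjs hnef
    have h9 := (hf_bd hB hZ hY (by linarith) (h0 _ ha) hjs h5.1).2
    have e1 : (k : ℝ) • Y.L - Y.cl (S.Bh U a T a) = S.mov (U a) := by rw [hBa]; rfl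
    rw [e1] at h6
    have h10 : max 0 (Y.hf ((k : ℝ) • Y.L) (S.Bh U a T a) j (((S.base (U a) j : ℕ) : ℝ) + 1) -
        Y.hf ((k : ℝ) • Y.L) (S.Bh U a T a) j (S.base (U a) j : ℕ)) ≤
        36 * S.mu (U a) + 12 * CL := by
      refine max_le (by positivity) ?_
      rw [e0]
      have h11 := hnef j
      have h12 : CL * Y.sz j ≤ CL * 12 := by gcongr
      rcases le_total (Y.kap (S.mov (U a))) k with h | h
      · rw [min_eq_left h] at hmu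
        rw [Tree.hf]
        linarith
      · rw [min_eq_right h] at hmu
        linarith
    have e2 : ((48 : ℕ) + 2 : ℝ) * (36 * k) / k = 1800 := by
      field_simp; norm_num
    rw [e2, neg_le_neg_iff, mul_comm]
    refine mul_le_mul_of_nonneg_right ?_ (by linarith)
    nlinarith
  refine ⟨?_, ?_⟩
  · have := IntervalIntegrable.sum (Y.SS k Bc Q) fun j hj => (key j hj).1
    rw [Finset.sum_fn] at this
    exact this
  · rw [intervalIntegral.integral_finsetSum fun j hj => (key j hj).1]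
    refine le_trans ?_ (Finset.card_nsmul_le_sum _ _ _ fun j hj => (key j hj).2)
    have hcard : ((Y.SS k Bc Q).card : ℝ) ≤ c0 + 12 := by exact_mod_cast (hpw a ha).1
    rw [nsmul_eq_mul, mul_neg, neg_le_neg_iff]
    have h3 : 0 ≤ (1 + S.mu (U a)) * (β - a) := mul_nonneg (by linarith) (by linarith)
    have h4 : ((Y.SS k Bc Q).card : ℝ) * (1806 + 2 * CL) ≤
        C2 + CL + 1 + (c0 + 12) * (1806 + 2 * CL) := by nlinarith
    calc _ = ((Y.SS k Bc Q).card : ℝ) * (1806 + 2 * CL) * ((1 + S.mu (U a)) * (β - a)) := by ring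
      _ ≤ _ := mul_le_mul_of_nonneg_right h4 h3
      _ = _ := by ring

end Pool.Agent.Lib.MP_a25055_ag
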