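import Pool.Agent.Lib.MP_a25055_ag.Num

/-! The numerical core: gluing the two zones. -/

open Module Finset MeasureTheory

noncomputable section

namespace Pool.Agent.Lib.MP_a25055_ag

namespace NCORE

lemma harm (τ m : ℕ) (hτ : 1 ≤ τ) :
    (m : ℝ) / 2 ≤ ∑ j ∈ Ioc τ (2 ^ m * τ), (1 : ℝ) / j := by
  induction m with
  | zero => simp
  | succ m ih =>
    have hx : 1 ≤ 2 ^ m * τ := Nat.mul_pos (Nat.pos_of_ne_zero (by positivity)) hτ
    have h1 : τ ≤ 2 ^ m * τ := Nat.le_mul_of_pos_left _ (by positivity)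
    have h2 : 2 ^ (m + 1) * τ = 2 ^ m * τ + 2 ^ m * τ := by ring
    set x := 2 ^ m * τ with hxdef
    rw [h2, ← Finset.sum_Ioc_consecutive _ h1 (Nat.le_add_right x x)]
    have h3 : (Ioc x (x + x)).card • ((1 : ℝ) / (x + x)) ≤ ∑ j ∈ Ioc x (x + x), (1 : ℝ) / j := by
      refine Finset.card_nsmul_le_sum _ _ _ fun j hj => ?_
      obtain ⟨a, b⟩ := Finset.mem_Ioc.1 hj
      refine one_div_le_one_div_of_le (by exact_mod_cast (by omega : 0 < j)) (by exact_mod_cast b)
    have hx' : (0 : ℝ) < x := by exact_mod_cast hx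
    rw [Nat.card_Ioc, Nat.add_sub_cancel, nsmul_eq_mul] at h3
    have h4 : (x : ℝ) * (1 / (x + x)) = 1 / 2 := by field_simp; ring
    push_cast
    linarith

lemma core (ρ1 ρ2 C η : ℝ) (h1 : 0 < ρ1) (h2 : 0 < ρ2) (hC : 0 < C) (hη : 0 < η) :
    ∃ k0 : ℕ, ∀ k : ℕ, k0 ≤ k → 1 ≤ k → ∀ (T : ℕ) (D fM mu : ℕ → ℝ), 1 ≤ T → D 0 = 0 → fM 0 = 0 →
      mu 0 = 0 → (∀ n ≤ T, k * fM n ≤ mu n ∧ 0 ≤ mu n) →
      (∀ a ≤ T, fM a ≤ η → ρ1 * ∑ n ∈ Ioc 0 a, (mu n + 1 / k) ≤ D a) →
      (∀ a T1 : ℕ, a ≤ T1 → T1 ≤ T → fM a ≤ η / 2 → fM T1 ≤ η → (∀ n, T1 < n → n ≤ T → η < fM n) →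
        ρ2 * k * (T - T1) - C * (1 + mu a) * (T - a) ≤ D T - D a) →
      (∀ a ≤ T, -(4 * k * ((T : ℝ) - a)) ≤ D T - D a) →
      min (ρ1 / k) (min (ρ2 / 2) 1) ≤ D T := by
  classical
  set e := min (η / 2) (ρ2 / (4 * C)) with he
  have he0 : 0 < e := lt_min (by positivity) (by positivity)
  have he1 : e ≤ η / 2 := min_le_left _ _
  have he2 : C * e ≤ ρ2 / 4 := by
    have : e ≤ ρ2 / (4 * C) := min_le_right _ _
    rw [le_div_iff₀ (by positivity)] at this
    linarith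
  obtain ⟨m, hm⟩ := exists_nat_ge (10 / (ρ1 * e))
  rw [div_le_iff₀ (by positivity)] at hm
  obtain ⟨k0, hk0⟩ := exists_nat_ge (4 * C * 2 ^ m / ρ2)
  refine ⟨k0, fun k hk hk1 T D fM mu hT D0 f0 m0 hmu W1 W2 cr => ?_⟩
  have hk1' : (1 : ℝ) ≤ k := by exact_mod_cast hk1
  have hks : C * 2 ^ m ≤ ρ2 * k / 4 := by
    have : 4 * C * 2 ^ m / ρ2 ≤ k := hk0.trans (by exact_mod_cast hk)
    rw [div_le_iff₀ h2] at this
    linarith
  set T1 := Nat.findGreatest (fun n => fM n ≤ η) T with hT1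
  have T1le : T1 ≤ T := Nat.findGreatest_le T
  have T1s : fM T1 ≤ η :=
    Nat.findGreatest_spec (P := fun n => fM n ≤ η) (Nat.zero_le T) (by rw [f0]; exact hη.le)
  have T1g : ∀ n, T1 < n → n ≤ T → η < fM n := fun n a b =>
    lt_of_not_ge (Nat.findGreatest_is_greatest (P := fun n => fM n ≤ η) a b)
  clear_value T1
  have sum_nonneg : ∀ a ≤ T, ∀ n ∈ Ioc 0 a, 0 ≤ mu n + 1 / (k : ℝ) := fun a ha n hn =>
    add_nonneg (hmu n ((Finset.mem_Ioc.1 hn).2.trans ha)).2 (by positivity)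
  obtain ⟨τ, rfl⟩ := Nat.exists_eq_add_of_le T1le
  rcases Nat.eq_zero_or_pos τ with rfl | hτ
  · refine (min_le_left _ _).trans (le_trans ?_ (W1 _ le_rfl T1s))
    have := Finset.single_le_sum (sum_nonneg _ le_rfl) (Finset.mem_Ioc.2 ⟨Nat.one_pos, hT⟩)
    have h3 := (hmu 1 hT).2
    rw [div_eq_mul_one_div]
    exact mul_le_mul_of_nonneg_left (by linarith) h1.le
  have hτ' : (1 : ℝ) ≤ τ := by exact_mod_cast hτ
  have hkτ : (1 : ℝ) ≤ k * τ := one_le_mul_of_one_le_of_one_le hk1' hτ'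
  by_cases hx : ∃ a ≤ T1, T1 + τ ≤ a + 2 ^ m * τ ∧ mu a * ((T1 + τ : ℕ) - a) ≤ e * k * τ
  · obtain ⟨a, ha, hb, hc⟩ := hx
    have ha' : (a : ℝ) ≤ T1 := by exact_mod_cast ha
    have hb' : (T1 : ℝ) + τ ≤ a + 2 ^ m * τ := by exact_mod_cast hb
    have haT : a ≤ T1 + τ := ha.trans (Nat.le_add_right _ _)
    obtain ⟨g1, g2⟩ := hmu a haT
    push_cast at hc
    have g3 : mu a ≤ e * k := by
      have : mu a * τ ≤ e * k * τ := le_trans (mul_le_mul_of_nonneg_left (by linarith) g2) hc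
      exact le_of_mul_le_mul_right this (by linarith)
    have g4 : fM a ≤ e := by
      have : k * fM a ≤ k * e := by linarith
      exact le_of_mul_le_mul_left this (by linarith)
    have g5 := W2 a T1 ha T1le (g4.trans he1) T1s T1g
    have g6 := W1 a haT (by linarith)
    have g7 : 0 ≤ ρ1 * ∑ n ∈ Ioc 0 a, (mu n + 1 / (k : ℝ)) :=
      mul_nonneg h1.le (Finset.sum_nonneg (sum_nonneg a haT))
    push_cast at g5
    have g8 : C * ((T1 : ℝ) + τ - a) ≤ ρ2 * k / 4 * τ :=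
      calc C * ((T1 : ℝ) + τ - a) ≤ C * (2 ^ m * τ) := mul_le_mul_of_nonneg_left (by linarith) hC.le
        _ = C * 2 ^ m * τ := by ring
        _ ≤ _ := mul_le_mul_of_nonneg_right hks (by linarith)
    have g9 : C * (mu a * ((T1 : ℝ) + τ - a)) ≤ ρ2 / 4 * (k * τ) :=
      calc _ ≤ C * (e * k * τ) := mul_le_mul_of_nonneg_left hc hC.le
        _ = C * e * (k * τ) := by ring
        _ ≤ _ := mul_le_mul_of_nonneg_right he2 (by linarith)
    refine (min_le_right _ _).trans ((min_le_left _ _).trans ?_)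
    nlinarith
  · push Not at hx
    have hbig : 2 ^ m * τ < T1 + τ := by
      by_contra hh
      have := hx 0 (Nat.zero_le _) (by omega)
      rw [m0, zero_mul] at this
      exact absurd this (not_lt.2 (by positivity))
    have g1 : ∑ j ∈ Ioc τ (2 ^ m * τ), e * k * τ * ((1 : ℝ) / j) ≤
        ∑ n ∈ Ioc 0 T1, (mu n + 1 / (k : ℝ)) := by
      calc _ ≤ ∑ j ∈ Ioc τ (2 ^ m * τ), (mu (T1 + τ - j) + 1 / (k : ℝ)) := by
            refine Finset.sum_le_sum fun j hj => ?_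
            obtain ⟨a, b⟩ := Finset.mem_Ioc.1 hj
            have := hx (T1 + τ - j) (by omega) (by omega)
            rw [Nat.cast_sub (by omega), sub_sub_cancel] at this
            have hj0 : (0 : ℝ) < j := by exact_mod_cast (by omega : 0 < j)
            rw [mul_one_div, div_le_iff₀ hj0]
            have : (0 : ℝ) ≤ 1 / k * j := by positivity
            linarith
        _ = ∑ n ∈ (Ioc τ (2 ^ m * τ)).image (fun j => T1 + τ - j), (mu n + 1 / (k : ℝ)) := by
            rw [Finset.sum_image]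
            intro a ha b hb hab
            have := (Finset.mem_Ioc.1 (Finset.mem_coe.1 ha)).2
            have := (Finset.mem_Ioc.1 (Finset.mem_coe.1 hb)).2
            simp only at hab
            omega
        _ ≤ _ := by
            refine Finset.sum_le_sum_of_subset_of_nonneg (fun n hn => ?_)
              fun n hn _ => sum_nonneg T1 T1le n hn
            obtain ⟨j, hj, rfl⟩ := Finset.mem_image.1 hn
            obtain ⟨a, b⟩ := Finset.mem_Ioc.1 hj
            exact Finset.mem_Ioc.2 ⟨by omega, by omega⟩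
    rw [← Finset.mul_sum] at g1
    have g2 := harm τ m hτ
    have g3 := W1 T1 T1le T1s
    have g4 := cr T1 T1le
    push_cast at g4
    have g5 : e * k * τ * ((m : ℝ) / 2) ≤ ∑ n ∈ Ioc 0 T1, (mu n + 1 / (k : ℝ)) :=
      le_trans (mul_le_mul_of_nonneg_left g2 (by positivity)) g1
    have g6 : 5 * (k * τ) ≤ ρ1 * (e * k * τ * ((m : ℝ) / 2)) :=
      calc (5 : ℝ) * (k * τ) ≤ m * (ρ1 * e) / 2 * (k * τ) :=
            mul_le_mul_of_nonneg_right (by linarith) (by linarith)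
        _ = _ := by ring
    have g7 := mul_le_mul_of_nonneg_left g5 h1.le
    refine (min_le_right _ _).trans ((min_le_right _ _).trans ?_)
    nlinarith

lemma sum_le_int (f : ℝ → ℝ) (g : ℕ → ℝ) (a b : ℕ) (hab : a ≤ b)
    (hf : ContinuousOn f (Set.Icc (a : ℝ) b)) (h : ∀ t ∈ Set.Icc (a : ℝ) b, g ⌈t⌉₊ ≤ f t) :
    ∑ n ∈ Ioc a b, g n ≤ ∫ t in (a : ℝ)..b, f t := by
  induction b, hab using Nat.le_induction with
  | base => simp
  | succ b hab ih =>
    have hab' : (a : ℝ) ≤ b := by exact_mod_cast hab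
    have s1 : Set.Icc (a : ℝ) b ⊆ Set.Icc (a : ℝ) (b + 1 : ℕ) :=
      Set.Icc_subset_Icc le_rfl (by push_cast; linarith)
    have s2 : Set.Icc (b : ℝ) (b + 1 : ℕ) ⊆ Set.Icc (a : ℝ) (b + 1 : ℕ) :=
      Set.Icc_subset_Icc hab' le_rfl
    have hb : (b : ℝ) ≤ (b + 1 : ℕ) := by push_cast; linarith
    have i1 := (hf.mono s1).intervalIntegrable_of_Icc (μ := volume) hab'
    have i2 := (hf.mono s2).intervalIntegrable_of_Icc (μ := volume) hb
    rw [Finset.sum_Ioc_succ_top hab, ← intervalIntegral.integral_add_adjacent_intervals i1 i2]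
    refine add_le_add (ih (hf.mono s1) fun t ht => h t (s1 ht)) ?_
    have := intervalIntegral.integral_mono_on_of_le_Ioo hb
      (intervalIntegrable_const (c := g (b + 1))) i2 fun t ht => by
        have e : ⌈t⌉₊ = b + 1 := (Nat.ceil_eq_iff (by omega)).2 ⟨by simpa using ht.1, ht.2.le⟩
        rw [← e]
        exact h t (s2 ⟨ht.1.le, ht.2.le⟩)
    simpa using this

end NCORE

theorem core_of (hA : St_NA) (hB : St_NB) (hPT : St_PT) (hL : St_LOW) (hW1 : St_W1)
    (hW2 : St_W2) : St_CORE := by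
  obtain ⟨k1, ρ1, h1, W1⟩ := hW1
  obtain ⟨ρ2, C, h2, hC, W2⟩ := hW2
  have hη : 0 < eta := by unfold eta; positivity
  obtain ⟨k0, hk0⟩ := NCORE.core ρ1 ρ2 C eta h1 h2 hC hη
  obtain ⟨k2, hk2⟩ := exists_nat_ge C
  refine ⟨k0 + k1 + k2 + 3, fun k hk => ?_⟩
  have hk1 : (0 : ℝ) < k := by exact_mod_cast (by omega : 0 < k)
  refine ⟨min (ρ1 / k) (min (ρ2 / 2) 1), by positivity, fun Y hY S U T hS hU U0 U1 hT => ?_⟩
  have hP := hY.toPlane
  obtain ⟨-, p2, -, -, -, p6, -, -, -, p10⟩ := hPT Y hP k S U 0 T hU (Nat.zero_le T)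
  have ne : ∀ n ≤ T, U n ≠ ⊥ := fun n hn e => hU.2 (le_bot_iff.1 (e ▸ hU.1 hn))
  have rat_ge : 1 / 2 ≤ rat k := by
    unfold rat
    rw [le_div_iff₀ (by positivity)]
    nlinarith
  set f : ℝ → ℝ := fun t => rat k * Y.sq (S.Pt U 0 T t) with hf
  have fc : ContinuousOn f (Set.Icc ((0 : ℕ) : ℝ) T) := continuousOn_const.mul p6
  have sub : ∀ a : ℕ, Set.Icc (a : ℝ) T ⊆ Set.Icc ((0 : ℕ) : ℝ) T := fun a =>
    Set.Icc_subset_Icc (by exact_mod_cast Nat.zero_le a) le_rfl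
  set D : ℕ → ℝ := fun a => (∫ t in (0 : ℝ)..a, f t) - ∑ n ∈ Ioc 0 a, (finrank ℂ (U n) : ℝ)
    with hD
  have diff : ∀ a ≤ T, D T - D a =
      (∫ t in (a : ℝ)..T, f t) - ∑ n ∈ Ioc a T, (finrank ℂ (U n) : ℝ) := fun a ha => by
    have ha' : (a : ℝ) ≤ T := by exact_mod_cast ha
    have i1 : IntervalIntegrable f volume 0 a :=
      (fc.mono (Set.Icc_subset_Icc (by simp) ha')).intervalIntegrable_of_Icc (by positivity)
    have i2 : IntervalIntegrable f volume a T := (fc.mono (sub a)).intervalIntegrable_of_Icc ha'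
    simp only [hD]
    rw [← intervalIntegral.integral_add_adjacent_intervals i1 i2,
      ← Finset.sum_Ioc_consecutive _ (Nat.zero_le a) ha]
    ring
  have mov0 : S.mov (U 0) = (k : ℝ) • Y.L := by
    rw [U0, Sec.mov, hL.top Y hY k S (by omega) hS]
    have : toR (0 : Y.I →₀ ℕ) = 0 := by ext; simp
    rw [this, map_zero, sub_zero]
  have f0 : S.fM (U 0) = 0 := by
    have := hB.LL Y hY
    rw [Sec.fM, mov0, Tree.sq, Tree.ip_smul_left, Tree.ip_smul_right, ← Tree.sq, this]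
    field_simp
    ring
  have m0 : S.mu (U 0) = 0 := by
    have : Y.kap ((k : ℝ) • Y.L) = 0 := by
      refine Finset.sum_eq_zero fun q hq => ?_
      simp [Tree.L, Finset.mem_compl.1 hq]
    rw [Sec.mu, f0, mov0, this, min_eq_left hk1.le]
    ring
  have key := hk0 k (by omega) (by omega) T D (fun n => S.fM (U n)) (fun n => S.mu (U n)) hT
    (by simp [hD]) f0 m0 (fun n hn => ?_) (fun a ha hfa => ?_) (fun a T1 a1 a2 a3 a4 a5 => ?_)
    fun a ha => ?_
  · simp only [hD, hf] at key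
    rw [intervalIntegral.integral_const_mul] at key
    linarith
  · obtain ⟨g1, -, g2, -⟩ := hL.fM Y hY k S (U n) (by omega) (ne n hn)
    have : 0 ≤ min (Y.kap (S.mov (U n))) k := le_min g2 hk1.le
    have g3 : 0 ≤ k * S.fM (U n) := by positivity
    simp only [Sec.mu]
    constructor <;> linarith
  · exact W1 k (by omega) Y hY S U T a hS hU U0 U1 ha hfa
  · have haT : a ≤ T := a1.trans a2
    have ha' : (a : ℝ) ≤ T := by exact_mod_cast haT
    rw [diff a haT]
    refine (W2 k Y hY S U T a T1 (hk2.trans (by exact_mod_cast (by omega : k2 ≤ k))) hS hU a1 a2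
      a3 a4 a5).trans (sub_le_sub_right ?_ _)
    obtain ⟨-, -, -, -, -, q6, -⟩ := hPT Y hP k S U a T hU haT
    exact intervalIntegral.integral_mono_on ha'
      ((continuousOn_const.mul q6).intervalIntegrable_of_Icc ha')
      ((fc.mono (sub a)).intervalIntegrable_of_Icc ha') fun t ht =>
        mul_le_mul_of_nonneg_left (p10 a (Nat.zero_le a) t ht) (by linarith)
  · rw [diff a ha]
    have := NCORE.sum_le_int f (fun n => (finrank ℂ (U n) : ℝ) - 4 * k) a T ha (fc.mono (sub a))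
      fun t ht => by
        obtain ⟨-, -, -, g1, g2⟩ := p2 t (sub a ht)
        have g3 := hL.crude Y hY k S (U ⌈t⌉₊) (by omega) hS.rr
        have g4 := (hA.nef Y hP _ g1).2.2
        have g5 := mul_le_mul_of_nonneg_right rat_ge g4
        simp only [hf]
        linarith
    rw [Finset.sum_sub_distrib, Finset.sum_const, Nat.card_Ioc, nsmul_eq_mul, Nat.cast_sub ha]
      at this
    linarith

end Pool.Agent.Lib.MP_a25055_ag
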