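import Pool.Agent.Lib.MP_a25055_ag.Num

/-! Lower convex envelopes of integer sequences. -/

open Finset

noncomputable section

namespace Pool.Agent.Lib.MP_a25055_ag

namespace NENV

variable {o : ℕ → ℕ} {a b : ℕ} {θ θ' : ℕ → ℝ} {s t : ℝ}

/-- the envelope at a real point -/
def G (o : ℕ → ℕ) (a b : ℕ) (t : ℝ) : ℝ :=
  sInf {v | ∃ θ, Prob a b θ t ∧ v = ∑ i ∈ Icc a b, θ i * o i}

lemma prob_mem (h : Prob a b θ t) : t ∈ Set.Icc (a : ℝ) b := by
  obtain ⟨h0, h1, h2⟩ := h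
  constructor
  · calc (a : ℝ) = ∑ i ∈ Icc a b, θ i * a := by rw [← sum_mul, h1, one_mul]
      _ ≤ _ := h2 ▸ sum_le_sum fun i hi =>
        mul_le_mul_of_nonneg_left (Nat.cast_le.2 (mem_Icc.1 hi).1) (h0 i)
  · calc t ≤ ∑ i ∈ Icc a b, θ i * b := h2 ▸ sum_le_sum fun i hi =>
        mul_le_mul_of_nonneg_left (Nat.cast_le.2 (mem_Icc.1 hi).2) (h0 i)
      _ = b := by rw [← sum_mul, h1, one_mul]

lemma sum_delta {n : ℕ} (hn : n ∈ Icc a b) (f : ℕ → ℝ) :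
    ∑ i ∈ Icc a b, (if i = n then (1 : ℝ) else 0) * f i = f n := by
  simp [hn]

lemma prob_delta {n : ℕ} (hn : n ∈ Icc a b) : Prob a b (fun i => if i = n then 1 else 0) n :=
  ⟨fun i => by positivity, by simp [hn], sum_delta hn _⟩

lemma sum_comb (u v : ℝ) (f : ℕ → ℝ) : ∑ i ∈ Icc a b, (u * θ i + v * θ' i) * f i =
    u * ∑ i ∈ Icc a b, θ i * f i + v * ∑ i ∈ Icc a b, θ' i * f i := by
  simp only [mul_sum, ← sum_add_distrib]
  exact sum_congr rfl fun _ _ => by ring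

lemma prob_comb (h : Prob a b θ s) (h' : Prob a b θ' t) {u v : ℝ} (hu : 0 ≤ u) (hv : 0 ≤ v)
    (huv : u + v = 1) : Prob a b (fun i => u * θ i + v * θ' i) (u * s + v * t) :=
  ⟨fun i => add_nonneg (mul_nonneg hu (h.1 i)) (mul_nonneg hv (h'.1 i)),
    by rw [sum_add_distrib, ← mul_sum, ← mul_sum, h.2.1, h'.2.1, mul_one, mul_one, huv],
    by rw [sum_comb, h.2.2, h'.2.2]⟩

lemma G_le (h : Prob a b θ t) : G o a b t ≤ ∑ i ∈ Icc a b, θ i * o i :=
  csInf_le ⟨0, by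
    rintro _ ⟨η, hη, rfl⟩
    exact sum_nonneg fun i _ => mul_nonneg (hη.1 i) (Nat.cast_nonneg _)⟩ ⟨θ, h, rfl⟩

lemma G_le_o {n : ℕ} (hn : n ∈ Icc a b) : G o a b n ≤ o n :=
  (G_le (prob_delta hn)).trans_eq (sum_delta hn _)

lemma attain (o : ℕ → ℕ) (ht : t ∈ Set.Icc (a : ℝ) b) :
    ∃ θ, Prob a b θ t ∧ G o a b t = ∑ i ∈ Icc a b, θ i * o i := by
  have hab : a ≤ b := Nat.cast_le.1 (ht.1.trans ht.2)
  set K : Set (ℕ → ℝ) := (Set.univ.pi fun _ => Set.Icc (0 : ℝ) 1) ∩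
    ({θ | ∑ i ∈ Icc a b, θ i = 1} ∩ {θ | ∑ i ∈ Icc a b, θ i * i = t}) with hK
  have hc : IsCompact K := (isCompact_univ_pi fun _ => isCompact_Icc).inter_right
    ((isClosed_eq (by fun_prop) continuous_const).inter (isClosed_eq (by fun_prop) continuous_const))
  have key : ∀ θ, Prob a b θ t → ∃ η ∈ K, ∀ i ∈ Icc a b, η i = θ i := fun θ h => by
    have e : ∀ i ∈ Icc a b, min (θ i) 1 = θ i := fun i hi =>
      min_eq_left (h.2.1 ▸ single_le_sum (fun j _ => h.1 j) hi)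
    refine ⟨fun i => min (θ i) 1, ⟨fun i _ => ⟨le_min (h.1 i) zero_le_one, min_le_right _ _⟩,
      (sum_congr rfl e).trans h.2.1, Eq.trans (sum_congr rfl fun i hi => ?_) h.2.2⟩, e⟩
    exact congrArg (· * (i : ℝ)) (e i hi)
  obtain ⟨u, v, hu, hv, huv, e⟩ := (Convex.mem_Icc (ht.1.trans ht.2)).1 ht
  have h0 := prob_comb (prob_delta (left_mem_Icc.2 hab)) (prob_delta (right_mem_Icc.2 hab)) hu hv huv
  rw [e] at h0
  obtain ⟨η, hη, -⟩ := key _ h0
  obtain ⟨θ, hθ, hm⟩ := hc.exists_isMinOn ⟨η, hη⟩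
    (f := fun θ => ∑ i ∈ Icc a b, θ i * o i) (Continuous.continuousOn (by fun_prop))
  have hp : Prob a b θ t := ⟨fun i => (hθ.1 i trivial).1, hθ.2.1, hθ.2.2⟩
  refine ⟨θ, hp, IsLeast.csInf_eq ⟨⟨θ, hp, rfl⟩, ?_⟩⟩
  rintro _ ⟨ζ, hζ, rfl⟩
  obtain ⟨η, hη, e⟩ := key _ hζ
  exact (hm hη).trans_eq (sum_congr rfl fun i hi => by rw [e i hi])

lemma G_convex (o : ℕ → ℕ) (a b : ℕ) : ConvexOn ℝ (Set.Icc (a : ℝ) b) (G o a b) := by
  refine ⟨convex_Icc _ _, fun s hs t ht u v hu hv huv => ?_⟩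
  obtain ⟨θ, h1, h2⟩ := attain o hs
  obtain ⟨θ', h3, h4⟩ := attain o ht
  rw [h2, h4]
  exact (G_le (prob_comb h1 h3 hu hv huv)).trans_eq (sum_comb _ _ _)

lemma piece_le {n i : ℕ} (h1 : a ≤ n) (h2 : n < b) (hi : i ∈ Icc a b) :
    G o a b n + (i - n) * (G o a b (n + 1) - G o a b n) ≤ G o a b i := by
  have hn : (n : ℝ) + 1 ≤ b := by exact_mod_cast h2
  have ha : (a : ℝ) ≤ n := by exact_mod_cast h1
  have hi' : (i : ℝ) ∈ Set.Icc (a : ℝ) b :=
    ⟨Nat.cast_le.2 (mem_Icc.1 hi).1, Nat.cast_le.2 (mem_Icc.1 hi).2⟩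
  rcases lt_trichotomy i n with h | rfl | h
  · have h' : (i : ℝ) < n := by exact_mod_cast h
    have := (G_convex o a b).secant_mono_aux1 hi' (z := n + 1) ⟨by linarith, hn⟩ h' (lt_add_one _)
    linarith
  · simp
  · rcases (Nat.succ_le_of_lt h).eq_or_lt with rfl | h
    · simp
    · have h' : (n : ℝ) + 1 < i := by exact_mod_cast h
      have := (G_convex o a b).secant_mono_aux1 (x := n) ⟨ha, by linarith⟩ hi' (lt_add_one _) h'
      linarith

lemma G_PL (o : ℕ → ℕ) (a b : ℕ) : PL (G o a b) a b := by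
  intro n h1 h2 t ht
  have hn : (n : ℝ) + 1 ≤ b := by exact_mod_cast h2
  have ha : (a : ℝ) ≤ n := by exact_mod_cast h1
  refine le_antisymm ?_ ?_
  · have := (G_convex o a b).2 (x := n) ⟨ha, by linarith⟩ (y := n + 1) ⟨by linarith, hn⟩
      (sub_nonneg.2 ht.2) (sub_nonneg.2 ht.1) (by ring)
    simp only [smul_eq_mul] at this
    rwa [show (n + 1 - t) * n + (t - n) * (n + 1) = t by ring] at this
  · obtain ⟨θ, h3, h4⟩ := attain o (t := t) ⟨ha.trans ht.1, ht.2.trans hn⟩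
    rw [h4]
    refine le_trans (le_of_eq ?_) (sum_le_sum fun i hi => mul_le_mul_of_nonneg_left
      ((piece_le h1 h2 hi).trans (G_le_o hi)) (h3.1 i))
    have : ∀ i : ℕ, θ i * (G o a b n + (i - n) * (G o a b (n + 1) - G o a b n)) =
        θ i * (G o a b n - n * (G o a b (n + 1) - G o a b n)) +
          θ i * i * (G o a b (n + 1) - G o a b n) := fun i => by ring
    simp only [this, sum_add_distrib, ← sum_mul, h3.2.1, h3.2.2]
    ring

lemma env_eq (o : ℕ → ℕ) (ht : t ∈ Set.Icc (a : ℝ) b) : env o a b t = G o a b t := by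
  have h0 : 0 ≤ t := (Nat.cast_nonneg a).trans ht.1
  have e : Int.fract t = t - ⌊t⌋₊ := by rw [natCast_floor_eq_intCast_floor h0]; rfl
  change (1 - Int.fract t) * G o a b ⌊t⌋₊ + Int.fract t * G o a b (⌊t⌋₊ + 1 : ℕ) = _
  rcases ht.2.eq_or_lt with rfl | h
  · simp
  · rw [G_PL o a b ⌊t⌋₊ (Nat.le_floor ht.1) ((Nat.floor_lt h0).2 h) t
      ⟨Nat.floor_le h0, (Nat.lt_floor_add_one t).le⟩, e]
    push_cast
    ring

lemma cont_of_PL {e : ℝ → ℝ} (hab : a ≤ b) (h : PL e a b) : ContinuousOn e (Set.Icc (a : ℝ) b) := by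
  induction b, hab using Nat.le_induction with
  | base => simp
  | succ b hab ih =>
    rw [Nat.cast_succ, ← Set.Icc_union_Icc_eq_Icc (Nat.cast_le.2 hab) (lt_add_one (b : ℝ)).le]
    refine (ih fun n h1 h2 => h n h1 (by omega)).union_of_isClosed ?_ isClosed_Icc isClosed_Icc
    exact ContinuousOn.congr (f := fun t => (b + 1 - t) * e b + (t - b) * e (b + 1))
      (Continuous.continuousOn (by fun_prop)) (h b hab (by omega))

lemma G_left (o : ℕ → ℕ) (hab : a ≤ b) : G o a b a = o a := by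
  obtain ⟨θ, h1, h2⟩ := attain o (t := a) ⟨le_rfl, Nat.cast_le.2 hab⟩
  have h3 : ∑ i ∈ Icc a b, θ i * ((i : ℝ) - a) = 0 := by
    simp only [mul_sub, sum_sub_distrib, ← sum_mul, h1.2.1, h1.2.2, one_mul, sub_self]
  rw [sum_eq_zero_iff_of_nonneg fun i hi =>
    mul_nonneg (h1.1 i) (sub_nonneg.2 (Nat.cast_le.2 (mem_Icc.1 hi).1))] at h3
  rw [h2, sum_congr rfl (g := fun i => θ i * o a) fun i hi => ?_, ← sum_mul, h1.2.1, one_mul]
  rcases mul_eq_zero.1 (h3 i hi) with h | h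
  · simp [h]
  · rw [Nat.cast_injective (sub_eq_zero.1 h)]

lemma G_anti (o : ℕ → ℕ) {a' : ℕ} (h : a ≤ a') (ht : t ∈ Set.Icc (a' : ℝ) b) :
    G o a b t ≤ G o a' b t := by
  obtain ⟨θ, h1, h2⟩ := attain o ht
  have e : ∀ f : ℕ → ℝ, ∑ i ∈ Icc a b, (if a' ≤ i then θ i else 0) * f i =
      ∑ i ∈ Icc a' b, θ i * f i := fun f => by
    rw [← sum_subset (Icc_subset_Icc_left h) fun i hi hi' => by
      rw [if_neg fun h => hi' (mem_Icc.2 ⟨h, (mem_Icc.1 hi).2⟩), zero_mul]]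
    exact sum_congr rfl fun i hi => by rw [if_pos (mem_Icc.1 hi).1]
  have hp : Prob a b (fun i => if a' ≤ i then θ i else 0) t :=
    ⟨fun i => ite_nonneg (h1.1 i) le_rfl, by simpa [h1.2.1] using e fun _ => 1, by rw [e, h1.2.2]⟩
  exact (G_le hp).trans_eq ((e _).trans h2.symm)

lemma G_mono (ho : MonotoneOn o (Set.Icc a b)) : MonotoneOn (G o a b) (Set.Icc (a : ℝ) b) := by
  have key : ∀ t ∈ Set.Icc (a : ℝ) b, G o a b a ≤ G o a b t := fun t ht => by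
    have hab : a ≤ b := Nat.cast_le.1 (ht.1.trans ht.2)
    obtain ⟨θ, h1, h2⟩ := attain o ht
    rw [G_left o hab, h2, ← one_mul (o a : ℝ), ← h1.2.1, sum_mul]
    exact sum_le_sum fun i hi => mul_le_mul_of_nonneg_left
      (Nat.cast_le.2 (ho ⟨le_rfl, hab⟩ (mem_Icc.1 hi) (mem_Icc.1 hi).1)) (h1.1 i)
  intro s hs t ht hst
  rcases hs.1.eq_or_lt with rfl | h
  · exact key t ht
  · exact (G_convex o a b).le_right_of_left_le'' ⟨le_rfl, hs.1.trans hs.2⟩ ht h hst (key s hs)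

lemma exists_fun (S : Finset ℕ) (c : ℕ → ℕ) {m : ℕ} (h : ∑ i ∈ S, c i = m) :
    ∃ n : Fin m → ℕ, (∀ l, n l ∈ S) ∧ ∀ f : ℕ → ℝ, ∑ l, f (n l) = ∑ i ∈ S, c i * f i := by
  have e := Fintype.equivFinOfCardEq (α := Σ i : S, Fin (c i)) (n := m) (by
    rw [Fintype.card_sigma, ← h, ← sum_coe_sort S]; simp)
  refine ⟨fun l => (e.symm l).1, fun l => (e.symm l).1.2, fun f => ?_⟩
  rw [e.symm.sum_comp fun x => f x.1, Fintype.sum_sigma, ← sum_coe_sort S]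
  simp

lemma round (o : ℕ → ℕ) (b m s : ℕ) (hm : 0 < m) (hs : s ≤ m * b) :
    ∃ n : Fin m → ℕ, (∀ l, n l ≤ b) ∧ s ≤ ∑ l, n l ∧
      ∑ l, (o (n l) : ℝ) ≤ m * env o 0 b (s / m) + (b + 1) * o b := by
  have hm' : (0 : ℝ) < m := by exact_mod_cast hm
  have ht : (s / m : ℝ) ∈ Set.Icc ((0 : ℕ) : ℝ) b :=
    ⟨by rw [Nat.cast_zero]; positivity, by rw [div_le_iff₀' hm']; exact_mod_cast hs⟩
  obtain ⟨θ, h1, h2⟩ := attain o ht
  set c : ℕ → ℕ := fun i => ⌊m * θ i⌋₊ with hc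
  have c1 : ∀ i, (c i : ℝ) ≤ m * θ i := fun i => Nat.floor_le (mul_nonneg hm'.le (h1.1 i))
  have c2 : ∀ i, m * θ i ≤ c i + 1 := fun i => (Nat.lt_floor_add_one _).le
  have c3 : ∑ i ∈ Icc 0 b, (m : ℝ) * θ i = m := by rw [← mul_sum, h1.2.1, mul_one]
  have c4 : ∑ i ∈ Icc 0 b, c i ≤ m := by
    have := (sum_le_sum (s := Icc 0 b) fun i _ => c1 i).trans_eq c3
    exact_mod_cast this
  obtain ⟨r, hr⟩ := Nat.exists_eq_add_of_le c4
  have hr' : (r : ℝ) = ∑ i ∈ Icc 0 b, (m * θ i - c i) := by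
    rw [sum_sub_distrib, c3, hr]; push_cast; ring
  have hb : b ∈ Icc 0 b := right_mem_Icc.2 (Nat.zero_le b)
  obtain ⟨n, n1, n2⟩ := exists_fun (Icc 0 b) (fun i => c i + if i = b then r else 0) (m := m)
    (by rw [sum_add_distrib, sum_ite_eq', if_pos hb, hr])
  have n3 : ∀ f : ℕ → ℝ, ∑ l, f (n l) = ∑ i ∈ Icc 0 b, c i * f i + r * f b := fun f => by
    rw [n2]
    simp [add_mul, sum_add_distrib]
  refine ⟨n, fun l => (mem_Icc.1 (n1 l)).2, ?_, ?_⟩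
  · have e : (s : ℝ) = ∑ i ∈ Icc 0 b, m * θ i * i := by
      simp only [mul_assoc, ← mul_sum, h1.2.2]; field_simp
    have : (s : ℝ) ≤ ∑ l, (n l : ℝ) := by
      rw [n3 fun i => i, hr', sum_mul, ← sum_add_distrib, e]
      refine sum_le_sum fun i hi => ?_
      have := mul_le_mul_of_nonneg_left (Nat.cast_le (α := ℝ).2 (mem_Icc.1 hi).2)
        (sub_nonneg.2 (c1 i))
      linarith
    exact_mod_cast this
  · rw [n3 fun i => o i, env_eq o ht, h2, mul_sum]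
    refine add_le_add (sum_le_sum fun i _ => ?_) (mul_le_mul_of_nonneg_right ?_ (Nat.cast_nonneg _))
    · rw [← mul_assoc]
      exact mul_le_mul_of_nonneg_right (c1 i) (Nat.cast_nonneg _)
    · rw [hr']
      refine (sum_le_sum (g := fun _ => (1 : ℝ)) fun i _ => by linarith [c2 i]).trans_eq ?_
      simp

end NENV

open NENV in
theorem env_of : St_ENV where
  prob o a b t ht := by rw [env_eq o ht]; exact attain o ht
  le o a b t θ h := by rw [env_eq o (prob_mem h)]; exact G_le h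
  conv o a b hab := by
    have hab' : (a : ℝ) ≤ b := Nat.cast_le.2 hab
    refine ⟨(G_convex o a b).congr fun t ht => (env_eq o ht).symm,
      (cont_of_PL hab (G_PL o a b)).congr fun t ht => env_eq o ht, fun n h1 h2 t ht => ?_,
      (env_eq o ⟨le_rfl, hab'⟩).trans (G_left o hab), fun a' h t ht => ?_⟩
    · have hn : (n : ℝ) + 1 ≤ b := by exact_mod_cast h2
      have ha : (a : ℝ) ≤ n := by exact_mod_cast h1
      rw [env_eq o ⟨ha.trans ht.1, ht.2.trans hn⟩, env_eq o ⟨ha, by linarith⟩,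
        env_eq o ⟨by linarith, hn⟩]
      exact G_PL o a b n h1 h2 t ht
    · rw [env_eq o ht, env_eq o ⟨(Nat.cast_le.2 h).trans ht.1, ht.2⟩]
      exact G_anti o h ht
  mono o a b ho := by
    refine ⟨(G_mono ho).congr fun t ht => (env_eq o ht).symm, fun t ht => ?_⟩
    have h1 : ⌈t⌉₊ ≤ b := Nat.ceil_le.2 ht.2
    have h2 : (a : ℝ) ≤ ⌈t⌉₊ := ht.1.trans (Nat.le_ceil t)
    rw [env_eq o ht]
    exact (G_mono ho ht ⟨h2, Nat.cast_le.2 h1⟩ (Nat.le_ceil t)).trans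
      (G_le_o (mem_Icc.2 ⟨Nat.cast_le.1 h2, h1⟩))
  round o b m s _ hm hs := round o b m s hm hs

end Pool.Agent.Lib.MP_a25055_ag
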