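import Pool.Agent.Lib.MP_a25055_ag.Num

open Module Finset MeasureTheory

noncomputable section

namespace Pool.Agent.Lib.MP_a25055_ag

namespace NFA

variable {Y : Tree}

lemma pr_add (Q : Finset Y.T) (x y : Y.Cl) : Y.pr Q (x + y) = Y.pr Q x + Y.pr Q y := by
  refine Prod.ext rfl (funext fun q => ?_)
  simp only [Tree.pr, Prod.snd_add, Pi.add_apply]
  split_ifs <;> simp

lemma pr_sub (Q : Finset Y.T) (x y : Y.Cl) : Y.pr Q (x - y) = Y.pr Q x - Y.pr Q y := by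
  refine Prod.ext rfl (funext fun q => ?_)
  simp only [Tree.pr, Prod.snd_sub, Pi.sub_apply]
  split_ifs <;> simp

lemma pr_pr (Q : Finset Y.T) (x : Y.Cl) : Y.pr Q (Y.pr Q x) = Y.pr Q x := by
  refine Prod.ext rfl (funext fun q => ?_)
  simp only [Tree.pr]
  split_ifs <;> rfl

lemma pr_L : Y.pr Y.T0 Y.L = Y.L := by
  refine Prod.ext rfl (funext fun q => ?_)
  simp only [Tree.pr, Tree.L]
  split_ifs <;> rfl

lemma ip0_comm (x y : Y.Cl) : Y.ip0 x y = Y.ip0 y x := by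
  rw [Tree.ip0, Tree.ip0, Tree.ip_pr, Tree.ip_comm]

lemma ip_pr_pr (x y : Y.Cl) : Y.ip (Y.pr Y.T0 x) (Y.pr Y.T0 y) = Y.ip0 x y := by
  rw [← Tree.ip_pr, pr_pr, Tree.ip0]

lemma ip_L_pr (x : Y.Cl) : Y.ip Y.L (Y.pr Y.T0 x) = Y.ip Y.L x := by
  rw [← Tree.ip_pr, pr_L]

lemma ip0_L (x : Y.Cl) : Y.ip0 Y.L x = Y.ip Y.L x := by rw [Tree.ip0, pr_L]

lemma ip0_add_left (x y z : Y.Cl) : Y.ip0 (x + y) z = Y.ip0 x z + Y.ip0 y z := by
  simp only [Tree.ip0, pr_add, Tree.ip_add_left]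

lemma ip0_add_right (x y z : Y.Cl) : Y.ip0 x (y + z) = Y.ip0 x y + Y.ip0 x z := by
  simp only [Tree.ip0, Tree.ip_add_right]

lemma ip0_sub_smul (c : ℝ) (x y z : Y.Cl) :
    Y.ip0 (x - c • y) z = Y.ip0 x z - c * Y.ip0 y z := by
  rw [ip0_comm, ip0_comm x, ip0_comm y]
  simp only [Tree.ip0, Tree.ip_sub_right, Tree.ip_smul_right]

/-- The class of the total transform of an exceptional curve. -/
def ee (j : Y.T) : Y.Cl := (0, fun q => if q = j then -1 else 0)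

/-- The class of a line through two points. -/
def ln (p j : Y.T) : Y.Cl := (1, fun q => (if q = p then 1 else 0) + if q = j then 1 else 0)

lemma ip_ee (j : Y.T) (y : Y.Cl) : Y.ip (ee j) y = y.2 j := by
  simp [Tree.ip, ee]

lemma ip_ln (p j : Y.T) (y : Y.Cl) : Y.ip (ln p j) y = y.1 - y.2 p - y.2 j := by
  simp [Tree.ip, ln, add_mul, Finset.sum_add_distrib]
  ring

/-- Exceptional classes that meet `C` once. -/
def Good (C : Y.I) (x : Y.Cl) : Prop :=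
  Y.IsInt x ∧ Y.pr Y.T0 x = x ∧ Y.sq x = -1 ∧ Y.ip Y.L x = 1 ∧ Y.ip x (Y.gam C) = 1

lemma good_ee {C : Y.I} {j : Y.T} (hj : j ∈ Y.T0) (h : (Y.gam C).2 j = 1) : Good C (ee j) := by
  refine ⟨⟨⟨0, by simp [ee]⟩, fun q => ?_⟩, ?_, ?_, ?_, ?_⟩
  · by_cases hq : q = j
    · exact ⟨-1, by simp [ee, hq]⟩
    · exact ⟨0, by simp [ee, hq]⟩
  · refine Prod.ext rfl (funext fun q => ?_)
    by_cases hq : q = j
    · simp [Tree.pr, ee, hq, hj]
    · simp [Tree.pr, ee, hq]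
  · rw [Tree.sq, ip_ee]
    simp [ee]
  · rw [Tree.ip_comm, ip_ee]
    simp [Tree.L, hj]
  · rw [ip_ee, h]

lemma good_ln {C : Y.I} {p j : Y.T} (hp : p ∈ Y.T0) (hj : j ∈ Y.T0) (hpj : p ≠ j)
    (h : (Y.gam C).1 - (Y.gam C).2 p - (Y.gam C).2 j = 1) : Good C (ln p j) := by
  refine ⟨⟨⟨1, by simp [ln]⟩, fun q => ?_⟩, ?_, ?_, ?_, ?_⟩
  · refine ⟨(if q = p then 1 else 0) + if q = j then 1 else 0, ?_⟩
    simp [ln]
  · refine Prod.ext rfl (funext fun q => ?_)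
    by_cases hq : q ∈ Y.T0
    · simp [Tree.pr, hq]
    · have h1 : q ≠ p := fun e => hq (e ▸ hp)
      have h2 : q ≠ j := fun e => hq (e ▸ hj)
      simp [Tree.pr, ln, hq, h1, h2]
  · rw [Tree.sq, ip_ln]
    simp [ln, hpj, hpj.symm]
  · rw [Tree.ip_comm, ip_ln]
    simp [Tree.L, hp, hj]
    norm_num
  · rw [ip_ln, h]

lemma ee_inj {i j : Y.T} (h : ee i = ee j) : i = j := by
  by_contra hij
  have := congrFun (congrArg Prod.snd h) i
  simp [ee, hij] at this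

lemma ip_L_eq (x : Y.Cl) : Y.ip Y.L x = 3 * x.1 - ∑ q ∈ Y.T0, x.2 q := by
  simp [Tree.ip, Tree.L, Finset.sum_ite_mem]

lemma ip0_eq (x y : Y.Cl) : Y.ip0 x y = x.1 * y.1 - ∑ q ∈ Y.T0, x.2 q * y.2 q := by
  simp [Tree.ip0, Tree.ip, Tree.pr, Finset.sum_ite_mem]

lemma three_good (hY : Y.DP) {C : Y.I} (hC : Y.Root C) :
    ∃ x1 x2 x3, Good C x1 ∧ Good C x2 ∧ Good C x3 ∧ x1 ≠ x2 ∧ x1 ≠ x3 ∧ x2 ≠ x3 := by
  obtain ⟨h0, h1, h2⟩ := hC
  rw [ip0_eq] at h1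
  rw [ip_L_eq] at h2
  cases C with
  | inl Γ =>
    simp only [Tree.gam] at h1 h2
    have hd : (1 : ℝ) ≤ Y.deg Γ := by exact_mod_cast hY.deg_pos Γ
    have cs := sq_sum_le_card_mul_sum_sq (s := Y.T0) (f := fun q => (Y.mu Γ q : ℝ))
    rw [hY.card] at cs
    simp only [pow_two] at cs
    have hd2 : Y.deg Γ ≤ 2 := by
      by_contra hcon
      have h3 : (3 : ℝ) ≤ Y.deg Γ := by exact_mod_cast (by omega : 3 ≤ Y.deg Γ)
      have e : ∑ q ∈ Y.T0, (Y.mu Γ q : ℝ) = 3 * Y.deg Γ := by linarith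
      rw [e] at cs
      push_cast at cs
      nlinarith
    have hsum : ∑ q ∈ Y.T0, (Y.mu Γ q : ℝ) * (Y.mu Γ q - 1) = 0 := by
      simp only [mul_sub, mul_one, Finset.sum_sub_distrib]
      have hd1 := hY.deg_pos Γ
      have : Y.deg Γ = 1 ∨ Y.deg Γ = 2 := by omega
      rcases this with e | e <;> rw [e] at h1 h2 <;> push_cast at h1 h2 <;> linarith
    have hnn : ∀ q ∈ Y.T0, 0 ≤ (Y.mu Γ q : ℝ) * (Y.mu Γ q - 1) := by
      intro q _
      rcases Nat.eq_zero_or_pos (Y.mu Γ q) with e | e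
      · simp [e]
      · have : (1 : ℝ) ≤ Y.mu Γ q := by exact_mod_cast e
        nlinarith
    have h01 := (Finset.sum_eq_zero_iff_of_nonneg hnn).1 hsum
    have hcard : (3 : ℝ) ≤ ((Y.T0.filter fun q => (Y.mu Γ q : ℝ) = 1).card : ℝ) := by
      have e : ((Y.T0.filter fun q => (Y.mu Γ q : ℝ) = 1).card : ℝ) =
          ∑ q ∈ Y.T0, (Y.mu Γ q : ℝ) := by
        rw [Finset.card_filter]
        push_cast
        refine Finset.sum_congr rfl fun q hq => ?_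
        rcases mul_eq_zero.1 (h01 q hq) with e | e
        · simp [e]
        · have : (Y.mu Γ q : ℝ) = 1 := by linarith
          simp [this]
      rw [e]
      linarith
    have hc2 : 2 < (Y.T0.filter fun q => (Y.mu Γ q : ℝ) = 1).card := by exact_mod_cast hcard
    obtain ⟨a, b, c, ha, hb, hc, hab, hac, hbc⟩ := Finset.two_lt_card_iff.1 hc2
    rw [Finset.mem_filter] at ha hb hc
    exact ⟨ee a, ee b, ee c, good_ee ha.1 ha.2, good_ee hb.1 hb.2, good_ee hc.1 hc.2,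
      fun e => hab (ee_inj e), fun e => hac (ee_inj e), fun e => hbc (ee_inj e)⟩
  | inr p =>
    have hp : p ∈ Y.T0 := h0
    have hpp : p ∉ Y.prox p := fun h => lt_irrefl _ (Y.prox_dep p p h)
    simp only [Tree.gam, Finset.sum_sub_distrib, Finset.sum_ite_eq', hp, if_true] at h2
    have hcard : (Y.T0.filter fun q => p ∈ Y.prox q).card = 1 := by
      have e : ((Y.T0.filter fun q => p ∈ Y.prox q).card : ℝ) = 1 := by
        rw [Finset.card_filter]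
        push_cast
        linarith
      exact_mod_cast e
    obtain ⟨q0, hq0⟩ := Finset.card_eq_one.1 hcard
    have hq : ∀ q, q ∈ Y.T0 ∧ p ∈ Y.prox q ↔ q = q0 := fun q => by
      rw [← Finset.mem_singleton, ← hq0, Finset.mem_filter]
    have hq1 := (hq q0).2 rfl
    have hne : q0 ≠ p := fun e => hpp (e ▸ hq1.2)
    have hc2 : 1 < ((Y.T0.erase p).erase q0).card := by
      have := Finset.pred_card_le_card_erase (s := Y.T0) (a := p)
      have := Finset.pred_card_le_card_erase (s := Y.T0.erase p) (a := q0)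
      have := hY.card
      omega
    obtain ⟨a, ha, b, hb, hab⟩ := Finset.one_lt_card.1 hc2
    simp only [Finset.mem_erase] at ha hb
    have hg : ∀ j, j ≠ q0 → j ≠ p → j ∈ Y.T0 → Good (.inr p) (ln p j) := by
      intro j j1 j2 j3
      refine good_ln hp j3 j2.symm ?_
      have : p ∉ Y.prox j := fun h => j1 ((hq j).1 ⟨j3, h⟩)
      simp [Tree.gam, hpp, this, j2]
    refine ⟨ee q0, ln p a, ln p b, good_ee hq1.1 (by simp [Tree.gam, hq1.2, hne]),
      hg a ha.1 ha.2.1 ha.2.2, hg b hb.1 hb.2.1 hb.2.2, fun e => ?_, fun e => ?_, fun e => ?_⟩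
    · have := congrArg Prod.fst e
      simp [ee, ln] at this
    · have := congrArg Prod.fst e
      simp [ee, ln] at this
    · have := congrFun (congrArg Prod.snd e) a
      simp [ln, hab] at this

lemma no_three (hNC : St_NC) (hY : Y.DP) {l R1 R2 R3 : Y.I} (hl : Y.Line l) (h1 : Y.Root R1)
    (h2 : Y.Root R2) (h3 : Y.Root R3) (h12 : R1 ≠ R2) (h13 : R1 ≠ R3) (h23 : R2 ≠ R3)
    (e1 : Y.ip0 (Y.gam l) (Y.gam R1) = 1) (e2 : Y.ip0 (Y.gam l) (Y.gam R2) = 1)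
    (e3 : Y.ip0 (Y.gam l) (Y.gam R3) = 1) : False := by
  have o12 := hY.orth _ _ h12 h1.1 h2.1 h1.2.2 h2.2.2
  have o13 := hY.orth _ _ h13 h1.1 h3.1 h1.2.2 h3.2.2
  have o23 := hY.orth _ _ h23 h2.1 h3.1 h2.2.2 h3.2.2
  have key := hNC.exc Y hY (Y.pr Y.T0 (Y.gam l))
    (Y.pr Y.T0 (Y.gam l + Y.gam R1 + Y.gam R2 + Y.gam R3)) (by rw [Tree.sq, ip_pr_pr, hl.2.1])
    (by
      rw [Tree.sq, ip_pr_pr]
      simp only [ip0_add_left, ip0_add_right, ip0_comm (Y.gam R1) (Y.gam l),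
        ip0_comm (Y.gam R2) (Y.gam l), ip0_comm (Y.gam R3) (Y.gam l),
        ip0_comm (Y.gam R2) (Y.gam R1), ip0_comm (Y.gam R3) (Y.gam R1),
        ip0_comm (Y.gam R3) (Y.gam R2), e1, e2, e3, o12, o13, o23, hl.2.1, h1.2.1, h2.2.1, h3.2.1]
      norm_num)
    (by rw [ip_L_pr, hl.2.2])
    (by
      rw [ip_L_pr]
      simp only [Tree.ip_add_right, hl.2.2, h1.2.2, h2.2.2, h3.2.2]
      norm_num)
  rw [ip_pr_pr] at key
  simp only [ip0_add_right, e1, e2, e3, hl.2.1] at key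
  norm_num at key

/-- The projection from the singular point. -/
def HH (C : Y.I) : Y.Cl := Y.pr Y.T0 (Y.L - Y.gam C)

lemma ip_HH (C : Y.I) (x : Y.Cl) : Y.ip (HH C) x = Y.ip Y.L x - Y.ip0 (Y.gam C) x := by
  rw [HH, pr_sub, pr_L, Tree.ip_sub_left, Tree.ip0]

lemma HH_C {C : Y.I} (hC : Y.Root C) : Y.ip (HH C) (Y.gam C) = 2 := by
  rw [ip_HH, hC.2.1, hC.2.2]
  norm_num

lemma HH_L (hNB : St_NB) (hY : Y.DP) {C : Y.I} (hC : Y.Root C) : Y.ip (HH C) Y.L = 3 := by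
  have h := hNB.LL Y hY
  rw [Tree.sq] at h
  rw [ip_HH, ip0_comm, ip0_L, hC.2.2, h]
  norm_num

lemma HH_sq (hNB : St_NB) (hY : Y.DP) {C : Y.I} (hC : Y.Root C) : Y.sq (HH C) = 1 := by
  have e : Y.sq (HH C) = Y.ip (HH C) (Y.L - Y.gam C) := by
    rw [Tree.sq]
    nth_rewrite 2 [HH]
    rw [← Tree.ip_pr, HH, pr_pr]
  rw [e, Tree.ip_sub_right, HH_L hNB hY hC, HH_C hC]
  norm_num

lemma HH_nef (hNB : St_NB) (hNC : St_NC) (hY : Y.DP) {C : Y.I} (hC : Y.Root C) :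
    Y.Nef (HH C) := by
  refine hNC.nef0 Y hY _ (pr_pr _ _) (by rw [HH_sq hNB hY hC]; norm_num)
    (by rw [Tree.ip_comm, HH_L hNB hY hC]; norm_num) fun i hi => ?_
  rcases hi with hi | hi
  · rw [ip_HH, ip0_comm, hi.2.2]
    rcases hNC.lr Y hY i C hi hC with e | e <;> rw [e] <;> norm_num
  · by_cases h : i = C
    · rw [h, HH_C hC]
      norm_num
    · rw [ip_HH, ip0_comm, hi.2.2, hY.orth _ _ h hi.1 hC.1 hi.2.2 hC.2.2]
      norm_num

lemma dec_good (hNB : St_NB) (hNC : St_NC) (hY : Y.DP) {C : Y.I} (hC : Y.Root C) {x : Y.Cl}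
    (hx : Good C x) : ∃ (l : Y.I) (J : Finset Y.I), Y.Line l ∧ Y.ip0 (Y.gam l) (Y.gam C) = 1 ∧
      (∀ R ∈ J, Y.Root R ∧ R ≠ C ∧ Y.ip0 (Y.gam l) (Y.gam R) = 1) ∧
      x = Y.pr Y.T0 (Y.gam l + ∑ R ∈ J, Y.gam R) := by
  obtain ⟨x1, x2, x3, x4, x5⟩ := hx
  obtain ⟨l, J, hl, -, hJ, e⟩ := hNC.dec Y hY x x1 x2 x3 x4
  have hn := HH_nef hNB hNC hY hC
  have h0 : Y.ip (HH C) x = 0 := by
    rw [ip_HH, x4, ip0_comm, Tree.ip0, x2, x5]
    norm_num
  have h1 : Y.ip (HH C) x = Y.ip (HH C) (Y.gam l) + ∑ R ∈ J, Y.ip (HH C) (Y.gam R) := by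
    rw [e, ← Tree.ip_pr, HH, pr_pr, Tree.ip_add_right, ← Tree.ipL_apply _ (∑ R ∈ J, Y.gam R),
      map_sum]
    rfl
  have h2 : 0 ≤ ∑ R ∈ J, Y.ip (HH C) (Y.gam R) := Finset.sum_nonneg fun R _ => hn R
  have h3 := hn l
  have h4 : ∑ R ∈ J, Y.ip (HH C) (Y.gam R) = 0 := by linarith
  have h5 : Y.ip (HH C) (Y.gam l) = 0 := by linarith
  refine ⟨l, J, hl, ?_, fun R hR => ⟨(hJ R hR).1, ?_, (hJ R hR).2⟩, e⟩
  · rw [ip_HH, hl.2.2, ip0_comm] at h5
    linarith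
  · rintro rfl
    have := (Finset.sum_eq_zero_iff_of_nonneg fun R _ => hn R).1 h4 R hR
    rw [HH_C hC] at this
    norm_num at this

lemma two_lines (hNB : St_NB) (hNC : St_NC) (hY : Y.DP) {C : Y.I} (hC : Y.Root C) :
    ∃ l l', l ≠ l' ∧ Y.Line l ∧ Y.Line l' ∧ Y.ip0 (Y.gam l) (Y.gam C) = 1 ∧
      Y.ip0 (Y.gam l') (Y.gam C) = 1 := by
  obtain ⟨x1, x2, x3, g1, g2, g3, h12, h13, h23⟩ := three_good hY hC
  obtain ⟨l1, J1, a1, b1, c1, d1⟩ := dec_good hNB hNC hY hC g1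
  obtain ⟨l2, J2, a2, b2, c2, d2⟩ := dec_good hNB hNC hY hC g2
  obtain ⟨l3, J3, a3, b3, c3, d3⟩ := dec_good hNB hNC hY hC g3
  by_cases e12 : l1 = l2
  swap
  · exact ⟨l1, l2, e12, a1, a2, b1, b2⟩
  by_cases e13 : l1 = l3
  swap
  · exact ⟨l1, l3, e13, a1, a3, b1, b3⟩
  exfalso
  subst e12 e13
  have uniq : ∀ J J' : Finset Y.I,
      (∀ R ∈ J, Y.Root R ∧ R ≠ C ∧ Y.ip0 (Y.gam l1) (Y.gam R) = 1) →
      (∀ R ∈ J', Y.Root R ∧ R ≠ C ∧ Y.ip0 (Y.gam l1) (Y.gam R) = 1) → J'.Nonempty → J ⊆ J' := by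
    rintro J J' hJ hJ' ⟨R', hR'⟩ R hR
    by_cases e : R = R'
    · exact e ▸ hR'
    · exact (no_three hNC hY a1 (hJ R hR).1 (hJ' R' hR').1 hC e (hJ R hR).2.1 (hJ' R' hR').2.1
        (hJ R hR).2.2 (hJ' R' hR').2.2 b1).elim
  have n12 : J1 ≠ J2 := fun e => h12 (by rw [d1, d2, e])
  have n13 : J1 ≠ J3 := fun e => h13 (by rw [d1, d3, e])
  have n23 : J2 ≠ J3 := fun e => h23 (by rw [d2, d3, e])
  rcases J1.eq_empty_or_nonempty with k1 | k1
  · have k2 : J2.Nonempty := Finset.nonempty_iff_ne_empty.2 fun e => n12 (by rw [k1, e])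
    have k3 : J3.Nonempty := Finset.nonempty_iff_ne_empty.2 fun e => n13 (by rw [k1, e])
    exact n23 (Finset.Subset.antisymm (uniq _ _ c2 c3 k3) (uniq _ _ c3 c2 k2))
  · rcases J2.eq_empty_or_nonempty with k2 | k2
    · have k3 : J3.Nonempty := Finset.nonempty_iff_ne_empty.2 fun e => n23 (by rw [k2, e])
      exact n13 (Finset.Subset.antisymm (uniq _ _ c1 c3 k3) (uniq _ _ c3 c1 k1))
    · exact n12 (Finset.Subset.antisymm (uniq _ _ c1 c2 k2) (uniq _ _ c2 c1 k1))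

lemma lines_orth (hNA : St_NA) (hNB : St_NB) (hNC : St_NC) (hY : Y.DP) {C l l' : Y.I}
    (hC : Y.Root C) (hne : l ≠ l') (hl : Y.Line l) (hl' : Y.Line l')
    (e : Y.ip0 (Y.gam l) (Y.gam C) = 1) (e' : Y.ip0 (Y.gam l') (Y.gam C) = 1) :
    Y.ip0 (Y.gam l) (Y.gam l') = 0 := by
  have h0 := (hNC.inter0 Y hY l l' hl.1 hl'.1 hne).1
  obtain ⟨i1, -, -, i2, -, i3⟩ := hNB.int Y
  obtain ⟨z, hz⟩ := (i2 _ _ (i3 Y.T0 _ (i1 l)) (i1 l')).2.2
  have hz' : Y.ip0 (Y.gam l) (Y.gam l') = z := hz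
  have h1 : Y.ip0 (Y.gam l) (Y.gam l') < 1 := by
    by_contra hcon
    push Not at hcon
    have hy := hNA.hodge0 Y (HH C) (Y.pr Y.T0 (Y.gam l + Y.gam l'))
      (by rw [HH_sq hNB hY hC]; norm_num)
      (by
        rw [← Tree.ip_pr, HH, pr_pr, ← HH, Tree.ip_add_right, ip_HH, ip_HH, hl.2.2, hl'.2.2,
          ip0_comm _ (Y.gam l), ip0_comm _ (Y.gam l'), e, e']
        norm_num)
      (by
        rw [Tree.sq, ip_pr_pr]
        simp only [ip0_add_left, ip0_add_right, ip0_comm (Y.gam l') (Y.gam l), hl.2.1, hl'.2.1]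
        linarith)
    have h2 := ip_L_pr (Y.gam l + Y.gam l')
    rw [hy, Tree.ip_add_right, hl.2.2, hl'.2.2] at h2
    norm_num at h2
  rw [hz'] at h0 h1 ⊢
  have a : 0 ≤ z := by exact_mod_cast h0
  have b : z < 1 := by exact_mod_cast h1
  have : z = 0 := by omega
  simp [this]

lemma feas_bd (hNA : St_NA) (hNB : St_NB) (hNC : St_NC) (hY : Y.DP) {C l : Y.I}
    (hC : Y.Root C) (hl : Y.Line l) (e : Y.ip0 (Y.gam l) (Y.gam C) = 1) {B : Y.I →₀ ℝ}
    (hB : 0 ≤ B) (hn : Y.Nef (Y.L - Y.cl B)) :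
    B C ≤ 3 / 2 ∧ Y.brk C {l} B ≤ 2 * B C - max (B C - 1) 0 ∧
      Y.sq (Y.L - Y.cl B) ≤ (3 - 2 * B C) ^ 2 := by
  have hne : C ≠ l := by
    rintro rfl
    have := hC.2.2
    rw [hl.2.2] at this
    norm_num at this
  have hH := HH_nef hNB hNC hY hC
  have h1 : 0 ≤ Y.ip (HH C) (Y.L - Y.cl B) := hNA.nef_nef Y hY.toPlane _ _ hH hn
  have h2 : Y.ip (HH C) (Y.L - Y.cl B) ≤ 3 - 2 * B C := by
    have h3 : 0 ≤ Y.ip (HH C) (Y.cl (B - Finsupp.single C (B C))) := by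
      refine hH.ip_cl fun i => ?_
      by_cases hi : C = i
      · simp [hi]
      · simpa [Finsupp.single_apply, hi] using hB i
    rw [map_sub, Tree.cl_single, Tree.ip_sub_right, Tree.ip_smul_right, HH_C hC] at h3
    rw [Tree.ip_sub_right, HH_L hNB hY hC]
    linarith
  refine ⟨by linarith, ?_, ?_⟩
  · have h4 := hNC.push Y hY B l {C} hB hn hl.1 (by
      intro F hF
      rw [Finset.mem_singleton] at hF
      exact hF ▸ ⟨hC.1, hne⟩)
    have h5 := hn l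
    rw [Tree.brk, Finset.sum_singleton, ip0_sub_smul, ip0_L, hl.2.2, hl.2.1, ip0_comm, e] at h4
    rw [Tree.brk, Finset.sum_singleton, ip0_sub_smul, ip0_L, hC.2.2, hC.2.1, e]
    have h6 : 0 ≤ B l := hB l
    have : max (B C - 1) 0 ≤ B l := max_le (by linarith) h6
    linarith
  · have h7 := hNA.hodge Y (HH C) (Y.L - Y.cl B) (by rw [HH_sq hNB hY hC]; norm_num)
    rw [HH_sq hNB hY hC, one_mul] at h7
    exact h7.trans (pow_le_pow_left₀ h1 h2 2)

lemma int_quad (a b α β γ : ℝ) : ∫ u in a..b, (α * u ^ 2 + β * u + γ) =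
    α * (b ^ 3 - a ^ 3) / 3 + β * (b ^ 2 - a ^ 2) / 2 + γ * (b - a) := by
  have h : ∀ u : ℝ, HasDerivAt (fun u : ℝ => α * u ^ 3 / 3 + β * u ^ 2 / 2 + γ * u)
      (α * u ^ 2 + β * u + γ) u := by
    intro u
    have h1 := ((hasDerivAt_pow 3 u).const_mul α).div_const 3
    have h2 := ((hasDerivAt_pow 2 u).const_mul β).div_const 2
    have h3 := (hasDerivAt_id u).const_mul γ
    refine ((h1.add h2).add h3).congr_deriv ?_
    norm_num
    ring
  rw [intervalIntegral.integral_eq_sub_of_hasDerivAt (fun u _ => h u)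
    ((by fun_prop : Continuous fun u : ℝ => α * u ^ 2 + β * u + γ).intervalIntegrable _ _)]
  ring

lemma analysis (hRA : St_RA) (z : ℝ → ℝ)
    (hi : ∀ u v, 0 ≤ u → 0 ≤ v → IntervalIntegrable z volume u v)
    (h0 : ∀ u, 0 ≤ u → 0 ≤ z u ∧ z u ≤ 2 * u - max (u - 1) 0)
    (h1 : ∀ u, 0 ≤ u → u ≤ 3 / 2 → 2 * ∫ w in u..(3 / 2), z w ≤ (3 - 2 * u) ^ 2) :
    ∫ u in (0 : ℝ)..(3 / 2), u * z u ≤ 17 / 12 ∧
      ∫ u in (0 : ℝ)..(3 / 2), z u * (2 * u - max (u - 1) 0 - z u / 2) ≤ 17 / 12 := by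
  have i01 := hi 0 1 le_rfl zero_le_one
  have i12 := hi 1 (3 / 2) zero_le_one (by norm_num)
  have q1 : ∫ u in (0 : ℝ)..1, (2 * u ^ 2 + 0 * u + 0) = 2 / 3 := by
    rw [int_quad]; norm_num
  have q2 : ∫ u in (1 : ℝ)..(3 / 2), (2 * u ^ 2 + (-6) * u + 9 / 2) = 1 / 12 := by
    rw [int_quad]; norm_num
  have q3 : ∫ u in (1 : ℝ)..(3 / 2), (8 * u ^ 2 + (-24) * u + 18) = 1 / 3 := by
    rw [int_quad]; norm_num
  have cq : ∀ α β γ a b : ℝ, IntervalIntegrable (fun u : ℝ => α * u ^ 2 + β * u + γ) volume a b :=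
    fun α β γ a b => (by fun_prop : Continuous fun u : ℝ => α * u ^ 2 + β * u + γ).intervalIntegrable
      _ _
  have ab := hRA.abel 1 (3 / 2) z (fun u => 2 * u ^ 2 + (-6) * u + 9 / 2) (by norm_num) i12
    (by fun_prop) fun u hu => by
      have := h1 u (by linarith [hu.1]) hu.2
      nlinarith
  rw [q2] at ab
  have a2 : ∫ w in (1 : ℝ)..(3 / 2), z w ≤ 1 / 2 := by
    have := h1 1 zero_le_one (by norm_num)
    linarith
  have j12 : IntervalIntegrable (fun u => (u - 1) * z u) volume 1 (3 / 2) :=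
    i12.continuousOn_mul (by fun_prop)
  constructor
  · have k01 : IntervalIntegrable (fun u => u * z u) volume 0 1 :=
      i01.continuousOn_mul (by fun_prop)
    have k12 : IntervalIntegrable (fun u => u * z u) volume 1 (3 / 2) :=
      i12.continuousOn_mul (by fun_prop)
    rw [← intervalIntegral.integral_add_adjacent_intervals k01 k12]
    have b1 := intervalIntegral.integral_mono_on zero_le_one k01 (cq 2 0 0 0 1) fun u hu => by
      have := h0 u hu.1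
      have h2 := le_max_right (u - 1) 0
      nlinarith [hu.1]
    have b2 : ∫ u in (1 : ℝ)..(3 / 2), u * z u =
        (∫ u in (1 : ℝ)..(3 / 2), (u - 1) * z u) + ∫ u in (1 : ℝ)..(3 / 2), z u := by
      rw [← intervalIntegral.integral_add j12 i12]
      congr 1
      funext u
      ring
    rw [q1] at b1
    linarith
  · by_cases hint : IntervalIntegrable (fun u => z u * (2 * u - max (u - 1) 0 - z u / 2)) volume
      0 (3 / 2)
    swap
    · rw [intervalIntegral.integral_undef hint]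
      norm_num
    have k01 : IntervalIntegrable (fun u => z u * (2 * u - max (u - 1) 0 - z u / 2)) volume 0 1 :=
      hint.mono_set (Set.uIcc_subset_uIcc_left (by
        rw [Set.uIcc_of_le (by norm_num)]; constructor <;> norm_num))
    have k12 : IntervalIntegrable (fun u => z u * (2 * u - max (u - 1) 0 - z u / 2)) volume
        1 (3 / 2) :=
      hint.mono_set (Set.uIcc_subset_uIcc_right (by
        rw [Set.uIcc_of_le (by norm_num)]; constructor <;> norm_num))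
    rw [← intervalIntegral.integral_add_adjacent_intervals k01 k12]
    have b1 := intervalIntegral.integral_mono_on zero_le_one k01 (cq 2 0 0 0 1) fun u hu => by
      rw [max_eq_right (by linarith [hu.2])]
      nlinarith [sq_nonneg (z u - 2 * u)]
    have b2 := intervalIntegral.integral_mono_on (by norm_num) k12
      ((j12.const_mul 5).add (cq 8 (-24) 18 1 (3 / 2))) fun u hu => by
      rw [max_eq_left (by linarith [hu.1])]
      nlinarith [sq_nonneg (z u - (6 - 4 * u))]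
    rw [intervalIntegral.integral_add (j12.const_mul 5) (cq 8 (-24) 18 1 (3 / 2)),
      intervalIntegral.integral_const_mul, q3] at b2
    rw [q1] at b1
    linarith

lemma flag (hNA : St_NA) (hNB : St_NB) (hNC : St_NC) (hZ : St_ZAR) (hPF : St_PF) (hRA : St_RA)
    (hY : Y.DP) {C l : Y.I} (hC : Y.Root C) (hl : Y.Line l)
    (e : Y.ip0 (Y.gam l) (Y.gam C) = 1) : Y.FlagOK C {l} := by
  have hne : l ≠ C := by
    rintro rfl
    have := hC.2.2
    rw [hl.2.2] at this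
    norm_num at this
  have hn0 : Y.Nef (Y.L - Y.cl 0) := by
    rw [map_zero, sub_zero]
    exact hY.nefL
  have key : ∀ u, 0 ≤ u → Y.hf Y.L 0 C u ≤ 2 * u - max (u - 1) 0 ∧
      Y.sq (Y.dmin Y.L (0 ⊔ Finsupp.single C u)) ≤ (3 - 2 * u) ^ 2 := by
    intro u hu
    by_cases hf : Y.Feas Y.L (0 ⊔ Finsupp.single C u)
    · obtain ⟨l1, l2, l3, -⟩ := hZ.least Y hY.toPlane _ _ hf
      have t := hZ.tight Y hY.toPlane Y.L 0 C u le_rfl hn0 hu hf
      have hB : 0 ≤ Y.bmin Y.L (0 ⊔ Finsupp.single C u) := le_sup_left.trans l1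
      rw [l2] at l3
      obtain ⟨-, f2, f3⟩ := feas_bd hNA hNB hNC hY hC hl e hB l3
      have p := hNC.push Y hY _ C {l} hB l3 hC.1 (by
        intro F hF
        rw [Finset.mem_singleton] at hF
        exact hF ▸ ⟨hl.1, hne⟩)
      rw [t] at f2 f3
      rw [Tree.hf, l2]
      exact ⟨p.trans f2, f3⟩
    · rw [Tree.hf, Tree.dmin, if_neg hf, Tree.sq, Tree.ip_zero_left, Tree.ip_zero_left]
      refine ⟨?_, sq_nonneg _⟩
      have : max (u - 1) 0 ≤ 2 * u := max_le (by linarith) (by linarith)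
      linarith
  have an := analysis hRA (Y.hf Y.L 0 C)
    (fun u v hu hv => hZ.intg Y hY.toPlane Y.L 0 C u v le_rfl hn0 hu hv)
    (fun u hu => ⟨hZ.nef Y hY.toPlane _ _ C, (key u hu).1⟩)
    (fun u hu hu' => (hPF.one Y hY.toPlane Y.L 0 C u (3 / 2) le_rfl hn0 hu hu').trans (key u hu).2)
  exact ⟨3 / 2, fun u => 2 * u - max (u - 1) 0, by norm_num, by fun_prop, fun B hB hn =>
    ⟨(feas_bd hNA hNB hNC hY hC hl e hB hn).1, (feas_bd hNA hNB hNC hY hC hl e hB hn).2.1⟩,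
    an.1, an.2⟩

end NFA

theorem fa_of (hNA : St_NA) (hNB : St_NB) (hNC : St_NC) (hZ : St_ZAR) (hPF : St_PF)
    (hRA : St_RA) : St_FA := by
  intro Y hY C hC
  obtain ⟨l, l', hne, hl, hl', e, e'⟩ := NFA.two_lines hNB hNC hY hC
  exact ⟨l, l', hne, hl, hl', NFA.lines_orth hNA hNB hNC hY hC hne hl hl' e e',
    NFA.flag hNA hNB hNC hZ hPF hRA hY hC hl e, NFA.flag hNA hNB hNC hZ hPF hRA hY hC hl' e'⟩

end Pool.Agent.Lib.MP_a25055_ag
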