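import Pool.Agent.Lib.MP_a25055_ag.Num

/-! Block FB: flags whose curve is a line. -/

open Module Finset MeasureTheory

noncomputable section

namespace Pool.Agent.Lib.MP_a25055_ag

namespace NFB

open Tree

variable {Y : Tree}

lemma pr_pr (Q : Finset Y.T) (x : Y.Cl) : Y.pr Q (Y.pr Q x) = Y.pr Q x := by
  refine Prod.ext rfl (funext fun q => ?_)
  simp only [Tree.pr]
  split_ifs <;> rfl

lemma pr_L : Y.pr Y.T0 Y.L = Y.L := by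
  refine Prod.ext rfl (funext fun q => ?_)
  simp only [Tree.pr, Tree.L]
  split_ifs <;> rfl

lemma ip0_comm (x y : Y.Cl) : Y.ip0 x y = Y.ip0 y x := by rw [ip0, ip0, ip_pr, ip_comm]

lemma ip_pp (x y : Y.Cl) : Y.ip (Y.pr Y.T0 x) (Y.pr Y.T0 y) = Y.ip0 x y := by
  rw [← ip_pr, pr_pr, ip0]

lemma ip0_L (y : Y.Cl) : Y.ip0 Y.L y = Y.ip Y.L y := by rw [ip0, pr_L]

lemma ip0_L' (y : Y.Cl) : Y.ip0 y Y.L = Y.ip Y.L y := by rw [ip0_comm, ip0_L]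

lemma ip_L_pr (y : Y.Cl) : Y.ip Y.L (Y.pr Y.T0 y) = Y.ip Y.L y := by rw [← ip_pr, pr_L]

lemma ip0_add_right (x y z : Y.Cl) : Y.ip0 x (y + z) = Y.ip0 x y + Y.ip0 x z :=
  ip_add_right _ _ _

lemma ip0_sub_right (x y z : Y.Cl) : Y.ip0 x (y - z) = Y.ip0 x y - Y.ip0 x z :=
  ip_sub_right _ _ _

lemma ip0_smul_right (c : ℝ) (x y : Y.Cl) : Y.ip0 x (c • y) = c * Y.ip0 x y :=
  ip_smul_right _ _ _

lemma ip0_add_left (x y z : Y.Cl) : Y.ip0 (x + y) z = Y.ip0 x z + Y.ip0 y z := by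
  rw [ip0_comm, ip0_add_right, ip0_comm z, ip0_comm z]

lemma ip0_sub_left (x y z : Y.Cl) : Y.ip0 (x - y) z = Y.ip0 x z - Y.ip0 y z := by
  rw [ip0_comm, ip0_sub_right, ip0_comm z, ip0_comm z]

lemma ip0_smul_left (c : ℝ) (x y : Y.Cl) : Y.ip0 (c • x) y = c * Y.ip0 x y := by
  rw [ip0_comm, ip0_smul_right, ip0_comm y]

lemma ip_sum_right (x : Y.Cl) (J : Finset Y.I) (f : Y.I → Y.Cl) :
    Y.ip x (∑ R ∈ J, f R) = ∑ R ∈ J, Y.ip x (f R) := by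
  rw [← ipL_apply, map_sum]
  rfl

lemma ip0_sum_right (x : Y.Cl) (J : Finset Y.I) (f : Y.I → Y.Cl) :
    Y.ip0 x (∑ R ∈ J, f R) = ∑ R ∈ J, Y.ip0 x (f R) := ip_sum_right _ _ _

lemma line_ne_root {C R : Y.I} (hC : Y.Line C) (hR : Y.Root R) : C ≠ R := by
  rintro rfl
  have h1 := hC.2.2
  rw [hR.2.2] at h1
  norm_num at h1

lemma coef_le {H : Y.Cl} (hH : Y.Nef H) {B : Y.I →₀ ℝ} (hB : 0 ≤ B) (i : Y.I) :
    B i * Y.ip H (Y.gam i) ≤ Y.ip H (Y.cl B) := by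
  classical
  rw [ip_cl H B (Finset.subset_insert i B.support)]
  exact Finset.single_le_sum (f := fun j => B j * Y.ip H (Y.gam j))
    (fun j _ => mul_nonneg (hB j) (hH j)) (Finset.mem_insert_self _ _)

lemma sum_facts (hY : Y.DP) {C : Y.I} {J : Finset Y.I}
    (hJ : ∀ R ∈ J, Y.Root R ∧ Y.ip0 (Y.gam C) (Y.gam R) = 1) :
    Y.ip0 (Y.gam C) (∑ R ∈ J, Y.gam R) = J.card ∧ Y.ip Y.L (∑ R ∈ J, Y.gam R) = 0 ∧
      (∀ R ∈ J, Y.ip0 (Y.gam R) (∑ R ∈ J, Y.gam R) = -2) ∧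
      (∀ R, Y.Root R → R ∉ J → Y.ip0 (Y.gam R) (∑ R ∈ J, Y.gam R) = 0) ∧
      Y.ip0 (∑ R ∈ J, Y.gam R) (∑ R ∈ J, Y.gam R) = -2 * J.card := by
  have h3 : ∀ R ∈ J, Y.ip0 (Y.gam R) (∑ R ∈ J, Y.gam R) = -2 := fun R hR => by
    rw [ip0_sum_right, Finset.sum_eq_single_of_mem R hR, (hJ R hR).1.2.1]
    intro R' hR' hne
    exact hY.orth _ _ hne.symm (hJ R hR).1.1 (hJ R' hR').1.1 (hJ R hR).1.2.2 (hJ R' hR').1.2.2
  refine ⟨?_, ?_, h3, fun R hR hn => ?_, ?_⟩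
  · rw [ip0_sum_right, Finset.sum_congr rfl fun R hR => (hJ R hR).2]
    simp
  · rw [ip_sum_right]
    exact Finset.sum_eq_zero fun R hR => (hJ R hR).1.2.2
  · rw [ip0_sum_right]
    refine Finset.sum_eq_zero fun R' hR' => ?_
    exact hY.orth _ _ (fun e => hn (e ▸ hR')) hR.1 (hJ R' hR').1.1 hR.2.2 (hJ R' hR').1.2.2
  · rw [ip0_sum_right, Finset.sum_congr rfl fun R hR => (ip0_comm _ _).trans (h3 R hR)]
    simp [mul_comm]

lemma exc_line (hB : St_NB) (hC : St_NC) (hY : Y.DP) {C l : Y.I} {J : Finset Y.I} (h : Y.Line C)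
    (hJ : ∀ R ∈ J, Y.Root R ∧ Y.ip0 (Y.gam C) (Y.gam R) = 1) (hl : Y.Line l) :
    Y.ip0 (Y.gam l) (Y.gam C + ∑ R ∈ J, Y.gam R) ≤ 1 := by
  obtain ⟨s1, s2, -, -, s5⟩ := sum_facts hY hJ
  have h1 := hC.exc Y hY (Y.pr Y.T0 (Y.gam l)) (Y.pr Y.T0 (Y.gam C + ∑ R ∈ J, Y.gam R))
    (by rw [Tree.sq, ip_pp, hl.2.1])
    (by
      rw [Tree.sq, ip_pp, ip0_add_left, ip0_add_right, ip0_add_right, h.2.1, s1, s5,
        ip0_comm _ (Y.gam C), s1]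
      ring)
    (by rw [ip_L_pr, hl.2.2]) (by rw [ip_L_pr, ip_add_right, h.2.2, s2, add_zero])
  rw [ip_pp] at h1
  obtain ⟨i1, -, -, i4, -, i6⟩ := hB.int Y
  have i0 : Y.IsInt 0 := ⟨⟨0, by simp⟩, fun q => ⟨0, by simp⟩⟩
  have i7 : Y.IsInt (∑ R ∈ J, Y.gam R) :=
    Finset.sum_induction _ Y.IsInt (fun a b ha hb => (i4 a b ha hb).1) i0 fun R _ => i1 R
  obtain ⟨z, hz⟩ := (i4 _ _ (i6 Y.T0 _ (i1 l)) (i4 _ _ (i1 C) i7).1).2.2
  have hz' : Y.ip0 (Y.gam l) (Y.gam C + ∑ R ∈ J, Y.gam R) = z := hz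
  rw [hz'] at h1 ⊢
  have h2 : (z : ℝ) < (2 : ℤ) := by push_cast; linarith
  have h3 : z ≤ 1 := Int.lt_add_one_iff.mp (Int.cast_lt.mp h2)
  exact_mod_cast h3

lemma card_le (hB : St_NB) (hC : St_NC) (hY : Y.DP) {C : Y.I} {J : Finset Y.I} (h : Y.Line C)
    (hJ : ∀ R ∈ J, Y.Root R ∧ Y.ip0 (Y.gam C) (Y.gam R) = 1) : J.card ≤ 2 := by
  have h1 := exc_line hB hC hY h hJ h
  rw [ip0_add_right, h.2.1, (sum_facts hY hJ).1] at h1
  have h2 : (J.card : ℝ) ≤ (2 : ℕ) := by push_cast; linarith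
  exact_mod_cast h2

lemma exists_Phi (hB : St_NB) (hC : St_NC) (hY : Y.DP) {C : Y.I} (h : Y.Line C) :
    ∃ Φ : Finset Y.I, ∀ R, R ∈ Φ ↔ Y.Root R ∧ Y.ip0 (Y.gam C) (Y.gam R) = 1 := by
  have hf : {R | Y.Root R ∧ Y.ip0 (Y.gam C) (Y.gam R) = 1}.Finite := by
    by_contra hi
    obtain ⟨J, hJ, hc⟩ := Set.Infinite.exists_subset_card_eq hi 3
    have := card_le hB hC hY h fun R hR => hJ hR
    omega
  exact ⟨hf.toFinset, fun R => hf.mem_toFinset⟩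

/-- The auxiliary nef class. -/
lemma exists_H (hB : St_NB) (hC : St_NC) (hY : Y.DP) {C : Y.I} {Φ : Finset Y.I} (h : Y.Line C)
    (hΦ : ∀ R, R ∈ Φ ↔ Y.Root R ∧ Y.ip0 (Y.gam C) (Y.gam R) = 1) :
    ∃ H : Y.Cl, Y.Nef H ∧ Y.sq H = Φ.card / 2 ∧ Y.ip H Y.L = 2 ∧
      Y.ip H (Y.gam C) = 2 - Φ.card / 2 := by
  have hJ : ∀ R ∈ Φ, Y.Root R ∧ Y.ip0 (Y.gam C) (Y.gam R) = 1 := fun R hR => (hΦ R).1 hR
  obtain ⟨s1, s2, s3, s4, s5⟩ := sum_facts hY hJ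
  have ex := fun l (hl : Y.Line l) => exc_line hB hC hY h hJ hl
  have pos : ∀ l, Y.Line l → 0 ≤ Y.ip0 (Y.gam l) (∑ R ∈ Φ, Y.gam R) := fun l hl => by
    rw [ip0_sum_right]
    refine Finset.sum_nonneg fun R hR => ?_
    rcases hC.lr Y hY l R hl (hJ R hR).1 with e | e <;> rw [e] <;> norm_num
  generalize ∑ R ∈ Φ, Y.gam R = s at s1 s2 s3 s4 s5 ex pos
  have hLL : Y.ip Y.L Y.L = 3 := hB.LL Y hY
  have e0 : ∀ y, Y.ip (Y.pr Y.T0 (Y.L - Y.gam C - (1 / 2 : ℝ) • s)) y =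
      Y.ip Y.L y - Y.ip0 y (Y.gam C) - 1 / 2 * Y.ip0 y s := fun y => by
    rw [← ip0, ip0_comm, ip0_sub_right, ip0_sub_right, ip0_smul_right, ip0_L']
  have e1 : Y.sq (Y.pr Y.T0 (Y.L - Y.gam C - (1 / 2 : ℝ) • s)) = Φ.card / 2 := by
    rw [Tree.sq, ip_pp, ip0, e0]
    simp only [ip_sub_right, ip_smul_right, ip0_sub_left, ip0_smul_left, ip0_L]
    rw [hLL, h.2.2, s2, h.2.1, ip0_comm s (Y.gam C), s1, s5]
    ring
  have e2 : Y.ip (Y.pr Y.T0 (Y.L - Y.gam C - (1 / 2 : ℝ) • s)) Y.L = 2 := by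
    rw [e0, ip0_L, ip0_L, hLL, h.2.2, s2]
    norm_num
  refine ⟨_, hC.nef0 Y hY _ (pr_pr _ _) (by rw [e1]; positivity) (by rw [ip_comm, e2]; norm_num)
    fun i hi => ?_, e1, e2, ?_⟩
  · rw [e0]
    rcases hi with hi | hi
    · have a1 := ex i hi
      have a2 := pos i hi
      rw [ip0_add_right] at a1
      rw [hi.2.2]
      linarith
    · rw [hi.2.2, ip0_comm (Y.gam i) (Y.gam C)]
      by_cases hm : i ∈ Φ
      · rw [s3 i hm, (hJ i hm).2]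
        norm_num
      · rcases hC.lr Y hY C i h hi with e | e
        · rw [s4 i hi hm, e]
          norm_num
        · exact absurd ((hΦ i).2 ⟨hi, e⟩) hm
  · rw [e0, h.2.2, h.2.1, s1]
    ring

lemma brk_le (hC : St_NC) (hY : Y.DP) {C : Y.I} {Φ : Finset Y.I} (h : Y.Line C)
    (hJ : ∀ R ∈ Φ, Y.Root R ∧ Y.ip0 (Y.gam C) (Y.gam R) = 1) {B : Y.I →₀ ℝ} (hB : 0 ≤ B)
    (hn : Y.Nef (Y.L - Y.cl B)) : Y.brk C Φ B ≤ 1 + (1 - Φ.card / 2) * B C := by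
  have h1 : ∀ R ∈ Φ, B C / 2 ≤ B R * Y.ip0 (Y.gam R) (Y.gam C) := fun R hR => by
    have a1 := hC.push Y hY B R {C} hB hn (hJ R hR).1.1 fun F hF => by
      rw [Finset.mem_singleton.1 hF]
      exact ⟨h.1, line_ne_root h (hJ R hR).1⟩
    have a2 := hn R
    rw [brk, Finset.sum_singleton, ip0_sub_left, ip0_smul_left, ip0_L, (hJ R hR).1.2.1,
      (hJ R hR).1.2.2, (hJ R hR).2] at a1
    rw [ip0_comm, (hJ R hR).2]
    linarith
  have h2 := Finset.card_nsmul_le_sum Φ _ _ h1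
  rw [brk, ip0_sub_left, ip0_smul_left, ip0_L, h.2.1, h.2.2]
  rw [nsmul_eq_mul] at h2
  linarith

/-- The minimal divisor with prescribed coefficient. -/
lemma feas (hZ : St_ZAR) (hY : Y.DP) (C : Y.I) {u : ℝ} (hu : 0 ≤ u) :
    Y.dmin Y.L (0 ⊔ Finsupp.single C u) = 0 ∨ ∃ B : Y.I →₀ ℝ, 0 ≤ B ∧ Y.Nef (Y.L - Y.cl B) ∧
      B C = u ∧ Y.dmin Y.L (0 ⊔ Finsupp.single C u) = Y.L - Y.cl B := by
  by_cases hf : Y.Feas Y.L (0 ⊔ Finsupp.single C u)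
  · obtain ⟨a1, a2, a3, -, -⟩ := hZ.least Y hY.toPlane _ _ hf
    refine Or.inr ⟨_, le_sup_left.trans a1, a2 ▸ a3, ?_, a2⟩
    exact hZ.tight Y hY.toPlane _ 0 C u le_rfl (by simpa using hY.nefL) hu hf
  · exact Or.inl (by rw [dmin, if_neg hf])

lemma int_le {f g : ℝ → ℝ} {U c : ℝ} (hU : 0 ≤ U) (hg : Continuous g)
    (h : ∀ x ∈ Set.Icc 0 U, f x ≤ g x) (hc : ∫ x in (0 : ℝ)..U, g x ≤ c) (h0 : 0 ≤ c) :
    ∫ x in (0 : ℝ)..U, f x ≤ c := by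
  by_cases hf : IntervalIntegrable f volume 0 U
  · exact (intervalIntegral.integral_mono_on hU hf (hg.intervalIntegrable _ _) h).trans hc
  · rw [intervalIntegral.integral_undef hf]
    exact h0

lemma int_quad (a b c U : ℝ) :
    ∫ x in (0 : ℝ)..U, (a + b * x + c * x ^ 2) = a * U + b * U ^ 2 / 2 + c * U ^ 3 / 3 := by
  have h : ∀ x ∈ Set.uIcc 0 U, HasDerivAt (fun x : ℝ => a * x + b * x ^ 2 / 2 + c * x ^ 3 / 3)
      (a + b * x + c * x ^ 2) x := fun x _ => by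
    have h1 := (((hasDerivAt_id' x).const_mul a).add
      (((hasDerivAt_pow 2 x).const_mul b).div_const 2)).add
      (((hasDerivAt_pow 3 x).const_mul c).div_const 3)
    refine h1.congr_deriv ?_
    norm_num
    ring
  rw [intervalIntegral.integral_eq_sub_of_hasDerivAt h
    ((by fun_prop : Continuous fun x : ℝ => a + b * x + c * x ^ 2).intervalIntegrable _ _)]
  ring

end NFB

open NFB Tree in
theorem fb_of (hA : St_NA) (hB : St_NB) (hC : St_NC) (hZ : St_ZAR) (hP : St_PF) (hR : St_RA) :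
    St_FB := by
  intro Y hY C h
  obtain ⟨Φ, hΦ⟩ := exists_Phi hB hC hY h
  have hJ : ∀ R ∈ Φ, Y.Root R ∧ Y.ip0 (Y.gam C) (Y.gam R) = 1 := fun R hR => (hΦ R).1 hR
  obtain ⟨H, n1, n2, n3, n4⟩ := exists_H hB hC hY h hΦ
  have hc := card_le hB hC hY h hJ
  have hc' : (Φ.card : ℝ) ≤ 2 := by exact_mod_cast hc
  have hH : ∀ B : Y.I →₀ ℝ, 0 ≤ B → Y.Nef (Y.L - Y.cl B) → 0 ≤ Y.ip H (Y.L - Y.cl B) ∧
      Y.ip H (Y.L - Y.cl B) ≤ 2 - B C * (2 - Φ.card / 2) := fun B h0 hn => by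
    refine ⟨hA.nef_nef Y hY.toPlane _ _ n1 hn, ?_⟩
    have := coef_le n1 h0 C
    rw [n4] at this
    rw [ip_sub_right, n3]
    linarith
  have hz : ∀ u, 0 ≤ u → 0 ≤ Y.hf Y.L 0 C u ∧ Y.hf Y.L 0 C u ≤ 1 + (1 - Φ.card / 2) * u :=
    fun u hu => by
      refine ⟨hZ.nef Y hY.toPlane _ _ C, ?_⟩
      rcases feas hZ hY C hu with e | ⟨B, b1, b2, b3, e⟩
      · rw [hf, e, ip_zero_left]
        have : 0 ≤ (1 - Φ.card / 2 : ℝ) * u := mul_nonneg (by linarith) hu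
        linarith
      · rw [hf, e, ← b3]
        exact (hC.push Y hY B C Φ b1 b2 h.1 fun F hF =>
          ⟨(hJ F hF).1.1, (line_ne_root h (hJ F hF).1).symm⟩).trans (brk_le hC hY h hJ b1 b2)
  have second : ∀ U : ℝ, 0 ≤ U → 1 / 2 * U + (1 - Φ.card / 2) * U ^ 2 / 2 +
      (1 - Φ.card / 2) ^ 2 / 2 * U ^ 3 / 3 ≤ 17 / 12 → ∫ u in (0 : ℝ)..U, Y.hf Y.L 0 C u *
        (1 + (1 - Φ.card / 2) * u - Y.hf Y.L 0 C u / 2) ≤ 17 / 12 := fun U hU hb => by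
    refine int_le (g := fun x => 1 / 2 + (1 - Φ.card / 2) * x + (1 - Φ.card / 2) ^ 2 / 2 * x ^ 2)
      hU (by fun_prop) (fun x _ => ?_) (by rw [int_quad]; exact hb) (by norm_num)
    nlinarith [sq_nonneg (1 + (1 - Φ.card / 2 : ℝ) * x - Y.hf Y.L 0 C x)]
  have first : ∀ U : ℝ, 0 ≤ U → 0 * U + 1 * U ^ 2 / 2 + (1 - Φ.card / 2) * U ^ 3 / 3 ≤ 17 / 12 →
      ∫ u in (0 : ℝ)..U, u * Y.hf Y.L 0 C u ≤ 17 / 12 := fun U hU hb => by
    refine int_le (g := fun x => 0 + 1 * x + (1 - Φ.card / 2) * x ^ 2)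
      hU (by fun_prop) (fun x hx => ?_) (by rw [int_quad]; exact hb) (by norm_num)
    nlinarith [mul_le_mul_of_nonneg_left (hz x hx.1).2 hx.1]
  have fin : ∀ U : ℝ, 0 ≤ U → 2 ≤ U * (2 - Φ.card / 2) →
      ∫ u in (0 : ℝ)..U, u * Y.hf Y.L 0 C u ≤ 17 / 12 → 1 / 2 * U + (1 - Φ.card / 2) * U ^ 2 / 2 +
      (1 - Φ.card / 2) ^ 2 / 2 * U ^ 3 / 3 ≤ 17 / 12 → Y.FlagOK C Φ := fun U hU h2 i1 i2 => by
    refine ⟨U, fun u => 1 + (1 - Φ.card / 2) * u, hU, by fun_prop, fun B h0 hn =>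
      ⟨?_, brk_le hC hY h hJ h0 hn⟩, i1, second U hU i2⟩
    have a1 := hH B h0 hn
    have a2 : (0 : ℝ) < 2 - Φ.card / 2 := by linarith
    exact le_of_mul_le_mul_right (by linarith [a1.1, a1.2]) a2
  refine ⟨Φ, fun F hF => (hJ F hF).1, ?_⟩
  obtain e | e | e : Φ.card = 0 ∨ Φ.card = 1 ∨ Φ.card = 2 := by omega
  · exact fin 1 (by norm_num) (by rw [e]; norm_num) (first 1 (by norm_num) (by rw [e]; norm_num))
      (by rw [e]; norm_num)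
  · exact fin (4 / 3) (by norm_num) (by rw [e]; norm_num)
      (first (4 / 3) (by norm_num) (by rw [e]; norm_num)) (by rw [e]; norm_num)
  · refine fin 2 (by norm_num) (by rw [e]; norm_num) ?_ (by rw [e]; norm_num)
    have hL : Y.Nef (Y.L - Y.cl 0) := by simpa using hY.nefL
    have a := hR.abel 0 2 (Y.hf Y.L 0 C) (fun u => 2 + (-2) * u + 1 / 2 * u ^ 2) (by norm_num)
      (hZ.intg Y hY.toPlane _ 0 C 0 2 le_rfl hL le_rfl (by norm_num)) (by fun_prop)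
      fun u hu => by
        have a1 := hP.one Y hY.toPlane _ 0 C u 2 le_rfl hL hu.1 hu.2
        have a2 : Y.sq (Y.dmin Y.L (0 ⊔ Finsupp.single C u)) ≤ (2 - u) ^ 2 := by
          rcases feas hZ hY C hu.1 with e' | ⟨B, b1, b2, b3, e'⟩
          · rw [e', Tree.sq, ip_zero_left]
            positivity
          · rw [e']
            have a3 := hH B b1 b2
            have a4 := hA.hodge Y H (Y.L - Y.cl B) (by rw [n2]; positivity)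
            rw [n2, e] at a4
            rw [e, b3] at a3
            push_cast at a3 a4
            have a5 : Y.ip H (Y.L - Y.cl B) ^ 2 ≤ (2 - u) ^ 2 :=
              pow_le_pow_left₀ a3.1 (by linarith [a3.2]) 2
            linarith
        show _ ≤ 2 + (-2) * u + 1 / 2 * u ^ 2
        nlinarith
    rw [int_quad] at a
    simp only [sub_zero] at a
    linarith

end Pool.Agent.Lib.MP_a25055_ag
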