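import Mathlib
import Pool.Agent.Lib.MP_a25055_ag.Num

/-! Block FC: the flag given by a conic. -/

open Module Finset MeasureTheory

noncomputable section

namespace Pool.Agent.Lib.MP_a25055_ag

namespace NFC

open Tree

variable {Y : Tree}

lemma pr_pr (Q : Finset Y.T) (x : Y.Cl) : Y.pr Q (Y.pr Q x) = Y.pr Q x := by
  refine Prod.ext rfl (funext fun q => ?_)
  simp only [pr]
  split_ifs <;> rfl

lemma pr_L : Y.pr Y.T0 Y.L = Y.L := by
  refine Prod.ext rfl (funext fun q => ?_)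
  simp only [pr, L]
  split_ifs <;> rfl

lemma ip0_eq (x y : Y.Cl) : Y.ip0 x y = Y.ip x (Y.pr Y.T0 y) := ip_pr _ _ _

lemma ip0_comm (x y : Y.Cl) : Y.ip0 x y = Y.ip0 y x := by
  rw [ip0_eq, ip_comm]; rfl

lemma ip0_L (y : Y.Cl) : Y.ip0 Y.L y = Y.ip Y.L y := by rw [ip0, pr_L]

lemma ip0_add (x y z : Y.Cl) : Y.ip0 (x + y) z = Y.ip0 x z + Y.ip0 y z := by
  simp only [ip0_eq, ip_add_left]

lemma ip0_sub (x y z : Y.Cl) : Y.ip0 (x - y) z = Y.ip0 x z - Y.ip0 y z := by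
  simp only [ip0_eq, ip_sub_left]

lemma ip0_smul (c : ℝ) (x z : Y.Cl) : Y.ip0 (c • x) z = c * Y.ip0 x z := by
  simp only [ip0_eq, ip_smul_left]

lemma ip0_sum (J : Finset Y.I) (f : Y.I → Y.Cl) (z : Y.Cl) :
    Y.ip0 (∑ R ∈ J, f R) z = ∑ R ∈ J, Y.ip0 (f R) z := by
  simp only [ip0_eq]
  exact map_sum (ipL.flip (Y.pr Y.T0 z)) f J

lemma brk_eq (C : Y.I) (Φ : Finset Y.I) (B : Y.I →₀ ℝ) : Y.brk C Φ B =
    Y.ip Y.L (Y.gam C) - B C * Y.ip0 (Y.gam C) (Y.gam C) -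
      ∑ F ∈ Φ, B F * Y.ip0 (Y.gam F) (Y.gam C) := by
  rw [brk, ip0_sub, ip0_smul, ip0_L]

lemma int_sq (a b x y : ℝ) : ∫ u in x..y, (a - b * u) ^ 2 / 2 =
    a ^ 2 / 2 * (y - x) - a * b * (y ^ 2 - x ^ 2) / 2 + b ^ 2 * (y ^ 3 - x ^ 3) / 6 := by
  have h : ∀ u ∈ Set.uIcc x y, HasDerivAt
      (fun u : ℝ => a ^ 2 / 2 * u - a * b / 2 * u ^ 2 + b ^ 2 / 6 * u ^ 3)
      ((a - b * u) ^ 2 / 2) u := by
    intro u _
    have h1 := (((hasDerivAt_id' u).const_mul (a ^ 2 / 2)).sub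
      ((hasDerivAt_pow 2 u).const_mul (a * b / 2))).add
      ((hasDerivAt_pow 3 u).const_mul (b ^ 2 / 6))
    refine h1.congr_deriv ?_
    push_cast
    ring
  rw [intervalIntegral.integral_eq_sub_of_hasDerivAt h
    ((by fun_prop : Continuous fun u : ℝ => (a - b * u) ^ 2 / 2).intervalIntegrable _ _)]
  ring

lemma flag (hC : St_NC) (hZ : St_ZAR) (hY : Y.DP) {C : Y.I} {Φ : Finset Y.I} (hon : Y.On Y.T0 C)
    (hΦ : ∀ F ∈ Φ, Y.On Y.T0 F ∧ F ≠ C) (b a' b' s : ℝ) (hb0 : 0 ≤ b) (hb2 : b ≤ 2)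
    (hb' : 0 ≤ b') (hab : b' ≤ a') (hs0 : 0 ≤ s) (hs1 : s ≤ 1)
    (hB : ∀ B : Y.I →₀ ℝ, 0 ≤ B → Y.Nef (Y.L - Y.cl B) →
      B C ≤ 1 ∧ Y.brk C Φ B ≤ 2 - b * B C ∧ Y.brk C Φ B ≤ a' - b' * B C)
    (hnum : 2 * s - b * s ^ 2 + b ^ 2 * s ^ 3 / 6 + (a' ^ 2 / 2 * (1 - s) -
      a' * b' * (1 - s ^ 2) / 2 + b' ^ 2 * (1 - s ^ 3) / 6) ≤ 17 / 12) : Y.FlagOK C Φ := by
  refine ⟨1, fun u => min (2 - b * u) (a' - b' * u), zero_le_one, by fun_prop,
    fun B h0 hn => ⟨(hB B h0 hn).1, le_min (hB B h0 hn).2.1 (hB B h0 hn).2.2⟩, ?_, ?_⟩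
  · have hz : ∀ u, Y.hf Y.L 0 C u ≤ 2 := by
      intro u
      by_cases hf : Y.Feas Y.L (0 ⊔ Finsupp.single C u)
      · obtain ⟨h1, h2, h3, -, -⟩ := hZ.least Y hY.toPlane _ _ hf
        have h0 : 0 ≤ Y.bmin Y.L (0 ⊔ Finsupp.single C u) := le_sup_left.trans h1
        rw [h2] at h3
        have h4 := hC.push Y hY _ C Φ h0 h3 hon hΦ
        have h5 := (hB _ h0 h3).2.1
        have h6 := mul_nonneg hb0 (h0 C)
        rw [Tree.hf, h2]
        linarith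
      · rw [Tree.hf, dmin, if_neg hf, ip_zero_left]
        norm_num
    by_cases hi : IntervalIntegrable (fun u => u * Y.hf Y.L 0 C u) volume 0 1
    · have h1 : ∫ u in (0 : ℝ)..1, u * Y.hf Y.L 0 C u ≤ ∫ u in (0 : ℝ)..1, u * 2 :=
        intervalIntegral.integral_mono_on zero_le_one hi
          ((by fun_prop : Continuous fun u : ℝ => u * 2).intervalIntegrable _ _)
          fun u hu => mul_le_mul_of_nonneg_left (hz u) hu.1
      rw [intervalIntegral.integral_mul_const, integral_id] at h1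
      linarith
    · rw [intervalIntegral.integral_undef hi]
      norm_num
  · by_cases hi : IntervalIntegrable (fun u => Y.hf Y.L 0 C u *
        (min (2 - b * u) (a' - b' * u) - Y.hf Y.L 0 C u / 2)) volume 0 1
    · have hs : s ∈ Set.uIcc (0 : ℝ) 1 := by
        rw [Set.uIcc_of_le zero_le_one]; exact ⟨hs0, hs1⟩
      have hi1 := hi.mono_set (Set.uIcc_subset_uIcc_left hs)
      have hi2 := hi.mono_set (Set.uIcc_subset_uIcc_right hs)
      have key : ∀ u, 0 ≤ u → u ≤ 1 → ∀ m, min (2 - b * u) (a' - b' * u) ≤ m →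
          Y.hf Y.L 0 C u * (min (2 - b * u) (a' - b' * u) - Y.hf Y.L 0 C u / 2) ≤ m ^ 2 / 2 := by
        intro u h0 h1 m hm
        have h2 : 0 ≤ min (2 - b * u) (a' - b' * u) := le_min (by nlinarith) (by nlinarith)
        generalize min (2 - b * u) (a' - b' * u) = e at h2 hm
        nlinarith [sq_nonneg (e - Y.hf Y.L 0 C u)]
      have h1 := intervalIntegral.integral_mono_on hs0 hi1
        ((by fun_prop : Continuous fun u : ℝ => (2 - b * u) ^ 2 / 2).intervalIntegrable _ _)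
        fun u hu => key u hu.1 (hu.2.trans hs1) _ (min_le_left _ _)
      have h2 := intervalIntegral.integral_mono_on hs1 hi2
        ((by fun_prop : Continuous fun u : ℝ => (a' - b' * u) ^ 2 / 2).intervalIntegrable _ _)
        fun u hu => key u (hs0.trans hu.1) hu.2 _ (min_le_right _ _)
      rw [int_sq] at h1 h2
      rw [← intervalIntegral.integral_add_adjacent_intervals hi1 hi2]
      nlinarith
    · rw [intervalIntegral.integral_undef hi]
      norm_num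

end NFC

open NFC Tree in
theorem fc_of (hB : St_NB) (hC : St_NC) (hZ : St_ZAR) : St_FC := by
  intro Y hY C hon h00 hL2
  have hLL : Y.ip Y.L Y.L = 3 := hB.LL Y hY
  obtain ⟨i1, i2, -, i4, -, i6⟩ := hB.int Y
  have hCL : Y.ip0 (Y.gam C) Y.L = 2 := by rw [ip0_comm, ip0_L, hL2]
  have hsq : Y.sq (Y.pr Y.T0 (Y.L - Y.gam C)) = -1 := by
    have h1 : Y.sq (Y.pr Y.T0 (Y.L - Y.gam C)) = Y.ip0 (Y.L - Y.gam C) (Y.L - Y.gam C) := by
      rw [Tree.sq, ← ip_pr, pr_pr]; rfl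
    rw [h1, ip0_sub, ip0_L, ip_sub_right, ip0_comm, ip0_sub, ip0_L, hLL, hL2, h00]
    norm_num
  have hLx : Y.ip Y.L (Y.pr Y.T0 (Y.L - Y.gam C)) = 1 := by
    rw [← ip_pr, pr_L, ip_sub_right, hLL, hL2]
    norm_num
  obtain ⟨l, J, hl, hJ, hR, hx⟩ := hC.dec Y hY _ (i6 _ _ (i4 _ _ i2 (i1 C)).2.1) (pr_pr _ _) hsq hLx
  have hx' : ∀ y, Y.ip Y.L y - Y.ip0 (Y.gam C) y =
      Y.ip0 (Y.gam l) y + ∑ R ∈ J, Y.ip0 (Y.gam R) y := by
    intro y
    rw [← ip0_L, ← ip0_sub, ← ip0_sum, ← ip0_add, ip0, hx]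
    rfl
  have hCR : ∀ R ∈ J, Y.ip0 (Y.gam C) (Y.gam R) = 1 := by
    intro R hRJ
    have h1 := hx' (Y.gam R)
    rw [Finset.sum_eq_single_of_mem R hRJ fun R' hR' hne =>
      hY.orth R' R hne (hR R' hR').1.1 (hR R hRJ).1.1 (hR R' hR').1.2.2 (hR R hRJ).1.2.2,
      (hR R hRJ).1.2.1, (hR R hRJ).1.2.2, (hR R hRJ).2] at h1
    linarith
  have hCl : Y.ip0 (Y.gam C) (Y.gam l) = 2 - J.card := by
    have h1 := hx' (Y.gam l)
    rw [Finset.sum_congr rfl fun R hRJ => (ip0_comm _ _).trans (hR R hRJ).2, hl.2.1, hl.2.2] at h1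
    simp only [sum_const, nsmul_eq_mul, mul_one] at h1
    linarith
  have hlC : l ≠ C := by
    rintro rfl
    have := hl.2.1
    rw [h00] at this
    norm_num at this
  have hRC : ∀ R ∈ J, R ≠ C := by
    rintro R hRJ rfl
    have := (hR R hRJ).1.2.1
    rw [h00] at this
    norm_num at this
  have hRl : ∀ R ∈ J, R ≠ l := by
    rintro R hRJ rfl
    have := (hR R hRJ).1.2.1
    rw [hl.2.1] at this
    norm_num at this
  have hlJ : l ∉ J := fun h => hRl l h rfl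
  have hCJ : C ∉ J := fun h => hRC C h rfl
  have hΦ : ∀ F ∈ insert l J, Y.On Y.T0 F ∧ F ≠ C := by
    intro F hF
    rcases Finset.mem_insert.1 hF with rfl | hF
    · exact ⟨hl.1, hlC⟩
    · exact ⟨(hR F hF).1.1, hRC F hF⟩
  have key : ∀ B : Y.I →₀ ℝ, 0 ≤ B → Y.Nef (Y.L - Y.cl B) → ∃ G : ℝ,
      J.card * ((B C + B l) / 2) ≤ G ∧ 0 ≤ 1 + B l - B C * (2 - J.card) - G ∧
      Y.brk C (insert l J) B = 2 - B l * (2 - J.card) - G ∧ 0 ≤ Y.brk C (insert l J) B ∧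
      0 ≤ B l ∧ 0 ≤ B C := by
    intro B h0 hn
    refine ⟨∑ R ∈ J, B R, ?_, ?_, ?_, (hn C).trans (hC.push Y hY B C _ h0 hn hon hΦ), h0 l, h0 C⟩
    · rw [← nsmul_eq_mul]
      refine Finset.card_nsmul_le_sum J _ _ fun R hRJ => ?_
      have h1 := (hn R).trans (hC.push Y hY B R {C, l} h0 hn (hR R hRJ).1.1 (by
        intro F hF
        rcases Finset.mem_insert.1 hF with rfl | hF
        · exact ⟨hon, (hRC R hRJ).symm⟩
        · rw [Finset.mem_singleton.1 hF]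
          exact ⟨hl.1, (hRl R hRJ).symm⟩))
      rw [brk_eq, Finset.sum_pair hlC.symm, (hR R hRJ).1.2.1, (hR R hRJ).1.2.2, (hR R hRJ).2,
        hCR R hRJ] at h1
      linarith
    · have h1 := (hn l).trans (hC.push Y hY B l (insert C J) h0 hn hl.1 (by
        intro F hF
        rcases Finset.mem_insert.1 hF with rfl | hF
        · exact ⟨hon, hlC.symm⟩
        · exact ⟨(hR F hF).1.1, hRl F hF⟩))
      rw [brk_eq, Finset.sum_insert hCJ, hl.2.1, hl.2.2, hCl, Finset.sum_congr rfl fun R hRJ => by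
        rw [ip0_comm, (hR R hRJ).2, mul_one]] at h1
      linarith
    · rw [brk_eq, Finset.sum_insert hlJ, h00, hL2, ip0_comm, hCl,
        Finset.sum_congr rfl fun R hRJ => by rw [ip0_comm, hCR R hRJ, mul_one]]
      ring
  refine ⟨insert l J, fun F hF => ?_, ?_⟩
  · rcases Finset.mem_insert.1 hF with rfl | hF
    · exact Or.inl hl
    · exact Or.inr (hR F hF).1
  have hr : J.card = 0 ∨ J.card = 1 ∨ J.card = 2 := by omega
  rcases hr with hr | hr | hr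
  · refine flag hC hZ hY hon hΦ 0 4 4 (1 / 2) le_rfl (by norm_num) (by norm_num) le_rfl
      (by norm_num) (by norm_num) (fun B h0 hn => ?_) (by norm_num)
    obtain ⟨G, k1, k2, k3, k4, k5, k6⟩ := key B h0 hn
    rw [hr] at k1 k2 k3
    push_cast at k1 k2 k3
    refine ⟨?_, ?_, ?_⟩ <;> linarith
  · refine flag hC hZ hY hon hΦ (1 / 2) 5 5 (2 / 3) (by norm_num) (by norm_num) (by norm_num) le_rfl
      (by norm_num) (by norm_num) (fun B h0 hn => ?_) (by norm_num)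
    obtain ⟨G, k1, k2, k3, k4, k5, k6⟩ := key B h0 hn
    rw [hr] at k1 k2 k3
    push_cast at k1 k2 k3
    refine ⟨?_, ?_, ?_⟩ <;> linarith
  · refine flag hC hZ hY hon hΦ 1 2 1 1 (by norm_num) (by norm_num) (by norm_num) (by norm_num)
      (by norm_num) le_rfl (fun B h0 hn => ?_) (by norm_num)
    obtain ⟨G, k1, k2, k3, k4, k5, k6⟩ := key B h0 hn
    rw [hr] at k1 k2 k3
    push_cast at k1 k2 k3
    refine ⟨?_, ?_, ?_⟩ <;> linarith

end Pool.Agent.Lib.MP_a25055_ag
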