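import Pool.Agent.Lib.MP_a25055_ag.Num

/-! Block G3N: from high powers of the filtration to the envelope. -/

open Finset

noncomputable section

namespace Pool.Agent.Lib.MP_a25055_ag

namespace NG3N

open Pool.Agent.Lib.MP_a25055_ag.Tree

lemma riem {p : ℝ → ℝ} {T m : ℕ} {V : ℝ} (hm : 0 < m) (hp : AntitoneOn p (Set.Icc 0 T))
    (h0 : ∀ t ∈ Set.Icc (0 : ℝ) T, 0 ≤ p t ∧ p t ≤ V) :
    m * ∫ t in (0 : ℝ)..T, p t ≤ (T + 1) * V + ∑ s ∈ Ioc 0 ((m - 1) * T), p (s / m) := by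
  have hm' : (0 : ℝ) < m := by exact_mod_cast hm
  have h1 : ∀ x ∈ Set.Icc (0 : ℝ) (m * T : ℕ), x / m ∈ Set.Icc (0 : ℝ) T := fun x hx =>
    ⟨div_nonneg hx.1 hm'.le, by rw [div_le_iff₀' hm']; exact_mod_cast hx.2⟩
  have h2 : ∀ s : ℕ, s ≤ m * T → 0 ≤ p (s / m) ∧ p (s / m) ≤ V := fun s hs =>
    h0 _ (h1 _ ⟨Nat.cast_nonneg _, Nat.cast_le.mpr hs⟩)
  have h3 := AntitoneOn.integral_le_sum (x₀ := 0) (a := m * T) (f := fun x => p (x / m))
    (by
      rw [zero_add]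
      exact fun x hx y hy h => hp (h1 x hx) (h1 y hy) (div_le_div_of_nonneg_right h hm'.le))
  simp only [zero_add] at h3
  rw [intervalIntegral.integral_comp_div _ hm'.ne', zero_div, Nat.cast_mul,
    mul_div_cancel_left₀ _ hm'.ne', smul_eq_mul] at h3
  have h4 : (m - 1) * T + T = m * T := by
    rw [← Nat.succ_mul, Nat.succ_eq_add_one, Nat.sub_add_cancel hm]
  have h5 := sum_le_sum_of_subset_of_nonneg (f := fun s : ℕ => p (s / m))
    (s := range (m * T)) (t := insert 0 (Ioc 0 (m * T)))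
    (fun s hs => by simp only [mem_range, mem_insert, mem_Ioc] at hs ⊢; omega)
    fun s hs _ => (h2 s (by simp only [mem_insert, mem_Ioc] at hs; omega)).1
  rw [sum_insert (by simp), ← sum_Ioc_consecutive _ (Nat.zero_le ((m - 1) * T)) (by omega)] at h5
  have h6 := sum_le_card_nsmul (Ioc ((m - 1) * T) (m * T)) (fun s : ℕ => p (s / m)) V
    fun s hs => (h2 s (mem_Ioc.mp hs).2).2
  rw [Nat.card_Ioc, show m * T - (m - 1) * T = T by omega, nsmul_eq_mul] at h6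
  linarith [(h2 0 (Nat.zero_le _)).2]

lemma core (hA : St_NA) (hB : St_NB) {Y : Tree} (hY : Y.DP) {k m c : ℝ} {B Bh BT : Y.I →₀ ℝ}
    (hk : 0 ≤ k) (hm : 0 ≤ m) (hc : 0 ≤ c) (h0 : 0 ≤ B) (h1 : Y.Nef ((m * k) • Y.L - Y.cl B))
    (h2 : 0 ≤ Bh) (h3 : Y.Nef (k • Y.L - Y.cl Bh)) (h4 : Y.Nef (k • Y.L - Y.cl BT))
    (h5 : B ≤ m • Bh + c • BT) :
    m ^ 2 * Y.sq (k • Y.L - Y.cl Bh) ≤ 6 * c * m * k ^ 2 + Y.sq ((m * k) • Y.L - Y.cl B) := by
  have a1 := (hB.maxord Y hY _ _ h0 h1).2.2.2.2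
  have a2 := (hB.maxord Y hY _ _ h2 h3).2.2.2.2
  have e : (m * k) • Y.L - Y.cl B = m • (k • Y.L - Y.cl Bh) + Y.cl (m • Bh + c • BT - B) -
      c • (k • Y.L - (k • Y.L - Y.cl BT)) := by
    simp only [map_sub, map_add, map_smul]
    module
  generalize (m * k) • Y.L - Y.cl B = M at h1 a1 e
  generalize k • Y.L - Y.cl Bh = P at h3 a2 e
  generalize k • Y.L - Y.cl BT = W at h4 e
  have key : ∀ D, Y.Nef D → m * Y.ip D P - c * (k * Y.ip D Y.L) ≤ Y.ip D M := fun D hD => by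
    rw [e, ip_sub_right, ip_add_right, ip_smul_right, ip_smul_right, ip_sub_right, ip_smul_right]
    nlinarith [hD.ip_cl (sub_nonneg.mpr h5), hA.nef_nef Y hY.toPlane D W hD h4]
  have b1 := key M h1
  have b2 := mul_le_mul_of_nonneg_left (key P h3) hm
  have b3 := mul_le_mul_of_nonneg_left a1 (mul_nonneg hc hk)
  have b4 := mul_le_mul_of_nonneg_left a2 (mul_nonneg hm (mul_nonneg hc hk))
  rw [ip_comm P M] at b2
  simp only [Tree.sq]
  linarith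

end NG3N

theorem g3n_of (hA : St_NA) (hB : St_NB) (hE : St_ENV) (hP : St_PT) : St_G3N := by
  intro Y hY k S U T m B hF hm h
  obtain ⟨p1, p2, -, -, -, -, p3, -⟩ := hP Y hY.toPlane k S U 0 T hF (Nat.zero_le _)
  simp only [Nat.cast_zero] at p2 p3
  have hm' : (0 : ℝ) < m := by exact_mod_cast hm
  have h0 : ∀ t ∈ Set.Icc (0 : ℝ) T, 0 ≤ S.Bh U 0 T t := fun t ht =>
    le_trans (fun i => Nat.cast_nonneg _) (p2 t ht).2.1
  have h1 := NG3N.riem (V := 3 * k ^ 2) hm p3 fun t ht =>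
    ⟨(hA.nef Y hY.toPlane _ (p2 t ht).2.2.2.1).2.2,
      (hB.maxord Y hY _ _ (h0 t ht) (p2 t ht).2.2.2.1).2.2.2.1⟩
  have h2 := sum_le_sum (s := Ioc 0 ((m - 1) * T)) fun s hs => by
    have h3 : s ≤ m * T := (mem_Ioc.mp hs).2.trans (Nat.mul_le_mul_right _ (Nat.sub_le _ _))
    have h4 : (s / m : ℝ) ∈ Set.Icc (0 : ℝ) T :=
      ⟨by positivity, by rw [div_le_iff₀' hm']; exact_mod_cast h3⟩
    obtain ⟨h5, h6, h7⟩ := h s h3
    rw [Nat.cast_mul] at h6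
    exact NG3N.core hA hB hY (c := T + 1) (Nat.cast_nonneg k) hm'.le (by positivity) h5 h6
      (h0 _ h4) (p2 _ h4).2.2.2.1 (S.nef_mov hY.toPlane hF.2) fun i => by
        obtain ⟨n, h8, h9, h10⟩ := hE.round (fun n => S.base (U n) i) T m s (p1 i) hm h3
        rw [← (p2 _ h4).1 i] at h10
        exact (h7 i n h8 h9).trans h10
  rw [← mul_sum, sum_add_distrib, sum_const, Nat.card_Ioc, Nat.sub_zero, nsmul_eq_mul] at h2
  have h3 : (((m - 1) * T : ℕ) : ℝ) ≤ m * (T + 1) := by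
    exact_mod_cast Nat.mul_le_mul (Nat.sub_le _ _) (Nat.le_succ _)
  have h4 := mul_le_mul_of_nonneg_left h1 (sq_nonneg (m : ℝ))
  have h5 := mul_le_mul_of_nonneg_right h3 (show 0 ≤ 6 * ((T : ℝ) + 1) * m * k ^ 2 by positivity)
  have h6 : 0 ≤ (m : ℝ) ^ 2 * k ^ 2 * ((T + 1) * (2 * T + 1)) := by positivity
  simp only [Sec.Pt, Nat.cast_mul m k] at h4 ⊢
  linarith

end Pool.Agent.Lib.MP_a25055_ag
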