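import Pool.Agent.Lib.MP_a25055_ag.Num

open Finset

noncomputable section

namespace Pool.Agent.Lib.MP_a25055_ag

namespace NINVL

variable {Y : Tree}

/-- Descendants. -/
abbrev Ds (Y : Tree) (q p : Y.T) : Prop := Relation.ReflTransGen (fun a b => b ∈ Y.prox a) q p

/-- The points proximate to `r`. -/
def K (Y : Tree) (r : Y.T) : Finset Y.T := univ.filter fun z => r ∈ Y.prox z

lemma mem_K {r z : Y.T} : z ∈ K Y r ↔ r ∈ Y.prox z := by simp [K]

/-- The proximity inequalities. -/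
def Px (Y : Tree) (ν : Y.T → ℝ) : Prop :=
  (∀ q ∉ Y.T0, 0 ≤ ν q) ∧ ∀ r ∉ Y.T0, ∑ z ∈ K Y r, ν z ≤ ν r

/-- Tails. -/
def tl (S : Finset Y.T) (g : Y.T → ℝ) (n : ℕ) : ℝ := ∑ z ∈ S.filter fun z => n < Y.dep z, g z

lemma tl_nonneg {S : Finset Y.T} {g : Y.T → ℝ} (h : ∀ z ∈ S, 0 ≤ g z) (n : ℕ) : 0 ≤ tl S g n :=
  sum_nonneg fun z hz => h z (mem_filter.1 hz).1

lemma tl_add {S : Finset Y.T} {g : Y.T → ℝ} (h : ∀ z ∈ S, 0 ≤ g z) {q : Y.T} (hq : q ∈ S) :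
    tl S g (Y.dep q) + g q ≤ ∑ z ∈ S, g z := by
  rw [tl, add_comm, ← sum_insert (by simp)]
  exact sum_le_sum_of_subset_of_nonneg (insert_subset hq (filter_subset _ _)) fun z hz _ => h z hz

lemma tl_step {S : Finset Y.T} {g : Y.T → ℝ} (h : ∀ z ∈ S, 0 ≤ g z) {q : Y.T} (hq : q ∈ S) {n : ℕ}
    (hn : n < Y.dep q) : tl S g (Y.dep q) + g q ≤ tl S g n := by
  rw [tl, add_comm, ← sum_insert (by simp)]
  refine sum_le_sum_of_subset_of_nonneg (insert_subset (mem_filter.2 ⟨hq, hn⟩) fun z hz => ?_)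
    fun z hz _ => h z (mem_filter.1 hz).1
  rw [mem_filter] at hz ⊢
  exact ⟨hz.1, hn.trans hz.2⟩

lemma Px.nn (hc : Y.Closed Y.T0) {ν : Y.T → ℝ} (h : Px Y ν) {r : Y.T} (hr : r ∉ Y.T0) :
    ∀ z ∈ K Y r, 0 ≤ ν z := fun z hz => h.1 z fun h1 => hr (hc z h1 (mem_K.1 hz))

lemma Px.add (hc : Y.Closed Y.T0) {ν : Y.T → ℝ} (h : Px Y ν) {r q : Y.T} (hr : r ∉ Y.T0)
    (hq : r ∈ Y.prox q) : tl (K Y r) ν (Y.dep q) + ν q ≤ ν r :=
  (tl_add (h.nn hc hr) (mem_K.2 hq)).trans (h.2 r hr)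

lemma Px.le (hc : Y.Closed Y.T0) {ν : Y.T → ℝ} (h : Px Y ν) {r q : Y.T} (hr : r ∉ Y.T0)
    (hq : r ∈ Y.prox q) : ν q ≤ ν r := by
  linarith [h.add hc hr hq, tl_nonneg (h.nn hc hr) (Y.dep q)]

lemma ds_not (hc : Y.Closed Y.T0) {p q : Y.T} (hp : p ∉ Y.T0) (h : Ds Y q p) : q ∉ Y.T0 := by
  induction h using Relation.ReflTransGen.head_induction_on with
  | refl => exact hp
  | head h1 _ ih => exact fun h2 => ih (hc _ h2 h1)

lemma Px.ds (hc : Y.Closed Y.T0) {ν : Y.T → ℝ} (h : Px Y ν) {p q : Y.T} (hp : p ∉ Y.T0)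
    (hd : Ds Y q p) : ν q ≤ ν p := by
  induction hd using Relation.ReflTransGen.head_induction_on with
  | refl => exact le_rfl
  | head h1 h2 ih => exact (h.le hc (ds_not hc hp h2) h1).trans ih

lemma shape (hY : Y.DP) {q a p : Y.T} (hp : p ∉ Y.T0) (ha : a ∈ Y.prox q) (hd : Ds Y a p) :
    ∃ π ∈ Y.prox q, Ds Y π p ∧ (Y.prox q \ Y.T0 = {π} ∨
      ∃ r ∈ Y.prox π, r ∈ Y.prox q ∧ r ∉ Y.T0 ∧ Y.prox q \ Y.T0 = {π, r}) := by
  obtain ⟨π, h1, h2⟩ := hY.chain q ⟨a, ha⟩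
  have h3 : Ds Y π p := by
    rcases h2 a ha with rfl | h
    · exact hd
    · exact hd.head h
  have h4 : π ∈ Y.prox q \ Y.T0 := mem_sdiff.2 ⟨h1, ds_not hY.closed hp h3⟩
  refine ⟨π, h1, h3, or_iff_not_imp_left.2 fun h => ?_⟩
  obtain ⟨r, hr, hne⟩ : ∃ r ∈ Y.prox q \ Y.T0, r ≠ π := by
    by_contra! h5
    exact h (eq_singleton_iff_unique_mem.2 ⟨h4, h5⟩)
  refine ⟨r, (h2 r (mem_sdiff.1 hr).1).resolve_left hne, (mem_sdiff.1 hr).1, (mem_sdiff.1 hr).2,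
    (eq_of_subset_of_card_le (insert_subset h4 (singleton_subset_iff.2 hr)) ?_).symm⟩
  rw [card_pair hne.symm]
  exact (card_le_card sdiff_subset).trans (hY.two q)

lemma key (hY : Y.DP) {p : Y.T} (hp : p ∉ Y.T0) (hp2 : Y.prox p ⊆ Y.T0) {ν c f : Y.T → ℝ} {σ : ℝ}
    (hν : Px Y ν) (hc : Px Y c) (h01 : ∀ q ∉ Y.T0, c q = 0 ∨ c q = 1) (hcp : c p = 1)
    (hσ : ∑ z ∈ Y.T0ᶜ, c z * ν z ≤ σ)
    (hf : ∀ q, Ds Y q p → f q = (1 - c q) * σ - ν q + ∑ r ∈ Y.prox q \ Y.T0, f r) (q : Y.T)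
    (hq : Ds Y q p) : 0 ≤ f q + σ ∧ (c q = 1 → tl Y.T0ᶜ (fun z => c z * ν z) (Y.dep q) ≤ f q + σ) ∧
      ∀ r ∈ Y.prox q, r ∉ Y.T0 →
        0 ≤ f r + σ ∧ (ν q ≤ f r + σ ∨ tl (K Y r) ν (Y.dep q) ≤ f q + σ) := by
  have hC := hY.closed
  have hg : ∀ z ∈ Y.T0ᶜ, 0 ≤ c z * ν z := fun z hz =>
    mul_nonneg (hc.1 z (mem_compl.1 hz)) (hν.1 z (mem_compl.1 hz))
  have h0 := tl_add hg (mem_compl.2 hp)
  have h00 := tl_nonneg hg
  simp only [hcp, one_mul] at h0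
  induction hn : Y.dep q using Nat.strong_induction_on generalizing q with
  | _ n ih =>
  subst hn
  have hfq := hf q hq
  have hq0 := ds_not hC hp hq
  rcases hq.cases_head with rfl | ⟨a, ha, hd⟩
  · rw [sdiff_eq_empty_iff_subset.2 hp2, sum_empty, hcp] at hfq
    exact ⟨by linarith [h00 (Y.dep q)], fun _ => by linarith, fun r h1 h2 => absurd (hp2 h1) h2⟩
  obtain ⟨π, h1, h2, h3⟩ := shape hY hp ha hd
  have hπ := ds_not hC hp h2
  have hlt := Y.prox_dep q π h1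
  obtain ⟨i1, i2, i3⟩ := ih _ hlt π h2 rfl
  have l1 := hν.add hC hπ h1
  have l2 := hν.ds hC hp h2
  have l3 := tl_nonneg (hν.nn hC hπ) (Y.dep q)
  have l4 := hc.le hC hπ h1
  rcases h3 with h3 | ⟨r, h3, h4, h5, h6⟩
  · rw [h3, sum_singleton] at hfq
    have hr : ∀ r ∈ Y.prox q, r ∉ Y.T0 → r = π := fun r e1 e2 =>
      mem_singleton.1 (h3 ▸ mem_sdiff.2 ⟨e1, e2⟩)
    rcases h01 q hq0 with e | e
    · rw [e] at hfq
      refine ⟨by linarith [h00 (Y.dep p)], fun h => by linarith, fun r e1 e2 => ?_⟩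
      rw [hr r e1 e2]
      exact ⟨i1, Or.inr (by linarith [h00 (Y.dep p)])⟩
    · have e2 : c π = 1 := (h01 π hπ).resolve_left (by intro h; linarith)
      have l5 := tl_step hg (mem_compl.2 hq0) hlt
      have l6 := i2 e2
      have l7 := h00 (Y.dep q)
      simp only [e, one_mul] at l5
      rw [e] at hfq
      refine ⟨by linarith, fun _ => by linarith, fun r e1 e2 => ?_⟩
      rw [hr r e1 e2]
      exact ⟨i1, Or.inl (by linarith)⟩
  · have hne : π ≠ r := fun h => (Y.prox_dep π r h3).ne' (congrArg _ h)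
    rw [h6, sum_pair hne] at hfq
    obtain ⟨j1, j2⟩ := i3 r h3 h5
    have m1 := tl_step (hν.nn hC h5) (mem_K.2 h4) hlt
    have m2 := tl_nonneg (hν.nn hC h5) (Y.dep q)
    have e : c q = 0 := (h01 q hq0).resolve_right fun e => by
      have n1 := tl_step (hc.nn hC h5) (mem_K.2 h4) hlt
      have n2 := tl_nonneg (hc.nn hC h5) (Y.dep q)
      have n3 := hc.add hC h5 h3
      rcases h01 r h5 with e1 | e1 <;> linarith
    rw [e] at hfq
    refine ⟨by rcases j2 with j2 | j2 <;> linarith, fun h => by linarith, fun r' e1 e2 => ?_⟩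
    have e3 : r' ∈ ({π, r} : Finset Y.T) := h6 ▸ mem_sdiff.2 ⟨e1, e2⟩
    rcases mem_insert.1 e3 with rfl | e3
    · exact ⟨i1, j2.elim (fun j => Or.inr (by linarith)) fun j => Or.inl (by linarith)⟩
    · rw [mem_singleton.1 e3]
      exact ⟨j1, j2.elim (fun j => Or.inl (by linarith)) fun j => Or.inr (by linarith)⟩

/-- The order of vanishing of a curve with multiplicities `c`. -/
def oo (c : Y.T → ℝ) (q : Y.T) : ℝ := c q + ∑ p ∈ (Y.prox q \ Y.T0).attach, oo c p.1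
termination_by Y.dep q
decreasing_by exact Y.prox_dep _ _ (mem_sdiff.1 p.2).1

lemma oo_eq (c : Y.T → ℝ) (q : Y.T) : oo c q = c q + ∑ p ∈ Y.prox q \ Y.T0, oo c p := by
  rw [oo, sum_attach (Y.prox q \ Y.T0) (oo c)]

lemma disc_eq {q : Y.T} (hq : q ∉ Y.T0) :
    (Y.disc q : ℝ) = 1 + ∑ p ∈ Y.prox q \ Y.T0, (Y.disc p : ℝ) := by
  rw [Y.disc_eq, if_neg hq, sum_subset sdiff_subset fun x h1 h2 => ?_]
  · push_cast; rfl
  · rw [Y.disc_eq, if_pos (by simpa [h1] using h2), Nat.cast_zero]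

lemma oo_bd {c : Y.T → ℝ} (h : ∀ q ∉ Y.T0, c q = 0 ∨ c q = 1) (q : Y.T) (hq : q ∉ Y.T0) :
    0 ≤ oo c q ∧ oo c q ≤ Y.disc q := by
  induction hn : Y.dep q using Nat.strong_induction_on generalizing q with
  | _ n ih =>
  subst hn
  have h1 := fun r (hr : r ∈ Y.prox q \ Y.T0) =>
    ih _ (Y.prox_dep q r (mem_sdiff.1 hr).1) r (mem_sdiff.1 hr).2 rfl
  have h2 := sum_nonneg fun r hr => (h1 r hr).1
  have h3 := sum_le_sum fun r hr => (h1 r hr).2
  rw [oo_eq, disc_eq hq]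
  rcases h q hq with e | e <;> constructor <;> linarith

lemma ip_inr (X : Y.Cl) (r : Y.T) : Y.ip X (Y.gam (.inr r)) = X.2 r - ∑ z ∈ K Y r, X.2 z := by
  simp [Tree.ip, Tree.gam, K, mul_sub, sum_sub_distrib, sum_filter]

lemma ip_split (x y : Y.Cl) : Y.ip x y = Y.ip0 x y - ∑ q ∈ Y.T0ᶜ, y.2 q * x.2 q := by
  simp only [Tree.ip0, Tree.ip, Tree.pr, ite_mul, zero_mul, sum_ite_mem, univ_inter]
  rw [← sum_add_sum_compl Y.T0, sum_congr rfl fun q _ => mul_comm (y.2 q) (x.2 q)]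
  ring

lemma px_gam (hB : St_NB) (hY : Y.DP) {i : Y.I} (hi : Y.On Y.T0 i) : Px Y (Y.gam i).2 :=
  ⟨fun q hq => (((hB.prE Y hY.toPlane _ hY.closed i).2 hi).1 q hq).1, fun r hr => by
    have := hY.inter i (.inr r) (by rintro rfl; exact hr hi)
    rwa [ip_inr, sub_nonneg] at this⟩

lemma cl_dv (S : Finset Y.I) (x : Y.I → ℝ) : Y.cl (Y.dv S x) = ∑ j ∈ S, x j • Y.gam j := by
  simp [Tree.dv, map_sum]

end NINVL

open NINVL in
theorem invl_of (hA : St_NA) (hB : St_NB) : St_INVL := by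
  classical
  refine ⟨fun Y hY C q p hC h1 ⟨hq, hp, hp2⟩ h0 => ?_, fun Y hY q hq => ?_⟩
  · have hc := px_gam hB hY hC
    have h01 : ∀ z ∉ Y.T0, (Y.gam C).2 z = 0 ∨ (Y.gam C).2 z = 1 := fun z hz => by
      obtain ⟨m, hm⟩ := ((hB.int Y).1 C).2 z
      have e1 := hc.1 z hz
      have e2 := h1 z hz
      rw [hm] at e1 e2 ⊢
      norm_cast at e1 e2 ⊢
      omega
    have hq0 := ds_not hY.closed hp hq
    have hb := oo_bd h01 q hq0
    refine ⟨oo (Y.gam C).2 q, hb.1, hb.2.trans (le_add_of_nonneg_right zero_le_one),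
      fun Φ B hΦ hB0 hN => ?_⟩
    set B1 := B.filter fun i => Y.On Y.T0 i ∧ i ≠ C ∧ i ∉ Φ with hB1
    have hB10 : 0 ≤ B1 := fun i => by
      rw [hB1, Finsupp.filter_apply]
      split_ifs
      · exact hB0 i
      · exact le_rfl
    have hdec : B = B1 + Finsupp.single C (B C) + Y.dv Φ B + Y.dv (Y.T0ᶜ.image .inr) B := by
      ext i
      have e1 : i ∈ Y.T0ᶜ.image Sum.inr ↔ ¬Y.On Y.T0 i := by
        cases i <;> simp [Tree.On]
      simp only [hB1, Finsupp.add_apply, Finsupp.filter_apply, Tree.dv_apply, e1,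
        Finsupp.single_apply]
      by_cases e2 : C = i
      · subst e2
        have : C ∉ Φ := fun h => (hΦ C h).2.1 rfl
        simp [this, hC]
      · by_cases e3 : i ∈ Φ
        · simp [e2, e3, (hΦ i e3).1]
        · by_cases e4 : Y.On Y.T0 i <;> simp [e2, e3, e4, Ne.symm e2]
    set W := Y.L - Y.cl B + Y.cl B1 with hW
    have hW2 : W = Y.L - B C • Y.gam C - ∑ F ∈ Φ, B F • Y.gam F -
        ∑ r ∈ Y.T0ᶜ, B (.inr r) • Y.gam (.inr r) := by
      have e := congrArg Y.cl hdec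
      rw [map_add, map_add, map_add, cl_dv, cl_dv, Tree.cl_single,
        sum_image fun _ _ _ _ h => Sum.inr_injective h] at e
      rw [hW, e]
      abel
    have hν : Px Y W.2 := by
      refine ⟨fun z hz => add_nonneg ((hA.nef Y hY.toPlane _ hN).2.1 z).1 ?_, fun r hr => ?_⟩
      · rw [Tree.cl_eq_sum B1 subset_rfl, Prod.snd_sum, Finset.sum_apply]
        refine sum_nonneg fun i hi => mul_nonneg (hB10 i) ((px_gam hB hY ?_).1 z hz)
        rw [hB1, Finsupp.support_filter] at hi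
        exact (mem_filter.1 hi).2.1
      · rw [← sub_nonneg, ← ip_inr, hW, Tree.ip_add_left]
        exact add_nonneg (hN _) (hY.cl_ip hB10 (Finsupp.filter_apply_neg _ _ fun h => hr h.1))
    have hbrk : Y.ip0 W (Y.gam C) = Y.brk C Φ B := by
      have e0 : ∀ x, Y.ip0 x (Y.gam C) = Tree.ipL.flip (Y.pr Y.T0 (Y.gam C)) x := fun x =>
        Tree.ip_pr _ _ _
      have e1 : ∀ r ∈ Y.T0ᶜ, B (.inr r) * Y.ip0 (Y.gam (.inr r)) (Y.gam C) = 0 := fun r hr => by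
        rw [Tree.ip0, (hB.prE Y hY.toPlane _ hY.closed (.inr r)).1 (mem_compl.1 hr),
          Tree.ip_zero_left, mul_zero]
      rw [Tree.brk, ← sub_zero (_ - _), ← sum_eq_zero e1, hW2]
      simp only [e0, map_sub, map_sum, map_smul, smul_eq_mul]
    set σ := Y.brk C Φ B - Y.ip (Y.L - Y.cl B) (Y.gam C) with hσ
    have h2 := (key hY hp hp2 hν hc h01 ((h01 p hp).resolve_left h0.ne') (σ := σ)
      (f := fun z => (Y.disc z - oo (Y.gam C).2 z) * σ - (B (.inr z) - B C * oo (Y.gam C).2 z))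
      ?_ (fun z hz => ?_) q hq).1
    · simp only [Tree.A] at h2 ⊢
      linarith
    · have e1 := ip_split W (Y.gam C)
      have e2 : 0 ≤ Y.ip (Y.cl B1) (Y.gam C) :=
        hY.cl_ip hB10 (Finsupp.filter_apply_neg _ _ fun h => h.2.1 rfl)
      rw [hbrk, hW, Tree.ip_add_left, ← hW] at e1
      linarith
    · have hz0 := ds_not hY.closed hp hz
      have e1 : ∀ F ∈ Φ, B F * (Y.gam F).2 z = 0 := fun F hF => by
        have := px_gam hB hY (hΦ F hF).1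
        rw [le_antisymm ((this.ds hY.closed hp hz).trans_eq (hΦ F hF).2.2) (this.1 z hz0), mul_zero]
      have e2 : W.2 z = B (.inr z) - B C * (Y.gam C).2 z - ∑ r ∈ Y.prox z \ Y.T0, B (.inr r) := by
        have e3 : Y.T0ᶜ ∩ Y.prox z = Y.prox z \ Y.T0 := by ext; simp [and_comm]
        rw [hW2]
        simp only [Prod.snd_sub, Prod.snd_sum, Prod.smul_snd, Pi.sub_apply, Finset.sum_apply,
          Pi.smul_apply, smul_eq_mul, sum_eq_zero e1]
        simp [Tree.L, Tree.gam, hz0, mul_sub, sum_sub_distrib, e3]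
        ring
      simp only [sum_sub_distrib, ← sum_mul, ← mul_sum]
      rw [e2, oo_eq, disc_eq hz0]
      ring
  · induction hn : Y.dep q using Nat.strong_induction_on generalizing q with
    | _ n ih =>
    subst hn
    by_cases h : Y.prox q ⊆ Y.T0
    · exact ⟨q, .refl, hq, h⟩
    · obtain ⟨r, h1, h2⟩ := not_subset.1 h
      obtain ⟨p, h3, h4⟩ := ih _ (Y.prox_dep q r h1) r h2 rfl
      exact ⟨p, h3.head h1, h4⟩

end Pool.Agent.Lib.MP_a25055_ag
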