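import Pool.Agent.Lib.MP_a25055_ag.Num

/-! Block LAM: the envelope at the barycentre. -/

open Finset MeasureTheory

noncomputable section

namespace Pool.Agent.Lib.MP_a25055_ag

namespace NLAM

variable {Y : Tree}

lemma sq_smul (c : ℝ) (x : Y.Cl) : Y.sq (c • x) = c ^ 2 * Y.sq x := by
  rw [Tree.sq, Tree.sq, Tree.ip_smul_left, Tree.ip_smul_right]
  ring

lemma one_le_A (i : Y.I) : 1 ≤ Y.A i := by
  cases i with
  | inl _ => exact le_rfl
  | inr q => exact le_add_of_nonneg_left (Nat.cast_nonneg _)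

lemma scale {κ : ℝ} (hκ : 0 < κ) (B : Y.I →₀ ℝ) :
    Y.L - Y.cl (κ⁻¹ • B) = κ⁻¹ • (κ • Y.L - Y.cl B) := by
  rw [map_smul, smul_sub, smul_smul, inv_mul_cancel₀ hκ.ne', one_smul]

end NLAM

open NLAM in
theorem lam_of (hA : St_NA) (hB : St_NB) (hZ : St_ZAR) (hE : St_ENV) (hP : St_PT) (hR : St_RA)
    (hAZ : St_AZ) (hL : St_LOW) : St_LAM := by
  intro Y hY k S U a b c hk hF hab hf hc
  have hk0 : (0 : ℝ) < k := by exact_mod_cast hk
  have hab' : (a : ℝ) ≤ b := by exact_mod_cast hab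
  have hV : (0 : ℝ) < 3 * k ^ 2 := by positivity
  obtain ⟨p1, p2, p3, -, -, p6, p7, p8, -, -⟩ := hP Y hY.toPlane k S U a b hF hab
  have hUa : U a ≠ ⊥ := fun h => hF.2 (le_bot_iff.1 (h ▸ hF.1 hab))
  have hB0 : ∀ t ∈ Set.Icc (a : ℝ) b, 0 ≤ S.Bh U a b t := fun t ht =>
    le_trans (fun i => by simp) (p2 t ht).2.1
  have hs0 : ∀ t ∈ Set.Icc (a : ℝ) b, 0 ≤ Y.sq (S.Pt U a b t) := fun t ht =>
    (hA.nef Y hY.toPlane _ (p2 t ht).2.2.2.1).2.2
  have hs1 : ∀ t ∈ Set.Icc (a : ℝ) b, Y.sq (S.Pt U a b t) ≤ 3 * k ^ 2 := fun t ht =>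
    (hB.maxord Y hY k _ (hB0 t ht) (p2 t ht).2.2.2.1).2.2.2.1
  have hint : IntervalIntegrable (fun t => Y.sq (S.Pt U a b t)) volume a b :=
    (p6.mono (Set.uIcc_of_le hab').subset).intervalIntegrable
  have hc' : c = a + ∫ t in (a : ℝ)..b, Y.sq (S.Pt U a b t) / (3 * k ^ 2) := by
    rw [intervalIntegral.integral_div]
    exact hc
  have hcI : c ∈ Set.Icc (a : ℝ) b := by
    have h0 : 0 ≤ ∫ t in (a : ℝ)..b, Y.sq (S.Pt U a b t) :=
      intervalIntegral.integral_nonneg hab' hs0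
    have h1 : ∫ t in (a : ℝ)..b, Y.sq (S.Pt U a b t) ≤ ∫ _ in (a : ℝ)..b, (3 * k ^ 2 : ℝ) :=
      intervalIntegral.integral_mono_on hab' hint intervalIntegrable_const hs1
    rw [intervalIntegral.integral_const, smul_eq_mul] at h1
    have h2 := (div_le_iff₀ hV).2 h1
    have h3 := div_nonneg h0 hV.le
    constructor <;> linarith
  refine ⟨hcI, fun i => ?_, ?_⟩
  · obtain ⟨e1, -, e3, e4, -⟩ := hE.conv (fun n => S.base (U n) i) a b hab
    obtain ⟨e5, -⟩ := hE.mono (fun n => S.base (U n) i) a b (p1 i)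
    obtain ⟨v1, v2, v3⟩ := hZ.vol Y hY i
    set o : ℕ → ℕ := fun n => S.base (U n) i with ho
    have hki : (0 : ℝ) ≤ (k : ℝ)⁻¹ := by positivity
    have hφ : Antitone fun x => Y.volf i x / 3 := fun x y h => by
      have := v1 h
      simp only
      linarith
    have h1 := hR.jen a b (fun t => (k : ℝ)⁻¹ * env o a b t)
      (fun t => Y.sq (S.Pt U a b t) / (3 * k ^ 2)) (fun x => Y.volf i x / 3) hab
      (e1.smul hki) (fun s hs t ht h => mul_le_mul_of_nonneg_left (e5 hs ht h) hki)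
      (fun n h1 h2 t ht => by
        simp only
        rw [e3 n h1 h2 t ht]
        ring)
      (fun s hs t ht h => div_le_div_of_nonneg_right (p7 hs ht h) hV.le) hφ
      (fun t ht => ⟨div_nonneg (hs0 t ht) hV.le, (div_le_one hV).2 (hs1 t ht), by
        have h2 := v3 ((k : ℝ)⁻¹ • S.Bh U a b t) ((k : ℝ)⁻¹ * env o a b t)
          (smul_nonneg hki (hB0 t ht)) (fun j => by
            rw [scale hk0, Tree.ip_smul_left]
            exact mul_nonneg hki ((p2 t ht).2.2.2.1 j)) (by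
            rw [Finsupp.smul_apply, smul_eq_mul, (p2 t ht).1 i])
        rw [scale hk0, sq_smul] at h2
        have h3 : Y.sq (S.Pt U a b t) / (3 * k ^ 2) =
            (k : ℝ)⁻¹ ^ 2 * Y.sq (S.Pt U a b t) / 3 := by
          field_simp
        rw [h3]
        exact div_le_div_of_nonneg_right h2 (by norm_num)⟩)
    rw [← hc'] at h1
    have ha0 : 0 ≤ (k : ℝ)⁻¹ * env o a b a := by
      rw [e4]
      positivity
    have hb0 : (k : ℝ)⁻¹ * env o a b a ≤ (k : ℝ)⁻¹ * env o a b b :=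
      mul_le_mul_of_nonneg_left (e5 ⟨le_rfl, hab'⟩ ⟨hab', le_rfl⟩ hab') hki
    have h4 := intervalIntegral.integral_add_adjacent_intervals
      (hφ.intervalIntegrable (μ := volume) (a := 0) (b := (k : ℝ)⁻¹ * env o a b a))
      (hφ.intervalIntegrable (μ := volume) (a := (k : ℝ)⁻¹ * env o a b a)
        (b := (k : ℝ)⁻¹ * env o a b b))
    have h5 : 0 ≤ ∫ x in (0 : ℝ)..(k : ℝ)⁻¹ * env o a b a, Y.volf i x / 3 :=
      intervalIntegral.integral_nonneg ha0 fun x _ => div_nonneg (v2 x) (by norm_num)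
    have h6 := hAZ Y hY i _ (ha0.trans hb0)
    have h7 : ∫ x in (0 : ℝ)..(k : ℝ)⁻¹ * env o a b b, Y.volf i x / 3 =
        (∫ x in (0 : ℝ)..(k : ℝ)⁻¹ * env o a b b, Y.volf i x) / 3 :=
      intervalIntegral.integral_div _ _
    have h8 : (k : ℝ)⁻¹ * env o a b a ≤ Y.A i / 100 := by
      rw [e4, inv_mul_le_iff₀ hk0]
      have := ((hL.fM Y hY k S (U a) hk hUa).2.2.2.2 hf).1 i
      linarith
    have h9 := one_le_A i
    have h10 : (k : ℝ)⁻¹ * env o a b c ≤ 24 / 25 * Y.A i := by linarith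
    rw [inv_mul_le_iff₀ hk0] at h10
    rw [(p2 c hcI).1 i]
    linarith
  · have hW : 0 < Real.sqrt (3 * k ^ 2) := Real.sqrt_pos.2 hV
    have hg : ∀ t, (Real.sqrt (3 * k ^ 2))⁻¹ * Real.sqrt (Y.sq (S.Pt U a b t)) =
        Real.sqrt (Y.sq (S.Pt U a b t) / (3 * k ^ 2)) := fun t => by
      rw [Real.sqrt_div' _ hV.le, div_eq_inv_mul]
    have h1 := hR.conc a b (fun t => Real.sqrt (Y.sq (S.Pt U a b t) / (3 * k ^ 2))) hab'
      (by simpa only [smul_eq_mul, hg] using p8.smul (inv_nonneg.2 hW.le))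
      ((p6.div_const _).sqrt)
      (fun s hs t ht h => Real.sqrt_le_sqrt (div_le_div_of_nonneg_right (p7 hs ht h) hV.le))
      (fun t ht => ⟨Real.sqrt_nonneg _, Real.sqrt_le_one.2 ((div_le_one hV).2 (hs1 t ht))⟩)
      (by
        apply Real.le_sqrt_of_sq_le
        have h2 : S.Pt U a b a = S.mov (U a) := by rw [Sec.Pt, p3, Sec.mov]
        rw [h2]
        rw [Sec.fM, eta] at hf
        linarith)
    have h2 : ∫ t in (a : ℝ)..b, Real.sqrt (Y.sq (S.Pt U a b t) / (3 * k ^ 2)) ^ 2 =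
        ∫ t in (a : ℝ)..b, Y.sq (S.Pt U a b t) / (3 * k ^ 2) :=
      intervalIntegral.integral_congr fun t ht =>
        Real.sq_sqrt (div_nonneg (hs0 t ((Set.uIcc_of_le hab').subset ht)) hV.le)
    rw [h2, ← hc'] at h1
    have h3 := (Real.le_sqrt (by norm_num) (div_nonneg (hs0 c hcI) hV.le)).1 h1
    rw [le_div_iff₀ hV] at h3
    nlinarith [sq_nonneg (k : ℝ)]

end Pool.Agent.Lib.MP_a25055_ag
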