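import Pool.Agent.Lib.MP_a25055_ag.Num

/-! Bounded perturbations of big classes. -/

open Module Finset

noncomputable section

namespace Pool.Agent.Lib.MP_a25055_ag

namespace NLIP

open Tree

variable {Y : Tree}

/-- All entries that are seen on the blow-up of `Q` are bounded by `a`. -/
def Bd (Q : Finset Y.T) (x : Y.Cl) (a : ℝ) : Prop := |x.1| ≤ a ∧ ∀ q ∈ Q, |x.2 q| ≤ a

/-- Push forward as a linear map. -/
def prL (Q : Finset Y.T) : Y.Cl →ₗ[ℝ] Y.Cl where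
  toFun := Y.pr Q
  map_add' x y := Prod.ext rfl (funext fun q => by
    simp only [pr, Prod.snd_add, Pi.add_apply]
    split_ifs <;> simp)
  map_smul' c x := Prod.ext rfl (funext fun q => by
    simp only [pr, Prod.smul_snd, Pi.smul_apply, RingHom.id_apply]
    split_ifs <;> simp)

theorem Bd.pr {Q : Finset Y.T} {x : Y.Cl} {a : ℝ} : Bd Q (Y.pr Q x) a ↔ Bd Q x a :=
  and_congr Iff.rfl (forall₂_congr fun q hq => by simp [Tree.pr, hq])

theorem Bd.mono {Q : Finset Y.T} {x : Y.Cl} {a b : ℝ} (h : Bd Q x a) (hab : a ≤ b) : Bd Q x b :=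
  ⟨h.1.trans hab, fun q hq => (h.2 q hq).trans hab⟩

theorem Bd.sum {Q : Finset Y.T} {ι : Type} (s : Finset ι) (x : ι → Y.Cl) (a : ι → ℝ)
    (h : ∀ i ∈ s, Bd Q (x i) (a i)) : Bd Q (∑ i ∈ s, x i) (∑ i ∈ s, a i) := by
  refine ⟨?_, fun q hq => ?_⟩
  · rw [Prod.fst_sum]
    exact (abs_sum_le_sum_abs _ _).trans (sum_le_sum fun i hi => (h i hi).1)
  · rw [Prod.snd_sum, Finset.sum_apply]
    exact (abs_sum_le_sum_abs _ _).trans (sum_le_sum fun i hi => (h i hi).2 q hq)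

theorem Bd.smul {Q : Finset Y.T} {x : Y.Cl} {a c : ℝ} (h : Bd Q x a) (hc : 0 ≤ c) :
    Bd Q (c • x) (c * a) := by
  refine ⟨?_, fun q hq => ?_⟩
  · rw [Prod.smul_fst, smul_eq_mul, abs_mul, abs_of_nonneg hc]
    exact mul_le_mul_of_nonneg_left h.1 hc
  · rw [Prod.smul_snd, Pi.smul_apply, smul_eq_mul, abs_mul, abs_of_nonneg hc]
    exact mul_le_mul_of_nonneg_left (h.2 q hq) hc

theorem Bd.ip {Q : Finset Y.T} {x y : Y.Cl} {a b : ℝ} {c0 : ℕ} (hx : Bd Q x a) (hy : Bd Q y b)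
    (hQ : Q.card ≤ c0) : |Y.ip x (Y.pr Q y)| ≤ (1 + c0) * (a * b) := by
  have ha : 0 ≤ a := (abs_nonneg _).trans hx.1
  have hb : 0 ≤ b := (abs_nonneg _).trans hy.1
  have h1 : |x.1 * y.1| ≤ a * b := by
    rw [abs_mul]
    exact mul_le_mul hx.1 hy.1 (abs_nonneg _) ha
  have h2 : |∑ q ∈ Q, x.2 q * y.2 q| ≤ c0 * (a * b) := by
    refine (abs_sum_le_sum_abs _ _).trans ((sum_le_card_nsmul _ _ (a * b) fun q hq => ?_).trans ?_)
    · rw [abs_mul]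
      exact mul_le_mul (hx.2 q hq) (hy.2 q hq) (abs_nonneg _) ha
    · rw [nsmul_eq_mul]
      exact mul_le_mul_of_nonneg_right (by exact_mod_cast hQ) (mul_nonneg ha hb)
  have h3 : Y.ip x (Y.pr Q y) = x.1 * y.1 - ∑ q ∈ Q, x.2 q * y.2 q := by
    simp only [Tree.ip, Tree.pr, mul_ite, mul_zero, Finset.sum_ite_mem, univ_inter]
  rw [h3]
  linarith [abs_sub (x.1 * y.1) (∑ q ∈ Q, x.2 q * y.2 q)]

theorem bd_gam (hB : St_NB) (hY : Y.Plane) (Q : Finset Y.T) (i : Y.I) :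
    Bd Q (Y.gam i) (Y.sz i) := by
  rcases i with Γ | p
  · refine ⟨by simp [gam, sz], fun q _ => ?_⟩
    simpa [gam, sz] using hB.mu_le Y hY Γ q
  · refine ⟨by simp [gam, sz], fun q _ => ?_⟩
    simp only [gam, sz]
    split_ifs <;> simp

theorem one_le_sz (hY : Y.Plane) (i : Y.I) : 1 ≤ Y.sz i := by
  rcases i with Γ | p
  · simpa [sz] using hY.deg_pos Γ
  · exact le_rfl

theorem cl_fst {B : Y.I →₀ ℝ} (h : 0 ≤ B) : 0 ≤ (Y.cl B).1 := by
  rw [cl_eq_sum B subset_rfl, Prod.fst_sum]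
  refine sum_nonneg fun i _ => mul_nonneg (h i) ?_
  rcases i with Γ | p <;> simp [gam]

open Classical in
theorem ex_tot (hB : St_NB) (hY : Y.Plane) {Q : Finset Y.T} (hQ : Y.Closed Q) (i : Y.I) :
    ∃ G : Y.I →₀ ℝ, 0 ≤ G ∧ Y.cl G = Y.pr Q (Y.gam i) ∧
      ∀ j, Y.On Q j → G j = if j = i then 1 else 0 := by
  by_cases hi : Y.On Q i
  · obtain ⟨E, h1, h2, h3⟩ := ((hB.prE Y hY Q hQ i).2 hi).2
    refine ⟨Finsupp.single i 1 + E, add_nonneg (Finsupp.single_nonneg.mpr zero_le_one) h1, ?_,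
      fun j hj => ?_⟩
    · rw [map_add, h2, cl_single, one_smul, add_sub_cancel]
    · rw [Finsupp.add_apply, h3 j hj, add_zero, Finsupp.single_apply]
      simp only [eq_comm]
  · refine ⟨0, le_rfl, by rw [map_zero, (hB.prE Y hY Q hQ i).1 hi], fun j hj => ?_⟩
    rw [if_neg (by rintro rfl; exact hi hj), Finsupp.zero_apply]

/-- The negativity lemma. -/
theorem neg (hA : St_NA) (hB : St_NB) (hY : Y.Plane) {Q : Finset Y.T} (hQ : Y.Closed Q)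
    {Δ : Y.I →₀ ℝ} (h0 : 0 ≤ Δ)
    (h : ∀ i, ¬ Y.On Q i → 0 < Δ i → 0 ≤ Y.ip (Y.cl Δ) (Y.gam i)) (i : Y.I) (hi : Y.On Q i) :
    Y.ip (Y.cl Δ) (Y.gam i) ≤ Y.ip (Y.cl Δ) (Y.pr Q (Y.gam i)) := by
  classical
  choose G g1 g2 g3 using ex_tot hB hY hQ
  obtain ⟨Ξ, hΞ⟩ : ∃ Ξ, Ξ = ∑ j ∈ Δ.support, Δ j • G j - Δ := ⟨_, rfl⟩
  have a0 : ∀ j, Ξ j = ∑ l ∈ Δ.support, Δ l * G l j - Δ j := fun j => by
    simp [hΞ]
  have a1 : Y.cl Ξ = Y.pr Q (Y.cl Δ) - Y.cl Δ := by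
    rw [hΞ, map_sub, map_sum]
    congr 1
    rw [cl_eq_sum Δ subset_rfl]
    change _ = prL Q _
    rw [map_sum]
    exact sum_congr rfl fun j _ => by rw [map_smul, map_smul, g2]; rfl
  have a2 : ∀ j, Y.On Q j → Ξ j = 0 := fun j hj => by
    rw [a0]
    simp only [g3 _ j hj, mul_ite, mul_one, mul_zero, sum_ite_eq, Finsupp.mem_support_iff]
    split_ifs with h1
    · exact sub_self _
    · rw [not_not.mp h1, sub_self]
  have a3 : ∀ j, -Δ j ≤ Ξ j := fun j => by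
    rw [a0]
    linarith [sum_nonneg fun l (_ : l ∈ Δ.support) => mul_nonneg (h0 l) (g1 l j)]
  have a4 : Ξ = Ξ ⊔ 0 - -Ξ ⊔ 0 := by
    ext j
    simp only [Finsupp.sub_apply, Finsupp.sup_apply, Finsupp.neg_apply, Finsupp.zero_apply]
    exact (max_zero_sub_max_neg_zero_eq_self _).symm
  have a5 : ∀ j ∈ (-Ξ ⊔ 0).support, Ξ j < 0 := fun j hj => by
    have h1 := Finsupp.mem_support_iff.mp hj
    simp only [Finsupp.sup_apply, Finsupp.neg_apply, Finsupp.zero_apply] at h1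
    exact not_le.mp fun h2 => h1 (max_eq_right (neg_nonpos.mpr h2))
  have a6 : 0 ≤ Y.sq (Y.cl (-Ξ ⊔ 0)) := by
    rw [Tree.sq, ip_cl _ _ subset_rfl]
    refine sum_nonneg fun j hj => mul_nonneg ((le_sup_right : 0 ≤ -Ξ ⊔ 0) j) ?_
    have h1 := a5 j hj
    have h2 : ¬ Y.On Q j := fun h2 => h1.ne (a2 j h2)
    have h3 := h j h2 (by linarith [a3 j])
    have h4 := hY.cl_ip (E := Ξ ⊔ 0) le_sup_right (i := j) (by
      simp only [Finsupp.sup_apply, Finsupp.zero_apply]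
      exact max_eq_right h1.le)
    have h5 := congrArg (fun B => Y.ip (Y.cl B) (Y.gam j)) a4
    simp only [map_sub, ip_sub_left] at h5
    rw [a1, ip_sub_left, ip_pr, (hB.prE Y hY Q hQ j).1 h2, ip_zero_right] at h5
    linarith
  have a7 : Y.cl (-Ξ ⊔ 0) = 0 := hA.hodge0 Y (1, 0) _ (by simp [Tree.sq, Tree.ip]) (by
    simp only [Tree.ip, one_mul, Pi.zero_apply, zero_mul, sum_const_zero, sub_zero]
    rw [cl_eq_sum _ subset_rfl, Prod.fst_sum]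
    refine sum_eq_zero fun j hj => ?_
    rcases j with Γ | p
    · exact absurd (a2 (.inl Γ) trivial) (a5 _ hj).ne
    · simp [gam]) a6
  have a8 := hA.cl_zero Y hY _ le_sup_right a7
  have a9 : 0 ≤ Ξ := by
    rw [a4, a8, sub_zero]
    exact le_sup_right
  have h1 := hY.cl_ip a9 (a2 i hi)
  rw [a1, ip_sub_left, ip_pr] at h1
  linarith

/-- A big nef class contains the given primes with large coefficients. -/
theorem big (hA : St_NA) (hB : St_NB) (hY : Y.Plane) {Q : Finset Y.T} (hQ : Y.Closed Q)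
    {S : Finset Y.I} {c0 : ℕ} (hQc : Q.card ≤ c0) (hSc : S.card ≤ c0)
    (hS : ∀ j ∈ S, Y.On Q j ∧ Y.sz j ≤ 12) {κ ε δ : ℝ} (hκ : 0 < κ) (hε : 0 < ε) (hδ : 0 < δ)
    (hδ1 : δ ≤ 1) (hK : δ * (144 * (1 + c0) ^ 3) ≤ ε / 4) {D : Y.Cl} (hD : Y.Nef D)
    (hD1 : D.1 ≤ 3 * κ) (hD2 : ε * κ ^ 2 ≤ Y.sq D) :
    ∃ E : Y.I →₀ ℝ, 0 ≤ E ∧ Y.cl E = D ∧ ∀ j ∈ S, δ * κ ≤ E j := by
  classical
  choose G g1 g2 g3 using ex_tot hB hY hQ
  obtain ⟨n1, n2, -⟩ := hA.nef Y hY D hD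
  have hc : (0 : ℝ) ≤ c0 := Nat.cast_nonneg _
  have b1 : Bd Q (∑ j ∈ S, Y.gam j) (12 * (1 + c0)) :=
    (Bd.sum S _ _ fun j _ => bd_gam hB hY Q j).mono ((sum_le_card_nsmul _ _ 12
      fun j hj => (hS j hj).2).trans (by
        have : (S.card : ℝ) ≤ c0 := by exact_mod_cast hSc
        rw [nsmul_eq_mul]
        linarith))
  have b2 : Bd Q D (3 * κ) := ⟨by rwa [abs_of_nonneg n1], fun q _ => by
    rw [abs_of_nonneg (n2 q).1]; exact (n2 q).2.trans hD1⟩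
  have b3 := abs_le.mp (b2.ip b1 hQc)
  have b4 := abs_le.mp ((Bd.pr.mpr b1).ip b1 hQc)
  have b5 := abs_le.mp (Bd.pr.mpr b1).1
  have b6 : Y.cl (∑ j ∈ S, G j) = Y.pr Q (∑ j ∈ S, Y.gam j) := by
    change _ = prL Q _
    rw [map_sum, map_sum]
    exact sum_congr rfl fun j _ => g2 j
  generalize Y.pr Q (∑ j ∈ S, Y.gam j) = H at b3 b4 b5 b6
  obtain ⟨u, hu, hu1⟩ : ∃ u : ℝ, u = 1 + c0 ∧ 1 ≤ u := ⟨_, rfl, by linarith⟩
  rw [← hu] at b3 b4 b5 hK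
  have hκ2 : 0 < κ ^ 2 := by positivity
  have c1 : δ * κ * Y.ip D H ≤ ε / 4 * κ ^ 2 :=
    calc δ * κ * Y.ip D H ≤ δ * κ * (u * (3 * κ * (12 * u))) := by gcongr; exact b3.2
      _ = δ * (36 * u ^ 2 * 1) * κ ^ 2 := by ring
      _ ≤ δ * (144 * u ^ 2 * u) * κ ^ 2 := by gcongr; norm_num
      _ ≤ ε / 4 * κ ^ 2 := by
        gcongr
        exact le_of_eq_of_le (by ring) hK
  have c2 : (δ * κ) ^ 2 * (u * (12 * u * (12 * u))) ≤ ε / 4 * κ ^ 2 :=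
    calc (δ * κ) ^ 2 * (u * (12 * u * (12 * u))) = δ * (δ * (144 * u ^ 3)) * κ ^ 2 := by ring
      _ ≤ 1 * (ε / 4) * κ ^ 2 := by gcongr
      _ = _ := by ring
  have c3 : 0 < Y.sq (D - (δ * κ) • H) := by
    have e : Y.sq (D - (δ * κ) • H) =
        Y.sq D - 2 * (δ * κ * Y.ip D H) + (δ * κ) ^ 2 * Y.ip H H := by
      simp only [Tree.sq, ip_sub_left, ip_sub_right, ip_smul_left, ip_smul_right, ip_comm H D]
      ring
    have := mul_le_mul_of_nonneg_left b4.1 (sq_nonneg (δ * κ))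
    rw [e]
    nlinarith [mul_pos hε hκ2]
  have c4 : 0 < (D - (δ * κ) • H).1 := by
    rw [Prod.fst_sub, Prod.smul_fst, smul_eq_mul, sub_pos]
    refine not_le.mp fun h => ?_
    have h1 : D.1 ≤ δ * κ * (12 * u) := h.trans (by gcongr; exact b5.2)
    have h2 : Y.sq D ≤ D.1 * D.1 := sub_le_self _ (sum_nonneg fun q _ => mul_self_nonneg _)
    have h3 : D.1 * D.1 ≤ (δ * κ) ^ 2 * (u * (12 * u * (12 * u))) :=
      calc D.1 * D.1 ≤ δ * κ * (12 * u) * (δ * κ * (12 * u)) := mul_self_le_mul_self n1 h1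
        _ = (δ * κ) ^ 2 * (1 * (12 * u * (12 * u))) := by ring
        _ ≤ _ := by gcongr
    nlinarith [mul_pos hε hκ2]
  obtain ⟨E, e1, e2⟩ := hA.effR Y hY _ c3 c4
  refine ⟨E + (δ * κ) • ∑ j ∈ S, G j, add_nonneg e1 (smul_nonneg (by positivity)
    (sum_nonneg fun j _ => g1 j)), by rw [map_add, map_smul, e2, b6, sub_add_cancel], fun j hj => ?_⟩
  have h1 : (∑ l ∈ S, G l) j = 1 := by
    rw [Finsupp.finsetSum_apply]
    simp only [g3 _ j (hS j hj).1, sum_ite_eq, if_pos hj]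
  rw [Finsupp.add_apply, Finsupp.smul_apply, h1, smul_eq_mul, mul_one]
  exact le_add_of_nonneg_left (e1 j)

theorem bd_cl (hB : St_NB) (hY : Y.Plane) {Q : Finset Y.T} (hQ : Y.Closed Q) {c0 : ℕ}
    (hQc : Q.card ≤ c0) {Δ : Y.I →₀ ℝ} (h0 : 0 ≤ Δ) {a b : ℝ} (hb : 0 ≤ b)
    (h1 : ∀ s : Finset Y.I, (∀ i ∈ s, i.isLeft) → ∑ i ∈ s, Δ i * Y.sz i ≤ a)
    (h2 : ∀ q ∈ Q, Δ (.inr q) ≤ b) : Bd Q (Y.cl Δ) (a + c0 * b) := by
  classical
  rw [← Bd.pr, cl_eq_sum Δ subset_rfl]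
  change Bd Q (prL Q _) _
  rw [map_sum]
  refine (Bd.sum _ _ (fun i => (if i.isLeft then Δ i * Y.sz i else 0) +
    if i ∈ Q.image Sum.inr then b else 0) fun i _ => ?_).mono ?_
  · rw [map_smul]
    by_cases hi : Y.On Q i
    · refine ((Bd.pr.mpr (bd_gam hB hY Q i)).smul (h0 i)).mono ?_
      rcases i with Γ | p
      · simp
      · simpa [sz, show p ∈ Q from hi] using h2 p hi
    · rw [show prL Q (Y.gam i) = 0 from (hB.prE Y hY Q hQ i).1 hi, smul_zero]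
      have h3 : 0 ≤ (if i.isLeft then Δ i * Y.sz i else 0) +
          if i ∈ Q.image Sum.inr then b else 0 := by
        have := mul_nonneg (h0 i) (zero_le_one.trans (one_le_sz hY i))
        positivity
      exact ⟨by simpa using h3, fun q _ => by simpa using h3⟩
  · rw [sum_add_distrib, ← sum_filter, ← sum_filter]
    refine add_le_add (h1 _ fun i hi => (mem_filter.mp hi).2) ?_
    rw [sum_const, nsmul_eq_mul]
    refine mul_le_mul_of_nonneg_right ?_ hb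
    exact_mod_cast (card_le_card fun i hi => (mem_filter.mp hi).2).trans (card_image_le.trans hQc)

end NLIP

open NLIP Tree in
theorem lip_of (hA : St_NA) (hB : St_NB) (hZ : St_ZAR) : St_LIP := by
  intro c0 ε hε
  have hc : (0 : ℝ) ≤ c0 := Nat.cast_nonneg _
  obtain ⟨δ, hδ, hδ1, hK⟩ : ∃ δ : ℝ, 0 < δ ∧ δ ≤ 1 ∧ δ * (144 * (1 + c0) ^ 3) ≤ ε / 4 :=
    ⟨min 1 (ε / 4 / (144 * (1 + c0) ^ 3)), by positivity, min_le_left _ _,
      (le_div_iff₀ (by positivity)).mp (min_le_right _ _)⟩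
  obtain ⟨b, hb, hb0⟩ : ∃ b : ℝ, b = 49 / δ * (381 * 49) ∧ 0 < b := ⟨_, rfl, by positivity⟩
  obtain ⟨M, hM, hM0⟩ : ∃ M : ℝ, M = (1 + c0) * (49 / δ * 3 + c0 * b) ∧ 0 < M :=
    ⟨_, rfl, by positivity⟩
  have h98 : 0 < 98 / δ := by positivity
  refine ⟨98 / δ + b + M, by positivity,
    fun Y hY Q S κ B1 x hQ hQc hQd hSc hS hκ hB1 hD hD2 hx => ?_⟩
  have hP := hY.toPlane
  have hκ0 : 0 < κ := by linarith
  have hκ1 : 98 ≤ δ * κ := by
    rw [mul_comm]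
    exact (div_le_iff₀ hδ).mp (by linarith)
  obtain ⟨E, e1, e2, e3⟩ := big hA hB hP hQ hQc hSc hS hκ0 hε hδ hδ1 hK hD (by
    have := cl_fst hB1
    simp only [Prod.fst_sub, Prod.smul_fst, L, smul_eq_mul]
    linarith) hD2
  obtain ⟨θ, hθ⟩ : ∃ θ : ℝ, θ = 49 / (δ * κ) := ⟨_, rfl⟩
  have t0 : 0 < θ := by rw [hθ]; positivity
  have t1 : θ * (δ * κ) = 49 := by rw [hθ]; field_simp
  have t2 : θ ≤ 1 / 2 := by nlinarith
  have t3 : θ * κ = 49 / δ := by rw [hθ]; field_simp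
  have f1 : κ • Y.L - Y.cl (B1 + θ • E) = (1 - θ) • (κ • Y.L - Y.cl B1) := by
    rw [map_add, map_smul, e2]
    module
  have f2 : Y.Nef (κ • Y.L - Y.cl (B1 + θ • E)) := fun i => by
    rw [f1, ip_smul_left]
    exact mul_nonneg (by linarith) (hD i)
  have f3 : B1 ⊔ Y.dv S x ≤ B1 + θ • E := by
    refine sup_le (le_add_of_nonneg_right (smul_nonneg t0.le e1)) fun i => ?_
    rw [dv_apply, Finsupp.add_apply, Finsupp.smul_apply, smul_eq_mul]
    split_ifs with hi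
    · linarith [hx i hi, mul_le_mul_of_nonneg_left (e3 i hi) t0.le]
    · exact add_nonneg (hB1 i) (mul_nonneg t0.le (e1 i))
  have hF : Y.Feas (κ • Y.L) (B1 ⊔ Y.dv S x) := ⟨_, f3, f2⟩
  obtain ⟨z1, z2, z3, z4, z5⟩ := hZ.least Y hP _ _ hF
  have z6 := z4 _ f3 f2
  rw [z2] at z3 z5 ⊢
  generalize Y.bmin (κ • Y.L) (B1 ⊔ Y.dv S x) = Bm at z1 z3 z5 z6
  refine ⟨hF, ?_, ?_⟩
  · have h1 := hA.mono Y _ _ _ z3 f2 z6
    have h2 := (hA.nef Y hP _ hD).2.2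
    rw [f1, Tree.sq, ip_smul_left, ip_smul_right] at h1
    change _ * (_ * Y.sq _) ≤ _ at h1
    nlinarith [mul_nonneg h2 (show 0 ≤ (1 - θ) * (1 - θ) - 1 / 4 by nlinarith)]
  obtain ⟨Δ, rfl⟩ : ∃ Δ, Bm = B1 + Δ := ⟨Bm - B1, by abel⟩
  have d0 : 0 ≤ Δ := le_add_iff_nonneg_right B1 |>.mp (le_sup_left.trans z1)
  have d1 : ∀ i, Δ i ≤ θ * (B1 + E) i := fun i => by
    have h1 := (add_le_add_iff_left B1).mp z6 i
    rw [Finsupp.smul_apply, smul_eq_mul] at h1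
    exact h1.trans (mul_le_mul_of_nonneg_left (le_add_of_nonneg_left (hB1 i)) t0.le)
  obtain ⟨m1, m2, -⟩ := hB.maxord Y hY κ (B1 + E) (add_nonneg hB1 e1) fun i => by
    rw [map_add, e2, add_sub_cancel, sub_self, ip_zero_left]
  have d2 : ∀ i, Y.On Q i → Δ i ≤ b := fun i hi => by
    have h1 : Y.A i ≤ 49 := by
      rcases i with Γ | q
      · norm_num [A]
      · have : (Y.disc q : ℝ) ≤ 48 := by exact_mod_cast hQd q hi
        simp only [A]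
        linarith
    calc Δ i ≤ θ * (381 * κ * 49) := (d1 i).trans (by
          gcongr
          exact (m1 i).trans (by gcongr))
      _ = b := by rw [hb, ← t3]; ring
  have d3 := bd_cl hB hP hQ hQc d0 hb0.le (a := 49 / δ * 3) (fun s hs =>
    calc ∑ i ∈ s, Δ i * Y.sz i ≤ ∑ i ∈ s, θ * ((B1 + E) i * Y.sz i) := sum_le_sum fun i _ => by
          rw [← mul_assoc]
          exact mul_le_mul_of_nonneg_right (d1 i) (zero_le_one.trans (one_le_sz hP i))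
      _ ≤ θ * (3 * κ) := by
          rw [← mul_sum]
          exact mul_le_mul_of_nonneg_left (m2 s hs) t0.le
      _ = 49 / δ * 3 := by rw [← t3]; ring) fun q hq => d2 (.inr q) hq
  have d4 : κ • Y.L - Y.cl (B1 + Δ) = κ • Y.L - Y.cl B1 - Y.cl Δ := by rw [map_add, sub_sub]
  rw [d4] at z5 ⊢
  intro i hi
  have d5 := abs_le.mp (d3.ip (bd_gam hB hP Q i) hQc)
  rw [← mul_assoc, ← hM] at d5
  have d6 := neg hA hB hP hQ d0 (fun j hj hj' => by
    have h1 := z5 j (by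
      rw [Finsupp.sup_apply, dv_apply, if_neg fun h => hj (hS j h).1, Finsupp.add_apply]
      exact max_lt (lt_add_of_pos_right _ hj') (add_pos_of_nonneg_of_pos (hB1 j) hj'))
    rw [ip_sub_left, sub_eq_zero] at h1
    exact h1 ▸ hD j) i hi
  have d7 : M * Y.sz i ≤ (98 / δ + b + M) * Y.sz i :=
    mul_le_mul_of_nonneg_right (by linarith) (zero_le_one.trans (one_le_sz hP i))
  refine ⟨?_, ?_, ?_⟩
  · rw [Finsupp.add_apply]
    linarith [d2 i hi]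
  · rw [ip_sub_left (κ • Y.L - Y.cl B1)]
    linarith [d5.2]
  · rw [ip_sub_left (κ • Y.L - Y.cl B1)]
    linarith [d5.1]

end Pool.Agent.Lib.MP_a25055_ag
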