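import Mathlib
import Pool.Agent.Lib.MP_a25055_ag.Num

open Module Finset

noncomputable section

namespace Pool.Agent.Lib.MP_a25055_ag

namespace NLOW

lemma toR_nonneg {ι : Type} (B : ι →₀ ℕ) : 0 ≤ toR B := fun i => by simp

lemma nef_zero (Y : Tree) : Y.Nef 0 := fun i => by simp

lemma A_nonneg (Y : Tree) (i : Y.I) : 0 ≤ Y.A i := by
  cases i <;> simp only [Tree.A] <;> positivity

lemma sq_sub (Y : Tree) (x y : Y.Cl) (s : ℝ) :
    Y.sq (x - s • y) = Y.sq x - 2 * s * Y.ip x y + s ^ 2 * Y.sq y := by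
  simp only [Tree.sq, Tree.ip_sub_left, Tree.ip_sub_right, Tree.ip_smul_left, Tree.ip_smul_right,
    Tree.ip_comm y x]
  ring

lemma sq_kL (hB : St_NB) {Y : Tree} (hY : Y.DP) (κ : ℝ) : Y.sq (κ • Y.L) = 3 * κ ^ 2 := by
  have := hB.LL Y hY
  simp only [Tree.sq] at this ⊢
  rw [Tree.ip_smul_left, Tree.ip_smul_right, this]
  ring

lemma kap_nonneg (hA : St_NA) {Y : Tree} (hY : Y.DP) {D : Y.Cl} (hD : Y.Nef D) : 0 ≤ Y.kap D :=
  Finset.sum_nonneg fun q _ => ((hA.nef Y hY.toPlane D hD).2.1 q).1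

lemma ip_aK_le (hA : St_NA) (hB : St_NB) {Y : Tree} (hY : Y.DP) {k : ℕ} (S : Sec Y k)
    {U : Submodule ℂ S.V} (h0 : U ≠ ⊥) : Y.ip (S.mov U) Y.aK ≤ 3 * k := by
  have hn := S.nef_mov hY.toPlane h0
  have h1 := (hB.kapf Y hY (S.mov U)).1
  have h2 := kap_nonneg hA hY hn
  have h3 := (hB.maxord Y hY k _ (toR_nonneg (S.base U)) hn).2.2.2.2
  change Y.ip (S.mov U) Y.L ≤ _ at h3
  linarith

theorem fM (hA : St_NA) (hB : St_NB) (Y : Tree) (hY : Y.DP) (k : ℕ) (S : Sec Y k)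
    (U : Submodule ℂ S.V) (hk : 1 ≤ k) (h0 : U ≠ ⊥) :
    0 ≤ S.fM U ∧ S.fM U ≤ 1 ∧ 0 ≤ Y.kap (S.mov U) ∧
    Y.ip (S.mov U) (Y.cl (toR (S.base U))) ≤ 3 * k ^ 2 * S.fM U ∧
    (S.fM U ≤ eta → (∀ i, (S.base U i : ℝ) ≤ k * Y.A i / 100) ∧
      k ^ 2 * S.fM U ≤ Y.ip (S.mov U) (Y.cl (toR (S.base U))) ∧
      (S.base U = 0 ∨ 1 ≤ 3 * k ^ 2 * S.fM U)) := by
  have hn := S.nef_mov hY.toPlane h0
  have hk' : (1 : ℝ) ≤ k := by exact_mod_cast hk
  have hV : (0 : ℝ) < 3 * k ^ 2 := by positivity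
  set B := Y.cl (toR (S.base U)) with hBdef
  set x := Y.ip ((k : ℝ) • Y.L) B with hx
  set y := Y.ip (S.mov U) B with hy
  have hM : S.mov U = (k : ℝ) • Y.L - B := rfl
  have hx0 : 0 ≤ x := by
    rw [hx, Tree.ip_smul_left]
    exact mul_nonneg (by positivity) (hY.nefL.ip_cl (toR_nonneg _))
  have hy0 : 0 ≤ y := hn.ip_cl (toR_nonneg _)
  have hBB : Y.sq B = x - y := by
    rw [hy, hM, Tree.ip_sub_left, ← hx, Tree.sq]
    ring
  have hsq : ∀ s : ℝ, Y.sq ((k : ℝ) • Y.L - s • B) =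
      3 * k ^ 2 - 2 * s * x + s ^ 2 * (x - y) := fun s => by
    rw [sq_sub, sq_kL hB hY, hBB]
  have hMM : Y.sq (S.mov U) = 3 * k ^ 2 - x - y := by
    have := hsq 1
    rw [one_smul] at this
    rw [hM, this]
    ring
  have hf : 3 * k ^ 2 * S.fM U = x + y := by
    rw [Sec.fM, hMM]
    field_simp
    ring
  have hM0 : 0 ≤ Y.sq (S.mov U) := (hA.nef Y hY.toPlane _ hn).2.2
  have hf0 : 0 ≤ S.fM U := by
    have : 0 ≤ 3 * k ^ 2 * S.fM U := by rw [hf]; positivity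
    exact nonneg_of_mul_nonneg_right this hV
  refine ⟨hf0, ?_, kap_nonneg hA hY hn, by rw [hf]; linarith, fun he => ⟨?_, ?_, ?_⟩⟩
  · rw [Sec.fM]
    have := div_nonneg hM0 hV.le
    linarith
  · have hxy : x + y ≤ 3 * k ^ 2 / 10 ^ 10 := by
      rw [← hf]
      have := mul_le_mul_of_nonneg_left he hV.le
      rw [eta] at this
      linarith
    have hD : 0 < Y.sq ((k : ℝ) • Y.L - (50000 : ℝ) • B) := by
      rw [hsq]
      nlinarith
    have hD1 : 0 < ((k : ℝ) • Y.L - (50000 : ℝ) • B).1 := by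
      by_contra hc
      have h1 := hA.cone Y ((k : ℝ) • Y.L) ((-1 : ℝ) • ((k : ℝ) • Y.L - (50000 : ℝ) • B))
        (by rw [sq_kL hB hY]; positivity)
        (by
          rw [Tree.sq, Tree.ip_smul_left, Tree.ip_smul_right]
          rw [Tree.sq] at hD
          linarith)
        (by simp only [Tree.L, Prod.smul_fst, smul_eq_mul]; positivity)
        (by rw [Prod.smul_fst, smul_eq_mul]; linarith)
      have h2 := sq_kL hB hY k
      rw [Tree.sq] at h2
      rw [Tree.ip_smul_right, Tree.ip_sub_right, Tree.ip_smul_right 50000, h2, ← hx] at h1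
      nlinarith
    obtain ⟨E, hE0, hE⟩ := hA.effR Y hY.toPlane _ hD hD1
    have h3 := (hB.maxord Y hY k ((50000 : ℝ) • toR (S.base U) + E)
      (add_nonneg (smul_nonneg (by norm_num) (toR_nonneg _)) hE0)
      (by
        rw [map_add, map_smul, hE, ← hBdef, add_sub_cancel, sub_self]
        exact nef_zero Y)).1
    intro i
    have h4 := h3 i
    have h5 : 0 ≤ E i := hE0 i
    have h6 := mul_nonneg (le_trans zero_le_one hk') (A_nonneg Y i)
    simp only [Finsupp.add_apply, Finsupp.smul_apply, toR_apply, smul_eq_mul] at h4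
    nlinarith
  · have hxy : x + y ≤ 3 * k ^ 2 / 10 ^ 10 := by
      rw [← hf]
      have := mul_le_mul_of_nonneg_left he hV.le
      rw [eta] at this
      linarith
    have h1 := hA.hodge Y ((k : ℝ) • Y.L) B (by rw [sq_kL hB hY]; positivity)
    rw [sq_kL hB hY, hBB, ← hx] at h1
    have h2 : x ^ 2 ≤ 3 * k ^ 2 * (x / 2) := by nlinarith
    have h3 : x - y ≤ x / 2 := le_of_mul_le_mul_left (h1.trans h2) hV
    nlinarith
  · obtain ⟨-, hL, hcl, hip, hsm, -⟩ := hB.int Y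
    have hkL := hsm k _ hL
    have hBi : Y.IsInt B := hcl _
    obtain ⟨z1, hz1⟩ := (hip _ _ hkL hBi).2.2
    obtain ⟨z2, hz2⟩ := (hip _ _ (hip _ _ hkL hBi).2.1 hBi).2.2
    rw [← hx] at hz1
    rw [← hM, ← hy] at hz2
    by_cases hz : 1 ≤ z1 + z2
    · right
      rw [hf, hz1, hz2]
      exact_mod_cast hz
    · left
      have h1 : (z1 : ℝ) + z2 ≤ 0 := by exact_mod_cast (by omega : z1 + z2 ≤ 0)
      have hx1 : x = 0 := by linarith
      have hy1 : y = 0 := by linarith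
      have h2 := hA.hodge0 Y ((k : ℝ) • Y.L) B (by rw [sq_kL hB hY]; positivity) hx1
        (by rw [hBB, hx1, hy1]; simp)
      have h3 := hA.cl_zero Y hY.toPlane _ (toR_nonneg (S.base U)) h2
      ext i
      have := DFunLike.congr_fun h3 i
      simpa using this

theorem top (hA : St_NA) (hB : St_NB) (Y : Tree) (hY : Y.DP) (k : ℕ) (S : Sec Y k) (hk : 3 ≤ k)
    (hG : S.Good) : S.base ⊤ = 0 := by
  have hk' : (3 : ℝ) ≤ k := by exact_mod_cast hk
  have hr : 2 * (finrank ℂ S.V : ℝ) = 3 * k ^ 2 + 3 * k + 2 := by exact_mod_cast hG.rank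
  have h0 : (⊤ : Submodule ℂ S.V) ≠ ⊥ := by
    intro h
    have h1 : finrank ℂ (⊤ : Submodule ℂ S.V) = 0 := by rw [h, finrank_bot]
    rw [finrank_top] at h1
    have := hG.rank
    omega
  have h1 := hG.rr ⊤ h0
  rw [finrank_top] at h1
  have h2 := ip_aK_le hA hB hY S h0
  have h3 : 3 * (k : ℝ) ^ 2 ≤ Y.sq (S.mov ⊤) := by
    rcases le_max_iff.1 h1 with h | h
    · nlinarith
    · have : max 2 (1 + Y.ip (S.mov ⊤) Y.aK / 2) ≤ 1 + 3 * (k : ℝ) / 2 :=
        max_le (by linarith) (by linarith)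
      linarith
  have hV : (0 : ℝ) < 3 * k ^ 2 := by positivity
  have h4 : S.fM ⊤ ≤ 0 := by
    rw [Sec.fM, sub_nonpos, le_div_iff₀ hV]
    linarith
  obtain ⟨-, -, -, -, h5⟩ := fM hA hB Y hY k S ⊤ (by omega) h0
  refine (h5 (h4.trans (by rw [eta]; positivity))).2.2.resolve_right fun h => ?_
  nlinarith

theorem crude (hA : St_NA) (hB : St_NB) (Y : Tree) (hY : Y.DP) (k : ℕ) (S : Sec Y k)
    (U : Submodule ℂ S.V) (hk : 1 ≤ k) (hR : S.RR) :
    (finrank ℂ U : ℝ) ≤ Y.sq (S.mov U) / 2 + 4 * k := by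
  have hk' : (1 : ℝ) ≤ k := by exact_mod_cast hk
  by_cases h0 : U = ⊥
  · subst h0
    have h1 : S.base ⊥ = 0 := by
      ext i
      refine Nat.sInf_eq_zero.2 (Or.inr (Set.eq_empty_of_forall_notMem ?_))
      rintro n ⟨s, hs, h0, -⟩
      exact h0 ((Submodule.mem_bot ℂ).1 hs)
    have h2 : toR (0 : Y.I →₀ ℕ) = 0 := by ext i; simp
    rw [finrank_bot, Sec.mov, h1, h2, map_zero, sub_zero, sq_kL hB hY]
    push_cast
    positivity
  have h1 := hR U h0
  have h2 := ip_aK_le hA hB hY S h0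
  have hM0 : 0 ≤ Y.sq (S.mov U) := (hA.nef Y hY.toPlane _ (S.nef_mov hY.toPlane h0)).2.2
  refine h1.trans (max_le (by linarith) ?_)
  have : max 2 (1 + Y.ip (S.mov U) Y.aK / 2) ≤ 4 * (k : ℝ) := max_le (by linarith) (by linarith)
  linarith

theorem pen (hB : St_NB) (Y : Tree) (hY : Y.DP) (k : ℕ) (S : Sec Y k) (U : Submodule ℂ S.V)
    (Γ : Y.Pl) (hC : S.Col) (hM : Y.ip (S.mov U) (Y.gam (.inl Γ)) = 0)
    (hΓ : 0 ≤ Y.sq (Y.gam (.inl Γ))) : finrank ℂ U ≤ 3 * k + 1 := by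
  set i : Y.I := .inl Γ with hi
  have hle : ∀ U' ≤ U, U' ≠ ⊥ → Y.ip (S.mov U') (Y.gam i) ≤ 0 := by
    intro U' hU' h0
    have h1 := S.base_mono hU' h0
    have h2 : S.mov U' = S.mov U - Y.cl (toR (S.base U') - toR (S.base U)) := by
      rw [Sec.mov, Sec.mov, map_sub]; abel
    rw [h2, Tree.ip_sub_left, hM, zero_sub, neg_nonpos, Tree.ip_comm,
      Tree.ip_cl _ _ subset_rfl]
    refine Finset.sum_nonneg fun j _ => mul_nonneg ?_ ?_
    · simpa using h1 j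
    · by_cases hj : i = j
      · rw [← hj]; exact hΓ
      · exact hY.inter _ _ hj
  have hstep : ∀ j, finrank ℂ ↥(U ⊓ S.vge i j) ≤ finrank ℂ ↥(U ⊓ S.vge i (j + 1)) + 1 := by
    intro j
    by_cases h0 : U ⊓ S.vge i j = ⊥
    · rw [h0, finrank_bot]; omega
    have h1 : j ≤ S.base (U ⊓ S.vge i j) i := (S.le_base h0).2 inf_le_right
    rcases h1.eq_or_lt with h2 | h2
    · have h3 := hC _ h0 i
      have h4 := hle _ inf_le_left h0
      rw [← h2] at h3
      have h5 : finrank ℂ ↥(U ⊓ S.vge i j ⊓ S.vge i (j + 1)) ≤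
          finrank ℂ ↥(U ⊓ S.vge i (j + 1)) :=
        Submodule.finrank_mono (inf_le_inf_right _ inf_le_left)
      have h6 : (finrank ℂ ↥(U ⊓ S.vge i j) : ℝ) ≤
          finrank ℂ ↥(U ⊓ S.vge i j ⊓ S.vge i (j + 1)) + 1 := by linarith
      have h7 : finrank ℂ ↥(U ⊓ S.vge i j) ≤
          finrank ℂ ↥(U ⊓ S.vge i j ⊓ S.vge i (j + 1)) + 1 := by exact_mod_cast h6
      omega
    · have h3 : U ⊓ S.vge i j ≤ U ⊓ S.vge i (j + 1) :=
        le_inf inf_le_left ((S.le_base h0).1 h2)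
      have := Submodule.finrank_mono h3
      omega
  have hall : ∀ j, finrank ℂ U ≤ finrank ℂ ↥(U ⊓ S.vge i j) + j := by
    intro j
    induction j with
    | zero =>
      have : U ≤ U ⊓ S.vge i 0 := le_inf le_rfl fun s _ => Or.inr (Nat.zero_le _)
      simpa using Submodule.finrank_mono this
    | succ j ih => have := hstep j; omega
  have hbot : U ⊓ S.vge i (3 * k + 1) = ⊥ := by
    rw [eq_bot_iff]
    intro s hs
    by_contra h0
    rw [Submodule.mem_bot] at h0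
    have h1 : 3 * k + 1 ≤ S.ord s i := hs.2.resolve_left h0
    have h2 := (hB.maxord Y hY k (toR (S.ord s)) (toR_nonneg _)
      (by rw [S.cl_ord s h0, sub_self]; exact nef_zero Y)).2.1 {i} (by simp [hi])
    rw [Finset.sum_singleton, toR_apply] at h2
    have h3 : (1 : ℝ) ≤ Y.sz i := by
      simp only [hi, Tree.sz]
      exact_mod_cast hY.deg_pos Γ
    have h4 : (3 * k + 1 : ℝ) ≤ S.ord s i := by exact_mod_cast h1
    nlinarith
  have := hall (3 * k + 1)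
  rwa [hbot, finrank_bot, zero_add] at this

end NLOW

theorem low_of (hA : St_NA) (hB : St_NB) : St_LOW where
  fM := NLOW.fM hA hB
  top := NLOW.top hA hB
  crude := NLOW.crude hA hB
  pen := fun Y hY k S U Γ hC _ hM hΓ => NLOW.pen hB Y hY k S U Γ hC hM hΓ

end Pool.Agent.Lib.MP_a25055_ag
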