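import Pool.Agent.Lib.MP_a25055_ag.Num

/-! Block NB: orders of vanishing, discrepancies, integrality, push forward. -/

open Finset

noncomputable section

namespace Pool.Agent.Lib.MP_a25055_ag

namespace NNB

open Pool.Agent.Lib.MP_a25055_ag.Tree

variable {Y : Tree}

lemma LL (h : Y.DP) : Y.sq Y.L = 3 := by
  simp only [Tree.sq, ip, L, mul_ite, mul_one, mul_zero]
  rw [sum_ite_mem, univ_inter, sum_congr rfl fun q hq => if_pos hq, sum_const, h.card]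
  norm_num

lemma mu_le (h : Y.Plane) (Γ : Y.Pl) (q : Y.T) : Y.mu Γ q ≤ Y.deg Γ := by
  have h1 : ∀ m : ℕ, (0 : ℝ) ≤ m * (m - 1) := fun m => by
    rcases m with _ | m
    · simp
    · push_cast; rw [add_sub_cancel_right]; positivity
  have h2 := (single_le_sum (fun q _ => h1 (Y.mu Γ q)) (mem_univ q)).trans (h.genus Γ)
  have h3 : (1 : ℝ) ≤ Y.deg Γ := by exact_mod_cast h.deg_pos Γ
  by_contra h4
  have h5 : (Y.deg Γ : ℝ) + 1 ≤ Y.mu Γ q := by exact_mod_cast not_le.mp h4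
  nlinarith

lemma supp (B : Y.I →₀ ℝ) : B.support ⊆ B.support.toLeft.disjSum univ := by
  rintro (i | i) hi
  · simpa using hi
  · simp

lemma cl_fst (B : Y.I →₀ ℝ) :
    (Y.cl B).1 = ∑ Γ ∈ B.support.toLeft, B (.inl Γ) * Y.deg Γ := by
  rw [cl_eq_sum B (supp B), Prod.fst_sum, sum_disjSum]
  simp [gam]

lemma cl_snd (B : Y.I →₀ ℝ) (q : Y.T) : (Y.cl B).2 q =
    ∑ Γ ∈ B.support.toLeft, B (.inl Γ) * Y.mu Γ q + ∑ p ∈ Y.prox q, B (.inr p) - B (.inr q) := by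
  rw [cl_eq_sum B (supp B), Prod.snd_sum, Finset.sum_apply, sum_disjSum]
  simp [gam, mul_sub, add_sub_assoc]

lemma ip_inr (D : Y.Cl) (p : Y.T) :
    Y.ip D (Y.gam (.inr p)) = D.2 p - ∑ q, if p ∈ Y.prox q then D.2 q else 0 := by
  simp [ip, gam, mul_sub]

lemma bound0 (h : Y.DP) {f : Y.T → ℝ} {c : ℝ} (hc : 0 ≤ c)
    (hf : ∀ q, f q ≤ c + ∑ p ∈ Y.prox q, f p) (n : ℕ) :
    ∀ q ∈ Y.T0, #{p ∈ Y.T0 | Y.dep p ≤ Y.dep q} ≤ n → f q ≤ c * (2 ^ n - 1) := by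
  induction n with
  | zero => exact fun q hq h1 => absurd (card_pos.mpr ⟨q, by simp [hq]⟩) (not_lt.mpr h1)
  | succ n ih =>
    intro q hq h1
    have h2 := sum_le_card_nsmul (Y.prox q) f _ fun p hp => ih p (h.closed q hq hp) (by
      have h3 := Y.prox_dep q p hp
      refine Nat.le_of_lt_succ (lt_of_lt_of_le (card_lt_card ⟨fun r hr => ?_, fun h4 => ?_⟩) h1)
      · exact mem_filter.mpr ⟨(mem_filter.mp hr).1, (mem_filter.mp hr).2.trans h3.le⟩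
      · exact absurd (mem_filter.mp (h4 (mem_filter.mpr ⟨hq, le_rfl⟩))).2 (not_le.mpr h3))
    have h3 : ((Y.prox q).card : ℝ) ≤ 2 := by exact_mod_cast h.two q
    have h4 : 0 ≤ c * (2 ^ n - 1) := mul_nonneg hc (sub_nonneg.mpr (one_le_pow₀ one_le_two))
    rw [nsmul_eq_mul] at h2
    rw [pow_succ]
    linarith [hf q, mul_le_mul_of_nonneg_right h3 h4]

lemma bound (h : Y.DP) {f : Y.T → ℝ} {c : ℝ} (hc : 0 ≤ c)
    (hf : ∀ q, f q ≤ c + ∑ p ∈ Y.prox q, f p) (q : Y.T) : f q ≤ 63 * c + 127 * c * Y.disc q := by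
  induction hn : Y.dep q using Nat.strong_induction_on generalizing q with
  | _ n ih =>
    by_cases hq : q ∈ Y.T0
    · have h1 := bound0 h hc hf 6 q hq ((card_filter_le _ _).trans h.card.le)
      have h2 : 0 ≤ 127 * c * Y.disc q := by positivity
      linarith
    · have h1 := sum_le_sum fun p hp => ih _ (hn ▸ Y.prox_dep q p hp) p rfl
      have h3 : ((Y.prox q).card : ℝ) ≤ 2 := by exact_mod_cast h.two q
      rw [sum_add_distrib, sum_const, nsmul_eq_mul, ← mul_sum] at h1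
      rw [disc_eq, if_neg hq]
      push_cast
      linarith [hf q, mul_le_mul_of_nonneg_right h3 hc]

lemma maxord (hA : St_NA) (h : Y.DP) (κ : ℝ) (B : Y.I →₀ ℝ) (hB : 0 ≤ B)
    (hD : Y.Nef (κ • Y.L - Y.cl B)) : (∀ i, B i ≤ 381 * κ * Y.A i) ∧
      (∀ s : Finset Y.I, (∀ i ∈ s, i.isLeft) → ∑ i ∈ s, B i * Y.sz i ≤ 3 * κ) ∧
      (∀ i, Y.ip (κ • Y.L - Y.cl B) (Y.gam i) ≤ 3 * κ * Y.sz i) ∧
      Y.sq (κ • Y.L - Y.cl B) ≤ 3 * κ ^ 2 ∧ Y.ip (κ • Y.L - Y.cl B) Y.L ≤ 3 * κ := by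
  obtain ⟨h1, h2, -⟩ := hA.nef Y h.toPlane _ hD
  have hB' : ∀ i, 0 ≤ B i := hB
  have e1 : (κ • Y.L - Y.cl B).1 = 3 * κ - (Y.cl B).1 := by simp [L, mul_comm]
  have h3 : 0 ≤ (Y.cl B).1 := by
    rw [cl_fst]
    exact sum_nonneg fun Γ _ => mul_nonneg (hB' _) (Nat.cast_nonneg _)
  have hκ : 0 ≤ κ := by linarith
  have h4 : ∀ s : Finset Y.I, (∀ i ∈ s, i.isLeft) → ∑ i ∈ s, B i * Y.sz i ≤ 3 * κ := by
    intro s hs
    have h5 : ∑ i ∈ s, B i * Y.sz i = ∑ i ∈ s, B i * (Y.gam i).1 := sum_congr rfl (by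
      rintro (i | i) hi
      · rfl
      · simpa using hs _ hi)
    have h6 := sum_le_sum_of_subset_of_nonneg (f := fun i => B i * (Y.gam i).1)
      (subset_union_left (s₁ := s) (s₂ := B.support)) (by
        rintro (i | i) - -
        · exact mul_nonneg (hB' _) (Nat.cast_nonneg _)
        · simp [gam])
    rw [e1, cl_eq_sum B (subset_union_right (s₁ := s)), Prod.fst_sum] at h1
    simp only [Prod.smul_fst, smul_eq_mul] at h1
    linarith
  have h5 : Y.ip (κ • Y.L - Y.cl B) Y.L ≤ 3 * κ := by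
    have h6 : Y.ip Y.L Y.L = 3 := LL h
    rw [ip_sub_left, ip_smul_left, h6, ip_comm]
    linarith [h.nefL.ip_cl hB]
  refine ⟨?_, h4, ?_, ?_, h5⟩
  · rintro (Γ | q)
    · have h6 := h4 {.inl Γ} (by simp)
      have h7 : (1 : ℝ) ≤ Y.deg Γ := by exact_mod_cast h.deg_pos Γ
      simp only [sum_singleton, sz] at h6
      simp only [A]
      nlinarith [hB' (.inl Γ)]
    · have h6 := bound h (f := fun q => B (.inr q)) (c := 3 * κ) (by linarith) (fun q => by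
        have h7 := (h2 q).2
        have h8 : ∑ Γ ∈ B.support.toLeft, B (.inl Γ) * Y.mu Γ q ≤ (Y.cl B).1 := by
          rw [cl_fst]
          exact sum_le_sum fun Γ _ => mul_le_mul_of_nonneg_left
            (by exact_mod_cast mu_le h.toPlane Γ q) (hB' _)
        have h9 : 0 ≤ (κ • Y.L).2 q := mul_nonneg hκ (by simp only [L]; positivity)
        rw [e1, Prod.snd_sub, Pi.sub_apply, cl_snd] at h7
        linarith) q
      simp only [A]
      linarith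
  · generalize κ • Y.L - Y.cl B = D at h1 h2 e1
    rintro (Γ | p)
    · have h6 : 0 ≤ ∑ q, D.2 q * Y.mu Γ q :=
        sum_nonneg fun q _ => mul_nonneg (h2 q).1 (Nat.cast_nonneg _)
      have h7 : D.1 * Y.deg Γ ≤ 3 * κ * Y.deg Γ :=
        mul_le_mul_of_nonneg_right (by linarith) (Nat.cast_nonneg _)
      simp only [ip, gam, sz]
      linarith
    · have h6 : 0 ≤ ∑ q, if p ∈ Y.prox q then D.2 q else 0 :=
        sum_nonneg fun q _ => by split_ifs; exacts [(h2 q).1, le_rfl]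
      rw [ip_inr, sz]
      linarith [(h2 p).2]
  · have h6 := hD.ip_cl hB
    have h7 := mul_le_mul_of_nonneg_left h5 hκ
    have h8 := ip_sub_right (κ • Y.L - Y.cl B) (κ • Y.L) (Y.cl B)
    rw [ip_smul_right] at h8
    rw [Tree.sq]
    linarith

lemma kapf (h : Y.DP) (D : Y.Cl) : Y.ip D Y.aK = Y.ip D Y.L - Y.kap D ∧
    Y.kap D = ∑ q, Y.disc q * Y.ip D (Y.gam (.inr q)) := by
  constructor
  · simp only [ip, aK, L, kap, mul_ite, mul_one, mul_zero]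
    rw [sum_ite_mem, univ_inter, ← sum_add_sum_compl Y.T0]
    ring
  · simp only [ip_inr, mul_sub, mul_sum, sum_sub_distrib, mul_ite, mul_zero]
    rw [sum_comm, ← sum_sub_distrib, kap, ← univ_inter Y.T0ᶜ, ← sum_ite_mem]
    refine sum_congr rfl fun q _ => ?_
    rw [sum_ite_mem, univ_inter, ← sum_mul, disc_eq]
    by_cases hq : q ∈ Y.T0
    · rw [sum_eq_zero (s := Y.prox q) (f := fun p => (Y.disc p : ℝ)) fun p hp => by
        rw [disc_eq, if_pos (h.closed q hq hp), Nat.cast_zero]]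
      simp [hq]
    · simp [hq, add_mul]

lemma int_gam (i : Y.I) : Y.IsInt (Y.gam i) := by
  rcases i with Γ | p
  · exact ⟨⟨Y.deg Γ, by simp [gam]⟩, fun q => ⟨Y.mu Γ q, by simp [gam]⟩⟩
  · exact ⟨⟨0, by simp [gam]⟩, fun q => ⟨(if p ∈ Y.prox q then 1 else 0) - if q = p then 1 else 0,
      by simp [gam]⟩⟩

lemma int_add {x y : Y.Cl} (hx : Y.IsInt x) (hy : Y.IsInt y) : Y.IsInt (x + y) := by
  obtain ⟨⟨a, ha⟩, hx⟩ := hx
  obtain ⟨⟨b, hb⟩, hy⟩ := hy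
  choose u hu using hx
  choose v hv using hy
  exact ⟨⟨a + b, by simp [ha, hb]⟩, fun q => ⟨u q + v q, by simp [hu, hv]⟩⟩

lemma int_sub_ip {x y : Y.Cl} (hx : Y.IsInt x) (hy : Y.IsInt y) :
    Y.IsInt (x - y) ∧ ∃ z : ℤ, Y.ip x y = z := by
  obtain ⟨⟨a, ha⟩, hx⟩ := hx
  obtain ⟨⟨b, hb⟩, hy⟩ := hy
  choose u hu using hx
  choose v hv using hy
  exact ⟨⟨⟨a - b, by simp [ha, hb]⟩, fun q => ⟨u q - v q, by simp [hu, hv]⟩⟩,
    a * b - ∑ q, u q * v q, by simp [ip, ha, hb, hu, hv]⟩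

lemma int_smul (n : ℕ) (x : Y.Cl) (hx : Y.IsInt x) : Y.IsInt ((n : ℝ) • x) := by
  obtain ⟨⟨a, ha⟩, hx⟩ := hx
  choose u hu using hx
  exact ⟨⟨n * a, by simp [ha]⟩, fun q => ⟨n * u q, by simp [hu]⟩⟩

lemma int_cl (B : Y.I →₀ ℕ) : Y.IsInt (Y.cl (toR B)) := by
  rw [cl_eq_sum _ subset_rfl]
  exact sum_induction _ _ (fun _ _ => int_add) ⟨⟨0, by simp⟩, fun _ => ⟨0, by simp⟩⟩
    fun i _ => int_smul _ _ (int_gam i)

lemma int_pr (Q : Finset Y.T) (x : Y.Cl) (hx : Y.IsInt x) : Y.IsInt (Y.pr Q x) :=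
  ⟨hx.1, fun q => by
    simp only [pr]
    split_ifs
    exacts [hx.2 q, ⟨0, by simp⟩]⟩

/-- Classes of effective divisors contracted by the projection to the blow-up of `Q`. -/
def Ex (Q : Finset Y.T) (x : Y.Cl) : Prop :=
  ∃ E : Y.I →₀ ℝ, 0 ≤ E ∧ Y.cl E = x ∧ ∀ j, Y.On Q j → E j = 0

lemma Ex.add {Q : Finset Y.T} {x y : Y.Cl} (hx : Ex Q x) (hy : Ex Q y) : Ex Q (x + y) := by
  obtain ⟨E, h1, rfl, h2⟩ := hx
  obtain ⟨E', h1', rfl, h2'⟩ := hy
  exact ⟨E + E', add_nonneg h1 h1', map_add _ _ _, fun j hj => by simp [h2 j hj, h2' j hj]⟩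

lemma Ex.sum {Q : Finset Y.T} {s : Finset Y.T} {f : Y.T → Y.Cl} (h : ∀ q ∈ s, Ex Q (f q)) :
    Ex Q (∑ q ∈ s, f q) :=
  sum_induction _ _ (fun _ _ => Ex.add) ⟨0, le_rfl, map_zero _, fun _ _ => rfl⟩ h

lemma Ex.smul {Q : Finset Y.T} {x : Y.Cl} (hx : Ex Q x) {c : ℝ} (hc : 0 ≤ c) : Ex Q (c • x) := by
  obtain ⟨E, h1, rfl, h2⟩ := hx
  exact ⟨c • E, smul_nonneg hc h1, map_smul _ _ _, fun j hj => by simp [h2 j hj]⟩

lemma ex_e {Q : Finset Y.T} (hQ : Y.Closed Q) (q : Y.T) (hq : q ∉ Q) :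
    Ex Q (0, fun r => if r = q then -1 else 0) := by
  induction hn : univ.sup Y.dep - Y.dep q using Nat.strong_induction_on generalizing q with
  | _ n ih =>
    have h1 : Ex Q (Y.gam (.inr q)) := ⟨Finsupp.single (.inr q) 1,
      Finsupp.single_nonneg.mpr zero_le_one, by simp, fun j hj =>
        Finsupp.single_eq_of_ne fun e => hq (by rw [e] at hj; exact hj)⟩
    have h2 := h1.add (Ex.sum (s := univ.filter fun r => q ∈ Y.prox r) fun r hr => by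
      have h3 := (mem_filter.mp hr).2
      have h4 := Y.prox_dep r q h3
      have h5 : Y.dep r ≤ univ.sup Y.dep := le_sup (mem_univ r)
      exact ih _ (by omega) r (fun h6 => hq (hQ r h6 h3)) rfl)
    convert h2 using 1
    ext r
    · simp [gam, Prod.fst_sum]
    · simp only [gam, Prod.snd_add, Prod.snd_sum, Pi.add_apply, Finset.sum_apply, sum_ite_eq,
        mem_filter, mem_univ, true_and]
      split_ifs <;> norm_num

lemma prE (h : Y.Plane) (Q : Finset Y.T) (hQ : Y.Closed Q) (i : Y.I) :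
    (¬ Y.On Q i → Y.pr Q (Y.gam i) = 0) ∧ (Y.On Q i →
      (∀ q ∉ Q, 0 ≤ (Y.gam i).2 q ∧ (Y.gam i).2 q ≤ Y.sz i) ∧ Ex Q (Y.pr Q (Y.gam i) - Y.gam i)) := by
  refine ⟨fun hi => ?_, fun hi => ?_⟩
  · rcases i with Γ | p
    · exact absurd trivial hi
    · refine Prod.ext rfl (funext fun q => ite_eq_right_iff.mpr fun hq => ?_)
      simp only [gam]
      rw [if_neg fun h1 => hi (hQ q hq h1), if_neg fun e : q = p => hi (e ▸ hq), sub_zero]
  have h1 : ∀ q ∉ Q, 0 ≤ (Y.gam i).2 q ∧ (Y.gam i).2 q ≤ Y.sz i := fun q hq => by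
    rcases i with Γ | p
    · exact ⟨Nat.cast_nonneg _, Nat.cast_le.mpr (mu_le h Γ q)⟩
    · simp only [gam, sz]
      rw [if_neg fun e : q = p => hq (e ▸ hi), sub_zero]
      split_ifs <;> norm_num
  refine ⟨h1, ?_⟩
  convert Ex.sum (s := Qᶜ) fun q hq =>
    (ex_e hQ q (mem_compl.mp hq)).smul (h1 q (mem_compl.mp hq)).1 using 1
  ext r
  · simp [pr, Prod.fst_sum]
  · by_cases hr : r ∈ Q <;> simp [pr, Prod.snd_sum, Finset.sum_apply, hr]

lemma prN (h : Y.Plane) (Q : Finset Y.T) (hQ : Y.Closed Q) (D : Y.Cl) (hD : Y.Nef D) :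
    Y.Nef (Y.pr Q D) := fun i => by
  rw [ip_pr]
  by_cases hi : Y.On Q i
  · obtain ⟨-, E, h1, h2, -⟩ := (prE h Q hQ i).2 hi
    rw [← sub_add_cancel (Y.pr Q (Y.gam i)) (Y.gam i), ← h2, ip_add_right]
    exact add_nonneg (hD.ip_cl h1) (hD i)
  · rw [(prE h Q hQ i).1 hi, ip_zero_right]

end NNB

open NNB in
theorem nb_of (hA : St_NA) : St_NB where
  LL _ := LL
  mu_le _ := mu_le
  maxord _ := maxord hA
  kapf _ := kapf
  int Y := ⟨int_gam, ⟨⟨3, by simp [Tree.L]⟩, fun q => ⟨if q ∈ Y.T0 then 1 else 0, by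
    simp [Tree.L]⟩⟩, int_cl, fun _ _ hx hy => ⟨int_add hx hy, int_sub_ip hx hy⟩, int_smul, int_pr⟩
  prE _ := prE
  prN _ := prN

end Pool.Agent.Lib.MP_a25055_ag
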