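import Pool.Agent.Lib.MP_a25055_ag.Num

/-! Curves on the weak del Pezzo surface. -/

open Finset

noncomputable section

namespace Pool.Agent.Lib.MP_a25055_ag

namespace NNC

open Pool.Agent.Lib.MP_a25055_ag.Tree

variable {Y : Tree}

/-- The projection as a linear map. -/
def prL (Y : Tree) : Y.Cl →ₗ[ℝ] Y.Cl where
  toFun := Y.pr Y.T0
  map_add' x y := by
    refine Prod.ext rfl (funext fun q => ?_)
    by_cases h : q ∈ Y.T0 <;> simp [pr, h]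
  map_smul' c x := by
    refine Prod.ext rfl (funext fun q => ?_)
    by_cases h : q ∈ Y.T0 <;> simp [pr, h]

lemma prL_apply (x : Y.Cl) : prL Y x = Y.pr Y.T0 x := rfl

lemma pr_pr (x : Y.Cl) : Y.pr Y.T0 (Y.pr Y.T0 x) = Y.pr Y.T0 x := by
  refine Prod.ext rfl (funext fun q => ?_)
  by_cases h : q ∈ Y.T0 <;> simp [pr, h]

lemma pr_L : Y.pr Y.T0 Y.L = Y.L := by
  refine Prod.ext rfl (funext fun q => ?_)
  by_cases h : q ∈ Y.T0 <;> simp [pr, L, h]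

lemma ip0_pp (x y : Y.Cl) : Y.ip (Y.pr Y.T0 x) (Y.pr Y.T0 y) = Y.ip0 x y := by
  rw [← ip_pr, pr_pr, ip0]

lemma ip0_comm (x y : Y.Cl) : Y.ip0 x y = Y.ip0 y x := by
  rw [← ip0_pp, ip_comm, ip0_pp]

lemma L_pr (x : Y.Cl) : Y.ip Y.L (Y.pr Y.T0 x) = Y.ip Y.L x := by rw [← ip_pr, pr_L]

lemma sq_pr (x : Y.Cl) : Y.sq (Y.pr Y.T0 x) = Y.ip0 x x := ip0_pp x x

lemma ip0_sum (x y : Y.Cl) : Y.ip0 x y = x.1 * y.1 - ∑ q ∈ Y.T0, x.2 q * y.2 q := by
  simp only [ip0, ip, pr, ite_mul, zero_mul, Finset.sum_ite_mem, Finset.univ_inter]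

lemma ip0_eq (x y : Y.Cl) : Y.ip0 x y = Y.ip x y + ∑ q ∈ Y.T0ᶜ, x.2 q * y.2 q := by
  rw [ip0_sum, ip, ← Finset.sum_add_sum_compl Y.T0]
  ring

lemma L_sum (x : Y.Cl) : Y.ip Y.L x = 3 * x.1 - ∑ q ∈ Y.T0, x.2 q := by
  simp only [ip, L, ite_mul, zero_mul, one_mul, Finset.sum_ite_mem, Finset.univ_inter]

lemma ip0_sub_L (x : Y.Cl) : Y.ip0 x x - Y.ip Y.L x + 2 =
    (x.1 - 1) * (x.1 - 2) - ∑ q ∈ Y.T0, x.2 q * (x.2 q - 1) := by
  simp only [ip0_sum, L_sum, mul_sub, mul_one, Finset.sum_sub_distrib]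
  ring

lemma not_prox (p : Y.T) : p ∉ Y.prox p := fun h => lt_irrefl _ (Y.prox_dep p p h)

lemma genus (h : Y.Plane) (i : Y.I) : ∑ q, (Y.gam i).2 q * ((Y.gam i).2 q - 1) ≤
    ((Y.gam i).1 - 1) * ((Y.gam i).1 - 2) := by
  rcases i with Γ | p
  · exact h.genus Γ
  · rw [Finset.sum_eq_single p]
    · simp [gam, not_prox p]
      norm_num
    · intro q _ hq
      by_cases h1 : p ∈ Y.prox q <;> simp [gam, hq, h1]
    · simp

lemma int_pred {x : ℝ} (h : ∃ m : ℤ, x = m) : 0 ≤ x * (x - 1) := by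
  obtain ⟨m, rfl⟩ := h
  have : 0 ≤ m * (m - 1) := by
    rcases le_or_gt m 0 with h | h
    · exact mul_nonneg_of_nonpos_of_nonpos h (by omega)
    · exact mul_nonneg h.le (by omega)
  exact_mod_cast this

lemma int_even {x : ℝ} (h : ∃ m : ℤ, x = m) : ∃ z : ℤ, x * (x - 1) = 2 * z := by
  obtain ⟨m, rfl⟩ := h
  obtain ⟨z, hz⟩ := Int.even_mul_pred_self m
  exact ⟨z, by rw [two_mul]; exact_mod_cast hz⟩

lemma parity {x : Y.Cl} (h : Y.IsInt x) : ∃ z : ℤ, Y.ip0 x x = Y.ip Y.L x + 2 * z := by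
  choose z hz using fun q => int_even (h.2 q)
  obtain ⟨a, ha⟩ := int_even h.1
  obtain ⟨d, hd⟩ := h.1
  refine ⟨a - d - ∑ q ∈ Y.T0, z q, ?_⟩
  have := ip0_sub_L x
  simp only [hz, ← Finset.mul_sum] at this
  push_cast
  rw [← hd]
  linarith

lemma pr_ne (h : Y.Plane) {i : Y.I} (hi : Y.On Y.T0 i) : Y.pr Y.T0 (Y.gam i) ≠ 0 := by
  intro e
  rcases i with Γ | p
  · have h1 : (Y.deg Γ : ℝ) = 0 := congrArg Prod.fst e
    have := h.deg_pos Γ
    rw [Nat.cast_eq_zero] at h1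
    omega
  · have h1 := congrFun (congrArg Prod.snd e) p
    have hp : p ∈ Y.T0 := hi
    simp [pr, gam, hp, not_prox p] at h1

lemma gam_fst (i : Y.I) : 0 ≤ (Y.gam i).1 := by
  rcases i with Γ | p
  · exact Nat.cast_nonneg _
  · exact le_rfl

lemma sq_add (x y : Y.Cl) : Y.sq (x + y) = Y.sq x + 2 * Y.ip x y + Y.sq y := by
  simp only [Tree.sq, ip_add_left, ip_add_right, ip_comm y x]
  ring

lemma sq_smul (c : ℝ) (x : Y.Cl) : Y.sq (c • x) = c ^ 2 * Y.sq x := by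
  simp only [Tree.sq, ip_smul_left, ip_smul_right]
  ring

lemma adj (hY : Y.DP) (i : Y.I) : -2 + Y.ip Y.L (Y.gam i) +
    ∑ q ∈ Y.T0ᶜ, (Y.gam i).2 q * ((Y.gam i).2 q - 1) ≤ Y.ip0 (Y.gam i) (Y.gam i) := by
  have h1 := genus hY.toPlane i
  have h2 := ip0_sub_L (Y.gam i)
  rw [← Finset.sum_add_sum_compl Y.T0] at h1
  linarith

section
variable (hA : St_NA) (hB : St_NB) (hY : Y.DP)
include hB

lemma off (i : Y.I) : ∀ q ∈ Y.T0ᶜ, 0 ≤ (Y.gam i).2 q * ((Y.gam i).2 q - 1) :=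
  fun q _ => int_pred (((hB.int Y).1 i).2 q)

lemma intL (i : Y.I) : ∃ z : ℤ, Y.ip Y.L (Y.gam i) = z :=
  ((hB.int Y).2.2.2.1 _ _ (hB.int Y).2.1 ((hB.int Y).1 i)).2.2

lemma int0 (i j : Y.I) : ∃ z : ℤ, Y.ip0 (Y.gam i) (Y.gam j) = z :=
  ((hB.int Y).2.2.2.1 _ _ ((hB.int Y).2.2.2.2.2 _ _ ((hB.int Y).1 i)) ((hB.int Y).1 j)).2.2

include hY

lemma pr_off {i : Y.I} (hi : ¬ Y.On Y.T0 i) : Y.pr Y.T0 (Y.gam i) = 0 :=
  (hB.prE Y hY.toPlane _ hY.closed i).1 hi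

lemma gam_off {i : Y.I} (hi : Y.On Y.T0 i) {q : Y.T} (hq : q ∈ Y.T0ᶜ) : 0 ≤ (Y.gam i).2 q :=
  (((hB.prE Y hY.toPlane _ hY.closed i).2 hi).1 q (Finset.mem_compl.1 hq)).1

lemma neg {i : Y.I} (hi : Y.On Y.T0 i) (h : Y.ip0 (Y.gam i) (Y.gam i) < 0) :
    Y.Line i ∨ Y.Root i := by
  have h1 := adj hY i
  have h2 := Finset.sum_nonneg (off hB i)
  have h3 := hY.nefL i
  obtain ⟨z, hz⟩ := parity ((hB.int Y).1 i)
  obtain ⟨b, hb⟩ := intL hB i
  unfold Line Root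
  rw [hz] at h h1 ⊢
  rw [hb] at h h1 h3 ⊢
  have e1 : (0 : ℤ) ≤ b := by exact_mod_cast h3
  have e2 : b + 2 * z < 0 := by exact_mod_cast h
  have e3 : -1 ≤ z := by
    have : (-1 : ℝ) ≤ z := by linarith
    exact_mod_cast this
  obtain rfl : z = -1 := by omega
  obtain rfl | rfl : b = 1 ∨ b = 0 := by omega
  · exact Or.inl ⟨hi, by norm_num, by norm_num⟩
  · exact Or.inr ⟨hi, by norm_num, by norm_num⟩

lemma inter0 {i j : Y.I} (hi : Y.On Y.T0 i) (hj : Y.On Y.T0 j) (h : i ≠ j) :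
    0 ≤ Y.ip0 (Y.gam i) (Y.gam j) ∧
      ∑ q ∈ Y.T0ᶜ, (Y.gam i).2 q * (Y.gam j).2 q ≤ Y.ip0 (Y.gam i) (Y.gam j) := by
  have h1 := hY.inter i j h
  have h2 : 0 ≤ ∑ q ∈ Y.T0ᶜ, (Y.gam i).2 q * (Y.gam j).2 q :=
    Finset.sum_nonneg fun q hq => mul_nonneg (gam_off hB hY hi hq) (gam_off hB hY hj hq)
  rw [ip0_eq]
  constructor <;> linarith

include hA

lemma hodgeL (y : Y.Cl) : 3 * Y.sq y ≤ Y.ip Y.L y ^ 2 := by
  have := hA.hodge Y Y.L y (by rw [hB.LL Y hY]; norm_num)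
  rwa [hB.LL Y hY] at this

lemma triv {i : Y.I} (hi : Y.On Y.T0 i) : (Y.ip Y.L (Y.gam i) = 0 → Y.Root i) ∧
    (Y.ip Y.L (Y.gam i) = 1 → Y.Line i) := by
  refine ⟨fun h => ?_, fun h => ?_⟩
  · refine (neg hB hY hi (lt_of_not_ge fun h1 => pr_ne hY.toPlane hi ?_)).resolve_left
      fun l => zero_ne_one (h.symm.trans l.2.2)
    exact hA.hodge0 Y Y.L _ (by rw [hB.LL Y hY]; norm_num) (by rw [L_pr, h]) (by rwa [sq_pr])
  · refine (neg hB hY hi ?_).resolve_right fun l => zero_ne_one (l.2.2.symm.trans h)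
    have h1 := hodgeL hA hB hY (Y.pr Y.T0 (Y.gam i))
    obtain ⟨z, hz⟩ := parity ((hB.int Y).1 i)
    rw [sq_pr, L_pr, hz, h] at h1
    rw [hz, h]
    have e : (z : ℝ) < 0 := by linarith
    have e' : z ≤ -1 := by
      have : z < 0 := by exact_mod_cast e
      omega
    have : (z : ℝ) ≤ -1 := by exact_mod_cast e'
    linarith

lemma exc {x y : Y.Cl} (h1 : Y.sq x = -1) (h2 : Y.sq y = -1) (h3 : Y.ip Y.L x = 1)
    (h4 : Y.ip Y.L y = 1) : Y.ip x y ≤ 5 / 3 := by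
  have := hodgeL hA hB hY (x + y)
  rw [sq_add, ip_add_right, h1, h2, h3, h4] at this
  linarith

lemma nef0 {H : Y.Cl} (h0 : Y.pr Y.T0 H = H) (h1 : 0 ≤ Y.sq H) (h2 : 0 ≤ Y.ip Y.L H)
    (h3 : ∀ i, Y.Line i ∨ Y.Root i → 0 ≤ Y.ip H (Y.gam i)) : Y.Nef H := by
  have hL : 0 < Y.sq Y.L := by rw [hB.LL Y hY]; norm_num
  have hd : 0 ≤ H.1 := by
    refine le_of_not_gt fun hd => ?_
    have := hA.cone Y Y.L ((-1 : ℝ) • H) hL.le (by rw [sq_smul]; linarith) (by norm_num [L])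
      (by simpa using hd.le)
    rw [ip_smul_right] at this
    rw [hA.hodge0 Y Y.L H hL (by linarith) h1] at hd
    exact lt_irrefl _ hd
  intro i
  by_cases hi : Y.On Y.T0 i
  · rcases lt_or_ge (Y.ip0 (Y.gam i) (Y.gam i)) 0 with h | h
    · exact h3 i (neg hB hY hi h)
    · rw [← h0, ip_pr]
      exact hA.cone Y _ _ h1 (by rwa [sq_pr]) hd (gam_fst i)
  · rw [← h0, ip_pr, pr_off hB hY hi, ip_zero_right]

lemma lr {C R : Y.I} (hC : Y.Line C) (hR : Y.Root R) :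
    Y.ip0 (Y.gam C) (Y.gam R) = 0 ∨ Y.ip0 (Y.gam C) (Y.gam R) = 1 := by
  have hne : C ≠ R := fun e => zero_ne_one (hR.2.2.symm.trans (e ▸ hC.2.2))
  have h0 := (inter0 hB hY hC.1 hR.1 hne).1
  obtain ⟨n, hn⟩ := int0 hB C R
  have := exc hA hB hY (x := Y.pr Y.T0 (Y.gam C))
    (y := Y.pr Y.T0 (Y.gam C) + (n : ℝ) • Y.pr Y.T0 (Y.gam R)) (by rw [sq_pr, hC.2.1])
    (by rw [sq_add, sq_smul, ip_smul_right, ip0_pp, sq_pr, sq_pr, hC.2.1, hR.2.1, hn]; ring)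
    (by rw [L_pr, hC.2.2])
    (by rw [ip_add_right, ip_smul_right, L_pr, L_pr, hC.2.2, hR.2.2]; ring)
  rw [ip_add_right, ip_smul_right, ip0_pp, ip0_pp, hC.2.1, hn] at this
  rw [hn] at h0 ⊢
  have e1 : (0 : ℤ) ≤ n := by exact_mod_cast h0
  have e2 : n < 2 := by
    have : (n : ℝ) < 2 := by nlinarith
    exact_mod_cast this
  obtain rfl | rfl : n = 0 ∨ n = 1 := by omega
  · exact Or.inl (by norm_num)
  · exact Or.inr (by norm_num)

lemma dec {x : Y.Cl} (hx : Y.IsInt x) (h0 : Y.pr Y.T0 x = x) (h1 : Y.sq x = -1)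
    (h2 : Y.ip Y.L x = 1) : ∃ (l : Y.I) (J : Finset Y.I), Y.Line l ∧ J.card ≤ 2 ∧
      (∀ R ∈ J, Y.Root R ∧ Y.ip0 (Y.gam l) (Y.gam R) = 1) ∧
      x = Y.pr Y.T0 (Y.gam l + ∑ R ∈ J, Y.gam R) := by
  classical
  have hd : 0 ≤ x.1 := by
    have := hodgeL hA hB hY (x + (-1, 0))
    rw [sq_add, ip_add_right, h1, h2] at this
    simp only [Tree.sq, ip, L, Pi.zero_apply, mul_zero, Finset.sum_const_zero] at this
    obtain ⟨d, hd⟩ := hx.1
    rw [hd] at this ⊢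
    have e : (-1 : ℝ) < d := by linarith
    have e' : (-1 : ℤ) < d := by exact_mod_cast e
    exact_mod_cast (by omega : 0 ≤ d)
  have hk : Y.kap x = 0 := Finset.sum_eq_zero fun q hq => by
    rw [← h0]
    exact if_neg (Finset.mem_compl.1 hq)
  obtain ⟨B, hBx⟩ := hA.effZ Y hY.toPlane x hx hd (by
    rw [(hB.kapf Y hY x).1, hk, ip_comm, h1, h2]; norm_num)
  have hs : (toR B).support ⊆ B.support := Finsupp.support_mapRange
  have b1 : ∀ i ∈ B.support, (1 : ℝ) ≤ B i := fun i hi => by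
    exact_mod_cast Nat.one_le_iff_ne_zero.2 (Finsupp.mem_support_iff.1 hi)
  have hL : ∑ i ∈ B.support, (B i : ℝ) * Y.ip Y.L (Y.gam i) = 1 := by
    rw [← h2, ← hBx, Tree.ip_cl _ _ hs]
    rfl
  have nn : ∀ i ∈ B.support, 0 ≤ (B i : ℝ) * Y.ip Y.L (Y.gam i) := fun i _ =>
    mul_nonneg (Nat.cast_nonneg _) (hY.nefL i)
  obtain ⟨l, hl, hl0⟩ := Finset.exists_ne_zero_of_sum_ne_zero (hL.trans_ne one_ne_zero)
  have l1 : 1 ≤ Y.ip Y.L (Y.gam l) := by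
    obtain ⟨b, hb⟩ := intL hB l
    have := (hY.nefL l).lt_of_ne' (right_ne_zero_of_mul hl0)
    rw [hb] at this ⊢
    exact_mod_cast (by exact_mod_cast this : (0 : ℤ) < b)
  rw [← Finset.add_sum_erase _ _ hl] at hL
  have nn' := fun i (hi : i ∈ B.support.erase l) => nn i (Finset.mem_of_mem_erase hi)
  have r0 := Finset.sum_nonneg nn'
  have bl := b1 l hl
  have l2 : Y.ip Y.L (Y.gam l) = 1 := by nlinarith
  have l3 : (B l : ℝ) = 1 := by nlinarith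
  have r1 := (Finset.sum_eq_zero_iff_of_nonneg nn').1 (by rw [l2, l3] at hL; linarith)
  have lOn : Y.On Y.T0 l := by
    by_contra hn
    rw [← L_pr, pr_off hB hY hn, ip_zero_right] at l2
    exact zero_ne_one l2
  have hLine := (triv hA hB hY lOn).2 l2
  set J := (B.support.erase l).filter (Y.On Y.T0) with hJ
  have bJ : ∀ R ∈ J, (1 : ℝ) ≤ B R := fun R hR =>
    b1 R (Finset.mem_of_mem_erase (Finset.mem_filter.1 hR).1)
  have hRoot : ∀ R ∈ J, Y.Root R := fun R hR =>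
    (triv hA hB hY (Finset.mem_filter.1 hR).2).1 ((mul_eq_zero.1
      (r1 R (Finset.mem_filter.1 hR).1)).resolve_left (by linarith [bJ R hR]))
  set z : Y.Cl := ∑ R ∈ J, (B R : ℝ) • Y.pr Y.T0 (Y.gam R) with hz
  have ex : x = Y.pr Y.T0 (Y.gam l) + z := by
    rw [← h0, ← hBx, cl_eq_sum _ hs, ← prL_apply, map_sum, ← Finset.add_sum_erase _ _ hl, hz,
      hJ, Finset.sum_filter_of_ne]
    · simp only [map_smul, prL_apply, toR_apply, l3, one_smul]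
    · intro i _ hi
      by_contra hn
      exact hi (by rw [pr_off hB hY hn, smul_zero])
  have zip : ∀ y, Y.ip y z = ∑ R ∈ J, (B R : ℝ) * Y.ip y (Y.pr Y.T0 (Y.gam R)) := fun y => by
    rw [hz, ← ipL_apply, map_sum]
    simp only [map_smul, ipL_apply, smul_eq_mul]
  have z1 : ∀ R ∈ J, Y.ip z (Y.pr Y.T0 (Y.gam R)) = -2 * B R := fun R hR => by
    rw [ip_comm, zip, Finset.sum_eq_single_of_mem R hR, ip0_pp, (hRoot R hR).2.1, mul_comm]
    intro R' hR' hne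
    rw [ip0_pp, hY.orth R R' hne.symm (hRoot R hR).1 (hRoot R' hR').1 (hRoot R hR).2.2
      (hRoot R' hR').2.2, mul_zero]
  have s0 : ∑ R ∈ J, (B R : ℝ) * (B R - Y.ip0 (Y.gam l) (Y.gam R)) = 0 := by
    have := h1
    have e : Y.sq z = -2 * ∑ R ∈ J, (B R : ℝ) * B R := by
      rw [Finset.mul_sum, Tree.sq, zip]
      exact Finset.sum_congr rfl fun R hR => by rw [z1 R hR]; ring
    rw [ex, sq_add, sq_pr, hLine.2.1, zip, e] at this
    simp only [ip0_pp] at this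
    simp only [mul_sub, Finset.sum_sub_distrib]
    linarith
  have s1 := (Finset.sum_eq_zero_iff_of_nonneg fun R hR => mul_nonneg (Nat.cast_nonneg _) (by
    have := bJ R hR
    rcases lr hA hB hY hLine (hRoot R hR) with e | e <;> linarith)).1 s0
  have s2 : ∀ R ∈ J, Y.ip0 (Y.gam l) (Y.gam R) = 1 ∧ (B R : ℝ) = 1 := fun R hR => by
    have h3 := bJ R hR
    have h4 := (mul_eq_zero.1 (s1 R hR)).resolve_left (by linarith)
    rcases lr hA hB hY hLine (hRoot R hR) with e | e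
    · linarith
    · exact ⟨e, by linarith⟩
  refine ⟨l, J, hLine, ?_, fun R hR => ⟨hRoot R hR, (s2 R hR).1⟩, ?_⟩
  · have := exc hA hB hY (x := Y.pr Y.T0 (Y.gam l)) (y := x) (by rw [sq_pr, hLine.2.1]) h1
      (by rw [L_pr, l2]) h2
    rw [ex, ip_add_right, ip0_pp, hLine.2.1, zip, Finset.sum_congr rfl fun R hR => by
      rw [ip0_pp, (s2 R hR).1, (s2 R hR).2, mul_one]] at this
    simp only [Finset.sum_const, nsmul_eq_mul, mul_one] at this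
    have e : (J.card : ℝ) < 3 := by linarith
    have e' : J.card < 3 := by exact_mod_cast e
    omega
  · rw [ex, ← prL_apply (_ + _), map_add, map_sum, hz]
    exact congrArg _ (Finset.sum_congr rfl fun R hR => by rw [(s2 R hR).2, one_smul]; rfl)

lemma push {B : Y.I →₀ ℝ} {C : Y.I} {Φ : Finset Y.I} (h0 : 0 ≤ B) (hN : Y.Nef (Y.L - Y.cl B))
    (hC : Y.On Y.T0 C) (hΦ : ∀ F ∈ Φ, Y.On Y.T0 F ∧ F ≠ C) :
    Y.ip (Y.L - Y.cl B) (Y.gam C) ≤ Y.brk C Φ B := by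
  classical
  have h1 : 0 ≤ ∑ q ∈ Y.T0ᶜ, (Y.L - Y.cl B).2 q * (Y.gam C).2 q := Finset.sum_nonneg fun q hq =>
    mul_nonneg ((hA.nef Y hY.toPlane _ hN).2.1 q).1 (gam_off hB hY hC hq)
  have h2 := ip0_eq (Y.L - Y.cl B) (Y.gam C)
  have e : ∀ x y, Y.ip0 x y = Y.ip (Y.pr Y.T0 y) x := fun x y => ip0_comm x y
  have hn : C ∉ Φ := fun h => (hΦ C h).2 rfl
  have h3 : ∑ i ∈ insert C Φ, B i * Y.ip (Y.pr Y.T0 (Y.gam C)) (Y.gam i) ≤
      ∑ i ∈ B.support ∪ insert C Φ, B i * Y.ip (Y.pr Y.T0 (Y.gam C)) (Y.gam i) := by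
    refine Finset.sum_le_sum_of_subset_of_nonneg Finset.subset_union_right fun i _ hi =>
      mul_nonneg (h0 i) ?_
    by_cases hO : Y.On Y.T0 i
    · exact (inter0 hB hY hC hO fun e => hi (e ▸ Finset.mem_insert_self _ _)).1
    · rw [ip_pr, pr_off hB hY hO, ip_zero_right]
  rw [← Tree.ip_cl _ B Finset.subset_union_left, Finset.sum_insert hn] at h3
  unfold brk
  simp only [e, ip_sub_right, ip_smul_right] at h2 ⊢
  linarith

end

end NNC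

theorem nc_of (hA : St_NA) (hB : St_NB) : St_NC where
  adj _ hY i _ := NNC.adj hY i
  neg _ hY _ hi h := NNC.neg hB hY hi h
  triv _ hY _ hi := NNC.triv hA hB hY hi
  smooth Y hY i _ h q hq := by
    have h1 := NNC.adj hY i
    have h2 := Finset.single_le_sum (NNC.off hB i) (Finset.mem_compl.2 hq)
    by_contra h3
    have : 0 < (Y.gam i).2 q * ((Y.gam i).2 q - 1) := mul_pos (by linarith) (by linarith)
    linarith
  inter0 _ hY _ _ hi hj h := NNC.inter0 hB hY hi hj h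
  exc _ hY _ _ := NNC.exc hA hB hY
  nef0 _ hY _ := NNC.nef0 hA hB hY
  lr _ hY _ _ := NNC.lr hA hB hY
  dec _ hY _ := NNC.dec hA hB hY
  push _ hY _ _ _ := NNC.push hA hB hY

end Pool.Agent.Lib.MP_a25055_ag
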