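import Pool.Agent.Lib.MP_a25055_ag.Num

open Finset MeasureTheory Set

noncomputable section

namespace Pool.Agent.Lib.MP_a25055_ag

namespace NPF

lemma avg {g ψ : ℝ → ℝ} {a b C : ℝ} (hab : a ≤ b) (hg : AntitoneOn g (Icc a b))
    (hψ : IntervalIntegrable ψ volume a b)
    (h : ∀ s s', a ≤ s → s < s' → s' ≤ b → (s' - s) * ((ψ s + ψ s') / 2 - C) ≤ g s - g s') :
    ∫ s in a..b, ψ s ≤ g a - g b + C * (b - a) := by
  rcases hab.eq_or_lt with rfl | hlt
  · simp
  have sub : ∀ {f : ℝ → ℝ}, IntervalIntegrable f volume a b → ∀ {u v}, u ∈ Icc a b → v ∈ Icc a b →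
      IntervalIntegrable f volume u v := fun hf _ _ hu hv =>
    hf.mono_set (by rw [uIcc_of_le hab]; exact uIcc_subset_Icc hu hv)
  have hgi : IntervalIntegrable g volume a b := (uIcc_of_le hab ▸ hg).intervalIntegrable
  have ha : a ∈ Icc a b := left_mem_Icc.mpr hab
  have hb : b ∈ Icc a b := right_mem_Icc.mpr hab
  have key : ∀ t ∈ Ioo 0 (b - a), ((∫ s in a..b - t, ψ s) + (∫ s in a..b, ψ s) -
      ∫ s in a..a + t, ψ s) / 2 - C * (b - t - a) ≤ g a - g b := by
    intro t ht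
    have m1 : b - t ∈ Icc a b := ⟨by linarith [ht.2], by linarith [ht.1]⟩
    have m2 : a + t ∈ Icc a b := ⟨by linarith [ht.1], by linarith [ht.2]⟩
    have sh : ∀ {f : ℝ → ℝ}, IntervalIntegrable f volume a b →
        IntervalIntegrable (fun s => f (s + t)) volume a (b - t) := fun hf => by
      simpa using (sub hf m2 hb).comp_add_right t
    have i1 := intervalIntegral.integral_mono_on m1.1
      (((((sub hψ ha m1).add (sh hψ)).div_const 2).sub intervalIntegrable_const).const_mul t)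
      ((sub hgi ha m1).sub (sh hgi)) fun s hs => by
        simpa using h s (s + t) hs.1 (by linarith [ht.1]) (by linarith [hs.2])
    rw [intervalIntegral.integral_const_mul, intervalIntegral.integral_sub
      (((sub hψ ha m1).add (sh hψ)).div_const 2) intervalIntegrable_const,
      intervalIntegral.integral_div, intervalIntegral.integral_add (sub hψ ha m1) (sh hψ),
      intervalIntegral.integral_sub (sub hgi ha m1) (sh hgi),
      intervalIntegral.integral_comp_add_right, intervalIntegral.integral_comp_add_right,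
      intervalIntegral.integral_const, sub_add_cancel, smul_eq_mul] at i1
    have e1 := intervalIntegral.integral_add_adjacent_intervals (sub hψ ha m2) (sub hψ m2 hb)
    have e2 := intervalIntegral.integral_add_adjacent_intervals (sub hgi ha m2) (sub hgi m2 hb)
    have e3 := intervalIntegral.integral_add_adjacent_intervals (sub hgi ha m1) (sub hgi m1 hb)
    have i2 := intervalIntegral.integral_mono_on m2.1 (sub hgi ha m2)
      (intervalIntegrable_const (c := g a)) fun s hs => hg ha ⟨hs.1, hs.2.trans m2.2⟩ hs.1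
    have i3 := intervalIntegral.integral_mono_on m1.2 (intervalIntegrable_const (c := g b))
      (sub hgi m1 hb) fun s hs => hg ⟨m1.1.trans hs.1, hs.2⟩ hb hs.2
    rw [intervalIntegral.integral_const, smul_eq_mul] at i2 i3
    refine le_of_mul_le_mul_left ?_ ht.1
    rw [← e1]
    linarith
  have hP := intervalIntegral.continuousOn_primitive_interval' hψ left_mem_uIcc
  rw [uIcc_of_le hab] at hP
  have c1 : ContinuousOn (fun t => ((∫ s in a..b - t, ψ s) + (∫ s in a..b, ψ s) -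
      ∫ s in a..a + t, ψ s) / 2 - C * (b - t - a)) (Icc 0 (b - a)) :=
    ((((hP.comp (f := fun t => b - t) (by fun_prop) fun t ht =>
      ⟨by linarith [ht.2], by linarith [ht.1]⟩).add continuousOn_const).sub
      (hP.comp (f := fun t => a + t) (by fun_prop) fun t ht =>
      ⟨by linarith [ht.1], by linarith [ht.2]⟩)).div_const 2).sub (by fun_prop)
  have h0 : (0 : ℝ) ∈ Icc 0 (b - a) := left_mem_Icc.mpr (by linarith)
  have := ContinuousWithinAt.closure_le (s := Ioo 0 (b - a)) (x := 0)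
    (by rwa [closure_Ioo (by linarith)]) ((c1 0 h0).mono Ioo_subset_Icc_self)
    continuousWithinAt_const key
  simp only [sub_zero, add_zero, intervalIntegral.integral_same] at this
  linarith

variable {Y : Tree}

lemma low {W : Y.Cl} (hW : Y.Nef W) {Δ : Y.I →₀ ℝ} (hΔ : 0 ≤ Δ) (S : Finset Y.I) (t : Y.I → ℝ)
    (h : ∀ j ∈ S, Y.ip W (Y.gam j) ≠ 0 → t j ≤ Δ j) :
    ∑ j ∈ S, t j * Y.ip W (Y.gam j) ≤ Y.ip W (Y.cl Δ) := by
  rw [Tree.ip_cl W Δ (s := Δ.support ∪ S) Finset.subset_union_left]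
  refine le_trans (Finset.sum_le_sum fun j hj => ?_) (Finset.sum_le_sum_of_subset_of_nonneg
    Finset.subset_union_right fun i _ _ => mul_nonneg (hΔ i) (hW i))
  by_cases e : Y.ip W (Y.gam j) = 0
  · simp [e]
  · exact mul_le_mul_of_nonneg_right (h j hj e) (hW j)

/-- the path of constraints -/
def X (B1 : Y.I →₀ ℝ) (S : Finset Y.I) (d : Y.I → ℝ) (s : ℝ) : Y.I →₀ ℝ :=
  B1 ⊔ Y.dv S fun i => B1 i + s * d i

lemma X_apply {B1 : Y.I →₀ ℝ} (h : 0 ≤ B1) {S : Finset Y.I} {d : Y.I → ℝ} (hd : ∀ j ∈ S, 0 ≤ d j)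
    {s : ℝ} (hs : 0 ≤ s) (i : Y.I) : X B1 S d s i = B1 i + s * if i ∈ S then d i else 0 := by
  rw [X, Finsupp.sup_apply, Tree.dv_apply]
  split_ifs with hi
  · exact sup_eq_right.mpr (le_add_of_nonneg_right (mul_nonneg hs (hd i hi)))
  · rw [mul_zero, add_zero]; exact sup_eq_left.mpr (h i)

lemma X_mono {B1 : Y.I →₀ ℝ} (h0 : 0 ≤ B1) {S : Finset Y.I} {d : Y.I → ℝ}
    (hd : ∀ j ∈ S, 0 ≤ d j) {s s' : ℝ} (hs : 0 ≤ s) (h : s ≤ s') : X B1 S d s ≤ X B1 S d s' :=
  fun i => by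
    rw [X_apply h0 hd hs, X_apply h0 hd (hs.trans h)]
    gcongr
    split_ifs with hi
    exacts [hd i hi, le_rfl]

lemma step (hZ : St_ZAR) (hY : Y.Plane) {D0 : Y.Cl} {B1 : Y.I →₀ ℝ} (h0 : 0 ≤ B1)
    (h1 : Y.Nef (D0 - Y.cl B1)) {S : Finset Y.I} {d : Y.I → ℝ} (hd : ∀ j ∈ S, 0 ≤ d j) {s s' : ℝ}
    (hs : 0 ≤ s) (hss : s < s') (hf : Y.Feas D0 (X B1 S d s')) :
    (s' - s) * (∑ j ∈ S, d j * Y.ip (Y.dmin D0 (X B1 S d s)) (Y.gam j) +
      ∑ j ∈ S, d j * Y.ip (Y.dmin D0 (X B1 S d s')) (Y.gam j)) ≤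
      Y.sq (Y.dmin D0 (X B1 S d s)) - Y.sq (Y.dmin D0 (X B1 S d s')) := by
  have hs' : 0 < s' := hs.trans_lt hss
  have hX := X_mono h0 hd hs hss.le
  obtain ⟨b1, b2, b3, -, b5⟩ := hZ.least Y hY D0 _ hf
  obtain ⟨a1, a2, a3, a4, a5⟩ := hZ.least Y hY D0 (X B1 S d s) ⟨_, hX.trans b1, b2 ▸ b3⟩
  set B := Y.bmin D0 (X B1 S d s)
  set B' := Y.bmin D0 (X B1 S d s')
  have hΔ : 0 ≤ B' - B := sub_nonneg.mpr (a4 _ (hX.trans b1) (b2 ▸ b3))
  have hθ : s / s' ≤ 1 := (div_le_one hs').mpr hss.le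
  have hθ0 : 0 ≤ s / s' := by positivity
  have hc : s / s' * s' = s := div_mul_cancel₀ _ hs'.ne'
  have hB : B ≤ (s / s') • B' + (1 - s / s') • B1 := a4 _ (fun i => by
      have := mul_le_mul_of_nonneg_left (b1 i) hθ0
      rw [X_apply h0 hd hs'.le, mul_add, ← mul_assoc, hc] at this
      rw [X_apply h0 hd hs, Finsupp.add_apply, Finsupp.smul_apply, Finsupp.smul_apply, smul_eq_mul,
        smul_eq_mul]
      linarith) fun i => by
    have : D0 - Y.cl ((s / s') • B' + (1 - s / s') • B1) =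
        (s / s') • (D0 - Y.cl B') + (1 - s / s') • (D0 - Y.cl B1) := by
      rw [map_add, map_smul, map_smul]; module
    rw [this, Tree.ip_add_left, Tree.ip_smul_left, Tree.ip_smul_left, ← b2]
    exact add_nonneg (mul_nonneg hθ0 (b3 i)) (mul_nonneg (sub_nonneg.mpr hθ) (h1 i))
  have l1 := low a3 hΔ S (fun j => (s' - s) * d j) fun j hj hne => by
    have p1 := not_lt.mp (mt (a5 j) hne)
    have p2 := b1 j
    rw [X_apply h0 hd hs, if_pos hj] at p1
    rw [X_apply h0 hd hs'.le, if_pos hj] at p2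
    rw [Finsupp.sub_apply]
    linarith
  have l2 := low b3 hΔ S (fun j => (s' - s) * d j) fun j hj hne => by
    have p1 := le_antisymm (not_lt.mp (mt (b5 j) hne)) (b1 j)
    have p2 := hB j
    rw [X_apply h0 hd hs'.le, if_pos hj] at p1
    rw [Finsupp.add_apply, Finsupp.smul_apply, Finsupp.smul_apply, smul_eq_mul, smul_eq_mul, p1,
      mul_add, ← mul_assoc, hc] at p2
    rw [Finsupp.sub_apply, p1]
    linarith
  have e2 : Y.cl (B' - B) = Y.dmin D0 (X B1 S d s) - Y.dmin D0 (X B1 S d s') := by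
    rw [a2, b2, map_sub]; abel
  rw [e2, Tree.ip_sub_right] at l1 l2
  simp only [mul_assoc, ← Finset.mul_sum] at l1 l2
  rw [Tree.ip_comm (Y.dmin D0 (X B1 S d s'))] at l2
  rw [Tree.sq, Tree.sq, mul_add]
  linarith

lemma run (hZ : St_ZAR) (hY : Y.Plane) {D0 : Y.Cl} {B1 : Y.I →₀ ℝ} (h0 : 0 ≤ B1)
    (h1 : Y.Nef (D0 - Y.cl B1)) {S : Finset Y.I} {d : Y.I → ℝ} (hd : ∀ j ∈ S, 0 ≤ d j)
    {a b C : ℝ} (ha : 0 ≤ a) (hab : a ≤ b) (hf : Y.Feas D0 (X B1 S d b)) {ψ : ℝ → ℝ}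
    (hψ : IntervalIntegrable ψ volume a b)
    (h : ∀ s ∈ Icc a b, ψ s ≤ ∑ j ∈ S, d j * Y.ip (Y.dmin D0 (X B1 S d s)) (Y.gam j) + C) :
    ∫ s in a..b, ψ s ≤
      (Y.sq (Y.dmin D0 (X B1 S d a)) - Y.sq (Y.dmin D0 (X B1 S d b))) / 2 + C * (b - a) := by
  have st := fun s s' (h2 : a ≤ s) (h3 : s < s') (h4 : s' ≤ b) =>
    step hZ hY h0 h1 hd (ha.trans h2) h3 (hf.imp fun _ hB =>
      ⟨(X_mono h0 hd (by linarith) h4).trans hB.1, hB.2⟩)
  have nn : ∀ s, 0 ≤ ∑ j ∈ S, d j * Y.ip (Y.dmin D0 (X B1 S d s)) (Y.gam j) := fun s =>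
    Finset.sum_nonneg fun j hj => mul_nonneg (hd j hj) (hZ.nef Y hY _ _ j)
  rw [sub_div]
  refine avg (g := fun s => Y.sq (Y.dmin D0 (X B1 S d s)) / 2) hab (fun s hs s' hs' e => ?_) hψ
    fun s s' h2 h3 h4 => ?_
  · rcases e.eq_or_lt with rfl | e
    · exact le_rfl
    · have := st s s' hs.1 e hs'.2
      have := mul_nonneg (sub_pos.mpr e).le (add_nonneg (nn s) (nn s'))
      beta_reduce
      linarith
  · have := st s s' h2 h3 h4
    have := mul_le_mul_of_nonneg_left (add_le_add (h s ⟨h2, by linarith⟩) (h s' ⟨by linarith, h4⟩))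
      (sub_pos.mpr h3).le
    linarith

lemma one (hA : St_NA) (hZ : St_ZAR) (hY : Y.Plane) (D0 : Y.Cl) (B1 : Y.I →₀ ℝ) (F : Y.I)
    (u v : ℝ) (h0 : 0 ≤ B1) (h1 : Y.Nef (D0 - Y.cl B1)) (hu : B1 F ≤ u) (huv : u ≤ v) :
    2 * ∫ w in u..v, Y.hf D0 B1 F w ≤ Y.sq (Y.dmin D0 (B1 ⊔ Finsupp.single F u)) := by
  have nn := fun B => (hA.nef Y hY _ (hZ.nef Y hY D0 B)).2.2
  have eX : ∀ s, X B1 {F} (fun _ => 1) s = B1 ⊔ Finsupp.single F (B1 F + s) := fun s => by
    simp [X, Tree.dv]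
  have it : ∀ a b, u ≤ a → u ≤ b → IntervalIntegrable (Y.hf D0 B1 F) volume a b :=
    fun a b ha hb => hZ.intg Y hY D0 B1 F a b h0 h1 (hu.trans ha) (hu.trans hb)
  have k1 : ∀ w, u ≤ w → Y.Feas D0 (B1 ⊔ Finsupp.single F w) →
      2 * ∫ w in u..w, Y.hf D0 B1 F w ≤ Y.sq (Y.dmin D0 (B1 ⊔ Finsupp.single F u)) := by
    intro w hw hf
    have := run hZ hY h0 h1 (S := {F}) (d := fun _ => 1) (fun _ _ => zero_le_one)
      (a := u - B1 F) (b := w - B1 F) (C := 0) (by linarith) (by linarith)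
      (by rwa [eX, add_sub_cancel]) ((it u w le_rfl hw).comp_add_left (B1 F))
      fun s _ => by simp [eX, Tree.hf]
    rw [intervalIntegral.integral_comp_add_left, eX, eX, add_sub_cancel, add_sub_cancel] at this
    linarith [nn (B1 ⊔ Finsupp.single F w)]
  let T : Set ℝ := {w | w ∈ Icc u v ∧
    2 * ∫ w in u..w, Y.hf D0 B1 F w ≤ Y.sq (Y.dmin D0 (B1 ⊔ Finsupp.single F u))}
  have hP := intervalIntegral.continuousOn_primitive_interval' (it u v le_rfl huv) left_mem_uIcc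
  rw [uIcc_of_le huv] at hP
  have hT : IsClosed T := isClosed_Icc.isClosed_le (continuousOn_const.mul hP) continuousOn_const
  have hb : BddAbove T := ⟨v, fun w hw => hw.1.2⟩
  have hm := hT.csSup_mem ⟨u, left_mem_Icc.mpr huv, by simpa using nn _⟩ hb
  have hz : ∫ w in sSup T..v, Y.hf D0 B1 F w = 0 := by
    rw [intervalIntegral.integral_congr_ae (g := fun _ => 0) (Filter.Eventually.of_forall
      fun w hw => ?_), intervalIntegral.integral_zero]
    rw [uIoc_of_le hm.1.2] at hw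
    have h2 : u ≤ w := hm.1.1.trans hw.1.le
    rw [Tree.hf, Tree.dmin, if_neg fun hf => (le_csSup hb ⟨⟨h2, hw.2⟩, k1 w h2 hf⟩).not_gt hw.1,
      Tree.ip_zero_left]
  rw [← intervalIntegral.integral_add_adjacent_intervals (it u _ le_rfl hm.1.1)
    (it _ v hm.1.1 huv), hz, add_zero]
  exact hm.2

end NPF

open NPF in
theorem pf_of (hA : St_NA) (hZ : St_ZAR) : St_PF := by
  refine ⟨fun Y hY D0 B1 S x c h0 h1 hx hf h => ?_, fun Y hY => one hA hZ hY⟩
  have hd : ∀ j ∈ S, 0 ≤ x j - B1 j := fun j hj => sub_nonneg.mpr (hx j hj)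
  have e1 : X B1 S (fun i => x i - B1 i) 1 = B1 ⊔ Y.dv S x := by simp [X]
  have e0 : Y.dmin D0 (X B1 S (fun i => x i - B1 i) 0) = D0 - Y.cl B1 := by
    have : X B1 S (fun i => x i - B1 i) 0 = B1 := Finsupp.ext fun i => by
      rw [X_apply h0 hd le_rfl, zero_mul, add_zero]
    obtain ⟨a1, a2, -, a4, -⟩ := hZ.least Y hY D0 B1 ⟨B1, le_rfl, h1⟩
    rw [this, a2, le_antisymm (a4 B1 le_rfl h1) a1]
  have it : ∀ j ∈ S, IntervalIntegrable
      (fun s => (x j - B1 j) * Y.hf D0 B1 j (B1 j + (x j - B1 j) * s)) volume 0 1 := fun j hj => by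
    rcases (hd j hj).eq_or_lt with e | e
    · simp [← e]
    · have := ((hZ.intg Y hY D0 B1 j _ _ h0 h1 le_rfl (hx j hj)).comp_add_left
        (B1 j)).comp_mul_left (c := x j - B1 j)
      rw [sub_self, zero_div, div_self e.ne'] at this
      exact this.const_mul _
  have := run hZ hY h0 h1 hd le_rfl zero_le_one (C := c * ∑ j ∈ S, (x j - B1 j)) (e1 ▸ hf)
    (ψ := fun s => ∑ j ∈ S, (x j - B1 j) * Y.hf D0 B1 j (B1 j + (x j - B1 j) * s))
    (by simpa only [Finset.sum_fn] using IntervalIntegrable.sum S it) fun s hs => by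
      rw [Finset.mul_sum, ← Finset.sum_add_distrib]
      refine Finset.sum_le_sum fun j hj => ?_
      rw [mul_comm c, ← mul_add, mul_comm _ s]
      exact mul_le_mul_of_nonneg_left (h s hs j hj) (hd j hj)
  rw [e0, e1, intervalIntegral.integral_finsetSum it, sub_zero, mul_one] at this
  refine le_of_eq_of_le (Finset.sum_congr rfl fun j _ => ?_) this
  rw [intervalIntegral.integral_const_mul, ← smul_eq_mul,
    intervalIntegral.smul_integral_comp_add_mul]
  simp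

end Pool.Agent.Lib.MP_a25055_ag
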