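import Pool.Agent.Lib.MP_a25055_ag.Num

/-! The volume is at most twice the integral of the restricted volume. -/

open Finset MeasureTheory Filter Topology

noncomputable section

namespace Pool.Agent.Lib.MP_a25055_ag

namespace NPR

open Pool.Agent.Lib.MP_a25055_ag.Tree

/-- The trapezoid rule for concave functions. -/
lemma trap {h : ℝ → ℝ} {u v : ℝ} (huv : u ≤ v) (hi : IntervalIntegrable h volume u v)
    (hc : ∀ a b : ℝ, 0 ≤ a → 0 ≤ b → a + b = 1 → a * h u + b * h v ≤ h (a * u + b * v)) :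
    (v - u) * (h u + h v) ≤ 2 * ∫ w in u..v, h w := by
  rcases huv.eq_or_lt with rfl | huv'
  · simp
  have hd : 0 < v - u := sub_pos.2 huv'
  have h1 : ∫ w in u..v, (h u + (h v - h u) / (v - u) * (w - u)) ≤ ∫ w in u..v, h w := by
    refine intervalIntegral.integral_mono_on huv (Continuous.intervalIntegrable (by fun_prop) _ _)
      hi fun w hw => ?_
    have := hc ((v - w) / (v - u)) ((w - u) / (v - u)) (div_nonneg (by linarith [hw.2]) hd.le)
      (div_nonneg (by linarith [hw.1]) hd.le) (by field_simp; ring)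
    rw [show (v - w) / (v - u) * u + (w - u) / (v - u) * v = w by field_simp; ring] at this
    refine le_trans (le_of_eq ?_) this
    field_simp; ring
  rw [intervalIntegral.integral_add (Continuous.intervalIntegrable (by fun_prop) _ _)
    (Continuous.intervalIntegrable (by fun_prop) _ _), intervalIntegral.integral_const_mul,
    intervalIntegral.integral_sub (Continuous.intervalIntegrable (by fun_prop) _ _)
    (Continuous.intervalIntegrable (by fun_prop) _ _), integral_id,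
    intervalIntegral.integral_const, intervalIntegral.integral_const] at h1
  refine le_trans (le_of_eq ?_) (mul_le_mul_of_nonneg_left h1 (by norm_num))
  simp only [smul_eq_mul]
  field_simp; ring

/-- Summation over a fine mesh. -/
lemma mesh {φ h : ℝ → ℝ} {b c K : ℝ} (hbc : b ≤ c)
    (H : ∀ u v, b ≤ u → u ≤ v → v ≤ c →
      φ u + (v - u) * (h u - h v) - K * (v - u) ^ 2 ≤ φ v) : φ b ≤ φ c := by
  have key : ∀ n : ℕ, φ b + ((c - b) * (h b - h c) - K * (c - b) ^ 2) * (1 / ((n : ℝ) + 1)) ≤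
      φ c := by
    intro n
    have hn : (0 : ℝ) < n + 1 := by positivity
    obtain ⟨δ, hδ⟩ : ∃ δ, δ = (c - b) / ((n : ℝ) + 1) := ⟨_, rfl⟩
    have hδ0 : 0 ≤ δ := hδ ▸ div_nonneg (by linarith) hn.le
    have hc : c = b + ((n : ℝ) + 1) * δ := by rw [hδ]; field_simp; ring
    have ind : ∀ m : ℕ, m ≤ n + 1 →
        φ b + δ * (h b - h (b + m * δ)) - m * (K * δ ^ 2) ≤ φ (b + m * δ) := by
      intro m
      induction m with
      | zero => simp
      | succ m ih =>
        intro hm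
        have hm' : (m : ℝ) + 1 ≤ n + 1 := by exact_mod_cast hm
        have h1 := ih (by omega)
        have h2 := H (b + m * δ) (b + (m + 1 : ℕ) * δ) (le_add_of_nonneg_right (by positivity))
          (by push_cast; nlinarith) (by push_cast; rw [hc]; nlinarith)
        rw [show b + (m + 1 : ℕ) * δ - (b + m * δ) = δ by push_cast; ring] at h2
        push_cast at h2 ⊢
        linarith
    have := ind (n + 1) le_rfl
    push_cast at this
    rw [← hc] at this
    refine le_trans (le_of_eq ?_) this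
    rw [hδ]; field_simp; ring
  have ht := (tendsto_one_div_add_atTop_nhds_zero_nat (𝕜 := ℝ)).const_mul
    ((c - b) * (h b - h c) - K * (c - b) ^ 2) |>.const_add (φ b)
  rw [mul_zero, add_zero] at ht
  exact le_of_tendsto' ht key

variable {Y : Tree}

lemma gam_deg (i : Y.I) : 0 ≤ (Y.gam i).1 := by
  cases i <;> simp [gam]

lemma deg_nonneg {E : Y.I →₀ ℝ} (hE : 0 ≤ E) : 0 ≤ (Y.cl E).1 := by
  rw [cl_eq_sum E subset_rfl, Prod.fst_sum]
  exact Finset.sum_nonneg fun i _ => mul_nonneg (hE i) (gam_deg i)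

lemma deg_mono {E E' : Y.I →₀ ℝ} (h : E ≤ E') : (Y.cl E).1 ≤ (Y.cl E').1 := by
  have := deg_nonneg (sub_nonneg.2 h)
  rwa [map_sub, Prod.fst_sub, sub_nonneg] at this

lemma sq_le (x : Y.Cl) : Y.sq x ≤ x.1 ^ 2 := by
  have : 0 ≤ ∑ q, x.2 q * x.2 q := Finset.sum_nonneg fun q _ => mul_self_nonneg _
  rw [Tree.sq, ip]; nlinarith

lemma sq_add (x y : Y.Cl) : Y.sq (x + y) = Y.sq x + 2 * Y.ip x y + Y.sq y := by
  simp only [Tree.sq, ip_add_left, ip_add_right, ip_comm y x]; ring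

lemma single_mono (F : Y.I) {u v : ℝ} (h : u ≤ v) :
    (Finsupp.single F u : Y.I →₀ ℝ) ≤ Finsupp.single F v := fun i => by
  simp only [Finsupp.single_apply]; split_ifs <;> simp [h]

variable {D0 : Y.Cl} {B1 : Y.I →₀ ℝ} {F : Y.I}

lemma fe_anti {u v : ℝ} (h : u ≤ v) (hv : Y.Feas D0 (B1 ⊔ Finsupp.single F v)) :
    Y.Feas D0 (B1 ⊔ Finsupp.single F u) := by
  obtain ⟨B, h1, h2⟩ := hv
  exact ⟨B, (sup_le_sup_left (single_mono F h) _).trans h1, h2⟩

lemma sup_self (h0 : 0 ≤ B1) : B1 ⊔ Finsupp.single F (B1 F) = B1 :=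
  sup_eq_left.2 fun i => by
    simp only [Finsupp.single_apply]
    split_ifs with h
    · rw [h]
    · exact h0 i

variable (hZ : St_ZAR) (hY : Y.Plane) (h0 : 0 ≤ B1) (hn : Y.Nef (D0 - Y.cl B1))
include hZ hY h0 hn

/-- One step of the mesh. -/
lemma step {u v c e : ℝ} (hu : B1 F ≤ u) (huv : u ≤ v) (hvc : v ≤ c) (hce : c < e)
    (he : Y.Feas D0 (B1 ⊔ Finsupp.single F e)) :
    Y.sq (Y.dmin D0 (B1 ⊔ Finsupp.single F u)) ≤ Y.sq (Y.dmin D0 (B1 ⊔ Finsupp.single F v)) +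
      2 * ((v - u) * Y.hf D0 B1 F v) +
      ((Y.cl (Y.bmin D0 (B1 ⊔ Finsupp.single F e) - B1)).1 / (e - c)) ^ 2 * (v - u) ^ 2 := by
  have fv := fe_anti (hvc.trans hce.le) he
  have fu := fe_anti huv fv
  obtain ⟨a1, a2, a3, a4, -⟩ := hZ.least Y hY _ _ fu
  obtain ⟨b1, b2, b3, b4, b5⟩ := hZ.least Y hY _ _ fv
  obtain ⟨c1, c2, c3, -, -⟩ := hZ.least Y hY _ _ he
  have tu := hZ.tight Y hY _ _ _ _ h0 hn hu fu
  have tv := hZ.tight Y hY _ _ _ _ h0 hn (hu.trans huv) fv
  rw [hf]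
  generalize Y.bmin D0 (B1 ⊔ Finsupp.single F u) = Bu at a1 a2 a4 tu
  generalize Y.bmin D0 (B1 ⊔ Finsupp.single F v) = Bv at b1 b2 b4 b5 tv
  generalize Y.bmin D0 (B1 ⊔ Finsupp.single F e) = Be at c1 c2
  rw [a2] at a3 ⊢
  rw [c2] at c3
  have hle : Bu ≤ Bv := a4 Bv ((sup_le_sup_left (single_mono F huv) _).trans b1) (b2 ▸ b3)
  have hec : 0 < e - c := sub_pos.2 hce
  have heu : 0 < e - u := by linarith
  obtain ⟨t, ht⟩ : ∃ t, t = (v - u) / (e - u) := ⟨_, rfl⟩
  have t0 : 0 ≤ t := ht ▸ div_nonneg (by linarith) heu.le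
  have t1 : t ≤ 1 := ht ▸ (div_le_one heu).2 (by linarith)
  have t2 : t ≤ (v - u) / (e - c) := ht ▸ div_le_div_of_nonneg_left (by linarith) hec (by linarith)
  have t3 : v = (1 - t) * u + t * e := by rw [ht]; field_simp; ring
  have u1 : B1 ≤ Bu := le_sup_left.trans a1
  have e1 : B1 ≤ Be := le_sup_left.trans c1
  have hconv : Bv ≤ (1 - t) • Bu + t • Be := by
    refine b4 _ (fun i => ?_) fun i => ?_
    · have p1 := a1 i
      have p2 := c1 i
      simp only [Finsupp.sup_apply, Finsupp.single_apply, sup_le_iff, Finsupp.add_apply,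
        Finsupp.smul_apply, smul_eq_mul] at p1 p2 ⊢
      refine ⟨by nlinarith [p1.1, p2.1], ?_⟩
      split_ifs at p1 p2 ⊢
      · rw [t3]; nlinarith [p1.2, p2.2]
      · nlinarith [p1.2, p2.2]
    · have : D0 - Y.cl ((1 - t) • Bu + t • Be) =
          (1 - t) • (D0 - Y.cl Bu) + t • (D0 - Y.cl Be) := by
        rw [map_add, map_smul, map_smul]; module
      rw [this, ip_add_left, ip_smul_left, ip_smul_left]
      exact add_nonneg (mul_nonneg (by linarith) (a3 i)) (mul_nonneg t0 (c3 i))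
  have hd : (Y.cl (Bv - Bu)).1 ≤ (Y.cl (Be - B1)).1 / (e - c) * (v - u) := by
    have p1 : Bv - Bu ≤ t • (Be - B1) := fun i => by
      have q1 := hconv i
      have q2 := u1 i
      simp only [Finsupp.add_apply, Finsupp.smul_apply, smul_eq_mul, Finsupp.sub_apply] at q1 ⊢
      nlinarith
    have p2 := deg_mono p1
    rw [map_smul, Prod.smul_fst, smul_eq_mul] at p2
    refine p2.trans ((mul_le_mul_of_nonneg_right t2 (deg_nonneg (sub_nonneg.2 e1))).trans
      (le_of_eq ?_))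
    ring
  have horth : Y.ip (Y.dmin D0 (B1 ⊔ Finsupp.single F v)) (Y.cl (Bv - Bu)) =
      (v - u) * Y.ip (Y.dmin D0 (B1 ⊔ Finsupp.single F v)) (Y.gam F) := by
    classical
    rw [ip_cl _ _ (Finset.subset_insert F _), Finset.sum_eq_single F (fun i _ hi => ?_) (by simp),
      Finsupp.sub_apply, tu, tv]
    rcases (hle i).eq_or_lt with h | h
    · rw [Finsupp.sub_apply, h, sub_self, zero_mul]
    · rw [b5 i, mul_zero]
      rw [Finsupp.sup_apply, Finsupp.single_eq_of_ne hi]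
      exact max_lt ((u1 i).trans_lt h) ((le_trans (h0 i) (u1 i)).trans_lt h)
  have e2 : D0 - Y.cl Bu = Y.dmin D0 (B1 ⊔ Finsupp.single F v) + Y.cl (Bv - Bu) := by
    rw [b2, map_sub]; abel
  rw [e2, sq_add, horth, ← mul_pow]
  have := (sq_le (Y.cl (Bv - Bu))).trans
    (pow_le_pow_left₀ (deg_nonneg (sub_nonneg.2 hle)) hd 2)
  linarith

/-- The integrated inequality in the interior of the feasible interval. -/
lemma drop {c e : ℝ} (hc : B1 F ≤ c) (hce : c < e) (he : Y.Feas D0 (B1 ⊔ Finsupp.single F e)) :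
    Y.sq (D0 - Y.cl B1) ≤ Y.sq (Y.dmin D0 (B1 ⊔ Finsupp.single F c)) +
      2 * ∫ w in B1 F..c, Y.hf D0 B1 F w := by
  have key := mesh (φ := fun u => Y.sq (Y.dmin D0 (B1 ⊔ Finsupp.single F u)) +
      2 * ∫ w in B1 F..u, Y.hf D0 B1 F w) (h := Y.hf D0 B1 F)
    (K := ((Y.cl (Y.bmin D0 (B1 ⊔ Finsupp.single F e) - B1)).1 / (e - c)) ^ 2) hc
    fun u v hu huv hvc => by
      have h1 := step hZ hY h0 hn hu huv hvc hce he
      have fv := fe_anti (hvc.trans hce.le) he
      have i2 := hZ.intg Y hY D0 B1 F u v h0 hn hu (hu.trans huv)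
      have h2 := trap huv i2 fun a b ha hb hab =>
        (hZ.conc Y hY D0 B1 B1 B1 F u v a b ha hb hab h0 h0 h0
          (by rw [← add_smul, hab, one_smul]) hn hn hu (hu.trans huv) (fe_anti huv fv) fv).2
      rw [← intervalIntegral.integral_add_adjacent_intervals
        (hZ.intg Y hY D0 B1 F _ u h0 hn le_rfl hu) i2]
      linarith
  obtain ⟨a1, a2, -, a4, -⟩ := hZ.least Y hY D0 B1 ⟨B1, le_rfl, hn⟩
  simpa only [sup_self h0, a2, le_antisymm (a4 B1 le_rfl hn) a1, intervalIntegral.integral_same,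
    mul_zero, add_zero] using key

/-- A big class can be pushed further by a uniform amount. -/
lemma push (hA : St_NA) {ε : ℝ} (hε : 0 < ε) : ∃ δ : ℝ, 0 < δ ∧ ∀ u, B1 F ≤ u →
    Y.Feas D0 (B1 ⊔ Finsupp.single F u) → ε ≤ Y.sq (Y.dmin D0 (B1 ⊔ Finsupp.single F u)) →
    Y.Feas D0 (B1 ⊔ Finsupp.single F (u + δ)) := by
  obtain ⟨H, hH⟩ : ∃ H, H = (D0 - Y.cl B1).1 * ((Y.gam F).1 + ∑ q, |(Y.gam F).2 q|) := ⟨_, rfl⟩
  have e1 : ∀ᶠ δ : ℝ in 𝓝 0, 2 * δ * H - δ ^ 2 * Y.sq (Y.gam F) < ε :=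
    (Continuous.tendsto (by fun_prop) 0).eventually_lt_const (by simpa using hε)
  have e2 : ∀ᶠ δ : ℝ in 𝓝 0, (δ * (Y.gam F).1) ^ 2 < ε :=
    (Continuous.tendsto (by fun_prop) 0).eventually_lt_const (by simpa using hε)
  obtain ⟨δ, ⟨d1, d2⟩, d0⟩ := (((e1.and e2).filter_mono nhdsWithin_le_nhds).and
    (self_mem_nhdsWithin (s := Set.Ioi (0 : ℝ)))).exists
  have d0 : 0 < δ := d0
  refine ⟨δ, d0, fun u hu fu hs => ?_⟩
  obtain ⟨a1, a2, a3, -, -⟩ := hZ.least Y hY _ _ fu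
  obtain ⟨n1, n2, -⟩ := hA.nef Y hY _ a3
  generalize Y.bmin D0 (B1 ⊔ Finsupp.single F u) = Bu at a1 a2
  generalize Y.dmin D0 (B1 ⊔ Finsupp.single F u) = W at a2 a3 n1 n2 hs
  have u1 : B1 ≤ Bu := le_sup_left.trans a1
  have w1 : W.1 ≤ (D0 - Y.cl B1).1 := by
    rw [a2, Prod.fst_sub, Prod.fst_sub]; linarith [deg_mono u1]
  have w2 : Y.ip W (Y.gam F) ≤ H := by
    have p1 : -∑ q, W.2 q * (Y.gam F).2 q ≤ ∑ q, W.1 * |(Y.gam F).2 q| := by
      rw [← Finset.sum_neg_distrib]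
      refine Finset.sum_le_sum fun q _ => ?_
      nlinarith [n2 q, neg_abs_le ((Y.gam F).2 q), abs_nonneg ((Y.gam F).2 q)]
    rw [← Finset.mul_sum] at p1
    have p2 : 0 ≤ (Y.gam F).1 + ∑ q, |(Y.gam F).2 q| :=
      add_nonneg (gam_deg F) (Finset.sum_nonneg fun q _ => abs_nonneg _)
    have p3 := mul_le_mul_of_nonneg_right w1 p2
    rw [hH, ip]; linarith
  obtain ⟨E, E0, E1⟩ := hA.effR Y hY (W + (-δ) • Y.gam F) (by
      have e3 : Y.sq ((-δ) • Y.gam F) = δ ^ 2 * Y.sq (Y.gam F) := by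
        rw [Tree.sq, Tree.sq, ip_smul_left, ip_smul_right]; ring
      rw [sq_add, ip_smul_right, e3]
      nlinarith) (by
      have := lt_of_pow_lt_pow_left₀ 2 n1 (d2.trans_le (hs.trans (sq_le W)))
      rw [Prod.fst_add, Prod.smul_fst, smul_eq_mul]; linarith)
  refine ⟨Bu + Finsupp.single F δ + E, fun i => ?_, fun i => ?_⟩
  · have p1 := a1 i
    have p2 : 0 ≤ E i := E0 i
    simp only [Finsupp.sup_apply, Finsupp.single_apply, sup_le_iff, Finsupp.add_apply] at p1 ⊢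
    split_ifs at p1 ⊢ <;> constructor <;> linarith [p1.1, p1.2]
  · have : D0 - Y.cl (Bu + Finsupp.single F δ + E) = 0 := by
      rw [map_add, map_add, E1, cl_single, a2]; module
    rw [this, ip_zero_left]

end NPR

open NPR in
theorem pr_of (hA : St_NA) (hZ : St_ZAR) : St_PR := by
  intro Y hY D0 B1 F U h0 hn hU
  by_contra hc
  rw [not_le] at hc
  obtain ⟨δ, d0, hδ⟩ := push (F := F) hZ hY h0 hn hA (sub_pos.2 hc)
  have hle : ∀ u, B1 F ≤ u → Y.Feas D0 (B1 ⊔ Finsupp.single F u) → u ≤ U := fun u hu fu => by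
    obtain ⟨a1, a2, a3, -, -⟩ := hZ.least Y hY _ _ fu
    rw [← hZ.tight Y hY _ _ _ _ h0 hn hu fu]
    exact hU _ (le_sup_left.trans a1) (a2 ▸ a3)
  have hint : ∀ u, B1 F ≤ u → u ≤ U → ∫ w in B1 F..u, Y.hf D0 B1 F w ≤
      ∫ w in B1 F..U, Y.hf D0 B1 F w := fun u hu hu' => by
    rw [← intervalIntegral.integral_add_adjacent_intervals
      (hZ.intg Y hY D0 B1 F _ u h0 hn le_rfl hu) (hZ.intg Y hY D0 B1 F u U h0 hn hu (hu.trans hu'))]
    exact le_add_of_nonneg_right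
      (intervalIntegral.integral_nonneg hu' fun w _ => hZ.nef Y hY _ _ F)
  have f0 : Y.Feas D0 (B1 ⊔ Finsupp.single F (B1 F)) := ⟨B1, (sup_self h0).le, hn⟩
  have key : ∀ m : ℕ, Y.Feas D0 (B1 ⊔ Finsupp.single F (B1 F + m * (δ / 2) + δ)) := by
    intro m
    induction m with
    | zero =>
      rw [Nat.cast_zero, zero_mul, add_zero]
      refine hδ _ le_rfl f0 ?_
      obtain ⟨a1, a2, -, a4, -⟩ := hZ.least Y hY D0 B1 ⟨B1, le_rfl, hn⟩
      have := hint _ le_rfl (hle _ le_rfl f0)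
      rw [intervalIntegral.integral_same] at this
      rw [sup_self h0, a2, le_antisymm (a4 B1 le_rfl hn) a1]
      linarith
    | succ m ih =>
      have p1 : B1 F ≤ B1 F + (m + 1 : ℕ) * (δ / 2) := le_add_of_nonneg_right (by positivity)
      have p2 : B1 F + (m + 1 : ℕ) * (δ / 2) < B1 F + m * (δ / 2) + δ := by push_cast; linarith
      have p3 := fe_anti p2.le ih
      have p4 := drop hZ hY h0 hn p1 p2 ih
      have p5 := hint _ p1 (hle _ p1 p3)
      exact hδ _ p1 p3 (by linarith)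
  obtain ⟨m, hm⟩ := exists_nat_gt ((U - B1 F) / (δ / 2))
  rw [div_lt_iff₀ (by positivity)] at hm
  have := hle _ (by have : 0 ≤ m * (δ / 2) := by positivity
                    linarith) (key m)
  linarith

end Pool.Agent.Lib.MP_a25055_ag
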