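import Pool.Agent.Lib.MP_a25055_ag.Num

/-! Block PSI: the Chebyshev terms have nonnegative integral. -/

open Module Finset MeasureTheory

noncomputable section

namespace Pool.Agent.Lib.MP_a25055_ag

namespace NPSI

variable {Y : Tree} {k : ℕ} (S : Sec Y k)

lemma vge_anti (j : Y.I) {n n' : ℕ} (h : n ≤ n') : S.vge j n' ≤ S.vge j n := fun _ hs =>
  hs.imp id fun h' => h.trans h'

lemma up_anti {U1 U2 : Submodule ℂ S.V} {B1 B2 : Y.I →₀ ℝ} (SS : Finset Y.I) (hU : U2 ≤ U1)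
    (hB : B1 ≤ B2) : S.Up U2 B2 SS ≤ S.Up U1 B1 SS := by
  refine inf_le_inf hU (iInf₂_mono fun j _ => vge_anti S j ?_)
  exact Nat.add_le_add_right (Nat.ceil_mono (hB j)) _

lemma mov_le (hY : Y.Plane) {U1 U2 : Submodule ℂ S.V} (h : U2 ≤ U1) (h0 : U2 ≠ ⊥) {i : Y.I}
    (he : S.base U1 i = S.base U2 i) :
    Y.ip (S.mov U2) (Y.gam i) ≤ Y.ip (S.mov U1) (Y.gam i) := by
  have hb := S.base_mono h h0
  have h1 : 0 ≤ Y.ip (Y.cl (toR (S.base U2) - toR (S.base U1))) (Y.gam i) := by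
    refine hY.cl_ip (fun j => ?_) (by simp [he])
    simpa using hb j
  rw [map_sub, Tree.ip_sub_left] at h1
  simp only [Sec.mov, Tree.ip_sub_left]
  linarith

lemma mov_bd (hY : Y.Plane) (U1 : Submodule ℂ S.V) (i : Y.I) {N : ℕ} (hN : S.base U1 i ≤ N) :
    Y.ip (S.mov U1) (Y.gam i) ≤
      Y.ip ((k : ℝ) • Y.L) (Y.gam i) + N * |Y.ip (Y.gam i) (Y.gam i)| := by
  have h1 : 0 ≤ Y.ip (Y.cl (toR (S.base U1) - Finsupp.single i (S.base U1 i : ℝ))) (Y.gam i) := by
    classical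
    refine hY.cl_ip (fun j => ?_) (by simp)
    by_cases hj : i = j
    · subst hj; simp
    · simp [hj]
  rw [map_sub, Tree.ip_sub_left, Tree.cl_single, Tree.ip_smul_left] at h1
  simp only [Sec.mov, Tree.ip_sub_left]
  have h2 : -|Y.ip (Y.gam i) (Y.gam i)| ≤ Y.ip (Y.gam i) (Y.gam i) := neg_abs_le _
  have h3 : (S.base U1 i : ℝ) ≤ N := by exact_mod_cast hN
  have h4 : (0 : ℝ) ≤ S.base U1 i := Nat.cast_nonneg _
  have h5 := abs_nonneg (Y.ip (Y.gam i) (Y.gam i))
  nlinarith [mul_le_mul_of_nonneg_left h2 h4, mul_le_mul_of_nonneg_right h3 h5]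

/-- The choice of the comparison divisor. -/
lemma exists_top (hY : Y.DP) (W : ℝ → Submodule ℂ S.V) (I : Set ℝ)
    (hW : ∀ s ∈ I, ∀ t ∈ I, s ≤ t → W t ≤ W s) :
    ∃ B : Y.I →₀ ℕ, Y.Nef ((k : ℝ) • Y.L - Y.cl (toR B)) ∧
      ∀ t ∈ I, W t ≠ ⊥ → S.base (W t) ≤ B := by
  classical
  by_cases h : ∃ n, ∃ t ∈ I, W t ≠ ⊥ ∧ finrank ℂ (W t) = n
  · obtain ⟨t0, ht0, h0, hn⟩ := Nat.find_spec h
    refine ⟨S.base (W t0), S.nef_mov hY.toPlane h0, fun t ht h1 => ?_⟩
    rcases le_total t t0 with h2 | h2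
    · exact S.base_mono (hW t ht t0 ht0 h2) h0
    · have h3 : W t = W t0 := Submodule.eq_of_le_of_finrank_le (hW t0 ht0 t ht h2)
        (by rw [hn]; exact Nat.find_min' h ⟨t, ht, h1, rfl⟩)
      rw [h3]
  · refine ⟨0, fun i => ?_, fun t ht h1 => (h ⟨_, t, ht, h1, rfl⟩).elim⟩
    have : toR (0 : Y.I →₀ ℕ) = 0 := by ext j; simp
    rw [this, map_zero, sub_zero, Tree.ip_smul_left]
    exact mul_nonneg (Nat.cast_nonneg _) (hY.nefL i)

end NPSI

open NPSI in
theorem psi_of (_h1 : St_NA) (_h2 : St_NB) (h3 : St_ENV) (h4 : St_PT) (h5 : St_RA) : St_PSI := by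
  classical
  intro k Y hY S U a T β Bc SS hF hβ hBc
  have haT : a ≤ T := by exact_mod_cast hβ.1.trans hβ.2
  obtain ⟨-, hP, hBa, hBm, -⟩ := h4 Y hY.toPlane k S U a T hF haT
  have hsub : Set.Icc (a : ℝ) β ⊆ Set.Icc (a : ℝ) T := Set.Icc_subset_Icc le_rfl hβ.2
  set W : ℝ → Submodule ℂ S.V := fun t => S.Up (U ⌈t⌉₊) (S.Bh U a T t) SS with hWd
  have hW : ∀ s ∈ Set.Icc (a : ℝ) β, ∀ t ∈ Set.Icc (a : ℝ) β, s ≤ t → W t ≤ W s :=
    fun s hs t ht hst => up_anti S SS (hF.1 (Nat.ceil_mono hst)) (hBm (hsub hs) (hsub ht) hst)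
  obtain ⟨B, hBn, hB⟩ := exists_top S hY W _ hW
  set big : Y.I → ℕ := fun i => max (B i) (S.base (U T) i) with hbig
  set A : Y.I → ℝ → ℕ := fun i t => if W t = ⊥ then big i else S.base (W t) i with hA
  set M : Y.I → ℝ → ℝ := fun i t => if W t = ⊥ then 0 else Y.ip (S.mov (W t)) (Y.gam i) with hM
  set f : Y.I → ℝ → ℝ := fun i t => if S.base (U a) i < A i t then
    (min (A i t - S.Bh U a T t i) 1 - 1 / 2) * M i t else 0 with hf
  have key : ∀ i, IntervalIntegrable (f i) volume a β ∧ 0 ≤ ∫ t in (a : ℝ)..β, f i t := by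
    intro i
    obtain ⟨hc1, hc2, -⟩ := h3.conv (fun n => S.base (U n) i) a T haT
    have hEq : Set.EqOn (env (fun n => S.base (U n) i) a T) (fun t => S.Bh U a T t i)
        (Set.Icc (a : ℝ) β) := fun t ht => ((hP t (hsub ht)).1 i).symm
    have hIo : Set.Ioc (a : ℝ) β ⊆ Set.Icc (a : ℝ) β := Set.Ioc_subset_Icc_self
    have hM0 : ∀ t, 0 ≤ M i t := fun t => by
      simp only [hM]
      split_ifs with h
      · exact le_rfl
      · exact S.nef_mov hY.toPlane h i
    refine h5.cheb a β (|Y.ip ((k : ℝ) • Y.L) (Y.gam i)| + B i * |Y.ip (Y.gam i) (Y.gam i)|)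
      (A i) (S.base (U a) i) (fun t => S.Bh U a T t i) (M i) hβ.1 ?_
      ((hc1.subset hsub (convex_Icc _ _)).congr hEq) ((hc2.mono hsub).congr hEq.symm)
      (fun s hs t ht hst => hBm (hsub hs) (hsub ht) hst i) (by rw [hBa]; simp) ?_ ?_
    · intro s hs t ht hst
      simp only [hA]
      by_cases h1 : W t = ⊥
      · rw [if_pos h1]
        split_ifs with h2
        · exact le_rfl
        · exact (hB s (hIo hs) h2 i).trans (le_max_left _ _)
      · have hle := hW s (hIo hs) t (hIo ht) hst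
        have h2 : W s ≠ ⊥ := fun h => h1 (le_bot_iff.1 (h ▸ hle))
        rw [if_neg h1, if_neg h2]
        exact S.base_mono hle h1 i
    · intro t ht
      have h1 : S.Bh U a T t i ≤ S.base (U ⌈t⌉₊) i := (hP t (hsub (hIo ht))).2.2.1 i
      refine ⟨h1.trans ?_, hM0 t, ?_⟩
      · simp only [hA]
        split_ifs with h2
        · have : S.base (U ⌈t⌉₊) i ≤ S.base (U T) i :=
            S.base_mono (hF.1 (Nat.ceil_le.2 (hsub (hIo ht)).2)) hF.2 i
          exact_mod_cast this.trans (le_max_right _ _)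
        · have : S.base (U ⌈t⌉₊) i ≤ S.base (W t) i := S.base_mono inf_le_left h2 i
          exact_mod_cast this
      · simp only [hM]
        split_ifs with h2
        · positivity
        · exact (mov_bd S hY.toPlane (W t) i (hB t (hIo ht) h2 i)).trans
            (add_le_add_left (le_abs_self _) _)
    · intro s hs t ht hst he
      by_cases h1 : W t = ⊥
      · have : M i t = 0 := by simp only [hM, if_pos h1]
        rw [this]; exact hM0 s
      · have hle := hW s (hIo hs) t (hIo ht) hst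
        have h2 : W s ≠ ⊥ := fun h => h1 (le_bot_iff.1 (h ▸ hle))
        simp only [hA, if_neg h1, if_neg h2] at he
        simp only [hM, if_neg h1, if_neg h2]
        exact mov_le S hY.toPlane hle h1 he
  have hB0 : 0 ≤ toR B := fun i => by simp
  set c : Y.I → ℝ := fun i => 3 / 8 * min 1 ((4 * Bc i + toR B i) / k) with hc
  have hc0 : ∀ i, 0 ≤ c i := fun i => by
    have h1 : 0 ≤ Bc i := hBc i
    have h2 : 0 ≤ toR B i := hB0 i
    simp only [hc]
    positivity
  have hPsi : (fun t => S.Psi (U a) (W t) (S.Bh U a T t) Bc (toR B) SS) = fun t =>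
      ∑ i ∈ (toR B).support.filter (fun i => i.isLeft ∧ i ∉ SS), c i * f i t := by
    funext t
    simp only [Sec.Psi, hf, hA, hM, hc]
    by_cases h1 : W t = ⊥
    · simp [h1]
    · simp only [if_neg h1, mul_ite, mul_zero]
  refine ⟨toR B, hB0, hBn, fun t ht h1 i => ?_, ?_, ?_⟩
  · simpa using hB t ht h1 i
  · change IntervalIntegrable (fun t => S.Psi (U a) (W t) (S.Bh U a T t) Bc (toR B) SS) _ _ _
    rw [hPsi]
    have := IntervalIntegrable.sum ((toR B).support.filter (fun i => i.isLeft ∧ i ∉ SS))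
      (f := fun i t => c i * f i t) (fun i _ => (key i).1.const_mul (c i))
    rw [Finset.sum_fn] at this
    exact this
  · change 0 ≤ ∫ t in (a : ℝ)..β, (fun t => S.Psi (U a) (W t) (S.Bh U a T t) Bc (toR B) SS) t
    rw [hPsi, intervalIntegral.integral_finsetSum (fun i _ => (key i).1.const_mul (c i))]
    refine Finset.sum_nonneg fun i _ => ?_
    rw [intervalIntegral.integral_const_mul]
    exact mul_nonneg (hc0 i) (key i).2

end Pool.Agent.Lib.MP_a25055_ag
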