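import Pool.Agent.Lib.MP_a25055_ag.Num

/-! The envelope classes. -/

open Module Finset

noncomputable section

namespace Pool.Agent.Lib.MP_a25055_ag

namespace NPT

variable {Y : Tree} {k : ℕ} {S : Sec Y k} {U : ℕ → Submodule ℂ S.V} {a b : ℕ}

lemma ne_bot (hF : S.Filt U b) {n : ℕ} (hn : n ≤ b) : U n ≠ ⊥ := fun h =>
  hF.2 (le_bot_iff.1 (h ▸ hF.1 hn))

lemma base_le_base (hF : S.Filt U b) {m n : ℕ} (hmn : m ≤ n) (hn : n ≤ b) :
    S.base (U m) ≤ S.base (U n) :=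
  S.base_mono (hF.1 hmn) (ne_bot hF hn)

lemma monoOn (hF : S.Filt U b) (a : ℕ) (i : Y.I) :
    MonotoneOn (fun n => S.base (U n) i) (Set.Icc a b) :=
  fun _ _ _ hn h => base_le_base hF h hn.2 i

lemma ceil_le {t : ℝ} (ht : t ∈ Set.Icc (a : ℝ) b) : ⌈t⌉₊ ≤ b := Nat.ceil_le.2 ht.2

lemma env_nonneg (hE : St_ENV) (o : ℕ → ℕ) {t : ℝ} (ht : t ∈ Set.Icc (a : ℝ) b) :
    0 ≤ env o a b t := by
  obtain ⟨θ, hθ, h⟩ := hE.prob o a b t ht
  rw [h]
  exact Finset.sum_nonneg fun i _ => mul_nonneg (hθ.1 i) (Nat.cast_nonneg _)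

lemma Bh_apply (hE : St_ENV) (hF : S.Filt U b) {t : ℝ} (ht : t ∈ Set.Icc (a : ℝ) b) (i : Y.I) :
    S.Bh U a b t i = env (fun n => S.base (U n) i) a b t := by
  rw [Sec.Bh, Tree.dv_apply]
  split_ifs with h
  · rfl
  · have h0 : S.base (U b) i = 0 := Finsupp.notMem_support_iff.1 h
    have h1 := (hE.mono _ a b (monoOn hF a i)).2 t ht
    have h2 : S.base (U ⌈t⌉₊) i ≤ S.base (U b) i := base_le_base hF (ceil_le ht) le_rfl i
    have h3 : S.base (U ⌈t⌉₊) i = 0 := by omega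
    simp only [h3, Nat.cast_zero] at h1
    exact le_antisymm (env_nonneg hE _ ht) h1

lemma Bh_le (hE : St_ENV) (hF : S.Filt U b) {t : ℝ} (ht : t ∈ Set.Icc (a : ℝ) b) :
    S.Bh U a b t ≤ toR (S.base (U ⌈t⌉₊)) := fun i => by
  rw [Bh_apply hE hF ht]
  exact (hE.mono _ a b (monoOn hF a i)).2 t ht

lemma left_mem (hab : a ≤ b) : (a : ℝ) ∈ Set.Icc (a : ℝ) b := ⟨le_rfl, Nat.cast_le.2 hab⟩

lemma Bh_left (hE : St_ENV) (hF : S.Filt U b) (hab : a ≤ b) :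
    S.Bh U a b a = toR (S.base (U a)) := by
  ext i
  rw [Bh_apply hE hF (left_mem hab)]
  exact (hE.conv _ a b hab).2.2.2.1

lemma Bh_mono (hE : St_ENV) (hF : S.Filt U b) :
    MonotoneOn (S.Bh U a b) (Set.Icc (a : ℝ) b) := fun s hs t ht hst i => by
  rw [Bh_apply hE hF hs, Bh_apply hE hF ht]
  exact (hE.mono _ a b (monoOn hF a i)).1 hs ht hst

lemma nef_Pt (hE : St_ENV) (hY : Y.Plane) (hF : S.Filt U b) {t : ℝ}
    (ht : t ∈ Set.Icc (a : ℝ) b) : Y.Nef (S.Pt U a b t) := fun i => by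
  obtain ⟨θ, hθ, h⟩ := hE.prob (fun n => S.base (U n) i) a b t ht
  set B' : Y.I →₀ ℝ := ∑ n ∈ Icc a b, θ n • toR (S.base (U n)) with hB'
  have hB : ∀ j, B' j = ∑ n ∈ Icc a b, θ n * (S.base (U n) j : ℝ) := fun j => by
    simp [hB', Finsupp.finsetSum_apply]
  have h1 : 0 ≤ Y.ip (Y.cl (B' - S.Bh U a b t)) (Y.gam i) := by
    refine hY.cl_ip (fun j => ?_) ?_
    · have := hE.le (fun n => S.base (U n) j) a b t θ hθ
      rw [← Bh_apply hE hF ht, ← hB] at this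
      simpa using this
    · rw [Finsupp.sub_apply, hB, Bh_apply hE hF ht, h, sub_self]
  have h2 : (k : ℝ) • Y.L - Y.cl B' = ∑ n ∈ Icc a b, θ n • S.mov (U n) := by
    simp only [Sec.mov, smul_sub, Finset.sum_sub_distrib, ← Finset.sum_smul, hθ.2.1, one_smul,
      hB', map_sum, map_smul]
  have h3 : 0 ≤ Y.ip ((k : ℝ) • Y.L - Y.cl B') (Y.gam i) := by
    rw [h2, Tree.ip_comm, ← Tree.ipL_apply, map_sum]
    refine Finset.sum_nonneg fun n hn => ?_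
    rw [map_smul, Tree.ipL_apply, Tree.ip_comm, smul_eq_mul]
    exact mul_nonneg (hθ.1 n) (S.nef_mov hY (ne_bot hF (Finset.mem_Icc.1 hn).2) i)
  have h4 : S.Pt U a b t = ((k : ℝ) • Y.L - Y.cl B') + Y.cl (B' - S.Bh U a b t) := by
    rw [Sec.Pt, map_sub]; abel
  rw [h4, Tree.ip_add_left]
  exact add_nonneg h3 h1

lemma cont_ip (Y : Tree) : Continuous fun p : Y.Cl × Y.Cl => Y.ip p.1 p.2 := by
  unfold Tree.ip
  fun_prop

lemma cont_Pt (hE : St_ENV) (hab : a ≤ b) :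
    ContinuousOn (S.Pt U a b) (Set.Icc (a : ℝ) b) := by
  have h : S.Pt U a b = fun t => (k : ℝ) • Y.L - ∑ i ∈ (S.base (U b)).support,
      env (fun n => S.base (U n) i) a b t • Y.gam i := by
    funext t
    simp only [Sec.Pt, Sec.Bh, Tree.dv, map_sum, Tree.cl_single]
  rw [h]
  refine continuousOn_const.sub (continuousOn_finsetSum _ fun i _ => ?_)
  exact (hE.conv _ a b hab).2.1.smul continuousOn_const

lemma sq_comb (hA : St_NA) (hY : Y.Plane) {P Q : Y.Cl} (hP : Y.Nef P) (hQ : Y.Nef Q) {α β : ℝ}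
    (hα : 0 ≤ α) (hβ : 0 ≤ β) :
    (α * Real.sqrt (Y.sq P) + β * Real.sqrt (Y.sq Q)) ^ 2 ≤ Y.sq (α • P + β • Q) := by
  have p0 := (hA.nef Y hY P hP).2.2
  have q0 := (hA.nef Y hY Q hQ).2.2
  have h1 : Real.sqrt (Y.sq P) * Real.sqrt (Y.sq Q) ≤ Y.ip P Q := by
    rw [← Real.sqrt_mul p0]
    exact Real.sqrt_le_iff.2 ⟨hA.nef_nef Y hY P Q hP hQ, hA.hodge Y P Q p0⟩
  have h2 : Y.sq (α • P + β • Q) = α ^ 2 * Y.sq P + 2 * (α * β) * Y.ip P Q + β ^ 2 * Y.sq Q := by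
    simp only [Tree.sq, Tree.ip_add_left, Tree.ip_add_right, Tree.ip_smul_left,
      Tree.ip_smul_right, Tree.ip_comm Q P]
    ring
  have h3 := Real.sq_sqrt p0
  have h4 := Real.sq_sqrt q0
  have h5 := mul_le_mul_of_nonneg_left h1 (mul_nonneg hα hβ)
  rw [h2]
  nlinarith

lemma conc (hA : St_NA) (hE : St_ENV) (hY : Y.Plane) (hF : S.Filt U b) (hab : a ≤ b) :
    ConcaveOn ℝ (Set.Icc (a : ℝ) b) fun t => Real.sqrt (Y.sq (S.Pt U a b t)) := by
  refine ⟨convex_Icc _ _, fun x hx y hy α β hα hβ hs => ?_⟩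
  have hz := convex_Icc (a : ℝ) b hx hy hα hβ hs
  have nx := nef_Pt hE hY hF hx
  have ny := nef_Pt hE hY hF hy
  have h1 : (k : ℝ) • Y.L - Y.cl (α • S.Bh U a b x + β • S.Bh U a b y) =
      α • S.Pt U a b x + β • S.Pt U a b y := by
    simp only [Sec.Pt, map_add, map_smul, smul_sub]
    have : (k : ℝ) • Y.L = α • (k : ℝ) • Y.L + β • (k : ℝ) • Y.L := by
      rw [← add_smul, hs, one_smul]
    conv_lhs => rw [this]
    abel
  have h2 : Y.Nef ((k : ℝ) • Y.L - Y.cl (α • S.Bh U a b x + β • S.Bh U a b y)) := fun i => by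
    rw [h1, Tree.ip_add_left, Tree.ip_smul_left, Tree.ip_smul_left]
    exact add_nonneg (mul_nonneg hα (nx i)) (mul_nonneg hβ (ny i))
  have h3 : S.Bh U a b (α • x + β • y) ≤ α • S.Bh U a b x + β • S.Bh U a b y := fun i => by
    rw [Finsupp.add_apply, Finsupp.smul_apply, Finsupp.smul_apply, Bh_apply hE hF hx,
      Bh_apply hE hF hy, Bh_apply hE hF hz]
    exact (hE.conv _ a b hab).1.2 hx hy hα hβ hs
  have h4 := hA.mono Y _ _ _ (nef_Pt hE hY hF hz) h2 h3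
  rw [h1] at h4
  exact Real.le_sqrt_of_sq_le ((sq_comb hA hY nx ny hα hβ).trans h4)

lemma ratio {g : ℝ → ℝ} {a b s t : ℝ} (hg : ConcaveOn ℝ (Set.Icc a b) g) (h0 : ∀ u, 0 ≤ g u)
    (hs : s ∈ Set.Icc a b) (ht : t ∈ Set.Icc s b) : (b - t) * g s ≤ (b - s) * g t := by
  rcases hs.2.eq_or_lt with h | h
  · have : t = b := le_antisymm ht.2 (h ▸ ht.1)
    simp [h, this]
  have hp : 0 < b - s := sub_pos.2 h
  have h1 := hg.2 hs ⟨hs.1.trans hs.2, le_rfl⟩ (div_nonneg (sub_nonneg.2 ht.2) hp.le)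
    (div_nonneg (sub_nonneg.2 ht.1) hp.le) (by field_simp; ring)
  have h2 : ((b - t) / (b - s)) • s + ((t - s) / (b - s)) • b = t := by
    simp only [smul_eq_mul]; field_simp; ring
  rw [h2, smul_eq_mul, smul_eq_mul] at h1
  have h3 : 0 ≤ (t - s) / (b - s) * g b :=
    mul_nonneg (div_nonneg (sub_nonneg.2 ht.1) hp.le) (h0 b)
  have h4 : (b - t) / (b - s) * g s ≤ g t := by linarith
  rw [div_mul_eq_mul_div, div_le_iff₀ hp] at h4
  linarith

end NPT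

open NPT in
theorem pt_of (hA : St_NA) (hE : St_ENV) : St_PT := by
  intro Y hY k S U a b hF hab
  refine ⟨monoOn hF a, fun t ht => ⟨Bh_apply hE hF ht, ?_, Bh_le hE hF ht, nef_Pt hE hY hF ht, ?_⟩,
    Bh_left hE hF hab, Bh_mono hE hF, fun D => ?_, ?_, fun s hs t ht hst => ?_,
    conc hA hE hY hF hab, fun s hs t ht => ?_, fun a' ha t ht => ?_⟩
  · rw [← Bh_left hE hF hab]
    exact Bh_mono hE hF (left_mem hab) ht ht.1
  · exact hA.mono Y _ _ _ (nef_Pt hE hY hF ht) (S.nef_mov hY (ne_bot hF (ceil_le ht)))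
      (Bh_le hE hF ht)
  · exact (cont_ip Y).comp_continuousOn (continuousOn_const.prodMk (cont_Pt hE hab))
  · exact (cont_ip Y).comp_continuousOn ((cont_Pt hE hab).prodMk (cont_Pt hE hab))
  · exact hA.mono Y _ _ _ (nef_Pt hE hY hF hs) (nef_Pt hE hY hF ht) (Bh_mono hE hF hs ht hst)
  · have ht' : t ∈ Set.Icc (a : ℝ) b := ⟨hs.1.trans ht.1, ht.2⟩
    have h1 := ratio (conc hA hE hY hF hab) (fun _ => Real.sqrt_nonneg _) hs ht
    have h2 := pow_le_pow_left₀ (mul_nonneg (sub_nonneg.2 ht.2) (Real.sqrt_nonneg _)) h1 2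
    rwa [mul_pow, mul_pow, Real.sq_sqrt (hA.nef Y hY _ (nef_Pt hE hY hF hs)).2.2,
      Real.sq_sqrt (hA.nef Y hY _ (nef_Pt hE hY hF ht')).2.2] at h2
  · have ht' : t ∈ Set.Icc (a : ℝ) b := ⟨(Nat.cast_le.2 ha).trans ht.1, ht.2⟩
    refine hA.mono Y _ _ _ (nef_Pt hE hY hF ht') (nef_Pt hE hY hF ht) fun i => ?_
    rw [Bh_apply hE hF ht, Bh_apply hE hF ht']
    exact (hE.conv _ a b hab).2.2.2.2 a' ha t ht

end Pool.Agent.Lib.MP_a25055_ag
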