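import Pool.Agent.Lib.MP_a25055_ag.Num

/-! Block PW1: counting dimensions column by column. -/

open Module Finset

noncomputable section

namespace Pool.Agent.Lib.MP_a25055_ag

namespace NPW1

variable (hZ : St_ZAR) {Y : Tree} (hY : Y.Plane) {k : ℕ} {S : Sec Y k} (hC : S.Col)
  {Bt : Y.I →₀ ℝ} (h0 : 0 ≤ Bt)

include hZ hY hC h0

lemma step {U : Submodule ℂ S.V} (hU : U ≠ ⊥ → Bt ≤ toR (S.base U)) {j : Y.I} {n : ℕ}
    (hn : U ≤ S.vge j n) : (finrank ℂ U : ℝ) ≤ finrank ℂ ↥(U ⊓ S.vge j (n + 1)) +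
      (Y.hf ((k : ℝ) • Y.L) Bt j n + 1) := by
  have hf : 0 ≤ Y.hf ((k : ℝ) • Y.L) Bt j n := hZ.nef Y hY _ _ j
  by_cases h : U ≤ S.vge j (n + 1)
  · rw [inf_eq_left.2 h]
    linarith
  have hb : U ≠ ⊥ := fun e => h (e ▸ bot_le)
  have he : S.base U j = n := by
    have h1 := (S.le_base hb).2 hn
    have h2 := mt (S.le_base hb).1 h
    omega
  have h1 := hC U hb j
  have h2 := hZ.bound Y hY _ Bt _ j h0 (hU hb) (S.nef_mov hY hb)
  rw [toR_apply, he] at h2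
  rw [he] at h1
  exact h1.trans (by rw [add_assoc]; gcongr; exact h2)

omit hZ hY hC h0 in
lemma sub {U U' : Submodule ℂ S.V} (hU : U ≠ ⊥ → Bt ≤ toR (S.base U)) (h : U' ≤ U)
    (hb : U' ≠ ⊥) : Bt ≤ toR (S.base U') := fun i =>
  (hU (fun e => hb (le_bot_iff.1 (e ▸ h))) i).trans (by
    simpa using S.base_mono h hb i)

lemma col {U : Submodule ℂ S.V} (hU : U ≠ ⊥ → Bt ≤ toR (S.base U)) (j : Y.I) (R : ℕ) :
    (finrank ℂ U : ℝ) ≤ finrank ℂ ↥(U ⊓ S.vge j (⌈Bt j⌉₊ + R)) +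
      ∑ i ∈ Ico ⌈Bt j⌉₊ (⌈Bt j⌉₊ + R), (Y.hf ((k : ℝ) • Y.L) Bt j i + 1) := by
  induction R with
  | zero =>
    have : U ≤ S.vge j ⌈Bt j⌉₊ := by
      by_cases hb : U = ⊥
      · exact hb ▸ bot_le
      · exact (S.le_base hb).1 (Nat.ceil_le.2 (hU hb j))
    rw [add_zero, inf_eq_left.2 this]
    simp
  | succ R ih =>
    have h1 := step hZ hY hC h0 (U := U ⊓ S.vge j (⌈Bt j⌉₊ + R)) (sub hU inf_le_left) inf_le_right
    have h2 : S.vge j (⌈Bt j⌉₊ + R + 1) ≤ S.vge j (⌈Bt j⌉₊ + R) := fun s hs =>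
      hs.imp_right Nat.le_of_succ_le
    rw [inf_assoc, inf_eq_right.2 h2] at h1
    rw [← add_assoc, sum_Ico_succ_top (Nat.le_add_right _ _)]
    linarith

lemma all (SS : Finset Y.I) {U : Submodule ℂ S.V} (hU : U ≠ ⊥ → Bt ≤ toR (S.base U)) :
    (finrank ℂ U : ℝ) ≤ finrank ℂ (S.Up U Bt SS) +
      ∑ j ∈ SS, ∑ i ∈ Ico ⌈Bt j⌉₊ (⌈Bt j⌉₊ + 48), (Y.hf ((k : ℝ) • Y.L) Bt j i + 1) := by
  induction SS using Finset.induction_on with
  | empty =>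
    have : S.Up U Bt ∅ = U := by simp [Sec.Up]
    rw [this]
    simp
  | insert j SS hj ih =>
    have h1 := col hZ hY hC h0 (U := S.Up U Bt SS) (sub hU inf_le_left) j 48
    have h2 : S.Up U Bt (insert j SS) = S.Up U Bt SS ⊓ S.vge j (⌈Bt j⌉₊ + 48) := by
      rw [Sec.Up, Sec.Up, Finset.iInf_insert, inf_assoc, inf_comm (S.vge j _)]
    rw [h2, sum_insert hj]
    linarith

end NPW1

theorem pw1_of (hZ : St_ZAR) : St_PW1 := fun _ hY _ _ _ _ SS hC h0 h1 =>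
  NPW1.all hZ hY hC h0 SS fun _ => h1

end Pool.Agent.Lib.MP_a25055_ag
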