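import Pool.Agent.Lib.MP_a25055_ag.Num

open Finset

namespace Pool.Agent.Lib.MP_a25055_ag

namespace NPW2

variable {Y : Tree}

lemma toR_nonneg {ι : Type} (B : ι →₀ ℕ) : 0 ≤ toR B := fun i => by simp

lemma dv_single (j : Y.I) (x : ℝ) : Y.dv {j} (fun _ => x) = Finsupp.single j x := by
  simp [Tree.dv]

lemma one_le_sz (hY : Y.Plane) (i : Y.I) : 1 ≤ Y.sz i := by
  cases i with
  | inl Γ => simpa [Tree.sz] using hY.deg_pos Γ
  | inr q => simp [Tree.sz]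

lemma SS_props (hB : St_NB) (hY : Y.DP) {k c0 : ℕ} (hk : 0 < k) {Bc : Y.I →₀ ℝ} {Q : Finset Y.T}
    (h0 : 0 ≤ Bc) (hn : Y.Nef ((k : ℝ) • Y.L - Y.cl Bc)) (hQ : Y.QOK k c0 Bc Q) :
    (Y.SS k Bc Q).card ≤ c0 + 12 ∧
      ∀ j ∈ Y.SS k Bc Q, Y.On Q j ∧ Y.sz j ≤ 12 ∧ Y.A j ≤ 49 := by
  classical
  have hk' : (0 : ℝ) < k := by exact_mod_cast hk
  have hm := (hB.maxord Y hY k Bc h0 hn).2.1
  constructor
  · unfold Tree.SS
    refine (Finset.card_union_le _ _).trans (add_le_add (Finset.card_image_le.trans hQ.card) ?_)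
    have h1 := hm (Bc.support.filter fun i => i.isLeft ∧ (k : ℝ) / 4 < Bc i)
      fun i hi => (Finset.mem_filter.1 hi).2.1
    have h2 := Finset.card_nsmul_le_sum
      (Bc.support.filter fun i => i.isLeft ∧ (k : ℝ) / 4 < Bc i) (fun i => Bc i * Y.sz i)
      ((k : ℝ) / 4) fun i hi => by
        have h3 := (Finset.mem_filter.1 hi).2.2
        have h4 := one_le_sz hY.toPlane i
        nlinarith
    rw [nsmul_eq_mul] at h2
    have h3 : ((Bc.support.filter fun i => i.isLeft ∧ (k : ℝ) / 4 < Bc i).card : ℝ) ≤ 12 := by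
      by_contra h
      push Not at h
      nlinarith
    exact_mod_cast h3
  · intro j hj
    unfold Tree.SS at hj
    rcases Finset.mem_union.1 hj with h | h
    · obtain ⟨q, hq, rfl⟩ := Finset.mem_image.1 h
      refine ⟨hq, by simp [Tree.sz], ?_⟩
      have : (Y.disc q : ℝ) ≤ 48 := by exact_mod_cast hQ.disc q hq
      simp only [Tree.A]
      linarith
    · obtain ⟨-, h1, h2⟩ := Finset.mem_filter.1 h
      have h3 := hm {j} (by simpa using h1)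
      rw [Finset.sum_singleton] at h3
      cases j with
      | inr q => simp at h1
      | inl Γ =>
        refine ⟨trivial, ?_, by simp [Tree.A]⟩
        by_contra h4
        push Not at h4
        nlinarith

lemma conc (hZ : St_ZAR) (hY : Y.Plane) {D0 : Y.Cl} {B : Y.I →₀ ℝ} {F : Y.I} {c : ℝ} (h0 : 0 ≤ B)
    (hn : Y.Nef (D0 - Y.cl B))
    (hf : ∀ x ∈ Set.Icc (B F) c, Y.Feas D0 (B ⊔ Finsupp.single F x)) :
    ConcaveOn ℝ (Set.Icc (B F) c) (Y.hf D0 B F) :=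
  ⟨convex_Icc _ _, fun x hx y hy a b ha hb hab =>
    (hZ.conc Y hY D0 B B B F x y a b ha hb hab h0 h0 h0
      (by rw [← add_smul, hab, one_smul]) hn hn hx.1 hy.1 (hf x hx) (hf y hy)).2⟩

lemma absorb (hZ : St_ZAR) (hY : Y.Plane) {D0 : Y.Cl} {B : Y.I →₀ ℝ} {S : Finset Y.I}
    {y : Y.I → ℝ} {j : Y.I} (hj : j ∈ S) (h0 : 0 ≤ B) (hf : Y.Feas D0 (B ⊔ Y.dv S y)) :
    Y.dmin D0 (Y.bmin D0 (B ⊔ Finsupp.single j (y j)) ⊔ Y.dv S y) = Y.dmin D0 (B ⊔ Y.dv S y) := by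
  obtain ⟨h1, h2, -⟩ := hZ.least Y hY D0 _ hf
  obtain ⟨-, h3, h4⟩ := hZ.absorb Y hY D0 (B ⊔ Finsupp.single j (y j)) (Y.dv S y) _ hf
    (le_trans (sup_le le_sup_left fun i => by
      rw [Finsupp.sup_apply, Tree.dv_apply, Finsupp.single_apply]
      split_ifs with h5 h6 h6
      · subst h5; exact le_sup_right
      · exact absurd (h5 ▸ hj) h6
      · exact le_sup_of_le_left (h0 i)
      · exact le_sup_right) h1)
    (le_sup_right.trans h1) (sup_le_sup_right le_sup_left _)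
  rw [(hZ.least Y hY D0 _ h3).2.1, h4, h2]

end NPW2

open NPW2 in
theorem pw2_of (hB : St_NB) (hZ : St_ZAR) (hP : St_PF) (hL : St_LIP) (hR : St_RA) : St_PW2 := by
  intro c0 ε hε
  obtain ⟨C1, hC1, h1⟩ := hL (c0 + 12) ε hε
  obtain ⟨C2, hC2, h2⟩ := hL (c0 + 12) (ε / 4) (by positivity)
  have hc : (0 : ℝ) ≤ ((c0 + 12 : ℕ) : ℝ) * (588 * C2 + 108) := by positivity
  refine ⟨12 * C1 + C2 + ((c0 + 12 : ℕ) : ℝ) * (588 * C2 + 108), by positivity, ?_⟩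
  intro k Y hY S U0 U1 Bt Bc Q hk hX
  have hk0 : (0 : ℝ) < k := by linarith
  have hk1 : 0 < k := by exact_mod_cast hk0
  have ht0 : 0 ≤ Bt := (toR_nonneg _).trans hX.lo
  obtain ⟨hcard, hS⟩ := SS_props hB hY hk1 ((toR_nonneg _).trans hX.loc) hX.nefc hX.qok
  have hQ : Q.card ≤ c0 + 12 := hX.qok.card.trans (by omega)
  have L1 := fun (T : Finset Y.I) (x : Y.I → ℝ) (hT : T ⊆ Y.SS k Bc Q) =>
    h1 Y hY Q T k Bt x hX.qok.closed hQ hX.qok.disc ((Finset.card_le_card hT).trans hcard)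
      (fun j hj => ⟨(hS j (hT hj)).1, (hS j (hT hj)).2.1⟩) (by linarith) ht0 hX.nef hX.big
  have L2 : ∀ j ∈ Y.SS k Bc Q, ∀ x ≤ Bt j + 49, _ := fun j hj x hx => by
    have := L1 {j} (fun _ => x) (Finset.singleton_subset_iff.2 hj) (by simpa using hx)
    rw [dv_single] at this
    exact this
  have hcol : ∀ j ∈ Y.SS k Bc Q, ∀ x ∈ Set.Icc (Bt j) (Bt j + 49),
      Y.Feas ((k : ℝ) • Y.L) (Bt ⊔ Finsupp.single j x) ∧
      0 ≤ Y.hf ((k : ℝ) • Y.L) Bt j x ∧ Y.hf ((k : ℝ) • Y.L) Bt j x ≤ 36 * k ∧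
      Y.hf ((k : ℝ) • Y.L) Bt j (Bt j) ≤ Y.hf ((k : ℝ) • Y.L) Bt j x + 12 * C1 := by
    intro j hj x hx
    obtain ⟨a1, -, a2⟩ := L2 j hj x hx.2
    obtain ⟨b1, b2, b3, -⟩ := hZ.least Y hY.toPlane _ _ a1
    have b4 := (hS j hj).2.1
    refine ⟨a1, hZ.nef Y hY.toPlane _ _ j, ?_, ?_⟩
    · rw [b2] at b3
      have := (hB.maxord Y hY k _ (ht0.trans (le_sup_left.trans b1)) b3).2.2.1 j
      rw [Tree.hf, b2]
      nlinarith
    · have := (a2 j (hS j hj).1).2.1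
      rw [hZ.self Y hY.toPlane _ _ j ht0 hX.nef, Tree.hf]
      nlinarith
  have hx : ∀ j, Bt j ≤ ((⌈Bt j⌉₊ + 48 : ℕ) : ℝ) ∧ ((⌈Bt j⌉₊ + 48 : ℕ) : ℝ) ≤ Bt j + 49 := fun j => by
    have a1 := Nat.le_ceil (Bt j)
    have a2 := Nat.ceil_lt_add_one (ht0 j)
    push_cast
    constructor <;> linarith
  have hF : Y.Feas ((k : ℝ) • Y.L) (Y.Xs Bt (Y.SS k Bc Q)) :=
    (L1 _ _ subset_rfl fun j _ => (hx j).2).1
  refine ⟨hcard, fun j hj => ⟨(hS j hj).1, (hS j hj).2.1, (hS j hj).2.2, fun x hx => ?_⟩, hF, ?_⟩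
  · obtain ⟨a1, a2, a3, a4⟩ := hcol j hj x hx
    exact ⟨a1, a2, a3, by linarith⟩
  have key := hP.multi Y hY.toPlane ((k : ℝ) • Y.L) Bt (Y.SS k Bc Q)
    (fun j => ((⌈Bt j⌉₊ + 48 : ℕ) : ℝ)) (12 * C2) ht0 hX.nef (fun j _ => (hx j).1) hF
    (fun s hs j hj => by
      have hy : ∀ i, Bt i + s * (((⌈Bt i⌉₊ + 48 : ℕ) : ℝ) - Bt i) ≤ Bt i + 49 := fun i => by
        nlinarith [hx i, hs.1, hs.2]
      obtain ⟨a1, a2, -⟩ := L2 j hj _ (hy j)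
      obtain ⟨b1, b2, b3, -⟩ := hZ.least Y hY.toPlane _ _ a1
      have b4 := le_sup_left.trans b1
      have c1 := (h2 Y hY Q (Y.SS k Bc Q) k _
        (fun i => Bt i + s * (((⌈Bt i⌉₊ + 48 : ℕ) : ℝ) - Bt i)) hX.qok.closed hQ hX.qok.disc hcard
        (fun j hj => ⟨(hS j hj).1, (hS j hj).2.1⟩) (by linarith) (ht0.trans b4) (b2 ▸ b3)
        (by rw [← b2]; linarith [hX.big]) (fun i _ => by linarith [hy i, b4 i])).2.2 j (hS j hj).1
      have c2 := c1.2.1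
      rw [absorb hZ hY.toPlane hj ht0 (L1 _ _ subset_rfl fun i _ => hy i).1, ← b2] at c2
      have b5 := (hS j hj).2.1
      rw [Tree.hf]
      nlinarith)
  have k1 : ∑ j ∈ Y.SS k Bc Q, (∑ m ∈ Ioc ⌊k * Bt j⌋₊ (k * (⌈Bt j⌉₊ + 48)),
      Y.hf ((k : ℝ) • Y.L) Bt j (m / k)) / k ≤ ∑ j ∈ Y.SS k Bc Q,
      ((∫ u in Bt j..((⌈Bt j⌉₊ + 48 : ℕ) : ℝ), Y.hf ((k : ℝ) • Y.L) Bt j u) + 108) := by
    refine Finset.sum_le_sum fun j hj => ?_
    have := hR.riem (Y.hf ((k : ℝ) • Y.L) Bt j) (Bt j) (36 * k) (⌈Bt j⌉₊ + 48) k (ht0 j) (hx j).1 hk1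
      (conc hZ hY.toPlane ht0 hX.nef fun x h => (hcol j hj x ⟨h.1, h.2.trans (hx j).2⟩).1)
      fun x h => ⟨(hcol j hj x ⟨h.1, h.2.trans (hx j).2⟩).2.1,
        (hcol j hj x ⟨h.1, h.2.trans (hx j).2⟩).2.2.1⟩
    refine this.trans (le_of_eq ?_)
    congr 1
    field_simp
    norm_num
  have k2 : ∑ j ∈ Y.SS k Bc Q, (((⌈Bt j⌉₊ + 48 : ℕ) : ℝ) - Bt j) ≤ (Y.SS k Bc Q).card • (49 : ℝ) :=
    Finset.sum_le_card_nsmul _ _ _ fun j _ => by linarith [(hx j).2]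
  have k3 : ((Y.SS k Bc Q).card : ℝ) ≤ ((c0 + 12 : ℕ) : ℝ) := by exact_mod_cast hcard
  rw [Finset.sum_add_distrib, Finset.sum_const, nsmul_eq_mul] at k1
  rw [nsmul_eq_mul] at k2
  have k4 := mul_le_mul_of_nonneg_left k2 (show 0 ≤ 12 * C2 by positivity)
  have k5 := mul_le_mul_of_nonneg_right k3 (show 0 ≤ 588 * C2 + 108 by positivity)
  refine k1.trans ?_
  unfold Tree.Xs
  nlinarith

end Pool.Agent.Lib.MP_a25055_ag
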