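import Pool.Agent.Lib.MP_a25055_ag.Num

/-! The local alternatives of the pointwise estimate. -/

open Module Finset

namespace Pool.Agent.Lib.MP_a25055_ag

namespace NPW3

variable {Y : Tree}

lemma single_le {B : Y.I →₀ ℝ} (hB : 0 ≤ B) {i : Y.I} {x : ℝ} (hx : x ≤ B i) :
    Finsupp.single i x ≤ B := fun j => by
  classical
  rw [Finsupp.single_apply]
  split_ifs with h
  · exact h ▸ hx
  · exact hB j

lemma sz_nonneg (i : Y.I) : 0 ≤ Y.sz i := by
  cases i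
  · exact Nat.cast_nonneg _
  · exact zero_le_one

/-- Concavity of the restricted volume between the base and a nef competitor. -/
lemma conc (hZ : St_ZAR) (hY : Y.Plane) {D0 : Y.Cl} {Bt B' : Y.I →₀ ℝ} (h0 : 0 ≤ Bt)
    (hn : Y.Nef (D0 - Y.cl Bt)) (hle : Bt ≤ B') (hn' : Y.Nef (D0 - Y.cl B')) (i : Y.I) {x : ℝ}
    (h1 : Bt i ≤ x) (h2 : x ≤ B' i) :
    (x - Bt i) * Y.ip (D0 - Y.cl B') (Y.gam i) ≤ (B' i - Bt i) * Y.hf D0 Bt i x := by
  rcases (h1.trans h2).eq_or_lt with h | h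
  · rw [show x = Bt i by linarith, ← h]; simp
  have hd : 0 < B' i - Bt i := by linarith
  have hb := hZ.bound Y hY D0 Bt B' i h0 hle hn'
  have ha : (B' i - x) / (B' i - Bt i) + (x - Bt i) / (B' i - Bt i) = 1 := by
    field_simp; ring
  have p1 : 0 ≤ (B' i - x) / (B' i - Bt i) := div_nonneg (by linarith) hd.le
  have p2 : 0 ≤ (x - Bt i) / (B' i - Bt i) := div_nonneg (by linarith) hd.le
  have hc := (hZ.conc Y hY D0 Bt Bt Bt i (Bt i) (B' i) _ _ p1 p2 ha h0 h0 h0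
    (by rw [← add_smul, ha, one_smul]) hn hn le_rfl h.le
    ⟨Bt, sup_le le_rfl (single_le h0 le_rfl), hn⟩
    ⟨B', sup_le hle (single_le (h0.trans hle) le_rfl), hn'⟩).2
  have e : (B' i - x) / (B' i - Bt i) * Bt i + (x - Bt i) / (B' i - Bt i) * B' i = x := by
    field_simp; ring
  rw [e] at hc
  have p3 : 0 ≤ Y.hf D0 Bt i (Bt i) := hZ.nef Y hY _ _ i
  have p4 : (x - Bt i) / (B' i - Bt i) * Y.hf D0 Bt i (B' i) ≤ Y.hf D0 Bt i x := by
    linarith [mul_nonneg p1 p3]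
  rw [div_mul_eq_mul_div, div_le_iff₀ hd] at p4
  linarith [mul_le_mul_of_nonneg_left hb (sub_nonneg.2 h1)]

/-- If the final class is orthogonal to a prime, the restricted volume is bounded. -/
lemma key (hA : St_NA) (hZ : St_ZAR) (hY : Y.Plane) {D0 : Y.Cl} {Bt X : Y.I →₀ ℝ} {v c : ℝ}
    {i : Y.I} (h0 : 0 ≤ Bt) (hF : Y.Feas D0 (Bt ⊔ X)) (hv : v ≤ Y.sq (Y.dmin D0 (Bt ⊔ X)))
    (hL : ∀ B1, Bt ≤ B1 → Y.Nef (D0 - Y.cl B1) → v ≤ Y.sq (D0 - Y.cl B1) →
      Y.ip (D0 - Y.cl B1) (Y.gam i) ≤ Y.ip (Y.dmin D0 (B1 ⊔ X)) (Y.gam i) + c)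
    (hW : (Bt ⊔ X) i < Y.bmin D0 (Bt ⊔ X) i) {x : ℝ} (hx : x ≤ Y.bmin D0 (Bt ⊔ X) i) :
    Y.hf D0 Bt i x ≤ c := by
  obtain ⟨a1, a2, a3, -, a5⟩ := hZ.least Y hY D0 _ hF
  have b0 : Bt ≤ Y.bmin D0 (Bt ⊔ X) := le_sup_left.trans a1
  have b1 : Bt ⊔ Finsupp.single i x ≤ Y.bmin D0 (Bt ⊔ X) :=
    sup_le b0 (single_le (h0.trans b0) hx)
  obtain ⟨c1, c2, c3⟩ := hZ.absorb Y hY D0 (Bt ⊔ Finsupp.single i x) X (Bt ⊔ X) hF b1
    (le_sup_right.trans a1) (sup_le_sup_right le_sup_left _)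
  obtain ⟨d1, d2, d3, d4, -⟩ := hZ.least Y hY D0 _ c1
  rw [a2] at a3 hv
  rw [d2] at d3
  have e1 := hA.mono Y D0 _ _ d3 a3 (d4 _ b1 a3)
  have e2 := hL _ (le_sup_left.trans d1) d3 (hv.trans e1)
  rw [(hZ.least Y hY D0 _ c2).2.1, c3, ← a2, a5 i hW, zero_add] at e2
  rw [Tree.hf, d2]
  exact e2

end NPW3

open NPW3 in
theorem pw3_of (hA : St_NA) (hZ : St_ZAR) (hL : St_LIP) (h2 : St_PW2) : St_PW3 := by
  intro c0 ε hε
  obtain ⟨C0, hC0, H0⟩ := h2 c0 ε hε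
  obtain ⟨C1, hC1, H1⟩ := hL (c0 + 12) ε hε
  obtain ⟨C2, hC2, H2⟩ := hL (c0 + 12) (ε / 4) (by positivity)
  have hp : 0 < (C1 + 1) * C2 := by positivity
  refine ⟨C0 + C1 + 3 * C2 + (C1 + 1) * C2, by positivity, ?_⟩
  intro k Y hY S U0 U1 Bt Bc Q hk X U' hU' hne BW hBW
  obtain ⟨g1, g2, g3, -⟩ := H0 k Y hY S U0 U1 Bt Bc Q (by linarith) X
  set SS := Y.SS k Bc Q with hSS
  set D0 : Y.Cl := (k : ℝ) • Y.L with hD0
  set top : Y.I → ℝ := fun j => ((⌈Bt j⌉₊ + 48 : ℕ) : ℝ) with htop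
  have hXs : Y.Xs Bt SS = Bt ⊔ Y.dv SS top := rfl
  rw [hXs] at hBW g3
  have h0 : 0 ≤ Bt := le_trans (fun i => Nat.cast_nonneg (S.base U0 i)) X.lo
  have t1 : ∀ j, top j ≤ Bt j + 49 := fun j => by
    have := (Nat.ceil_lt_add_one (h0 j : 0 ≤ Bt j)).le
    simp only [htop]; push_cast; linarith
  have t2 : ∀ j, Bt j + 48 ≤ top j := fun j => by
    have := Nat.le_ceil (Bt j)
    simp only [htop]; push_cast; linarith
  have hcard : Q.card ≤ c0 + 12 := X.qok.card.trans (Nat.le_add_right _ _)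
  have hon : ∀ j ∈ SS, Y.On Q j ∧ Y.sz j ≤ 12 := fun j hj => ⟨(g2 j hj).1, (g2 j hj).2.1⟩
  obtain ⟨-, l2, l3⟩ := H1 Y hY Q SS k Bt top X.qok.closed hcard X.qok.disc g1 hon (by linarith)
    h0 X.nef X.big fun j _ => t1 j
  have hkey : ∀ i, Y.On Q i → (Bt ⊔ Y.dv SS top) i < BW i → ∀ x, x ≤ BW i →
      Y.hf D0 Bt i x ≤ C2 * Y.sz i := fun i hi hW x hx => by
    rw [hBW] at hW hx
    refine key hA hZ hY.toPlane (v := ε / 4 * (k : ℝ) ^ 2) h0 g3 (by linarith [X.big])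
      (fun B1 b1 b2 b3 => ?_) hW hx
    exact ((H2 Y hY Q SS k B1 top X.qok.closed hcard X.qok.disc g1 hon (by linarith)
      (h0.trans b1) b2 b3 fun j _ => (t1 j).trans (by linarith [b1 j])).2.2 i hi).2.1
  have hM : Y.Nef (D0 - Y.cl (toR (S.base U'))) := S.nef_mov hY.toPlane hne
  have u1 : Bt ≤ toR (S.base U') := X.hi.trans fun i => by
    have := S.base_mono (hU'.le.trans inf_le_left) hne i
    simp only [toR_apply]; exact_mod_cast this
  have u2 : ∀ j ∈ SS, ⌈Bt j⌉₊ + 48 ≤ S.base U' j := fun j hj =>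
    (S.le_base hne).2 (hU'.le.trans (inf_le_right.trans (iInf₂_le j hj)))
  have u3 : Y.dv SS top ≤ toR (S.base U') := fun j => by
    rw [Tree.dv_apply, toR_apply]
    split_ifs with hj
    · simp only [htop]; exact_mod_cast u2 j hj
    · exact Nat.cast_nonneg _
  obtain ⟨a1, -, -, a4, -⟩ := hZ.least Y hY.toPlane D0 _ g3
  rw [← hBW] at a1 a4 l3
  have hB : BW ≤ toR (S.base U') := a4 _ (sup_le u1 u3) hM
  have hconc : ∀ i x, Bt i ≤ x → x ≤ S.base U' i → (x - Bt i) * Y.ip (S.mov U') (Y.gam i) ≤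
      (S.base U' i - Bt i) * Y.hf D0 Bt i x := fun i x =>
    conc hZ hY.toPlane h0 X.nef u1 hM i (x := x)
  refine ⟨hB, fun j hj => ?_, fun i hi hl => ?_⟩
  · have m0 : 0 ≤ Y.ip (S.mov U') (Y.gam j) := hM j
    have x1 : (Bt ⊔ Y.dv SS top) j = top j := by
      rw [Finsupp.sup_apply, Tree.dv_apply, if_pos hj]
      exact sup_eq_right.2 (by linarith [t2 j])
    have x2 : top j ≤ BW j := x1 ▸ a1 j
    rcases x2.eq_or_lt with h | h
    · rcases (u2 j hj).eq_or_lt with h' | h'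
      · refine Or.inr (Or.inr ⟨h'.symm, ?_⟩)
        have := hZ.bound Y hY.toPlane D0 Bt _ j h0 u1 hM
        rwa [toR_apply, ← h'] at this
      · left
        have : ((⌈Bt j⌉₊ + 48 + 1 : ℕ) : ℝ) ≤ S.base U' j := by exact_mod_cast h'
        rw [← h]; simp only [htop]; push_cast at this ⊢; linarith
    · by_cases hz : 1 ≤ S.base U' j - BW j
      · exact Or.inl hz
      refine Or.inr (Or.inl ?_)
      have k1 := hkey j (hon j hj).1 (x1 ▸ h) _ x2
      have k2 := hconc j (top j) (by linarith [t2 j]) (x2.trans (hB j))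
      have k3 := (l3 j (hon j hj).1).1
      have k4 : 0 ≤ Y.hf D0 Bt j (top j) := hZ.nef Y hY.toPlane _ _ j
      have k5 : Y.hf D0 Bt j (top j) ≤ C2 * 12 :=
        k1.trans (mul_le_mul_of_nonneg_left (hon j hj).2 hC2.le)
      have k6 : (S.base U' j - Bt j) * Y.hf D0 Bt j (top j) ≤ (C1 + 1) * (C2 * 12) :=
        mul_le_mul (by linarith) k5 k4 (by linarith)
      have k7 : 48 * Y.ip (S.mov U') (Y.gam j) ≤ (top j - Bt j) * Y.ip (S.mov U') (Y.gam j) :=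
        mul_le_mul_of_nonneg_right (by linarith [t2 j]) m0
      nlinarith
  · have m0 : 0 ≤ Y.ip (S.mov U') (Y.gam i) := hM i
    have s0 := sz_nonneg i
    have hon' : Y.On Q i := by
      cases i
      · trivial
      · simp at hl
    have x1 : (Bt ⊔ Y.dv SS top) i = Bt i := by
      rw [Finsupp.sup_apply, Tree.dv_apply, if_neg hi]
      exact sup_eq_left.2 (h0 i)
    have x2 : Bt i ≤ BW i := x1 ▸ a1 i
    have x3 : BW i ≤ S.base U' i := hB i
    have n1 : min (S.base U' i - Bt i) 1 ≤ S.base U' i - Bt i := min_le_left _ _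
    have n2 : min (S.base U' i - Bt i) 1 ≤ (1 : ℝ) := min_le_right _ _
    have c0' : 3 * C2 * Y.sz i ≤ (C0 + C1 + 3 * C2 + (C1 + 1) * C2) * Y.sz i :=
      mul_le_mul_of_nonneg_right (by linarith) s0
    have c1' : 0 ≤ C2 * Y.sz i := by positivity
    by_cases hz : 3 / 4 * (S.base U' i - Bt i) ≤ S.base U' i - BW i
    · have := mul_le_mul_of_nonneg_right
        (show 3 / 4 * min (S.base U' i - Bt i) 1 ≤ S.base U' i - BW i by linarith) m0
      linarith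
    · have h : Bt i < BW i := by linarith
      have k1 := hkey i hon' (x1 ▸ h) _ le_rfl
      have k2 := hconc i (BW i) x2 x3
      have k3 : (S.base U' i - Bt i) * Y.hf D0 Bt i (BW i) ≤
          (S.base U' i - Bt i) * (C2 * Y.sz i) := mul_le_mul_of_nonneg_left k1 (by linarith)
      have k4 : (S.base U' i - Bt i) / 4 * Y.ip (S.mov U') (Y.gam i) ≤
          (BW i - Bt i) * Y.ip (S.mov U') (Y.gam i) := mul_le_mul_of_nonneg_right (by linarith) m0
      have k5 : Y.ip (S.mov U') (Y.gam i) ≤ 4 * (C2 * Y.sz i) :=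
        le_of_mul_le_mul_left (a := S.base U' i - Bt i) (by linarith) (by linarith)
      have k6 := mul_le_mul_of_nonneg_right n2 m0
      have k7 := mul_nonneg (sub_nonneg.2 x3) m0
      linarith

end Pool.Agent.Lib.MP_a25055_ag
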