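import Pool.Agent.Lib.MP_a25055_ag.Num

/-! Block RA: five lemmas of real analysis. -/

open MeasureTheory Set intervalIntegral

namespace Pool.Agent.Lib.MP_a25055_ag

namespace NRA

lemma level {s e c H : ℝ} {b m : ℝ → ℝ} (hc : ContinuousOn b (Icc s e))
    (hv : ConvexOn ℝ (Icc s e) b) (hs : s < e → b s ≤ c - 1) (hb : ∀ t ∈ Ioo s e, b t ≤ c)
    (hm : AntitoneOn m (Ioo s e)) (hH : ∀ t ∈ Ioo s e, 0 ≤ m t ∧ m t ≤ H) :
    IntegrableOn (fun t => (min (c - b t) 1 - 1 / 2) * m t) (Ioo s e) ∧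
      0 ≤ ∫ t in Ioo s e, (min (c - b t) 1 - 1 / 2) * m t := by
  rcases le_or_gt e s with h | h
  · simp [Ioo_eq_empty_of_le h]
  have he : b e ≤ c := by
    have h1 : e ∈ closure (Ioo s e) := by rw [closure_Ioo h.ne]; exact right_mem_Icc.mpr h.le
    exact ContinuousWithinAt.closure_le h1
      ((hc e (right_mem_Icc.mpr h.le)).mono Ioo_subset_Icc_self) continuousWithinAt_const hb
  have im : IntegrableOn m (Ioo s e) :=
    .of_bound measure_Ioo_lt_top
      (aemeasurable_restrict_of_antitoneOn measurableSet_Ioo hm).aestronglyMeasurable H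
      (ae_restrict_of_forall_mem measurableSet_Ioo fun t ht => by
        rw [Real.norm_of_nonneg (hH t ht).1]; exact (hH t ht).2)
  have i1 : IntegrableOn (fun t => (min (c - b t) 1 - 1 / 2) * m t) (Ioo s e) :=
    IntegrableOn.continuousOn_mul_of_subset
      (((continuousOn_const.sub hc).inf continuousOn_const).sub continuousOn_const) im
      isCompact_Icc measurableSet_Ioo Ioo_subset_Icc_self
  refine ⟨i1, ?_⟩
  have hd : 0 < e - s := sub_pos.mpr h
  have hmid : (s + e) / 2 ∈ Ioo s e := ⟨by linarith, by linarith⟩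
  have i2 : Continuous fun t => ((s + e) / 2 - t) * (m ((s + e) / 2) / (e - s)) := by fun_prop
  refine le_trans (le_of_eq ?_) (setIntegral_mono_on
    (i2.integrableOn_Icc.mono_set Ioo_subset_Icc_self) i1 measurableSet_Ioo fun t ht => ?_)
  · rw [← integral_Ioc_eq_integral_Ioo, ← integral_of_le h.le,
      intervalIntegral.integral_mul_const, intervalIntegral.integral_sub (by simp) (by simp), integral_id, intervalIntegral.integral_const, smul_eq_mul]
    ring
  · obtain ⟨h1, h2⟩ := ht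
    have h3 := hv.2 (left_mem_Icc.mpr h.le) (right_mem_Icc.mpr h.le)
      (div_nonneg (sub_nonneg.mpr h2.le) hd.le) (div_nonneg (sub_nonneg.mpr h1.le) hd.le)
      (by field_simp; ring)
    have h4 : (e - t) / (e - s) + (t - s) / (e - s) = 1 := by field_simp; ring
    rw [smul_eq_mul, smul_eq_mul, smul_eq_mul, smul_eq_mul,
      show (e - t) / (e - s) * s + (t - s) / (e - s) * e = t by field_simp; ring] at h3
    have h5 : 0 ≤ (e - t) / (e - s) := div_nonneg (sub_nonneg.mpr h2.le) hd.le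
    have h6 : 0 ≤ (t - s) / (e - s) := div_nonneg (sub_nonneg.mpr h1.le) hd.le
    have h7 : (e - t) / (e - s) ≤ min (c - b t) 1 := le_min (by
      have := mul_le_mul_of_nonneg_left (hs h) h5
      have := mul_le_mul_of_nonneg_left he h6
      have := congrArg (· * c) h4
      linarith) (by linarith)
    have h8 : ((s + e) / 2 - t) * m ((s + e) / 2) ≤ ((s + e) / 2 - t) * m t := by
      rcases le_total t ((s + e) / 2) with h9 | h9
      · exact mul_le_mul_of_nonneg_left (hm ⟨h1, h2⟩ hmid h9) (sub_nonneg.mpr h9)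
      · exact mul_le_mul_of_nonpos_left (hm hmid ⟨h1, h2⟩ h9) (sub_nonpos.mpr h9)
    calc _ = ((s + e) / 2 - t) * m ((s + e) / 2) / (e - s) := by ring
      _ ≤ ((s + e) / 2 - t) * m t / (e - s) := div_le_div_of_nonneg_right h8 hd.le
      _ = ((e - t) / (e - s) - 1 / 2) * m t := by field_simp; ring
      _ ≤ _ := mul_le_mul_of_nonneg_right (by linarith) (hH t ⟨h1, h2⟩).1

lemma cheb (α β H : ℝ) (a : ℝ → ℕ) (a0 : ℕ) (b m : ℝ → ℝ) (hαβ : α ≤ β)
    (ha : MonotoneOn a (Ioc α β)) (hv : ConvexOn ℝ (Icc α β) b) (hc : ContinuousOn b (Icc α β))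
    (h0 : b α ≤ a0) (h1 : ∀ t ∈ Ioc α β, b t ≤ a t ∧ 0 ≤ m t ∧ m t ≤ H)
    (h2 : ∀ s ∈ Ioc α β, ∀ t ∈ Ioc α β, s ≤ t → a s = a t → m t ≤ m s) :
    IntervalIntegrable (fun t => if a0 < a t then (min (a t - b t) 1 - 1 / 2) * m t else 0)
      volume α β ∧ 0 ≤ ∫ t in α..β, if a0 < a t then (min (a t - b t) 1 - 1 / 2) * m t else 0 := by
  let S : ℕ → Set ℝ := fun c => {t | t ∈ Ioc α β ∧ a t = c}
  let f : ℕ → ℝ → ℝ := fun c t => (min (c - b t) 1 - 1 / 2) * m t
  have hoc : ∀ c, (S c).OrdConnected := fun c => ⟨fun x hx y hy t ht => by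
    have ht' : t ∈ Ioc α β := ⟨hx.1.1.trans_le ht.1, ht.2.trans hy.1.2⟩
    exact ⟨ht', le_antisymm (hy.2 ▸ ha ht' hy.1 ht.2) (hx.2 ▸ ha hx.1 ht' ht.1)⟩⟩
  have key : ∀ c, a0 < c → IntegrableOn (f c) (S c) ∧ 0 ≤ ∫ t in S c, f c t := fun c hc0 => by
    rcases (S c).eq_empty_or_nonempty with h | h
    · simp [h]
    have bb : BddBelow (S c) := ⟨α, fun t ht => ht.1.1.le⟩
    have ba : BddAbove (S c) := ⟨β, fun t ht => ht.1.2⟩
    have s1 : Ioo (sInf (S c)) (sSup (S c)) ⊆ S c := fun t ht => by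
      obtain ⟨x, hx, hx'⟩ := exists_lt_of_csInf_lt h ht.1
      obtain ⟨y, hy, hy'⟩ := exists_lt_of_lt_csSup h ht.2
      exact (hoc c).out hx hy ⟨hx'.le, hy'.le⟩
    have s2 : S c ⊆ Icc (sInf (S c)) (sSup (S c)) := fun t ht => ⟨csInf_le bb ht, le_csSup ba ht⟩
    have s3 : α ≤ sInf (S c) := le_csInf h fun t ht => ht.1.1.le
    have s4 : sSup (S c) ≤ β := csSup_le h fun t ht => ht.1.2
    have s5 : S c =ᵐ[volume] Ioo (sInf (S c)) (sSup (S c)) :=
      (s2.eventuallyLE.trans Ioo_ae_eq_Icc.symm.le).antisymm s1.eventuallyLE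
    have hc1 : (a0 : ℝ) ≤ c - 1 := by
      rw [le_sub_iff_add_le]; exact_mod_cast hc0
    obtain ⟨l1, l2⟩ := level (c := c) (H := H) (m := m) (hc.mono (Icc_subset_Icc s3 s4))
      (hv.subset (Icc_subset_Icc s3 s4) (convex_Icc _ _)) (fun hlt => by
        rcases s3.eq_or_lt with e | e
        · rw [← e]; exact h0.trans hc1
        · have h3 : sInf (S c) ∈ closure (Ioo α (sInf (S c))) := by
            rw [closure_Ioo e.ne]; exact right_mem_Icc.mpr e.le
          refine ContinuousWithinAt.closure_le h3 ((hc _ ⟨s3, hlt.le.trans s4⟩).mono fun t ht =>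
            ⟨ht.1.le, ht.2.le.trans (hlt.le.trans s4)⟩) continuousWithinAt_const fun t ht => ?_
          have ht' : t ∈ Ioc α β := ⟨ht.1, ht.2.le.trans (hlt.le.trans s4)⟩
          obtain ⟨x, hx⟩ := h
          have h4 : a t < c := lt_of_le_of_ne (hx.2 ▸ ha ht' hx.1 (ht.2.le.trans (s2 hx).1))
            fun h5 => (csInf_le bb ⟨ht', h5⟩).not_gt ht.2
          refine (h1 t ht').1.trans ?_
          rw [le_sub_iff_add_le]; exact_mod_cast h4)
      (fun t ht => (s1 ht).2 ▸ (h1 t (s1 ht).1).1)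
      (fun s hs t ht hst => h2 s (s1 hs).1 t (s1 ht).1 hst ((s1 hs).2.trans (s1 ht).2.symm))
      fun t ht => (h1 t (s1 ht).1).2
    exact ⟨l1.congr_set_ae s5, by rw [setIntegral_congr_set s5]; exact l2⟩
  have hG : (Ioc α β).indicator (fun t => if a0 < a t then (min (a t - b t) 1 - 1 / 2) * m t else 0) =
      fun t => ∑ c ∈ Finset.Ioc a0 (a β), (S c).indicator (f c) t := by
    funext t
    by_cases ht : t ∈ Ioc α β
    · have h3 : a t ≤ a β := ha ht ⟨ht.1.trans_le ht.2, le_rfl⟩ ht.2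
      simp only [indicator_apply, S, mem_ofPred_eq, ht, true_and, if_true, Finset.sum_ite_eq,
        Finset.mem_Ioc, h3, and_true, f]
    · rw [indicator_of_notMem ht]
      exact (Finset.sum_eq_zero fun c _ => indicator_of_notMem (fun h => ht h.1) _).symm
  have hI : ∀ c ∈ Finset.Ioc a0 (a β), Integrable ((S c).indicator (f c)) := fun c hc =>
    (integrable_indicator_iff (hoc c).measurableSet).mpr (key c (Finset.mem_Ioc.mp hc).1).1
  rw [intervalIntegrable_iff_integrableOn_Ioc_of_le hαβ, integral_of_le hαβ,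
    ← integrable_indicator_iff measurableSet_Ioc,
    ← MeasureTheory.integral_indicator measurableSet_Ioc, hG, integral_finsetSum _ hI]
  refine ⟨integrable_finsetSum _ hI, Finset.sum_nonneg fun c hc => ?_⟩
  rw [MeasureTheory.integral_indicator (hoc c).measurableSet]
  exact (key c (Finset.mem_Ioc.mp hc).1).2

lemma incr {e : ℝ → ℝ} {D : Set ℝ} (hv : ConvexOn ℝ D e) {x y P : ℝ} (hx : x ∈ D) (hy : y + P ∈ D)
    (hxy : x ≤ y) (hP : 0 ≤ P) : e (x + P) + e y ≤ e x + e (y + P) := by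
  rcases hP.eq_or_lt with rfl | hP'
  · simp
  have hd : 0 < y + P - x := by linarith
  have h1 : 0 ≤ P / (y + P - x) := by positivity
  have h2 : 0 ≤ (y - x) / (y + P - x) := div_nonneg (sub_nonneg.mpr hxy) hd.le
  have h3 : (y - x) / (y + P - x) + P / (y + P - x) = 1 := by field_simp; ring
  have h4 := hv.2 hx hy h2 h1 h3
  have h5 := hv.2 hx hy h1 h2 (by linarith)
  simp only [smul_eq_mul] at h4 h5
  rw [show (y - x) / (y + P - x) * x + P / (y + P - x) * (y + P) = x + P by field_simp; ring] at h4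
  rw [show P / (y + P - x) * x + (y - x) / (y + P - x) * (y + P) = y by field_simp; ring] at h5
  have h6 : (y - x) / (y + P - x) = 1 - P / (y + P - x) := by linarith
  rw [h6] at h4 h5
  linarith

lemma jen (a b : ℕ) (e p φ : ℝ → ℝ) (hab : a ≤ b) (hv : ConvexOn ℝ (Icc (a : ℝ) b) e)
    (hm : MonotoneOn e (Icc (a : ℝ) b)) (hl : PL e a b) (hp : AntitoneOn p (Icc (a : ℝ) b))
    (hφ : Antitone φ) (h : ∀ t ∈ Icc (a : ℝ) b, 0 ≤ p t ∧ p t ≤ 1 ∧ p t ≤ φ (e t)) :
    e (a + ∫ t in (a : ℝ)..b, p t) ≤ e a + ∫ x in e a..e b, φ x := by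
  have ip : ∀ x y : ℝ, a ≤ x → x ≤ y → y ≤ b → IntervalIntegrable p volume x y ∧
      0 ≤ ∫ t in x..y, p t ∧ ∫ t in x..y, p t ≤ y - x := fun x y h1 h2 h3 => by
    have hs : Icc x y ⊆ Icc (a : ℝ) b := Icc_subset_Icc h1 h3
    have h4 : IntervalIntegrable p volume x y :=
      (hp.mono (uIcc_of_le h2 ▸ hs)).intervalIntegrable
    refine ⟨h4, integral_nonneg h2 fun t ht => (h t (hs ht)).1, ?_⟩
    simpa using integral_mono_on h2 h4 (g := fun _ => 1) (by simp) fun t ht => (h t (hs ht)).2.1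
  suffices H : ∀ n, a ≤ n → n ≤ b →
      e (a + ∫ t in (a : ℝ)..n, p t) ≤ e a + ∫ x in e a..e n, φ x from H b hab le_rfl
  intro n hn
  induction n, hn using Nat.le_induction with
  | base => simp
  | succ n hn ih =>
    intro hb
    have hn' : (a : ℝ) ≤ n := by exact_mod_cast hn
    have hb' : (n : ℝ) + 1 ≤ b := by exact_mod_cast hb
    obtain ⟨i1, i2, i3⟩ := ip a n le_rfl hn' (by linarith)
    obtain ⟨j1, j2, j3⟩ := ip n (n + 1) hn' (by linarith) hb'
    have hσ : 0 ≤ e (n + 1) - e n :=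
      sub_nonneg.mpr (hm ⟨hn', by linarith⟩ ⟨by linarith, hb'⟩ (by linarith))
    have h1 := incr hv (x := a + ∫ t in (a : ℝ)..n, p t) (y := n) ⟨by linarith, by linarith⟩
      ⟨by linarith, by linarith⟩ (by linarith) j2
    have h2 := hl n hn hb (n + ∫ t in (n : ℝ)..n + 1, p t) ⟨by linarith, by linarith⟩
    have h3 := mul_integral_comp_mul_add (f := φ) (a := n) (b := n + 1) (e (n + 1) - e n)
      (e n - (e (n + 1) - e n) * n)
    rw [show (e (n + 1) - e n) * n + (e n - (e (n + 1) - e n) * n) = e n by ring,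
      show (e (n + 1) - e n) * (n + 1) + (e n - (e (n + 1) - e n) * n) = e (n + 1) by ring] at h3
    have h4 : ∫ t in (n : ℝ)..n + 1, p t ≤
        ∫ t in (n : ℝ)..n + 1, φ ((e (n + 1) - e n) * t + (e n - (e (n + 1) - e n) * n)) := by
      refine integral_mono_on (by linarith) j1 (Antitone.intervalIntegrable fun s t hst =>
        hφ (by nlinarith)) fun t ht => ?_
      have h5 := (h t ⟨by linarith [ht.1], by linarith [ht.2]⟩).2.2
      rw [hl n hn hb t ht] at h5
      convert h5 using 2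
      ring
    have h5 := ih (by omega)
    have h6 := mul_le_mul_of_nonneg_left h4 hσ
    push_cast
    rw [← integral_add_adjacent_intervals i1 j1, ← integral_add_adjacent_intervals (b := e n)
      hφ.intervalIntegrable hφ.intervalIntegrable, ← add_assoc]
    linarith

lemma riem (h : ℝ → ℝ) (b H : ℝ) (c n : ℕ) (_hb : 0 ≤ b) (hbc : b ≤ c) (hn : 0 < n)
    (hv : ConcaveOn ℝ (Icc b c) h) (hH : ∀ x ∈ Icc b c, 0 ≤ h x ∧ h x ≤ H) :
    (∑ m ∈ Finset.Ioc ⌊n * b⌋₊ (n * c), h (m / n)) / n ≤ (∫ x in b..c, h x) + 3 * H / n := by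
  have hn' : (0 : ℝ) < n := by exact_mod_cast hn
  have hH0 : 0 ≤ H := (hH b ⟨le_rfl, hbc⟩).1.trans (hH b ⟨le_rfl, hbc⟩).2
  have i0 : IntegrableOn h (Ioo b c) :=
    .of_bound measure_Ioo_lt_top ((show ContinuousOn h (Ioo b c) by
      simpa using hv.continuousOn_interior).aestronglyMeasurable measurableSet_Ioo) H
      (ae_restrict_of_forall_mem measurableSet_Ioo fun t ht => by
        rw [Real.norm_of_nonneg (hH t (Ioo_subset_Icc_self ht)).1]
        exact (hH t (Ioo_subset_Icc_self ht)).2)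
  have i1 : ∀ x y : ℝ, b ≤ x → x ≤ y → y ≤ c → IntervalIntegrable h volume x y :=
    fun x y h1 h2 h3 => (intervalIntegrable_iff_integrableOn_Ioo_of_le h2).mpr
      (i0.mono_set (Ioo_subset_Ioo h1 h3))
  have trap : ∀ x y : ℝ, b ≤ x → x < y → y ≤ c → (y - x) * (h x + h y) / 2 ≤ ∫ t in x..y, h t :=
    fun x y h1 h2 h3 => by
      have hd : 0 < y - x := sub_pos.mpr h2
      have i2 : Continuous fun t => t * ((h y - h x) / (y - x)) + (y * h x - x * h y) / (y - x) := by
        fun_prop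
      refine le_trans (le_of_eq ?_) (integral_mono_on h2.le (i2.intervalIntegrable x y)
        (i1 x y h1 h2.le h3) fun t ht => ?_)
      · rw [intervalIntegral.integral_add (Continuous.intervalIntegrable (by fun_prop) _ _)
          (by simp), intervalIntegral.integral_mul_const, integral_id,
          intervalIntegral.integral_const, smul_eq_mul]
        field_simp
        ring
      · have h4 := hv.2 ⟨h1, h2.le.trans h3⟩ ⟨h1.trans h2.le, h3⟩
          (div_nonneg (sub_nonneg.mpr ht.2) hd.le) (div_nonneg (sub_nonneg.mpr ht.1) hd.le)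
          (by field_simp; ring)
        simp only [smul_eq_mul] at h4
        rw [show (y - t) / (y - x) * x + (t - x) / (y - x) * y = t by field_simp; ring] at h4
        refine le_trans (le_of_eq ?_) h4
        field_simp
        ring
  have hlo : ∀ N : ℕ, ⌊n * b⌋₊ + 1 ≤ N → b ≤ N / n := fun N hN => by
    rw [le_div_iff₀ hn', mul_comm]
    exact (Nat.lt_floor_add_one _).le.trans (by exact_mod_cast hN)
  have hhi : ∀ N : ℕ, N ≤ n * c → (N : ℝ) / n ≤ c := fun N hN => by
    rw [div_le_iff₀ hn', mul_comm]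
    exact_mod_cast hN
  have key : ∀ N, ⌊n * b⌋₊ + 1 ≤ N → N ≤ n * c → ∑ m ∈ Finset.Ioc ⌊n * b⌋₊ N, h (m / n) ≤
      n * (∫ x in b..N / n, h x) + H / 2 + h (N / n) / 2 := fun N hN => by
    induction N, hN using Nat.le_induction with
    | base =>
      intro h1
      have h2 := hlo _ le_rfl
      have h3 := hhi _ h1
      have h4 : 0 ≤ ∫ x in b..(⌊n * b⌋₊ + 1 : ℕ) / n, h x :=
        integral_nonneg h2 fun t ht => (hH t ⟨ht.1, ht.2.trans h3⟩).1
      rw [Nat.Ioc_succ_singleton, Finset.sum_singleton]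
      linarith [(hH _ ⟨h2, h3⟩).2, mul_nonneg hn'.le h4]
    | succ N hN ih =>
      intro h1
      have h2 := hlo N hN
      have h3 := hhi _ h1
      have h4 : (N : ℝ) / n < (N + 1 : ℕ) / n := by gcongr; omega
      have h5 := mul_le_mul_of_nonneg_left (trap _ _ h2 h4 h3) hn'.le
      rw [show (n : ℝ) * ((((N + 1 : ℕ) : ℝ) / n - N / n) * (h (N / n) + h ((N + 1 : ℕ) / n)) / 2) =
        (h (N / n) + h ((N + 1 : ℕ) / n)) / 2 by push_cast; field_simp; ring] at h5
      rw [Finset.sum_Ioc_succ_top (by omega), ← integral_add_adjacent_intervals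
        (i1 b (N / n) le_rfl h2 (h4.le.trans h3)) (i1 _ _ h2 h4.le h3), mul_add]
      linarith [ih (by omega)]
  rw [div_le_iff₀ hn', add_mul, div_mul_cancel₀ _ hn'.ne']
  rcases le_or_gt (n * c) ⌊n * b⌋₊ with h1 | h1
  · rw [Finset.Ioc_eq_empty_of_le h1, Finset.sum_empty]
    have : 0 ≤ ∫ x in b..c, h x := integral_nonneg hbc fun t ht => (hH t ht).1
    positivity
  · have h2 := key _ h1 le_rfl
    rw [Nat.cast_mul, mul_div_cancel_left₀ _ hn'.ne'] at h2
    linarith [(hH c ⟨hbc, le_rfl⟩).2]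

lemma conc (a b : ℝ) (g : ℝ → ℝ) (hab : a ≤ b) (hv : ConcaveOn ℝ (Icc a b) g)
    (hc : ContinuousOn g (Icc a b)) (hm : AntitoneOn g (Icc a b))
    (h : ∀ t ∈ Icc a b, 0 ≤ g t ∧ g t ≤ 1) (ha : 3 / 4 ≤ g a) :
    3 / 8 ≤ g (a + ∫ t in a..b, g t ^ 2) := by
  have i1 : ∀ x y, a ≤ x → x ≤ y → y ≤ b → IntervalIntegrable (fun t => g t ^ 2) volume x y :=
    fun x y h1 h2 h3 => ((hc.mono (Icc_subset_Icc h1 h3)).pow 2).intervalIntegrable_of_Icc h2
  have i2 : ∀ x y B, a ≤ x → x ≤ y → y ≤ b → g x ≤ B → ∫ t in x..y, g t ^ 2 ≤ (y - x) * B ^ 2 :=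
    fun x y B h1 h2 h3 h4 => by
      simpa using integral_mono_on h2 (i1 x y h1 h2 h3) (g := fun _ => B ^ 2) (by simp)
        fun t ht => pow_le_pow_left₀ (h t ⟨h1.trans ht.1, ht.2.trans h3⟩).1
          ((hm ⟨h1, h2.trans h3⟩ ⟨h1.trans ht.1, ht.2.trans h3⟩ ht.1).trans h4) 2
  have h1 : 0 ≤ ∫ t in a..b, g t ^ 2 := integral_nonneg hab fun t _ => sq_nonneg _
  have h2 := i2 a b 1 le_rfl hab le_rfl (h a ⟨le_rfl, hab⟩).2
  obtain ⟨c, hc0⟩ : ∃ c, c = a + ∫ t in a..b, g t ^ 2 := ⟨_, rfl⟩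
  rw [← hc0]
  have hac : a ≤ c := by linarith
  have hcb : c ≤ b := by linarith
  by_contra hn
  push Not at hn
  obtain ⟨u, ⟨hu1, hu2⟩, hu⟩ := intermediate_value_Icc' hac (hc.mono (Icc_subset_Icc_right hcb))
    (show 3 / 4 ∈ Icc (g c) (g a) from ⟨by linarith, ha⟩)
  have huc : u < c := lt_of_le_of_ne hu2 fun e => by rw [e] at hu; linarith
  have hd : 0 < b - u := by linarith
  have h3 := hv.2 ⟨hu1, hu2.trans hcb⟩ ⟨hab, le_rfl⟩ (div_nonneg (sub_nonneg.mpr hcb) hd.le)
    (div_nonneg (sub_nonneg.mpr hu2) hd.le) (by field_simp; ring)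
  simp only [smul_eq_mul] at h3
  rw [show (b - c) / (b - u) * u + (c - u) / (b - u) * b = c by field_simp; ring, hu] at h3
  have h4 : (b - c) / (b - u) < 1 / 2 := by
    have := mul_nonneg (div_nonneg (sub_nonneg.mpr hu2) hd.le) (h b ⟨hab, le_rfl⟩).1
    linarith
  rw [div_lt_iff₀ hd] at h4
  rw [← integral_add_adjacent_intervals (i1 a u le_rfl hu1 (hu2.trans hcb))
    (i1 u b hu1 (hu2.trans hcb) le_rfl), ← integral_add_adjacent_intervals (i1 u c hu1 hu2 hcb)
    (i1 c b hac hcb le_rfl)] at hc0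
  linarith [i2 a u 1 le_rfl hu1 (hu2.trans hcb) (h a ⟨le_rfl, hab⟩).2,
    i2 u c (3 / 4) hu1 hu2 hcb hu.le, i2 c b (3 / 8) hac hcb le_rfl hn.le]

lemma abel (a b : ℝ) (z φ : ℝ → ℝ) (hab : a ≤ b) (hz : IntervalIntegrable z volume a b)
    (hφ : ContinuousOn φ (Icc a b)) (h : ∀ u ∈ Icc a b, ∫ w in u..b, z w ≤ φ u) :
    ∫ u in a..b, (u - a) * z u ≤ ∫ u in a..b, φ u := by
  have hz' : IntegrableOn z (Ioc a b) := (intervalIntegrable_iff_integrableOn_Ioc_of_le hab).mp hz
  have hI : Integrable (Function.uncurry fun u w : ℝ => (Ioi u).indicator z w)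
      ((volume.restrict (Ioc a b)).prod (volume.restrict (Ioc a b))) :=
    (hz'.comp_snd (volume.restrict (Ioc a b))).indicator
      (s := {p : ℝ × ℝ | p.1 < p.2}) (measurableSet_lt measurable_fst measurable_snd)
  have h1 := integral_integral_swap hI
  have h2 : ∀ u ∈ Ioc a b, ∫ w in Ioc a b, (Ioi u).indicator z w = ∫ w in u..b, z w :=
    fun u hu => by
      rw [setIntegral_indicator measurableSet_Ioi, Ioc_inter_Ioi, max_eq_right hu.1.le,
        integral_of_le hu.2]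
  have h3 : ∀ w ∈ Ioc a b, ∫ u in Ioc a b, (Ioi u).indicator z w = (w - a) * z w :=
    fun w hw => by
      have e : (fun u => (Ioi u).indicator z w) = (Iio w).indicator fun _ => z w := by
        funext u; simp [indicator_apply]
      have e' : Ioc a b ∩ Iio w = Ioo a w := by
        ext u
        exact ⟨fun h => ⟨h.1.1, h.2⟩, fun h => ⟨⟨h.1, h.2.le.trans hw.2⟩, h.2⟩⟩
      rw [e, setIntegral_indicator measurableSet_Iio, e', setIntegral_const,
        Real.volume_real_Ioo_of_le hw.1.le, smul_eq_mul]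
  rw [setIntegral_congr_fun measurableSet_Ioc h3] at h1
  rw [integral_of_le hab, integral_of_le hab, ← h1]
  refine setIntegral_mono_on hI.integral_prod_left
    (hφ.integrableOn_Icc.mono_set Ioc_subset_Icc_self) measurableSet_Ioc fun u hu => ?_
  rw [h2 u hu]
  exact h u (Ioc_subset_Icc_self hu)

end NRA

theorem ra_of : St_RA where
  cheb α β H a a0 b m h1 h2 h3 h4 _ := NRA.cheb α β H a a0 b m h1 h2 h3 h4
  jen := NRA.jen
  riem := NRA.riem
  conc := NRA.conc
  abel := NRA.abel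

end Pool.Agent.Lib.MP_a25055_ag
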