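import Pool.Agent.Lib.MP_a25055_ag.Num

/-! The zone of small defect. -/

open Module Finset MeasureTheory

noncomputable section

namespace Pool.Agent.Lib.MP_a25055_ag

namespace NW1

lemma step_int (g : ℝ → ℝ) (c : ℕ → ℝ) : ∀ a : ℕ, IntervalIntegrable g volume 0 a →
    (∀ n < a, ∀ t ∈ Set.Ioo (n : ℝ) (n + 1), c (n + 1) ≤ g t) →
    ∑ n ∈ Ioc 0 a, c n ≤ ∫ t in (0 : ℝ)..a, g t := by
  intro a
  induction a with
  | zero => intro _ _; simp
  | succ a ih =>
    intro hg h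
    have h0 : (0 : ℝ) ≤ a := Nat.cast_nonneg a
    have hc : ((a + 1 : ℕ) : ℝ) = a + 1 := by push_cast; ring
    rw [hc] at hg ⊢
    have g1 : IntervalIntegrable g volume 0 a := hg.mono_set (by
      rw [Set.uIcc_of_le h0, Set.uIcc_of_le (by linarith)]
      exact Set.Icc_subset_Icc le_rfl (by linarith))
    have g2 : IntervalIntegrable g volume a (a + 1) := hg.mono_set (by
      rw [Set.uIcc_of_le (by linarith), Set.uIcc_of_le (by linarith)]
      exact Set.Icc_subset_Icc h0 le_rfl)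
    rw [← intervalIntegral.integral_add_adjacent_intervals g1 g2,
      Finset.sum_Ioc_succ_top (Nat.zero_le a)]
    have i1 := ih g1 fun n hn => h n (by omega)
    have i2 : ∫ _ in (a : ℝ)..(a + 1), c (a + 1) ≤ ∫ t in (a : ℝ)..(a + 1), g t :=
      intervalIntegral.integral_mono_on_of_le_Ioo (by linarith) intervalIntegrable_const g2
        (h a (Nat.lt_succ_self a))
    simp only [intervalIntegral.integral_const, add_sub_cancel_left, smul_eq_mul, one_mul] at i2
    linarith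

lemma rat_eq {k : ℕ} (hk : 1 ≤ k) (x : ℝ) :
    rat k * x = x / 2 + x / (2 * k) + x / (3 * k ^ 2) := by
  have : (0 : ℝ) < k := by exact_mod_cast hk
  unfold rat
  field_simp
  ring

open Classical in
lemma split (hB : St_NB) {Y : Tree} (hY : Y.DP) (M : Y.Cl) (hM : Y.Nef M) (s : Finset Y.I) :
    ∑ i ∈ s, Y.A i * Y.ip M (Y.gam i) ≤
      ∑ i ∈ s.filter (fun i => Y.A i = 1), Y.ip M (Y.gam i) + 2 * Y.kap M := by
  rw [(hB.kapf Y hY M).2, ← Finset.sum_filter_add_sum_filter_not s (fun i => Y.A i = 1)]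
  refine add_le_add (le_of_eq (Finset.sum_congr rfl fun i hi => ?_)) ?_
  · rw [(Finset.mem_filter.1 hi).2, one_mul]
  · have hsub : s.filter (fun i => ¬ Y.A i = 1) ⊆
        (univ.filter fun q : Y.T => 1 ≤ Y.disc q).image Sum.inr := by
      intro i hi
      have h2 := (Finset.mem_filter.1 hi).2
      rcases i with Γ | q
      · exact absurd rfl h2
      · refine Finset.mem_image.2 ⟨q, Finset.mem_filter.2 ⟨mem_univ _, ?_⟩, rfl⟩
        by_contra h3
        apply h2
        have : Y.disc q = 0 := by omega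
        simp [Tree.A, this]
    have hA : ∀ i, 0 ≤ Y.A i := by
      rintro (Γ | q)
      · exact zero_le_one
      · simp only [Tree.A]; positivity
    refine (Finset.sum_le_sum_of_subset_of_nonneg hsub fun i _ _ =>
      mul_nonneg (hA i) (hM i)).trans ?_
    rw [Finset.sum_image fun a _ b _ h => Sum.inr_injective h, Finset.mul_sum]
    refine le_trans (Finset.sum_le_sum fun q hq => ?_)
      (Finset.sum_le_sum_of_subset_of_nonneg (Finset.filter_subset (fun q : Y.T => 1 ≤ Y.disc q) _)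
        fun q _ _ => mul_nonneg zero_le_two (mul_nonneg (Nat.cast_nonneg _) (hM _)))
    have h1 : (1 : ℝ) ≤ Y.disc q := by exact_mod_cast (Finset.mem_filter.1 hq).2
    have h2 := hM (.inr q)
    simp only [Tree.A]
    nlinarith

open Classical in
lemma point (hB : St_NB) (hL : St_LOW) {Y : Tree} (hY : Y.DP) {k : ℕ} (hk : 3 ≤ k) (S : Sec Y k)
    (hS : S.Good) (U : Submodule ℂ S.V) (h0 : U ≠ ⊥) (h1 : U ≠ ⊤) (hf : S.fM U ≤ eta)
    (Bt : Y.I →₀ ℝ) (hlo : 0 ≤ Bt) (hhi : Bt ≤ toR (S.base U))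
    (hnef : Y.Nef ((k : ℝ) • Y.L - Y.cl Bt)) (s : Finset Y.I) (hs : (S.base U).support ⊆ s) :
    1 / 4 * (S.mu U + 1 / k) + finrank ℂ U ≤ rat k * Y.sq ((k : ℝ) • Y.L - Y.cl Bt) -
      ∑ i ∈ s.filter (fun i => Y.A i = 1), 1 / 2 * (if 0 < S.base U i then
        (min (S.base U i - Bt i) 1 - 1 / 2) * Y.ip (S.mov U) (Y.gam i) else 0) := by
  have hk1 : 1 ≤ k := by omega
  have hkR : (3 : ℝ) ≤ k := by exact_mod_cast hk
  have hkp : (0 : ℝ) < k := by linarith
  have hM := S.nef_mov hY.toPlane h0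
  obtain ⟨f0, -, kap0, -, hsm⟩ := hL.fM Y hY k S U hk1 h0
  obtain ⟨hbase, hMB, hz⟩ := hsm hf
  have heta : eta ≤ 1 / 100 := by unfold eta; norm_num
  have hinv : 1 / (k : ℝ) ≤ 1 / 3 := one_div_le_one_div_of_le (by norm_num) hkR
  rcases hz with hz | hz
  · have hT : toR (S.base U) = 0 := by rw [hz]; ext i; simp
    have hBt : Bt = 0 := le_antisymm (hT ▸ hhi) hlo
    have hsq : Y.sq ((k : ℝ) • Y.L) = 3 * k ^ 2 := by
      have := hB.LL Y hY
      unfold Tree.sq at this ⊢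
      rw [Tree.ip_smul_left, Tree.ip_smul_right, this]; ring
    have hmov : S.mov U = (k : ℝ) • Y.L := by rw [Sec.mov, hT, map_zero, sub_zero]
    have hfM : S.fM U = 0 := by
      rw [Sec.fM, hmov, hsq, div_self (by positivity), sub_self]
    have hkap : Y.kap (S.mov U) = 0 := by
      rw [hmov, Tree.kap]
      refine Finset.sum_eq_zero fun q hq => ?_
      simp [Tree.L, Finset.mem_compl.1 hq]
    have hmu : S.mu U = 0 := by
      rw [Sec.mu, hkap, hfM, min_eq_left hkp.le]; ring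
    have hfin : (finrank ℂ U : ℝ) + 1 ≤ finrank ℂ S.V := by
      exact_mod_cast Submodule.finrank_lt h1
    have hrank : 2 * (finrank ℂ S.V : ℝ) = 3 * k ^ 2 + 3 * k + 2 := by exact_mod_cast hS.rank
    have hr : rat k * (3 * k ^ 2) = (3 * k ^ 2 + 3 * k + 2) / 2 := by
      unfold rat; field_simp; ring
    rw [hBt, map_zero, sub_zero, hsq, hr, hmu, hz]
    simp only [Finsupp.coe_zero, Pi.zero_apply, lt_irrefl, if_false, mul_zero,
      Finset.sum_const_zero]
    linarith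
  set M := S.mov U with hMdef
  set B := toR (S.base U) with hBdef
  have hZ0 : 0 ≤ B - Bt := sub_nonneg.2 hhi
  have hP : (k : ℝ) • Y.L - Y.cl Bt = M + Y.cl (B - Bt) := by
    rw [hMdef, Sec.mov, map_sub]; abel
  have hBs : B.support ⊆ s := fun i hi => hs (by
    rw [Finsupp.mem_support_iff] at hi ⊢
    intro h; apply hi; rw [hBdef, toR_apply, h, Nat.cast_zero])
  have hZs : (B - Bt).support ⊆ s := fun i hi => hBs (by
    rw [Finsupp.mem_support_iff] at hi ⊢
    intro h; apply hi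
    have a1 := hhi i
    have a2 := hlo i
    simp only [Finsupp.coe_zero, Pi.zero_apply] at a2
    rw [Finsupp.sub_apply]
    linarith)
  have hP2 : Y.sq M + Y.ip M (Y.cl (B - Bt)) ≤ Y.sq ((k : ℝ) • Y.L - Y.cl Bt) := by
    have a1 := hnef.ip_cl hZ0
    have a2 : Y.sq ((k : ℝ) • Y.L - Y.cl Bt) = Y.ip ((k : ℝ) • Y.L - Y.cl Bt) M +
        Y.ip ((k : ℝ) • Y.L - Y.cl Bt) (Y.cl (B - Bt)) := by
      rw [← Tree.ip_add_right, ← hP]; rfl
    have a3 : Y.ip ((k : ℝ) • Y.L - Y.cl Bt) M = Y.sq M + Y.ip M (Y.cl (B - Bt)) := by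
      rw [hP, Tree.ip_add_left, Tree.ip_comm (Y.cl _)]; rfl
    linarith
  have hMZ0 : 0 ≤ Y.ip M (Y.cl (B - Bt)) := hM.ip_cl hZ0
  set E := ∑ i ∈ (s.filter fun i => 0 < S.base U i).filter (fun i => Y.A i = 1),
    Y.ip M (Y.gam i) with hE
  have hE0 : 0 ≤ E := Finset.sum_nonneg fun i _ => hM i
  set Ps := ∑ i ∈ s.filter (fun i => Y.A i = 1), 1 / 2 * (if 0 < S.base U i then
        (min (S.base U i - Bt i) 1 - 1 / 2) * Y.ip M (Y.gam i) else 0) with hPs
  have hMZ : Ps + E / 4 ≤ Y.ip M (Y.cl (B - Bt)) / 2 := by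
    rw [Tree.ip_cl _ _ hZs, hE, Finset.filter_comm, Finset.sum_filter (fun i => 0 < S.base U i),
      Finset.sum_div, Finset.sum_div, hPs, ← Finset.sum_add_distrib]
    refine le_trans (Finset.sum_le_sum fun i _ => ?_)
      (Finset.sum_le_sum_of_subset_of_nonneg (Finset.filter_subset (fun i => Y.A i = 1) s)
        fun i _ _ => div_nonneg (mul_nonneg (hZ0 i) (hM i)) zero_le_two)
    have a1 := hM i
    have a2 : 0 ≤ (B - Bt) i := hZ0 i
    have a3 : (B - Bt) i = S.base U i - Bt i := by rw [Finsupp.sub_apply, hBdef, toR_apply]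
    split_ifs
    · have := mul_le_mul_of_nonneg_right (min_le_left ((S.base U i : ℝ) - Bt i) 1) a1
      rw [a3]; nlinarith
    · have := mul_nonneg a2 a1
      linarith
  have hrat : rat k * Y.sq M + Y.ip M (Y.cl (B - Bt)) / 2 ≤
      rat k * Y.sq ((k : ℝ) • Y.L - Y.cl Bt) := by
    have r0 : 1 / 2 ≤ rat k := by
      have := rat_eq hk1 1
      have a1 : (0 : ℝ) ≤ 1 / (2 * k) := by positivity
      have a2 : (0 : ℝ) ≤ 1 / (3 * k ^ 2) := by positivity
      linarith
    have := mul_le_mul_of_nonneg_left hP2 (le_trans (by norm_num) r0)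
    have := mul_le_mul_of_nonneg_right r0 hMZ0
    linarith
  have hfM : Y.sq M / (3 * k ^ 2) = 1 - S.fM U := by rw [Sec.fM]; ring
  have hsqM : Y.sq M = 3 * k ^ 2 * (1 - S.fM U) := by
    rw [← hfM]; field_simp
  have hML : Y.sq M = k * Y.ip M Y.L - Y.ip M (Y.cl B) := by
    rw [← Tree.ip_smul_right, ← Tree.ip_sub_right]; rfl
  have hdiv : Y.sq M / (2 * k) = 3 / 2 * k * (1 - S.fM U) := by
    rw [hsqM]; field_simp
  have hmu : S.mu U = min (Y.kap M) k + k * S.fM U := rfl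
  have hrr := hS.rr U h0
  rw [rat_eq hk1, hfM] at hrat
  have hspec : (finrank ℂ U : ℝ) ≤ Y.sq M / 2 + 2 →
      1 / 4 * (S.mu U + 1 / k) + finrank ℂ U ≤ rat k * Y.sq ((k : ℝ) • Y.L - Y.cl Bt) - Ps := by
    intro h
    have a1 := min_le_right (Y.kap M) (k : ℝ)
    have a2 : k * S.fM U ≤ k * (1 / 100) := mul_le_mul_of_nonneg_left (hf.trans heta) hkp.le
    rw [hdiv] at hrat
    linarith
  rcases le_max_iff.1 hrr with h | h
  · refine hspec (h.trans ?_)
    have a2 : k ^ 2 * S.fM U ≤ k ^ 2 * (1 / 100) :=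
      mul_le_mul_of_nonneg_left (hf.trans heta) (by positivity)
    rw [hsqM]; nlinarith
  rcases le_total (1 + Y.ip M Y.aK / 2) 2 with h2 | h2
  · exact hspec (by rwa [max_eq_left h2] at h)
  rw [max_eq_right h2, (hB.kapf Y hY M).1] at h
  set Sg := ∑ i ∈ s.filter (fun i => 0 < S.base U i), Y.A i * Y.ip M (Y.gam i) with hSg
  have hsp : Sg ≤ E + 2 * Y.kap M := split hB hY M hM _
  have hMS : Y.ip M (Y.cl B) ≤ k * Sg / 100 := by
    have hsub : B.support ⊆ s.filter (fun i => 0 < S.base U i) := fun i hi =>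
      Finset.mem_filter.2 ⟨hBs hi, Nat.pos_of_ne_zero fun h => Finsupp.mem_support_iff.1 hi (by
        rw [hBdef, toR_apply, h, Nat.cast_zero])⟩
    rw [Tree.ip_cl _ _ hsub, hSg, Finset.mul_sum, Finset.sum_div]
    refine Finset.sum_le_sum fun i _ => ?_
    have := mul_le_mul_of_nonneg_right (hbase i) (hM i)
    rw [hBdef, toR_apply]
    linarith
  have c1 : k * S.fM U ≤ Sg / 100 := by
    refine le_of_mul_le_mul_left ?_ hkp
    nlinarith
  have c2 : 1 / (k : ℝ) ≤ 3 * (k * S.fM U) := by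
    rw [div_le_iff₀ hkp]; nlinarith
  have c3 : S.fM U ≤ k * S.fM U := by nlinarith
  have c4 : Y.ip M Y.L / 2 - Sg / 200 ≤ Y.sq M / (2 * k) := by
    rw [le_div_iff₀ (by positivity), hML]; linarith
  have c5 := min_le_left (Y.kap M) (k : ℝ)
  have c6 : 0 ≤ k * S.fM U := by positivity
  linarith

end NW1

open Classical in
theorem w1_of (hA : St_NA) (hB : St_NB) (hE : St_ENV) (hP : St_PT) (hR : St_RA) (hL : St_LOW) :
    St_W1 := by
  refine ⟨3, 1 / 4, by norm_num, fun k hk Y hY S U T a hS hF h0 h1 haT hf => ?_⟩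
  have hne : ∀ n ≤ T, U n ≠ ⊥ := fun n hn h => hF.2 (le_bot_iff.1 (h ▸ hF.1 hn))
  have hbm : ∀ m n, m ≤ n → n ≤ T → S.base (U m) ≤ S.base (U n) := fun m n h hn =>
    S.base_mono (hF.1 h) (hne n hn)
  have hbR : ∀ m n, m ≤ n → n ≤ T → toR (S.base (U m)) ≤ toR (S.base (U n)) :=
    fun m n h hn i => by simpa using hbm m n h hn i
  obtain ⟨pmono, ppt, -, -, -, pcont, -⟩ := hP Y hY.toPlane k S U 0 T hF (Nat.zero_le T)
  rw [Nat.cast_zero] at ppt pcont
  have ha0 : (0 : ℝ) ≤ a := Nat.cast_nonneg a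
  have haTR : (a : ℝ) ≤ T := by exact_mod_cast haT
  have hsub : Set.Icc (0 : ℝ) a ⊆ Set.Icc (0 : ℝ) T := Set.Icc_subset_Icc le_rfl haTR
  have hceil : ∀ t ∈ Set.Ioc (0 : ℝ) a, ⌈t⌉₊ ≤ T := fun t ht =>
    (Nat.ceil_le.2 ht.2).trans haT
  have htop : S.base (U 0) = 0 := by rw [h0]; exact hL.top Y hY k S hk hS
  let ψ : Y.I → ℝ → ℝ := fun i t => if 0 < S.base (U ⌈t⌉₊) i then
    (min (S.base (U ⌈t⌉₊) i - env (fun n => S.base (U n) i) 0 T t) 1 - 1 / 2) *
      Y.ip (S.mov (U ⌈t⌉₊)) (Y.gam i) else 0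
  have hψ : ∀ i, IntervalIntegrable (ψ i) volume 0 a ∧ 0 ≤ ∫ t in (0 : ℝ)..a, ψ i t := by
    intro i
    obtain ⟨e1, e2, -, e4, -⟩ := hE.conv (fun n => S.base (U n) i) 0 T (Nat.zero_le T)
    obtain ⟨e5, e6⟩ := hE.mono (fun n => S.base (U n) i) 0 T (pmono i)
    rw [Nat.cast_zero] at e1 e2 e4 e5 e6
    refine hR.cheb 0 a (3 * k * Y.sz i) (fun t => S.base (U ⌈t⌉₊) i) 0
      (env (fun n => S.base (U n) i) 0 T) (fun t => Y.ip (S.mov (U ⌈t⌉₊)) (Y.gam i)) ha0
      (fun s _ t ht hst => hbm _ _ (Nat.ceil_mono hst) (hceil t ht) i)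
      (e1.subset hsub (convex_Icc _ _)) (e2.mono hsub) (e5.mono hsub) ?_ ?_ ?_
    · rw [e4, htop]; simp
    · intro t ht
      have hn := S.nef_mov hY.toPlane (hne _ (hceil t ht))
      exact ⟨e6 t (hsub (Set.Ioc_subset_Icc_self ht)), hn i,
        (hB.maxord Y hY k _ (fun j => by simp) hn).2.2.1 i⟩
    · intro s _ t ht hst hst'
      have hle := hbR _ _ (Nat.ceil_mono hst) (hceil t ht)
      have := hY.toPlane.cl_ip (sub_nonneg.2 hle) (i := i) (by
        rw [Finsupp.sub_apply, toR_apply, toR_apply]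
        have : S.base (U ⌈s⌉₊) i = S.base (U ⌈t⌉₊) i := hst'
        rw [this, sub_self])
      rw [map_sub, Tree.ip_sub_left] at this
      show Y.ip (S.mov (U ⌈t⌉₊)) (Y.gam i) ≤ Y.ip (S.mov (U ⌈s⌉₊)) (Y.gam i)
      rw [Sec.mov, Sec.mov, Tree.ip_sub_left, Tree.ip_sub_left]
      linarith
  set s := (S.base (U T)).support.filter (fun i => Y.A i = 1) with hs
  have i1 : IntervalIntegrable (fun t => rat k * Y.sq (S.Pt U 0 T t)) volume 0 a :=
    (ContinuousOn.intervalIntegrable_of_Icc ha0 (pcont.mono hsub)).const_mul _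
  have i2 : IntervalIntegrable (fun t => ∑ i ∈ s, 1 / 2 * ψ i t) volume 0 a := by
    have := IntervalIntegrable.sum s (f := fun i t => 1 / 2 * ψ i t) (μ := volume) (a := 0)
      (b := a) fun i _ => (hψ i).1.const_mul _
    rwa [show (∑ i ∈ s, fun t => 1 / 2 * ψ i t) = fun t => ∑ i ∈ s, 1 / 2 * ψ i t from
      funext fun t => Finset.sum_apply _ _ _] at this
  have i3 : 0 ≤ ∫ t in (0 : ℝ)..a, ∑ i ∈ s, 1 / 2 * ψ i t := by
    rw [intervalIntegral.integral_finsetSum fun i _ => (hψ i).1.const_mul _]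
    refine Finset.sum_nonneg fun i _ => ?_
    rw [intervalIntegral.integral_const_mul]
    exact mul_nonneg (by norm_num) (hψ i).2
  have key := NW1.step_int (fun t => rat k * Y.sq (S.Pt U 0 T t) - ∑ i ∈ s, 1 / 2 * ψ i t)
    (fun n => 1 / 4 * (S.mu (U n) + 1 / k) + finrank ℂ (U n)) a (i1.sub i2) (by
      intro n hn t ht
      have hn0 : (0 : ℝ) ≤ n := Nat.cast_nonneg n
      have hna : (n : ℝ) + 1 ≤ a := by exact_mod_cast hn
      have hc : ⌈t⌉₊ = n + 1 := by
        rw [Nat.ceil_eq_iff (Nat.succ_ne_zero n)]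
        exact ⟨by simpa using ht.1, by push_cast; exact ht.2.le⟩
      have hnT : n + 1 ≤ T := by omega
      obtain ⟨q1, q2, q3, q4, -⟩ := ppt t ⟨by linarith [ht.1], by linarith [ht.2]⟩
      have hfn : S.fM (U (n + 1)) ≤ eta := by
        refine le_trans ?_ hf
        have := hA.mono Y _ _ _ (S.nef_mov hY.toPlane (hne _ hnT))
          (S.nef_mov hY.toPlane (hne _ haT)) (hbR (n + 1) a hn haT)
        unfold Sec.fM Sec.mov
        have hk0 : (0 : ℝ) ≤ 3 * k ^ 2 := by positivity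
        have := div_le_div_of_nonneg_right this hk0
        linarith
      have hnt : U (n + 1) ≠ ⊤ := fun h => h1 (top_le_iff.1 (h ▸ hF.1 (by omega : 1 ≤ n + 1)))
      have := NW1.point hB hL hY hk S hS (U (n + 1)) (hne _ hnT) hnt hfn (S.Bh U 0 T t)
        (le_trans (fun j => by simp) q2) (hc ▸ q3) q4 (S.base (U T)).support
        (Finsupp.support_mono (hbm _ _ hnT le_rfl))
      simp only [q1] at this
      simp only [ψ, hc]
      exact this)
  rw [intervalIntegral.integral_sub i1 i2, Finset.sum_add_distrib, ← Finset.mul_sum] at key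
  linarith

end Pool.Agent.Lib.MP_a25055_ag
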