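import Pool.Agent.Lib.MP_a25055_ag.Num

/-! The zone of large volume defect. -/

open Module Finset MeasureTheory

noncomputable section

namespace Pool.Agent.Lib.MP_a25055_ag

namespace NW2

lemma ceil_unit (f : ℕ → ℝ) (n : ℕ) :
    IntervalIntegrable (fun t : ℝ => f ⌈t⌉₊) volume n (n + 1) ∧
      ∫ t in (n : ℝ)..(n + 1), f ⌈t⌉₊ = f (n + 1) := by
  have h : ∀ t ∈ Set.uIoc (n : ℝ) (n + 1), f ⌈t⌉₊ = f (n + 1) := by
    intro t ht
    rw [Set.uIoc_of_le (by linarith)] at ht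
    congr 1
    rw [Nat.ceil_eq_iff (by omega)]
    simpa using ht
  constructor
  · exact (intervalIntegrable_const (c := f (n + 1))).congr fun t ht => (h t ht).symm
  · rw [intervalIntegral.integral_congr_ae (g := fun _ => f (n + 1))
      (Filter.Eventually.of_forall h)]
    simp

lemma ceil_sum (f : ℕ → ℝ) {a T : ℕ} (h : a ≤ T) :
    IntervalIntegrable (fun t : ℝ => f ⌈t⌉₊) volume a T ∧
      ∫ t in (a : ℝ)..T, f ⌈t⌉₊ = ∑ n ∈ Ioc a T, f n := by
  induction T, h using Nat.le_induction with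
  | base => simp
  | succ T h ih =>
    obtain ⟨h1, h2⟩ := ceil_unit f T
    push_cast
    refine ⟨ih.1.trans h1, ?_⟩
    rw [← intervalIntegral.integral_add_adjacent_intervals ih.1 h1, ih.2, h2,
      Finset.sum_Ioc_succ_top h]

lemma const_le {u v c : ℝ} {f : ℝ → ℝ} (h : u ≤ v) (hf : IntervalIntegrable f volume u v)
    (hc : ∀ t ∈ Set.Ioo u v, c ≤ f t) : c * (v - u) ≤ ∫ t in u..v, f t := by
  have := intervalIntegral.integral_mono_on_of_le_Ioo h (intervalIntegrable_const (c := c)) hf hc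
  simpa [mul_comm] using this

lemma sub_int {a b u v : ℝ} {f : ℝ → ℝ} (hf : IntervalIntegrable f volume a b) (h1 : a ≤ u)
    (h2 : u ≤ v) (h3 : v ≤ b) : IntervalIntegrable f volume u v :=
  hf.mono_set (by
    rw [Set.uIcc_of_le h2, Set.uIcc_of_le (h1.trans (h2.trans h3))]
    exact Set.Icc_subset_Icc h1 h3)

/-- Putting the three zones together. -/
lemma assemble {a u γ β T R C1 C2 D : ℝ} {I col psi : ℝ → ℝ} (h1 : a ≤ u) (h2 : u ≤ γ)
    (h3 : γ ≤ β) (h4 : β ≤ T) (hI : IntervalIntegrable I volume a T)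
    (hcol : IntervalIntegrable col volume a β) (hpsi : IntervalIntegrable psi volume a β)
    (hc : -(C2 * (β - a)) ≤ ∫ t in a..β, col t) (hp : 0 ≤ ∫ t in a..β, psi t)
    (z0 : ∀ t ∈ Set.Icc a β, col t + psi t - C1 ≤ I t)
    (z1 : ∀ t ∈ Set.Ioo u γ, col t + psi t + R - C1 ≤ I t)
    (z2 : ∀ t ∈ Set.Icc β T, -D ≤ I t) :
    R * (γ - u) - (C1 + C2) * (β - a) - D * (T - β) ≤ ∫ t in a..T, I t := by
  have haβ : a ≤ β := h1.trans (h2.trans h3)
  have hI1 := sub_int hI le_rfl haβ h4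
  have hI2 := sub_int hI haβ h4 le_rfl
  have hJ : IntervalIntegrable (fun t => I t - col t - psi t) volume a β := (hI1.sub hcol).sub hpsi
  have j1 := sub_int hJ le_rfl h1 (h2.trans h3)
  have j2 := sub_int hJ h1 h2 h3
  have j3 := sub_int hJ (h1.trans h2) h3 le_rfl
  have e1 := const_le (c := -C1) h1 j1 fun t ht => by
    have := z0 t ⟨ht.1.le, ht.2.le.trans (h2.trans h3)⟩
    linarith
  have e2 := const_le (c := R - C1) h2 j2 fun t ht => by
    have := z1 t ht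
    linarith
  have e3 := const_le (c := -C1) h3 j3 fun t ht => by
    have := z0 t ⟨(h1.trans h2).trans ht.1.le, ht.2.le⟩
    linarith
  have e4 := const_le (c := -D) h4 hI2 fun t ht => z2 t ⟨ht.1.le, ht.2.le⟩
  have s1 := intervalIntegral.integral_add_adjacent_intervals j1 j2
  have s2 := intervalIntegral.integral_add_adjacent_intervals (j1.trans j2) j3
  have s3 := intervalIntegral.integral_add_adjacent_intervals hI1 hI2
  rw [intervalIntegral.integral_sub (hI1.sub hcol) hpsi,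
    intervalIntegral.integral_sub hI1 hcol] at s2
  nlinarith

lemma toR_nonneg {ι : Type} (B : ι →₀ ℕ) : 0 ≤ toR B := fun i => by simp

lemma bo_le {Y : Tree} {k : ℕ} (S : Sec Y k) (U0 : Submodule ℂ S.V) (Bt Bc : Y.I →₀ ℝ)
    (h : toR (S.base U0) ≤ Bc) : S.Bo U0 Bt Bc ≤ Bc := fun i => by
  have hi := h i
  rw [toR_apply] at hi
  rw [Sec.Bo, Tree.dv_apply]
  split_ifs with h1 h2
  · exact hi
  · exact le_rfl
  · exact (Finsupp.notMem_support_iff.1 h1).ge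

lemma sq_mov {Y : Tree} {k : ℕ} (S : Sec Y k) (U : Submodule ℂ S.V) (hk : (1 : ℝ) ≤ k) :
    Y.sq (S.mov U) = 3 * k ^ 2 * (1 - S.fM U) := by
  rw [Sec.fM]
  field_simp
  ring

lemma rat_ge {k : ℕ} (hk : (1 : ℝ) ≤ k) {p : ℝ} (hp : 0 ≤ p) :
    p / 2 + p / (2 * k) ≤ rat k * p := by
  have : rat k * p - (p / 2 + p / (2 * k)) = p / (3 * k ^ 2) := by
    rw [rat]
    field_simp
    ring
  have h2 : 0 ≤ p / (3 * (k : ℝ) ^ 2) := by positivity
  linarith

/-- The square of the envelope class after the threshold. -/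
lemma sq_after {T u t e p q K : ℝ} (he : 0 ≤ e) (hut : u < t) (ht : t ≤ T - e * (T - u))
    (hT : u ≤ T) (hK : 0 ≤ K) (hp : K ≤ p) (h : (T - t) ^ 2 * p ≤ (T - u) ^ 2 * q) :
    e ^ 2 * K ≤ q := by
  have h0 : 0 ≤ e * (T - u) := mul_nonneg he (by linarith)
  have hτ : 0 < T - u := by linarith
  have h1 : (e * (T - u)) ^ 2 ≤ (T - t) ^ 2 := pow_le_pow_left₀ h0 (by linarith) 2
  have h2 : (e * (T - u)) ^ 2 * K ≤ (T - t) ^ 2 * p :=
    mul_le_mul h1 hp hK (sq_nonneg _)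
  have h3 : (T - u) ^ 2 * (e ^ 2 * K) ≤ (T - u) ^ 2 * q := by nlinarith
  exact le_of_mul_le_mul_left h3 (by positivity)

end NW2

open NW2

theorem w2_of (hA : St_NA) (hQ : St_BQ) (hP : St_PT) (hT : St_TAN) (hL : St_LOW) (hM : St_LAM)
    (hW : St_PW) (hC : St_COLS) (hS : St_PSI) : St_W2 := by
  obtain ⟨c0, hQ⟩ := hQ
  obtain ⟨ρ, hρ, hW⟩ := hW
  obtain ⟨e, he0, he1, he2⟩ : ∃ e : ℝ, 0 < e ∧ e ≤ 1 / 2 ∧ e ≤ ρ / 16 :=
    ⟨min (1 / 2) (ρ / 16), lt_min (by norm_num) (by positivity), min_le_left _ _, min_le_right _ _⟩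
  obtain ⟨C1, hC1, hW⟩ := hW c0 (e ^ 2) (by positivity)
  obtain ⟨C2, hC2, hC⟩ := hC c0 (e ^ 2) (by positivity)
  refine ⟨ρ / 4, C1 + C2 + 1, by positivity, by positivity, ?_⟩
  intro k Y hY S U T a T1 hk hG hF ha1 h1T hfa hf1 hfn
  have hk1 : (1 : ℝ) ≤ k := by linarith
  have hk1' : 1 ≤ k := by exact_mod_cast hk1
  have haT : a ≤ T := ha1.trans h1T
  have ra1 : (a : ℝ) ≤ T1 := by exact_mod_cast ha1
  have r1T : (T1 : ℝ) ≤ T := by exact_mod_cast h1T
  have raT : (a : ℝ) ≤ T := ra1.trans r1T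
  have heta : eta ≤ 1 / 10 := by rw [eta]; norm_num
  have heta0 : 0 ≤ eta := by rw [eta]; norm_num
  obtain ⟨-, pt, -, -, cD, cS, aS, -, dec, -⟩ := hP Y hY.toPlane k S U a T hF haT
  obtain ⟨c, hc⟩ : ∃ c : ℝ, c = a + (∫ t in (a : ℝ)..T, Y.sq (S.Pt U a T t)) / (3 * k ^ 2) :=
    ⟨_, rfl⟩
  obtain ⟨hcI, lam, bigc⟩ := hM Y hY k S U a T c hk1' hF haT (by linarith) hc
  obtain ⟨-, loc, -, nefc, -⟩ := pt c hcI
  have hBc0 : 0 ≤ S.Bh U a T c := (toR_nonneg _).trans loc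
  obtain ⟨Q, qok⟩ := hQ Y hY k (S.Bh U a T c) (by linarith) hBc0 nefc lam
  have hne : ∀ n ≤ T, U n ≠ ⊥ := fun n hn h => hF.2 (eq_bot_iff.2 (h ▸ hF.1 hn))
  obtain ⟨f0, -, kap0, -⟩ := hL.fM Y hY k S (U a) hk1' (hne a haT)
  have hmu : (k : ℝ) * S.fM (U a) ≤ S.mu (U a) := by
    have : 0 ≤ min (Y.kap (S.mov (U a))) (k : ℝ) := le_min kap0 (by linarith)
    rw [Sec.mu]; linarith
  have hmu0 : 0 ≤ S.mu (U a) := le_trans (by positivity) hmu
  have hce : ∀ t ∈ Set.Icc (a : ℝ) T, a ≤ ⌈t⌉₊ ∧ ⌈t⌉₊ ≤ T := fun t ht =>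
    ⟨by exact_mod_cast ht.1.trans (Nat.le_ceil t), Nat.ceil_le.2 ht.2⟩
  have hI1 : (T1 : ℝ) ∈ Set.Icc (a : ℝ) T := ⟨ra1, r1T⟩
  have big1 : 12 / 5 * (k : ℝ) ^ 2 ≤ Y.sq (S.Pt U a T T1) := by
    have h := (pt T1 hI1).2.2.2.2
    rw [Nat.ceil_natCast, sq_mov S _ hk1] at h
    nlinarith [sq_nonneg (k : ℝ)]
  have hτ : 0 ≤ e * ((T : ℝ) - T1) := mul_nonneg he0.le (by linarith)
  have hγβ : (T1 : ℝ) + (T - T1) / 2 ≤ T - e * (T - T1) := by nlinarith
  have hβ : (T : ℝ) - e * (T - T1) ∈ Set.Icc (a : ℝ) T := ⟨by linarith, by linarith⟩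
  have hsub : ∀ t ∈ Set.Icc (a : ℝ) (T - e * (T - T1)), t ∈ Set.Icc (a : ℝ) T := fun t ht =>
    ⟨ht.1, ht.2.trans hβ.2⟩
  have ctx : ∀ t ∈ Set.Icc (a : ℝ) (T - e * (T - T1)),
      S.Ctx c0 (e ^ 2) (U a) (U ⌈t⌉₊) (S.Bh U a T t) (S.Bh U a T c) Q := by
    intro t ht
    have ht' := hsub t ht
    obtain ⟨-, lo, hi, nef, -⟩ := pt t ht'
    refine ⟨hF.1 (hce t ht').1, hne _ (hce t ht').2, lo, hi, nef, ?_, loc, nefc, bigc, lam, qok⟩
    change e ^ 2 * (k : ℝ) ^ 2 ≤ Y.sq (S.Pt U a T t)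
    rcases le_or_gt t T1 with h | h
    · have h1 : Y.sq (S.Pt U a T T1) ≤ Y.sq (S.Pt U a T t) := aS ht' hI1 h
      have h2 : e ^ 2 ≤ 1 := by nlinarith
      nlinarith [sq_nonneg (k : ℝ)]
    · exact sq_after he0.le h ht.2 r1T (sq_nonneg _) (by nlinarith [sq_nonneg (k : ℝ)])
        (dec T1 hI1 t ⟨h.le, ht'.2⟩)
  obtain ⟨icol, hcol⟩ := hC k Y hY S U a T _ (S.Bh U a T c) Q (by linarith) hF hβ ctx
  obtain ⟨Bb, hb0, hbn, hbb, ipsi, hpsi⟩ :=
    hS k Y hY S U a T _ (S.Bh U a T c) (Y.SS k (S.Bh U a T c) Q) hF hβ hBc0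
  obtain ⟨iBo, tan⟩ := hT Y hY.toPlane k S U a T c hF hcI
  obtain ⟨irk, srk⟩ := ceil_sum (fun n => (finrank ℂ (U n) : ℝ)) haT
  have iS : IntervalIntegrable (fun t => Y.sq (S.Pt U a T t)) volume a T :=
    ContinuousOn.intervalIntegrable (by rwa [Set.uIcc_of_le raT])
  have iL : IntervalIntegrable (fun t => Y.ip (S.Pt U a T t) ((k : ℝ) • Y.L)) volume a T := by
    simp_rw [Tree.ip_comm (S.Pt U a T _) ((k : ℝ) • Y.L)]
    exact ContinuousOn.intervalIntegrable (by rw [Set.uIcc_of_le raT]; exact cD _)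
  have iO : IntervalIntegrable (fun t => Y.ip (S.Pt U a T t)
      ((k : ℝ) • Y.L - Y.cl (S.Bo (U a) (S.Bh U a T t) (S.Bh U a T c)))) volume a T := by
    simp_rw [Tree.ip_sub_right]
    exact iL.sub iBo
  have key := assemble (R := ρ * k) (C1 := C1 * (1 + S.mu (U a))) (D := 4 * k)
    (I := fun t => Y.sq (S.Pt U a T t) / 2 + Y.ip (S.Pt U a T t)
      ((k : ℝ) • Y.L - Y.cl (S.Bo (U a) (S.Bh U a T t) (S.Bh U a T c))) / (2 * k) -
        finrank ℂ (U ⌈t⌉₊)) ra1 (by linarith) hγβ hβ.2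
    (((iS.div_const _).add (iO.div_const _)).sub irk) icol ipsi hcol hpsi
    (fun t ht => by
      have := hW k Y hY S _ _ _ _ Bb Q (by linarith) hG (ctx t ht) hb0 hbn (hbb t ht) 0
        (Or.inl rfl)
      rw [zero_mul, add_zero] at this
      exact this)
    (fun t ht => by
      have ht1 : t ∈ Set.Icc (a : ℝ) (T - e * (T - T1)) := ⟨by linarith [ht.1], by linarith [ht.2]⟩
      have ht' := hsub t ht1
      have hq := sq_after (e := 1 / 2) (by norm_num) ht.1 (by linarith [ht.2]) r1T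
        (by positivity) big1 (dec T1 hI1 t ⟨ht.1.le, ht'.2⟩)
      have := hW k Y hY S _ _ _ _ Bb Q (by linarith) hG (ctx t ht1) hb0 hbn (hbb t ht1) 1
        (Or.inr ⟨rfl, le_trans (by linarith) hq, hfa,
          hfn _ (Nat.lt_ceil.2 ht.1) (hce t ht').2⟩)
      rw [one_mul] at this
      exact this)
    (fun t ht => by
      have ht' : t ∈ Set.Icc (a : ℝ) T := ⟨hβ.1.trans ht.1, ht.2⟩
      obtain ⟨-, -, -, nef, hsq⟩ := pt t ht'
      have h1 := hL.crude Y hY k S (U ⌈t⌉₊) hk1' hG.rr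
      have h2 := hA.nef_nef Y hY.toPlane _ _ nef nefc
      have h3 := nef.ip_cl (sub_nonneg.2 (bo_le S (U a) (S.Bh U a T t) _ loc))
      have h4 : 0 ≤ Y.ip (S.Pt U a T t)
          ((k : ℝ) • Y.L - Y.cl (S.Bo (U a) (S.Bh U a T t) (S.Bh U a T c))) := by
        rw [map_sub, Tree.ip_sub_right] at h3
        rw [Sec.Pt.eq_1 S U a T c, Tree.ip_sub_right] at h2
        rw [Tree.ip_sub_right]
        linarith
      have h5 := div_nonneg h4 (show (0 : ℝ) ≤ 2 * k by positivity)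
      linarith)
  have e1 : ∀ t, Y.ip (S.Pt U a T t) (Y.cl (S.Bh U a T t -
      S.Bo (U a) (S.Bh U a T t) (S.Bh U a T c))) = Y.ip (S.Pt U a T t)
      ((k : ℝ) • Y.L - Y.cl (S.Bo (U a) (S.Bh U a T t) (S.Bh U a T c))) -
        Y.sq (S.Pt U a T t) := fun t => by
    rw [Tree.sq, ← Tree.ip_sub_right, map_sub]
    congr 1
    rw [Sec.Pt]
    abel
  simp_rw [e1] at tan
  rw [intervalIntegral.integral_sub iO iS, sq_mov S _ hk1] at tan
  rw [intervalIntegral.integral_sub ((iS.div_const _).add (iO.div_const _)) irk,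
    intervalIntegral.integral_add (iS.div_const _) (iO.div_const _),
    intervalIntegral.integral_div, intervalIntegral.integral_div, srk] at key
  rw [intervalIntegral.integral_const_mul]
  have hX0 : 0 ≤ ∫ t in (a : ℝ)..T, Y.sq (S.Pt U a T t) :=
    intervalIntegral.integral_nonneg raT fun t ht =>
      (hA.nef Y hY.toPlane _ (pt t ht).2.2.2.1).2.2
  have hr := rat_ge hk1 hX0
  generalize (∫ t in (a : ℝ)..T, Y.sq (S.Pt U a T t)) = X at *
  generalize (∫ t in (a : ℝ)..T, Y.ip (S.Pt U a T t)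
      ((k : ℝ) • Y.L - Y.cl (S.Bo (U a) (S.Bh U a T t) (S.Bh U a T c)))) = Z at *
  have hX : X = 3 * k ^ 2 * (c - a) := by
    rw [hc]
    field_simp
    ring
  have hZ : Z / (2 * k) ≤ X / (2 * k) + S.mu (U a) * (T - a) := by
    have h1 : Z - X ≤ 2 * k * (3 / 4 * (k * S.fM (U a)) * (c - a)) := by
      refine tan.trans (le_of_eq ?_)
      rw [hX]
      ring
    have h2 : 3 / 4 * (k * S.fM (U a)) * (c - a) ≤ S.mu (U a) * (T - a) :=
      mul_le_mul (by linarith) (by linarith [hcI.2]) (by linarith [hcI.1]) hmu0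
    have h3 : (Z - X) / (2 * k) ≤ 3 / 4 * (k * S.fM (U a)) * (c - a) := by
      rw [div_le_iff₀ (by positivity)]
      linarith
    rw [sub_div] at h3
    linarith
  have g1 : (C1 * (1 + S.mu (U a)) + C2 * (1 + S.mu (U a))) * (T - e * (T - T1) - a) ≤
      (C1 + C2) * (1 + S.mu (U a)) * (T - a) :=
    mul_le_mul (le_of_eq (by ring)) (by linarith) (by linarith [hβ.1]) (by positivity)
  have g2 : 4 * (k : ℝ) * (T - (T - e * (T - T1))) ≤ ρ / 4 * k * (T - T1) := by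
    have : e * (k * ((T : ℝ) - T1)) ≤ ρ / 16 * (k * (T - T1)) :=
      mul_le_mul_of_nonneg_right he2 (mul_nonneg (by linarith) (by linarith))
    linarith
  have g3 : 0 ≤ (T : ℝ) - a := by linarith
  linarith

end Pool.Agent.Lib.MP_a25055_ag
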