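import Pool.Agent.Lib.MP_a25055_ag.Num

/-! Block ZAR: Zariski decompositions. -/

open Finset MeasureTheory

noncomputable section

namespace Pool.Agent.Lib.MP_a25055_ag

namespace NZAR

open Tree

variable {Y : Tree}

/-- Comparison of intersection numbers along an inequality of divisors. -/
lemma cmp (hY : Y.Plane) (D0 : Y.Cl) {B B' : Y.I →₀ ℝ} (h : B ≤ B') (j : Y.I) :
    Y.ip (D0 - Y.cl B') (Y.gam j) + (B' j - B j) * Y.ip (Y.gam j) (Y.gam j) ≤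
      Y.ip (D0 - Y.cl B) (Y.gam j) := by
  have h1 : 0 ≤ Y.ip (Y.cl (B' - B - Finsupp.single j (B' j - B j))) (Y.gam j) := by
    refine hY.cl_ip (fun i => ?_) (by simp)
    by_cases hi : i = j
    · subst hi
      simp
    · have := h i
      simp [Finsupp.single_eq_of_ne hi, this]
  rw [map_sub, map_sub, cl_single, ip_sub_left, ip_sub_left, ip_smul_left] at h1
  rw [ip_sub_left, ip_sub_left]
  linarith

lemma cmp_eq (hY : Y.Plane) (D0 : Y.Cl) {B B' : Y.I →₀ ℝ} (h : B ≤ B') {j : Y.I}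
    (hj : B' j = B j) : Y.ip (D0 - Y.cl B') (Y.gam j) ≤ Y.ip (D0 - Y.cl B) (Y.gam j) := by
  have := cmp hY D0 h j
  rw [hj, sub_self, zero_mul, add_zero] at this
  exact this

lemma exists_least (hY : Y.Plane) {D0 : Y.Cl} {B0 : Y.I →₀ ℝ} (h : Y.Feas D0 B0) :
    ∃ B, IsLeast {B | B0 ≤ B ∧ Y.Nef (D0 - Y.cl B)} B := by
  obtain ⟨B1, h1, h2⟩ := h
  let s : Y.I → Set ℝ := fun i => {x | ∃ B, (B0 ≤ B ∧ Y.Nef (D0 - Y.cl B)) ∧ B i = x}
  have hne : ∀ i, (s i).Nonempty := fun i => ⟨_, B1, ⟨h1, h2⟩, rfl⟩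
  have hlb : ∀ i, B0 i ∈ lowerBounds (s i) := by
    rintro i x ⟨B, hB, rfl⟩
    exact hB.1 i
  have hbd : ∀ i, BddBelow (s i) := fun i => ⟨_, hlb i⟩
  have hlo : ∀ i, B0 i ≤ sInf (s i) := fun i => le_csInf (hne i) (hlb i)
  have hhi : ∀ B, B0 ≤ B → Y.Nef (D0 - Y.cl B) → ∀ i, sInf (s i) ≤ B i := fun B a b i =>
    csInf_le (hbd i) ⟨B, ⟨a, b⟩, rfl⟩
  let M : Y.I →₀ ℝ := Finsupp.onFinset (B0.support ∪ B1.support) (fun i => sInf (s i)) (by
    intro i hi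
    by_contra hn
    rw [Finset.mem_union, not_or, Finsupp.notMem_support_iff, Finsupp.notMem_support_iff] at hn
    have a := hlo i
    have b := hhi B1 h1 h2 i
    rw [hn.1] at a
    rw [hn.2] at b
    exact hi (le_antisymm b a))
  have hM : ∀ i, M i = sInf (s i) := fun i => rfl
  refine ⟨M, ⟨fun i => hlo i, fun j => ?_⟩, fun B hB i => hhi B hB.1 hB.2 i⟩
  refine le_of_forall_pos_le_add fun ε hε => ?_
  set c := Y.ip (Y.gam j) (Y.gam j) with hc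
  have hδ : 0 < ε / (|c| + 1) := by positivity
  obtain ⟨x, ⟨B, hB, rfl⟩, hx⟩ := exists_lt_of_csInf_lt (hne j) (lt_add_of_pos_right _ hδ)
  have h3 := cmp hY D0 (B := M) (B' := B) (fun i => hhi B hB.1 hB.2 i) j
  have h4 := hB.2 j
  have h5 : 0 ≤ B j - M j := sub_nonneg.2 (hhi B hB.1 hB.2 j)
  have h6 : B j - M j ≤ ε / (|c| + 1) := by
    rw [hM]
    linarith
  have h7 : (B j - M j) * (|c| + 1) ≤ ε := (le_div_iff₀ (by positivity)).1 h6
  have h8 : -|c| ≤ c := neg_abs_le c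
  rw [← hc] at h3
  nlinarith [mul_le_mul_of_nonneg_left h8 h5]

lemma bmin_least (hY : Y.Plane) {D0 : Y.Cl} {B0 : Y.I →₀ ℝ} (h : Y.Feas D0 B0) :
    IsLeast {B | B0 ≤ B ∧ Y.Nef (D0 - Y.cl B)} (Y.bmin D0 B0) := by
  have h1 := exists_least hY h
  rw [bmin, dif_pos h1]
  exact h1.choose_spec

lemma le_bmin (hY : Y.Plane) {D0 : Y.Cl} {B0 : Y.I →₀ ℝ} (h : Y.Feas D0 B0) :
    B0 ≤ Y.bmin D0 B0 := (bmin_least hY h).1.1

lemma nef_bmin (hY : Y.Plane) {D0 : Y.Cl} {B0 : Y.I →₀ ℝ} (h : Y.Feas D0 B0) :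
    Y.Nef (D0 - Y.cl (Y.bmin D0 B0)) := (bmin_least hY h).1.2

lemma bmin_le (hY : Y.Plane) {D0 : Y.Cl} {B0 B : Y.I →₀ ℝ} (h1 : B0 ≤ B)
    (h2 : Y.Nef (D0 - Y.cl B)) : Y.bmin D0 B0 ≤ B := (bmin_least hY ⟨B, h1, h2⟩).2 ⟨h1, h2⟩

lemma dmin_eq {D0 : Y.Cl} {B0 : Y.I →₀ ℝ} (h : Y.Feas D0 B0) :
    Y.dmin D0 B0 = D0 - Y.cl (Y.bmin D0 B0) := by
  rw [dmin, if_pos h]

lemma dmin_zero {D0 : Y.Cl} {B0 : Y.I →₀ ℝ} (h : ¬ Y.Feas D0 B0) : Y.dmin D0 B0 = 0 := by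
  rw [dmin, if_neg h]

lemma nef_dmin (hY : Y.Plane) (D0 : Y.Cl) (B0 : Y.I →₀ ℝ) : Y.Nef (Y.dmin D0 B0) := by
  by_cases h : Y.Feas D0 B0
  · rw [dmin_eq h]
    exact nef_bmin hY h
  · rw [dmin_zero h]
    intro i
    simp

lemma feas_mono {D0 : Y.Cl} {B0 B1 : Y.I →₀ ℝ} (h : Y.Feas D0 B1) (h1 : B0 ≤ B1) :
    Y.Feas D0 B0 := by
  obtain ⟨B, a, b⟩ := h
  exact ⟨B, h1.trans a, b⟩

lemma orth (hY : Y.Plane) {D0 : Y.Cl} {B0 : Y.I →₀ ℝ} (h : Y.Feas D0 B0) {i : Y.I}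
    (hi : B0 i < Y.bmin D0 B0 i) : Y.ip (D0 - Y.cl (Y.bmin D0 B0)) (Y.gam i) = 0 := by
  have hn := nef_bmin hY h
  have hl := le_bmin hY h
  set M := Y.bmin D0 B0 with hM
  by_contra h0
  have hw : 0 < Y.ip (D0 - Y.cl M) (Y.gam i) := lt_of_le_of_ne (hn i) (Ne.symm h0)
  set w := Y.ip (D0 - Y.cl M) (Y.gam i) with hw'
  set c := Y.ip (Y.gam i) (Y.gam i) with hc
  set ε := min (M i - B0 i) (w / (|c| + 1)) with hε
  have hε0 : 0 < ε := lt_min (sub_pos.2 hi) (by positivity)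
  have hε1 : ε ≤ M i - B0 i := min_le_left _ _
  have hε2 : ε * (|c| + 1) ≤ w := (le_div_iff₀ (by positivity)).1 (min_le_right _ _)
  have h1 : M ≤ M - Finsupp.single i ε := by
    refine bmin_le hY (fun j => ?_) fun j => ?_
    · by_cases hj : j = i
      · subst hj
        simp only [Finsupp.coe_sub, Pi.sub_apply, Finsupp.single_eq_same]
        linarith
      · simpa [Finsupp.single_eq_of_ne hj] using hl j
    · have e : D0 - Y.cl (M - Finsupp.single i ε) = (D0 - Y.cl M) + ε • Y.gam i := by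
        rw [map_sub, cl_single]
        abel
      rw [e, ip_add_left, ip_smul_left]
      by_cases hj : j = i
      · subst hj
        have h8 : -|c| ≤ c := neg_abs_le c
        nlinarith [mul_le_mul_of_nonneg_left h8 hε0.le]
      · exact add_nonneg (hn j) (mul_nonneg hε0.le (hY.inter _ _ (Ne.symm hj)))
  have h2 := h1 i
  simp only [Finsupp.coe_sub, Pi.sub_apply, Finsupp.single_eq_same] at h2
  linarith

lemma comb_cl (D0 : Y.Cl) (B1 B2 : Y.I →₀ ℝ) {a b : ℝ} (hab : a + b = 1) :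
    D0 - Y.cl (a • B1 + b • B2) = a • (D0 - Y.cl B1) + b • (D0 - Y.cl B2) := by
  rw [map_add, map_smul, map_smul, smul_sub, smul_sub]
  have : D0 = a • D0 + b • D0 := by rw [← add_smul, hab, one_smul]
  conv_lhs => rw [this]
  abel

lemma comb_nef {D0 : Y.Cl} {B1 B2 : Y.I →₀ ℝ} {a b : ℝ} (ha : 0 ≤ a) (hb : 0 ≤ b)
    (hab : a + b = 1) (h1 : Y.Nef (D0 - Y.cl B1)) (h2 : Y.Nef (D0 - Y.cl B2)) :
    Y.Nef (D0 - Y.cl (a • B1 + b • B2)) := fun i => by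
  rw [comb_cl D0 B1 B2 hab, ip_add_left, ip_smul_left, ip_smul_left]
  exact add_nonneg (mul_nonneg ha (h1 i)) (mul_nonneg hb (h2 i))

lemma sup_le_of {B1 B : Y.I →₀ ℝ} {F : Y.I} {x : ℝ} (h0 : 0 ≤ B1) (h1 : B1 ≤ B) (h2 : x ≤ B F) :
    B1 ⊔ Finsupp.single F x ≤ B := by
  refine sup_le h1 fun i => ?_
  by_cases hi : i = F
  · subst hi
    simpa using h2
  · rw [Finsupp.single_eq_of_ne hi]
    exact (h0.trans h1) i

lemma le_of_sup {B1 B : Y.I →₀ ℝ} {F : Y.I} {x : ℝ} (h : B1 ⊔ Finsupp.single F x ≤ B) :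
    B1 ≤ B ∧ x ≤ B F :=
  ⟨le_sup_left.trans h, by simpa using (le_sup_right.trans h) F⟩

lemma tight (hY : Y.Plane) {D0 : Y.Cl} {B1 : Y.I →₀ ℝ} {F : Y.I} {x : ℝ} (h0 : 0 ≤ B1)
    (hn : Y.Nef (D0 - Y.cl B1)) (hx : B1 F ≤ x) (hf : Y.Feas D0 (B1 ⊔ Finsupp.single F x)) :
    Y.bmin D0 (B1 ⊔ Finsupp.single F x) F = x := by
  obtain ⟨h1, h2⟩ := le_of_sup (le_bmin hY hf)
  have h3 := nef_bmin hY hf
  set M := Y.bmin D0 (B1 ⊔ Finsupp.single F x) with hM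
  refine le_antisymm ?_ h2
  by_contra hlt
  push Not at hlt
  have hd : 0 < M F - B1 F := by linarith
  set t := (x - B1 F) / (M F - B1 F) with ht
  have ht0 : 0 ≤ t := div_nonneg (by linarith) hd.le
  have ht1 : t ≤ 1 := (div_le_one hd).2 (by linarith)
  have ht2 : t * (M F - B1 F) = x - B1 F := div_mul_cancel₀ _ hd.ne'
  have h4 : ((1 - t) • B1 + t • M) F = x := by
    simp only [Finsupp.coe_add, Finsupp.coe_smul, Pi.add_apply, Pi.smul_apply, smul_eq_mul]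
    linarith
  have h5 : M ≤ (1 - t) • B1 + t • M := by
    refine bmin_le hY (sup_le_of h0 (fun i => ?_) h4.ge)
      (comb_nef (by linarith) ht0 (by ring) hn h3)
    simp only [Finsupp.coe_add, Finsupp.coe_smul, Pi.add_apply, Pi.smul_apply, smul_eq_mul]
    nlinarith [mul_le_mul_of_nonneg_left (h1 i) ht0]
  have h6 := h5 F
  rw [h4] at h6
  linarith

lemma bound (hY : Y.Plane) {D0 : Y.Cl} {B1 B : Y.I →₀ ℝ} (F : Y.I) (h0 : 0 ≤ B1) (h1 : B1 ≤ B)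
    (hn : Y.Nef (D0 - Y.cl B)) : Y.ip (D0 - Y.cl B) (Y.gam F) ≤ Y.hf D0 B1 F (B F) := by
  have h2 : B1 ⊔ Finsupp.single F (B F) ≤ B := sup_le_of h0 h1 le_rfl
  have hf : Y.Feas D0 (B1 ⊔ Finsupp.single F (B F)) := ⟨B, h2, hn⟩
  have h3 := bmin_le hY h2 hn
  rw [Tree.hf, dmin_eq hf]
  exact cmp_eq hY D0 h3 (le_antisymm (le_of_sup (le_bmin hY hf)).2 (h3 F))

lemma hf_nonneg (hY : Y.Plane) (D0 : Y.Cl) (B1 : Y.I →₀ ℝ) (F : Y.I) (x : ℝ) :
    0 ≤ Y.hf D0 B1 F x := nef_dmin hY _ _ F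

lemma hf_zero {D0 : Y.Cl} {B1 : Y.I →₀ ℝ} {F : Y.I} {x : ℝ}
    (h : ¬ Y.Feas D0 (B1 ⊔ Finsupp.single F x)) : Y.hf D0 B1 F x = 0 := by
  rw [Tree.hf, dmin_zero h, ip_zero_left]

lemma single_mono (B1 : Y.I →₀ ℝ) (F : Y.I) {x y : ℝ} (h : x ≤ y) :
    B1 ⊔ Finsupp.single F x ≤ B1 ⊔ Finsupp.single F y := by
  refine sup_le_sup_left (fun i => ?_) _
  by_cases hi : i = F
  · subst hi
    simpa using h
  · simp [Finsupp.single_eq_of_ne hi]

/-- The restricted volume minus a linear function is antitone. -/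
lemma hf_anti (hY : Y.Plane) {D0 : Y.Cl} {B1 : Y.I →₀ ℝ} (F : Y.I) (h0 : 0 ≤ B1)
    (hn : Y.Nef (D0 - Y.cl B1)) :
    AntitoneOn (fun x => Y.hf D0 B1 F x - |Y.ip (Y.gam F) (Y.gam F)| * x) (Set.Ici (B1 F)) := by
  intro x hx y hy hxy
  have hc := abs_nonneg (Y.ip (Y.gam F) (Y.gam F))
  have hd : 0 ≤ y - x := sub_nonneg.2 hxy
  by_cases hf : Y.Feas D0 (B1 ⊔ Finsupp.single F y)
  · have hs := single_mono B1 F hxy
    have hf' := feas_mono hf hs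
    have h1 := cmp hY D0 (bmin_le hY (hs.trans (le_bmin hY hf)) (nef_bmin hY hf)) F
    rw [tight hY h0 hn hx hf', tight hY h0 hn hy hf, ← dmin_eq hf, ← dmin_eq hf'] at h1
    have h8 := neg_abs_le (Y.ip (Y.gam F) (Y.gam F))
    simp only [Tree.hf]
    nlinarith [mul_le_mul_of_nonneg_left h8 hd]
  · have h1 := hf_nonneg hY D0 B1 F x
    simp only [hf_zero hf]
    nlinarith [mul_nonneg hc hd]

end NZAR

open NZAR Tree in
theorem zar_of (hA : St_NA) : St_ZAR where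
  least Y hY D0 B0 h := ⟨le_bmin hY h, dmin_eq h, nef_dmin hY _ _,
    fun B h1 h2 => bmin_le hY h1 h2, fun i hi => by rw [dmin_eq h]; exact orth hY h hi⟩
  nef Y hY D0 B0 := nef_dmin hY D0 B0
  absorb Y hY D0 B0 B1 B2 h h0 h1 h2 := by
    have hn := nef_bmin hY h
    have f0 : Y.Feas D0 B0 := ⟨_, h0, hn⟩
    have h3 : Y.bmin D0 B0 ⊔ B1 ≤ Y.bmin D0 B2 := sup_le (bmin_le hY h0 hn) h1
    have f1 : Y.Feas D0 (Y.bmin D0 B0 ⊔ B1) := ⟨_, h3, hn⟩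
    refine ⟨f0, f1, le_antisymm (bmin_le hY h3 hn) (bmin_le hY ?_ (nef_bmin hY f1))⟩
    exact h2.trans ((sup_le_sup_right (le_bmin hY f0) _).trans (le_bmin hY f1))
  tight Y hY D0 B1 F x h0 hn hx hf := tight hY h0 hn hx hf
  self Y hY D0 B1 F h0 hn := by
    have e : B1 ⊔ Finsupp.single F (B1 F) = B1 :=
      le_antisymm (sup_le_of h0 le_rfl le_rfl) le_sup_left
    have f : Y.Feas D0 B1 := ⟨B1, le_rfl, hn⟩
    rw [Tree.hf, e, dmin_eq f, le_antisymm (bmin_le hY le_rfl hn) (le_bmin hY f)]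
  bound Y hY D0 B1 B F h0 h1 hn := bound hY F h0 h1 hn
  anti Y hY D0 B1 B2 F x h0 h1 hn hx := by
    by_cases hf : Y.Feas D0 (B2 ⊔ Finsupp.single F x)
    · have h2 := bound hY F h0 (h1.trans (le_of_sup (le_bmin hY hf)).1) (nef_bmin hY hf)
      rw [tight hY (h0.trans h1) hn hx hf, ← dmin_eq hf] at h2
      exact h2
    · rw [hf_zero hf]
      exact hf_nonneg hY _ _ _ _
  conc Y hY D0 B B1 B2 F x1 x2 a b ha hb hab h0 h1 h2 hB n1 n2 hx1 hx2 f1 f2 := by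
    have t1 := tight hY h1 n1 hx1 f1
    have t2 := tight hY h2 n2 hx2 f2
    have l1 := (le_of_sup (le_bmin hY f1)).1
    have l2 := (le_of_sup (le_bmin hY f2)).1
    have hn := comb_nef ha hb hab (nef_bmin hY f1) (nef_bmin hY f2)
    have hle : B ≤ a • Y.bmin D0 (B1 ⊔ Finsupp.single F x1) +
        b • Y.bmin D0 (B2 ⊔ Finsupp.single F x2) :=
      hB.trans (add_le_add (smul_le_smul_of_nonneg_left l1 ha) (smul_le_smul_of_nonneg_left l2 hb))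
    have hF : (a • Y.bmin D0 (B1 ⊔ Finsupp.single F x1) +
        b • Y.bmin D0 (B2 ⊔ Finsupp.single F x2)) F = a * x1 + b * x2 := by
      simp only [Finsupp.coe_add, Finsupp.coe_smul, Pi.add_apply, Pi.smul_apply, smul_eq_mul, t1, t2]
    refine ⟨⟨_, sup_le_of h0 hle hF.ge, hn⟩, ?_⟩
    have h3 := bound hY F h0 hle hn
    rw [hF, comb_cl _ _ _ hab, ip_add_left, ip_smul_left, ip_smul_left, ← dmin_eq f1,
      ← dmin_eq f2] at h3
    exact h3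
  intg Y hY D0 B1 F u v h0 hn hu hv := by
    have h1 : IntervalIntegrable
        (fun x => Y.hf D0 B1 F x - |Y.ip (Y.gam F) (Y.gam F)| * x) volume u v :=
      ((hf_anti hY F h0 hn).mono fun x hx => (le_min hu hv).trans hx.1).intervalIntegrable
    have h2 : IntervalIntegrable (fun x : ℝ => |Y.ip (Y.gam F) (Y.gam F)| * x) volume u v :=
      (continuous_const.mul continuous_id).intervalIntegrable u v
    simpa using h1.add h2
  vol Y hY G := by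
    have hP := hY.toPlane
    have h0 : ∀ x, 0 ≤ Y.volf G x := fun x => (hA.nef Y hP _ (nef_dmin hP _ _)).2.2
    have h1 : ∀ (B : Y.I →₀ ℝ) x, 0 ≤ B → Y.Nef (Y.L - Y.cl B) → x ≤ B G →
        Y.sq (Y.L - Y.cl B) ≤ Y.volf G x := by
      intro B x hB hn hx
      have h2 : 0 ⊔ Finsupp.single G x ≤ B := sup_le_of le_rfl hB hx
      have f : Y.Feas Y.L (0 ⊔ Finsupp.single G x) := ⟨B, h2, hn⟩
      rw [volf, dmin_eq f]
      exact hA.mono Y _ _ _ (nef_bmin hP f) hn (bmin_le hP h2 hn)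
    refine ⟨fun x y hxy => ?_, h0, h1⟩
    by_cases hf : Y.Feas Y.L (0 ⊔ Finsupp.single G y)
    · obtain ⟨a, b⟩ := le_of_sup (le_bmin hP hf)
      have h2 := h1 _ x a (nef_bmin hP hf) (hxy.trans b)
      rw [← dmin_eq hf] at h2
      exact h2
    · have : Y.volf G y = 0 := by rw [volf, dmin_zero hf, Tree.sq, ip_zero_left]
      rw [this]
      exact h0 x

end Pool.Agent.Lib.MP_a25055_ag
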