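import Pool.Agent.Lib.MP_a25055_ag.NNA
import Pool.Agent.Lib.MP_a25055_ag.NNB
import Pool.Agent.Lib.MP_a25055_ag.NNC
import Pool.Agent.Lib.MP_a25055_ag.NZAR
import Pool.Agent.Lib.MP_a25055_ag.NPF
import Pool.Agent.Lib.MP_a25055_ag.NPR
import Pool.Agent.Lib.MP_a25055_ag.NLIP
import Pool.Agent.Lib.MP_a25055_ag.NBQ
import Pool.Agent.Lib.MP_a25055_ag.NENV
import Pool.Agent.Lib.MP_a25055_ag.NPT
import Pool.Agent.Lib.MP_a25055_ag.NRA
import Pool.Agent.Lib.MP_a25055_ag.NCOL
import Pool.Agent.Lib.MP_a25055_ag.NTAN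
import Pool.Agent.Lib.MP_a25055_ag.NINVL
import Pool.Agent.Lib.MP_a25055_ag.NAZR
import Pool.Agent.Lib.MP_a25055_ag.NFA
import Pool.Agent.Lib.MP_a25055_ag.NFB
import Pool.Agent.Lib.MP_a25055_ag.NFC
import Pool.Agent.Lib.MP_a25055_ag.NAZ
import Pool.Agent.Lib.MP_a25055_ag.NLOW
import Pool.Agent.Lib.MP_a25055_ag.NLAM
import Pool.Agent.Lib.MP_a25055_ag.NW1
import Pool.Agent.Lib.MP_a25055_ag.NPW1
import Pool.Agent.Lib.MP_a25055_ag.NPW2
import Pool.Agent.Lib.MP_a25055_ag.NPW3
import Pool.Agent.Lib.MP_a25055_ag.NPW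
import Pool.Agent.Lib.MP_a25055_ag.NCOLS
import Pool.Agent.Lib.MP_a25055_ag.NPSI
import Pool.Agent.Lib.MP_a25055_ag.NW2
import Pool.Agent.Lib.MP_a25055_ag.NCORE
import Pool.Agent.Lib.MP_a25055_ag.NG3N

namespace Pool.Agent.Lib.MP_a25055_ag

theorem st_na : St_NA := na_of

theorem st_nb : St_NB := nb_of st_na

theorem st_nc : St_NC := nc_of st_na st_nb

theorem st_zar : St_ZAR := zar_of st_na

theorem st_pf : St_PF := pf_of st_na st_zar

theorem st_pr : St_PR := pr_of st_na st_zar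

theorem st_lip : St_LIP := lip_of st_na st_nb st_zar

theorem st_bq : St_BQ := bq_of st_na st_nb st_nc

theorem st_env : St_ENV := env_of

theorem st_pt : St_PT := pt_of st_na st_env

theorem st_ra : St_RA := ra_of

theorem st_col : St_COL := col_of

theorem st_tan : St_TAN := tan_of st_na st_env st_pt

theorem st_invl : St_INVL := invl_of st_na st_nb

theorem st_azr : St_AZR := azr_of st_nc st_zar st_pr

theorem st_fa : St_FA := fa_of st_na st_nb st_nc st_zar st_pf st_ra

theorem st_fb : St_FB := fb_of st_na st_nb st_nc st_zar st_pf st_ra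

theorem st_fc : St_FC := fc_of st_nb st_nc st_zar

theorem st_az : St_AZ := az_of st_na st_nb st_nc st_invl st_azr st_fa st_fb st_fc

theorem st_low : St_LOW := low_of st_na st_nb

theorem st_lam : St_LAM := lam_of st_na st_nb st_zar st_env st_pt st_ra st_az st_low

theorem st_w1 : St_W1 := w1_of st_na st_nb st_env st_pt st_ra st_low

theorem st_pw1 : St_PW1 := pw1_of st_zar

theorem st_pw2 : St_PW2 := pw2_of st_nb st_zar st_pf st_lip st_ra

theorem st_pw3 : St_PW3 := pw3_of st_na st_zar st_lip st_pw2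

theorem st_pw : St_PW := pw_of st_na st_nb st_zar st_lip st_low st_pw1 st_pw2 st_pw3

theorem st_cols : St_COLS := cols_of st_na st_nb st_zar st_lip st_env st_pt st_col st_low st_pw2

theorem st_psi : St_PSI := psi_of st_na st_nb st_env st_pt st_ra

theorem st_w2 : St_W2 := w2_of st_na st_bq st_pt st_tan st_low st_lam st_pw st_cols st_psi

theorem st_core : St_CORE := core_of st_na st_nb st_pt st_low st_w1 st_w2

theorem st_g3n : St_G3N := g3n_of st_na st_nb st_env st_pt

end Pool.Agent.Lib.MP_a25055_ag
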