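import Pool.Agent.Lib.MP_a25055_ag.Inv

/-! Chow stability from the main estimate. -/

open MvPolynomial Filter Topology Module

noncomputable section

namespace Pool.Agent.Lib.MP_a25055_ag

theorem stab_of (hH : St_HM) (hC : St_CW) (hB : St_BC) (hA : St_A1) (hE : St_EST) : St_STAB := by
  classical
  obtain ⟨k0, hk0⟩ := hE
  refine ⟨max k0 1, fun k hk f hf hd => ?_⟩
  have hk1 : 1 ≤ k := (le_max_right _ _).trans hk
  have hirr := hA.irr f hf hd
  obtain ⟨N, b, hb⟩ := hB.exb f k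
  obtain ⟨R, hR⟩ := hB.ex f k N b hirr.ne_zero hf hk1 hb
  have hR' := (hB.irr f N b R hirr).1 hR
  refine ⟨N, b, R, hb, hR, hH R hR'.1.ne_zero fun g r hr hr0 => ?_⟩
  obtain ⟨hb2, hR2⟩ := hB.glN f k N b R g (by simp) hb hR'
  obtain ⟨j1, hj1⟩ := Function.ne_iff.1 hr0
  obtain ⟨j0, -, hj0⟩ := Finset.exists_min_image Finset.univ r ⟨j1, Finset.mem_univ _⟩
  have hN : (0 : ℤ) < N := by exact_mod_cast Fin.pos j1
  set r' : Fin N → ℕ := fun j => (r j - r j0).toNat with hr'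
  have h1 : ∀ j, (r' j : ℤ) = r j - r j0 := fun j =>
    Int.toNat_of_nonneg (sub_nonneg.2 (hj0 j (Finset.mem_univ _)))
  have h2 : ∑ j, (r' j : ℤ) = -(N * r j0) := by
    simp only [h1, Finset.sum_sub_distrib, hr, Finset.sum_const, Finset.card_univ, Fintype.card_fin,
      nsmul_eq_mul, zero_sub]
  have h3 : ∃ j, r' j ≠ 0 := by
    by_contra h
    push Not at h
    have e1 : r j0 = 0 := by
      simp only [h, Nat.cast_zero, Finset.sum_const_zero] at h2
      exact (mul_eq_zero.1 (neg_eq_zero.1 h2.symm)).resolve_left hN.ne'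
    have e2 := h1 j1
    rw [h, e1, sub_zero] at e2
    exact hj1 e2.symm
  obtain ⟨hhom, hdif⟩ := hC f 3 k N _ _ r' hirr hf hk1 ⟨hb2.1, hb2.2.2⟩ hR2
  have hlt := hk0 k ((le_max_left _ _).trans hk) f N _ r' _ hf hd hb2 ⟨j0, by simp [hr']⟩ h3 hdif
  obtain ⟨a, ha, hw⟩ := Finset.exists_mem_eq_sup _ (support_nonempty.2 hR2.1.ne_zero)
    (Finsupp.weight fun c : Fin 3 × Fin N => r' c.2)
  refine ⟨a, ha, ?_⟩
  have h4 : ∑ c, a c = 3 * 3 * k ^ 2 := by
    have := hhom (mem_support_iff.1 ha)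
    rw [Finsupp.weight_apply, Finsupp.sum_fintype _ _ (by simp)] at this
    simpa using this
  have h5 : ((weightedTotalDegree (fun c : Fin 3 × Fin N => r' c.2) (act (g : Mat N) R) : ℕ) : ℤ) =
      ∑ c, (a c : ℤ) * r c.2 - 9 * k ^ 2 * r j0 := by
    rw [weightedTotalDegree, hw, Finsupp.weight_apply, Finsupp.sum_fintype _ _ (by simp)]
    have e1 : (9 : ℤ) * k ^ 2 = ∑ c, (a c : ℤ) := by exact_mod_cast h4.symm
    rw [e1, Finset.sum_mul, ← Finset.sum_sub_distrib]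
    push_cast
    refine Finset.sum_congr rfl fun c _ => ?_
    rw [smul_eq_mul, Nat.cast_mul, h1, mul_sub]
  rw [h5, h2] at hlt
  have h6 : (0 : ℤ) < ∑ c, (a c : ℤ) * r c.2 := by
    refine pos_of_mul_pos_left (b := (N : ℤ)) ?_ hN.le
    linarith
  simp only [wt]
  exact_mod_cast h6

end Pool.Agent.Lib.MP_a25055_ag
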