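import Pool.Agent.Lib.MP_a25055_ag.Geo

/-! The centres of a place. -/

open MvPolynomial Module
open Pool.Agent.Lib.MP_cc3443_ag (Place IsFF divF)
open Pool.Agent.Lib.MP_3c72fe_ag

noncomputable section

namespace Pool.Agent.Lib.MP_a25055_ag

namespace GCEN

variable {K : Type} [Field K] [Algebra ℂ K]

/-- `x` is the point `η` in the chart at `q`. -/
def Rep (η : Fin 3 → K) (q : Node) (x : Fin 2 → K) (l : K) : Prop :=
  ∀ i, η i = l * aeval x (q.sub i)

/-- The point is not constant. -/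
def NC (η : Fin 3 → K) : Prop := ∀ (l : K) (a : Fin 3 → ℂ), ¬ ∀ i, η i = l * algebraMap ℂ K (a i)

/-- Blowing down. -/
def bl (c : Option ℂ) (x : Fin 2 → K) : Fin 2 → K := fun k => aeval x (st c k)

lemma bl_s0 (c : ℂ) (x : Fin 2 → K) : bl (some c) x 0 = x 0 := by simp [bl, st]

lemma bl_s1 (c : ℂ) (x : Fin 2 → K) : bl (some c) x 1 = x 0 * (x 1 + algebraMap ℂ K c) := by
  simp [bl, st]

lemma bl_n0 (x : Fin 2 → K) : bl none x 0 = x 0 * x 1 := by simp [bl, st]

lemma bl_n1 (x : Fin 2 → K) : bl none x 1 = x 1 := by simp [bl, st]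

omit [Field K] [Algebra ℂ K] in
lemma ext2 {x y : Fin 2 → K} (h0 : x 0 = y 0) (h1 : x 1 = y 1) : x = y := by
  funext k; fin_cases k; exacts [h0, h1]

variable {η : Fin 3 → K}

lemma rep_step {p : Node} {c : Option ℂ} {x : Fin 2 → K} {l : K} :
    Rep η (.step p c) x l ↔ Rep η p (bl c x) l := by
  refine forall_congr' fun i => ?_
  rw [Node.sub, ← AlgHom.comp_apply, comp_aeval]
  rfl

lemma rep_c0 {a b : ℂ} {x : Fin 2 → K} {l : K} : Rep η (.root (.c0 a b)) x l ↔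
    η 0 = l ∧ η 1 = l * (algebraMap ℂ K a + x 0) ∧ η 2 = l * (algebraMap ℂ K b + x 1) := by
  simp [Rep, Node.sub, Rt.ch, Fin.forall_fin_succ]

lemma rep_c1 {b : ℂ} {x : Fin 2 → K} {l : K} : Rep η (.root (.c1 b)) x l ↔
    η 0 = l * x 0 ∧ η 1 = l ∧ η 2 = l * (algebraMap ℂ K b + x 1) := by
  simp [Rep, Node.sub, Rt.ch, Fin.forall_fin_succ]

lemma rep_c2 {x : Fin 2 → K} {l : K} : Rep η (.root .c2) x l ↔
    η 0 = l * x 0 ∧ η 1 = l * x 1 ∧ η 2 = l := by
  simp [Rep, Node.sub, Rt.ch, Fin.forall_fin_succ]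

lemma nc_of [IsFF K] (h : IntermediateField.adjoin ℂ {z | ∃ i j, z = η i / η j} = ⊤) : NC η := by
  intro l a ha
  obtain ⟨u, hu⟩ := IsFF.ex (K := K)
  have h1 : IntermediateField.adjoin ℂ {z | ∃ i j, z = η i / η j} ≤ ⊥ := by
    rw [IntermediateField.adjoin_le_iff]
    rintro _ ⟨i, j, rfl⟩
    rw [ha i, ha j]
    by_cases hl : l = 0
    · simp [hl]
    · rw [mul_div_mul_left _ _ hl, ← map_div₀]
      exact IntermediateField.algebraMap_mem _ _
  obtain ⟨c, rfl⟩ := IntermediateField.mem_bot.1 (h1 (h ▸ IntermediateField.mem_top (x := u)))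
  exact hu (isAlgebraic_algebraMap c)

lemma Rep.ne (hη : NC η) {q : Node} {x : Fin 2 → K} {l : K} (h : Rep η q x l) : x ≠ 0 := by
  rintro rfl
  exact hη l (fun i => constantCoeff (q.sub i)) fun i => by rw [h i, aeval_zero]

lemma Rep.lne (hη : NC η) {q : Node} {x : Fin 2 → K} {l : K} (h : Rep η q x l) : l ≠ 0 := by
  rintro rfl
  exact hη 0 0 fun i => by rw [h i, zero_mul, zero_mul]

lemma Rep.ex_ne (hη : NC η) {p : Node} {c : Option ℂ} {x : Fin 2 → K} {l : K}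
    (h : Rep η (.step p c) x l) : x (exI c) ≠ 0 := by
  intro h0
  refine (rep_step.1 h).ne hη ?_
  rcases c with _ | c
  · have : x 1 = 0 := h0
    exact ext2 (by rw [bl_n0, this]; simp) (by rw [bl_n1, this]; simp)
  · have : x 0 = 0 := h0
    exact ext2 (by rw [bl_s0, this]; simp) (by rw [bl_s1, this]; simp)

lemma Rep.uniq (hη : NC η) : ∀ {q : Node} {x x' : Fin 2 → K} {l l' : K},
    Rep η q x l → Rep η q x' l' → x = x'
  | .root (.c0 a b), x, x', l, l', h, h' => by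
    have hl := h.lne hη
    obtain ⟨h0, h1, h2⟩ := rep_c0.1 h
    obtain ⟨g0, g1, g2⟩ := rep_c0.1 h'
    obtain rfl : l = l' := h0.symm.trans g0
    exact ext2 (add_left_cancel (mul_left_cancel₀ hl (h1.symm.trans g1)))
      (add_left_cancel (mul_left_cancel₀ hl (h2.symm.trans g2)))
  | .root (.c1 b), x, x', l, l', h, h' => by
    have hl := h.lne hη
    obtain ⟨h0, h1, h2⟩ := rep_c1.1 h
    obtain ⟨g0, g1, g2⟩ := rep_c1.1 h'
    obtain rfl : l = l' := h1.symm.trans g1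
    exact ext2 (mul_left_cancel₀ hl (h0.symm.trans g0))
      (add_left_cancel (mul_left_cancel₀ hl (h2.symm.trans g2)))
  | .root .c2, x, x', l, l', h, h' => by
    have hl := h.lne hη
    obtain ⟨h0, h1, h2⟩ := rep_c2.1 h
    obtain ⟨g0, g1, g2⟩ := rep_c2.1 h'
    obtain rfl : l = l' := h2.symm.trans g2
    exact ext2 (mul_left_cancel₀ hl (h0.symm.trans g0)) (mul_left_cancel₀ hl (h1.symm.trans g1))
  | .step p c, x, x', l, l', h, h' => by
    have hx := h.ex_ne hη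
    have e := Rep.uniq hη (rep_step.1 h) (rep_step.1 h')
    have e0 := congrFun e 0
    have e1 := congrFun e 1
    rcases c with _ | c
    · rw [bl_n0, bl_n0] at e0
      rw [bl_n1, bl_n1] at e1
      rw [← e1] at e0
      exact ext2 (mul_right_cancel₀ hx e0) e1
    · rw [bl_s0, bl_s0] at e0
      rw [bl_s1, bl_s1, ← e0] at e1
      exact ext2 e0 (add_right_cancel (mul_left_cancel₀ hx e1))

variable [IsFF K] {P : Place K}

lemma one_not : (1 : K) ∉ Ge P 1 := by simp [mem_Ge_one]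

lemma cross {l u v : K} (hl : l ≠ 0) (h : l = l * v * u) (hu : u ∈ Ge P 1) (hv : v ∈ Ge P 0) :
    False := by
  have h1 : v * u = 1 := mul_left_cancel₀ hl (by rw [← mul_assoc, ← h, mul_one])
  exact one_not (h1 ▸ Ge_mul' hv hu (by norm_num))

lemma ca_mem (a : ℂ) {z : K} (hz : z ∈ Ge P 1) : algebraMap ℂ K a + z ∈ Ge P 0 :=
  add_mem (const_mem_Ge a) (Ge_mono (by norm_num) hz)

lemma ca_eq {a b : ℂ} {z w : K} (hz : z ∈ Ge P 1) (hw : w ∈ Ge P 1)
    (h : algebraMap ℂ K a + z = algebraMap ℂ K b + w) : a = b := by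
  have h1 : algebraMap ℂ K (a - b) = w - z := by rw [map_sub]; linear_combination h
  exact sub_eq_zero.1 (P.const_eq_zero (mem_Ge_one.1 (h1 ▸ sub_mem hw hz)))

lemma bl_mem (c : Option ℂ) {x : Fin 2 → K} (hx : ∀ k, x k ∈ Ge P 1) (k : Fin 2) :
    bl c x k ∈ Ge P 1 := by
  rcases c with _ | c <;> fin_cases k
  · exact bl_n0 x ▸ Ge_mul' (hx 0) (hx 1) (by norm_num)
  · exact bl_n1 x ▸ hx 1
  · exact bl_s0 c x ▸ hx 0
  · exact bl_s1 c x ▸ Ge_mul' (hx 0) (add_comm (x 1) _ ▸ ca_mem c (hx 1)) (by norm_num)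

lemma root_eq (hη : NC η) {r r' : Rt} {x x' : Fin 2 → K} {l l' : K} (h : Rep η (.root r) x l)
    (h' : Rep η (.root r') x' l') (hx : ∀ k, x k ∈ Ge P 1) (hx' : ∀ k, x' k ∈ Ge P 1) :
    r = r' := by
  have hl := h.lne hη
  have hl' := h'.lne hη
  rcases r with ⟨a, b⟩ | b | _ <;> rcases r' with ⟨a', b'⟩ | b' | _ <;>
    simp only [rep_c0, rep_c1, rep_c2] at h h' <;> obtain ⟨h0, h1, h2⟩ := h <;>
    obtain ⟨g0, g1, g2⟩ := h'
  · obtain rfl : l = l' := h0.symm.trans g0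
    rw [ca_eq (hx 0) (hx' 0) (mul_left_cancel₀ hl (h1.symm.trans g1)),
      ca_eq (hx 1) (hx' 1) (mul_left_cancel₀ hl (h2.symm.trans g2))]
  · exact (cross hl (by rw [← h1, g1, ← g0, h0]) (hx' 0) (ca_mem a (hx 0))).elim
  · exact (cross hl (by rw [← h2, g2, ← g0, h0]) (hx' 0) (ca_mem b (hx 1))).elim
  · exact (cross hl' (by rw [← g1, h1, ← h0, g0]) (hx 0) (ca_mem a' (hx' 0))).elim
  · obtain rfl : l = l' := h1.symm.trans g1
    rw [ca_eq (hx 1) (hx' 1) (mul_left_cancel₀ hl (h2.symm.trans g2))]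
  · exact (cross hl (by rw [← h2, g2, ← g1, h1]) (hx' 1) (ca_mem b (hx 1))).elim
  · exact (cross hl' (by rw [← g2, h2, ← h0, g0]) (hx 0) (ca_mem b' (hx' 1))).elim
  · exact (cross hl' (by rw [← g2, h2, ← h1, g1]) (hx 1) (ca_mem b' (hx' 1))).elim
  · rfl

lemma node_eq (hη : NC η) : ∀ {q q' : Node} {x x' : Fin 2 → K} {l l' : K}, Rep η q x l →
    Rep η q' x' l' → (∀ k, x k ∈ Ge P 1) → (∀ k, x' k ∈ Ge P 1) → q.dep = q'.dep → q = q'
  | .root _, .root _, _, _, _, _, h, h', hx, hx', _ => by rw [root_eq hη h h' hx hx']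
  | .root _, .step _ _, _, _, _, _, _, _, _, _, hd => by simp [Node.dep] at hd
  | .step _ _, .root _, _, _, _, _, _, _, _, _, hd => by simp [Node.dep] at hd
  | .step p c, .step p' c', x, x', l, l', h, h', hx, hx', hd => by
    have hp : p = p' := node_eq hη (rep_step.1 h) (rep_step.1 h') (bl_mem c hx) (bl_mem c' hx')
      (by simpa [Node.dep] using hd)
    subst hp
    have e := Rep.uniq hη (rep_step.1 h) (rep_step.1 h')
    have e0 := congrFun e 0
    have e1 := congrFun e 1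
    have n := h.ex_ne hη
    have n' := h'.ex_ne hη
    rcases c with _ | c <;> rcases c' with _ | c'
    · rfl
    · rw [bl_n0, bl_s0] at e0
      rw [bl_n1, bl_s1] at e1
      exact (cross (v := x' 1 + algebraMap ℂ K c') (u := x 0) n'
        (by change x' 0 = x' 0 * _ * _; rw [← e1, ← e0, mul_comm]) (hx 0)
        (add_comm (x' 1) _ ▸ ca_mem c' (hx' 1))).elim
    · rw [bl_n0, bl_s0] at e0
      rw [bl_n1, bl_s1] at e1
      exact (cross (v := x 1 + algebraMap ℂ K c) (u := x' 0) n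
        (by change x 0 = x 0 * _ * _; rw [e1, e0, mul_comm]) (hx' 0)
        (add_comm (x 1) _ ▸ ca_mem c (hx 1))).elim
    · rw [bl_s0, bl_s0] at e0
      rw [bl_s1, bl_s1, ← e0] at e1
      rw [ca_eq (a := c) (b := c') (hx 1) (hx' 1) (by
        rw [add_comm, add_comm _ (x' 1)]; exact mul_left_cancel₀ n e1)]

lemma div_lt {a b : K} (h : P.val a < P.val b) : b ≠ 0 ∧ a / b ∈ Ge P 1 := by
  have hb : 0 < P.val b := lt_of_le_of_lt zero_le h
  refine ⟨fun h0 => by simp [h0] at hb, mem_Ge_one.2 ?_⟩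
  rw [map_div₀]
  exact (div_lt_one₀ hb).2 h

lemma div_le {a b : K} (h : P.val a ≤ P.val b) :
    ∃ c : ℂ, a / b - algebraMap ℂ K c ∈ Ge P 1 := by
  obtain ⟨c, hc⟩ := P.exists_res (z := a / b) (P.mem_iff.2 (by
    rw [map_div₀]; exact div_le_one_of_le₀ h zero_le))
  exact ⟨c, mem_Ge_one.2 hc⟩

lemma exists_root (hη : NC η) (P : Place K) :
    ∃ r x i, Rep η (.root r) x (η i) ∧ ∀ k, x k ∈ Ge P 1 := by
  by_cases h : P.val (η 1) ≤ P.val (η 0) ∧ P.val (η 2) ≤ P.val (η 0)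
  · have h0 : η 0 ≠ 0 := by
      intro h0
      have h1 : η 1 = 0 := by simpa [h0] using h.1
      have h2 : η 2 = 0 := by simpa [h0] using h.2
      exact hη 0 0 fun i => by fin_cases i <;> simp [h0, h1, h2]
    obtain ⟨a, ha⟩ := div_le h.1
    obtain ⟨b, hb⟩ := div_le h.2
    refine ⟨.c0 a b, ![η 1 / η 0 - algebraMap ℂ K a, η 2 / η 0 - algebraMap ℂ K b], 0,
      rep_c0.2 ⟨rfl, ?_, ?_⟩, fun k => by fin_cases k; exacts [ha, hb]⟩ <;>
    · simp; field_simp
  rcases le_or_gt (P.val (η 2)) (P.val (η 1)) with h1 | h1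
  · have h2 : P.val (η 0) < P.val (η 1) := by
      by_contra h2
      exact h ⟨not_lt.1 h2, h1.trans (not_lt.1 h2)⟩
    obtain ⟨h0, ha⟩ := div_lt h2
    obtain ⟨b, hb⟩ := div_le h1
    refine ⟨.c1 b, ![η 0 / η 1, η 2 / η 1 - algebraMap ℂ K b], 1,
      rep_c1.2 ⟨?_, rfl, ?_⟩, fun k => by fin_cases k; exacts [ha, hb]⟩ <;>
    · simp; field_simp
  · have h2 : P.val (η 0) < P.val (η 2) := by
      by_contra h2
      exact h ⟨h1.le.trans (not_lt.1 h2), not_lt.1 h2⟩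
    obtain ⟨h0, ha⟩ := div_lt h2
    obtain ⟨-, hb⟩ := div_lt h1
    refine ⟨.c2, ![η 0 / η 2, η 1 / η 2], 2,
      rep_c2.2 ⟨?_, ?_, rfl⟩, fun k => by fin_cases k; exacts [ha, hb]⟩ <;>
    · simp; field_simp

/-- An index of least order. -/
def mj (P : Place K) (x : Fin 2 → K) : Fin 2 := if P.val (x 1) ≤ P.val (x 0) then 0 else 1

/-- The least order. -/
def mo (P : Place K) (x : Fin 2 → K) : ℤ := P.ord (x (mj P x))

lemma le_mj (x : Fin 2 → K) (k : Fin 2) : P.val (x k) ≤ P.val (x (mj P x)) := by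
  unfold mj
  split_ifs with h <;> fin_cases k
  exacts [le_rfl, h, (not_le.1 h).le, le_rfl]

lemma mj_ne {x : Fin 2 → K} (hx : x ≠ 0) : x (mj P x) ≠ 0 := fun h => hx (funext fun k => by
  simpa [h] using le_mj (P := P) x k)

lemma exists_step {x : Fin 2 → K} (h0 : x ≠ 0) (hx : ∀ k, x k ∈ Ge P 1) :
    ∃ c x', bl c x' = x ∧ (∀ k, x' k ∈ Ge P 1) ∧ x' (exI c) = x (mj P x) := by
  have hm := mj_ne (P := P) h0
  by_cases h : P.val (x 1) ≤ P.val (x 0)
  · rw [mj, if_pos h] at hm ⊢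
    obtain ⟨c, hc⟩ := div_le h
    refine ⟨some c, ![x 0, x 1 / x 0 - algebraMap ℂ K c], ext2 (by simp [bl_s0]) ?_,
      fun k => by fin_cases k; exacts [hx 0, hc], rfl⟩
    simp [bl_s1]; field_simp
  · rw [mj, if_neg h] at hm ⊢
    refine ⟨none, ![x 0 / x 1, x 1], ext2 ?_ (by simp [bl_n1]),
      fun k => by fin_cases k; exacts [(div_lt (not_le.1 h)).2, hx 1], rfl⟩
    simp [bl_n0, hm]

lemma exists_cen (hη : NC η) (P : Place K) : ∃ i, ∀ n, ∃ q : Node, q.dep = n ∧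
    ∃ x, Rep η q x (η i) ∧ ∀ k, x k ∈ Ge P 1 := by
  obtain ⟨r, x, i, h, hx⟩ := exists_root hη P
  refine ⟨i, fun n => ?_⟩
  induction n with
  | zero => exact ⟨.root r, rfl, x, h, hx⟩
  | succ n ih =>
    obtain ⟨q, hq, y, h, hy⟩ := ih
    obtain ⟨c, y', e, hy', -⟩ := exists_step (h.ne hη) hy
    exact ⟨.step q c, by rw [Node.dep, hq], y', rep_step.2 (e ▸ h), hy'⟩

end GCEN

open GCEN Classical in
theorem cen_of : St_CEN := by
  intro K _ _ _ η htop
  have hη := nc_of htop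
  choose ι cen hdep xx hrep hmem using exists_cen hη
  let ξ : Node → Fin 2 → K := fun q => if h : ∃ x l, Rep η q x l then h.choose else 0
  have hξ : ∀ q x l, Rep η q x l → x = ξ q := fun q x l h => by
    have h' : ∃ x l, Rep η q x l := ⟨x, l, h⟩
    obtain ⟨l', hl'⟩ := h'.choose_spec
    simp only [ξ, dif_pos h']
    exact h.uniq hη hl'
  have hx : ∀ P n, xx P n = ξ (cen P n) := fun P n => hξ _ _ _ (hrep P n)
  simp only [hx] at hrep hmem
  have hcen : ∀ P q x l, Rep η q x l → (∀ k, x k ∈ Ge P 1) → q = cen P q.dep :=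
    fun P q x l h hm => node_eq hη h (hrep P _) hm (hmem P _) (hdep P _).symm
  have fH : (Function.support fun P : Place K => -P.ord (η (ι P))).Finite :=
    (Set.finite_iUnion fun i => Place.finite_ord (η i)).subset fun P hP =>
      Set.mem_iUnion.2 ⟨ι P, fun h => hP (by simp only [h, neg_zero])⟩
  have fE : ∀ q : Node, (Function.support fun P : Place K =>
      if q = cen P q.dep then mo P (ξ q) else 0).Finite := fun q =>
    (Set.finite_iUnion fun k => Place.finite_ord (ξ q k)).subset fun P hP =>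
      Set.mem_iUnion.2 ⟨mj P (ξ q), fun h => hP (by simp only [mo, h, ite_self])⟩
  have hE : ∀ P n, Finsupp.ofSupportFinite _ (fE (cen P n)) P = mo P (ξ (cen P n)) := fun P n => by
    rw [Finsupp.ofSupportFinite_coe, hdep, if_pos rfl]
  refine ⟨Finsupp.ofSupportFinite _ fH, ξ, fun q => Finsupp.ofSupportFinite _ (fE q), cen,
    hdep, fun P n => ?_, fun P n => ⟨η (ι P), (hrep P n).lne hη, ?_, hrep P n⟩, fun P n => ?_,
    fun P q hq => ?_, fun q x l h => ⟨hξ q x l h, fun P => hcen P q x l h⟩⟩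
  · obtain ⟨c, y, e, hy, hm⟩ := exists_step ((hrep P n).ne hη) (hmem P n)
    have h1 : Rep η (.step (cen P n) c) y (η (ι P)) := rep_step.2 (e ▸ hrep P n)
    have h2 : Node.step (cen P n) c = cen P (n + 1) := by
      have := hcen P _ _ _ h1 hy
      rwa [Node.dep, hdep] at this
    have h3 : y = ξ (cen P (n + 1)) := h2 ▸ hξ _ _ _ h1
    refine ⟨c, h2.symm, fun k => ?_, h3 ▸ h1.ex_ne hη, ?_⟩
    · rw [← h3, ← e]; rfl
    · rw [hE, ← h3, hm]; rfl
  · rw [Finsupp.ofSupportFinite_coe, neg_neg]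
  · have h0 := mj_ne (P := P) ((hrep P n).ne hη)
    rw [hE]
    refine ⟨(mem_Ge_iff h0).1 (hmem P n _), fun k => ?_, mj P (ξ (cen P n)), fun h => ?_⟩
    · rw [mem_Ge, mo, ← P.val_eq h0]; exact le_mj _ k
    · have := (mem_Ge_iff h0).1 h
      unfold mo at this
      omega
  · rw [Finsupp.ofSupportFinite_coe, if_neg hq]

end Pool.Agent.Lib.MP_a25055_ag
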