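import Pool.Agent.Lib.MP_a25055_ag.Geo

/-! Counting conditions. -/

open MvPolynomial Module
open Pool.Agent.Lib.MP_3c72fe_ag (P2 P3 mult mi tr mem_pow_iff mem_pow_iff_tr)

noncomputable section

namespace Pool.Agent.Lib.MP_a25055_ag

namespace GCNT

lemma fd_hom (e : ℕ) : FiniteDimensional ℂ (hom e) :=
  Submodule.finiteDimensional_of_le (S₂ := restrictTotalDegree (Fin 3) ℂ e) fun _ hs =>
    (mem_restrictTotalDegree _ _ _).2 (IsHomogeneous.totalDegree_le hs)

/-- The index set of the conditions. -/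
def J (m : ℕ) : Finset (Σ _ : ℕ, ℕ) := (Finset.range m).sigma fun n => Finset.range (n + 1)

lemma card_J (m : ℕ) : 2 * (J m).card = m * (m + 1) := by
  simp only [J, Finset.card_sigma, Finset.card_range]
  induction m with
  | zero => simp
  | succ m ih => rw [Finset.sum_range_succ, mul_add, ih]; ring

lemma coeff_zero {a b : ℕ} (g : P2) (s : Fin 2 →₀ ℕ) (h : s 0 < a ∨ s 1 < b) :
    coeff s (X 0 ^ a * X 1 ^ b * g) = 0 := by
  rw [X_pow_eq_monomial, X_pow_eq_monomial, monomial_mul, coeff_monomial_mul', if_neg]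
  intro hle
  have h0 := hle 0
  have h1 := hle 1
  simp at h0 h1
  omega

lemma lab_le {w w' : Node → ℕ} {q : Node} (h : ∀ p ∈ q.prox, w p ≤ w' p) (k : Fin 2)
    (hk : k = 0 ∨ k = 1) : Node.lab w (q.ex k) ≤ Node.lab w' (q.ex k) := by
  cases he : q.ex k with
  | none => exact le_rfl
  | some p =>
    refine h p (Node.mem_prox.2 ?_)
    rcases hk with rfl | rfl
    · exact Or.inl he
    · exact Or.inr he

lemma step (hV : St_VAL) (M : Node → ℕ) (e : ℕ) (q : Node) (W : Submodule ℂ P3) (hW : W ≤ hom e)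
    (h : ∀ s ∈ W, s ≠ 0 → ∀ p ∈ q.prox, wv M p ≤ p.v s) :
    ∃ W' ≤ W, (∀ s ∈ W', s ≠ 0 → wv M q ≤ q.v s) ∧
      2 * finrank ℂ W ≤ 2 * finrank ℂ W' + M q * (M q + 1) := by
  have := fd_hom e
  have : FiniteDimensional ℂ W := Submodule.finiteDimensional_of_le hW
  set a := Node.lab (wv M) (q.ex 0)
  set b := Node.lab (wv M) (q.ex 1)
  let φ : W →ₗ[ℂ] (J (M q) → ℂ) := LinearMap.pi fun j =>
    (lcoeff ℂ (Finsupp.single 0 (a + j.1.2) + Finsupp.single 1 (b + (j.1.1 - j.1.2)))) ∘ₗ
      q.tot.toLinearMap ∘ₗ W.subtype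
  refine ⟨(LinearMap.ker φ).map W.subtype, Submodule.map_subtype_le _ _, ?_, ?_⟩
  · rintro _ ⟨s, hs, rfl⟩ h0
    have nz : NZ (s : P3) := ⟨h0, e, hW s.2⟩
    obtain ⟨u, -, hu⟩ := hV.fac q s nz
    have ha : a ≤ Node.lab (·.v s) (q.ex 0) := lab_le (h s s.2 h0) 0 (Or.inl rfl)
    have hb : b ≤ Node.lab (·.v s) (q.ex 1) := lab_le (h s s.2 h0) 1 (Or.inr rfl)
    refine (mem_pow_iff (hV.ne q s nz).1).1 (mem_pow_iff_tr.2 fun m hm => ?_)
    have e0 : tr 0 (q.tot s) = q.tot s := by
      have : tr 0 = AlgHom.id ℂ P2 := by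
        ext k : 1
        simp [tr]
      rw [this]; rfl
    show coeff m (tr 0 (q.tot s)) = 0
    rw [e0]
    by_cases hc : m 0 < a ∨ m 1 < b
    · rw [hu, mul_assoc]
      exact coeff_zero _ m (by omega)
    · rw [wv_eq, hV.lab, Finsupp.degree_eq_sum, Fin.sum_univ_two] at hm
      have hj : (⟨m 0 - a + (m 1 - b), m 0 - a⟩ : Σ _ : ℕ, ℕ) ∈ J (M q) := by
        simp only [J, Finset.mem_sigma, Finset.mem_range]
        omega
      have h1 := congrFun (LinearMap.mem_ker.1 hs) ⟨_, hj⟩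
      have e1 : m = Finsupp.single 0 (a + (m 0 - a)) +
          Finsupp.single 1 (b + (m 0 - a + (m 1 - b) - (m 0 - a))) := by
        ext k
        fin_cases k
        · simp; omega
        · simp; omega
      rw [e1]
      exact h1
  · have h1 := φ.finrank_range_add_finrank_ker
    have h2 : finrank ℂ (LinearMap.range φ) ≤ (J (M q)).card := by
      refine (Submodule.finrank_le _).trans ?_
      rw [finrank_fintype_fun_eq_card, Fintype.card_coe]
    rw [Submodule.finrank_map_subtype_eq, ← card_J]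
    omega

end GCNT

theorem cnt_of (hV : St_VAL) : St_CNT := by
  intro T M e W hT hW
  induction T using Finset.induction_on_max_value Node.dep with
  | empty => exact ⟨W, le_rfl, by simp, by simp⟩
  | insert q s hq hmax ih =>
    have hp : ∀ x ∈ insert q s, x.prox ⊆ s := fun x hx p hp => by
      refine (Finset.mem_insert.1 (hT x hx hp)).resolve_left ?_
      rintro rfl
      have h1 := Node.prox_dep hp
      rcases Finset.mem_insert.1 hx with rfl | hx
      · exact lt_irrefl _ h1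
      · exact absurd (hmax x hx) (not_le.2 h1)
    obtain ⟨W1, h1, h2, h3⟩ := ih fun x hx => hp x (Finset.mem_insert_of_mem hx)
    obtain ⟨W2, h4, h5, h6⟩ := GCNT.step hV M e q W1 (h1.trans hW) fun g hg h0 p hpq =>
      h2 g hg h0 p (hp q (Finset.mem_insert_self _ _) hpq)
    refine ⟨W2, h4.trans h1, fun g hg h0 x hx => ?_, ?_⟩
    · rcases Finset.mem_insert.1 hx with rfl | hx
      · exact h5 g hg h0
      · exact h2 g (h4 hg) h0 x hx
    · rw [Finset.sum_insert hq]
      omega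

end Pool.Agent.Lib.MP_a25055_ag
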