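import Pool.Agent.Lib.MP_a25055_ag.Geo

/-! The column inequality for systems of plane curves. -/

open MvPolynomial Module
open Pool.Agent.Lib.MP_3c72fe_ag (P2 P3 mult LL el)

noncomputable section

namespace Pool.Agent.Lib.MP_a25055_ag

namespace GCOLG

lemma key {A B V : Type} [AddCommGroup A] [Module ℂ A] [AddCommGroup B] [Module ℂ B]
    [AddCommGroup V] [Module ℂ V] [FiniteDimensional ℂ B] [FiniteDimensional ℂ V] (ψ : A →ₗ[ℂ] B)
    (hψ : Function.Injective ψ) (φ : A →ₗ[ℂ] V) (U2 : Submodule ℂ B)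
    (h : ∀ a, φ a = 0 → ψ a ∈ U2) :
    finrank ℂ (LinearMap.range ψ) ≤ finrank ℂ U2 + finrank ℂ V := by
  have := FiniteDimensional.of_injective ψ hψ
  have h1 := LinearMap.finrank_le_finrank_of_injective
    (f := (ψ.domRestrict (LinearMap.ker φ)).codRestrict U2 fun a => h a.1 a.2)
    fun a b e => Subtype.ext (hψ (congrArg Subtype.val e))
  have h2 := φ.finrank_range_add_finrank_ker
  have h3 := Submodule.finrank_le (LinearMap.range φ)
  rw [LinearMap.finrank_range_of_inj hψ]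
  omega

lemma ip_inl (T T0 : Finset Node) (e : ℕ) (M : Node → ℕ) (Γ : PlC) :
    (gTree T T0).ip (gcl T T0 e M) ((gTree T T0).gam (.inl Γ)) =
      e * Γ.rep.totalDegree - ∑ q ∈ T, (M q : ℝ) * q.m Γ.rep := by
  rw [← Finset.sum_coe_sort T]
  rfl

lemma ip_inr (T T0 : Finset Node) (e : ℕ) (M : Node → ℕ) (p : T) :
    (gTree T T0).ip (gcl T T0 e M) ((gTree T T0).gam (.inr p)) =
      M p - ∑ q ∈ T.filter fun q => p.1 ∈ q.prox, (M q : ℝ) := by
  rw [Finset.sum_filter, ← Finset.sum_coe_sort T]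
  change (e : ℝ) * 0 - ∑ q : T, (M q : ℝ) * ((if p ∈ Finset.univ.filter
    (fun r : T => r.1 ∈ q.1.prox) then 1 else 0) - if q = p then 1 else 0) = _
  simp [mul_sub, Finset.sum_sub_distrib]

end GCOLG

open GCOLG

theorem colg_of (hV : St_VAL) (hP : St_PROX) (hD : St_DIV) (hO : St_ORD) (hN : St_NOE)
    (hC : St_CLF) (hL : St_PLANE) (hS : St_SYS) : St_COLG := by
  intro T T0 k W h hT hA U hU i
  obtain ⟨g, W', e, hd⟩ := hS.dec (U.map W.subtype) (3 * k) ((Submodule.map_subtype_le _ _).trans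
    hA.1) fun h0 => hU (Submodule.map_injective_of_injective W.subtype_injective
      (h0.trans (Submodule.map_bot _).symm))
  have hm : ∀ w ∈ W', ∃ s ∈ U, s.1 = g * w := fun w hw =>
    (hd.eq ▸ Submodule.mem_map_of_mem hw : g * w ∈ U.map W.subtype)
  have hmW : ∀ w : W', g * w.1 ∈ W := fun w => by
    obtain ⟨s, -, hs⟩ := hm w.1 w.2
    exact hs ▸ s.2
  let ψ : W' →ₗ[ℂ] (gSec h).V := ((LinearMap.mulLeft ℂ g).domRestrict W').codRestrict W hmW
  have hψ : Function.Injective ψ := fun a b e =>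
    Subtype.ext (mul_left_cancel₀ hd.nz.1 (congrArg Subtype.val e))
  have hψU : ∀ w, ψ w ∈ U := fun w => by
    obtain ⟨s, h1, h2⟩ := hm w.1 w.2
    exact (Subtype.ext h2 : s = ψ w) ▸ h1
  have hR : LinearMap.range ψ = U := by
    refine le_antisymm (by rintro _ ⟨w, rfl⟩; exact hψU w) fun s hs => ?_
    obtain ⟨w, hw, e⟩ : s.1 ∈ W'.map (LinearMap.mulLeft ℂ g) :=
      hd.eq ▸ Submodule.mem_map_of_mem (f := W.subtype) hs
    exact ⟨⟨w, hw⟩, Subtype.ext e⟩
  have hψ0 : ∀ w : W', w.1 ≠ 0 → ψ w ≠ 0 := fun w hw e =>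
    mul_ne_zero hd.nz.1 hw (congrArg Subtype.val e)
  have hhom : ∀ w : W', w.1.IsHomogeneous e := fun w => hd.mob.le w.2
  have hnef := hS.nef T T0 W' e hT hd.mob i
  have hrel := fun q => hS.rel W' e q hd.mob.le hd.mob.ne
  have hatt := fun q => hS.att W' q hd.mob.ne
  have hord : ∀ w : W', (gSec h).ord (ψ w) =
      gdiv T T0 (fun q => k * wv (ind T0) q) (g * w.1) := fun _ => rfl
  rw [hS.mov T T0 k W h U g W' e hT hA hd]
  rcases i with Γ | p
  · obtain ⟨hi, hz⟩ : Irreducible Γ.rep ∧ NZ Γ.rep := Γ.2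
    obtain ⟨c⟩ := hN.ex _ hi hz
    have h1 := hN.degD _ _ hi (hD.deg Γ).2 c T e (MW W')
    have h2 : ((Finsupp.degree (c.D T e (MW W')) : ℤ) : ℝ) =
        (gTree T T0).ip (gcl T T0 e (MW W')) ((gTree T T0).gam (.inl Γ)) := by
      rw [h1, ip_inl]; push_cast; rfl
    have h3 := (hC.le c.K _ (by rw [← h2] at hnef; exact_mod_cast hnef)).1
    have hmul : ∀ w : W', w.1 ≠ 0 → (gSec h).ord (ψ w) (.inl Γ) =
        multiplicity Γ.rep g + multiplicity Γ.rep w.1 := fun w hw => by
      rw [hord, (hD.app _ _ _ _ (mul_ne_zero hd.nz.1 hw)).1, multiplicity_mul hi.prime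
        (FiniteMultiplicity.of_not_isUnit hi.not_isUnit (mul_ne_zero hd.nz.1 hw))]
    have h4 := key ψ hψ ((((aeval c.η : P3 →ₐ[ℂ] c.K).toLinearMap).domRestrict W').codRestrict
      (LL (c.D T e (MW W'))) fun w => hO.mem _ c T _ _ e hT (hhom w) fun hw q _ =>
        (hrel q).2 ▸ (hatt q).2 _ w.2 hw)
      (U ⊓ (gSec h).vge (.inl Γ) ((gSec h).base U (.inl Γ) + 1)) fun w hw => by
        refine ⟨hψU w, ?_⟩
        by_cases h0 : w.1 = 0
        · exact Or.inl (Subtype.ext (mul_eq_zero_of_right g h0))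
        obtain ⟨s, hs, hn⟩ := hd.mob.nofix _ hi
        have hs0 : s ≠ 0 := fun e => hn (e ▸ dvd_zero _)
        have h5 := (gSec h).base_le (hψU ⟨s, hs⟩) (hψ0 _ hs0) (.inl Γ)
        rw [hmul _ hs0, multiplicity_eq_zero.2 hn] at h5
        have h6 := multiplicity_ne_zero.2
          ((c.gen.ker _ e (hhom w)).1 (congrArg Subtype.val hw))
        exact Or.inr (by rw [hmul _ h0]; omega)
    rw [hR] at h4
    rw [← h2]
    have h5 : (finrank ℂ (LL (c.D T e (MW W'))) : ℤ) ≤ _ := h3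
    have h6 : (finrank ℂ U : ℤ) ≤ finrank ℂ ↥(U ⊓ (gSec h).vge (.inl Γ)
      ((gSec h).base U (.inl Γ) + 1)) + Finsupp.degree (c.D T e (MW W')) + 1 := by omega
    exact_mod_cast h6
  · revert hnef
    refine (fun (p : T) hnef => ?_ : ∀ p : T, 0 ≤ (gTree T T0).ip _ ((gTree T T0).gam (.inr p)) →
      _ ≤ (finrank ℂ ↥(U ⊓ (gSec h).vge (.inr p) ((gSec h).base U (.inr p) + 1)) : ℝ) +
        (gTree T T0).ip _ ((gTree T T0).gam (.inr p)) + 1) p
    rw [ip_inr] at hnef ⊢
    obtain ⟨n, hn⟩ : ∃ n : ℕ, MW W' p = n + ∑ q ∈ T.filter fun q => p.1 ∈ q.prox, MW W' q :=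
      Nat.exists_eq_add_of_le' (by rw [sub_nonneg] at hnef; exact_mod_cast hnef)
    obtain ⟨Cs, hCs, hcard⟩ := (((T.finite_toSet.preimage (f := fun c : ℂ => Node.step p (some c))
      fun a _ b _ e => by simpa using e).insert 0).infinite_compl).exists_subset_card_eq (n + 1)
    have hC0 : ∀ c ∈ Cs, c ≠ 0 ∧ Node.step p (some c) ∉ T := fun c hc => by
      simpa using hCs hc
    have hmul : ∀ w : W', w.1 ≠ 0 → (gSec h).ord (ψ w) (.inr p) =
        p.1.v g + p.1.v w.1 - k * wv (ind T0) p ∧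
          k * wv (ind T0) p ≤ p.1.v g + p.1.v w.1 := fun w hw => by
      rw [hord, (hD.app _ _ _ _ (mul_ne_zero hd.nz.1 hw)).2,
        ← (hV.mul p g w.1 hd.nz ⟨hw, e, hhom w⟩).2.2]
      exact ⟨rfl, hA.2 _ (hmW w) (mul_ne_zero hd.nz.1 hw) _⟩
    have h4 := key ψ hψ (LinearMap.pi fun c : Cs => lcoeff ℂ (Finsupp.single 0 (vW W' p)) ∘ₗ
      (Node.step p (some c.1)).tot.toLinearMap ∘ₗ W'.subtype)
      (U ⊓ (gSec h).vge (.inr p) ((gSec h).base U (.inr p) + 1)) fun w hw => by
        refine ⟨hψU w, ?_⟩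
        by_cases h0 : w.1 = 0
        · exact Or.inl (Subtype.ext (mul_eq_zero_of_right g h0))
        have hz : NZ w.1 := ⟨h0, e, hhom w⟩
        obtain ⟨s, hs, hs0, hv⟩ := (hatt p).1
        have h5 := (gSec h).base_le (hψU ⟨s, hs⟩) (hψ0 _ hs0) (.inr p)
        have h6 := hmul ⟨s, hs⟩ hs0
        rw [h6.1] at h5
        have h7 : p.1.v w.1 ≠ vW W' p := fun hp => by
          have h8 : ∀ c ∈ Cs, 1 ≤ (Node.step p (some c)).m w.1 := fun c hc => by
            obtain ⟨u, hu, hf⟩ := hV.fac (Node.step p (some c)) w.1 hz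
            have h9 : coeff (Finsupp.single 0 (vW W' p)) ((Node.step p (some c)).tot w.1) = 0 :=
              congrFun hw ⟨c, hc⟩
            simp only [Node.ex, (hC0 c hc).1, if_true, if_false, one_ne_zero, Node.lab,
              Option.elim, pow_zero, mul_one, hp] at hf
            have h10 := coeff_monomial_mul 0 (Finsupp.single (0 : Fin 2) (vW W' p)) (1 : ℂ)
              (u * (Node.step p (some c)).str w.1)
            rw [add_zero, ← X_pow_eq_monomial, ← mul_assoc, ← hf, h9, one_mul, ← constantCoeff_eq,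
              map_mul, ← eval_zero] at h10
            exact Nat.one_le_iff_ne_zero.2 fun h => (hV.mzero _ (hV.ne _ _ hz).2).1 h
              ((mul_eq_zero.1 h10.symm).resolve_left hu)
          have h9 := hP.le p w.1 ((T.filter fun q => p.1 ∈ q.prox) ∪
            Cs.image fun c => Node.step p (some c)) hz fun q hq => by
              rcases Finset.mem_union.1 hq with hq | hq
              · exact (Finset.mem_filter.1 hq).2
              · obtain ⟨c, -, rfl⟩ := Finset.mem_image.1 hq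
                exact (hP.par _ _).1
          rw [Finset.sum_union (Finset.disjoint_right.2 fun q hq hq' => by
            obtain ⟨c, hc, rfl⟩ := Finset.mem_image.1 hq
            exact (hC0 c hc).2 (Finset.mem_filter.1 hq').1),
            Finset.sum_image fun a _ b _ e => by simpa using e] at h9
          have h10 := Finset.card_nsmul_le_sum Cs _ 1 h8
          rw [hcard, smul_eq_mul, mul_one] at h10
          have h11 := (hL T T0 hT).cl_ip (E := toR (gdiv T T0 (vW W') w.1) -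
            toR (gdiv T T0 (·.v w.1) w.1)) (i := .inr p) (fun j => by
              rcases j with Γ | q
              · simp [(hD.app _ _ _ _ h0).1]
              · simp [(hD.app _ _ _ _ h0).2]) (by simp [(hD.app _ _ _ _ h0).2, hp])
          rw [map_sub, hD.cl T T0 _ (MW W') _ e hT h0 (hhom w)
            (fun q _ => ⟨(hatt q).2 _ w.2 h0, (hrel q).1⟩), hD.cl T T0 _ (·.m w.1) _ e hT h0
            (hhom w) (fun q _ => ⟨le_rfl, hV.vm q _ hz⟩), Tree.ip_sub_left, ip_inr, ip_inr,
            hn] at h11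
          have h12 : p.1.m w.1 ≤ n + ∑ q ∈ T.filter fun q => p.1 ∈ q.prox, q.m w.1 := by
            push_cast at h11
            exact_mod_cast (by linarith : (p.1.m w.1 : ℝ) ≤
              n + ∑ q ∈ T.filter fun q => p.1 ∈ q.prox, (q.m w.1 : ℝ))
          omega
        have h8 := (hatt p).2 _ w.2 h0
        exact Or.inr (by rw [(hmul _ h0).1]; simp only [hv] at h5 h6; omega)
    rw [hR, Module.finrank_fintype_fun_eq_card, Fintype.card_coe, hcard] at h4
    rw [hn]
    push_cast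
    have h5 : (finrank ℂ U : ℝ) ≤ finrank ℂ ↥(U ⊓ (gSec h).vge (.inr p)
      ((gSec h).base U (.inr p) + 1)) + (n + 1) := by exact_mod_cast h4
    linarith

end Pool.Agent.Lib.MP_a25055_ag
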