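import Pool.Agent.Lib.MP_a25055_ag.Geo

/-! Block DEGE: degrees of the divisor of lines and of the divisors of branches. -/

open MvPolynomial Module
open Pool.Agent.Lib.MP_cc3443_ag
open Pool.Agent.Lib.MP_3c72fe_ag
open IntermediateField (adjoin)
open scoped IntermediateField

noncomputable section

namespace Pool.Agent.Lib.MP_a25055_ag

namespace GDEGE

variable {K : Type} [Field K] [Algebra ℂ K] [IsFF K]

lemma not_const {S : Set K} (h : adjoin ℂ S = ⊤) : ¬ ∀ z ∈ S, ∃ a, algebraMap ℂ K a = z :=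
  fun h1 => by
    obtain ⟨u, hu⟩ := IsFF.ex (K := K)
    have h2 : adjoin ℂ S ≤ ⊥ := IntermediateField.adjoin_le_iff.2 fun z hz =>
      IntermediateField.mem_bot.2 (h1 z hz)
    obtain ⟨a, rfl⟩ := IntermediateField.mem_bot.1 (h2 (h ▸ IntermediateField.mem_top : u ∈ _))
    exact hu (isAlgebraic_algebraMap a)

/-- An irreducible relation generates all relations. -/
lemma ker_of {x : Fin 2 → K} {s : P2} (hs : Irreducible s) (h0 : aeval x s = 0)
    (ht : adjoin ℂ (Set.range x) = ⊤) (g : P2) : aeval x g = 0 ↔ s ∣ g := by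
  refine ⟨fun hg => ?_, fun ⟨u, hu⟩ => by rw [hu, map_mul, h0, zero_mul]⟩
  by_contra hn
  have p1 : (Ideal.span {s}).IsPrime := (Ideal.span_singleton_prime hs.ne_zero).2 hs.prime
  have p2 : (RingHom.ker (aeval x : P2 →ₐ[ℂ] K)).IsPrime := RingHom.ker_isPrime _
  obtain ⟨M, hM, hle⟩ := Ideal.exists_le_maximal _ p2.ne_top
  have l1 : (⊥ : Ideal P2) < Ideal.span {s} :=
    bot_lt_iff_ne_bot.2 (by simpa using hs.ne_zero)
  have l2 : Ideal.span {s} < RingHom.ker (aeval x : P2 →ₐ[ℂ] K) :=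
    lt_of_le_of_ne ((Ideal.span_singleton_le_iff_mem _).2 h0) fun e =>
      hn (Ideal.mem_span_singleton.1 (e ▸ hg))
  rcases hle.eq_or_lt with e | l3
  · obtain ⟨a, ha⟩ := isMaximal_iff_eq_vanishingIdeal_singleton.1 hM
    refine not_const ht ?_
    rintro _ ⟨k, rfl⟩
    have : X k - C (a k) ∈ RingHom.ker (aeval x : P2 →ₐ[ℂ] K) := by
      rw [e, ha, mem_vanishingIdeal_singleton_iff]; simp
    exact ⟨a k, (sub_eq_zero.1 (by simpa using this)).symm⟩
  · have h1 := Ideal.height_add_one_le_of_lt_of_isPrime l1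
    have h2 := Ideal.height_add_one_le_of_lt_of_isPrime l2
    have h3 := Ideal.height_add_one_le_of_lt_of_isPrime l3
    have h4 := Ideal.height_le_ringKrullDim_of_isPrime (I := M)
    have h5 : (3 : ℕ∞) ≤ M.height :=
      calc (3 : ℕ∞) = 0 + 1 + 1 + 1 := by norm_num
        _ ≤ (⊥ : Ideal P2).height + 1 + 1 + 1 := by gcongr; exact zero_le
        _ ≤ _ := (add_le_add_left ((add_le_add_left h1 1).trans h2) 1).trans h3
    rw [MvPolynomial.ringKrullDim_of_isNoetherianRing, ringKrullDim_eq_zero_of_field] at h4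
    have h6 := (WithBot.coe_le_coe.2 h5).trans h4
    simp only [Nat.card_eq_fintype_card, Fintype.card_fin, zero_add] at h6
    exact absurd h6 (by decide)

/-- The divisor of common zeros. -/
def IsE (x : Fin 2 → K) (E : Place K →₀ ℤ) : Prop :=
  ∀ P, 0 ≤ E P ∧ ∀ n, 1 ≤ n → ((∀ k, x k ∈ Ge P n) ↔ n ≤ E P)

/-- The divisor of poles. -/
def IsH (η : Fin 3 → K) (H : Place K →₀ ℤ) : Prop := ∀ P n, (∀ i, η i ∈ Ge P n) ↔ n ≤ -H P

lemma IsE.uniq {x : Fin 2 → K} {E E' : Place K →₀ ℤ} (h : IsE x E) (h' : IsE x E') : E = E' := by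
  ext P
  have h1 := (h P).1
  have h2 := (h' P).1
  have h3 := fun n hn => ((h P).2 n hn).symm.trans ((h' P).2 n hn)
  have h4 := h3 (E P)
  have h5 := h3 (E' P)
  omega

lemma IsH.uniq {η : Fin 3 → K} {H H' : Place K →₀ ℤ} (h : IsH η H) (h' : IsH η H') : H = H' := by
  ext P
  have h3 := fun n => (h P n).symm.trans (h' P n)
  have h4 := h3 (-H P)
  have h5 := h3 (-H' P)
  omega

lemma eq_lin {g : P2} (h : g.totalDegree ≤ 1) : ∃ a b c, g = lin a b c := by
  rw [g.as_sum]
  refine Finset.sum_induction _ (fun g => ∃ a b c, g = lin a b c) ?_ ⟨0, 0, 0, by simp [lin]⟩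
    fun m hm => ?_
  · rintro _ _ ⟨a, b, c, rfl⟩ ⟨a', b', c', rfl⟩
    exact ⟨a + a', b + b', c + c', by simp only [lin, map_add]; ring⟩
  · have h1 := (le_totalDegree hm).trans h
    rw [Finsupp.sum_fintype _ _ (by simp), Fin.sum_univ_two] at h1
    rw [monomial_eq, Finsupp.prod_fintype _ _ (by simp), Fin.prod_univ_two]
    obtain ⟨e, e'⟩ | ⟨e, e'⟩ | ⟨e, e'⟩ :
      (m 0 = 0 ∧ m 1 = 0) ∨ (m 0 = 1 ∧ m 1 = 0) ∨ (m 0 = 0 ∧ m 1 = 1) := by omega
    exacts [⟨0, 0, coeff m g, by simp [lin, e, e']⟩, ⟨coeff m g, 0, 0, by simp [lin, e, e']⟩,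
      ⟨0, coeff m g, 0, by simp [lin, e, e']⟩]

lemma mult_zero {s : P2} (h : eval 0 s ≠ 0) : mult 0 s = 0 := by
  by_contra hn
  have h0 : s ≠ 0 := by rintro rfl; simp at h
  exact h (mem_mi.1 (by simpa using (mem_pow_iff (n := 1) h0).2 (by omega)))

/-- Degrees for an affine model. -/
lemma aff {x : Fin 2 → K} {s : P2} (hs : Irreducible s) (h0 : aeval x s = 0)
    (ht : adjoin ℂ (Set.range x) = ⊤) : (∀ E, IsE x E → Finsupp.degree E = mult 0 s) ∧
      ∀ H, IsH ![x 0, x 1, 1] H → Finsupp.degree H = s.totalDegree := by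
  by_cases h2 : 2 ≤ s.totalDegree
  · let c : Crv K := ⟨x, s, hs.prime, ker_of hs h0 ht, ht, h2⟩
    have n0 : x 0 ≠ 0 := c.ne_zero 0
    have n1 : x 1 ≠ 0 := c.ne_zero 1
    refine ⟨fun E h => ?_, fun H h => ?_⟩
    · rw [h.uniq (E' := c.D 0) fun P => ⟨c.D_nonneg _ _, fun n hn => ?_⟩]
      · exact c.degree_D 0
      · simp only [Fin.forall_fin_two, mem_Ge_iff n0, mem_Ge_iff n1, c.D_apply, Pi.zero_apply,
          map_zero, sub_zero, c]
        omega
    · rw [h.uniq (H' := c.H) fun P n => ?_]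
      · exact c.degree_H
      · simp only [Fin.forall_fin_succ, c.H_apply, c]
        simp [mem_Ge_iff n0, mem_Ge_iff n1, mem_Ge_iff one_ne_zero]
        omega
  obtain ⟨a, b, e, rfl⟩ := eq_lin (g := s) (by omega)
  have h1 : (lin a b e).totalDegree = 1 := by
    by_contra h
    have := totalDegree_eq_zero_iff_eq_C.1 (show (lin a b e).totalDegree = 0 by omega)
    rw [this] at h0
    exact hs.ne_zero (by rw [this, (map_eq_zero _).1 ((aeval_C _ _).symm.trans h0), map_zero])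
  replace h0 : a • x 0 + b • x 1 + algebraMap ℂ K e = 0 := by
    simpa [lin, Algebra.smul_def] using h0
  obtain ⟨j, hj⟩ : ∃ j, ∀ k, ∃ α β : ℂ, x k = α • x j + algebraMap ℂ K (β * e) := by
    by_cases hb : b = 0
    · have ha : a ≠ 0 := by rintro rfl; simp [lin, hb] at h1
      have : algebraMap ℂ K a ≠ 0 := by simpa using ha
      refine ⟨1, Fin.forall_fin_two.2 ⟨⟨0, -a⁻¹, ?_⟩, 1, 0, by simp⟩⟩
      simp only [hb, Algebra.smul_def, map_mul, map_neg, map_inv₀, map_zero] at h0 ⊢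
      field_simp
      linear_combination h0
    · have : algebraMap ℂ K b ≠ 0 := by simpa using hb
      refine ⟨0, Fin.forall_fin_two.2 ⟨⟨1, 0, by simp⟩, -a * b⁻¹, -b⁻¹, ?_⟩⟩
      simp only [Algebra.smul_def, map_mul, map_neg, map_inv₀] at h0 ⊢
      field_simp
      linear_combination h0
  have htr : Transcendental ℂ (x j) := transc_of_not_const fun c hc => not_const ht (by
    rintro _ ⟨k, rfl⟩
    obtain ⟨α, β, h⟩ := hj k
    exact ⟨α * c + β * e, by rw [h, hc, map_add, map_mul, Algebra.smul_def]⟩)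
  have n0 := transc_ne_zero htr
  have d1 : Finsupp.degree (pol (x j)) = 1 := by
    rw [degree_pol htr, IntermediateField.finrank_eq_one_iff_eq_top.2, Nat.cast_one]
    rw [eq_top_iff, ← ht, IntermediateField.adjoin_le_iff]
    rintro _ ⟨k, rfl⟩
    obtain ⟨α, β, h⟩ := hj k
    rw [h]
    exact add_mem (IntermediateField.smul_mem _ (IntermediateField.mem_adjoin_simple_self _ _))
      (IntermediateField.algebraMap_mem _ _)
  refine ⟨fun E h => ?_, fun H h => ?_⟩
  · by_cases he : e = 0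
    · have d2 : pol (x j)⁻¹ = pol (x j) + divF (x j) := by
        ext P
        simp only [pol_apply, Finsupp.add_apply, divF_apply, Place.ord_inv]
        omega
      rw [h.uniq (E' := pol (x j)⁻¹) fun P => ⟨pol_nonneg _ P, fun n hn => ?_⟩, d2, map_add, d1,
        degree_div, le_antisymm ((mult_le _ _).trans h1.le)
          ((mem_pow_iff hs.ne_zero).1 (by simp [mem_mi, lin, he]))]
      · simp
      · rw [pol_apply, Place.ord_inv, neg_neg, le_max_iff, or_iff_left (by omega), ← mem_Ge_iff n0]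
        refine ⟨fun h => h j, fun h k => ?_⟩
        obtain ⟨α, β, h'⟩ := hj k
        rw [h', he, mul_zero, map_zero, add_zero]
        exact Submodule.smul_mem _ _ h
    · rw [h.uniq (E' := 0) fun P => ⟨le_rfl, fun n hn => iff_of_false (fun h => he ?_) (by
        simp; omega)⟩, mult_zero (by simpa [lin] using he)]
      · simp
      · refine P.const_eq_zero (mem_Ge_one.1 (Ge_mono hn ?_))
        rw [eq_neg_of_add_eq_zero_right h0]
        exact neg_mem (add_mem (Submodule.smul_mem _ _ (h 0)) (Submodule.smul_mem _ _ (h 1)))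
  · rw [h.uniq (H' := pol (x j)) fun P n => ?_, d1, h1, Nat.cast_one]
    have : n ≤ -pol (x j) P ↔ x j ∈ Ge P n ∧ n ≤ 0 := by
      rw [pol_apply, mem_Ge_iff n0]; omega
    rw [this]
    refine ⟨fun h => ⟨?_, by simpa [mem_Ge_iff one_ne_zero] using h 2⟩, fun h i => ?_⟩
    · fin_cases j
      exacts [h 0, h 1]
    · have h3 : ∀ k, x k ∈ Ge P n := fun k => by
        obtain ⟨α, β, h'⟩ := hj k
        rw [h']
        exact add_mem (Submodule.smul_mem _ _ h.1) (Ge_mono h.2 (const_mem_Ge _))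
      fin_cases i
      exacts [h3 0, h3 1, Ge_mono h.2 one_mem_Ge]

/-- The ratios generate the field. -/
abbrev Top (η : Fin 3 → K) : Prop := adjoin ℂ {z | ∃ i j, z = η i / η j} = ⊤

omit [IsFF K] in
lemma top_of {η : Fin 3 → K} (h : Top η) {x : Fin 2 → K} {l : K} {g : Fin 3 → P2}
    (e : ∀ i, η i = l * aeval x (g i)) : adjoin ℂ (Set.range x) = ⊤ := by
  rw [eq_top_iff, ← h, IntermediateField.adjoin_le_iff]
  rintro _ ⟨i, j, rfl⟩
  have h1 : ∀ g : P2, aeval x g ∈ adjoin ℂ (Set.range x) := fun g =>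
    IntermediateField.algebra_adjoin_le_adjoin _ _
      (Algebra.adjoin_range_eq_range_aeval ℂ x ▸ ⟨g, rfl⟩)
  rw [e, e]
  by_cases hl : l = 0
  · simp [hl]
  · rw [mul_div_mul_left _ _ hl]
    exact div_mem (h1 _) (h1 _)

lemma div_mem_Ge {P : Place K} {z w : K} {n : ℤ} (hw : w ≠ 0) :
    z / w ∈ Ge P n ↔ z ∈ Ge P (n + P.ord w) := by
  by_cases hz : z = 0
  · simp [hz]
  · rw [mem_Ge_iff hz, mem_Ge_iff (div_ne_zero hz hw), ord_div hz hw]; omega

omit [IsFF K] in
lemma not_unit {σ : Type} {x : σ → K} {s : MvPolynomial σ ℂ} (h : aeval x s = 0) : ¬ IsUnit s :=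
  fun hu => (hu.map (aeval x)).ne_zero h

lemma degH2 (hV : St_VAL) {f : P3} {d : ℕ} (hf : Irreducible f) (hd : f.IsHomogeneous d)
    {η : Fin 3 → K} (h0 : aeval η f = 0) (ht : Top η) (h2 : η 2 ≠ 0) {H : Place K →₀ ℤ}
    (h : IsH η H) : Finsupp.degree H = d := by
  have e : (![η 0 / η 2, η 1 / η 2, 1] : Fin 3 → K) = fun i => η i / η 2 := by
    ext i; fin_cases i <;> simp [h2]
  have h1 : aeval ![η 0 / η 2, η 1 / η 2] (dh f) = 0 := by
    rw [aeval_dh]
    refine (congrArg (aeval · f) (e.trans (funext fun i => div_eq_inv_mul _ _))).trans ?_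
    rw [aeval_smul_hom hd, h0, mul_zero]
  have h3 : Irreducible (dh f) :=
    (hV.irr (.root .c2) f ⟨hf.ne_zero, d, hd⟩ hf).resolve_right (not_unit h1)
  have h4 : (dh f).totalDegree = d := by
    by_contra h
    have h1 := totalDegree_dh hd
    obtain ⟨G, hG, h5, -⟩ := exists_hom 0 (g := dh f) (n := 0) le_rfl (by simp)
    have h6 := dh_inj (((isHomogeneous_X_pow 2 (d - (dh f).totalDegree))).mul hG)
      (by rwa [Nat.sub_add_cancel h1]) (by rw [map_mul, h5]; simp [dh])
    rcases hf.isUnit_or_isUnit h6.symm with hu | hu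
    · exact not_unit (x := (0 : Fin 3 → K)) (by simp; omega) hu
    · rw [← h6, map_mul, map_pow, aeval_X, mul_eq_zero] at h0
      exact h0.elim (pow_ne_zero _ h2) fun h0 => not_unit h0 hu
  have h5 := (aff h3 h1 (top_of ht (l := η 2) (g := ![X 0, X 1, 1]) fun i => by
    fin_cases i <;> simp [mul_div_cancel₀ _ h2])).2 (H + divF (η 2)) fun P n => by
      change (∀ i, (![η 0 / η 2, η 1 / η 2, 1] : Fin 3 → K) i ∈ _) ↔ _
      simp only [e, div_mem_Ge h2, h P, Finsupp.add_apply, divF_apply]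
      omega
  rwa [map_add, degree_div, add_zero, h4] at h5

lemma degH (hV : St_VAL) {f : P3} {d : ℕ} (hf : Irreducible f) (hd : f.IsHomogeneous d)
    {η : Fin 3 → K} (h0 : aeval η f = 0) (ht : Top η) {H : Place K →₀ ℤ}
    (h : IsH η H) : Finsupp.degree H = d := by
  obtain ⟨j, hj⟩ : ∃ j, η j ≠ 0 := by
    by_contra hn
    push Not at hn
    exact not_const ht (by rintro _ ⟨i, j, rfl⟩; exact ⟨0, by simp [hn]⟩)
  let σ := Equiv.swap j 2
  refine degH2 hV (f := rename σ f) (η := η ∘ σ)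
    ((MulEquiv.irreducible_iff (f := renameEquiv ℂ σ)).2 hf) hd.rename_isHomogeneous ?_ ?_
    (by simpa [σ] using hj) fun P n => (σ.forall_congr_right (q := fun i => η i ∈ _)).trans (h P n)
  · rw [aeval_rename, show (η ∘ σ) ∘ σ = η from funext fun i => by simp [σ], h0]
  · rw [Top, ← ht]
    congr 1
    ext z
    exact ⟨fun ⟨i, j, e⟩ => ⟨_, _, e⟩, fun ⟨i, j, e⟩ => ⟨σ i, σ j, by simpa [σ] using e⟩⟩

lemma ev_mem {P : Place K} {x : Fin 2 → K} (h : ∀ k, x k ∈ Ge P 0) (g : P2) :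
    aeval x g ∈ Ge P 0 := by
  induction g using MvPolynomial.induction_on with
  | C a => simpa using const_mem_Ge a
  | add a b ha hb => rw [map_add]; exact add_mem ha hb
  | mul_X a k ha => rw [map_mul, aeval_X]; exact Ge_mul' ha (h k) le_rfl

lemma ch_one (r : Rt) : ∃ j, r.ch j = 1 := by
  cases r
  exacts [⟨0, rfl⟩, ⟨1, rfl⟩, ⟨2, rfl⟩]

variable {η : Fin 3 → K} {H : Place K →₀ ℤ} {ξ : Node → Fin 2 → K} {E : Node → Place K →₀ ℤ}
  {cen : Place K → ℕ → Node}

lemma isH (h : Loc η H ξ E cen) : IsH η H := fun P n => by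
  obtain ⟨l, h0, h1, h2⟩ := h.lam P 0
  have h3 := h.pos P 0
  have h4 := h.dep P 0
  obtain ⟨r, hr⟩ : ∃ r, cen P 0 = .root r := by
    cases hc : cen P 0 with
    | root r => exact ⟨r, rfl⟩
    | step p c => simp [hc, Node.dep] at h4
  rw [hr] at h2 h3
  obtain ⟨j, hj⟩ := ch_one r
  refine ⟨fun h => ?_, fun h i => ?_⟩
  · have := h j
    rwa [h2, Node.sub, hj, map_one, mul_one, mem_Ge_iff h0, h1] at this
  · rw [h2]
    exact Ge_mul' (mem_Ge_of_le le_rfl) (ev_mem (fun k => Ge_mono h3.1.le (h3.2.1 k)) _) (by omega)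

lemma isE (h : Loc η H ξ E cen) {q : Node} {x : Fin 2 → K} {l : K}
    (e : ∀ i, η i = l * aeval x (q.sub i)) : IsE x (E q) := fun P => by
  obtain ⟨rfl, h1⟩ := h.uniq q x l e
  by_cases hq : q = cen P q.dep
  · have h2 := h.pos P q.dep
    rw [← hq] at h2
    obtain ⟨h2, h3, k, h4⟩ := h2
    exact ⟨h2.le, fun n _ => ⟨fun h => by_contra fun hn => h4 (Ge_mono (by omega) (h k)),
      fun h k => Ge_mono h (h3 k)⟩⟩
  · rw [h.zero P q hq]
    exact ⟨le_rfl, fun n hn => iff_of_false (fun h => hq (h1 P fun k => Ge_mono hn (h k)))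
      (by omega)⟩

omit [IsFF K] in
lemma chart (r : Rt) {j : Fin 3} (hj : r.ch j = 1) (h : η j ≠ 0) :
    ∃ x : Fin 2 → K, ∀ i, η i = η j * aeval x (r.ch i) := by
  have hX : ∀ (a : ℂ) (k : Fin 2), (C a + X k : P2) ≠ 1 := fun a k e => by
    simpa using congrArg (pderiv k) e
  have hX0 := hX 0
  simp only [map_zero, zero_add] at hX0
  cases r with
  | c0 a b =>
    obtain rfl : j = 0 := by fin_cases j <;> simp_all [Rt.ch]
    exact ⟨![η 1 / η 0 - algebraMap ℂ K a, η 2 / η 0 - algebraMap ℂ K b], fun i => by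
      fin_cases i <;> simp [Rt.ch, mul_div_cancel₀ _ h]⟩
  | c1 b =>
    obtain rfl : j = 1 := by fin_cases j <;> simp_all [Rt.ch]
    exact ⟨![η 0 / η 1, η 2 / η 1 - algebraMap ℂ K b], fun i => by
      fin_cases i <;> simp [Rt.ch, mul_div_cancel₀ _ h]⟩
  | c2 =>
    obtain rfl : j = 2 := by fin_cases j <;> simp_all [Rt.ch]
    exact ⟨![η 0 / η 2, η 1 / η 2], fun i => by
      fin_cases i <;> simp [Rt.ch, mul_div_cancel₀ _ h]⟩

omit [IsFF K] in
lemma lift (c : Option ℂ) {x : Fin 2 → K} (h : x (exI c) ≠ 0) :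
    ∃ y : Fin 2 → K, y (exI c) ≠ 0 ∧ ∀ g : P2, aeval y (aeval (st c) g) = aeval x g := by
  suffices ∃ y : Fin 2 → K, y (exI c) ≠ 0 ∧ (fun k => aeval y (st c k)) = x by
    obtain ⟨y, h1, h2⟩ := this
    exact ⟨y, h1, fun g => by rw [← AlgHom.comp_apply, comp_aeval, h2]⟩
  cases c with
  | some c =>
    exact ⟨![x 0, x 1 / x 0 - algebraMap ℂ K c], h, funext fun k => by
      fin_cases k <;> simp [st, mul_div_cancel₀ _ (show x 0 ≠ 0 from h)]⟩
  | none =>
    exact ⟨![x 0 / x 1, x 1], h, funext fun k => by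
      fin_cases k <;> simp [st, div_mul_cancel₀ _ (show x 1 ≠ 0 from h)]⟩

lemma st_exI (c : Option ℂ) : st c (exI c) = X (exI c) := by cases c <;> rfl

/-- The generic point of the curve in the chart at a node. -/
lemma model (hV : St_VAL) {f : P3} {d : ℕ} (hf : Irreducible f) (hd : f.IsHomogeneous d)
    (hg : Gen f η) (q : Node) (hq : ¬ IsUnit (q.str f)) :
    ∃ (x : Fin 2 → K) (l : K), (∀ i, η i = l * aeval x (q.sub i)) ∧ aeval x (q.str f) = 0 := by
  have nz : NZ f := ⟨hf.ne_zero, d, hd⟩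
  induction q with
  | root r =>
    obtain ⟨j, hj⟩ := ch_one r
    have h1 : η j ≠ 0 := fun h => by
      obtain ⟨u, hu⟩ := (hg.ker (X j) 1 (isHomogeneous_X _ _)).1 (by simpa using h)
      have := congrArg (aeval r.ch) hu
      rw [aeval_X, hj, map_mul] at this
      exact hq (IsUnit.of_mul_eq_one _ this.symm)
    obtain ⟨x, hx⟩ := chart r hj h1
    refine ⟨x, η j, hx, ?_⟩
    have h2 := (hg.ker f d hd).2 dvd_rfl
    rw [funext hx, aeval_smul_hom hd, mul_eq_zero] at h2
    rw [Node.str, ← AlgHom.comp_apply, comp_aeval]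
    exact h2.resolve_left (pow_ne_zero _ h1)
  | step p c ih =>
    have hs := hV.step p c f nz
    have hp : ¬ IsUnit (p.str f) := fun hu =>
      hq (isUnit_of_mul_isUnit_right (hs ▸ hu.map (aeval (st c))))
    obtain ⟨x, l, h1, h2⟩ := ih hp
    have hi := (hV.irr p f nz hf).resolve_right hp
    have h3 : x (exI c) ≠ 0 := fun h => by
      obtain ⟨u, hu⟩ := (ker_of hi h2 (top_of hg.top h1) (X (exI c))).1 (by simpa using h)
      have h4 : 1 ≤ p.m f := by
        have hu' := ((X_prime (i := exI c)).irreducible.isUnit_or_isUnit hu).resolve_left hp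
        refine (mem_pow_iff hi.ne_zero).1 ?_
        have := congrArg (eval 0) hu
        rw [map_mul, eval_X, eq_comm, Pi.zero_apply, mul_eq_zero] at this
        simpa [mem_mi] using this.resolve_right (hu'.map (eval 0)).ne_zero
      have h5 := congrArg (aeval (st c)) hu
      obtain ⟨m, hm⟩ := Nat.exists_eq_add_of_le h4
      rw [aeval_X, st_exI, map_mul, hs, hm, pow_add, pow_one, mul_assoc, mul_assoc] at h5
      have h6 := mul_left_cancel₀ (X_ne_zero _) ((mul_one _).trans h5)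
      rw [mul_left_comm] at h6
      exact hq (IsUnit.of_mul_eq_one _ h6.symm)
    obtain ⟨y, hy, e⟩ := lift c h3
    refine ⟨y, l, fun i => by rw [h1, ← e]; rfl, ?_⟩
    rw [← e, hs, map_mul, map_pow, aeval_X, mul_eq_zero] at h2
    exact h2.resolve_left (pow_ne_zero _ hy)

end GDEGE

theorem dege_of (hV : St_VAL) (hO : St_ORD) : St_DEGE := fun f d hf hd c => by
  have nz : NZ f := ⟨hf.ne_zero, d, hd⟩
  refine ⟨GDEGE.degH hV hf hd ((c.gen.ker f d hd).2 dvd_rfl) c.gen.top (GDEGE.isH c.loc),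
    fun q => ?_⟩
  by_cases hq : IsUnit (q.str f)
  · have h1 : q.m f = 0 := GDEGE.mult_zero (hq.map (eval 0)).ne_zero
    have h2 : c.E q = 0 := by
      ext P
      refine c.loc.zero P q fun e => ?_
      have := (hO.van f c P q.dep nz).2
      rw [← e] at this
      omega
    simp [h1, h2]
  · obtain ⟨x, l, h1, h2⟩ := GDEGE.model hV hf hd c.gen q hq
    exact (GDEGE.aff ((hV.irr q f nz hf).resolve_right hq) h2 (GDEGE.top_of c.gen.top h1)).1 _
      (GDEGE.isE c.loc h1)

end Pool.Agent.Lib.MP_a25055_ag
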