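import Pool.Agent.Lib.MP_a25055_ag.Geo

/-! Divisors of plane forms. -/

open MvPolynomial Module
open Pool.Agent.Lib.MP_3c72fe_ag (P2 P3 mult)

noncomputable section

namespace Pool.Agent.Lib.MP_a25055_ag

namespace GDIV

/-- the grading as a polynomial -/
def gr : P3 →ₐ[ℂ] Polynomial P3 := aeval fun i => Polynomial.C (X i) * Polynomial.X

lemma gr_coeff (p : P3) (n : ℕ) : (gr p).coeff n = homogeneousComponent n p := by
  induction p using MvPolynomial.induction_on' with
  | monomial s c =>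
    have : gr (monomial s c) = Polynomial.monomial s.degree (monomial s c) := by
      rw [gr, aeval_monomial, monomial_eq, Finsupp.prod_fintype _ _ (by simp),
        Finsupp.prod_fintype _ _ (by simp), ← Polynomial.C_mul_X_pow_eq_monomial,
        Finsupp.degree_eq_sum]
      simp only [mul_pow, Finset.prod_mul_distrib, Finset.prod_pow_eq_pow_sum, map_mul, map_prod,
        map_pow, Polynomial.algebraMap_apply, algebraMap_eq, mul_assoc]
    rw [this, Polynomial.coeff_monomial,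
      homogeneousComponent_of_mem (isHomogeneous_monomial c rfl)]
    simp only [eq_comm]
  | add p q hp hq => rw [map_add, Polynomial.coeff_add, hp, hq, map_add]

lemma gr_ne {p : P3} {a : Fin 3 →₀ ℕ} (h : coeff a p ≠ 0) : (gr p).coeff a.degree ≠ 0 := by
  intro e
  rw [gr_coeff] at e
  have := congrArg (coeff a) e
  rw [coeff_homogeneousComponent, if_pos rfl, coeff_zero] at this
  exact h this

lemma nz (g f : P3) (hf : NZ f) (hg : g ∣ f) : NZ g := by
  obtain ⟨h0, d, hf⟩ := hf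
  obtain ⟨h, rfl⟩ := hg
  have e : gr g * gr h = Polynomial.monomial d (g * h) := by
    rw [← map_mul]
    ext1 n
    rw [gr_coeff, homogeneousComponent_of_mem hf, Polynomial.coeff_monomial]
    simp only [eq_comm]
  have n0 : gr g * gr h ≠ 0 := by
    rw [e]
    exact fun h => h0 ((Polynomial.monomial_eq_zero_iff _ _).1 h)
  have d1 := Polynomial.natDegree_mul (left_ne_zero_of_mul n0) (right_ne_zero_of_mul n0)
  have d2 := Polynomial.natTrailingDegree_mul (left_ne_zero_of_mul n0) (right_ne_zero_of_mul n0)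
  rw [e, Polynomial.natDegree_monomial_eq _ h0] at d1
  rw [e, Polynomial.natTrailingDegree_monomial h0] at d2
  have l1 := Polynomial.natTrailingDegree_le_natDegree (gr g)
  have l2 := Polynomial.natTrailingDegree_le_natDegree (gr h)
  refine ⟨left_ne_zero_of_mul h0, (gr g).natDegree, fun a ha => ?_⟩
  have l3 := Polynomial.le_natDegree_of_ne_zero (gr_ne ha)
  have l4 := Polynomial.natTrailingDegree_le_of_ne_zero (gr_ne ha)
  have l5 : Finsupp.degree a = Finsupp.weight 1 a := by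
    rw [Finsupp.degree_eq_weight_one]
    rfl
  omega

lemma mk_rep (Γ : PlC) : Associates.mk Γ.rep = Γ.1 := Quotient.out_eq _

lemma rep (f : P3) (hf : Irreducible f) (h : NZ f) : ∃ Γ : PlC, Associated Γ.rep f := by
  have a : Associated (Quotient.out (Associates.mk f)) f :=
    Associates.mk_eq_mk_iff_associated.1 (Quotient.out_eq _)
  exact ⟨⟨Associates.mk f, a.symm.irreducible hf, nz _ _ h a.dvd⟩, a⟩

lemma ndvd (Γ Γ' : PlC) (h : Γ.rep ∣ Γ'.rep) : Γ = Γ' :=
  Subtype.ext (by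
    rw [← mk_rep, ← mk_rep]
    exact Associates.mk_eq_mk_iff_associated.2 (Γ.2.1.associated_of_dvd Γ'.2.1 h))

lemma deg (Γ : PlC) : 1 ≤ Γ.rep.totalDegree ∧ Γ.rep.IsHomogeneous Γ.rep.totalDegree := by
  obtain ⟨h0, e, he⟩ : NZ Γ.rep := Γ.2.2
  refine ⟨Nat.pos_of_ne_zero fun h => Γ.2.1.not_isUnit ?_, (he.totalDegree h0).symm ▸ he⟩
  rw [totalDegree_eq_zero_iff_eq_C] at h
  change IsUnit Γ.rep
  rw [h] at h0 ⊢
  exact (IsUnit.mk0 _ (C_ne_zero.1 h0)).map C

lemma fm (Γ : PlC) {g : P3} (hg : g ≠ 0) : FiniteMultiplicity Γ.rep g :=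
  FiniteMultiplicity.of_not_isUnit Γ.2.1.not_isUnit hg

lemma fin_dvd {g : P3} (hg : g ≠ 0) : {Γ : PlC | Γ.rep ∣ g}.Finite := by
  refine Set.Finite.of_finite_image (f := Subtype.val) ?_ Subtype.val_injective.injOn
  refine ((UniqueFactorizationMonoid.factors g).finite_toSet.image Associates.mk).subset ?_
  rintro _ ⟨Γ, h, rfl⟩
  obtain ⟨p, h1, h2⟩ := UniqueFactorizationMonoid.exists_mem_factors_of_dvd hg Γ.2.1 h
  exact ⟨p, h1, (Associates.mk_eq_mk_iff_associated.2 h2.symm).trans (mk_rep Γ)⟩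

lemma mkF_apply {ι : Type} {φ : ι → ℕ} (h : (Function.support φ).Finite) (i : ι) :
    mkF φ i = φ i := by
  rw [mkF, dif_pos h]; rfl

lemma app (T T0 : Finset Node) (w : Node → ℕ) (g : P3) (hg : g ≠ 0) :
    (∀ Γ : PlC, gdiv T T0 w g (.inl Γ) = multiplicity Γ.rep g) ∧
      ∀ q : T, gdiv T T0 w g (.inr q) = q.1.v g - w q.1 := by
  have h : (Function.support (Sum.elim (fun Γ : PlC => multiplicity Γ.rep g)
      fun q : T => q.1.v g - w q.1)).Finite := by
    refine (((fin_dvd hg).image Sum.inl).union (Set.finite_range Sum.inr)).subset ?_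
    rintro (Γ | q) h
    · exact Or.inl ⟨Γ, dvd_of_multiplicity_pos (Nat.pos_of_ne_zero h), rfl⟩
    · exact Or.inr ⟨q, rfl⟩
  exact ⟨fun Γ => mkF_apply h (.inl Γ), fun q => mkF_apply h (.inr q)⟩

lemma nz_C {c : ℂ} (hc : c ≠ 0) : NZ (C c) := ⟨C_ne_zero.2 hc, 0, isHomogeneous_C _ c⟩

lemma toR_add {ι : Type} (A B : ι →₀ ℕ) : toR (A + B) = toR A + toR B := by ext i; simp

lemma toR_single {ι : Type} (i : ι) (n : ℕ) :
    toR (Finsupp.single i n) = Finsupp.single i (n : ℝ) := Finsupp.mapRange_single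

lemma cl_exc (Y : Tree) (x : Y.T → ℝ) : Y.cl (∑ q, Finsupp.single (.inr q) (x q)) =
    (0, fun q => ∑ p ∈ Y.prox q, x p - x q) := by
  rw [map_sum]
  refine Prod.ext (by simp [Tree.gam, Prod.fst_sum]) (funext fun q => ?_)
  simp [Tree.gam, Prod.snd_sum, mul_sub]

lemma mult_mul (Γ : PlC) {a b : P3} (h : a * b ≠ 0) :
    multiplicity Γ.rep (a * b) = multiplicity Γ.rep a + multiplicity Γ.rep b :=
  multiplicity_mul Γ.2.1.prime (fm Γ h)

/-- the class of the plane part -/
lemma cl_plane (hV : St_VAL) (T T0 : Finset Node) (g : P3) : g ≠ 0 → ∀ e, g.IsHomogeneous e →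
    (gTree T T0).cl (toR (gdiv T T0 (·.v g) g)) = gcl T T0 e (·.m g) := by
  induction g using WfDvdMonoid.induction_on_irreducible with
  | zero => exact fun h => absurd rfl h
  | unit u hu =>
    intro h0 e he
    obtain ⟨c, hc, rfl⟩ := isUnit_iff_eq_C_of_isReduced.1 hu
    obtain rfl := he.inj_right (isHomogeneous_C _ c) h0
    have : toR (gdiv T T0 (·.v (C c)) (C c)) = 0 := by
      ext (Γ | q)
      · simp [(app T T0 _ _ h0).1, multiplicity_of_isUnit_right Γ.2.1.not_isUnit hu, PlC.rep]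
      · simp [(app T T0 _ _ h0).2]
    rw [this, map_zero]
    exact Prod.ext (by simp [gcl]) (funext fun q => by simp [gcl, (hV.const _ c hc.ne_zero).2.1])
  | mul a i ha hi ih =>
    intro h0 e he
    have n1 := nz i _ ⟨h0, e, he⟩ (dvd_mul_right _ _)
    have n2 := nz a _ ⟨h0, e, he⟩ (dvd_mul_left _ _)
    obtain ⟨Γ, u, rfl⟩ := rep i hi n1
    obtain ⟨c, hc, hu⟩ := isUnit_iff_eq_C_of_isReduced.1 u.isUnit
    obtain ⟨e2, h2⟩ := n2.2
    obtain rfl := he.inj_right
      (((deg Γ).2.mul (hu ▸ isHomogeneous_C _ c : (u : P3).IsHomogeneous 0)).mul h2) h0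
    have : gdiv T T0 (·.v (Γ.rep * u * a)) (Γ.rep * u * a) =
        Finsupp.single (.inl Γ) 1 + gdiv T T0 (·.v a) a := by
      ext (Δ | q)
      · rw [Finsupp.add_apply, (app T T0 _ _ h0).1, (app T T0 _ _ ha).1,
          mult_mul Δ h0,
          ← multiplicity_eq_of_associated_right ⟨u, rfl⟩]
        congr 1
        by_cases h : Δ = Γ
        · subst h; simp
        · rw [Finsupp.single_eq_of_ne fun e => h (Sum.inl_injective e), multiplicity_eq_zero]
          exact fun d => h (ndvd _ _ d)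
      · simp [(app T T0 _ _ h0).2, (app T T0 _ _ ha).2]
    rw [this, toR_add, map_add, ih ha e2 h2, toR_single, Tree.cl_single, Nat.cast_one, one_smul]
    refine Prod.ext (Nat.cast_add _ e2).symm (funext fun q => ?_)
    have m1 := (hV.mul q.1 _ _ n1 n2).2.1
    have m2 := (hV.mul q.1 Γ.rep _ Γ.2.2 (nz_C hc.ne_zero)).2.1
    rw [(hV.const _ c hc.ne_zero).2.1, ← hu] at m2
    change (q.1.m Γ.rep : ℝ) + q.1.m a = q.1.m (Γ.rep * u * a)
    rw [m1, m2, add_zero, Nat.cast_add]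

lemma cl (hV : St_VAL) (hP : St_PROX) (T T0 : Finset Node) (w M : Node → ℕ) (g : P3) (e : ℕ)
    (hT : Cls T) (h0 : g ≠ 0) (he : g.IsHomogeneous e)
    (hw : ∀ q ∈ T, w q ≤ q.v g ∧ w q = M q + ∑ p ∈ q.prox, w p) :
    (gTree T T0).cl (toR (gdiv T T0 w g)) = gcl T T0 e M := by
  have : toR (gdiv T T0 w g) = toR (gdiv T T0 (·.v g) g) +
      ∑ q : (gTree T T0).T, Finsupp.single (.inr q) ((q.1.v g : ℝ) - w q.1) := by
    ext (Γ | q)
    · simp [(app T T0 _ _ h0).1]
    · simp [(app T T0 _ _ h0).2, Finsupp.single_apply, Nat.cast_sub (hw q.1 q.2).1]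
  rw [this, map_add, cl_plane hV T T0 g h0 e he, cl_exc]
  refine Prod.ext (add_zero _) (funext fun q => ?_)
  have s1 := hP.sum T T0 hT q fun p => (p.v g : ℝ) - w p
  have s2 := hV.vm q.1 g ⟨h0, e, he⟩
  have s3 := (hw q.1 q.2).2
  change (q.1.m g : ℝ) + (∑ p ∈ (gTree T T0).prox q, ((p.1.v g : ℝ) - w p.1) -
    ((q.1.v g : ℝ) - w q.1)) = M q.1
  rw [s1, Finset.sum_sub_distrib, s2, s3]
  push_cast
  ring

lemma sec (hV : St_VAL) (hP : St_PROX) (T T0 : Finset Node) (k : ℕ) (W : Submodule ℂ P3)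
    (hT : Cls T) (h : Adm T0 k W) : SecAx T T0 k W where
  fd := by
    have : FiniteDimensional ℂ (hom (3 * k)) :=
      Submodule.finiteDimensional_of_le (S₂ := restrictTotalDegree (Fin 3) ℂ (3 * k))
        fun p hp => (mem_restrictTotalDegree _ _ _).2 (IsHomogeneous.totalDegree_le hp)
    exact Submodule.finiteDimensional_of_le h.1
  add s t i hs ht hst := by
    have a1 : (s : P3) ≠ 0 := fun e => hs (Subtype.ext e)
    have a2 : (t : P3) ≠ 0 := fun e => ht (Subtype.ext e)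
    have a3 : ((s + t : W) : P3) ≠ 0 := fun e => hst (Subtype.ext e)
    rcases i with Γ | q
    · rw [(app _ _ _ _ a1).1, (app _ _ _ _ a2).1, (app _ _ _ _ a3).1]
      exact (fm Γ a3).le_multiplicity_of_pow_dvd (dvd_add
        (pow_dvd_of_le_multiplicity (min_le_left _ _))
        (pow_dvd_of_le_multiplicity (min_le_right _ _)))
    · rw [(app _ _ _ _ a1).2, (app _ _ _ _ a2).2, (app _ _ _ _ a3).2]
      have := hV.add q.1 s t _ (h.1 s.2) (h.1 t.2) a3
      rw [Submodule.coe_add]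
      omega
  smul c s hc := by
    by_cases hs : s = 0
    · rw [hs, smul_zero]
    have a1 : (s : P3) ≠ 0 := fun e => hs (Subtype.ext e)
    have e : ((c • s : W) : P3) = C c * (s : P3) := smul_eq_C_mul _ _
    have a2 : C c * (s : P3) ≠ 0 := mul_ne_zero (C_ne_zero.2 hc) a1
    rw [e]
    ext (Γ | q)
    · rw [(app _ _ _ _ a1).1, (app _ _ _ _ a2).1]
      exact multiplicity_eq_of_associated_right
        (associated_unit_mul_left _ _ ((IsUnit.mk0 c hc).map C))
    · rw [(app _ _ _ _ a1).2, (app _ _ _ _ a2).2, (hV.mul _ _ _ (nz_C hc) ⟨a1, _, h.1 s.2⟩).2.2,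
        (hV.const _ c hc).2.2, zero_add]
  cl s hs := by
    have a1 : (s : P3) ≠ 0 := fun e => hs (Subtype.ext e)
    rw [cl hV hP T T0 _ (fun q => k * ind T0 q) s (3 * k) hT a1 (h.1 s.2) fun q _ =>
      ⟨h.2 s s.2 a1 q, by rw [wv_eq, mul_add, Finset.mul_sum]⟩]
    refine Prod.ext (by simp [gcl, Tree.L, mul_comm]) (funext fun q => ?_)
    change ((k * ind T0 q.1 : ℕ) : ℝ) = k * if q ∈ (gTree T T0).T0 then 1 else 0
    have : q ∈ (gTree T T0).T0 ↔ q.1 ∈ T0 :=
      Finset.mem_filter.trans (and_iff_right (Finset.mem_univ _))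
    simp [ind, this]

end GDIV

theorem div_of (h1 : St_VAL) (h2 : St_PROX) : St_DIV where
  rep := GDIV.rep
  ndvd := GDIV.ndvd
  nz := GDIV.nz
  deg := GDIV.deg
  app := GDIV.app
  cl := GDIV.cl h1 h2
  sec := GDIV.sec h1 h2

end Pool.Agent.Lib.MP_a25055_ag
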