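import Pool.Agent.Lib.MP_a25055_ag.Geo
import Pool.Agent.Lib.MP_a25055_ag.BBC

/-! Block EST: the main estimate, by reduction to the normal forms. -/

open MvPolynomial Module

noncomputable section

namespace Pool.Agent.Lib.MP_a25055_ag

namespace GEST

lemma fil_map {A B : Type} [CommRing A] [Algebra ℂ A] [CommRing B] [Algebra ℂ B] (φ : A →ₐ[ℂ] B)
    {N : ℕ} (b : Fin N → A) (r : Fin N → ℕ) (n s : ℕ) :
    Fil (fun j => φ (b j)) r n s = (Fil b r n s).map φ.toLinearMap := by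
  unfold Fil
  rw [Submodule.map_span]
  congr 1
  ext y
  constructor
  · rintro ⟨j, h1, rfl⟩
    exact ⟨_, ⟨j, h1, rfl⟩, by simp [map_prod]⟩
  · rintro ⟨_, ⟨j, h1, rfl⟩, rfl⟩
    exact ⟨j, h1, by simp [map_prod]⟩

lemma wsum_map {A B : Type} [CommRing A] [Algebra ℂ A] [CommRing B] [Algebra ℂ B] (φ : A →ₐ[ℂ] B)
    (hφ : Function.Injective φ) {N : ℕ} (b : Fin N → A) (r : Fin N → ℕ) :
    wsum (fun j => φ (b j)) r = wsum b r := by
  funext n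
  unfold wsum
  refine Finset.sum_congr rfl fun s _ => ?_
  rw [fil_map]
  exact ((Submodule.equivMapOfInjective φ.toLinearMap hφ _).finrank_eq).symm

lemma dvd_iff {M : Mat 4} (hM : M.det ≠ 0) (f p : P4) : sub4 M f ∣ sub4 M p ↔ f ∣ p := by
  refine ⟨fun h => ?_, fun h => map_dvd _ h⟩
  have := map_dvd (sub4 M⁻¹) h
  rwa [BBC.inv_sub4 hM, BBC.inv_sub4 hM] at this

lemma exists_map {M : Mat 4} (hM : M.det ≠ 0) (f : P4) :
    ∃ φ : Q4 f →ₐ[ℂ] Q4 (sub4 M f), Function.Injective φ ∧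
      ∀ p, φ (mk4 f p) = mk4 (sub4 M f) (sub4 M p) := by
  refine ⟨Ideal.Quotient.liftₐ _ ((mk4 (sub4 M f)).comp (sub4 M)) fun p hp => ?_, ?_,
    fun p => rfl⟩
  · exact BBC.mk4_eq_zero.2 (map_dvd _ (Ideal.mem_span_singleton.1 hp))
  · rw [injective_iff_map_eq_zero]
    intro x hx
    obtain ⟨p, rfl⟩ := Ideal.Quotient.mk_surjective x
    exact BBC.mk4_eq_zero.2 ((dvd_iff hM f p).1 (BBC.mk4_eq_zero.1 hx))

lemma basis_sub4 {M : Mat 4} (hM : M.det ≠ 0) {f : P4} {k N : ℕ} {b : Fin N → P4}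
    (hb : IsBasisMod f k b) : IsBasisMod (sub4 M f) k fun j => sub4 M (b j) := by
  have key : ∀ c : Fin N → ℂ, ∑ j, c j • sub4 M (b j) = sub4 M (∑ j, c j • b j) := fun c => by
    simp only [map_sum, map_smul]
  refine ⟨fun j => hom_sub4 (hb.1 j) M, fun c hc => ?_, fun p hp => ?_⟩
  · rw [key, dvd_iff hM] at hc
    exact hb.2.1 c hc
  · obtain ⟨c, hc⟩ := hb.2.2 _ (hom_sub4 hp M⁻¹)
    have := map_dvd (sub4 M) hc
    rw [map_sub, BBC.sub4_inv hM, ← key] at this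
    exact ⟨c, this⟩

lemma exists_model (hA : St_A1) (h1 : St_L1) (h2 : St_L2) (h3 : St_L3) (hN : St_N1)
    (hMN : St_MODN) (hMS : St_MODS) {f : P4} (hf : f.IsHomogeneous 3) (hd : ¬ Deg2 f) :
    ∃ (M : Mat 4) (c : Fin 4 → _) (T0 : Finset Node), M.det ≠ 0 ∧ Model (sub4 M f) c T0 := by
  by_cases hs : Smooth4 f
  · obtain ⟨x, y, a1, a2⟩ := h1 f hf hs
    obtain ⟨p, q, u, v, b1, b2, b3⟩ := h2 f x y hf hs a1 a2
    obtain ⟨M, a, b, c1, c2, c3⟩ := h3 f p q u v hf hs b1 b2 b3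
    obtain ⟨c, T0, h⟩ := hMS a b c3 (c2 ▸ BBC.irr_sub4 c1 (hA.irr f hf hd))
    exact ⟨M, c, T0, c1, c2 ▸ h⟩
  · obtain ⟨M, g, c1, c2, c3, c4⟩ := hN f hf hd hs
    obtain ⟨c, T0, h⟩ := hMN g c2 (c3 ▸ fun e => hd ((hA.inv f M c1).1 e)) c4
    exact ⟨M, c, T0, c1, c3 ▸ h⟩

end GEST

theorem est_of (hA : St_A1) (h1 : St_L1) (h2 : St_L2) (h3 : St_L3) (hN : St_N1)
    (hMN : St_MODN) (hMS : St_MODS) (hE : St_ESTM) : St_EST := by
  obtain ⟨k0, hk⟩ := hE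
  refine ⟨k0, fun k h f N b r E hf hd hb r0 r1 hD => ?_⟩
  obtain ⟨M, c, T0, hM, hm⟩ := GEST.exists_model hA h1 h2 h3 hN hMN hMS hf hd
  obtain ⟨φ, hφ, e⟩ := GEST.exists_map hM f
  refine hk k h (sub4 M f) c T0 N (fun j => sub4 M (b j)) r E (hom_sub4 hf M) hm
    (GEST.basis_sub4 hM hb) r0 r1 ?_
  simp only [← e]
  rwa [GEST.wsum_map φ hφ]

end Pool.Agent.Lib.MP_a25055_ag
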