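import Pool.Agent.Lib.MP_a25055_ag.Geo

/-! The main estimate for surfaces with a plane model. -/

open MvPolynomial Module
open Pool.Agent.Lib.MP_3c72fe_ag (P2 P3 mult mi mem_pow_iff)

noncomputable section

namespace Pool.Agent.Lib.MP_a25055_ag

namespace GESTM

lemma ne_zero {f : P4} {c : Fin 4 → P3} (h : ∀ P : P4, aeval c P = 0 ↔ f ∣ P) : f ≠ 0 := by
  rintro rfl
  have hi : AlgebraicIndependent ℂ c :=
    (injective_iff_map_eq_zero _).2 fun P hP => zero_dvd_iff.1 ((h P).1 hP)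
  have := hi.cardinalMk_le_trdeg
  rw [MvPolynomial.trdeg_of_isDomain] at this
  simp only [Cardinal.mk_fintype, Fintype.card_fin, Cardinal.lift_id, Nat.cast_le] at this
  omega

lemma aeval_mem {I : Ideal P2} {x : Fin 4 → P2} {w k : ℕ} (hx : ∀ i, x i ∈ I ^ w) {P : P4}
    (hP : P.IsHomogeneous k) : aeval x P ∈ I ^ (k * w) := by
  rw [aeval_def, eval₂_eq']
  refine Ideal.sum_mem _ fun d hd => Ideal.mul_mem_left _ _ ?_
  have h1 : ∑ i, d i = k := by
    have := hP (mem_support_iff.1 hd)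
    rw [← this, Finsupp.weight_apply, Finsupp.sum_fintype _ _ (by simp)]
    simp
  rw [← h1, mul_comm, pow_mul, ← Finset.prod_pow_eq_pow_sum]
  exact Ideal.prod_mem_prod fun i _ => Ideal.pow_mem_pow (hx i) _

lemma adm (hV : St_VAL) {f : P4} {c : Fin 4 → P3} {T0 : Finset Node} (hM : Model f c T0) {k N : ℕ}
    {b : Fin N → P4} (hb : ∀ j, (b j).IsHomogeneous k) (r : Fin N → ℕ) :
    Adm T0 k (spU c b r 0) := by
  have h1 : spU c b r 0 ≤ hom (3 * k) := Submodule.span_le.2 (by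
    rintro _ ⟨j, -, rfl⟩
    exact (hb j).aeval c hM.hom)
  refine ⟨h1, fun s hs h0 q => ?_⟩
  have hx : ∀ i, q.tot (c i) ∈ mi 0 ^ wv (ind T0) q := fun i => by
    by_cases hc : c i = 0
    · simp [hc]
    have hz : NZ (c i) := ⟨hc, 3, hM.hom i⟩
    exact (mem_pow_iff (hV.ne q _ hz).1).2
      (hV.wvle _ T0 _ hz (fun q hq => if_neg hq) (hM.vir i) q)
  refine (mem_pow_iff (hV.ne q s ⟨h0, _, h1 hs⟩).1).1 ?_
  clear h0
  induction hs using Submodule.span_induction with
  | mem y hy =>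
    obtain ⟨j, -, rfl⟩ := hy
    rw [← AlgHom.comp_apply, comp_aeval]
    exact aeval_mem hx (hb j)
  | zero => simp
  | add y z _ _ hy hz => rw [map_add]; exact add_mem hy hz
  | smul a y _ hy => rw [map_smul, smul_eq_C_mul]; exact Ideal.mul_mem_left _ _ hy

lemma spU_anti {N : ℕ} (c : Fin 4 → P3) (b : Fin N → P4) (r : Fin N → ℕ) : Antitone (spU c b r) :=
  fun _ _ h => Submodule.span_mono fun _ ⟨j, h1, h2⟩ => ⟨j, h.trans h1, h2⟩

lemma finrank_spU {N : ℕ} {c : Fin 4 → P3} {b : Fin N → P4}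
    (hi : LinearIndependent ℂ fun j => aeval c (b j)) (r : Fin N → ℕ) (n : ℕ) :
    finrank ℂ (spU c b r n) = (Finset.univ.filter fun j => n ≤ r j).card := by
  have h := finrank_span_eq_card (hi.comp (Subtype.val : {j // n ≤ r j} → Fin N)
    Subtype.val_injective)
  rw [Fintype.card_subtype] at h
  have e : {y | ∃ j, n ≤ r j ∧ y = aeval c (b j)} =
      Set.range ((fun j => aeval c (b j)) ∘ (Subtype.val : {j // n ≤ r j} → Fin N)) :=
    Set.ext fun y =>
      ⟨fun ⟨j, h1, h2⟩ => ⟨⟨j, h1⟩, h2.symm⟩, fun ⟨j, h2⟩ => ⟨j.1, j.2, h2.symm⟩⟩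
  rw [← h, spU, e]

lemma sum_card {N t : ℕ} {r : Fin N → ℕ} (h : ∀ j, r j ≤ t) :
    ∑ n ∈ Finset.Ioc 0 t, (Finset.univ.filter fun j => n ≤ r j).card = ∑ j, r j := by
  simp only [Finset.card_filter]
  rw [Finset.sum_comm]
  refine Finset.sum_congr rfl fun j _ => ?_
  rw [← Finset.card_filter]
  have : (Finset.Ioc 0 t).filter (fun n => n ≤ r j) = Finset.Ioc 0 (r j) := by
    ext n
    have := h j
    simp only [Finset.mem_filter, Finset.mem_Ioc]
    omega
  rw [this, Nat.card_Ioc, Nat.sub_zero]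

end GESTM

open GESTM in
theorem estm_of (hH : St_HF) (hC : St_CORE) (hV : St_VAL) (hD : St_DIV) (hCol : St_COLG)
    (hR : St_RRG) (hG : St_G3L) : St_ESTM := by
  obtain ⟨k0, hC⟩ := hC
  refine ⟨max k0 2, fun k hk f c T0 N b r E hf hM hb ⟨j0, hj0⟩ ⟨j1, hj1⟩ hE => ?_⟩
  have hk2 : 2 ≤ k := (le_max_right _ _).trans hk
  obtain ⟨c0, hc0, hC⟩ := hC k ((le_max_left _ _).trans hk)
  obtain ⟨jm, -, hm⟩ := Finset.exists_max_image Finset.univ r ⟨j0, Finset.mem_univ _⟩
  have hm' : ∀ j, r j ≤ r jm := fun j => hm j (Finset.mem_univ _)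
  have hi : LinearIndependent ℂ fun j => aeval c (b j) :=
    Fintype.linearIndependent_iff.2 fun g hg => congrFun (hb.2.1 g ((hM.ker _).1 (by
      simpa only [map_sum, map_smul] using hg)))
  have hA := adm hV hM hb.1 r
  have hN := hH.card f k N b (ne_zero hM.ker) hf (by omega) hb
  have hfr : ∀ n, finrank ℂ ((spU c b r n).comap (spU c b r 0).subtype) =
      (Finset.univ.filter fun j => n ≤ r j).card := fun n => by
    rw [(Submodule.comapSubtypeEquivOfLe (spU_anti c b r (Nat.zero_le n))).finrank_eq,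
      finrank_spU hi]
  have hf0 : finrank ℂ (spU c b r 0) = N := by simp [finrank_spU hi]
  have key : ∀ ε : ℝ, 0 < ε → c0 + ((∑ j, r j : ℕ) : ℝ) ≤ rat k * (E / 3 + ε) := fun ε hε => by
    obtain ⟨T, hT, hT0, h⟩ := hG f c T0 k N b r E (r jm) hf hM hk2 hb hm' ⟨jm, rfl⟩ hE ε hε
    have hs := hD.sec T T0 k _ hT hA
    have h1 := hC _ (hM.dp T hT hT0) (gSec hs)
      (fun n => (spU c b r n).comap (spU c b r 0).subtype) (r jm)
      ⟨(congrArg (2 * ·) hf0).trans hN, hCol T T0 k _ hs hT hA, hR T T0 k _ hs hT hT0 hA hM.dp⟩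
      ⟨fun _ _ h => Submodule.comap_mono (spU_anti c b r h), fun h0 => by
        have h2 := hfr (r jm)
        rw [show (spU c b r (r jm)).comap (spU c b r 0).subtype = ⊥ from h0, finrank_bot] at h2
        exact (Finset.card_pos.2 ⟨jm, by simp⟩).ne h2⟩
      (Submodule.comap_subtype_self _) (fun h0 => by
        have h2 := hfr 1
        rw [show (spU c b r 1).comap (spU c b r 0).subtype = ⊤ from h0, finrank_top, hf0] at h2
        have := Finset.card_lt_card ((Finset.filter_ssubset (p := fun j => 1 ≤ r j)).2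
          ⟨j0, Finset.mem_univ _, (by omega : ¬ 1 ≤ r j0)⟩)
        rw [← h2] at this
        simp at this) (by have := hm' j1; omega)
    rw [← sum_card hm', Nat.cast_sum, ← Finset.sum_congr rfl fun n _ => congrArg Nat.cast (hfr n)]
    exact h1.trans (mul_le_mul_of_nonneg_left (h hs) (by unfold rat; positivity))
  have hk0 : (0 : ℝ) < k := by exact_mod_cast (by omega : 0 < k)
  have hr : rat k = N / (3 * k ^ 2) := by
    have : (2 : ℝ) * N = 3 * k ^ 2 + 3 * k + 2 := by exact_mod_cast hN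
    rw [rat, ← this]
    field_simp
    ring
  have hrp : 0 < rat k := by unfold rat; positivity
  have h3 := key (c0 / (2 * rat k)) (by positivity)
  have h4 : ((∑ j, r j : ℕ) : ℝ) < rat k * (E / 3) := by
    have : rat k * (c0 / (2 * rat k)) = c0 / 2 := by field_simp
    rw [mul_add, this] at h3
    linarith
  rw [hr, div_mul_div_comm, lt_div_iff₀ (by positivity)] at h4
  have h5 : (9 : ℝ) * k ^ 2 * ((∑ j, r j : ℕ) : ℝ) < N * E := by linarith
  exact_mod_cast h5

end Pool.Agent.Lib.MP_a25055_ag
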