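import Pool.Agent.Lib.MP_a25055_ag.Geo

/-! Block G1P: the dimension of a big mobile linear system. -/

open MvPolynomial Module
open Pool.Agent.Lib.MP_cc3443_ag (Place IsFF divF)
open Pool.Agent.Lib.MP_3c72fe_ag (P2 P3 mult Ge LL el chi ZD)

noncomputable section

namespace Pool.Agent.Lib.MP_a25055_ag

namespace GG1P

lemma mem_span {F s : P3} {e : ℕ} (hF0 : F ≠ 0) (hF : F.IsHomogeneous e) (hs : s.IsHomogeneous e)
    (h : F ∣ s) : s ∈ Submodule.span ℂ {F} := by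
  obtain ⟨u, rfl⟩ := h
  rcases eq_or_ne u 0 with rfl | hu
  · rw [mul_zero]; exact zero_mem _
  have h1 := totalDegree_mul_of_isDomain hF0 hu
  rw [hs.totalDegree (mul_ne_zero hF0 hu), hF.totalDegree hF0] at h1
  have h2 : u.totalDegree = 0 := by omega
  rw [totalDegree_eq_zero_iff_eq_C.1 h2, mul_comm, ← smul_eq_C_mul]
  exact Submodule.smul_mem _ _ (Submodule.mem_span_singleton_self F)

lemma finrank_le {F : P3} {e : ℕ} (hF0 : F ≠ 0) (hF : F.IsHomogeneous e) (c : FC F)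
    (W : Submodule ℂ P3) (hW : W ≤ hom e) (D : Place c.K →₀ ℤ)
    (hD : ∀ s ∈ W, aeval c.η s ∈ LL D) : (finrank ℂ W : ℤ) ≤ el D + 1 := by
  haveI : FiniteDimensional ℂ (hom e) :=
    Module.Finite.iff_fg.2 (homogeneousSubmodule_fg (Fin 3) ℂ e)
  haveI : FiniteDimensional ℂ W := Submodule.finiteDimensional_of_le hW
  let φ : W →ₗ[ℂ] c.K := (aeval c.η : P3 →ₐ[ℂ] c.K).toLinearMap ∘ₗ W.subtype
  have h1 := φ.finrank_range_add_finrank_ker
  have h2 : finrank ℂ (LinearMap.range φ) ≤ finrank ℂ (LL D) := by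
    refine Submodule.finrank_mono ?_
    rintro _ ⟨s, rfl⟩
    exact hD s.1 s.2
  have h3 : finrank ℂ (LinearMap.ker φ) ≤ 1 := by
    rw [← Submodule.finrank_map_subtype_eq, ← finrank_span_singleton (K := ℂ) hF0]
    refine Submodule.finrank_mono ?_
    rintro _ ⟨s, hs, rfl⟩
    exact mem_span hF0 hF (hW s.2) ((c.gen.ker s.1 e (hW s.2)).1 hs)
  unfold el
  omega

lemma sq_eq (T T0 : Finset Node) (e : ℕ) (M : Node → ℕ) :
    (gTree T T0).sq (gcl T T0 e M) = (((e : ℤ) * e - ∑ q ∈ T, (M q : ℤ) * M q : ℤ) : ℝ) := by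
  push_cast
  rw [← Finset.sum_coe_sort T]
  rfl

lemma ip_eq (T T0 : Finset Node) (e : ℕ) (M : Node → ℕ) :
    (gTree T T0).ip (gcl T T0 e M) (gTree T T0).aK =
      (((e : ℤ) * 3 - ∑ q ∈ T, (M q : ℤ) * 1 : ℤ) : ℝ) := by
  rw [Int.cast_sub, Int.cast_mul, Int.cast_sum, ← Finset.sum_coe_sort T]
  simp only [Int.cast_mul, Int.cast_natCast, Int.cast_one, Int.cast_ofNat]
  rfl

end GG1P

open GG1P in
theorem g1p_of (hNOE : St_NOE) (hORD : St_ORD) (hCLF : St_CLF) (hHUR : St_HUR) (hSYS : St_SYS)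
    (hVG : St_VG) (hIRR : St_IRR) : St_G1P := by
  intro T T0 W e hT hW hR hsq
  obtain ⟨F, hF⟩ := hVG T W e 1 hT hW hR one_ne_zero
  have hirr : Irreducible F := (hIRR T T0 W e 1 F hT hW hF).1 hsq
  have hFe : F.IsHomogeneous e := hW.le hF.mem
  obtain ⟨c⟩ := hNOE.ex F hirr ⟨hF.ne, e, hFe⟩
  have h1 := finrank_le hF.ne hFe c W hW.le (c.D T e (MW W)) fun s hs =>
    hORD.mem F c T (MW W) s e hT (hW.le hs) fun h0 q _ => by
      rw [(hSYS.rel W e q hW.le hW.ne).2]; exact (hSYS.att W q hW.ne).2 s hs h0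
  have h2 := hNOE.degD F e hirr hFe c T e (MW W)
  have h3 := hHUR F e hirr hFe c T hT hF.le
  have e2 : ∑ q ∈ T, (MW W q : ℤ) * q.m F = ∑ q ∈ T, (MW W q : ℤ) * MW W q :=
    Finset.sum_congr rfl fun q hq => by rw [hF.eq q hq]
  have e3 : ∑ q ∈ T, (q.m F : ℤ) * (q.m F - 1) =
      ∑ q ∈ T, (MW W q : ℤ) * MW W q - ∑ q ∈ T, (MW W q : ℤ) * 1 := by
    rw [← Finset.sum_sub_distrib]
    exact Finset.sum_congr rfl fun q hq => by rw [hF.eq q hq]; ring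
  rw [e2] at h2
  rw [e3] at h3
  rw [sq_eq] at hsq ⊢
  rw [ip_eq]
  generalize ∑ q ∈ T, (MW W q : ℤ) * MW W q = A at *
  generalize ∑ q ∈ T, (MW W q : ℤ) * 1 = B at *
  have h0 : (0 : ℤ) < e * e - A := by exact_mod_cast hsq
  obtain ⟨-, h4⟩ := hCLF.le c.K (c.D T e (MW W)) (by rw [h2]; exact h0.le)
  rw [h2] at h4
  rcases h4 with h4 | h4
  · have h5 : 2 * (finrank ℂ W : ℤ) ≤ (e * e - A) + 2 + (e * 3 - B) := by nlinarith
    have h6 : (2 : ℝ) * (finrank ℂ W : ℝ) ≤ ((e * e - A : ℤ) : ℝ) + 2 + ((e * 3 - B : ℤ) : ℝ) := by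
      exact_mod_cast h5
    have := le_max_right (2 : ℝ) (1 + ((e * 3 - B : ℤ) : ℝ) / 2)
    linarith
  · have h5 : 2 * (finrank ℂ W : ℤ) ≤ (e * e - A) + 4 := by linarith
    have h6 : (2 : ℝ) * (finrank ℂ W : ℝ) ≤ ((e * e - A : ℤ) : ℝ) + 4 := by exact_mod_cast h5
    have := le_max_left (2 : ℝ) (1 + ((e * 3 - B : ℤ) : ℝ) / 2)
    linarith

end Pool.Agent.Lib.MP_a25055_ag
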