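import Pool.Agent.Lib.MP_a25055_ag.Geo

/-! The weight of a filtration bounds the volume integral. -/

open MvPolynomial Module Filter Topology
open Pool.Agent.Lib.MP_3c72fe_ag (P2 P3)

noncomputable section

namespace Pool.Agent.Lib.MP_a25055_ag

namespace GG3L

section fil
variable {A : Type} [CommRing A] [Algebra ℂ A] {N : ℕ} (b : Fin N → A) (r : Fin N → ℕ)

lemma fil_anti (n : ℕ) {s s' : ℕ} (h : s ≤ s') : Fil b r n s' ≤ Fil b r n s :=
  Submodule.span_mono fun _ ⟨j, hj, e⟩ => ⟨j, h.trans hj, e⟩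

instance fil_fd (n s : ℕ) : FiniteDimensional ℂ (Fil b r n s) :=
  FiniteDimensional.span_of_finite ℂ
    ((Set.finite_range fun j : Fin n → Fin N => ∏ l, b (j l)).subset
      fun _ ⟨j, _, e⟩ => ⟨j, e.symm⟩)

lemma fil_mul (n n' s s' : ℕ) : Fil b r n s * Fil b r n' s' ≤ Fil b r (n + n') (s + s') := by
  unfold Fil
  rw [Submodule.span_mul_span]
  refine Submodule.span_mono ?_
  rintro _ ⟨_, ⟨j, hj, rfl⟩, _, ⟨j', hj', rfl⟩, rfl⟩
  refine ⟨Fin.append j j', ?_, ?_⟩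
  · rw [Fin.sum_univ_add]; simpa using add_le_add hj hj'
  · rw [Fin.prod_univ_add]; simp

lemma mul_mem {n n' s s' : ℕ} {x y : A} (hx : x ∈ Fil b r n s) (hy : y ∈ Fil b r n' s') :
    x * y ∈ Fil b r (n + n') (s + s') := fil_mul b r n n' s s' (Submodule.mul_mem_mul hx hy)

lemma one_mem : (1 : A) ∈ Fil b r 0 0 :=
  Submodule.subset_span ⟨Fin.elim0, by simp, by simp⟩

lemma fil_pow (m s n : ℕ) : Fil b r m s ^ n ≤ Fil b r (m * n) (s * n) := by
  induction n with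
  | zero => rw [pow_zero, Submodule.one_le]; exact one_mem b r
  | succ n ih =>
    rw [pow_succ]
    exact (mul_le_mul_left ih _).trans (fil_mul b r _ _ _ _)

lemma pow_mem (j : Fin N) (n : ℕ) : b j ^ n ∈ Fil b r n (n * r j) :=
  Submodule.subset_span ⟨fun _ => j, by simp, by simp⟩

lemma span_le_fil (n : ℕ) : Submodule.span ℂ {y | ∃ j, n ≤ r j ∧ y = b j} ≤ Fil b r 1 n :=
  Submodule.span_mono fun _ ⟨j, hj, e⟩ => ⟨fun _ => j, by simpa using hj, by simpa using e⟩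

lemma prod_mem (m : ℕ) (n : Fin m → ℕ) (σ : Fin m → A) (h : ∀ l, σ l ∈ Fil b r 1 (n l)) :
    ∏ l, σ l ∈ Fil b r m (∑ l, n l) := by
  induction m with
  | zero => simpa using one_mem b r
  | succ m ih =>
    rw [Fin.prod_univ_castSucc, Fin.sum_univ_castSucc]
    exact mul_mem b r (ih _ _ fun l => h l.castSucc) (h _)

lemma fil_map {A' : Type} [CommRing A'] [Algebra ℂ A'] (ψ : A →ₐ[ℂ] A') (n s : ℕ) :
    (Fil b r n s).map ψ.toLinearMap = Fil (fun j => ψ (b j)) r n s := by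
  unfold Fil
  rw [Submodule.map_span]
  congr 1
  ext y
  constructor
  · rintro ⟨_, ⟨j, hj, rfl⟩, rfl⟩
    exact ⟨j, hj, by simp⟩
  · rintro ⟨j, hj, rfl⟩
    exact ⟨_, ⟨j, hj, rfl⟩, by simp⟩

lemma wsum_map {A' : Type} [CommRing A'] [Algebra ℂ A'] (ψ : A →ₐ[ℂ] A')
    (hψ : Function.Injective ψ) (n : ℕ) : wsum (fun j => ψ (b j)) r n = wsum b r n :=
  Finset.sum_congr rfl fun s _ => by
    rw [← fil_map]
    exact (Submodule.equivMapOfInjective ψ.toLinearMap hψ _).finrank_eq.symm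

lemma blocks (g : ℕ → ℕ) (hg : Antitone g) (n K : ℕ) :
    ∑ s ∈ Finset.Ioc 0 K, n * g (s * n) ≤ ∑ σ ∈ Finset.Ioc 0 (K * n), g σ := by
  induction K with
  | zero => simp
  | succ K ih =>
    rw [Finset.sum_Ioc_succ_top (Nat.zero_le K), ← Finset.sum_Ioc_consecutive g
      (Nat.zero_le (K * n)) (Nat.mul_le_mul_right n (Nat.le_succ K))]
    refine add_le_add ih ?_
    have := Finset.card_nsmul_le_sum (Finset.Ioc (K * n) ((K + 1) * n)) g (g ((K + 1) * n))
      fun σ hσ => hg (Finset.mem_Ioc.1 hσ).2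
    rwa [Nat.card_Ioc, show (K + 1) * n - K * n = n by rw [add_mul]; omega, smul_eq_mul] at this

lemma wsum_ge (m K n : ℕ) (hK : K ≤ m * ∑ j, r j) :
    ∑ s ∈ Finset.Ioc 0 K, n * finrank ℂ ↥(Fil b r m s ^ n) ≤ wsum b r (m * n) := by
  have hg : Antitone fun σ => finrank ℂ (Fil b r (m * n) σ) := fun σ σ' h =>
    Submodule.finrank_mono (fil_anti b r _ h)
  refine le_trans (Finset.sum_le_sum fun s _ => Nat.mul_le_mul_left n
    (Submodule.finrank_mono (fil_pow b r m s n))) ((blocks _ hg n K).trans ?_)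
  refine Finset.sum_le_sum_of_subset fun σ hσ => ?_
  rw [Finset.mem_Ioc] at hσ
  refine Finset.mem_Icc.2 ⟨hσ.1, hσ.2.trans ?_⟩
  calc K * n ≤ (m * ∑ j, r j) * n := Nat.mul_le_mul_right n hK
    _ = m * n * ∑ j, r j := by ring

end fil

/-- Forms of degree `e` with valuations at least `n w`. -/
def VV (hV : St_VAL) (w : Node → ℕ) (e n : ℕ) : Submodule ℂ P3 where
  carrier := {s | s.IsHomogeneous e ∧ (s ≠ 0 → ∀ q : Node, n * w q ≤ q.v s)}
  zero_mem' := ⟨isHomogeneous_zero _ _ _, fun h => absurd rfl h⟩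
  add_mem' := by
    rintro s t ⟨hs, hs'⟩ ⟨ht, ht'⟩
    refine ⟨hs.add ht, fun h q => ?_⟩
    by_cases h1 : s = 0
    · subst h1; rw [zero_add] at h ⊢; exact ht' h q
    by_cases h2 : t = 0
    · subst h2; rw [add_zero] at h ⊢; exact hs' h q
    exact (le_min (hs' h1 q) (ht' h2 q)).trans (hV.add q s t e hs ht h)
  smul_mem' := by
    rintro a s ⟨hs, hs'⟩
    rw [smul_eq_C_mul]
    refine ⟨by simpa using (isHomogeneous_C _ a).mul hs, fun h q => ?_⟩
    have h1 : (C a : P3) ≠ 0 := left_ne_zero_of_mul h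
    have h2 : s ≠ 0 := right_ne_zero_of_mul h
    rw [(hV.mul q _ _ ⟨h1, 0, isHomogeneous_C _ a⟩ ⟨h2, e, hs⟩).2.2]
    exact (hs' h2 q).trans (Nat.le_add_left _ _)

lemma VV_mul (hV : St_VAL) (w : Node → ℕ) {e n e' n' : ℕ} {s t : P3} (hs : s ∈ VV hV w e n)
    (ht : t ∈ VV hV w e' n') : s * t ∈ VV hV w (e + e') (n + n') := by
  refine ⟨hs.1.mul ht.1, fun h q => ?_⟩
  have h1 : s ≠ 0 := left_ne_zero_of_mul h
  have h2 : t ≠ 0 := right_ne_zero_of_mul h
  rw [(hV.mul q _ _ ⟨h1, e, hs.1⟩ ⟨h2, e', ht.1⟩).2.2, add_mul]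
  exact add_le_add (hs.2 h1 q) (ht.2 h2 q)

lemma VV_one (hV : St_VAL) (w : Node → ℕ) : (1 : P3) ∈ VV hV w 0 0 :=
  ⟨isHomogeneous_one _ _, fun _ _ => by simp⟩

lemma VV_prod (hV : St_VAL) (w : Node → ℕ) {ι : Type} (S : Finset ι) (x : ι → P3) (e n : ι → ℕ)
    (h : ∀ i ∈ S, x i ∈ VV hV w (e i) (n i)) :
    ∏ i ∈ S, x i ∈ VV hV w (∑ i ∈ S, e i) (∑ i ∈ S, n i) := by
  classical
  induction S using Finset.induction_on with
  | empty => simpa using VV_one hV w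
  | insert a S ha ih =>
    rw [Finset.prod_insert ha, Finset.sum_insert ha, Finset.sum_insert ha]
    exact VV_mul hV w (h a (Finset.mem_insert_self _ _))
      (ih fun i hi => h i (Finset.mem_insert_of_mem hi))

lemma VV_pow (hV : St_VAL) (w : Node → ℕ) {e n : ℕ} {x : P3} (h : x ∈ VV hV w e n) (a : ℕ) :
    x ^ a ∈ VV hV w (a * e) (a * n) := by
  simpa using VV_prod hV w (Finset.range a) (fun _ => x) (fun _ => e) (fun _ => n) fun _ _ => h

lemma VV_aeval (hV : St_VAL) (w : Node → ℕ) {c : Fin 4 → P3} (hc : ∀ i, c i ∈ VV hV w 3 1)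
    {P : P4} {k : ℕ} (hP : P.IsHomogeneous k) : aeval c P ∈ VV hV w (3 * k) k := by
  rw [P.as_sum, map_sum]
  refine Submodule.sum_mem _ fun a ha => ?_
  rw [aeval_monomial, Finsupp.prod_fintype _ _ (by simp), algebraMap_eq, ← smul_eq_C_mul]
  refine Submodule.smul_mem _ _ ?_
  have h1 : ∑ i, a i = k := by
    have := hP (mem_support_iff.1 ha)
    rw [Finsupp.weight_apply, Finsupp.sum_fintype _ _ (by simp)] at this
    simpa using this
  have := VV_prod hV w Finset.univ (fun i => c i ^ a i) (fun i => a i * 3) (fun i => a i * 1)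
    fun i _ => VV_pow hV w (hc i) (a i)
  rwa [← Finset.sum_mul, ← Finset.sum_mul, h1, mul_one, mul_comm] at this

lemma adm_fil (hV : St_VAL) {T0 : Finset Node} {k N : ℕ} {β : Fin N → P3} (r : Fin N → ℕ)
    (hβ : ∀ j, β j ∈ VV hV (wv (ind T0)) (3 * k) k) (m s : ℕ) : Adm T0 (m * k) (Fil β r m s) := by
  have h : Fil β r m s ≤ VV hV (wv (ind T0)) (3 * (m * k)) (m * k) := by
    refine Submodule.span_le.2 ?_
    rintro _ ⟨j, -, rfl⟩
    have := VV_prod hV (wv (ind T0)) Finset.univ (fun l => β (j l)) (fun _ => 3 * k) (fun _ => k)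
      fun l _ => hβ (j l)
    simp only [Finset.sum_const, Finset.card_univ, Fintype.card_fin, smul_eq_mul] at this
    rwa [show m * (3 * k) = 3 * (m * k) by ring] at this
  exact ⟨fun x hx => (h hx).1, fun x hx => (h hx).2⟩

lemma gdiv_prod (hV : St_VAL) (hD : St_DIV) (T T0 : Finset Node) (w : Node → ℕ) (k m : ℕ)
    (σ : Fin m → P3) (hσ : ∀ l, NZ (σ l)) (i : (gTree T T0).I) :
    NZ (∏ l, σ l) ∧ gdiv T T0 (fun q => m * k * w q) (∏ l, σ l) i ≤
      ∑ l, gdiv T T0 (fun q => k * w q) (σ l) i := by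
  induction m with
  | zero =>
    refine ⟨⟨by simp, 0, by simpa using isHomogeneous_one _ _⟩, ?_⟩
    rw [Fin.prod_univ_zero, Fin.sum_univ_zero]
    rcases i with Γ | q
    · rw [(hD.app T T0 _ 1 one_ne_zero).1 Γ]
      exact (multiplicity_eq_zero.2 Γ.2.1.not_dvd_one).le
    · rw [(hD.app T T0 _ 1 one_ne_zero).2 q]
      have := (hV.const q.1 1 one_ne_zero).2.2
      rw [C_1] at this
      omega
  | succ m ih =>
    obtain ⟨h1, h2⟩ := ih (fun l => σ l.castSucc) fun l => hσ _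
    have h3 := hσ (Fin.last m)
    have h4 : (∏ l : Fin m, σ l.castSucc) * σ (Fin.last m) ≠ 0 := mul_ne_zero h1.1 h3.1
    rw [Fin.prod_univ_castSucc, Fin.sum_univ_castSucc]
    refine ⟨⟨h4, ?_⟩, le_trans ?_ (add_le_add h2 le_rfl)⟩
    · obtain ⟨e, he⟩ := h1.2
      obtain ⟨e', he'⟩ := h3.2
      exact ⟨_, he.mul he'⟩
    rcases i with Γ | q
    · rw [(hD.app T T0 _ _ h4).1 Γ, (hD.app T T0 _ _ h1.1).1 Γ, (hD.app T T0 _ _ h3.1).1 Γ]
      have hp : Prime Γ.rep := Γ.2.1.prime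
      exact (multiplicity_mul hp (FiniteMultiplicity.of_prime_left hp h4)).le
    · rw [(hD.app T T0 _ _ h4).2 q, (hD.app T T0 _ _ h1.1).2 q, (hD.app T T0 _ _ h3.1).2 q,
        (hV.mul q.1 _ _ h1 h3).2.2, add_mul, add_mul, one_mul]
      omega

lemma limit {w : ℕ → ℕ} {L : ℝ} (hw : Tendsto (fun n : ℕ => (w n : ℝ) / n ^ 3) atTop (𝓝 L))
    {m : ℕ} (hm : 0 < m) {Q C : ℝ}
    (h : ∀ n : ℕ, Q * n ^ 3 / 2 ≤ w (m * n) + C * n ^ 2) : Q / 2 ≤ m ^ 3 * L := by
  have hm' : (0 : ℝ) < m := by exact_mod_cast hm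
  have h1 : Tendsto (fun n : ℕ => m * n) atTop atTop :=
    tendsto_atTop_mono (fun n => Nat.le_mul_of_pos_left n hm) tendsto_id
  have h2 := ((hw.comp h1).const_mul ((m : ℝ) ^ 3)).add (tendsto_const_div_atTop_nhds_zero_nat C)
  rw [add_zero] at h2
  refine ge_of_tendsto h2 ((eventually_gt_atTop 0).mono fun n hn => ?_)
  have hn' : (0 : ℝ) < n := by exact_mod_cast hn
  have e : (m : ℝ) ^ 3 * ((w (m * n) : ℝ) / ((m * n : ℕ) : ℝ) ^ 3) + C / n =
      (w (m * n) + C * n ^ 2) / n ^ 3 := by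
    push_cast; field_simp
  change Q / 2 ≤ (m : ℝ) ^ 3 * ((w (m * n) : ℝ) / ((m * n : ℕ) : ℝ) ^ 3) + C / n
  rw [e, le_div_iff₀ (by positivity)]
  have := h n
  linarith

end GG3L

open GG3L in
theorem g3l_of (hHF : St_HF) (hG3N : St_G3N) (hV : St_VAL) (hD : St_DIV) (hS : St_SYS)
    (hG3P : St_G3P) : St_G3L := by
  intro f c T0 k N b r E t hf hM hk hb hrt ⟨j0, hj0⟩ hE ε hε
  set β : Fin N → P3 := fun j => aeval c (b j) with hβ
  have hβ0 : ∀ j, β j ≠ 0 := fun j h => by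
    have := hb.2.1 (Pi.single j 1) (by
      rw [Finset.sum_eq_single j (fun i _ hi => by simp [hi]) (by simp)]
      simpa using (hM.ker _).1 h)
    simpa using congrFun this j
  have hc : ∀ i, c i ∈ VV hV (wv (ind T0)) 3 1 := fun i =>
    ⟨hM.hom i, fun h q => by
      rw [one_mul]
      exact hV.wvle _ T0 _ ⟨h, 3, hM.hom i⟩ (fun q hq => if_neg hq) (hM.vir i) q⟩
  have hβV : ∀ j, β j ∈ VV hV (wv (ind T0)) (3 * k) k := fun j => VV_aeval hV _ hc (hb.1 j)
  have hc0 : c 0 ≠ 0 := fun h => by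
    have h1 : f ∣ X 0 := (hM.ker _).1 (by simpa using h)
    have h2 : f ≠ 0 := fun e => X_ne_zero (0 : Fin 4) (zero_dvd_iff.1 (e ▸ h1))
    have h3 := totalDegree_le_of_dvd_of_isDomain h1 (X_ne_zero _)
    rw [hf.totalDegree h2, totalDegree_X] at h3
    omega
  let ψ : Q4 f →ₐ[ℂ] P3 := Ideal.Quotient.liftₐ _ (aeval c) fun P hP =>
    (hM.ker P).2 (Ideal.mem_span_singleton.1 hP)
  have hψ : Function.Injective ψ := by
    rw [injective_iff_map_eq_zero]
    intro x hx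
    obtain ⟨P, rfl⟩ := Ideal.Quotient.mk_surjective x
    exact Ideal.Quotient.eq_zero_iff_mem.2 (Ideal.mem_span_singleton.2 ((hM.ker P).1 hx))
  have hws : ∀ n, wsum β r n = wsum (fun j => mk4 f (b j)) r n := fun n =>
    wsum_map (fun j => mk4 f (b j)) r ψ hψ n
  obtain ⟨m0, hm0⟩ := exists_nat_ge (12 * ((t : ℝ) + 1) ^ 2 * k ^ 2 / ε)
  set m := m0 + 1 with hm
  have hmpos : 0 < m := Nat.succ_pos _
  have hadm : ∀ s, Adm T0 (m * k) (Fil β r m s) := adm_fil hV r hβV m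
  have hne : ∀ s ≤ m * t, Fil β r m s ≠ ⊥ := fun s hs =>
    (Submodule.ne_bot_iff _).2 ⟨β j0 ^ m, fil_anti β r m (by rwa [hj0]) (pow_mem β r j0 m),
      pow_ne_zero _ (hβ0 j0)⟩
  have hdec : ∀ s : Fin (m * t + 1), ∃ g W' e, Dec (Fil β r m s) g W' e := fun s =>
    hS.dec _ _ (hadm s).1 (hne s (Nat.lt_succ_iff.1 s.2))
  choose g W' e hdec using hdec
  obtain ⟨T, hT0, hT, hres⟩ := hS.res T0 (Fin (m * t + 1)) W' e fun s => (hdec s).mob
  refine ⟨T, hT, hT0, fun h => ?_⟩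
  have hDP := hM.dp T hT hT0
  have h' : SecAx T T0 (m * k) (Fil β r m 0) := hD.sec T T0 _ _ hT (hadm 0)
  set U : ℕ → Submodule ℂ (spU c b r 0) := fun n => (spU c b r n).comap (spU c b r 0).subtype
    with hU
  set U' : ℕ → Submodule ℂ (Fil β r m 0) := fun s => (Fil β r m s).comap (Fil β r m 0).subtype
    with hU'
  have hmap : ∀ s, (U' s).map (Fil β r m 0).subtype = Fil β r m s := fun s => by
    rw [hU', Submodule.map_comap_subtype, inf_eq_right.2 (fil_anti β r m (Nat.zero_le s))]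
  have hU'ne : ∀ s ≤ m * t, U' s ≠ ⊥ := fun s hs e => hne s hs (by rw [← hmap, e, Submodule.map_bot])
  have hanti : Antitone (spU c b r) := fun n n' hn =>
    Submodule.span_mono fun _ ⟨j, hj, e⟩ => ⟨j, hn.trans hj, e⟩
  have hUne : ∀ n ≤ t, U n ≠ ⊥ := fun n hn =>
    (Submodule.ne_bot_iff _).2 ⟨⟨β j0, Submodule.subset_span ⟨j0, Nat.zero_le _, rfl⟩⟩,
      Submodule.subset_span ⟨j0, by rwa [hj0], rfl⟩, fun e => hβ0 j0 (congrArg Subtype.val e)⟩
  have hsp : spU c b r 0 ≤ hom (3 * k) := Submodule.span_le.2 (by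
    rintro _ ⟨j, -, rfl⟩; exact (hβV j).1)
  have hN := hG3N (gTree T T0) hDP k (gSec h) U t m (fun s => toR ((gSec h').base (U' s)))
    ⟨fun n n' hn => Submodule.comap_mono (hanti hn), hUne t le_rfl⟩ hmpos (fun s hs =>
      ⟨fun i => Nat.cast_nonneg _, (gSec h').nef_mov hDP.toPlane (hU'ne s hs), fun i n hn hsn => by
        have hx : ∀ l, ∃ σ ∈ U (n l), σ ≠ 0 ∧ (gSec h).base (U (n l)) i = (gSec h).ord σ i :=
          fun l => (gSec h).exists_base (hUne _ (hn l)) i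
        choose σ h1 h2 h3 using hx
        have hnz : ∀ l, NZ (σ l).1 := fun l =>
          ⟨fun e => h2 l (Subtype.ext e), _, hsp (σ l).2⟩
        obtain ⟨p1, p2⟩ := gdiv_prod hV hD T T0 (wv (ind T0)) k m (fun l => (σ l).1) hnz i
        have p3 : ∏ l, (σ l).1 ∈ Fil β r m s := fil_anti β r m hsn
          (prod_mem β r m n _ fun l => span_le_fil β r (n l) (h1 l))
        have p4 := (gSec h').base_le (U := U' s)
          (s := ⟨∏ l, (σ l).1, fil_anti β r m (Nat.zero_le s) p3⟩) p3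
          (fun e => p1.1 (congrArg Subtype.val e)) i
        rw [toR_apply]
        simp only [h3]
        exact_mod_cast p4.trans p2⟩)
  have hK : ∀ s ∈ Finset.Ioc 0 ((m - 1) * t), ∃ C : ℝ, ∀ n : ℕ,
      (gTree T T0).sq ((gSec h').mov (U' s)) * n ^ 2 / 2 ≤ finrank ℂ ↥(Fil β r m s ^ n) + C * n := by
    intro s hs
    have hs1 : s ≤ m0 * t := by simpa [hm] using (Finset.mem_Ioc.1 hs).2
    have hs2 : s < m * t + 1 := Nat.lt_succ_of_le (hs1.trans (Nat.mul_le_mul_right t m0.le_succ))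
    have hd := hdec ⟨s, hs2⟩
    obtain ⟨a, Θ, hΘ, ha⟩ := hM.bir
    have hbir : Bir (Fil β r m s) := by
      refine ⟨β j0 ^ m0 * (c 0 ^ (k - 2) * Θ), mul_ne_zero (pow_ne_zero _ (hβ0 j0))
        (mul_ne_zero (pow_ne_zero _ hc0) hΘ), fun i => ?_⟩
      obtain ⟨l, hl⟩ := hb.2.2 (X 0 ^ (k - 2) * a i) (by
        have := (isHomogeneous_X_pow (R := ℂ) (0 : Fin 4) (k - 2)).mul (ha i).1
        rwa [Nat.sub_add_cancel hk] at this)
      have e1 := (hM.ker _).2 hl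
      rw [map_sub, sub_eq_zero, map_mul, map_pow, aeval_X, (ha i).2, map_sum] at e1
      have e2 : c 0 ^ (k - 2) * (Θ * X i) ∈ Fil β r 1 0 := by
        rw [e1]
        refine Submodule.sum_mem _ fun j _ => ?_
        rw [map_smul]
        exact Submodule.smul_mem _ _ (span_le_fil β r 0
          (Submodule.subset_span ⟨j, Nat.zero_le _, rfl⟩))
      have e3 := mul_mem β r (pow_mem β r j0 m0) e2
      rw [mul_assoc, mul_assoc]
      exact fil_anti β r m (by rwa [hj0, add_zero]) e3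
    obtain ⟨C, hC⟩ := hG3P T T0 _ _ hT hd.mob (hres ⟨s, hs2⟩) ((hS.bir _ _ _ _ hd).1 hbir)
    refine ⟨C, fun n => ?_⟩
    rw [hS.mov T T0 _ _ h' (U' s) _ _ _ hT (hadm 0) (by rw [hmap]; exact hd),
      (hS.bir _ _ _ _ hd).2 n]
    exact hC n
  choose! C hC using hK
  have hlim := limit (hHF.asym _ _ hE) hmpos
    (Q := ∑ s ∈ Finset.Ioc 0 ((m - 1) * t), (gTree T T0).sq ((gSec h').mov (U' s)))
    (C := ∑ s ∈ Finset.Ioc 0 ((m - 1) * t), C s) fun n => by
      have h1 := wsum_ge β r m ((m - 1) * t) n (Nat.mul_le_mul (Nat.sub_le m 1)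
        (hj0 ▸ Finset.single_le_sum (fun j _ => Nat.zero_le (r j)) (Finset.mem_univ j0)))
      rw [hws] at h1
      have h2 : ∑ s ∈ Finset.Ioc 0 ((m - 1) * t), (n : ℝ) * finrank ℂ ↥(Fil β r m s ^ n) ≤
          wsum (fun j => mk4 f (b j)) r (m * n) := by exact_mod_cast h1
      refine le_trans ?_ (add_le_add h2 le_rfl)
      rw [Finset.sum_mul, Finset.sum_div, Finset.sum_mul, ← Finset.sum_add_distrib]
      refine Finset.sum_le_sum fun s hs => ?_
      have := mul_le_mul_of_nonneg_left (hC s hs n) (Nat.cast_nonneg (α := ℝ) n)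
      linarith
  have hm' : (0 : ℝ) < m := by exact_mod_cast hmpos
  have hε' : 12 * ((t : ℝ) + 1) ^ 2 * k ^ 2 ≤ ε * m := by
    rw [div_le_iff₀ hε] at hm0
    have : (m0 : ℝ) ≤ m := by exact_mod_cast m0.le_succ
    nlinarith
  refine le_of_mul_le_mul_left (hN.trans ?_) (pow_pos hm' 3)
  have h5 := mul_le_mul_of_nonneg_right hε' (sq_nonneg (m : ℝ))
  change _ + ∑ s ∈ Finset.Ioc 0 ((m - 1) * t), (gTree T T0).sq ((gSec h').mov (U' s)) ≤ _
  nlinarith

end Pool.Agent.Lib.MP_a25055_ag
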