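import Pool.Agent.Lib.MP_a25055_ag.Geo

/-! The Hilbert function of a birational linear system grows at least like half its square. -/

open MvPolynomial Module
open Pool.Agent.Lib.MP_cc3443_ag (Place IsFF divF)
open Pool.Agent.Lib.MP_3c72fe_ag (P2 P3 mult Ge LL el chi ZD)

noncomputable section

namespace Pool.Agent.Lib.MP_a25055_ag

namespace GG3P

/-- Restriction to a member of the system. -/
lemma step {K : Type} [Field K] [Algebra ℂ K] (φ : P3 →ₐ[ℂ] K) (W : Submodule ℂ P3) (hW : W.FG)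
    {F : P3} (hF : F ∈ W) (h0 : F ≠ 0) (hφ : φ F = 0) (n : ℕ) :
    finrank ℂ ↥(W ^ n) + finrank ℂ ↥((W.map φ.toLinearMap) ^ (n + 1)) ≤
      finrank ℂ ↥(W ^ (n + 1)) := by
  have : Module.Finite ℂ ↥(W ^ (n + 1)) := Module.Finite.iff_fg.2 (hW.pow (n + 1))
  have h1 := LinearMap.finrank_range_add_finrank_ker (φ.toLinearMap.domRestrict (W ^ (n + 1)))
  rw [LinearMap.range_domRestrict, Submodule.map_pow] at h1
  have hm : ∀ s : ↥(W ^ n), F * s ∈ W ^ (n + 1) := fun s => by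
    rw [pow_succ']
    exact Submodule.mul_mem_mul hF s.2
  let ψ : ↥(W ^ n) →ₗ[ℂ] ↥(LinearMap.ker (φ.toLinearMap.domRestrict (W ^ (n + 1)))) :=
    { toFun := fun s => ⟨⟨F * s, hm s⟩, by simp [hφ]⟩
      map_add' := fun s t => by ext1; ext1; simp [mul_add]
      map_smul' := fun c s => by ext1; ext1; simp }
  have h2 : Function.Injective ψ := fun s t h => by
    have h3 : F * s = F * t := congrArg (fun x => (x.1.1 : P3)) h
    exact Subtype.ext (mul_left_cancel₀ h0 h3)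
  have h3 := LinearMap.finrank_le_finrank_of_injective h2
  omega

lemma grow {a b : ℕ → ℕ} {s c : ℝ} (hs : 0 ≤ s) (h : ∀ n, a n + b (n + 1) ≤ a (n + 1))
    (hb : ∀ n : ℕ, s * n ≤ b n + c) (n : ℕ) : s * n ^ 2 / 2 ≤ a n + c * n := by
  induction n with
  | zero => simp
  | succ n ih =>
    have h1 : (a n : ℝ) + b (n + 1) ≤ a (n + 1) := by exact_mod_cast h n
    have h2 := hb (n + 1)
    push_cast at h2 ⊢
    nlinarith

lemma two_le {W : Submodule ℂ P3} (hW : W.FG) {Θ : P3} (h0 : Θ ≠ 0) (h : ∀ i, Θ * X i ∈ W) :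
    2 ≤ finrank ℂ W := by
  have : Module.Finite ℂ W := Module.Finite.iff_fg.2 hW
  have h1 : LinearIndependent ℂ ![(⟨Θ * X 0, h 0⟩ : W), ⟨Θ * X 1, h 1⟩] := by
    rw [LinearIndependent.pair_iff]
    intro s t hst
    have h2 : s • (Θ * X 0) + t • (Θ * X 1) = (0 : P3) := congrArg Subtype.val hst
    have h3 : Θ * (s • X 0 + t • X 1) = 0 := by
      rw [mul_add, mul_smul_comm, mul_smul_comm, h2]
    have h4 := (mul_eq_zero.1 h3).resolve_left h0
    have h5 := congrArg (eval ![1, 0, 0]) h4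
    have h6 := congrArg (eval ![0, 1, 0]) h4
    simp at h5 h6
    exact ⟨h5, h6⟩
  simpa using h1.fintype_card_le_finrank

lemma sq_eq (T T0 : Finset Node) (e : ℕ) (M : Node → ℕ) :
    (gTree T T0).sq (gcl T T0 e M) = (((e : ℤ) * e - ∑ q ∈ T, (M q : ℤ) * M q : ℤ) : ℝ) := by
  push_cast
  rw [← Finset.sum_coe_sort T]
  rfl

end GG3P

open GG3P in
theorem g3p_of (hDIV : St_DIV) (hNOE : St_NOE) (hORD : St_ORD) (hCLF : St_CLF) (hSYS : St_SYS)
    (hVG : St_VG) (hIRR : St_IRR) : St_G3P := by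
  intro T T0 W e hT hW hR ⟨Θ, hΘ, hB⟩
  by_cases hs : (gTree T T0).sq (gcl T T0 e (MW W)) ≤ 0
  · refine ⟨0, fun n => ?_⟩
    have h1 : (0 : ℝ) ≤ finrank ℂ ↥(W ^ n) := Nat.cast_nonneg _
    have h2 : (0 : ℝ) ≤ (n : ℝ) ^ 2 := by positivity
    nlinarith
  push Not at hs
  have hfg : W.FG := (homogeneousSubmodule_fg (σ := Fin 3) (R := ℂ) e).of_le hW.le
  obtain ⟨F, hF⟩ := hVG T W e Θ hT hW hR hΘ
  have hI := (hIRR T T0 W e Θ F hT hW hF).1 hs
  have hFh : F.IsHomogeneous e := hW.le hF.mem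
  obtain ⟨c⟩ := hNOE.ex F hI ⟨hF.ne, e, hFh⟩
  have hnd : ¬ F ∣ Θ := fun h => by
    have h1 := hF.ndvd hI h
    have h2 := two_le hfg hΘ hB
    omega
  obtain ⟨-, d, hd⟩ := hDIV.nz Θ (Θ * X 0) ⟨mul_ne_zero hΘ (X_ne_zero 0), e, hW.le (hB 0)⟩
    (dvd_mul_right _ _)
  have hΘη : aeval c.η Θ ≠ 0 := fun h => hnd ((c.gen.ker Θ d hd).1 h)
  have hwv : ∀ s ∈ W, s ≠ 0 → ∀ q ∈ T, wv (MW W) q ≤ q.v s := fun s hs h0 q _ => by
    rw [(hSYS.rel W e q hW.le hW.ne).2]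
    exact (hSYS.att W q hW.ne).2 s hs h0
  have hdeg : ((Finsupp.degree (c.D T e (MW W)) : ℤ) : ℝ) =
      (gTree T T0).sq (gcl T T0 e (MW W)) := by
    rw [hNOE.degD F e hI hFh c T e (MW W), sq_eq]
    congr 2
    exact Finset.sum_congr rfl fun q hq => by rw [hF.eq q hq]
  obtain ⟨c0, hc0⟩ := hCLF.gr c.K (c.D T e (MW W)) (W.map (aeval c.η).toLinearMap)
    (by
      rintro _ ⟨s, hs, rfl⟩
      exact hORD.mem F c T (MW W) s e hT (hW.le hs) (hwv s hs))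
    (fun P => by
      obtain ⟨n, hn, hlt, -⟩ := hORD.bd F c T P hT
      obtain ⟨s, hs, h0, hv⟩ := (hSYS.att W (c.cen P n) hW.ne).1
      refine ⟨aeval c.η s, ⟨s, hs, rfl⟩,
        hORD.eq F c T (MW W) s e P n hT h0 (hW.le hs) hn hlt (hwv s hs h0) ?_⟩
      rw [hv, (hSYS.rel W e _ hW.le hW.ne).1, hR _ hn, zero_add]
      exact Finset.sum_congr rfl fun p _ => (hSYS.rel W e p hW.le hW.ne).2.symm)
    (by
      rw [eq_top_iff, ← c.gen.top]
      refine IntermediateField.adjoin.mono _ _ _ ?_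
      rintro _ ⟨i, j, rfl⟩
      refine ⟨_, ⟨_, hB i, rfl⟩, _, ⟨_, hB j, rfl⟩, ?_⟩
      simp only [AlgHom.toLinearMap_apply, map_mul, aeval_X]
      rw [mul_div_mul_left _ _ hΘη])
  refine ⟨c0, grow (b := fun n => finrank ℂ ↥((W.map (aeval c.η).toLinearMap) ^ n)) hs.le
    (step (aeval c.η) W hfg hF.mem hF.ne ((c.gen.ker F e hFh).2 dvd_rfl)) fun n => ?_⟩
  rw [← hdeg]
  exact_mod_cast hc0 n

end Pool.Agent.Lib.MP_a25055_ag
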