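import Pool.Agent.Lib.MP_a25055_ag.Geo

/-! Block GEN: generic points of plane curves. -/

open MvPolynomial IntermediateField
open Pool.Agent.Lib.MP_cc3443_ag Pool.Agent.Lib.MP_3c72fe_ag

noncomputable section

namespace Pool.Agent.Lib.MP_a25055_ag

namespace GGEN

lemma isFF_of {K : Type} [Field K] [Algebra ℂ K] {ξ : Fin 2 → K} {p : P2} (hp : p ≠ 0)
    (h0 : aeval ξ p = 0) (htop : adjoin ℂ (Set.range ξ) = ⊤) (ht : Transcendental ℂ (ξ 0)) :
    IsFF K := by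
  set t := ξ 0 with ht'
  let ψ : Polynomial ℂ →ₐ[ℂ] ℂ⟮t⟯ := Polynomial.aeval (AdjoinSimple.gen ℂ t)
  have h1 : (algebraMap ℂ⟮t⟯ K).comp ψ.toRingHom = (Polynomial.aeval t).toRingHom := by
    ext <;> simp [ψ]
  have h2 : Function.Injective ψ.toRingHom := by
    have := transcendental_iff_injective.1 ht
    refine Function.Injective.of_comp (f := algebraMap ℂ⟮t⟯ K) ?_
    rw [← RingHom.coe_comp, h1]
    exact this
  obtain ⟨h, h5, hh⟩ := exists_rel hp 0
  have h3 : IsAlgebraic ℂ⟮t⟯ (ξ 1) := ⟨h.map ψ.toRingHom, (Polynomial.map_ne_zero_iff h2).2 h5, by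
    rw [Polynomial.aeval_def, Polynomial.eval₂_map, h1]
    exact (hh K ξ).trans h0⟩
  have h4 : ℂ⟮t⟯⟮ξ 1⟯ = ⊤ := by
    rw [← restrictScalars_eq_top_iff (K := ℂ), adjoin_simple_adjoin_simple]
    exact adjoin_eq_top_of_mem htop (subset_adjoin _ _ (by simp [ht'])) (subset_adjoin _ _ (by simp))
  have : FiniteDimensional ℂ⟮t⟯ K := by
    have := adjoin.finiteDimensional h3.isIntegral
    rw [h4] at this
    exact Module.Finite.equiv (topEquiv (F := ℂ⟮t⟯) (E := K)).toLinearEquiv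
  let e := RatFunc.algEquivOfTranscendental t ht
  let _ : Algebra (RatFunc ℂ) K := ((algebraMap ℂ⟮t⟯ K).comp e.toRingEquiv.toRingHom).toAlgebra
  have : IsScalarTower ℂ (RatFunc ℂ) K := IsScalarTower.of_algebraMap_eq fun c => by
    change _ = algebraMap ℂ⟮t⟯ K (e (algebraMap ℂ _ c))
    rw [e.commutes]; rfl
  have : FiniteDimensional (RatFunc ℂ) K :=
    Module.Finite.of_equiv_equiv e.symm.toRingEquiv (RingEquiv.refl K) (RingHom.ext fun a => by
      change algebraMap ℂ⟮t⟯ K (e (e.symm a)) = _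
      rw [e.apply_symm_apply]; rfl)
  infer_instance

lemma core {f : P3} {d : ℕ} (hi : Irreducible f) (hf : f.IsHomogeneous d)
    (h1 : degreeOf 1 f ≠ 0) :
    ∃ (K : Type) (_ : Field K) (_ : Algebra ℂ K) (_ : IsFF K) (η : Fin 3 → K), Gen f η := by
  have nd : ∀ l : P3, l ≠ 0 → degreeOf 1 l = 0 → ¬ f ∣ l := by
    rintro _ hl h2 ⟨q, rfl⟩
    rw [degreeOf_mul_eq hi.ne_zero (right_ne_zero_of_mul hl)] at h2
    omega
  let I : Ideal P3 := Ideal.span {f}
  have : I.IsPrime := (Ideal.span_singleton_prime hi.ne_zero).2 hi.prime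
  let F := FractionRing (P3 ⧸ I)
  let π : P3 →ₐ[ℂ] F := (IsScalarTower.toAlgHom ℂ (P3 ⧸ I) F).comp (Ideal.Quotient.mkₐ ℂ I)
  have h2 : ∀ g, aeval (fun k => π (X k)) g = π g := fun g => by
    conv_rhs => rw [← aeval_X_left_apply g]
    exact (AlgHom.congr_fun (comp_aeval X π) g).symm
  have h3 : ∀ g, π g = 0 ↔ f ∣ g := fun g =>
    (map_eq_zero_iff _ (IsFractionRing.injective (P3 ⧸ I) F)).trans
      (Ideal.Quotient.eq_zero_iff_mem.trans Ideal.mem_span_singleton)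
  have h4 : π (X 2) ≠ 0 := fun h => nd _ (X_ne_zero 2) (by simp [degreeOf_X]) ((h3 _).1 h)
  let K := adjoin ℂ (Set.range fun k => (π (X 2))⁻¹ * π (X k))
  let η : Fin 3 → K := fun k => ⟨(π (X 2))⁻¹ * π (X k), subset_adjoin _ _ ⟨k, rfl⟩⟩
  have h5 : ∀ g e, g.IsHomogeneous e → (aeval η g = 0 ↔ f ∣ g) := fun g e hg => by
    rw [← h3, ← map_eq_zero_iff K.val K.val.injective, ← AlgHom.comp_apply, comp_aeval]
    change aeval (fun k => (π (X 2))⁻¹ * π (X k)) g = 0 ↔ _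
    rw [aeval_smul_hom hg, h2, mul_eq_zero_iff_left (pow_ne_zero _ (inv_ne_zero h4))]
  have h6 : η 2 = 1 := Subtype.ext (inv_mul_cancel₀ h4)
  have h7 : adjoin ℂ (Set.range η) = ⊤ := by
    rw [← lift_inj, lift_adjoin, lift_top, ← Set.range_comp]
    rfl
  have h8 : ![η 0, η 1, 1] = η := by
    funext k
    fin_cases k
    exacts [rfl, rfl, h6.symm]
  refine ⟨K, inferInstance, inferInstance, isFF_of (ξ := ![η 0, η 1]) (p := dh f)
    (fun h => hi.ne_zero (dh_inj hf (isHomogeneous_zero _ _ d) (by rw [h, map_zero]))) ?_ ?_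
    (fun ha => ?_), η, h5, ?_⟩
  · rw [aeval_dh]
    exact (congrArg (fun z => aeval z f) h8).trans ((h5 f d hf).2 dvd_rfl)
  · rw [eq_top_iff, ← h7, adjoin_le_iff]
    rintro _ ⟨k, rfl⟩
    fin_cases k
    exacts [subset_adjoin _ _ ⟨0, rfl⟩, subset_adjoin _ _ ⟨1, rfl⟩, h6 ▸ one_mem _]
  · obtain ⟨a, ha⟩ : η 0 ∈ (algebraMap ℂ K).range := minpoly.mem_range_of_degree_eq_one ℂ _
      (IsAlgClosed.degree_eq_one_of_irreducible ℂ (minpoly.irreducible ha.isIntegral))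
    refine nd (X 0 - C a * X 2) (fun h => ?_) ?_ ((h5 _ 1 ((isHomogeneous_X ℂ 0).sub
      (isHomogeneous_C_mul_X a 2))).1 ?_)
    · simpa using congrArg (eval ![1, 0, 0]) h
    · refine Nat.le_zero.1 ((degreeOf_sub_le _ _ _).trans (max_le (by simp [degreeOf_X])
        ((degreeOf_C_mul_le _ _ _).trans (by simp [degreeOf_X]))))
    · rw [map_sub, map_mul, aeval_X, aeval_X, aeval_C, h6, mul_one]
      exact sub_eq_zero.2 ha.symm
  · rw [eq_top_iff, ← h7]
    refine adjoin.mono _ _ _ ?_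
    rintro _ ⟨k, rfl⟩
    exact ⟨k, 2, by rw [h6, div_one]⟩

end GGEN

theorem gen_of : St_GEN := by
  rintro f hi ⟨h0, d, hf⟩
  obtain ⟨i, h1⟩ : ∃ i, degreeOf i f ≠ 0 := by
    by_contra h
    push Not at h
    have h2 := totalDegree_eq_zero_iff_eq_C.1 ((totalDegree_eq_zero_iff _ f).2 fun m hm i =>
      Nat.le_zero.1 ((monomial_le_degreeOf i hm).trans (h i).le))
    rw [h2] at h0
    exact hi.not_isUnit (h2 ▸ (IsUnit.mk0 _ (C_ne_zero.1 h0)).map C)
  let σ := Equiv.swap i 1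
  obtain ⟨K, _, _, _, η, h2, h3⟩ := GGEN.core (f := renameEquiv ℂ σ f)
    ((MulEquiv.irreducible_iff (renameEquiv ℂ σ)).2 hi) hf.rename_isHomogeneous (by
      rw [← Equiv.swap_apply_left i 1, renameEquiv_apply, degreeOf_rename_of_injective σ.injective]
      exact h1)
  refine ⟨K, inferInstance, inferInstance, inferInstance, η ∘ σ, fun g e hg => ?_, ?_⟩
  · rw [← aeval_rename, h2 _ e hg.rename_isHomogeneous]
    exact map_dvd_iff (renameEquiv ℂ σ)
  · rw [eq_top_iff, ← h3]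
    refine adjoin.mono _ _ _ ?_
    rintro _ ⟨j, k, rfl⟩
    exact ⟨σ.symm j, σ.symm k, by simp⟩

end Pool.Agent.Lib.MP_a25055_ag
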