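import Pool.Agent.Lib.MP_a25055_ag.GORD

/-! Block HUR: the genus of a plane curve that is smooth after blowing up. -/

open MvPolynomial
open Pool.Agent.Lib.MP_cc3443_ag (Place IsFF)
open Pool.Agent.Lib.MP_3c72fe_ag

noncomputable section

namespace Pool.Agent.Lib.MP_a25055_ag

namespace GHUR

lemma der_aeval {A σ : Type} [Fintype σ] [DecidableEq σ] [CommRing A] [Algebra ℂ A]
    (D : Derivation ℂ A A) (x : σ → A) (g : MvPolynomial σ ℂ) :
    D (aeval x g) = ∑ k, aeval x (pderiv k g) * D (x k) := by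
  induction g using MvPolynomial.induction_on with
  | C a => simp
  | add a b ha hb => simp [ha, hb, add_mul, Finset.sum_add_distrib]
  | mul_X a i ha =>
    simp only [map_mul, aeval_X, D.leibniz, ha, smul_eq_mul, Derivation.leibniz, map_add,
      pderiv_X, add_mul, Finset.sum_add_distrib, Finset.mul_sum]
    congr 1
    · rw [Finset.sum_eq_single i (fun k _ h => by simp [Ne.symm h]) (by simp)]
      simp
    · exact Finset.sum_congr rfl fun k _ => by ring

lemma aeval_aeval {A σ τ : Type} [CommRing A] [Algebra ℂ A] (x : τ → A)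
    (s : σ → MvPolynomial τ ℂ) (g : MvPolynomial σ ℂ) :
    aeval x (aeval s g) = aeval (fun i => aeval x (s i)) g := by
  rw [← AlgHom.comp_apply, comp_aeval]

lemma pd_aeval {A σ : Type} [Fintype σ] [DecidableEq σ] [CommRing A] [Algebra ℂ A]
    (x : Fin 2 → A) (s : σ → P2) (g : MvPolynomial σ ℂ) (k : Fin 2) :
    aeval x (pderiv k (aeval s g)) =
      ∑ j, aeval (fun i => aeval x (s i)) (pderiv j g) * aeval x (pderiv k (s j)) := by
  rw [der_aeval, map_sum]
  exact Finset.sum_congr rfl fun j _ => by rw [map_mul, aeval_aeval]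

section ff
variable {K : Type} [Field K] [Algebra ℂ K]

/-- The derivation is normalised: the cross product of `η` and `D η` is the gradient. -/
def Nrm (D : Derivation ℂ K K) (f : P3) (η : Fin 3 → K) : Prop :=
  η 1 * D (η 2) - η 2 * D (η 1) = aeval η (pderiv 0 f) ∧
  η 2 * D (η 0) - η 0 * D (η 2) = aeval η (pderiv 1 f) ∧
  η 0 * D (η 1) - η 1 * D (η 0) = aeval η (pderiv 2 f)

lemma pos_deg {f : P3} {d : ℕ} (hi : Irreducible f) (hf : f.IsHomogeneous d) : 1 ≤ d := by
  by_contra h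
  obtain rfl : d = 0 := by omega
  have h1 := totalDegree_eq_zero_iff_eq_C.1 (hf.totalDegree hi.ne_zero)
  have h2 : coeff 0 f ≠ 0 := fun h => hi.ne_zero (by rw [h1, h, map_zero])
  exact hi.not_isUnit (h1 ▸ (Ne.isUnit h2).map C)

lemma grad_ne {f : P3} {d : ℕ} (hi : Irreducible f) (hf : f.IsHomogeneous d) {η : Fin 3 → K}
    (hg : Gen f η) : ∃ i, aeval η (pderiv i f) ≠ 0 := by
  by_contra h
  push Not at h
  have hd := pos_deg hi hf
  have h1 : ∀ i, pderiv i f = 0 := fun i => by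
    by_contra h0
    have := totalDegree_le_of_dvd_of_isDomain ((hg.ker _ _ hf.pderiv).1 (h i)) h0
    rw [hf.totalDegree hi.ne_zero, hf.pderiv.totalDegree h0] at this
    omega
  have h2 := hf.sum_X_mul_pderiv
  simp only [h1, mul_zero, Finset.sum_const_zero] at h2
  rcases smul_eq_zero.1 h2.symm with h3 | h3
  exacts [by omega, hi.ne_zero h3]

lemma cross_ne {f : P3} {η : Fin 3 → K} (hg : Gen f η) {D : Derivation ℂ K K} (hD : D ≠ 0) :
    ∃ i j, η j * D (η i) - η i * D (η j) ≠ 0 := by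
  by_contra h
  push Not at h
  refine hD (Derivation.ext fun z => ?_)
  have hz : z ∈ IntermediateField.adjoin ℂ {z | ∃ i j, z = η i / η j} := hg.top ▸ trivial
  change D z = 0
  induction hz using IntermediateField.adjoin_induction with
  | mem x hx =>
    obtain ⟨i, j, rfl⟩ := hx
    rw [D.leibniz_div, smul_eq_mul, smul_eq_mul, smul_eq_mul, h i j, mul_zero]
  | algebraMap x => simp
  | add x y _ _ hx hy => rw [map_add, hx, hy, add_zero]
  | inv x _ hx => rw [D.leibniz_inv, hx, smul_zero]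
  | mul x y _ _ hx hy => rw [D.leibniz, hx, hy, smul_zero, smul_zero, add_zero]

omit [Algebra ℂ K] in
lemma par {a0 a1 a2 w0 w1 w2 g0 g1 g2 : K} (h1 : a0 * g0 + a1 * g1 + a2 * g2 = 0)
    (h2 : g0 * w0 + g1 * w1 + g2 * w2 = 0) (hg : g0 ≠ 0 ∨ g1 ≠ 0 ∨ g2 ≠ 0) :
    ∃ r, a1 * w2 - a2 * w1 = r * g0 ∧ a2 * w0 - a0 * w2 = r * g1 ∧ a0 * w1 - a1 * w0 = r * g2 := by
  have e1 : g1 * (a0 * w1 - a1 * w0) = g2 * (a2 * w0 - a0 * w2) := by
    linear_combination a0 * h2 - w0 * h1
  have e2 : g2 * (a1 * w2 - a2 * w1) = g0 * (a0 * w1 - a1 * w0) := by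
    linear_combination a1 * h2 - w1 * h1
  have e3 : g0 * (a2 * w0 - a0 * w2) = g1 * (a1 * w2 - a2 * w1) := by
    linear_combination a2 * h2 - w2 * h1
  rcases hg with h | h | h
  · refine ⟨(a1 * w2 - a2 * w1) / g0, ?_, ?_, ?_⟩ <;> field_simp
    exacts [by linear_combination e3, by linear_combination -e2]
  · refine ⟨(a2 * w0 - a0 * w2) / g1, ?_, ?_, ?_⟩ <;> field_simp
    exacts [by linear_combination -e3, by linear_combination e1]
  · refine ⟨(a0 * w1 - a1 * w0) / g2, ?_, ?_, ?_⟩ <;> field_simp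
    exacts [by linear_combination e2, by linear_combination -e1]

lemma exists_nrm [IsFF K] {f : P3} {d : ℕ} (hi : Irreducible f) (hf : f.IsHomogeneous d)
    {η : Fin 3 → K} (hg : Gen f η) : ∃ D : Derivation ℂ K K, D ≠ 0 ∧ Nrm D f η := by
  obtain ⟨D, hD⟩ := exists_der (K := K)
  have h0 : aeval η f = 0 := (hg.ker _ _ hf).2 dvd_rfl
  have h1 := congrArg (aeval η) hf.sum_X_mul_pderiv
  rw [map_nsmul, h0, smul_zero, Fin.sum_univ_three] at h1
  simp only [map_add, map_mul, aeval_X] at h1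
  have h2 := der_aeval D η f
  rw [h0, map_zero, Fin.sum_univ_three] at h2
  obtain ⟨r, e0, e1, e2⟩ := par h1 h2.symm (by
    obtain ⟨i, hi⟩ := grad_ne hi hf hg
    fin_cases i
    exacts [Or.inl hi, Or.inr (Or.inl hi), Or.inr (Or.inr hi)])
  have hr : r ≠ 0 := by
    rintro rfl
    obtain ⟨i, j, h⟩ := cross_ne hg hD
    rw [zero_mul] at e0 e1 e2
    apply h
    fin_cases i <;> fin_cases j <;> simp only [Fin.zero_eta, Fin.mk_one, Fin.reduceFinMk]
    exacts [by ring, by linear_combination -e2, e1, e2, by ring, by linear_combination -e0,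
      by linear_combination -e1, e0, by ring]
  refine ⟨r⁻¹ • D, smul_ne_zero (inv_ne_zero hr) hD, ?_, ?_, ?_⟩ <;>
    simp only [Derivation.smul_apply, smul_eq_mul] <;> field_simp
  exacts [by linear_combination e0, by linear_combination e1, by linear_combination e2]

/-- The derivation is `a` times the Hamiltonian field of `s` at `x`. -/
def Ham (D : Derivation ℂ K K) (a : K) (x : Fin 2 → K) (s : P2) : Prop :=
  D (x 0) = a * aeval x (pderiv 1 s) ∧ D (x 1) = -a * aeval x (pderiv 0 s)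

lemma nrm_smul {D : Derivation ℂ K K} {f : P3} {d : ℕ} (hf : f.IsHomogeneous d)
    {η y : Fin 3 → K} {l : K} (hl : l ≠ 0) (h : ∀ i, η i = l * y i) (hN : Nrm D f η) :
    y 1 * D (y 2) - y 2 * D (y 1) = l ^ (d - 1) / l ^ 2 * aeval y (pderiv 0 f) ∧
    y 2 * D (y 0) - y 0 * D (y 2) = l ^ (d - 1) / l ^ 2 * aeval y (pderiv 1 f) ∧
    y 0 * D (y 1) - y 1 * D (y 0) = l ^ (d - 1) / l ^ 2 * aeval y (pderiv 2 f) := by
  obtain rfl : η = fun i => l * y i := funext h
  obtain ⟨h0, h1, h2⟩ := hN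
  simp only [aeval_smul_hom hf.pderiv, D.leibniz, smul_eq_mul] at h0 h1 h2
  refine ⟨?_, ?_, ?_⟩ <;> field_simp
  exacts [by linear_combination h0, by linear_combination h1, by linear_combination h2]

lemma ham_root {D : Derivation ℂ K K} {f : P3} {d : ℕ} (hf : f.IsHomogeneous d)
    {η : Fin 3 → K} {x : Fin 2 → K} {l : K} (hl : l ≠ 0) (r : Rt)
    (h : ∀ i, η i = l * aeval x (r.ch i)) (hN : Nrm D f η) :
    Ham D (l ^ (d - 1) / l ^ 2) x (aeval r.ch f) ∨
      Ham D (-(l ^ (d - 1) / l ^ 2)) x (aeval r.ch f) := by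
  obtain ⟨h0, h1, h2⟩ := nrm_smul hf hl h hN
  simp only [Ham, pd_aeval, Fin.sum_univ_three]
  generalize aeval (fun i => aeval x (r.ch i)) (pderiv 0 f) = g0 at *
  generalize aeval (fun i => aeval x (r.ch i)) (pderiv 1 f) = g1 at *
  generalize aeval (fun i => aeval x (r.ch i)) (pderiv 2 f) = g2 at *
  generalize l ^ (d - 1) / l ^ 2 = a at *
  cases r with
  | c0 u v =>
    simp [Rt.ch] at h1 h2 ⊢
    exact Or.inl ⟨h2, by linear_combination -h1⟩
  | c1 v =>
    simp [Rt.ch] at h0 h2 ⊢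
    exact Or.inr ⟨by linear_combination -h2, h0⟩
  | c2 =>
    simp [Rt.ch] at h0 h1 ⊢
    exact Or.inl ⟨h1, by linear_combination -h0⟩

lemma ham_step {D : Derivation ℂ K K} {a : K} {x x' : Fin 2 → K} {s s' : P2} {m : ℕ}
    (c : Option ℂ) (hx : ∀ k, x k = aeval x' (st c k)) (h0 : x' (exI c) ≠ 0)
    (hs : aeval (st c) s = X (exI c) ^ m * s') (hv : aeval x' s' = 0) (h : Ham D a x s) :
    Ham D (a * (x' (exI c) ^ m / x' (exI c))) x' s' := by
  have e : ∀ k, ∑ j, aeval x (pderiv j s) * aeval x' (pderiv k (st c j)) =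
      x' (exI c) ^ m * aeval x' (pderiv k s') := fun k => by
    have := pd_aeval x' (st c) s k
    rw [hs, ← funext hx] at this
    rw [← this, Derivation.leibniz]
    simp [hv]
  have e0 := e 0
  have e1 := e 1
  obtain ⟨h1, h2⟩ := h
  simp only [Fin.sum_univ_two] at e0 e1
  simp only [Ham]
  generalize aeval x (pderiv 0 s) = A0 at *
  generalize aeval x (pderiv 1 s) = A1 at *
  generalize aeval x' (pderiv 0 s') = B0 at *
  generalize aeval x' (pderiv 1 s') = B1 at *
  rw [hx] at h1 h2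
  cases c with
  | some c =>
    simp [st, exI] at e0 e1 h1 h2 h0 ⊢
    constructor <;> field_simp
    · linear_combination x' 0 * h1 + a * e1
    · linear_combination h2 - (x' 1 + algebraMap ℂ K c) * h1 - a * e0
  | none =>
    simp [st, exI] at e0 e1 h1 h2 h0 ⊢
    constructor <;> field_simp
    · linear_combination h1 - x' 0 * h2 + a * e1
    · linear_combination x' 1 * h2 - a * e0

end ff

variable {f : P3} {d : ℕ} (c : FC f) (P : Place c.K)

lemma ham_cen (hV : St_VAL) (hO : St_ORD) (hi : Irreducible f) (hf : f.IsHomogeneous d)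
    {D : Derivation ℂ c.K c.K} (hN : Nrm D f c.η) (n : ℕ) : ∃ a : c.K, a ≠ 0 ∧
      P.ord a = -((d : ℤ) - 3) * c.H P +
        ∑ j ∈ Finset.range n, (((c.cen P j).m f : ℤ) - 1) * c.E (c.cen P j) P ∧
      Ham D a (c.ξ (c.cen P n)) ((c.cen P n).str f) := by
  have hz : NZ f := ⟨hi.ne_zero, d, hf⟩
  induction n with
  | zero =>
    obtain ⟨l, hl, h1, h2⟩ := c.loc.lam P 0
    have h3 := c.loc.dep P 0
    have hd := pos_deg hi hf
    have ha : l ^ (d - 1) / l ^ 2 ≠ 0 := div_ne_zero (pow_ne_zero _ hl) (pow_ne_zero _ hl)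
    have ho : P.ord (l ^ (d - 1) / l ^ 2) = -((d : ℤ) - 3) * c.H P := by
      rw [ord_div (pow_ne_zero _ hl) (pow_ne_zero _ hl), GORD.ord_pow, GORD.ord_pow, h1,
        Nat.cast_sub hd]
      push_cast; ring
    generalize c.cen P 0 = q at h2 h3 ⊢
    cases q with
    | step p a => simp [Node.dep] at h3
    | root r =>
      rcases ham_root hf hl r h2 hN with h | h
      · exact ⟨_, ha, by simpa using ho, h⟩
      · exact ⟨_, neg_ne_zero.2 ha, by simpa using ho, h⟩
  | succ n ih =>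
    obtain ⟨a, ha, h1, h2⟩ := ih
    obtain ⟨o, e1, e2, e3, e4⟩ := c.loc.succ P n
    refine ⟨_, mul_ne_zero ha (div_ne_zero (pow_ne_zero _ e3) e3), ?_,
      ham_step o e2 e3 (m := (c.cen P n).m f) ?_ (hO.van f c P (n + 1) hz).1 h2⟩
    · rw [P.ord_mul ha (div_ne_zero (pow_ne_zero _ e3) e3), ord_div (pow_ne_zero _ e3) e3,
        GORD.ord_pow, h1, e4, Finset.sum_range_succ]
      ring
    · rw [e1]; exact hV.step _ _ _ hz

lemma sum_eq {T : Finset Node} (φ : Node → ℤ) {n : ℕ} (h2 : ∀ j < n, c.cen P j ∈ T)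
    (h3 : ∀ j ≥ n, c.cen P j ∉ T) :
    ∑ q ∈ T, φ q * c.E q P = ∑ i ∈ Finset.range n, φ (c.cen P i) * c.E (c.cen P i) P := by
  rw [← Finset.sum_image (f := fun q => φ q * c.E q P) (g := c.cen P) fun i _ j _ h => by
    rw [← c.loc.dep P i, h, c.loc.dep]]
  refine (Finset.sum_subset (fun q hq => ?_) fun q hq h => ?_).symm
  · obtain ⟨i, hi, rfl⟩ := Finset.mem_image.1 hq
    exact h2 i (Finset.mem_range.1 hi)
  · rw [c.loc.zero P q fun h4 => h (Finset.mem_image.2 ⟨q.dep, Finset.mem_range.2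
      (not_le.1 fun h5 => h3 _ h5 (h4 ▸ hq)), h4.symm⟩), mul_zero]

lemma ord_le (hV : St_VAL) (hO : St_ORD) (hi : Irreducible f) (hf : f.IsHomogeneous d)
    {D : Derivation ℂ c.K c.K} (hD : D ≠ 0) (hN : Nrm D f c.η) {T : Finset Node} (hT : Cls T)
    (hm : ∀ q ∉ T, q.m f ≤ 1) : P.ord (D P.unif) ≤
      -((d : ℤ) - 3) * c.H P + ∑ q ∈ T, ((q.m f : ℤ) - 1) * c.E q P := by
  have hz : NZ f := ⟨hi.ne_zero, d, hf⟩
  obtain ⟨n, h1, h2, h3⟩ := hO.bd f c T P hT
  obtain ⟨a, ha, e1, e2, e3⟩ := ham_cen c P hV hO hi hf hN n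
  rw [sum_eq c P _ h2 h3, ← e1]
  have hs := (hV.ne (c.cen P n) f hz).2
  have key : ∀ (k : Fin 2) (b u : c.K), b ≠ 0 → P.ord b = P.ord a → u ≠ 0 ∧ P.ord u = 0 →
      D (c.ξ (c.cen P n) k) = b * u → P.ord (D P.unif) ≤ P.ord a := fun k b u hb h4 h5 h6 => by
    have := der_mem_zero hD (Ge_mono (by omega) (GORD.xi_mem c P n k))
    rwa [h6, mem_Ge_iff (mul_ne_zero hb h5.1), P.ord_mul hb h5.1, h4, h5.2, add_zero] at this
  rcases (hV.mone _ hs).1 (hm _ h1) with h | ⟨k, h⟩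
  · have h4 := (hO.van f c P n hz).2
    rw [Node.m, (hV.mzero _ hs).2 h] at h4
    omega
  · have h4 := GORD.unit_aeval (GORD.xi_mem c P n) h
    fin_cases k
    · exact key 1 _ _ (neg_ne_zero.2 ha) (P.ord_neg a) h4 e3
    · exact key 0 _ _ ha rfl h4 e2

end GHUR

open GHUR in
theorem hur_of (hV : St_VAL) (hO : St_ORD) (hD : St_DEGE) : St_HUR := by
  intro f d hi hf c T hT hm
  obtain ⟨D, hD0, hN⟩ := exists_nrm hi hf c.gen
  obtain ⟨W, h1, h2⟩ := hur hD0
  obtain ⟨h3, h4⟩ := hD f d hi hf c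
  have h5 := degree_mono' (E := ((d : ℤ) - 3) • c.H - ∑ q ∈ T, ((q.m f : ℤ) - 1) • c.E q)
    (E' := W) fun P => by
      have := ord_le c P hV hO hi hf hD0 hN hT hm
      simp only [Finsupp.sub_apply, Finsupp.smul_apply, Finsupp.finsetSum_apply, smul_eq_mul]
      rw [h2] at this
      linarith
  simp only [map_sub, map_zsmul, map_sum, h3, h4, smul_eq_mul] at h5
  refine le_trans (le_of_eq ?_) (h5.trans h1)
  rw [mul_comm]
  congr 1
  exact Finset.sum_congr rfl fun q _ => mul_comm _ _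

end Pool.Agent.Lib.MP_a25055_ag
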