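import Pool.Agent.Lib.MP_a25055_ag.Geo

/-! Irreducibility of the very general member of a linear system. -/

open MvPolynomial Module
open Pool.Agent.Lib.MP_3c72fe_ag (P2 P3)

noncomputable section

namespace Pool.Agent.Lib.MP_a25055_ag

namespace GIRR

lemma not_unit (hD : St_DIV) {F : P3} {e : ℕ} (hF : F.IsHomogeneous e) (he : 1 ≤ e) :
    ¬ IsUnit F := by
  intro hu
  obtain ⟨u, hu⟩ := hu.exists_right_inv
  have h1 : NZ (1 : P3) := ⟨one_ne_zero, 0, isHomogeneous_one _ _⟩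
  obtain ⟨-, d, hd⟩ := hD.nz u 1 h1 ⟨F, by rw [mul_comm, hu]⟩
  have h2 := hF.mul hd
  rw [hu] at h2
  have := h2.inj_right (isHomogeneous_one _ _) one_ne_zero
  omega

lemma unit_of {G : P3} (h0 : G ≠ 0) (hG : G.IsHomogeneous 0) : IsUnit G := by
  have h := totalDegree_eq_zero_iff_eq_C.1 (hG.totalDegree h0)
  have hc : coeff 0 G ≠ 0 := fun hc => h0 (by rw [h, hc, C_0])
  rw [h]
  exact (IsUnit.mk0 _ hc).map C

lemma split (hV : St_VAL) (hD : St_DIV) (hN : St_NOE) (hS : St_SYS) {T T0 : Finset Node}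
    {W : Submodule ℂ P3} {e : ℕ} {Θ F : P3} (hT : Cls T) (hW : Mob W e) (hF : Memb T W Θ F)
    (he : 1 ≤ e) : ∃ (Γ : PlC) (G : P3) (d : ℕ), F = Γ.rep * G ∧ G ≠ 0 ∧ G.IsHomogeneous d ∧
      gcl T T0 e (MW W) = (gTree T T0).gam (.inl Γ) + gcl T T0 d (·.m G) ∧
      (gTree T T0).ip ((gTree T T0).gam (.inl Γ)) (gcl T T0 d (·.m G)) = 0 ∧
      0 ≤ (gTree T T0).ip (gcl T T0 e (MW W)) (gcl T T0 d (·.m G)) := by
  have hFh : F.IsHomogeneous e := hW.le hF.mem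
  have hFz : NZ F := ⟨hF.ne, e, hFh⟩
  obtain ⟨f, hf, hfF⟩ := WfDvdMonoid.exists_irreducible_factor (not_unit hD hFh he) hF.ne
  obtain ⟨Γ, hΓ⟩ := hD.rep f hf (hD.nz f F hFz hfF)
  obtain ⟨G, hG⟩ := hΓ.dvd.trans hfF
  have hGz : NZ G := hD.nz G F hFz ⟨Γ.rep, by rw [hG, mul_comm]⟩
  have hΓz : NZ Γ.rep := Γ.2.2
  have hΓi : Irreducible Γ.rep := Γ.2.1
  obtain ⟨hG0, d, hd⟩ := id hGz
  obtain ⟨-, hΓh⟩ := hD.deg Γ
  have hm : ∀ q : Node, q.m F = q.m Γ.rep + q.m G := fun q => by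
    rw [hG]; exact (hV.mul q _ _ hΓz hGz).2.1
  have hdeg : e = Γ.rep.totalDegree + d := by
    have h2 := hΓh.mul hd
    rw [← hG] at h2
    exact hFh.inj_right h2 hF.ne
  refine ⟨Γ, G, d, hG, hG0, hd, ?_, ?_, ?_⟩
  · refine Prod.ext ?_ (funext fun q => ?_)
    · change (e : ℝ) = (Γ.rep.totalDegree : ℝ) + (d : ℝ)
      rw [hdeg]; push_cast; rfl
    · change (MW W q.1 : ℝ) = (q.1.m Γ.rep : ℝ) + (q.1.m G : ℝ)
      rw [← hF.eq q.1 q.2, hm]; push_cast; rfl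
  · have h := hN.eq Γ.rep G _ d T hT hΓi hΓh hG0 hd fun q hq => by
      have := hF.le q hq
      rw [hm] at this
      omega
    change (Γ.rep.totalDegree : ℝ) * (d : ℝ) - ∑ q : T, (q.1.m Γ.rep : ℝ) * (q.1.m G : ℝ) = 0
    rw [Finset.sum_coe_sort T fun q => (q.m Γ.rep : ℝ) * (q.m G : ℝ)]
    have h' : ((∑ q ∈ T, q.m G * q.m Γ.rep : ℕ) : ℝ) = ((d * Γ.rep.totalDegree : ℕ) : ℝ) := by
      rw [h]
    push_cast at h'
    rw [mul_comm, ← h', sub_eq_zero]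
    exact Finset.sum_congr rfl fun q _ => mul_comm _ _
  · rw [← hD.cl T T0 (·.v G) (·.m G) G d hT hG0 hd fun q _ => ⟨le_rfl, hV.vm q G hGz⟩]
    exact (hS.nef T T0 W e hT hW).ip_cl fun i => by simp

end GIRR

open GIRR Pool.Agent.Lib.MP_a25055_ag.Tree in
theorem irr_of (hA : St_NA) (hV : St_VAL) (hD : St_DIV) (hN : St_NOE) (_hP : St_PLANE)
    (hS : St_SYS) : St_IRR := by
  intro T T0 W e Θ F hT hW hF
  have key : 1 ≤ e → ∃ (Γ : PlC) (G : P3) (d : ℕ), F = Γ.rep * G ∧ G ≠ 0 ∧ G.IsHomogeneous d ∧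
      (gTree T T0).ip ((gTree T T0).gam (.inl Γ)) (gcl T T0 d (·.m G)) = 0 ∧
      (gTree T T0).ip (gcl T T0 e (MW W)) ((gTree T T0).gam (.inl Γ)) =
        (gTree T T0).sq ((gTree T T0).gam (.inl Γ)) ∧
      0 ≤ (gTree T T0).sq ((gTree T T0).gam (.inl Γ)) ∧
      0 ≤ (gTree T T0).sq (gcl T T0 d (·.m G)) ∧
      (gTree T T0).sq (gcl T T0 e (MW W)) =
        (gTree T T0).sq ((gTree T T0).gam (.inl Γ)) + (gTree T T0).sq (gcl T T0 d (·.m G)) := by
    intro he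
    obtain ⟨Γ, G, d, h1, h2, h3, h4, h5, h6⟩ := split (T0 := T0) hV hD hN hS hT hW hF he
    have h7 := hS.nef T T0 W e hT hW (.inl Γ)
    have h5' := (ip_comm _ _).trans h5
    have h8 : (gTree T T0).ip (gcl T T0 e (MW W)) ((gTree T T0).gam (.inl Γ)) =
        (gTree T T0).sq ((gTree T T0).gam (.inl Γ)) := by
      rw [h4, ip_add_left, h5', add_zero]; rfl
    have h9 : (gTree T T0).ip (gcl T T0 e (MW W)) (gcl T T0 d (·.m G)) =
        (gTree T T0).sq (gcl T T0 d (·.m G)) := by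
      rw [h4, ip_add_left, h5, zero_add]; rfl
    refine ⟨Γ, G, d, h1, h2, h3, h5, h8, h8 ▸ h7, h9 ▸ h6, ?_⟩
    rw [← h8, ← h9, ← ip_add_right, ← h4]; rfl
  refine ⟨fun hpos => ?_, fun h0 he => ?_⟩
  · have he : 1 ≤ e := by
      by_contra h
      have h0 : e = 0 := by omega
      subst h0
      have : (gTree T T0).sq (gcl T T0 0 (MW W)) ≤ 0 := by
        change ((0 : ℕ) : ℝ) * ((0 : ℕ) : ℝ) - ∑ q : T, (MW W q.1 : ℝ) * (MW W q.1 : ℝ) ≤ 0
        have : 0 ≤ ∑ q : T, (MW W q.1 : ℝ) * (MW W q.1 : ℝ) :=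
          Finset.sum_nonneg fun q _ => mul_self_nonneg _
        simpa using this
      linarith
    obtain ⟨Γ, G, d, h1, h2, h3, h5, -, h6, h7, h8⟩ := key he
    have hd : d = 0 := by
      rcases h6.lt_or_eq with h | h
      · have := congrArg Prod.fst (hA.hodge0 _ _ _ h h5 h7)
        change (d : ℝ) = 0 at this
        exact_mod_cast this
      · have h9 : 0 < (gTree T T0).sq (gcl T T0 d (·.m G)) := by linarith
        have := congrArg Prod.fst (hA.hodge0 _ _ _ h9 ((ip_comm _ _).trans h5) h6)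
        change (Γ.rep.totalDegree : ℝ) = 0 at this
        have h10 := (hD.deg Γ).1
        have : Γ.rep.totalDegree = 0 := by exact_mod_cast this
        omega
    subst hd
    rw [h1]
    exact (irreducible_mul_isUnit (unit_of h2 h3)).2 Γ.2.1
  · obtain ⟨Γ, G, d, -, -, -, -, h5, h6, h7, h8⟩ := key he
    exact ⟨Γ, by rw [h5]; linarith, h6⟩

end Pool.Agent.Lib.MP_a25055_ag
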