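import Pool.Agent.Lib.MP_a25055_ag.Geo

/-! Block KER: the kernel of a birational parametrisation of a cubic surface. -/

open MvPolynomial
open Pool.Agent.Lib.MP_3c72fe_ag (P3)

noncomputable section

namespace Pool.Agent.Lib.MP_a25055_ag

namespace GKER

lemma aeval_mul_hom {R : Type*} [CommRing R] [Algebra ℂ R] {e : ℕ} {P : P4}
    (hP : P.IsHomogeneous e) (t : R) (x : Fin 4 → R) :
    aeval (fun i => t * x i) P = t ^ e * aeval x P := by
  rw [P.as_sum, map_sum, map_sum, Finset.mul_sum]
  refine Finset.sum_congr rfl fun d hd => ?_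
  have hdeg : ∑ i, d i = e := by
    have := hP (mem_support_iff.1 hd)
    rw [← this, Finsupp.weight_apply, Finsupp.sum_fintype _ _ (by simp)]
    simp
  rw [aeval_monomial, aeval_monomial, Finsupp.prod_fintype _ _ (by simp),
    Finsupp.prod_fintype _ _ (by simp)]
  simp only [mul_pow, Finset.prod_mul_distrib, Finset.prod_pow_eq_pow_sum, hdeg]
  ring

lemma comp_zero {c : Fin 4 → P3} (hc : ∀ i, (c i).IsHomogeneous 3) {P : P4}
    (h : aeval c P = 0) (e : ℕ) : aeval c (homogeneousComponent e P) = 0 := by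
  have hh : ∀ n, (aeval c (homogeneousComponent n P)).IsHomogeneous (3 * n) := fun n =>
    (homogeneousComponent_isHomogeneous n P).aeval c hc
  by_cases he : e ∈ Finset.range (P.totalDegree + 1)
  · have h1 : homogeneousComponent (3 * e) (aeval c P) = 0 := by rw [h, map_zero]
    conv_lhs at h1 => rw [← sum_homogeneousComponent P, map_sum, map_sum]
    rw [Finset.sum_eq_single e] at h1
    · rwa [homogeneousComponent_of_mem (hh e), if_pos rfl] at h1
    · intro n _ hn
      rw [homogeneousComponent_of_mem (hh n), if_neg (by omega)]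
    · exact fun hn => absurd he hn
  · rw [homogeneousComponent_eq_zero _ _ (by simpa using he), map_zero]

end GKER

theorem ker_of : St_KER := by
  intro f Θ c a hf hc _ hcf hΘ ha P
  refine ⟨fun h => ?_, fun ⟨g, hg⟩ => by rw [hg, map_mul, hcf, zero_mul]⟩
  rw [← sum_homogeneousComponent P]
  refine Finset.dvd_sum fun e _ => ?_
  have h0 := GKER.comp_zero hc h e
  set Q := homogeneousComponent e P with hQ
  have hQe : Q.IsHomogeneous e := homogeneousComponent_isHomogeneous e P
  let π : P4 →ₐ[ℂ] P4 ⧸ Ideal.span {f} := Ideal.Quotient.mkₐ ℂ _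
  have hπ : ∀ x, π x = 0 ↔ f ∣ x := fun x => by
    rw [← Ideal.mem_span_singleton]; exact Ideal.Quotient.eq_zero_iff_mem
  have h1 : (π.comp (aeval a)).comp (aeval c) = aeval (fun i => π Θ * π (X i)) := by
    ext i
    have := (hπ _).2 (ha i)
    rw [map_sub, sub_eq_zero, map_mul] at this
    simpa using this
  have h2 : aeval (fun i => π (X i)) Q = π Q := by
    have : (aeval (fun i => π (X i)) : P4 →ₐ[ℂ] _) = π := by
      ext i
      simp
    rw [this]
  have h3 : π (Θ ^ e * Q) = 0 := by
    rw [map_mul, map_pow, ← h2, ← GKER.aeval_mul_hom hQe, ← h1, AlgHom.comp_apply, h0, map_zero]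
  have hp : Prime f := hf.prime
  rcases hp.dvd_or_dvd ((hπ _).1 h3) with h4 | h4
  · exact absurd (hp.dvd_of_dvd_pow h4) hΘ
  · exact h4

end Pool.Agent.Lib.MP_a25055_ag
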