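import Pool.Agent.Lib.MP_a25055_ag.Geo

/-! Block MODN: the plane model of a nodal cubic surface. -/

open MvPolynomial Module
open Pool.Agent.Lib.MP_3c72fe_ag (P2 P3 mult mi mem_mi mem_pow_iff aeval_smul_hom)

noncomputable section

namespace Pool.Agent.Lib.MP_a25055_ag

namespace GMODN

/-- exponent vectors -/
def m3 (i j k : ℕ) : Fin 3 →₀ ℕ := Finsupp.equivFunOnFinite.symm ![i, j, k]

lemma m3_0 (i j k : ℕ) : m3 i j k 0 = i := rfl
lemma m3_1 (i j k : ℕ) : m3 i j k 1 = j := rfl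
lemma m3_2 (i j k : ℕ) : m3 i j k 2 = k := rfl

lemma eval_cubic0 {f : P3} (hf : f.IsHomogeneous 3) (x : Fin 3 → ℂ) :
    eval x f = ∑ i ∈ Finset.range 4, ∑ j ∈ Finset.range 4,
      if i + j ≤ 3 then coeff (m3 i j (3 - i - j)) f *
        (x 0 ^ i * x 1 ^ j * x 2 ^ (3 - i - j)) else 0 := by
  classical
  let T : Finset (ℕ × ℕ) := (Finset.range 4 ×ˢ Finset.range 4).filter fun t => t.1 + t.2 ≤ 3
  let φ : ℕ × ℕ → (Fin 3 →₀ ℕ) := fun t => m3 t.1 t.2 (3 - t.1 - t.2)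
  have hinj : Set.InjOn φ T := by
    intro t _ t' _ h
    have h0 : φ t 0 = φ t' 0 := by rw [h]
    have h1 : φ t 1 = φ t' 1 := by rw [h]
    exact Prod.ext h0 h1
  have hsub : f.support ⊆ T.image φ := by
    intro a ha
    have h3 : a 0 + a 1 + a 2 = 3 := by
      have := hf (mem_support_iff.1 ha)
      rw [Finsupp.weight_apply, Finsupp.sum_fintype _ _ (by simp)] at this
      simpa [Fin.sum_univ_three] using this
    refine Finset.mem_image.2 ⟨(a 0, a 1), ?_, ?_⟩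
    · simp only [T, Finset.mem_filter, Finset.mem_product, Finset.mem_range]
      omega
    · ext i
      fin_cases i
      · rfl
      · rfl
      · show 3 - a 0 - a 1 = a 2
        omega
  rw [eval_eq', Finset.sum_subset hsub (fun a _ ha => by
    rw [notMem_support_iff.1 ha, zero_mul]), Finset.sum_image hinj, Finset.sum_filter,
    Finset.sum_product]
  refine Finset.sum_congr rfl fun i _ => Finset.sum_congr rfl fun j _ => ?_
  simp only [φ, Fin.prod_univ_three, m3_0, m3_1, m3_2]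

lemma eval_cubic {f : P3} (hf : f.IsHomogeneous 3) : ∃ a0 a1 a2 a3 a4 a5 a6 a7 a8 a9 : ℂ,
    ∀ x : Fin 3 → ℂ, eval x f = a0 * x 0 ^ 3 + a1 * (x 0 ^ 2 * x 1) + a2 * (x 0 ^ 2 * x 2) +
      a3 * (x 0 * x 1 ^ 2) + a4 * (x 0 * x 1 * x 2) + a5 * (x 0 * x 2 ^ 2) + a6 * x 1 ^ 3 +
      a7 * (x 1 ^ 2 * x 2) + a8 * (x 1 * x 2 ^ 2) + a9 * x 2 ^ 3 := by
  refine ⟨coeff (m3 3 0 0) f, coeff (m3 2 1 0) f, coeff (m3 2 0 1) f, coeff (m3 1 2 0) f,
    coeff (m3 1 1 1) f, coeff (m3 1 0 2) f, coeff (m3 0 3 0) f, coeff (m3 0 2 1) f,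
    coeff (m3 0 1 2) f, coeff (m3 0 0 3) f, fun x => ?_⟩
  rw [eval_cubic0 hf]
  simp only [Finset.sum_range_succ, Finset.sum_range_zero]
  norm_num
  ring

/-- The conic. -/
def Q : P3 := X 1 ^ 2 - X 0 * X 2

lemma Q_hom : Q.IsHomogeneous 2 :=
  ((isHomogeneous_X ℂ 1).pow 2).sub ((isHomogeneous_X ℂ 0).mul (isHomogeneous_X ℂ 2))

lemma Q_irr : Irreducible Q := by
  have h : Q = (-X 2) * X 0 + X 1 ^ 2 := by rw [Q]; ring
  rw [h]
  refine irreducible_mul_X_add _ _ 0 (neg_ne_zero.2 (X_ne_zero 2)) (by simp) ?_ ?_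
  · intro h0
    have := vars_pow (X 1 : P3) 2 h0
    simp at this
  · have hp : Prime (X 2 : P3) := X_prime
    refine (hp.neg.irreducible.isRelPrime_iff_not_dvd).2 fun h1 => ?_
    have h2 := hp.dvd_of_dvd_pow (neg_dvd.1 h1)
    have := map_dvd (eval ![(0 : ℂ), 1, 0]) h2
    simp at this

lemma Q_ne : Q ≠ 0 := Q_irr.ne_zero

lemma Q_nz : NZ Q := ⟨Q_ne, 2, Q_hom⟩

/-- Restriction to the conic. -/
def sP (g : P3) : Polynomial ℂ := aeval ![1, Polynomial.X, Polynomial.X ^ 2] g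

lemma eval_sP (g : P3) (t : ℂ) : (sP g).eval t = eval ![1, t, t ^ 2] g := by
  have : (Polynomial.aeval t : Polynomial ℂ →ₐ[ℂ] ℂ).comp
      (aeval ![1, Polynomial.X, Polynomial.X ^ 2] : P3 →ₐ[ℂ] Polynomial ℂ) =
      aeval ![1, t, t ^ 2] := by
    ext i
    fin_cases i <;> simp
  have h := AlgHom.congr_fun this g
  rw [AlgHom.comp_apply, Polynomial.coe_aeval_eq_eval, aeval_eq_eval] at h
  exact h

lemma dvd_sub_sP (g : P3) (x y : P2) :
    y - x ^ 2 ∣ aeval ![1, x, y] g - Polynomial.aeval x (sP g) := by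
  induction g using MvPolynomial.induction_on with
  | C a => simp [sP]
  | add a b ha hb =>
    have := dvd_add ha hb
    simp only [sP, map_add] at this ⊢
    convert this using 1
    ring
  | mul_X a k ha =>
    have h1 : y - x ^ 2 ∣ (![1, x, y] : Fin 3 → P2) k -
        Polynomial.aeval x ((![1, Polynomial.X, Polynomial.X ^ 2] : Fin 3 → Polynomial ℂ) k) := by
      fin_cases k <;> simp
    have := dvd_add (ha.mul_right ((![1, x, y] : Fin 3 → P2) k))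
      (h1.mul_left (Polynomial.aeval x (sP a)))
    simp only [sP, map_mul, aeval_X] at this ⊢
    convert this using 1
    ring

lemma natDegree_sP {g : P3} (hg : g.IsHomogeneous 3) (h0 : eval ![0, 0, 1] g ≠ 0) :
    (sP g).natDegree = 6 := by
  obtain ⟨a0, a1, a2, a3, a4, a5, a6, a7, a8, a9, h⟩ := eval_cubic hg
  have h9 : a9 ≠ 0 := by
    rw [h] at h0
    simpa using h0
  have : sP g = Polynomial.C a9 * Polynomial.X ^ 6 + Polynomial.C a8 * Polynomial.X ^ 5 +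
      Polynomial.C (a5 + a7) * Polynomial.X ^ 4 + Polynomial.C (a4 + a6) * Polynomial.X ^ 3 +
      Polynomial.C (a2 + a3) * Polynomial.X ^ 2 + Polynomial.C a1 * Polynomial.X +
      Polynomial.C a0 := by
    refine Polynomial.funext fun t => ?_
    rw [eval_sP, h]
    simp
    ring
  rw [this]
  compute_degree!

lemma eval_nodal (g : P3) (v : Fin 4 → ℂ) :
    eval v (nodal g) = v 3 * (v 1 ^ 2 - v 0 * v 2) + eval ![v 0, v 1, v 2] g := by
  have : v ∘ Fin.castSucc = ![v 0, v 1, v 2] := by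
    funext i
    fin_cases i <;> rfl
  simp [nodal, eval_rename, this]

/-- a linear form from its coefficients -/
def lf (a b c d : ℂ) : (Fin 4 → ℂ) →ₗ[ℂ] ℂ :=
  a • LinearMap.proj 0 + b • LinearMap.proj 1 + c • LinearMap.proj 2 + d • LinearMap.proj 3

lemma lf_apply (a b c d : ℂ) (v : Fin 4 → ℂ) :
    lf a b c d v = a * v 0 + b * v 1 + c * v 2 + d * v 3 := by
  simp [lf]

lemma deg2_of_triple {g : P3} (hg : g.IsHomogeneous 3) (τ : ℂ)
    (h3 : (Polynomial.X - Polynomial.C τ) ^ 3 ∣ sP g) : Deg2 (nodal g) := by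
  obtain ⟨a0, a1, a2, a3, a4, a5, a6, a7, a8, a9, h⟩ := eval_cubic hg
  obtain ⟨u, hu⟩ := h3
  have e0 : ∀ t, (sP g).eval t = a9 * t ^ 6 + a8 * t ^ 5 + (a5 + a7) * t ^ 4 + (a4 + a6) * t ^ 3 +
      (a2 + a3) * t ^ 2 + a1 * t + a0 := fun t => by
    rw [eval_sP, h]
    simp
    ring
  have e1 : sP g = Polynomial.C a9 * Polynomial.X ^ 6 + Polynomial.C a8 * Polynomial.X ^ 5 +
      Polynomial.C (a5 + a7) * Polynomial.X ^ 4 + Polynomial.C (a4 + a6) * Polynomial.X ^ 3 +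
      Polynomial.C (a2 + a3) * Polynomial.X ^ 2 + Polynomial.C a1 * Polynomial.X +
      Polynomial.C a0 := by
    refine Polynomial.funext fun t => ?_
    rw [e0]
    simp
  have c0 : (sP g).eval τ = 0 := by rw [hu]; simp
  have c1 : (Polynomial.derivative (sP g)).eval τ = 0 := by
    rw [hu]; simp [Polynomial.derivative_pow]
  have c2 : (Polynomial.derivative (Polynomial.derivative (sP g))).eval τ = 0 := by
    rw [hu]; simp [Polynomial.derivative_pow]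
  rw [e1] at c0 c1 c2
  simp [Polynomial.derivative_pow] at c0 c1 c2
  set z : ℂ := a2 + a4 * τ + 2 * a5 * τ ^ 2 + a7 * τ ^ 2 + 2 * a8 * τ ^ 3 + 3 * a9 * τ ^ 4 with hz
  set b4 : ℂ := a4 + 2 * a7 * τ + 2 * a8 * τ ^ 2 + 4 * a5 * τ + 4 * a8 * τ ^ 2 + 12 * a9 * τ ^ 3
    with hb4
  set b5 : ℂ := a5 + a8 * τ + 3 * a9 * τ ^ 2 with hb5
  refine ⟨![1, τ, τ ^ 2, z], fun h0 => by simpa using congrFun h0 0, lf (τ ^ 2) (-2 * τ) 1 0,
    lf (z - b4 * τ + b5 * τ ^ 2) (b4 - 2 * τ * b5) b5 (-1), fun s v => ?_⟩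
  rw [eval_nodal, eval_nodal, h, h, lf_apply, lf_apply]
  simp only [Pi.add_apply, Pi.smul_apply, smul_eq_mul, Matrix.cons_val_zero, Matrix.cons_val_one,
    Matrix.cons_val, hz, hb4, hb5]
  linear_combination (s ^ 3 + 3 * s ^ 2 * v 0 + 3 * s * v 0 ^ 2) * c0 +
    ((v 1 - τ * v 0) * (s ^ 2 + 2 * s * v 0)) * c1 + (s * (v 1 - τ * v 0) ^ 2 / 2) * c2

/-- The points on the conic. -/
def rt (τ : ℂ) : Node := .root (.c0 τ (τ ^ 2))

/-- The infinitely near points on the conic. -/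
def nr (τ : ℂ) : Node := .step (rt τ) (some (2 * τ))

lemma prox_rt (τ : ℂ) : (rt τ).prox = ∅ := by simp [rt, Node.prox, Node.ex]

lemma prox_nr (τ : ℂ) : (nr τ).prox = {rt τ} := by simp [nr, rt, Node.prox, Node.ex]

lemma rt_inj {τ σ : ℂ} (h : rt τ = rt σ) : τ = σ := by
  simp only [rt, Node.root.injEq, Rt.c0.injEq] at h
  exact h.1

lemma nr_inj {τ σ : ℂ} (h : nr τ = nr σ) : τ = σ := by
  simp only [nr, Node.step.injEq] at h
  exact rt_inj h.1

lemma rt_ne_nr (τ σ : ℂ) : rt τ ≠ nr σ := by simp [rt, nr]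

lemma sub_rt (τ : ℂ) : (rt τ).sub = ![1, C τ + X 0, C (τ ^ 2) + X 1] := rfl

lemma sub_nr (τ : ℂ) :
    (nr τ).sub = ![1, C τ + X 0, C (τ ^ 2) + X 0 * (X 1 + C (2 * τ))] := by
  funext i
  fin_cases i <;> simp [nr, Node.sub, rt, Rt.ch, st]

lemma tot_rt_Q (τ : ℂ) : (rt τ).tot Q = C (2 * τ) * X 0 + X 0 ^ 2 - X 1 := by
  simp [Node.tot, sub_rt, Q, map_ofNat]
  ring

lemma tot_nr_Q (τ : ℂ) : (nr τ).tot Q = X 0 * (X 0 - X 1) := by
  simp [Node.tot, sub_nr, Q, map_ofNat]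
  ring

lemma mult_one (hV : St_VAL) {a : P2} (k : Fin 2) (h0 : eval 0 a = 0)
    (h1 : eval 0 (pderiv k a) ≠ 0) : mult 0 a = 1 := by
  have ha : a ≠ 0 := by rintro rfl; simp at h1
  have h2 := (hV.mone a ha).2 (Or.inr ⟨k, h1⟩)
  have h3 : mult 0 a ≠ 0 := fun h => (hV.mzero a ha).1 h h0
  omega

lemma v_rt_Q (hV : St_VAL) (τ : ℂ) : (rt τ).v Q = 1 := by
  rw [Node.v, tot_rt_Q]
  exact mult_one hV 1 (by simp) (by simp)

lemma v_nr_Q (hV : St_VAL) (τ : ℂ) : (nr τ).v Q = 2 := by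
  have h1 : mult 0 (X 0 : P2) = 1 := mult_one hV 0 (by simp) (by simp)
  have h2 : mult 0 (X 0 - X 1 : P2) = 1 := mult_one hV 0 (by simp) (by simp)
  have h3 : (X 0 - X 1 : P2) ≠ 0 := sub_ne_zero.2 fun h => by simpa using X_injective h
  rw [Node.v, tot_nr_Q, hV.mmul _ _ (X_ne_zero 0) h3, h1, h2]

lemma m_rt_Q (hV : St_VAL) (τ : ℂ) : (rt τ).m Q = 1 := by
  have := hV.vm (rt τ) Q Q_nz
  rw [v_rt_Q hV, prox_rt] at this
  simpa using this.symm

lemma m_nr_Q (hV : St_VAL) (τ : ℂ) : (nr τ).m Q = 1 := by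
  have := hV.vm (nr τ) Q Q_nz
  rw [v_nr_Q hV, prox_nr, Finset.sum_singleton, v_rt_Q hV] at this
  omega

lemma X0_mem : (X 0 : P2) ∈ mi 0 := mem_mi.2 (by simp)

lemma tot_rt_mem {g : P3} {τ : ℂ} (h : Polynomial.X - Polynomial.C τ ∣ sP g) :
    (rt τ).tot g ∈ mi 0 ^ 1 := by
  rw [pow_one]
  obtain ⟨w, hw⟩ := dvd_sub_sP g (C τ + X 0) (C (τ ^ 2) + X 1)
  obtain ⟨u, hu⟩ := h
  rw [Node.tot, sub_rt, sub_eq_iff_eq_add.1 hw, hu]
  refine add_mem (Ideal.mul_mem_right _ _ (mem_mi.2 (by simp))) ?_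
  rw [map_mul]
  exact Ideal.mul_mem_right _ _ (mem_mi.2 (by simp))

lemma tot_nr_mem {g : P3} {τ : ℂ} (h : (Polynomial.X - Polynomial.C τ) ^ 2 ∣ sP g) :
    (nr τ).tot g ∈ mi 0 ^ 2 := by
  obtain ⟨w, hw⟩ := dvd_sub_sP g (C τ + X 0) (C (τ ^ 2) + X 0 * (X 1 + C (2 * τ)))
  obtain ⟨u, hu⟩ := h
  rw [Node.tot, sub_nr, sub_eq_iff_eq_add.1 hw, hu]
  refine add_mem (Ideal.mul_mem_right _ _ ?_) ?_
  · have : (C (τ ^ 2) + X 0 * (X 1 + C (2 * τ)) - (C τ + X 0) ^ 2 : P2) = X 0 * (X 1 - X 0) := by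
      simp only [map_pow, map_mul, map_ofNat]
      ring
    rw [this, pow_two]
    exact Ideal.mul_mem_mul X0_mem (mem_mi.2 (by simp))
  · rw [map_mul, map_pow]
    refine Ideal.mul_mem_right _ _ (Ideal.pow_mem_pow (mem_mi.2 (by simp)) 2)

lemma sP_Q : sP Q = 0 := by simp [sP, Q]

/-- The six points. -/
structure Six (T0 : Finset Node) : Prop where
  card : T0.card = 6
  cases : ∀ q ∈ T0, (∃ τ, q = rt τ) ∨ ∃ τ, q = nr τ ∧ rt τ ∈ T0

lemma Six.cls {T0 : Finset Node} (h : Six T0) : Cls T0 := fun q hq => by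
  rcases h.cases q hq with ⟨τ, rfl⟩ | ⟨τ, rfl, h1⟩
  · simp [prox_rt]
  · simpa [prox_nr] using h1

lemma Six.mQ {T0 : Finset Node} (h : Six T0) (hV : St_VAL) {q : Node} (hq : q ∈ T0) :
    q.m Q = 1 := by
  rcases h.cases q hq with ⟨τ, rfl⟩ | ⟨τ, rfl, h1⟩
  · exact m_rt_Q hV τ
  · exact m_nr_Q hV τ

lemma Six.child {T0 : Finset Node} (h : Six T0) {p q : Node} (hq : q ∈ T0) (hp : p ∈ q.prox) :
    ∃ τ, p = rt τ ∧ q = nr τ ∧ p ∈ T0 := by
  rcases h.cases q hq with ⟨τ, rfl⟩ | ⟨τ, rfl, h1⟩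
  · simp [prox_rt] at hp
  · rw [prox_nr, Finset.mem_singleton] at hp
    exact ⟨τ, hp, rfl, hp ▸ h1⟩

lemma sum_T0 {T T0 : Finset Node} (hT : T0 ⊆ T) (w : Node → ℝ) :
    ∑ q : T, (if q.1 ∈ T0 then w q.1 else 0) = ∑ q ∈ T0, w q := by
  rw [Finset.sum_coe_sort T (fun q => if q ∈ T0 then w q else 0), ← Finset.sum_filter]
  congr 1
  ext q
  simp only [Finset.mem_filter]
  exact ⟨fun h => h.2, fun h => ⟨hT h, h⟩⟩

lemma mem_T0 {T T0 : Finset Node} (q : T) : 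
    (show (gTree T T0).T from q) ∈ (gTree T T0).T0 ↔ q.1 ∈ T0 :=
  ⟨fun h => (Finset.mem_filter.1 h).2, fun h => Finset.mem_filter.2 ⟨Finset.mem_univ _, h⟩⟩

lemma mem_prox {T T0 : Finset Node} (p q : T) : 
    (show (gTree T T0).T from p) ∈ (gTree T T0).prox q ↔ p.1 ∈ q.1.prox :=
  ⟨fun h => (Finset.mem_filter.1 h).2, fun h => Finset.mem_filter.2 ⟨Finset.mem_univ _, h⟩⟩

/-- The second component of an exceptional class. -/
def eg (p q : Node) : ℝ := (if p ∈ q.prox then 1 else 0) - if q = p then 1 else 0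

lemma gam_inr {T T0 : Finset Node} (p q : T) : ((gTree T T0).gam (.inr p)).2 q = eg p.1 q.1 := by
  simp only [Tree.gam, eg]
  congr 1
  · exact if_congr (mem_prox p q) rfl rfl
  · by_cases h : q = p
    · exact (if_pos h).trans (if_pos (congrArg Subtype.val h)).symm
    · exact (if_neg h).trans (if_neg fun h1 => h (Subtype.ext h1)).symm

lemma ip_pr {T T0 : Finset Node} (hT : T0 ⊆ T) (x y : (gTree T T0).Cl) (a b : Node → ℝ)
    (hx : ∀ q : T, q.1 ∈ T0 → x.2 q = a q.1) (hy : ∀ q : T, q.1 ∈ T0 → y.2 q = b q.1) :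
    (gTree T T0).ip0 x y = x.1 * y.1 - ∑ q ∈ T0, a q * b q := by
  rw [← sum_T0 hT]
  simp only [Tree.ip0, Tree.ip, Tree.pr]
  congr 1
  refine Finset.sum_congr rfl fun q _ => ?_
  by_cases h : q.1 ∈ T0
  · refine Eq.trans ?_ (if_pos h).symm
    rw [← hx q h, ← hy q h]
    exact congrArg (· * _) (if_pos ((mem_T0 q).2 h))
  · refine Eq.trans ?_ (if_neg h).symm
    exact (congrArg (· * _) (if_neg fun h1 => h ((mem_T0 q).1 h1))).trans (zero_mul _)

lemma ip_L {T T0 : Finset Node} (hT : T0 ⊆ T) (y : (gTree T T0).Cl) (b : Node → ℝ)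
    (hy : ∀ q : T, q.1 ∈ T0 → y.2 q = b q.1) :
    (gTree T T0).ip (gTree T T0).L y = 3 * y.1 - ∑ q ∈ T0, b q := by
  rw [← sum_T0 hT]
  simp only [Tree.ip, Tree.L]
  congr 1
  refine Finset.sum_congr rfl fun q _ => ?_
  by_cases h : q.1 ∈ T0
  · refine Eq.trans ?_ (if_pos h).symm
    rw [← hy q h]
    exact (congrArg (· * _) (if_pos ((mem_T0 q).2 h))).trans (one_mul _)
  · refine Eq.trans ?_ (if_neg h).symm
    exact (congrArg (· * _) (if_neg fun h1 => h ((mem_T0 q).1 h1))).trans (zero_mul _)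

lemma sum_eg {T0 : Finset Node} (h : Six T0) (p : Node) :
    (∑ q ∈ T0, eg p q = 0 ∧ (p ∈ T0 → ∃ τ, p = rt τ)) ∨ ∑ q ∈ T0, eg p q = -1 := by
  simp only [eg, Finset.sum_sub_distrib, Finset.sum_ite_eq']
  by_cases h1 : ∃ q ∈ T0, p ∈ q.prox
  · obtain ⟨q, hq, hp⟩ := h1
    obtain ⟨τ, rfl, rfl, h2⟩ := h.child hq hp
    left
    refine ⟨?_, fun _ => ⟨τ, rfl⟩⟩
    rw [Finset.sum_eq_single (nr τ), if_pos hp, if_pos h2, sub_self]
    · intro q' hq' hne
      refine if_neg fun h3 => hne ?_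
      obtain ⟨σ, h4, rfl, -⟩ := h.child hq' h3
      rw [rt_inj h4]
    · intro h3; exact absurd hq h3
  · have h2 : ∑ q ∈ T0, (if p ∈ q.prox then (1 : ℝ) else 0) = 0 :=
      Finset.sum_eq_zero fun q hq => if_neg fun h3 => h1 ⟨q, hq, h3⟩
    rw [h2]
    by_cases h3 : p ∈ T0
    · right; simp [h3]
    · left; simp [h3]

lemma plane_cases (hV : St_VAL) (hD : St_DIV) (hN : St_NOE) {T0 : Finset Node} (h : Six T0)
    (Γ : PlC) : (Associated Γ.rep Q ∧ Γ.rep.totalDegree = 2 ∧ ∀ q ∈ T0, q.m Γ.rep = 1) ∨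
      ∑ q ∈ T0, (q.m Γ.rep : ℝ) < 3 * Γ.rep.totalDegree := by
  have hi : Irreducible Γ.rep := Γ.2.1
  have hnz : NZ Γ.rep := Γ.2.2
  by_cases hd : Γ.rep ∣ Q
  · left
    have ha := hi.associated_of_dvd Q_irr hd
    obtain ⟨u, hu⟩ := ha
    obtain ⟨c, hc, hc2⟩ := isUnit_iff_eq_C_of_isReduced.1 u.isUnit
    have hc0 : c ≠ 0 := hc.ne_zero
    have hcz : NZ (C c : P3) := ⟨by simpa using hc0, 0, isHomogeneous_C _ _⟩
    refine ⟨⟨u, hu⟩, ?_, fun q hq => ?_⟩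
    · have h1 := (hD.deg Γ).2.mul (isHomogeneous_C (Fin 3) c)
      rw [← hc2, hu] at h1
      simpa using h1.inj_right Q_hom Q_ne
    · have h1 := (hV.mul q _ _ hnz hcz).2.1
      rw [← hc2, hu, h.mQ hV hq, hc2, (hV.const q c hc0).2.1] at h1
      omega
  · right
    have h1 := hN.le Γ.rep Q _ 2 T0 hi (hD.deg Γ).2 Q_hom hd
    rw [Finset.sum_congr rfl fun q hq => by rw [h.mQ hV hq, one_mul]] at h1
    have h2 := (hD.deg Γ).1
    have h3 : ∑ q ∈ T0, q.m Γ.rep < 3 * Γ.rep.totalDegree := by omega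
    exact_mod_cast h3

lemma dp (hV : St_VAL) (hD : St_DIV) (hN : St_NOE) (hP : St_PLANE) {T0 : Finset Node}
    (h : Six T0) (T : Finset Node) (hT : Cls T) (h0 : T0 ⊆ T) : (gTree T T0).DP := by
  have Lp : ∀ Γ : PlC, (gTree T T0).ip (gTree T T0).L ((gTree T T0).gam (.inl Γ)) =
      3 * Γ.rep.totalDegree - ∑ q ∈ T0, (q.m Γ.rep : ℝ) := fun Γ =>
    ip_L h0 _ (fun q => (q.m Γ.rep : ℝ)) fun _ _ => rfl
  have Le : ∀ p : T, (gTree T T0).ip (gTree T T0).L ((gTree T T0).gam (.inr p)) =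
      -∑ q ∈ T0, eg p.1 q := fun p => by
    rw [ip_L h0 _ (eg p.1) fun q _ => gam_inr p q]
    simp [Tree.gam]
  have pe : ∀ (Γ : PlC) (p : T), (gTree T T0).ip (gTree T T0).L ((gTree T T0).gam (.inl Γ)) = 0 →
      (gTree T T0).ip (gTree T T0).L ((gTree T T0).gam (.inr p)) = 0 →
      (gTree T T0).ip0 ((gTree T T0).gam (.inl Γ)) ((gTree T T0).gam (.inr p)) = 0 := by
    intro Γ p h1 h2
    rw [Lp] at h1
    rw [Le] at h2
    rcases plane_cases hV hD hN h Γ with ⟨-, -, h3⟩ | h3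
    · rw [ip_pr h0 _ _ (fun _ => 1) (eg p.1) (fun q hq => by simp [Tree.gam, gTree, h3 q.1 hq])
        fun q _ => gam_inr p q]
      simp only [one_mul]
      rw [neg_eq_zero.1 h2]
      simp [Tree.gam]
    · linarith
  refine ⟨hP T T0 hT, ?_, ?_, ?_, ?_⟩
  · rw [← h.card]
    refine Finset.card_bij (fun q _ => q.1) (fun q hq => (mem_T0 q).1 hq)
      (fun a _ b _ hab => Subtype.ext hab) fun q hq => ⟨⟨q, h0 hq⟩, (mem_T0 _).2 hq, rfl⟩
  · intro q hq p hp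
    exact (mem_T0 p).2 (h.cls _ ((mem_T0 q).1 hq) ((mem_prox p q).1 hp))
  · rintro (Γ | p)
    · rw [Lp]
      rcases plane_cases hV hD hN h Γ with ⟨-, h2, h3⟩ | h3
      · rw [Finset.sum_congr rfl fun q hq => by rw [h3 q hq], h2]
        simp [h.card]
        norm_num
      · linarith
    · rw [Le]
      rcases sum_eg h p.1 with ⟨h1, -⟩ | h1 <;> rw [h1] <;> norm_num
  · rintro (Γ | p) (Γ' | p') hne ho ho' h1 h2
    · exfalso
      rw [Lp] at h1 h2
      rcases plane_cases hV hD hN h Γ with ⟨h3, -⟩ | h3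
      · rcases plane_cases hV hD hN h Γ' with ⟨h4, -⟩ | h4
        · exact hne (congrArg Sum.inl (hD.ndvd Γ Γ' (h3.trans h4.symm).dvd))
        · linarith
      · linarith
    · exact pe Γ p' h1 h2
    · rw [Tree.ip0, Tree.ip_pr, Tree.ip_comm]
      exact pe Γ' p h2 h1
    · rw [Le] at h1 h2
      have hp : p.1 ∈ T0 := (mem_T0 p).1 ho
      have hp' : p'.1 ∈ T0 := (mem_T0 p').1 ho'
      have hne' : p.1 ≠ p'.1 := fun h3 => hne (congrArg Sum.inr (Subtype.ext h3))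
      obtain ⟨τ, hτ⟩ : ∃ τ, p.1 = rt τ := by
        rcases sum_eg h p.1 with ⟨-, h3⟩ | h3
        · exact h3 hp
        · rw [h3] at h1; norm_num at h1
      obtain ⟨σ, hσ⟩ : ∃ τ, p'.1 = rt τ := by
        rcases sum_eg h p'.1 with ⟨-, h3⟩ | h3
        · exact h3 hp'
        · rw [h3] at h2; norm_num at h2
      rw [ip_pr h0 _ _ (eg p.1) (eg p'.1) (fun q _ => gam_inr p q) fun q _ => gam_inr p' q]
      rw [Finset.sum_eq_zero fun q hq => ?_]
      · simp [Tree.gam]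
      rw [hτ, hσ] at hne' ⊢
      rcases h.cases q hq with ⟨ρ, rfl⟩ | ⟨ρ, rfl, -⟩
      · simp only [eg, prox_rt, Finset.notMem_empty, if_false, zero_sub]
        by_cases h3 : rt ρ = rt τ
        · rw [if_neg (fun h4 : rt ρ = rt σ => hne' (h3.symm.trans h4))]; simp
        · rw [if_neg h3]; simp
      · simp only [eg, prox_nr, Finset.mem_singleton, if_neg (rt_ne_nr _ _).symm, sub_zero]
        by_cases h3 : rt τ = rt ρ
        · rw [if_neg (fun h4 : rt σ = rt ρ => hne' (h3.trans h4.symm))]; simp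
        · rw [if_neg h3]; simp

lemma exists_six {s : Polynomial ℂ} (hs : s.natDegree = 6)
    (h3 : ∀ τ, ¬ (Polynomial.X - Polynomial.C τ) ^ 3 ∣ s) : ∃ T0 : Finset Node, Six T0 ∧
    (∀ τ, rt τ ∈ T0 → Polynomial.X - Polynomial.C τ ∣ s) ∧
      ∀ τ, nr τ ∈ T0 → (Polynomial.X - Polynomial.C τ) ^ 2 ∣ s := by
  classical
  have hs0 : s ≠ 0 := by rintro rfl; simp at hs
  let R1 := s.roots.toFinset
  let R2 := R1.filter fun τ => 2 ≤ s.roots.count τ
  have hm : ∀ q, q ∈ R1.image rt ∪ R2.image nr ↔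
      (∃ τ ∈ R1, rt τ = q) ∨ ∃ τ ∈ R2, nr τ = q := fun q => by
    simp only [Finset.mem_union, Finset.mem_image]
  refine ⟨R1.image rt ∪ R2.image nr, ⟨?_, fun q hq => ?_⟩, fun τ hτ => ?_, fun τ hτ => ?_⟩
  · rw [Finset.card_union_of_disjoint, Finset.card_image_of_injective _ fun _ _ => rt_inj,
      Finset.card_image_of_injective _ fun _ _ => nr_inj]
    · rw [← hs, ← IsAlgClosed.card_roots_eq_natDegree, ← Multiset.toFinset_sum_count_eq,
        Finset.card_filter, Finset.card_eq_sum_ones, ← Finset.sum_add_distrib]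
      refine Finset.sum_congr rfl fun τ hτ => ?_
      have h1 : 0 < s.roots.count τ := Multiset.count_pos.2 (Multiset.mem_toFinset.1 hτ)
      have h2 : s.roots.count τ < 3 := by
        rw [Polynomial.count_roots]
        by_contra h4
        exact h3 τ ((Polynomial.le_rootMultiplicity_iff hs0).1 (not_lt.1 h4))
      split_ifs <;> omega
    · rw [Finset.disjoint_left]
      intro q h1 h2
      obtain ⟨τ, -, rfl⟩ := Finset.mem_image.1 h1
      obtain ⟨σ, -, h4⟩ := Finset.mem_image.1 h2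
      exact rt_ne_nr _ _ h4.symm
  · rcases (hm q).1 hq with ⟨τ, -, rfl⟩ | ⟨τ, h1, rfl⟩
    · exact Or.inl ⟨τ, rfl⟩
    · exact Or.inr ⟨τ, rfl, (hm _).2 (Or.inl ⟨τ, (Finset.mem_filter.1 h1).1, rfl⟩)⟩
  · rcases (hm _).1 hτ with ⟨σ, h1, h2⟩ | ⟨σ, -, h2⟩
    · rw [← rt_inj h2]
      exact Polynomial.dvd_iff_isRoot.2
        (Polynomial.isRoot_of_mem_roots (Multiset.mem_toFinset.1 h1))
    · exact absurd h2.symm (rt_ne_nr _ _)
  · rcases (hm _).1 hτ with ⟨σ, -, h2⟩ | ⟨σ, h1, h2⟩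
    · exact absurd h2 (rt_ne_nr _ _)
    · rw [← nr_inj h2]
      have := (Finset.mem_filter.1 h1).2
      rw [Polynomial.count_roots] at this
      exact (Polynomial.le_rootMultiplicity_iff hs0).1 this

lemma nodal_hom {g : P3} (hg : g.IsHomogeneous 3) : (nodal g).IsHomogeneous 3 :=
  ((isHomogeneous_X ℂ 3).mul (((isHomogeneous_X ℂ 1).pow 2).sub
    ((isHomogeneous_X ℂ 0).mul (isHomogeneous_X ℂ 2)))).add hg.rename_isHomogeneous

end GMODN

open GMODN in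
theorem modn_of (hA : St_A1) (hV : St_VAL) (hD : St_DIV) (hN : St_NOE) (hP : St_PLANE)
    (hK : St_KER) : St_MODN := by
  intro g hg hn h0
  have hg0 : g ≠ 0 := by rintro rfl; simp at h0
  obtain ⟨T0, h6, hr, hs⟩ := exists_six (natDegree_sP hg h0)
    fun τ h3 => hn (deg2_of_triple hg τ h3)
  have hXQ : ∀ i : Fin 3, (Q * X i).IsHomogeneous 3 := fun i => Q_hom.mul (isHomogeneous_X ℂ i)
  have hhom : ∀ i : Fin 4, ((![Q * X 0, Q * X 1, Q * X 2, -g] : Fin 4 → P3) i).IsHomogeneous 3 := by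
    intro i
    fin_cases i
    · exact hXQ 0
    · exact hXQ 1
    · exact hXQ 2
    · exact hg.neg
  have hne : ∀ i : Fin 4, (![Q * X 0, Q * X 1, Q * X 2, -g] : Fin 4 → P3) i ≠ 0 := by
    intro i
    fin_cases i
    · exact mul_ne_zero Q_ne (X_ne_zero 0)
    · exact mul_ne_zero Q_ne (X_ne_zero 1)
    · exact mul_ne_zero Q_ne (X_ne_zero 2)
    · exact neg_ne_zero.2 hg0
  refine ⟨![Q * X 0, Q * X 1, Q * X 2, -g], T0, hhom, ?_, ?_, ?_, h6.cls, dp hV hD hN hP h6⟩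
  · have hren : (aeval (![X 0, X 1, X 2] : Fin 3 → P4) : P3 →ₐ[ℂ] P4) = rename Fin.castSucc := by
      ext i : 1
      fin_cases i <;> simp
    refine hK (nodal g) (X 1 ^ 2 - X 0 * X 2) _ ![X 0, X 1, X 2] (hA.irr _ (nodal_hom hg) hn) hhom
      (nodal_hom hg) ?_ ?_ ?_
    · have h1 : (![Q * X 0, Q * X 1, Q * X 2, -g] : Fin 4 → P3) ∘ Fin.castSucc =
          fun i => Q * X i := by
        funext i
        fin_cases i <;> rfl
      have h2 := aeval_smul_hom hg Q X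
      rw [aeval_X_left_apply] at h2
      rw [nodal, map_add, aeval_rename, h1, h2]
      simp only [map_mul, map_sub, map_pow, aeval_X, Matrix.cons_val_zero, Matrix.cons_val_one,
        Matrix.cons_val]
      rw [Q]
      ring
    · intro h1
      have h2 := map_dvd (eval ![0, 1, 0, -eval ![0, 1, 0] g]) h1
      rw [eval_nodal] at h2
      simp at h2
    · intro i
      fin_cases i
      · simp [Q]
      · simp [Q]
      · simp [Q]
      · refine ⟨-1, ?_⟩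
        simp only [Fin.reduceFinMk, Matrix.cons_val, map_neg, hren, nodal]
        ring
  · refine ⟨fun i => X 0 * X i.castSucc, X 0 * Q ^ 2,
      mul_ne_zero (X_ne_zero 0) (pow_ne_zero 2 Q_ne), fun i =>
        ⟨(isHomogeneous_X ℂ 0).mul (isHomogeneous_X ℂ _), ?_⟩⟩
    fin_cases i <;> simp <;> ring
  · intro i q hq
    have key : ∀ n, q.tot Q ∈ mi 0 ^ n → q.tot g ∈ mi 0 ^ n →
        n ≤ q.v ((![Q * X 0, Q * X 1, Q * X 2, -g] : Fin 4 → P3) i) := by
      intro n h1 h2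
      refine (mem_pow_iff (hV.ne q _ ⟨hne i, 3, hhom i⟩).1).1 ?_
      fin_cases i
      · simpa using Ideal.mul_mem_right _ _ h1
      · simpa using Ideal.mul_mem_right _ _ h1
      · simpa using Ideal.mul_mem_right _ _ h1
      · simpa using h2
    rcases h6.cases q hq with ⟨τ, rfl⟩ | ⟨τ, rfl, h1⟩
    · rw [wv_eq, prox_rt, Finset.sum_empty, ind, if_pos hq]
      exact key 1 (tot_rt_mem (by simp [sP_Q])) (tot_rt_mem (hr τ hq))
    · rw [wv_eq, prox_nr, Finset.sum_singleton, wv_eq, prox_rt, Finset.sum_empty, ind, if_pos hq,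
        ind, if_pos h1]
      exact key 2 (tot_nr_mem (by simp [sP_Q])) (tot_nr_mem (hs τ hq))

end Pool.Agent.Lib.MP_a25055_ag
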