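import Pool.Agent.Lib.MP_a25055_ag.Geo

/-! Noether's formula. -/

open MvPolynomial Module
open Pool.Agent.Lib.MP_cc3443_ag (Place IsFF divF)
open Pool.Agent.Lib.MP_3c72fe_ag (P2 P3 mult Ge LL el chi ZD)

noncomputable section

namespace Pool.Agent.Lib.MP_a25055_ag

namespace GNOE

theorem ex (hG : St_GEN) (hC : St_CEN) (f : P3) (hf : Irreducible f) (hn : NZ f) :
    Nonempty (FC f) := by
  obtain ⟨K, _, _, _, η, hη⟩ := hG f hf hn
  obtain ⟨H, ξ, E, cen, hl⟩ := hC K η hη.top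
  exact ⟨{ K := K, η := η, H := H, ξ := ξ, E := E, cen := cen, gen := hη, loc := hl }⟩

theorem degD (hD : St_DEGE) (f : P3) (d : ℕ) (hf : Irreducible f) (hd : f.IsHomogeneous d)
    (c : FC f) (T : Finset Node) (e : ℕ) (M : Node → ℕ) :
    Finsupp.degree (c.D T e M) = e * d - ∑ q ∈ T, (M q : ℤ) * q.m f := by
  obtain ⟨h1, h2⟩ := hD f d hf hd c
  rw [FC.D, map_sub, map_zsmul, map_sum, h1, smul_eq_mul]
  congr 1
  exact Finset.sum_congr rfl fun q _ => by rw [map_zsmul, h2, smul_eq_mul]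

theorem wvm (hV : St_VAL) (g : P3) (hg : NZ g) (q : Node) : wv (·.m g) q = q.v g := by
  induction hq : q.dep using Nat.strong_induction_on generalizing q with
  | _ n ih =>
    rw [wv_eq, hV.vm q g hg]
    congr 1
    exact Finset.sum_congr rfl fun p hp => ih _ (hq ▸ Node.prox_dep hp) p rfl

end GNOE

theorem noe_of (hV : St_VAL) (hP : St_PROX) (hG : St_GEN) (hC : St_CEN) (hO : St_ORD)
    (hD : St_DEGE) : St_NOE where
  ex := GNOE.ex hG hC
  degD := GNOE.degD hD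
  wvm g q hg := GNOE.wvm hV g hg q
  le f g d e T hf hd he hfg := by
    have hg0 : g ≠ 0 := fun h => hfg (h ▸ dvd_zero f)
    have hg : NZ g := ⟨hg0, e, he⟩
    obtain ⟨c⟩ := GNOE.ex hG hC f hf ⟨hf.ne_zero, d, hd⟩
    obtain ⟨T', hT, hcl⟩ := hP.cls T
    have h1 := hO.mem f c T' (·.m g) g e hcl he fun _ q _ => (GNOE.wvm hV g hg q).le
    have h2 := Pool.Agent.Lib.MP_3c72fe_ag.degree_nonneg_of_mem h1
      fun h0 => hfg ((c.gen.ker g e he).1 h0)
    rw [GNOE.degD hD f d hf hd] at h2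
    have h3 : ∑ q ∈ T, q.m g * q.m f ≤ ∑ q ∈ T', q.m g * q.m f :=
      Finset.sum_le_sum_of_subset hT
    have h4 : ((∑ q ∈ T', q.m g * q.m f : ℕ) : ℤ) ≤ ((e * d : ℕ) : ℤ) := by
      push_cast
      linarith
    exact h3.trans (Int.ofNat_le.1 h4)
  eq f g d e T hcl hf hd hg0 he hz := by
    have hg : NZ g := ⟨hg0, e, he⟩
    have hfn : NZ f := ⟨hf.ne_zero, d, hd⟩
    obtain ⟨c⟩ := GNOE.ex hG hC f hf hfn
    have h1 : divF (aeval c.η g) = -c.D T e (·.m g) := by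
      ext P
      obtain ⟨n, h1, h2, -⟩ := hO.bd f c T P hcl
      have h3 := (hO.van f c P n hfn).2
      have h4 : (c.cen P n).m g = 0 := (hz _ h1).resolve_left (by omega)
      refine (hO.eq f c T (·.m g) g e P n hcl hg0 he h1 h2
        (fun q _ => (GNOE.wvm hV g hg q).le) ?_).2
      rw [hV.vm _ g hg, h4, zero_add]
      exact Finset.sum_congr rfl fun p _ => (GNOE.wvm hV g hg p).symm
    have h2 := Pool.Agent.Lib.MP_3c72fe_ag.degree_div (aeval c.η g)
    rw [h1, map_neg, GNOE.degD hD f d hf hd] at h2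
    have h4 : ((∑ q ∈ T, q.m g * q.m f : ℕ) : ℤ) = ((e * d : ℕ) : ℤ) := by
      push_cast
      linarith
    exact Int.ofNat_inj.1 h4

end Pool.Agent.Lib.MP_a25055_ag
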