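import Pool.Agent.Lib.MP_a25055_ag.Geo

/-! Block ORD: orders of forms along the branches of a plane curve. -/

open MvPolynomial
open Pool.Agent.Lib.MP_cc3443_ag (Place IsFF)
open Pool.Agent.Lib.MP_3c72fe_ag

noncomputable section

namespace Pool.Agent.Lib.MP_a25055_ag

namespace GORD

section ff
variable {K : Type} [Field K] [Algebra ℂ K] [IsFF K] {P : Place K} {x : Fin 2 → K}

lemma sub_mem (hx : ∀ k, x k ∈ Ge P 1) (a : P2) :
    aeval x a ∈ Ge P 0 ∧ aeval x a - algebraMap ℂ K (eval 0 a) ∈ Ge P 1 := by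
  induction a using MvPolynomial.induction_on with
  | C a => simpa using const_mem_Ge a
  | add a b ha hb =>
    rw [map_add, map_add, map_add, add_sub_add_comm]
    exact ⟨add_mem ha.1 hb.1, add_mem ha.2 hb.2⟩
  | mul_X a k ha =>
    have := Ge_mul' (k := 1) ha.1 (hx k) (by omega)
    rw [map_mul, aeval_X]
    exact ⟨Ge_mono (by omega) this, by simpa using this⟩

lemma unit_ord {z : K} {a : ℂ} (ha : a ≠ 0) (h : z - algebraMap ℂ K a ∈ Ge P 1) :
    z ≠ 0 ∧ P.ord z = 0 := by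
  have := ord_eq_of_sub (P := P) (w := z) ((map_ne_zero (algebraMap ℂ K)).2 ha)
    (by rwa [ord_const ha, zero_add])
  rwa [ord_const ha] at this

lemma unit_aeval (hx : ∀ k, x k ∈ Ge P 1) {a : P2} (ha : eval 0 a ≠ 0) :
    aeval x a ≠ 0 ∧ P.ord (aeval x a) = 0 := unit_ord ha (sub_mem hx a).2

lemma ord_pow (z : K) (n : ℕ) : P.ord (z ^ n) = n * P.ord z := by
  rw [← zpow_natCast, P.ord_zpow]

lemma pow_mem {z : K} (hz : z ∈ Ge P 1) {a b : ℕ} (h : a ≤ b) : z ^ b ∈ Ge P (a * P.ord z) := by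
  have h0 : 0 ≤ P.ord z := by
    by_cases h0 : z = 0
    · simp [h0, Place.ord]
    · have := (mem_Ge_iff h0).1 hz
      omega
  exact Ge_mono (mul_le_mul_of_nonneg_right (by exact_mod_cast h) h0)
    (Ge_pow (mem_Ge_of_le le_rfl) b)

end ff

variable {f : P3} (c : FC f) (P : Place c.K)

lemma xi_mem (n : ℕ) (k : Fin 2) : c.ξ (c.cen P n) k ∈ Ge P 1 :=
  Ge_mono (c.loc.pos P n).1 ((c.loc.pos P n).2.1 k)

lemma ex_zero (k : Fin 2) : (c.cen P 0).ex k = none := by
  have h := c.loc.dep P 0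
  generalize c.cen P 0 = q at h
  cases q with
  | root r => rfl
  | step p a => simp [Node.dep] at h

lemma lab_ord (hV : St_VAL) (M : Node → ℕ) (n : ℕ) :
    (∀ k, (c.cen P n).ex k ≠ none → c.ξ (c.cen P n) k ≠ 0) ∧
    (Node.lab (wv M) ((c.cen P n).ex 0) : ℤ) * P.ord (c.ξ (c.cen P n) 0) +
      Node.lab (wv M) ((c.cen P n).ex 1) * P.ord (c.ξ (c.cen P n) 1) =
      ∑ i ∈ Finset.range n, (M (c.cen P i) : ℤ) * c.E (c.cen P i) P := by
  induction n with
  | zero => simp [ex_zero, Node.lab]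
  | succ n ih =>
    obtain ⟨a, h1, h2, h3, h4⟩ := c.loc.succ P n
    have h5 := xi_mem c P (n + 1)
    have hw : Node.lab (wv M) (some (c.cen P n)) = M (c.cen P n) +
        (Node.lab (wv M) ((c.cen P n).ex 0) + Node.lab (wv M) ((c.cen P n).ex 1)) := by
      rw [← hV.lab, ← wv_eq]; rfl
    rw [Finset.sum_range_succ, ← ih.2, ← h4]
    have ih1 := ih.1
    generalize c.ξ (c.cen P (n + 1)) = y at h2 h3 h5 ⊢
    rw [h1]
    generalize c.ξ (c.cen P n) = x at h2 ih1 ⊢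
    generalize c.cen P n = q at hw ih1 ⊢
    have e0 := h2 0
    have e1 := h2 1
    cases a with
    | none =>
      simp only [st, exI, Matrix.cons_val_zero, Matrix.cons_val_one, map_mul, aeval_X] at e0 e1 h3 ⊢
      have x0 : (Node.step q none).ex 0 = q.ex 0 := rfl
      have x1 : (Node.step q none).ex 1 = some q := rfl
      have k0 : q.ex 0 ≠ none → y 0 ≠ 0 := fun h => left_ne_zero_of_mul (e0 ▸ ih1 0 h)
      refine ⟨Fin.forall_fin_two.2 ⟨k0, fun _ => h3⟩, ?_⟩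
      rw [x0, x1, hw, e0, e1]
      by_cases h : q.ex 0 = none
      · rw [h]; simp only [Node.lab, Option.elim]; push_cast; ring
      · rw [P.ord_mul (k0 h) h3]; push_cast; ring
    | some a =>
      simp only [st, exI, Matrix.cons_val_zero, Matrix.cons_val_one, map_mul, map_add, aeval_X,
        aeval_C] at e0 e1 h3 ⊢
      have x0 : (Node.step q (some a)).ex 0 = some q := rfl
      have x1 : (Node.step q (some a)).ex 1 = if a = 0 then q.ex 1 else none := rfl
      have k1 : q.ex 1 ≠ none → y 1 + algebraMap ℂ c.K a ≠ 0 := fun h =>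
        right_ne_zero_of_mul (e1 ▸ ih1 1 h)
      rw [x0, hw, e0, e1]
      by_cases ha : a = 0
      · rw [if_pos ha] at x1
        rw [ha, map_zero, add_zero] at k1
        refine ⟨Fin.forall_fin_two.2 ⟨fun _ => h3, fun h => k1 (x1 ▸ h)⟩, ?_⟩
        rw [x1, ha, map_zero, add_zero]
        by_cases h : q.ex 1 = none
        · rw [h]; simp only [Node.lab, Option.elim]; push_cast; ring
        · rw [P.ord_mul h3 (k1 h)]; push_cast; ring
      · rw [if_neg ha] at x1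
        refine ⟨Fin.forall_fin_two.2 ⟨fun _ => h3, fun h => absurd x1 h⟩, ?_⟩
        have := unit_ord (P := P) (z := y 1 + algebraMap ℂ c.K a) ha (by simpa using h5 1)
        rw [x1, P.ord_mul h3 this.1, this.2]
        simp only [Node.lab, Option.elim]; push_cast; ring

lemma fac (hV : St_VAL) {g : P3} {e : ℕ} (h0 : g ≠ 0) (hg : g.IsHomogeneous e) (n : ℕ) :
    ∃ l u : c.K, l ≠ 0 ∧ P.ord l = -c.H P ∧ u ≠ 0 ∧ P.ord u = 0 ∧ aeval c.η g =
      l ^ e * c.ξ (c.cen P n) 0 ^ Node.lab (·.v g) ((c.cen P n).ex 0) *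
        c.ξ (c.cen P n) 1 ^ Node.lab (·.v g) ((c.cen P n).ex 1) * u *
        aeval (c.ξ (c.cen P n)) ((c.cen P n).str g) := by
  obtain ⟨l, h1, h2, h3⟩ := c.loc.lam P n
  obtain ⟨u, h4, h5⟩ := hV.fac (c.cen P n) g ⟨h0, e, hg⟩
  have h6 := unit_aeval (xi_mem c P n) h4
  refine ⟨l, _, h1, h2, h6.1, h6.2, ?_⟩
  have h7 := congrArg (aeval (c.ξ (c.cen P n))) h5
  rw [Node.tot, ← AlgHom.comp_apply, comp_aeval] at h7
  rw [funext h3, aeval_smul_hom hg, h7]
  simp only [map_mul, map_pow, aeval_X, mul_assoc]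

lemma pow_ne (hV : St_VAL) (w : Node → ℕ) (n : ℕ) (k : Fin 2) :
    c.ξ (c.cen P n) k ^ Node.lab w ((c.cen P n).ex k) ≠ 0 := by
  by_cases h : (c.cen P n).ex k = none
  · rw [h]; simp [Node.lab]
  · exact pow_ne_zero _ ((lab_ord c P hV 0 n).1 k h)

lemma prox_sub (hP : St_PROX) {T : Finset Node} (hT : Cls T) {n : ℕ} (h : ∀ j < n, c.cen P j ∈ T) :
    (c.cen P n).prox ⊆ T := fun p hp => by
  cases n with
  | zero => simp [Node.mem_prox, ex_zero] at hp
  | succ n =>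
    obtain ⟨a, h1, -⟩ := c.loc.succ P n
    rw [h1] at hp
    rcases (hP.par _ a).2 p hp with rfl | h2
    exacts [h n n.lt_succ_self, hT _ (h n n.lt_succ_self) h2]

lemma not_mem (hP : St_PROX) {T : Finset Node} (hT : Cls T) {n : ℕ} (h : c.cen P n ∉ T) :
    ∀ j ≥ n, c.cen P j ∉ T := fun j hj => by
  induction j, hj using Nat.le_induction with
  | base => exact h
  | succ j _ ih =>
    obtain ⟨a, h1, -⟩ := c.loc.succ P j
    exact fun h2 => ih (hT _ h2 (h1 ▸ (hP.par _ a).1))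

lemma bd (hP : St_PROX) {T : Finset Node} (hT : Cls T) :
    ∃ n, c.cen P n ∉ T ∧ (∀ j < n, c.cen P j ∈ T) ∧ ∀ j ≥ n, c.cen P j ∉ T := by
  classical
  have h : ∃ n, c.cen P n ∉ T := ⟨T.sup Node.dep + 1, fun h => by
    have := Finset.le_sup (f := Node.dep) h
    rw [c.loc.dep] at this
    omega⟩
  exact ⟨Nat.find h, Nat.find_spec h, fun j hj => not_not.1 (Nat.find_min h hj),
    not_mem c P hP hT (Nat.find_spec h)⟩

lemma D_eq (hV : St_VAL) (hP : St_PROX) {T : Finset Node} (hT : Cls T) (e : ℕ) (M : Node → ℕ)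
    {n : ℕ} (h1 : c.cen P n ∉ T) (h2 : ∀ j < n, c.cen P j ∈ T) :
    -c.D T e M P = e * -c.H P +
      (Node.lab (wv M) ((c.cen P n).ex 0) : ℤ) * P.ord (c.ξ (c.cen P n) 0) +
      Node.lab (wv M) ((c.cen P n).ex 1) * P.ord (c.ξ (c.cen P n) 1) := by
  have h3 : ∑ q ∈ T, (M q : ℤ) * c.E q P =
      ∑ i ∈ Finset.range n, (M (c.cen P i) : ℤ) * c.E (c.cen P i) P := by
    rw [← Finset.sum_image (f := fun q => (M q : ℤ) * c.E q P) (g := c.cen P) fun i _ j _ h => by
      rw [← c.loc.dep P i, h, c.loc.dep]]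
    refine (Finset.sum_subset (fun q hq => ?_) fun q hq h => ?_).symm
    · obtain ⟨i, hi, rfl⟩ := Finset.mem_image.1 hq
      exact h2 i (Finset.mem_range.1 hi)
    · rw [c.loc.zero P q fun h4 => h (Finset.mem_image.2 ⟨q.dep, Finset.mem_range.2
        (not_le.1 fun h5 => not_mem c P hP hT h1 _ h5 (h4 ▸ hq)), h4.symm⟩), mul_zero]
  rw [add_assoc, (lab_ord c P hV M n).2, ← h3, FC.D]
  simp only [Finsupp.sub_apply, Finsupp.smul_apply, Finsupp.finsetSum_apply, smul_eq_mul]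
  ring

lemma lab_le {q : Node} {w w' : Node → ℕ} (h : ∀ p ∈ q.prox, w p ≤ w' p) (k : Fin 2) :
    Node.lab w (q.ex k) ≤ Node.lab w' (q.ex k) := by
  cases hk : q.ex k with
  | none => exact le_rfl
  | some p => exact h p (Node.mem_prox.2 (by fin_cases k; exacts [Or.inl hk, Or.inr hk]))

end GORD

open GORD in
theorem ord_of (hV : St_VAL) (hP : St_PROX) : St_ORD where
  mem f c T M g e hT hg h := by
    by_cases h0 : g = 0
    · rw [h0, map_zero]; exact zero_mem _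
    refine mem_LL.2 fun P => ?_
    obtain ⟨n, h1, h2, -⟩ := bd c P hP hT
    obtain ⟨l, u, -, h3, -, h4, h5⟩ := fac c P hV h0 hg n
    have h6 := lab_le (w := wv M) (w' := (·.v g)) fun p hp => h h0 p (prox_sub c P hP hT h2 hp)
    rw [D_eq c P hV hP hT e M h1 h2, h5, ← h3]
    exact Ge_mul' (Ge_mul (Ge_mul (Ge_mul (Ge_pow (mem_Ge_of_le le_rfl) e)
      (pow_mem (xi_mem c P n 0) (h6 0))) (pow_mem (xi_mem c P n 1) (h6 1))) (mem_Ge_of_le h4.ge))
      (sub_mem (xi_mem c P n) _).1 (by omega)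
  bd f c T P hT := bd c P hP hT
  eq f c T M g e P n hT h0 hg h1 h2 h hv := by
    obtain ⟨l, u, hl, h3, hu, h4, h5⟩ := fac c P hV h0 hg n
    have hle : ∀ p ∈ (c.cen P n).prox, wv M p ≤ p.v g := fun p hp =>
      h p (prox_sub c P hP hT h2 hp)
    have h6 := hV.vm (c.cen P n) g ⟨h0, e, hg⟩
    have h7 := Finset.sum_le_sum hle
    have h8 := (Finset.sum_eq_sum_iff_of_le hle).1 (by omega)
    have h9 : ∀ k, Node.lab (·.v g) ((c.cen P n).ex k) = Node.lab (wv M) ((c.cen P n).ex k) :=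
      fun k => le_antisymm (lab_le (fun p hp => (h8 p hp).ge) k) (lab_le hle k)
    have hs := unit_aeval (xi_mem c P n)
      ((hV.mzero _ (hV.ne (c.cen P n) g ⟨h0, e, hg⟩).2).1 (by change (c.cen P n).m g = 0; omega))
    have k0 := mul_ne_zero (pow_ne_zero e hl) (pow_ne c P hV (·.v g) n 0)
    have k1 := mul_ne_zero k0 (pow_ne c P hV (·.v g) n 1)
    have k2 := mul_ne_zero k1 hu
    rw [D_eq c P hV hP hT e M h1 h2, h5, P.ord_mul k2 hs.1, P.ord_mul k1 hu,
      P.ord_mul k0 (pow_ne c P hV _ n 1), P.ord_mul (pow_ne_zero e hl) (pow_ne c P hV _ n 0),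
      ord_pow, ord_pow, ord_pow, hs.2, h4, h3, ← h9, ← h9]
    exact ⟨mul_ne_zero k2 hs.1, by ring⟩
  van f c P n hf := by
    obtain ⟨h0, e, hg⟩ := id hf
    obtain ⟨l, u, hl, -, hu, -, h5⟩ := fac c P hV h0 hg n
    have h6 := (mul_eq_zero.1 (h5.symm.trans ((c.gen.ker f e hg).2 dvd_rfl))).resolve_left
      (mul_ne_zero (mul_ne_zero (mul_ne_zero (pow_ne_zero e hl) (pow_ne c P hV _ n 0))
        (pow_ne c P hV _ n 1)) hu)
    exact ⟨h6, Nat.pos_of_ne_zero fun h => (unit_aeval (xi_mem c P n)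
      ((hV.mzero _ (hV.ne (c.cen P n) f hf).2).1 h)).1 h6⟩

end Pool.Agent.Lib.MP_a25055_ag
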