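import Pool.Agent.Lib.MP_a25055_ag.Geo

/-! Block PLANE: the tree of a closed set of infinitely near points satisfies the plane axioms. -/

open MvPolynomial Module
open Pool.Agent.Lib.MP_3c72fe_ag (P2 P3 mult Ge LL el chi ZD)

noncomputable section

namespace Pool.Agent.Lib.MP_a25055_ag

namespace GPLANE

lemma two_choose (n : ℕ) : 2 * (n + 2).choose 2 = (n + 1) * (n + 2) := by
  induction n with
  | zero => rfl
  | succ n ih =>
    rw [show n + 1 + 2 = (n + 2) + 1 by ring, Nat.choose_succ_succ' (n + 2) 1, Nat.choose_one_right,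
      mul_add, ih]
    ring

lemma rank_hom (m : ℕ) : 2 * finrank ℂ (hom m) = (m + 1) * (m + 2) := by
  have h1 : finrank ℂ (homogeneousSubmodule (Fin 3) ℂ m) =
      Nat.card {d : Fin 3 →₀ ℕ | d.degree = m} := by
    rw [homogeneousSubmodule_eq_finsupp_supported]
    exact finrank_eq_nat_card_basis (basisRestrictSupport ℂ {d : Fin 3 →₀ ℕ | d.degree = m})
  have h2 : {d : Fin 3 →₀ ℕ | d.degree = m} =
      ↑(Finset.finsuppAntidiag (Finset.univ : Finset (Fin 3)) m) := by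
    ext d
    simp [Finsupp.degree_eq_sum]
  rw [h1, h2, Nat.card_coe_set_eq, Set.ncard_coe_finset, Finset.card_finsuppAntidiag_nat_eq_choose,
    Finset.card_univ, Fintype.card_fin, show 3 + m - 1 = m + 2 by omega, Nat.choose_symm_add,
    two_choose]

instance fin_hom (m : ℕ) : Module.Finite ℂ (hom m) :=
  Module.Finite.iff_fg.2 (homogeneousSubmodule_fg (Fin 3) ℂ m)

lemma sum_T (T T0 : Finset Node) {A : Type} [AddCommMonoid A] (φ : Node → A) :
    ∑ q : (gTree T T0).T, φ q.1 = ∑ q ∈ T, φ q :=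
  Finset.sum_coe_sort T φ

lemma genus (hD : St_DIV) (hC : St_CNT) (hO : St_ORD) (hN : St_NOE) (hF : St_CLF)
    (T : Finset Node) (hT : Cls T) (f : P3) (d : ℕ) (hi : Irreducible f) (hd : 1 ≤ d)
    (hf : f.IsHomogeneous d) :
    ∑ q ∈ T, (q.m f - 1) * q.m f + 3 * d ≤ d * d + 2 := by
  set S := ∑ q ∈ T, (q.m f - 1) * q.m f with hS
  obtain ⟨c⟩ := hN.ex f hi ⟨hi.ne_zero, d, hf⟩
  obtain ⟨W', hle, hv, hr⟩ := hC T (fun q => q.m f - 1) (S + d) (hom (S + d)) hT le_rfl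
  have e1 : ∑ q ∈ T, (q.m f - 1) * (q.m f - 1 + 1) = S := by
    refine Finset.sum_congr rfl fun q _ => ?_
    rcases q.m f with _ | n <;> simp
  rw [e1, rank_hom] at hr
  have : Module.Finite ℂ W' := Submodule.finiteDimensional_of_le hle
  have hdeg : Finsupp.degree (c.D T (S + d) fun q => q.m f - 1) = ((S + d : ℕ) : ℤ) * d - S := by
    rw [hN.degD f d hi hf c T, hS]
    push_cast
    rfl
  have h0 : 0 ≤ Finsupp.degree (c.D T (S + d) fun q => q.m f - 1) := by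
    rw [hdeg]
    push_cast
    nlinarith [(Nat.cast_nonneg S : (0 : ℤ) ≤ S), (by exact_mod_cast hd : (1 : ℤ) ≤ d)]
  have hel := (hF.le c.K _ h0).1
  have h := LinearMap.finrank_range_add_finrank_ker
    ((aeval c.η : P3 →ₐ[ℂ] c.K).toLinearMap.domRestrict W')
  rw [LinearMap.range_domRestrict, LinearMap.ker_domRestrict,
    ← Submodule.finrank_map_subtype_eq W', Submodule.map_comap_subtype] at h
  have h1 : finrank ℂ (W'.map (aeval c.η : P3 →ₐ[ℂ] c.K).toLinearMap) ≤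
      finrank ℂ (LL (c.D T (S + d) fun q => q.m f - 1)) := by
    refine Submodule.finrank_mono ?_
    rintro _ ⟨s, hs, rfl⟩
    exact hO.mem f c T _ s _ hT (hle hs) (hv s hs)
  have h2 : finrank ℂ ↥(W' ⊓ LinearMap.ker (aeval c.η : P3 →ₐ[ℂ] c.K).toLinearMap) ≤
      finrank ℂ (hom S) := by
    refine le_trans (Submodule.finrank_mono (t := (hom S).map (LinearMap.mulLeft ℂ f)) ?_)
      (Submodule.finrank_map_le _ _)
    rintro s ⟨hs, hk⟩
    by_cases hs0 : s = 0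
    · rw [hs0]; exact zero_mem _
    obtain ⟨a, rfl⟩ := (c.gen.ker s _ (hle hs)).1 hk
    obtain ⟨-, e', ha⟩ := hD.nz a _ ⟨hs0, _, hle hs⟩ (dvd_mul_left a f)
    have := (hf.mul ha).inj_right (hle hs) hs0
    obtain rfl : e' = S := by omega
    exact ⟨a, ha, rfl⟩
  have h3 := rank_hom S
  rw [hdeg, el] at hel
  have h4 : (finrank ℂ (LL (c.D T (S + d) fun q => q.m f - 1)) : ℤ) + S ≤ (S + d) * d + 1 := by
    push_cast at hel
    omega
  have h5 : finrank ℂ (LL (c.D T (S + d) fun q => q.m f - 1)) + S ≤ (S + d) * d + 1 := by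
    exact_mod_cast h4
  nlinarith

end GPLANE

open GPLANE in
theorem plane_of (hP : St_PROX) (hD : St_DIV) (hC : St_CNT) (hO : St_ORD) (hN : St_NOE)
    (hF : St_CLF) : St_PLANE := fun T T0 hT => by
  refine ⟨hP.chain T T0 hT, hP.two T T0, fun Γ => (hD.deg Γ).1, ?_, ?_, ?_⟩
  · rintro (Γ | p) (Γ' | q) hne
    · have h := hN.le Γ'.rep Γ.rep _ _ T Γ'.2.1 (hD.deg Γ').2 (hD.deg Γ).2
        fun h => hne (congrArg Sum.inl (hD.ndvd _ _ h).symm)
      have h' : ((∑ q ∈ T, q.m Γ.rep * q.m Γ'.rep : ℕ) : ℝ) ≤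
          ((Γ.rep.totalDegree * Γ'.rep.totalDegree : ℕ) : ℝ) := Nat.cast_le.2 h
      push_cast at h'
      rw [← sum_T T T0] at h'
      exact sub_nonneg.2 h'
    · exact hP.pe T T0 Γ q
    · rw [Tree.ip_comm]; exact hP.pe T T0 Γ' p
    · exact hP.ee T T0 p q fun h => hne (congrArg Sum.inr h)
  · intro Γ
    have h := genus hD hC hO hN hF T hT Γ.rep _ Γ.2.1 (hD.deg Γ).1 (hD.deg Γ).2
    have h' : ((∑ q ∈ T, (q.m Γ.rep - 1) * q.m Γ.rep + 3 * Γ.rep.totalDegree : ℕ) : ℝ) ≤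
        ((Γ.rep.totalDegree * Γ.rep.totalDegree + 2 : ℕ) : ℝ) := Nat.cast_le.2 h
    have e : ∑ q : (gTree T T0).T, ((gTree T T0).mu Γ q : ℝ) * ((gTree T T0).mu Γ q - 1) =
        ((∑ q ∈ T, (q.m Γ.rep - 1) * q.m Γ.rep : ℕ) : ℝ) := by
      rw [← sum_T T T0, Nat.cast_sum]
      refine Finset.sum_congr rfl fun q _ => ?_
      change (q.1.m Γ.rep : ℝ) * (q.1.m Γ.rep - 1) = _
      rcases q.1.m Γ.rep with _ | n
      · simp
      · simp [mul_comm]
    rw [e]
    rw [Nat.cast_add] at h'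
    push_cast [-Nat.cast_sum] at h'
    change _ ≤ ((Γ.rep.totalDegree : ℝ) - 1) * (Γ.rep.totalDegree - 2)
    linarith
  · intro d M hM
    classical
    obtain ⟨M', hM'⟩ : ∃ M' : Node → ℕ, ∀ q : T, M' q.1 = M q :=
      ⟨fun q => if h : q ∈ T then M ⟨q, h⟩ else 0, fun q => dif_pos q.2⟩
    obtain ⟨W', hle, hv, hr⟩ := hC T M' d (hom d) hT le_rfl
    rw [rank_hom, ← sum_T T T0] at hr
    simp only [hM'] at hr
    have hne : W' ≠ ⊥ := by
      rintro rfl
      rw [finrank_bot] at hr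
      omega
    obtain ⟨s, hs, h0⟩ := Submodule.exists_mem_ne_zero_of_ne_bot hne
    refine ⟨gdiv T T0 (wv M') s, ?_⟩
    rw [hD.cl T T0 (wv M') M' s d hT h0 (hle hs) fun q hq => ⟨hv s hs h0 q hq, wv_eq M' q⟩]
    exact Prod.ext rfl (funext fun q => congrArg Nat.cast (hM' q))

end Pool.Agent.Lib.MP_a25055_ag
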