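import Pool.Agent.Lib.MP_a25055_ag.Geo

/-! Block PROX: the proximity inequality and the combinatorics of the tree. -/

open MvPolynomial Module
open Pool.Agent.Lib.MP_3c72fe_ag (P2 P3 mult io io0 tr coeff_io0 io_ne_zero degree_two io0_monomial)

noncomputable section

namespace Pool.Agent.Lib.MP_a25055_ag

namespace GPROX

/-- Restriction to the axis `X k = 0`. -/
def ax : Fin 2 → (P2 →ₐ[ℂ] Polynomial ℂ)
  | 0 => aeval ![0, Polynomial.X]
  | 1 => aeval ![Polynomial.X, 0]

lemma dvd_sub_ax0 (s : P2) : X 0 ∣ s - Polynomial.aeval (X 1 : P2) (ax 0 s) := by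
  induction s using MvPolynomial.induction_on with
  | C a => simp [ax]
  | add a b ha hb =>
    have := dvd_add ha hb
    rw [map_add, map_add]
    convert this using 1
    ring
  | mul_X a k ha =>
    rw [map_mul, map_mul]
    fin_cases k
    · simp [ax]
    · have := Dvd.dvd.mul_right ha (X 1)
      convert this using 1
      simp [ax]
      ring

lemma dvd_sub_ax1 (s : P2) : X 1 ∣ s - Polynomial.aeval (X 0 : P2) (ax 1 s) := by
  induction s using MvPolynomial.induction_on with
  | C a => simp [ax]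
  | add a b ha hb =>
    have := dvd_add ha hb
    rw [map_add, map_add]
    convert this using 1
    ring
  | mul_X a k ha =>
    rw [map_mul, map_mul]
    fin_cases k
    · have := Dvd.dvd.mul_right ha (X 0)
      convert this using 1
      simp [ax]
      ring
    · simp [ax]

lemma ax_ne {k : Fin 2} {s : P2} (h : ¬ X k ∣ s) : ax k s ≠ 0 := fun h0 => h (by
  fin_cases k
  · have := dvd_sub_ax0 s
    simp only [Fin.zero_eta] at h0
    simpa [h0] using this
  · have := dvd_sub_ax1 s
    simp only [Fin.mk_one] at h0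
    simpa [h0] using this)

/-- The direction along the axis `X k = 0`. -/
def dir : Fin 2 → Option ℂ
  | 0 => none
  | 1 => some 0

lemma ax_st (k : Fin 2) (s : P2) : ax k (aeval (st (dir k)) s) = ax k s := by
  have : (ax k).comp (aeval (st (dir k))) = ax k := by
    ext j : 1
    fin_cases k <;> fin_cases j <;> simp [ax, st, dir]
  exact AlgHom.congr_fun this s

lemma ax_exI (k : Fin 2) : ax k (X (exI (dir k))) = Polynomial.X := by
  fin_cases k <;> simp [ax, dir, exI]

lemma ex_dir (k : Fin 2) (q : Node) : (Node.step q (dir k)).ex k = q.ex k := by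
  fin_cases k <;> simp [dir, Node.ex]

lemma ex_exI (p : Node) (c : Option ℂ) : (Node.step p c).ex (exI c) = some p := by
  cases c <;> simp [exI, Node.ex]

/-- Intersection number of the strict transform with the axis. -/
def II (g : P3) (k : Fin 2) (q : Node) : ℕ := (ax k (q.str g)).natTrailingDegree

lemma II_step (hV : St_VAL) {g : P3} (hg : NZ g) {k : Fin 2} {q : Node} (hq : q.ex k ≠ none) :
    II g k q = q.m g + II g k (.step q (dir k)) := by
  have h1 := congrArg (ax k) (hV.step q (dir k) g hg)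
  rw [ax_st, map_mul, map_pow, ax_exI] at h1
  have h2 := ax_ne (hV.ndvd (.step q (dir k)) g k hg (by rwa [ex_dir]))
  rw [II, II, h1, Polynomial.natTrailingDegree_mul (pow_ne_zero _ Polynomial.X_ne_zero) h2,
    Polynomial.natTrailingDegree_X_pow]

/-- The nodes along an exceptional curve. -/
def ch (k : Fin 2) (q : Node) : ℕ → Node
  | 0 => q
  | n + 1 => .step (ch k q n) (dir k)

lemma ex_ch (k : Fin 2) (q : Node) (n : ℕ) : (ch k q n).ex k = q.ex k := by
  induction n with
  | zero => rfl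
  | succ n ih => rw [ch, ex_dir, ih]

lemma sum_ch (hV : St_VAL) {g : P3} (hg : NZ g) {k : Fin 2} {q : Node} (hq : q.ex k ≠ none)
    (N : ℕ) : ∑ n ∈ Finset.range N, (ch k q n).m g + II g k (ch k q N) = II g k q := by
  induction N with
  | zero => simp [ch]
  | succ N ih =>
    rw [Finset.sum_range_succ, ← ih, II_step hV hg (q := ch k q N) (by rwa [ex_ch]), ch, add_assoc]

lemma ex_cases {r : Node} {c : Option ℂ} {k : Fin 2} {p : Node}
    (h : (Node.step r c).ex k = some p) : (k = exI c ∧ r = p) ∨ (c = dir k ∧ r.ex k = some p) := by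
  cases c with
  | none =>
    fin_cases k
    · exact Or.inr ⟨rfl, by simpa [Node.ex] using h⟩
    · exact Or.inl ⟨rfl, by simpa [Node.ex] using h⟩
  | some c =>
    fin_cases k
    · exact Or.inl ⟨rfl, by simpa [Node.ex] using h⟩
    · by_cases hc : c = 0
      · subst hc
        exact Or.inr ⟨rfl, by simpa [Node.ex] using h⟩
      · simp [Node.ex, hc] at h

lemma exists_ch {p : Node} {k : Fin 2} : ∀ r : Node, r.ex k = some p →
    ∃ c n, exI c = k ∧ r = ch k (.step p c) n
  | .root _, h => by simp [Node.ex] at h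
  | .step r c, h => by
    rcases ex_cases h with ⟨h1, h2⟩ | ⟨h1, h2⟩
    · exact ⟨c, 0, h1.symm, by rw [h2, ch]⟩
    · obtain ⟨c', n, h3, h4⟩ := exists_ch r h2
      exact ⟨c', n + 1, h3, by rw [ch, ← h4, h1]⟩

/-! The lowest form. -/

lemma io_zero (s : P2) : io 0 s = io0 s := by
  have : tr 0 = AlgHom.id ℂ P2 := by
    ext k : 1
    simp [tr]
  rw [io, this]
  rfl

lemma mult_zero (s : P2) : mult 0 s = (io0 s).natTrailingDegree := by rw [mult, io_zero]

/-- The lowest form, dehomogenised. -/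
def low (s : P2) : Polynomial ℂ := (io0 s).coeff (mult 0 s)

lemma low_ne {s : P2} (hs : s ≠ 0) : low s ≠ 0 := by
  rw [low, mult_zero]
  exact Polynomial.trailingCoeff_nonzero_iff_nonzero.2 (io_zero s ▸ io_ne_zero 0 hs)

lemma natDegree_coeff_io0 (s : P2) (n : ℕ) : ((io0 s).coeff n).natDegree ≤ n := by
  rw [s.as_sum, map_sum, Polynomial.finsetSum_coeff]
  refine Polynomial.natDegree_sum_le_of_forall_le _ _ fun t _ => ?_
  rw [io0_monomial, Polynomial.coeff_monomial]
  split_ifs with h
  · exact (Polynomial.natDegree_monomial_le _).trans (by omega)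
  · simp

/-- Polynomials in `X 0` with coefficients in `ℂ[X 1]`. -/
def ph0 : P2 →ₐ[ℂ] Polynomial (Polynomial ℂ) :=
  aeval ![Polynomial.X, Polynomial.C Polynomial.X]

/-- Polynomials in `X 1` with coefficients in `ℂ[X 0]`. -/
def ph1 : P2 →ₐ[ℂ] Polynomial (Polynomial ℂ) :=
  aeval ![Polynomial.C Polynomial.X, Polynomial.X]

lemma coeff_ph0 (s : P2) : (ph0 s).coeff 0 = ax 0 s := by
  induction s using MvPolynomial.induction_on with
  | C a => simp [ax, ph0]
  | add a b ha hb => simp [ha, hb]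
  | mul_X a k ha =>
    rw [map_mul, map_mul, Polynomial.mul_coeff_zero, ha]
    fin_cases k <;> simp [ax, ph0]

lemma coeff_ph1 (s : P2) : (ph1 s).coeff 0 = ax 1 s := by
  induction s using MvPolynomial.induction_on with
  | C a => simp [ax, ph1]
  | add a b ha hb => simp [ha, hb]
  | mul_X a k ha =>
    rw [map_mul, map_mul, Polynomial.mul_coeff_zero, ha]
    fin_cases k <;> simp [ax, ph1]

lemma ph0_st (c : ℂ) (s : P2) : ph0 (aeval (st (some c)) s) =
    (io0 s).map (Polynomial.compRingHom (Polynomial.X + Polynomial.C c)) := by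
  induction s using MvPolynomial.induction_on with
  | C a => simp [ph0, io0]
  | add a b ha hb => simp only [map_add, ha, hb, Polynomial.map_add]
  | mul_X a k ha =>
    have : ph0 (aeval (st (some c)) (X k : P2)) =
        (io0 (X k)).map (Polynomial.compRingHom (Polynomial.X + Polynomial.C c)) := by
      fin_cases k
      · simp [ph0, io0, st]
      · simp [ph0, io0, st]
        ring
    rw [map_mul, map_mul, map_mul, ha, Polynomial.map_mul, this]

lemma ph1_st (s : P2) : ph1 (aeval (st none) s) = io0 (rename (Equiv.swap 0 1) s) := by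
  have : ph1.comp (aeval (st none)) = io0.comp (rename (Equiv.swap 0 1)) := by
    ext j : 1
    fin_cases j <;> simp [ph1, io0, st]
  exact AlgHom.congr_fun this s

lemma II_some (hV : St_VAL) {g : P3} (hg : NZ g) (p : Node) (c : ℂ) :
    II g 0 (.step p (some c)) = (low (p.str g)).rootMultiplicity c := by
  have h1 := congrArg (fun z => (ph0 z).coeff (p.m g)) (hV.step p (some c) g hg)
  have h2 : ph0 (X (exI (some c))) = Polynomial.X := by simp [ph0, exI]
  simp only [ph0_st, map_mul, map_pow, h2, Polynomial.coeff_map] at h1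
  have h3 := Polynomial.coeff_X_pow_mul (ph0 ((Node.step p (some c)).str g)) (p.m g) 0
  rw [zero_add] at h3
  rw [h3, coeff_ph0] at h1
  rw [II, ← h1, Polynomial.rootMultiplicity_eq_natTrailingDegree]
  rfl

lemma II_none (hV : St_VAL) {g : P3} (hg : NZ g) (p : Node) :
    II g 1 (.step p none) + (low (p.str g)).natDegree ≤ p.m g := by
  have h1 := congrArg (fun z => (ph1 z).coeff (p.m g)) (hV.step p none g hg)
  have h2 : ph1 (X (exI none)) = Polynomial.X := by simp [ph1, exI]
  simp only [ph1_st, map_mul, map_pow, h2] at h1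
  have h3 := Polynomial.coeff_X_pow_mul (ph1 ((Node.step p none).str g)) (p.m g) 0
  rw [zero_add] at h3
  rw [h3, coeff_ph1] at h1
  set d := (low (p.str g)).natDegree with hd
  have hdm : d ≤ p.m g := natDegree_coeff_io0 _ _
  let t : Fin 2 →₀ ℕ := Finsupp.equivFunOnFinite.symm ![p.m g - d, d]
  have ht : t.degree = p.m g := by rw [degree_two]; simp [t]; omega
  have ht' : (t.mapDomain (Equiv.swap 0 1)).degree = p.m g := by
    rw [degree_two, Finsupp.mapDomain_equiv_apply, Finsupp.mapDomain_equiv_apply]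
    simp [t]; omega
  have h4 := coeff_io0 (p.str g) t
  have h5 := coeff_io0 (rename (Equiv.swap 0 1) (p.str g)) (t.mapDomain (Equiv.swap 0 1))
  rw [ht', h1, coeff_rename_mapDomain _ (Equiv.injective _), Finsupp.mapDomain_equiv_apply,
    ← h4, ht] at h5
  have h6 : (low (p.str g)).coeff d ≠ 0 :=
    Polynomial.leadingCoeff_ne_zero.2 (low_ne (hV.ne p g hg).2)
  have h7 : (ax 1 ((Node.step p none).str g)).coeff (p.m g - d) ≠ 0 := by
    have e1 : t ((Equiv.swap (0 : Fin 2) 1).symm 1) = p.m g - d := by simp [t]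
    have e2 : t 1 = d := by simp [t]
    rw [e1, e2] at h5
    rw [h5]
    exact h6
  have := Polynomial.natTrailingDegree_le_of_ne_zero h7
  rw [II]
  omega

lemma sum_root (L : Polynomial ℂ) (S : Finset ℂ) :
    ∑ c ∈ S, L.rootMultiplicity c ≤ L.natDegree := by
  simp only [← Polynomial.count_roots]
  refine le_trans ?_ (Polynomial.card_roots' L)
  rw [← Multiset.toFinset_sum_count_eq]
  refine Finset.sum_le_sum_of_ne_zero fun c _ hc => ?_
  rwa [Multiset.mem_toFinset, ← Multiset.count_ne_zero]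

lemma sum_children (hV : St_VAL) {g : P3} (hg : NZ g) (p : Node) (S : Finset (Option ℂ)) :
    ∑ c ∈ S, II g (exI c) (.step p c) ≤ p.m g := by
  classical
  have h1 : S ⊆ Finset.insertNone (Finset.eraseNone S) := by
    rw [Finset.insertNone_eraseNone]
    exact Finset.subset_insert _ _
  refine (Finset.sum_le_sum_of_subset h1).trans ?_
  rw [Finset.sum_insertNone]
  have h2 := II_none hV hg p
  have h3 := sum_root (low (p.str g)) (Finset.eraseNone S)
  simp only [exI, II_some hV hg]
  omega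

theorem le (hV : St_VAL) (p : Node) (g : P3) (T : Finset Node) (hg : NZ g)
    (hT : ∀ q ∈ T, p ∈ q.prox) : ∑ q ∈ T, q.m g ≤ p.m g := by
  classical
  let F : Option ℂ × ℕ → Node := fun x => ch (exI x.1) (.step p x.1) x.2
  have h1 : (T : Set Node) ⊆ F '' Set.univ := fun q hq => by
    obtain ⟨k, hk⟩ : ∃ k, q.ex k = some p :=
      (Node.mem_prox.1 (hT q hq)).elim (fun h => ⟨0, h⟩) fun h => ⟨1, h⟩
    obtain ⟨c, n, h3, h4⟩ := exists_ch q hk
    exact ⟨(c, n), trivial, by simp only [F, h3, h4.symm]⟩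
  obtain ⟨U, -, hU⟩ := Finset.subset_set_image_iff.1 h1
  have h2 : U ⊆ U.image Prod.fst ×ˢ Finset.range (U.sup Prod.snd + 1) := fun x hx =>
    Finset.mem_product.2 ⟨Finset.mem_image_of_mem _ hx,
      Finset.mem_range.2 (Nat.lt_succ_of_le (Finset.le_sup (f := Prod.snd) hx))⟩
  rw [← hU]
  refine (Finset.sum_image_le_of_nonneg fun _ _ => Nat.zero_le _).trans ?_
  refine (Finset.sum_le_sum_of_subset h2).trans ?_
  rw [Finset.sum_product]
  refine le_trans (Finset.sum_le_sum fun c _ => ?_) (sum_children hV hg p _)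
  have := sum_ch hV hg (k := exI c) (q := .step p c) (by simp [ex_exI]) (U.sup Prod.snd + 1)
  simp only [F]
  omega

theorem par (p : Node) (c : Option ℂ) : p ∈ (Node.step p c).prox ∧
    ∀ p' ∈ (Node.step p c).prox, p' = p ∨ p' ∈ p.prox := by
  refine ⟨Node.mem_prox.2 (by cases c <;> simp [Node.ex]), fun p' h => ?_⟩
  rcases Node.mem_prox.1 h with h | h
  · exact (ex_cases h).imp (fun h => h.2.symm) fun h => Node.mem_prox.2 (Or.inl h.2)
  · exact (ex_cases h).imp (fun h => h.2.symm) fun h => Node.mem_prox.2 (Or.inr h.2)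

/-- The ancestors of a node. -/
def anc : Node → Finset Node
  | .root r => {.root r}
  | .step p c => insert (.step p c) (anc p)

lemma mem_anc (q : Node) : q ∈ anc q := by cases q <;> simp [anc]

lemma prox_root (r : Rt) : (Node.root r).prox = ∅ := by simp [Node.prox, Node.ex]

lemma cls_anc : ∀ q : Node, Cls (anc q)
  | .root r => fun q hq => by
    rw [anc, Finset.mem_singleton] at hq
    simp [hq, prox_root]
  | .step p c => fun q hq => by
    rw [anc] at hq ⊢
    refine Finset.Subset.trans ?_ (Finset.subset_insert _ _)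
    rcases Finset.mem_insert.1 hq with rfl | hq
    · intro p' hp'
      rcases (par p c).2 p' hp' with rfl | h
      · exact mem_anc _
      · exact cls_anc p p (mem_anc p) h
    · exact cls_anc p q hq

theorem cls (T : Finset Node) : ∃ T', T ⊆ T' ∧ Cls T' := by
  refine ⟨T.biUnion anc, fun q hq => Finset.mem_biUnion.2 ⟨q, hq, mem_anc q⟩, fun q hq => ?_⟩
  obtain ⟨r, hr, hq⟩ := Finset.mem_biUnion.1 hq
  exact (cls_anc r q hq).trans (Finset.subset_biUnion_of_mem _ hr)

lemma mem_gprox {T T0 : Finset Node} {p q : T} :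
    p ∈ (gTree T T0).prox q ↔ p.1 ∈ q.1.prox :=
  Finset.mem_filter.trans (and_iff_right (Finset.mem_univ _))

theorem chain (T T0 : Finset Node) (hT : Cls T) (q : (gTree T T0).T)
    (h : ((gTree T T0).prox q).Nonempty) :
    ∃ p ∈ (gTree T T0).prox q, ∀ p' ∈ (gTree T T0).prox q, p' = p ∨ p' ∈ (gTree T T0).prox p := by
  obtain ⟨q, hq⟩ := q
  obtain ⟨p0, hp0⟩ := h
  cases q with
  | root r =>
    have := mem_gprox.1 hp0
    simp [prox_root] at this
  | step p c =>
    refine ⟨⟨p, hT _ hq (par p c).1⟩, mem_gprox.2 (par p c).1, fun p' hp' => ?_⟩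
    exact ((par p c).2 _ (mem_gprox.1 hp')).imp (fun h => Subtype.ext h) fun h => mem_gprox.2 h

theorem two (T T0 : Finset Node) (q : (gTree T T0).T) : ((gTree T T0).prox q).card ≤ 2 := by
  have h1 : ∀ o : Option Node, o.toFinset.card ≤ 1 := fun o => by cases o <;> simp
  have h2 : q.1.prox.card ≤ 2 :=
    (Finset.card_union_le _ _).trans (add_le_add (h1 _) (h1 _))
  exact le_trans (Finset.card_le_card_of_injOn (fun p => p.1)
    (fun p hp => mem_gprox.1 hp) fun _ _ _ _ h => Subtype.ext h) h2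

theorem sum (T T0 : Finset Node) (hT : Cls T) (q : T) (w : Node → ℝ) :
    ∑ p ∈ (gTree T T0).prox q, w p.1 = ∑ p ∈ q.1.prox, w p :=
  Finset.sum_bij (fun p _ => p.1) (fun _ hp => mem_gprox.1 hp) (fun _ _ _ _ h => Subtype.ext h)
    (fun p hp => ⟨⟨p, hT _ q.2 hp⟩, mem_gprox.2 hp, rfl⟩) fun _ _ => rfl

lemma ex_ne {q p : Node} (h0 : q.ex 0 = some p) (h1 : q.ex 1 = some p) : False := by
  cases q with
  | root r => simp [Node.ex] at h0
  | step r c =>
    rcases ex_cases h0 with ⟨a0, b0⟩ | ⟨a0, b0⟩ <;> rcases ex_cases h1 with ⟨a1, b1⟩ | ⟨a1, b1⟩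
    · exact absurd (a0.trans a1.symm) (by decide)
    · exact absurd (Node.ex_dep _ _ _ b1) (by simp [b0])
    · exact absurd (Node.ex_dep _ _ _ b0) (by simp [b1])
    · rw [a0] at a1
      simp [dir] at a1

lemma both {p q r : Node} (hne : p ≠ q) (hp : p ∈ r.prox) (hq : q ∈ r.prox) :
    (∃ k, q.ex k = some p ∧ r = .step q (dir k)) ∨ ∃ k, p.ex k = some q ∧ r = .step p (dir k) := by
  obtain ⟨k, hk⟩ : ∃ k, r.ex k = some p :=
    (Node.mem_prox.1 hp).elim (fun h => ⟨0, h⟩) fun h => ⟨1, h⟩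
  obtain ⟨l, hl⟩ : ∃ k, r.ex k = some q :=
    (Node.mem_prox.1 hq).elim (fun h => ⟨0, h⟩) fun h => ⟨1, h⟩
  cases r with
  | root r => simp [Node.ex] at hk
  | step r c =>
    rcases ex_cases hk with ⟨a0, b0⟩ | ⟨a0, b0⟩ <;> rcases ex_cases hl with ⟨a1, b1⟩ | ⟨a1, b1⟩
    · exact absurd (b0.symm.trans b1) hne
    · exact Or.inr ⟨l, b0 ▸ b1, by rw [b0, a1]⟩
    · exact Or.inl ⟨k, b1 ▸ b0, by rw [b1, a0]⟩
    · have : k = l := by
        rw [a0] at a1
        fin_cases k <;> fin_cases l <;> simp_all [dir]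
      subst this
      exact absurd (Option.some.inj (b0.symm.trans b1)) hne

lemma both_uniq {p q r r' : Node} (hne : p ≠ q) (hp : p ∈ r.prox) (hq : q ∈ r.prox)
    (hp' : p ∈ r'.prox) (hq' : q ∈ r'.prox) : r = r' := by
  have key : ∀ {a b : Node} {k l : Fin 2}, a.ex k = some b → a.ex l = some b → k = l := by
    intro a b k l h1 h2
    fin_cases k <;> fin_cases l
    · rfl
    · exact (ex_ne h1 h2).elim
    · exact (ex_ne h2 h1).elim
    · rfl
  rcases both hne hp hq with ⟨k, h1, rfl⟩ | ⟨k, h1, rfl⟩ <;>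
    rcases both hne hp' hq' with ⟨l, h2, rfl⟩ | ⟨l, h2, rfl⟩
  · rw [key h1 h2]
  · exact absurd (Node.ex_dep _ _ _ h1) (Node.ex_dep _ _ _ h2).not_gt
  · exact absurd (Node.ex_dep _ _ _ h1) (Node.ex_dep _ _ _ h2).not_gt
  · rw [key h1 h2]

lemma tree_ee (Y : Tree) (p q : Y.T) (hne : p ≠ q)
    (h1 : ∀ r, p ∈ Y.prox r → q ∈ Y.prox r → p ∈ Y.prox q ∨ q ∈ Y.prox p)
    (h2 : ∀ r r', p ∈ Y.prox r → q ∈ Y.prox r → p ∈ Y.prox r' → q ∈ Y.prox r' → r = r') :
    0 ≤ Y.ip (Y.gam (.inr p)) (Y.gam (.inr q)) := by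
  have e : ∀ r, ((if p ∈ Y.prox r then 1 else 0) - if r = p then 1 else 0 : ℝ) *
      ((if q ∈ Y.prox r then 1 else 0) - if r = q then 1 else 0) =
      (if p ∈ Y.prox r ∧ q ∈ Y.prox r then 1 else 0) -
        (if r = q then (if p ∈ Y.prox r then 1 else 0) else 0) -
        if r = p then (if q ∈ Y.prox r then 1 else 0) else 0 := fun r => by
    by_cases a : r = p <;> by_cases b : r = q
    · exact absurd (a.symm.trans b) hne
    all_goals by_cases c : p ∈ Y.prox r <;> by_cases d : q ∈ Y.prox r <;> simp [a, b, c, d, hne.symm] <;> simp_all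
  simp only [Tree.ip, Tree.gam, e, Finset.sum_sub_distrib, Finset.sum_ite_eq', Finset.mem_univ,
    if_true, mul_zero, Finset.sum_boole]
  have h3 : (Finset.univ.filter fun r => p ∈ Y.prox r ∧ q ∈ Y.prox r).card ≤ 1 :=
    Finset.card_le_one.2 fun r hr r' hr' => by
      simp only [Finset.mem_filter, Finset.mem_univ, true_and] at hr hr'
      exact h2 r r' hr.1 hr.2 hr'.1 hr'.2
  have h4 : ((Finset.univ.filter fun r => p ∈ Y.prox r ∧ q ∈ Y.prox r).card : ℝ) ≤ 1 := by
    exact_mod_cast h3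
  by_cases h : p ∈ Y.prox q ∨ q ∈ Y.prox p
  · split_ifs with a b b
    · linarith
    · linarith
    · linarith
    · tauto
  · have h5 : (Finset.univ.filter fun r => p ∈ Y.prox r ∧ q ∈ Y.prox r) = ∅ :=
      Finset.filter_eq_empty_iff.2 fun r _ hr => h (h1 r hr.1 hr.2)
    rw [h5]
    split_ifs <;> simp

theorem ee (T T0 : Finset Node) (p q : T) (hne : p ≠ q) :
    0 ≤ (gTree T T0).ip ((gTree T T0).gam (.inr p)) ((gTree T T0).gam (.inr q)) := by
  have hne' : p.1 ≠ q.1 := fun h => hne (Subtype.ext h)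
  refine tree_ee (gTree T T0) p q hne (fun r hp hq => ?_) fun r r' hp hq hp' hq' => ?_
  · rcases both hne' (mem_gprox.1 hp) (mem_gprox.1 hq) with ⟨k, h, -⟩ | ⟨k, h, -⟩
    · refine Or.inl (mem_gprox.2 (Node.mem_prox.2 ?_))
      fin_cases k
      · exact Or.inl h
      · exact Or.inr h
    · refine Or.inr (mem_gprox.2 (Node.mem_prox.2 ?_))
      fin_cases k
      · exact Or.inl h
      · exact Or.inr h
  · exact Subtype.ext (both_uniq hne' (mem_gprox.1 hp) (mem_gprox.1 hq) (mem_gprox.1 hp')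
      (mem_gprox.1 hq'))

lemma tree_pe (Y : Tree) (Γ : Y.Pl) (q : Y.T)
    (h : ∑ r ∈ Finset.univ.filter (fun r => q ∈ Y.prox r), Y.mu Γ r ≤ Y.mu Γ q) :
    0 ≤ Y.ip (Y.gam (.inl Γ)) (Y.gam (.inr q)) := by
  have h1 : ∑ r ∈ Finset.univ.filter (fun r => q ∈ Y.prox r), (Y.mu Γ r : ℝ) ≤ Y.mu Γ q := by
    exact_mod_cast h
  rw [Finset.sum_filter] at h1
  simp only [Tree.ip, Tree.gam, mul_sub, Finset.sum_sub_distrib, mul_ite, mul_one, mul_zero,
    Finset.sum_ite_eq', Finset.mem_univ, if_true]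
  linarith

theorem pe (hV : St_VAL) (T T0 : Finset Node) (Γ : PlC) (q : T) :
    0 ≤ (gTree T T0).ip ((gTree T T0).gam (.inl Γ)) ((gTree T T0).gam (.inr q)) := by
  refine tree_pe (gTree T T0) Γ q ?_
  have := le hV q.1 Γ.rep ((Finset.univ.filter fun r : (gTree T T0).T =>
    q ∈ (gTree T T0).prox r).map (Function.Embedding.subtype _)) Γ.2.2 fun r hr => by
      obtain ⟨r', hr', rfl⟩ := Finset.mem_map.1 hr
      exact mem_gprox.1 (Finset.mem_filter.1 hr').2
  rw [Finset.sum_map] at this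
  exact this

end GPROX

theorem prox_of (hV : St_VAL) : St_PROX :=
  ⟨GPROX.le hV, GPROX.par, GPROX.cls, GPROX.chain, GPROX.two, GPROX.sum, GPROX.ee, GPROX.pe hV⟩

end Pool.Agent.Lib.MP_a25055_ag
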