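import Pool.Agent.Lib.MP_a25055_ag.Geo

/-! The Riemann-Roch and Clifford bound for systems of forms. -/

open MvPolynomial Module
open Pool.Agent.Lib.MP_3c72fe_ag (P2 P3)

noncomputable section

namespace Pool.Agent.Lib.MP_a25055_ag

namespace GRRG

lemma sq_eq (T T0 : Finset Node) (e : ℕ) (M : Node → ℕ) :
    (gTree T T0).sq (gcl T T0 e M) = (e : ℝ) * e - ∑ q ∈ T, (M q : ℝ) * M q := by
  rw [← Finset.sum_coe_sort T]
  rfl

lemma ak_eq (T T0 : Finset Node) (e : ℕ) (M : Node → ℕ) :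
    (gTree T T0).ip (gcl T T0 e M) (gTree T T0).aK = (e : ℝ) * 3 - ∑ q ∈ T, (M q : ℝ) * 1 := by
  rw [← Finset.sum_coe_sort T]
  rfl

lemma sq_mono {T T' : Finset Node} (T0 : Finset Node) (h : T ⊆ T') (e : ℕ) (M : Node → ℕ) :
    (gTree T' T0).sq (gcl T' T0 e M) ≤ (gTree T T0).sq (gcl T T0 e M) := by
  rw [sq_eq, sq_eq]
  have := Finset.sum_le_sum_of_subset_of_nonneg (f := fun q => (M q : ℝ) * M q) h
    fun _ _ _ => by positivity
  linarith

lemma ak_mono {T T' : Finset Node} (T0 : Finset Node) (h : T ⊆ T') (e : ℕ) (M : Node → ℕ) :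
    (gTree T' T0).ip (gcl T' T0 e M) (gTree T' T0).aK ≤
      (gTree T T0).ip (gcl T T0 e M) (gTree T T0).aK := by
  rw [ak_eq, ak_eq]
  have := Finset.sum_le_sum_of_subset_of_nonneg (f := fun q => (M q : ℝ) * 1) h
    fun _ _ _ => by positivity
  linarith

lemma rank_zero {W : Submodule ℂ P3} (h : W ≤ hom 0) : finrank ℂ W ≤ 1 := by
  have h1 : W ≤ Submodule.span ℂ {(1 : P3)} := fun s hs => by
    have h2 : s.IsHomogeneous 0 := h hs
    have h3 : s = C (coeff 0 s) :=
      totalDegree_eq_zero_iff_eq_C.1 (Nat.eq_zero_of_le_zero h2.totalDegree_le)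
    rw [Submodule.mem_span_singleton]
    exact ⟨coeff 0 s, by rw [smul_eq_C_mul, mul_one]; exact h3.symm⟩
  exact (Submodule.finrank_mono h1).trans (finrank_span_singleton one_ne_zero).le

end GRRG

open GRRG

theorem rrg_of (hA : St_NA) (hL : St_LOW) (hD : St_DIV) (hS : St_SYS) (hV : St_VG) (hI : St_IRR)
    (hG : St_G1P) (hC : St_COLG) : St_RRG := by
  intro T T0 k W h hT h0 hW hDP U hU
  have hle : (U.map W.subtype : Submodule ℂ P3) ≤ hom (3 * k) :=
    (Submodule.map_subtype_le W U).trans hW.1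
  have hne : (U.map W.subtype : Submodule ℂ P3) ≠ ⊥ := fun h1 =>
    hU (Submodule.map_injective_of_injective W.injective_subtype
      (h1.trans (Submodule.map_bot _).symm))
  obtain ⟨g, W', e, hd⟩ := hS.dec _ _ hle hne
  have hr : finrank ℂ U = finrank ℂ W' := by
    have h1 := (hS.bir _ _ _ _ hd).2 1
    rw [pow_one, pow_one] at h1
    rw [← h1]
    exact (Submodule.finrank_map_subtype_eq W U).symm
  obtain ⟨T', hTT, hT', hR⟩ := hS.res T Unit (fun _ => W') (fun _ => e) fun _ => hd.mob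
  have hR' : Res T' W' := hR ()
  have h' : SecAx T' T0 k W := hD.sec T' T0 k W hT' hW
  have hDP' := hDP T' hT' (h0.trans hTT)
  rw [hS.mov T T0 k W h U g W' e hT hW hd]
  have hnef := hS.nef T' T0 W' e hT' hd.mob
  have hsq := (hA.nef _ hDP'.toPlane _ hnef).2.2
  rcases hsq.lt_or_eq with hpos | hz
  · have h1 := hG T' T0 W' e hT' hd.mob hR' hpos
    refine le_max_of_le_right ?_
    have h2 := sq_mono T0 hTT e (MW W')
    have h3 := ak_mono T0 hTT e (MW W')
    have h4 : max (2 : ℝ) (1 + (gTree T' T0).ip (gcl T' T0 e (MW W')) (gTree T' T0).aK / 2) ≤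
        max 2 (1 + (gTree T T0).ip (gcl T T0 e (MW W')) (gTree T T0).aK / 2) :=
      max_le_max le_rfl (by linarith)
    have h5 : (finrank ℂ U : ℝ) = finrank ℂ W' := by exact_mod_cast hr
    rw [h5]
    linarith
  · refine le_max_of_le_left ?_
    have key : finrank ℂ U ≤ 3 * k + 1 := by
      rcases Nat.eq_zero_or_pos e with rfl | he
      · have := rank_zero hd.mob.le
        omega
      · obtain ⟨F, hF⟩ := hV T' W' e 1 hT' hd.mob hR' one_ne_zero
        obtain ⟨Γ, h1, h2⟩ := (hI T' T0 W' e 1 F hT' hd.mob hF).2 hz.symm he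
        refine hL.pen _ hDP' k (gSec h') U Γ (hC T' T0 k W h' hT' hW) hU ?_ h2
        rw [hS.mov T' T0 k W h' U g W' e hT' hW hd]
        exact h1
    exact_mod_cast key

end Pool.Agent.Lib.MP_a25055_ag
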