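import Pool.Agent.Lib.MP_a25055_ag.Geo

/-! Linear systems of plane curves: fixed part, nefness, base points. -/

open MvPolynomial Module
open Pool.Agent.Lib.MP_3c72fe_ag (P2 P3 mult)

noncomputable section

namespace Pool.Agent.Lib.MP_a25055_ag

namespace GSYS

lemma att (W : Submodule ℂ P3) (q : Node) (h : W ≠ ⊥) :
    (∃ s ∈ W, s ≠ 0 ∧ q.v s = vW W q) ∧ ∀ s ∈ W, s ≠ 0 → vW W q ≤ q.v s := by
  refine ⟨?_, fun s hs h0 => Nat.sInf_le ⟨s, hs, h0, rfl⟩⟩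
  obtain ⟨s, hs, h0⟩ := Submodule.exists_mem_ne_zero_of_ne_bot h
  obtain ⟨t, ht, h1, h2⟩ :=
    Nat.sInf_mem (s := {n | ∃ s ∈ W, s ≠ 0 ∧ n = q.v s}) ⟨_, s, hs, h0, rfl⟩
  exact ⟨t, ht, h1, h2.symm⟩

lemma nz_of {W : Submodule ℂ P3} {e : ℕ} (hW : W ≤ hom e) {s : P3} (hs : s ∈ W) (h0 : s ≠ 0) :
    NZ s := ⟨h0, e, hW hs⟩

lemma rel1 (hV : St_VAL) (W : Submodule ℂ P3) (e : ℕ) (q : Node) (hW : W ≤ hom e) (h : W ≠ ⊥) :
    vW W q = MW W q + ∑ p ∈ q.prox, vW W p := by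
  obtain ⟨s, hs, h0, h1⟩ := (att W q h).1
  have h2 := hV.vm q s (nz_of hW hs h0)
  have h3 : ∑ p ∈ q.prox, vW W p ≤ ∑ p ∈ q.prox, p.v s :=
    Finset.sum_le_sum fun p _ => (att W p h).2 s hs h0
  unfold MW
  omega

lemma rel2 (hV : St_VAL) (W : Submodule ℂ P3) (e : ℕ) (hW : W ≤ hom e) (h : W ≠ ⊥) :
    ∀ (n : ℕ) (q : Node), q.dep < n → wv (MW W) q = vW W q := by
  intro n
  induction n with
  | zero => intro q hq; omega
  | succ n ih =>
    intro q hq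
    rw [wv_eq, rel1 hV W e q hW h]
    congr 1
    exact Finset.sum_congr rfl fun p hp => ih p (by have := Node.prox_dep hp; omega)

lemma nz_mul {f g : P3} (hf : NZ f) (hg : NZ g) : NZ (f * g) := by
  obtain ⟨h1, d, h2⟩ := hf
  obtain ⟨h3, e, h4⟩ := hg
  exact ⟨mul_ne_zero h1 h3, d + e, h2.mul h4⟩

lemma dec (hD : St_DIV) : ∀ (n e : ℕ) (W : Submodule ℂ P3), e < n → W ≤ hom e → W ≠ ⊥ →
    ∃ g W' e', Dec W g W' e' := by
  intro n
  induction n with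
  | zero => intro e W h; omega
  | succ n ih =>
    intro e W he hW h
    by_cases hf : ∀ f : P3, Irreducible f → ∃ s ∈ W, ¬ f ∣ s
    · refine ⟨1, W, e, ⟨one_ne_zero, 0, isHomogeneous_one _ _⟩, ⟨hW, h, hf⟩, ?_⟩
      rw [LinearMap.mulLeft_one, Submodule.map_id]
    push Not at hf
    obtain ⟨f, hf, hfd⟩ := hf
    obtain ⟨s0, hs0, h0⟩ := Submodule.exists_mem_ne_zero_of_ne_bot h
    have hfz : NZ f := hD.nz f s0 (nz_of hW hs0 h0) (hfd s0 hs0)
    obtain ⟨hf0, d, hd⟩ := id hfz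
    have hd1 : 1 ≤ d := by
      by_contra hc
      have hd0 : d = 0 := by omega
      subst hd0
      have h1 : f.totalDegree = 0 := hd.totalDegree hf0
      rw [totalDegree_eq_zero_iff_eq_C] at h1
      apply hf.not_isUnit
      rw [h1]
      refine (IsUnit.mk0 _ ?_).map C
      intro h2
      rw [h2, map_zero] at h1
      exact hf0 h1
    set W1 : Submodule ℂ P3 := W.comap (LinearMap.mulLeft ℂ f) with hW1
    have key : ∀ w ∈ W1, w ≠ 0 → ∃ d', w.IsHomogeneous d' ∧ d + d' = e := by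
      intro w hw hw0
      have hfw : f * w ∈ W := hw
      have hne : f * w ≠ 0 := mul_ne_zero hf0 hw0
      obtain ⟨-, d', hd'⟩ := hD.nz w (f * w) (nz_of hW hfw hne) (Dvd.intro_left _ rfl)
      exact ⟨d', hd', (hd.mul hd').inj_right (hW hfw) hne⟩
    obtain ⟨w0, hw0⟩ := hfd s0 hs0
    have hw0W : w0 ∈ W1 := by
      show f * w0 ∈ W
      rw [← hw0]; exact hs0
    have hw00 : w0 ≠ 0 := by
      rintro rfl
      exact h0 (by rw [hw0, mul_zero])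
    obtain ⟨d0, -, hd0⟩ := key w0 hw0W hw00
    have hle : W1 ≤ hom d0 := by
      intro w hw
      by_cases hw1 : w = 0
      · rw [hw1]; exact zero_mem _
      obtain ⟨d', h1, h2⟩ := key w hw hw1
      have : d' = d0 := by omega
      subst this
      exact h1
    have hne : W1 ≠ ⊥ := fun hb => hw00 (by rw [hb] at hw0W; exact (Submodule.mem_bot ℂ).1 hw0W)
    obtain ⟨g, W', e', h1, h2, h3⟩ := ih d0 W1 (by omega) hle hne
    refine ⟨f * g, W', e', nz_mul hfz h1, h2, ?_⟩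
    rw [LinearMap.mulLeft_mul, Submodule.map_comp, ← h3]
    apply le_antisymm
    · intro s hs
      obtain ⟨w, hw⟩ := hfd s hs
      refine ⟨w, ?_, hw.symm⟩
      show f * w ∈ W
      rw [← hw]; exact hs
    · exact Submodule.map_comap_le _ _

lemma bir1 {W : Submodule ℂ P3} {g : P3} {W' : Submodule ℂ P3} {e : ℕ} (h : Dec W g W' e)
    (hb : Bir W) : Bir W' := by
  obtain ⟨Θ, hΘ, hX⟩ := hb
  have hg : g ≠ 0 := h.nz.1
  have hw : ∀ i, ∃ w ∈ W', g * w = Θ * X i := fun i => by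
    have := hX i
    rw [h.eq] at this
    obtain ⟨w, hw, h1⟩ := this
    exact ⟨w, hw, h1⟩
  choose w hw1 hw2 using hw
  have h1 : w 0 * X 1 = X 0 * w 1 := by
    apply mul_left_cancel₀ hg
    rw [← mul_assoc, hw2, mul_left_comm, hw2]; ring
  have h2 : (X 0 : P3) ∣ w 0 := by
    refine ((X_prime (i := (0 : Fin 3)) (R := ℂ)).dvd_or_dvd (a := w 0) (b := X 1)
      ⟨_, h1⟩).resolve_right ?_
    rw [X_dvd_X]; decide
  obtain ⟨θ, hθ⟩ := h2
  have h3 : Θ = g * θ := by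
    apply mul_right_cancel₀ (X_ne_zero (R := ℂ) (0 : Fin 3))
    rw [← hw2, hθ]; ring
  refine ⟨θ, fun h4 => hΘ (by rw [h3, h4, mul_zero]), fun i => ?_⟩
  have h5 : θ * X i = w i := by
    apply mul_left_cancel₀ hg
    rw [hw2, h3, mul_assoc]
  rw [h5]; exact hw1 i

lemma map_eq (A : Submodule ℂ P3) (g : P3) :
    A.map (LinearMap.mulLeft ℂ g) = Submodule.span ℂ {g} * A := by
  ext x
  rw [Submodule.mem_span_singleton_mul, Submodule.mem_map]
  rfl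

lemma bir2 {W : Submodule ℂ P3} {g : P3} {W' : Submodule ℂ P3} {e : ℕ} (h : Dec W g W' e)
    (n : ℕ) : finrank ℂ ↥(W ^ n) = finrank ℂ ↥(W' ^ n) := by
  have h1 : W ^ n = (W' ^ n).map (LinearMap.mulLeft ℂ (g ^ n)) := by
    rw [h.eq, map_eq, map_eq, mul_pow, Submodule.span_pow, Set.singleton_pow]
  rw [h1]
  exact (Submodule.equivMapOfInjective _
    (fun a b hab => mul_left_cancel₀ (pow_ne_zero n h.nz.1) hab) _).finrank_eq.symm

lemma cl_mem (hV : St_VAL) (hD : St_DIV) (T T0 : Finset Node) {W : Submodule ℂ P3} {e : ℕ}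
    (hT : Cls T) (hW : Mob W e) {s : P3} (hs : s ∈ W) (h0 : s ≠ 0) :
    (gTree T T0).cl (toR (gdiv T T0 (vW W) s)) = gcl T T0 e (MW W) :=
  hD.cl T T0 _ _ s e hT h0 (hW.le hs) fun q _ =>
    ⟨(att W q hW.ne).2 s hs h0, rel1 hV W e q hW.le hW.ne⟩

lemma nef (hV : St_VAL) (hD : St_DIV) (hP : St_PLANE) (T T0 : Finset Node) (W : Submodule ℂ P3)
    (e : ℕ) (hT : Cls T) (hW : Mob W e) : (gTree T T0).Nef (gcl T T0 e (MW W)) := by
  intro i
  have : ∃ s ∈ W, s ≠ 0 ∧ gdiv T T0 (vW W) s i = 0 := by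
    rcases i with Γ | q
    · obtain ⟨s, hs, h1⟩ := hW.nofix Γ.rep Γ.2.1
      have h0 : s ≠ 0 := by
        rintro rfl
        exact h1 (dvd_zero _)
      exact ⟨s, hs, h0, by rw [(hD.app T T0 _ s h0).1, multiplicity_eq_zero]; exact h1⟩
    · obtain ⟨s, hs, h0, h1⟩ := (att W q.1 hW.ne).1
      exact ⟨s, hs, h0, by rw [(hD.app T T0 _ s h0).2, h1, Nat.sub_self]⟩
  obtain ⟨s, hs, h0, h1⟩ := this
  rw [← cl_mem hV hD T T0 hT hW hs h0]
  refine (hP T T0 hT).cl_ip (fun j => ?_) (by simp [h1])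
  simp

lemma fin_base (hA : St_NA) (hV : St_VAL) (hX : St_PROX) (hD : St_DIV) (hP : St_PLANE)
    (W : Submodule ℂ P3) (e : ℕ) (hW : Mob W e) : {q | MW W q ≠ 0}.Finite := by
  by_contra hinf
  obtain ⟨S, hS, hc⟩ := Set.Infinite.exists_subset_card_eq hinf (e ^ 2 + 1)
  obtain ⟨T, hST, hT⟩ := hX.cls S
  have h1 := (hA.nef _ (hP T ∅ hT) _ (nef hV hD hP T ∅ W e hT hW)).2.2
  have h2 : (gTree T ∅).sq (gcl T ∅ e (MW W)) =
      (e : ℝ) * e - ∑ q ∈ T, (MW W q : ℝ) * MW W q := by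
    rw [← Finset.sum_coe_sort T]; rfl
  have h3 : (S.card : ℝ) ≤ ∑ q ∈ T, (MW W q : ℝ) * MW W q := by
    calc (S.card : ℝ) = ∑ q ∈ S, (1 : ℝ) := by simp
      _ ≤ ∑ q ∈ S, (MW W q : ℝ) * MW W q := Finset.sum_le_sum fun q hq => by
          have h4 : 1 ≤ MW W q := Nat.one_le_iff_ne_zero.2 (hS hq)
          have h5 : (1 : ℝ) ≤ MW W q := by exact_mod_cast h4
          nlinarith
      _ ≤ _ := Finset.sum_le_sum_of_subset_of_nonneg hST fun q _ _ => by positivity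
  rw [hc] at h3
  push_cast at h3
  nlinarith

lemma res (hA : St_NA) (hV : St_VAL) (hX : St_PROX) (hD : St_DIV) (hP : St_PLANE)
    (T : Finset Node) (ι : Type) [Fintype ι] (W : ι → Submodule ℂ P3) (e : ι → ℕ)
    (hW : ∀ i, Mob (W i) (e i)) : ∃ T', T ⊆ T' ∧ Cls T' ∧ ∀ i, Res T' (W i) := by
  obtain ⟨T', h1, h2⟩ := hX.cls (T ∪ Finset.univ.biUnion fun i =>
    (fin_base hA hV hX hD hP (W i) (e i) (hW i)).toFinset)
  refine ⟨T', Finset.subset_union_left.trans h1, h2, fun i q hq => ?_⟩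
  by_contra hc
  refine hq (h1 (Finset.mem_union_right _ (Finset.mem_biUnion.2 ⟨i, Finset.mem_univ _, ?_⟩)))
  exact (Set.Finite.mem_toFinset _).2 hc

lemma mult_mul (Γ : PlC) {a b : P3} (ha : a ≠ 0) (hb : b ≠ 0) :
    multiplicity Γ.rep (a * b) = multiplicity Γ.rep a + multiplicity Γ.rep b :=
  multiplicity_mul Γ.2.1.prime (FiniteMultiplicity.of_prime_left Γ.2.1.prime (mul_ne_zero ha hb))

lemma mov (hV : St_VAL) (hD : St_DIV) (T T0 : Finset Node) (k : ℕ) (W : Submodule ℂ P3)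
    (h : SecAx T T0 k W) (U : Submodule ℂ W) (g : P3) (W' : Submodule ℂ P3) (e : ℕ) (hT : Cls T)
    (hA : Adm T0 k W) (hd : Dec (U.map W.subtype) g W' e) :
    (gSec h).mov U = gcl T T0 e (MW W') := by
  have hg : g ≠ 0 := hd.nz.1
  have up : ∀ s ∈ W', s ≠ 0 → ∃ u : W, u ∈ U ∧ u ≠ 0 ∧ u.1 = g * s := by
    intro s hs h0
    have : g * s ∈ U.map W.subtype := by rw [hd.eq]; exact ⟨s, hs, rfl⟩
    obtain ⟨u, hu, h1⟩ := this
    refine ⟨u, hu, fun h2 => mul_ne_zero hg h0 ?_, h1⟩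
    rw [← h1, h2]; rfl
  have down : ∀ u : W, u ∈ U → u ≠ 0 → ∃ s ∈ W', s ≠ 0 ∧ u.1 = g * s := by
    intro u hu h0
    have : u.1 ∈ W'.map (LinearMap.mulLeft ℂ g) := by rw [← hd.eq]; exact ⟨u, hu, rfl⟩
    obtain ⟨s, hs, h1⟩ := this
    refine ⟨s, hs, fun h2 => h0 (Subtype.ext ?_), h1.symm⟩
    rw [← h1, h2]; simp
  have ordl : ∀ (u : W) (s : P3), s ≠ 0 → u.1 = g * s → ∀ Γ : PlC,
      (gSec h).ord u (.inl Γ) = multiplicity Γ.rep g + multiplicity Γ.rep s := by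
    intro u s h0 h1 Γ
    show gdiv T T0 _ u.1 (.inl Γ) = _
    rw [h1, (hD.app T T0 _ _ (mul_ne_zero hg h0)).1, mult_mul Γ hg h0]
  have ordr : ∀ (u : W) (s : P3), s ∈ W' → s ≠ 0 → u.1 = g * s → ∀ q : T,
      (gSec h).ord u (.inr q) = q.1.v g + q.1.v s - k * wv (ind T0) q.1 ∧
        k * wv (ind T0) q.1 ≤ q.1.v g + q.1.v s := by
    intro u s hs h0 h1 q
    have h2 := (hV.mul q.1 g s hd.nz (nz_of hd.mob.le hs h0)).2.2
    refine ⟨?_, ?_⟩
    · show gdiv T T0 _ u.1 (.inr q) = _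
      rw [h1, (hD.app T T0 _ _ (mul_ne_zero hg h0)).2, h2]
    · rw [← h2, ← h1]
      exact hA.2 u.1 u.2 (by rw [h1]; exact mul_ne_zero hg h0) q.1
  obtain ⟨s0, hs0, h0⟩ := Submodule.exists_mem_ne_zero_of_ne_bot hd.mob.ne
  obtain ⟨u0, hu0, hu1, hu2⟩ := up s0 hs0 h0
  have hU : U ≠ ⊥ := fun hb => hu1 (by rw [hb] at hu0; exact (Submodule.mem_bot ℂ).1 hu0)
  have key : ∀ i, (gSec h).ord u0 i = (gSec h).base U i + gdiv T T0 (vW W') s0 i := by
    intro i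
    obtain ⟨u, hu, hz, hb⟩ := (gSec h).exists_base hU i
    obtain ⟨s, hs, hs1, hs2⟩ := down u hu hz
    rcases i with Γ | q
    · obtain ⟨t, ht, ht1⟩ := hd.mob.nofix Γ.rep Γ.2.1
      have ht0 : t ≠ 0 := by
        rintro rfl
        exact ht1 (dvd_zero _)
      obtain ⟨v, hv, hv1, hv2⟩ := up t ht ht0
      have h1 : (gSec h).base U (.inl Γ) ≤ (gSec h).ord v (.inl Γ) := (gSec h).base_le hv hv1 _
      rw [ordl v t ht0 hv2, multiplicity_eq_zero.2 ht1] at h1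
      rw [ordl u s hs1 hs2] at hb
      rw [ordl u0 s0 h0 hu2, (hD.app T T0 _ s0 h0).1]
      omega
    · obtain ⟨t, ht, ht0, ht1⟩ := (att W' q.1 hd.mob.ne).1
      obtain ⟨v, hv, hv1, hv2⟩ := up t ht ht0
      have h1 : (gSec h).base U (.inr q) ≤ (gSec h).ord v (.inr q) := (gSec h).base_le hv hv1 _
      obtain ⟨h2, h3⟩ := ordr v t ht ht0 hv2 q
      rw [h2, ht1] at h1
      rw [ht1] at h3
      rw [(ordr u s hs hs1 hs2 q).1] at hb
      have h4 := (att W' q.1 hd.mob.ne).2 s hs hs1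
      have h5 := (att W' q.1 hd.mob.ne).2 s0 hs0 h0
      rw [(ordr u0 s0 hs0 h0 hu2 q).1, (hD.app T T0 _ s0 h0).2]
      omega
  have h6 : toR ((gSec h).ord u0) = toR ((gSec h).base U) + toR (gdiv T T0 (vW W') s0) := by
    ext i
    rw [Finsupp.add_apply, toR_apply, toR_apply, toR_apply, key]
    push_cast; rfl
  rw [Sec.mov, ← (gSec h).cl_ord u0 hu1, h6, map_add, cl_mem hV hD T T0 hT hd.mob hs0 h0,
    add_sub_cancel_left]

end GSYS

theorem sys_of (hA : St_NA) (hV : St_VAL) (hX : St_PROX) (hD : St_DIV) (hP : St_PLANE) :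
    St_SYS where
  att := GSYS.att
  rel W e q hW h := ⟨GSYS.rel1 hV W e q hW h, GSYS.rel2 hV W e hW h _ q (Nat.lt_succ_self _)⟩
  dec W e hW h := GSYS.dec hD _ e W (Nat.lt_succ_self _) hW h
  bir _ _ _ _ h := ⟨GSYS.bir1 h, GSYS.bir2 h⟩
  nef T T0 W e := GSYS.nef hV hD hP T T0 W e
  res T ι _ W e := GSYS.res hA hV hX hD hP T ι W e
  mov T T0 k W h U g W' e := GSYS.mov hV hD T T0 k W h U g W' e

end Pool.Agent.Lib.MP_a25055_ag
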