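import Pool.Agent.Lib.MP_a25055_ag.Geo

/-! Multiplicities, strict transforms and valuations of infinitely near points. -/

open MvPolynomial
open Pool.Agent.Lib.MP_3c72fe_ag

noncomputable section

namespace Pool.Agent.Lib.MP_a25055_ag

namespace GVAL

lemma mmul (a b : P2) (ha : a ≠ 0) (hb : b ≠ 0) : mult 0 (a * b) = mult 0 a + mult 0 b := by
  rw [mult, map_mul, Polynomial.natTrailingDegree_mul (io_ne_zero 0 ha) (io_ne_zero 0 hb)]
  rfl

lemma mult_zero : mult 0 (0 : P2) = 0 := by simp [mult]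

lemma mem_mult (a : P2) : a ∈ mi 0 ^ mult 0 a := by
  by_cases h : a = 0
  · rw [h]; exact zero_mem _
  · exact (mem_pow_iff h).2 le_rfl

lemma madd (a b : P2) (h : a + b ≠ 0) : min (mult 0 a) (mult 0 b) ≤ mult 0 (a + b) :=
  (mem_pow_iff h).1 (add_mem (Ideal.pow_le_pow_right (min_le_left _ _) (mem_mult a))
    (Ideal.pow_le_pow_right (min_le_right _ _) (mem_mult b)))

lemma mzero (a : P2) (h : a ≠ 0) : mult 0 a = 0 ↔ eval 0 a ≠ 0 := by
  rw [Ne, ← mem_mi, ← pow_one (mi 0), mem_pow_iff h]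
  omega

lemma mone (a : P2) (h : a ≠ 0) :
    mult 0 a ≤ 1 ↔ eval 0 a ≠ 0 ∨ ∃ k, eval 0 (pderiv k a) ≠ 0 := by
  have e : a ∈ mi 0 ^ (1 + 1) ↔ eval 0 a = 0 ∧ ∀ k, eval 0 (pderiv k a) = 0 := by
    refine ⟨fun h => ⟨mem_mi.1 (Ideal.pow_le_self (by omega) h), fun k => mem_mi.1 ?_⟩,
      fun h => mem_pow_succ (mem_mi.2 h.1) fun k => by rw [pow_one]; exact mem_mi.2 (h.2 k)⟩
    simpa using dv_mem (pderiv k) h
  rw [mem_pow_iff h] at e
  rw [← not_lt, Nat.lt_iff_add_one_le, e, not_and_or, not_forall]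

lemma mult_unit {u : P2} (h : eval 0 u ≠ 0) : u ≠ 0 ∧ mult 0 u = 0 := by
  have : u ≠ 0 := by rintro rfl; simp at h
  exact ⟨this, (mzero u this).2 h⟩

lemma mult_X (k : Fin 2) : mult 0 (X k : P2) = 1 := by
  have h1 := (mone (X k) (X_ne_zero k)).2 (Or.inr ⟨k, by simp⟩)
  have h2 := (mzero (X k) (X_ne_zero k)).not.2 (by simp)
  omega

lemma mult_X_pow (k : Fin 2) (n : ℕ) : mult 0 (X k ^ n : P2) = n := by
  induction n with
  | zero => exact (mult_unit (by simp)).2
  | succ n ih => rw [pow_succ, mmul _ _ (pow_ne_zero _ (X_ne_zero k)) (X_ne_zero k), ih, mult_X]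

lemma map_mem {A : Type} [CommRing A] [Algebra ℂ A] (f : P2 →ₐ[ℂ] A) (J : Ideal A)
    (hf : ∀ k, f (X k) ∈ J) {n : ℕ} {a : P2} (h : a ∈ mi 0 ^ n) : f a ∈ J ^ n := by
  have h1 : (mi 0).map f ≤ J := by
    rw [mi, Ideal.map_span, Ideal.span_le]
    rintro _ ⟨_, ⟨k, rfl⟩, rfl⟩
    simpa using hf k
  refine Ideal.pow_right_mono h1 n ?_
  rw [← Ideal.map_pow]
  exact Ideal.mem_map_of_mem _ h

lemma dvd_st (c : Option ℂ) {n : ℕ} {a : P2} (h : a ∈ mi 0 ^ n) :
    X (exI c) ^ n ∣ aeval (st c) a := by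
  rw [← Ideal.mem_span_singleton, ← Ideal.span_singleton_pow]
  refine map_mem _ _ (fun k => Ideal.mem_span_singleton.2 ?_) h
  rcases c with _ | c <;> fin_cases k <;> simp [st, exI]

lemma step0 (c : Option ℂ) (a : P2) : aeval (st c) a =
    X (exI c) ^ mult 0 a * (aeval (st c) a).divMonomial (Finsupp.single (exI c) (mult 0 a)) := by
  obtain ⟨b, hb⟩ := dvd_st c (mem_mult a)
  rw [hb, X_pow_eq_monomial, divMonomial_monomial_mul]

lemma step (p : Node) (c : Option ℂ) (g : P3) :
    aeval (st c) (p.str g) = X (exI c) ^ p.m g * (Node.step p c).str g := step0 c _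

lemma aeval_aeval {σ τ A : Type} [CommRing A] [Algebra ℂ A] (f : τ → A)
    (g : σ → MvPolynomial τ ℂ) (a : MvPolynomial σ ℂ) :
    aeval f (aeval g a) = aeval (fun i => aeval f (g i)) a := by
  rw [← AlgHom.comp_apply, comp_aeval]

lemma st_eq_zero {c : Option ℂ} {a : P2} (h : aeval (st c) a = 0) : a = 0 := by
  have h1 : X (exI c) * a = 0 := MvPolynomial.funext fun z => by
    by_cases h0 : z (exI c) = 0
    · simp [h0]
    obtain ⟨w, hw⟩ : ∃ w : Fin 2 → ℂ, (fun i => aeval w (st c i)) = z := by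
      rcases c with _ | c
      · refine ⟨![z 0 / z 1, z 1], funext fun i => ?_⟩
        have h0' : z 1 ≠ 0 := h0
        fin_cases i <;> simp [st, h0']
      · refine ⟨![z 0, z 1 / z 0 - c], funext fun i => ?_⟩
        have h0' : z 0 ≠ 0 := h0
        fin_cases i <;> simp [st]
        field_simp
    have h2 := aeval_aeval w (st c) a
    rw [h, map_zero, hw, aeval_eq_eval] at h2
    rw [map_mul, ← h2]; simp
  exact (mul_eq_zero.1 h1).resolve_left (X_ne_zero _)

lemma st_inj (c : Option ℂ) {a b : P2} (h : aeval (st c) a = aeval (st c) b) : a = b :=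
  sub_eq_zero.1 (st_eq_zero (c := c) (by rw [map_sub, h, sub_self]))

lemma mem_of_io0 {n : ℕ} {a : P2} (h : Polynomial.X ^ n ∣ io0 a) : a ∈ mi 0 ^ n := by
  have e : tr 0 a = a := by simp [tr]
  rw [mem_pow_iff_tr, e]
  intro s hs
  rw [← coeff_io0, Polynomial.X_pow_dvd_iff.1 h _ hs, Polynomial.coeff_zero]

lemma mem_of_dvd_st {c : Option ℂ} {n : ℕ} {a : P2} (h : X (exI c) ^ n ∣ aeval (st c) a) :
    a ∈ mi 0 ^ n := by
  rcases c with _ | c
  · have h1 := map_dvd (aeval ![Polynomial.C Polynomial.X, Polynomial.X] :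
      P2 →ₐ[ℂ] Polynomial (Polynomial ℂ)) h
    have h2 : io0 (aeval ![X 1, X 0] a) =
        (aeval ![Polynomial.C Polynomial.X, Polynomial.X] : P2 →ₐ[ℂ] Polynomial (Polynomial ℂ))
          (aeval (st none) a) := by
      rw [io0, aeval_aeval, aeval_aeval]
      congr 2
      funext i
      fin_cases i <;> simp [st]
    rw [← h2, map_pow, aeval_X] at h1
    have h3 := map_mem (aeval ![X 1, X 0]) (mi 0)
      (fun k => mem_mi.2 (by fin_cases k <;> simp)) (mem_of_io0 h1)
    rw [aeval_aeval] at h3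
    convert h3
    conv_lhs => rw [← aeval_X_left_apply a]
    congr 2
    funext i
    fin_cases i <;> simp
  · have h1 := map_dvd (aeval ![Polynomial.X, Polynomial.C (Polynomial.X - Polynomial.C c)] :
      P2 →ₐ[ℂ] Polynomial (Polynomial ℂ)) h
    have h2 : io0 a = aeval ![Polynomial.X, Polynomial.C (Polynomial.X - Polynomial.C c)]
        (aeval (st (some c)) a) := by
      rw [io0, aeval_aeval]
      congr 2
      funext i
      fin_cases i <;> simp [st]
    rw [← h2, map_pow, aeval_X] at h1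
    exact mem_of_io0 h1

lemma ndvd_new (p : Node) (c : Option ℂ) (g : P3) (h : p.str g ≠ 0) :
    ¬ X (exI c) ∣ (Node.step p c).str g := fun h1 => by
  have h2 : X (exI c) ^ (p.m g + 1) ∣ aeval (st c) (p.str g) := by
    rw [step, pow_succ]; exact mul_dvd_mul_left _ h1
  have h3 := (mem_pow_iff h).1 (mem_of_dvd_st h2)
  simp [Node.m] at h3

/-- Restriction to a coordinate axis. -/
def ax (k : Fin 2) : P2 →ₐ[ℂ] P2 := aeval fun j => if j = k then 0 else X j

lemma X_dvd_iff (k : Fin 2) (a : P2) : X k ∣ a ↔ ax k a = 0 := by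
  refine ⟨fun ⟨b, hb⟩ => by simp [hb, ax], fun h => ?_⟩
  have : X k ∣ a - ax k a := by
    clear h
    induction a using MvPolynomial.induction_on with
    | C a => simp [ax]
    | add a b ha hb =>
      have := dvd_add ha hb
      rw [map_add]
      convert this using 1
      ring
    | mul_X a j ha =>
      by_cases e : j = k
      · simp [ax, e]
      · have := dvd_mul_of_dvd_left ha (X j)
        rw [map_mul]
        convert this using 1
        simp [ax, e, sub_mul]
  simpa [h] using this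

lemma ndvd_old (p : Node) (c : Option ℂ) (g : P3) (k : Fin 2)
    (hk : (fun i => ax k (st c i)) = fun j => if j = k then 0 else X j) (h : ¬ X k ∣ p.str g) :
    ¬ X k ∣ (Node.step p c).str g := fun h1 => h (by
  have h2 : X k ∣ aeval (st c) (p.str g) := by rw [step]; exact dvd_mul_of_dvd_right h1 _
  rw [X_dvd_iff] at h2 ⊢
  rw [ax, aeval_aeval] at h2
  rw [ax, ← hk]
  exact h2)

/-- The coordinate that is `1` in the chart. -/
def ri : Rt → Fin 3
  | .c0 _ _ => 0
  | .c1 _ => 1
  | .c2 => 2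

lemma ch_ri (r : Rt) : r.ch (ri r) = 1 := by cases r <;> rfl

lemma ch_eq_zero (r : Rt) {g : P3} {e : ℕ} (hg : g.IsHomogeneous e) (h : aeval r.ch g = 0) :
    g = 0 := by
  have h1 : X (ri r) * g = 0 := MvPolynomial.funext fun z => by
    by_cases h0 : z (ri r) = 0
    · simp [h0]
    obtain ⟨w, hw⟩ : ∃ w : Fin 2 → ℂ, (fun i => z (ri r) * aeval w (r.ch i)) = z := by
      rcases r with ⟨a, b⟩ | b | _
      · refine ⟨![z 1 / z 0 - a, z 2 / z 0 - b], funext fun i => ?_⟩
        have h0' : z 0 ≠ 0 := h0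
        fin_cases i <;> simp [Rt.ch, ri] <;> field_simp
      · refine ⟨![z 0 / z 1, z 2 / z 1 - b], funext fun i => ?_⟩
        have h0' : z 1 ≠ 0 := h0
        fin_cases i <;> simp [Rt.ch, ri] <;> field_simp
      · refine ⟨![z 0 / z 2, z 1 / z 2], funext fun i => ?_⟩
        have h0' : z 2 ≠ 0 := h0
        fin_cases i <;> simp [Rt.ch, ri] <;> field_simp
    have h2 := aeval_smul_hom hg (z (ri r)) fun i => aeval w (r.ch i)
    rw [hw, ← aeval_aeval, h, map_zero, mul_zero, aeval_eq_eval] at h2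
    rw [map_mul, h2]; simp
  exact (mul_eq_zero.1 h1).resolve_left (X_ne_zero _)

lemma tot_step (p : Node) (c : Option ℂ) (g : P3) :
    (Node.step p c).tot g = aeval (st c) (p.tot g) := by
  rw [Node.tot, Node.tot, aeval_aeval]; rfl

lemma ne (q : Node) (g : P3) (h : NZ g) : q.tot g ≠ 0 ∧ q.str g ≠ 0 := by
  induction q with
  | root r =>
    obtain ⟨h0, e, he⟩ := h
    exact ⟨fun h1 => h0 (ch_eq_zero r he h1), fun h1 => h0 (ch_eq_zero r he h1)⟩
  | step p c ih =>
    refine ⟨fun h1 => ih.1 (st_eq_zero (by rw [← tot_step, h1])), fun h1 => ih.2 ?_⟩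
    exact st_eq_zero (by rw [step, h1, mul_zero])

lemma ndvd (q : Node) (g : P3) (k : Fin 2) (h : NZ g) (hk : q.ex k ≠ none) : ¬ X k ∣ q.str g := by
  induction q with
  | root r => exact absurd rfl hk
  | step p c ih =>
    by_cases e : k = exI c
    · rw [e]; exact ndvd_new p c g (ne p g h).2
    rcases c with _ | c
    · have e0 : k = 0 := by fin_cases k <;> simp_all [exI]
      subst e0
      refine ndvd_old p none g 0 (funext fun i => ?_) (ih (by simpa [Node.ex] using hk))
      fin_cases i <;> simp [ax, st]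
    · have e1 : k = 1 := by fin_cases k <;> simp_all [exI]
      subst e1
      have hc : c = 0 := by
        by_contra hc
        simp [Node.ex, hc] at hk
      subst hc
      refine ndvd_old p (some 0) g 1 (funext fun i => ?_) (ih (by simpa [Node.ex] using hk))
      fin_cases i <;> simp [ax, st]

lemma v_of_fac {q : Node} {g : P3} (h : NZ g) {a b : ℕ} {u : P2} (hu : eval 0 u ≠ 0)
    (e : q.tot g = X 0 ^ a * X 1 ^ b * u * q.str g) : q.v g = a + b + q.m g := by
  have h0 : (X 0 ^ a : P2) ≠ 0 := pow_ne_zero _ (X_ne_zero _)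
  have h1 : (X 1 ^ b : P2) ≠ 0 := pow_ne_zero _ (X_ne_zero _)
  rw [Node.v, e, mmul _ _ (mul_ne_zero (mul_ne_zero h0 h1) (mult_unit hu).1) (ne q g h).2,
    mmul _ _ (mul_ne_zero h0 h1) (mult_unit hu).1, mmul _ _ h0 h1, mult_X_pow, mult_X_pow,
    (mult_unit hu).2]
  rfl

lemma eval_st (c : Option ℂ) (u : P2) : eval 0 (aeval (st c) u) = eval 0 u := by
  rw [← aeval_eq_eval, aeval_aeval]
  congr 2
  funext i
  rcases c with _ | c <;> fin_cases i <;> simp [st]

lemma fac (q : Node) (g : P3) (h : NZ g) : ∃ u : P2, eval 0 u ≠ 0 ∧ q.tot g =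
    X 0 ^ Node.lab (·.v g) (q.ex 0) * X 1 ^ Node.lab (·.v g) (q.ex 1) * u * q.str g := by
  induction q with
  | root r => exact ⟨1, by simp, by simp [Node.ex, Node.lab, Node.tot, Node.sub, Node.str]⟩
  | step p c ih =>
    obtain ⟨u, hu, e⟩ := ih
    have hv := v_of_fac h hu e
    have hs := step p c g
    rw [tot_step, e]
    simp only [map_mul, map_pow, aeval_X, hs]
    have hp : Node.lab (·.v g) (some p) = p.v g := rfl
    have hn : Node.lab (·.v g) none = 0 := rfl
    rcases c with _ | c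
    · refine ⟨_, (eval_st none u).symm ▸ hu, ?_⟩
      simp only [Node.ex, if_true, one_ne_zero, if_false, hp, hv, st, exI, Matrix.cons_val_zero,
        Matrix.cons_val_one]
      ring
    · by_cases hc : c = 0
      · refine ⟨_, (eval_st (some c) u).symm ▸ hu, ?_⟩
        simp only [Node.ex, if_true, one_ne_zero, if_false, hp, hv, st, exI, Matrix.cons_val_zero,
          Matrix.cons_val_one, hc, C_0, add_zero]
        ring
      · refine ⟨(X 1 + C c) ^ Node.lab (·.v g) (p.ex 1) * aeval (st (some c)) u, ?_, ?_⟩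
        · rw [map_mul, eval_st]
          exact mul_ne_zero (by simp [hc]) hu
        · simp only [Node.ex, if_true, one_ne_zero, if_false, hp, hn, hv, st, exI,
            Matrix.cons_val_zero, Matrix.cons_val_one, hc, mul_pow]
          ring

lemma lab (q : Node) (w : Node → ℕ) :
    ∑ p ∈ q.prox, w p = Node.lab w (q.ex 0) + Node.lab w (q.ex 1) := by
  have hne : ∀ p, q.ex 0 = some p → q.ex 1 ≠ some p := fun p h0 h1 => by
    rcases q with r | ⟨r, _ | c⟩
    · simp [Node.ex] at h0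
    · simp only [Node.ex, if_true, one_ne_zero, if_false, Option.some.injEq] at h0 h1
      subst h1
      exact absurd (Node.ex_dep _ _ _ h0) (lt_irrefl _)
    · simp only [Node.ex, if_true, one_ne_zero, if_false, Option.some.injEq] at h0 h1
      subst h0
      split_ifs at h1
      exact absurd (Node.ex_dep _ _ _ h1) (lt_irrefl _)
  rw [Node.prox]
  rcases h0 : q.ex 0 with _ | p0 <;> rcases h1 : q.ex 1 with _ | p1 <;> simp [Node.lab]
  rw [Finset.sum_pair]
  rintro rfl
  exact hne _ h0 h1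

lemma vm (q : Node) (g : P3) (h : NZ g) : q.v g = q.m g + ∑ p ∈ q.prox, p.v g := by
  obtain ⟨u, hu, e⟩ := fac q g h
  rw [v_of_fac h hu e, lab, add_comm]

lemma str_mul (q : Node) (g h : P3) (hg : NZ g) (hh : NZ h) :
    q.str (g * h) = q.str g * q.str h := by
  induction q with
  | root r => exact map_mul _ _ _
  | step p c ih =>
    have h1 := step p c (g * h)
    have h2 : p.m (g * h) = p.m g + p.m h := by
      rw [Node.m, ih, mmul _ _ (ne p g hg).2 (ne p h hh).2]; rfl
    rw [ih, map_mul, step, step, h2] at h1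
    refine mul_left_cancel₀ (pow_ne_zero (p.m g + p.m h) (X_ne_zero (exI c))) ?_
    rw [← h1]; ring

lemma str_C (q : Node) (c : ℂ) (hc : c ≠ 0) : q.str (C c) = C c := by
  induction q with
  | root r => simp [Node.str]
  | step p d ih =>
    have h1 := step p d (C c)
    rw [Node.m, ih, (mult_unit (by simpa using hc)).2] at h1
    simpa using h1.symm

lemma irr_aux {A B : Type} [CommRing A] [CommRing B] [IsDomain B] (φ : A →+* B) {s y : A}
    {s' x : B} {m : ℕ} (hs : Prime s) (h0 : s' ≠ 0) (hφ : φ s = x ^ m * s') (hy : φ y = x)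
    (hx : ∀ b N, b ∣ s' → b ∣ x ^ N → IsUnit b)
    (key : ∀ a b, s' = a * b → ∃ (a' b' : A) (N M K : ℕ), φ a' = x ^ N * a ∧ φ b' = x ^ M * b ∧
      s ∣ y ^ K * (a' * b')) : Irreducible s' ∨ IsUnit s' := by
  by_cases hu : IsUnit s'
  · exact Or.inr hu
  have hd : ∀ z, s ∣ z → s' ∣ φ z := fun z hz =>
    (Dvd.intro_left _ hφ.symm).trans (map_dvd φ hz)
  have one : ∀ a b a' N, s' = a * b → φ a' = x ^ N * a → s ∣ a' → IsUnit b := by
    intro a b a' N e e' h
    have ha : a ≠ 0 := by rintro rfl; exact h0 (by rw [e, zero_mul])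
    have h1 := hd _ h
    rw [e', e, mul_comm a] at h1
    exact hx b N (Dvd.intro_left _ e.symm) ((mul_dvd_mul_iff_right ha).1 h1)
  refine Or.inl ⟨hu, fun a b e => ?_⟩
  obtain ⟨a', b', N, M, K, h1, h2, h3⟩ := key a b e
  rcases hs.dvd_or_dvd h3 with h | h
  · have := hd _ h
    rw [map_pow, hy] at this
    exact absurd (hx _ _ dvd_rfl this) hu
  rcases hs.dvd_or_dvd h with h | h
  · exact Or.inr (one a b a' N e h1 h)
  · exact Or.inl (one b a b' M (by rw [e, mul_comm]) h2 h)

lemma exists_ch (r : Rt) (a : P2) : ∃ (d : ℕ) (a' : P3), a'.IsHomogeneous d ∧ aeval r.ch a' = a := by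
  induction a using MvPolynomial.induction_on with
  | C a => exact ⟨0, C a, isHomogeneous_C _ _, by simp⟩
  | add a b ha hb =>
    obtain ⟨d, a', h1, rfl⟩ := ha
    obtain ⟨e, b', h2, rfl⟩ := hb
    refine ⟨d + e, a' * X (ri r) ^ e + X (ri r) ^ d * b',
      (h1.mul (isHomogeneous_X_pow _ _)).add ((isHomogeneous_X_pow _ _).mul h2), ?_⟩
    simp [ch_ri]
  | mul_X a k ha =>
    obtain ⟨d, a', h1, rfl⟩ := ha
    have hl : ∀ (i j : Fin 3) (t : ℂ), (X i - C t * X j : P3).IsHomogeneous 1 := fun i j t =>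
      (isHomogeneous_X _ _).sub ((isHomogeneous_X _ _).C_mul t)
    obtain ⟨l, hl1, hl2⟩ : ∃ l : P3, l.IsHomogeneous 1 ∧ aeval r.ch l = X k := by
      rcases r with ⟨a, b⟩ | b | _ <;> fin_cases k
      · exact ⟨_, hl 1 0 a, by simp [Rt.ch]⟩
      · exact ⟨_, hl 2 0 b, by simp [Rt.ch]⟩
      · exact ⟨_, isHomogeneous_X _ 0, by simp [Rt.ch]⟩
      · exact ⟨_, hl 2 1 b, by simp [Rt.ch]⟩
      · exact ⟨_, isHomogeneous_X _ 0, by simp [Rt.ch]⟩
      · exact ⟨_, isHomogeneous_X _ 1, by simp [Rt.ch]⟩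
    exact ⟨d + 1, a' * l, h1.mul hl1, by rw [map_mul, hl2]⟩

lemma st_ex (c : Option ℂ) : aeval (st c) (X (exI c) : P2) = X (exI c) := by
  rcases c with _ | c <;> simp [st, exI]

lemma exists_st (c : Option ℂ) (a : P2) : ∃ (N : ℕ) (a' : P2), aeval (st c) a' = X (exI c) ^ N * a := by
  induction a using MvPolynomial.induction_on with
  | C a => exact ⟨0, C a, by simp⟩
  | add a b ha hb =>
    obtain ⟨N, a', h1⟩ := ha
    obtain ⟨M, b', h2⟩ := hb
    refine ⟨N + M, X (exI c) ^ M * a' + X (exI c) ^ N * b', ?_⟩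
    simp only [map_add, map_mul, map_pow, st_ex, h1, h2]
    ring
  | mul_X a k ha =>
    obtain ⟨N, a', h1⟩ := ha
    obtain ⟨l, hl⟩ : ∃ l : P2, aeval (st c) l = X (exI c) * X k := by
      rcases c with _ | c <;> fin_cases k
      · exact ⟨X 0, by simp [st, exI, mul_comm]⟩
      · exact ⟨X 1 * X 1, by simp [st, exI]⟩
      · exact ⟨X 0 * X 0, by simp [st, exI]⟩
      · exact ⟨X 1 - C c * X 0, by simp [st, exI]; ring⟩
    exact ⟨N + 1, a' * l, by rw [map_mul, h1, hl]; ring⟩

lemma irr (q : Node) (f : P3) (h : NZ f) (hf : Irreducible f) :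
    Irreducible (q.str f) ∨ IsUnit (q.str f) := by
  induction q with
  | root r =>
    obtain ⟨e, he⟩ := h.2
    refine irr_aux (aeval r.ch : P3 →ₐ[ℂ] P2).toRingHom (y := X (ri r)) (x := 1) (m := 0) hf.prime
      (ne (.root r) f h).2 (by simp [Node.str]) (by simp [ch_ri])
      (fun b N _ hb => isUnit_of_dvd_one (by simpa using hb)) fun a b hab => ?_
    obtain ⟨d, a', h1, rfl⟩ := exists_ch r a
    obtain ⟨d', b', h2, rfl⟩ := exists_ch r b
    refine ⟨a', b', 0, 0, e, by simp, by simp, ⟨X (ri r) ^ (d + d'), ?_⟩⟩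
    refine sub_eq_zero.1 (ch_eq_zero r (e := e + (d + d')) (((isHomogeneous_X_pow _ _).mul
      (h1.mul h2)).sub (he.mul (isHomogeneous_X_pow _ _))) ?_)
    have hab' : aeval r.ch f = aeval r.ch a' * aeval r.ch b' := hab
    simp only [map_sub, map_mul, map_pow, aeval_X, ch_ri, hab']
    ring
  | step p c ih =>
    have hs := step p c f
    rcases ih with ih | ih
    · refine irr_aux (aeval (st c) : P2 →ₐ[ℂ] P2).toRingHom (y := X (exI c)) ih.prime
        (ne (.step p c) f h).2 hs (st_ex c) (fun b N hb hb' => ?_) fun a b hab => ?_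
      · obtain ⟨i, -, hi⟩ := (dvd_prime_pow X_prime N).1 hb'
        rcases i with _ | i
        · simpa using hi
        · exact absurd (((dvd_pow_self _ (Nat.succ_ne_zero i)).trans hi.symm.dvd).trans hb)
            (ndvd_new p c f (ne p f h).2)
      · obtain ⟨N, a', h1⟩ := exists_st c a
        obtain ⟨M, b', h2⟩ := exists_st c b
        refine ⟨a', b', N, M, p.m f, h1, h2, ⟨X (exI c) ^ (N + M), st_inj c ?_⟩⟩
        simp only [map_mul, map_pow, st_ex, h1, h2, hs, hab]
        ring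
    · have h1 := ih.map (aeval (st c) : P2 →ₐ[ℂ] P2)
      rw [hs] at h1
      exact Or.inr (isUnit_of_mul_isUnit_right h1)

lemma wvle (M : Node → ℕ) (T : Finset Node) (g : P3) (h : NZ g) (hM : ∀ q ∉ T, M q = 0)
    (hT : ∀ q ∈ T, wv M q ≤ q.v g) (q : Node) : wv M q ≤ q.v g := by
  induction hn : q.dep using Nat.strong_induction_on generalizing q with
  | _ n ih =>
    by_cases hq : q ∈ T
    · exact hT q hq
    rw [wv_eq, hM q hq, vm q g h]
    exact add_le_add (Nat.zero_le _)
      (Finset.sum_le_sum fun p hp => ih _ (hn ▸ Node.prox_dep hp) p rfl)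

end GVAL

open GVAL in
theorem val_of : St_VAL where
  mmul := mmul
  madd := madd
  mzero := mzero
  mone := mone
  ne := ne
  step p c g _ := step p c g
  fac := fac
  ndvd := ndvd
  lab := lab
  vm := vm
  mul q g h hg hh := ⟨str_mul q g h hg hh,
    by rw [Node.m, str_mul q g h hg hh, mmul _ _ (ne q g hg).2 (ne q h hh).2]; rfl,
    by rw [Node.v, map_mul, mmul _ _ (ne q g hg).1 (ne q h hh).1]; rfl⟩
  const q c hc := ⟨str_C q c hc, by rw [Node.m, str_C q c hc, (mult_unit (by simpa using hc)).2],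
    by rw [Node.v, Node.tot, aeval_C, algebraMap_eq, (mult_unit (by simpa using hc)).2]⟩
  add q g h e hg hh h0 := by
    have := (ne q (g + h) ⟨h0, e, hg.add hh⟩).1
    rw [Node.v, Node.v, Node.v, map_add] at *
    exact madd _ _ this
  irr := irr
  wvle := wvle

end Pool.Agent.Lib.MP_a25055_ag
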