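import Pool.Agent.Lib.MP_a25055_ag.GVAL

/-! A very general member of a linear system. -/

open MvPolynomial Module
open Pool.Agent.Lib.MP_3c72fe_ag

noncomputable section

namespace Pool.Agent.Lib.MP_a25055_ag

namespace GVG7

lemma exists_l (hD : St_VGD) (S : Set P2) (hS : S.Finite) (r : ℕ) :
    ∃ l : Fin r → ℂ, ∀ j, ∃ δ : ZD ℂ, (∀ a ∈ S, cd δ a = 0) ∧
      ∀ i, δ (l i) = if i = j then 1 else 0 := by
  obtain ⟨l, hl⟩ := hD (hS.toFinset.biUnion fun a => a.coeffs) r
  refine ⟨l, fun j => ?_⟩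
  obtain ⟨δ, h1, h2⟩ := hl fun i => if i = j then 1 else 0
  refine ⟨δ, fun a ha => ?_, h2⟩
  ext s
  rw [coeff_cd, coeff_zero]
  by_cases h : coeff s a = 0
  · rw [h, map_zero]
  · exact h1 _ (Finset.mem_biUnion.2 ⟨a, hS.mem_toFinset.2 ha, coeff_mem_coeffs s h⟩)

lemma cd_smul' (δ : ZD ℂ) (c : ℂ) {a : P2} (h : cd δ a = 0) : cd δ (c • a) = δ c • a := by
  rw [smul_eq_C_mul, (cd δ).leibniz, h, cd_C, smul_zero, zero_add, smul_eq_mul, mul_comm,
    ← smul_eq_C_mul]

lemma cd_sum {r : ℕ} {l : Fin r → ℂ} {j : Fin r} {δ : ZD ℂ}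
    (h2 : ∀ i, δ (l i) = if i = j then 1 else 0) {a : Fin r → P2} (ha : ∀ i, cd δ (a i) = 0) :
    cd δ (∑ i, l i • a i) = a j := by
  rw [map_sum]
  simp only [cd_smul' δ _ (ha _), h2, ite_smul, one_smul, zero_smul, Finset.sum_ite_eq',
    Finset.mem_univ, if_true]

/-- Every member of the family is recovered from the general combination. -/
def Rec {r : ℕ} (l : Fin r → ℂ) (a : Fin r → P2) : Prop :=
  ∀ j, ∃ δ : ZD ℂ, cd δ (∑ i, l i • a i) = a j

lemma Rec.mem {r : ℕ} {l : Fin r → ℂ} {a : Fin r → P2} (h : Rec l a) {n : ℕ}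
    (hn : ∑ i, l i • a i ∈ mi 0 ^ n) (x : Fin r → ℂ) : ∑ i, x i • a i ∈ mi 0 ^ n := by
  refine Ideal.sum_mem _ fun j _ => ?_
  obtain ⟨δ, hδ⟩ := h j
  rw [smul_eq_C_mul, ← hδ]
  exact Ideal.mul_mem_left _ _ (cd_mem_of_fix (by simp) hn)

lemma eval_tr (p : Fin 2 → ℂ) (g : P2) : eval 0 (tr p g) = eval p g := by
  induction g using MvPolynomial.induction_on with
  | C a => simp [tr]
  | add a b ha hb => simp only [map_add, ha, hb]
  | mul_X a k ha => simp only [map_mul, ha]; simp [tr]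

lemma Rec.le_one {r : ℕ} {l : Fin r → ℂ} {a : Fin r → P2} (h : Rec l a) (p : Fin 2 → ℂ)
    {x : Fin r → ℂ} (hx : eval 0 (tr p (∑ i, x i • a i)) ≠ 0) :
    mult 0 (tr p (∑ i, l i • a i)) ≤ 1 := by
  by_cases h0 : tr p (∑ i, l i • a i) = 0
  · rw [h0, GVAL.mult_zero]; omega
  rw [GVAL.mone _ h0]
  by_contra hc
  push Not at hc
  apply hx
  rw [eval_tr, map_sum]
  refine Finset.sum_eq_zero fun j _ => ?_
  obtain ⟨δ, hδ⟩ := h j
  have h1 := eval_cd δ p (∑ i, l i • a i)
  have h2 := hc.1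
  have h3 := hc.2
  simp only [pderiv_tr, eval_tr] at h2 h3
  rw [h2, map_zero, hδ, map_add, dv_apply, map_add, smul_eval, smul_eval, h3, h3] at h1
  rw [smul_eval]
  simp only [mul_zero, add_zero] at h1
  rw [← h1, mul_zero]

lemma root_tot (r : Rt) : ∃ r0 : Rt, (r0 = .c0 0 0 ∨ r0 = .c1 0 ∨ r0 = .c2) ∧ ∃ p : Fin 2 → ℂ,
    ∀ g, (Node.root r).tot g = tr p ((Node.root r0).tot g) := by
  have key : ∀ (r r0 : Rt) (p : Fin 2 → ℂ), (∀ i, r.ch i = tr p (r0.ch i)) →
      ∀ g, (Node.root r).tot g = tr p ((Node.root r0).tot g) := fun r r0 p h g => by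
    have : (Node.root r).tot = (tr p).comp (Node.root r0).tot := by
      ext i : 1
      simp [Node.tot, Node.sub, h]
    rw [this]; rfl
  cases r with
  | c0 a b => exact ⟨.c0 0 0, by simp, ![a, b], key _ _ _ fun i => by
      fin_cases i <;> simp [Rt.ch, tr, add_comm]⟩
  | c1 b => exact ⟨.c1 0, by simp, ![0, b], key _ _ _ fun i => by
      fin_cases i <;> simp [Rt.ch, tr, add_comm]⟩
  | c2 => exact ⟨.c2, by simp, 0, key _ _ _ fun i => by
      fin_cases i <;> simp [Rt.ch, tr]⟩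

lemma step_tot (p : Node) (c : ℂ) (g : P3) :
    (Node.step p (some c)).tot g = tr ![0, c] ((Node.step p (some 0)).tot g) := by
  rw [GVAL.tot_step, GVAL.tot_step]
  have : (aeval (st (some c)) : P2 →ₐ[ℂ] P2) = (tr ![0, c]).comp (aeval (st (some 0))) := by
    ext k : 1
    fin_cases k <;> simp [st, tr]
  rw [this]; rfl

lemma prox_step (p : Node) {c : ℂ} (hc : c ≠ 0) : (Node.step p (some c)).prox = {p} := by
  ext q
  simp [Node.mem_prox, Node.ex, hc, eq_comm]

end GVG7

open GVG7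

theorem vg_of (hV : St_VAL) (hP : St_PROX) (hD : St_VGD) (hS : St_SYS) : St_VG := by
  classical
  intro T W e Θ hT hW hR hΘ
  have : FiniteDimensional ℂ (hom e) :=
    Module.Finite.iff_fg.2 (homogeneousSubmodule_fg (Fin 3) ℂ e)
  have : FiniteDimensional ℂ W := Submodule.finiteDimensional_of_le hW.le
  obtain ⟨r, u, hu, hsp⟩ : ∃ (r : ℕ) (u : Fin r → P3), (∀ i, u i ∈ W) ∧
      ∀ s ∈ W, ∃ x : Fin r → ℂ, s = ∑ i, x i • u i := by
    refine ⟨_, fun i => (Module.finBasis ℂ W i : P3), fun i => Subtype.property _, fun s hs =>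
      ⟨fun i => (Module.finBasis ℂ W).repr ⟨s, hs⟩ i, ?_⟩⟩
    have := congrArg W.subtype ((Module.finBasis ℂ W).sum_repr ⟨s, hs⟩)
    rw [map_sum] at this
    exact this.symm
  have hnz : ∀ s ∈ W, s ≠ 0 → NZ s := fun s hs h0 => ⟨h0, e, hW.le hs⟩
  have hatt := fun q => hS.att W q hW.ne
  have hrel := fun q => (hS.rel W e q hW.le hW.ne).1
  have hdiv : ∀ (p : Node) (i : Fin r), ∃ a : P2,
      (Node.step p (some 0)).tot (u i) = X 0 ^ vW W p * a := fun p i => by
    by_cases h0 : u i = 0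
    · exact ⟨0, by simp [h0]⟩
    obtain ⟨w, -, hw⟩ := hV.fac (Node.step p (some 0)) (u i) (hnz _ (hu i) h0)
    obtain ⟨d, hd⟩ := Nat.exists_eq_add_of_le ((hatt p).2 _ (hu i) h0)
    have h1 : Node.lab (·.v (u i)) ((Node.step p (some 0)).ex 0) = vW W p + d := by
      simp [Node.ex, Node.lab, hd]
    exact ⟨_, by rw [hw, h1, pow_add, mul_assoc, mul_assoc, mul_assoc]⟩
  choose a ha using hdiv
  let Q : Finset Node := T ∪ T.image (fun p => Node.step p (some 0)) ∪
    T.image (fun p => Node.step p none) ∪ {.root (.c0 0 0), .root (.c1 0), .root .c2}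
  obtain ⟨l, hl⟩ := exists_l hD ((Set.image2 (fun (q : Node) i => q.tot (u i)) Q Set.univ ∪
    Set.image2 a T Set.univ) ∪
    (Node.root .c2).tot '' (UniqueFactorizationMonoid.factors Θ).toFinset)
    (((Q.finite_toSet.image2 _ Set.finite_univ).union
      (T.finite_toSet.image2 _ Set.finite_univ)).union ((Finset.finite_toSet _).image _)) r
  have hrQ : ∀ q ∈ Q, Rec l fun i => q.tot (u i) := fun q hq j => by
    obtain ⟨δ, h1, h2⟩ := hl j
    exact ⟨δ, cd_sum h2 fun i => h1 _ (Or.inl (Or.inl ⟨q, hq, i, trivial, rfl⟩))⟩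
  have hra : ∀ p ∈ T, Rec l (a p) := fun p hp j => by
    obtain ⟨δ, h1, h2⟩ := hl j
    exact ⟨δ, cd_sum h2 fun i => h1 _ (Or.inl (Or.inr ⟨p, hp, i, trivial, rfl⟩))⟩
  have htot : ∀ (q : Node) (x : Fin r → ℂ),
      q.tot (∑ i, x i • u i) = ∑ i, x i • q.tot (u i) := fun q x => by
    simp only [map_sum, map_smul]
  set F := ∑ i, l i • u i with hF
  have hFW : F ∈ W := W.sum_mem fun i _ => W.smul_mem _ (hu i)
  have hc2 : Node.root .c2 ∈ Q := by simp [Q]
  have hF0 : F ≠ 0 := fun h0 => by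
    obtain ⟨s, hs, hs0, -⟩ := (hatt (.root .c2)).1
    obtain ⟨x, rfl⟩ := hsp s hs
    apply (hV.ne (.root .c2) _ (hnz _ hs hs0)).1
    rw [htot]
    refine Finset.sum_eq_zero fun j _ => ?_
    obtain ⟨δ, hδ⟩ := hrQ _ hc2 j
    rw [← htot, ← hF, h0, map_zero, map_zero] at hδ
    rw [show (Node.root .c2).tot (u j) = 0 from hδ.symm, smul_zero]
  have hFz := hnz F hFW hF0
  have hv : ∀ q ∈ Q, q.v F = vW W q := fun q hq => by
    refine le_antisymm ?_ ((hatt q).2 F hFW hF0)
    obtain ⟨s, hs, hs0, hsv⟩ := (hatt q).1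
    obtain ⟨x, rfl⟩ := hsp s hs
    have h1 := (hrQ q hq).mem (n := q.v F) (by rw [← htot]; exact GVAL.mem_mult _) x
    rw [← htot, mem_pow_iff (hV.ne q _ (hnz _ hs hs0)).1] at h1
    exact hsv ▸ h1
  have hTQ : ∀ q ∈ T, q ∈ Q := fun q hq => by simp [Q, hq]
  have hm : ∀ q ∈ Q, q.prox ⊆ T → q.m F = MW W q := fun q hq hp => by
    have h1 := hV.vm q F hFz
    have h2 := hrel q
    have h3 : ∑ p ∈ q.prox, p.v F = ∑ p ∈ q.prox, vW W p :=
      Finset.sum_congr rfl fun p h => hv p (hTQ p (hp h))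
    rw [h3, hv q hq] at h1
    omega
  refine ⟨F, hFW, hF0, fun q hq => hm q (hTQ q hq) (hT q hq), fun q => ?_, fun hi hd => ?_⟩
  · induction q with
    | root ρ =>
      intro hq
      obtain ⟨r0, h0, p, hp⟩ := root_tot ρ
      have h1 : Node.root r0 ∈ Q := by rcases h0 with rfl | rfl | rfl <;> simp [Q]
      obtain ⟨s, hs, hs0, hsv⟩ := (hatt (.root ρ)).1
      obtain ⟨x, rfl⟩ := hsp s hs
      have h2 := hrel (.root ρ)
      rw [hR _ hq, show (Node.root ρ).prox = ∅ by simp [Node.prox, Node.ex]] at h2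
      rw [h2, Finset.sum_empty, add_zero] at hsv
      have h3 := (hV.mzero _ (hV.ne _ _ (hnz _ hs hs0)).1).1 hsv
      rw [hp, htot] at h3
      have h4 := (hrQ _ h1).le_one p h3
      rw [← htot, ← hp] at h4
      exact h4
    | step p c ih =>
      intro hq
      by_cases hp : p ∈ T
      · have hpr : (Node.step p c).prox ⊆ T := fun p' h => by
          rcases (hP.par p c).2 p' h with rfl | h
          · exact hp
          · exact hT p hp h
        by_cases hQ : Node.step p c ∈ Q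
        · rw [hm _ hQ hpr, hR _ hq]; omega
        obtain ⟨c, rfl⟩ : ∃ c', c = some c' := by
          cases c with
          | none => exact absurd (by simp [Q, hp]) hQ
          | some c => exact ⟨c, rfl⟩
        have hc : c ≠ 0 := by
          rintro rfl
          exact hQ (by simp [Q, hp])
        have key : ∀ x : Fin r → ℂ, (Node.step p (some c)).tot (∑ i, x i • u i) =
            X 0 ^ vW W p * tr ![0, c] (∑ i, x i • a p i) := fun x => by
          rw [step_tot, htot]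
          simp only [ha, map_sum, map_smul, map_mul, map_pow, Finset.mul_sum, mul_smul_comm]
          simp [tr]
        have key2 : ∀ x : Fin r → ℂ, NZ (∑ i, x i • u i) →
            tr ![0, c] (∑ i, x i • a p i) ≠ 0 ∧ (Node.step p (some c)).v (∑ i, x i • u i) =
              vW W p + mult 0 (tr ![0, c] (∑ i, x i • a p i)) := fun x hx => by
          have h1 := (hV.ne (Node.step p (some c)) _ hx).1
          rw [key] at h1
          refine ⟨right_ne_zero_of_mul h1, ?_⟩
          rw [Node.v, key, hV.mmul _ _ (left_ne_zero_of_mul h1) (right_ne_zero_of_mul h1),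
            GVAL.mult_X_pow]
        obtain ⟨s, hs, hs0, hsv⟩ := (hatt (.step p (some c))).1
        obtain ⟨x, rfl⟩ := hsp s hs
        have h2 := hrel (.step p (some c))
        rw [hR _ hq, prox_step p hc, Finset.sum_singleton] at h2
        obtain ⟨h3, h4⟩ := key2 x (hnz _ hs hs0)
        have h5 := (hra p hp).le_one ![0, c] ((hV.mzero _ h3).1 (by omega))
        have h6 := (key2 l hFz).2
        have h7 := hV.vm (.step p (some c)) F hFz
        rw [prox_step p hc, Finset.sum_singleton, hv p (hTQ p hp)] at h7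
        rw [← hF] at h6
        omega
      · have h1 := hP.le p F {Node.step p c} hFz fun q h => by
          rw [Finset.mem_singleton.1 h]; exact (hP.par p c).1
        rw [Finset.sum_singleton] at h1
        exact h1.trans (ih hp)
  · obtain ⟨θ, hθ, w, hw⟩ := UniqueFactorizationMonoid.exists_mem_factors_of_dvd hΘ hi hd
    obtain ⟨c, hc⟩ : ∃ c : ℂ, ((w⁻¹ : P3ˣ) : P3) = C c := by
      obtain ⟨c, -, hc⟩ := (isUnit_iff_eq_C_of_isReduced).1 (w⁻¹).isUnit
      exact ⟨c, hc⟩
    have h1 : F = c • θ := by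
      rw [← hw, smul_eq_C_mul, ← hc, mul_comm, mul_assoc, Units.mul_inv, mul_one]
    have hc0 : c ≠ 0 := by
      rintro rfl
      exact hF0 (by rw [h1, zero_smul])
    have h2 : θ = c⁻¹ • F := by rw [h1, smul_smul, inv_mul_cancel₀ hc0, one_smul]
    have h3 : ∀ j, ∃ d : ℂ, u j = d • θ := fun j => by
      obtain ⟨δ, h3, h4⟩ := hl j
      have h5 := cd_sum h4 (a := fun i => (Node.root .c2).tot (u i)) fun i =>
        h3 _ (Or.inl (Or.inl ⟨_, hc2, i, trivial, rfl⟩))
      rw [← htot, ← hF, h1, map_smul, cd_smul' δ c (h3 _ (Or.inr ⟨θ, by simpa using hθ, rfl⟩))] at h5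
      refine ⟨δ c, by_contra fun h6 => ?_⟩
      have h7 : u j - δ c • θ ∈ W := W.sub_mem (hu j) (W.smul_mem _ (h2 ▸ W.smul_mem _ hFW))
      apply (hV.ne (.root .c2) _ (hnz _ h7 (sub_ne_zero.2 h6))).1
      rw [map_sub, map_smul, h5, sub_self]
    have h4 : W ≤ Submodule.span ℂ {θ} := fun s hs => by
      obtain ⟨x, rfl⟩ := hsp s hs
      refine Submodule.sum_mem _ fun j _ => ?_
      obtain ⟨d, hd⟩ := h3 j
      rw [hd]
      exact Submodule.smul_mem _ _ (Submodule.smul_mem _ _ (Submodule.mem_span_singleton_self θ))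
    exact (Submodule.finrank_mono h4).trans (by simpa using finrank_span_le_card ({θ} : Set P3))

end Pool.Agent.Lib.MP_a25055_ag
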