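import Pool.Agent.Lib.MP_a25055_ag.Geo

open MvPolynomial Cardinal
open scoped IntermediateField.algebraAdjoinAdjoin
open Pool.Agent.Lib.MP_3c72fe_ag (ZD exists_ext fs_field)

noncomputable section

namespace Pool.Agent.Lib.MP_a25055_ag

namespace GVGD

lemma exists_der {k : Type} [Field k] [CharZero k] [Algebra k ℂ] {σ : Type} {q : σ → ℂ}
    (hq : AlgebraicIndependent k q) (v : σ → ℂ) :
    ∃ δ : ZD ℂ, (∀ c, δ (algebraMap k ℂ c) = 0) ∧ ∀ s, δ (q s) = v s := by
  let R := Algebra.adjoin k (Set.range q)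
  let F := IntermediateField.adjoin k (Set.range q)
  have : Algebra.FormallySmooth R F := .of_isLocalization (nonZeroDivisors _)
  have : CharZero F := charZero_of_injective_algebraMap (algebraMap k F).injective
  have := fs_field F ℂ
  have : Algebra.FormallySmooth R ℂ := .comp R F ℂ
  let : Algebra (MvPolynomial σ k) ℂ := (aeval q).toRingHom.toAlgebra
  have : IsScalarTower k (MvPolynomial σ k) ℂ := IsScalarTower.of_algebraMap_eq fun r => by
    change _ = aeval q (C r)
    simp
  let D := mkDerivation k v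
  let e := hq.aevalEquiv
  have he : ∀ a : R, algebraMap R ℂ a = aeval q (e.symm a) := fun a => by
    conv_lhs => rw [← e.apply_symm_apply a]
    exact hq.algebraMap_aevalEquiv _
  obtain ⟨δ, hδ⟩ := exists_ext (R := R) (E := ℂ)
    (D.toLinearMap.toAddMonoidHom.comp e.symm.toRingEquiv.toAddEquiv.toAddMonoidHom)
    fun a b => by
      change D (e.symm (a * b)) = _ * D (e.symm b) + _ * D (e.symm a)
      rw [map_mul, D.leibniz, he, he]
      rfl
  refine ⟨δ, fun c => ?_, fun s => ?_⟩
  · have := hδ (e (C c))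
    rw [he, e.symm_apply_apply, aeval_C] at this
    rw [this]
    change D (e.symm (e (C c))) = _
    rw [e.symm_apply_apply]
    exact D.map_algebraMap c
  · have := hδ (e (X s))
    rw [he, e.symm_apply_apply, aeval_X] at this
    rw [this]
    change D (e.symm (e (X s))) = _
    rw [e.symm_apply_apply]
    exact mkDerivation_X _ _ _

lemma exists_ai (k : Type) [Field k] [Algebra k ℂ] (hk : #k ≤ ℵ₀) (r : ℕ) :
    ∃ l : Fin r → ℂ, AlgebraicIndependent k l := by
  obtain ⟨B, hB⟩ := exists_isTranscendenceBasis k ℂ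
  have h1 := IsAlgClosed.cardinal_le_max_transcendence_basis' _ hB
  have h2 : Infinite B := by
    by_contra h
    rw [not_infinite_iff_finite] at h
    have h3 : #B ≤ ℵ₀ := Cardinal.mk_le_aleph0
    have h4 : #ℂ ≤ ℵ₀ := h1.trans (max_le (max_le hk h3) le_rfl)
    rw [Cardinal.mk_complex] at h4
    exact Cardinal.aleph0_lt_continuum.not_ge h4
  let f : Fin r → B := fun i => Infinite.natEmbedding B i
  exact ⟨_, hB.1.comp f fun i j h => Fin.ext ((Infinite.natEmbedding B).injective h)⟩

end GVGD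

theorem vgd_of : St_VGD := by
  intro Z r
  let k := IntermediateField.adjoin ℚ (Z : Set ℂ)
  have hk : #k ≤ ℵ₀ := (IntermediateField.cardinalMk_adjoin_le ℚ (Z : Set ℂ)).trans
    (sup_le (sup_le Cardinal.mk_le_aleph0 Cardinal.mk_le_aleph0) le_rfl)
  obtain ⟨l, hl⟩ := GVGD.exists_ai k hk r
  refine ⟨l, fun x => ?_⟩
  obtain ⟨δ, h1, h2⟩ := GVGD.exists_der hl x
  exact ⟨δ, fun z hz => h1 ⟨z, IntermediateField.subset_adjoin ℚ _ hz⟩, h2⟩

end Pool.Agent.Lib.MP_a25055_ag
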