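import Pool.Agent.Lib.MP_a25055_ag.Inv

open MvPolynomial Filter Topology Module

noncomputable section

namespace Pool.Agent.Lib.MP_a25055_ag

lemma nf2_f0 : NF2 f0 := by
  refine ⟨?_, by simp⟩
  unfold f0
  exact (((isHomogeneous_X ℂ 0).mul (isHomogeneous_X ℂ 1)).mul (isHomogeneous_X ℂ 3)).add
    ((isHomogeneous_X ℂ 2).pow 3)

lemma hom_sub4 {f : P4} {d : ℕ} (hf : f.IsHomogeneous d) (M : Mat 4) :
    (sub4 M f).IsHomogeneous d := by
  have := hf.aeval (fun j => ∑ l, C (M l j) * X l) (n := 1)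
    (fun j => IsHomogeneous.sum _ _ _ fun l _ => isHomogeneous_C_mul_X _ _)
  rwa [one_mul] at this

lemma sub4_ne_zero {f : P4} (hf : f ≠ 0) {M : Mat 4} (hM : M.det ≠ 0) : sub4 M f ≠ 0 := fun h =>
  hf (by
    have := congrArg (sub4 M⁻¹) h
    rwa [sub4_sub4, Matrix.nonsing_inv_mul _ (isUnit_iff_ne_zero.2 hM), sub4_one, map_zero] at this)

lemma git_mono (hI : St_INV) {m N : ℕ} {p : PP m N} {s s' : Fin 3} (h : s ≤ s') (H : Git s p) :
    Git s' p := by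
  fin_cases s <;> fin_cases s' <;> simp_all [Git] <;>
    first | exact H.1 | exact hI.semi _ H.1 | exact hI.semi _ H

lemma chowAt_mono (hI : St_INV) {f : P4} {k : ℕ} {s s' : Fin 3} (h : s ≤ s') (H : ChowAt s f k) :
    ChowAt s' f k := by
  obtain ⟨N, b, R, h1, h2, h3⟩ := H
  exact ⟨N, b, R, h1, h2, git_mono hI h h3⟩

/-- The case of a cubic that degenerates to `f0`. -/
theorem nf2_case (hI : St_INV) (hN : St_NULL) (hB : St_BC) (hG : St_G2) (hS : St_SB)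
    (hT : St_T2) (hD : St_D1) (ha : St_S3a) (hb : St_S3b) (hc : St_S3c) (s : Fin 3) {f : P4}
    (hf : NF2 f) : Git s (lift4 f) ↔ ∃ k0, ∀ k ≥ k0, ChowAt s f k := by
  have hirr := hG.irr f hf
  have hirr0 := hG.irr f0 nf2_f0
  have key : ∀ k, 3 ≤ k → ChowAt 2 f k ∧ (ChowAt 1 f k → Eq0 f) ∧ ¬ ChowAt 0 f k := by
    intro k hk
    obtain ⟨⟨N, e, he⟩, hbas⟩ := hS k
    have b1 := hbas N e f he hf
    have b0 := hbas N e f0 he nf2_f0
    obtain ⟨R, hR⟩ := hB.ex f k N _ hirr.ne_zero hf.1 (by omega) b1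
    have hR' := (hB.irr f N _ R hirr).1 hR
    obtain ⟨R0, h0, hcl, hns⟩ := hD k N e f R (by omega) he hf hR'
    have hp0 : Poly R0 := (hB.all 1 f0 k hirr0.ne_zero nf2_f0.1 (by omega)).1 (hT k (by omega))
      N _ R0 b0 ((hB.irr f0 N _ R0 hirr0).2 h0)
    have horb : Poly R → ∃ g : SL N, act (g : Mat N) R = R0 := fun hp => by
      rw [hp.2.closure_eq] at hcl
      obtain ⟨g, hg⟩ := hcl
      exact ⟨g, moved_inj (by rw [← moved_eq]; exact hg)⟩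
    refine ⟨⟨N, _, R, b1, hR, hN.lim R R0 hcl (hI.semi _ hp0)⟩, fun h1 => ?_, fun h1 => ?_⟩
    · obtain ⟨g, hg⟩ := horb ((hB.all 1 f k hirr.ne_zero hf.1 (by omega)).1 h1 N _ R b1 hR)
      obtain ⟨b2, hR2⟩ := hB.glN f k N _ R g (by simp) b1 hR'
      rw [hg] at hR2
      obtain ⟨x, hx, hli⟩ := ha k N f _ _ R0 (by omega) hirr hf.1 b2 b0 hR2 h0
      refine hc f x hf.1 hirr (hG.semi f hf) hli fun i => hb k f (x i) hk hf.1 ?_ (hx i).1 (hx i).2
      simpa using (hli i (i + 1) (by fin_cases i <;> simp)).ne_zero 0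
    · have hst : Stab R := (hB.all 0 f k hirr.ne_zero hf.1 (by omega)).1 h1 N _ R b1 hR
      obtain ⟨g, hg⟩ := horb hst.1
      exact hns (hg ▸ (hI.act 0 R g (by simp)).2 hst)
  have ev : ∀ {P : ℕ → Prop}, (∃ k0, ∀ k ≥ k0, P k) → ∃ k, 3 ≤ k ∧ P k := fun ⟨k0, h⟩ =>
    ⟨max k0 3, le_max_right _ _, h _ (le_max_left _ _)⟩
  have e0 : Eq0 f → Poly (lift4 f) ∧ (¬ Stab (lift4 f)) ∧ ∀ k, 2 ≤ k → ChowAt 1 f k := by
    rintro ⟨M, hM, h⟩
    refine ⟨(hI.act 1 _ M hM).1 ?_, fun h1 => hG.nstab0 ?_, fun k hk => (hB.gl4 1 f k M hM).1 ?_⟩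
    · rw [← lift4_sub4, h]; exact hG.poly0
    · rw [← h, lift4_sub4]; exact (hI.act 0 _ M hM).2 h1
    · rw [h]; exact hT k hk
  fin_cases s
  · refine iff_of_false (fun h => (e0 (hG.eq0 f hf h.1)).2.1 h) fun h => ?_
    obtain ⟨k, hk, h⟩ := ev h
    exact (key k hk).2.2 h
  · refine ⟨fun h => ⟨2, (e0 (hG.eq0 f hf h)).2.2⟩, fun h => ?_⟩
    obtain ⟨k, hk, h⟩ := ev h
    exact (e0 ((key k hk).2.1 h)).1
  · exact iff_of_true (hG.semi f hf) ⟨3, fun k hk => (key k hk).1⟩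

theorem main_of (hI : St_INV) (hN : St_NULL) (hB : St_BC) (hG : St_G2) (hS : St_SB)
    (hT : St_T2) (hD : St_D1) (ha : St_S3a) (hb : St_S3b) (hc : St_S3c) (hC : St_CL) (hA : St_A1)
    (hU : St_UN) (hE : St_STAB) (s : Fin 3) (f : P4) (hf : f.IsHomogeneous 3) (h0 : f ≠ 0) :
    Git s (lift4 f) ↔ ∃ k0, ∀ k ≥ k0, ChowAt s f k := by
  by_cases h : Deg2 f
  · obtain ⟨M, hM, h⟩ := hC f hf h
    rw [← hI.act s _ M hM, ← lift4_sub4]
    simp only [← hB.gl4 s f _ M hM]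
    rcases h with h | h
    · have hs : s ≤ 2 := Fin.le_last s
      refine iff_of_false (fun h1 => hG.unst _ (hom_sub4 hf M) h (git_mono hI hs h1)) ?_
      rintro ⟨k0, h1⟩
      exact hU _ (max k0 1) (sub4_ne_zero h0 hM) (hom_sub4 hf M) h (le_max_right _ _)
        (chowAt_mono hI hs (h1 _ (le_max_left _ _)))
    · exact nf2_case hI hN hB hG hS hT hD ha hb hc s h
  · obtain ⟨k0, hk⟩ := hE
    exact iff_of_true (git_mono hI (Fin.zero_le s) (hA.stab f hf h))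
      ⟨k0, fun k hk' => chowAt_mono hI (Fin.zero_le s) (hk k hk' f hf h)⟩

end Pool.Agent.Lib.MP_a25055_ag
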