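import Pool.Agent.Lib.MP_a25055_ag.All1
import Pool.Agent.Lib.MP_a25055_ag.All2
import Pool.Agent.Lib.MP_a25055_ag.Glue1
import Pool.Agent.Lib.MP_a25055_ag.GVAL
import Pool.Agent.Lib.MP_a25055_ag.GPROX
import Pool.Agent.Lib.MP_a25055_ag.GDIV
import Pool.Agent.Lib.MP_a25055_ag.GCNT
import Pool.Agent.Lib.MP_a25055_ag.GGEN
import Pool.Agent.Lib.MP_a25055_ag.GCEN
import Pool.Agent.Lib.MP_a25055_ag.GORD
import Pool.Agent.Lib.MP_a25055_ag.GDEGE
import Pool.Agent.Lib.MP_a25055_ag.GNOE
import Pool.Agent.Lib.MP_a25055_ag.GCLF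
import Pool.Agent.Lib.MP_a25055_ag.GPLANE
import Pool.Agent.Lib.MP_a25055_ag.GHUR
import Pool.Agent.Lib.MP_a25055_ag.GVGD
import Pool.Agent.Lib.MP_a25055_ag.GSYS
import Pool.Agent.Lib.MP_a25055_ag.GVG7
import Pool.Agent.Lib.MP_a25055_ag.GIRR
import Pool.Agent.Lib.MP_a25055_ag.GG1P
import Pool.Agent.Lib.MP_a25055_ag.GG3P
import Pool.Agent.Lib.MP_a25055_ag.GCOLG
import Pool.Agent.Lib.MP_a25055_ag.GRRG
import Pool.Agent.Lib.MP_a25055_ag.GKER
import Pool.Agent.Lib.MP_a25055_ag.GMODN
import Pool.Agent.Lib.MP_a25055_ag.GMODS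
import Pool.Agent.Lib.MP_a25055_ag.GG3L
import Pool.Agent.Lib.MP_a25055_ag.GESTM
import Pool.Agent.Lib.MP_a25055_ag.GEST
import Pool.Agent.Lib.MP_a25055_ag.BSTAB

namespace Pool.Agent.Lib.MP_a25055_ag

theorem st_val : St_VAL := val_of

theorem st_prox : St_PROX := prox_of st_val

theorem st_div : St_DIV := div_of st_val st_prox

theorem st_cnt : St_CNT := cnt_of st_val

theorem st_gen : St_GEN := gen_of

theorem st_cen : St_CEN := cen_of

theorem st_ord : St_ORD := ord_of st_val st_prox

theorem st_dege : St_DEGE := dege_of st_val st_ord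

theorem st_noe : St_NOE := noe_of st_val st_prox st_gen st_cen st_ord st_dege

theorem st_clf : St_CLF := clf_of

theorem st_plane : St_PLANE := plane_of st_prox st_div st_cnt st_ord st_noe st_clf

theorem st_hur : St_HUR := hur_of st_val st_ord st_dege

theorem st_vgd : St_VGD := vgd_of

theorem st_sys : St_SYS := sys_of st_na st_val st_prox st_div st_plane

theorem st_vg : St_VG := vg_of st_val st_prox st_vgd st_sys

theorem st_irr : St_IRR := irr_of st_na st_val st_div st_noe st_plane st_sys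

theorem st_g1p : St_G1P := g1p_of st_noe st_ord st_clf st_hur st_sys st_vg st_irr

theorem st_g3p : St_G3P := g3p_of st_div st_noe st_ord st_clf st_sys st_vg st_irr

theorem st_colg : St_COLG := colg_of st_val st_prox st_div st_ord st_noe st_clf st_plane st_sys

theorem st_rrg : St_RRG := rrg_of st_na st_low st_div st_sys st_vg st_irr st_g1p st_colg

theorem st_ker : St_KER := ker_of

theorem st_modn : St_MODN := modn_of st_a1 st_val st_div st_noe st_plane st_ker

theorem st_mods : St_MODS := mods_of st_nb st_val st_div st_noe st_plane st_ker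

theorem st_g3l : St_G3L := g3l_of st_hf st_g3n st_val st_div st_sys st_g3p

theorem st_estm : St_ESTM := estm_of st_hf st_core st_val st_div st_colg st_rrg st_g3l

theorem st_est : St_EST := est_of st_a1 st_l1 st_l2 st_l3 st_n1 st_modn st_mods st_estm

theorem st_stab : St_STAB := stab_of st_hm st_cw st_bc st_a1 st_est

end Pool.Agent.Lib.MP_a25055_ag
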