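import Pool.Agent.Lib.MP_a25055_ag.Inv

/-! Algebraic part of the comparison of the Chow form with the Koszul torsion. -/

open MvPolynomial Module

noncomputable section

namespace Pool.Agent.Lib.MP_a25055_ag.BCT

lemma nss {ι : Type} [Fintype ι] (S : Set (MvPolynomial ι ℂ)) (p : MvPolynomial ι ℂ)
    (h : ∀ x : ι → ℂ, (∀ q ∈ S, eval x q = 0) → eval x p = 0) :
    ∃ m, p ^ m ∈ Ideal.span S := by
  have : p ∈ vanishingIdeal ℂ (zeroLocus ℂ (Ideal.span S)) := by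
    rw [zeroLocus_span]
    intro x hx
    exact h x fun q hq => hx q hq
  rw [vanishingIdeal_zeroLocus_eq_radical] at this
  exact this

lemma nss1 {ι : Type} [Fintype ι] {q p : MvPolynomial ι ℂ}
    (h : ∀ x : ι → ℂ, eval x q = 0 → eval x p = 0) : ∃ m, q ∣ p ^ m := by
  obtain ⟨m, hm⟩ := nss {q} p fun x hx => h x (hx q rfl)
  exact ⟨m, Ideal.mem_span_singleton.1 hm⟩

/-- Scaling of the variables. -/
def scal {ι : Type} (t : ℂ) : MvPolynomial ι ℂ →ₐ[ℂ] MvPolynomial ι ℂ := aeval fun a => t • X a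

lemma scal_scal {ι : Type} (t u : ℂ) (p : MvPolynomial ι ℂ) :
    scal t (scal u p) = scal (t * u) p := by
  have : (scal t).comp (scal u) = (scal (t * u) : MvPolynomial ι ℂ →ₐ[ℂ] _) :=
    algHom_ext fun a => by simp [scal, smul_smul, mul_comm]
  exact DFunLike.congr_fun this p

lemma scal_ne {ι : Type} {t : ℂ} (ht : t ≠ 0) {p : MvPolynomial ι ℂ} (hp : p ≠ 0) :
    scal t p ≠ 0 := fun h => hp (by
  have := congrArg (scal t⁻¹) h
  rw [scal_scal, inv_mul_cancel₀ ht, map_zero] at this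
  simpa [scal] using this)

lemma scal_hom {ι : Type} (t : ℂ) {p : MvPolynomial ι ℂ} {e : ℕ} (hp : p.IsHomogeneous e) :
    scal t p = t ^ e • p := by
  conv_lhs => rw [p.as_sum]
  conv_rhs => rw [p.as_sum]
  rw [map_sum, Finset.smul_sum]
  refine Finset.sum_congr rfl fun a ha => ?_
  have hd : ∑ i ∈ a.support, a i = e := by
    have := hp (mem_support_iff.1 ha)
    rw [← this, Finsupp.weight_apply]
    simp [Finsupp.sum]
  rw [scal, aeval_monomial, monomial_eq, Finsupp.prod, Finsupp.prod]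
  simp only [smul_pow, Finset.prod_smul, Finset.prod_pow_eq_pow_sum, hd, algebraMap_eq,
    mul_smul_comm]

/-- A reduced fraction with zeros and poles in the incidence set and of positive degree. -/
lemma frac_eq {ι : Type} [Fintype ι] {Z : Set (ι → ℂ)}
    (hZ : ∀ p q : MvPolynomial ι ℂ, (∀ H ∈ Z, eval H (p * q) = 0) →
      (∀ H ∈ Z, eval H p = 0) ∨ ∀ H ∈ Z, eval H q = 0)
    {δ : MvPolynomial ι ℂ} (hδ : δ ≠ 0) (hδZ : ∀ H ∈ Z, eval H δ = 0) {E : ℕ} (hE : 0 < E)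
    (hdeg : ∀ R : MvPolynomial ι ℂ, Irreducible R → (∀ H, eval H R = 0 ↔ H ∈ Z) →
      ∃ e, E ≤ e ∧ R.IsHomogeneous e)
    {p q : MvPolynomial ι ℂ} (hp0 : p ≠ 0) (hq0 : q ≠ 0) (hp : ∀ H, eval H p = 0 → H ∈ Z)
    (hq : ∀ H, eval H q = 0 → H ∈ Z) (h : scal 2 p * q = (2 : ℂ) ^ E • (p * scal 2 q)) :
    ∃ (R : MvPolynomial ι ℂ) (c : ℂ), Irreducible R ∧ (∀ H, eval H R = 0 ↔ H ∈ Z) ∧
      R.IsHomogeneous E ∧ c ≠ 0 ∧ p = c • R * q := by
  have two : ∀ a b : ℕ, (2 : ℂ) ^ a = 2 ^ b → a = b := fun a b e =>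
    Nat.pow_right_injective le_rfl (by exact_mod_cast e)
  have un : ∀ u : MvPolynomial ι ℂ, IsUnit u → ∃ c : ℂ, c ≠ 0 ∧ u = C c := fun u hu => by
    obtain ⟨c, hc, e⟩ := isUnit_iff_eq_C_of_isReduced.1 hu
    exact ⟨c, hc.ne_zero, e⟩
  have hnu : ¬ IsUnit (p * q) := fun hu => by
    obtain ⟨c, hc, rfl⟩ := un p (isUnit_of_mul_isUnit_left hu)
    obtain ⟨c', hc', rfl⟩ := un q (isUnit_of_mul_isUnit_right hu)
    simp only [scal, algHom_C, algebraMap_eq, ← C_mul, smul_eq_C_mul, C_inj] at h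
    have := two 0 E (mul_right_cancel₀ (mul_ne_zero hc hc') (by rw [pow_zero, one_mul]; exact h))
    omega
  obtain ⟨R, hR, hRd⟩ := WfDvdMonoid.exists_irreducible_factor hnu (mul_ne_zero hp0 hq0)
  have hRZ : ∀ H, eval H R = 0 → H ∈ Z := fun H hH => by
    obtain ⟨w, hw⟩ := hRd
    have := congrArg (eval H) hw
    rw [map_mul, map_mul, hH, zero_mul] at this
    exact (mul_eq_zero.1 this).elim (hp H) (hq H)
  have hdvd : ∀ w : MvPolynomial ι ℂ, (∀ H ∈ Z, eval H w = 0) → R ∣ w := fun w hw => by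
    obtain ⟨m, hm⟩ := nss1 (q := R) (p := w) fun x hx => hw x (hRZ x hx)
    exact hR.prime.dvd_of_dvd_pow hm
  have hZR : ∀ H ∈ Z, eval H R = 0 := by
    revert hδ hδZ
    induction δ using UniqueFactorizationMonoid.induction_on_prime with
    | h₁ => exact fun h _ => (h rfl).elim
    | h₂ u hu => exact fun _ hz => (hR.not_isUnit (isUnit_of_dvd_unit (hdvd u hz) hu)).elim
    | h₃ a r ha hr ih =>
      intro _ hz
      refine (hZ r a hz).elim (fun h1 H hH => ?_) (ih ha)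
      obtain ⟨w, hw⟩ := (hR.associated_of_dvd hr.irreducible (hdvd r h1)).symm.dvd
      rw [hw, map_mul, h1 H hH, zero_mul]
  have hiff : ∀ H, eval H R = 0 ↔ H ∈ Z := fun H => ⟨hRZ H, hZR H⟩
  obtain ⟨e, he, hRe⟩ := hdeg R hR hiff
  have pw : ∀ w : MvPolynomial ι ℂ, (∀ H, eval H w = 0 → H ∈ Z) →
      ∃ (c : ℂ) (i : ℕ), c ≠ 0 ∧ w = c • R ^ i := fun w hw => by
    obtain ⟨m, hm⟩ := nss1 (q := w) (p := R) fun x hx => hZR x (hw x hx)
    obtain ⟨i, -, u, hu⟩ := (dvd_prime_pow hR.prime m).1 hm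
    obtain ⟨c, hc, e⟩ := un _ u⁻¹.isUnit
    exact ⟨c, i, hc, by rw [smul_eq_C_mul, ← e, ← hu, mul_comm, Units.mul_inv_cancel_right]⟩
  obtain ⟨c, i, hc, rfl⟩ := pw p hp
  obtain ⟨c', j, hc', rfl⟩ := pw q hq
  simp only [map_smul, map_pow, scal_hom 2 hRe, smul_pow, smul_mul_assoc, mul_smul_comm,
    smul_smul, ← pow_mul] at h
  have h2 := smul_left_injective ℂ (mul_ne_zero (pow_ne_zero i hR.ne_zero)
    (pow_ne_zero j hR.ne_zero)) h
  have h3 : e * i = E + e * j := two _ _ (mul_left_cancel₀ (mul_ne_zero hc hc') (by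
    rw [pow_add]; linear_combination h2))
  have hij : j < i := by
    by_contra hh
    have := Nat.mul_le_mul_left e (not_lt.1 hh)
    omega
  obtain ⟨l, rfl⟩ := Nat.exists_eq_add_of_lt hij
  have h4 : e * l + e = E := by
    have : e * (j + l + 1) = e * j + (e * l + e) := by ring
    omega
  have h5 : e = E := by omega
  have h6 : l = 0 := by
    have : e * l = 0 := by omega
    exact (Nat.mul_eq_zero.1 this).resolve_left (by omega)
  subst h5 h6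
  refine ⟨R, c / c', hR, hiff, hRe, div_ne_zero hc hc', ?_⟩
  rw [smul_mul_assoc, mul_smul_comm, smul_smul, div_mul_cancel₀ _ hc', add_zero, pow_succ']

section tor

variable {N : ℕ} {I0 I1 I2 I3 : Type} [Fintype I0] [Fintype I1] [Fintype I2] [Fintype I3]
  [DecidableEq I0] [DecidableEq I1] [DecidableEq I2] [DecidableEq I3]
  (σ : (Fin 3 × I1) ⊕ I3 ≃ I0 ⊕ (Fin 3 × I2)) (μ0 : Fin N → Matrix I0 I1 ℂ)
  (μ1 : Fin N → Matrix I1 I2 ℂ) (μ2 : Fin N → Matrix I2 I3 ℂ)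

/-- Torsion of the Koszul complex at `h`. -/
def TorAt {A : Type} [CommRing A] [Algebra ℂ A] (h : Fin 3 × Fin N → A) (τ : A) : Prop :=
  IsTor σ (kos1 (mulM μ0 h)) (kos2 (mulM μ1 h)) (kos3 (mulM μ2 h)) τ

section
variable {A B I J : Type} [CommRing A] [Algebra ℂ A] [CommRing B] [Algebra ℂ B] (φ : A →ₐ[ℂ] B)
  (μ : Fin N → Matrix I J ℂ) (h : Fin 3 × Fin N → A)

lemma kos1_map : (kos1 (mulM μ h)).map φ.toRingHom = kos1 (mulM μ (φ ∘ h)) := by
  ext c a; simp [kos1, mulM]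

lemma kos2_map : (kos2 (mulM μ h)).map φ.toRingHom = kos2 (mulM μ (φ ∘ h)) := by
  ext c a
  simp only [kos2, Matrix.map_apply]
  split_ifs <;> simp [mulM]

lemma kos3_map : (kos3 (mulM μ h)).map φ.toRingHom = kos3 (mulM μ (φ ∘ h)) := by
  ext c a; simp [kos3, mulM]

lemma kos1_smul (t : ℂ) : kos1 (mulM μ (t • h)) = algebraMap ℂ A t • kos1 (mulM μ h) := by
  ext c a; simp [kos1, mulM, Finset.mul_sum, Algebra.smul_def, mul_left_comm]

lemma kos2_smul (t : ℂ) : kos2 (mulM μ (t • h)) = algebraMap ℂ A t • kos2 (mulM μ h) := by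
  ext c a
  simp only [kos2, Matrix.smul_apply]
  split_ifs <;> simp [mulM, Finset.mul_sum, Algebra.smul_def, mul_left_comm]

lemma kos3_smul (t : ℂ) : kos3 (mulM μ (t • h)) = algebraMap ℂ A t • kos3 (mulM μ h) := by
  ext c a; simp [kos3, mulM, Finset.mul_sum, Algebra.smul_def, mul_left_comm]

end

variable {σ μ0 μ1 μ2}

lemma TorAt.map (k1 : St_K1) {A B : Type} [CommRing A] [Algebra ℂ A] [CommRing B] [Algebra ℂ B]
    (φ : A →ₐ[ℂ] B) {h : Fin 3 × Fin N → A} {τ : A} (H : TorAt σ μ0 μ1 μ2 h τ) :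
    TorAt σ μ0 μ1 μ2 (φ ∘ h) (φ τ) := by
  have := k1.map φ.toRingHom σ _ _ _ τ H
  rwa [kos1_map, kos2_map, kos3_map] at this

lemma TorAt.scale (k1 : St_K1) {F : Type} [Field F] [Algebra ℂ F] {h : Fin 3 × Fin N → F}
    {τ τ' : F} {t : ℂ} (ht : t ≠ 0) (H : TorAt σ μ0 μ1 μ2 h τ) (H' : TorAt σ μ0 μ1 μ2 (t • h) τ')
    {E : ℕ} (hE : 3 * Fintype.card I1 + 3 * Fintype.card I3 = E + 6 * Fintype.card I2) :
    τ' = algebraMap ℂ F t ^ E * τ := by
  obtain ⟨u, hu'⟩ : ∃ u, u = algebraMap ℂ F t := ⟨_, rfl⟩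
  have hu : u ≠ 0 := by simpa [hu'] using ht
  rw [← hu']
  have := k1.change σ _ _ _ _ _ _ τ τ' 1 (u • 1) (u ^ 2 • 1) (u ^ 3 • 1) (by simp) (by simp [hu])
    (by simp [hu]) (by simp [hu]) (by rw [kos1_smul, ← hu']; simp)
    (by rw [kos2_smul, ← hu']; simp [smul_smul, pow_two])
    (by rw [kos3_smul, ← hu']; simp [smul_smul, pow_succ, mul_assoc]) H H'
  simp only [Matrix.det_smul, Matrix.det_one, mul_one, Fintype.card_prod, Fintype.card_fin,
    ← pow_mul] at this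
  refine mul_right_cancel₀ (pow_ne_zero (2 * (3 * Fintype.card I2)) hu) ?_
  rw [← this, mul_assoc, ← pow_add, hE, pow_add]
  ring

/-- The torsion over the ring where `δ` is inverted. -/
lemma away (k1 : St_K1) {δ : PP 3 N}
    (hk : Killed δ (kos1 (mulM μ0 X)) (kos2 (mulM μ1 X)) (kos3 (mulM μ2 X))) :
    ∃ τ : Localization.Away δ, TorAt σ μ0 μ1 μ2 (fun a => algebraMap (PP 3 N) _ (X a)) τ := by
  obtain ⟨τ, hτ⟩ := k1.ex (IsScalarTower.toAlgHom ℂ (PP 3 N) (Localization.Away δ)).toRingHom σ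
    _ _ _ δ hk (IsLocalization.Away.algebraMap_isUnit δ)
  rw [kos1_map, kos2_map, kos3_map] at hτ
  exact ⟨τ, hτ⟩

/-- Evaluation on the localization. -/
lemma exists_lift {F : Type} [Field F] [Algebra ℂ F] {δ : PP 3 N} {h : Fin 3 × Fin N → F}
    (hδ : aeval h δ ≠ 0) : ∃ ψ : Localization.Away δ →ₐ[ℂ] F,
      ∀ p, ψ (algebraMap (PP 3 N) _ p) = aeval h p :=
  ⟨IsLocalization.liftAlgHom (M := Submonoid.powers δ) (f := aeval h) (by
    rintro ⟨_, m, rfl⟩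
    simpa using (pow_ne_zero m hδ)), fun p => by simp⟩

lemma cmp {F : Type} [Field F] [Algebra ℂ F] {δ : PP 3 N} {h : Fin 3 × Fin N → F}
    {ψ : Localization.Away δ →ₐ[ℂ] F} (hψ : ∀ p, ψ (algebraMap (PP 3 N) _ p) = aeval h p) :
    (ψ ∘ fun a => algebraMap (PP 3 N) _ (X a)) = h := by
  ext a; simp [hψ]

theorem tor_eq (k1 : St_K1) {Z : Set (Fin 3 × Fin N → ℂ)}
    (hZ : ∀ p q : PP 3 N, (∀ H ∈ Z, eval H (p * q) = 0) →
      (∀ H ∈ Z, eval H p = 0) ∨ ∀ H ∈ Z, eval H q = 0)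
    {S : Finset (PP 3 N)} (hS : ∀ δ ∈ S, (∀ H ∈ Z, eval H δ = 0) ∧
      Killed δ (kos1 (mulM μ0 X)) (kos2 (mulM μ1 X)) (kos3 (mulM μ2 X)))
    (hS' : ∀ H ∉ Z, ∃ δ ∈ S, eval H δ ≠ 0) (hne : ∃ H, H ∉ Z) {E : ℕ} (hE0 : 0 < E)
    (hE : 3 * Fintype.card I1 + 3 * Fintype.card I3 = E + 6 * Fintype.card I2)
    (hdeg : ∀ R : PP 3 N, Irreducible R → (∀ H, eval H R = 0 ↔ H ∈ Z) →
      ∃ e, E ≤ e ∧ R.IsHomogeneous e) :
    ∃ (R : PP 3 N) (c : ℂ), Irreducible R ∧ (∀ H, eval H R = 0 ↔ H ∈ Z) ∧ R.IsHomogeneous E ∧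
      c ≠ 0 ∧ ∀ (F : Type) [Field F] [Algebra ℂ F] (h : Fin 3 × Fin N → F), aeval h R ≠ 0 →
        TorAt σ μ0 μ1 μ2 h (c • aeval h R) := by
  let K := FractionRing (PP 3 N)
  let x : Fin 3 × Fin N → K := fun a => algebraMap (PP 3 N) K (X a)
  have hx : ∀ p, aeval x p = algebraMap (PP 3 N) K p := fun p =>
    DFunLike.congr_fun (algHom_ext (f := aeval x) (g := IsScalarTower.toAlgHom ℂ (PP 3 N) K)
      fun a => by simp [x]) p
  have inj := IsFractionRing.injective (PP 3 N) K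
  obtain ⟨H0, hH0⟩ := hne
  obtain ⟨δ0, hδ0, h0⟩ := hS' H0 hH0
  have h0' : δ0 ≠ 0 := fun e => h0 (by simp [e])
  have nz : ∀ δ : PP 3 N, δ ≠ 0 → aeval x δ ≠ 0 := fun δ h => by
    rw [hx]; exact (map_ne_zero_iff _ inj).2 h
  obtain ⟨T, hT⟩ : ∃ T, TorAt σ μ0 μ1 μ2 x T := by
    obtain ⟨τ, hτ⟩ := away (σ := σ) k1 (hS δ0 hδ0).2
    obtain ⟨ψ, hψ⟩ := exists_lift (nz δ0 h0')
    have := hτ.map k1 ψ
    rw [cmp hψ] at this
    exact ⟨_, this⟩
  obtain ⟨p, ⟨q, hq⟩, hpq, e⟩ := IsFractionRing.exists_reduced_fraction (PP 3 N) T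
  have hq0 : q ≠ 0 := nonZeroDivisors.ne_zero hq
  have e1 : T * algebraMap _ K q = algebraMap _ K p := by
    rw [← e]; exact IsLocalization.mk'_spec K p ⟨q, hq⟩
  have hp0 : p ≠ 0 := fun h => by
    rw [h, map_zero, mul_eq_zero] at e1
    exact e1.elim (k1.uniq σ _ _ _ T hT).1.ne_zero ((map_ne_zero_iff _ inj).2 hq0)
  have key : ∀ δ ∈ S, δ ≠ 0 → (∃ m, p ∣ δ ^ m) ∧ (∃ m, q ∣ δ ^ m) ∧
      ∀ (F : Type) [Field F] [Algebra ℂ F] (h : Fin 3 × Fin N → F), aeval h δ ≠ 0 →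
        ∃ τ, TorAt σ μ0 μ1 μ2 h τ ∧ ∀ a b : PP 3 N, T * algebraMap _ K b = algebraMap _ K a →
          τ * aeval h b = aeval h a := by
    intro δ hδ hδ0
    obtain ⟨τ, hτ⟩ := away (σ := σ) k1 (hS δ hδ).2
    obtain ⟨ψ, hψ⟩ := exists_lift (nz δ hδ0)
    have hτT : ψ τ = T := (k1.uniq σ _ _ _ T hT).2 _ (by
      have := hτ.map k1 ψ
      rwa [cmp hψ] at this)
    have hψi : Function.Injective ψ := by
      refine (injective_iff_map_eq_zero ψ).2 fun z hz => ?_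
      obtain ⟨⟨r, s⟩, hrs⟩ := IsLocalization.surj (Submonoid.powers δ) z
      have h1 := congrArg ψ hrs
      rw [map_mul, hz, zero_mul, hψ, hx, eq_comm, map_eq_zero_iff _ inj] at h1
      simp only at h1
      rw [h1, map_zero] at hrs
      exact (IsLocalization.map_units _ s).mul_left_eq_zero.1 hrs
    have e2 : ∀ a b : PP 3 N, T * algebraMap _ K b = algebraMap _ K a →
        τ * algebraMap _ _ b = algebraMap _ _ a := fun a b hab =>
      hψi (by rw [map_mul, hτT, hψ, hψ, hx, hx, hab])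
    have dv : ∀ (z : Localization.Away δ) (a b : PP 3 N), IsRelPrime b a →
        z * algebraMap _ _ b = algebraMap _ _ a → ∃ m, b ∣ δ ^ m := fun z a b hab hz => by
      obtain ⟨⟨r, _, m, rfl⟩, hrs⟩ := IsLocalization.surj (Submonoid.powers δ) z
      refine ⟨m, hab.dvd_of_dvd_mul_left ⟨r, inj ?_⟩⟩
      have := congrArg ψ hrs
      have h2 := congrArg ψ hz
      simp only [map_mul, hψ, hx] at this h2 ⊢
      rw [← this, ← h2]; ring
    obtain ⟨u, rfl⟩ := (k1.uniq σ _ _ _ τ hτ).1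
    refine ⟨dv u⁻¹.1 q p hpq ?_, dv u p q hpq.symm (e2 p q e1), fun F _ _ h hh => ?_⟩
    · rw [← e2 p q e1, Units.inv_mul_cancel_left]
    · obtain ⟨χ, hχ⟩ := exists_lift hh
      refine ⟨χ u, ?_, fun a b hab => ?_⟩
      · have := hτ.map k1 χ
        rwa [cmp hχ] at this
      · rw [← hχ, ← hχ, ← map_mul, e2 a b hab]
  have zer : ∀ w : PP 3 N, (∀ δ ∈ S, δ ≠ 0 → ∃ m, w ∣ δ ^ m) → ∀ H, eval H w = 0 → H ∈ Z :=
    fun w hw H hH => by
      by_contra hn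
      obtain ⟨δ, hδ, hh⟩ := hS' H hn
      obtain ⟨m, z, hz⟩ := hw δ hδ fun e => hh (by simp [e])
      have := congrArg (eval H) hz
      rw [map_mul, hH, zero_mul, map_pow] at this
      exact hh (pow_eq_zero_iff'.1 this).1
  have hsc : ∀ w : PP 3 N, aeval ((2 : ℂ) • x) w = algebraMap _ K (scal 2 w) := fun w => by
    rw [← hx]
    exact DFunLike.congr_fun (algHom_ext (f := aeval ((2 : ℂ) • x)) (g := (aeval x).comp (scal 2))
      fun a => by simp [scal]) w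
  obtain ⟨τ', hτ', e3⟩ := (key δ0 hδ0 h0').2.2 K ((2 : ℂ) • x) (by
    rw [hsc]; exact (map_ne_zero_iff _ inj).2 (scal_ne two_ne_zero h0'))
  have e4 := e3 p q e1
  rw [hT.scale k1 two_ne_zero hτ' hE, hsc, hsc] at e4
  obtain ⟨R, c, hR, hRZ, hRE, hc, e5⟩ := frac_eq hZ h0' (hS δ0 hδ0).1 hE0 hdeg hp0 hq0
    (zer p fun δ h h' => (key δ h h').1) (zer q fun δ h h' => (key δ h h').2.1) (inj (by
      rw [map_mul, ← e4, Algebra.smul_def, map_mul, map_mul, ← e1,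
        ← IsScalarTower.algebraMap_apply, map_pow]; ring))
  refine ⟨R, c, hR, hRZ, hRE, hc, fun F _ _ h hh => ?_⟩
  obtain ⟨δ, hδ, hδh⟩ : ∃ δ ∈ S, aeval h δ ≠ 0 := by
    by_contra hn
    push Not at hn
    obtain ⟨m, hm⟩ := nss (S : Set (PP 3 N)) R fun H hH => (hRZ H).2 (by
      by_contra hz
      obtain ⟨δ, hδ, hh⟩ := hS' H hz
      exact hh (hH δ hδ))
    have : Ideal.span (S : Set (PP 3 N)) ≤ RingHom.ker (aeval h : PP 3 N →ₐ[ℂ] F) :=
      Ideal.span_le.2 fun δ hδ => hn δ hδ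
    have := this hm
    rw [RingHom.mem_ker, map_pow] at this
    exact hh (pow_eq_zero_iff'.1 this).1
  obtain ⟨τ, hτ, e6⟩ := (key δ hδ fun e => hδh (by simp [e])).2.2 F h hδh
  have := e6 (c • R) 1 (mul_right_cancel₀ ((map_ne_zero_iff _ inj).2 hq0) (by
    rw [map_one, mul_one, e1, ← map_mul, ← e5]))
  rw [map_one, mul_one, map_smul] at this
  rwa [← this]

end tor

end Pool.Agent.Lib.MP_a25055_ag.BCT
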