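import Pool.Agent.Lib.MP_a25055_ag.Inv

/-! Block CW, part 1: linear algebra (adapted bases, generic surjectivity, growth bound). -/

open MvPolynomial Module

noncomputable section

namespace Pool.Agent.Lib.MP_a25055_ag.BCW

/-- A decreasing chain of subspaces that ends in zero has an adapted basis (set form). -/
lemma adapted_set {A : Type} [AddCommGroup A] [Module ℂ A] (M : ℕ) :
    ∀ F : ℕ → Submodule ℂ A, Antitone F → F (M + 1) = ⊥ →
      ∃ (S : Set A) (ω : A → ℕ), LinearIndepOn ℂ id S ∧ (∀ x ∈ S, ω x ≤ M) ∧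
        ∀ s, F s = Submodule.span ℂ {x | x ∈ S ∧ s ≤ ω x} := by
  classical
  have step : ∀ (M : ℕ) (F : ℕ → Submodule ℂ A), Antitone F → ∀ (S : Set A) (ω : A → ℕ),
      LinearIndepOn ℂ id S → (∀ x ∈ S, ω x + 1 ≤ M) →
      (∀ s, F (s + 1) = Submodule.span ℂ {x | x ∈ S ∧ s ≤ ω x}) →
      ∃ (S : Set A) (ω : A → ℕ), LinearIndepOn ℂ id S ∧ (∀ x ∈ S, ω x ≤ M) ∧
        ∀ s, F s = Submodule.span ℂ {x | x ∈ S ∧ s ≤ ω x} := by
    intro M F hF S ω hS hω hs
    have hsub : S ⊆ (F 0 : Set A) := fun x hx => by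
      apply hF (Nat.zero_le 1)
      rw [hs 0]
      exact Submodule.subset_span ⟨hx, Nat.zero_le _⟩
    obtain ⟨b, hb, hSb, hsp, hli⟩ := exists_linearIndepOn_id_extension hS hsub
    refine ⟨b, fun x => if x ∈ S then ω x + 1 else 0, hli, fun x _ => ?_, fun s => ?_⟩
    · by_cases hx : x ∈ S
      · simp only [hx, if_true]; exact hω x hx
      · simp [hx]
    · cases s with
      | zero =>
        have : {x | x ∈ b ∧ 0 ≤ (if x ∈ S then ω x + 1 else 0)} = b := by ext; simp
        rw [this]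
        exact le_antisymm hsp (Submodule.span_le.2 hb)
      | succ s =>
        rw [hs s]
        congr 1
        ext x
        by_cases hx : x ∈ S
        · simp [hx, hSb hx]
        · simp [hx]
  induction M with
  | zero =>
    intro F hF h0
    refine step 0 F hF ∅ (fun _ => 0) (linearIndepOn_empty _ _) (by simp) fun s => ?_
    have : F (s + 1) = ⊥ := le_bot_iff.1 (h0 ▸ hF (by omega))
    simp [this]
  | succ M ih =>
    intro F hF h0
    obtain ⟨S, ω, h1, h2, h3⟩ := ih (fun s => F (s + 1)) (fun a b h => hF (by omega)) h0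
    exact step (M + 1) F hF S ω h1 (fun x hx => by have := h2 x hx; omega) h3

/-- Adapted bases, indexed form, with the total weight. -/
lemma adapted {A : Type} [AddCommGroup A] [Module ℂ A] (M : ℕ) (F : ℕ → Submodule ℂ A)
    (hF : Antitone F) (h0 : F (M + 1) = ⊥) (hfin : (F 0).FG) :
    ∃ (m : ℕ) (e : Fin m → A) (ω : Fin m → ℕ), LinearIndependent ℂ e ∧ (∀ a, ω a ≤ M) ∧
      (∀ s, F s = Submodule.span ℂ (e '' {a | s ≤ ω a})) ∧
      ∑ s ∈ Finset.Icc 1 M, finrank ℂ (F s) = ∑ a, ω a := by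
  classical
  obtain ⟨S, ω, h1, h2, h3⟩ := adapted_set M F hF h0
  have hS : S.Finite := by
    have : Module.Finite ℂ (F 0) := Module.Finite.iff_fg.2 hfin
    have hm : ∀ x : S, (x : A) ∈ F 0 := fun x => by
      rw [h3 0]; exact Submodule.subset_span ⟨x.2, Nat.zero_le _⟩
    have : LinearIndependent ℂ (fun x : S => (⟨x, hm x⟩ : F 0)) :=
      LinearIndependent.of_comp (F 0).subtype h1
    exact Set.finite_coe_iff.1 this.finite
  have : Fintype S := hS.fintype
  let q := Fintype.equivFin S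
  have hli : LinearIndependent ℂ (fun a => ((q.symm a : S) : A)) :=
    LinearIndependent.comp h1 q.symm q.symm.injective
  have hsp : ∀ s, F s = Submodule.span ℂ
      ((fun a => ((q.symm a : S) : A)) '' {a | s ≤ ω (q.symm a)}) := fun s => by
    rw [h3 s]
    congr 1
    ext x
    constructor
    · rintro ⟨hx, h⟩
      exact ⟨q ⟨x, hx⟩, by simpa using h, by simp⟩
    · rintro ⟨a, ha, rfl⟩
      exact ⟨(q.symm a).2, ha⟩
  refine ⟨_, fun a => ((q.symm a : S) : A), fun a => ω (q.symm a), hli,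
    fun a => h2 _ (q.symm a).2, hsp, ?_⟩
  have hr : ∀ s, finrank ℂ (F s) = ∑ a, if s ≤ ω (q.symm a) then 1 else 0 := fun s => by
    rw [hsp s, Set.image_eq_range]
    have := finrank_span_eq_card (R := ℂ)
      (b := fun x : {a | s ≤ ω (q.symm a)} => ((q.symm x : S) : A))
      (hli.comp _ Subtype.val_injective)
    rw [this, Fintype.card_subtype, Finset.card_filter]
    rfl
  simp only [hr]
  rw [Finset.sum_comm]
  refine Finset.sum_congr rfl fun a _ => ?_
  rw [← Finset.card_filter]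
  have : (Finset.Icc 1 M).filter (fun s => s ≤ ω (q.symm a)) = Finset.Icc 1 (ω (q.symm a)) := by
    ext s
    have := h2 _ (q.symm a).2
    simp only [Finset.mem_filter, Finset.mem_Icc]
    omega
  rw [this]
  simp

/-- Surjectivity onto a finite-dimensional space persists generically along a line. -/
lemma generic_surj {U A : Type} [AddCommGroup U] [Module ℂ U] [AddCommGroup A] [Module ℂ A]
    (W : Submodule ℂ A) (hW : W.FG) (L0 L1 : U →ₗ[ℂ] A) (h0 : ∀ x, L0 x ∈ W) (h1 : ∀ x, L1 x ∈ W)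
    (hs : W ≤ LinearMap.range L0) :
    {s : ℂ | ¬ W ≤ LinearMap.range (L0 + s • L1)}.Finite := by
  have : Module.Finite ℂ W := Module.Finite.iff_fg.2 hW
  have hsurj : LinearMap.range (L0.codRestrict W h0) = ⊤ := by
    rw [LinearMap.range_eq_top]
    rintro ⟨y, hy⟩
    obtain ⟨x, hx⟩ := hs hy
    exact ⟨x, Subtype.ext hx⟩
  obtain ⟨σ, hσ⟩ := LinearMap.exists_rightInverse_of_surjective _ hsurj
  let f : Module.End ℂ W := (L1.codRestrict W h1).comp σ
  have hfin := Module.End.finite_spectrum f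
  refine ((hfin.image fun z => -z⁻¹).insert 0).subset fun s hsn => ?_
  by_contra hc
  simp only [Set.mem_insert_iff, not_or, Set.mem_image, not_exists, not_and] at hc
  obtain ⟨hs0, hc⟩ := hc
  have hu : IsUnit (algebraMap ℂ (Module.End ℂ W) (-s⁻¹) - f) := by
    by_contra hn
    exact hc (-s⁻¹) (spectrum.mem_iff.2 hn) (by simp)
  have hsj := ((Module.End.isUnit_iff _).1 hu).2
  apply hsn
  intro y hy
  obtain ⟨x, hx⟩ := hsj ((-s⁻¹) • (⟨y, hy⟩ : W))
  refine ⟨σ x, ?_⟩
  have e1 : L0 (σ x) = x := congrArg Subtype.val (LinearMap.congr_fun hσ x)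
  have e2 : (-s⁻¹) • (x : A) - L1 (σ x) = (-s⁻¹) • y := congrArg Subtype.val hx
  have e3 : L1 (σ x) = (-s⁻¹) • (x : A) - (-s⁻¹) • y := by rw [← e2]; abel
  rw [LinearMap.add_apply, LinearMap.smul_apply, e1, e3, smul_sub, smul_smul, smul_smul, mul_neg,
    mul_inv_cancel₀ hs0, neg_smul, neg_smul, one_smul, one_smul]
  abel

lemma choose_le (m d : ℕ) : (m + d + 3).choose 3 ≤ (m + 3).choose 3 + d * (m + d + 2) ^ 2 := by
  induction d with
  | zero => simp
  | succ d ih =>
    have h1 : (m + (d + 1) + 3).choose 3 = (m + d + 3).choose 2 + (m + d + 3).choose 3 := by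
      rw [show m + (d + 1) + 3 = (m + d + 3) + 1 by ring, Nat.choose_succ_succ']
    have h2 : (m + d + 3).choose 2 ≤ (m + d + 3) ^ 2 := Nat.choose_le_pow _ _
    have h3 : (m + d + 2) ^ 2 ≤ (m + d + 3) ^ 2 := Nat.pow_le_pow_left (by omega) 2
    have h4 := Nat.mul_le_mul_left d h3
    rw [h1, show m + (d + 1) + 2 = m + d + 3 by ring]
    nlinarith

/-- Quadratic growth of the Hilbert function. -/
lemma growth (hF : St_HF) (g : P4) (d k : ℕ) (h0 : g ≠ 0) (hg : g.IsHomogeneous d) :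
    ∃ c : ℕ, ∀ n, finrank ℂ (degQ g (n * k)) ≤ c * (n + 1) ^ 2 := by
  refine ⟨(d + 3) ^ 3 + d * (k + 2) ^ 2, fun n => ?_⟩
  have hn : 1 ≤ (n + 1) ^ 2 := Nat.one_le_pow _ _ (by omega)
  by_cases h : n * k < d
  · rw [hF.small g d _ h0 hg h]
    have h1 : (n * k + 3).choose 3 ≤ (n * k + 3) ^ 3 := Nat.choose_le_pow _ _
    have h2 : (n * k + 3) ^ 3 ≤ (d + 3) ^ 3 := Nat.pow_le_pow_left (by omega) 3
    nlinarith [Nat.zero_le (d * (k + 2) ^ 2 * (n + 1) ^ 2)]
  · obtain ⟨m, hm⟩ : ∃ m, n * k = m + d := ⟨n * k - d, by omega⟩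
    have h1 := hF.rank g d m h0 hg
    have h2 := choose_le m d
    rw [← hm] at h1 h2
    have h3 : (n * k + 2) ^ 2 ≤ ((k + 2) * (n + 1)) ^ 2 := Nat.pow_le_pow_left (by nlinarith) 2
    have h4 := Nat.mul_le_mul_left d h3
    rw [mul_pow] at h4
    nlinarith [Nat.zero_le ((d + 3) ^ 3 * (n + 1) ^ 2)]

end Pool.Agent.Lib.MP_a25055_ag.BCW
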