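import Pool.Agent.Lib.MP_a25055_ag.BCW1

/-! Block CW, part 2: the special fibre of a one-parameter degeneration. -/

open MvPolynomial Module

noncomputable section

namespace Pool.Agent.Lib.MP_a25055_ag.BCW

lemma mem_span_mul {R A : Type} [CommRing R] [CommRing A] [Algebra R A] (H : Fin 3 → A)
    (W : Submodule R A) (y : A) : y ∈ Submodule.span R (Set.range H) * W ↔
      ∃ x : Fin 3 → A, (∀ i, x i ∈ W) ∧ y = ∑ i, H i * x i := by
  constructor
  · intro hy
    refine Submodule.mul_induction_on hy (fun a ha b hb => ?_) ?_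
    · obtain ⟨c, rfl⟩ := (Submodule.mem_span_range_iff_exists_fun R).1 ha
      refine ⟨fun i => c i • b, fun i => W.smul_mem _ hb, ?_⟩
      rw [Finset.sum_mul]
      exact Finset.sum_congr rfl fun i _ => by rw [smul_mul_assoc, mul_smul_comm]
    · rintro _ _ ⟨x, hx, rfl⟩ ⟨x', hx', rfl⟩
      exact ⟨fun i => x i + x' i, fun i => W.add_mem (hx i) (hx' i), by
        simp only [mul_add, Finset.sum_add_distrib]⟩
  · rintro ⟨x, hx, rfl⟩
    exact Submodule.sum_mem _ fun i _ =>
      Submodule.mul_mem_mul (Submodule.subset_span ⟨i, rfl⟩) (hx i)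

section fib
variable {O A : Type} [CommRing O] [Algebra ℂ O] [CommRing A] [Algebra O A] [Algebra ℂ A]
  [IsScalarTower ℂ O A] {N : ℕ}

/-- The lattice spanned by the generators. -/
abbrev lat (O : Type) [CommRing O] [Algebra O A] (lam : Fin N → A) : Submodule O A :=
  Submodule.span O (Set.range lam)

/-- Linear forms. -/
abbrev lin (N : ℕ) : Submodule ℂ (MvPolynomial (Fin N) ℂ) := Submodule.span ℂ (Set.range X)

omit [Algebra ℂ O] [Algebra ℂ A] [IsScalarTower ℂ O A] in
lemma mem_tl (t : O) (W : Submodule O A) (y : A) :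
    y ∈ Ideal.span {t} • W ↔ ∃ y' ∈ W, t • y' = y := by
  rw [Submodule.ideal_span_singleton_smul]
  exact Submodule.mem_smul_pointwise_iff_exists _ _ _

omit [Algebra ℂ O] [Algebra ℂ A] [IsScalarTower ℂ O A] in
lemma mul_tl (t : O) {W W' : Submodule O A} {x y : A} (hx : x ∈ W) (hy : y ∈ Ideal.span {t} • W') :
    x * y ∈ Ideal.span {t} • (W * W') := by
  obtain ⟨y', h, rfl⟩ := (mem_tl t _ _).1 hy
  exact (mem_tl t _ _).2 ⟨x * y', Submodule.mul_mem_mul hx h, (mul_smul_comm _ _ _).symm⟩

lemma aeval_lin (lam : Fin N → A) {p : MvPolynomial (Fin N) ℂ} (hp : p ∈ lin N) :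
    aeval lam p ∈ lat O lam := by
  induction hp using Submodule.span_induction with
  | mem x hx =>
    obtain ⟨j, rfl⟩ := hx
    rw [aeval_X]
    exact Submodule.subset_span ⟨j, rfl⟩
  | zero => simp
  | add x y _ _ hx hy => rw [map_add]; exact Submodule.add_mem _ hx hy
  | smul c x _ hx => rw [map_smul]; exact Submodule.smul_of_tower_mem _ c hx

lemma aeval_pow (lam : Fin N → A) (n : ℕ) :
    ∀ p ∈ lin N ^ n, aeval lam p ∈ lat O lam ^ n := by
  induction n with
  | zero =>
    intro p hp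
    rw [pow_zero, Submodule.mem_one] at hp ⊢
    obtain ⟨c, rfl⟩ := hp
    exact ⟨algebraMap ℂ O c, by rw [AlgHom.commutes, ← IsScalarTower.algebraMap_apply]⟩
  | succ n ih =>
    intro p hp
    rw [pow_succ] at hp ⊢
    refine Submodule.mul_induction_on hp (fun a ha b hb => ?_) fun a b ha hb => ?_
    · rw [map_mul]; exact Submodule.mul_mem_mul (ih a ha) (aeval_lin lam hb)
    · rw [map_add]; exact Submodule.add_mem _ ha hb

/-- The graded evaluation. -/
def psi (lam : Fin N → A) : MvPolynomial (Fin N) ℂ →ₐ[ℂ] Polynomial A :=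
  aeval fun j => Polynomial.monomial 1 (lam j)

lemma psi_lin (lam : Fin N → A) {p : MvPolynomial (Fin N) ℂ} (hp : p ∈ lin N) :
    psi lam p = Polynomial.monomial 1 (aeval lam p) := by
  induction hp using Submodule.span_induction with
  | mem x hx =>
    obtain ⟨j, rfl⟩ := hx
    simp [psi]
  | zero => simp
  | add x y _ _ hx hy => rw [map_add, map_add, map_add, hx, hy]
  | smul c x _ hx => rw [map_smul, map_smul, hx, Polynomial.smul_monomial]

lemma psi_pow (lam : Fin N → A) (n : ℕ) :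
    ∀ p ∈ lin N ^ n, psi lam p = Polynomial.monomial n (aeval lam p) := by
  induction n with
  | zero =>
    intro p hp
    rw [pow_zero, Submodule.mem_one] at hp
    obtain ⟨c, rfl⟩ := hp
    rw [AlgHom.commutes, AlgHom.commutes, Polynomial.monomial_zero_left,
      Polynomial.algebraMap_apply]
  | succ n ih =>
    intro p hp
    rw [pow_succ] at hp
    refine Submodule.mul_induction_on hp (fun a ha b hb => ?_) fun a b ha hb => ?_
    · rw [map_mul, map_mul, ih a ha, psi_lin lam hb, Polynomial.monomial_mul_monomial]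
    · rw [map_add, map_add, map_add, ha, hb]

lemma psi_coeff (lam : Fin N → A) (p : MvPolynomial (Fin N) ℂ) :
    ∀ n, (psi lam p).coeff n ∈ lat O lam ^ n := by
  induction p using MvPolynomial.induction_on with
  | C c =>
    intro n
    have h : (C c : MvPolynomial (Fin N) ℂ) ∈ lin N ^ 0 := by
      rw [pow_zero, Submodule.mem_one]; exact ⟨c, rfl⟩
    rw [psi_pow lam 0 _ h, Polynomial.coeff_monomial]
    split_ifs with h0
    · subst h0; exact aeval_pow lam 0 _ h
    · exact Submodule.zero_mem _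
  | add p q hp hq => intro n; rw [map_add, Polynomial.coeff_add]; exact add_mem (hp n) (hq n)
  | mul_X p j hp =>
    intro n
    have : psi lam (X j) = Polynomial.monomial 1 (lam j) := by simp [psi]
    rw [map_mul, this]
    cases n with
    | zero => simp [Polynomial.mul_coeff_zero]
    | succ n =>
      rw [Polynomial.coeff_mul_monomial, pow_succ]
      exact Submodule.mul_mem_mul (hp n) (Submodule.subset_span ⟨j, rfl⟩)

/-- The ideal of the special fibre. -/
def fibI (t : O) (lam : Fin N → A) : Ideal (MvPolynomial (Fin N) ℂ) where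
  carrier := {p | ∀ n, (psi lam p).coeff n ∈ Ideal.span {t} • lat O lam ^ n}
  add_mem' := fun {p q} hp hq n => by
    rw [map_add, Polynomial.coeff_add]; exact add_mem (hp n) (hq n)
  zero_mem' := fun n => by simp
  smul_mem' := fun q p hp n => by
    rw [smul_eq_mul, map_mul, Polynomial.coeff_mul]
    refine Submodule.sum_mem _ fun c hc => ?_
    rw [← Finset.HasAntidiagonal.mem_antidiagonal.1 hc, pow_add]
    exact mul_tl t (psi_coeff lam q _) (hp _)

lemma mem_fibI (t : O) (lam : Fin N → A) {n : ℕ} {p : MvPolynomial (Fin N) ℂ} (hp : p ∈ lin N ^ n) :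
    p ∈ fibI t lam ↔ aeval lam p ∈ Ideal.span {t} • lat O lam ^ n := by
  constructor
  · intro h
    have := h n
    rwa [psi_pow lam n p hp, Polynomial.coeff_monomial, if_pos rfl] at this
  · intro h m
    rw [psi_pow lam n p hp, Polynomial.coeff_monomial]
    split_ifs with h0
    · subst h0; exact h
    · exact Submodule.zero_mem _

lemma lift_smul (t : O) {W : Submodule O A} {y z : A} (hy : y ∈ W)
    (h : y - z ∈ Ideal.span {t} • W) (c : ℂ) (u : O) :
    (algebraMap ℂ O c + t * u) • y - c • z ∈ Ideal.span {t} • W := by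
  have : (algebraMap ℂ O c + t * u) • y - c • z = c • (y - z) + t • (u • y) := by
    rw [add_smul, algebraMap_smul, smul_sub, mul_smul]; abel
  rw [this]
  exact add_mem (Submodule.smul_of_tower_mem _ c h) ((mem_tl t _ _).2 ⟨_, W.smul_mem u hy, rfl⟩)

lemma lift_pow (t : O) (hO : ∀ x : O, ∃ (c : ℂ) (u : O), x = algebraMap ℂ O c + t * u)
    (lam : Fin N → A) (n : ℕ) : ∀ y ∈ lat O lam ^ n,
      ∃ p ∈ lin N ^ n, y - aeval lam p ∈ Ideal.span {t} • lat O lam ^ n := by
  have h1 : ∀ y ∈ lat O lam, ∃ p ∈ lin N, y - aeval lam p ∈ Ideal.span {t} • lat O lam := by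
    intro y hy
    induction hy using Submodule.span_induction with
    | mem x hx =>
      obtain ⟨j, rfl⟩ := hx
      exact ⟨X j, Submodule.subset_span ⟨j, rfl⟩, by simp⟩
    | zero => exact ⟨0, zero_mem _, by simp⟩
    | add x y _ _ hx hy =>
      obtain ⟨p, hp, h⟩ := hx
      obtain ⟨q, hq, h'⟩ := hy
      refine ⟨p + q, add_mem hp hq, ?_⟩
      rw [map_add, add_sub_add_comm]
      exact add_mem h h'
    | smul x y hy ih =>
      obtain ⟨p, hp, h⟩ := ih
      obtain ⟨c, u, rfl⟩ := hO x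
      refine ⟨c • p, Submodule.smul_mem _ c hp, ?_⟩
      rw [map_smul]
      exact lift_smul t hy h c u
  induction n with
  | zero =>
    intro y hy
    have hy' := hy
    rw [pow_zero, Submodule.mem_one] at hy'
    obtain ⟨x, rfl⟩ := hy'
    obtain ⟨c, u, rfl⟩ := hO x
    have h1 : (1 : MvPolynomial (Fin N) ℂ) ∈ lin N ^ 0 := by
      rw [pow_zero, Submodule.mem_one]; exact ⟨1, map_one _⟩
    have h2 : (1 : A) ∈ lat O lam ^ 0 := by
      rw [pow_zero, Submodule.mem_one]; exact ⟨1, map_one _⟩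
    refine ⟨c • 1, Submodule.smul_mem _ c h1, ?_⟩
    rw [map_smul, map_one, Algebra.algebraMap_eq_smul_one (A := A)]
    exact lift_smul t h2 (by simp) c u
  | succ n ih =>
    intro y hy
    rw [pow_succ] at hy
    rw [pow_succ, pow_succ]
    refine Submodule.mul_induction_on hy (fun a ha b hb => ?_) ?_
    · obtain ⟨p, hp, h⟩ := ih a ha
      obtain ⟨q, hq, h'⟩ := h1 b hb
      refine ⟨p * q, Submodule.mul_mem_mul hp hq, ?_⟩
      have : a * b - aeval lam (p * q) = b * (a - aeval lam p) + aeval lam p * (b - aeval lam q) := by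
        rw [map_mul]; ring
      rw [this]
      refine add_mem ?_ (mul_tl t (aeval_pow lam n p hp) h')
      rw [mul_comm (lat O lam ^ n)]
      exact mul_tl t hb h
    · rintro x y ⟨p, hp, h⟩ ⟨q, hq, h'⟩
      refine ⟨p + q, add_mem hp hq, ?_⟩
      rw [map_add, add_sub_add_comm]
      exact add_mem h h'

/-- Three general members of the lattice have no common zero on the special fibre. -/
lemma fib (hS : St_HS) (t : O) (hO : ∀ x : O, ∃ (c : ℂ) (u : O), x = algebraMap ℂ O c + t * u)
    (lam : Fin N → A) (c : ℕ) (hgen : ∀ n, ∃ (m : ℕ) (f : Fin m → A), m ≤ c * (n + 1) ^ 2 ∧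
      Submodule.span O (Set.range f) = lat O lam ^ n) :
    ∃ (n0 : ℕ) (h0 : Fin 3 × Fin N → ℂ), ∀ h1 : Fin 3 × Fin N → ℂ,
      {s : ℂ | ¬ lat O lam ^ (n0 + 1) ≤
        Submodule.span O (Set.range fun i => ∑ j, (h0 (i, j) + s * h1 (i, j)) • lam j) *
          lat O lam ^ n0 ⊔ Ideal.span {t} • lat O lam ^ (n0 + 1)}.Finite := by
  let π : MvPolynomial (Fin N) ℂ →ₐ[ℂ] (MvPolynomial (Fin N) ℂ ⧸ fibI t lam) :=
    Ideal.Quotient.mkₐ ℂ _
  have hπ : ∀ p q, π p = π q ↔ p - q ∈ fibI t lam := fun p q => Ideal.Quotient.eq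
  let V := (lin N).map π.toLinearMap
  have hVn : ∀ n, V ^ n = (lin N ^ n).map π.toLinearMap := fun n => (Submodule.map_pow _ _ _).symm
  have hV : V.FG := (Submodule.fg_span (Set.finite_range _)).map _
  have hrank : ∀ n, finrank ℂ ↥(V ^ n) ≤ c * (n + 1) ^ 2 := fun n => by
    obtain ⟨m, f, hm, hf⟩ := hgen n
    have hfm : ∀ a, f a ∈ lat O lam ^ n := fun a => hf ▸ Submodule.subset_span ⟨a, rfl⟩
    choose p hp hp' using fun a => lift_pow t hO lam n (f a) (hfm a)
    have hle : V ^ n ≤ Submodule.span ℂ (Set.range fun a => π (p a)) := by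
      rw [hVn]
      rintro _ ⟨q, hq, rfl⟩
      have h1 := aeval_pow (O := O) lam n q hq
      rw [← hf] at h1
      obtain ⟨x, hx⟩ := (Submodule.mem_span_range_iff_exists_fun O).1 h1
      choose z u hz using fun a => hO (x a)
      refine (Submodule.mem_span_range_iff_exists_fun ℂ).2 ⟨z, ?_⟩
      have h2 : ∑ a, z a • π (p a) = π (∑ a, z a • p a) := by simp only [map_sum, map_smul]
      rw [h2]
      symm
      refine (hπ _ _).2 ((mem_fibI t lam (n := n) (sub_mem hq
        (Submodule.sum_mem _ fun a _ => Submodule.smul_mem _ _ (hp a)))).2 ?_)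
      rw [map_sub, ← hx, map_sum, ← Finset.sum_sub_distrib]
      refine Submodule.sum_mem _ fun a _ => ?_
      rw [map_smul, hz a]
      exact lift_smul t (hfm a) (hp' a) _ _
    have : Module.Finite ℂ (Submodule.span ℂ (Set.range fun a => π (p a))) :=
      Module.Finite.span_of_finite ℂ (Set.finite_range _)
    refine (Submodule.finrank_mono hle).trans (le_trans ?_ hm)
    exact (finrank_range_le_card (R := ℂ) fun a => π (p a)).trans_eq (Fintype.card_fin m)
  obtain ⟨H, hH, n0, hn0⟩ := hS _ V V hV le_rfl ⟨c, hrank⟩ ⟨0, by rw [pow_succ']⟩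
  have hH' : ∀ i, ∃ h : Fin N → ℂ, π (∑ j, h j • X j) = H i := fun i => by
    obtain ⟨q, hq, h⟩ := hH i
    obtain ⟨z, rfl⟩ := (Submodule.mem_span_range_iff_exists_fun ℂ).1 hq
    exact ⟨z, h⟩
  choose h0 hh0 using hH'
  refine ⟨n0, fun a => h0 a.1 a.2, fun h1 => ?_⟩
  have hlin : ∀ h : Fin N → ℂ, (∑ j, h j • X j : MvPolynomial (Fin N) ℂ) ∈ lin N := fun h =>
    Submodule.sum_mem _ fun j _ => Submodule.smul_mem _ _ (Submodule.subset_span ⟨j, rfl⟩)
  let L : (Fin 3 → Fin N → ℂ) → (Fin 3 → ↥(V ^ n0)) →ₗ[ℂ] (MvPolynomial (Fin N) ℂ ⧸ fibI t lam) :=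
    fun h => ∑ i, (LinearMap.mulLeft ℂ (π (∑ j, h i j • X j))).comp
      ((V ^ n0).subtype.comp (LinearMap.proj i))
  have hL : ∀ h x, L h x = ∑ i, π (∑ j, h i j • X j) * (x i : _) := fun h x => by
    simp only [L, LinearMap.sum_apply, LinearMap.comp_apply, LinearMap.mulLeft_apply,
      LinearMap.proj_apply, Submodule.subtype_apply]
  have hLm : ∀ h x, L h x ∈ V ^ (n0 + 1) := fun h x => by
    rw [hL, pow_succ']
    exact Submodule.sum_mem _ fun i _ => Submodule.mul_mem_mul ⟨_, hlin _, rfl⟩ (x i).2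
  have hfin := generic_surj (V ^ (n0 + 1)) (hV.pow _) (L h0) (L fun i j => h1 (i, j)) (hLm _)
    (hLm _) (fun y hy => by
      obtain ⟨x, hx, rfl⟩ := (mem_span_mul _ _ _).1 (hn0 hy)
      exact ⟨fun i => ⟨x i, hx i⟩, by simp only [hL, hh0]⟩)
  refine hfin.subset fun s hs hle => hs fun y hy => ?_
  obtain ⟨p, hp, hyp⟩ := lift_pow t hO lam _ y hy
  have hpV : π p ∈ V ^ (n0 + 1) := by rw [hVn]; exact ⟨p, hp, rfl⟩
  obtain ⟨x, hx⟩ := hle hpV
  have hxq : ∀ i, ∃ q ∈ lin N ^ n0, π q = x i := fun i => (hVn n0).le (x i).2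
  choose q hq hq' using hxq
  let P : Fin 3 → MvPolynomial (Fin N) ℂ := fun i => ∑ j, (h0 i j + s * h1 (i, j)) • X j
  have hP : π p = π (∑ i, P i * q i) := by
    rw [← hx, LinearMap.add_apply, LinearMap.smul_apply, hL, hL, map_sum, Finset.smul_sum,
      ← Finset.sum_add_distrib]
    refine Finset.sum_congr rfl fun i _ => ?_
    rw [map_mul, hq', ← smul_mul_assoc, ← add_mul, ← map_smul, ← map_add, Finset.smul_sum,
      ← Finset.sum_add_distrib]
    simp only [P, add_smul, mul_smul]
  have hPm : ∑ i, P i * q i ∈ lin N ^ (n0 + 1) := by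
    rw [pow_succ']
    exact Submodule.sum_mem _ fun i _ => Submodule.mul_mem_mul (hlin _) (hq i)
  have hJ := (mem_fibI t lam (sub_mem hp hPm)).1 ((hπ _ _).1 hP)
  have hy2 : y = aeval lam (∑ i, P i * q i) +
      ((y - aeval lam p) + aeval lam (p - ∑ i, P i * q i)) := by rw [map_sub]; ring
  rw [hy2]
  refine Submodule.add_mem_sup ((mem_span_mul _ _ _).2 ⟨fun i => aeval lam (q i),
    fun i => aeval_pow lam n0 _ (hq i), ?_⟩) (add_mem hyp hJ)
  simp only [map_sum, map_mul, P, map_smul, aeval_X]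

end fib

end Pool.Agent.Lib.MP_a25055_ag.BCW
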