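import Pool.Agent.Lib.MP_a25055_ag.BCW2

/-! Block CW, part 3: lattices attached to a filtration, matrices and orders of vanishing. -/

open MvPolynomial Module

noncomputable section

namespace Pool.Agent.Lib.MP_a25055_ag.BCW

lemma span_range_pow {R A : Type} [CommRing R] [CommRing A] [Algebra R A] {N : ℕ}
    (lam : Fin N → A) (n : ℕ) : Submodule.span R (Set.range lam) ^ n =
      Submodule.span R {y | ∃ j : Fin n → Fin N, y = ∏ l, lam (j l)} := by
  rw [Submodule.span_pow]
  congr 1
  ext y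
  rw [Set.mem_pow]
  constructor
  · rintro ⟨f, rfl⟩
    choose j hj using fun l => (f l).2
    exact ⟨j, by rw [List.prod_ofFn]; simp only [hj]⟩
  · rintro ⟨j, rfl⟩
    exact ⟨fun l => ⟨lam (j l), j l, rfl⟩, by rw [List.prod_ofFn]⟩

lemma sum_le_mul {N n : ℕ} (r : Fin N → ℕ) (T : ℕ) (hT : ∀ j, r j ≤ T) (j : Fin n → Fin N) :
    ∑ l, r (j l) ≤ n * T := by
  have := Finset.sum_le_card_nsmul Finset.univ (fun l => r (j l)) T fun l _ => hT _
  simpa using this

lemma fil_anti {A : Type} [CommRing A] [Algebra ℂ A] {N : ℕ} (B : Fin N → A) (r : Fin N → ℕ)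
    (n : ℕ) : Antitone (Fil B r n) := fun _ _ h =>
  Submodule.span_mono fun _ ⟨j, hj, hy⟩ => ⟨j, h.trans hj, hy⟩

lemma fil_bot {A : Type} [CommRing A] [Algebra ℂ A] {N : ℕ} (B : Fin N → A) (r : Fin N → ℕ)
    (n : ℕ) : Fil B r n (n * ∑ j, r j + 1) = ⊥ := by
  refine Submodule.span_eq_bot.2 ?_
  rintro _ ⟨j, hj, -⟩
  have := sum_le_mul r (∑ j, r j)
    (fun j => Finset.single_le_sum (f := r) (fun _ _ => Nat.zero_le _) (Finset.mem_univ j)) j
  omega

lemma fil_zero {A : Type} [CommRing A] [Algebra ℂ A] {N : ℕ} (B : Fin N → A) (r : Fin N → ℕ)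
    (n : ℕ) : Fil B r n 0 = Submodule.span ℂ (Set.range B) ^ n := by
  rw [span_range_pow]
  simp [Fil]

lemma ex_mulMat {O A I J : Type} [CommRing O] [CommRing A] [Algebra O A] [Fintype I] (y : A)
    (e' : I → A) (e : J → A) (h : ∀ a, y * e a ∈ Submodule.span O (Set.range e')) :
    ∃ M : Matrix I J O, MulMat y e' e M := by
  choose c hc using fun a => (Submodule.mem_span_range_iff_exists_fun O).1 (h a)
  exact ⟨fun i a => c a i, fun a => (hc a).symm⟩

section lat
variable {O A A' : Type} [CommRing O] [Algebra ℂ O] [CommRing A] [Algebra ℂ A] [CommRing A']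
  [Algebra O A'] [Algebra ℂ A'] [IsScalarTower ℂ O A'] {N : ℕ}

lemma map_span_mem (ι : A →ₐ[ℂ] A') (u : O) (S : Set A) (W : Submodule O A')
    (h : ∀ x ∈ S, u • ι x ∈ W) : ∀ x ∈ Submodule.span ℂ S, u • ι x ∈ W := by
  intro x hx
  induction hx using Submodule.span_induction with
  | mem x hx => exact h x hx
  | zero => simp
  | add x y _ _ hx hy => rw [map_add, smul_add]; exact add_mem hx hy
  | smul c x _ hx => rw [map_smul, smul_comm]; exact Submodule.smul_of_tower_mem _ c hx

omit [Algebra ℂ O] [IsScalarTower ℂ O A'] in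
lemma prod_lam (ι : A →ₐ[ℂ] A') (t : O) (B : Fin N → A) (r : Fin N → ℕ) (T : ℕ)
    (hT : ∀ j, r j ≤ T) {n : ℕ} (j : Fin n → Fin N) :
    ∏ l, (t ^ (T - r (j l)) • ι (B (j l))) = t ^ (n * T - ∑ l, r (j l)) • ι (∏ l, B (j l)) := by
  have h : ∑ l, (T - r (j l)) + ∑ l, r (j l) = n * T := by
    rw [← Finset.sum_add_distrib]
    simp only [Nat.sub_add_cancel (hT _)]
    simp
  have h' : n * T - ∑ l, r (j l) = ∑ l, (T - r (j l)) := by omega
  simp only [Algebra.smul_def, Finset.prod_mul_distrib, map_prod, h', ← Finset.prod_pow_eq_pow_sum]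

lemma lat_basis (ι : A →ₐ[ℂ] A') (t : O) (B : Fin N → A) (r : Fin N → ℕ) (T : ℕ)
    (hT : ∀ j, r j ≤ T) (n : ℕ) {I : Type} (e : I → A) (ω : I → ℕ) (hω : ∀ a, ω a ≤ n * T)
    (he : ∀ s, Fil B r n s = Submodule.span ℂ (e '' {a | s ≤ ω a})) :
    Submodule.span O (Set.range fun a => t ^ (n * T - ω a) • ι (e a)) =
      lat O (fun j => t ^ (T - r j) • ι (B j)) ^ n := by
  rw [span_range_pow]
  apply le_antisymm
  · rw [Submodule.span_le]
    rintro _ ⟨a, rfl⟩
    have h1 : e a ∈ Fil B r n (ω a) := by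
      rw [he]; exact Submodule.subset_span ⟨a, le_refl (ω a), rfl⟩
    refine map_span_mem ι _ _ _ ?_ _ h1
    rintro _ ⟨j, hj, rfl⟩
    have h2 := sum_le_mul r T hT j
    rw [show n * T - ω a = (∑ l, r (j l) - ω a) + (n * T - ∑ l, r (j l)) by omega, pow_add,
      mul_smul, ← prod_lam ι t B r T hT j]
    exact Submodule.smul_mem _ _ (Submodule.subset_span ⟨j, rfl⟩)
  · rw [Submodule.span_le]
    rintro _ ⟨j, rfl⟩
    rw [prod_lam ι t B r T hT j]
    have h1 : ∏ l, B (j l) ∈ Fil B r n (∑ l, r (j l)) := Submodule.subset_span ⟨j, le_rfl, rfl⟩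
    rw [he] at h1
    refine map_span_mem ι _ _ _ ?_ _ h1
    rintro _ ⟨a, ha, rfl⟩
    have h2 := hω a
    have h3 : ∑ l, r (j l) ≤ ω a := ha
    rw [show n * T - ∑ l, r (j l) = (ω a - ∑ l, r (j l)) + (n * T - ω a) by omega, pow_add,
      mul_smul]
    exact Submodule.smul_mem _ _ (Submodule.subset_span ⟨a, rfl⟩)

omit [Algebra ℂ O] [Algebra ℂ A'] [IsScalarTower ℂ O A'] in
lemma li_smul [IsDomain O] {I : Type} [Fintype I] (v : I → A') (u : I → O) (hu : ∀ a, u a ≠ 0)
    (hv : LinearIndependent O v) : LinearIndependent O fun a => u a • v a := by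
  rw [Fintype.linearIndependent_iff] at hv ⊢
  intro g hg a
  have := hv (fun a => g a * u a) (by simpa only [mul_smul] using hg) a
  exact (mul_eq_zero.1 this).resolve_right (hu a)

/-- The matrices in the two bases are intertwined by diagonal matrices. -/
lemma intertwine (ι : A →ₐ[ℂ] A') (B : Fin N → A) (u : Fin N → O) (h : Fin 3 × Fin N → ℂ)
    {I J : Type} [Fintype I] (e' : I → A) (e : J → A) (p : I → O) (q : J → O)
    (hli : LinearIndependent O fun c => ι (e' c)) (μ : Fin N → Matrix I J ℂ)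
    (hμ : ∀ j, MulMat (B j) e' e (μ j)) (i : Fin 3) (M : Matrix I J O)
    (hM : MulMat (∑ j, h (i, j) • (u j • ι (B j))) (fun c => p c • ι (e' c))
      (fun a => q a • ι (e a)) M) (c : I) (a : J) :
    mulM μ (fun z => algebraMap ℂ O (h z) * u z.2) i c a * q a = p c * M c a := by
  rw [Fintype.linearIndependent_iff] at hli
  have h1 := hM a
  have h2 : (∑ j, h (i, j) • (u j • ι (B j))) * (q a • ι (e a)) =
      ∑ c, (mulM μ (fun z => algebraMap ℂ O (h z) * u z.2) i c a * q a) • ι (e' c) := by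
    simp only [mulM, Finset.sum_mul, Finset.sum_smul]
    rw [Finset.sum_comm]
    refine Finset.sum_congr rfl fun j _ => ?_
    rw [smul_mul_assoc, smul_mul_smul_comm, ← map_mul, hμ j a, map_sum, Finset.smul_sum,
      Finset.smul_sum]
    refine Finset.sum_congr rfl fun c _ => ?_
    simp only [Algebra.smul_def, map_mul, AlgHom.commutes, ← IsScalarTower.algebraMap_apply]
    ring
  have := hli (fun c => mulM μ (fun z => algebraMap ℂ O (h z) * u z.2) i c a * q a - p c * M c a)
    (by
      simp only [sub_smul, Finset.sum_sub_distrib]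
      rw [← h2, h1, sub_eq_zero]
      exact Finset.sum_congr rfl fun c _ => by rw [smul_smul, mul_comm]) c
  exact sub_eq_zero.1 this

end lat

section kosz
variable {O F I J : Type} [CommRing O] [CommRing F] [Fintype I] [Fintype J] [DecidableEq I]
  [DecidableEq J] (φ : O →+* F) (M : Fin 3 → Matrix I J O) (M' : Fin 3 → Matrix I J F) (p : I → F)
  (q : J → F)

lemma kos1_diag (h : ∀ i c a, M' i c a * q a = p c * φ (M i c a)) :
    kos1 M' * Matrix.diagonal (fun z : Fin 3 × J => q z.2) =
      Matrix.diagonal p * (kos1 M).map φ := by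
  ext c a
  rw [Matrix.mul_diagonal, Matrix.diagonal_mul]
  exact h _ _ _

lemma kos2_diag (h : ∀ i c a, M' i c a * q a = p c * φ (M i c a)) :
    kos2 M' * Matrix.diagonal (fun z : Fin 3 × J => q z.2) =
      Matrix.diagonal (fun z : Fin 3 × I => p z.2) * (kos2 M).map φ := by
  ext c a
  rw [Matrix.mul_diagonal, Matrix.diagonal_mul, Matrix.map_apply]
  unfold kos2
  split_ifs
  · exact h _ _ _
  · rw [neg_mul, h, map_neg, mul_neg]
  · simp

lemma kos3_diag (h : ∀ i c a, M' i c a * q a = p c * φ (M i c a)) :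
    kos3 M' * Matrix.diagonal q =
      Matrix.diagonal (fun z : Fin 3 × I => p z.2) * (kos3 M).map φ := by
  ext c a
  rw [Matrix.mul_diagonal, Matrix.diagonal_mul]
  exact h _ _ _

end kosz

lemma det_diag {F I : Type} [CommRing F] [Fintype I] [DecidableEq I] (t : F) (a : I → ℕ) :
    (Matrix.diagonal fun c => t ^ a c).det = t ^ ∑ c, a c := by
  rw [Matrix.det_diagonal, Finset.prod_pow_eq_pow_sum]

lemma det_diag3 {F I : Type} [CommRing F] [Fintype I] [DecidableEq I] (t : F) (a : I → ℕ) :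
    (Matrix.diagonal fun z : Fin 3 × I => t ^ a z.2).det = t ^ (3 * ∑ c, a c) := by
  rw [Matrix.det_diagonal, Finset.prod_pow_eq_pow_sum, Fintype.sum_prod_type]
  simp

lemma ord_eq {u v : PowerSeries ℂ} (hu : PowerSeries.constantCoeff u ≠ 0)
    (hv : PowerSeries.constantCoeff v ≠ 0) {a b : ℕ}
    (h : PowerSeries.X ^ a * u = PowerSeries.X ^ b * v) : a = b := by
  have key : ∀ {u v : PowerSeries ℂ} {a b : ℕ}, PowerSeries.constantCoeff u ≠ 0 →
      PowerSeries.X ^ a * u = PowerSeries.X ^ b * v → b ≤ a := by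
    intro u v a b hu h
    by_contra hlt
    obtain ⟨c, rfl⟩ : ∃ c, b = a + (c + 1) := ⟨b - a - 1, by omega⟩
    rw [pow_add, mul_assoc] at h
    have := mul_left_cancel₀ (pow_ne_zero a PowerSeries.X_ne_zero) h
    apply hu
    rw [this]
    simp
  exact le_antisymm (key hv h.symm) (key hu h)

/-- Order of vanishing along a one-parameter subgroup. -/
lemma ord_aeval {σ : Type} [Fintype σ] (R : MvPolynomial σ ℂ) (D T : ℕ) (w : σ → ℕ) (h0 : R ≠ 0)
    (hR : R.IsHomogeneous D) (hT : ∀ c, w c ≤ T) :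
    weightedTotalDegree w R ≤ T * D ∧ ∃ Rt : MvPolynomial σ ℂ, Rt ≠ 0 ∧ ∀ h : σ → ℂ,
      ∃ u : PowerSeries ℂ, PowerSeries.constantCoeff u = eval h Rt ∧
        aeval (fun c => algebraMap ℂ (PowerSeries ℂ) (h c) * PowerSeries.X ^ (T - w c)) R =
          PowerSeries.X ^ (T * D - weightedTotalDegree w R) * u := by
  classical
  have hsum : ∀ a ∈ R.support, ∑ c, (T - w c) * a c + Finsupp.weight w a = T * D := by
    intro a ha
    have h1 := hR (mem_support_iff.1 ha)
    rw [Finsupp.weight_apply, Finsupp.sum_fintype _ _ (by simp)] at h1 ⊢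
    rw [← h1, Finset.mul_sum, ← Finset.sum_add_distrib]
    refine Finset.sum_congr rfl fun c _ => ?_
    have := hT c
    simp only [smul_eq_mul, Pi.one_apply, mul_one]
    obtain ⟨z, hz⟩ : ∃ z, T = w c + z := ⟨T - w c, by omega⟩
    rw [hz, Nat.add_sub_cancel_left]
    ring
  obtain ⟨a0, ha0, he⟩ := Finset.exists_mem_eq_sup R.support (support_nonempty.2 h0)
    (fun s => Finsupp.weight w s)
  have he' : weightedTotalDegree w R = Finsupp.weight w a0 := he
  have hle : weightedTotalDegree w R ≤ T * D := by have := hsum a0 ha0; omega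
  refine ⟨hle, weightedHomogeneousComponent w (weightedTotalDegree w R) R, fun h => ?_, fun h => ?_⟩
  · have := congrArg (coeff a0) h
    rw [coeff_weightedHomogeneousComponent, if_pos he'.symm, coeff_zero] at this
    exact mem_support_iff.1 ha0 this
  · refine ⟨∑ a ∈ R.support, algebraMap ℂ (PowerSeries ℂ) (coeff a R * ∏ c, h c ^ a c) *
      PowerSeries.X ^ (weightedTotalDegree w R - Finsupp.weight w a), ?_, ?_⟩
    · rw [weightedHomogeneousComponent_apply, map_sum, map_sum, Finset.sum_filter]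
      refine Finset.sum_congr rfl fun a ha => ?_
      have h1 : Finsupp.weight w a ≤ weightedTotalDegree w R := le_weightedTotalDegree w ha
      split_ifs with h2
      · rw [h2, Nat.sub_self, pow_zero, mul_one, eval_monomial, Finsupp.prod_fintype _ _ (by simp)]
        simp
      · have : weightedTotalDegree w R - Finsupp.weight w a ≠ 0 := by omega
        simp [this]
    · rw [aeval_def, eval₂_eq', Finset.mul_sum]
      refine Finset.sum_congr rfl fun a ha => ?_
      have h1 : Finsupp.weight w a ≤ weightedTotalDegree w R := le_weightedTotalDegree w ha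
      have h2 := hsum a ha
      have h3 : ∑ c, (T - w c) * a c = (T * D - weightedTotalDegree w R) +
          (weightedTotalDegree w R - Finsupp.weight w a) := by omega
      simp only [mul_pow, Finset.prod_mul_distrib, ← pow_mul, Finset.prod_pow_eq_pow_sum, h3,
        map_mul, map_prod, map_pow, pow_add]
      ring

end Pool.Agent.Lib.MP_a25055_ag.BCW
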