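import Pool.Agent.Lib.MP_a25055_ag.Inv

/-! Block INV: invariance of the three stability notions, and orbit closures by coefficients. -/

open MvPolynomial Filter Topology

noncomputable section

namespace Pool.Agent.Lib.MP_a25055_ag

namespace BINV

variable {m N : ℕ}

lemma moved_zero (g : Mat N) : moved (0 : PP m N) g = 0 := by
  funext H; simp [moved]

lemma eq_zero_iff (p : PP m N) : p = 0 ↔ moved p 1 = 0 :=
  ⟨fun h => by rw [h, moved_zero], fun h => moved_inj (by rw [h, moved_zero])⟩

lemma transport (s : Fin 3) (p p' : PP m N)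
    (Φ : ((Fin m × Fin N → ℂ) → ℂ) ≃ₜ ((Fin m × Fin N → ℂ) → ℂ)) (h0 : Φ 0 = 0)
    (e : SL N ≃ SL N) (he : e 1 = 1)
    (h : ∀ g : SL N, moved p' (e g : Mat N) = Φ (moved p (g : Mat N))) :
    Git s p' ↔ Git s p := by
  have h1 : moved p' 1 = Φ (moved p 1) := by simpa [he] using h 1
  have horb : orb p' = Φ '' orb p := by
    ext F
    constructor
    · rintro ⟨g, rfl⟩
      obtain ⟨g, rfl⟩ := e.surjective g
      exact ⟨_, ⟨g, rfl⟩, (h g).symm⟩
    · rintro ⟨_, ⟨g, rfl⟩, rfl⟩
      exact ⟨e g, h g⟩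
  have hz : p' = 0 ↔ p = 0 := by
    rw [eq_zero_iff, eq_zero_iff, h1]
    conv_lhs => rw [← h0]
    exact Φ.injective.eq_iff
  have hP : Poly p' ↔ Poly p := by
    unfold Poly
    rw [horb, Φ.isClosed_image, ne_eq, ne_eq, hz]
  have hS : Semi p' ↔ Semi p := by
    unfold Semi
    rw [horb, ← Φ.image_closure]
    conv_lhs => rw [← h0]
    rw [Φ.injective.mem_set_image]
  have hT : Stab p' ↔ Stab p := by
    unfold Stab
    have : {g : SL N | moved p' g = moved p' 1} = e '' {g : SL N | moved p g = moved p 1} := by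
      ext g
      obtain ⟨g, rfl⟩ := e.surjective g
      rw [e.injective.mem_set_image, Set.mem_ofPred_eq, Set.mem_ofPred_eq, h, h1]
      exact Φ.injective.eq_iff
    rw [hP, this, Set.finite_image_iff e.injective.injOn]
  fin_cases s
  exacts [hT, hP, hS]

/-- moving all vectors by `M` -/
def rm (M : Mat N) (H : Fin m × Fin N → ℂ) : Fin m × Fin N → ℂ :=
  fun a => ∑ l, H (a.1, l) * M l a.2

lemma rm_mul (M M' : Mat N) (H : Fin m × Fin N → ℂ) : rm (M * M') H = rm M' (rm M H) := by
  funext a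
  simp only [rm, Matrix.mul_apply, Finset.mul_sum, Finset.sum_mul, mul_assoc]
  exact Finset.sum_comm

lemma rm_one (H : Fin m × Fin N → ℂ) : rm 1 H = H := by
  funext a
  simp [rm, Matrix.one_apply]

lemma moved_act (g M : Mat N) (p : PP m N) : moved (act M p) g = moved p (g * M) := by
  rw [moved_eq, act_act, ← moved_eq]

lemma moved_mul (g M : Mat N) (p : PP m N) (H : Fin m × Fin N → ℂ) :
    moved p (M * g) H = moved p g (rm M H) := by
  change eval (rm (M * g) H) p = eval (rm g (rm M H)) p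
  rw [rm_mul]

/-- conjugation -/
def cj (M M' : Mat N) (h : M * M' = 1) (g : SL N) : SL N :=
  ⟨M * (g : Mat N) * M', by
    rw [Matrix.det_mul, Matrix.det_mul, g.det_coe, mul_one, ← Matrix.det_mul, h, Matrix.det_one]⟩

lemma cj_cj (M M' : Mat N) (h : M * M' = 1) (h' : M' * M = 1) (g : SL N) :
    cj M' M h' (cj M M' h g) = g := by
  apply Subtype.ext
  change M' * (M * (g : Mat N) * M') * M = g
  rw [← mul_assoc, ← mul_assoc, h', one_mul, mul_assoc, h', mul_one]

lemma git_act (s : Fin 3) (p : PP m N) (M : Mat N) (hM : M.det ≠ 0) :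
    Git s (act M p) ↔ Git s p := by
  have hu : IsUnit M.det := isUnit_iff_ne_zero.mpr hM
  have h1 : M * M⁻¹ = 1 := Matrix.mul_nonsing_inv M hu
  have h2 : M⁻¹ * M = 1 := Matrix.nonsing_inv_mul M hu
  let Φ : ((Fin m × Fin N → ℂ) → ℂ) ≃ₜ ((Fin m × Fin N → ℂ) → ℂ) :=
    { toFun := fun F H => F (rm M H)
      invFun := fun F H => F (rm M⁻¹ H)
      left_inv := fun F => by funext H; simp only [← rm_mul, h2, rm_one]
      right_inv := fun F => by funext H; simp only [← rm_mul, h1, rm_one]
      continuous_toFun := continuous_pi fun H => continuous_apply _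
      continuous_invFun := continuous_pi fun H => continuous_apply _ }
  refine transport s p _ Φ rfl ⟨cj M M⁻¹ h1, cj M⁻¹ M h2, cj_cj _ _ h1 h2, cj_cj _ _ h2 h1⟩
    (Subtype.ext ?_) fun g => ?_
  · change M * ((1 : SL N) : Mat N) * M⁻¹ = ((1 : SL N) : Mat N)
    simp [h1]
  · change moved (act M p) (M * (g : Mat N) * M⁻¹) = fun H => moved p g (rm M H)
    funext H
    rw [moved_act, mul_assoc, h2, mul_one, moved_mul]

lemma git_smul (s : Fin 3) (p : PP m N) (c : ℂ) (hc : c ≠ 0) : Git s (C c * p) ↔ Git s p := by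
  refine transport s p _ (Homeomorph.smulOfNeZero c hc) (by simp) (Equiv.refl _) rfl fun g => ?_
  funext H
  simp [moved]

lemma semi_of_poly (p : PP m N) (h : Poly p) : Semi p := by
  unfold Semi
  rw [h.2.closure_eq]
  rintro ⟨g, hg⟩
  apply h.1
  have h1 : act (g : Mat N) p = 0 := by rw [eq_zero_iff, ← moved_eq]; exact hg
  have h2 := act_act ((g⁻¹ : SL N) : Mat N) (g : Mat N) p
  rw [h1, map_zero, ← Matrix.SpecialLinearGroup.coe_mul, inv_mul_cancel,
    Matrix.SpecialLinearGroup.coe_one, act_one] at h2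
  exact h2.symm

lemma totalDegree_act (g : Mat N) (p : PP m N) : (act g p).totalDegree ≤ p.totalDegree := by
  classical
  conv_lhs => rw [p.as_sum, map_sum]
  refine totalDegree_finsetSum_le fun a ha => le_trans ?_ (le_totalDegree ha)
  unfold act
  rw [aeval_monomial]
  refine (totalDegree_mul _ _).trans ?_
  rw [algebraMap_eq, totalDegree_C, zero_add, Finsupp.prod, Finsupp.sum]
  refine (totalDegree_finsetProd _ _).trans (Finset.sum_le_sum fun c _ => ?_)
  refine (totalDegree_pow _ _).trans ?_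
  have : (∑ l, C (g l c.2) * X (c.1, l) : PP m N).totalDegree ≤ 1 :=
    totalDegree_finsetSum_le fun l _ => (totalDegree_mul _ _).trans (by simp)
  simpa using Nat.mul_le_mul_left (a c) this

/-- a polynomial from a finite coefficient vector -/
def ofc (S : Finset (Fin m × Fin N →₀ ℕ)) : (S → ℂ) →ₗ[ℂ] PP m N :=
  ∑ s : S, (monomial (s : Fin m × Fin N →₀ ℕ)).comp (LinearMap.proj s)

lemma coeff_ofc (S : Finset (Fin m × Fin N →₀ ℕ)) (c : S → ℂ) (a : Fin m × Fin N →₀ ℕ) :
    coeff a (ofc S c) = if h : a ∈ S then c ⟨a, h⟩ else 0 := by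
  classical
  simp only [ofc, LinearMap.coe_sum, Finset.sum_apply, LinearMap.comp_apply, LinearMap.proj_apply,
    coeff_sum, coeff_monomial]
  split_ifs with h
  · rw [Finset.sum_eq_single ⟨a, h⟩]
    · simp
    · intro b _ hb
      rw [if_neg fun e => hb (Subtype.ext e)]
    · simp
  · exact Finset.sum_eq_zero fun b _ => if_neg fun e => h (by rw [← e]; exact b.2)

lemma ofc_coeff (S : Finset (Fin m × Fin N →₀ ℕ)) (q : PP m N) (h : ∀ a ∉ S, coeff a q = 0) :
    ofc S (fun s => coeff (s : Fin m × Fin N →₀ ℕ) q) = q := by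
  ext a
  rw [coeff_ofc]
  split_ifs with ha
  · rfl
  · exact (h a ha).symm

/-- a polynomial as a function -/
def fn : PP m N →ₗ[ℂ] ((Fin m × Fin N → ℂ) → ℂ) :=
  LinearMap.pi fun H => (aeval H : PP m N →ₐ[ℂ] ℂ).toLinearMap

lemma fn_eq (q : PP m N) : fn q = moved q 1 := by
  rw [moved_one]
  funext H
  simp [fn, aeval_eq_eval]

lemma clos (p : PP m N) (F : (Fin m × Fin N → ℂ) → ℂ) : F ∈ closure (orb p) ↔
    ∃ q : PP m N, F = moved q 1 ∧ ∃ g : ℕ → SL N,
      ∀ a, Tendsto (fun n => coeff a (act (g n : Mat N) p)) atTop (𝓝 (coeff a q)) := by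
  classical
  let S := (Finsupp.finite_of_degree_le (σ := Fin m × Fin N) p.totalDegree).toFinset
  have hS : ∀ (g : Mat N), ∀ a ∉ S, coeff a (act g p) = 0 := fun g a ha => by
    apply coeff_eq_zero_of_totalDegree_lt
    refine lt_of_le_of_lt (totalDegree_act g p) ?_
    simpa [S, Finsupp.degree_apply] using ha
  let L := fn.comp (ofc S)
  have hL : LinearMap.ker L = ⊥ := by
    rw [LinearMap.ker_eq_bot']
    intro c hc
    have h1 : ofc S c = 0 := by rw [eq_zero_iff, ← fn_eq]; exact hc
    funext s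
    have := coeff_ofc S c s
    rw [h1, dif_pos s.2] at this
    exact this.symm
  have hE := LinearMap.isClosedEmbedding_of_injective hL
  let T : SL N → S → ℂ := fun g s => coeff (s : Fin m × Fin N →₀ ℕ) (act (g : Mat N) p)
  have hT : ∀ g, L (T g) = moved p (g : Mat N) := fun g => by
    change fn (ofc S _) = _
    rw [ofc_coeff S _ (hS g), fn_eq, ← moved_eq]
  have horb : orb p = L '' Set.range T := by
    rw [← Set.range_comp]
    exact congrArg Set.range (funext fun g => (hT g).symm)
  rw [horb, hE.closure_image_eq]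
  constructor
  · rintro ⟨c, hc, rfl⟩
    obtain ⟨x, hx, hl⟩ := mem_closure_iff_seq_limit.mp hc
    choose g hg using hx
    refine ⟨ofc S c, fn_eq _, g, fun a => ?_⟩
    rw [coeff_ofc]
    split_ifs with ha
    · refine (tendsto_pi_nhds.mp hl ⟨a, ha⟩).congr fun n => ?_
      rw [← hg n]
    · simp only [hS _ a ha]
      exact tendsto_const_nhds
  · rintro ⟨q, rfl, g, hg⟩
    have hq : ∀ a ∉ S, coeff a q = 0 := fun a ha => by
      have := hg a
      simp only [hS _ a ha] at this
      exact tendsto_nhds_unique this tendsto_const_nhds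
    refine ⟨fun s => coeff (s : Fin m × Fin N →₀ ℕ) q, mem_closure_iff_seq_limit.mpr
      ⟨fun n => T (g n), fun n => ⟨_, rfl⟩, tendsto_pi_nhds.mpr fun s => hg s⟩, ?_⟩
    change fn (ofc S _) = _
    rw [ofc_coeff S _ hq, fn_eq]

end BINV

theorem inv_of : St_INV :=
  ⟨fun s _ _ p g h => BINV.git_act s p g h, fun s _ _ p c h => BINV.git_smul s p c h,
    fun p h => BINV.semi_of_poly p h, fun p F => BINV.clos p F⟩

end Pool.Agent.Lib.MP_a25055_ag
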