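import Pool.Agent.Lib.MP_a25055_ag.Inv

/-! Block K2: the Koszul complex of three sections is exact up to `δ` in large degrees. -/

open Polynomial Matrix

noncomputable section

namespace Pool.Agent.Lib.MP_a25055_ag

namespace BK2

variable {O R : Type} [CommRing O] [CommRing R] [Algebra O R]

/-- the Rees algebra of a submodule -/
def rees (Λ : Submodule O R) : Subalgebra O R[X] where
  carrier := {p | ∀ n, p.coeff n ∈ Λ ^ n}
  mul_mem' hf hg i := by
    rw [Polynomial.coeff_mul]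
    apply Submodule.sum_mem
    rintro ⟨j, k⟩ e
    rw [← Finset.HasAntidiagonal.mem_antidiagonal.mp e, pow_add]
    exact Submodule.mul_mem_mul (hf j) (hg k)
  add_mem' hf hg i := by
    rw [Polynomial.coeff_add]
    exact Submodule.add_mem _ (hf i) (hg i)
  algebraMap_mem' r i := by
    rw [Polynomial.algebraMap_apply, Polynomial.coeff_C]
    split_ifs with h
    · subst h
      rw [pow_zero]
      exact Submodule.mem_one.mpr ⟨r, rfl⟩
    · exact Submodule.zero_mem _

lemma mono_mem {Λ : Submodule O R} {n : ℕ} {c : R} (hc : c ∈ Λ ^ n) :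
    Polynomial.monomial n c ∈ rees Λ := fun m => by
  rw [Polynomial.coeff_monomial]
  split_ifs with h
  · exact h ▸ hc
  · exact Submodule.zero_mem _

lemma rees_fg {Λ : Submodule O R} (h : Λ.FG) : (rees Λ).FG := by
  obtain ⟨s, hs⟩ := h
  refine Subalgebra.fg_def.mpr ⟨Polynomial.monomial 1 '' (s : Set R), s.finite_toSet.image _, ?_⟩
  set A := Algebra.adjoin O (Polynomial.monomial 1 '' (s : Set R) : Set R[X]) with hA
  have h1 : ∀ b ∈ Λ, Polynomial.monomial 1 b ∈ A := by
    intro b hb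
    rw [← hs] at hb
    induction hb using Submodule.span_induction with
    | mem x hx => exact Algebra.subset_adjoin ⟨x, hx, rfl⟩
    | zero => rw [map_zero]; exact A.zero_mem
    | add x y _ _ hx hy => rw [map_add]; exact A.add_mem hx hy
    | smul r x _ hx => rw [← Polynomial.smul_monomial]; exact A.smul_mem hx r
  have h2 : ∀ n, ∀ c ∈ Λ ^ n, Polynomial.monomial n c ∈ A := by
    intro n
    induction n with
    | zero =>
      intro c hc
      rw [pow_zero] at hc
      obtain ⟨r, rfl⟩ := Submodule.mem_one.mp hc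
      exact A.algebraMap_mem r
    | succ n ih =>
      intro c hc
      rw [pow_succ] at hc
      refine Submodule.mul_induction_on hc (fun a ha b hb => ?_) fun x y hx hy => ?_
      · rw [← Polynomial.monomial_mul_monomial]
        exact A.mul_mem (ih a ha) (h1 b hb)
      · rw [map_add]
        exact A.add_mem hx hy
  apply le_antisymm
  · refine Algebra.adjoin_le ?_
    rintro _ ⟨r, hr, rfl⟩
    exact mono_mem (by rw [pow_one, ← hs]; exact Submodule.subset_span hr)
  · intro p hp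
    rw [p.as_sum_support]
    exact A.sum_mem fun i _ => h2 i _ (hp i)

/-- cycles of degree `n` -/
def Cyc {ι κ : Type} [Fintype ι] (Λ : Submodule O R) (M : κ → ι → R) (n : ℕ) (x : ι → R) : Prop :=
  (∀ i, x i ∈ Λ ^ n) ∧ ∀ k, ∑ i, M k i * x i = 0

/-- the cycles are generated in bounded degree -/
lemma key [IsNoetherianRing O] {Λ : Submodule O R} (h : Λ.FG) {ι κ : Type} [Fintype ι]
    (M : κ → ι → R) : ∃ D : ℕ, ∀ (n : ℕ) (T : AddSubmonoid (ι → R)),
      (∀ d, d ≤ D → d ≤ n → ∀ c, Cyc Λ M d c → ∀ β ∈ Λ ^ (n - d), β • c ∈ T) →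
      ∀ x, Cyc Λ M n x → x ∈ T := by
  classical
  have hN : IsNoetherianRing (rees Λ) := isNoetherianRing_of_fg (rees_fg h)
  let N : Submodule (rees Λ) (ι → rees Λ) :=
    { carrier := {p | ∀ k, ∑ i, Polynomial.C (M k i) * (p i : R[X]) = 0}
      add_mem' := fun {p q} hp hq k => by
        simp only [Pi.add_apply, Subalgebra.coe_add, mul_add, Finset.sum_add_distrib]
        rw [hp k, hq k, add_zero]
      zero_mem' := fun k => by simp
      smul_mem' := fun b p hp k => by
        have : ∑ i, Polynomial.C (M k i) * ((b • p) i : R[X]) =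
            (b : R[X]) * ∑ i, Polynomial.C (M k i) * (p i : R[X]) := by
          rw [Finset.mul_sum]
          refine Finset.sum_congr rfl fun i _ => ?_
          simp only [Pi.smul_apply, smul_eq_mul, Subalgebra.coe_mul]
          ring
        rw [this, hp k, mul_zero] }
  obtain ⟨G, hG⟩ : N.FG := IsNoetherian.noetherian N
  refine ⟨G.sup fun g => Finset.univ.sup fun i => (g i : R[X]).natDegree, fun n T hT x hx => ?_⟩
  have hQ : ∀ p ∈ Submodule.span (rees Λ) (G : Set (ι → rees Λ)), ∀ m, m ≤ n →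
      ∀ β ∈ Λ ^ (n - m), (β • fun i => (p i : R[X]).coeff m) ∈ T := by
    intro p hp
    induction hp using Submodule.span_induction with
    | mem g hg =>
      intro m hm β hβ
      by_cases hD : m ≤ G.sup fun g => Finset.univ.sup fun i => (g i : R[X]).natDegree
      · refine hT m hD hm _ ⟨fun i => (g i).2 m, fun k => ?_⟩ β hβ
        have h1 : g ∈ N := hG ▸ Submodule.subset_span hg
        have h2 := congrArg (fun q : R[X] => q.coeff m) (h1 k)
        simpa only [Polynomial.finsetSum_coeff, Polynomial.coeff_C_mul, Polynomial.coeff_zero]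
          using h2
      · have : (fun i => (g i : R[X]).coeff m) = 0 := by
          funext i
          refine Polynomial.coeff_eq_zero_of_natDegree_lt (lt_of_le_of_lt ?_ (not_le.mp hD))
          exact (Finset.le_sup (f := fun i => (g i : R[X]).natDegree) (Finset.mem_univ i)).trans
            (Finset.le_sup (f := fun g : ι → rees Λ =>
              Finset.univ.sup fun i => (g i : R[X]).natDegree) hg)
        rw [this, smul_zero]
        exact T.zero_mem
    | zero =>
      intro m _ β _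
      have : (fun i => (((0 : ι → rees Λ) i : rees Λ) : R[X]).coeff m) = 0 := by
        funext i; simp
      rw [this, smul_zero]
      exact T.zero_mem
    | add p q _ _ hp hq =>
      intro m hm β hβ
      have : (fun i => (((p + q) i : rees Λ) : R[X]).coeff m) =
          (fun i => (p i : R[X]).coeff m) + fun i => (q i : R[X]).coeff m := by
        funext i; simp
      rw [this, smul_add]
      exact T.add_mem (hp m hm β hβ) (hq m hm β hβ)
    | smul b p _ hp =>
      intro m hm β hβ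
      have : (β • fun i => (((b • p) i : rees Λ) : R[X]).coeff m) =
          ∑ z ∈ Finset.HasAntidiagonal.antidiagonal m,
            (β * (b : R[X]).coeff z.1) • fun i => (p i : R[X]).coeff z.2 := by
        funext i
        simp only [Pi.smul_apply, smul_eq_mul, Subalgebra.coe_mul, Polynomial.coeff_mul,
          Finset.sum_apply, Finset.mul_sum, mul_assoc]
      rw [this]
      refine T.sum_mem fun z hz => ?_
      have hz' := Finset.HasAntidiagonal.mem_antidiagonal.mp hz
      refine hp z.2 (by omega) _ ?_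
      rw [show n - z.2 = n - m + z.1 by omega, pow_add]
      exact Submodule.mul_mem_mul hβ (b.2 z.1)
  have h1 : (fun i => (⟨Polynomial.monomial n (x i), mono_mem (hx.1 i)⟩ : rees Λ)) ∈ N := by
    intro k
    simp only [Polynomial.C_mul_monomial]
    rw [← map_sum, hx.2 k, map_zero]
  rw [← hG] at h1
  have h2 := hQ _ h1 n le_rfl 1 (by
    rw [Nat.sub_self, pow_zero]; exact Submodule.mem_one.mpr ⟨1, map_one _⟩)
  simpa only [Polynomial.coeff_monomial_same, one_smul] using h2

lemma persist {Λ : Submodule O R} {H : Fin 3 → R} {δ : O} {n0 : ℕ}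
    (h : ∀ y ∈ Λ ^ (n0 + 1), ∃ x : Fin 3 → R, (∀ i, x i ∈ Λ ^ n0) ∧ δ • y = ∑ i, H i * x i)
    (m : ℕ) (hm : n0 ≤ m) :
    ∀ y ∈ Λ ^ (m + 1), ∃ x : Fin 3 → R, (∀ i, x i ∈ Λ ^ m) ∧ δ • y = ∑ i, H i * x i := by
  induction m, hm using Nat.le_induction with
  | base => exact h
  | succ m _ ih =>
    intro y hy
    rw [pow_succ] at hy
    refine Submodule.mul_induction_on hy (fun a ha b hb => ?_) ?_
    · obtain ⟨x, hx, e⟩ := ih a ha
      refine ⟨fun i => x i * b, fun i => ?_, ?_⟩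
      · rw [pow_succ]
        exact Submodule.mul_mem_mul (hx i) hb
      · rw [← smul_mul_assoc, e, Finset.sum_mul]
        simp only [mul_assoc]
    · rintro u v ⟨x, hx, e⟩ ⟨x', hx', e'⟩
      refine ⟨x + x', fun i => Submodule.add_mem _ (hx i) (hx' i), ?_⟩
      rw [smul_add, e, e', ← Finset.sum_add_distrib]
      simp only [Pi.add_apply, mul_add]

/-- cross product -/
def cr (a b : Fin 3 → R) : Fin 3 → R := fun c => a (c + 1) * b (c + 2) - a (c + 2) * b (c + 1)

lemma mul_mem_pow {Λ : Submodule O R} {a b : R} {i j n : ℕ} (ha : a ∈ Λ ^ i) (hb : b ∈ Λ ^ j)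
    (h : i + j = n) : a * b ∈ Λ ^ n := by
  rw [← h, pow_add]
  exact Submodule.mul_mem_mul ha hb

variable [IsNoetherianRing O] {Λ : Submodule O R} {H : Fin 3 → R} {δ : O} {n0 : ℕ}

lemma ex1 (hf : Λ.FG)
    (h : ∀ y ∈ Λ ^ (n0 + 1), ∃ x : Fin 3 → R, (∀ i, x i ∈ Λ ^ n0) ∧ δ • y = ∑ i, H i * x i) :
    ∃ n1, ∀ n ≥ n1, ∀ x : Fin 3 → R, (∀ i, x i ∈ Λ ^ (n + 1)) → ∑ i, H i * x i = 0 →
      ∃ y : Fin 3 → R, (∀ i, y i ∈ Λ ^ n) ∧ cr H y = δ • x := by
  obtain ⟨D, hD⟩ := key hf (fun (_ : Unit) i => H i)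
  refine ⟨D + n0, fun n hn x hx h0 => ?_⟩
  let T : AddSubmonoid (Fin 3 → R) :=
    { carrier := {x | ∃ y : Fin 3 → R, (∀ i, y i ∈ Λ ^ n) ∧ cr H y = δ • x}
      add_mem' := by
        rintro u v ⟨y, hy, e⟩ ⟨y', hy', e'⟩
        refine ⟨y + y', fun i => Submodule.add_mem _ (hy i) (hy' i), ?_⟩
        rw [smul_add, ← e, ← e']
        funext c
        simp only [cr, Pi.add_apply]
        ring
      zero_mem' := ⟨0, fun _ => Submodule.zero_mem _, by funext c; simp [cr]⟩ }
  refine hD (n + 1) T (fun d hd _ c hc β hβ => ?_) x ⟨hx, fun _ => h0⟩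
  rw [show n + 1 - d = n - d + 1 by omega] at hβ
  obtain ⟨b, hb, e⟩ := persist h (n - d) (by omega) β hβ
  refine ⟨cr c b, fun i => Submodule.sub_mem _ (mul_mem_pow (hc.1 _) (hb _) (by omega))
    (mul_mem_pow (hc.1 _) (hb _) (by omega)), ?_⟩
  have h1 := hc.2 ()
  funext i
  rw [Pi.smul_apply, Pi.smul_apply, smul_eq_mul, ← smul_mul_assoc, e]
  simp only [Fin.sum_univ_three] at h1 ⊢
  fin_cases i
  · simp only [cr, Fin.zero_eta, Fin.isValue, Fin.reduceAdd]
    linear_combination (-b 0) * h1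
  · simp only [cr, Fin.mk_one, Fin.isValue, Fin.reduceAdd]
    linear_combination (-b 1) * h1
  · simp only [cr, Fin.reduceFinMk, Fin.isValue, Fin.reduceAdd]
    linear_combination (-b 2) * h1

/-- the matrix of the cross product with `H` -/
def crM (H : Fin 3 → R) : Fin 3 → Fin 3 → R := fun c a =>
  if a = c + 2 then H (c + 1) else if a = c + 1 then -H (c + 2) else 0

omit [IsNoetherianRing O] in
lemma crM_sum (H x : Fin 3 → R) (c : Fin 3) : ∑ i, crM H c i * x i = cr H x c := by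
  fin_cases c <;> simp [crM, cr, Fin.sum_univ_three] <;> ring

lemma ex2 (hf : Λ.FG)
    (h : ∀ y ∈ Λ ^ (n0 + 1), ∃ x : Fin 3 → R, (∀ i, x i ∈ Λ ^ n0) ∧ δ • y = ∑ i, H i * x i) :
    ∃ n1, ∀ n ≥ n1, ∀ x : Fin 3 → R, (∀ i, x i ∈ Λ ^ (n + 1)) → cr H x = 0 →
      ∃ z ∈ Λ ^ n, ∀ i, H i * z = δ • x i := by
  obtain ⟨D, hD⟩ := key hf (crM H)
  refine ⟨D + n0, fun n hn x hx h0 => ?_⟩
  let T : AddSubmonoid (Fin 3 → R) :=
    { carrier := {x | ∃ z ∈ Λ ^ n, ∀ i, H i * z = δ • x i}
      add_mem' := by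
        rintro u v ⟨y, hy, e⟩ ⟨y', hy', e'⟩
        refine ⟨y + y', Submodule.add_mem _ hy hy', fun i => ?_⟩
        rw [Pi.add_apply, smul_add, ← e, ← e', mul_add]
      zero_mem' := ⟨0, Submodule.zero_mem _, by simp⟩ }
  refine hD (n + 1) T (fun d hd _ c hc β hβ => ?_) x
    ⟨hx, fun k => by rw [crM_sum, h0, Pi.zero_apply]⟩
  rw [show n + 1 - d = n - d + 1 by omega] at hβ
  obtain ⟨b, hb, e⟩ := persist h (n - d) (by omega) β hβ
  refine ⟨∑ l, c l * b l, Submodule.sum_mem _ fun l _ => mul_mem_pow (hc.1 _) (hb _) (by omega),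
    fun i => ?_⟩
  have h0 := hc.2 0
  have h1 := hc.2 1
  have h2 := hc.2 2
  rw [crM_sum] at h0 h1 h2
  simp only [cr, Fin.isValue, Fin.reduceAdd] at h0 h1 h2
  rw [Pi.smul_apply, smul_eq_mul, ← smul_mul_assoc, e]
  simp only [Fin.sum_univ_three]
  fin_cases i
  · simp only [Fin.zero_eta, Fin.isValue]
    linear_combination b 1 * h2 - b 2 * h1
  · simp only [Fin.mk_one, Fin.isValue]
    linear_combination b 2 * h0 - b 0 * h2
  · simp only [Fin.reduceFinMk, Fin.isValue]
    linear_combination b 0 * h1 - b 1 * h0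

lemma ex3 (hf : Λ.FG)
    (h : ∀ y ∈ Λ ^ (n0 + 1), ∃ x : Fin 3 → R, (∀ i, x i ∈ Λ ^ n0) ∧ δ • y = ∑ i, H i * x i) :
    ∃ n1, ∀ n ≥ n1, ∀ z ∈ Λ ^ n, (∀ i, H i * z = 0) → δ • z = 0 := by
  obtain ⟨D, hD⟩ := key hf (fun i (_ : Unit) => H i)
  refine ⟨D + n0 + 1, fun n hn z hz h0 => ?_⟩
  let T : AddSubmonoid (Unit → R) :=
    { carrier := {x | δ • x () = 0}
      add_mem' := fun {u v} hu hv => by
        have hu' : δ • u () = 0 := hu
        have hv' : δ • v () = 0 := hv
        change δ • (u () + v ()) = 0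
        rw [smul_add, hu', hv', add_zero]
      zero_mem' := smul_zero δ }
  refine hD n T (fun d hd _ c hc β hβ => ?_) (fun _ => z) ⟨fun _ => hz, fun k => by simp [h0 k]⟩
  rw [show n - d = n - d - 1 + 1 by omega] at hβ
  obtain ⟨b, hb, e⟩ := persist h (n - d - 1) (by omega) β hβ
  change δ • (β * c ()) = 0
  rw [← smul_mul_assoc, e, Finset.sum_mul]
  refine Finset.sum_eq_zero fun i _ => ?_
  have := hc.2 i
  rw [Fintype.sum_unique] at this
  rw [mul_right_comm, this, zero_mul]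

omit [IsNoetherianRing O]

/-- the vector with coordinates `v` -/
def cv {I : Type} [Fintype I] (e : I → R) (v : I → O) : R := ∑ a, v a • e a

section cv
variable {I J : Type} [Fintype I] [Fintype J] {e : I → R} {W : Submodule O R}

lemma cv_inj (h : BasisOf O e W) {v w : I → O} (hv : cv e v = cv e w) : v = w := by
  have := Fintype.linearIndependent_iff.mp h.1 (v - w) (by
    simp only [Pi.sub_apply, sub_smul, Finset.sum_sub_distrib]
    exact sub_eq_zero.mpr hv)
  funext i
  exact sub_eq_zero.mp (this i)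

lemma cv_mem (h : BasisOf O e W) (v : I → O) : cv e v ∈ W := by
  rw [← h.2]
  exact Submodule.sum_mem _ fun a _ => Submodule.smul_mem _ _ (Submodule.subset_span ⟨a, rfl⟩)

lemma cv_surj (h : BasisOf O e W) {y : R} (hy : y ∈ W) : ∃ v : I → O, cv e v = y := by
  rw [← h.2] at hy
  exact (Submodule.mem_span_range_iff_exists_fun O).mp hy

lemma cv_zero (e : I → R) : cv e (0 : I → O) = 0 := by simp [cv]

lemma cv_smul (e : I → R) (δ : O) (v : I → O) : cv e (δ • v) = δ • cv e v := by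
  simp only [cv, Finset.smul_sum, Pi.smul_apply, smul_eq_mul, mul_smul]

lemma cv_mul {y : R} {e' : J → R} {M : Matrix I J O} (h : MulMat y e e' M) (v : J → O) :
    cv e (M *ᵥ v) = y * cv e' v := by
  simp only [cv, Finset.mul_sum, mul_smul_comm, h _, Finset.smul_sum, Matrix.mulVec, dotProduct,
    Finset.sum_smul, smul_smul]
  rw [Finset.sum_comm]
  simp only [mul_comm]

/-- the triple with coordinates `v` -/
def cv3 (e : I → R) (v : Fin 3 × I → O) : Fin 3 → R := fun i => cv e fun a => v (i, a)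

lemma cv3_inj (h : BasisOf O e W) {v w : Fin 3 × I → O} (hv : cv3 e v = cv3 e w) : v = w := by
  funext x
  exact congrFun (cv_inj h (congrFun hv x.1)) x.2

lemma cv3_surj (h : BasisOf O e W) {y : Fin 3 → R} (hy : ∀ i, y i ∈ W) :
    ∃ v : Fin 3 × I → O, cv3 e v = y := by
  choose v hv using fun i => cv_surj h (hy i)
  exact ⟨fun x => v x.1 x.2, funext hv⟩

lemma cv3_zero (e : I → R) : cv3 e (0 : Fin 3 × I → O) = 0 := funext fun _ => cv_zero e

lemma cv3_smul (e : I → R) (δ : O) (v : Fin 3 × I → O) : cv3 e (δ • v) = δ • cv3 e v :=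
  funext fun i => cv_smul e δ fun a => v (i, a)

lemma cv_kos1 {e' : J → R} {X : Fin 3 → Matrix I J O} (h : ∀ i, MulMat (H i) e e' (X i))
    (v : Fin 3 × J → O) : cv e (kos1 X *ᵥ v) = ∑ i, H i * cv3 e' v i := by
  have : kos1 X *ᵥ v = ∑ i, X i *ᵥ fun a => v (i, a) := by
    funext c
    simp only [kos1, Matrix.mulVec, dotProduct, Fintype.sum_prod_type, Finset.sum_apply]
  rw [this]
  simp only [cv3, ← cv_mul (h _)]
  simp only [cv, Finset.sum_apply, Finset.sum_smul]
  exact Finset.sum_comm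

lemma cv_kos2 {e' : J → R} {Y : Fin 3 → Matrix I J O} (h : ∀ i, MulMat (H i) e e' (Y i))
    (v : Fin 3 × J → O) : cv3 e (kos2 Y *ᵥ v) = cr H (cv3 e' v) := by
  funext c
  have : (fun a => (kos2 Y *ᵥ v) (c, a)) = (Y (c + 1) *ᵥ fun a => v (c + 2, a)) -
      Y (c + 2) *ᵥ fun a => v (c + 1, a) := by
    funext a
    simp only [kos2, Matrix.mulVec, dotProduct, Fintype.sum_prod_type, Pi.sub_apply,
      Fin.sum_univ_three]
    fin_cases c <;> simp <;> ring
  simp only [cv3, cr, ← cv_mul (h _)]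
  rw [this]
  simp only [cv, Pi.sub_apply, sub_smul, Finset.sum_sub_distrib]

lemma cv_kos3 {e' : J → R} {Z : Fin 3 → Matrix I J O} (h : ∀ i, MulMat (H i) e e' (Z i))
    (v : J → O) (i : Fin 3) : cv3 e (kos3 Z *ᵥ v) i = H i * cv e' v := cv_mul (h i) v

end cv

end BK2

open BK2 in
theorem k2_of : St_K2 := by
  intro O R _ _ _ _ Λ hf H _ δ n0 h
  obtain ⟨m1, h1⟩ := ex1 hf h
  obtain ⟨m2, h2⟩ := ex2 hf h
  obtain ⟨m3, h3⟩ := ex3 hf h
  refine ⟨m1 + m2 + m3 + n0, fun n hn I0 I1 I2 I3 _ _ _ _ e0 e1 e2 e3 b0 b1 b2 b3 X Y Z hX hY hZ =>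
    ⟨?_, ?_, fun y => ?_, fun x hx => ?_, fun x hx => ?_, fun x hx => ?_⟩⟩
  · refine Matrix.ext_iff_mulVec.mpr fun v => cv_inj b0 ?_
    rw [← Matrix.mulVec_mulVec, cv_kos1 hX, cv_kos2 hY, Matrix.zero_mulVec, cv_zero]
    simp only [cr, Fin.sum_univ_three, Fin.isValue, Fin.reduceAdd]
    ring
  · refine Matrix.ext_iff_mulVec.mpr fun v => cv3_inj b1 ?_
    rw [← Matrix.mulVec_mulVec, cv_kos2 hY, Matrix.zero_mulVec, cv3_zero]
    funext c
    simp only [cr, cv_kos3 hZ, Pi.zero_apply]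
    ring
  · obtain ⟨x, hx, e⟩ := persist h (n + 2) (by omega) _ (cv_mem b0 y)
    obtain ⟨v, rfl⟩ := cv3_surj b1 hx
    exact ⟨v, cv_inj b0 (by rw [cv_kos1 hX, cv_smul, e])⟩
  · obtain ⟨y, hy, e⟩ := h1 (n + 1) (by omega) (cv3 e1 x) (fun i => cv_mem b1 _)
      (by rw [← cv_kos1 hX, hx, cv_zero])
    obtain ⟨v, rfl⟩ := cv3_surj b2 hy
    exact ⟨v, cv3_inj b1 (by rw [cv_kos2 hY, cv3_smul, e])⟩
  · obtain ⟨z, hz, e⟩ := h2 n (by omega) (cv3 e2 x) (fun i => cv_mem b2 _)
      (by rw [← cv_kos2 hY, hx, cv3_zero])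
    obtain ⟨v, rfl⟩ := cv_surj b3 hz
    refine ⟨v, cv3_inj b2 (funext fun i => ?_)⟩
    rw [cv_kos3 hZ, cv3_smul, e, Pi.smul_apply]
  · refine cv_inj b3 ?_
    rw [cv_smul, cv_zero]
    refine h3 n (by omega) _ (cv_mem b3 x) fun i => ?_
    rw [← cv_kos3 hZ, hx, cv3_zero, Pi.zero_apply]

end Pool.Agent.Lib.MP_a25055_ag
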