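import Pool.Agent.Lib.MP_a25055_ag.Glue1

open MvPolynomial

noncomputable section

namespace Pool.Agent.Lib.MP_a25055_ag

namespace BSB

/-- Exponent of the leading monomial. -/
def ld : Fin 4 →₀ ℕ := Finsupp.single 0 1 + Finsupp.single 1 1 + Finsupp.single 3 1

lemma ld_eq : (X 0 * X 1 * X 3 : P4) = monomial ld 1 := by
  simp only [X, ld, monomial_mul, mul_one]

lemma deg_of_mem {p : P4} {k : ℕ} (hp : p.IsHomogeneous k) {a : Fin 4 →₀ ℕ}
    (ha : a ∈ p.support) : ∑ i, a i = k := by
  have := hp (mem_support_iff.mp ha)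
  rw [← this, Finsupp.weight_apply, Finsupp.sum_fintype _ _ (by simp)]
  simp

lemma hom_mon {k : ℕ} {a : Fin 4 →₀ ℕ} (ha : ∑ i, a i = k) (c : ℂ) :
    (monomial a c : P4).IsHomogeneous k := by
  refine isHomogeneous_monomial c ?_
  rw [← ha, Finsupp.degree_eq_sum]

lemma split {f : P4} (hf : NF2 f) : ∃ g : P4, f = monomial ld 1 + g ∧
    ∀ a ∈ g.support, ∑ i, a i = 3 ∧ a 3 = 0 := by
  classical
  refine ⟨X 2 ^ 3 + (f - f0), by rw [← ld_eq, f0]; ring, fun a ha => ?_⟩
  rcases Finset.mem_union.mp (support_add ha) with h | h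
  · rw [X_pow_eq_monomial] at h
    have := Finset.mem_singleton.mp (support_monomial_subset h)
    subst this
    simp
  · have h1 := deg_of_mem (hf.1.sub nf2_f0.1) h
    have h2 := hf.2 a h
    rw [Fin.sum_univ_four] at h1
    exact ⟨by rw [Fin.sum_univ_four]; exact h1, by omega⟩

lemma enum (k : ℕ) : ∃ (N : ℕ) (e : Fin N → Fin 4 →₀ ℕ), Enum k e := by
  have h : {a : Fin 4 →₀ ℕ | Std k a}.Finite :=
    (Finsupp.finite_of_degree_le k).subset fun a ha => by
      have := ha.1
      rw [← Finsupp.degree_eq_sum] at this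
      exact this.le
  refine ⟨h.toFinset.card, fun j => (h.toFinset.equivFin.symm j).1,
    Subtype.val_injective.comp h.toFinset.equivFin.symm.injective, fun a => ⟨?_, fun ha => ?_⟩⟩
  · rintro ⟨j, rfl⟩
    exact h.mem_toFinset.mp (h.toFinset.equivFin.symm j).2
  · exact ⟨h.toFinset.equivFin ⟨a, h.mem_toFinset.mpr ha⟩, by simp⟩

variable {N k : ℕ} {e : Fin N → Fin 4 →₀ ℕ}

/-- Reducible to standard monomials. -/
def Red (f : P4) (e : Fin N → Fin 4 →₀ ℕ) (p : P4) : Prop :=
  ∃ c : Fin N → ℂ, f ∣ p - ∑ j, c j • monomial (e j) (1 : ℂ)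

lemma Red.zero (f : P4) : Red f e 0 := ⟨0, by simp⟩

lemma Red.add {f p q : P4} (h : Red f e p) (h' : Red f e q) : Red f e (p + q) := by
  obtain ⟨c, hc⟩ := h
  obtain ⟨c', hc'⟩ := h'
  refine ⟨c + c', ?_⟩
  have := dvd_add hc hc'
  simp only [Pi.add_apply, add_smul, Finset.sum_add_distrib]
  rwa [show p + q - (∑ j, c j • monomial (e j) (1 : ℂ) + ∑ j, c' j • monomial (e j) (1 : ℂ)) =
    p - ∑ j, c j • monomial (e j) (1 : ℂ) + (q - ∑ j, c' j • monomial (e j) (1 : ℂ)) by ring]

lemma Red.sum {f : P4} {κ : Type} {s : Finset κ} {p : κ → P4} (h : ∀ j ∈ s, Red f e (p j)) :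
    Red f e (∑ j ∈ s, p j) := Finset.sum_induction p _ (fun _ _ => Red.add) (Red.zero f) h

lemma red_mon {f : P4} (he : Enum k e) (hf : NF2 f) (t : ℕ) :
    ∀ a : Fin 4 →₀ ℕ, a 3 = t → ∑ i, a i = k → ∀ z : ℂ, Red f e (monomial a z) := by
  classical
  obtain ⟨g, hg, hs⟩ := split hf
  induction t using Nat.strong_induction_on with
  | _ t ih =>
    intro a ht ha z
    by_cases h : a 0 = 0 ∨ a 1 = 0 ∨ a 3 = 0
    · obtain ⟨j, rfl⟩ := (he.2 a).mpr ⟨ha, h⟩
      refine ⟨Pi.single j z, ?_⟩
      rw [Finset.sum_eq_single j (by intro l _ hl; simp [hl]) (by simp)]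
      simp [smul_monomial]
    · have h1 : ld ≤ a := fun i => by
        fin_cases i <;> simp [ld] <;> omega
      obtain ⟨b, rfl⟩ := exists_add_of_le h1
      have h2 : (monomial (ld + b) z : P4) =
          f * monomial b z + ∑ c ∈ g.support, monomial (c + b) (-(coeff c g * z)) := by
        have h3 : g * monomial b z = ∑ c ∈ g.support, monomial (c + b) (coeff c g * z) := by
          conv_lhs => rw [g.as_sum]
          rw [Finset.sum_mul]
          exact Finset.sum_congr rfl fun c _ => monomial_mul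
        simp only [map_neg, Finset.sum_neg_distrib]
        rw [← h3, hg, add_mul, monomial_mul, one_mul]
        ring
      rw [h2]
      refine Red.add ⟨0, by simp⟩ (Red.sum fun c hc => ih _ ?_ _ rfl ?_ _)
      · rw [← ht]; simp [ld, (hs c hc).2]
      · have h4 := (hs c hc).1
        rw [← ha]
        simp only [Finsupp.add_apply, Finset.sum_add_distrib, h4]
        simp [ld, Fin.sum_univ_four]

lemma indep {f : P4} (he : Enum k e) (hf : NF2 f) (c : Fin N → ℂ)
    (h : f ∣ ∑ j, c j • monomial (e j) (1 : ℂ)) : c = 0 := by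
  classical
  obtain ⟨g, hg, hs⟩ := split hf
  obtain ⟨q, hq⟩ := h
  have h0 : q = 0 := by
    by_contra hq0
    obtain ⟨m, hm, hmax⟩ := Finset.exists_max_image q.support (fun a => a 3)
      (support_nonempty.mpr hq0)
    have h1 : coeff (ld + m) (g * q) = 0 := by
      by_contra h2
      obtain ⟨a, ha, b, hb, hab⟩ := Finset.mem_add.mp (support_mul g q (mem_support_iff.mpr h2))
      have h3 := DFunLike.congr_fun hab 3
      have h4 := hmax b hb
      have h5 := (hs a ha).2
      simp [ld] at h3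
      omega
    have h2 := congrArg (coeff (ld + m)) hq
    rw [hg, add_mul, coeff_add, h1, coeff_monomial_mul, coeff_sum, Finset.sum_eq_zero] at h2
    · exact mem_support_iff.mp hm (by simpa using h2.symm)
    · intro j _
      have h3 := ((he.2 (e j)).mp ⟨j, rfl⟩).2
      have h4 : e j ≠ ld + m := fun h5 => by
        rw [h5] at h3
        simp [ld] at h3
      simp [coeff_monomial, h4]
  funext j
  have h2 := congrArg (coeff (e j)) hq
  rw [h0, mul_zero, coeff_sum, Finset.sum_eq_single j] at h2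
  · simpa using h2
  · intro l _ hl
    simp [coeff_monomial, he.1.ne hl]
  · simp

end BSB

theorem sb_of : St_SB := fun k => ⟨BSB.enum k, fun N e f he hf =>
  ⟨fun j => BSB.hom_mon ((he.2 (e j)).mp ⟨j, rfl⟩).1 1, BSB.indep he hf, fun p hp => by
    have : BSB.Red f e (∑ a ∈ p.support, monomial a (coeff a p)) :=
      BSB.Red.sum fun a ha => BSB.red_mon he hf _ a rfl (BSB.deg_of_mem hp ha) _
    rwa [← p.as_sum] at this⟩⟩

end Pool.Agent.Lib.MP_a25055_ag
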