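import Pool.Agent.Lib.MP_a25055_ag.Glue1

/-! Block T1, part 1: positions of monomials and the basic lower bound for the total weight. -/

open MvPolynomial Filter Topology Module

noncomputable section

namespace Pool.Agent.Lib.MP_a25055_ag.BT1

/-- Position of a monomial in the character lattice. -/
def pos (a : Fin 4 →₀ ℕ) : ℤ × ℤ := ((a 0 : ℤ) - a 3, (a 0 : ℤ) + a 1 - 2 * a 3)

abbrev LA : Type := AddMonoidAlgebra ℂ (ℤ × ℤ)

def ψ : P4 →ₐ[ℂ] LA :=
  aeval ![AddMonoidAlgebra.single (1, 1) 1, AddMonoidAlgebra.single (0, 1) 1,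
    AddMonoidAlgebra.single (0, 0) 1, AddMonoidAlgebra.single (-1, -2) (-1)]

lemma ψ_mon (a : Fin 4 →₀ ℕ) :
    ψ (monomial a 1) = AddMonoidAlgebra.single (pos a) ((-1) ^ a 3) := by
  unfold ψ
  rw [aeval_monomial, Finsupp.prod_fintype _ _ (by simp), Fin.prod_univ_four]
  simp only [map_one, one_mul, Matrix.cons_val_zero, Matrix.cons_val_one, Matrix.cons_val,
    AddMonoidAlgebra.single_pow, AddMonoidAlgebra.single_mul_single, one_pow]
  congr 1
  ext <;> simp [pos] <;> ring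

lemma ψ_f0 : ψ f0 = 0 := by
  unfold ψ f0
  simp only [map_add, map_mul, map_pow, aeval_X, Matrix.cons_val_zero, Matrix.cons_val_one,
    Matrix.cons_val, AddMonoidAlgebra.single_pow, AddMonoidAlgebra.single_mul_single]
  have : ((1, 1) + (0, 1) + (-1, -2) : ℤ × ℤ) = 3 • (0, 0) := by ext <;> simp
  rw [this, ← AddMonoidAlgebra.single_add]
  simp

def φ : Q4 f0 →ₐ[ℂ] LA :=
  Ideal.Quotient.liftₐ _ ψ fun a ha => by
    obtain ⟨c, rfl⟩ := Ideal.mem_span_singleton.1 ha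
    rw [map_mul, ψ_f0, zero_mul]

lemma φ_mk (p : P4) : φ (mk4 f0 p) = ψ p := rfl

lemma li_single {ι : Type} (p : ι → ℤ × ℤ) (hp : Function.Injective p) (c : ι → ℂ)
    (hc : ∀ i, c i ≠ 0) :
    LinearIndependent ℂ fun i => (AddMonoidAlgebra.single (p i) (c i) : LA) := by
  classical
  rw [linearIndependent_iff']
  intro s g h i hi
  have := congrArg (fun x : LA => x.coeff (p i)) h
  simp only [AddMonoidAlgebra.coeff_sum, AddMonoidAlgebra.coeff_smul,
    AddMonoidAlgebra.coeff_single, Finsupp.finsetSum_apply, Finsupp.smul_apply,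
    Finsupp.single_apply, hp.eq_iff, smul_eq_mul, mul_ite, mul_zero, Finset.sum_ite_eq', hi,
    if_true, AddMonoidAlgebra.coeff_zero, Finsupp.zero_apply] at this
  exact (mul_eq_zero.1 this).resolve_right (hc i)

variable {N : ℕ} (e : Fin N → Fin 4 →₀ ℕ) (r : Fin N → ℕ)

/-- Some product of `n` generators has position `p` and weight at least `s`. -/
def R (n : ℕ) (p : ℤ × ℤ) (s : ℤ) : Prop :=
  ∃ j : Fin n → Fin N, ∑ l, pos (e (j l)) = p ∧ s ≤ ∑ l, (r (j l) : ℤ)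

lemma card_le (n s : ℕ) {ι : Type} [Fintype ι] (J : ι → Fin n → Fin N)
    (hJ : Function.Injective fun i => ∑ l, pos (e (J i l))) (hs : ∀ i, s ≤ ∑ l, r (J i l)) :
    Fintype.card ι ≤ finrank ℂ (Fil (fun j => mk4 f0 (monomial (e j) 1)) r n s) := by
  have : Module.Finite ℂ (Fil (fun j => mk4 f0 (monomial (e j) 1)) r n s) :=
    Module.Finite.span_of_finite _ ((Set.finite_range
      fun j : Fin n → Fin N => ∏ l, mk4 f0 (monomial (e (j l)) 1)).subset
        fun _ ⟨j, _, h⟩ => ⟨j, h.symm⟩)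
  let v : ι → Fil (fun j => mk4 f0 (monomial (e j) 1)) r n s := fun i =>
    ⟨∏ l, mk4 f0 (monomial (e (J i l)) 1), Submodule.subset_span ⟨J i, hs i, rfl⟩⟩
  refine LinearIndependent.fintype_card_le_finrank (b := v) ?_
  refine LinearIndependent.of_comp (φ.toLinearMap ∘ₗ Submodule.subtype _) ?_
  have := li_single _ hJ (fun i => ∏ l, (-1) ^ e (J i l) 3)
    (fun i => Finset.prod_ne_zero_iff.2 fun l _ => by simp)
  have h : (φ.toLinearMap ∘ₗ Submodule.subtype _ : _ →ₗ[ℂ] LA) ∘ v = fun i =>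
      AddMonoidAlgebra.single (∑ l, pos (e (J i l))) (∏ l, (-1) ^ e (J i l) 3) := by
    funext i
    simp only [Function.comp, v, LinearMap.comp_apply, Submodule.subtype_apply,
      AlgHom.toLinearMap_apply, map_prod, φ_mk, ψ_mon, AddMonoidAlgebra.prod_single]
  rw [h]
  exact this

lemma bound0 (n : ℕ) {ι : Type} (I : Finset ι) (p : ι → ℤ × ℤ) (s : ι → ℤ)
    (hp : Set.InjOn p I) (hR : ∀ i ∈ I, R e r n (p i) (s i)) :
    ∑ i ∈ I, s i ≤ (wsum (fun j => mk4 f0 (monomial (e j) 1)) r n : ℕ) := by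
  classical
  choose J hJ hs using fun i : I => hR i i.2
  have h1 : ∑ i ∈ I, s i ≤ ((∑ i : I, ∑ l, r (J i l) : ℕ) : ℤ) := by
    rw [← Finset.sum_coe_sort I]
    push_cast
    exact Finset.sum_le_sum fun i _ => hs i
  refine h1.trans (Nat.cast_le.2 ?_)
  have h2 : ∀ i : I, ∑ l, r (J i l) =
      ∑ t ∈ Finset.Icc 1 (n * ∑ j, r j), if t ≤ ∑ l, r (J i l) then 1 else 0 := fun i => by
    have h3 : ∑ l, r (J i l) ≤ n * ∑ j, r j := by
      have := Finset.sum_le_card_nsmul Finset.univ (fun l => r (J i l)) (∑ j, r j)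
        fun l _ => Finset.single_le_sum (f := r) (fun _ _ => Nat.zero_le _) (Finset.mem_univ _)
      simpa using this
    rw [← Finset.card_filter]
    have : (Finset.Icc 1 (n * ∑ j, r j)).filter (fun t => t ≤ ∑ l, r (J i l)) =
        Finset.Icc 1 (∑ l, r (J i l)) := by
      ext t; simp only [Finset.mem_filter, Finset.mem_Icc]; omega
    rw [this]; simp
  rw [Finset.sum_congr rfl fun i _ => h2 i, Finset.sum_comm]
  refine Finset.sum_le_sum fun t _ => ?_
  rw [← Finset.card_filter, ← Fintype.card_subtype]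
  refine card_le e r n t (fun i : {i : I // t ≤ ∑ l, r (J i l)} => J i.1) ?_ fun i => i.2
  intro i i' h
  simp only [hJ] at h
  exact Subtype.ext (Subtype.ext (hp i.1.2 i'.1.2 h))

variable {e r}

lemma R.add {n n' : ℕ} {p p' : ℤ × ℤ} {s s' : ℤ} (h : R e r n p s) (h' : R e r n' p' s') :
    R e r (n + n') (p + p') (s + s') := by
  obtain ⟨j, h1, h2⟩ := h
  obtain ⟨j', h1', h2'⟩ := h'
  refine ⟨Fin.append j j', ?_, ?_⟩
  · simp only [Fin.sum_univ_add, Fin.append_left, Fin.append_right, h1, h1']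
  · simp only [Fin.sum_univ_add, Fin.append_left, Fin.append_right]
    exact add_le_add h2 h2'

lemma R.mono {n : ℕ} {p : ℤ × ℤ} {s s' : ℤ} (h : R e r n p s) (h' : s' ≤ s) : R e r n p s' :=
  let ⟨j, h1, h2⟩ := h; ⟨j, h1, h'.trans h2⟩

lemma R.one (j : Fin N) : R e r 1 (pos (e j)) (r j) := ⟨fun _ => j, by simp, by simp⟩

lemma R.nsmul {n : ℕ} {p : ℤ × ℤ} {s : ℤ} (h : R e r n p s) (a : ℕ) :
    R e r (a * n) ((a : ℤ) • p) (a * s) := by
  induction a with
  | zero => rw [zero_mul]; exact ⟨Fin.elim0, by simp, by simp⟩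
  | succ a ih =>
    have := ih.add h
    rw [Nat.succ_mul]
    convert this using 1
    · push_cast; rw [add_smul, one_smul]
    · push_cast; ring

lemma R.tri {p1 p2 p3 : ℤ × ℤ} {s1 s2 s3 : ℤ} (h1 : R e r 1 p1 s1) (h2 : R e r 1 p2 s2)
    (h3 : R e r 1 p3 s3) {n q b : ℕ} (hb : b ≤ q) (hq : q ≤ n) :
    R e r n (((n : ℤ) - q) • p1 + ((q : ℤ) - b) • p2 + (b : ℤ) • p3)
      ((n - q) * s1 + (q - b) * s2 + b * s3) := by
  obtain ⟨a, rfl⟩ := Nat.exists_eq_add_of_le hb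
  obtain ⟨c, rfl⟩ := Nat.exists_eq_add_of_le hq
  have := ((h1.nsmul c).add (h2.nsmul a)).add (h3.nsmul b)
  convert this using 1
  · ring
  · push_cast; simp
  · push_cast; ring

/-- The rotation of the lattice. -/
def σ : ℤ × ℤ →+ ℤ × ℤ where
  toFun p := (p.1 - p.2, 3 * p.1 - 2 * p.2)
  map_zero' := by simp
  map_add' p q := by ext <;> simp <;> ring

lemma σ_apply (p : ℤ × ℤ) : σ p = (p.1 - p.2, 3 * p.1 - 2 * p.2) := rfl

lemma R.rot (hπ : ∀ j, ∃ l, pos (e l) = σ (pos (e j)) ∧ r l = r j) {n : ℕ} {p : ℤ × ℤ} {s : ℤ}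
    (h : R e r n p s) : R e r n (σ p) s := by
  choose π h1 h2 using hπ
  obtain ⟨j, h3, h4⟩ := h
  exact ⟨fun l => π (j l), by simp only [h1, ← h3, map_sum], by simpa only [h2] using h4⟩

lemma bound (hπ : ∀ j, ∃ l, pos (e l) = σ (pos (e j)) ∧ r l = r j) (n : ℕ) {ι : Type}
    (I : Finset ι) (p : ι → ℤ × ℤ) (s : ι → ℤ) (hp : Set.InjOn p I)
    (hq : ∀ i ∈ I, 0 ≤ (p i).1 ∧ (p i).1 < (p i).2) (hR : ∀ i ∈ I, R e r n (p i) (s i)) :
    3 * ∑ i ∈ I, s i ≤ (wsum (fun j => mk4 f0 (monomial (e j) 1)) r n : ℕ) := by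
  have := bound0 e r n ((Finset.univ : Finset (Fin 3)) ×ˢ I)
    (fun x => ![p x.2, σ (p x.2), σ (σ (p x.2))] x.1) (fun x => s x.2) ?_ ?_
  · rw [Finset.sum_product] at this
    simpa using this
  · rintro ⟨t, i⟩ hi ⟨t', i'⟩ hi' h
    simp only [Finset.coe_product, Set.mem_prod, Finset.mem_coe] at hi hi'
    have a := hq i hi.2
    have a' := hq i' hi'.2
    have key : t = t' ∧ p i = p i' := by
      fin_cases t <;> fin_cases t' <;> simp [σ_apply, Prod.ext_iff] at h ⊢ <;> omega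
    rw [key.1, hp hi.2 hi'.2 key.2]
  · rintro ⟨t, i⟩ hi
    have a := hR i (Finset.mem_product.1 hi).2
    fin_cases t
    · exact a
    · exact a.rot hπ
    · exact (a.rot hπ).rot hπ

end Pool.Agent.Lib.MP_a25055_ag.BT1
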