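import Pool.Agent.Lib.MP_a25055_ag.BT11

/-! Block T1, part 2: the two families of products. -/

open MvPolynomial Filter Topology Module Finset

noncomputable section

namespace Pool.Agent.Lib.MP_a25055_ag.BT1

lemma lin_sum (q : ℕ) (x y : ℤ) :
    2 * ∑ b ∈ range q, (x + y * b) = 2 * q * x + q * (q - 1) * y := by
  induction q with
  | zero => simp
  | succ q ih => rw [sum_range_succ, mul_add, ih]; push_cast; ring

lemma tri_sum (n : ℕ) (c α β γ : ℤ) :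
    6 * ∑ q ∈ range n, ∑ b ∈ range q, ((c - q) * γ + ((q : ℤ) - b) * α + b * β) =
      (3 * c * n * (n - 1) - (n - 1) * n * (2 * n - 1)) * γ + (n - 1) * n * (n + 1) * α +
        (n - 2) * (n - 1) * n * β := by
  induction n with
  | zero => simp
  | succ n ih =>
    have := lin_sum n ((c - n) * γ + n * α) (β - α)
    rw [sum_congr rfl (g := fun b : ℕ => (c - n) * γ + ((n : ℤ) - b) * α + b * β)
      fun b _ => by ring] at this
    rw [sum_range_succ, mul_add, ih]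
    push_cast
    linear_combination 3 * this

/-- Index set of the lattice points of a dilated triangle. -/
def Tn (n : ℕ) : Finset (Σ _ : ℕ, ℕ) := (range n).sigma fun q => range q

lemma mem_Tn {n : ℕ} {x : Σ _ : ℕ, ℕ} : x ∈ Tn n ↔ x.1 < n ∧ x.2 < x.1 := by simp [Tn]

lemma tri_le (n : ℕ) {α β γ : ℤ} (hα : 0 ≤ α) (hγ : 0 ≤ γ) :
    (n : ℤ) * (n - 1) * (n - 2) * (γ + α + β) ≤
      6 * ∑ x ∈ Tn n, (((n : ℤ) - x.1) * γ + ((x.1 : ℤ) - x.2) * α + x.2 * β) := by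
  rw [Tn, sum_sigma, tri_sum]
  have h : (0 : ℤ) ≤ n * (n - 1) := by
    rcases n with _ | n
    · simp
    · push_cast; simp only [add_sub_cancel_right]; positivity
  nlinarith [mul_nonneg h hα, mul_nonneg h hγ]

lemma divmod {n i i' a a' : ℤ} (h : n * i + a = n * i' + a') (h1 : 0 ≤ a) (h2 : a < n)
    (h3 : 0 ≤ a') (h4 : a' < n) : i = i' ∧ a = a' := by
  have : i = i' := by
    rcases lt_trichotomy i i' with h5 | h5 | h5
    · nlinarith
    · exact h5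
    · nlinarith
  subst this
  exact ⟨rfl, by linarith⟩

variable {N : ℕ} {e : Fin N → Fin 4 →₀ ℕ} {r : Fin N → ℕ}

lemma fam1 (hπ : ∀ j, ∃ l, pos (e l) = σ (pos (e j)) ∧ r l = r j) {k : ℕ} {ρ : ℕ → ℕ → ℤ}
    (h0 : ∀ l i, 0 ≤ ρ l i) (hρ : ∀ l i : ℕ, i ≤ l → l ≤ k → R e r 1 (i, l) (ρ l i)) (n : ℕ) :
    (n : ℤ) * (n - 1) * (n - 2) *
      (∑ l ∈ range k, ∑ i ∈ range (l + 1), (ρ l i + ρ (l + 1) i + ρ (l + 1) (i + 1)) +
        ∑ l ∈ range k, ∑ i ∈ range l, (ρ l i + ρ l (i + 1) + ρ (l + 1) (i + 1))) ≤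
      2 * (wsum (fun j => mk4 f0 (monomial (e j) 1)) r n : ℕ) := by
  have := bound hπ n
    ((((range k).sigma fun l => range (l + 1)) ×ˢ Tn n).disjSum
      (((range k).sigma fun l => range l) ×ˢ Tn n))
    (Sum.elim (fun x => ((n : ℤ) * x.1.2 + x.2.2, (n : ℤ) * x.1.1 + x.2.1))
      (fun x => ((n : ℤ) * x.1.2 + x.2.1, (n : ℤ) * x.1.1 + x.2.2)))
    (Sum.elim (fun x => ((n : ℤ) - x.2.1) * ρ x.1.1 x.1.2 +
        ((x.2.1 : ℤ) - x.2.2) * ρ (x.1.1 + 1) x.1.2 + x.2.2 * ρ (x.1.1 + 1) (x.1.2 + 1))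
      (fun x => ((n : ℤ) - x.2.1) * ρ x.1.1 x.1.2 +
        ((x.2.1 : ℤ) - x.2.2) * ρ x.1.1 (x.1.2 + 1) + x.2.2 * ρ (x.1.1 + 1) (x.1.2 + 1)))
    ?_ ?_ ?_
  · rw [sum_disjSum, sum_product, sum_product] at this
    simp only [Sum.elim_inl, Sum.elim_inr] at this
    rw [sum_sigma', sum_sigma', mul_add, mul_sum, mul_sum]
    have a1 := sum_le_sum (s := (range k).sigma fun l => range (l + 1)) fun x _ =>
      tri_le n (β := ρ (x.1 + 1) (x.2 + 1)) (h0 (x.1 + 1) x.2) (h0 x.1 x.2)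
    have a2 := sum_le_sum (s := (range k).sigma fun l => range l) fun x _ =>
      tri_le n (β := ρ (x.1 + 1) (x.2 + 1)) (h0 x.1 (x.2 + 1)) (h0 x.1 x.2)
    rw [← mul_sum _ _ (6 : ℤ)] at a1 a2
    linarith
  · rintro (⟨⟨l, i⟩, ⟨q, b⟩⟩ | ⟨⟨l, i⟩, ⟨q, b⟩⟩) hx
      (⟨⟨l', i'⟩, ⟨q', b'⟩⟩ | ⟨⟨l', i'⟩, ⟨q', b'⟩⟩) hx' h <;>
    simp only [mem_coe, inl_mem_disjSum, inr_mem_disjSum, mem_product, mem_Tn, Sum.elim_inl,
      Sum.elim_inr, Prod.mk.injEq] at hx hx' h <;>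
    obtain ⟨a1, a2⟩ := divmod h.1 (by omega) (by omega) (by omega) (by omega) <;>
    obtain ⟨a3, a4⟩ := divmod h.2 (by omega) (by omega) (by omega) (by omega) <;>
    norm_cast at a1 a2 a3 a4 <;>
    first | omega | (subst a1 a2 a3 a4; rfl)
  · rintro (⟨⟨l, i⟩, ⟨q, b⟩⟩ | ⟨⟨l, i⟩, ⟨q, b⟩⟩) hx <;>
    simp only [inl_mem_disjSum, inr_mem_disjSum, mem_product, mem_Tn, Sum.elim_inl,
      Sum.elim_inr, mem_sigma, mem_range] at hx ⊢ <;>
    refine ⟨by positivity, ?_⟩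
    · have : n * i + b < n * l + q :=
        add_lt_add_of_le_of_lt (Nat.mul_le_mul_left n (by omega)) hx.2.2
      exact_mod_cast this
    · have : n * i + q < n * l + b := by
        have := Nat.mul_le_mul_left n (show i + 1 ≤ l by omega)
        rw [mul_add] at this
        omega
      exact_mod_cast this
  · rintro (⟨⟨l, i⟩, ⟨q, b⟩⟩ | ⟨⟨l, i⟩, ⟨q, b⟩⟩) hx <;>
    simp only [inl_mem_disjSum, inr_mem_disjSum, mem_product, mem_Tn, Sum.elim_inl,
      Sum.elim_inr, mem_sigma, mem_range] at hx ⊢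
    · convert (hρ l i (by omega) (by omega)).tri (hρ (l + 1) i (by omega) (by omega))
        (hρ (l + 1) (i + 1) (by omega) (by omega)) hx.2.2.le hx.2.1.le using 1
      ext <;> simp <;> ring
    · convert (hρ l i (by omega) (by omega)).tri (hρ l (i + 1) (by omega) (by omega))
        (hρ (l + 1) (i + 1) (by omega) (by omega)) hx.2.2.le hx.2.1.le using 1
      ext <;> simp <;> ring

lemma fill {m : ℤ} (hm0 : 0 ≤ m) (h1 : R e r 1 0 0) (hm : R e r 3 0 (3 * m)) :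
    ∀ c : ℕ, R e r (c + 2) 0 (c * m)
  | 0 => by simpa using h1.add h1
  | 1 => hm.mono (by push_cast; linarith)
  | 2 => by
    have := hm.add h1
    rw [add_zero] at this
    exact this.mono (by push_cast; linarith)
  | c + 3 => by
    have := (fill hm0 h1 hm c).add hm
    rw [add_zero] at this
    exact this.mono (by push_cast; linarith)

lemma fam2 (hπ : ∀ j, ∃ l, pos (e l) = σ (pos (e j)) ∧ r l = r j) {k : ℕ} {ρ : ℕ → ℕ → ℤ}
    (h0 : ∀ l i, 0 ≤ ρ l i) (hρ : ∀ l i : ℕ, i ≤ l → l ≤ k → R e r 1 (i, l) (ρ l i)) {m : ℤ}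
    (hm0 : 0 ≤ m) (hm : R e r 3 0 (3 * m)) (n : ℕ) :
    (n : ℤ) * (n - 1) * (n - 2) * (k * ∑ i ∈ range k, (m + ρ k i + ρ k (i + 1))) ≤
      2 * (wsum (fun j => mk4 f0 (monomial (e j) 1)) r (n + 3) : ℕ) := by
  have := bound hπ (n + 3) (range k ×ˢ range k ×ˢ Tn n)
    (fun x => ((x.2.2.1 : ℤ) * x.2.1 + x.2.2.2, (k : ℤ) * x.2.2.1 + x.1))
    (fun x => ((n : ℤ) - x.2.2.1) * m + ((x.2.2.1 : ℤ) - x.2.2.2) * ρ k x.2.1 +
      x.2.2.2 * ρ k (x.2.1 + 1)) ?_ ?_ ?_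
  · rw [sum_product] at this
    simp only [sum_product, sum_const, card_range, nsmul_eq_mul] at this
    have a1 := sum_le_sum (s := range k) fun i _ => tri_le n (β := ρ k (i + 1)) (h0 k i) hm0
    rw [← mul_sum, ← mul_sum] at a1
    have a2 := mul_le_mul_of_nonneg_left a1 (Nat.cast_nonneg (α := ℤ) k)
    linarith
  · rintro ⟨c, i, q, b⟩ hx ⟨c', i', q', b'⟩ hx' h
    simp only [mem_coe, mem_product, mem_Tn, Prod.mk.injEq, mem_range] at hx hx' h
    obtain ⟨a1, a2⟩ := divmod h.2 (by omega) (by omega) (by omega) (by omega)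
    norm_cast at a1 a2
    subst a1 a2
    obtain ⟨a3, a4⟩ := divmod h.1 (by omega) (by omega) (by omega) (by omega)
    norm_cast at a3 a4
    subst a3 a4
    rfl
  · rintro ⟨c, i, q, b⟩ hx
    simp only [mem_product, mem_Tn, mem_range] at hx ⊢
    refine ⟨by positivity, ?_⟩
    have : q * i + b < k * q + c := by
      have := Nat.mul_le_mul_left q (show i + 1 ≤ k by omega)
      rw [mul_add, mul_comm q k] at this
      omega
    exact_mod_cast this
  · rintro ⟨c, i, q, b⟩ hx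
    simp only [mem_product, mem_Tn, mem_range] at hx ⊢
    obtain ⟨h1, h2, h3, h4⟩ := hx
    obtain ⟨a, rfl⟩ := Nat.exists_eq_add_of_le h4.le
    obtain ⟨d, rfl⟩ := Nat.exists_eq_add_of_le h3.le
    have := ((((hρ k i (by omega) le_rfl).nsmul a).add
      ((hρ k (i + 1) (by omega) le_rfl).nsmul b)).add
      ((hρ c 0 (by omega) h1.le).mono (h0 c 0))).add
      (fill hm0 ((hρ 0 0 le_rfl (by omega)).mono (h0 0 0)) hm d)
    convert this using 1
    · ring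
    · ext <;> simp <;> ring
    · push_cast; ring

lemma asym {w : ℕ → ℕ} {E c : ℤ} (t : ℕ)
    (hw : Tendsto (fun n : ℕ => (w n : ℝ) / n ^ 3) atTop (𝓝 (E / 6)))
    (h : ∀ n : ℕ, (n : ℤ) * (n - 1) * (n - 2) * c ≤ 2 * (w (n + t) : ℕ)) : 3 * c ≤ E := by
  have h1 := hw.comp (tendsto_add_atTop_nat t)
  have h2 : Tendsto (fun n : ℕ => (((n + t : ℕ) : ℝ))⁻¹) atTop (𝓝 0) :=
    tendsto_inv_atTop_nhds_zero_nat.comp (tendsto_add_atTop_nat t)
  have h3 := ((((h2.const_mul (t : ℝ)).const_sub 1).mul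
    ((h2.const_mul ((t : ℝ) + 1)).const_sub 1)).mul
    ((h2.const_mul ((t : ℝ) + 2)).const_sub 1)).mul_const ((c : ℝ) / 2)
  have h4 := le_of_tendsto_of_tendsto h3 h1 (by
    filter_upwards [eventually_gt_atTop 0] with n hn
    have a : (0 : ℝ) < (n : ℝ) + t := by positivity
    have b : ((n : ℝ) * (n - 1) * (n - 2) * c ≤ 2 * (w (n + t) : ℕ)) := by exact_mod_cast h n
    simp only [Function.comp]
    push_cast
    rw [le_div_iff₀ (by positivity)]
    have : (1 - (t : ℝ) * ((n : ℝ) + t)⁻¹) * (1 - ((t : ℝ) + 1) * ((n : ℝ) + t)⁻¹) *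
        (1 - ((t : ℝ) + 2) * ((n : ℝ) + t)⁻¹) * ((c : ℝ) / 2) * ((n : ℝ) + t) ^ 3 =
        (n : ℝ) * (n - 1) * (n - 2) * c / 2 := by
      field_simp
      ring
    rw [this]
    linarith)
  have : (3 * c : ℝ) ≤ E := by simp at h4; linarith
  exact_mod_cast this

lemma shift {ρ : ℕ → ℕ → ℤ} {l : ℕ} (h : ρ l l = ρ l 0) :
    ∑ i ∈ range l, ρ l (i + 1) = ∑ i ∈ range l, ρ l i := by
  have a := sum_range_succ (ρ l) l
  have b := sum_range_succ' (ρ l) l
  linarith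

lemma ident {ρ : ℕ → ℕ → ℤ} (k : ℕ) (h : ∀ l ≤ k, ρ l l = ρ l 0) :
    ∑ l ∈ range k, ∑ i ∈ range (l + 1), (ρ l i + ρ (l + 1) i + ρ (l + 1) (i + 1)) +
        ∑ l ∈ range k, ∑ i ∈ range l, (ρ l i + ρ l (i + 1) + ρ (l + 1) (i + 1)) =
      6 * ∑ l ∈ range (k + 1), ∑ i ∈ range l, ρ l i - 3 * ∑ i ∈ range k, ρ k i + ρ 0 0 -
        ρ k 0 := by
  induction k with
  | zero => simp
  | succ k ih =>
    have a := ih fun l hl => h l (by omega)
    have b := shift (h k (by omega))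
    have c := shift (h (k + 1) le_rfl)
    have d := sum_range_succ (ρ k) k
    have f := sum_range_succ' (ρ (k + 1)) k
    have g := h k (by omega)
    have p1 := sum_range_succ
      (fun l => ∑ i ∈ range (l + 1), (ρ l i + ρ (l + 1) i + ρ (l + 1) (i + 1))) k
    have p2 := sum_range_succ
      (fun l => ∑ i ∈ range l, (ρ l i + ρ l (i + 1) + ρ (l + 1) (i + 1))) k
    have p3 := sum_range_succ (fun l => ∑ i ∈ range l, ρ l i) (k + 1)
    simp only [sum_add_distrib] at a p1 p2 ⊢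
    linarith

end Pool.Agent.Lib.MP_a25055_ag.BT1
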