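import Mathlib

open MvPolynomial

noncomputable section

namespace Pool.Agent.Lib.MP_a25055_ag

/-- The function obtained from a polynomial on `m`-tuples of vectors of `ℂ^N` by moving all vectors
with the matrix `g`. -/
def moved {m N : ℕ} (p : MvPolynomial (Fin m × Fin N) ℂ) (g : Matrix (Fin N) (Fin N) ℂ) :
    (Fin m × Fin N → ℂ) → ℂ :=
  fun H => eval (fun a => ∑ l, H (a.1, l) * g l a.2) p

/-- The orbit of a polynomial under the special linear group. -/
def orb {m N : ℕ} (p : MvPolynomial (Fin m × Fin N) ℂ) : Set ((Fin m × Fin N → ℂ) → ℂ) :=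
  Set.range fun g : Matrix.SpecialLinearGroup (Fin N) ℂ => moved p g

/-- Semistable: zero is not in the closure of the orbit. -/
def Semi {m N : ℕ} (p : MvPolynomial (Fin m × Fin N) ℂ) : Prop := 0 ∉ closure (orb p)

/-- Polystable: nonzero with closed orbit. -/
def Poly {m N : ℕ} (p : MvPolynomial (Fin m × Fin N) ℂ) : Prop := p ≠ 0 ∧ IsClosed (orb p)

/-- Stable: polystable with finite stabiliser. -/
def Stab {m N : ℕ} (p : MvPolynomial (Fin m × Fin N) ℂ) : Prop :=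
  Poly p ∧ {g : Matrix.SpecialLinearGroup (Fin N) ℂ | moved p g = moved p 1}.Finite

/-- The three notions, numbered. -/
def Git (s : Fin 3) {m N : ℕ} (p : MvPolynomial (Fin m × Fin N) ℂ) : Prop :=
  ![Stab p, Poly p, Semi p] s

/-- Forms of degree `k` whose classes are a basis of the degree `k` part of `ℂ[x]/(f)`. -/
def IsBasisMod (f : MvPolynomial (Fin 4) ℂ) (k : ℕ) {N : ℕ}
    (b : Fin N → MvPolynomial (Fin 4) ℂ) : Prop :=
  (∀ j, (b j).IsHomogeneous k) ∧ (∀ c : Fin N → ℂ, f ∣ ∑ j, c j • b j → c = 0) ∧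
    ∀ p : MvPolynomial (Fin 4) ℂ, p.IsHomogeneous k → ∃ c : Fin N → ℂ, f ∣ p - ∑ j, c j • b j

/-- Chow form of the irreducible surface `g = 0` embedded by `b`: an irreducible equation of the
set of triples of hyperplanes that meet the surface. -/
def IsChowIrr (g : MvPolynomial (Fin 4) ℂ) {N : ℕ} (b : Fin N → MvPolynomial (Fin 4) ℂ)
    (R : MvPolynomial (Fin 3 × Fin N) ℂ) : Prop :=
  Irreducible R ∧ ∀ H : Fin 3 × Fin N → ℂ, eval H R = 0 ↔
    ∃ x : Fin 4 → ℂ, x ≠ 0 ∧ eval x g = 0 ∧ ∀ i, ∑ j, H (i, j) * eval x (b j) = 0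

/-- Chow form of the cycle of `f = 0`: product over the irreducible factors with multiplicity. -/
def IsChow (f : MvPolynomial (Fin 4) ℂ) {N : ℕ} (b : Fin N → MvPolynomial (Fin 4) ℂ)
    (R : MvPolynomial (Fin 3 × Fin N) ℂ) : Prop :=
  ∃ (n : ℕ) (g : Fin n → MvPolynomial (Fin 4) ℂ) (Q : Fin n → MvPolynomial (Fin 3 × Fin N) ℂ),
    f = ∏ i, g i ∧ R = ∏ i, Q i ∧ ∀ i, Irreducible (g i) ∧ IsChowIrr (g i) b (Q i)

/-- Chow stability (in the sense `s`) at level `k`. -/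
def ChowAt (s : Fin 3) (f : MvPolynomial (Fin 4) ℂ) (k : ℕ) : Prop :=
  ∃ (N : ℕ) (b : Fin N → MvPolynomial (Fin 4) ℂ) (R : MvPolynomial (Fin 3 × Fin N) ℂ),
    IsBasisMod f k b ∧ IsChow f b R ∧ Git s R

end Pool.Agent.Lib.MP_a25055_ag
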