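import Pool.Agent.Lib.MP_a25055_ag.Geo

open Module Finsupp IntermediateField
open Pool.Agent.Lib.MP_cc3443_ag
open Pool.Agent.Lib.MP_3c72fe_ag

noncomputable section

namespace Pool.Agent.Lib.MP_a25055_ag

namespace GCLF

variable {K : Type} [Field K] [Algebra ℂ K] [IsFF K]

lemma el_zero_le : el (0 : Place K →₀ ℤ) ≤ 1 := by
  obtain ⟨t, ht⟩ := IsFF.ex (K := K)
  obtain ⟨_, _, _, -⟩ := exists_inst ht
  have : finrank ℂ (LL (0 : Place K →₀ ℤ)) ≤ 1 := by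
    refine finrank_le_one ⟨1, one_mem_LL le_rfl⟩ fun w => ?_
    obtain ⟨c, hc⟩ := exists_const (z := (w : K)) fun P =>
      mem_Ge_zero.1 (by simpa using mem_LL.1 w.2 P)
    exact ⟨c, Subtype.ext (by simp [hc, Algebra.smul_def])⟩
  unfold el
  omega

omit [IsFF K] in
lemma finrank_le_of_mul {B C : Submodule ℂ K} [FiniteDimensional ℂ C] {a : K} (ha : a ≠ 0)
    (h : ∀ b ∈ B, a * b ∈ C) : finrank ℂ B ≤ finrank ℂ C :=
  LinearMap.finrank_le_finrank_of_injective (f := (LinearMap.mulLeft ℂ a).restrict h)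
    fun _ _ e => Subtype.ext (mul_left_cancel₀ ha (congrArg Subtype.val e))

lemma exists_ne_of_el {D : Place K →₀ ℤ} (h : el D ≠ 0) : LL D ≠ ⊥ := fun e => h (by
  rw [el, e, finrank_bot]; rfl)

lemma el_le {D : Place K →₀ ℤ} (hD : 0 ≤ degree D) : el D ≤ degree D + 1 := by
  by_cases h : el D = 0
  · omega
  obtain ⟨z, hz, h0⟩ := Submodule.exists_mem_ne_zero_of_ne_bot (exists_ne_of_el h)
  have h1 : el D ≤ el (D + divF z) := Int.ofNat_le.2 (finrank_le_of_mul (inv_ne_zero h0)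
    fun b hb => by rw [← div_eq_inv_mul]; exact LL_div hb z)
  have h2 := el_le_add (nonneg_of_mem hz h0)
  rw [map_add, degree_div, map_zero] at h2
  have := el_zero_le (K := K)
  omega

lemma exists_min {P : Place K} {A : Submodule ℂ K} {n : ℤ} (hA : A ≤ Ge P n) (h : A ≠ ⊥) :
    ∃ a ∈ A, a ≠ 0 ∧ A ≤ Ge P (P.ord a) := by
  obtain ⟨z, hz, h0⟩ := Submodule.exists_mem_ne_zero_of_ne_bot h
  obtain ⟨_, ⟨a, ha, ha0, rfl⟩, h1⟩ := Int.exists_least_of_bdd
    (P := fun m => ∃ a ∈ A, a ≠ 0 ∧ P.ord a = m)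
    ⟨n, by rintro _ ⟨a, ha, ha0, rfl⟩; exact (mem_Ge_iff ha0).1 (hA ha)⟩ ⟨_, z, hz, h0, rfl⟩
  refine ⟨a, ha, ha0, fun w hw => ?_⟩
  by_cases hw0 : w = 0
  · simp [hw0]
  · exact mem_Ge_of_le (h1 _ ⟨w, hw, hw0, rfl⟩)

lemma finrank_le_succ {P : Place K} {A : Submodule ℂ K} [FiniteDimensional ℂ A] {a : K}
    (ha : a ∈ A) (h0 : a ≠ 0) (h : A ≤ Ge P (P.ord a)) :
    finrank ℂ A ≤ finrank ℂ ↥(A ⊓ Ge P (P.ord a + 1)) + 1 := by
  have h1 : A ≤ A ⊓ Ge P (P.ord a + 1) ⊔ Submodule.span ℂ {a} := fun z hz => by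
    obtain ⟨c, hc⟩ := P.exists_res (z := z / a) (mem_Ge_zero.1 (by simpa using Ge_div (h hz) a))
    refine Submodule.mem_sup.2 ⟨z - c • a, ⟨A.sub_mem hz (A.smul_mem c ha), ?_⟩, c • a,
      Submodule.smul_mem _ c (Submodule.mem_span_singleton_self a), sub_add_cancel _ _⟩
    have e : z - c • a = (z / a - algebraMap ℂ K c) * a := by
      rw [Algebra.smul_def]; field_simp
    rw [e]
    exact Ge_mul' (mem_Ge_one.2 hc) (h ha) (by omega)
  have h2 := Submodule.finrank_add_le_finrank_add_finrank (A ⊓ Ge P (P.ord a + 1))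
    (Submodule.span ℂ {a})
  rw [finrank_span_singleton h0] at h2
  exact (Submodule.finrank_mono h1).trans h2

lemma hopf (P : Place K) {B : Submodule ℂ K} {m : ℤ} (hB : B ≤ Ge P m) (hB0 : B ≠ ⊥) (k : ℕ) :
    ∀ (A C : Submodule ℂ K) [FiniteDimensional ℂ A] [FiniteDimensional ℂ C] (n : ℤ),
      finrank ℂ C = k → A ≤ Ge P n → A ≠ ⊥ → (∀ a ∈ A, ∀ b ∈ B, a * b ∈ C) →
      finrank ℂ A + finrank ℂ B ≤ k + 1 := by
  obtain ⟨b, hb, hb0, hb1⟩ := exists_min hB hB0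
  induction k using Nat.strong_induction_on with
  | _ k ih =>
    intro A C _ _ n hk hA hA0 h
    obtain ⟨a, ha, ha0, ha1⟩ := exists_min hA hA0
    have h1 := finrank_le_succ ha ha0 ha1
    by_cases h2 : A ⊓ Ge P (P.ord a + 1) = ⊥
    · rw [h2, finrank_bot] at h1
      have := finrank_le_of_mul ha0 (h a ha)
      omega
    · have h3 : C ⊓ Ge P (P.ord a + P.ord b + 1) < C := by
        refine lt_of_le_of_ne inf_le_left fun e => ?_
        have h4 := (mem_Ge_iff (mul_ne_zero ha0 hb0)).1 (e.ge (h a ha b hb)).2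
        rw [P.ord_mul ha0 hb0] at h4
        omega
      have h4 := Submodule.finrank_lt_finrank_of_lt h3
      have := ih _ (hk ▸ h4) (A ⊓ Ge P (P.ord a + 1)) (C ⊓ Ge P (P.ord a + P.ord b + 1)) _ rfl
        inf_le_right h2 fun x hx y hy => ⟨h x hx.1 y hy, Ge_mul' hx.2 (hb1 hy) (by omega)⟩
      omega

lemma cliff {D : Place K →₀ ℤ} (hD : 0 ≤ degree D) :
    el D ≤ chi K + degree D ∨ 2 * el D ≤ degree D + 2 := by
  have h1 := rr D
  by_cases h2 : el (kap K - D) = 0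
  · omega
  by_cases h3 : el D = 0
  · omega
  obtain ⟨P⟩ : Nonempty (Place K) := inferInstance
  have h4 := hopf P (fun z hz => mem_LL.1 hz P) (exists_ne_of_el h2) _ (LL D) (LL (kap K)) _ rfl
    (fun z hz => mem_LL.1 hz P) (exists_ne_of_el h3) fun a ha b hb => by
      simpa using LL_mul ha hb
  have h5 := rr (kap K)
  rw [sub_self, degree_kap] at h5
  have h6 := el_zero_le (K := K)
  unfold el at *
  omega

lemma pow_le_LL {D : Place K →₀ ℤ} {A : Submodule ℂ K} (hA : A ≤ LL D) (n : ℕ) :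
    A ^ n ≤ LL (n • D) := by
  induction n with
  | zero => simpa [Submodule.one_le] using one_mem_LL (K := K) le_rfl
  | succ n ih =>
    rw [pow_succ, succ_nsmul]
    exact Submodule.mul_le.2 fun a ha b hb => LL_mul (ih ha) (hA hb)

lemma exists_pol {D : Place K →₀ ℤ} {A : Submodule ℂ K} (hA : A ≤ LL D)
    (h : ∀ P : Place K, ∃ s ∈ A, s ≠ 0 ∧ P.ord s = -D P) {t : K} (ht : t ∈ A) (h0 : t ≠ 0) :
    ∃ s ∈ A, pol (s / t) = D + divF t := by
  obtain ⟨P₀⟩ : Nonempty (Place K) := inferInstance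
  classical
  obtain ⟨s, hs⟩ := Submodule.exists_forall_notMem_of_forall_ne_top
    (fun P : ↥(insert P₀ (D + divF t).support) => (Ge P.1 (-D P.1 + 1)).comap A.subtype)
    fun P e => by
      obtain ⟨s, hs, hs0, h1⟩ := h P.1
      have h2 : (⟨s, hs⟩ : A) ∈ (Ge P.1 (-D P.1 + 1)).comap A.subtype := e ▸ Submodule.mem_top
      have := (mem_Ge_iff hs0).1 h2
      omega
  have hs0 : (s : K) ≠ 0 := fun e => hs ⟨P₀, Finset.mem_insert_self _ _⟩ (by simp [e])
  refine ⟨s, s.2, Finsupp.ext fun P => ?_⟩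
  have h1 := (mem_Ge_iff hs0).1 (mem_LL.1 (hA s.2) P)
  have h2 := (mem_Ge_iff h0).1 (mem_LL.1 (hA ht) P)
  rw [pol_apply, ord_div hs0 h0, Finsupp.add_apply, divF_apply]
  by_cases hP : P ∈ (D + divF t).support
  · have h3 : ¬ -D P + 1 ≤ P.ord (s : K) := fun e =>
      hs ⟨P, Finset.mem_insert_of_mem hP⟩ (mem_Ge_of_le e)
    omega
  · rw [Finsupp.notMem_support_iff, Finsupp.add_apply, divF_apply] at hP
    omega

omit [IsFF K] in
lemma mem_pow_add {A : Submodule ℂ K} {t m : K} (ht : t ∈ A) {k : ℕ} (h : m * t ^ k ∈ A ^ k)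
    {l : ℕ} (hl : k ≤ l) : m * t ^ l ∈ A ^ l := by
  obtain ⟨j, rfl⟩ := Nat.exists_eq_add_of_le hl
  rw [pow_add, pow_add, ← mul_assoc]
  exact Submodule.mul_mem_mul h (Submodule.pow_mem_pow A ht j)

/-- elements of bounded degree -/
def mon (A : Submodule ℂ K) (t : K) : Submonoid K where
  carrier := {m | ∃ k, m * t ^ k ∈ A ^ k}
  one_mem' := ⟨0, by simp⟩
  mul_mem' := by
    rintro a b ⟨k, hk⟩ ⟨l, hl⟩
    refine ⟨k + l, ?_⟩
    rw [pow_add, pow_add, mul_mul_mul_comm]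
    exact Submodule.mul_mem_mul hk hl

lemma growth {D : Place K →₀ ℤ} {A : Submodule ℂ K} (hA : A ≤ LL D)
    (h : ∀ P : Place K, ∃ s ∈ A, s ≠ 0 ∧ P.ord s = -D P)
    (htop : adjoin ℂ {z | ∃ s ∈ A, ∃ t ∈ A, z = s / t} = ⊤) :
    ∃ c : ℤ, ∀ n : ℕ, degree D * n ≤ finrank ℂ ↥(A ^ n) + c := by
  by_cases hD : degree D ≤ 0
  · exact ⟨0, fun n => by nlinarith [Int.natCast_nonneg n, Int.natCast_nonneg (finrank ℂ ↥(A ^ n))]⟩
  obtain ⟨P₀⟩ : Nonempty (Place K) := inferInstance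
  obtain ⟨t, ht, h0, -⟩ := h P₀
  obtain ⟨s, hs, hp⟩ := exists_pol hA h ht h0
  have hd : degree (pol (s / t)) = degree D := by rw [hp, map_add, degree_div, add_zero]
  set x := s / t with hx
  have hxt : Transcendental ℂ x := transc_of_not_const fun c hc => hD (by
    rw [← hd]
    refine (degree_mono' (E' := 0) (pol_le ?_ le_rfl)).trans (map_zero _).le
    rw [hc]
    exact mem_LL.2 fun P => by simpa using const_mem_Ge c)
  rw [degree_pol hxt] at hd
  have := IsFF.fin x hxt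
  have h1 : adjoin ℂ⟮x⟯ (mon A t : Set K) = ⊤ := by
    have h2 : ∀ a ∈ A, a / t ∈ adjoin ℂ⟮x⟯ (mon A t : Set K) := fun a ha =>
      subset_adjoin _ _ ⟨1, by simpa [h0] using ha⟩
    have h3 : adjoin ℂ {z | ∃ s ∈ A, ∃ t ∈ A, z = s / t} ≤
        (adjoin ℂ⟮x⟯ (mon A t : Set K)).restrictScalars ℂ := by
      rw [adjoin_le_iff]
      rintro _ ⟨a, ha, b, hb, rfl⟩
      rw [← div_div_div_cancel_right₀ h0]
      exact div_mem (h2 a ha) (h2 b hb)
    exact eq_top_iff.2 fun z _ => h3 (htop ▸ mem_top)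
  have h2 : Submodule.span ℂ⟮x⟯ (mon A t : Set K) = ⊤ := by
    have := Algebra.adjoin_eq_span (R := ℂ⟮x⟯) (s := (mon A t : Set K))
    rw [Submonoid.closure_eq, ← adjoin_toSubalgebra_of_isAlgebraic
      fun z _ => Algebra.IsAlgebraic.isAlgebraic z, h1] at this
    exact this.symm
  obtain ⟨b, hb, -, hli⟩ := Submodule.exists_fun_fin_finrank_span_eq ℂ⟮x⟯ (mon A t : Set K)
  have hr : finrank ℂ⟮x⟯ (Submodule.span ℂ⟮x⟯ (mon A t : Set K)) = finrank ℂ⟮x⟯ K := by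
    rw [h2, finrank_top]
  choose k hk using hb
  obtain ⟨N, hN⟩ := (Set.finite_range k).bddAbove
  refine ⟨degree D * N, fun n => ?_⟩
  have : FiniteDimensional ℂ ↥(A ^ n) := Submodule.finiteDimensional_of_le (pow_le_LL hA n)
  have h3 : LinearIndependent ℂ fun i : Fin (n - N) => (AdjoinSimple.gen ℂ x) ^ (i : ℕ) :=
    LinearIndependent.of_comp (ℂ⟮x⟯.val.toLinearMap)
      ((linInd_pow hxt).comp _ Fin.val_injective)
  have h4 := (linearIndependent_smul h3 hli).map' (LinearMap.mulRight ℂ (t ^ n))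
    (LinearMap.ker_eq_bot.2 (mul_left_injective₀ (pow_ne_zero n h0)))
  have h5 : ∀ p : Fin (n - N) × Fin _, x ^ (p.1 : ℕ) * b p.2 * t ^ n ∈ A ^ n := fun p => by
    obtain ⟨j, hj⟩ : ∃ j, n = p.1 + j := ⟨n - p.1, by have := p.1.2; omega⟩
    have e : x ^ (p.1 : ℕ) * b p.2 * t ^ ((p.1 : ℕ) + j) = s ^ (p.1 : ℕ) * (b p.2 * t ^ j) := by
      rw [← div_mul_cancel₀ s h0, ← hx]; ring
    have := Submodule.mul_mem_mul (Submodule.pow_mem_pow A hs p.1) (mem_pow_add ht (hk p.2)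
      (l := j) (by have := p.1.2; have := hN (Set.mem_range_self p.2); omega))
    rwa [← e, ← pow_add, ← hj] at this
  have h6 : LinearIndependent ℂ fun p => (⟨_, h5 p⟩ : ↥(A ^ n)) :=
    LinearIndependent.of_comp (A ^ n).subtype h4
  have h7 := h6.fintype_card_le_finrank
  rw [Fintype.card_prod, Fintype.card_fin, Fintype.card_fin, hr] at h7
  have h8 : ((n - N : ℕ) : ℤ) * degree D ≤ finrank ℂ ↥(A ^ n) := by
    rw [← hd]; exact_mod_cast h7
  have h9 : (n : ℤ) ≤ (n - N : ℕ) + N := by omega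
  nlinarith

end GCLF

theorem clf_of : St_CLF :=
  ⟨fun _ _ _ _ _ hD => ⟨GCLF.el_le hD, GCLF.cliff hD⟩, fun _ _ _ _ _ _ => GCLF.growth⟩

end Pool.Agent.Lib.MP_a25055_ag
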