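import Pool.Agent.Lib.MP_a25055_ag.GMODS1

/-! Models of smooth cubic surfaces. -/

open MvPolynomial
open Pool.Agent.Lib.MP_3c72fe_ag (P2 P3 mult)

noncomputable section

namespace Pool.Agent.Lib.MP_a25055_ag

namespace GMODS

variable (a b : Fin 5 → ℂ)

/-- The first conic. -/
def cA : P3 := C (a 0) * (X 1 * X 1) + C (a 1) * (X 1 * X 2) + C (a 2) * (X 0 * X 1) +
  C (a 3) * (X 0 * X 2) + C (a 4) * (X 0 * X 0)

/-- The second conic. -/
def cB : P3 := C (b 0) * (X 1 * X 2) + C (b 1) * (X 0 * X 1) + C (b 2) * (X 2 * X 2) +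
  C (b 3) * (X 0 * X 2) + C (b 4) * (X 0 * X 0)

/-- The parametrisation. -/
def par : Fin 4 → P3 := ![X 1 * cB b, X 0 * cB b, -(X 2 * cA a), -(X 0 * cA a)]

/-- The inverse map. -/
def inv : Fin 3 → P4 := ![X 1 * X 3, X 0 * X 3, X 1 * X 2]

/-- The part of bidegree `(1, 2)`. -/
def sB : P4 := C (b 0) * X 0 * X 2 * X 3 + C (b 1) * X 0 * X 3 ^ 2 + C (b 2) * X 1 * X 2 ^ 2 +
  C (b 3) * X 1 * X 2 * X 3 + C (b 4) * X 1 * X 3 ^ 2

lemma hXX {σ : Type} (c : ℂ) (i j : σ) :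
    (C c * (X i * X j) : MvPolynomial σ ℂ).IsHomogeneous 2 :=
  ((isHomogeneous_X ℂ i).mul (isHomogeneous_X ℂ j)).C_mul c

lemma cA_hom : (cA a).IsHomogeneous 2 :=
  ((((hXX _ _ _).add (hXX _ _ _)).add (hXX _ _ _)).add (hXX _ _ _)).add (hXX _ _ _)

lemma cB_hom : (cB b).IsHomogeneous 2 :=
  ((((hXX _ _ _).add (hXX _ _ _)).add (hXX _ _ _)).add (hXX _ _ _)).add (hXX _ _ _)

lemma par_hom (i : Fin 4) : (par a b i).IsHomogeneous 3 := by
  fin_cases i
  · exact (isHomogeneous_X ℂ 1).mul (cB_hom b)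
  · exact (isHomogeneous_X ℂ 0).mul (cB_hom b)
  · exact ((isHomogeneous_X ℂ 2).mul (cA_hom a)).neg
  · exact ((isHomogeneous_X ℂ 0).mul (cA_hom a)).neg

lemma skew_hom : (skew a b).IsHomogeneous 3 := by
  have h : ∀ (c : ℂ) (i j k : Fin 4), (C c * X i * X j * X k : P4).IsHomogeneous 3 :=
    fun c i j k => (((isHomogeneous_X ℂ i).C_mul c).mul (isHomogeneous_X ℂ j)).mul
      (isHomogeneous_X ℂ k)
  have h1 : ∀ (c : ℂ) (i k : Fin 4), (C c * X i ^ 2 * X k : P4).IsHomogeneous 3 :=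
    fun c i k => (((isHomogeneous_X ℂ i).pow 2).C_mul c).mul (isHomogeneous_X ℂ k)
  have h2 : ∀ (c : ℂ) (i k : Fin 4), (C c * X i * X k ^ 2 : P4).IsHomogeneous 3 :=
    fun c i k => ((isHomogeneous_X ℂ i).C_mul c).mul ((isHomogeneous_X ℂ k).pow 2)
  exact (((((((((h1 _ _ _).add (h _ _ _ _)).add (h _ _ _ _)).add (h1 _ _ _)).add (h1 _ _ _)).add
    (h _ _ _ _)).add (h2 _ _ _)).add (h2 _ _ _)).add (h _ _ _ _)).add (h2 _ _ _)

lemma eval_cA (x : Fin 3 → ℂ) : eval x (cA a) = a 0 * x 1 ^ 2 + a 1 * x 1 * x 2 +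
    a 2 * x 0 * x 1 + a 3 * x 0 * x 2 + a 4 * x 0 ^ 2 := by
  simp only [cA, map_add, map_mul, eval_C, eval_X]; ring

lemma eval_cB (x : Fin 3 → ℂ) : eval x (cB b) = b 0 * x 1 * x 2 + b 1 * x 0 * x 1 +
    b 2 * x 2 ^ 2 + b 3 * x 0 * x 2 + b 4 * x 0 ^ 2 := by
  simp only [cB, map_add, map_mul, eval_C, eval_X]; ring

lemma cA_eq : cA a = C (a 0) * (X 1 * X 1) + C (a 1) * (X 1 * X 2) + C (a 2) * (X 0 * X 1) +
    C (a 3) * (X 0 * X 2) + C (a 4) * (X 0 * X 0) := rfl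

lemma cB_eq : cB b = C (b 0) * (X 1 * X 2) + C (b 1) * (X 0 * X 1) + C (b 2) * (X 2 * X 2) +
    C (b 3) * (X 0 * X 2) + C (b 4) * (X 0 * X 0) := rfl

lemma par_skew : aeval (par a b) (skew a b) = 0 := by
  simp only [skew, par, map_add, map_mul, map_pow, aeval_C, aeval_X, algebraMap_eq,
    Matrix.cons_val_zero, Matrix.cons_val_one, Matrix.cons_val]
  linear_combination (X 0 * cA a * cB b ^ 2) * cA_eq a - (X 0 * cA a ^ 2 * cB b) * cB_eq b

lemma par_sB : aeval (par a b) (X 1 * X 3 * sB b) =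
    -(X 0 * cB b * (X 0 * cA a) * (X 0 * cA a ^ 2 * cB b ^ 2)) := by
  simp only [sB, par, map_add, map_mul, map_pow, aeval_C, aeval_X, algebraMap_eq,
    Matrix.cons_val_zero, Matrix.cons_val_one, Matrix.cons_val]
  linear_combination (X 0 ^ 3 * cA a ^ 3 * cB b ^ 2) * cB_eq b

lemma inv_par (i : Fin 4) : skew a b ∣ aeval inv (par a b i) - X 1 * X 3 * sB b * X i := by
  fin_cases i
  · refine ⟨0, ?_⟩
    simp [par, inv, cB, sB]
    ring
  · refine ⟨0, ?_⟩
    simp [par, inv, cB, sB]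
    ring
  · refine ⟨-(X 1 * X 2 * X 3), ?_⟩
    simp [par, inv, cA, sB, skew]
    ring
  · refine ⟨-(X 1 * X 3 * X 3), ?_⟩
    simp [par, inv, cA, sB, skew]
    ring

lemma par_inv (i : Fin 3) : (inv i).IsHomogeneous 2 ∧
    aeval (par a b) (inv i) = -(X 0 * cA a * cB b) * X i := by
  fin_cases i
  · exact ⟨(isHomogeneous_X ℂ 1).mul (isHomogeneous_X ℂ 3), by simp [par, inv]; ring⟩
  · exact ⟨(isHomogeneous_X ℂ 0).mul (isHomogeneous_X ℂ 3), by simp [par, inv]; ring⟩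
  · exact ⟨(isHomogeneous_X ℂ 1).mul (isHomogeneous_X ℂ 2), by simp [par, inv]; ring⟩

variable {a b}

lemma grad (h : Smooth4 (skew a b)) (x0 x1 x2 x3 : ℂ)
    (h0 : 2 * a 0 * x0 * x3 + a 1 * x1 * x2 + a 2 * x1 * x3 + b 0 * x2 * x3 + b 1 * x3 ^ 2 = 0)
    (h1 : a 1 * x0 * x2 + a 2 * x0 * x3 + 2 * a 3 * x1 * x2 + 2 * a 4 * x1 * x3 + b 2 * x2 ^ 2 +
      b 3 * x2 * x3 + b 4 * x3 ^ 2 = 0)
    (h2 : a 1 * x0 * x1 + a 3 * x1 ^ 2 + b 0 * x0 * x3 + 2 * b 2 * x1 * x2 + b 3 * x1 * x3 = 0)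
    (h3 : a 0 * x0 ^ 2 + a 2 * x0 * x1 + a 4 * x1 ^ 2 + b 0 * x0 * x2 + 2 * b 1 * x0 * x3 +
      b 3 * x1 * x2 + 2 * b 4 * x1 * x3 = 0) : x0 = 0 ∧ x1 = 0 ∧ x2 = 0 ∧ x3 = 0 := by
  have hx : ![x0, x1, x2, x3] = 0 := by
    by_contra hx
    obtain ⟨i, hi⟩ := h _ hx
    apply hi
    fin_cases i
    · simp [skew, pderiv_X]
      linear_combination h0
    · simp [skew, pderiv_X]
      linear_combination h1
    · simp [skew, pderiv_X]
      linear_combination h2
    · simp [skew, pderiv_X]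
      linear_combination h3
  exact ⟨congrFun hx 0, congrFun hx 1, congrFun hx 2, congrFun hx 3⟩

/-- The consequences of smoothness. -/
structure Gd (a b : Fin 5 → ℂ) : Prop where
  a0 : a 0 ≠ 0
  b2 : b 2 ≠ 0
  det : a 0 * b 2 ≠ a 1 * b 0
  la : ∀ x, a 1 * x + a 3 = 0 → a 0 * x ^ 2 + a 2 * x + a 4 ≠ 0
  lb : ∀ y, b 0 * y + b 1 = 0 → b 2 * y ^ 2 + b 3 * y + b 4 ≠ 0
  jac : ∀ x y, a 1 * x + a 3 ≠ 0 → a 0 * x ^ 2 + a 2 * x + a 4 + (a 1 * x + a 3) * y = 0 →
    (b 0 * y + b 1) * x + (b 2 * y ^ 2 + b 3 * y + b 4) = 0 →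
    (2 * a 0 * x + a 1 * y + a 2) * (b 0 * x + 2 * b 2 * y + b 3) ≠
      (a 1 * x + a 3) * (b 0 * y + b 1)

lemma gd (h : Smooth4 (skew a b)) : Gd a b := by
  have hb2 : b 2 ≠ 0 := fun e => one_ne_zero
    (grad h 0 0 1 0 (by ring) (by linear_combination e) (by ring) (by ring)).2.2.1
  refine ⟨fun e => one_ne_zero
    (grad h 1 0 0 0 (by ring) (by ring) (by ring) (by linear_combination e)).1, hb2,
    fun e => hb2 (grad h (b 2) 0 (-a 1) 0 (by ring) (by ring) (by ring)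
      (by linear_combination b 2 * e)).1,
    fun x e1 e2 => one_ne_zero (grad h x 1 0 0 (by ring) (by ring) (by linear_combination e1)
      (by linear_combination e2)).2.1,
    fun y e1 e2 => one_ne_zero (grad h 0 0 y 1 (by linear_combination e1)
      (by linear_combination e2) (by ring) (by ring)).2.2.2, fun x y hl eA eB eJ => hl ?_⟩
  obtain ⟨l, hl⟩ : ∃ l, l = b 0 * x + 2 * b 2 * y + b 3 := ⟨_, rfl⟩
  obtain ⟨m, hm⟩ : ∃ m, m = -(a 1 * x + a 3) := ⟨_, rfl⟩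
  have e1 : l * (2 * a 0 * x + a 1 * y + a 2) + m * (b 0 * y + b 1) = 0 := by
    rw [hl, hm]; linear_combination eJ
  have e2 : l * (a 1 * x + a 3) + m * (b 0 * x + 2 * b 2 * y + b 3) = 0 := by
    rw [hl, hm]; ring
  have := (grad h (l * x) l (m * y) m (by linear_combination m * e1)
    (by linear_combination 2 * l * m * eA + m ^ 2 * eB - x * m * e1)
    (by linear_combination l * e2)
    (by linear_combination l ^ 2 * eA + 2 * l * m * eB - y * l * e2)).2.2.2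
  linear_combination hm - this

/-- The four common zeros of the conics. -/
lemma four (h : Gd a b) : ∃ R : Finset ℂ, R.card = 4 ∧ ∀ x ∈ R, a 1 * x + a 3 ≠ 0 ∧
    b 2 * (a 0 * x ^ 2 + a 2 * x + a 4) ^ 2 -
      (b 3 + b 0 * x) * (a 0 * x ^ 2 + a 2 * x + a 4) * (a 1 * x + a 3) +
      (b 4 + b 1 * x) * (a 1 * x + a 3) ^ 2 = 0 := by
  classical
  let Φ : Polynomial ℂ :=
    Polynomial.C (a 0 * (a 0 * b 2 - a 1 * b 0)) * Polynomial.X ^ 4 +
    Polynomial.C (2 * b 2 * a 0 * a 2 - b 3 * a 0 * a 1 - b 0 * (a 0 * a 3 + a 2 * a 1) +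
      b 1 * a 1 ^ 2) * Polynomial.X ^ 3 +
    Polynomial.C (b 2 * (a 2 ^ 2 + 2 * a 0 * a 4) - b 3 * (a 0 * a 3 + a 2 * a 1) -
      b 0 * (a 2 * a 3 + a 4 * a 1) + b 4 * a 1 ^ 2 + 2 * b 1 * a 1 * a 3) * Polynomial.X ^ 2 +
    Polynomial.C (2 * b 2 * a 2 * a 4 - b 3 * (a 2 * a 3 + a 4 * a 1) - b 0 * a 4 * a 3 +
      2 * b 4 * a 1 * a 3 + b 1 * a 3 ^ 2) * Polynomial.X +
    Polynomial.C (b 2 * a 4 ^ 2 - b 3 * a 4 * a 3 + b 4 * a 3 ^ 2)
  have h0 : a 0 * (a 0 * b 2 - a 1 * b 0) ≠ 0 := mul_ne_zero h.a0 (sub_ne_zero.2 h.det)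
  have hdeg : Φ.natDegree = 4 := by
    simp only [Φ]
    compute_degree!
    exact ⟨h.a0, sub_ne_zero.2 h.det⟩
  have hev : ∀ x, Φ.eval x = b 2 * (a 0 * x ^ 2 + a 2 * x + a 4) ^ 2 -
      (b 3 + b 0 * x) * (a 0 * x ^ 2 + a 2 * x + a 4) * (a 1 * x + a 3) +
      (b 4 + b 1 * x) * (a 1 * x + a 3) ^ 2 := fun x => by
    simp only [Φ, Polynomial.eval_add, Polynomial.eval_mul, Polynomial.eval_C, Polynomial.eval_pow,
      Polynomial.eval_X]
    ring
  have hli : ∀ x, Φ.eval x = 0 → a 1 * x + a 3 ≠ 0 := fun x hx e => by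
    rw [hev, e] at hx
    refine mul_ne_zero h.b2 (pow_ne_zero 2 (h.la x e)) ?_
    linear_combination hx
  have hsep : Φ.Separable := by
    refine (Polynomial.isCoprime_iff_aeval_ne_zero_of_isAlgClosed ℂ ℂ _ _).2 fun x => ?_
    by_contra hc
    push Not at hc
    obtain ⟨h1, h2⟩ := hc
    rw [Polynomial.coe_aeval_eq_eval] at h1 h2
    have h3 := hli x h1
    obtain ⟨y, hy⟩ : ∃ y, a 0 * x ^ 2 + a 2 * x + a 4 + (a 1 * x + a 3) * y = 0 :=
      ⟨-(a 0 * x ^ 2 + a 2 * x + a 4) / (a 1 * x + a 3), by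
        rw [mul_div_cancel₀ _ h3, add_neg_cancel]⟩
    rw [hev] at h1
    have hB : (b 0 * y + b 1) * x + (b 2 * y ^ 2 + b 3 * y + b 4) = 0 := by
      refine mul_left_cancel₀ (pow_ne_zero 2 h3) ?_
      linear_combination h1 + (b 2 * ((a 1 * x + a 3) * y - (a 0 * x ^ 2 + a 2 * x + a 4)) +
        (b 3 + b 0 * x) * (a 1 * x + a 3)) * hy
    refine h.jac x y h3 hy hB (mul_left_cancel₀ h3 ?_)
    simp only [Φ, Polynomial.derivative_add, Polynomial.derivative_C_mul,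
      Polynomial.derivative_X_pow, Polynomial.derivative_X, Polynomial.derivative_C,
      Polynomial.eval_add, Polynomial.eval_mul, Polynomial.eval_C, Polynomial.eval_pow,
      Polynomial.eval_X, Polynomial.eval_one, Polynomial.eval_zero, Nat.cast_ofNat,
      Nat.add_one_sub_one] at h2
    linear_combination -h2 + 2 * a 1 * (a 1 * x + a 3) * hB +
      (2 * b 2 * (2 * a 0 * x + a 2) - b 0 * (a 1 * x + a 3) - (b 3 + b 0 * x) * a 1) * hy
  refine ⟨Φ.roots.toFinset, ?_, fun x hx => ?_⟩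
  · rw [Multiset.toFinset_card_of_nodup (Polynomial.nodup_roots hsep),
      IsAlgClosed.card_roots_eq_natDegree, hdeg]
  · have h1 : Φ.eval x = 0 := Polynomial.isRoot_of_mem_roots (Multiset.mem_toFinset.1 hx)
    exact ⟨hli x h1, by rw [← hev, h1]⟩

end GMODS

open GMODS in
theorem mods_of (hB : St_NB) (hV : St_VAL) (hD : St_DIV) (hN : St_NOE) (hP : St_PLANE)
    (hK : St_KER) : St_MODS := by
  intro a b hs hirr
  have h := gd hs
  obtain ⟨R, hR4, hR⟩ := four h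
  let yy : ℂ → ℂ := fun x => -(a 0 * x ^ 2 + a 2 * x + a 4) / (a 1 * x + a 3)
  have eA : ∀ x ∈ R, a 0 * x ^ 2 + a 2 * x + a 4 + (a 1 * x + a 3) * yy x = 0 := fun x hx => by
    simp only [yy]
    rw [mul_div_cancel₀ _ (hR x hx).1, add_neg_cancel]
  have eB : ∀ x ∈ R, (b 0 * yy x + b 1) * x + (b 2 * yy x ^ 2 + b 3 * yy x + b 4) = 0 :=
    fun x hx => by
      refine mul_left_cancel₀ (pow_ne_zero 2 (hR x hx).1) ?_
      linear_combination (hR x hx).2 + (b 2 * ((a 1 * x + a 3) * yy x -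
        (a 0 * x ^ 2 + a 2 * x + a 4)) + (b 3 + b 0 * x) * (a 1 * x + a 3)) * eA x hx
  have hyy : ∀ x ∈ R, ∀ x' ∈ R, yy x = yy x' → x = x' := fun x hx x' hx' e => by
    by_contra hne
    have e1 := eB x hx
    have e2 := eB x' hx'
    rw [← e] at e2
    have e3 : b 0 * yy x + b 1 = 0 :=
      mul_left_cancel₀ (sub_ne_zero.2 hne) (by linear_combination e1 - e2)
    exact h.lb _ e3 (by linear_combination e1 - x * e3)
  let S : Finset Node := R.image fun x => Node.root (.c0 x (yy x))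
  have hS : ∀ q ∈ S, ∃ x ∈ R, q = Node.root (.c0 x (yy x)) := fun q hq => by
    obtain ⟨x, hx, rfl⟩ := Finset.mem_image.1 hq
    exact ⟨x, hx, rfl⟩
  have hS4 : S.card = 4 := by
    rw [Finset.card_image_of_injective _ fun x x' e => by injection e with e; injection e, hR4]
  have ha : Node.root .c2 ∉ S := fun e => by
    obtain ⟨x, -, e⟩ := hS _ e
    cases e
  have hb : Node.root (.c1 0) ∉ S := fun e => by
    obtain ⟨x, -, e⟩ := hS _ e
    cases e
  have hab : Node.root (.c1 0) ≠ Node.root .c2 := fun e => by cases e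
  have hba : Node.root (.c1 0) ∉ insert (Node.root .c2) S := by
    rw [Finset.mem_insert, not_or]; exact ⟨hab, hb⟩
  have hab' : Node.root .c2 ∉ insert (Node.root (.c1 0)) S := by
    rw [Finset.mem_insert, not_or]; exact ⟨hab.symm, ha⟩
  have hA0 : cA a ≠ 0 := fun e => h.a0 (by simpa [e] using (eval_cA a ![0, 1, 0]).symm)
  have hB0 : cB b ≠ 0 := fun e => h.b2 (by simpa [e] using (eval_cB b ![0, 0, 1]).symm)
  have nA : NZ (cA a) := ⟨hA0, 2, cA_hom a⟩
  have nB : NZ (cB b) := ⟨hB0, 2, cB_hom b⟩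
  have vA : ∀ x ∈ R, eval (pt (.c0 x (yy x))) (cA a) = 0 := fun x hx => by
    rw [eval_cA]
    simp only [pt, Matrix.cons_val_zero, Matrix.cons_val_one, Matrix.cons_val]
    linear_combination eA x hx
  have vB : ∀ x ∈ R, eval (pt (.c0 x (yy x))) (cB b) = 0 := fun x hx => by
    rw [eval_cB]
    simp only [pt, Matrix.cons_val_zero, Matrix.cons_val_one, Matrix.cons_val]
    linear_combination eB x hx
  have vAa : eval (pt .c2) (cA a) = 0 := by simp [eval_cA, pt]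
  have vBb : eval (pt (.c1 0)) (cB b) = 0 := by simp [eval_cB, pt]
  set T0 := insert (Node.root (.c1 0)) (insert (Node.root .c2) S) with hT0
  have hroot : ∀ q ∈ T0, ∃ r, q = Node.root r ∧ ∀ i, eval (pt r) (par a b i) = 0 := by
    intro q hq
    rcases Finset.mem_insert.1 hq with rfl | hq
    · refine ⟨_, rfl, fun i => ?_⟩
      fin_cases i
      · simp [par, vBb]
      · simp [par, vBb]
      · simp [par, pt]
      · simp [par, pt]
    rcases Finset.mem_insert.1 hq with rfl | hq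
    · refine ⟨_, rfl, fun i => ?_⟩
      fin_cases i
      · simp [par, pt]
      · simp [par, pt]
      · simp [par, vAa]
      · simp [par, vAa]
    · obtain ⟨x, hx, rfl⟩ := hS q hq
      refine ⟨_, rfl, fun i => ?_⟩
      fin_cases i <;> simp [par, vA x hx, vB x hx]
  have hr : ∀ q ∈ T0, q.prox = ∅ := fun q hq => by
    obtain ⟨r, rfl, -⟩ := hroot q hq
    exact prox_root r
  have hcls : Cls T0 := fun q hq => by rw [hr q hq]; exact Finset.empty_subset _
  have hX0 : (X 0 : P3) ≠ 0 := X_ne_zero _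
  have nX0 : NZ (X 0 : P3) := ⟨hX0, 1, isHomogeneous_X ℂ 0⟩
  have nl : ∀ (i : Fin 3) (c : ℂ), i ≠ 0 →
      (X i - C c * X 0 : P3) ≠ 0 ∧ (X i - C c * X 0 : P3).IsHomogeneous 1 := fun i c hi =>
    ⟨fun e => by simpa [hi.symm] using congrArg (eval (Pi.single i 1)) e,
      (isHomogeneous_X ℂ i).sub ((isHomogeneous_X ℂ 0).C_mul c)⟩
  refine ⟨par a b, T0, par_hom a b, hK _ (X 1 * X 3 * sB b) _ inv hirr (par_hom a b) (skew_hom a b)
    (par_skew a b) ?_ (inv_par a b), ⟨inv, _, ?_, par_inv a b⟩, ?_, hcls,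
    dp_of hP hr ?_ fun Γ => ?_⟩
  · rintro ⟨u, hu⟩
    have h1 := par_sB a b
    rw [hu, map_mul, par_skew, zero_mul] at h1
    exact neg_ne_zero.2 (mul_ne_zero (mul_ne_zero (mul_ne_zero hX0 hB0) (mul_ne_zero hX0 hA0))
      (mul_ne_zero (mul_ne_zero hX0 (pow_ne_zero 2 hA0)) (pow_ne_zero 2 hB0))) h1.symm
  · exact neg_ne_zero.2 (mul_ne_zero (mul_ne_zero hX0 hA0) hB0)
  · intro i q hq
    rw [wv_eq, hr q hq, Finset.sum_empty, ind, if_pos hq]
    obtain ⟨r, rfl, h1⟩ := hroot q hq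
    refine one_le_m hV r ⟨?_, 3, par_hom a b i⟩ (h1 i)
    fin_cases i
    · exact mul_ne_zero (X_ne_zero _) hB0
    · exact mul_ne_zero (X_ne_zero _) hB0
    · exact neg_ne_zero.2 (mul_ne_zero (X_ne_zero _) hA0)
    · exact neg_ne_zero.2 (mul_ne_zero (X_ne_zero _) hA0)
  · rw [hT0, Finset.card_insert_of_notMem hba, Finset.card_insert_of_notMem ha, hS4]
  obtain ⟨hd, hh⟩ := hD.deg Γ
  have hle : ∀ q ∈ T0, q.m Γ.rep ≤ Γ.rep.totalDegree := fun q hq =>
    hB.mu_le (gTree T0 T0) (hP T0 T0 hcls) Γ ⟨q, hq⟩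
  by_cases h1 : Γ.rep ∣ cA a
  · by_cases h2 : Γ.rep ∣ cB b
    · exfalso
      obtain ⟨s, t, hst, e⟩ := exists_zero hh hd
      obtain ⟨u, hu⟩ := h1
      obtain ⟨w, hw⟩ := h2
      have e1 := eval_cA a ![0, s, t]
      have e2 := eval_cB b ![0, s, t]
      rw [hu, map_mul, e, zero_mul] at e1
      rw [hw, map_mul, e, zero_mul] at e2
      simp only [Matrix.cons_val_zero, Matrix.cons_val_one, Matrix.cons_val] at e1 e2
      by_cases hs0 : s = 0
      · have ht0 : t ≠ 0 := hst.resolve_left (not_not.2 hs0)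
        rw [hs0] at e2
        exact mul_ne_zero h.b2 (pow_ne_zero 2 ht0) (by linear_combination -e2)
      by_cases ht0 : t = 0
      · rw [ht0] at e1
        exact mul_ne_zero h.a0 (pow_ne_zero 2 hs0) (by linear_combination -e1)
      refine h.det (mul_left_cancel₀ (mul_ne_zero (pow_ne_zero 2 hs0) ht0) ?_)
      linear_combination -(b 2 * t) * e1 + (a 1 * s) * e2
    · rw [hT0, Finset.insert_comm] at hle ⊢
      refine key hV hD hN Γ.2.1 hh hd _ _ hab' hle (cB_hom b) h2 (fun q hq => ?_) fun q hq => ?_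
      · rcases Finset.mem_insert.1 hq with rfl | hq
        · exact one_le_m hV _ nB vBb
        · obtain ⟨x, hx, rfl⟩ := hS q hq
          exact one_le_m hV _ nB (vB x hx)
      · rcases Finset.mem_insert.1 hq with rfl | hq
        · refine ⟨X 0, hX0, isHomogeneous_X ℂ 0, one_le_m hV _ nX0 (by simp [pt]),
            one_le_m hV _ nX0 (by simp [pt]), fun q' hq' hne => ?_⟩
          obtain ⟨x, -, rfl⟩ := hS q' ((Finset.mem_insert.1 hq').resolve_left hne)
          exact (m_zero hV _ nX0).2 (by simp [pt])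
        · obtain ⟨x, hx, rfl⟩ := hS q hq
          have n1 := nl 1 x (by decide)
          have n2 : NZ (X 1 - C x * X 0 : P3) := ⟨n1.1, 1, n1.2⟩
          refine ⟨_, n1.1, n1.2, one_le_m hV _ n2 (by simp [pt]), one_le_m hV _ n2 (by simp [pt]),
            fun q' hq' hne => ?_⟩
          rcases Finset.mem_insert.1 hq' with rfl | hq'
          · exact (m_zero hV _ n2).2 (by simp [pt])
          · obtain ⟨x', -, rfl⟩ := hS q' hq'
            refine (m_zero hV _ n2).2 fun e => hne ?_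
            have : x' = x := by simpa [pt, sub_eq_zero] using e
            rw [this]
  · refine key hV hD hN Γ.2.1 hh hd _ _ hba hle (cA_hom a) h1 (fun q hq => ?_) fun q hq => ?_
    · rcases Finset.mem_insert.1 hq with rfl | hq
      · exact one_le_m hV _ nA vAa
      · obtain ⟨x, hx, rfl⟩ := hS q hq
        exact one_le_m hV _ nA (vA x hx)
    · rcases Finset.mem_insert.1 hq with rfl | hq
      · refine ⟨X 0, hX0, isHomogeneous_X ℂ 0, one_le_m hV _ nX0 (by simp [pt]),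
          one_le_m hV _ nX0 (by simp [pt]), fun q' hq' hne => ?_⟩
        obtain ⟨x, -, rfl⟩ := hS q' ((Finset.mem_insert.1 hq').resolve_left hne)
        exact (m_zero hV _ nX0).2 (by simp [pt])
      · obtain ⟨x, hx, rfl⟩ := hS q hq
        have n1 := nl 2 (yy x) (by decide)
        have n2 : NZ (X 2 - C (yy x) * X 0 : P3) := ⟨n1.1, 1, n1.2⟩
        refine ⟨_, n1.1, n1.2, one_le_m hV _ n2 (by simp [pt]), one_le_m hV _ n2 (by simp [pt]),
          fun q' hq' hne => ?_⟩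
        rcases Finset.mem_insert.1 hq' with rfl | hq'
        · exact (m_zero hV _ n2).2 (by simp [pt])
        · obtain ⟨x', hx', rfl⟩ := hS q' hq'
          refine (m_zero hV _ n2).2 fun e => hne ?_
          have : yy x' = yy x := by simpa [pt, sub_eq_zero] using e
          rw [hyy x' hx' x hx this]

end Pool.Agent.Lib.MP_a25055_ag
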