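import Pool.Agent.Lib.MP_a25055_ag.Geo

/-! Models of smooth cubic surfaces, part 1: six points of the plane. -/

open MvPolynomial
open Pool.Agent.Lib.MP_3c72fe_ag (P2 P3 mult aeval_smul_hom)

noncomputable section

namespace Pool.Agent.Lib.MP_a25055_ag

namespace GMODS

/-- The coordinates of a point. -/
def pt : Rt → Fin 3 → ℂ
  | .c0 a b => ![1, a, b]
  | .c1 b => ![0, 1, b]
  | .c2 => ![0, 0, 1]

lemma eval_ch (r : Rt) (g : P3) : eval 0 (aeval r.ch g) = eval (pt r) g := by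
  have : (aeval (0 : Fin 2 → ℂ)).comp (aeval r.ch) = (aeval (pt r) : P3 →ₐ[ℂ] ℂ) := by
    ext k : 1
    cases r <;> fin_cases k <;> simp [Rt.ch, pt]
  simpa [aeval_eq_eval] using AlgHom.congr_fun this g

lemma m_zero (hV : St_VAL) (r : Rt) {g : P3} (hg : NZ g) :
    (Node.root r).m g = 0 ↔ eval (pt r) g ≠ 0 := by
  rw [← eval_ch]
  exact hV.mzero _ (hV.ne (.root r) g hg).2

lemma one_le_m (hV : St_VAL) (r : Rt) {g : P3} (hg : NZ g) (h : eval (pt r) g = 0) :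
    1 ≤ (Node.root r).m g :=
  Nat.one_le_iff_ne_zero.2 fun h1 => (m_zero hV r hg).1 h1 h

lemma prox_root (r : Rt) : (Node.root r).prox = ∅ := by simp [Node.prox, Node.ex]

lemma m_le_of_dvd (hV : St_VAL) (hD : St_DIV) (q : Node) {g l : P3} (hl : NZ l) (h : g ∣ l) :
    q.m g ≤ q.m l := by
  obtain ⟨u, rfl⟩ := h
  rw [(hV.mul q g u (hD.nz _ _ hl (dvd_mul_right _ _)) (hD.nz _ _ hl (dvd_mul_left _ _))).2.1]
  exact Nat.le_add_right _ _

lemma key (hV : St_VAL) (hD : St_DIV) (hN : St_NOE) {g : P3} {d : ℕ} (hg : Irreducible g)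
    (hh : g.IsHomogeneous d) (hd : 1 ≤ d) (p : Node) (S : Finset Node) (hp : p ∉ S)
    (hle : ∀ q ∈ insert p S, q.m g ≤ d) {Q : P3} (hQ : Q.IsHomogeneous 2) (hn : ¬ g ∣ Q)
    (h1 : ∀ q ∈ S, 1 ≤ q.m Q)
    (hl : ∀ q ∈ S, ∃ l : P3, l ≠ 0 ∧ l.IsHomogeneous 1 ∧ 1 ≤ p.m l ∧ 1 ≤ q.m l ∧
      ∀ q' ∈ S, q' ≠ q → q'.m l = 0) :
    ∑ q ∈ insert p S, q.m g < 3 * d := by
  rw [Finset.sum_insert hp]
  have h2 : ∑ q ∈ S, q.m g ≤ 2 * d :=
    (Finset.sum_le_sum fun q hq => Nat.le_mul_of_pos_left _ (h1 q hq)).trans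
      (hN.le g Q d 2 S hg hh hQ hn)
  have h3 := hle p (Finset.mem_insert_self _ _)
  by_cases h4 : p.m g < d
  · omega
  have h5 : ∑ q ∈ S, q.m g ≤ d := by
    by_cases h6 : ∃ q ∈ S, q.m g ≠ 0
    · obtain ⟨q, hq, h6⟩ := h6
      obtain ⟨l, l0, l1, l2, l3, l4⟩ := hl q hq
      have h7 : g ∣ l := by
        by_contra h7
        have h8 := hN.le g l d 1 {p, q} hg hh l1 h7
        rw [Finset.sum_pair (by rintro rfl; exact hp hq)] at h8
        have h9 := Nat.le_mul_of_pos_left (p.m g) l2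
        have h10 := Nat.le_mul_of_pos_left (q.m g) l3
        omega
      rw [Finset.sum_eq_single q (fun q' hq' hne => Nat.eq_zero_of_le_zero
        ((m_le_of_dvd hV hD q' ⟨l0, 1, l1⟩ h7).trans (l4 q' hq' hne).le)) (fun h => absurd hq h)]
      exact hle q (Finset.mem_insert_of_mem hq)
    · push Not at h6
      rw [Finset.sum_eq_zero h6]
      exact Nat.zero_le _
  omega

lemma mem_T0 {T T0 : Finset Node} (q : T) : q ∈ (gTree T T0).T0 ↔ q.1 ∈ T0 :=
  Finset.mem_filter.trans (and_iff_right (Finset.mem_univ _))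

lemma mem_prox' {T T0 : Finset Node} (p q : T) : p ∈ (gTree T T0).prox q ↔ p.1 ∈ q.1.prox :=
  Finset.mem_filter.trans (and_iff_right (Finset.mem_univ _))

lemma ipL_inl {T T0 : Finset Node} (h : T0 ⊆ T) (Γ : PlC) :
    (gTree T T0).ip (gTree T T0).L ((gTree T T0).gam (.inl Γ)) =
      3 * Γ.rep.totalDegree - ∑ q ∈ T0, (q.m Γ.rep : ℝ) := by
  have : ∑ q : T, (if q.1 ∈ T0 then (1 : ℝ) else 0) * (q.1.m Γ.rep : ℝ) =
      ∑ q ∈ T0, (q.m Γ.rep : ℝ) := by
    rw [Finset.sum_coe_sort T fun q => (if q ∈ T0 then (1 : ℝ) else 0) * (q.m Γ.rep : ℝ)]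
    simp only [ite_mul, one_mul, zero_mul]
    rw [← Finset.sum_filter, Finset.filter_mem_eq_inter, Finset.inter_eq_right.2 h]
  rw [← this]
  refine congrArg₂ (· - ·) rfl (Finset.sum_congr rfl fun q _ => ?_)
  exact congrArg₂ (· * ·) (if_congr (mem_T0 q) rfl rfl) rfl

lemma ipL_inr {T T0 : Finset Node} (hr : ∀ q ∈ T0, q.prox = ∅) (p : T) :
    (gTree T T0).ip (gTree T T0).L ((gTree T T0).gam (.inr p)) = if p.1 ∈ T0 then 1 else 0 := by
  have : ∑ q : T, (if q.1 ∈ T0 then (1 : ℝ) else 0) *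
      ((if p.1 ∈ q.1.prox then (1 : ℝ) else 0) - if q = p then 1 else 0) =
      -(if p.1 ∈ T0 then 1 else 0) := by
    rw [Finset.sum_eq_single p]
    · by_cases h : p.1 ∈ T0
      · simp [h, hr _ h]
      · simp [h]
    · intro q _ hq
      by_cases h : q.1 ∈ T0
      · simp [h, hr _ h, hq]
      · simp [h]
    · simp
  rw [← neg_neg (if p.1 ∈ T0 then (1 : ℝ) else 0), ← this, ← zero_sub]
  refine congrArg₂ (· - ·) (mul_zero 3) (Finset.sum_congr rfl fun q _ => ?_)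
  exact congrArg₂ (· * ·) (if_congr (mem_T0 q) rfl rfl)
    (congrArg₂ (· - ·) (if_congr (mem_prox' p q) rfl rfl) (if_congr Iff.rfl rfl rfl))

lemma dp_of (hP : St_PLANE) {T0 : Finset Node} (hr : ∀ q ∈ T0, q.prox = ∅) (hc : T0.card = 6)
    (hpos : ∀ Γ : PlC, ∑ q ∈ T0, q.m Γ.rep < 3 * Γ.rep.totalDegree) (T : Finset Node)
    (hT : Cls T) (h : T0 ⊆ T) : (gTree T T0).DP := by
  have h1 : ∀ Γ : PlC, 0 < (gTree T T0).ip (gTree T T0).L ((gTree T T0).gam (.inl Γ)) := by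
    intro Γ
    rw [ipL_inl h, sub_pos]
    exact_mod_cast hpos Γ
  have hm : ∀ q : T, q ∈ (gTree T T0).T0 ↔ q.1 ∈ T0 := mem_T0
  refine ⟨hP T T0 hT, ?_, ?_, ?_, ?_⟩
  · rw [← hc]
    refine Finset.card_bij (fun q _ => q.1) (fun q hq => (hm q).1 hq)
      (fun q _ q' _ e => Subtype.ext e) fun q hq => ⟨⟨q, h hq⟩, (hm _).2 hq, rfl⟩
  · intro q hq p hp
    have h2 : p.1 ∈ q.1.prox := (Finset.mem_filter.1 hp).2
    rw [hr _ ((hm q).1 hq)] at h2
    exact absurd h2 (Finset.notMem_empty _)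
  · rintro (Γ | p)
    · exact (h1 Γ).le
    · rw [ipL_inr hr]
      split_ifs <;> norm_num
  · rintro (Γ | p) j _ hi _ h2 _
    · exact absurd h2 (h1 Γ).ne'
    · rw [ipL_inr hr, if_pos ((hm p).1 hi)] at h2
      exact absurd h2 one_ne_zero

/-- A form of positive degree has a zero on a line. -/
lemma exists_zero {g : P3} {d : ℕ} (hg : g.IsHomogeneous d) (hd : 1 ≤ d) :
    ∃ s t : ℂ, (s ≠ 0 ∨ t ≠ 0) ∧ eval ![0, s, t] g = 0 := by
  by_contra hcon
  push Not at hcon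
  have hev : ∀ (u : Fin 3 → Polynomial ℂ) (x : ℂ),
      (aeval u g).eval x = eval (fun i => (u i).eval x) g := by
    intro u x
    have : (Polynomial.aeval x).comp (aeval u) =
        (aeval (fun i => (u i).eval x) : P3 →ₐ[ℂ] ℂ) := by
      ext k : 1
      simp
    simpa [aeval_eq_eval] using AlgHom.congr_fun this g
  have h1 : ∀ t, (aeval ![0, 1, Polynomial.X] g).eval t = eval ![0, 1, t] g := fun t => by
    rw [hev]
    congr 2
    funext i
    fin_cases i <;> simp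
  have h2 : ∀ s, (aeval ![0, Polynomial.X, 1] g).eval s = eval ![0, s, 1] g := fun t => by
    rw [hev]
    congr 2
    funext i
    fin_cases i <;> simp
  have h3 : (aeval ![0, 1, Polynomial.X] g : Polynomial ℂ).degree = 0 := by
    by_contra h
    obtain ⟨t, ht⟩ := IsAlgClosed.exists_root _ h
    exact hcon 1 t (Or.inl one_ne_zero) (by rw [← h1]; exact ht)
  obtain ⟨c, hc⟩ : ∃ c, (aeval ![0, 1, Polynomial.X] g : Polynomial ℂ) = Polynomial.C c :=
    ⟨_, Polynomial.eq_C_of_degree_eq_zero h3⟩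
  have h4 : (aeval ![0, Polynomial.X, 1] g : Polynomial ℂ) = Polynomial.C c * Polynomial.X ^ d := by
    refine Polynomial.eq_of_infinite_eval_eq _ _ ((Set.finite_singleton (0 : ℂ)).infinite_compl.mono
      fun s hs => ?_)
    have hs0 : s ≠ 0 := hs
    have h5 := aeval_smul_hom hg s ![0, 1, s⁻¹]
    have h6 : (fun i => s * ![0, 1, s⁻¹] i) = ![0, s, 1] := by
      funext i
      fin_cases i <;> simp [hs0]
    rw [h6, aeval_eq_eval, aeval_eq_eval, ← h1, hc] at h5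
    change Polynomial.eval s _ = Polynomial.eval s _
    rw [h2, h5, Polynomial.eval_C, Polynomial.eval_mul, Polynomial.eval_C, Polynomial.eval_pow,
      Polynomial.eval_X, mul_comm]
  have h7 := h2 0
  rw [h4] at h7
  refine hcon 0 1 (Or.inr one_ne_zero) ?_
  rw [← h7]
  simp [Nat.ne_of_gt hd]

end GMODS

end Pool.Agent.Lib.MP_a25055_ag
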