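import Pool.Agent.Lib.MP_a25055_ag.Inv
import Pool.Agent.Lib.MP_a25055_ag.Num
import Pool.Agent.Lib.MP_3c72fe_ag.Bridge

/-! Internal definitions and block statements, part III: infinitely near points of the plane. -/

open MvPolynomial Module
open Pool.Agent.Lib.MP_cc3443_ag (Place IsFF divF)
open Pool.Agent.Lib.MP_3c72fe_ag (P2 P3 mult Ge LL el chi ZD)

noncomputable section

namespace Pool.Agent.Lib.MP_a25055_ag

/-- Points of the plane. -/
inductive Rt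
  | c0 (a b : ℂ)
  | c1 (b : ℂ)
  | c2

/-- The affine chart centred at a point. -/
def Rt.ch : Rt → Fin 3 → P2
  | .c0 a b => ![1, C a + X 0, C b + X 1]
  | .c1 b => ![X 0, 1, C b + X 1]
  | .c2 => ![X 0, X 1, 1]

/-- Infinitely near points. -/
inductive Node
  | root (r : Rt)
  | step (p : Node) (c : Option ℂ)

instance : DecidableEq Node := Classical.decEq _

/-- The blow-up substitutions. -/
def st : Option ℂ → Fin 2 → P2
  | some c => ![X 0, X 0 * (X 1 + C c)]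
  | none => ![X 0 * X 1, X 1]

/-- The index of the coordinate that defines the new exceptional curve. -/
def exI : Option ℂ → Fin 2
  | some _ => 0
  | none => 1

namespace Node

def dep : Node → ℕ
  | root _ => 0
  | step p _ => p.dep + 1

/-- Homogeneous coordinates in terms of the chart at a node. -/
def sub : Node → Fin 3 → P2
  | root r => r.ch
  | step p c => fun i => aeval (st c) (p.sub i)

/-- The exceptional curve `X k = 0` of the chart at a node, if any. -/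
def ex : Node → Fin 2 → Option Node
  | root _, _ => none
  | step p (some c), k => if k = 0 then some p else if c = 0 then p.ex 1 else none
  | step p none, k => if k = 0 then p.ex 0 else some p

/-- The nodes to which a node is proximate. -/
def prox (q : Node) : Finset Node := (q.ex 0).toFinset ∪ (q.ex 1).toFinset

lemma ex_dep : ∀ (q : Node) (k : Fin 2) (p : Node), q.ex k = some p → p.dep < q.dep
  | root _, _, _, h => by simp [ex] at h
  | step r (some c), k, p, h => by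
    simp only [ex] at h
    split_ifs at h
    · cases h; simp [dep]
    · exact (ex_dep r 1 p h).trans (by simp [dep])
  | step r none, k, p, h => by
    simp only [ex] at h
    split_ifs at h
    · exact (ex_dep r 0 p h).trans (by simp [dep])
    · cases h; simp [dep]

lemma mem_prox {q p : Node} : p ∈ q.prox ↔ q.ex 0 = some p ∨ q.ex 1 = some p := by
  simp [prox, Option.mem_toFinset]

lemma prox_dep {q p : Node} (h : p ∈ q.prox) : p.dep < q.dep :=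
  (mem_prox.1 h).elim (ex_dep _ _ _) (ex_dep _ _ _)

/-- Total transform. -/
def tot (q : Node) : P3 →ₐ[ℂ] P2 := aeval q.sub

/-- Strict transform. -/
def str : Node → P3 → P2
  | root r, g => aeval r.ch g
  | step p c, g => (aeval (st c) (p.str g)).divMonomial
      (Finsupp.single (exI c) (mult 0 (p.str g)))

/-- The valuation of the exceptional curve of a node. -/
def v (q : Node) (g : P3) : ℕ := mult 0 (q.tot g)

/-- The multiplicity at a node. -/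
def m (q : Node) (g : P3) : ℕ := mult 0 (q.str g)

/-- The value of `w` on a label. -/
def lab (w : Node → ℕ) (o : Option Node) : ℕ := o.elim 0 w

end Node

/-- Valuations attached to virtual multiplicities. -/
def wv (M : Node → ℕ) (q : Node) : ℕ := M q + ∑ p ∈ q.prox.attach, wv M p.1
termination_by q.dep
decreasing_by exact Node.prox_dep p.2

lemma wv_eq (M : Node → ℕ) (q : Node) : wv M q = M q + ∑ p ∈ q.prox, wv M p := by
  rw [wv, Finset.sum_attach q.prox (wv M)]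

/-- The indicator function of a set of nodes. -/
def ind (T0 : Finset Node) (q : Node) : ℕ := if q ∈ T0 then 1 else 0

def Cls (T : Finset Node) : Prop := ∀ q ∈ T, q.prox ⊆ T

abbrev hom (e : ℕ) : Submodule ℂ P3 := homogeneousSubmodule (Fin 3) ℂ e

/-- Nonzero forms. -/
def NZ (g : P3) : Prop := g ≠ 0 ∧ ∃ e, g.IsHomogeneous e

/-- Irreducible plane curves. -/
def PlC : Type := {Γ : Associates P3 // Irreducible (Quotient.out Γ) ∧ NZ (Quotient.out Γ)}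

/-- An equation of the curve. -/
def PlC.rep (Γ : PlC) : P3 := Quotient.out Γ.1

/-- The tree attached to a finite set of nodes. -/
def gTree (T T0 : Finset Node) : Tree where
  T := T
  dep q := q.1.dep
  prox q := Finset.univ.filter fun p => p.1 ∈ q.1.prox
  prox_dep _ _ h := Node.prox_dep (Finset.mem_filter.1 h).2
  Pl := PlC
  decP := Classical.decEq _
  deg Γ := Γ.rep.totalDegree
  mu Γ q := q.1.m Γ.rep
  T0 := Finset.univ.filter fun p => p.1 ∈ T0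

open Classical in
/-- A finitely supported function from a function. -/
def mkF {ι : Type} (φ : ι → ℕ) : ι →₀ ℕ :=
  if h : (Function.support φ).Finite then Finsupp.ofSupportFinite φ h else 0

/-- The divisor of a form minus the divisor with coefficients `w`. -/
def gdiv (T T0 : Finset Node) (w : Node → ℕ) (g : P3) : (gTree T T0).I →₀ ℕ :=
  mkF (Sum.elim (fun Γ : PlC => multiplicity Γ.rep g) fun q : T => q.1.v g - w q.1)

/-- The class with degree `e` and multiplicities `M`. -/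
def gcl (T T0 : Finset Node) (e : ℕ) (M : Node → ℕ) : (gTree T T0).Cl := (e, fun q : T => M q.1)

/-- Forms of degree `3 k` with virtual multiplicity `k` along `T0`. -/
def Adm (T0 : Finset Node) (k : ℕ) (W : Submodule ℂ P3) : Prop :=
  W ≤ hom (3 * k) ∧ ∀ s ∈ W, s ≠ 0 → ∀ q : Node, k * wv (ind T0) q ≤ q.v s

structure SecAx (T T0 : Finset Node) (k : ℕ) (W : Submodule ℂ P3) : Prop where
  fd : FiniteDimensional ℂ W
  add : ∀ (s t : W) i, s ≠ 0 → t ≠ 0 → s + t ≠ 0 →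
    min (gdiv T T0 (fun q => k * wv (ind T0) q) s i) (gdiv T T0 (fun q => k * wv (ind T0) q) t i) ≤
      gdiv T T0 (fun q => k * wv (ind T0) q) (s + t : W) i
  smul : ∀ (c : ℂ) (s : W), c ≠ 0 → gdiv T T0 (fun q => k * wv (ind T0) q) (c • s : W) =
    gdiv T T0 (fun q => k * wv (ind T0) q) s
  cl : ∀ s : W, s ≠ 0 → (gTree T T0).cl (toR (gdiv T T0 (fun q => k * wv (ind T0) q) s)) =
    (k : ℝ) • (gTree T T0).L

/-- The system of sections attached to a space of forms. -/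
def gSec {T T0 : Finset Node} {k : ℕ} {W : Submodule ℂ P3} (h : SecAx T T0 k W) :
    Sec (gTree T T0) k where
  V := W
  fd := h.fd
  ord s := gdiv T T0 (fun q => k * wv (ind T0) q) s
  ord_add := h.add
  ord_smul := h.smul
  cl_ord := h.cl

/-- The valuation of a space of forms. -/
def vW (W : Submodule ℂ P3) (q : Node) : ℕ := sInf {n | ∃ s ∈ W, s ≠ 0 ∧ n = q.v s}

/-- The multiplicity of a space of forms. -/
def MW (W : Submodule ℂ P3) (q : Node) : ℕ := vW W q - ∑ p ∈ q.prox, vW W p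

/-- A linear system of degree `e` without fixed curves. -/
structure Mob (W : Submodule ℂ P3) (e : ℕ) : Prop where
  le : W ≤ hom e
  ne : W ≠ ⊥
  nofix : ∀ f : P3, Irreducible f → ∃ s ∈ W, ¬ f ∣ s

/-- Splitting off the fixed curves. -/
structure Dec (W : Submodule ℂ P3) (g : P3) (W' : Submodule ℂ P3) (e : ℕ) : Prop where
  nz : NZ g
  mob : Mob W' e
  eq : W = W'.map (LinearMap.mulLeft ℂ g)

/-- The linear system defines a birational map. -/
def Bir (W : Submodule ℂ P3) : Prop := ∃ Θ : P3, Θ ≠ 0 ∧ ∀ i, Θ * X i ∈ W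

/-- All base points are in `T`. -/
def Res (T : Finset Node) (W : Submodule ℂ P3) : Prop := ∀ q ∉ T, MW W q = 0

/-- A very general member. -/
structure Memb (T : Finset Node) (W : Submodule ℂ P3) (Θ F : P3) : Prop where
  mem : F ∈ W
  ne : F ≠ 0
  eq : ∀ q ∈ T, q.m F = MW W q
  le : ∀ q ∉ T, q.m F ≤ 1
  ndvd : Irreducible F → F ∣ Θ → finrank ℂ W ≤ 1

/-- A plane model of a cubic surface. -/
structure Model (f : P4) (c : Fin 4 → P3) (T0 : Finset Node) : Prop where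
  hom : ∀ i, (c i).IsHomogeneous 3
  ker : ∀ P : P4, aeval c P = 0 ↔ f ∣ P
  bir : ∃ (a : Fin 3 → P4) (Θ : P3), Θ ≠ 0 ∧ ∀ i, (a i).IsHomogeneous 2 ∧ aeval c (a i) = Θ * X i
  vir : ∀ i, ∀ q ∈ T0, wv (ind T0) q ≤ q.v (c i)
  cls : Cls T0
  dp : ∀ T, Cls T → T0 ⊆ T → (gTree T T0).DP

/-! ### Function fields of plane curves -/

section ff
variable {K : Type} [Field K] [Algebra ℂ K]

/-- A generic point of the curve `f = 0`. -/
structure Gen (f : P3) (η : Fin 3 → K) : Prop where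
  ker : ∀ g e, g.IsHomogeneous e → (aeval η g = 0 ↔ f ∣ g)
  top : IntermediateField.adjoin ℂ {z | ∃ i j, z = η i / η j} = ⊤

variable [IsFF K]

/-- The branches of the curve: `cen P n` is the `n`-th centre of the place `P`, `ξ q` the generic
point in the chart at `q`, `H` the divisor of lines, `E q` the divisor of branches through `q`. -/
structure Loc (η : Fin 3 → K) (H : Place K →₀ ℤ) (ξ : Node → Fin 2 → K)
    (E : Node → Place K →₀ ℤ) (cen : Place K → ℕ → Node) : Prop where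
  dep : ∀ P n, (cen P n).dep = n
  succ : ∀ P n, ∃ c, cen P (n + 1) = .step (cen P n) c ∧
    (∀ k, ξ (cen P n) k = aeval (ξ (cen P (n + 1))) (st c k)) ∧ ξ (cen P (n + 1)) (exI c) ≠ 0 ∧
    P.ord (ξ (cen P (n + 1)) (exI c)) = E (cen P n) P
  lam : ∀ P n, ∃ l : K, l ≠ 0 ∧ P.ord l = -H P ∧
    ∀ i, η i = l * aeval (ξ (cen P n)) ((cen P n).sub i)
  pos : ∀ P n, 0 < E (cen P n) P ∧ (∀ k, ξ (cen P n) k ∈ Ge P (E (cen P n) P)) ∧
    ∃ k, ξ (cen P n) k ∉ Ge P (E (cen P n) P + 1)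
  zero : ∀ P q, q ≠ cen P q.dep → E q P = 0
  uniq : ∀ (q : Node) (x : Fin 2 → K) (l : K), (∀ i, η i = l * aeval x (q.sub i)) →
    x = ξ q ∧ ∀ P, (∀ k, x k ∈ Ge P 1) → q = cen P q.dep

end ff

/-- The function field package of a plane curve. -/
structure FC (f : P3) where
  K : Type
  [fld : Field K]
  [alg : Algebra ℂ K]
  [ff : IsFF K]
  η : Fin 3 → K
  H : Place K →₀ ℤ
  ξ : Node → Fin 2 → K
  E : Node → Place K →₀ ℤ
  cen : Place K → ℕ → Node
  gen : Gen f η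
  loc : Loc η H ξ E cen

attribute [instance] FC.fld FC.alg FC.ff

/-- The divisor cut out by the class `(e, M)`. -/
def FC.D {f : P3} (c : FC f) (T : Finset Node) (e : ℕ) (M : Node → ℕ) : Place c.K →₀ ℤ :=
  (e : ℤ) • c.H - ∑ q ∈ T, (M q : ℤ) • c.E q

/-! ### Block statements -/

structure St_VAL : Prop where
  mmul : ∀ a b : P2, a ≠ 0 → b ≠ 0 → mult 0 (a * b) = mult 0 a + mult 0 b
  madd : ∀ a b : P2, a + b ≠ 0 → min (mult 0 a) (mult 0 b) ≤ mult 0 (a + b)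
  mzero : ∀ a : P2, a ≠ 0 → (mult 0 a = 0 ↔ eval 0 a ≠ 0)
  mone : ∀ a : P2, a ≠ 0 → (mult 0 a ≤ 1 ↔ eval 0 a ≠ 0 ∨ ∃ k, eval 0 (pderiv k a) ≠ 0)
  ne : ∀ (q : Node) (g : P3), NZ g → q.tot g ≠ 0 ∧ q.str g ≠ 0
  step : ∀ (p : Node) (c : Option ℂ) (g : P3), NZ g →
    aeval (st c) (p.str g) = X (exI c) ^ p.m g * (Node.step p c).str g
  fac : ∀ (q : Node) (g : P3), NZ g → ∃ u : P2, eval 0 u ≠ 0 ∧ q.tot g =
    X 0 ^ Node.lab (·.v g) (q.ex 0) * X 1 ^ Node.lab (·.v g) (q.ex 1) * u * q.str g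
  ndvd : ∀ (q : Node) (g : P3) (k : Fin 2), NZ g → q.ex k ≠ none → ¬ X k ∣ q.str g
  lab : ∀ (q : Node) (w : Node → ℕ),
    ∑ p ∈ q.prox, w p = Node.lab w (q.ex 0) + Node.lab w (q.ex 1)
  vm : ∀ (q : Node) (g : P3), NZ g → q.v g = q.m g + ∑ p ∈ q.prox, p.v g
  mul : ∀ (q : Node) (g h : P3), NZ g → NZ h → q.str (g * h) = q.str g * q.str h ∧
    q.m (g * h) = q.m g + q.m h ∧ q.v (g * h) = q.v g + q.v h
  const : ∀ (q : Node) (c : ℂ), c ≠ 0 → q.str (C c) = C c ∧ q.m (C c) = 0 ∧ q.v (C c) = 0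
  add : ∀ (q : Node) (g h : P3) (e : ℕ), g.IsHomogeneous e → h.IsHomogeneous e → g + h ≠ 0 →
    min (q.v g) (q.v h) ≤ q.v (g + h)
  irr : ∀ (q : Node) (f : P3), NZ f → Irreducible f → Irreducible (q.str f) ∨ IsUnit (q.str f)
  wvle : ∀ (M : Node → ℕ) (T : Finset Node) (g : P3), NZ g → (∀ q ∉ T, M q = 0) →
    (∀ q ∈ T, wv M q ≤ q.v g) → ∀ q, wv M q ≤ q.v g

/-- Proximity. -/
structure St_PROX : Prop where
  le : ∀ (p : Node) (g : P3) (T : Finset Node), NZ g → (∀ q ∈ T, p ∈ q.prox) →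
    ∑ q ∈ T, q.m g ≤ p.m g
  par : ∀ (p : Node) (c : Option ℂ), p ∈ (Node.step p c).prox ∧
    ∀ p' ∈ (Node.step p c).prox, p' = p ∨ p' ∈ p.prox
  cls : ∀ T : Finset Node, ∃ T', T ⊆ T' ∧ Cls T'
  chain : ∀ T T0 : Finset Node, Cls T → ∀ q, ((gTree T T0).prox q).Nonempty →
    ∃ p ∈ (gTree T T0).prox q, ∀ p' ∈ (gTree T T0).prox q, p' = p ∨ p' ∈ (gTree T T0).prox p
  two : ∀ (T T0 : Finset Node) q, ((gTree T T0).prox q).card ≤ 2
  sum : ∀ T T0 : Finset Node, Cls T → ∀ (q : T) (w : Node → ℝ),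
    ∑ p ∈ (gTree T T0).prox q, w p.1 = ∑ p ∈ q.1.prox, w p
  ee : ∀ (T T0 : Finset Node) (p q : T), p ≠ q →
    0 ≤ (gTree T T0).ip ((gTree T T0).gam (.inr p)) ((gTree T T0).gam (.inr q))
  pe : ∀ (T T0 : Finset Node) (Γ : PlC) (q : T),
    0 ≤ (gTree T T0).ip ((gTree T T0).gam (.inl Γ)) ((gTree T T0).gam (.inr q))

/-- Divisors of forms. -/
structure St_DIV : Prop where
  rep : ∀ f : P3, Irreducible f → NZ f → ∃ Γ : PlC, Associated Γ.rep f
  ndvd : ∀ Γ Γ' : PlC, Γ.rep ∣ Γ'.rep → Γ = Γ'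
  nz : ∀ f g : P3, NZ g → f ∣ g → NZ f
  deg : ∀ Γ : PlC, 1 ≤ Γ.rep.totalDegree ∧ Γ.rep.IsHomogeneous Γ.rep.totalDegree
  app : ∀ (T T0 : Finset Node) (w : Node → ℕ) (g : P3), g ≠ 0 →
    (∀ Γ : PlC, gdiv T T0 w g (.inl Γ) = multiplicity Γ.rep g) ∧
      ∀ q : T, gdiv T T0 w g (.inr q) = q.1.v g - w q.1
  cl : ∀ (T T0 : Finset Node) (w M : Node → ℕ) (g : P3) (e : ℕ), Cls T → g ≠ 0 →
    g.IsHomogeneous e → (∀ q ∈ T, w q ≤ q.v g ∧ w q = M q + ∑ p ∈ q.prox, w p) →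
    (gTree T T0).cl (toR (gdiv T T0 w g)) = gcl T T0 e M
  sec : ∀ (T T0 : Finset Node) (k : ℕ) (W : Submodule ℂ P3), Cls T → Adm T0 k W → SecAx T T0 k W

/-- Counting conditions. -/
def St_CNT : Prop := ∀ (T : Finset Node) (M : Node → ℕ) (e : ℕ) (W : Submodule ℂ P3), Cls T →
  W ≤ hom e → ∃ W' ≤ W, (∀ s ∈ W', s ≠ 0 → ∀ q ∈ T, wv M q ≤ q.v s) ∧
    2 * finrank ℂ W ≤ 2 * finrank ℂ W' + ∑ q ∈ T, M q * (M q + 1)

def St_GEN : Prop := ∀ f : P3, Irreducible f → NZ f →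
  ∃ (K : Type) (_ : Field K) (_ : Algebra ℂ K) (_ : IsFF K) (η : Fin 3 → K), Gen f η

def St_CEN : Prop := ∀ (K : Type) [Field K] [Algebra ℂ K] [IsFF K] (η : Fin 3 → K),
  IntermediateField.adjoin ℂ {z | ∃ i j, z = η i / η j} = ⊤ → ∃ H ξ E cen, Loc η H ξ E cen

def St_DEGE : Prop := ∀ (f : P3) (d : ℕ), Irreducible f → f.IsHomogeneous d → ∀ c : FC f,
  Finsupp.degree c.H = d ∧ ∀ q, Finsupp.degree (c.E q) = q.m f

structure St_ORD : Prop where
  mem : ∀ (f : P3) (c : FC f) (T : Finset Node) (M : Node → ℕ) (g : P3) (e : ℕ), Cls T →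
    g.IsHomogeneous e → (g ≠ 0 → ∀ q ∈ T, wv M q ≤ q.v g) → aeval c.η g ∈ LL (c.D T e M)
  bd : ∀ (f : P3) (c : FC f) (T : Finset Node) (P : Place c.K), Cls T →
    ∃ n, c.cen P n ∉ T ∧ (∀ j < n, c.cen P j ∈ T) ∧ ∀ j ≥ n, c.cen P j ∉ T
  eq : ∀ (f : P3) (c : FC f) (T : Finset Node) (M : Node → ℕ) (g : P3) (e : ℕ) (P : Place c.K)
    (n : ℕ), Cls T → g ≠ 0 → g.IsHomogeneous e → c.cen P n ∉ T → (∀ j < n, c.cen P j ∈ T) →
    (∀ q ∈ T, wv M q ≤ q.v g) → (c.cen P n).v g = ∑ p ∈ (c.cen P n).prox, wv M p →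
    aeval c.η g ≠ 0 ∧ P.ord (aeval c.η g) = -c.D T e M P
  van : ∀ (f : P3) (c : FC f) (P : Place c.K) (n : ℕ), NZ f →
    aeval (c.ξ (c.cen P n)) ((c.cen P n).str f) = 0 ∧ 1 ≤ (c.cen P n).m f

/-- Noether's formula. -/
structure St_NOE : Prop where
  ex : ∀ f : P3, Irreducible f → NZ f → Nonempty (FC f)
  degD : ∀ (f : P3) (d : ℕ), Irreducible f → f.IsHomogeneous d → ∀ (c : FC f) (T : Finset Node)
    (e : ℕ) (M : Node → ℕ), Finsupp.degree (c.D T e M) = e * d - ∑ q ∈ T, (M q : ℤ) * q.m f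
  wvm : ∀ (g : P3) (q : Node), NZ g → wv (·.m g) q = q.v g
  le : ∀ (f g : P3) (d e : ℕ) (T : Finset Node), Irreducible f → f.IsHomogeneous d →
    g.IsHomogeneous e → ¬ f ∣ g → ∑ q ∈ T, q.m g * q.m f ≤ e * d
  eq : ∀ (f g : P3) (d e : ℕ) (T : Finset Node), Cls T → Irreducible f → f.IsHomogeneous d →
    g ≠ 0 → g.IsHomogeneous e → (∀ q ∉ T, q.m f = 0 ∨ q.m g = 0) →
    ∑ q ∈ T, q.m g * q.m f = e * d

/-- Function fields: Clifford's theorem and the Hilbert function of a curve. -/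
structure St_CLF : Prop where
  le : ∀ (K : Type) [Field K] [Algebra ℂ K] [IsFF K] (D : Place K →₀ ℤ), 0 ≤ Finsupp.degree D →
    el D ≤ Finsupp.degree D + 1 ∧
      (el D ≤ chi K + Finsupp.degree D ∨ 2 * el D ≤ Finsupp.degree D + 2)
  gr : ∀ (K : Type) [Field K] [Algebra ℂ K] [IsFF K] (D : Place K →₀ ℤ) (A : Submodule ℂ K),
    A ≤ LL D → (∀ P : Place K, ∃ s ∈ A, s ≠ 0 ∧ P.ord s = -D P) →
    IntermediateField.adjoin ℂ {z | ∃ s ∈ A, ∃ t ∈ A, z = s / t} = ⊤ →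
    ∃ c : ℤ, ∀ n : ℕ, Finsupp.degree D * n ≤ finrank ℂ ↥(A ^ n) + c

def St_PLANE : Prop := ∀ T T0 : Finset Node, Cls T → (gTree T T0).Plane

/-- The genus of a curve that is smooth after blowing up `T`. -/
def St_HUR : Prop := ∀ (f : P3) (d : ℕ), Irreducible f → f.IsHomogeneous d → ∀ (c : FC f)
  (T : Finset Node), Cls T → (∀ q ∉ T, q.m f ≤ 1) →
  (d : ℤ) * (d - 3) - ∑ q ∈ T, (q.m f : ℤ) * (q.m f - 1) ≤ -2 * chi c.K

/-- Very general constants. -/
def St_VGD : Prop := ∀ (Z : Finset ℂ) (r : ℕ), ∃ l : Fin r → ℂ, ∀ x : Fin r → ℂ, ∃ δ : ZD ℂ,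
  (∀ z ∈ Z, δ z = 0) ∧ ∀ i, δ (l i) = x i

/-- Linear systems. -/
structure St_SYS : Prop where
  att : ∀ (W : Submodule ℂ P3) (q : Node), W ≠ ⊥ → (∃ s ∈ W, s ≠ 0 ∧ q.v s = vW W q) ∧
    ∀ s ∈ W, s ≠ 0 → vW W q ≤ q.v s
  rel : ∀ (W : Submodule ℂ P3) (e : ℕ) (q : Node), W ≤ hom e → W ≠ ⊥ →
    vW W q = MW W q + ∑ p ∈ q.prox, vW W p ∧ wv (MW W) q = vW W q
  dec : ∀ (W : Submodule ℂ P3) (e : ℕ), W ≤ hom e → W ≠ ⊥ → ∃ g W' e', Dec W g W' e'
  bir : ∀ W g W' e, Dec W g W' e → (Bir W → Bir W') ∧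
    ∀ n, finrank ℂ ↥(W ^ n) = finrank ℂ ↥(W' ^ n)
  nef : ∀ (T T0 : Finset Node) W e, Cls T → Mob W e → (gTree T T0).Nef (gcl T T0 e (MW W))
  res : ∀ (T : Finset Node) (ι : Type) [Fintype ι] (W : ι → Submodule ℂ P3) (e : ι → ℕ),
    (∀ i, Mob (W i) (e i)) → ∃ T', T ⊆ T' ∧ Cls T' ∧ ∀ i, Res T' (W i)
  mov : ∀ (T T0 : Finset Node) (k : ℕ) (W : Submodule ℂ P3) (h : SecAx T T0 k W)
    (U : Submodule ℂ W) g W' e, Cls T → Adm T0 k W → Dec (U.map W.subtype) g W' e →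
    (gSec h).mov U = gcl T T0 e (MW W')

/-- Bertini's theorem. -/
def St_VG : Prop := ∀ (T : Finset Node) (W : Submodule ℂ P3) (e : ℕ) (Θ : P3), Cls T → Mob W e →
  Res T W → Θ ≠ 0 → ∃ F, Memb T W Θ F

def St_IRR : Prop := ∀ (T T0 : Finset Node) (W : Submodule ℂ P3) (e : ℕ) (Θ F : P3), Cls T →
  Mob W e → Memb T W Θ F → (0 < (gTree T T0).sq (gcl T T0 e (MW W)) → Irreducible F) ∧
    ((gTree T T0).sq (gcl T T0 e (MW W)) = 0 → 1 ≤ e → ∃ Γ : PlC,
      (gTree T T0).ip (gcl T T0 e (MW W)) ((gTree T T0).gam (.inl Γ)) = 0 ∧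
        0 ≤ (gTree T T0).sq ((gTree T T0).gam (.inl Γ)))

def St_G1P : Prop := ∀ (T T0 : Finset Node) (W : Submodule ℂ P3) (e : ℕ), Cls T → Mob W e →
  Res T W → 0 < (gTree T T0).sq (gcl T T0 e (MW W)) →
  (finrank ℂ W : ℝ) ≤ (gTree T T0).sq (gcl T T0 e (MW W)) / 2 +
    max 2 (1 + (gTree T T0).ip (gcl T T0 e (MW W)) (gTree T T0).aK / 2)

def St_G3P : Prop := ∀ (T T0 : Finset Node) (W : Submodule ℂ P3) (e : ℕ), Cls T → Mob W e →
  Res T W → Bir W → ∃ c : ℝ, ∀ n : ℕ,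
    (gTree T T0).sq (gcl T T0 e (MW W)) * n ^ 2 / 2 ≤ finrank ℂ ↥(W ^ n) + c * n

def St_COLG : Prop := ∀ (T T0 : Finset Node) (k : ℕ) (W : Submodule ℂ P3) (h : SecAx T T0 k W),
  Cls T → Adm T0 k W → (gSec h).Col

def St_RRG : Prop := ∀ (T T0 : Finset Node) (k : ℕ) (W : Submodule ℂ P3) (h : SecAx T T0 k W),
  Cls T → T0 ⊆ T → Adm T0 k W → (∀ T', Cls T' → T0 ⊆ T' → (gTree T' T0).DP) → (gSec h).RR

/-- The ideal of a parametrised surface. -/
def St_KER : Prop := ∀ (f Θ : P4) (c : Fin 4 → P3) (a : Fin 3 → P4), Irreducible f →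
  (∀ i, (c i).IsHomogeneous 3) → f.IsHomogeneous 3 → aeval c f = 0 → ¬ f ∣ Θ →
  (∀ i, f ∣ aeval a (c i) - Θ * X i) → ∀ P : P4, aeval c P = 0 ↔ f ∣ P

def St_MODN : Prop := ∀ g : P3, g.IsHomogeneous 3 → ¬ Deg2 (nodal g) → eval ![0, 0, 1] g ≠ 0 →
  ∃ c T0, Model (nodal g) c T0

def St_MODS : Prop := ∀ a b : Fin 5 → ℂ, Smooth4 (skew a b) → Irreducible (skew a b) →
  ∃ c T0, Model (skew a b) c T0

/-- The space spanned by the `b j (c)` of weight at least `n`. -/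
def spU {N : ℕ} (c : Fin 4 → P3) (b : Fin N → P4) (r : Fin N → ℕ) (n : ℕ) : Submodule ℂ P3 :=
  Submodule.span ℂ {y | ∃ j, n ≤ r j ∧ y = aeval c (b j)}

/-- The weight bounds the volume integral. -/
def St_G3L : Prop := ∀ (f : P4) (c : Fin 4 → P3) (T0 : Finset Node) (k N : ℕ) (b : Fin N → P4)
  (r : Fin N → ℕ) (E : ℤ) (t : ℕ), f.IsHomogeneous 3 → Model f c T0 → 2 ≤ k → IsBasisMod f k b →
  (∀ j, r j ≤ t) → (∃ j, r j = t) → Dif3 (wsum (fun j => mk4 f (b j)) r) E →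
  ∀ ε : ℝ, 0 < ε → ∃ T, Cls T ∧ T0 ⊆ T ∧ ∀ h : SecAx T T0 k (spU c b r 0),
    ∫ x in (0 : ℝ)..t, (gTree T T0).sq ((gSec h).Pt
      (fun n => (spU c b r n).comap (spU c b r 0).subtype) 0 t x) ≤ E / 3 + ε

/-- The main estimate for surfaces with a model. -/
def St_ESTM : Prop := ∃ k0, ∀ k ≥ k0, ∀ (f : P4) (c : Fin 4 → P3) (T0 : Finset Node) (N : ℕ)
  (b : Fin N → P4) (r : Fin N → ℕ) (E : ℤ), f.IsHomogeneous 3 → Model f c T0 → IsBasisMod f k b →
  (∃ j, r j = 0) → (∃ j, r j ≠ 0) → Dif3 (wsum (fun j => mk4 f (b j)) r) E →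
  9 * (k : ℤ) ^ 2 * ∑ j, (r j : ℤ) < N * E

end Pool.Agent.Lib.MP_a25055_ag

theorem Pool.Agent.Lib.MP_a25055_ag.Geo.rlz0 : True := by
  have := @Pool.Agent.Lib.MP_a25055_ag.Node.sub.eq_def
  trivial

theorem Pool.Agent.Lib.MP_a25055_ag.Geo.rlz1 : True := by
  have := @Pool.Agent.Lib.MP_a25055_ag.Node.str.eq_def
  trivial
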