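import Pool.Agent.Lib.MP_a25055_ag.Defs

/-! Internal definitions and block statements, part I: invariant theory, Chow forms, cubics. -/

open MvPolynomial Filter Topology Module

noncomputable section

namespace Pool.Agent.Lib.MP_a25055_ag

abbrev P4 : Type := MvPolynomial (Fin 4) ℂ
abbrev PP (m N : ℕ) : Type := MvPolynomial (Fin m × Fin N) ℂ
abbrev SL (N : ℕ) : Type := Matrix.SpecialLinearGroup (Fin N) ℂ
abbrev Mat (N : ℕ) : Type := Matrix (Fin N) (Fin N) ℂ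

/-- The action on polynomials. -/
def act {m N : ℕ} (g : Mat N) : PP m N →ₐ[ℂ] PP m N :=
  aeval fun a => ∑ l, C (g l a.2) * X (a.1, l)

/-- Substitution `x ↦ x M` in quaternary forms. -/
def sub4 (M : Mat 4) : P4 →ₐ[ℂ] P4 := aeval fun j => ∑ l, C (M l j) * X l

/-- A quaternary form as a polynomial on one vector. -/
def lift4 (f : P4) : PP 1 4 := rename (Prod.mk (0 : Fin 1)) f

/-- Weight of a monomial. -/
def wt {m N : ℕ} (r : Fin N → ℝ) (a : Fin m × Fin N →₀ ℕ) : ℝ := ∑ c, (a c : ℝ) * r c.2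

/-- Positive diagonal matrices. -/
def dg {N : ℕ} (r : Fin N → ℝ) : Mat N := Matrix.diagonal fun j => (Real.exp (r j) : ℂ)

/-- Fischer inner product. -/
def fis {m N : ℕ} (p q : PP m N) : ℂ :=
  ∑ a ∈ p.support, (∏ c, ((a c).factorial : ℂ)) * coeff a p * (starRingEnd ℂ) (coeff a q)

/-- Fischer norm squared. -/
def nrm {m N : ℕ} (p : PP m N) : ℝ :=
  ∑ a ∈ p.support, (∏ c, ((a c).factorial : ℝ)) * ‖coeff a p‖ ^ 2

/-- Minimal vectors. -/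
def Minimal {m N : ℕ} (p : PP m N) : Prop := ∀ g : SL N, nrm p ≤ nrm (act (g : Mat N) p)

lemma eval_act {m N : ℕ} (g : Mat N) (p : PP m N) (H : Fin m × Fin N → ℂ) :
    eval H (act g p) = moved p g H := by
  unfold act moved
  induction p using MvPolynomial.induction_on with
  | C c => simp
  | add p q hp hq => simp only [map_add, hp, hq]
  | mul_X p a hp => rw [map_mul, map_mul, map_mul, hp]; simp [mul_comm]

lemma moved_one {m N : ℕ} (p : PP m N) : moved p 1 = fun H => eval H p := by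
  funext H
  simp [moved, Matrix.one_apply]

lemma moved_eq {m N : ℕ} (p : PP m N) (g : Mat N) : moved p g = moved (act g p) 1 := by
  funext H
  rw [moved_one]
  exact (eval_act g p H).symm

lemma moved_inj {m N : ℕ} {p q : PP m N} (h : moved p 1 = moved q 1) : p = q := by
  rw [moved_one, moved_one] at h
  exact MvPolynomial.funext fun H => congrFun h H

lemma act_act {m N : ℕ} (g g' : Mat N) (p : PP m N) : act g (act g' p) = act (g * g') p := by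
  refine MvPolynomial.funext fun H => ?_
  rw [eval_act, eval_act]
  unfold moved
  rw [eval_act]
  unfold moved
  congr 2
  funext a
  simp only [Matrix.mul_apply, Finset.mul_sum, Finset.sum_mul, mul_assoc]
  exact Finset.sum_comm

lemma act_one {m N : ℕ} (p : PP m N) : act 1 p = p :=
  moved_inj (moved_eq p 1).symm

lemma eval_sub4 (M : Mat 4) (f : P4) (x : Fin 4 → ℂ) :
    eval x (sub4 M f) = eval (Matrix.vecMul x M) f := by
  unfold sub4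
  induction f using MvPolynomial.induction_on with
  | C c => simp
  | add p q hp hq => simp only [map_add, hp, hq]
  | mul_X p a hp =>
    rw [map_mul, map_mul, map_mul, hp]; simp [mul_comm, Matrix.vecMul, dotProduct]

lemma sub4_sub4 (M M' : Mat 4) (f : P4) : sub4 M (sub4 M' f) = sub4 (M * M') f :=
  MvPolynomial.funext fun x => by simp only [eval_sub4, Matrix.vecMul_vecMul]

lemma sub4_one (f : P4) : sub4 1 f = f :=
  MvPolynomial.funext fun x => by rw [eval_sub4, Matrix.vecMul_one]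

lemma lift4_sub4 (M : Mat 4) (f : P4) : lift4 (sub4 M f) = act M (lift4 f) := by
  refine MvPolynomial.funext fun H => ?_
  rw [eval_act]
  unfold moved lift4
  rw [eval_rename, eval_rename, eval_sub4]
  rfl

lemma coeff_act_dg {m N : ℕ} (r : Fin N → ℝ) (p : PP m N) (a : Fin m × Fin N →₀ ℕ) :
    coeff a (act (dg r) p) = (Real.exp (wt r a) : ℂ) * coeff a p := by
  classical
  have h1 : ∀ c : Fin m × Fin N, (∑ l, C (dg r l c.2) * X (c.1, l) : PP m N) =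
      C (Real.exp (r c.2) : ℂ) * X c := fun c => by
    rw [Finset.sum_eq_single c.2]
    · simp [dg]
    · intro l _ hl; simp [dg, Matrix.diagonal_apply_ne _ hl]
    · simp
  have h2 : ∀ (s : Fin m × Fin N →₀ ℕ) (z : ℂ), act (dg r) (monomial s z) =
      monomial s ((Real.exp (wt r s) : ℂ) * z) := fun s z => by
    unfold act
    rw [aeval_monomial, monomial_eq, Finsupp.prod_fintype _ _ (by simp),
      Finsupp.prod_fintype _ _ (by simp)]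
    simp only [h1, mul_pow, Finset.prod_mul_distrib, wt, Real.exp_sum, Complex.ofReal_prod,
      ← map_pow, ← map_prod, algebraMap_eq, map_mul]
    have : ∀ c : Fin m × Fin N, (Real.exp ((s c : ℝ) * r c.2) : ℂ) = (Real.exp (r c.2) : ℂ) ^ s c :=
      fun c => by rw [Real.exp_nat_mul, Complex.ofReal_pow]
    simp only [this]
    ring
  induction p using MvPolynomial.induction_on' with
  | monomial s z =>
    rw [h2, coeff_monomial, coeff_monomial]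
    split_ifs with h
    · rw [h]
    · simp
  | add p q hp hq => rw [map_add, coeff_add, coeff_add, hp, hq, mul_add]

/-! ### Invariant theory -/

/-- Invariance of the three notions. -/
structure St_INV : Prop where
  act : ∀ (s : Fin 3) {m N : ℕ} (p : PP m N) (g : Mat N), g.det ≠ 0 → (Git s (act g p) ↔ Git s p)
  smul : ∀ (s : Fin 3) {m N : ℕ} (p : PP m N) (c : ℂ), c ≠ 0 → (Git s (C c * p) ↔ Git s p)
  semi : ∀ {m N : ℕ} (p : PP m N), Poly p → Semi p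
  clos : ∀ {m N : ℕ} (p : PP m N) (F : (Fin m × Fin N → ℂ) → ℂ), F ∈ closure (orb p) ↔
    ∃ q : PP m N, F = moved q 1 ∧ ∃ g : ℕ → SL N,
      ∀ a, Tendsto (fun n => coeff a (Pool.Agent.Lib.MP_a25055_ag.act (g n : Mat N) p)) atTop
        (𝓝 (coeff a q))

def St_SVD : Prop := ∀ (N : ℕ) (g : SL N), ∃ (u u' : SL N) (r : Fin N → ℝ),
  (u : Mat N) ∈ Matrix.unitaryGroup (Fin N) ℂ ∧ (u' : Mat N) ∈ Matrix.unitaryGroup (Fin N) ℂ ∧
    ∑ j, r j = 0 ∧ (g : Mat N) = (u : Mat N) * dg r * (u' : Mat N)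

def St_RAT : Prop := ∀ (N : ℕ) (A : Finset (Fin N → ℤ)) (r : Fin N → ℝ), ∃ r' : Fin N → ℤ,
  ∀ a ∈ A, SignType.sign (∑ j, a j * r' j) = SignType.sign (∑ j, (a j : ℝ) * r j)

def St_FIN : Prop := ∀ (ι : Type) [Fintype ι] (S : Set (MvPolynomial ι ℂ)),
  Bornology.IsBounded {x : ι → ℂ | ∀ p ∈ S, eval x p = 0} → {x : ι → ℂ | ∀ p ∈ S, eval x p = 0}.Finite

def St_HM : Prop := ∀ {m N : ℕ} (p : PP m N), p ≠ 0 →
  (∀ (g : SL N) (r : Fin N → ℤ), ∑ j, r j = 0 → r ≠ 0 →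
    ∃ a ∈ (act (g : Mat N) p).support, 0 < wt (fun j => (r j : ℝ)) a) → Stab p

structure St_NULL : Prop where
  neg : ∀ {m N : ℕ} (p : PP m N) (r : Fin N → ℝ), ∑ j, r j = 0 →
    (∀ a ∈ p.support, wt r a < 0) → ¬ Semi p
  lim : ∀ {m N : ℕ} (p q : PP m N), moved q 1 ∈ closure (orb p) → Semi q → Semi p

def St_KN1 : Prop := ∀ {m N : ℕ} (u : Mat N), u ∈ Matrix.unitaryGroup (Fin N) ℂ →
  ∀ p q : PP m N, fis (act u p) (act u q) = fis p q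

def St_KN2 : Prop := ∀ {m N : ℕ} (p : PP m N), Minimal p → IsClosed (orb p)

def St_KN3 : Prop := ∀ {m N : ℕ} (p : PP m N) (χ : Fin N → ℝ) (c : ℝ), Function.Injective χ →
  (∀ a ∈ p.support, wt χ a = c) →
  (∀ r : Fin N → ℝ, ∑ j, r j = 0 → (∀ a ∈ p.support, wt r a ≤ 0) → ∀ a ∈ p.support, wt r a = 0) →
  ∃ r : Fin N → ℝ, ∑ j, r j = 0 ∧ Minimal (act (dg r) p)

def St_POLY : Prop := ∀ {m N : ℕ} (p : PP m N) (χ : Fin N → ℝ) (c : ℝ), p ≠ 0 →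
  Function.Injective χ → (∀ a ∈ p.support, wt χ a = c) →
  (∀ r : Fin N → ℤ, ∑ j, r j = 0 → (∀ a ∈ p.support, wt (fun j => (r j : ℝ)) a ≤ 0) →
    ∀ a ∈ p.support, wt (fun j => (r j : ℝ)) a = 0) → Poly p

/-! ### Torsion of four-term complexes -/

section tor
variable {A : Type} [CommRing A] {K0 K1 K2 K3 : Type} [Fintype K0] [Fintype K1] [Fintype K2]
  [Fintype K3] [DecidableEq K0] [DecidableEq K1] [DecidableEq K2] [DecidableEq K3]

/-- `τ` is the torsion of the contractible complex `d1, d2, d3`. -/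
def IsTor (σ : K1 ⊕ K3 ≃ K0 ⊕ K2) (d1 : Matrix K0 K1 A) (d2 : Matrix K1 K2 A) (d3 : Matrix K2 K3 A)
    (τ : A) : Prop :=
  d1 * d2 = 0 ∧ d2 * d3 = 0 ∧ ∃ (s0 : Matrix K1 K0 A) (s1 : Matrix K2 K1 A) (s2 : Matrix K3 K2 A),
    d1 * s0 = 1 ∧ d2 * s1 + s0 * d1 = 1 ∧ d3 * s2 + s1 * d2 = 1 ∧ s2 * d3 = 1 ∧
      τ = ((Matrix.fromBlocks d1 0 s1 d3).submatrix id σ.symm).det

/-- The homology of the complex is killed by `δ`. -/
def Killed (δ : A) (d1 : Matrix K0 K1 A) (d2 : Matrix K1 K2 A) (d3 : Matrix K2 K3 A) : Prop :=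
  d1 * d2 = 0 ∧ d2 * d3 = 0 ∧ (∀ y, ∃ x, d1.mulVec x = δ • y) ∧
    (∀ x, d1.mulVec x = 0 → ∃ y, d2.mulVec y = δ • x) ∧
    (∀ x, d2.mulVec x = 0 → ∃ y, d3.mulVec y = δ • x) ∧ ∀ x, d3.mulVec x = 0 → δ • x = 0

end tor

section kos
variable {A : Type} [CommRing A] {I J : Type}

/-- First Koszul differential. -/
def kos1 (X : Fin 3 → Matrix I J A) : Matrix I (Fin 3 × J) A := fun c a => X a.1 c a.2

/-- Second Koszul differential (cross product). -/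
def kos2 (Y : Fin 3 → Matrix I J A) : Matrix (Fin 3 × I) (Fin 3 × J) A := fun c a =>
  if a.1 = c.1 + 2 then Y (c.1 + 1) c.2 a.2 else if a.1 = c.1 + 1 then -Y (c.1 + 2) c.2 a.2 else 0

/-- Third Koszul differential. -/
def kos3 (Z : Fin 3 → Matrix I J A) : Matrix (Fin 3 × I) J A := fun c a => Z c.1 c.2 a

/-- Multiplication matrices of three sections with coefficients `h`. -/
def mulM [Algebra ℂ A] {N : ℕ} (μ : Fin N → Matrix I J ℂ) (h : Fin 3 × Fin N → A) (i : Fin 3) :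
    Matrix I J A := fun c a => ∑ j, μ j c a • h (i, j)

end kos

structure St_K1 : Prop where
  uniq : ∀ {A : Type} [CommRing A] {K0 K1 K2 K3 : Type} [Fintype K0] [Fintype K1] [Fintype K2]
    [Fintype K3] [DecidableEq K0] [DecidableEq K1] [DecidableEq K2] [DecidableEq K3]
    (σ : K1 ⊕ K3 ≃ K0 ⊕ K2) (d1 : Matrix K0 K1 A) (d2 : Matrix K1 K2 A) (d3 : Matrix K2 K3 A)
    (τ : A), IsTor σ d1 d2 d3 τ → IsUnit τ ∧ ∀ τ', IsTor σ d1 d2 d3 τ' → τ' = τ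
  map : ∀ {A F : Type} [CommRing A] [CommRing F] (φ : A →+* F) {K0 K1 K2 K3 : Type} [Fintype K0]
    [Fintype K1] [Fintype K2] [Fintype K3] [DecidableEq K0] [DecidableEq K1] [DecidableEq K2]
    [DecidableEq K3] (σ : K1 ⊕ K3 ≃ K0 ⊕ K2) (d1 : Matrix K0 K1 A) (d2 : Matrix K1 K2 A)
    (d3 : Matrix K2 K3 A) (τ : A), IsTor σ d1 d2 d3 τ →
      IsTor σ (d1.map φ) (d2.map φ) (d3.map φ) (φ τ)
  change : ∀ {A : Type} [CommRing A] {K0 K1 K2 K3 : Type} [Fintype K0] [Fintype K1] [Fintype K2]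
    [Fintype K3] [DecidableEq K0] [DecidableEq K1] [DecidableEq K2] [DecidableEq K3]
    (σ : K1 ⊕ K3 ≃ K0 ⊕ K2) (d1 d1' : Matrix K0 K1 A) (d2 d2' : Matrix K1 K2 A)
    (d3 d3' : Matrix K2 K3 A) (τ τ' : A) (P0 : Matrix K0 K0 A) (P1 : Matrix K1 K1 A)
    (P2 : Matrix K2 K2 A) (P3 : Matrix K3 K3 A), IsUnit P0.det → IsUnit P1.det → IsUnit P2.det →
    IsUnit P3.det → d1 * P1 = P0 * d1' → d2 * P2 = P1 * d2' → d3 * P3 = P2 * d3' →
    IsTor σ d1 d2 d3 τ → IsTor σ d1' d2' d3' τ' → τ * P1.det * P3.det = τ' * P0.det * P2.det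
  ex : ∀ {A F : Type} [CommRing A] [CommRing F] (φ : A →+* F) {K0 K1 K2 K3 : Type} [Fintype K0]
    [Fintype K1] [Fintype K2] [Fintype K3] [DecidableEq K0] [DecidableEq K1] [DecidableEq K2]
    [DecidableEq K3] (σ : K1 ⊕ K3 ≃ K0 ⊕ K2) (d1 : Matrix K0 K1 A) (d2 : Matrix K1 K2 A)
    (d3 : Matrix K2 K3 A) (δ : A), Killed δ d1 d2 d3 → IsUnit (φ δ) →
      ∃ τ, IsTor σ (d1.map φ) (d2.map φ) (d3.map φ) τ

/-- `e` is a basis of the submodule `W`. -/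
def BasisOf (O : Type) {C I : Type} [CommRing O] [AddCommGroup C] [Module O C] (e : I → C)
    (W : Submodule O C) : Prop := LinearIndependent O e ∧ Submodule.span O (Set.range e) = W

/-- `M` is the matrix of multiplication by `y`. -/
def MulMat {O C I J : Type} [CommRing O] [CommRing C] [Algebra O C] [Fintype I] (y : C)
    (e' : I → C) (e : J → C) (M : Matrix I J O) : Prop := ∀ a, y * e a = ∑ c, M c a • e' c

def St_K2 : Prop := ∀ (O C : Type) [CommRing O] [IsNoetherianRing O] [CommRing C] [Algebra O C]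
  (Λ : Submodule O C), Λ.FG → ∀ (H : Fin 3 → C), (∀ i, H i ∈ Λ) → ∀ (δ : O) (n0 : ℕ),
  (∀ y ∈ Λ ^ (n0 + 1), ∃ x : Fin 3 → C, (∀ i, x i ∈ Λ ^ n0) ∧ δ • y = ∑ i, H i * x i) →
  ∃ n1, ∀ n ≥ n1, ∀ (I0 I1 I2 I3 : Type) [Fintype I0] [Fintype I1] [Fintype I2] [Fintype I3]
    (e0 : I0 → C) (e1 : I1 → C) (e2 : I2 → C) (e3 : I3 → C), BasisOf O e0 (Λ ^ (n + 3)) →
    BasisOf O e1 (Λ ^ (n + 2)) → BasisOf O e2 (Λ ^ (n + 1)) → BasisOf O e3 (Λ ^ n) →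
    ∀ (X : Fin 3 → Matrix I0 I1 O) (Y : Fin 3 → Matrix I1 I2 O) (Z : Fin 3 → Matrix I2 I3 O),
    (∀ i, MulMat (H i) e0 e1 (X i)) → (∀ i, MulMat (H i) e1 e2 (Y i)) →
    (∀ i, MulMat (H i) e2 e3 (Z i)) → Killed δ (kos1 X) (kos2 Y) (kos3 Z)

def St_HS : Prop := ∀ (C : Type) [CommRing C] [Algebra ℂ C] (V W : Submodule ℂ C), V.FG → W ≤ V →
  (∃ c : ℕ, ∀ n, finrank ℂ ↥(V ^ n) ≤ c * (n + 1) ^ 2) → (∃ n0, V ^ (n0 + 1) ≤ W * V ^ n0) →
  ∃ H : Fin 3 → C, (∀ i, H i ∈ W) ∧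
    ∃ n1, V ^ (n1 + 1) ≤ Submodule.span ℂ (Set.range H) * V ^ n1

/-! ### Chow forms -/

abbrev Q4 (g : P4) : Type := P4 ⧸ Ideal.span {g}

/-- Reduction modulo `g`. -/
def mk4 (g : P4) : P4 →ₐ[ℂ] Q4 g := Ideal.Quotient.mkₐ ℂ _

/-- The degree `m` part of the quotient. -/
def degQ (g : P4) (m : ℕ) : Submodule ℂ (Q4 g) :=
  (homogeneousSubmodule (Fin 4) ℂ m).map (mk4 g).toLinearMap

/-- The forms `b` span the degree `k` part modulo `g`. -/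
def Spans (g : P4) (k : ℕ) {N : ℕ} (b : Fin N → P4) : Prop :=
  (∀ j, (b j).IsHomogeneous k) ∧
    ∀ p : P4, p.IsHomogeneous k → ∃ c : Fin N → ℂ, g ∣ p - ∑ j, c j • b j

/-- The incidence set. -/
def Inc (g : P4) {N : ℕ} (b : Fin N → P4) : Set (Fin 3 × Fin N → ℂ) :=
  {H | ∃ x : Fin 4 → ℂ, x ≠ 0 ∧ eval x g = 0 ∧ ∀ i, ∑ j, H (i, j) * eval x (b j) = 0}

/-- The filtration generated in degree `n` by weights `r` on generators `b`. -/
def Fil {A : Type} [CommRing A] [Algebra ℂ A] {N : ℕ} (b : Fin N → A) (r : Fin N → ℕ) (n s : ℕ) :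
    Submodule ℂ A :=
  Submodule.span ℂ {y | ∃ j : Fin n → Fin N, s ≤ ∑ l, r (j l) ∧ y = ∏ l, b (j l)}

/-- Total weight in degree `n`. -/
def wsum {A : Type} [CommRing A] [Algebra ℂ A] {N : ℕ} (b : Fin N → A) (r : Fin N → ℕ) (n : ℕ) :
    ℕ := ∑ s ∈ Finset.Icc 1 (n * ∑ j, r j), finrank ℂ (Fil b r n s)

/-- The third difference is eventually equal to `e`. -/
def Dif3 (w : ℕ → ℕ) (e : ℤ) : Prop :=
  ∃ n0, ∀ n ≥ n0, (w (n + 3) : ℤ) - 3 * w (n + 2) + 3 * w (n + 1) - w n = e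

structure St_HF : Prop where
  rank : ∀ (g : P4) (d m : ℕ), g ≠ 0 → g.IsHomogeneous d →
    finrank ℂ (degQ g (m + d)) + (m + 3).choose 3 = (m + d + 3).choose 3
  small : ∀ (g : P4) (d m : ℕ), g ≠ 0 → g.IsHomogeneous d → m < d →
    finrank ℂ (degQ g m) = (m + 3).choose 3
  pow : ∀ (g : P4) (k N : ℕ) (b : Fin N → P4), Spans g k b → ∀ n,
    Submodule.span ℂ (Set.range fun j => mk4 g (b j)) ^ n = degQ g (n * k) ∧
      Fil (fun j => mk4 g (b j)) 0 n 0 = degQ g (n * k)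
  card : ∀ (f : P4) (k N : ℕ) (b : Fin N → P4), f ≠ 0 → f.IsHomogeneous 3 → 1 ≤ k →
    IsBasisMod f k b → 2 * N = 3 * k ^ 2 + 3 * k + 2
  asym : ∀ (w : ℕ → ℕ) (e : ℤ), Dif3 w e →
    Tendsto (fun n : ℕ => (w n : ℝ) / n ^ 3) atTop (𝓝 (e / 6))
  fac : ∀ f g : P4, ∀ d, f ≠ 0 → f.IsHomogeneous d → g ∣ f → ∃ e, g.IsHomogeneous e

structure St_ZP : Prop where
  prime : ∀ (g : P4) (d k N : ℕ) (b : Fin N → P4), Irreducible g → g.IsHomogeneous d → 1 ≤ k →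
    Spans g k b → ∀ p q : PP 3 N, (∀ H ∈ Inc g b, eval H (p * q) = 0) →
      (∀ H ∈ Inc g b, eval H p = 0) ∨ ∀ H ∈ Inc g b, eval H q = 0
  surj : ∀ (g : P4) (d k N : ℕ) (b : Fin N → P4), g.IsHomogeneous d → 1 ≤ k → Spans g k b →
    ∀ H : Fin 3 × Fin N → ℂ, H ∉ Inc g b ↔ ∃ n, degQ g ((n + 1) * k) ≤
      Submodule.span ℂ (Set.range fun i => mk4 g (∑ j, H (i, j) • b j)) * degQ g (n * k)
  minors : ∀ (g : P4) (d k N : ℕ) (b : Fin N → P4), g.IsHomogeneous d → 1 ≤ k → Spans g k b →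
    ∃ n0, ∀ (I J : Type) [Fintype I] [Fintype J] [DecidableEq I] (e' : I → Q4 g) (e : J → Q4 g),
      BasisOf ℂ e' (degQ g ((n0 + 1) * k)) → BasisOf ℂ e (degQ g (n0 * k)) →
      ∀ μ : Fin N → Matrix I J ℂ, (∀ j, MulMat (mk4 g (b j)) e' e (μ j)) →
      ∃ S : Finset (PP 3 N), (∀ δ ∈ S, (∀ H ∈ Inc g b, eval H δ = 0) ∧
        ∃ s : Matrix (Fin 3 × J) I (PP 3 N), kos1 (mulM μ X) * s = δ • (1 : Matrix I I (PP 3 N))) ∧
        ∀ H ∉ Inc g b, ∃ δ ∈ S, eval H δ ≠ 0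

structure St_DEG : Prop where
  uniq : ∀ (g : P4) (N : ℕ) (b : Fin N → P4) (R R' : PP 3 N), IsChowIrr g b R → IsChowIrr g b R' →
    ∃ c : ℂ, c ≠ 0 ∧ R' = C c * R
  deg : ∀ (g : P4) (d k N : ℕ) (b : Fin N → P4) (R : PP 3 N), Irreducible g → g.IsHomogeneous d →
    1 ≤ k → Spans g k b → IsChowIrr g b R → ∃ e, 3 * d * k ^ 2 ≤ e ∧ R.IsHomogeneous e

def St_CT : Prop := ∀ (g : P4) (d k N : ℕ) (b : Fin N → P4), Irreducible g → g.IsHomogeneous d →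
  1 ≤ k → Spans g k b → ∃ R : PP 3 N, IsChowIrr g b R ∧ R.IsHomogeneous (3 * d * k ^ 2) ∧
  ∃ n1, ∀ n ≥ n1, ∀ (I0 I1 I2 I3 : Type) [Fintype I0] [Fintype I1] [Fintype I2] [Fintype I3]
    [DecidableEq I0] [DecidableEq I1] [DecidableEq I2] [DecidableEq I3]
    (e0 : I0 → Q4 g) (e1 : I1 → Q4 g) (e2 : I2 → Q4 g) (e3 : I3 → Q4 g),
    BasisOf ℂ e0 (degQ g ((n + 3) * k)) → BasisOf ℂ e1 (degQ g ((n + 2) * k)) →
    BasisOf ℂ e2 (degQ g ((n + 1) * k)) → BasisOf ℂ e3 (degQ g (n * k)) →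
    ∀ (μ0 : Fin N → Matrix I0 I1 ℂ) (μ1 : Fin N → Matrix I1 I2 ℂ) (μ2 : Fin N → Matrix I2 I3 ℂ),
    (∀ j, MulMat (mk4 g (b j)) e0 e1 (μ0 j)) → (∀ j, MulMat (mk4 g (b j)) e1 e2 (μ1 j)) →
    (∀ j, MulMat (mk4 g (b j)) e2 e3 (μ2 j)) →
    ∃ (σ : (Fin 3 × I1) ⊕ I3 ≃ I0 ⊕ (Fin 3 × I2)) (c : ℂ), c ≠ 0 ∧
      ∀ (F : Type) [Field F] [Algebra ℂ F] (h : Fin 3 × Fin N → F), aeval h R ≠ 0 →
        IsTor σ (kos1 (mulM μ0 h)) (kos2 (mulM μ1 h)) (kos3 (mulM μ2 h)) (c • aeval h R)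

def St_CW : Prop := ∀ (g : P4) (d k N : ℕ) (b : Fin N → P4) (R : PP 3 N) (r : Fin N → ℕ),
  Irreducible g → g.IsHomogeneous d → 1 ≤ k → Spans g k b → IsChowIrr g b R →
  R.IsHomogeneous (3 * d * k ^ 2) ∧
    Dif3 (wsum (fun j => mk4 g (b j)) r) (weightedTotalDegree (fun c => r c.2) R : ℕ)

/-- The notion `s` holds for all bases and Chow forms at level `k`. -/
def ChowAll (s : Fin 3) (f : P4) (k : ℕ) : Prop :=
  ∀ (N : ℕ) (b : Fin N → P4) (R : PP 3 N), IsBasisMod f k b → IsChow f b R → Git s R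

structure St_BC : Prop where
  ex : ∀ (f : P4) (k N : ℕ) (b : Fin N → P4), f ≠ 0 → f.IsHomogeneous 3 → 1 ≤ k →
    IsBasisMod f k b → ∃ R, IsChow f b R
  exb : ∀ (f : P4) (k : ℕ), ∃ (N : ℕ) (b : Fin N → P4), IsBasisMod f k b
  all : ∀ (s : Fin 3) (f : P4) (k : ℕ), f ≠ 0 → f.IsHomogeneous 3 → 1 ≤ k →
    (ChowAt s f k ↔ ChowAll s f k)
  irr : ∀ (f : P4) (N : ℕ) (b : Fin N → P4) (R : PP 3 N), Irreducible f →
    (IsChow f b R ↔ IsChowIrr f b R)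
  gl4 : ∀ (s : Fin 3) (f : P4) (k : ℕ) (M : Mat 4), M.det ≠ 0 →
    (ChowAt s (sub4 M f) k ↔ ChowAt s f k)
  glN : ∀ (f : P4) (k N : ℕ) (b : Fin N → P4) (R : PP 3 N) (g : Mat N), g.det ≠ 0 →
    IsBasisMod f k b → IsChowIrr f b R → IsBasisMod f k (fun l => ∑ j, g l j • b j) ∧
      IsChowIrr f (fun l => ∑ j, g l j • b j) (act g R)

/-! ### Cubic forms -/

/-- The cubic surface with three `A₂` points. -/
def f0 : P4 := X 0 * X 1 * X 3 + X 2 ^ 3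

/-- There is a singular point whose tangent cone is a product of two linear forms. -/
def Deg2 (f : P4) : Prop := ∃ x : Fin 4 → ℂ, x ≠ 0 ∧ ∃ l l' : (Fin 4 → ℂ) →ₗ[ℂ] ℂ,
  ∀ (s : ℂ) (v : Fin 4 → ℂ), eval (s • x + v) f = s * l v * l' v + eval v f

/-- Destabilised by a diagonal one-parameter subgroup. -/
def Unst (f : P4) : Prop :=
  ∃ w : Fin 4 → ℕ, ∀ a ∈ f.support, 3 * ∑ i, w i < 4 * ∑ i, a i * w i

/-- Degenerates to `f0` under the weights `(1,1,0,-2)`. -/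
def NF2 (f : P4) : Prop :=
  f.IsHomogeneous 3 ∧ ∀ a ∈ (f - f0).support, 6 < 3 * a 0 + 3 * a 1 + 2 * a 2

/-- Projectively equivalent to `f0`. -/
def Eq0 (f : P4) : Prop := ∃ M : Mat 4, M.det ≠ 0 ∧ sub4 M f = f0

def St_CL : Prop := ∀ f : P4, f.IsHomogeneous 3 → Deg2 f →
  ∃ M : Mat 4, M.det ≠ 0 ∧ (Unst (sub4 M f) ∨ NF2 (sub4 M f))

structure St_A1 : Prop where
  irr : ∀ f : P4, f.IsHomogeneous 3 → ¬ Deg2 f → Irreducible f
  inv : ∀ (f : P4) (M : Mat 4), M.det ≠ 0 → (Deg2 (sub4 M f) ↔ Deg2 f)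
  stab : ∀ f : P4, f.IsHomogeneous 3 → ¬ Deg2 f → Stab (lift4 f)

structure St_G2 : Prop where
  unst : ∀ f : P4, f.IsHomogeneous 3 → Unst f → ¬ Semi (lift4 f)
  irr : ∀ f : P4, NF2 f → Irreducible f
  poly0 : Poly (lift4 f0)
  nstab0 : ¬ Stab (lift4 f0)
  semi : ∀ f : P4, NF2 f → Semi (lift4 f)
  eq0 : ∀ f : P4, NF2 f → Poly (lift4 f) → Eq0 f

def St_UN : Prop := ∀ (f : P4) (k : ℕ), f ≠ 0 → f.IsHomogeneous 3 → Unst f → 1 ≤ k →
  ¬ ChowAt 2 f k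

/-- Exponents of the standard monomials modulo `f0`. -/
def Std (k : ℕ) (a : Fin 4 →₀ ℕ) : Prop := ∑ i, a i = k ∧ (a 0 = 0 ∨ a 1 = 0 ∨ a 3 = 0)

/-- `e` enumerates the standard monomials of degree `k`. -/
def Enum (k : ℕ) {N : ℕ} (e : Fin N → Fin 4 →₀ ℕ) : Prop :=
  Function.Injective e ∧ ∀ a, a ∈ Set.range e ↔ Std k a

/-- The cyclic symmetry of `f0`. -/
def cyc : Equiv.Perm (Fin 4) := Equiv.swap 0 1 * Equiv.swap 1 3

def St_SB : Prop := ∀ k : ℕ, (∃ (N : ℕ) (e : Fin N → Fin 4 →₀ ℕ), Enum k e) ∧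
  ∀ (N : ℕ) (e : Fin N → Fin 4 →₀ ℕ) (f : P4), Enum k e → NF2 f →
    IsBasisMod f k fun j => monomial (e j) 1

def St_T1 : Prop := ∀ (k N : ℕ) (e : Fin N → Fin 4 →₀ ℕ) (r : Fin N → ℕ) (E : ℤ), 2 ≤ k →
  Enum k e → (∀ j l, e l = (e j).mapDomain cyc → r l = r j) → (∃ j l, r j ≠ r l) →
  Dif3 (wsum (fun j => mk4 f0 (monomial (e j) 1)) r) E → 9 * (k : ℤ) ^ 2 * ∑ j, (r j : ℤ) < N * E

def St_T2 : Prop := ∀ k, 2 ≤ k → ChowAt 1 f0 k

def St_D1 : Prop := ∀ (k N : ℕ) (e : Fin N → Fin 4 →₀ ℕ) (f : P4) (R : PP 3 N), 2 ≤ k →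
  Enum k e → NF2 f → IsChowIrr f (fun j => monomial (e j) 1) R →
  ∃ R0 : PP 3 N, IsChowIrr f0 (fun j => monomial (e j) 1) R0 ∧ moved R0 1 ∈ closure (orb R) ∧
    ¬ Stab R0

/-- An intrinsic form of the condition that the point `x` has reducible tangent cone. -/
def Cone (f : P4) (k : ℕ) (x : Fin 4 → ℂ) : Prop :=
  let V : Submodule ℂ (Q4 f) := (homogeneousSubmodule (Fin 4) ℂ k ⊓
    LinearMap.ker (aeval x : P4 →ₐ[ℂ] ℂ).toLinearMap).map (mk4 f).toLinearMap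
  ∃ u ∈ V, ∃ v ∈ V, ∃ s ∈ degQ f k, s ∉ V ∧ u * s ∉ V * V ∧ v * s ∉ V * V ∧ u * v * s ∈ V * V * V

def St_S3a : Prop := ∀ (k N : ℕ) (f : P4) (b b0 : Fin N → P4) (R : PP 3 N), 1 ≤ k →
  Irreducible f → f.IsHomogeneous 3 → IsBasisMod f k b → IsBasisMod f0 k b0 → IsChowIrr f b R →
  IsChowIrr f0 b0 R → ∃ x : Fin 3 → Fin 4 → ℂ, (∀ i, eval (x i) f = 0 ∧ Cone f k (x i)) ∧
    ∀ i j, i ≠ j → LinearIndependent ℂ ![x i, x j]

def St_S3b : Prop := ∀ (k : ℕ) (f : P4) (x : Fin 4 → ℂ), 3 ≤ k → f.IsHomogeneous 3 → x ≠ 0 →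
  eval x f = 0 → Cone f k x → ∃ l l' : (Fin 4 → ℂ) →ₗ[ℂ] ℂ,
    ∀ (s : ℂ) (v : Fin 4 → ℂ), eval (s • x + v) f = s * l v * l' v + eval v f

def St_S3c : Prop := ∀ (f : P4) (x : Fin 3 → Fin 4 → ℂ), f.IsHomogeneous 3 → Irreducible f →
  Semi (lift4 f) → (∀ i j, i ≠ j → LinearIndependent ℂ ![x i, x j]) →
  (∀ i, ∃ l l' : (Fin 4 → ℂ) →ₗ[ℂ] ℂ,
    ∀ (s : ℂ) (v : Fin 4 → ℂ), eval (s • x i + v) f = s * l v * l' v + eval v f) → Eq0 f

/-- The main estimate. -/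
def St_EST : Prop := ∃ k0, ∀ k ≥ k0, ∀ (f : P4) (N : ℕ) (b : Fin N → P4) (r : Fin N → ℕ) (E : ℤ),
  f.IsHomogeneous 3 → ¬ Deg2 f → IsBasisMod f k b → (∃ j, r j = 0) → (∃ j, r j ≠ 0) →
  Dif3 (wsum (fun j => mk4 f (b j)) r) E → 9 * (k : ℤ) ^ 2 * ∑ j, (r j : ℤ) < N * E

def St_STAB : Prop := ∃ k0, ∀ k ≥ k0, ∀ f : P4, f.IsHomogeneous 3 → ¬ Deg2 f → ChowAt 0 f k

/-! ### Lines on smooth cubic surfaces -/

/-- Smooth surfaces. -/
def Smooth4 (f : P4) : Prop := ∀ x : Fin 4 → ℂ, x ≠ 0 → ∃ i, eval x (pderiv i f) ≠ 0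

/-- The surface contains the line through `x` and `y`. -/
def OnLine (f : P4) (x y : Fin 4 → ℂ) : Prop := ∀ s t : ℂ, eval (s • x + t • y) f = 0

def St_L1 : Prop := ∀ f : P4, f.IsHomogeneous 3 → Smooth4 f →
  ∃ x y, LinearIndependent ℂ ![x, y] ∧ OnLine f x y

def St_L2 : Prop := ∀ (f : P4) (x y : Fin 4 → ℂ), f.IsHomogeneous 3 → Smooth4 f →
  LinearIndependent ℂ ![x, y] → OnLine f x y →
  ∃ a b c d, LinearIndependent ℂ ![a, b, c, d] ∧ OnLine f a b ∧ OnLine f c d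

/-- The normal form attached to two skew lines and a transversal. -/
def skew (a b : Fin 5 → ℂ) : P4 :=
  C (a 0) * X 0 ^ 2 * X 3 + C (a 1) * X 0 * X 1 * X 2 + C (a 2) * X 0 * X 1 * X 3 +
    C (a 3) * X 1 ^ 2 * X 2 + C (a 4) * X 1 ^ 2 * X 3 + C (b 0) * X 0 * X 2 * X 3 +
    C (b 1) * X 0 * X 3 ^ 2 + C (b 2) * X 1 * X 2 ^ 2 + C (b 3) * X 1 * X 2 * X 3 +
    C (b 4) * X 1 * X 3 ^ 2

def St_L3 : Prop := ∀ (f : P4) (x y z w : Fin 4 → ℂ), f.IsHomogeneous 3 → Smooth4 f →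
  LinearIndependent ℂ ![x, y, z, w] → OnLine f x y → OnLine f z w →
  ∃ (M : Mat 4) (a b : Fin 5 → ℂ), M.det ≠ 0 ∧ sub4 M f = skew a b ∧ Smooth4 (skew a b)

/-- The normal form at a node. -/
def nodal (c : MvPolynomial (Fin 3) ℂ) : P4 :=
  X 3 * (X 1 ^ 2 - X 0 * X 2) + rename Fin.castSucc c

def St_N1 : Prop := ∀ f : P4, f.IsHomogeneous 3 → ¬ Deg2 f → ¬ Smooth4 f →
  ∃ (M : Mat 4) (c : MvPolynomial (Fin 3) ℂ), M.det ≠ 0 ∧ c.IsHomogeneous 3 ∧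
    sub4 M f = nodal c ∧ eval ![0, 0, 1] c ≠ 0

end Pool.Agent.Lib.MP_a25055_ag
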