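import Pool.Agent.Lib.MP_a25055_ag.Num

/-! The column lemma, part 1: level times and the extended function. -/

open Set MeasureTheory

noncomputable section

namespace Pool.Agent.Lib.MP_a25055_ag.NCOL

/-- The hypotheses of the column lemma. -/
structure Hyp (α β H : ℝ) (b : ℝ → ℝ) (h : ℝ × ℝ → ℝ) (D : Set (ℝ × ℝ)) (i0 R : ℕ) : Prop where
  ab : α ≤ β
  cvx : ConvexOn ℝ (Icc α β) b
  cont : ContinuousOn b (Icc α β)
  mono : MonotoneOn b (Icc α β)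
  b0 : b α = i0
  conc : ConcaveOn ℝ D h
  mem : ∀ t ∈ Icc α β, ∀ x ∈ Icc (b t) (b t + R + 1), (x, t) ∈ D
  bd : ∀ p ∈ D, 0 ≤ h p ∧ h p ≤ H
  anti : ∀ x s t, (x, s) ∈ D → (x, t) ∈ D → s ≤ t → h (x, t) ≤ h (x, s)

open Classical in
/-- `h` extended by zero. -/
def G (h : ℝ × ℝ → ℝ) (D : Set (ℝ × ℝ)) (x t : ℝ) : ℝ := if (x, t) ∈ D then h (x, t) else 0

/-- The last time at which `b` is at most `y`. -/
def TT (α β : ℝ) (b : ℝ → ℝ) (y : ℝ) : ℝ := sSup (insert α {t | t ∈ Icc α β ∧ b t ≤ y})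

variable {α β H : ℝ} {b : ℝ → ℝ} {h : ℝ × ℝ → ℝ} {D : Set (ℝ × ℝ)} {i0 R : ℕ}

lemma G_of_mem {x t : ℝ} (hx : (x, t) ∈ D) : G h D x t = h (x, t) := if_pos hx

namespace Hyp

variable (P : Hyp α β H b h D i0 R)
include P

lemma H_nonneg : 0 ≤ H := by
  have h1 := P.mem α ⟨le_rfl, P.ab⟩ (b α) ⟨le_rfl, by
    have : (0 : ℝ) ≤ R := Nat.cast_nonneg R
    linarith⟩
  exact (P.bd _ h1).1.trans (P.bd _ h1).2

lemma G_nonneg (x t : ℝ) : 0 ≤ G h D x t := by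
  unfold G; split_ifs with h1
  · exact (P.bd _ h1).1
  · exact le_rfl

lemma G_le (x t : ℝ) : G h D x t ≤ H := by
  unfold G; split_ifs with h1
  · exact (P.bd _ h1).2
  · exact P.H_nonneg

lemma mem_between {x s t u : ℝ} (hs : (x, s) ∈ D) (hu : (x, u) ∈ D) (h1 : s ≤ t) (h2 : t ≤ u) :
    (x, t) ∈ D := by
  have h3 : Convex ℝ {t : ℝ | (x, t) ∈ D} := by
    intro p hp q hq a c ha hc hac
    have := P.conc.1 hp hq ha hc hac
    have e : a • ((x, p) : ℝ × ℝ) + c • ((x, q) : ℝ × ℝ) = (x, a • p + c • q) := by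
      ext
      · simp only [Prod.fst_add, Prod.smul_fst, smul_eq_mul]; rw [← add_mul, hac, one_mul]
      · simp
    rw [e] at this
    exact this
  exact h3.ordConnected.out hs hu ⟨h1, h2⟩

lemma G_meas (x : ℝ) : Measurable (G h D x) := by
  refine measurable_of_Ioi fun a => ?_
  by_cases ha : a < 0
  · have : G h D x ⁻¹' Ioi a = univ := eq_univ_of_forall fun t => ha.trans_le (P.G_nonneg x t)
    rw [this]; exact MeasurableSet.univ
  · refine OrdConnected.measurableSet ⟨fun s hs u hu t ht => ?_⟩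
    have key : ∀ v, a < G h D x v → (x, v) ∈ D := fun v hv => by
      by_contra hc
      rw [G, if_neg hc] at hv
      exact ha hv
    have h1 := P.mem_between (key s hs) (key u hu) ht.1 ht.2
    have h2 : a < G h D x u := hu
    rw [G_of_mem (key u hu)] at h2
    show a < G h D x t
    rw [G_of_mem h1]
    exact h2.trans_le (P.anti x t u h1 (key u hu) ht.2)

lemma int_of_bd {f : ℝ → ℝ} (hf : Measurable f) (K : ℝ) (hK : ∀ t, |f t| ≤ K) (u v : ℝ) :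
    IntervalIntegrable f volume u v := by
  have _ := P.ab
  rw [intervalIntegrable_iff]
  exact IntegrableOn.of_bound measure_Ioc_lt_top hf.aestronglyMeasurable K
    (Filter.Eventually.of_forall hK)

lemma G_abs (x t : ℝ) : |G h D x t| ≤ H := by
  rw [abs_of_nonneg (P.G_nonneg x t)]; exact P.G_le x t

lemma G_int (x u v : ℝ) : IntervalIntegrable (G h D x) volume u v :=
  P.int_of_bd (P.G_meas x) H (P.G_abs x) u v

lemma G_int' (x c d u v : ℝ) : IntervalIntegrable (fun t => G h D x (c + d * t)) volume u v :=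
  P.int_of_bd ((P.G_meas x).comp (by fun_prop)) H (fun _ => P.G_abs x _) u v

lemma G_conc {x s y t a c : ℝ} (h1 : (x, s) ∈ D) (h2 : (y, t) ∈ D) (ha : 0 ≤ a) (hc : 0 ≤ c)
    (hac : a + c = 1) : a * G h D x s + c * G h D y t ≤ G h D (a * x + c * y) (a * s + c * t) := by
  have h3 := P.conc.1 h1 h2 ha hc hac
  have h4 := P.conc.2 h1 h2 ha hc hac
  have e : a • ((x, s) : ℝ × ℝ) + c • ((y, t) : ℝ × ℝ) = (a * x + c * y, a * s + c * t) := by
    ext <;> simp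
  rw [e] at h3 h4
  rw [G_of_mem h1, G_of_mem h2, G_of_mem h3]
  simpa using h4

lemma G_anti {x s t : ℝ} (h1 : (x, s) ∈ D) (h2 : (x, t) ∈ D) (hst : s ≤ t) :
    G h D x t ≤ G h D x s := by
  rw [G_of_mem h1, G_of_mem h2]; exact P.anti x s t h1 h2 hst

lemma b_ge {t : ℝ} (ht : t ∈ Icc α β) : (i0 : ℝ) ≤ b t := by
  rw [← P.b0]; exact P.mono ⟨le_rfl, P.ab⟩ ht ht.1

lemma T_bdd (y : ℝ) : BddAbove (insert α {t | t ∈ Icc α β ∧ b t ≤ y}) :=
  ⟨β, by
    rintro t (rfl | ht)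
    · exact P.ab
    · exact ht.1.2⟩

lemma T_mem (y : ℝ) : TT α β b y ∈ Icc α β :=
  ⟨le_csSup (P.T_bdd y) (mem_insert _ _), csSup_le (insert_nonempty _ _) (by
    rintro t (rfl | ht)
    · exact P.ab
    · exact ht.1.2)⟩

lemma le_T {y t : ℝ} (ht : t ∈ Icc α β) (h1 : b t ≤ y) : t ≤ TT α β b y :=
  le_csSup (P.T_bdd y) (Or.inr ⟨ht, h1⟩)

lemma T_mono : Monotone (TT α β b) := fun _ y' hy =>
  csSup_le_csSup (P.T_bdd y') (insert_nonempty _ _)
    (insert_subset_insert fun _ ht => ⟨ht.1, ht.2.trans hy⟩)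

lemma T_low {y : ℝ} (hy : y < i0) : TT α β b y = α := by
  refine le_antisymm (csSup_le (insert_nonempty _ _) ?_) (P.T_mem y).1
  rintro t (rfl | ht)
  · exact le_rfl
  · exact absurd (hy.trans_le ((P.b_ge ht.1).trans ht.2)) (lt_irrefl _)

lemma b_T_le {y : ℝ} (hy : (i0 : ℝ) ≤ y) : b (TT α β b y) ≤ y := by
  have h1 : IsClosed {t | t ∈ Icc α β ∧ b t ≤ y} :=
    P.cont.preimage_isClosed_of_isClosed isClosed_Icc (isClosed_Iic (a := y))
  have h2 : α ∈ {t | t ∈ Icc α β ∧ b t ≤ y} := ⟨⟨le_rfl, P.ab⟩, by rw [P.b0]; exact hy⟩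
  have h3 : insert α {t | t ∈ Icc α β ∧ b t ≤ y} = {t | t ∈ Icc α β ∧ b t ≤ y} :=
    insert_eq_of_mem h2
  have h4 := h1.csSup_mem ⟨α, h2⟩ (h3 ▸ P.T_bdd y)
  rw [TT, h3]
  exact h4.2

lemma le_T_iff {y t : ℝ} (ht : t ∈ Ioc α β) : t ≤ TT α β b y ↔ b t ≤ y := by
  have ht' : t ∈ Icc α β := ⟨ht.1.le, ht.2⟩
  refine ⟨fun h1 => ?_, P.le_T ht'⟩
  by_cases hy : y < i0
  · rw [P.T_low hy] at h1; exact absurd ht.1 (not_lt.2 h1)
  · exact (P.mono ht' (P.T_mem y) h1).trans (P.b_T_le (not_lt.1 hy))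

lemma T_lt_iff {y t : ℝ} (ht : t ∈ Ioc α β) : TT α β b y < t ↔ y < b t := by
  rw [← not_le, P.le_T_iff ht, not_le]

lemma le_b_T {y : ℝ} (hy : TT α β b y < β) : y ≤ b (TT α β b y) := by
  have h0 := P.T_mem y
  have h1 : ContinuousWithinAt b (Ioc (TT α β b y) β) (TT α β b y) :=
    (P.cont _ h0).mono fun t ht => ⟨h0.1.trans ht.1.le, ht.2⟩
  have h2 : TT α β b y ∈ closure (Ioc (TT α β b y) β) := by
    rw [closure_Ioc hy.ne]; exact ⟨le_rfl, hy.le⟩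
  have h3 := h1.mem_closure h2 (t := Ici y) fun t ht =>
    ((P.T_lt_iff ⟨h0.1.trans_lt ht.1, ht.2⟩).1 ht.1).le
  rwa [closure_Ici] at h3

lemma b_conv {s t a c : ℝ} (hs : s ∈ Icc α β) (ht : t ∈ Icc α β) (ha : 0 ≤ a) (hc : 0 ≤ c)
    (hac : a + c = 1) : a * s + c * t ∈ Icc α β ∧ b (a * s + c * t) ≤ a * b s + c * b t :=
  ⟨P.cvx.1 hs ht ha hc hac, P.cvx.2 hs ht ha hc hac⟩

lemma T_conc {x y a c : ℝ} (hx : (i0 : ℝ) ≤ x) (hy : (i0 : ℝ) ≤ y) (ha : 0 ≤ a) (hc : 0 ≤ c)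
    (hac : a + c = 1) : a * TT α β b x + c * TT α β b y ≤ TT α β b (a * x + c * y) := by
  obtain ⟨h1, h2⟩ := P.b_conv (P.T_mem x) (P.T_mem y) ha hc hac
  refine P.le_T h1 (h2.trans ?_)
  have := P.b_T_le hx
  have := P.b_T_le hy
  gcongr

lemma T_incr {x y : ℝ} (hx : (i0 : ℝ) ≤ x) (hxy : x ≤ y) :
    TT α β b (y + 1) - TT α β b y ≤ TT α β b (x + 1) - TT α β b x := by
  have hd : 0 < y + 1 - x := by linarith
  have h1 := P.T_conc (x := x) (y := y + 1) (a := (y - x) / (y + 1 - x)) (c := 1 / (y + 1 - x)) hx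
    (by linarith) (div_nonneg (by linarith) hd.le) (by positivity) (by field_simp; ring)
  have h2 := P.T_conc (x := x) (y := y + 1) (a := 1 / (y + 1 - x)) (c := (y - x) / (y + 1 - x)) hx
    (by linarith) (by positivity) (div_nonneg (by linarith) hd.le) (by field_simp; ring)
  have e1 : (y - x) / (y + 1 - x) * x + 1 / (y + 1 - x) * (y + 1) = x + 1 := by field_simp; ring
  have e2 : 1 / (y + 1 - x) * x + (y - x) / (y + 1 - x) * (y + 1) = y := by field_simp; ring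
  have e3 : (y - x) / (y + 1 - x) = 1 - 1 / (y + 1 - x) := by field_simp; ring
  rw [e1] at h1
  rw [e2] at h2
  rw [e3] at h1 h2
  nlinarith

/-- Membership in `D` on the window of a column. -/
lemma mem_win {y x t : ℝ} (hx : (i0 : ℝ) ≤ x) (hxy : x ≤ y + R + 1) (hβ : TT α β b y < β)
    (h1 : TT α β b y ≤ t) (h2 : t ≤ TT α β b x) : (x, t) ∈ D := by
  have ht : t ∈ Icc α β := ⟨(P.T_mem y).1.trans h1, h2.trans (P.T_mem x).2⟩
  refine P.mem t ht x ⟨(P.mono ht (P.T_mem x) h2).trans (P.b_T_le hx), ?_⟩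
  have := (P.le_b_T hβ).trans (P.mono (P.T_mem y) ht h1)
  linarith

end Hyp

end Pool.Agent.Lib.MP_a25055_ag.NCOL
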