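import Pool.Agent.Lib.MP_a25055_ag.NCOL1

/-! The column lemma, part 2: one strip. -/

open Set MeasureTheory intervalIntegral

noncomputable section

namespace Pool.Agent.Lib.MP_a25055_ag.NCOL

variable {α β H : ℝ} {b : ℝ → ℝ} {h : ℝ × ℝ → ℝ} {D : Set (ℝ × ℝ)} {i0 R : ℕ}

lemma sum_one (n : ℕ) : ∑ r ∈ Finset.Ioc 0 n, (r : ℝ) = n * (n + 1) / 2 := by
  induction n with
  | zero => simp
  | succ n ih => rw [Finset.sum_Ioc_succ_top (Nat.zero_le n), ih]; push_cast; ring

lemma sum_two (n : ℕ) : ∑ r ∈ Finset.Ioc 0 n, (r : ℝ) ^ 2 = n * (n + 1) * (2 * n + 1) / 6 := by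
  induction n with
  | zero => simp
  | succ n ih => rw [Finset.sum_Ioc_succ_top (Nat.zero_le n), ih]; push_cast; ring

lemma avg {n : ℕ} (hn : 0 < n) (A B C E : ℝ) :
    (∑ r ∈ Finset.Ioc 0 n, ((1 - (r : ℝ) / n) * A + (r : ℝ) / n * B + ((r : ℝ) / n) ^ 2 * C +
      (r : ℝ) / n * (1 - (r : ℝ) / n) * E)) / n =
      (1 / 2 - 1 / (2 * n)) * A + (1 / 2 + 1 / (2 * n)) * B +
        (1 / 3 + 1 / (2 * n) + 1 / (6 * n ^ 2)) * C + (1 / 6 - 1 / (6 * n ^ 2)) * E := by
  have hn' : (0 : ℝ) < n := Nat.cast_pos.2 hn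
  have e : ∀ r : ℕ, (1 - (r : ℝ) / n) * A + (r : ℝ) / n * B + ((r : ℝ) / n) ^ 2 * C +
      (r : ℝ) / n * (1 - (r : ℝ) / n) * E =
      A + (r : ℝ) * ((B - A + E) / n) + (r : ℝ) ^ 2 * ((C - E) / n ^ 2) := fun r => by
    field_simp; ring
  simp only [e, Finset.sum_add_distrib, ← Finset.sum_mul, sum_one, sum_two, Finset.sum_const,
    Nat.card_Ioc, nsmul_eq_mul, Nat.sub_zero]
  field_simp; ring

namespace Hyp

variable (P : Hyp α β H b h D i0 R)
include P

lemma G_int_add (x d u v : ℝ) : IntervalIntegrable (fun t => G h D x (t + d)) volume u v := by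
  have := P.G_int' x d 1 u v
  simpa only [one_mul, add_comm d] using this

lemma G_int_add' (x d u v : ℝ) : IntervalIntegrable (fun t => G h D x (d + t)) volume u v := by
  have := P.G_int' x d 1 u v
  simpa only [one_mul] using this

lemma int_nonneg (x : ℝ) {u v : ℝ} (huv : u ≤ v) : 0 ≤ ∫ t in u..v, G h D x t :=
  integral_nonneg huv fun t _ => P.G_nonneg x t

lemma int_le (x : ℝ) {u v : ℝ} (huv : u ≤ v) : ∫ t in u..v, G h D x t ≤ (v - u) * H := by
  have := integral_mono_on huv (P.G_int x u v) (intervalIntegrable_const (c := H))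
    fun t _ => P.G_le x t
  simpa using this

lemma strip_s {y s : ℝ} (hy : (i0 : ℝ) ≤ y) (hs : s ∈ Icc (0 : ℝ) 1) {w u v l : ℝ}
    (hw : w = TT α β b (y - R)) (hu : u = TT α β b y) (hv : v = TT α β b (y + 1))
    (hl : l = v - u) (hβ : w < β) :
    (1 - s) * (∫ t in w..u, G h D y t) + s * (∫ t in w + l..v, G h D (y + 1) t) +
      s ^ 2 * (∫ t in w..w + l, G h D (y + 1) t) + s * (1 - s) * (l * G h D y w) ≤
      ∫ t in w..u + s * l, G h D (y + s) t := by
  have hR : (0 : ℝ) ≤ R := Nat.cast_nonneg R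
  have hwu : w ≤ u := by rw [hw, hu]; exact P.T_mono (by linarith)
  have huv : u ≤ v := by rw [hv, hu]; exact P.T_mono (by linarith)
  have hl0 : 0 ≤ l := by linarith
  have m1 : ∀ t, w ≤ t → t ≤ u → (y, t) ∈ D := fun t h1 h2 =>
    P.mem_win (y := y - R) hy (by linarith) (hw ▸ hβ) (hw ▸ h1) (hu ▸ h2)
  have m2 : ∀ t, w ≤ t → t ≤ v → (y + 1, t) ∈ D := fun t h1 h2 =>
    P.mem_win (y := y - R) (by linarith) (by linarith) (hw ▸ hβ) (hw ▸ h1) (hv ▸ h2)
  have s1 : 0 ≤ 1 - s := by linarith [hs.2]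
  have par : (1 - s) * (∫ t in w..u, G h D y t) + s * (∫ t in w + l..v, G h D (y + 1) t) ≤
      ∫ t in w + s * l..u + s * l, G h D (y + s) t := by
    have e : v = u + l := by linarith
    rw [e, ← integral_comp_add_right, ← integral_comp_add_right,
      ← intervalIntegral.integral_const_mul, ← intervalIntegral.integral_const_mul,
      ← intervalIntegral.integral_add ((P.G_int _ _ _).const_mul _)
        ((P.G_int_add _ _ _ _).const_mul _)]
    refine integral_mono_on hwu (((P.G_int _ _ _).const_mul _).add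
      ((P.G_int_add _ _ _ _).const_mul _)) (P.G_int_add _ _ _ _) fun t ht => ?_
    have := P.G_conc (m1 t ht.1 ht.2) (m2 (t + l) (by linarith [ht.1]) (by linarith [ht.2])) s1 hs.1
      (by ring)
    have e1 : (1 - s) * y + s * (y + 1) = y + s := by ring
    have e2 : (1 - s) * t + s * (t + l) = t + s * l := by ring
    rwa [e1, e2] at this
  have tri : s ^ 2 * (∫ t in w..w + l, G h D (y + 1) t) + s * (1 - s) * (l * G h D y w) ≤
      ∫ t in w..w + s * l, G h D (y + s) t := by
    have e1 := smul_integral_comp_add_mul (a := 0) (b := l) (G h D (y + s)) s w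
    rw [mul_zero, add_zero, smul_eq_mul] at e1
    have e2 := integral_comp_add_left (a := 0) (b := l) (G h D (y + 1)) w
    rw [add_zero] at e2
    rw [← e1, ← e2]
    have h1 : ∫ t in (0 : ℝ)..l, ((1 - s) * G h D y w + s * G h D (y + 1) (w + t)) ≤
        ∫ t in (0 : ℝ)..l, G h D (y + s) (w + s * t) := by
      refine integral_mono_on hl0 (intervalIntegrable_const.add
        ((P.G_int_add' _ _ _ _).const_mul _)) (P.G_int' _ _ _ _ _) fun t ht => ?_
      have := P.G_conc (m1 w le_rfl hwu) (m2 (w + t) (by linarith [ht.1]) (by linarith [ht.2])) s1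
        hs.1 (by ring)
      have e1 : (1 - s) * y + s * (y + 1) = y + s := by ring
      have e2 : (1 - s) * w + s * (w + t) = w + s * t := by ring
      rwa [e1, e2] at this
    rw [intervalIntegral.integral_add intervalIntegrable_const ((P.G_int_add' _ _ _ _).const_mul _),
      intervalIntegral.integral_const, intervalIntegral.integral_const_mul, sub_zero,
      smul_eq_mul] at h1
    have h2 := mul_le_mul_of_nonneg_left h1 hs.1
    nlinarith
  rw [← integral_add_adjacent_intervals (P.G_int (y + s) w (w + s * l)) (P.G_int _ _ _)]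
  linarith

/-- The averaged estimate for one strip. -/
lemma strip {y : ℝ} (hy : (i0 : ℝ) ≤ y) {n : ℕ} (hn : 0 < n) {w u v l : ℝ}
    (hw : w = TT α β b (y - R)) (hu : u = TT α β b y) (hv : v = TT α β b (y + 1))
    (hl : l = v - u) :
    (∫ t in w..u, G h D y t) / 2 + (∫ t in w..v, G h D (y + 1) t) / 2 -
      l / 6 * (G h D (y + 1) w - G h D y w) - H * (u - w) / (2 * n) - H * l / (6 * n) ≤
      (∑ r ∈ Finset.Ioc 0 n, ∫ t in w..u + (r : ℝ) / n * l, G h D (y + (r : ℝ) / n) t) / n := by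
  have hR : (0 : ℝ) ≤ R := Nat.cast_nonneg R
  have hn' : (0 : ℝ) < n := Nat.cast_pos.2 hn
  have hn1 : (1 : ℝ) ≤ n := Nat.one_le_cast.2 hn
  have hwu : w ≤ u := by rw [hw, hu]; exact P.T_mono (by linarith)
  have huv : u ≤ v := by rw [hv, hu]; exact P.T_mono (by linarith)
  have hl0 : 0 ≤ l := by linarith
  by_cases hβ : w < β
  swap
  · have h1 : v ≤ β := hv ▸ (P.T_mem _).2
    have e1 : u = w := by linarith [not_lt.1 hβ]
    have e2 : v = w := by linarith [not_lt.1 hβ]
    have e3 : l = 0 := by linarith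
    simp [e1, e2, e3]
  have h1 : ∑ r ∈ Finset.Ioc 0 n, ((1 - (r : ℝ) / n) * (∫ t in w..u, G h D y t) +
      (r : ℝ) / n * (∫ t in w + l..v, G h D (y + 1) t) +
      ((r : ℝ) / n) ^ 2 * (∫ t in w..w + l, G h D (y + 1) t) +
      (r : ℝ) / n * (1 - (r : ℝ) / n) * (l * G h D y w)) ≤
      ∑ r ∈ Finset.Ioc 0 n, ∫ t in w..u + (r : ℝ) / n * l, G h D (y + (r : ℝ) / n) t :=
    Finset.sum_le_sum fun r hr => P.strip_s hy ⟨by positivity, by
      rw [div_le_one hn']; exact_mod_cast (Finset.mem_Ioc.1 hr).2⟩ hw hu hv hl hβ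
  refine le_trans ?_ (div_le_div_of_nonneg_right h1 hn'.le)
  rw [avg hn, ← integral_add_adjacent_intervals (P.G_int (y + 1) w (w + l)) (P.G_int _ _ v)]
  have m2 : ∀ t, w ≤ t → t ≤ v → (y + 1, t) ∈ D := fun t h1 h2 =>
    P.mem_win (y := y - R) (by linarith) (by linarith) (hw ▸ hβ) (hw ▸ h1) (hv ▸ h2)
  have hC : ∫ t in w..w + l, G h D (y + 1) t ≤ l * G h D (y + 1) w := by
    have := integral_mono_on (by linarith : w ≤ w + l) (P.G_int (y + 1) _ _)
      (intervalIntegrable_const (c := G h D (y + 1) w)) fun t ht =>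
        P.G_anti (m2 w le_rfl (by linarith)) (m2 t ht.1 (by linarith [ht.2])) ht.1
    simpa using this
  have hA := P.int_le y hwu
  have hB := P.int_nonneg (y + 1) (by linarith : w + l ≤ v)
  have hC0 := P.int_nonneg (y + 1) (by linarith : w ≤ w + l)
  have hE : l * G h D y w ≤ l * H := mul_le_mul_of_nonneg_left (P.G_le _ _) hl0
  have hE0 : 0 ≤ l * G h D y w := mul_nonneg hl0 (P.G_nonneg _ _)
  set A := ∫ t in w..u, G h D y t
  set B := ∫ t in w + l..v, G h D (y + 1) t
  set C := ∫ t in w..w + l, G h D (y + 1) t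
  have k1 : 1 / (2 * (n : ℝ)) * A ≤ H * (u - w) / (2 * n) := by
    rw [mul_comm H, div_mul_eq_mul_div, one_mul]; gcongr
  have k2 : 0 ≤ 1 / (2 * (n : ℝ)) * B := by positivity
  have k3 : 0 ≤ (1 / (2 * (n : ℝ)) + 1 / (6 * n ^ 2)) * C := by positivity
  have k4 : 1 / (6 * (n : ℝ) ^ 2) * (l * G h D y w) ≤ H * l / (6 * n) := by
    rw [mul_comm H, div_mul_eq_mul_div, one_mul]
    exact div_le_div₀ (hE0.trans hE) hE (by positivity) (by nlinarith)
  nlinarith

/-- The deficit of an early strip. -/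
lemma def_low {y : ℝ} (hy : (i0 : ℝ) ≤ y) (hy' : y ≤ i0 + R) :
    G h D (y + 1) α - G h D y α ≤ max 0 (h (i0 + 1, α) - h (i0, α)) := by
  have hR : (0 : ℝ) ≤ R := Nat.cast_nonneg R
  have m : ∀ x, (i0 : ℝ) ≤ x → x ≤ i0 + R + 1 → (x, α) ∈ D := fun x h1 h2 =>
    P.mem α ⟨le_rfl, P.ab⟩ x (by rw [P.b0]; exact ⟨h1, h2⟩)
  refine le_trans ?_ (le_max_right _ _)
  have hd : 0 < y + 1 - i0 := by linarith
  have h1 := P.G_conc (m i0 le_rfl (by linarith)) (m (y + 1) (by linarith) (by linarith))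
    (a := (y - i0) / (y + 1 - i0)) (c := 1 / (y + 1 - i0)) (div_nonneg (by linarith) hd.le)
    (by positivity) (by field_simp; ring)
  have h2 := P.G_conc (m i0 le_rfl (by linarith)) (m (y + 1) (by linarith) (by linarith))
    (a := 1 / (y + 1 - i0)) (c := (y - i0) / (y + 1 - i0)) (by positivity)
    (div_nonneg (by linarith) hd.le) (by field_simp; ring)
  have e1 : (y - i0) / (y + 1 - i0) * i0 + 1 / (y + 1 - i0) * (y + 1) = i0 + 1 := by
    field_simp; ring
  have e2 : 1 / (y + 1 - i0) * i0 + (y - i0) / (y + 1 - i0) * (y + 1) = y := by field_simp; ring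
  have e4 : (y - i0) / (y + 1 - i0) * α + 1 / (y + 1 - i0) * α = α := by field_simp; ring
  have e5 : 1 / (y + 1 - i0) * α + (y - i0) / (y + 1 - i0) * α = α := by field_simp; ring
  have e3 : (y - i0) / (y + 1 - i0) = 1 - 1 / (y + 1 - i0) := by field_simp; ring
  rw [e1, e4] at h1
  rw [e2, e5] at h2
  rw [e3] at h1 h2
  rw [← G_of_mem (h := h) (m (i0 + 1) (by linarith) (by linarith)),
    ← G_of_mem (h := h) (m i0 le_rfl (by linarith))]
  nlinarith

/-- The deficit of a late strip. -/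
lemma def_high {y : ℝ} (hy : (i0 : ℝ) + R ≤ y) {w l : ℝ} (hw : w = TT α β b (y - R))
    (hl : l = TT α β b (y + 1) - TT α β b y) :
    l / 6 * (G h D (y + 1) w - G h D y w) ≤
      (∫ t in w..TT α β b (y + 1 - R), G h D (y + 1) t) / (3 * (R + 1)) := by
  have hR : (0 : ℝ) ≤ R := Nat.cast_nonneg R
  have hl0 : 0 ≤ l := by rw [hl]; exact sub_nonneg.2 (P.T_mono (by linarith))
  set w' := TT α β b (y + 1 - R) with hw'
  have hww : w ≤ w' := by rw [hw]; exact P.T_mono (by linarith)
  have hll : l ≤ w' - w := by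
    have := P.T_incr (x := y - R) (y := y) (by linarith) (by linarith)
    rw [show y - R + 1 = y + 1 - R by ring] at this
    rw [hl, hw]; exact this
  rcases hww.eq_or_lt with hE | hlt
  · have : l = 0 := by linarith
    rw [this, ← hE]; simp
  have hβ : w < β := hlt.trans_le (P.T_mem _).2
  have m2 : ∀ t, w ≤ t → t ≤ w' → (y + 1, t) ∈ D := fun t h1 h2 =>
    P.mem_win (y := y - R) (by linarith) (by linarith) (hw ▸ hβ) (hw ▸ h1)
      (h2.trans (P.T_mono (by linarith)))
  have m1 : (y - R, w) ∈ D :=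
    P.mem_win (y := y - R) (by linarith) (by linarith) (hw ▸ hβ) hw.ge hw.le
  have g0 := P.G_nonneg (y + 1) w
  have h1 : G h D (y + 1) w - G h D y w ≤ G h D (y + 1) w / (R + 1) := by
    have h2 := P.G_conc m1 (m2 w le_rfl hww) (a := 1 / (R + 1)) (c := R / (R + 1)) (by positivity)
      (by positivity) (by field_simp; ring)
    have e1 : 1 / ((R : ℝ) + 1) * (y - R) + R / (R + 1) * (y + 1) = y := by field_simp; ring
    have e2 : 1 / ((R : ℝ) + 1) * w + R / (R + 1) * w = w := by field_simp; ring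
    rw [e1, e2] at h2
    have h3 : 0 ≤ 1 / ((R : ℝ) + 1) * G h D (y - R) w := mul_nonneg (by positivity) (P.G_nonneg _ _)
    have e3 : G h D (y + 1) w / (R + 1) = G h D (y + 1) w - R / (R + 1) * G h D (y + 1) w := by
      field_simp; ring
    linarith
  have hd : 0 < w' - w := sub_pos.2 hlt
  have h2 : (w' - w) * G h D (y + 1) w / 2 ≤ ∫ t in w..w', G h D (y + 1) t := by
    have h3 : ∫ t in w..w', (w' - t) * (G h D (y + 1) w / (w' - w)) ≤
        ∫ t in w..w', G h D (y + 1) t := by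
      refine integral_mono_on hww (Continuous.intervalIntegrable (by fun_prop) _ _) (P.G_int _ _ _)
        fun t ht => ?_
      have h4 := P.G_conc (m2 w le_rfl hww) (m2 w' hww le_rfl) (a := (w' - t) / (w' - w))
        (c := (t - w) / (w' - w)) (div_nonneg (by linarith [ht.2]) hd.le)
        (div_nonneg (by linarith [ht.1]) hd.le) (by field_simp; ring)
      have e1 : (w' - t) / (w' - w) * (y + 1) + (t - w) / (w' - w) * (y + 1) = y + 1 := by
        field_simp; ring
      have e2 : (w' - t) / (w' - w) * w + (t - w) / (w' - w) * w' = t := by field_simp; ring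
      rw [e1, e2] at h4
      have h5 : 0 ≤ (t - w) / (w' - w) * G h D (y + 1) w' :=
        mul_nonneg (div_nonneg (by linarith [ht.1]) hd.le) (P.G_nonneg _ _)
      have e3 : (w' - t) * (G h D (y + 1) w / (w' - w)) = (w' - t) / (w' - w) * G h D (y + 1) w := by
        ring
      linarith
    rw [intervalIntegral.integral_mul_const,
      intervalIntegral.integral_sub intervalIntegrable_const intervalIntegrable_id,
      intervalIntegral.integral_const, integral_id, smul_eq_mul] at h3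
    refine le_trans (le_of_eq ?_) h3
    field_simp; ring
  calc l / 6 * (G h D (y + 1) w - G h D y w) ≤ l / 6 * (G h D (y + 1) w / (R + 1)) := by gcongr
    _ ≤ (w' - w) / 6 * (G h D (y + 1) w / (R + 1)) := by gcongr
    _ = (w' - w) * G h D (y + 1) w / 2 / (3 * (R + 1)) := by field_simp; ring
    _ ≤ _ := by gcongr

end Hyp

end Pool.Agent.Lib.MP_a25055_ag.NCOL
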