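import Pool.Agent.Lib.MP_a25055_ag.Num

/-! Block NA: Lorentzian geometry, effectivity, nef classes. -/

open Finset

noncomputable section

namespace Pool.Agent.Lib.MP_a25055_ag

namespace NNA

open _root_.Pool.Agent.Lib.MP_a25055_ag.Tree

variable {Y : Tree}

lemma sq_eq (x : Y.Cl) : Y.sq x = x.1 ^ 2 - ∑ q, x.2 q ^ 2 := by simp only [Tree.sq, ip, pow_two]

lemma ss_nonneg (x : Y.Cl) : 0 ≤ ∑ q, x.2 q ^ 2 := sum_nonneg fun _ _ => sq_nonneg _

lemma gram (x y : Y.Cl) : 0 ≤ x.1 ^ 2 * ∑ q, y.2 q ^ 2 + y.1 ^ 2 * ∑ q, x.2 q ^ 2 -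
    2 * (x.1 * y.1) * ∑ q, x.2 q * y.2 q := by
  simp only [mul_sum, ← sum_add_distrib, ← sum_sub_distrib]
  exact sum_nonneg fun q _ => by nlinarith [sq_nonneg (x.1 * y.2 q - y.1 * x.2 q)]

lemma cone (x y : Y.Cl) (hx : 0 ≤ Y.sq x) (hy : 0 ≤ Y.sq y) (h1 : 0 ≤ x.1) (h2 : 0 ≤ y.1) :
    0 ≤ Y.ip x y := by
  rw [sq_eq, sub_nonneg] at hx hy
  rw [ip, sub_nonneg]
  refine (abs_le_of_sq_le_sq' ?_ (mul_nonneg h1 h2)).2
  rw [mul_pow]
  exact (sum_mul_sq_le_sq_mul_sq univ x.2 y.2).trans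
    (mul_le_mul hx hy (ss_nonneg y) (sq_nonneg _))

lemma hodge (x y : Y.Cl) (hx : 0 ≤ Y.sq x) : Y.sq x * Y.sq y ≤ Y.ip x y ^ 2 := by
  have g := gram x y
  have hA := ss_nonneg x
  rw [sq_eq, sub_nonneg] at hx
  rw [sq_eq, sq_eq, ip]
  generalize ∑ q, x.2 q ^ 2 = A at *
  generalize ∑ q, y.2 q ^ 2 = B at *
  generalize ∑ q, x.2 q * y.2 q = C at *
  generalize x.1 = a at *
  generalize y.1 = b at *
  rcases (sq_nonneg a).eq_or_lt with h | h
  · have : A = 0 := by linarith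
    rw [this, ← h]
    simpa using sq_nonneg _
  · refine le_of_mul_le_mul_left ?_ h
    nlinarith [mul_le_mul_of_nonneg_right hx g, sq_nonneg (a * C - b * A)]

lemma hodge0 (x y : Y.Cl) (hx : 0 < Y.sq x) (h : Y.ip x y = 0) (hy : 0 ≤ Y.sq y) : y = 0 := by
  have g := gram x y
  rw [sq_eq] at hx hy
  rw [ip, sub_eq_zero] at h
  rw [← h] at g
  have h1 : y.1 ^ 2 ≤ 0 := by
    refine le_of_mul_le_mul_left ?_ hx
    nlinarith [mul_nonneg (sq_nonneg x.1) hy]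
  have h2 : ∑ q, y.2 q ^ 2 = 0 := le_antisymm (by linarith) (ss_nonneg y)
  rw [sum_eq_zero_iff_of_nonneg fun _ _ => sq_nonneg _] at h2
  exact Prod.ext (pow_eq_zero_iff two_ne_zero |>.1 (le_antisymm h1 (sq_nonneg _)))
    (funext fun q => pow_eq_zero_iff two_ne_zero |>.1 (h2 q (mem_univ _)))

lemma toR_add {ι : Type} (B B' : ι →₀ ℕ) : toR (B + B') = toR B + toR B' := by
  ext i; simp

lemma toR_nonneg {ι : Type} (B : ι →₀ ℕ) : 0 ≤ toR B := fun i => by simp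

variable (Y) in
/-- Classes of effective integral divisors. -/
def EN : AddSubmonoid Y.Cl where
  carrier := {x | ∃ B : Y.I →₀ ℕ, Y.cl (toR B) = x}
  zero_mem' := ⟨0, by rw [show toR (0 : Y.I →₀ ℕ) = 0 from by ext; simp, map_zero]⟩
  add_mem' := by
    rintro _ _ ⟨B, rfl⟩ ⟨B', rfl⟩
    exact ⟨B + B', by rw [toR_add, map_add]⟩

variable (Y) in
/-- Classes of effective real divisors. -/
def ER : AddSubmonoid Y.Cl where
  carrier := {x | ∃ E : Y.I →₀ ℝ, 0 ≤ E ∧ Y.cl E = x}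
  zero_mem' := ⟨0, le_rfl, map_zero _⟩
  add_mem' := by
    rintro _ _ ⟨B, h, rfl⟩ ⟨B', h', rfl⟩
    exact ⟨B + B', add_nonneg h h', map_add _ _ _⟩

lemma EN_le {x : Y.Cl} (h : x ∈ EN Y) : x ∈ ER Y := let ⟨B, e⟩ := h; ⟨_, toR_nonneg B, e⟩

lemma ER_smul {x : Y.Cl} (h : x ∈ ER Y) {c : ℝ} (hc : 0 ≤ c) : c • x ∈ ER Y :=
  let ⟨E, h, e⟩ := h; ⟨c • E, fun i => mul_nonneg hc (h i), by rw [map_smul, e]⟩

lemma gam_mem (i : Y.I) : Y.gam i ∈ EN Y :=
  ⟨Finsupp.single i 1, by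
    rw [show toR (Finsupp.single i 1) = Finsupp.single i 1 from by simp [toR], cl_single, one_smul]⟩

/-- The total transform of an exceptional curve. -/
def ee (q : Y.T) : Y.Cl := (0, fun q' => if q' = q then -1 else 0)

lemma sum_ee (c : Y.T → ℝ) : ∑ q, c q • ee q = ((0 : ℝ), fun q => -c q) := by
  refine Prod.ext ?_ (funext fun q => ?_)
  · simp [Prod.fst_sum, ee]
  · simp [Prod.snd_sum, ee, Finset.sum_apply]

lemma ee_mem (p : Y.T) : ee p ∈ EN Y := by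
  induction h : univ.sup Y.dep - Y.dep p using Nat.strong_induction_on generalizing p with
  | _ n ih =>
    have e : ee p = Y.gam (.inr p) + ∑ q, (if p ∈ Y.prox q then (1 : ℝ) else 0) • ee q := by
      rw [sum_ee]
      refine Prod.ext (by simp [ee, gam]) (funext fun q => ?_)
      simp only [ee, gam, Prod.snd_add, Pi.add_apply]
      split_ifs <;> simp
    rw [e]
    refine add_mem (gam_mem _) (sum_mem fun q _ => ?_)
    split_ifs with hq
    · have h1 := Y.prox_dep q p hq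
      have h2 : Y.dep q ≤ univ.sup Y.dep := le_sup (mem_univ q)
      rw [one_smul]
      exact ih _ (by omega) q rfl
    · rw [zero_smul]; exact zero_mem _

lemma hh_mem (hY : Y.Plane) : (((1 : ℝ), 0) : Y.Cl) ∈ EN Y := by
  obtain ⟨B, e⟩ := hY.eff 1 0 (by simp)
  exact ⟨B, e.trans (Prod.ext (by simp) (funext fun q => by simp))⟩

lemma effZ (hY : Y.Plane) (x : Y.Cl) (hx : Y.IsInt x) (h0 : 0 ≤ x.1)
    (h : 0 ≤ Y.sq x + Y.ip x Y.aK) : x ∈ EN Y := by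
  obtain ⟨d, m⟩ := x
  obtain ⟨⟨d, rfl : _ = _⟩, hm⟩ := hx
  choose m' hm using hm
  obtain rfl : m = fun q => (m' q : ℝ) := funext hm
  lift d to ℕ using Int.cast_nonneg_iff.1 h0
  have h1 : ∑ q, (m' q).toNat * ((m' q).toNat + 1) < (d + 1) * (d + 2) := by
    have h2 : ∑ q, m' q * (m' q + 1) ≤ (d : ℤ) * d + d * 3 := by
      simp only [Tree.sq, ip, aK, mul_one] at h
      simp only [mul_add, mul_one, sum_add_distrib]
      have : ∑ q, (m' q : ℝ) * m' q + ∑ q, (m' q : ℝ) ≤ (d : ℤ) * (d : ℤ) + (d : ℤ) * 3 := by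
        linarith
      exact_mod_cast this
    have h3 : ∑ q, (((m' q).toNat : ℤ) * ((m' q).toNat + 1)) ≤ ∑ q, m' q * (m' q + 1) :=
      sum_le_sum fun q _ => by
        rcases le_or_gt 0 (m' q) with h | h
        · rw [Int.toNat_of_nonneg h]
        · rw [Int.toNat_of_nonpos h.le]
          simpa using mul_nonneg_of_nonpos_of_nonpos h.le (by omega : m' q + 1 ≤ 0)
    zify
    nlinarith
  have e : ((((d : ℤ) : ℝ), fun q => (m' q : ℝ)) : Y.Cl) =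
      ((d : ℝ), fun q => ((m' q).toNat : ℝ)) + ∑ q, (((-m' q).toNat : ℕ) : ℝ) • ee q := by
    rw [sum_ee]
    refine Prod.ext (by simp) (funext fun q => ?_)
    have := Int.toNat_sub_toNat_neg (m' q)
    simp only [Prod.snd_add, Pi.add_apply, ← sub_eq_add_neg]
    exact_mod_cast this.symm
  rw [e]
  refine add_mem (hY.eff d _ h1) (sum_mem fun q _ => ?_)
  rw [Nat.cast_smul_eq_nsmul]
  exact nsmul_mem (ee_mem q) _

lemma effR (hY : Y.Plane) (D : Y.Cl) (hs : 0 < Y.sq D) (hd : 0 < D.1) : D ∈ ER Y := by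
  set K : ℝ := 1 + ∑ q, (3 * |D.2 q| + 2) with hK
  have hK0 : 0 ≤ ∑ q, (3 * |D.2 q| + 2) := sum_nonneg fun _ _ => by positivity
  obtain ⟨t, ht1, ht⟩ : ∃ t : ℝ, 1 ≤ t ∧ K ≤ t * Y.sq D :=
    ⟨1 + K / Y.sq D, le_add_of_nonneg_right (by positivity), by
      rw [add_mul, div_mul_cancel₀ _ hs.ne']; linarith⟩
  have ht0 : 0 < t := by linarith
  have f0 : (0 : ℝ) ≤ ⌊t * D.1⌋ := by exact_mod_cast Int.floor_nonneg.2 (by positivity)
  have hx : ((⌊t * D.1⌋, fun q => ⌈t * D.2 q⌉) : Y.Cl) ∈ EN Y := by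
    refine effZ hY _ ⟨⟨_, rfl⟩, fun q => ⟨_, rfl⟩⟩ f0 ?_
    have h1 : (t * D.1) ^ 2 ≤ (⌊t * D.1⌋ + 1) ^ 2 :=
      pow_le_pow_left₀ (by positivity) (Int.lt_floor_add_one _).le 2
    have h2 : ∑ q, ((⌈t * D.2 q⌉ : ℝ) * ⌈t * D.2 q⌉ + ⌈t * D.2 q⌉) ≤
        ∑ q, (t ^ 2 * D.2 q ^ 2 + t * (3 * |D.2 q| + 2)) := sum_le_sum fun q _ => by
      have a1 := Int.le_ceil (t * D.2 q)
      have a2 := Int.ceil_lt_add_one (t * D.2 q)
      have a3 : t * D.2 q ≤ t * |D.2 q| := mul_le_mul_of_nonneg_left (le_abs_self _) ht0.le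
      have a4 : 0 ≤ t * |D.2 q| := by positivity
      obtain ⟨u, hu⟩ : ∃ u, (⌈t * D.2 q⌉ : ℝ) = t * D.2 q + u := ⟨_, (add_sub_cancel _ _).symm⟩
      rw [hu] at a1 a2 ⊢
      have u0 : 0 ≤ u := by linarith
      have u1 : u ≤ 1 := by linarith
      nlinarith [mul_le_mul_of_nonneg_left a3 u0, mul_le_mul_of_nonneg_right u1 a4,
        mul_le_mul_of_nonneg_right u1 u0]
    rw [sum_add_distrib, sum_add_distrib, ← mul_sum, ← mul_sum] at h2
    have h3 := mul_le_mul_of_nonneg_left ht ht0.le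
    rw [sq_eq, hK] at h3
    simp only [Tree.sq, ip, aK, mul_one]
    nlinarith
  have e : D = t⁻¹ • (((⌊t * D.1⌋, fun q => ⌈t * D.2 q⌉) : Y.Cl) +
      (t * D.1 - ⌊t * D.1⌋) • (((1 : ℝ), 0) : Y.Cl) + ∑ q, (⌈t * D.2 q⌉ - t * D.2 q) • ee q) := by
    rw [sum_ee]
    refine Prod.ext ?_ (funext fun q => ?_)
    · simp [ht0.ne']
    · simp [ht0.ne', mul_sub]
  rw [e]
  refine ER_smul (add_mem (add_mem (EN_le hx) (ER_smul (EN_le (hh_mem hY)) ?_))
    (sum_mem fun q _ => ER_smul (EN_le (ee_mem q)) ?_)) (by positivity)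
  exacts [sub_nonneg.2 (Int.floor_le _), sub_nonneg.2 (Int.le_ceil _)]

lemma nef_ip {D x : Y.Cl} (h : Y.Nef D) (hx : x ∈ ER Y) : 0 ≤ Y.ip D x :=
  let ⟨_, h1, e⟩ := hx; e ▸ h.ip_cl h1

lemma nef (hY : Y.Plane) (D : Y.Cl) (h : Y.Nef D) :
    0 ≤ D.1 ∧ (∀ q, 0 ≤ D.2 q ∧ D.2 q ≤ D.1) ∧ 0 ≤ Y.sq D := by
  have h1 : 0 ≤ D.1 := by simpa [ip] using nef_ip h (EN_le (hh_mem hY))
  have h3 : 0 ≤ Y.sq D := by
    by_contra hn
    rw [sq_eq, sub_nonneg, not_le] at hn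
    obtain ⟨r, hr, e⟩ : ∃ r, D.1 < r ∧ r ^ 2 = ∑ q, D.2 q ^ 2 :=
      ⟨√_, Real.lt_sqrt_of_sq_lt hn, Real.sq_sqrt (ss_nonneg D)⟩
    have := nef_ip h (effR hY (2 * r - D.1, D.2) (by rw [sq_eq, ← e]; nlinarith)
      (by dsimp only; linarith))
    simp only [ip, ← pow_two, ← e] at this
    nlinarith
  refine ⟨h1, fun q => ⟨by simpa [ip, ee] using nef_ip h (EN_le (ee_mem q)), ?_⟩, h3⟩
  rw [sq_eq, sub_nonneg] at h3
  exact (abs_le_of_sq_le_sq' ((single_le_sum (fun q _ => sq_nonneg (D.2 q)) (mem_univ q)).trans h3)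
    h1).2

lemma mono (D0 : Y.Cl) (B B' : Y.I →₀ ℝ) (h : Y.Nef (D0 - Y.cl B)) (h' : Y.Nef (D0 - Y.cl B'))
    (hB : B ≤ B') : Y.sq (D0 - Y.cl B') ≤ Y.sq (D0 - Y.cl B) := by
  have h1 := h.ip_cl (sub_nonneg.2 hB)
  have h2 := h'.ip_cl (sub_nonneg.2 hB)
  rw [show Y.cl (B' - B) = (D0 - Y.cl B) - (D0 - Y.cl B') by rw [map_sub]; abel,
    ip_sub_right] at h1 h2
  rw [ip_comm] at h2
  simp only [Tree.sq]
  linarith

lemma cl_zero (hY : Y.Plane) (E : Y.I →₀ ℝ) (hE : 0 ≤ E) (h : Y.cl E = 0) : E = 0 := by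
  have h1 : ∀ Γ, E (.inl Γ) = 0 := fun Γ => by
    by_contra hn
    have e := congrArg Prod.fst h
    rw [cl_eq_sum E subset_rfl, Prod.fst_sum, Prod.fst_zero, sum_eq_zero_iff_of_nonneg] at e
    · have := e _ (Finsupp.mem_support_iff.2 hn)
      have := hY.deg_pos Γ
      simp_all [gam]
    · rintro (i | i) _
      · exact mul_nonneg (hE _) (Nat.cast_nonneg _)
      · simp [gam]
  have h2 : E.support ⊆ univ.map Function.Embedding.inr := by
    rintro (i | i) hi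
    · exact absurd (h1 i) (Finsupp.mem_support_iff.1 hi)
    · simp
  have h3 : ∀ q, E (.inr q) = 0 := fun q => by
    induction hn : Y.dep q using Nat.strong_induction_on generalizing q with
    | _ n ih =>
      have e := congrFun (congrArg Prod.snd h) q
      rw [cl_eq_sum E h2, sum_map, Prod.snd_sum, Finset.sum_apply, sum_eq_single q] at e
      · have : q ∉ Y.prox q := fun hq => (Y.prox_dep q q hq).false
        simpa [gam, this] using e
      · intro p _ hp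
        by_cases hq : p ∈ Y.prox q
        · simp [ih _ (hn ▸ Y.prox_dep q p hq) p rfl]
        · simp [gam, hq, hp.symm]
      · simp
  ext (i | i)
  exacts [h1 i, h3 i]

end NNA

theorem na_of : St_NA where
  cone _ := NNA.cone
  hodge _ := NNA.hodge
  hodge0 _ := NNA.hodge0
  effZ _ := NNA.effZ
  effR _ := NNA.effR
  nef _ := NNA.nef
  nef_nef _ hY D D' h h' := NNA.cone D D' (NNA.nef hY D h).2.2 (NNA.nef hY D' h').2.2
    (NNA.nef hY D h).1 (NNA.nef hY D' h').1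
  mono _ := NNA.mono
  cl_zero _ := NNA.cl_zero

end Pool.Agent.Lib.MP_a25055_ag
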