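import Pool.Agent.Lib.MP_a25055_ag.NPWa

/-! The pointwise estimate. -/

open Module Finset

noncomputable section

namespace Pool.Agent.Lib.MP_a25055_ag

namespace NPW

open _root_.Pool.Agent.Lib.MP_a25055_ag.Tree

lemma gap {s p m k η : ℝ} (hk : 0 < k) (hη : 0 ≤ η) (h1 : p * m ≤ s ^ 2) (h2 : k ^ 2 / 10 ≤ p)
    (h3 : 3 * k ^ 2 * η / 2 ≤ m - p) (h4 : s ≤ 3 * k ^ 2) (h5 : p ≤ s) :
    η / 3048000 * k ≤ (s - p) / (76200 * k) := by
  have k2 : 0 < k ^ 2 := by positivity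
  have a1 : k ^ 2 / 10 * (3 * k ^ 2 * η / 2) ≤ p * (m - p) :=
    mul_le_mul h2 h3 (by positivity) (by linarith)
  have a2 : (s - p) * (s + p) ≤ (s - p) * (6 * k ^ 2) :=
    mul_le_mul_of_nonneg_left (by linarith) (by linarith)
  have a3 : η * k ^ 2 / 40 * k ^ 2 ≤ (s - p) * k ^ 2 := by linarith
  have a4 := le_of_mul_le_mul_right a3 k2
  rw [le_div_iff₀ (by positivity)]
  linarith

variable {Y : Tree} {k : ℕ} {S : Sec Y k} {c0 : ℕ} {ε : ℝ} {U0 U1 : Submodule ℂ S.V}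
  {Bt Bc : Y.I →₀ ℝ} {Q : Finset Y.T}

lemma toR_nonneg {ι : Type} (B : ι →₀ ℕ) : 0 ≤ toR B := fun i => Nat.cast_nonneg (B i)

lemma toR_mono {ι : Type} {B B' : ι →₀ ℕ} (h : B ≤ B') : toR B ≤ toR B' :=
  fun i => Nat.cast_le.2 (h i)

lemma bo_apply (h : toR (S.base U0) ≤ Bc) (i : Y.I) :
    S.Bo U0 Bt Bc i = if Bt i = toR (S.base U0) i then toR (S.base U0) i else Bc i := by
  rw [Sec.Bo, dv_apply, toR_apply]
  by_cases h1 : i ∈ Bc.support
  · rw [if_pos h1]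
  · have h2 := Finsupp.notMem_support_iff.1 h1
    have h3 : (S.base U0 i : ℝ) = 0 := le_antisymm ((h i).trans_eq h2) (Nat.cast_nonneg _)
    rw [if_neg h1, h2, h3, ite_self]

lemma front (hA : St_NA) (hY : Y.DP) (hk : (0 : ℝ) < k) (c : S.Ctx c0 ε U0 U1 Bt Bc Q) {z : ℝ}
    (hz : z = 0 ∨ z = 1 ∧ 3 / 5 * k ^ 2 ≤ Y.sq ((k : ℝ) • Y.L - Y.cl Bt) ∧
      S.fM U0 ≤ eta / 2 ∧ eta < S.fM U1) :
    0 ≤ z * (eta / 3048000 * k) ∧ z * (eta / 3048000 * k) ≤ k ∧ z * (eta / 3048000 * k) ≤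
      Y.ip ((k : ℝ) • Y.L - Y.cl Bt) ((k : ℝ) • Y.L - Y.cl (S.Bo U0 Bt Bc)) / (2 * k) := by
  have h1 : S.Bo U0 Bt Bc ≤ Bc := fun i => by
    rw [bo_apply c.loc]
    split_ifs
    exacts [c.loc i, le_rfl]
  have h2 := ip_mono c.nef ((k : ℝ) • Y.L) h1
  have h3 := hA.nef_nef Y hY.toPlane _ _ c.nef c.nefc
  rcases hz with rfl | ⟨rfl, h4, -⟩
  · rw [zero_mul]
    exact ⟨le_rfl, hk.le, div_nonneg (h3.trans h2) (by positivity)⟩
  have k2 : (0 : ℝ) < k ^ 2 := by positivity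
  have h5 := hA.hodge Y _ ((k : ℝ) • Y.L - Y.cl Bc) ((by positivity : (0 : ℝ) ≤ _).trans h4)
  have h6 := mul_le_mul h4 c.bigc (by positivity) ((by positivity : (0 : ℝ) ≤ _).trans h4)
  have h7 : 2 / 5 * (k : ℝ) ^ 2 ≤ Y.ip ((k : ℝ) • Y.L - Y.cl Bt) ((k : ℝ) • Y.L - Y.cl Bc) :=
    (pow_le_pow_iff_left₀ (by positivity) h3 two_ne_zero).1 (by nlinarith)
  unfold eta
  refine ⟨by positivity, by linarith, ?_⟩
  rw [le_div_iff₀ (by positivity)]
  linarith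

end NPW

open NPW _root_.Pool.Agent.Lib.MP_a25055_ag.Tree

theorem pw_of (hA : St_NA) (hB : St_NB) (hZ : St_ZAR) (hL : St_LIP) (hW : St_LOW) (h1 : St_PW1)
    (h2 : St_PW2) (h3 : St_PW3) : St_PW := by
  refine ⟨eta / 3048000, by unfold eta; positivity, fun c0 ε hε => ?_⟩
  obtain ⟨C2, p2, h2⟩ := h2 c0 ε hε
  obtain ⟨C3, p3, h3⟩ := h3 c0 ε hε
  obtain ⟨CL, pL, hL⟩ := hL (c0 + 12) ε hε
  obtain ⟨δ, pδ, δ1, δ2⟩ : ∃ δ : ℝ, 0 < δ ∧ δ ≤ ε / 8 ∧ δ ≤ 1 / 20 :=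
    ⟨min (ε / 8) (1 / 20), lt_min (by positivity) (by norm_num), min_le_left _ _, min_le_right _ _⟩
  have q1 : 0 < 28 / δ := by positivity
  have q2 : 0 < ((c0 : ℝ) + 12) * (C2 + C3 + 49) := by positivity
  refine ⟨CL + 28 / δ + (c0 + 12) * (C2 + C3 + 49) + 9 * (C2 + C3) + 4, by positivity,
    fun k Y hY S U0 U1 Bt Bc Bb Q hk hg c b0 nb hb z hz => ?_⟩
  have kp : (0 : ℝ) < k := by linarith
  have k1 : 1 ≤ k := Nat.succ_le_of_lt (Nat.cast_pos.1 kp)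
  have kδ : 28 ≤ δ * k := by
    have : 28 / δ ≤ k := by linarith
    rwa [div_le_iff₀' pδ] at this
  have t0 : 0 ≤ Bt := (toR_nonneg _).trans c.lo
  have n0 : U0 ≠ ⊥ := fun h => c.ne (eq_bot_iff.2 (h ▸ c.le))
  obtain ⟨a1, a2, a3, a4⟩ := h2 k Y hY S U0 U1 Bt Bc Q (by linarith) c
  have a5 := h1 Y hY.toPlane k S U1 Bt (Y.SS k Bc Q) hg.col t0 c.hi
  have a6 := (hL Y hY Q (Y.SS k Bc Q) k Bt (fun j => (⌈Bt j⌉₊ + 48 : ℕ)) c.qok.closed
    (c.qok.card.trans (by omega)) c.qok.disc a1 (fun j hj => ⟨(a2 j hj).1, (a2 j hj).2.1⟩)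
    (by linarith) t0 c.nef c.big fun j _ => by
      push_cast
      linarith [(Nat.ceil_lt_add_one (t0 j)).le]).2.1
  obtain ⟨-, w1, w2, -, -⟩ := hZ.least Y hY.toPlane _ _ a3
  obtain ⟨z0, z1, z2⟩ := front hA hY kp c hz
  obtain ⟨f0, -, f1, f2, -⟩ := hW.fM Y hY k S U0 k1 n0
  have h3 := fun hne => h3 k Y hY S U0 U1 Bt Bc Q (by linarith) c _ rfl hne _ rfl
  change _ ≤ 4 * Y.sq (Y.dmin _ (Y.Xs Bt (Y.SS k Bc Q))) at a6
  set SS := Y.SS k Bc Q with hSS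
  set U' := S.Up U1 Bt SS with hU'
  set BW := Y.bmin ((k : ℝ) • Y.L) (Y.Xs Bt SS)
  rw [w1] at a4 a6 w2
  let ht : Y.I → ℝ := fun j => Y.hf ((k : ℝ) • Y.L) Bt j (⌈Bt j⌉₊ + 48 : ℕ)
  let e : Y.I → ℝ := fun j => -(ht j / 2) +
    if Bt j = toR (S.base U0) j then Y.ip ((k : ℝ) • Y.L - Y.cl Bt) (Y.gam j) / 2 else ht j / 147
  have top : ∀ j ∈ SS, 0 ≤ ht j ∧ ht j ≤ 36 * k ∧
      Y.ip ((k : ℝ) • Y.L - Y.cl Bt) (Y.gam j) ≤ ht j + (C2 + C3) := fun j hj => by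
    obtain ⟨-, x1, x2, x3⟩ := (a2 j hj).2.2.2 (⌈Bt j⌉₊ + 48 : ℕ) (by
      push_cast
      exact ⟨by linarith [Nat.le_ceil (Bt j)], by linarith [(Nat.ceil_lt_add_one (t0 j)).le]⟩)
    rw [hZ.self Y hY.toPlane _ _ _ t0 c.nef] at x3
    exact ⟨x1, x2, by linarith⟩
  have n1 : (SS.card : ℝ) ≤ c0 + 12 := by exact_mod_cast a1
  have red : ∑ j ∈ SS, colV (Y.hf ((k : ℝ) • Y.L) Bt j) (Bt j) (S.base U0 j) 48 k +
      finrank ℂ U1 ≤ (Y.sq ((k : ℝ) • Y.L - Y.cl Bt) - Y.sq ((k : ℝ) • Y.L - Y.cl BW)) / 2 + C2 +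
      finrank ℂ U' + SS.card * 48 + ∑ j ∈ SS, e j := by
    have : ∀ j ∈ SS, colV (Y.hf ((k : ℝ) • Y.L) Bt j) (Bt j) (S.base U0 j) 48 k =
        (∑ m ∈ Ioc ⌊k * Bt j⌋₊ (k * (⌈Bt j⌉₊ + 48)), Y.hf ((k : ℝ) • Y.L) Bt j (m / k)) / k -
        ∑ i ∈ Ico ⌈Bt j⌉₊ (⌈Bt j⌉₊ + 48), (Y.hf ((k : ℝ) • Y.L) Bt j i + 1) + 48 + e j := by
      intro j _
      simp only [colV, e, ht, toR_apply, sum_add_distrib, sum_const, Nat.card_Ico]
      split_ifs with h
      · rw [← h, hZ.self Y hY.toPlane _ _ _ t0 c.nef]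
        simp
        ring
      · simp
        ring
    rw [sum_congr rfl this]
    rw [sum_add_distrib, sum_add_distrib, sum_sub_distrib, sum_const, nsmul_eq_mul]
    linarith
  have m0 : 0 ≤ min (Y.kap (S.mov U0)) k := le_min f1 kp.le
  have m1 := mul_nonneg kp.le f0
  have big := c.big
  have k2 : (0 : ℝ) < k ^ 2 := by positivity
  suffices H : finrank ℂ U' + ∑ j ∈ SS, e j + S.Psi U0 U' Bt Bc Bb SS + z * (eta / 3048000 * k) ≤
      Y.sq ((k : ℝ) • Y.L - Y.cl BW) / 2 + Y.ip ((k : ℝ) • Y.L - Y.cl Bt)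
        ((k : ℝ) • Y.L - Y.cl (S.Bo U0 Bt Bc)) / (2 * k) + SS.card * (C2 + C3 + 1) +
        8 * (C2 + C3) + 2 + 2 * (k * S.fM U0) by
    have y1 := mul_le_mul_of_nonneg_right n1 (show 0 ≤ C2 + C3 + 49 by positivity)
    have y2 := mul_le_mul_of_nonneg_right (show 2 ≤ CL + 28 / δ + (c0 + 12) * (C2 + C3 + 49) +
      9 * (C2 + C3) + 4 by linarith) (add_nonneg m0 m1)
    unfold Sec.mu
    linarith
  have c1 : (0 : ℝ) ≤ SS.card := Nat.cast_nonneg _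
  by_cases hne : U' = ⊥
  · have : ∑ j ∈ SS, e j ≤ SS.card * (C2 + C3) := by
      rw [← nsmul_eq_mul]
      refine sum_le_card_nsmul _ _ _ fun j hj => ?_
      obtain ⟨x1, -, x3⟩ := top j hj
      simp only [e]
      split_ifs <;> linarith
    have := mul_pos hε k2
    rw [Sec.Psi, if_pos hne, hne, finrank_bot]
    push_cast
    linarith
  obtain ⟨r1, r2, r3⟩ := h3 hne
  have le1 : U' ≤ U1 := inf_le_left
  have b1 := toR_mono (S.base_mono le1 hne)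
  have up : ∀ j ∈ SS, ⌈Bt j⌉₊ + 48 ≤ S.base U' j := fun j hj =>
    (S.le_base hne).2 (inf_le_right.trans (iInf₂_le j hj))
  have d : Dat Y k (C2 + C3) (toR (S.base U0)) Bt Bc Bb (toR (S.base U')) BW (S.Bo U0 Bt Bc) SS e
      fun i => if S.base U0 i < S.base U' i then 3 / 8 * min 1 ((4 * Bc i + Bb i) / k) *
        ((min (S.base U' i - Bt i) 1 - 1 / 2) * Y.ip (S.mov U') (Y.gam i)) else 0 :=
    { dp := hY, pos := kp, hC := by positivity, h0 := toR_nonneg _, h0t := c.lo, h0c := c.loc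
      ht' := c.hi.trans b1, hW := r1, hb := hb hne, n0 := S.nef_mov hY.toPlane n0, nt := c.nef
      nc := c.nefc, nb := nb, n' := S.nef_mov hY.toPlane hne, nW := w2, bo := bo_apply c.loc
      lam := c.lam
      out := fun q hq => by
        have : q ∉ Q := fun h => hq (mem_union_left _ (mem_image_of_mem _ h))
        refine ⟨?_, c.qok.out q this⟩
        rw [disc_eq, if_neg fun h => this (c.qok.sub h)]
        exact_mod_cast Nat.le_add_right _ _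
      pl := fun i hi hl => by
        by_contra h
        refine hi (mem_union_right _ (mem_filter.2 ⟨Finsupp.mem_support_iff.2 ?_, hl, not_le.1 h⟩))
        linarith [not_le.1 h]
      col := fun j hj => by
        obtain ⟨x1, x2, x3⟩ := top j hj
        have x4 : ((⌈Bt j⌉₊ + 48 : ℕ) : ℝ) ≤ S.base U' j := Nat.cast_le.2 (up j hj)
        have x5 : toR (S.base U0) j ≤ Bt j := c.lo j
        push_cast at x4
        refine ⟨by rw [toR_apply (S.base U')]; linarith [Nat.le_ceil (Bt j)], ht j, x1, x2, x3, rfl,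
          (r2 j hj).imp_right (Or.imp (fun h => h.trans (by linarith)) fun h => ⟨h.2, fun h' => ?_⟩)⟩
        rw [toR_apply, h.1, h', toR_apply, Nat.ceil_natCast]
        push_cast
        rfl
      pw := fun i hi hl => (r3 i hi hl).trans (add_le_add_right (mul_le_mul_of_nonneg_right
        (by linarith) (zero_le_one.trans (one_le_sz hY.toPlane i))) _)
      psi := fun i => by simp only [toR_apply, Nat.cast_lt, Sec.mov] }
  rw [Sec.Psi, if_neg hne]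
  have e1 := d.e_le
  rcases le_total (δ * k ^ 2) (Y.sq ((k : ℝ) • Y.L - Y.cl BW) - Y.sq (S.mov U')) with hh | hh
  · have x1 := hW.crude Y hY k S U' k1 hg.rr
    have x2 := d.psi_huge hB (Bb.support.filter fun i => i.isLeft ∧ i ∉ SS)
      fun i hi => (mem_filter.1 hi).2.1
    have x3 := mul_le_mul_of_nonneg_right kδ kp.le
    linarith
  have x1 := mul_le_mul_of_nonneg_right δ1 k2.le
  have x2 := mul_le_mul_of_nonneg_right kδ kp.le
  have x3 := hg.rr U' hne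
  have x4 := d.psi_le hB (Bb.support.filter fun i => i.isLeft ∧ i ∉ SS)
    fun i hi => (mem_filter.1 hi).2
  rcases le_max_iff.1 x3 with x | x
  · unfold Sec.mov at hh
    linarith
  rcases le_total 2 (1 + Y.ip (S.mov U') Y.aK / 2) with x5 | x5
  swap
  · rw [max_eq_left x5] at x
    unfold Sec.mov at x
    linarith
  rw [max_eq_right x5] at x
  have x6 := d.nonsp hB
  have x7 : Y.ip (S.mov U0) (Y.cl (toR (S.base U0))) / (2 * k) ≤ 2 * (k * S.fM U0) := by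
    rw [div_le_iff₀ (by positivity)]
    nlinarith
  have x8 : z * (eta / 3048000 * k) ≤
      Y.ip (S.mov U') (Y.cl (toR (S.base U') - toR (S.base U0))) / (76200 * k) := by
    have y0 := d.n'.ip_cl (sub_nonneg.2 (d.h0t.trans d.ht'))
    rcases hz with rfl | ⟨rfl, y1, y2, y3⟩
    · rw [zero_mul]
      exact div_nonneg y0 (by positivity)
    have y4 : Y.cl (toR (S.base U') - toR (S.base U0)) = S.mov U0 - S.mov U' := by
      rw [map_sub, Sec.mov, Sec.mov]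
      abel
    have y5 := hA.mono Y _ _ _ (S.nef_mov hY.toPlane c.ne) d.n' b1
    have y6 := mul_le_mul_of_nonneg_right δ2 k2.le
    have y7 := ip_mono d.n' ((k : ℝ) • Y.L) d.h0
    have y8 := mul_le_mul_of_nonneg_left (hB.maxord Y hY k _ (toR_nonneg _) d.n').2.2.2.2 kp.le
    rw [map_zero, sub_zero, ip_smul_right] at y7
    rw [y4, ip_sub_right] at y0
    rw [Sec.fM, sub_le_comm, le_div_iff₀ (by positivity)] at y2
    rw [Sec.fM, lt_sub_comm, div_lt_iff₀ (by positivity)] at y3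
    rw [one_mul, y4, ip_sub_right]
    refine gap kp (by unfold eta; positivity) (hA.hodge Y _ (S.mov U0)
      (hA.nef Y hY.toPlane _ d.n').2.2) ?_ ?_ ?_ ?_
    all_goals unfold Sec.mov Tree.sq at *
    all_goals linarith
  unfold Sec.mov at *
  linarith

end Pool.Agent.Lib.MP_a25055_ag
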