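import Pool.Agent.Lib.MP_a25055_ag.Num

/-! The pointwise estimate: numerical part. -/

open Module Finset

noncomputable section

namespace Pool.Agent.Lib.MP_a25055_ag

namespace NPW

open _root_.Pool.Agent.Lib.MP_a25055_ag.Tree

lemma sum_le {ι : Type} [DecidableEq ι] {f : ι → ℝ} (s t : Finset ι) (h0 : ∀ i, 0 ≤ f i)
    (h : ∀ i ∉ t, f i = 0) : ∑ i ∈ s, f i ≤ ∑ i ∈ t, f i :=
  (sum_le_sum_of_subset_of_nonneg subset_union_left fun i _ _ => h0 i).trans_eq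
    (sum_subset subset_union_right fun i _ hi => h i hi).symm

variable {Y : Tree}

lemma sum_le_ip {D : Y.Cl} (hD : Y.Nef D) {E : Y.I →₀ ℝ} (hE : 0 ≤ E) (s : Finset Y.I) :
    ∑ i ∈ s, E i * Y.ip D (Y.gam i) ≤ Y.ip D (Y.cl E) := by
  rw [ip_cl D E subset_rfl]
  exact sum_le _ _ (fun i => mul_nonneg (hE i) (hD i)) fun i hi => by
    rw [Finsupp.notMem_support_iff.1 hi, zero_mul]

lemma ip_ge (hY : Y.Plane) (D0 : Y.Cl) {B B' : Y.I →₀ ℝ} (h : B ≤ B') {i : Y.I} (hi : B i = B' i) :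
    Y.ip (D0 - Y.cl B') (Y.gam i) ≤ Y.ip (D0 - Y.cl B) (Y.gam i) := by
  have := hY.cl_ip (E := B' - B) (sub_nonneg.2 h) (i := i) (by simp [hi])
  rw [map_sub, ip_sub_left] at this
  rw [ip_sub_left, ip_sub_left]
  linarith

lemma ip_mono {D : Y.Cl} (hD : Y.Nef D) (D0 : Y.Cl) {B B' : Y.I →₀ ℝ} (h : B ≤ B') :
    Y.ip D (D0 - Y.cl B') ≤ Y.ip D (D0 - Y.cl B) := by
  have := hD.ip_cl (E := B' - B) (sub_nonneg.2 h)
  rw [map_sub, ip_sub_right] at this
  rw [ip_sub_right, ip_sub_right]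
  linarith

lemma one_le_A (i : Y.I) : 1 ≤ Y.A i := by
  cases i with
  | inl _ => exact le_rfl
  | inr q => exact le_add_of_nonneg_left (Nat.cast_nonneg _)

lemma one_le_sz (hY : Y.Plane) (i : Y.I) : 1 ≤ Y.sz i := by
  cases i with
  | inl G => exact Nat.one_le_cast.2 (hY.deg_pos G)
  | inr q => exact le_rfl

lemma colN {z m A l ht C b : ℝ} (hz : 0 ≤ z) (hm : 0 ≤ m) (hA : 1 ≤ A) (hl : l ≤ 24 / 25 * A)
    (ht0 : 0 ≤ ht) (hC : 0 ≤ C) (hb : b ≤ 381 * A) (h : 1 ≤ z ∨ m ≤ C ∨ m ≤ ht) :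
    b * m / 76200 - C ≤ (z + (A - 1) - l) * m / 2 + ht / 2 - ht / 147 := by
  have h1 := mul_le_mul_of_nonneg_right hb hm
  have h2 := mul_le_mul_of_nonneg_right hl hm
  have h3 := mul_le_mul_of_nonneg_right hA hm
  have h4 := mul_nonneg hz hm
  rcases h with h | h | h
  · have := mul_le_mul_of_nonneg_right h hm
    nlinarith
  · nlinarith
  · nlinarith

lemma colF {z m A l w h0 ht g C b : ℝ} (hz : 0 ≤ z) (hm : 0 ≤ m) (hA : 1 ≤ A)
    (hl : l ≤ 24 / 25 * A) (hw0 : 0 ≤ w) (hw : w ≤ l) (h00 : 0 ≤ h0) (hh : h0 ≤ ht + C) (hg : h0 ≤ g)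
    (hC : 0 ≤ C) (hb : b ≤ 381 * A) (h : 1 ≤ z ∨ m ≤ C ∨ m ≤ ht ∧ b * m ≤ 76200) :
    b * m / 76200 - w * g / 2 - (C + 1) ≤
      (z + (A - 1) - l) * m / 2 + (l - w) * h0 / 2 + ht / 2 - h0 / 2 := by
  have h1 := mul_le_mul_of_nonneg_right hb hm
  have h2 := mul_le_mul_of_nonneg_right hl hm
  have h3 := mul_le_mul_of_nonneg_right hA hm
  have h4 := mul_nonneg hz hm
  have h5 := mul_nonneg (sub_nonneg.2 hw) h00
  have h6 := mul_nonneg hw0 (h00.trans hg)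
  have h7 := mul_le_mul_of_nonneg_left hg hw0
  rcases h with h | h | ⟨h, h'⟩
  · have := mul_le_mul_of_nonneg_right h hm
    nlinarith
  · nlinarith
  · rcases le_total l (A - 1) with e | e
    · have := mul_nonneg (sub_nonneg.2 e) hm
      have := mul_nonneg (hw0.trans hw) h00
      nlinarith
    · have a1 := mul_le_mul_of_nonneg_left h (sub_nonneg.2 e)
      have a2 := mul_le_mul_of_nonneg_left hh (show 0 ≤ A - l by linarith)
      have a3 := mul_nonneg (sub_nonneg.2 hA) h00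
      have a4 := mul_nonneg (sub_nonneg.2 e) hC
      nlinarith

lemma plane {z m u w C s : ℝ} (hz : 0 ≤ z) (hm : 0 ≤ m) (hw0 : 0 ≤ w) (hw : w ≤ 1)
    (h : 3 / 4 * u * m ≤ z * m + C * s) :
    3 / 8 * w * ((u - 1 / 2) * m) + 3 / 16 * (w * m) ≤ z * m / 2 + C / 2 * (w * s) := by
  have h1 := mul_le_mul_of_nonneg_left h hw0
  have h2 := mul_le_mul_of_nonneg_right hw (mul_nonneg hz hm)
  nlinarith

/-- The numerical data of the pointwise estimate. -/
structure Dat (Y : Tree) (κ C : ℝ) (B0 Bt Bc Bb B' BW Bo : Y.I →₀ ℝ) (SS : Finset Y.I)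
    (e psi : Y.I → ℝ) : Prop where
  dp : Y.DP
  pos : 0 < κ
  hC : 0 ≤ C
  h0 : 0 ≤ B0
  h0t : B0 ≤ Bt
  h0c : B0 ≤ Bc
  ht' : Bt ≤ B'
  hW : BW ≤ B'
  hb : B' ≤ Bb
  n0 : Y.Nef (κ • Y.L - Y.cl B0)
  nt : Y.Nef (κ • Y.L - Y.cl Bt)
  nc : Y.Nef (κ • Y.L - Y.cl Bc)
  nb : Y.Nef (κ • Y.L - Y.cl Bb)
  n' : Y.Nef (κ • Y.L - Y.cl B')
  nW : Y.Nef (κ • Y.L - Y.cl BW)
  bo : ∀ i, Bo i = if Bt i = B0 i then B0 i else Bc i
  lam : ∀ i, Bc i ≤ 24 / 25 * κ * Y.A i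
  out : ∀ q, Sum.inr q ∉ SS → 1 ≤ (Y.disc q : ℝ) ∧ Bc (.inr q) ≤ 49 / 50 * κ * Y.disc q
  pl : ∀ i ∉ SS, i.isLeft → Bc i ≤ κ / 4
  col : ∀ j ∈ SS, B0 j < B' j ∧ ∃ ht : ℝ, 0 ≤ ht ∧ ht ≤ 36 * κ ∧
    Y.ip (κ • Y.L - Y.cl Bt) (Y.gam j) ≤ ht + C ∧
    e j = -(ht / 2) + (if Bt j = B0 j then Y.ip (κ • Y.L - Y.cl Bt) (Y.gam j) / 2 else ht / 147) ∧
    (1 ≤ B' j - BW j ∨ Y.ip (κ • Y.L - Y.cl B') (Y.gam j) ≤ C ∨
      Y.ip (κ • Y.L - Y.cl B') (Y.gam j) ≤ ht ∧ (Bt j = B0 j → B' j = B0 j + 48))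
  pw : ∀ i ∉ SS, i.isLeft → 3 / 4 * min (B' i - Bt i) 1 * Y.ip (κ • Y.L - Y.cl B') (Y.gam i) ≤
    (B' i - BW i) * Y.ip (κ • Y.L - Y.cl B') (Y.gam i) + C * Y.sz i
  psi : ∀ i, psi i = if B0 i < B' i then 3 / 8 * min 1 ((4 * Bc i + Bb i) / κ) *
    ((min (B' i - Bt i) 1 - 1 / 2) * Y.ip (κ • Y.L - Y.cl B') (Y.gam i)) else 0

lemma wsum (hB : St_NB) (hY : Y.DP) {κ : ℝ} (hκ : 0 < κ) {Bc Bb : Y.I →₀ ℝ} (hc : 0 ≤ Bc)
    (hb : 0 ≤ Bb) (nc : Y.Nef (κ • Y.L - Y.cl Bc)) (nb : Y.Nef (κ • Y.L - Y.cl Bb))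
    (s : Finset Y.I) (hs : ∀ i ∈ s, i.isLeft) :
    ∑ i ∈ s, min 1 ((4 * Bc i + Bb i) / κ) * Y.sz i ≤ 15 := by
  have h1 := (hB.maxord Y hY κ Bc hc nc).2.1 s hs
  have h2 := (hB.maxord Y hY κ Bb hb nb).2.1 s hs
  calc _ ≤ ∑ i ∈ s, (4 * (Bc i * Y.sz i) + Bb i * Y.sz i) / κ := sum_le_sum fun i _ => by
        refine (mul_le_mul_of_nonneg_right (min_le_right _ _)
          (zero_le_one.trans (one_le_sz hY.toPlane i))).trans_eq ?_
        ring
    _ ≤ 15 := by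
        rw [← sum_div, sum_add_distrib, ← mul_sum, div_le_iff₀ hκ]
        linarith

namespace Dat

variable {κ C : ℝ} {B0 Bt Bc Bb B' BW Bo : Y.I →₀ ℝ} {SS : Finset Y.I} {e psi : Y.I → ℝ}
  (d : Dat Y κ C B0 Bt Bc Bb B' BW Bo SS e psi)

include d

lemma c0 : 0 ≤ Bc := d.h0.trans d.h0c

lemma b0 : 0 ≤ Bb := ((d.h0.trans d.h0t).trans d.ht').trans d.hb

lemma w0 (i : Y.I) : 0 ≤ min 1 ((4 * Bc i + Bb i) / κ) :=
  le_min zero_le_one (div_nonneg (add_nonneg (mul_nonneg (by norm_num) (d.c0 i)) (d.b0 i)) d.pos.le)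

lemma e_le : ∑ j ∈ SS, e j ≤ SS.card * C := by
  rw [← nsmul_eq_mul]
  refine sum_le_card_nsmul _ _ _ fun j hj => ?_
  obtain ⟨-, ht, h1, -, h2, h3, -⟩ := d.col j hj
  have := d.hC
  rw [h3]
  split_ifs <;> linarith

lemma drop (s : Finset Y.I) :
    ∑ i ∈ s, (B' i - BW i) * Y.ip (κ • Y.L - Y.cl B') (Y.gam i) ≤
      Y.sq (κ • Y.L - Y.cl BW) - Y.sq (κ • Y.L - Y.cl B') := by
  have h1 := sum_le_ip d.n' (E := B' - BW) (sub_nonneg.2 d.hW) s
  have h2 := ip_mono d.nW (κ • Y.L) d.hW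
  simp only [Finsupp.sub_apply] at h1
  rw [map_sub, show Y.cl B' - Y.cl BW = (κ • Y.L - Y.cl BW) - (κ • Y.L - Y.cl B') by abel,
    ip_sub_right, ip_comm] at h1
  unfold Tree.sq
  linarith

lemma psi_huge (hB : St_NB) (F : Finset Y.I) (hF : ∀ i ∈ F, i.isLeft) :
    ∑ i ∈ F, psi i ≤ 9 * κ := by
  have h1 := wsum hB d.dp d.pos d.c0 d.b0 d.nc d.nb F hF
  have h2 := (hB.maxord Y d.dp κ B' ((d.h0.trans d.h0t).trans d.ht') d.n').2.2.1
  have hk := d.pos
  calc _ ≤ ∑ i ∈ F, 9 / 16 * κ * (min 1 ((4 * Bc i + Bb i) / κ) * Y.sz i) :=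
        sum_le_sum fun i _ => by
          have w := d.w0 i
          have m := d.n' i
          have a := mul_le_mul_of_nonneg_left (h2 i) w
          have b := mul_le_mul_of_nonneg_right (min_le_right (B' i - Bt i) 1) (mul_nonneg w m)
          have c := mul_nonneg w m
          rw [d.psi]
          split_ifs <;> nlinarith
    _ ≤ 9 * κ := by
        rw [← mul_sum]
        nlinarith

lemma psi_le (hB : St_NB) (F : Finset Y.I) (hF : ∀ i ∈ F, i.isLeft ∧ i ∉ SS) :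
    ∑ i ∈ F, psi i ≤ (Y.sq (κ • Y.L - Y.cl BW) - Y.sq (κ • Y.L - Y.cl B')) / 2 + 8 * C := by
  have h1 := wsum hB d.dp d.pos d.c0 d.b0 d.nc d.nb F fun i hi => (hF i hi).1
  have h2 := d.drop F
  have hC := d.hC
  calc _ ≤ ∑ i ∈ F, ((B' i - BW i) * Y.ip (κ • Y.L - Y.cl B') (Y.gam i) / 2 +
        C / 2 * (min 1 ((4 * Bc i + Bb i) / κ) * Y.sz i)) :=
        sum_le_sum fun i hi => by
          have w := d.w0 i
          have m := d.n' i
          have z : 0 ≤ B' i - BW i := sub_nonneg.2 (d.hW i)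
          have a := plane z m w (min_le_left _ _) (d.pw i (hF i hi).2 (hF i hi).1)
          have b := mul_nonneg w m
          have c := mul_nonneg z m
          have := mul_nonneg hC (mul_nonneg w (zero_le_one.trans (one_le_sz d.dp.toPlane i)))
          rw [d.psi]
          split_ifs <;> linarith
    _ ≤ _ := by
        rw [sum_add_distrib, ← mul_sum, ← sum_div]
        nlinarith

lemma bo_le : Bo ≤ Bc := fun i => by
  rw [d.bo]
  split_ifs
  exacts [d.h0c i, le_rfl]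

open Classical in
lemma term (hB : St_NB) (i : Y.I) {bs : ℝ} (hs : bs = if B0 i < B' i then Bc i else B0 i) :
    (B' i - B0 i) * Y.ip (κ • Y.L - Y.cl B') (Y.gam i) / (76200 * κ) +
      (if i ∈ SS then e i else 0) +
      (if i ∈ Bb.support.filter (fun i => i.isLeft ∧ i ∉ SS) then psi i else 0) +
      bs * Y.ip (κ • Y.L - Y.cl B') (Y.gam i) / (2 * κ) ≤
    (B' i - BW i) * Y.ip (κ • Y.L - Y.cl B') (Y.gam i) / 2 +
      (Y.A i - 1) * Y.ip (κ • Y.L - Y.cl B') (Y.gam i) / 2 +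
      (bs - Bo i) * Y.ip (κ • Y.L - Y.cl Bt) (Y.gam i) / (2 * κ) +
      B0 i * Y.ip (κ • Y.L - Y.cl B0) (Y.gam i) / (2 * κ) + (if i ∈ SS then C + 1 else 0) +
      C / 2 * (if i.isLeft then min 1 ((4 * Bc i + Bb i) / κ) * Y.sz i else 0) := by
  have hk := d.pos
  have hC := d.hC
  have m := d.n' i
  have p := d.nt i
  have g := d.n0 i
  have z : 0 ≤ B' i - BW i := sub_nonneg.2 (d.hW i)
  have hA := one_le_A i
  have o0 : 0 ≤ B0 i := d.h0 i
  have o1 : B0 i ≤ Bc i := d.h0c i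
  have o2 : B0 i ≤ B' i := (d.h0t i).trans (d.ht' i)
  have w := d.w0 i
  have sz := one_le_sz d.dp.toPlane i
  have mo := hB.maxord Y d.dp κ B' ((d.h0.trans d.h0t).trans d.ht') d.n'
  have hb : (B' i - B0 i) / κ ≤ 381 * Y.A i := by
    rw [div_le_iff₀ hk]
    linarith [mo.1 i]
  have hl : Bc i / κ ≤ 24 / 25 * Y.A i := by
    rw [div_le_iff₀ hk]
    linarith [d.lam i]
  have last : 0 ≤ C / 2 * (if i.isLeft then min 1 ((4 * Bc i + Bb i) / κ) * Y.sz i else 0) := by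
    refine mul_nonneg (by linarith) ?_
    split_ifs
    exacts [mul_nonneg w (by linarith), le_rfl]
  have e1 : ∀ x y : ℝ, x * y / (2 * κ) = x / κ * y / 2 := fun x y => by field_simp
  have e2 : ∀ x y : ℝ, x * y / (76200 * κ) = x / κ * y / 76200 := fun x y => by field_simp
  have og := mul_nonneg (div_nonneg o0 hk.le) g
  have zm := mul_nonneg z m
  have am := mul_nonneg (sub_nonneg.2 hA) m
  simp only [e1, e2]
  by_cases hj : i ∈ SS
  · obtain ⟨h1, ht, h2, h3, h4, h5, h6⟩ := d.col i hj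
    rw [if_pos hj, if_pos hj, if_neg (by simp [hj]), hs, if_pos h1, h5, d.bo]
    by_cases hf : Bt i = B0 i
    · have := colF z m hA hl (div_nonneg o0 hk.le) (div_le_div_of_nonneg_right o1 hk.le) p h4
        (ip_ge d.dp.toPlane _ d.h0t hf.symm) hC hb (h6.imp_right (Or.imp_right fun h => ⟨h.1, by
          rw [h.2 hf, add_sub_cancel_left, div_mul_eq_mul_div, div_le_iff₀ hk]
          linarith [h.1]⟩))
      rw [if_pos hf, if_pos hf, sub_div (Bc i)]
      linarith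
    · have := colN z m hA hl h2 hC hb (h6.imp_right (Or.imp_right fun h => h.1))
      rw [if_neg hf, if_neg hf, sub_self, zero_div, zero_mul]
      linarith
  rw [if_neg hj, if_neg hj]
  by_cases hm : B0 i < B' i
  swap
  · have e3 : B' i = B0 i := le_antisymm (not_lt.1 hm) o2
    have e4 : Bt i = B0 i := le_antisymm (e3 ▸ d.ht' i) (d.h0t i)
    have := mul_le_mul_of_nonneg_left (ip_ge d.dp.toPlane (κ • Y.L)
      (d.h0t.trans d.ht') e3.symm) (div_nonneg o0 hk.le)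
    rw [hs, if_neg hm, d.bo, if_pos e4, d.psi, if_neg hm, ite_self, sub_self,
      show B' i - B0 i = 0 by linarith, zero_div, zero_mul, zero_mul]
    linarith
  have qq := mul_nonneg (div_nonneg (sub_nonneg.2 (d.bo_le i)) hk.le) p
  rw [hs, if_pos hm]
  cases i with
  | inr q =>
    obtain ⟨h1, h2⟩ := d.out q hj
    have h3 : Bc (.inr q) / κ ≤ 49 / 50 * Y.disc q := by
      rw [div_le_iff₀ hk]
      linarith
    have h4 := mul_le_mul_of_nonneg_right h3 m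
    have h5 := mul_le_mul_of_nonneg_right hb m
    have h6 := mul_le_mul_of_nonneg_right h1 m
    rw [if_neg (by simp)]
    simp only [Tree.A] at *
    linarith
  | inl G =>
    have h1 : B' (.inl G) ≤ Bb (.inl G) := d.hb _
    have h2 := d.pl _ hj rfl
    have h3 := mo.2.1 {.inl G} (by simp)
    rw [sum_singleton] at h3
    have h4 : B' (.inl G) ≤ 3 * κ := by nlinarith
    have h5 : 4 * (Bc (.inl G) / κ) ≤ min 1 ((4 * Bc (.inl G) + Bb (.inl G)) / κ) := by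
      rw [← mul_div_assoc]
      exact le_min ((div_le_one hk).2 (by linarith)) (div_le_div_of_nonneg_right (by linarith) hk.le)
    have h6 : (B' (.inl G) - B0 (.inl G)) / κ ≤
        3 * min 1 ((4 * Bc (.inl G) + Bb (.inl G)) / κ) := by
      rw [mul_min_of_nonneg _ _ (by norm_num), ← mul_div_assoc]
      exact le_min ((div_le_iff₀ hk).2 (by linarith))
        (div_le_div_of_nonneg_right (by linarith) hk.le)
    have a := plane z m w (min_le_left _ _) (d.pw _ hj rfl)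
    have h7 := mul_le_mul_of_nonneg_right h5 m
    have h8 := mul_le_mul_of_nonneg_right h6 m
    have h9 := mul_nonneg w m
    rw [if_pos (mem_filter.2 ⟨Finsupp.mem_support_iff.2 (by linarith), rfl, hj⟩), d.psi, if_pos hm,
      if_pos Sum.isLeft_inl]
    linarith

open Classical in
lemma nonsp (hB : St_NB) :
    Y.ip (κ • Y.L - Y.cl B') Y.aK / 2 + ∑ j ∈ SS, e j +
      ∑ i ∈ Bb.support.filter (fun i => i.isLeft ∧ i ∉ SS), psi i +
      Y.ip (κ • Y.L - Y.cl B') (Y.cl (B' - B0)) / (76200 * κ) ≤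
    (Y.sq (κ • Y.L - Y.cl BW) - Y.sq (κ • Y.L - Y.cl B')) / 2 +
      Y.ip (κ • Y.L - Y.cl Bt) (κ • Y.L - Y.cl Bo) / (2 * κ) +
      Y.ip (κ • Y.L - Y.cl B0) (Y.cl B0) / (2 * κ) + SS.card * (C + 1) + 8 * C := by
  have hk := d.pos
  have hC := d.hC
  set s := Bb.support ∪ Bc.support ∪ SS with hs
  set Bs := Y.dv Bc.support fun i => if B0 i < B' i then Bc i else B0 i with hBs
  have bs : ∀ i, Bs i = if B0 i < B' i then Bc i else B0 i := fun i => by
    rw [hBs, dv_apply]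
    split_ifs with h1 h2 h3
    · rfl
    · rfl
    · exact (Finsupp.notMem_support_iff.1 h1).symm
    · exact le_antisymm (d.h0 i) ((d.h0c i).trans_eq (Finsupp.notMem_support_iff.1 h1))
  have bc : Bs ≤ Bc := fun i => by
    rw [bs]
    split_ifs
    exacts [le_rfl, d.h0c i]
  have bo : Bo ≤ Bs := fun i => by
    rw [bs]
    split_ifs with h
    · exact d.bo_le i
    · rw [d.bo, if_pos (le_antisymm ((d.ht' i).trans (not_lt.1 h)) (d.h0t i))]
  have t := sum_le_sum fun i (_ : i ∈ s) => d.term hB i (bs i)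
  simp only [sum_add_distrib, ← sum_div, ← mul_sum] at t
  rw [sum_ite_mem, sum_ite_mem, sum_ite_mem, inter_eq_right.2 subset_union_right,
    inter_eq_right.2 ((filter_subset _ _).trans (subset_union_left.trans subset_union_left)),
    sum_const, nsmul_eq_mul, ← sum_filter] at t
  have a1 := ip_cl (κ • Y.L - Y.cl B') (B' - B0) (s := s) fun i hi => by
    have := Finsupp.mem_support_iff.1 hi
    rw [Finsupp.sub_apply, sub_ne_zero] at this
    have h1 : B0 i ≤ B' i := (d.h0t i).trans (d.ht' i)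
    have h2 : 0 ≤ B0 i := d.h0 i
    have h3 : B' i ≤ Bb i := d.hb i
    exact mem_union_left _ (mem_union_left _ (Finsupp.mem_support_iff.2
      ((h2.trans_lt (h1.lt_of_ne' this)).trans_le h3).ne'))
  have a2 := ip_cl (κ • Y.L - Y.cl B') Bs (s := s) fun i hi => by
    refine mem_union_left _ (mem_union_right _ ?_)
    by_contra h
    exact Finsupp.mem_support_iff.1 hi (by rw [hBs, dv_apply, if_neg h])
  have a3 := d.drop s
  have a4 : ∑ i ∈ s, (Y.A i - 1) * Y.ip (κ • Y.L - Y.cl B') (Y.gam i) ≤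
      Y.kap (κ • Y.L - Y.cl B') := by
    rw [(hB.kapf Y d.dp _).2]
    refine (sum_le s (univ.image Sum.inr) (fun i => mul_nonneg (sub_nonneg.2 (one_le_A i)) (d.n' i))
      fun i hi => ?_).trans_eq ?_
    · cases i with
      | inl G => simp [Tree.A]
      | inr q => simp at hi
    · rw [sum_image fun _ _ _ _ h => Sum.inr_injective h]
      simp [Tree.A]
  have a5 := sum_le_ip d.nt (E := Bs - Bo) (sub_nonneg.2 bo) s
  have a6 := sum_le_ip d.n0 d.h0 s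
  have a7 := wsum hB d.dp d.pos d.c0 d.b0 d.nc d.nb (s.filter fun i => i.isLeft)
    fun i hi => (mem_filter.1 hi).2
  have a8 := (hB.kapf Y d.dp (κ • Y.L - Y.cl B')).1
  have a9 : 0 ≤ Y.ip (κ • Y.L - Y.cl Bs) (Y.cl (B' - Bt)) := by
    rw [ip_cl _ _ subset_rfl]
    refine sum_nonneg fun i hi => mul_nonneg (sub_nonneg.2 d.ht' i) ((d.nc i).trans
      (ip_ge d.dp.toPlane _ bc ?_))
    have := Finsupp.mem_support_iff.1 hi
    rw [Finsupp.sub_apply, sub_ne_zero] at this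
    rw [bs, if_pos ((d.h0t i).trans_lt ((d.ht' i).lt_of_ne' this))]
  rw [map_sub, show Y.cl B' - Y.cl Bt = (κ • Y.L - Y.cl Bt) - (κ • Y.L - Y.cl B') by abel,
    ip_sub_right, ip_comm, ip_comm _ (κ • Y.L - Y.cl B'), ip_sub_right (κ • Y.L - Y.cl B'),
    ip_smul_right] at a9
  rw [map_sub, show Y.cl Bs - Y.cl Bo = (κ • Y.L - Y.cl Bo) - (κ • Y.L - Y.cl Bs) by abel,
    ip_sub_right] at a5
  simp only [Finsupp.sub_apply] at a1 a5
  rw [← a1, ← a2] at t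
  have b1 : Y.ip (κ • Y.L - Y.cl B') Y.L / 2 ≤ Y.ip (κ • Y.L - Y.cl B') (Y.cl Bs) / (2 * κ) +
      Y.ip (κ • Y.L - Y.cl Bt) (κ • Y.L - Y.cl Bs) / (2 * κ) := by
    rw [← add_div, div_le_div_iff₀ (by norm_num) (by positivity)]
    linarith
  have b2 := div_le_div_of_nonneg_right a5 (show 0 ≤ 2 * κ by positivity)
  have b3 := div_le_div_of_nonneg_right a6 (show 0 ≤ 2 * κ by positivity)
  have b4 := mul_le_mul_of_nonneg_left a7 (show 0 ≤ C / 2 by positivity)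
  rw [sub_div] at b2
  linarith

end Dat

end NPW

end Pool.Agent.Lib.MP_a25055_ag
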