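import Pool.Agent.Lib.MP_a25055_ag.Num

/-! The tangent inequality. -/

open Module Finset MeasureTheory

noncomputable section

namespace Pool.Agent.Lib.MP_a25055_ag

namespace NTAN

lemma tangent {e : ℝ → ℝ} {a b n : ℕ} (hc : ConvexOn ℝ (Set.Icc (a : ℝ) b) e) (hp : PL e a b)
    (h1 : a ≤ n) (h2 : n < b) {t c : ℝ} (ht : t ∈ Set.Icc (n : ℝ) (n + 1))
    (hc' : c ∈ Set.Icc (a : ℝ) b) : e t - e c ≤ (t - c) * (e (n + 1) - e n) := by
  have ha : (a : ℝ) ≤ n := by exact_mod_cast h1
  have hb : (n : ℝ) + 1 ≤ b := by exact_mod_cast h2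
  rw [hp n h1 h2 t ht]
  rcases lt_or_ge c n with h | h
  · have := hc.slope_mono_adjacent hc' (z := (n : ℝ) + 1) ⟨by linarith, hb⟩ h (by linarith)
    rw [div_le_div_iff₀ (by linarith) (by linarith)] at this
    nlinarith
  rcases le_or_gt c (n + 1) with h' | h'
  · rw [hp n h1 h2 c ⟨h, h'⟩]; nlinarith
  · have := hc.slope_mono_adjacent (x := (n : ℝ)) (y := (n : ℝ) + 1) ⟨ha, by linarith⟩ hc'
      (by linarith) h'
    rw [div_le_div_iff₀ (by linarith) (by linarith)] at this
    nlinarith

lemma step {φ : ℝ → ℝ} {n c A B C : ℝ} (hi : IntervalIntegrable φ volume n (n + 1))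
    (h : ∀ t ∈ Set.Ioo n (n + 1), φ t ≤ (t - c) * (B - (t - n) * C) -
      (A - 2 * (t - n) * B + (t - n) ^ 2 * C) / 2) :
    ∫ t in n..(n + 1), φ t ≤ (n - c) * A / 2 - (n + 1 - c) * (A - 2 * B + C) / 2 := by
  have hd : ∀ t, HasDerivAt (fun t => -((t - c) * (A - 2 * (t - n) * B + (t - n) ^ 2 * C) / 2))
      ((t - c) * (B - (t - n) * C) - (A - 2 * (t - n) * B + (t - n) ^ 2 * C) / 2) t := fun t => by
    have h1 := (hasDerivAt_id t).sub_const c
    have h2 := (hasDerivAt_id t).sub_const n
    refine ((h1.fun_mul ((((h2.const_mul 2).mul_const B).const_sub A).fun_add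
      ((h2.fun_pow 2).mul_const C))).div_const 2).fun_neg.congr_deriv ?_
    simp only [id]
    norm_num
    ring
  have := intervalIntegral.integral_le_sub_of_hasDeriv_right_of_le (by linarith : n ≤ n + 1)
    (fun t _ => (hd t).continuousAt.continuousWithinAt) (fun t _ => (hd t).hasDerivWithinAt)
    ((intervalIntegrable_iff_integrableOn_Icc_of_le (by linarith)).1 hi) h
  refine this.trans (le_of_eq ?_)
  ring

end NTAN

open NTAN

theorem tan_of (hA : St_NA) (hE : St_ENV) (hP : St_PT) : St_TAN := by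
  intro Y hY k S U a b c hF hc
  have habR : (a : ℝ) ≤ b := hc.1.trans hc.2
  have hab : a ≤ b := by exact_mod_cast habR
  obtain ⟨-, p2, p3, p4, p5, p6, -⟩ := hP Y hY k S U a b hF hab
  have hPB : ∀ t, S.Pt U a b t = (k : ℝ) • Y.L - Y.cl (S.Bh U a b t) := fun _ => rfl
  have hs : ∀ t, (S.Bh U a b t).support ⊆ (S.base (U b)).support := fun t i hi => by
    by_contra h
    exact Finsupp.mem_support_iff.1 hi (by rw [Sec.Bh, Tree.dv_apply, if_neg h])
  set B := S.Bh U a b
  set P := S.Pt U a b
  have hlo : ∀ t ∈ Set.Icc (a : ℝ) b, ∀ i, (S.base (U a) i : ℝ) ≤ B t i := fun t ht i =>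
    (p2 t ht).2.1 i
  have hBo : ∀ t i, S.Bo (U a) (B t) (B c) i =
      if B t i = S.base (U a) i then (S.base (U a) i : ℝ) else B c i := fun t i => by
    rw [Sec.Bo, Tree.dv_apply]
    by_cases h : i ∈ (B c).support
    · rw [if_pos h]
    · have h0 := Finsupp.notMem_support_iff.1 h
      have h1 : (S.base (U a) i : ℝ) = 0 := le_antisymm (h0 ▸ hlo c hc i) (Nat.cast_nonneg _)
      rw [if_neg h, h0, h1, ite_self]
  have hI : Set.uIcc (a : ℝ) b = Set.Icc (a : ℝ) b := Set.uIcc_of_le habR
  have i1 : IntervalIntegrable (fun t => Y.ip (P t) (Y.cl (S.Bo (U a) (B t) (B c)))) volume a b := by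
    have : (fun t => Y.ip (P t) (Y.cl (S.Bo (U a) (B t) (B c)))) = ∑ i ∈ (B c).support,
        fun t => S.Bo (U a) (B t) (B c) i * Y.ip (Y.gam i) (P t) := by
      funext t
      rw [Tree.ip_cl _ _ (s := (B c).support) fun i hi => by
        by_contra h
        exact Finsupp.mem_support_iff.1 hi (by rw [Sec.Bo, Tree.dv_apply, if_neg h]),
        Finset.sum_apply]
      exact Finset.sum_congr rfl fun i _ => by rw [Tree.ip_comm]
    rw [this]
    refine IntervalIntegrable.sum _ fun i _ => IntervalIntegrable.mul_continuousOn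
      (MonotoneOn.intervalIntegrable ?_) (hI ▸ p5 _)
    rw [hI]
    intro t ht t' ht' htt
    simp only [hBo]
    split_ifs with h h' h'
    · exact le_rfl
    · exact hlo c hc i
    · exact absurd (le_antisymm (h' ▸ p4 ht ht' htt i) (hlo t ht i)) h
    · exact le_rfl
  refine ⟨i1, ?_⟩
  have i2 : IntervalIntegrable (fun t => Y.sq (P t)) volume a b :=
    ContinuousOn.intervalIntegrable (hI ▸ p6)
  have i3 : IntervalIntegrable (fun t => Y.ip (P t) (Y.cl (B t - S.Bo (U a) (B t) (B c))))
      volume a b := by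
    have : (fun t => Y.ip (P t) (Y.cl (B t - S.Bo (U a) (B t) (B c)))) = fun t =>
        Y.ip ((k : ℝ) • Y.L) (P t) - Y.sq (P t) -
          Y.ip (P t) (Y.cl (S.Bo (U a) (B t) (B c))) := by
      funext t
      rw [map_sub, Tree.ip_sub_right, Tree.sq, ← Tree.ip_sub_left, Tree.ip_comm (P t), hPB t,
        sub_sub_cancel]
    rw [this]
    exact ((ContinuousOn.intervalIntegrable (hI ▸ p5 _)).sub i2).sub i1
  have i4 := i3.sub (i2.div_const 2)
  have key : ∀ m : ℕ, a ≤ m → m ≤ b → ∫ t in (a : ℝ)..m,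
      (Y.ip (P t) (Y.cl (B t - S.Bo (U a) (B t) (B c))) - Y.sq (P t) / 2) ≤
        (a - c) * Y.sq (P a) / 2 - (m - c) * Y.sq (P m) / 2 := by
    intro m hm
    induction m, hm using Nat.le_induction with
    | base => simp
    | succ n h1 ih =>
      intro h2
      have ha : (a : ℝ) ≤ n := by exact_mod_cast h1
      have hb : (n : ℝ) + 1 ≤ b := by exact_mod_cast h2
      have hn : (n : ℝ) ∈ Set.Icc (a : ℝ) b := ⟨ha, by linarith⟩
      have hn' : (n : ℝ) + 1 ∈ Set.Icc (a : ℝ) b := ⟨by linarith, hb⟩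
      have j2 := i4.mono_set (c := n) (d := n + 1) (hI ▸ Set.uIcc_subset_Icc hn hn')
      have j1 := i4.mono_set (c := a) (d := n) (hI ▸ Set.uIcc_subset_Icc ⟨le_rfl, habR⟩ hn)
      have hBt : ∀ t ∈ Set.Icc (n : ℝ) (n + 1), B t = B n + (t - n) • (B (n + 1) - B n) :=
        fun t ht => by
          ext i
          simp only [Finsupp.add_apply, Finsupp.smul_apply, Finsupp.sub_apply, smul_eq_mul]
          rw [(p2 t ⟨by linarith [ht.1], by linarith [ht.2]⟩).1, (p2 _ hn).1, (p2 _ hn').1,
            (hE.conv _ a b hab).2.2.1 n h1 h2 t ht]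
          ring
      have hPt : ∀ t ∈ Set.Icc (n : ℝ) (n + 1),
          P t = P n - (t - n) • Y.cl (B (n + 1) - B n) := fun t ht => by
        rw [hPB, hPB, hBt t ht, map_add, map_smul, sub_sub]
      have hsq : ∀ t ∈ Set.Icc (n : ℝ) (n + 1), Y.sq (P t) = Y.sq (P n) -
          2 * (t - n) * Y.ip (P n) (Y.cl (B (n + 1) - B n)) +
            (t - n) ^ 2 * Y.sq (Y.cl (B (n + 1) - B n)) := fun t ht => by
        rw [hPt t ht]
        simp only [Tree.sq, Tree.ip_sub_left, Tree.ip_sub_right, Tree.ip_smul_left,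
          Tree.ip_smul_right, Tree.ip_comm (Y.cl _) (P n)]
        ring
      have h3 := step (c := c) (A := Y.sq (P n)) (B := Y.ip (P n) (Y.cl (B (n + 1) - B n)))
        (C := Y.sq (Y.cl (B (n + 1) - B n))) j2 fun t ht => by
          have ht' : t ∈ Set.Icc (n : ℝ) (n + 1) := Set.Ioo_subset_Icc_self ht
          have ht'' : t ∈ Set.Icc (a : ℝ) b := ⟨by linarith [ht.1], by linarith [ht.2]⟩
          have h4 := (p2 t ht'').2.2.2.1.ip_cl (E := (t - c) • (B (n + 1) - B n) -
            (B t - S.Bo (U a) (B t) (B c))) fun i => by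
              simp only [Finsupp.smul_apply, Finsupp.sub_apply, smul_eq_mul, Finsupp.zero_apply,
                hBo]
              split_ifs with h
              · have h5 := congrArg (· i) (hBt t ht')
                simp only [Finsupp.add_apply, Finsupp.smul_apply, Finsupp.sub_apply,
                  smul_eq_mul] at h5
                have h6 : B n i ≤ B (n + 1) i := p4 hn hn' (by linarith) i
                have h7 : B (n + 1) i - B n i = 0 :=
                  le_antisymm (by nlinarith [hlo _ hn i, ht.1]) (by linarith)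
                rw [h7, h]; simp
              · rw [(p2 t ht'').1, (p2 _ hn).1, (p2 _ hn').1, (p2 c hc).1, sub_nonneg]
                exact tangent (hE.conv _ a b hab).1 (hE.conv _ a b hab).2.2.1 h1 h2 ht' hc
          rw [map_sub, map_smul, Tree.ip_sub_right, Tree.ip_smul_right] at h4
          have h8 : Y.ip (P t) (Y.cl (B (n + 1) - B n)) = Y.ip (P n) (Y.cl (B (n + 1) - B n)) -
              (t - n) * Y.sq (Y.cl (B (n + 1) - B n)) := by
            rw [hPt t ht', Tree.ip_sub_left, Tree.ip_smul_left, Tree.sq]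
          rw [← hsq t ht', ← h8]
          linarith
      have h9 := hsq (n + 1) ⟨by linarith, le_rfl⟩
      rw [Nat.cast_succ, ← intervalIntegral.integral_add_adjacent_intervals j1 j2, h9]
      have := ih (by omega)
      simp only [add_sub_cancel_left, mul_one, one_pow, one_mul]
      linarith
  have h1 := key b hab le_rfl
  have h2 := mul_nonneg (sub_nonneg.2 hc.2) (hA.nef Y hY _ (p2 b ⟨habR, le_rfl⟩).2.2.2.1).2.2
  rw [intervalIntegral.integral_sub i3 (i2.div_const 2), intervalIntegral.integral_div] at h1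
  rw [show S.mov (U a) = P a by rw [hPB, p3, Sec.mov]]
  linarith

end Pool.Agent.Lib.MP_a25055_ag
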